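import Pool.Agent.QWP.StA

set_option autoImplicit false

/-!
# QWP, block A, part 2: Strichartz estimates, lower semicontinuity, near field

Every `St_X` is to be proved as `theorem thm_X : St_X` in `Pool/Agent/QWP/X.lean`.
-/

open MeasureTheory Filter Topology Set
open scoped ENNReal NNReal RealInnerProductSpace

namespace Pool.Agent.QWP

open Pool.Agent.QWE (E S sg mu K toK tau sh dl rev gr ig IsTest pd lap Rad dRad Rk dRk c0 WD Sm SmE IsSch half shr WTo Kc Sph kap IsMol)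

/-- **KerB** (one dimensional profile of the kernel). Proof. `P(t) = max 0 (1 - t²)` is Lipschitz, `0 ≤ P ≤ 1`, supported in `[-1,1]`.
(i) `|P t - P t'| ≤ 2 |t-t'|` and `≤ 1`: the integral is at most `C` for `|t| ≤ 2`; for `|t| > 2`, `P t = 0` and `|t-t'| ≥ |t|/2` on the support:
`≤ C |t|^{-1-α}`. (ii) for `|t| ≤ 2` the integral of `|t-t'|^{α-1}` over `[-1,1]` is bounded; for `|t| > 2` it is `≤ C |t|^{α-1}`. -/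
def St_KerB : Prop := ∀ α : ℝ, 0 < α → α < 1 → ∃ C : ℝ, 0 < C ∧ ∀ t : ℝ,
  (Integrable (fun t' => (max 0 (1 - t ^ 2) - max 0 (1 - t' ^ 2)) * |t - t'| ^ (-1 - α)) volume ∧
    |∫ t' : ℝ, (max 0 (1 - t ^ 2) - max 0 (1 - t' ^ 2)) * |t - t'| ^ (-1 - α)| ≤ C * (1 + |t|) ^ (-1 - α)) ∧
  (Integrable (fun t' => max 0 (1 - t' ^ 2) * |t - t'| ^ (α - 1)) volume ∧
    |∫ t' : ℝ, max 0 (1 - t' ^ 2) * |t - t'| ^ (α - 1)| ≤ C * (1 + |t|) ^ (α - 1))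

/-- **KerP** (the kernel of `T T*`). Proof. `A(t) := ⟨tau t (Rk φ), Rk ψ⟩ = ∫∫ φ(x) ψ(y) Kc t (x-y)` (RadT for `ψ` with `g(p) = Rad φ (w,p-t)`, then QWE.Sph:
`∫_S Rad φ (w, y·w - t) dw = Sph φ t y = ∫ φ(x) Kc t (y-x) dx`). By Par (`s = s' = 0`) `A(t) = (∫ e^{-2πirt} G(r) dr).re`, `G(r) = ∫_S ft φ (r w) conj (ft ψ (r w)) dw`, and `G` may be replaced by its hermitian part, so `A(t) = ∫ e^{-2πirt} G(r) dr` (the left side is real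
for all `t`; use `(G(r) + conj G(-r))/2`); `A` has compact support. `B(t) := ⟨tau t (Rs s φ), Rs s ψ⟩ = ∫ |2πr|^{-2s} e^{-2πirt} G(r) dr`. `s < 0`, `α = -2s`: Rsz (i), Fubini: `N t z = C1 ∫ (Kc t z - Kc t' z) |t-t'|^{-1-α} dt'`; `s > 0`, `α = 2s`: Rsz (ii), `N t z = C2 ∫ Kc t' z |t-t'|^{α-1} dt'`;
`s = 0`: `N = Kc`. `Kc t z = 2π² |z|^{-1} P(t/|z|)`, so by scaling and KerB `|N t z| ≤ C |z|^{-1} |z|^{2s} (1 + |t|/|z|)^{-1+2s} = C (|t|+|z|)^{-1+2s}` (for `s = 0`: `Kc t z = 0` for `|t| ≥ |z|`). Fubini in `x, y` is legitimate: `|z|^{-1+2s}` is locally integrable, and in `t'` by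
absolute convergence with the bounds of KerB. -/
def St_KerP : Prop := ∀ s : ℝ, |s| < 1 / 2 → ∃ (C : ℝ) (N : ℝ → E → ℝ), 0 < C ∧ Measurable (Function.uncurry N) ∧
  (∀ t z, z ≠ 0 → |N t z| ≤ C * (|t| + ‖z‖) ^ (-1 + 2 * s)) ∧
  ∀ (t : ℝ) (φ ψ : E → ℝ), IsTest φ → IsTest ψ →
    inner ℝ (tau t (Rs s φ)) (Rs s ψ) = ∫ x, ∫ y, φ x * ψ y * N t (x - y)

/-- **KerL** (the kernel in mixed norms). `1/q + 5/r = 1/2 - s`, `2 < q`. Proof: `‖(|t| + |·|)^{-1+2s}‖_{L^{r/2}(E)} = C |t|^{-(1-2s) + 10/r} = C |t|^{-2/q}` (polar coordinates; `(1-2s) r/2 > 5` because `5/r < 1/2 - s`). Young's inequality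
`∫∫ a(x) b(y) κ(x-y) ≤ ‖a‖_{r'} ‖b‖_{r'} ‖κ‖_{r/2}` (`2/r' + 2/r = 2`) and HLSP with `γ = 2/q`, `2/(2-γ) = q'`. `r' = r/(r-1)`, `q' = q/(q-1)`. -/
def St_KerL : Prop := ∀ (s q r : ℝ), |s| < 1 / 2 → 2 < q → 0 < r → 1 / q + 5 / r = 1 / 2 - s → ∃ C : ℝ, 0 < C ∧
  ∀ F : ℝ → E → ℝ≥0∞, Measurable (Function.uncurry F) →
  ∫⁻ t, ∫⁻ t', ∫⁻ x, ∫⁻ y, F t x * F t' y * ENNReal.ofReal ((|t - t'| + ‖x - y‖) ^ (-1 + 2 * s)) ≤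
    ENNReal.ofReal C * (∫⁻ t, (∫⁻ x, F t x ^ (r / (r - 1))) ^ ((r - 1) / r * (q / (q - 1)))) ^ (2 * (q - 1) / q)

/-- **StrT** (Strichartz estimate for test states). Proof. `k = Theta s f g`; `u(t) = U s (tau t k)` is a.e. equal to a test function `f'(t)` (FreeP), `t ↦ f'(t)` is continuous with values in `L^r`: `r > 5` (as `5/r < 1/2 - s < 1`), so `r = 10/(1-2s1)` for some
`s1 ∈ (-1/2,1/2)`, and `f'(t)` is also the position field of `tau t (Theta s1 f g)` (DecayP: `f'` does not depend on `s`), continuous in `K`; FldP. Let `T > 0`, `ε > 0`, a partition of `[-T,T]` into intervals `I_j ∋ t_j` so fine that `‖u(t) - u(t_j)‖_r ≤ ε` on `I_j`, and test functions `φ_j` with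
`‖φ_j‖_{r'} ≤ ‖u(t_j)‖_r^{q-1}` and `∫ u(t_j) φ_j ≥ ‖u(t_j)‖_r^q - ε` (duality and density of test functions in `L^{r'}`). `X := ∫ Σ_j 1_{I_j}(t) tau (-t) (Rs s φ_j) dt ∈ K`; `⟨k, X⟩ = Σ_j ∫_{I_j} ∫ u(t) φ_j` and `‖X‖² = Σ_{ij} ∫_{I_i} ∫_{I_j} ⟨tau (t'-t) (Rs s φ_i), Rs s φ_j⟩ dt dt' ≤
∫∫∫∫ |F(t,x)| |F(t',y)| |N(t'-t, x-y)| ≤ C ‖F‖²_{L^{q'}L^{r'}}`, `F = Σ 1_{I_j} φ_j` (KerP, KerL), `‖F‖_{L^{q'}L^{r'}}^{q'} ≤ Σ |I_j| ‖u(t_j)‖_r^q`. So `Σ |I_j| ‖u(t_j)‖_r^q ≤ C ‖k‖ (Σ |I_j| ‖u(t_j)‖_r^q)^{1/q'} + O(ε)`; `ε → 0`: `∫_{-T}^T ‖u‖_r^q ≤ (C ‖k‖)^q`; `T → ∞`. -/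
def St_StrT : Prop := ∀ (s q r : ℝ), |s| < 1 / 2 → 2 < q → 0 < r → 1 / q + 5 / r = 1 / 2 - s → ∃ C : ℝ, 0 < C ∧
  ∀ f g : E → ℝ, IsTest f → IsTest g →
  ∫⁻ t, eLpNorm (U s (tau t (Theta s f g))) (ENNReal.ofReal r) volume ^ q ≤
    (ENNReal.ofReal C * ‖Theta s f g‖ₑ) ^ q

/-- **LscP** (lower semicontinuity). Proof: if `k_n → k` in `K` then `U s k_n → U s k` in `L^{q0}` (FldP), a subsequence converges a.e.; Fatou. (For sequences; `K` is metric.) The same for `DU`, `V` in `L^{q1}`. -/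
def St_LscP : Prop := ∀ (s : ℝ) (p : ℝ≥0∞) (B : Set E), |s| < 1 / 2 → 1 ≤ p → MeasurableSet B →
  LowerSemicontinuous (fun k : K => eLpNorm (B.indicator (U s k)) p volume) ∧
  (∀ i, LowerSemicontinuous (fun k : K => eLpNorm (B.indicator (DU s k i)) p volume)) ∧
  LowerSemicontinuous (fun k : K => eLpNorm (B.indicator (V s k)) p volume)

/-- **StrP** (Strichartz estimate). Proof: StrT, density of test states (DnsP), LscP and Fatou in `t`. -/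
def St_StrP : Prop := ∀ (s q r : ℝ), |s| < 1 / 2 → 2 < q → 0 < r → 1 / q + 5 / r = 1 / 2 - s → ∃ C : ℝ, 0 < C ∧
  ∀ k : K, ∫⁻ t, eLpNorm (U s (tau t k)) (ENNReal.ofReal r) volume ^ q ≤ (ENNReal.ofReal C * ‖k‖ₑ) ^ q

/-- **StrS** (the Strichartz estimate in the norm of the local theory, and a second pair). `b > 2`, `s = sig b`: `1/2 - s = 2/b`. Proof: StrP with `q = b > 2`, `r = 5b` (`1/b + 5/(5b) = 2/b`), and with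
`q = (b + 2)/2`, `r = 5b(b+2)/4` (`2/(b+2) + 4/(b(b+2)) = 2/b`). -/
def St_StrS : Prop := ∀ b : ℝ, 2 < b → ∃ C : ℝ, 0 < C ∧ ∀ k : K,
  ∫⁻ t, sn b (tau t k) ^ b ≤ (ENNReal.ofReal C * ‖k‖ₑ) ^ b ∧
  ∫⁻ t, eLpNorm (U (sig b) (tau t k)) (ENNReal.ofReal (5 * b * (b + 2) / 4)) volume ^ ((b + 2) / 2) ≤
    (ENNReal.ofReal C * ‖k‖ₑ) ^ ((b + 2) / 2)

/-- **SnP** (the size `sn b`). Proof: Minkowski and FldP (linearity), ActP (scaling: `e^{(1/2-s)a} e^{-5a/(5b)} = e^{(2/b - 1/b) a} = e^{a/b}`), LscP. -/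
def St_SnP : Prop := ∀ b : ℝ, 2 < b →
  (∀ k k' : K, sn b (k + k') ≤ sn b k + sn b k') ∧ (∀ (c : ℝ) (k : K), sn b (c • k) = ‖c‖ₑ * sn b k) ∧
  (∀ (y : E) (a : ℝ) (k : K), sn b (gr y a k) = ENNReal.ofReal (Real.exp (a / b)) * sn b k) ∧
  (∀ k : K, sn b (rev k) = sn b k) ∧ sn b 0 = 0 ∧ LowerSemicontinuous (fun k : K => sn b k)

/-! ### Near field -/

/-- **NFt** (transfer from `s = 0`). Proof: `Gam s F = Theta s 0 F = - c0 dRs (-s) (lap F)` for test `F` (IsoP, GamP), `Rs s ψ = JK s (Rad ψ)` (PJ), `IsMul` (MulP), `tau σ` on `JK` (PJ), then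
`⟨dRs (-s) (lap F), JK s h⟩ = ∫ h dRad (lap F)` (PJ): the left side is `- c0 ∫ θ(p + ..)..`, explicitly `- c0 ∫ θ(z.2) Rad ψ z · dRad (lap F) (z.1, z.2 + σ) dμ`, which does not depend on `s`; for `s = 0` it is the right side (Idn; `QWE.Gam F = QWE.Theta 0 F`). -/
def St_NFt : Prop := ∀ (s σ : ℝ) (θ : ℝ → ℝ) (F ψ : E → ℝ), |s| < 1 / 2 → Sm θ → (∀ p, |θ p| ≤ 1) →
  (∀ p, 1 / 12 ≤ |p| → θ p = 0) → IsTest F → IsTest ψ →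
  inner ℝ (Mul s θ (tau (-σ) (Gam s F))) (Rs s ψ) =
    inner ℝ (Pool.Agent.QWE.mulK (fun z => θ z.2) (tau (-σ) (Pool.Agent.QWE.Gam F))) (Rk ψ) ∧
  inner ℝ (Mul s θ (tau (-σ) (Gam s F))) (dRs s ψ) =
    inner ℝ (Pool.Agent.QWE.mulK (fun z => θ z.2) (tau (-σ) (Pool.Agent.QWE.Gam F))) (dRk ψ)

/-- **NFc** (pointwise bounds of the regularised near field, up to order 3). Proof as the first half of QWE.NFb: `f(x) = ∫_S kap (w, x·w) dw`, `g(x) = - ∫_S ∂_p kap (w, x·w) dw`; NFK with `n = 3 - j + m ≤ 7`. Duality: Fubini, RadT. -/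
def St_NFc : Prop := ∀ θ : ℝ → ℝ, Sm θ → (∀ p, |θ p| ≤ 1) → (∀ p, 1 / 12 ≤ |p| → θ p = 0) →
  ∃ C : ℝ, 0 < C ∧ ∀ (F : E → ℝ) (σ : ℝ) (φ : ℝ → ℝ), IsTest F → (∀ x, 1 / 3 ≤ ‖x‖ → F x = 0) → 0 ≤ σ → σ ≤ 1 / 8 →
    IsMol (1 / 100) φ → ∃ f g : E → ℝ, SmE f ∧ SmE g ∧
    (∀ ψ, IsTest ψ → ∫ x, f x * ψ x = inner ℝ (toK (kap θ F σ φ)) (Rk ψ) ∧
      ∫ x, g x * ψ x = inner ℝ (toK (kap θ F σ φ)) (dRk ψ)) ∧
    ∀ x, 3 / 4 ≤ ‖x‖ → ∀ n ≤ 3, ‖iteratedFDeriv ℝ n f x‖ ≤ C * (∫ y, |F y|) / ‖x‖ ^ (n + 1) ∧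
      ‖iteratedFDeriv ℝ n g x‖ ≤ C * (∫ y, |F y|) / ‖x‖ ^ (n + 2)

/-- **DyS** (states from decaying functions; dyadic decomposition). Proof. `χ` smooth, `0` for `|x| ≤ 3/4`, `1` for `|x| ≥ 1`; `η` smooth, supported in `1/2 < |x| < 2`, `Σ_{j ≥ 0} η(2^{-j} x) = 1` for `|x| ≥ 3/4`. `f_j = η(2^{-j}·) χ f`, `g_j = η(2^{-j}·) χ g` are test functions,
`‖∂^α f_j‖_2 ≤ C B 2^{-(1+|α|) j} 2^{5j/2}`, `‖∂^α g_j‖_2 ≤ C B 2^{-(2+|α|)j} 2^{5j/2}` (`|α| ≤ 3`), so by Hs (interpolation, `n = 3`) `hs (2+s) f_j ≤ C B² 2^{-(1+2s) j}`, `hs (1+s) g_j ≤ C B² 2^{-(1+2s) j}`: `W = Σ_j Theta s f_j g_j` converges absolutely, `‖W‖ ≤ C B` (`1 + 2s > 0`). Test functions with support in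
`{|x| > 1}` meet only finitely many `j`; IsoP. -/
def St_DyS : Prop := ∀ s : ℝ, |s| < 1 / 2 → ∃ C : ℝ, 0 < C ∧ ∀ (f g : E → ℝ) (B : ℝ), SmE f → SmE g → 0 ≤ B →
  (∀ x, 3 / 4 ≤ ‖x‖ → ∀ n ≤ 3, ‖iteratedFDeriv ℝ n f x‖ ≤ B / ‖x‖ ^ (n + 1) ∧
    ‖iteratedFDeriv ℝ n g x‖ ≤ B / ‖x‖ ^ (n + 2)) →
  ∃ W : K, ‖W‖ ≤ C * B ∧ ∀ ψ, IsTest ψ → tsupport ψ ⊆ xt 0 1 →
    inner ℝ W (Rs s ψ) = ∫ x, f x * ψ x ∧ inner ℝ W (dRs s ψ) = ∫ x, g x * ψ x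

/-- **NF1P** (near field, unit scale, smooth sources). Proof: let `κ = Mul s θ (tau (-σ) (Gam s F))`, `φ_n` mollifiers with support in `(-1/(n+100), 1/(n+100))`, `W_n` from NFc and DyS with `B = C ‖F‖_1`. For a finite sum `w = Rs s ψ1 + dRs s ψ2`, `ψ1, ψ2` test functions supported in `xt 0 1`:
`⟨κ, w⟩ = lim (⟨toK kap_n, Rk ψ1⟩ + ⟨toK kap_n, dRk ψ2⟩) = lim ⟨W_n, w⟩ ≤ C ‖F‖_1 ‖w‖` (NFt, QWE.NFa). Such `w` are dense in `TS s (xt 0 1)`, so `ex s (xt 0 1) κ ≤ C ‖F‖_1`. -/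
def St_NF1P : Prop := ∀ (s : ℝ) (θ : ℝ → ℝ), |s| < 1 / 2 → Sm θ → (∀ p, |θ p| ≤ 1) → (∀ p, 1 / 12 ≤ |p| → θ p = 0) →
  ∃ C : ℝ, 0 < C ∧ ∀ (F : E → ℝ) (σ : ℝ), IsTest F → (∀ x, 1 / 3 ≤ ‖x‖ → F x = 0) → 0 ≤ σ → σ ≤ 1 / 8 →
  ex s (xt 0 1) (Mul s θ (tau (-σ) (Gam s F))) ≤ C * ∫ x, |F x|

/-- **NFP** (near field, P2). Proof. Scaling: `F1(x) = F(Rx)`, `Gam s F = R^{3/2-s} gr 0 (-log R) (Gam s F1)` (ActP, GamP uniqueness), `Mul s (θ(·/R)) (gr 0 (-log R) w) = gr 0 (-log R) (Mul s θ w)` (`dl a (JK s h) = e^{(1/2+s) a}... JK s (h(w, e^a p))` up to a constant factor, and IsMul), `tau (-σ) (gr 0 (-log R) w) =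
gr 0 (-log R) (tau (-σ/R) w)`, `ex s (xt 0 R) (gr 0 (-log R) w) = ex s (xt 0 1) w` (ActP), `‖F1‖_1 = R^{-5} ‖F‖_1`: so `R = 1`. Mollify: `F_ε = ρ_ε * F` is a test function, `= 0` for `|x| ≥ 1/3` (small `ε`), `‖F_ε‖_1 ≤ ‖F‖_1`, and `Gam s F_ε → Gam s F` weakly: `|∫ F_ε φ| = |∫ F (ρ_ε * φ)| ≤ B (hs (-1-s) φ)^{1/2}`
(`|ρ_ε^| ≤ 1`), so the norms are bounded (GamP), and the products with `Rs s φ`, `dRs s φ` converge (DnsP). `ex s Ω` of a bounded operator is weakly lower semicontinuous (ExBP); NF1P. -/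
def St_NFP : Prop := ∀ (s : ℝ) (θ : ℝ → ℝ), |s| < 1 / 2 → Sm θ → (∀ p, |θ p| ≤ 1) → (∀ p, 1 / 12 ≤ |p| → θ p = 0) →
  ∃ C : ℝ, 0 < C ∧ ∀ (R B : ℝ) (F : E → ℝ) (σ : ℝ), 0 < R → 0 ≤ B → Integrable F volume →
    (∀ φ, IsTest φ → |∫ x, F x * φ x| ≤ B * (hs (-1 - s) φ) ^ (1 / 2 : ℝ)) →
    (∀ᵐ x, R / 4 < ‖x‖ → F x = 0) → 0 ≤ σ → σ ≤ R / 8 →
    ex s (xt 0 R) (Mul s (fun p => θ (p / R)) (tau (-σ) (Gam s F))) ≤ C * R ^ (-(7 / 2 : ℝ) - s) * ∫ x, |F x|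

/-! ### Compactness -/

/-- **MolP** (mollification error). Proof: for test states `Theta s f g` Plancherel: `‖∂_i f - ρ_ε * ∂_i f‖_2² = ∫ |1 - ρ^(εξ)|² |2πξ_i|² |f^|²`, and `|1 - ρ^(η)| ≤ C min(1, |η|²) ≤ C |η|^{1+s}` (`ρ` is even with integral 1, `0 < 1+s < 2`), so it is
`≤ C ε^{2(1+s)} hs (1+s) (∂_i f) ≤ C ε^{2(1+s)} ‖k‖²` (Hs, IsoP); the same for `g`. General `k`: test states converging to `k`, a subsequence of the fields converges a.e. and in `L^{q1}` (so the mollified functions converge pointwise); Fatou. -/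
def St_MolP : Prop := ∀ (s : ℝ) (ρ : E → ℝ), |s| < 1 / 2 → IsTest ρ → ∫ x, ρ x = 1 → (∀ x, ρ (-x) = ρ x) →
  ∃ C : ℝ, 0 < C ∧ ∀ (k : K) (ε : ℝ), 0 < ε →
  (∀ i, eLpNorm (fun x => DU s k i x - ∫ y, ρ y * DU s k i (x - ε • y)) 2 volume ≤
    ENNReal.ofReal (C * ε ^ (1 + s)) * ‖k‖ₑ) ∧
  eLpNorm (fun x => V s k x - ∫ y, ρ y * V s k (x - ε • y)) 2 volume ≤
    ENNReal.ofReal (C * ε ^ (1 + s)) * ‖k‖ₑ

/-- **WkP** (local compactness; paper G4). Proof: `ρ_ε * f` for `f = U s k_n, DU s k_n i, V s k_n`: `(ρ_ε * U s k_n)(x) = ⟨k_n, Rs s (ρ_ε(x - ·))⟩ → 0` pointwise, bounded on bounded sets uniformly in `n` (Hoelder, FldP), so it tends to `0` in `L²(B)`; the error is small by MolP; for `U`: Poincare type estimate on balls, `‖f - ρ_ε * f‖_{L²(B)} ≤ C ε ‖∇f‖_{L²(B')}`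
(`f - ρ_ε * f = - ∫_0^1 ∫ ρ(y) ε y·∇f(x - τεy) dy dτ`), `∇f` bounded in `L^{q1} ⊆ L²(B')`. -/
def St_WkP : Prop := ∀ (s : ℝ) (k : ℕ → K) (M : ℝ), |s| < 1 / 2 → WTo k 0 →
  Tendsto (fun n => eLpNorm ((Metric.ball (0 : E) M).indicator (U s (k n))) 2 volume) atTop (𝓝 0) ∧
  (∀ i, Tendsto (fun n => eLpNorm ((Metric.ball (0 : E) M).indicator (DU s (k n) i)) 2 volume) atTop (𝓝 0)) ∧
  Tendsto (fun n => eLpNorm ((Metric.ball (0 : E) M).indicator (V s (k n))) 2 volume) atTop (𝓝 0)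

end Pool.Agent.QWP
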