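import Pool.Agent.QWP.DefsM

set_option autoImplicit false

/-!
# QWP, block M: the nonlinearity, by dual Sobolev inequalities and integer derivatives

`b > 2`, `s = sig b = 1/2 - 2/b`, `F = Fn b`. Every `St_X` is to be proved as `theorem thm_X : St_X` (with the cited statements as
hypotheses) in `Pool/Agent/QWP/X.lean`. Exponents: `1/q0 = 2/(5b)`, `1/q1 = 1/5 + 2/(5b)`, `1/q2 = 2/5 + 2/(5b)`,
`1/p2 = 3/5 + 2/(5b)`; `sn b k` is the norm of `u = U (sig b) k` in `L^{5b}`. For `b ≤ 4` (`s ≤ 0`) the norm of a source is bounded by its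
gradient in `L^{q2}`, for `b > 4` (`s > 0`) by its second derivatives in `L^{p2}`:
`1/5 + 1/q1 = 1/q2`, `1/5 + 1/q2 = 1/p2`.
-/

open MeasureTheory Filter Topology Set
open scoped ENNReal NNReal RealInnerProductSpace

namespace Pool.Agent.QWP

open Pool.Agent.QWE (E S sg mu K toK tau sh dl rev gr ig IsTest pd lap Rad dRad Rk dRk c0 WD Sm SmE IsSch half shr WTo)

/-- **Npq** (pointwise inequalities). Proof: `HasDerivAt` of `|u|^b u` and `|u|^b` (`b > 1`; at `0` directly); mean value theorem on the segment for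
`u ↦ |u|^b` (derivative `b |u|^{b-2} u`, bounded by `b (|u|+|w|)^{b-1}`) and for `u ↦ |u|^{b-2} u` (`b > 2`; derivative `(b-1)|u|^{b-2}`; this function is continuous, and differentiable also at `0`). The last two: apply the second and
third with the segment from `u` to `u + w`. -/
def St_Npq : Prop := ∀ b : ℝ, 2 < b → ∃ C : ℝ, 0 < C ∧
  (∀ u : ℝ, HasDerivAt (Fn b) ((b + 1) * |u| ^ b) u) ∧
  (∀ u : ℝ, HasDerivAt (fun u : ℝ => |u| ^ b) (b * (|u| ^ (b - 2) * u)) u) ∧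
  Continuous (fun u : ℝ => |u| ^ b) ∧ Continuous (fun u : ℝ => |u| ^ (b - 2) * u) ∧
  (∀ u w : ℝ, |Fn b u - Fn b w| ≤ C * (|u| + |w|) ^ b * |u - w|) ∧
  (∀ u w : ℝ, abs (|u| ^ b - |w| ^ b) ≤ C * (|u| + |w|) ^ (b - 1) * |u - w|) ∧
  (∀ u w : ℝ, |(|u| ^ (b - 2) * u) - |w| ^ (b - 2) * w| ≤ C * (|u| + |w|) ^ (b - 2) * |u - w|) ∧
  (∀ u w : ℝ, abs (|u + w| ^ b - |u| ^ b) ≤ C * (|u| ^ (b - 1) + |w| ^ (b - 1)) * |w|) ∧
  ∀ u w : ℝ, |(|u + w| ^ (b - 2) * (u + w)) - |u| ^ (b - 2) * u| ≤ C * (|u| ^ (b - 2) + |w| ^ (b - 2)) * |w|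

/-- **SoD** (dual Sobolev bound for test sources). Proof. Hs: `hs (1+s) F = Σ_i hs s (∂_i F)`, and `= Σ_i Σ_j hs (s-1) (∂_j ∂_i F)` (`-3/2 < s - 1`). `s = 0`: `hs 0 f = ∫ f²`, `q2 0 = 2`. `s < 0`: SobP (dual part) with `a = -s`: `hs s f ≤ C ‖f‖²_{10/(5-2s)}`;
second derivatives: SobP with `a = 1 - s ∈ (1/2, 3/2)`: `hs (s-1) f ≤ C ‖f‖²_{10/(5+2(1-s))}`, `10/(5+2(1-s)) = 10/(7-2s)`. -/
def St_SoD : Prop := ∀ s : ℝ, |s| < 1 / 2 → ∃ C : ℝ, 0 < C ∧ ∀ F : E → ℝ, IsTest F →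
  (s ≤ 0 → ENNReal.ofReal ((hs (1 + s) F) ^ (1 / 2 : ℝ)) ≤
    ENNReal.ofReal C * ∑ i, eLpNorm (pd i F) (q2 s) volume) ∧
  ENNReal.ofReal ((hs (1 + s) F) ^ (1 / 2 : ℝ)) ≤
    ENNReal.ofReal C * ∑ i, ∑ j, eLpNorm (pd j (pd i F)) (p2 s) volume

/-- **ApW** (approximation of functions with weak derivatives by test functions). Proof. `χ` smooth, `= 1` on `B(0,1)`, `= 0` off `B(0,2)`, `χ_M = χ(·/M)`, `ρ_ε` mollifier. `χ_M F` has the weak gradient `χ_M G_i + (∂_i χ_M) F`, and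
`‖(∂_i χ_M) F‖_{q2} ≤ ‖∂_i χ_M‖_5 ‖F‖_{L^{q1}(|x| > M)} = C ‖F‖_{L^{q1}(|x| > M)} → 0` (Hoelder, `1/q2 = 1/5 + 1/q1`; `‖∂_i χ_M‖_5` does not depend on `M`). Mollification commutes with weak derivatives, `ρ_ε * f → f` in `L^p`. Second part: `χ_M F` has the second weak derivatives
`χ_M H_ij + (∂_j χ_M) G_i + (∂_i χ_M) G_j + (∂_j ∂_i χ_M) F`; `‖(∂_j χ_M) G_i‖_{p2} ≤ C ‖G_i‖_{L^{q2}(|x|>M)}` (`1/p2 = 1/5 + 1/q2`), `‖(∂_j ∂_i χ_M) F‖_{p2} ≤ ‖∂_j∂_i χ_M‖_{5/2} ‖F‖_{L^{q1}(|x|>M)}` (`1/p2 = 2/5 + 1/q1`). Choose `M_n → ∞`, then `ε_n`. -/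
def St_ApW : Prop := ∀ s : ℝ, |s| < 1 / 2 →
  (∀ (F : E → ℝ) (G : Fin 5 → E → ℝ), MemLp F (q1 s) volume → (∀ i, MemLp (G i) (q2 s) volume ∧ WD i F (G i)) →
    ∃ f : ℕ → E → ℝ, (∀ n, IsTest (f n)) ∧ Tendsto (fun n => eLpNorm (fun x => f n x - F x) (q1 s) volume) atTop (𝓝 0) ∧
      ∀ i, Tendsto (fun n => eLpNorm (fun x => pd i (f n) x - G i x) (q2 s) volume) atTop (𝓝 0)) ∧
  (∀ (F : E → ℝ) (G : Fin 5 → E → ℝ) (H : Fin 5 → Fin 5 → E → ℝ), MemLp F (q1 s) volume →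
    (∀ i, MemLp (G i) (q2 s) volume ∧ WD i F (G i)) → (∀ i j, MemLp (H i j) (p2 s) volume ∧ WD j (G i) (H i j)) →
    ∃ f : ℕ → E → ℝ, (∀ n, IsTest (f n)) ∧ Tendsto (fun n => eLpNorm (fun x => f n x - F x) (q1 s) volume) atTop (𝓝 0) ∧
      ∀ i j, Tendsto (fun n => eLpNorm (fun x => pd j (pd i (f n)) x - H i j x) (p2 s) volume) atTop (𝓝 0))

/-- **GamQ** (sources). Proof. ApW: test `f_n → F` in `L^{q1}`, with gradients (second derivatives) converging in `L^{q2}` (`L^{p2}`). Parseval and Cauchy-Schwarz on the Fourier side (Ft): `|∫ f_n φ| ≤ (hs (1+s) f_n)^{1/2} (hs (-1-s) φ)^{1/2}`; SoD; `n → ∞`. So the hypothesis of GamP holds with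
`B = C Σ ‖..‖`. -/
def St_GamQ : Prop := ∀ s : ℝ, |s| < 1 / 2 → ∃ C : ℝ, 0 < C ∧ ∀ (F : E → ℝ) (G : Fin 5 → E → ℝ),
  MemLp F (q1 s) volume → (∀ i, MemLp (G i) (q2 s) volume ∧ WD i F (G i)) →
  (s ≤ 0 → IsGam s F (Gam s F) ∧ ‖Gam s F‖ₑ ≤ ENNReal.ofReal C * ∑ i, eLpNorm (G i) (q2 s) volume) ∧
  ∀ H : Fin 5 → Fin 5 → E → ℝ, (∀ i j, MemLp (H i j) (p2 s) volume ∧ WD j (G i) (H i j)) →
    IsGam s F (Gam s F) ∧ ‖Gam s F‖ₑ ≤ ENNReal.ofReal C * ∑ i, ∑ j, eLpNorm (H i j) (p2 s) volume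

/-- **FldD** (second derivatives of the position field, `0 ≤ s`). Proof as FldP: test states, SobP with `a = s` (`s = 0`: `hs 0`), Hs: `Σ hs s (∂_j ∂_i f) = hs (2+s) f ≤ ‖k‖²/c0`; approximation (DnsP); uniqueness of weak derivatives. -/
def St_FldD : Prop := ∀ s : ℝ, 0 ≤ s → s < 1 / 2 → ∃ C : ℝ, 0 < C ∧
  (∀ (k : K) (i j : Fin 5), MemLp (DDU s k i j) (q2 s) volume ∧ WD j (DU s k i) (DDU s k i j) ∧
    eLpNorm (DDU s k i j) (q2 s) volume ≤ ENNReal.ofReal C * ‖k‖ₑ) ∧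
  (∀ (c : ℝ) (k k' : K) (i j : Fin 5),
    DDU s (k + c • k') i j =ᵐ[volume] fun x => DDU s k i j x + c * DDU s k' i j x) ∧
  ∀ (f g : E → ℝ) (i j : Fin 5), IsTest f → IsTest g → DDU s (Theta s f g) i j =ᵐ[volume] pd j (pd i f)

/-- **DenX** (test states are dense also for `sn`). Proof. Let `ρ_ε` be a mollifier (smooth, compactly supported, integral 1) and `k_ε = ∫ ρ_ε(z) sh z k dz` (Bochner integral). `k_ε → k` in `K` (strong continuity, QWE.Grp1); `U s k_ε = ρ_ε * U s k`, `V s k_ε = ρ_ε * V s k` a.e. (test functions, ActP), smooth; `ρ_ε * u → u` in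
`L^{5b}`. Then `k_{ε,M} = X M k_ε` (CutP): `→ k_ε` in `K`, fields `χ_M (ρ_ε * u)`, `χ_M (ρ_ε * v)`, test functions, `χ_M w → w` in `L^{5b}`. A state whose fields are test functions `f, g` is `Theta s f g` (FldP, DnsP: the fields determine the state). -/
def St_DenX : Prop := ∀ (b : ℝ) (k : K) (ε : ℝ), 2 < b → sn b k < ⊤ → 0 < ε → ∃ f g : E → ℝ,
  IsTest f ∧ IsTest g ∧ ‖k - Theta (sig b) f g‖ < ε ∧ sn b (k - Theta (sig b) f g) < ENNReal.ofReal ε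

/-- **GNt** (Gagliardo-Nirenberg inequality, one direction). Proof: `∫ |∂_i f|^y = ∫ ∂_i f · (|∂_i f|^{y-2} ∂_i f) = - (y-1) ∫ f |∂_i f|^{y-2} ∂_i ∂_i f` (integration by parts; `t ↦ |t|^{y-2} t` is `C¹` for `y > 2`), Hoelder with `1/p + (y-2)/y + 1/q = 1`:
`≤ (y-1) ‖f‖_p ‖∂_i f‖_y^{y-2} ‖∂_i ∂_i f‖_q`; divide (`‖∂_i f‖_y < ∞`). -/
def St_GNt : Prop := ∀ (p q y : ℝ), 1 < p → 1 < q → 2 < y → 2 / y = 1 / p + 1 / q → ∀ (f : E → ℝ) (i : Fin 5), IsTest f →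
  eLpNorm (pd i f) (ENNReal.ofReal y) volume ^ 2 ≤ ENNReal.ofReal (y - 1) *
    eLpNorm f (ENNReal.ofReal p) volume * eLpNorm (pd i (pd i f)) (ENNReal.ofReal q) volume

/-- **GNk** (the same for states, `b > 4`), `y = 10b/(2b+3)`, `2/y = 2/5 + 3/(5b) = 1/(5b) + 1/q2`. Proof: DenX, GNt for `f_n`, FldP, FldD; `∂_i f_n → DU` in `L^{q1}`, a subsequence converges a.e., Fatou. -/
def St_GNk : Prop := ∀ b : ℝ, 4 < b → ∃ C : ℝ, 0 < C ∧ ∀ (k : K) (i : Fin 5), sn b k < ⊤ →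
  eLpNorm (DU (sig b) k i) (ENNReal.ofReal (10 * b / (2 * b + 3))) volume ^ 2 ≤ ENNReal.ofReal C * sn b k * tn b k

/-- **NLg** (weak gradient of `F(u)`). Proof. `u ∈ L^{5b/2} ∩ L^{5b}`: `F(u) ∈ L^{q1}` because `5b/2 ≤ (b+1) q1 = 5b(b+1)/(b+2) ≤ 5b` (interpolation), `|u|^b DU_i ∈ L^{q2}` (`1/5 + 1/q1 = 1/q2`). DenX: `f_n → u` in `L^{5b}`, `L^{5b/2}`, `∂_i f_n → DU_i` in `L^{q1}`; `F(f_n) → F(u)` in `L^{q1}` or `L^1_loc`,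
`(b+1) |f_n|^b ∂_i f_n → (b+1) |u|^b DU_i` in `L^{q2}` (Npq, Hoelder); chain rule for `F(f_n)` (`C¹` with compact support), integration by parts. -/
def St_NLg : Prop := ∀ (b : ℝ) (k : K), 2 < b → sn b k < ⊤ →
  MemLp (fun x => Fn b (U (sig b) k x)) (q1 (sig b)) volume ∧
  ∀ i, MemLp (fun x => (b + 1) * |U (sig b) k x| ^ b * DU (sig b) k i x) (q2 (sig b)) volume ∧
    WD i (fun x => Fn b (U (sig b) k x)) (fun x => (b + 1) * |U (sig b) k x| ^ b * DU (sig b) k i x)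

/-- **NLh** (second weak derivatives of `F(u)`, `b > 4`). Proof. `|u|^b DDU_ij ∈ L^{p2}` (`1/5 + 1/q2 = 1/p2`), `|u|^{b-2} u DU_i DU_j ∈ L^{p2}` (`(b-1)/(5b) + 2/y = 1/p2`, GNk). DenX with `f_n`: also `∂_i f_n → DU_i` in `L^y` (GNk for `k - Theta f_n g_n`), `∂_j ∂_i f_n → DDU_ij` in `L^{q2}`; the formula for `f_n`
(`F ∈ C²`), limits in `L^{p2}` (products of convergent sequences, Hoelder; Npq for `|f_n|^b` in `L⁵` and `|f_n|^{b-2} f_n` in `L^{5b/(b-1)}`). -/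
def St_NLh : Prop := ∀ (b : ℝ) (k : K) (i j : Fin 5), 4 < b → sn b k < ⊤ →
  MemLp (fun x => (b + 1) * |U (sig b) k x| ^ b * DDU (sig b) k i j x +
    (b + 1) * b * (|U (sig b) k x| ^ (b - 2) * U (sig b) k x) * DU (sig b) k i x * DU (sig b) k j x) (p2 (sig b)) volume ∧
  WD j (fun x => (b + 1) * |U (sig b) k x| ^ b * DU (sig b) k i x)
    (fun x => (b + 1) * |U (sig b) k x| ^ b * DDU (sig b) k i j x +
      (b + 1) * b * (|U (sig b) k x| ^ (b - 2) * U (sig b) k x) * DU (sig b) k i x * DU (sig b) k j x)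

/-- **NLd** (bounds for the nonlinearity, refined). Proof. `u = U k`, `u' = U k'`, `w = U (k-k')`, `Sn = sn k + sn k'`, `B = ‖k‖ + ‖k'‖`. GamP (uniqueness): `NL b k - NL b k' = Gam s (F(u) - F(u'))`; GamQ for the difference. `b ≤ 4`: the gradient of the difference is
`(b+1) [|u'|^b D(k-k')_i + (|u|^b - |u'|^b) DU_i k]`, in `L^{q2}` at most `C (sn k'^b ‖DU (k-k') i‖_{q1} + Sn^{b-1} sn (k-k') ‖DU_i k‖_{q1})` (Npq, Hoelder, FldP). `b > 4`: second derivatives (NLh) of the difference: `|u'|^b D²w + (|u|^b - |u'|^b) D²u + (φ(u) - φ(u')) ∇u∇u + φ(u') (∇u∇u - ∇u'∇u')`, `φ(u) = |u|^{b-2}u`, in `L^{p2}`: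
`Sn^b tn(k-k')`, `Sn^{b-1} sn(k-k') ‖k‖`, `Sn^{b-2} sn(k-k') ‖∇u‖_y² ≤ C Sn^{b-1} sn(k-k') ‖k‖` (GNk, FldD), and
`Sn^{b-1} ‖∇w‖_y (‖∇u‖_y + ‖∇u'‖_y) ≤ C Sn^{b-1} (sn(k-k') tn(k-k'))^{1/2} (Sn B)^{1/2} ≤ C (Sn^{b-1} sn(k-k') B + Sn^b tn(k-k'))`. `k' = 0` (`U 0 = 0` a.e.) gives the first estimate, `IsGam` and the fields; if `sn b k = ⊤` and `k ≠ 0` the right side is `⊤`. `tn ≤ C ‖·‖`: FldP, FldD. -/
def St_NLd : Prop := ∀ b : ℝ, 2 < b → ∃ C : ℝ, 0 < C ∧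
  (∀ k : K, tn b k ≤ ENNReal.ofReal C * ‖k‖ₑ) ∧
  (∀ k : K, ‖NL b k‖ₑ ≤ ENNReal.ofReal C * sn b k ^ b * ‖k‖ₑ) ∧
  (∀ k k' : K, sn b k < ⊤ → sn b k' < ⊤ → ‖NL b k - NL b k'‖ₑ ≤ ENNReal.ofReal C *
    ((sn b k + sn b k') ^ (b - 1) * sn b (k - k') * (‖k‖ₑ + ‖k'‖ₑ) + (sn b k + sn b k') ^ b * tn b (k - k'))) ∧
  ∀ k : K, sn b k < ⊤ → IsGam (sig b) (fun x => Fn b (U (sig b) k x)) (NL b k) ∧
    (U (sig b) (NL b k) =ᵐ[volume] 0) ∧ (V (sig b) (NL b k) =ᵐ[volume] fun x => Fn b (U (sig b) k x))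

end Pool.Agent.QWP
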