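import Pool.Agent.QWP.StA
import Pool.Agent.QWE.HLS

set_option autoImplicit false

/-!
# QWP, HLSP: Hardy-Littlewood-Sobolev on the line, all exponents (from the file QWE/HLS)
-/

open MeasureTheory
open scoped ENNReal NNReal

namespace Pool.Agent.QWP

theorem thm_HLSP : St_HLSP := by
  intro γ h0 h1
  have hc : 0 < Pool.Agent.QWE.HLSx.cst γ := Pool.Agent.QWE.HLSx.cst_pos h1
  exact ⟨2 * Pool.Agent.QWE.HLSx.cst γ, by positivity, fun f g hf hg =>
    Pool.Agent.QWE.HLSx.hls h0 h1 hf hg⟩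

end Pool.Agent.QWP
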