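import Pool.Agent.QWP.StM

set_option autoImplicit false

/-!
# QWP.Npq: pointwise inequalities for the nonlinearity
-/

open MeasureTheory Filter Topology Set
open scoped ENNReal NNReal RealInnerProductSpace

namespace Pool.Agent.QWP

namespace Npqx

theorem der_pow_ne {a u : ℝ} (hu : u ≠ 0) :
    HasDerivAt (fun u : ℝ => |u| ^ a) (a * (|u| ^ (a - 2) * u)) u := by
  have hu0 : 0 < |u| := abs_pos.2 hu
  have h1 : HasDerivAt (fun x : ℝ => (x ^ 2) ^ (a / 2)) ((2 * u) * (a / 2) * (u ^ 2) ^ (a / 2 - 1)) u := by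
    have h2 : HasDerivAt (fun x : ℝ => x ^ 2) (2 * u) u := by
      simpa using hasDerivAt_pow 2 u
    exact h2.rpow_const (Or.inl (by positivity))
  have h3 : ∀ (x c : ℝ), (x ^ 2) ^ (c / 2) = |x| ^ c := by
    intro x c
    rw [← sq_abs, ← Real.rpow_natCast |x| 2, ← Real.rpow_mul (abs_nonneg _)]
    congr 1
    push_cast
    ring
  have h4 : (2 * u) * (a / 2) * (u ^ 2) ^ (a / 2 - 1) = a * (|u| ^ (a - 2) * u) := by
    rw [show a / 2 - 1 = (a - 2) / 2 by ring, h3]
    ring
  rw [h4] at h1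
  simpa only [h3] using h1

theorem der_G {a : ℝ} (ha : 0 < a) (u : ℝ) :
    HasDerivAt (fun u : ℝ => |u| ^ a * u) ((a + 1) * |u| ^ a) u := by
  rcases eq_or_ne u 0 with rfl | hu
  · rw [abs_zero, Real.zero_rpow ha.ne', mul_zero, hasDerivAt_iff_tendsto_slope]
    have h1 : Tendsto (fun x : ℝ => |x| ^ a) (𝓝[≠] 0) (𝓝 0) := by
      have h2 : Continuous fun x : ℝ => |x| ^ a := by
        exact continuous_abs.rpow_const fun x => Or.inr ha.le
      have h3 := h2.tendsto 0
      rw [abs_zero, Real.zero_rpow ha.ne'] at h3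
      exact h3.mono_left nhdsWithin_le_nhds
    apply h1.congr'
    filter_upwards [self_mem_nhdsWithin] with x hx
    rw [slope_def_field]
    have hx' : x ≠ 0 := hx
    rw [abs_zero, mul_zero, sub_zero, sub_zero]
    field_simp
  · have h1 := (der_pow_ne (a := a) hu).mul (hasDerivAt_id u)
    have h2 : a * (|u| ^ (a - 2) * u) * id u + |u| ^ a * 1 = (a + 1) * |u| ^ a := by
      have hu0 : 0 < |u| := abs_pos.2 hu
      have h3 : |u| ^ (a - 2) * u ^ 2 = |u| ^ a := by
        rw [← sq_abs, ← Real.rpow_natCast |u| 2, ← Real.rpow_add hu0]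
        congr 1
        push_cast
        ring
      simp only [id]
      linear_combination a * h3
    rw [h2] at h1
    exact h1

theorem der_H {b : ℝ} (hb : 2 < b) (u : ℝ) :
    HasDerivAt (fun u : ℝ => |u| ^ b) (b * (|u| ^ (b - 2) * u)) u := by
  rcases eq_or_ne u 0 with rfl | hu
  · have h0 : HasDerivAt (fun u : ℝ => |u| ^ (b - 1) * u) ((b - 1 + 1) * |(0 : ℝ)| ^ (b - 1)) 0 :=
      der_G (by linarith) 0
    rw [abs_zero, Real.zero_rpow (by linarith), mul_zero] at h0
    rw [mul_zero, mul_zero, hasDerivAt_iff_tendsto_slope]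
    have h1 : Tendsto (fun x : ℝ => |x| ^ (b - 1)) (𝓝[≠] 0) (𝓝 0) := by
      have h2 : Continuous fun x : ℝ => |x| ^ (b - 1) := by
        exact continuous_abs.rpow_const fun x => Or.inr (by linarith)
      have h3 := h2.tendsto 0
      rw [abs_zero, Real.zero_rpow (by linarith)] at h3
      exact h3.mono_left nhdsWithin_le_nhds
    rw [tendsto_zero_iff_abs_tendsto_zero] at h1 ⊢
    apply h1.congr'
    filter_upwards [self_mem_nhdsWithin] with x hx
    have hx' : x ≠ 0 := hx
    have hx0 : 0 < |x| := abs_pos.2 hx'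
    show |(|x| ^ (b - 1))| = |slope (fun u : ℝ => |u| ^ b) 0 x|
    rw [slope_def_field, abs_zero, Real.zero_rpow (by linarith), sub_zero, sub_zero, abs_div,
      abs_of_nonneg (Real.rpow_nonneg (abs_nonneg x) _),
      abs_of_nonneg (Real.rpow_nonneg (abs_nonneg x) _), Real.rpow_sub hx0, Real.rpow_one]
  · exact der_pow_ne hu

theorem seg_le {u w x : ℝ} (hx : x ∈ segment ℝ w u) : |x| ≤ |u| + |w| := by
  obtain ⟨a, b, ha, hb, hab, rfl⟩ := hx
  have h1 : |a • w + b • u| ≤ a * |w| + b * |u| := by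
    refine (abs_add_le _ _).trans ?_
    rw [smul_eq_mul, smul_eq_mul, abs_mul, abs_mul, abs_of_nonneg ha, abs_of_nonneg hb]
  have h2 : a * |w| ≤ |w| := by nlinarith [abs_nonneg w]
  have h3 : b * |u| ≤ |u| := by nlinarith [abs_nonneg u]
  linarith

theorem mvt {f f' : ℝ → ℝ} (hf : ∀ x, HasDerivAt f (f' x) x) {u w B : ℝ}
    (hB : ∀ x, |x| ≤ |u| + |w| → |f' x| ≤ B) : |f u - f w| ≤ B * |u - w| := by
  have h := Convex.norm_image_sub_le_of_norm_hasDerivWithin_le (f := f) (f' := f')
    (s := segment ℝ w u) (C := B) (fun x _ => (hf x).hasDerivWithinAt)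
    (fun x hx => hB x (seg_le hx)) (convex_segment w u) (left_mem_segment ℝ w u)
    (right_mem_segment ℝ w u)
  simpa [Real.norm_eq_abs] using h

theorem split {c : ℝ} (hc : 0 ≤ c) (u w : ℝ) :
    (|u + w| + |u|) ^ c ≤ 3 ^ c * (|u| ^ c + |w| ^ c) := by
  have h1 : |u + w| + |u| ≤ 3 * max |u| |w| := by
    have := abs_add_le u w
    have := le_max_left |u| |w|
    have := le_max_right |u| |w|
    linarith
  have h2 : (|u + w| + |u|) ^ c ≤ (3 * max |u| |w|) ^ c :=
    Real.rpow_le_rpow (by positivity) h1 hc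
  rw [Real.mul_rpow (by norm_num) (by positivity)] at h2
  refine h2.trans (mul_le_mul_of_nonneg_left ?_ (by positivity))
  rcases max_cases |u| |w| with h | h
  · rw [h.1]
    have : 0 ≤ |w| ^ c := by positivity
    linarith
  · rw [h.1]
    have : 0 ≤ |u| ^ c := by positivity
    linarith

end Npqx

open Npqx in
theorem thm_Npq : St_Npq := by
  intro b hb
  have h3b : (1 : ℝ) ≤ 3 ^ b := Real.one_le_rpow (by norm_num) (by linarith)
  have h3b1 : (3 : ℝ) ^ (b - 1) ≤ 3 ^ b :=
    Real.rpow_le_rpow_of_exponent_le (by norm_num) (by linarith)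
  have h3b2 : (3 : ℝ) ^ (b - 2) ≤ 3 ^ b :=
    Real.rpow_le_rpow_of_exponent_le (by norm_num) (by linarith)
  have hC1 : b + 1 ≤ (b + 1) * 3 ^ b := by nlinarith
  have hG : ∀ u : ℝ, HasDerivAt (Fn b) ((b + 1) * |u| ^ b) u := fun u => der_G (by linarith) u
  have hH := fun u => der_H hb u
  have hG2 : ∀ u : ℝ, HasDerivAt (fun u : ℝ => |u| ^ (b - 2) * u) ((b - 1) * |u| ^ (b - 2)) u := by
    intro u
    have := der_G (a := b - 2) (by linarith) u
    rw [show b - 2 + 1 = b - 1 by ring] at this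
    exact this
  have hpos : 0 < (b + 1) * (3 : ℝ) ^ b := by
    have : 0 < b + 1 := by linarith
    positivity
  -- the derivative of the second function
  have hH' : ∀ x : ℝ, |b * (|x| ^ (b - 2) * x)| = b * |x| ^ (b - 1) := by
    intro x
    rcases eq_or_ne x 0 with rfl | hx
    · rw [abs_zero, mul_zero, mul_zero, abs_zero, Real.zero_rpow (by linarith), mul_zero]
    · have hx0 : 0 < |x| := abs_pos.2 hx
      rw [abs_mul, abs_mul, abs_of_nonneg (Real.rpow_nonneg (abs_nonneg x) _),
        abs_of_pos (by linarith : 0 < b)]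
      congr 1
      nth_rewrite 2 [← Real.rpow_one |x|]
      rw [← Real.rpow_add hx0]
      congr 1
      ring
  have i6 : ∀ u w : ℝ, abs (|u| ^ b - |w| ^ b) ≤ b * (|u| + |w|) ^ (b - 1) * |u - w| := by
    intro u w
    apply mvt hH
    intro x hx
    rw [hH']
    exact mul_le_mul_of_nonneg_left (Real.rpow_le_rpow (abs_nonneg _) hx (by linarith))
      (by linarith)
  have i7 : ∀ u w : ℝ, |(|u| ^ (b - 2) * u) - |w| ^ (b - 2) * w| ≤
      (b - 1) * (|u| + |w|) ^ (b - 2) * |u - w| := by
    intro u w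
    apply mvt (f := fun u : ℝ => |u| ^ (b - 2) * u) hG2
    intro x hx
    rw [abs_mul, abs_of_nonneg (Real.rpow_nonneg (abs_nonneg x) _),
      abs_of_pos (by linarith : 0 < b - 1)]
    exact mul_le_mul_of_nonneg_left (Real.rpow_le_rpow (abs_nonneg _) hx (by linarith))
      (by linarith)
  refine ⟨(b + 1) * 3 ^ b, hpos, hG, hH, ?_, ?_, ?_, ?_, ?_, ?_, ?_⟩
  · exact continuous_iff_continuousAt.2 fun u => (hH u).continuousAt
  · exact continuous_iff_continuousAt.2 fun u => (hG2 u).continuousAt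
  · intro u w
    have h : |Fn b u - Fn b w| ≤ (b + 1) * (|u| + |w|) ^ b * |u - w| := by
      apply mvt hG
      intro x hx
      rw [abs_mul, abs_of_nonneg (Real.rpow_nonneg (abs_nonneg x) _),
        abs_of_pos (by linarith : 0 < b + 1)]
      exact mul_le_mul_of_nonneg_left (Real.rpow_le_rpow (abs_nonneg _) hx (by linarith))
        (by linarith)
    refine h.trans ?_
    gcongr
  · intro u w
    refine (i6 u w).trans ?_
    gcongr
    linarith
  · intro u w
    refine (i7 u w).trans ?_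
    gcongr
    linarith
  · intro u w
    have h := i6 (u + w) u
    rw [add_sub_cancel_left] at h
    refine h.trans ?_
    have h2 := split (c := b - 1) (by linarith) u w
    have h3 : 0 ≤ |u| ^ (b - 1) + |w| ^ (b - 1) := by positivity
    calc b * (|u + w| + |u|) ^ (b - 1) * |w|
        ≤ (b + 1) * (3 ^ (b - 1) * (|u| ^ (b - 1) + |w| ^ (b - 1))) * |w| := by
          gcongr
          linarith
      _ ≤ (b + 1) * (3 ^ b * (|u| ^ (b - 1) + |w| ^ (b - 1))) * |w| := by
          gcongr
      _ = _ := by ring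
  · intro u w
    have h := i7 (u + w) u
    rw [add_sub_cancel_left] at h
    refine h.trans ?_
    have h2 := split (c := b - 2) (by linarith) u w
    have h3 : 0 ≤ |u| ^ (b - 2) + |w| ^ (b - 2) := by positivity
    calc (b - 1) * (|u + w| + |u|) ^ (b - 2) * |w|
        ≤ (b + 1) * (3 ^ (b - 2) * (|u| ^ (b - 2) + |w| ^ (b - 2))) * |w| := by
          gcongr
          linarith
      _ ≤ (b + 1) * (3 ^ b * (|u| ^ (b - 2) + |w| ^ (b - 2))) * |w| := by
          gcongr
      _ = _ := by ring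

end Pool.Agent.QWP
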