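import Pool.Agent.QWP.StA

/-!
# QWP, module Rsz: one dimensional formulas for fractional powers
-/

set_option autoImplicit false

open MeasureTheory Filter Topology Set
open scoped ENNReal NNReal RealInnerProductSpace

namespace Pool.Agent.QWP

namespace Rszx

/-! ### Integrability on the line -/

theorem even_int (f : ℝ → ℝ) (he : ∀ v, f (-v) = f v) (h : IntegrableOn f (Ioi 0)) :
    Integrable f := by
  have h1 : IntegrableOn f (Iio 0) := by
    have h2 := (Measure.measurePreserving_neg (volume : Measure ℝ)).integrableOn_comp_preimage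
      (f := f) (s := Ioi 0) (MeasurableEquiv.neg ℝ).measurableEmbedding
    have h3 : f ∘ Neg.neg = f := funext he
    have h4 : (Neg.neg : ℝ → ℝ) ⁻¹' Ioi 0 = Iio 0 := by
      ext x
      simp
    rw [h3, h4] at h2
    exact h2.2 h
  have h5 : IntegrableOn f (Iic 0) := (integrableOn_Iic_iff_integrableOn_Iio (by simp)).2 h1
  rw [← integrableOn_univ, ← Iic_union_Ioi (a := (0 : ℝ))]
  exact h5.union h

theorem abs_int (g : ℝ → ℝ) (h : IntegrableOn g (Ioi 0)) : Integrable fun v => g |v| := by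
  apply even_int
  · intro v
    rw [abs_neg]
  · refine h.congr_fun ?_ measurableSet_Ioi
    intro v hv
    show g v = g |v|
    rw [abs_of_pos hv]

theorem small_int (β : ℝ) (hβ : -1 < β) (R : ℝ) (hR : 0 ≤ R) :
    Integrable fun v : ℝ => if |v| ≤ R then |v| ^ β else 0 := by
  apply abs_int (fun v => if v ≤ R then v ^ β else 0)
  rw [← Ioc_union_Ioi_eq_Ioi hR]
  apply IntegrableOn.union
  · have h1 := (intervalIntegral.intervalIntegrable_rpow' (a := 0) (b := R) hβ).1
    refine h1.congr_fun ?_ measurableSet_Ioc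
    intro v hv
    show v ^ β = if v ≤ R then v ^ β else 0
    rw [if_pos hv.2]
  · have h1 : IntegrableOn (fun _ : ℝ => (0 : ℝ)) (Ioi R) := integrableOn_zero
    refine h1.congr_fun ?_ measurableSet_Ioi
    intro v hv
    show 0 = if v ≤ R then v ^ β else 0
    rw [if_neg (not_le_of_gt hv)]

theorem major_int (α : ℝ) (h0 : 0 < α) (h1 : α < 1) :
    Integrable fun v : ℝ => if |v| ≤ 1 then |v| ^ (-α) else 2 * |v| ^ (-1 - α) := by
  apply abs_int (fun v => if v ≤ 1 then v ^ (-α) else 2 * v ^ (-1 - α))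
  rw [← Ioc_union_Ioi_eq_Ioi (zero_le_one' ℝ)]
  apply IntegrableOn.union
  · have h2 := (intervalIntegral.intervalIntegrable_rpow' (a := 0) (b := 1)
      (show (-1 : ℝ) < -α by linarith)).1
    refine h2.congr_fun ?_ measurableSet_Ioc
    intro v hv
    show v ^ (-α) = if v ≤ 1 then v ^ (-α) else 2 * v ^ (-1 - α)
    rw [if_pos hv.2]
  · have h2 : IntegrableOn (fun v : ℝ => 2 * v ^ (-1 - α)) (Ioi 1) :=
      (integrableOn_Ioi_rpow_of_lt (show -1 - α < -1 by linarith) one_pos).const_mul 2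
    refine h2.congr_fun ?_ measurableSet_Ioi
    intro v hv
    show 2 * v ^ (-1 - α) = if v ≤ 1 then v ^ (-α) else 2 * v ^ (-1 - α)
    rw [if_neg (not_le_of_gt hv)]

/-! ### The function `g` -/

/-- `(1 - e^{-iv}) |v|^{-1-α}` -/
noncomputable def g (α v : ℝ) : ℂ :=
  (1 - Complex.exp (-(Complex.I * v))) * ((|v| ^ (-1 - α) : ℝ) : ℂ)

theorem g_meas (α : ℝ) : Measurable (g α) := by
  unfold g
  fun_prop

theorem exp_bd (v : ℝ) : ‖1 - Complex.exp (-(Complex.I * v))‖ ≤ |v| := by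
  have h := Real.norm_exp_I_mul_ofReal_sub_one_le (x := -v)
  rw [norm_sub_rev]
  have h1 : -(Complex.I * (v : ℂ)) = Complex.I * ((-v : ℝ) : ℂ) := by
    push_cast
    ring
  rw [h1]
  refine h.trans (le_of_eq ?_)
  rw [norm_neg, Real.norm_eq_abs]

theorem exp_norm (v : ℝ) : ‖Complex.exp (-(Complex.I * v))‖ = 1 := by
  have h1 : -(Complex.I * (v : ℂ)) = ((-v : ℝ) : ℂ) * Complex.I := by
    push_cast
    ring
  rw [h1, Complex.norm_exp_ofReal_mul_I]

theorem g_norm (α : ℝ) (v : ℝ) :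
    ‖g α v‖ ≤ if |v| ≤ 1 then |v| ^ (-α) else 2 * |v| ^ (-1 - α) := by
  unfold g
  rw [norm_mul, Complex.norm_real, Real.norm_eq_abs, abs_of_nonneg (by positivity)]
  split_ifs with h
  · rcases eq_or_ne v 0 with rfl | hv
    · rw [Complex.ofReal_zero, mul_zero, neg_zero, Complex.exp_zero, sub_self, norm_zero, zero_mul]
      positivity
    · have hv' : 0 < |v| := abs_pos.2 hv
      calc ‖1 - Complex.exp (-(Complex.I * v))‖ * |v| ^ (-1 - α) ≤ |v| * |v| ^ (-1 - α) :=
            mul_le_mul_of_nonneg_right (exp_bd v) (by positivity)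
        _ = |v| ^ (-α) := by
            have h1 : |v| * |v| ^ (-1 - α) = |v| ^ (1 : ℝ) * |v| ^ (-1 - α) := by
              rw [Real.rpow_one]
            rw [h1, ← Real.rpow_add hv']
            congr 1
            ring
  · apply mul_le_mul_of_nonneg_right _ (by positivity)
    calc ‖1 - Complex.exp (-(Complex.I * v))‖ ≤ ‖(1 : ℂ)‖ + ‖Complex.exp (-(Complex.I * v))‖ :=
          norm_sub_le _ _
      _ = 2 := by
          rw [exp_norm, norm_one]
          norm_num

theorem g_int (α : ℝ) (h0 : 0 < α) (h1 : α < 1) : Integrable (g α) :=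
  (major_int α h0 h1).mono' (g_meas α).aestronglyMeasurable
    (Eventually.of_forall fun v => g_norm α v)

/-- the constant -/
noncomputable def c1 (α : ℝ) : ℝ := ∫ v, (1 - Real.cos v) * |v| ^ (-1 - α)

theorem g_re (α v : ℝ) : (g α v).re = (1 - Real.cos v) * |v| ^ (-1 - α) := by
  unfold g
  rw [Complex.re_mul_ofReal]
  congr 1
  have h1 : -(Complex.I * (v : ℂ)) = ((-v : ℝ) : ℂ) * Complex.I := by
    push_cast
    ring
  rw [h1, Complex.sub_re, Complex.exp_ofReal_mul_I_re, Real.cos_neg, Complex.one_re]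

theorem g_neg (α v : ℝ) : g α (-v) = (starRingEnd ℂ) (g α v) := by
  unfold g
  rw [map_mul, Complex.conj_ofReal, abs_neg, map_sub, map_one, ← Complex.exp_conj, map_neg, map_mul,
    Complex.conj_I, Complex.conj_ofReal]
  push_cast
  ring_nf

theorem g_integral (α : ℝ) (h0 : 0 < α) (h1 : α < 1) : ∫ v, g α v = (c1 α : ℂ) := by
  have h2 : ∫ v, g α v = (starRingEnd ℂ) (∫ v, g α v) := by
    rw [← integral_conj, ← integral_neg_eq_self]
    apply integral_congr_ae
    exact Eventually.of_forall fun v => g_neg α v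
  have h3 : (∫ v, g α v).re = c1 α := by
    unfold c1
    have h4 : (∫ v, g α v).re = ∫ v, (g α v).re := by
      have := integral_re (𝕜 := ℂ) (g_int α h0 h1)
      exact this.symm
    rw [h4]
    apply integral_congr_ae
    exact Eventually.of_forall fun v => g_re α v
  have h5 : (∫ v, g α v).im = 0 := by
    have h6 := congrArg Complex.im h2
    rw [Complex.conj_im] at h6
    linarith
  apply Complex.ext
  · rw [h3, Complex.ofReal_re]
  · rw [h5, Complex.ofReal_im]

theorem c1_pos (α : ℝ) (h0 : 0 < α) (h1 : α < 1) : 0 < c1 α := by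
  have hint : Integrable fun v : ℝ => (1 - Real.cos v) * |v| ^ (-1 - α) := by
    have h2 := (g_int α h0 h1).re
    refine h2.congr ?_
    exact Eventually.of_forall fun v => g_re α v
  have hnn : 0 ≤ fun v : ℝ => (1 - Real.cos v) * |v| ^ (-1 - α) := by
    intro v
    have := Real.cos_le_one v
    show 0 ≤ (1 - Real.cos v) * |v| ^ (-1 - α)
    exact mul_nonneg (by linarith) (by positivity)
  unfold c1
  rw [integral_pos_iff_support_of_nonneg hnn hint]
  have hsub : Ioo (0 : ℝ) 1 ⊆ Function.support fun v : ℝ => (1 - Real.cos v) * |v| ^ (-1 - α) := by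
    intro v hv
    rw [Function.mem_support]
    have h2 : Real.cos v < 1 := by
      have h3 := Real.cos_lt_cos_of_nonneg_of_le_pi (le_refl (0 : ℝ)) (by
        have := Real.pi_gt_three
        linarith [hv.2] : v ≤ Real.pi) hv.1
      rwa [Real.cos_zero] at h3
    have h3 : 0 < |v| ^ (-1 - α) := Real.rpow_pos_of_pos (abs_pos.2 hv.1.ne') _
    have h4 : 0 < (1 - Real.cos v) * |v| ^ (-1 - α) := mul_pos (by linarith) h3
    exact h4.ne'
  refine lt_of_lt_of_le ?_ (measure_mono hsub)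
  rw [Real.volume_Ioo]
  norm_num

/-! ### First formula -/

theorem J_eq (α r : ℝ) (h0 : 0 < α) (h1 : α < 1) :
    ∫ u : ℝ, (1 - Complex.exp (-2 * Real.pi * Complex.I * ((r * u : ℝ) : ℂ))) *
      ((|u| ^ (-1 - α) : ℝ) : ℂ) = ((c1 α * |2 * Real.pi * r| ^ α : ℝ) : ℂ) := by
  rcases eq_or_ne r 0 with rfl | hr
  · have h2 : ∀ u : ℝ, (1 - Complex.exp (-2 * Real.pi * Complex.I * ((0 * u : ℝ) : ℂ))) *
        ((|u| ^ (-1 - α) : ℝ) : ℂ) = 0 := by
      intro u
      rw [zero_mul, Complex.ofReal_zero, mul_zero, Complex.exp_zero, sub_self, zero_mul]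
    rw [integral_congr_ae (Eventually.of_forall h2), integral_zero, mul_zero, abs_zero,
      Real.zero_rpow h0.ne', mul_zero, Complex.ofReal_zero]
  · obtain ⟨a, ha⟩ : ∃ a : ℝ, a = 2 * Real.pi * r := ⟨_, rfl⟩
    have ha0 : a ≠ 0 := by
      rw [ha]
      have := Real.pi_pos
      positivity
    have ha' : 0 < |a| := abs_pos.2 ha0
    rw [← ha]
    have h2 : ∀ u : ℝ, (1 - Complex.exp (-2 * Real.pi * Complex.I * ((r * u : ℝ) : ℂ))) *
        ((|u| ^ (-1 - α) : ℝ) : ℂ) = ((|a| ^ (1 + α) : ℝ) : ℂ) * g α (a * u) := by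
      intro u
      unfold g
      have e1 : -2 * Real.pi * Complex.I * ((r * u : ℝ) : ℂ) =
          -(Complex.I * ((a * u : ℝ) : ℂ)) := by
        rw [ha]
        push_cast
        ring
      have e2 : |u| ^ (-1 - α) = |a| ^ (1 + α) * |a * u| ^ (-1 - α) := by
        rw [abs_mul, Real.mul_rpow (abs_nonneg _) (abs_nonneg _), ← mul_assoc,
          ← Real.rpow_add ha']
        have e3 : 1 + α + (-1 - α) = 0 := by ring
        rw [e3, Real.rpow_zero, one_mul]
      rw [e1, e2]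
      push_cast
      ring
    rw [integral_congr_ae (Eventually.of_forall h2), integral_const_mul,
      Measure.integral_comp_mul_left, g_integral α h0 h1, Complex.real_smul, abs_inv]
    rw [← Complex.ofReal_mul, ← Complex.ofReal_mul]
    congr 1
    have e4 : |a| ^ (1 + α) = |a| * |a| ^ α := by
      rw [Real.rpow_add ha', Real.rpow_one]
    rw [e4]
    field_simp

/-- majorant of the norm of the integrand -/
theorem J_norm (α r u : ℝ) :
    ‖(1 - Complex.exp (-2 * Real.pi * Complex.I * ((r * u : ℝ) : ℂ))) *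
      ((|u| ^ (-1 - α) : ℝ) : ℂ)‖ = |2 * Real.pi * r| ^ (1 + α) * ‖g α (2 * Real.pi * r * u)‖ := by
  rcases eq_or_ne r 0 with rfl | hr
  · rw [zero_mul, Complex.ofReal_zero, mul_zero, Complex.exp_zero, sub_self, zero_mul, norm_zero]
    have h1 : g α (2 * Real.pi * 0 * u) = 0 := by
      unfold g
      rw [mul_zero, zero_mul, Complex.ofReal_zero, mul_zero, neg_zero, Complex.exp_zero, sub_self,
        zero_mul]
    rw [h1, norm_zero, mul_zero]
  · obtain ⟨a, ha⟩ : ∃ a : ℝ, a = 2 * Real.pi * r := ⟨_, rfl⟩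
    have ha0 : a ≠ 0 := by
      rw [ha]
      have := Real.pi_pos
      positivity
    have ha' : 0 < |a| := abs_pos.2 ha0
    rw [← ha]
    have e1 : -2 * Real.pi * Complex.I * ((r * u : ℝ) : ℂ) =
        -(Complex.I * ((a * u : ℝ) : ℂ)) := by
      rw [ha]
      push_cast
      ring
    have e2 : |u| ^ (-1 - α) = |a| ^ (1 + α) * |a * u| ^ (-1 - α) := by
      rw [abs_mul, Real.mul_rpow (abs_nonneg _) (abs_nonneg _), ← mul_assoc,
        ← Real.rpow_add ha']
      have e3 : 1 + α + (-1 - α) = 0 := by ring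
      rw [e3, Real.rpow_zero, one_mul]
    unfold g
    have hP : 0 ≤ |a * u| ^ (-1 - α) := by positivity
    have hQ : 0 ≤ |a| ^ (1 + α) * |a * u| ^ (-1 - α) := by positivity
    rw [e1, e2, norm_mul, norm_mul, Complex.norm_of_nonneg hP, Complex.norm_of_nonneg hQ]
    ring

theorem J_int (α r : ℝ) (h0 : 0 < α) (h1 : α < 1) :
    Integrable (fun u : ℝ => ‖(1 - Complex.exp (-2 * Real.pi * Complex.I * ((r * u : ℝ) : ℂ))) *
      ((|u| ^ (-1 - α) : ℝ) : ℂ)‖) ∧
    ∫ u : ℝ, ‖(1 - Complex.exp (-2 * Real.pi * Complex.I * ((r * u : ℝ) : ℂ))) *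
      ((|u| ^ (-1 - α) : ℝ) : ℂ)‖ ≤ |2 * Real.pi * r| ^ α * ∫ v, ‖g α v‖ := by
  have hnn : 0 ≤ ∫ v, ‖g α v‖ := integral_nonneg fun v => norm_nonneg _
  have h2 : (fun u : ℝ => ‖(1 - Complex.exp (-2 * Real.pi * Complex.I * ((r * u : ℝ) : ℂ))) *
      ((|u| ^ (-1 - α) : ℝ) : ℂ)‖) = fun u => |2 * Real.pi * r| ^ (1 + α) *
        ‖g α (2 * Real.pi * r * u)‖ := funext fun u => J_norm α r u
  rcases eq_or_ne r 0 with rfl | hr
  · have h3 : (fun u : ℝ => ‖(1 - Complex.exp (-2 * Real.pi * Complex.I * ((0 * u : ℝ) : ℂ))) *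
        ((|u| ^ (-1 - α) : ℝ) : ℂ)‖) = fun _ => 0 := by
      funext u
      rw [zero_mul, Complex.ofReal_zero, mul_zero, Complex.exp_zero, sub_self, zero_mul, norm_zero]
    rw [h3]
    refine ⟨integrable_zero _ _ _, ?_⟩
    rw [integral_zero]
    positivity
  · have ha0 : 2 * Real.pi * r ≠ 0 := by
      have := Real.pi_pos
      positivity
    have ha' : 0 < |2 * Real.pi * r| := abs_pos.2 ha0
    rw [h2]
    refine ⟨((g_int α h0 h1).norm.comp_mul_left' ha0).const_mul _, ?_⟩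
    have h3 : ∫ u : ℝ, ‖g α (2 * Real.pi * r * u)‖ = |2 * Real.pi * r|⁻¹ * ∫ v, ‖g α v‖ := by
      have h4 := Measure.integral_comp_mul_left (fun v => ‖g α v‖) (2 * Real.pi * r)
      rw [h4, smul_eq_mul, abs_inv]
    rw [integral_const_mul, h3]
    have e4 : |2 * Real.pi * r| ^ (1 + α) = |2 * Real.pi * r| * |2 * Real.pi * r| ^ α := by
      rw [Real.rpow_add ha', Real.rpow_one]
    rw [e4]
    apply le_of_eq
    field_simp

/-! ### Properties of `G`, `A` -/

theorem unit_norm (x : ℝ) : ‖Complex.exp (-2 * Real.pi * Complex.I * (x : ℂ))‖ = 1 := by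
  have h1 : -2 * Real.pi * Complex.I * (x : ℂ) = ((-2 * Real.pi * x : ℝ) : ℂ) * Complex.I := by
    push_cast
    ring
  rw [h1, Complex.norm_exp_ofReal_mul_I]

theorem G_int (G : ℝ → ℂ) (hG : Continuous G)
    (hN : ∀ N : ℕ, ∃ B : ℝ, ∀ r, ‖G r‖ ≤ B / (1 + |r|) ^ N) : Integrable G := by
  obtain ⟨B, hB⟩ := hN 2
  have h1 : Integrable (fun r : ℝ => B * (1 + ‖r‖) ^ (-2 : ℝ)) :=
    (integrable_one_add_norm (by simp)).const_mul B
  refine h1.mono' hG.aestronglyMeasurable (Eventually.of_forall fun r => ?_)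
  refine (hB r).trans (le_of_eq ?_)
  rw [Real.norm_eq_abs, Real.rpow_neg (by positivity), div_eq_mul_inv]
  congr 2
  norm_cast

theorem G_int_rpow (G : ℝ → ℂ) (hG : Continuous G)
    (hN : ∀ N : ℕ, ∃ B : ℝ, ∀ r, ‖G r‖ ≤ B / (1 + |r|) ^ N) (β : ℝ) (hβ : -1 < β) (hβ1 : β < 1) :
    Integrable fun r : ℝ => |2 * Real.pi * r| ^ β * ‖G r‖ := by
  obtain ⟨B, hB⟩ := hN 0
  obtain ⟨B3, hB3⟩ := hN 3
  have hB0 : 0 ≤ B := by
    have := (norm_nonneg _).trans (hB 0)
    simpa using this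
  have hB30 : 0 ≤ B3 := by
    have := (norm_nonneg _).trans (hB3 0)
    simpa using this
  have hpi := Real.pi_pos
  have hpi0 : 2 * Real.pi ≠ 0 := by positivity
  have h1 : Integrable (fun r : ℝ => B * (if |2 * Real.pi * r| ≤ 1 then |2 * Real.pi * r| ^ β
      else 0)) := ((small_int β hβ 1 zero_le_one).comp_mul_left' hpi0).const_mul B
  have h2 : Integrable (fun r : ℝ => (2 * Real.pi * B3) * (1 + ‖r‖) ^ (-2 : ℝ)) :=
    (integrable_one_add_norm (by simp)).const_mul _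
  refine (h1.add h2).mono' ?_ (Eventually.of_forall fun r => ?_)
  · apply Measurable.aestronglyMeasurable
    have := hG.measurable
    fun_prop
  · rw [Real.norm_eq_abs, abs_of_nonneg (by positivity), Pi.add_apply]
    have hsecond : 0 ≤ (2 * Real.pi * B3) * (1 + ‖r‖) ^ (-2 : ℝ) := by positivity
    by_cases h : |2 * Real.pi * r| ≤ 1
    · rw [if_pos h]
      have h3 : ‖G r‖ ≤ B := by
        have := hB r
        rwa [pow_zero, div_one] at this
      have h4 : |2 * Real.pi * r| ^ β * ‖G r‖ ≤ |2 * Real.pi * r| ^ β * B :=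
        mul_le_mul_of_nonneg_left h3 (by positivity)
      linarith [mul_comm B (|2 * Real.pi * r| ^ β)]
    · rw [if_neg h, mul_zero, zero_add]
      have h5 : |2 * Real.pi * r| ^ β ≤ |2 * Real.pi * r| := by
        have h6 := Real.rpow_le_rpow_of_exponent_le (le_of_lt (not_le.1 h)) hβ1.le
        rwa [Real.rpow_one] at h6
      have h7 : |2 * Real.pi * r| ≤ 2 * Real.pi * (1 + |r|) := by
        rw [abs_mul, abs_of_pos (by positivity : 0 < 2 * Real.pi)]
        nlinarith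
      calc |2 * Real.pi * r| ^ β * ‖G r‖ ≤ (2 * Real.pi * (1 + |r|)) * (B3 / (1 + |r|) ^ 3) :=
            mul_le_mul (h5.trans h7) (hB3 r) (norm_nonneg _) (by positivity)
        _ = (2 * Real.pi * B3) * (1 + ‖r‖) ^ (-2 : ℝ) := by
            rw [Real.norm_eq_abs, Real.rpow_neg (by positivity)]
            have h8 : (1 + |r|) ^ (2 : ℝ) = (1 + |r|) ^ 2 := by norm_cast
            rw [h8]
            field_simp

theorem first (α : ℝ) (h0 : 0 < α) (h1 : α < 1) (G A : ℝ → ℂ) (hG : Continuous G)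
    (hN : ∀ N : ℕ, ∃ B : ℝ, ∀ r, ‖G r‖ ≤ B / (1 + |r|) ^ N)
    (hA : ∀ t, A t = ∫ r : ℝ, Complex.exp (-2 * Real.pi * Complex.I * ((r * t : ℝ) : ℂ)) * G r)
    (t : ℝ) :
    (c1 α : ℂ) * (∫ r : ℝ, ((|2 * Real.pi * r| ^ α : ℝ) : ℂ) *
      Complex.exp (-2 * Real.pi * Complex.I * ((r * t : ℝ) : ℂ)) * G r) =
      ∫ t', (A t - A t') * ((|t - t'| ^ (-1 - α) : ℝ) : ℂ) := by
  have hGi := G_int G hG hN
  have hei : ∀ t : ℝ, Integrable fun r : ℝ =>
      Complex.exp (-2 * Real.pi * Complex.I * ((r * t : ℝ) : ℂ)) * G r := by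
    intro t
    refine hGi.norm.mono' ?_ (Eventually.of_forall fun r => ?_)
    · apply Continuous.aestronglyMeasurable
      fun_prop
    · rw [norm_mul, unit_norm, one_mul]
  have h2 : ∫ t', (A t - A t') * ((|t - t'| ^ (-1 - α) : ℝ) : ℂ) =
      ∫ u, (A t - A (t + u)) * ((|u| ^ (-1 - α) : ℝ) : ℂ) := by
    rw [← integral_add_left_eq_self (fun t' => (A t - A t') * ((|t - t'| ^ (-1 - α) : ℝ) : ℂ)) t]
    apply integral_congr_ae
    refine Eventually.of_forall fun u => ?_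
    show (A t - A (t + u)) * ((|t - (t + u)| ^ (-1 - α) : ℝ) : ℂ) = _
    rw [sub_add_cancel_left, abs_neg]
  have h3 : ∀ u : ℝ, (A t - A (t + u)) * ((|u| ^ (-1 - α) : ℝ) : ℂ) =
      ∫ r : ℝ, (Complex.exp (-2 * Real.pi * Complex.I * ((r * t : ℝ) : ℂ)) * G r) *
        ((1 - Complex.exp (-2 * Real.pi * Complex.I * ((r * u : ℝ) : ℂ))) *
      ((|u| ^ (-1 - α) : ℝ) : ℂ)) := by
    intro u
    rw [hA t, hA (t + u), ← integral_sub (hei t) (hei (t + u)), ← integral_mul_const]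
    apply integral_congr_ae
    refine Eventually.of_forall fun r => ?_
    have e1 : Complex.exp (-2 * Real.pi * Complex.I * ((r * (t + u) : ℝ) : ℂ)) =
        Complex.exp (-2 * Real.pi * Complex.I * ((r * t : ℝ) : ℂ)) *
        Complex.exp (-2 * Real.pi * Complex.I * ((r * u : ℝ) : ℂ)) := by
      rw [← Complex.exp_add]
      congr 1
      push_cast
      ring
    show (Complex.exp (-2 * Real.pi * Complex.I * ((r * t : ℝ) : ℂ)) * G r -
      Complex.exp (-2 * Real.pi * Complex.I * ((r * (t + u) : ℝ) : ℂ)) * G r) *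
        ((|u| ^ (-1 - α) : ℝ) : ℂ) = _
    rw [e1]
    ring
  rw [h2, integral_congr_ae (Eventually.of_forall h3)]
  have hprod : Integrable (Function.uncurry fun (u r : ℝ) =>
      (Complex.exp (-2 * Real.pi * Complex.I * ((r * t : ℝ) : ℂ)) * G r) *
        ((1 - Complex.exp (-2 * Real.pi * Complex.I * ((r * u : ℝ) : ℂ))) *
      ((|u| ^ (-1 - α) : ℝ) : ℂ))) ((volume : Measure ℝ).prod (volume : Measure ℝ)) := by
    have hm : Measurable (Function.uncurry fun (u r : ℝ) =>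
      (Complex.exp (-2 * Real.pi * Complex.I * ((r * t : ℝ) : ℂ)) * G r) *
        ((1 - Complex.exp (-2 * Real.pi * Complex.I * ((r * u : ℝ) : ℂ))) *
      ((|u| ^ (-1 - α) : ℝ) : ℂ))) := by
      have := hG.measurable
      unfold Function.uncurry
      fun_prop
    rw [integrable_prod_iff' hm.aestronglyMeasurable]
    have hnorm : ∀ r u : ℝ, ‖(Complex.exp (-2 * Real.pi * Complex.I * ((r * t : ℝ) : ℂ)) * G r) *
        ((1 - Complex.exp (-2 * Real.pi * Complex.I * ((r * u : ℝ) : ℂ))) *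
      ((|u| ^ (-1 - α) : ℝ) : ℂ))‖ = ‖G r‖ *
        ‖(1 - Complex.exp (-2 * Real.pi * Complex.I * ((r * u : ℝ) : ℂ))) *
      ((|u| ^ (-1 - α) : ℝ) : ℂ)‖ := by
      intro r u
      rw [norm_mul, norm_mul, unit_norm, one_mul]
    constructor
    · refine Eventually.of_forall fun r => ?_
      rw [← integrable_norm_iff]
      · have h4 := (J_int α r h0 h1).1.const_mul ‖G r‖
        refine h4.congr (Eventually.of_forall fun u => ?_)
        exact (hnorm r u).symm
      · exact (hm.comp (measurable_id.prodMk measurable_const)).aestronglyMeasurable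
    · have h5 : Integrable fun r : ℝ => (∫ v, ‖g α v‖) * (|2 * Real.pi * r| ^ α * ‖G r‖) :=
        (G_int_rpow G hG hN α (by linarith) h1).const_mul _
      refine h5.mono' ?_ (Eventually.of_forall fun r => ?_)
      · have h6 := hm.norm.aestronglyMeasurable (μ := (volume : Measure ℝ).prod (volume : Measure ℝ))
        exact (h6.prod_swap).integral_prod_right'
      · rw [Real.norm_eq_abs, abs_of_nonneg (integral_nonneg fun u => norm_nonneg _)]
        have h7 : ∫ u : ℝ, ‖Function.uncurry (fun (u r : ℝ) =>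
            (Complex.exp (-2 * Real.pi * Complex.I * ((r * t : ℝ) : ℂ)) * G r) *
              ((1 - Complex.exp (-2 * Real.pi * Complex.I * ((r * u : ℝ) : ℂ))) *
            ((|u| ^ (-1 - α) : ℝ) : ℂ))) (u, r)‖ = ‖G r‖ * ∫ u : ℝ,
            ‖(1 - Complex.exp (-2 * Real.pi * Complex.I * ((r * u : ℝ) : ℂ))) *
      ((|u| ^ (-1 - α) : ℝ) : ℂ)‖ := by
          rw [← integral_const_mul]
          apply integral_congr_ae
          exact Eventually.of_forall fun u => hnorm r u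
        rw [h7]
        calc ‖G r‖ * ∫ u : ℝ, ‖(1 - Complex.exp (-2 * Real.pi * Complex.I * ((r * u : ℝ) : ℂ))) *
              ((|u| ^ (-1 - α) : ℝ) : ℂ)‖ ≤ ‖G r‖ * (|2 * Real.pi * r| ^ α * ∫ v, ‖g α v‖) :=
              mul_le_mul_of_nonneg_left (J_int α r h0 h1).2 (norm_nonneg _)
          _ = _ := by ring
  rw [integral_integral_swap hprod, ← integral_const_mul]
  apply integral_congr_ae
  refine Eventually.of_forall fun r => ?_
  show _ = ∫ u : ℝ, (Complex.exp (-2 * Real.pi * Complex.I * ((r * t : ℝ) : ℂ)) * G r) *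
        ((1 - Complex.exp (-2 * Real.pi * Complex.I * ((r * u : ℝ) : ℂ))) *
      ((|u| ^ (-1 - α) : ℝ) : ℂ))
  rw [integral_const_mul, J_eq α r h0 h1]
  push_cast
  ring

/-! ### Second formula -/

theorem int_of_pos {X : Type} [MeasurableSpace X] {m : Measure X} (f : X → ℝ)
    (h : 0 < ∫ x, f x ∂m) : Integrable f m := by
  by_contra h'
  rw [integral_undef h'] at h
  exact lt_irrefl _ h

theorem gauss_u (α u : ℝ) (h1 : α < 1) (hu : u ≠ 0) :
    ∫ x in Ioi (0 : ℝ), x ^ ((1 - α) / 2 - 1) * Real.exp (-(u ^ 2 * x)) =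
      |u| ^ (α - 1) * Real.Gamma ((1 - α) / 2) := by
  rw [Real.integral_rpow_mul_exp_neg_mul_Ioi (by linarith) (by positivity)]
  congr 1
  rw [one_div, Real.inv_rpow (sq_nonneg u), ← sq_abs, ← Real.rpow_natCast,
    ← Real.rpow_mul (abs_nonneg u), ← Real.rpow_neg (abs_nonneg u)]
  congr 1
  push_cast
  ring

theorem gauss_r (α r : ℝ) (h0 : 0 < α) (hr : r ≠ 0) :
    ∫ x in Ioi (0 : ℝ), x ^ ((1 - α) / 2 - 1) * ((Real.pi / x) ^ (1 / 2 : ℝ) *
      Real.exp (-((Real.pi * r) ^ 2 / x))) =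
      Real.pi ^ (1 / 2 : ℝ) * Real.Gamma (α / 2) * |Real.pi * r| ^ (-α) := by
  have hpi := Real.pi_pos
  have hpr : Real.pi * r ≠ 0 := mul_ne_zero hpi.ne' hr
  have h2 := integral_comp_rpow_Ioi (fun y : ℝ => y ^ (α / 2 - 1) *
    Real.exp (-((Real.pi * r) ^ 2 * y))) (show (-1 : ℝ) ≠ 0 by norm_num)
  rw [Real.integral_rpow_mul_exp_neg_mul_Ioi (by linarith) (by positivity)] at h2
  have h3 : ∫ x in Ioi (0 : ℝ), x ^ ((1 - α) / 2 - 1) * ((Real.pi / x) ^ (1 / 2 : ℝ) *
      Real.exp (-((Real.pi * r) ^ 2 / x))) = ∫ x in Ioi (0 : ℝ), Real.pi ^ (1 / 2 : ℝ) *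
      ((|(-1 : ℝ)| * x ^ ((-1 : ℝ) - 1)) • ((x ^ (-1 : ℝ)) ^ (α / 2 - 1) *
        Real.exp (-((Real.pi * r) ^ 2 * x ^ (-1 : ℝ))))) := by
    apply setIntegral_congr_fun measurableSet_Ioi
    intro x hx
    have hx0 : (0 : ℝ) < x := hx
    show x ^ ((1 - α) / 2 - 1) * ((Real.pi / x) ^ (1 / 2 : ℝ) *
      Real.exp (-((Real.pi * r) ^ 2 / x))) = Real.pi ^ (1 / 2 : ℝ) *
      ((|(-1 : ℝ)| * x ^ ((-1 : ℝ) - 1)) • ((x ^ (-1 : ℝ)) ^ (α / 2 - 1) *
        Real.exp (-((Real.pi * r) ^ 2 * x ^ (-1 : ℝ)))))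
    rw [abs_neg, abs_one, one_mul, smul_eq_mul, Real.div_rpow hpi.le hx0.le,
      ← Real.rpow_mul hx0.le]
    have e1 : Real.exp (-((Real.pi * r) ^ 2 / x)) =
        Real.exp (-((Real.pi * r) ^ 2 * x ^ (-1 : ℝ))) := by
      rw [Real.rpow_neg_one, div_eq_mul_inv]
    have e2 : x ^ ((1 - α) / 2 - 1) = x ^ ((-1 : ℝ) - 1) * x ^ (-1 * (α / 2 - 1)) *
        x ^ (1 / 2 : ℝ) := by
      rw [← Real.rpow_add hx0, ← Real.rpow_add hx0]
      congr 1
      ring
    have e3 : x ^ (1 / 2 : ℝ) ≠ 0 := (Real.rpow_pos_of_pos hx0 _).ne'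
    rw [e1, e2]
    field_simp
  rw [h3, integral_const_mul, h2]
  have e4 : (1 / (Real.pi * r) ^ 2) ^ (α / 2) = |Real.pi * r| ^ (-α) := by
    rw [one_div, Real.inv_rpow (sq_nonneg _), ← sq_abs, ← Real.rpow_natCast,
      ← Real.rpow_mul (abs_nonneg _), ← Real.rpow_neg (abs_nonneg _)]
    congr 1
    push_cast
    ring
  rw [e4]
  ring

theorem gauss_t (t r x : ℝ) (hx : 0 < x) :
    ∫ t' : ℝ, Complex.exp (-2 * Real.pi * Complex.I * ((r * t' : ℝ) : ℂ)) *
      ((Real.exp (-((t - t') ^ 2 * x)) : ℝ) : ℂ) =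
      Complex.exp (-2 * Real.pi * Complex.I * ((r * t : ℝ) : ℂ)) *
        (((Real.pi / x) ^ (1 / 2 : ℝ) * Real.exp (-((Real.pi * r) ^ 2 / x)) : ℝ) : ℂ) := by
  rw [← integral_add_left_eq_self _ t]
  have h1 : ∀ u : ℝ, Complex.exp (-2 * Real.pi * Complex.I * ((r * (t + u) : ℝ) : ℂ)) *
      ((Real.exp (-((t - (t + u)) ^ 2 * x)) : ℝ) : ℂ) =
      Complex.exp (-2 * Real.pi * Complex.I * ((r * t : ℝ) : ℂ)) *
        (Complex.exp (Complex.I * ((-2 * Real.pi * r : ℝ) : ℂ) * u) *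
          Complex.exp (-((x : ℝ) : ℂ) * (u : ℂ) ^ 2)) := by
    intro u
    rw [Complex.ofReal_exp, ← Complex.exp_add, ← Complex.exp_add, ← Complex.exp_add]
    congr 1
    push_cast
    ring
  rw [integral_congr_ae (Eventually.of_forall h1), integral_const_mul]
  rw [fourierIntegral_gaussian (b := ((x : ℝ) : ℂ)) (by rw [Complex.ofReal_re]; exact hx)]
  have e5 : (((Real.pi / x) ^ (1 / 2 : ℝ) * Real.exp (-((Real.pi * r) ^ 2 / x)) : ℝ) : ℂ) =
      (((Real.pi / x : ℝ) : ℂ)) ^ (((1 / 2 : ℝ)) : ℂ) *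
        Complex.exp ((-((Real.pi * r) ^ 2 / x) : ℝ) : ℂ) := by
    rw [Complex.ofReal_mul, Complex.ofReal_cpow (by positivity), Complex.ofReal_exp]
  rw [e5]
  congr 1
  congr 1
  · push_cast
    rfl
  · congr 1
    push_cast
    field_simp
    ring

theorem A_cont (G A : ℝ → ℂ) (hG : Continuous G) (hGi : Integrable G)
    (hA : ∀ t, A t = ∫ r : ℝ, Complex.exp (-2 * Real.pi * Complex.I * ((r * t : ℝ) : ℂ)) * G r) :
    Continuous A := by
  have h1 : A = fun t => ∫ r : ℝ, Complex.exp (-2 * Real.pi * Complex.I * ((r * t : ℝ) : ℂ)) * G r :=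
    funext hA
  rw [h1]
  apply continuous_of_dominated (bound := fun r => ‖G r‖)
  · intro t
    apply Continuous.aestronglyMeasurable
    fun_prop
  · intro t
    refine Eventually.of_forall fun r => ?_
    rw [norm_mul, unit_norm, one_mul]
  · exact hGi.norm
  · refine Eventually.of_forall fun r => ?_
    fun_prop

theorem A_bd (G A : ℝ → ℂ)
    (hA : ∀ t, A t = ∫ r : ℝ, Complex.exp (-2 * Real.pi * Complex.I * ((r * t : ℝ) : ℂ)) * G r)
    (t : ℝ) : ‖A t‖ ≤ ∫ r, ‖G r‖ := by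
  rw [hA t]
  refine (norm_integral_le_integral_norm _).trans (le_of_eq ?_)
  apply integral_congr_ae
  refine Eventually.of_forall fun r => ?_
  show ‖Complex.exp (-2 * Real.pi * Complex.I * ((r * t : ℝ) : ℂ)) * G r‖ = ‖G r‖
  rw [norm_mul, unit_norm, one_mul]

/-- third step: the inner integral for fixed `x` -/
theorem step_c (G A : ℝ → ℂ) (hG : Continuous G) (hGi : Integrable G)
    (hA : ∀ t, A t = ∫ r : ℝ, Complex.exp (-2 * Real.pi * Complex.I * ((r * t : ℝ) : ℂ)) * G r)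
    (t x : ℝ) (hx : 0 < x) :
    ∫ t' : ℝ, A t' * ((Real.exp (-((t - t') ^ 2 * x)) : ℝ) : ℂ) =
      ∫ r : ℝ, Complex.exp (-2 * Real.pi * Complex.I * ((r * t : ℝ) : ℂ)) * G r *
        (((Real.pi / x) ^ (1 / 2 : ℝ) * Real.exp (-((Real.pi * r) ^ 2 / x)) : ℝ) : ℂ) := by
  have h1 : ∀ t' : ℝ, A t' * ((Real.exp (-((t - t') ^ 2 * x)) : ℝ) : ℂ) =
      ∫ r : ℝ, Complex.exp (-2 * Real.pi * Complex.I * ((r * t' : ℝ) : ℂ)) * G r *
        ((Real.exp (-((t - t') ^ 2 * x)) : ℝ) : ℂ) := by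
    intro t'
    rw [hA t', ← integral_mul_const]
  rw [integral_congr_ae (Eventually.of_forall h1)]
  have hprod : Integrable (Function.uncurry fun (t' r : ℝ) =>
      Complex.exp (-2 * Real.pi * Complex.I * ((r * t' : ℝ) : ℂ)) * G r *
        ((Real.exp (-((t - t') ^ 2 * x)) : ℝ) : ℂ))
        ((volume : Measure ℝ).prod (volume : Measure ℝ)) := by
    have hgauss : Integrable fun t' : ℝ => Real.exp (-((t - t') ^ 2 * x)) := by
      have h2 := (integrable_exp_neg_mul_sq hx).comp_sub_left t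
      refine h2.congr (Eventually.of_forall fun t' => ?_)
      show Real.exp (-x * (t - t') ^ 2) = Real.exp (-((t - t') ^ 2 * x))
      congr 1
      ring
    have h3 := hgauss.mul_prod hGi.norm
    refine h3.mono' ?_ (Eventually.of_forall fun z => ?_)
    · apply Continuous.aestronglyMeasurable
      unfold Function.uncurry
      fun_prop
    · show ‖Complex.exp (-2 * Real.pi * Complex.I * ((z.2 * z.1 : ℝ) : ℂ)) * G z.2 *
        ((Real.exp (-((t - z.1) ^ 2 * x)) : ℝ) : ℂ)‖ ≤ Real.exp (-((t - z.1) ^ 2 * x)) * ‖G z.2‖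
      rw [norm_mul, norm_mul, unit_norm, one_mul, Complex.norm_of_nonneg (Real.exp_pos _).le,
        mul_comm]
  rw [integral_integral_swap hprod]
  apply integral_congr_ae
  refine Eventually.of_forall fun r => ?_
  show ∫ t' : ℝ, Complex.exp (-2 * Real.pi * Complex.I * ((r * t' : ℝ) : ℂ)) * G r *
        ((Real.exp (-((t - t') ^ 2 * x)) : ℝ) : ℂ) = _
  have h4 : ∀ t' : ℝ, Complex.exp (-2 * Real.pi * Complex.I * ((r * t' : ℝ) : ℂ)) * G r *
        ((Real.exp (-((t - t') ^ 2 * x)) : ℝ) : ℂ) =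
      G r * (Complex.exp (-2 * Real.pi * Complex.I * ((r * t' : ℝ) : ℂ)) *
        ((Real.exp (-((t - t') ^ 2 * x)) : ℝ) : ℂ)) := by
    intro t'
    ring
  rw [integral_congr_ae (Eventually.of_forall h4), integral_const_mul, gauss_t t r x hx]
  ring

theorem second (α : ℝ) (h0 : 0 < α) (h1 : α < 1) (G A : ℝ → ℂ) (hG : Continuous G)
    (hN : ∀ N : ℕ, ∃ B : ℝ, ∀ r, ‖G r‖ ≤ B / (1 + |r|) ^ N)
    (hA : ∀ t, A t = ∫ r : ℝ, Complex.exp (-2 * Real.pi * Complex.I * ((r * t : ℝ) : ℂ)) * G r)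
    (hAc : HasCompactSupport A) (t : ℝ) :
    ((Real.pi ^ (1 / 2 : ℝ) * Real.Gamma (α / 2) * 2 ^ α : ℝ) : ℂ) *
      (∫ r : ℝ, ((|2 * Real.pi * r| ^ (-α) : ℝ) : ℂ) *
      Complex.exp (-2 * Real.pi * Complex.I * ((r * t : ℝ) : ℂ)) * G r) =
      ((Real.Gamma ((1 - α) / 2) : ℝ) : ℂ) * ∫ t', A t' * ((|t - t'| ^ (α - 1) : ℝ) : ℂ) := by
  have hpi := Real.pi_pos
  have hGi := G_int G hG hN
  have hAcont := A_cont G A hG hGi hA
  have hΓa : 0 < Real.Gamma ((1 - α) / 2) := Real.Gamma_pos_of_pos (by linarith)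
  have hΓb : 0 < Real.Gamma (α / 2) := Real.Gamma_pos_of_pos (by linarith)
  obtain ⟨R0, hR0⟩ : ∃ R0 : ℝ, ∀ t', R0 < |t'| → A t' = 0 := by
    obtain ⟨R0, hR0⟩ := (hAc.isCompact.isBounded.subset_closedBall (0 : ℝ))
    refine ⟨R0, fun t' ht' => ?_⟩
    by_contra hne
    have h2 := hR0 (subset_tsupport A (Function.mem_support.2 hne))
    rw [mem_closedBall_zero_iff, Real.norm_eq_abs] at h2
    linarith
  -- the right side as an iterated integral
  have hae : ∀ᵐ t' : ℝ, t' ≠ t := by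
    rw [ae_iff]
    simp
  have hb1 : ((Real.Gamma ((1 - α) / 2) : ℝ) : ℂ) * ∫ t', A t' * ((|t - t'| ^ (α - 1) : ℝ) : ℂ) =
      ∫ t', ∫ x in Ioi (0 : ℝ), A t' * ((x ^ ((1 - α) / 2 - 1) *
        Real.exp (-((t - t') ^ 2 * x)) : ℝ) : ℂ) := by
    rw [← integral_const_mul]
    apply integral_congr_ae
    filter_upwards [hae] with t' ht'
    rw [integral_const_mul]
    have h3 : ∫ x in Ioi (0 : ℝ), ((x ^ ((1 - α) / 2 - 1) *
        Real.exp (-((t - t') ^ 2 * x)) : ℝ) : ℂ) =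
        ((|t - t'| ^ (α - 1) * Real.Gamma ((1 - α) / 2) : ℝ) : ℂ) := by
      rw [integral_complex_ofReal, gauss_u α (t - t') h1 (sub_ne_zero.2 (Ne.symm ht'))]
    rw [h3]
    push_cast
    ring
  have hbprod : Integrable (Function.uncurry fun (t' x : ℝ) => A t' * ((x ^ ((1 - α) / 2 - 1) *
        Real.exp (-((t - t') ^ 2 * x)) : ℝ) : ℂ))
        ((volume : Measure ℝ).prod ((volume : Measure ℝ).restrict (Ioi 0))) := by
    have hm : Measurable (Function.uncurry fun (t' x : ℝ) => A t' * ((x ^ ((1 - α) / 2 - 1) *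
        Real.exp (-((t - t') ^ 2 * x)) : ℝ) : ℂ)) := by
      have := hAcont.measurable
      unfold Function.uncurry
      fun_prop
    rw [integrable_prod_iff hm.aestronglyMeasurable]
    constructor
    · filter_upwards [hae] with t' ht'
      have h3 : Integrable (fun x : ℝ => x ^ ((1 - α) / 2 - 1) *
          Real.exp (-((t - t') ^ 2 * x))) (volume.restrict (Ioi 0)) := by
        apply int_of_pos
        rw [gauss_u α (t - t') h1 (sub_ne_zero.2 (Ne.symm ht'))]
        have : 0 < |t - t'| := abs_pos.2 (sub_ne_zero.2 (Ne.symm ht'))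
        positivity
      exact h3.ofReal.const_mul (A t')
    · have h4 : Integrable fun t' : ℝ => ((∫ r, ‖G r‖) * Real.Gamma ((1 - α) / 2)) *
          (if |t - t'| ≤ |R0| + |t| then |t - t'| ^ (α - 1) else 0) :=
        ((small_int (α - 1) (by linarith) (|R0| + |t|) (by positivity)).comp_sub_left t).const_mul _
      refine h4.mono' ?_ ?_
      · exact hm.norm.aestronglyMeasurable.integral_prod_right'
      · filter_upwards [hae] with t' ht'
        rw [Real.norm_eq_abs, abs_of_nonneg (integral_nonneg fun u => norm_nonneg _)]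
        have h5 : ∫ x in Ioi (0 : ℝ), ‖Function.uncurry (fun (t' x : ℝ) => A t' *
            ((x ^ ((1 - α) / 2 - 1) * Real.exp (-((t - t') ^ 2 * x)) : ℝ) : ℂ)) (t', x)‖ =
            ‖A t'‖ * (|t - t'| ^ (α - 1) * Real.Gamma ((1 - α) / 2)) := by
          rw [← gauss_u α (t - t') h1 (sub_ne_zero.2 (Ne.symm ht')), ← integral_const_mul]
          apply setIntegral_congr_fun measurableSet_Ioi
          intro x hx
          have hx0 : (0 : ℝ) < x := hx
          show ‖A t' * ((x ^ ((1 - α) / 2 - 1) * Real.exp (-((t - t') ^ 2 * x)) : ℝ) : ℂ)‖ =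
            ‖A t'‖ * (x ^ ((1 - α) / 2 - 1) * Real.exp (-((t - t') ^ 2 * x)))
          rw [norm_mul, Complex.norm_of_nonneg (by positivity)]
        rw [h5]
        split_ifs with h6
        · calc ‖A t'‖ * (|t - t'| ^ (α - 1) * Real.Gamma ((1 - α) / 2))
              ≤ (∫ r, ‖G r‖) * (|t - t'| ^ (α - 1) * Real.Gamma ((1 - α) / 2)) :=
                mul_le_mul_of_nonneg_right (A_bd G A hA t') (by positivity)
            _ = _ := by ring
        · have h7 : A t' = 0 := by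
            apply hR0
            have h8 : |t - t'| ≤ |t| + |t'| := abs_sub t t'
            have h9 := le_abs_self R0
            linarith [not_le.1 h6]
          rw [h7, norm_zero, zero_mul, mul_zero]
  rw [hb1, integral_integral_swap hbprod]
  have hc : ∫ x in Ioi (0 : ℝ), ∫ t', A t' * ((x ^ ((1 - α) / 2 - 1) *
        Real.exp (-((t - t') ^ 2 * x)) : ℝ) : ℂ) = ∫ x in Ioi (0 : ℝ), ∫ r : ℝ,
        Complex.exp (-2 * Real.pi * Complex.I * ((r * t : ℝ) : ℂ)) * G r *
        ((x ^ ((1 - α) / 2 - 1) * ((Real.pi / x) ^ (1 / 2 : ℝ) *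
          Real.exp (-((Real.pi * r) ^ 2 / x))) : ℝ) : ℂ) := by
    apply setIntegral_congr_fun measurableSet_Ioi
    intro x hx
    have hx0 : (0 : ℝ) < x := hx
    show ∫ t', A t' * ((x ^ ((1 - α) / 2 - 1) * Real.exp (-((t - t') ^ 2 * x)) : ℝ) : ℂ) =
      ∫ r : ℝ, Complex.exp (-2 * Real.pi * Complex.I * ((r * t : ℝ) : ℂ)) * G r *
        ((x ^ ((1 - α) / 2 - 1) * ((Real.pi / x) ^ (1 / 2 : ℝ) *
          Real.exp (-((Real.pi * r) ^ 2 / x))) : ℝ) : ℂ)
    have e1 : ∀ t' : ℝ, A t' * ((x ^ ((1 - α) / 2 - 1) * Real.exp (-((t - t') ^ 2 * x)) : ℝ) : ℂ) =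
        ((x ^ ((1 - α) / 2 - 1) : ℝ) : ℂ) * (A t' * ((Real.exp (-((t - t') ^ 2 * x)) : ℝ) : ℂ)) := by
      intro t'
      push_cast
      ring
    have e2 : ∀ r : ℝ, Complex.exp (-2 * Real.pi * Complex.I * ((r * t : ℝ) : ℂ)) * G r *
        ((x ^ ((1 - α) / 2 - 1) * ((Real.pi / x) ^ (1 / 2 : ℝ) *
          Real.exp (-((Real.pi * r) ^ 2 / x))) : ℝ) : ℂ) = ((x ^ ((1 - α) / 2 - 1) : ℝ) : ℂ) *
        (Complex.exp (-2 * Real.pi * Complex.I * ((r * t : ℝ) : ℂ)) * G r *
        (((Real.pi / x) ^ (1 / 2 : ℝ) * Real.exp (-((Real.pi * r) ^ 2 / x)) : ℝ) : ℂ)) := by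
      intro r
      push_cast
      ring
    rw [integral_congr_ae (Eventually.of_forall e1), integral_congr_ae (Eventually.of_forall e2),
      integral_const_mul, integral_const_mul, step_c G A hG hGi hA t x hx0]
  rw [hc]
  have hae0 : ∀ᵐ r : ℝ, r ≠ 0 := by
    rw [ae_iff]
    simp
  have h2a : ∀ r : ℝ, |Real.pi * r| ^ (-α) = 2 ^ α * |2 * Real.pi * r| ^ (-α) := by
    intro r
    have e1 : |2 * Real.pi * r| = 2 * |Real.pi * r| := by
      rw [mul_assoc, abs_mul, abs_of_pos (by norm_num : (0 : ℝ) < 2)]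
    rw [e1, Real.mul_rpow (by norm_num) (abs_nonneg _), ← mul_assoc,
      ← Real.rpow_add (by norm_num : (0 : ℝ) < 2), add_neg_cancel, Real.rpow_zero, one_mul]
  have hdprod : Integrable (Function.uncurry fun (x r : ℝ) =>
        Complex.exp (-2 * Real.pi * Complex.I * ((r * t : ℝ) : ℂ)) * G r *
        ((x ^ ((1 - α) / 2 - 1) * ((Real.pi / x) ^ (1 / 2 : ℝ) *
          Real.exp (-((Real.pi * r) ^ 2 / x))) : ℝ) : ℂ))
        (((volume : Measure ℝ).restrict (Ioi 0)).prod (volume : Measure ℝ)) := by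
    have hm : Measurable (Function.uncurry fun (x r : ℝ) =>
        Complex.exp (-2 * Real.pi * Complex.I * ((r * t : ℝ) : ℂ)) * G r *
        ((x ^ ((1 - α) / 2 - 1) * ((Real.pi / x) ^ (1 / 2 : ℝ) *
          Real.exp (-((Real.pi * r) ^ 2 / x))) : ℝ) : ℂ)) := by
      have := hG.measurable
      unfold Function.uncurry
      fun_prop
    rw [integrable_prod_iff' hm.aestronglyMeasurable]
    constructor
    · filter_upwards [hae0] with r hr
      have h3 : Integrable (fun x : ℝ => x ^ ((1 - α) / 2 - 1) * ((Real.pi / x) ^ (1 / 2 : ℝ) *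
          Real.exp (-((Real.pi * r) ^ 2 / x)))) (volume.restrict (Ioi 0)) := by
        apply int_of_pos
        rw [gauss_r α r h0 hr]
        have : 0 < |Real.pi * r| := abs_pos.2 (mul_ne_zero hpi.ne' hr)
        positivity
      exact h3.ofReal.const_mul
        (Complex.exp (-2 * Real.pi * Complex.I * ((r * t : ℝ) : ℂ)) * G r)
    · have h4 : Integrable fun r : ℝ => (Real.pi ^ (1 / 2 : ℝ) * Real.Gamma (α / 2) * 2 ^ α) *
          (|2 * Real.pi * r| ^ (-α) * ‖G r‖) :=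
        (G_int_rpow G hG hN (-α) (by linarith) (by linarith)).const_mul _
      refine h4.mono' ?_ ?_
      · have h6 := hm.norm.aestronglyMeasurable
          (μ := ((volume : Measure ℝ).restrict (Ioi 0)).prod (volume : Measure ℝ))
        exact (h6.prod_swap).integral_prod_right'
      · filter_upwards [hae0] with r hr
        rw [Real.norm_eq_abs, abs_of_nonneg (integral_nonneg fun u => norm_nonneg _)]
        have h5 : ∫ x in Ioi (0 : ℝ), ‖Function.uncurry (fun (x r : ℝ) =>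
            Complex.exp (-2 * Real.pi * Complex.I * ((r * t : ℝ) : ℂ)) * G r *
            ((x ^ ((1 - α) / 2 - 1) * ((Real.pi / x) ^ (1 / 2 : ℝ) *
            Real.exp (-((Real.pi * r) ^ 2 / x))) : ℝ) : ℂ)) (x, r)‖ =
            ‖G r‖ * (Real.pi ^ (1 / 2 : ℝ) * Real.Gamma (α / 2) * |Real.pi * r| ^ (-α)) := by
          rw [← gauss_r α r h0 hr, ← integral_const_mul]
          apply setIntegral_congr_fun measurableSet_Ioi
          intro x hx
          have hx0 : (0 : ℝ) < x := hx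
          show ‖Complex.exp (-2 * Real.pi * Complex.I * ((r * t : ℝ) : ℂ)) * G r *
            ((x ^ ((1 - α) / 2 - 1) * ((Real.pi / x) ^ (1 / 2 : ℝ) *
            Real.exp (-((Real.pi * r) ^ 2 / x))) : ℝ) : ℂ)‖ = ‖G r‖ * (x ^ ((1 - α) / 2 - 1) *
            ((Real.pi / x) ^ (1 / 2 : ℝ) * Real.exp (-((Real.pi * r) ^ 2 / x))))
          rw [norm_mul, norm_mul, unit_norm, one_mul, Complex.norm_of_nonneg (by positivity)]
        rw [h5, h2a r]
        apply le_of_eq
        ring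
  rw [integral_integral_swap hdprod, ← integral_const_mul]
  apply integral_congr_ae
  filter_upwards [hae0] with r hr
  rw [integral_const_mul, integral_complex_ofReal, gauss_r α r h0 hr, h2a r]
  push_cast
  ring

end Rszx

/-- [Rsz] -/
theorem thm_Rsz : St_Rsz := by
  intro α h0 h1
  have hpi := Real.pi_pos
  have hΓa : 0 < Real.Gamma ((1 - α) / 2) := Real.Gamma_pos_of_pos (by linarith)
  have hΓb : 0 < Real.Gamma (α / 2) := Real.Gamma_pos_of_pos (by linarith)
  have hc1 := Rszx.c1_pos α h0 h1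
  obtain ⟨c2, hc2⟩ : ∃ c2 : ℝ, c2 = Real.pi ^ (1 / 2 : ℝ) * Real.Gamma (α / 2) * 2 ^ α := ⟨_, rfl⟩
  have hc2p : 0 < c2 := by
    rw [hc2]
    positivity
  refine ⟨1 / Rszx.c1 α, Real.Gamma ((1 - α) / 2) / c2, by positivity, by positivity, ?_⟩
  intro G A hG hN hA hAc t
  constructor
  · rw [← Rszx.first α h0 h1 G A hG hN hA t, ← mul_assoc]
    have h2 : (((1 / Rszx.c1 α : ℝ) : ℂ)) * ((Rszx.c1 α : ℝ) : ℂ) = 1 := by
      rw [← Complex.ofReal_mul, one_div, inv_mul_cancel₀ hc1.ne', Complex.ofReal_one]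
    rw [h2, one_mul]
  · have h3 := Rszx.second α h0 h1 G A hG hN hA hAc t
    rw [← hc2] at h3
    have h4 : (((Real.Gamma ((1 - α) / 2) / c2 : ℝ) : ℂ)) *
        ∫ t', A t' * ((|t - t'| ^ (α - 1) : ℝ) : ℂ) = ((c2⁻¹ : ℝ) : ℂ) *
        (((Real.Gamma ((1 - α) / 2) : ℝ) : ℂ) * ∫ t', A t' * ((|t - t'| ^ (α - 1) : ℝ) : ℂ)) := by
      rw [div_eq_inv_mul, Complex.ofReal_mul, mul_assoc]
    rw [h4, ← h3, ← mul_assoc, ← Complex.ofReal_mul, inv_mul_cancel₀ hc2p.ne', Complex.ofReal_one,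
      one_mul]

end Pool.Agent.QWP
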