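import Pool.Agent.QWP.StA
import Pool.Agent.QWE.Act

/-!
# QWP, module ActP: symmetries acting on the fields and on the exterior norms (helper52)
-/

set_option autoImplicit false

open MeasureTheory Filter Topology Set
open scoped ENNReal NNReal RealInnerProductSpace ContDiff Pointwise

namespace Pool.Agent.QWP.ActPx

open Pool.Agent.QWE (E S sg mu K toK tau sh dl rev gr ig IsTest pd lap Rad dRad Rk dRk c0 WD Sm SmE IsSch half shr WTo)
open Pool.Agent.QWE (toK_coe sh_coe dl_coe rev_coe qmp_scale mp_rev)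
open Pool.Agent.QWE.Actx Pool.Agent.QWE.Linx

/-! ### the Fourier integrals -/

lemma ft_smul (c : ℝ) (φ : E → ℝ) (ξ : E) : ft (fun x => c * φ x) ξ = (c : ℂ) * ft φ ξ := by
  unfold ft
  rw [← integral_const_mul]
  congr 1
  funext x
  push_cast
  ring

lemma ft_scale (φ : E → ℝ) (a : ℝ) (ξ : E) :
    ft (fun x => φ (Real.exp a • x)) ξ =
      ((Real.exp (-(5 * a)) : ℝ) : ℂ) * ft φ (Real.exp (-a) • ξ) := by
  unfold ft
  have h := Measure.integral_comp_smul (volume : Measure E)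
    (fun x : E => (φ x : ℂ) * Complex.exp (-2 * Real.pi * Complex.I *
      ((inner ℝ x (Real.exp (-a) • ξ) : ℝ) : ℂ))) (Real.exp a)
  have h2 : Module.finrank ℝ E = 5 := by simp
  have h3 : ∀ x : E, inner ℝ (Real.exp a • x) (Real.exp (-a) • ξ) = inner ℝ x ξ := by
    intro x
    rw [real_inner_smul_left, real_inner_smul_right, ← mul_assoc, ← Real.exp_add,
      add_neg_cancel, Real.exp_zero, one_mul]
  simp only [h3] at h
  rw [h, h2, abs_of_pos (by positivity), ← Real.exp_nat_mul, ← Real.exp_neg, Complex.real_smul]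
  push_cast
  rfl

/-- the kernel of `RsF` and `dRsF` -/
noncomputable def kf (d : Bool) (s : ℝ) (φ : E → ℝ) (z : S × ℝ) (r : ℝ) : ℂ :=
  ((|2 * Real.pi * r| ^ (-s) : ℝ) : ℂ) * (if d then 2 * Real.pi * Complex.I * (r : ℂ) else 1) *
    ft φ (r • (z.1 : E)) * Complex.exp (2 * Real.pi * Complex.I * ((r * z.2 : ℝ) : ℂ))

noncomputable def RF (d : Bool) (s : ℝ) (φ : E → ℝ) (z : S × ℝ) : ℝ := (∫ r : ℝ, kf d s φ z r).re

lemma RF_f (s : ℝ) (φ : E → ℝ) : RF false s φ = RsF s φ := by
  funext z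
  unfold RF RsF kf
  congr 2
  funext r
  simp

lemma RF_t (s : ℝ) (φ : E → ℝ) : RF true s φ = dRsF s φ := by
  funext z
  unfold RF dRsF kf
  congr 2

lemma RF_smul (d : Bool) (s c : ℝ) (φ : E → ℝ) (z : S × ℝ) :
    RF d s (fun x => c * φ x) z = c * RF d s φ z := by
  unfold RF
  have h1 : ∀ r, kf d s (fun x => c * φ x) z r = (c : ℂ) * kf d s φ z r := by
    intro r
    unfold kf
    rw [ft_smul]
    ring
  simp_rw [h1]
  rw [integral_const_mul, Complex.re_ofReal_mul]

lemma RF_shift (hFt : St_Ft) (d : Bool) (s : ℝ) {φ : E → ℝ} (hφ : IsSch φ) (y : E) (w : S)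
    (p : ℝ) : RF d s (fun x => φ (x - y)) (w, p) = RF d s φ (w, p - inner ℝ y (w : E)) := by
  obtain ⟨-, -, -, -, -, -, h7, -⟩ := hFt.2 φ hφ
  unfold RF
  congr 2
  funext r
  unfold kf
  simp only
  rw [h7, inner_smul_right]
  have h8 : Complex.exp (-2 * Real.pi * Complex.I * ((r * inner ℝ y (w : E) : ℝ) : ℂ)) *
      Complex.exp (2 * Real.pi * Complex.I * ((r * p : ℝ) : ℂ)) =
      Complex.exp (2 * Real.pi * Complex.I * ((r * (p - inner ℝ y (w : E)) : ℝ) : ℂ)) := by
    rw [← Complex.exp_add]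
    congr 1
    push_cast
    ring
  rw [← h8]
  ring

/-- the exponent of the factor -/
noncomputable def dd (d : Bool) : ℝ := if d then 1 else 0

lemma RF_scale (d : Bool) (s : ℝ) (φ : E → ℝ) (a : ℝ) (w : S) (p : ℝ) :
    RF d s (fun x => φ (Real.exp a • x)) (w, p) =
      Real.exp (-((4 - dd d + s) * a)) * RF d s φ (w, Real.exp a * p) := by
  unfold RF
  have h1 : ∀ r, kf d s (fun x => φ (Real.exp a • x)) (w, p) r =
      ((Real.exp (-((5 - dd d + s) * a)) : ℝ) : ℂ) *
        kf d s φ (w, Real.exp a * p) (Real.exp (-a) * r) := by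
    intro r
    unfold kf
    simp only
    rw [ft_scale, smul_smul]
    have e1 : Real.exp (-a) * r * (Real.exp a * p) = r * p := by
      have : Real.exp (-a) * Real.exp a = 1 := by rw [← Real.exp_add, neg_add_cancel, Real.exp_zero]
      calc Real.exp (-a) * r * (Real.exp a * p) = (Real.exp (-a) * Real.exp a) * (r * p) := by ring
        _ = r * p := by rw [this, one_mul]
    have e2 : |2 * Real.pi * (Real.exp (-a) * r)| ^ (-s) =
        Real.exp (a * s) * |2 * Real.pi * r| ^ (-s) := by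
      have : 2 * Real.pi * (Real.exp (-a) * r) = Real.exp (-a) * (2 * Real.pi * r) := by ring
      rw [this, abs_mul, abs_of_pos (Real.exp_pos _),
        Real.mul_rpow (Real.exp_pos _).le (abs_nonneg _), ← Real.exp_mul]
      congr 2
      ring
    rw [e1, e2]
    cases d with
    | false =>
      simp only [dd, Bool.false_eq_true, if_false]
      have e3 : Real.exp (-((5 - 0 + s) * a)) * Real.exp (a * s) = Real.exp (-(5 * a)) := by
        rw [← Real.exp_add]
        congr 1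
        ring
      rw [← e3]
      push_cast
      ring
    | true =>
      simp only [dd, if_true]
      have e3 : Real.exp (-((5 - 1 + s) * a)) * Real.exp (a * s) * Real.exp (-a) =
          Real.exp (-(5 * a)) := by
        rw [← Real.exp_add, ← Real.exp_add]
        congr 1
        ring
      rw [← e3]
      push_cast
      ring
  simp_rw [h1]
  rw [integral_const_mul, Measure.integral_comp_mul_left (kf d s φ (w, Real.exp a * p)),
    abs_of_pos (by positivity), Real.exp_neg (a), inv_inv, Complex.real_smul, ← mul_assoc,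
    ← Complex.ofReal_mul, Complex.re_ofReal_mul, ← Real.exp_add]
  congr 2
  ring

lemma RF_rev (d : Bool) (s : ℝ) (φ : E → ℝ) (w : S) (p : ℝ) :
    RF d s φ (-w, -p) = (if d then -1 else 1) * RF d s φ (w, p) := by
  unfold RF
  have h1 : ∀ r, kf d s φ (-w, -p) r = (((if d then -1 else 1) : ℝ) : ℂ) * kf d s φ (w, p) (-r) := by
    intro r
    unfold kf
    simp only
    have e1 : r • ((-w : S) : E) = (-r) • (w : E) := by
      have : ((-w : S) : E) = -(w : E) := rfl
      rw [this, smul_neg, neg_smul]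
    have e2 : r * -p = -r * p := by ring
    have e3 : |2 * Real.pi * -r| = |2 * Real.pi * r| := by
      rw [mul_neg, abs_neg]
    rw [e1, e2, e3]
    cases d <;> simp
  simp_rw [h1]
  rw [integral_const_mul, integral_neg_eq_self (kf d s φ (w, p)) volume, Complex.re_ofReal_mul]

/-! ### test states -/

/-- both test states -/
noncomputable def RK (d : Bool) (s : ℝ) (φ : E → ℝ) : K := toK (RF d s φ)

lemma RK_f (s : ℝ) (φ : E → ℝ) : RK false s φ = Rs s φ := by
  unfold RK Rs
  rw [RF_f]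

lemma RK_t (s : ℝ) (φ : E → ℝ) : RK true s φ = dRs s φ := by
  unfold RK dRs
  rw [RF_t]

lemma RK_coe (hPar : St_Par) {s : ℝ} (hs : |s| < 1 / 2) (d : Bool) {φ : E → ℝ} (hφ : IsSch φ) :
    (RK d s φ : S × ℝ → ℝ) =ᵐ[mu] RF d s φ := by
  obtain ⟨-, -, h1, h2, -⟩ := hPar s s 0 φ φ hs hs hφ hφ
  unfold RK
  refine toK_coe ?_
  cases d with
  | false => rw [RF_f]; exact h1
  | true => rw [RF_t]; exact h2

lemma RK_smul (hPar : St_Par) {s : ℝ} (hs : |s| < 1 / 2) (d : Bool) {φ : E → ℝ} (c : ℝ)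
    (hφ : IsSch φ) (hφ' : IsSch fun x => c * φ x) :
    RK d s (fun x => c * φ x) = c • RK d s φ := by
  apply Lp.ext
  filter_upwards [RK_coe hPar hs d hφ, RK_coe hPar hs d hφ', Lp.coeFn_smul c (RK d s φ)]
    with z e1 e2 e3
  rw [e2, e3, Pi.smul_apply, e1, smul_eq_mul, RF_smul]

lemma sh_RK (hFt : St_Ft) (hPar : St_Par) {s : ℝ} (hs : |s| < 1 / 2) (d : Bool) {φ : E → ℝ}
    (hφ : IsTest φ) (y : E) : sh y (RK d s φ) = RK d s (fun x => φ (x - y)) := by
  have h1 := RK_coe hPar hs d (test_sch hφ)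
  have h2 := RK_coe hPar hs d (test_sch (test_shift hφ y))
  apply Lp.ext
  have h3 := (mps y).quasiMeasurePreserving.ae h1
  filter_upwards [sh_coe y (RK d s φ), h2, h3] with z e1 e2 e3
  rw [e1, e2, e3]
  exact (RF_shift hFt d s (test_sch hφ) y z.1 z.2).symm

lemma dl_RK (hPar : St_Par) {s : ℝ} (hs : |s| < 1 / 2) (d : Bool) {φ : E → ℝ}
    (hφ : IsTest φ) (a : ℝ) : dl a (RK d s φ) =
      Real.exp ((9 / 2 - dd d + s) * a) • RK d s (fun x => φ (Real.exp a • x)) := by
  have h1 := RK_coe hPar hs d (test_sch hφ)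
  have h2 := RK_coe hPar hs d (test_sch (test_scale hφ a))
  apply Lp.ext
  have h3 := (qmp_scale (Real.exp_pos a)).ae h1
  filter_upwards [dl_coe a (RK d s φ), h2, h3,
    Lp.coeFn_smul (Real.exp ((9 / 2 - dd d + s) * a)) (RK d s (fun x => φ (Real.exp a • x)))]
    with z e1 e2 e3 e4
  rw [e1, e4, Pi.smul_apply, e2, e3, smul_eq_mul]
  have e5 := RF_scale d s φ a z.1 z.2
  rw [e5, ← mul_assoc, ← Real.exp_add]
  congr 2
  ring

lemma rev_RK (hPar : St_Par) {s : ℝ} (hs : |s| < 1 / 2) (d : Bool) {φ : E → ℝ}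
    (hφ : IsTest φ) : rev (RK d s φ) = (if d then (-1 : ℝ) else 1) • RK d s φ := by
  have h1 := RK_coe hPar hs d (test_sch hφ)
  apply Lp.ext
  have h3 := mp_rev.quasiMeasurePreserving.ae h1
  filter_upwards [rev_coe (RK d s φ), h1, h3,
    Lp.coeFn_smul (if d then (-1 : ℝ) else 1) (RK d s φ)] with z e1 e2 e3 e4
  rw [e1, e4, Pi.smul_apply, e2, e3, smul_eq_mul]
  exact RF_rev d s φ z.1 z.2

/-! ### the isometries and the exterior norms -/

lemma map_TSs {s : ℝ} (T : K →ₗᵢ[ℝ] K) (Ω Ω' : Set E)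
    (h : ∀ (d : Bool) (φ : E → ℝ), IsTest φ → tsupport φ ⊆ Ω → T (RK d s φ) ∈ TS s Ω') :
    ∀ w ∈ TS s Ω, T w ∈ TS s Ω' := by
  have h1 : TS s Ω ≤ (TS s Ω').comap T.toLinearMap := by
    unfold TS
    refine Submodule.topologicalClosure_minimal _ ?_ ?_
    · rw [Submodule.span_le]
      rintro w ⟨φ, hφ, hs, hw⟩
      rcases hw with rfl | rfl
      · rw [← RK_f]
        exact h false φ hφ hs
      · rw [← RK_t]
        exact h true φ hφ hs
    · exact (Submodule.isClosed_topologicalClosure _).preimage T.continuous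
  exact fun w hw => h1 hw

lemma mem_TSs {s : ℝ} {Ω : Set E} (d : Bool) {φ : E → ℝ} (hφ : IsTest φ) (hs : tsupport φ ⊆ Ω) :
    RK d s φ ∈ TS s Ω := by
  cases d with
  | false =>
    rw [RK_f]
    exact Submodule.le_topologicalClosure _ (Submodule.subset_span ⟨φ, hφ, hs, Or.inl rfl⟩)
  | true =>
    rw [RK_t]
    exact Submodule.le_topologicalClosure _ (Submodule.subset_span ⟨φ, hφ, hs, Or.inr rfl⟩)

lemma sh_TSs (hFt : St_Ft) (hPar : St_Par) {s : ℝ} (hs : |s| < 1 / 2) (y : E) (Ω Ω' : Set E)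
    (h : ∀ x, x - y ∈ Ω → x ∈ Ω') : ∀ w ∈ TS s Ω, sh y w ∈ TS s Ω' := by
  refine map_TSs (sh y) Ω Ω' fun d φ hφ hsu => ?_
  rw [sh_RK hFt hPar hs d hφ y]
  refine mem_TSs d (test_shift hφ y) ?_
  intro x hx
  exact h x (hsu (tsupport_comp φ (fun x => x - y) (by fun_prop) hx))

lemma dl_TSs (hPar : St_Par) {s : ℝ} (hs : |s| < 1 / 2) (a : ℝ) (Ω Ω' : Set E)
    (h : ∀ x, Real.exp a • x ∈ Ω → x ∈ Ω') : ∀ w ∈ TS s Ω, dl a w ∈ TS s Ω' := by
  refine map_TSs (dl a) Ω Ω' fun d φ hφ hsu => ?_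
  rw [dl_RK hPar hs d hφ a]
  have h1 : tsupport (fun x => φ (Real.exp a • x)) ⊆ Ω' := by
    intro x hx
    exact h x (hsu (tsupport_comp φ (fun x => Real.exp a • x) (by fun_prop) hx))
  exact Submodule.smul_mem _ _ (mem_TSs d (test_scale hφ a) h1)

lemma ex_shs (hG : Pool.Agent.QWE.St_Grp1) (hFt : St_Ft) (hPar : St_Par) {s : ℝ}
    (hs : |s| < 1 / 2) (Ω : Set E) (y : E) (k : K) :
    ex s Ω (sh y k) = ex s {x | x + y ∈ Ω} k := by
  unfold ex pr
  refine proj_conj (sh y) _ _ ?_ ?_ k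
  · refine sh_TSs hFt hPar hs y _ _ fun x hx => ?_
    simpa using hx
  · intro w hw
    refine ⟨sh (-y) w, sh_TSs hFt hPar hs (-y) _ _ (fun x hx => ?_) w hw, ?_⟩
    · simpa using hx
    · rw [hG.2.2.1, add_neg_cancel, hG.2.2.2.1]

lemma ex_dls (hG : Pool.Agent.QWE.St_Grp2) (hPar : St_Par) {s : ℝ} (hs : |s| < 1 / 2)
    (Ω : Set E) (a : ℝ) (k : K) : ex s Ω (dl a k) = ex s {x | Real.exp (-a) • x ∈ Ω} k := by
  unfold ex pr
  refine proj_conj (dl a) _ _ ?_ ?_ k
  · refine dl_TSs hPar hs a _ _ fun x hx => ?_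
    have h1 : Real.exp (-a) • Real.exp a • x = x := by
      rw [smul_smul, ← Real.exp_add, neg_add_cancel, Real.exp_zero, one_smul]
    rw [Set.mem_ofPred_eq, h1] at hx
    exact hx
  · intro w hw
    refine ⟨dl (-a) w, dl_TSs hPar hs (-a) _ _ (fun x hx => hx) w hw, ?_⟩
    rw [hG.1, add_neg_cancel, hG.2.1]

lemma ex_revs (hG : Pool.Agent.QWE.St_Grp2) (hPar : St_Par) {s : ℝ} (hs : |s| < 1 / 2)
    (Ω : Set E) (k : K) : ex s Ω (rev k) = ex s Ω k := by
  unfold ex pr
  have h1 : ∀ w ∈ TS s Ω, rev w ∈ TS s Ω := by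
    refine map_TSs rev Ω Ω fun d φ hφ hsu => ?_
    rw [rev_RK hPar hs d hφ]
    exact Submodule.smul_mem _ _ (mem_TSs d hφ hsu)
  refine proj_conj rev _ _ h1 ?_ k
  intro w hw
  exact ⟨rev w, h1 w hw, hG.2.2.1 w⟩

/-! ### affine substitutions -/

lemma int_aff (f ψ : E → ℝ) (a : ℝ) (y : E) :
    ∫ x, f (Real.exp a • (x - y)) * ψ x =
      Real.exp (-(5 * a)) * ∫ x, f x * ψ (Real.exp (-a) • x + y) := by
  have h1 := int_shift (fun x => f (Real.exp a • x)) ψ y
  have h2 := int_scale f (fun x => ψ (x + y)) a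
  rw [← h1, h2, ← mul_assoc, ← Real.exp_add, neg_add_cancel, Real.exp_zero, one_mul]

lemma pd_aff (i : Fin 5) (c b : ℝ) (y : E) {f : E → ℝ} (hf : ContDiff ℝ ∞ f) (x : E) :
    pd i (fun x => c * f (b • (x - y))) x = c * b * pd i f (b • (x - y)) := by
  unfold pd
  have h1 : HasFDerivAt (fun x : E => b • (x - y)) (b • ContinuousLinearMap.id ℝ E) x :=
    ((hasFDerivAt_id x).sub_const y).const_smul b
  have h2 := ((hf.differentiable (by simp) (b • (x - y))).hasFDerivAt.comp x h1).const_mul c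
  have h3 : fderiv ℝ (fun x => c * f (b • (x - y))) x =
      c • (fderiv ℝ f (b • (x - y))).comp (b • ContinuousLinearMap.id ℝ E) := h2.fderiv
  rw [h3]
  simp
  ring

lemma pd_aff2 (i : Fin 5) (b : ℝ) (y : E) {f : E → ℝ} (hf : ContDiff ℝ ∞ f) (x : E) :
    pd i (fun x => f (b • x + y)) x = b * pd i f (b • x + y) := by
  unfold pd
  have h1 : HasFDerivAt (fun x : E => b • x + y) (b • ContinuousLinearMap.id ℝ E) x :=
    ((hasFDerivAt_id x).const_smul b).add_const y
  have h2 := (hf.differentiable (by simp) (b • x + y)).hasFDerivAt.comp x h1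
  have h3 : fderiv ℝ (fun x => f (b • x + y)) x =
      (fderiv ℝ f (b • x + y)).comp (b • ContinuousLinearMap.id ℝ E) := h2.fderiv
  rw [h3]
  simp

lemma sm_pd (i : Fin 5) {φ : E → ℝ} (h : ContDiff ℝ ∞ φ) : ContDiff ℝ ∞ (pd i φ) :=
  (h.fderiv_right (m := ∞) (by simp)).clm_apply contDiff_const

lemma lap_aff (c b : ℝ) (y : E) {f : E → ℝ} (hf : ContDiff ℝ ∞ f) :
    lap (fun x => c * f (b • (x - y))) = fun x => c * b ^ 2 * lap f (b • (x - y)) := by
  funext x
  unfold lap
  rw [Finset.mul_sum]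
  refine Finset.sum_congr rfl fun i _ => ?_
  have h1 : pd i (fun x => c * f (b • (x - y))) = fun x => c * b * pd i f (b • (x - y)) :=
    funext fun x => pd_aff i c b y hf x
  rw [h1, pd_aff i (c * b) b y (sm_pd i hf)]
  ring

lemma test_aff {f : E → ℝ} (hf : IsTest f) (c a : ℝ) (y : E) :
    IsTest fun x => c * f (Real.exp a • (x - y)) := by
  have h1 := test_shift (test_scale hf a) y
  exact ⟨contDiff_const.mul h1.1, h1.2.mul_left⟩

lemma test_aff2 {f : E → ℝ} (hf : IsTest f) (a : ℝ) (y : E) :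
    IsTest fun x => f (Real.exp a • x + y) := by
  have h1 := test_scale (test_shift hf (-y)) a
  simp only [sub_neg_eq_add] at h1
  exact h1

/-! ### test formulas for `gr` -/

lemma gr_RK (hFt : St_Ft) (hPar : St_Par) {s : ℝ} (hs : |s| < 1 / 2) (d : Bool) {φ : E → ℝ}
    (hφ : IsTest φ) (a : ℝ) (y : E) : gr y a (RK d s φ) =
      Real.exp ((9 / 2 - dd d + s) * a) • RK d s (fun x => φ (Real.exp a • (x - y))) := by
  unfold gr
  rw [dl_RK hPar hs d hφ a, map_smul, sh_RK hFt hPar hs d (test_scale hφ a) y]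

lemma inner_gr (hG1 : Pool.Agent.QWE.St_Grp1) (hG2 : Pool.Agent.QWE.St_Grp2) (hFt : St_Ft)
    (hPar : St_Par) {s : ℝ} (hs : |s| < 1 / 2) (d : Bool) {φ : E → ℝ} (hφ : IsTest φ) (a : ℝ)
    (y : E) (k : K) : inner ℝ (gr y a k) (RK d s φ) =
      Real.exp (-((9 / 2 - dd d + s) * a)) *
        inner ℝ k (RK d s (fun x => φ (Real.exp (-a) • x + y))) := by
  unfold gr
  have h1 := sh_RK hFt hPar hs d hφ (-y)
  simp only [sub_neg_eq_add] at h1
  have h2 : IsTest fun x => φ (x + y) := by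
    have := test_shift hφ (-y)
    simp only [sub_neg_eq_add] at this
    exact this
  rw [hG1.2.2.2.2.2.2.1, h1, hG2.2.2.2.2.2.2.2.2.1, dl_RK hPar hs d h2 (-a), real_inner_smul_right]
  congr 2
  ring

/-- the test formula: if `u` represents `k` and `u'` represents `gr y a k` then `u'` is the
transformed `u` -/
lemma field_gr (hG1 : Pool.Agent.QWE.St_Grp1) (hG2 : Pool.Agent.QWE.St_Grp2) (hFt : St_Ft)
    (hPar : St_Par) {s : ℝ} (hs : |s| < 1 / 2) (d : Bool) (a : ℝ) (y : E) (k : K) (u u' : E → ℝ)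
    (hu : LocallyIntegrable u volume) (hu' : LocallyIntegrable u' volume)
    (h : ∀ φ, IsTest φ → ∫ x, u x * φ x = inner ℝ k (RK d s φ))
    (h' : ∀ φ, IsTest φ → ∫ x, u' x * φ x = inner ℝ (gr y a k) (RK d s φ)) :
    u' =ᵐ[volume] fun x => Real.exp ((1 / 2 + dd d - s) * a) * u (Real.exp a • (x - y)) := by
  have li : LocallyIntegrable (fun x => u (Real.exp a • (x - y))) volume :=
    li_shift (li_scale hu a) y
  refine ae_uniq hu' (li.smul (Real.exp ((1 / 2 + dd d - s) * a))) fun φ hφ => ?_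
  rw [h' φ hφ, inner_gr hG1 hG2 hFt hPar hs d hφ a y k, ← h _ (test_aff2 hφ (-a) y)]
  have e1 : (fun x => Real.exp ((1 / 2 + dd d - s) * a) * u (Real.exp a • (x - y)) * φ x) =
      fun x => Real.exp ((1 / 2 + dd d - s) * a) * (u (Real.exp a • (x - y)) * φ x) := by
    funext x
    ring
  have e2 : ∫ x, (Real.exp ((1 / 2 + dd d - s) * a) • fun x => u (Real.exp a • (x - y))) x * φ x =
      ∫ x, Real.exp ((1 / 2 + dd d - s) * a) * (u (Real.exp a • (x - y)) * φ x) := by
    congr 1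
  refine Eq.trans ?_ e2.symm
  rw [integral_const_mul, int_aff, ← mul_assoc, ← Real.exp_add]
  congr 2
  ring

lemma wd_aff {u v : E → ℝ} (i : Fin 5) (h : WD i u v) (c a : ℝ) (y : E) :
    WD i (fun x => c * u (Real.exp a • (x - y)))
      (fun x => c * Real.exp a * v (Real.exp a • (x - y))) := by
  intro φ hφ
  have e1 : ∫ x, c * u (Real.exp a • (x - y)) * pd i φ x =
      c * ∫ x, u (Real.exp a • (x - y)) * pd i φ x := by
    rw [← integral_const_mul]
    congr 1
    funext x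
    ring
  have e2 : ∫ x, c * Real.exp a * v (Real.exp a • (x - y)) * φ x =
      c * Real.exp a * ∫ x, v (Real.exp a • (x - y)) * φ x := by
    rw [← integral_const_mul]
    congr 1
    funext x
    ring
  have e3 := h _ (test_aff2 hφ (-a) y)
  have e4 : ∫ x, u x * pd i (fun x => φ (Real.exp (-a) • x + y)) x =
      Real.exp (-a) * ∫ x, u x * pd i φ (Real.exp (-a) • x + y) := by
    rw [← integral_const_mul]
    congr 1
    funext x
    rw [pd_aff2 i _ y hφ.1]
    ring
  have e5 : Real.exp a * Real.exp (-a) = 1 := by rw [← Real.exp_add, add_neg_cancel, Real.exp_zero]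
  rw [e1, e2, int_aff, int_aff]
  rw [e4] at e3
  have e6 : ∫ x, u x * pd i φ (Real.exp (-a) • x + y) =
      -(Real.exp a * ∫ x, v x * φ (Real.exp (-a) • x + y)) := by
    calc ∫ x, u x * pd i φ (Real.exp (-a) • x + y)
        = Real.exp a * (Real.exp (-a) * ∫ x, u x * pd i φ (Real.exp (-a) • x + y)) := by
          rw [← mul_assoc, e5, one_mul]
      _ = _ := by rw [e3]; ring
  rw [e6]
  ring

end Pool.Agent.QWP.ActPx

namespace Pool.Agent.QWP

open Pool.Agent.QWE (E S sg mu K toK tau sh dl rev gr ig IsTest pd lap Rad dRad Rk dRk c0 WD Sm SmE IsSch half shr WTo)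

open ActPx Pool.Agent.QWE.Actx Pool.Agent.QWE.Linx in
/-- **ActP** (symmetries). -/
theorem thm_ActP (hG1 : Pool.Agent.QWE.St_Grp1) (hG2 : Pool.Agent.QWE.St_Grp2) (hFt : St_Ft)
    (hPar : St_Par) (hF : St_FldP) : St_ActP := by
  intro s hs
  obtain ⟨C, hC, hF, -⟩ := hF s hs
  obtain ⟨hs1, hs2⟩ := abs_lt.1 hs
  have q0_le : 1 ≤ q0 s := by
    unfold q0
    rw [ENNReal.one_le_ofReal, le_div_iff₀ (by linarith)]
    linarith
  have q1_le : 1 ≤ q1 s := by
    unfold q1
    rw [ENNReal.one_le_ofReal, le_div_iff₀ (by linarith)]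
    linarith
  have liU : ∀ k : K, LocallyIntegrable (U s k) volume := fun k =>
    (hF k).1.1.locallyIntegrable q0_le
  have liV : ∀ k : K, LocallyIntegrable (V s k) volume := fun k =>
    (hF k).2.2.1.1.locallyIntegrable q1_le
  have liD : ∀ (k : K) i, LocallyIntegrable (DU s k i) volume := fun k i =>
    ((hF k).2.2.2.2.1 i).1.locallyIntegrable q1_le
  have wdD : ∀ (k : K) i, WD i (U s k) (DU s k i) := fun k i => ((hF k).2.2.2.2.1 i).2.1
  have eU : ∀ (k : K) (φ : E → ℝ), IsTest φ → ∫ x, U s k x * φ x = inner ℝ k (RK false s φ) :=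
    fun k φ hφ => by
      rw [RK_f]
      exact (hF k).1.2 φ hφ
  have eV : ∀ (k : K) (φ : E → ℝ), IsTest φ → ∫ x, V s k x * φ x = inner ℝ k (RK true s φ) :=
    fun k φ hφ => by
      rw [RK_t]
      exact (hF k).2.2.1.2 φ hφ
  have gU : ∀ (y : E) (a : ℝ) (k : K), U s (gr y a k) =ᵐ[volume]
      fun x => Real.exp ((1 / 2 - s) * a) * U s k (Real.exp a • (x - y)) := by
    intro y a k
    have h := field_gr hG1 hG2 hFt hPar hs false a y k _ _ (liU k) (liU (gr y a k)) (eU k) (eU _)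
    simp only [dd, Bool.false_eq_true, if_false, add_zero] at h
    exact h
  refine ⟨fun y a k => ⟨gU y a k, ?_, fun i => ?_⟩, fun k => ⟨?_, ?_⟩, ?_, ex_revs hG2 hPar hs, ?_⟩
  · have h := field_gr hG1 hG2 hFt hPar hs true a y k _ _ (liV k) (liV (gr y a k)) (eV k) (eV _)
    simp only [dd, if_true] at h
    have e : (1 / 2 + 1 - s) * a = (3 / 2 - s) * a := by ring
    rw [e] at h
    exact h
  · have li0 : ∀ (u : E → ℝ) (c : ℝ), LocallyIntegrable u volume →
        LocallyIntegrable (fun x => c * u (Real.exp a • (x - y))) volume := fun u c hu =>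
      (li_shift (li_scale hu a) y).smul c
    have h1 := wd_aff i (wdD k i) (Real.exp ((1 / 2 - s) * a)) a y
    have h2 := wd_eq (li0 _ _ (liU k)) (liD (gr y a k) i) (li0 _ _ (liD k i))
      (wdD (gr y a k) i) h1 (gU y a k)
    have e : Real.exp ((1 / 2 - s) * a) * Real.exp a = Real.exp ((3 / 2 - s) * a) := by
      rw [← Real.exp_add]
      congr 1
      ring
    rw [e] at h2
    exact h2
  · refine ae_uniq (liU _) (liU k) fun φ hφ => ?_
    rw [eU _ φ hφ, inner_rev hG2, rev_RK hPar hs false hφ, eU _ φ hφ]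
    simp
  · refine ae_uniq (liV _) (liV k).neg fun φ hφ => ?_
    rw [eV _ φ hφ, inner_rev hG2, rev_RK hPar hs true hφ]
    simp only [if_true, neg_smul, one_smul, inner_neg_right]
    rw [← eV _ φ hφ, ← integral_neg]
    congr 1
    funext x
    simp
  · intro Ω y a k
    unfold gr
    rw [ex_shs hG1 hFt hPar hs, ex_dls hG2 hPar hs]
    congr 1
    ext x
    simp only [Set.mem_ofPred_eq]
    rw [add_comm]
  · intro y a f g hf hg
    have hs' : |-s| < 1 / 2 := by rw [abs_neg]; exact hs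
    have t1 : IsTest (lap (lap f)) := test_lap (test_lap hf)
    have t2 : IsTest (lap g) := test_lap hg
    have key : ∀ (d : Bool) (h : E → ℝ) (c : ℝ), IsTest h →
        c = Real.exp ((9 / 2 - dd d + -s) * a) →
        gr y a (RK d (-s) h) = RK d (-s) (fun x => c * h (Real.exp a • (x - y))) := by
      intro d h c hh hc
      have t3 := test_aff hh 1 a y
      simp only [one_mul] at t3
      rw [gr_RK hFt hPar hs' d hh a y, RK_smul hPar hs' d c (test_sch t3) (test_sch (test_aff hh c a y)),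
        hc]
    have e1 : lap (lap fun x => Real.exp ((1 / 2 - s) * a) * f (Real.exp a • (x - y))) =
        fun x => Real.exp ((9 / 2 - dd false + -s) * a) * lap (lap f) (Real.exp a • (x - y)) := by
      rw [lap_aff _ _ y hf.1, lap_aff _ _ y (test_lap hf).1]
      funext x
      congr 1
      rw [← Real.exp_nat_mul, ← Real.exp_add, ← Real.exp_add]
      congr 1
      simp only [dd, Bool.false_eq_true, if_false]
      push_cast
      ring
    have e2 : lap (fun x => Real.exp ((3 / 2 - s) * a) * g (Real.exp a • (x - y))) =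
        fun x => Real.exp ((9 / 2 - dd true + -s) * a) * lap g (Real.exp a • (x - y)) := by
      rw [lap_aff _ _ y hg.1]
      funext x
      congr 1
      rw [← Real.exp_nat_mul, ← Real.exp_add]
      congr 1
      simp only [dd, if_true]
      push_cast
      ring
    have gsub : ∀ (c : ℝ) (k k' : K), gr y a (c • (k - k')) = c • (gr y a k - gr y a k') := by
      intro c k k'
      unfold gr
      rw [map_smul, map_sub, map_smul, map_sub]
    unfold Theta
    rw [gsub, ← RK_f, ← RK_t, ← RK_f, ← RK_t, key false _ _ t1 rfl, key true _ _ t2 rfl, e1, e2]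

end Pool.Agent.QWP
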