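import Pool.Agent.QWP.StM
import Pool.Agent.QWE.FEd

set_option autoImplicit false

/-!
# QWP, ApW: approximation of functions with weak derivatives by test functions
-/

open MeasureTheory Filter Topology Set
open scoped ENNReal NNReal RealInnerProductSpace ContDiff

namespace Pool.Agent.QWP

open Pool.Agent.QWE (E S sg mu K toK tau sh dl rev gr ig IsTest pd lap Rad dRad Rk dRk c0 WD Sm SmE IsSch half shr WTo)

namespace ApWx

open Pool.Agent.QWE.Moll Pool.Agent.QWE.FEdx

lemma holder_q {a b : ℝ} (ha : 0 < a) (h : 1 / 5 + 1 / a = 1 / b) (hb : 0 < b) :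
    ENNReal.HolderTriple 5 (ENNReal.ofReal a) (ENNReal.ofReal b) := by
  refine ⟨?_⟩
  have h5 : (5 : ℝ≥0∞)⁻¹ = ENNReal.ofReal (1 / 5) := by
    rw [one_div, ENNReal.ofReal_inv_of_pos (by norm_num)]
    norm_num
  rw [h5, ← ENNReal.ofReal_inv_of_pos ha, ← ENNReal.ofReal_inv_of_pos hb,
    ← ENNReal.ofReal_add (by norm_num) (inv_nonneg.2 ha.le), ← one_div a, h, one_div]

lemma h12 {s : ℝ} (hs : |s| < 1 / 2) : ENNReal.HolderTriple 5 (q1 s) (q2 s) := by
  have h := abs_lt.1 hs
  have h1 : 0 < 3 - 2 * s := by linarith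
  have h2 : 0 < 5 - 2 * s := by linarith
  refine holder_q (by positivity) ?_ (by positivity)
  field_simp
  ring

lemma h23 {s : ℝ} (hs : |s| < 1 / 2) : ENNReal.HolderTriple 5 (q2 s) (p2 s) := by
  have h := abs_lt.1 hs
  have h1 : 0 < 7 - 2 * s := by linarith
  have h2 : 0 < 5 - 2 * s := by linarith
  refine holder_q (by positivity) ?_ (by positivity)
  field_simp
  ring

lemma one_le_of {c : ℝ} (h0 : 0 < c) (h1 : c ≤ 10) : 1 ≤ ENNReal.ofReal (10 / c) := by
  rw [← ENNReal.ofReal_one]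
  refine ENNReal.ofReal_le_ofReal ?_
  rw [le_div_iff₀ h0]
  linarith

lemma q1_one {s : ℝ} (hs : |s| < 1 / 2) : 1 ≤ q1 s := by
  have h := abs_lt.1 hs
  exact one_le_of (by linarith) (by linarith)

lemma q2_one {s : ℝ} (hs : |s| < 1 / 2) : 1 ≤ q2 s := by
  have h := abs_lt.1 hs
  exact one_le_of (by linarith) (by linarith)

lemma p2_one {s : ℝ} (hs : |s| < 1 / 2) : 1 ≤ p2 s := by
  have h := abs_lt.1 hs
  exact one_le_of (by linarith) (by linarith)

/-- tails -/
lemma tail {p : ℝ≥0∞} (hp : 1 ≤ p) (hpt : p ≠ ⊤) {w : E → ℝ} (hw : MemLp w p volume) :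
    Z p (fun n x => {x : E | (n : ℝ) < ‖x‖}.indicator (fun _ => (1 : ℝ)) x * w x) := by
  refine Z.dom hp hpt (B := 1) (fun n => ?_) hw (fun n x => ?_) fun x => ?_
  · exact aestronglyMeasurable_const.indicator (measurableSet_lt measurable_const measurable_norm)
  · by_cases h : x ∈ {x : E | (n : ℝ) < ‖x‖}
    · rw [indicator_of_mem h]; simp
    · rw [indicator_of_notMem h]; simp
  · filter_upwards [chi_ev x] with n hn
    rw [indicator_of_notMem]
    simpa using hn

/-- a factor which vanishes in the ball of radius `n`, bounded in `L^p` -/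
lemma far {p q r : ℝ≥0∞} (h : ENNReal.HolderTriple p q r) (hq : 1 ≤ q) (hqt : q ≠ ⊤) (hr : 1 ≤ r)
    {c : ℕ → E → ℝ} {A : ℝ≥0∞} (hA : A ≠ ⊤) (hc : ∀ n, AEStronglyMeasurable (c n) volume)
    (hb : ∀ n, eLpNorm (c n) p volume ≤ A) (h0 : ∀ (n : ℕ) (x : E), ‖x‖ ≤ n → c n x = 0) {w : E → ℝ}
    (hw : MemLp w q volume) : Z r (fun n x => c n x * mw w n x) := by
  have h1 := Z.hol h hA hc hb (mw_sub hq hqt hw)
  have h2 := Z.hol h hA hc hb (tail hq hqt hw)
  refine (h1.add hr h2).congr fun n => ?_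
  funext x
  by_cases hx : x ∈ {x : E | (n : ℝ) < ‖x‖}
  · rw [indicator_of_mem hx]; ring
  · rw [h0 n x (by simpa using hx)]; ring

lemma pd2_chi_zero (n : ℕ) (i j : Fin 5) (x : E) (hx : ‖x‖ ≤ n) : pd j (pd i (chi n)) x = 0 := by
  rw [pd2_chi]
  have h1 : ∀ y ∈ Metric.ball (0 : E) 1, pd i bb y = 0 := fun y hy =>
    pd_loc (fun z hz => bb_one hz) i hy
  rw [pd_loc h1 j (mem_small hx)]
  ring

/-- the balls -/
noncomputable def bl (n : ℕ) (x : E) : ℝ :=
  (Metric.closedBall (0 : E) (2 * ((n : ℝ) + 1))).indicator (fun _ => ((n : ℝ) + 1)⁻¹) x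

lemma bl_meas (n : ℕ) : AEStronglyMeasurable (bl n) volume :=
  aestronglyMeasurable_const.indicator Metric.isClosed_closedBall.measurableSet

lemma bl_bd (n : ℕ) : eLpNorm (bl n) 5 volume ≤
    ENNReal.ofReal (1 * 2) * volume (Metric.ball (0 : E) 1) ^ (1 / 5 : ℝ) := by
  have hn : (0 : ℝ) < (n : ℝ) + 1 := by positivity
  refine sc_bd hn zero_le_one (fun x => ?_) fun x hx => ?_
  · unfold bl
    rw [mul_one]
    by_cases h : x ∈ Metric.closedBall (0 : E) (2 * ((n : ℝ) + 1))
    · rw [indicator_of_mem h, abs_of_pos (inv_pos.2 hn)]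
    · rw [indicator_of_notMem h, abs_zero]
      exact (inv_pos.2 hn).le
  · unfold bl
    rw [indicator_of_notMem hx]

lemma bl_mul (n : ℕ) (i j : Fin 5) (x : E) :
    bl n x * (((n : ℝ) + 1) * pd j (pd i (chi n)) x) = pd j (pd i (chi n)) x := by
  have hn : (0 : ℝ) < (n : ℝ) + 1 := by positivity
  unfold bl
  by_cases h : x ∈ Metric.closedBall (0 : E) (2 * ((n : ℝ) + 1))
  · rw [indicator_of_mem h, ← mul_assoc, inv_mul_cancel₀ hn.ne', one_mul]
  · rw [indicator_of_notMem h, zero_mul, pd2_chi,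
      supp_zero (pd_supp (test_pd bb_test i) (pd_supp bb_test bb_supp i) j) n h]
    ring

lemma mw_smooth {p : ℝ≥0∞} (hp : 1 ≤ p) {w : E → ℝ} (hw : MemLp w p volume) (n : ℕ) :
    ContDiff ℝ ∞ (mw w n) := mc_smooth (ph_test n) (hw.locallyIntegrable hp)

lemma sm_diff {g : E → ℝ} (hg : ContDiff ℝ ∞ g) (x : E) : DifferentiableAt ℝ g x :=
  hg.differentiable (by simp) x

end ApWx

open ApWx Pool.Agent.QWE.Moll Pool.Agent.QWE.FEdx in
theorem thm_ApW : St_ApW := by
  intro s hs
  obtain ⟨B, A, hB, hA, hb1, hb2, hb3, hb4⟩ := chi_bds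
  have hq1 := q1_one hs
  have hq2 := q2_one hs
  have hp2 := p2_one hs
  have tq1 : q1 s ≠ ⊤ := ENNReal.ofReal_ne_top
  have tq2 : q2 s ≠ ⊤ := ENNReal.ofReal_ne_top
  have tp2 : p2 s ≠ ⊤ := ENNReal.ofReal_ne_top
  have hpd : ∀ (F : E → ℝ) (G : Fin 5 → E → ℝ), MemLp F (q1 s) volume →
      (∀ i, MemLp (G i) (q2 s) volume ∧ WD i F (G i)) → ∀ (n : ℕ) (i : Fin 5),
      pd i (fun x => chi n x * mw F n x) =
        fun x => pd i (chi n) x * mw F n x + chi n x * mw (G i) n x := by
    intro F G hF hG n i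
    funext x
    rw [pd_mul (test_diff (chi_test n) x) (sm_diff (mw_smooth hq1 hF n) x),
      pd_mw (hF.locallyIntegrable hq1) (hG i).2 n]
  have hv : volume (Metric.ball (0 : E) 1) ≠ ⊤ := measure_ball_lt_top.ne
  refine ⟨?_, ?_⟩
  · intro F G hF hG
    refine ⟨fun n x => chi n x * mw F n x, fun n => test_mul (chi_test n) (mw_smooth hq1 hF n),
      (cut_sub hq1 tq1 hF).2, fun i => ?_⟩
    have e1 := far (h12 hs) hq1 tq1 hq2 hA (fun n => test_meas (test_pd (chi_test n) i))
      (fun n => hb3 n i) (fun n x hx => pd_chi_zero n i x hx) hF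
    have e2 := e1.add hq2 (cut_sub hq2 tq2 (hG i).1)
    refine (e2.congr fun n => ?_).2
    rw [hpd F G hF hG n i]
    funext x
    ring
  · intro F G H hF hG hH
    refine ⟨fun n x => chi n x * mw F n x, fun n => test_mul (chi_test n) (mw_smooth hq1 hF n),
      (cut_sub hq1 tq1 hF).2, fun i j => ?_⟩
    -- the middle terms
    have e1 := far (h23 hs) hq2 tq2 hp2 hA (fun n => test_meas (test_pd (chi_test n) i))
      (fun n => hb3 n i) (fun n x hx => pd_chi_zero n i x hx) (hG j).1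
    have e2 := far (h23 hs) hq2 tq2 hp2 hA (fun n => test_meas (test_pd (chi_test n) j))
      (fun n => hb3 n j) (fun n x hx => pd_chi_zero n j x hx) (hG i).1
    -- the first term
    have e3 := far (h12 hs) hq1 tq1 hq2 hA
      (c := fun n x => ((n : ℝ) + 1) * pd j (pd i (chi n)) x)
      (fun n => (test_meas (test_pd (test_pd (chi_test n) i) j)).const_mul _)
      (fun n => by
        have hn : (0 : ℝ) < (n : ℝ) + 1 := by positivity
        calc eLpNorm (fun x => ((n : ℝ) + 1) * pd j (pd i (chi n)) x) 5 volume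
            ≤ ENNReal.ofReal ((n : ℝ) + 1) * eLpNorm (pd j (pd i (chi n))) 5 volume := by
              refine eLpNorm_le_mul_eLpNorm_of_ae_le_mul (Eventually.of_forall fun x => ?_) 5
              rw [norm_mul, Real.norm_of_nonneg hn.le]
          _ ≤ ENNReal.ofReal ((n : ℝ) + 1) * (ENNReal.ofReal (1 / ((n : ℝ) + 1)) * A) := by
              gcongr
              exact hb4 n i j
          _ = A := by
              rw [← mul_assoc, ← ENNReal.ofReal_mul hn.le, mul_one_div_cancel hn.ne',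
                ENNReal.ofReal_one, one_mul])
      (fun n x hx => by rw [pd2_chi_zero n i j x hx, mul_zero]) hF
    have e4 := Z.hol (h23 hs) (ENNReal.mul_ne_top ENNReal.ofReal_ne_top
      (ENNReal.rpow_ne_top_of_nonneg (by norm_num) hv)) bl_meas bl_bd e3
    have e5 := ((e4.add hp2 e1).add hp2 e2).add hp2 (cut_sub hp2 tp2 (hH i j).1)
    refine (e5.congr fun n => ?_).2
    rw [hpd F G hF hG n i]
    funext x
    have hc1 : DifferentiableAt ℝ (pd i (chi n)) x := test_diff (test_pd (chi_test n) i) x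
    have hc2 : DifferentiableAt ℝ (chi n) x := test_diff (chi_test n) x
    have hm1 := sm_diff (mw_smooth hq1 hF n) x
    have hm2 := sm_diff (mw_smooth hq2 (hG i).1 n) x
    have h7 := pd_add (a := fun x => pd i (chi n) x * mw F n x)
      (b := fun x => chi n x * mw (G i) n x) (hc1.mul hm1) (hc2.mul hm2) j
    rw [h7, pd_mul hc1 hm1, pd_mul hc2 hm2,
      pd_mw (hF.locallyIntegrable hq1) (hG j).2 n, pd_mw ((hG i).1.locallyIntegrable hq2) (hH i j).2 n]
    have h6 := bl_mul n i j x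
    linear_combination (mw F n x) * h6

end Pool.Agent.QWP
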