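import Pool.Agent.QWP.StG

set_option autoImplicit false

/-!
# QWP / ApxP: approximation along a solution by finitely many test states
-/

open MeasureTheory Filter Topology Set
open scoped ENNReal NNReal RealInnerProductSpace

namespace Pool.Agent.QWP

open Pool.Agent.QWE (E S sg mu K toK tau sh dl rev gr ig IsTest pd lap Rad dRad Rk dRk c0 WD Sm SmE IsSch half shr WTo resc)

namespace ApxPx

lemma tail {F : ℝ → ℝ≥0∞} (h : ∫⁻ t in Ici (0 : ℝ), F t < ⊤) {ε : ℝ≥0∞} (hε : 0 < ε) :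
    ∀ᶠ m : ℝ in atTop, ∫⁻ t in Ici 0 ∩ Ioi m, F t ≤ ε := by
  have hν : ∀ m : ℝ, ((volume.restrict (Ici (0 : ℝ))).withDensity F) (Ioi m) = ∫⁻ t in Ici 0 ∩ Ioi m, F t := by
    intro m
    rw [withDensity_apply _ measurableSet_Ioi, Measure.restrict_restrict measurableSet_Ioi, inter_comm]
  have h1 := tendsto_measure_iInter_atTop (μ := (volume.restrict (Ici (0 : ℝ))).withDensity F)
    (s := fun m : ℝ => Ioi m) (fun m => measurableSet_Ioi.nullMeasurableSet)
    (fun x y hxy => Ioi_subset_Ioi hxy) ⟨0, by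
      rw [hν]
      exact ((lintegral_mono_set inter_subset_left).trans_lt h).ne⟩
  have h2 : (⋂ m : ℝ, Ioi m) = ∅ := by
    ext x
    simp only [mem_iInter, mem_Ioi, mem_empty_iff_false, iff_false, not_forall, not_lt]
    exact ⟨x, le_rfl⟩
  rw [h2, measure_empty] at h1
  filter_upwards [h1.eventually_lt_const hε] with m hm
  rw [← hν m]
  exact hm.le

lemma unif {P : ℕ → K →L[ℝ] K} (h1 : ∀ k, Tendsto (fun n => P n k) atTop (𝓝 k))
    (h2 : ∀ n k, ‖P n k‖ ≤ ‖k‖) {m : ℝ} {a : ℝ → K} (ha : ContinuousOn a (Icc 0 m)) {δ : ℝ}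
    (hδ : 0 < δ) : ∀ᶠ n in atTop, ∀ t ∈ Icc 0 m, ‖a t - P n (a t)‖ ≤ δ := by
  obtain ⟨T, -, hT, hcov⟩ := (isCompact_Icc.image_of_continuousOn ha).finite_cover_balls
    (show 0 < δ / 3 by positivity)
  have h3 : ∀ᶠ n in atTop, ∀ k ∈ T, ‖P n k - k‖ < δ / 3 := by
    rw [eventually_all_finite hT]
    intro k _
    have := tendsto_iff_norm_sub_tendsto_zero.1 (h1 k)
    exact this.eventually_lt_const (by positivity)
  filter_upwards [h3] with n hn t ht
  have h4 := hcov (mem_image_of_mem a ht)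
  simp only [mem_iUnion, Metric.mem_ball, exists_prop] at h4
  obtain ⟨k, hk, hd⟩ := h4
  rw [dist_eq_norm] at hd
  have e : a t - P n (a t) = (a t - k) - (P n k - k) - P n (a t - k) := by
    rw [map_sub]
    abel
  rw [e]
  have h5 := norm_sub_le ((a t - k) - (P n k - k)) (P n (a t - k))
  have h6 := norm_sub_le (a t - k) (P n k - k)
  have h7 := h2 n (a t - k)
  have h8 := hn k hk
  linarith

lemma dct {b : ℝ} (hb : 2 < b) (hS : St_SnP) (hM : St_Meas) {P : ℕ → K →L[ℝ] K}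
    (h3 : ∀ n k, sn b (P n k) ≤ sn b k)
    (h5 : ∀ k, sn b k < ⊤ → Tendsto (fun n => sn b (k - P n k)) atTop (𝓝 0)) {m : ℝ} {a : ℝ → K}
    (ha : ContinuousOn a (Icc 0 m)) (hSN : SN b (Icc 0 m) a < ⊤) :
    Tendsto (fun n => ∫⁻ t in Icc 0 m, sn b (a t - P n (a t)) ^ b) atTop (𝓝 0) := by
  obtain ⟨s1, s2, -⟩ := hS b hb
  have hb0 : 0 < b := by linarith
  have hneg : ∀ k : K, sn b (-k) = sn b k := by
    intro k
    have := s2 (-1) k
    rw [neg_one_smul] at this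
    rw [this, enorm_neg, enorm_one, one_mul]
  have hms : AEStronglyMeasurable a (volume.restrict (Icc 0 m)) := ha.aestronglyMeasurable measurableSet_Icc
  have hm1 : AEMeasurable (fun t => sn b (a t)) (volume.restrict (Icc 0 m)) :=
    (hM b hb a (Icc 0 m) measurableSet_Icc hms).1
  have h0 : Tendsto (fun n => ∫⁻ t in Icc 0 m, sn b (a t - P n (a t)) ^ b) atTop
      (𝓝 (∫⁻ _t in Icc 0 m, 0)) := by
    refine tendsto_lintegral_of_dominated_convergence' (fun t => (2 * sn b (a t)) ^ b) (fun n => ?_)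
      (fun n => ?_) ?_ ?_
    · have hc : ContinuousOn (fun t => a t - P n (a t)) (Icc 0 m) :=
        ha.sub ((P n).continuous.comp_continuousOn ha)
      exact ((hM b hb _ (Icc 0 m) measurableSet_Icc (hc.aestronglyMeasurable measurableSet_Icc)).1).pow_const _
    · refine Eventually.of_forall fun t => ?_
      simp only
      gcongr
      rw [sub_eq_add_neg, two_mul]
      refine (s1 _ _).trans ?_
      rw [hneg]
      gcongr
      exact h3 n _
    · simp only [ENNReal.mul_rpow_of_nonneg _ _ hb0.le]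
      rw [lintegral_const_mul' _ _ (ENNReal.rpow_ne_top_of_nonneg hb0.le ENNReal.ofNat_ne_top)]
      exact (ENNReal.mul_lt_top (ENNReal.rpow_lt_top_of_nonneg hb0.le ENNReal.ofNat_ne_top) hSN).ne
    · have h6 : ∀ᵐ t ∂(volume.restrict (Icc 0 m)), sn b (a t) ^ b < ⊤ :=
        ae_lt_top' (hm1.pow_const _) hSN.ne
      filter_upwards [h6] with t ht
      have h7 : sn b (a t) < ⊤ := by
        rw [lt_top_iff_ne_top]
        intro h8
        rw [h8, ENNReal.top_rpow_of_pos hb0] at ht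
        exact lt_irrefl _ ht
      have h8 := (h5 _ h7).ennrpow_const b
      rwa [ENNReal.zero_rpow_of_pos hb0] at h8
  rwa [lintegral_zero] at h0

lemma core {b : ℝ} (hb : 2 < b) (hK : St_MolK) (hX : St_DenX) (hS : St_SnP) (hM : St_Meas) {m : ℝ}
    {a : ℝ → K} (ha : ContinuousOn a (Icc 0 m)) (hSN : SN b (Icc 0 m) a < ⊤) {δ : ℝ}
    (hδ : 0 < δ) : ∃ (N : ℕ) (j : ℝ → ℕ) (f g : ℕ → E → ℝ), Measurable j ∧ (∀ t, j t ≤ N) ∧
      (∀ t, m < t → j t = 0) ∧ (∀ i, IsTest (f i) ∧ IsTest (g i)) ∧ (∀ x, f 0 x = 0 ∧ g 0 x = 0) ∧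
      (∀ t ∈ Icc 0 m, ‖a t - Theta (sig b) (f (j t)) (g (j t))‖ ≤ δ) ∧
      ∫⁻ t in Icc 0 m, sn b (a t - Theta (sig b) (f (j t)) (g (j t))) ^ b ≤ ENNReal.ofReal δ := by
  have hb0 : 0 < b := by linarith
  obtain ⟨P, p1, p2, p3, p4, p5⟩ := hK b hb
  obtain ⟨s1, s2, -⟩ := hS b hb
  have c2 : 0 < (2 : ℝ) ^ (b - 1) := by positivity
  -- choice of `n`
  have e1 := unif p1 p2 ha (show 0 < δ / 3 by positivity)
  have hθ : 0 < δ / 2 / 2 ^ (b - 1) := by positivity
  have e2 := (dct hb hS hM p3 p5 ha hSN).eventually_lt_const (ENNReal.ofReal_pos.2 hθ)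
  obtain ⟨n, hn1, hn2⟩ := (e1.and e2).exists
  obtain ⟨C, hC, hCn⟩ := p4 n
  -- small constant
  obtain ⟨κ, hκ, hκ1⟩ : ∃ κ : ℝ, 0 < κ ∧ 2 ^ (b - 1) * (m * κ ^ b) ≤ δ / 2 := by
    have h1 : Tendsto (fun κ : ℝ => 2 ^ (b - 1) * (m * κ ^ b)) (𝓝[>] 0) (𝓝 0) := by
      have h2 : Continuous fun κ : ℝ => 2 ^ (b - 1) * (m * κ ^ b) :=
        continuous_const.mul (continuous_const.mul (Real.continuous_rpow_const hb0.le))
      have h3 := (h2.tendsto 0).mono_left (nhdsWithin_le_nhds (s := Ioi (0 : ℝ)))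
      simpa [Real.zero_rpow hb0.ne'] using h3
    obtain ⟨κ, h4, h5⟩ := ((h1.eventually_le_const (show (0 : ℝ) < δ / 2 by positivity)).and
      self_mem_nhdsWithin).exists
    exact ⟨κ, h5, h4⟩
  set δ1 : ℝ := min (δ / 3) (κ / (2 * C)) with hδ1
  have hδ1' : 0 < δ1 := by rw [hδ1]; positivity
  set δ2 : ℝ := min (δ / 3) (κ / 2) with hδ2
  have hδ2' : 0 < δ2 := by rw [hδ2]; positivity
  -- uniform continuity
  obtain ⟨h, hh, hh1⟩ : ∃ h : ℝ, 0 < h ∧ ∀ x ∈ Icc 0 m, ∀ y ∈ Icc 0 m, dist x y < 2 * h → dist (a x) (a y) < δ1 := by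
    have := isCompact_Icc.uniformContinuousOn_of_continuous ha
    rw [Metric.uniformContinuousOn_iff] at this
    obtain ⟨h, hh, hh1⟩ := this δ1 hδ1'
    exact ⟨h / 2, by positivity, fun x hx y hy hxy => hh1 x hx y hy (by linarith)⟩
  have hfin : ∀ k : K, sn b (P n k) < ⊤ := fun k =>
    (hCn k).trans_lt (ENNReal.mul_lt_top ENNReal.ofReal_lt_top enorm_lt_top)
  choose f g hf hg hfg1 hfg2 using fun i : ℕ => hX b (P n (a ((i : ℝ) * h))) δ2 hb (hfin _) hδ2'
  have hz : IsTest (fun _ : E => (0 : ℝ)) := ⟨contDiff_const, HasCompactSupport.zero⟩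
  classical
  refine ⟨⌊m / h⌋₊ + 1, fun t => if t ∈ Icc 0 m then ⌊t / h⌋₊ + 1 else 0,
    fun i => Nat.casesOn i (fun _ => 0) f, fun i => Nat.casesOn i (fun _ => 0) g, ?_, ?_, ?_, ?_,
    fun x => ⟨rfl, rfl⟩, ?_⟩
  · refine Measurable.ite measurableSet_Icc ?_ measurable_const
    exact (Nat.measurable_floor.comp (measurable_id.div_const h)).add_const 1
  · intro t
    simp only
    split_ifs with ht
    · exact Nat.add_le_add_right (Nat.floor_mono (div_le_div_of_nonneg_right ht.2 hh.le)) 1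
    · exact Nat.zero_le _
  · intro t ht
    exact if_neg fun h' => (not_lt.2 h'.2) ht
  · intro i
    cases i with
    | zero => exact ⟨hz, hz⟩
    | succ i => exact ⟨hf i, hg i⟩
  -- the point of the partition
  have hpt : ∀ t ∈ Icc 0 m, dist (a t) (a ((⌊t / h⌋₊ : ℝ) * h)) < δ1 := by
    intro t ht
    have h1 : ((⌊t / h⌋₊ : ℝ)) * h ≤ t := by
      rw [← le_div_iff₀ hh]
      exact Nat.floor_le (div_nonneg ht.1 hh.le)
    have h2 : t < ((⌊t / h⌋₊ : ℝ) + 1) * h := by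
      rw [← div_lt_iff₀ hh]
      exact Nat.lt_floor_add_one _
    refine hh1 t ht _ ⟨by positivity, h1.trans ht.2⟩ ?_
    rw [Real.dist_eq, abs_of_nonneg (by linarith)]
    nlinarith
  have hj : ∀ t ∈ Icc 0 m, (if t ∈ Icc 0 m then ⌊t / h⌋₊ + 1 else 0) = ⌊t / h⌋₊ + 1 := fun t ht => if_pos ht
  refine ⟨fun t ht => ?_, ?_⟩
  · simp only [hj t ht]
    have h1 := hn1 t ht
    have h2 : ‖P n (a t) - P n (a ((⌊t / h⌋₊ : ℝ) * h))‖ ≤ δ1 := by
      rw [← map_sub]
      refine (p2 n _).trans ?_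
      rw [← dist_eq_norm]
      exact (hpt t ht).le
    have h3 := hfg1 ⌊t / h⌋₊
    have h4 : δ1 ≤ δ / 3 := min_le_left _ _
    have h5 : δ2 ≤ δ / 3 := min_le_left _ _
    have e : a t - Theta (sig b) (f ⌊t / h⌋₊) (g ⌊t / h⌋₊) = (a t - P n (a t)) +
        (P n (a t) - P n (a ((⌊t / h⌋₊ : ℝ) * h))) +
        (P n (a ((⌊t / h⌋₊ : ℝ) * h)) - Theta (sig b) (f ⌊t / h⌋₊) (g ⌊t / h⌋₊)) := by abel
    rw [e]
    refine (norm_add₃_le).trans ?_
    linarith
  · have hle : ∀ t ∈ Icc 0 m, sn b (a t - Theta (sig b)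
        (Nat.casesOn (if t ∈ Icc 0 m then ⌊t / h⌋₊ + 1 else 0) (fun _ => 0) f)
        (Nat.casesOn (if t ∈ Icc 0 m then ⌊t / h⌋₊ + 1 else 0) (fun _ => 0) g)) ^ b ≤
        2 ^ (b - 1) * (sn b (a t - P n (a t)) ^ b + ENNReal.ofReal κ ^ b) := by
      intro t ht
      simp only [hj t ht]
      have h2 : sn b (P n (a t) - P n (a ((⌊t / h⌋₊ : ℝ) * h))) ≤ ENNReal.ofReal (κ / 2) := by
        rw [← map_sub]
        refine (hCn _).trans ?_
        rw [← ofReal_norm, ← ENNReal.ofReal_mul hC.le]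
        refine ENNReal.ofReal_le_ofReal ?_
        rw [← dist_eq_norm]
        have h4 : dist (a t) (a ((⌊t / h⌋₊ : ℝ) * h)) ≤ κ / (2 * C) := (hpt t ht).le.trans (min_le_right _ _)
        rw [le_div_iff₀ (by positivity)] at h4
        linarith
      have h3 : sn b (P n (a ((⌊t / h⌋₊ : ℝ) * h)) - Theta (sig b) (f ⌊t / h⌋₊) (g ⌊t / h⌋₊)) ≤
          ENNReal.ofReal (κ / 2) := (hfg2 ⌊t / h⌋₊).le.trans (ENNReal.ofReal_le_ofReal (min_le_right _ _))
      have e : a t - Theta (sig b) (f ⌊t / h⌋₊) (g ⌊t / h⌋₊) = (a t - P n (a t)) +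
          ((P n (a t) - P n (a ((⌊t / h⌋₊ : ℝ) * h))) +
          (P n (a ((⌊t / h⌋₊ : ℝ) * h)) - Theta (sig b) (f ⌊t / h⌋₊) (g ⌊t / h⌋₊))) := by abel
      have h5 : sn b (a t - Theta (sig b) (f ⌊t / h⌋₊) (g ⌊t / h⌋₊)) ≤
          sn b (a t - P n (a t)) + ENNReal.ofReal κ := by
        rw [e]
        refine (s1 _ _).trans ?_
        gcongr
        refine (s1 _ _).trans ((add_le_add h2 h3).trans (le_of_eq ?_))
        rw [← ENNReal.ofReal_add (by positivity) (by positivity), add_halves]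
      exact (ENNReal.rpow_le_rpow h5 hb0.le).trans
        (ENNReal.rpow_add_le_mul_rpow_add_rpow _ _ (by linarith))
    refine (setLIntegral_mono' measurableSet_Icc hle).trans ?_
    rw [lintegral_const_mul' _ _ (ENNReal.rpow_ne_top_of_nonneg (by linarith) ENNReal.ofNat_ne_top),
      lintegral_add_right _ measurable_const, setLIntegral_const, Real.volume_Icc, sub_zero, mul_add]
    have e2 : (2 : ℝ≥0∞) ^ (b - 1) = ENNReal.ofReal (2 ^ (b - 1)) := by
      rw [← ENNReal.ofReal_rpow_of_pos (by norm_num), ENNReal.ofReal_ofNat]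
    have h6 : (2 : ℝ≥0∞) ^ (b - 1) * ∫⁻ t in Icc 0 m, sn b (a t - P n (a t)) ^ b ≤ ENNReal.ofReal (δ / 2) := by
      rw [e2]
      refine (mul_le_mul_right hn2.le _).trans (le_of_eq ?_)
      rw [← ENNReal.ofReal_mul c2.le, mul_div_cancel₀ _ c2.ne']
    have h7 : (2 : ℝ≥0∞) ^ (b - 1) * (ENNReal.ofReal κ ^ b * ENNReal.ofReal m) ≤ ENNReal.ofReal (δ / 2) := by
      rw [e2, ENNReal.ofReal_rpow_of_pos hκ, ← ENNReal.ofReal_mul (by positivity),
        ← ENNReal.ofReal_mul (by positivity)]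
      refine ENNReal.ofReal_le_ofReal ?_
      rw [mul_comm (κ ^ b)]
      exact hκ1
    refine (add_le_add h6 h7).trans (le_of_eq ?_)
    rw [← ENNReal.ofReal_add (by positivity) (by positivity), add_halves]

/-- the scattering state on a half line -/
lemma scat {b : ℝ} (hb : 2 < b) (hMax : St_MaxE) (hBl : St_Blow) {a : ℝ → K} (ha : IsSol b (Ici 0) a)
    (hSN : SN b (Ici 0) a < ⊤) : ∃ kp, Tendsto (fun t => tau (-t) (a t)) atTop (𝓝 kp) := by
  obtain ⟨I, k, hI, h0, hk, huni⟩ := hMax b hb (a 0) 0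
  obtain ⟨hsub, heq⟩ := huni (Ici 0) a ha self_mem_Ici rfl
  have h1 : I ∩ Ici 0 = Ici 0 := inter_eq_right.2 hsub
  have h2 : SN b (Ici 0) k = SN b (Ici 0) a := by
    unfold SN
    refine setLIntegral_congr_fun measurableSet_Ici fun t ht => ?_
    rw [heq t ht]
  obtain ⟨-, -, kp, hkp⟩ := (hBl b hb I k 0 hI h0).1 (by rw [h1, h2]; exact hSN)
  refine ⟨kp, hkp.congr' ?_⟩
  filter_upwards [eventually_ge_atTop 0] with t ht
  rw [heq t ht]

/-- end time -/
lemma end_time {b : ℝ} (hb : 2 < b) (hMax : St_MaxE) (hBl : St_Blow) (hG : St_G10) {J : Set ℝ} {a : ℝ → K}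
    (ha : ASol b J a) {ε : ℝ} (hε : 0 < ε) : ∃ m : ℝ, 0 ≤ m ∧ J ∩ Iic m = Icc 0 m ∧ MeasurableSet J ∧
      (∀ t ∈ J, m < t → tn b (a t) ≤ ENNReal.ofReal ε) ∧
      ∫⁻ t in J ∩ Ioi m, sn b (a t) ^ b ≤ ENNReal.ofReal ε := by
  obtain ⟨hJ, hsol, hSN⟩ := ha
  rcases hJ with rfl | ⟨Ts, hTs, rfl⟩
  · obtain ⟨kp, hkp⟩ := scat hb hMax hBl hsol hSN
    have h1 := ((hG b hb).2 a kp hkp).eventually_le_const (ENNReal.ofReal_pos.2 hε)
    have h2 := tail hSN (ENNReal.ofReal_pos.2 hε)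
    obtain ⟨m1, hm1⟩ := eventually_atTop.1 h1
    obtain ⟨m, hm2, hm3⟩ := (h2.and (eventually_ge_atTop (max m1 0))).exists
    refine ⟨m, (le_max_right _ _).trans hm3, ?_, measurableSet_Ici,
      fun t _ ht => hm1 t (((le_max_left _ _).trans hm3).trans ht.le), hm2⟩
    exact Ici_inter_Iic
  · refine ⟨Ts, hTs, ?_, measurableSet_Icc, fun t ht h' => absurd h' (not_lt.2 ht.2), ?_⟩
    · exact inter_eq_left.2 fun t ht => ht.2
    · have h1 : Icc 0 Ts ∩ Ioi Ts = ∅ := by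
        ext t
        simp only [mem_inter_iff, mem_Icc, mem_Ioi, mem_empty_iff_false, iff_false, not_and, not_lt]
        exact fun h => h.2
      rw [h1]
      simp

lemma Theta_zero (hI : St_IsoP) {s : ℝ} (hs' : |s| < 1 / 2) {f g : E → ℝ} (hf : ∀ x, f x = 0)
    (hg : ∀ x, g x = 0) : Theta s f g = 0 := by
  have ef : f = fun _ => 0 := funext hf
  have eg : g = fun _ => 0 := funext hg
  subst ef eg
  have h1 : IsSch (fun _ : E => (0 : ℝ)) := ⟨0, fun x => rfl⟩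
  have h2 := (hI s (fun _ => 0) (fun _ => 0) hs' h1 h1).2.2.2.2.2.2.1
  have h3 : ∀ a : ℝ, hs a (fun _ : E => (0 : ℝ)) = 0 := by
    intro a
    unfold hs ft
    simp
  rw [h3, h3, add_zero, mul_zero] at h2
  exact norm_eq_zero.1 (by simpa using h2)

end ApxPx

open ApxPx in
theorem thm_ApxP (hI : St_IsoP) (hS : St_SnP) (hX : St_DenX) (hNL : St_NLd) (hM : St_Meas) (hMax : St_MaxE)
    (hBl : St_Blow) (hG : St_G10) (hK : St_MolK) : St_ApxP := by
  intro b hb J a ha ε hε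
  have hs' : |sig b| < 1 / 2 := by
    unfold sig
    have h1 : 0 < 2 / b := by positivity
    have h2 : 2 / b < 1 := by rw [div_lt_one (by linarith)]; exact hb
    rw [abs_lt]
    constructor <;> linarith
  obtain ⟨C, hC, htn, -⟩ := hNL b hb
  obtain ⟨m, hm, hJm, hJ, hend1, hend2⟩ := end_time hb hMax hBl hG ha (show 0 < ε / 2 by positivity)
  obtain ⟨-, hsol, hSN⟩ := ha
  have hsub : Icc 0 m ⊆ J := by rw [← hJm]; exact inter_subset_left
  have hδ : 0 < min (ε / 2) (ε / C) := by positivity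
  obtain ⟨N, j, f, g, hj, hjN, hj0, hfg, hfg0, hn, hsn⟩ := core hb hK hX hS hM (hsol.2.1.mono hsub)
    ((lintegral_mono_set hsub).trans_lt hSN) hδ
  have h0 : ∀ t, m < t → Theta (sig b) (f (j t)) (g (j t)) = 0 := by
    intro t ht
    rw [hj0 t ht]
    exact Theta_zero hI hs' (fun x => (hfg0 x).1) fun x => (hfg0 x).2
  have hin : ∀ t ∈ J, t ≤ m → t ∈ Icc 0 m := fun t ht h => by
    rw [← hJm]
    exact ⟨ht, h⟩
  refine ⟨m, N, j, f, g, hm, hj, hjN, hj0, hfg, hfg0, fun t ht => ?_, fun t ht => ?_, ?_⟩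
  · rcases le_or_gt t m with h | h
    · have h1 := hn t (hin t ht h)
      have h2 := norm_sub_norm_le (Theta (sig b) (f (j t)) (g (j t))) (a t)
      rw [norm_sub_rev] at h2
      have h3 := min_le_left (ε / 2) (ε / C)
      linarith
    · rw [h0 t h, norm_zero]
      positivity
  · rcases le_or_gt t m with h | h
    · have h1 := hn t (hin t ht h)
      refine (htn _).trans ?_
      rw [← ofReal_norm, ← ENNReal.ofReal_mul hC.le]
      refine ENNReal.ofReal_le_ofReal ?_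
      have h3 := h1.trans (min_le_right (ε / 2) (ε / C))
      rw [le_div_iff₀ hC] at h3
      linarith
    · rw [h0 t h, sub_zero]
      exact (hend1 t ht h).trans (ENNReal.ofReal_le_ofReal (by linarith))
  · have hsplit : J = Icc 0 m ∪ J ∩ Ioi m := by
      rw [← hJm, ← inter_union_distrib_left, Iic_union_Ioi, inter_univ]
    rw [hsplit]
    refine (lintegral_union_le _ _ _).trans ?_
    have h2 : ∫⁻ t in J ∩ Ioi m, sn b (a t - Theta (sig b) (f (j t)) (g (j t))) ^ b ≤ ENNReal.ofReal (ε / 2) := by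
      refine le_trans (le_of_eq ?_) hend2
      refine setLIntegral_congr_fun (hJ.inter measurableSet_Ioi) fun t ht => ?_
      rw [h0 t ht.2, sub_zero]
    refine (add_le_add (hsn.trans (ENNReal.ofReal_le_ofReal (min_le_left _ _))) h2).trans (le_of_eq ?_)
    rw [← ENNReal.ofReal_add (by positivity) (by positivity), add_halves]

end Pool.Agent.QWP
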