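import Pool.Agent.QWP.FldP
import Pool.Agent.QWE.GamE

set_option autoImplicit false

/-!
# QWP, GamP: source elements, all `s` (helper4)
-/

open MeasureTheory Filter Topology Set
open scoped ENNReal NNReal RealInnerProductSpace

namespace Pool.Agent.QWP

open Pool.Agent.QWE (E S sg mu K toK tau sh dl rev gr ig IsTest pd lap Rad dRad Rk dRk c0 WD Sm SmE IsSch half shr WTo)

namespace GamPx

open Pool.Agent.QWE.Linx (test_sch)
open Pool.Agent.QWE.Fldx (int_mul' c0_pos)

lemma zero_of_theta (hD : St_DnsP) {s : ℝ} (hs' : |s| < 1 / 2) (d : K)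
    (h : ∀ f g, IsTest f → IsTest g → inner ℝ (Theta s f g) d = (0 : ℝ)) : d = 0 := by
  by_contra h0
  have hp : 0 < ‖d‖ := norm_pos_iff.2 h0
  obtain ⟨f, g, hf, hg, h1⟩ := (hD s hs').2.1 d (‖d‖ / 2) (by positivity)
  have h2 : inner ℝ (d - Theta s f g) d = ‖d‖ ^ 2 := by
    rw [inner_sub_left, h f g hf hg, sub_zero, real_inner_self_eq_norm_sq]
  have h3 := real_inner_le_norm (d - Theta s f g) d
  rw [h2] at h3
  nlinarith

/-- Riesz: a functional bounded by a seminorm `‖R φ‖`. -/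
lemma riesz {T : Type*} [AddCommGroup T] [Module ℝ T] (R : T →ₗ[ℝ] K) (l : T →ₗ[ℝ] ℝ) {M : ℝ}
    (hM : 0 ≤ M) (h : ∀ φ, |l φ| ≤ M * ‖R φ‖) :
    ∃ w : K, w ∈ (LinearMap.range R).topologicalClosure ∧ ‖w‖ ≤ M ∧
      ∀ φ, inner ℝ w (R φ) = l φ := by
  have hk : LinearMap.ker R ≤ LinearMap.ker l := by
    intro φ hφ
    rw [LinearMap.mem_ker] at hφ ⊢
    have := h φ
    rw [hφ, norm_zero, mul_zero] at this
    exact abs_nonpos_iff.1 this
  let f : LinearMap.range R →ₗ[ℝ] ℝ :=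
    ((LinearMap.ker R).liftQ l hk) ∘ₗ (R.quotKerEquivRange.symm : LinearMap.range R →ₗ[ℝ] _)
  have hf : ∀ φ : T, f ⟨R φ, LinearMap.mem_range_self R φ⟩ = l φ := by
    intro φ
    have e : R.quotKerEquivRange.symm ⟨R φ, LinearMap.mem_range_self R φ⟩ =
        (LinearMap.ker R).mkQ φ := by
      rw [LinearEquiv.symm_apply_eq]
      rfl
    simp only [f, LinearMap.comp_apply, LinearEquiv.coe_coe, e]
    exact Submodule.liftQ_apply _ _ _
  have hb : ∀ v : LinearMap.range R, ‖f v‖ ≤ M * ‖v‖ := by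
    rintro ⟨v, φ, rfl⟩
    rw [hf φ]
    exact h φ
  obtain ⟨g, hg1, hg2⟩ := exists_extension_norm_eq (𝕜 := ℝ) (LinearMap.range R) (f.mkContinuous M hb)
  have hgM : ‖g‖ ≤ M := by
    rw [hg2]
    exact f.mkContinuous_norm_le hM hb
  let V := (LinearMap.range R).topologicalClosure
  have : CompleteSpace V := (Submodule.isClosed_topologicalClosure _).completeSpace_coe
  let w0 : K := (InnerProductSpace.toDual ℝ K).symm g
  refine ⟨V.starProjection w0, Submodule.starProjection_apply_mem V w0, ?_, fun φ => ?_⟩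
  · refine (V.norm_starProjection_apply_le w0).trans ?_
    rw [LinearIsometryEquiv.norm_map]
    exact hgM
  · have hm : R φ ∈ V := Submodule.le_topologicalClosure _ (LinearMap.mem_range_self R φ)
    rw [Submodule.inner_starProjection_left_eq_right, Submodule.starProjection_eq_self_iff.2 hm]
    simp only [w0]
    rw [InnerProductSpace.toDual_symm_apply]
    have h1 := hg1 ⟨R φ, LinearMap.mem_range_self R φ⟩
    simp only at h1
    rw [h1]
    exact hf φ

/-- Test functions. -/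
def TT : Submodule ℝ (E → ℝ) where
  carrier := {φ | IsTest φ}
  add_mem' := fun ha hb => ⟨ha.1.add hb.1, ha.2.add hb.2⟩
  zero_mem' := ⟨contDiff_const, HasCompactSupport.zero⟩
  smul_mem' := fun c a ha => ⟨contDiff_const.smul ha.1, ha.2.mono (Function.support_const_smul_subset c a)⟩

/-- `φ ↦ dRs s φ` is linear on test functions. -/
lemma dRs_add (hI : St_IsoP) (hD : St_DnsP) {s : ℝ} (hs' : |s| < 1 / 2) {φ ψ : E → ℝ}
    (hφ : IsTest φ) (hψ : IsTest ψ) : dRs s (φ + ψ) = dRs s φ + dRs s ψ := by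
  rw [← sub_eq_zero]
  apply zero_of_theta hD hs'
  intro f g hf hg
  have hsum : IsTest (φ + ψ) := ⟨hφ.1.add hψ.1, hφ.2.add hψ.2⟩
  rw [inner_sub_right, inner_add_right, FldPx.thD hI hs' hf hg (test_sch hsum),
    FldPx.thD hI hs' hf hg (test_sch hφ), FldPx.thD hI hs' hf hg (test_sch hψ),
    ← integral_add (int_mul' hg hφ) (int_mul' hg hψ), sub_eq_zero]
  congr 1
  ext x
  simp only [Pi.add_apply]
  ring

lemma dRs_smul (hI : St_IsoP) (hD : St_DnsP) {s : ℝ} (hs' : |s| < 1 / 2) {φ : E → ℝ} (c : ℝ)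
    (hφ : IsTest φ) : dRs s (c • φ) = c • dRs s φ := by
  rw [← sub_eq_zero]
  apply zero_of_theta hD hs'
  intro f g hf hg
  have hsum : IsTest (c • φ) := TT.smul_mem c hφ
  rw [inner_sub_right, inner_smul_right, FldPx.thD hI hs' hf hg (test_sch hsum),
    FldPx.thD hI hs' hf hg (test_sch hφ), ← integral_const_mul, sub_eq_zero]
  congr 1
  ext x
  simp only [Pi.smul_apply, smul_eq_mul]
  ring

/-- The linear map `φ ↦ dRs s φ`. -/
noncomputable def dR (hI : St_IsoP) (hD : St_DnsP) {s : ℝ} (hs' : |s| < 1 / 2) : TT →ₗ[ℝ] K where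
  toFun φ := dRs s φ.1
  map_add' φ ψ := dRs_add hI hD hs' φ.2 ψ.2
  map_smul' c φ := dRs_smul hI hD hs' c φ.2

end GamPx

open GamPx Pool.Agent.QWE.Linx Pool.Agent.QWE.Fldx in
theorem thm_GamP (hI : St_IsoP) (hD : St_DnsP) (hF : St_FldP) : St_GamP := by
  intro s F B hs' hB hFl hb
  have hint : ∀ φ : E → ℝ, IsTest φ → Integrable (fun x => F x * φ x) volume := fun φ hφ =>
    Pool.Agent.QWE.GamEx.int_mul hFl hφ
  -- existence
  let l : TT →ₗ[ℝ] ℝ :=
    { toFun := fun φ => ∫ x, F x * φ.1 x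
      map_add' := fun φ ψ => by
        rw [← integral_add (hint _ φ.2) (hint _ ψ.2)]
        congr 1
        ext x
        simp only [Submodule.coe_add, Pi.add_apply]
        ring
      map_smul' := fun c φ => by
        rw [RingHom.id_apply, smul_eq_mul, ← integral_const_mul]
        congr 1
        ext x
        simp only [Submodule.coe_smul, Pi.smul_apply, smul_eq_mul]
        ring }
  have hc := c0_pos
  have hbd : ∀ φ : TT, |l φ| ≤ (√c0 * B) * ‖dR hI hD hs' φ‖ := by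
    intro φ
    have h1 := hb φ.1 φ.2
    have h2 := (hI s φ.1 φ.1 hs' (test_sch φ.2) (test_sch φ.2)).2.2.2.2.2.1
    rw [← h2, ← Real.sqrt_eq_rpow, Real.sqrt_mul hc.le, Real.sqrt_sq (norm_nonneg _)] at h1
    calc |l φ| ≤ B * (√c0 * ‖dRs s φ.1‖) := h1
      _ = (√c0 * B) * ‖dRs s φ.1‖ := by ring
  obtain ⟨w, hw1, hw2, hw3⟩ := riesz (dR hI hD hs') l (by positivity) hbd
  have hw : IsGam s F w := by
    intro φ hφ
    refine ⟨?_, hw3 ⟨φ, hφ⟩⟩
    have hle : (LinearMap.range (dR hI hD hs')).topologicalClosure ≤ (ℝ ∙ (Rs s φ))ᗮ := by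
      refine Submodule.topologicalClosure_minimal _ ?_ (Submodule.isClosed_orthogonal _)
      rintro _ ⟨ψ, rfl⟩
      rw [Submodule.mem_orthogonal_singleton_iff_inner_right]
      exact (hI s φ ψ.1 hs' (test_sch hφ) (test_sch ψ.2)).2.2.2.1
    have := hle hw1
    rw [Submodule.mem_orthogonal_singleton_iff_inner_right] at this
    rw [real_inner_comm]
    exact this
  have hu : ∀ w w', IsGam s F w → IsGam s F w' → w = w' := by
    intro w w' h1 h2
    rw [← sub_eq_zero]
    apply FldPx.eq_zero_of hD hs'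
    intro φ hφ
    rw [inner_sub_left, inner_sub_left, (h1 φ hφ).1, (h1 φ hφ).2, (h2 φ hφ).1, (h2 φ hφ).2]
    simp
  have hex : ∃ w, IsGam s F w := ⟨w, hw⟩
  have hGam : IsGam s F (Gam s F) := by
    rw [Gam, dif_pos hex]
    exact hex.choose_spec
  obtain ⟨C, -, hfld, -⟩ := hF s hs'
  obtain ⟨f1, -, f3, -, -⟩ := hfld (Gam s F)
  have hs2 := abs_lt.1 hs'
  have hUl : LocallyIntegrable (U s (Gam s F)) volume :=
    f1.1.locallyIntegrable (FldPx.one_le (by linarith) (by linarith))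
  have hVl : LocallyIntegrable (V s (Gam s F)) volume :=
    f3.1.locallyIntegrable (FldPx.one_le (by linarith) (by linarith))
  refine ⟨hGam, ?_, ?_, ?_, fun w' hw' => hu _ _ hw' hGam⟩
  · rw [hu _ _ hGam hw]
    exact hw2
  · exact Pool.Agent.QWE.GamEx.ae_zero hUl fun φ hφ => by rw [f1.2 φ hφ]; exact (hGam φ hφ).1
  · exact Pool.Agent.QWE.GamEx.ae_eq hVl hFl fun φ hφ => by rw [f3.2 φ hφ]; exact (hGam φ hφ).2

end Pool.Agent.QWP
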