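import Pool.Agent.QWP.StF
import Pool.Agent.QWP.GamP

set_option autoImplicit false

/-!
# QWP / Br1: `K` is the critical space
-/

open MeasureTheory Filter Topology Set
open scoped ENNReal NNReal RealInnerProductSpace

namespace Pool.Agent.QWP

open Pool.Agent.QWE (E S sg mu K toK tau sh dl rev gr ig IsTest pd lap Rad dRad Rk dRk c0 WD Sm SmE IsSch half shr WTo)

namespace Br1x

open GamPx
open Pool.Agent.QWE.Linx (test_sch int_mul)
open Pool.Agent.QWE.Fldx (int_mul' c0_pos)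

lemma Rs_add (hI : St_IsoP) (hD : St_DnsP) {s : ℝ} (hs' : |s| < 1 / 2) {φ ψ : E → ℝ}
    (hφ : IsTest φ) (hψ : IsTest ψ) : Rs s (φ + ψ) = Rs s φ + Rs s ψ := by
  rw [← sub_eq_zero]
  apply zero_of_theta hD hs'
  intro f g hf hg
  have hsum : IsTest (φ + ψ) := ⟨hφ.1.add hψ.1, hφ.2.add hψ.2⟩
  rw [inner_sub_right, inner_add_right, FldPx.thR hI hs' hf hg (test_sch hsum),
    FldPx.thR hI hs' hf hg (test_sch hφ), FldPx.thR hI hs' hf hg (test_sch hψ),
    ← integral_add (int_mul' hf hφ) (int_mul' hf hψ), sub_eq_zero]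
  congr 1
  ext x
  simp only [Pi.add_apply]
  ring

lemma Rs_smul (hI : St_IsoP) (hD : St_DnsP) {s : ℝ} (hs' : |s| < 1 / 2) {φ : E → ℝ} (c : ℝ)
    (hφ : IsTest φ) : Rs s (c • φ) = c • Rs s φ := by
  rw [← sub_eq_zero]
  apply zero_of_theta hD hs'
  intro f g hf hg
  have hsum : IsTest (c • φ) := TT.smul_mem c hφ
  rw [inner_sub_right, inner_smul_right, FldPx.thR hI hs' hf hg (test_sch hsum),
    FldPx.thR hI hs' hf hg (test_sch hφ), ← integral_const_mul, sub_eq_zero]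
  congr 1
  ext x
  simp only [Pi.smul_apply, smul_eq_mul]
  ring

/-- The linear map `φ ↦ Rs s φ`. -/
noncomputable def R1 (hI : St_IsoP) (hD : St_DnsP) {s : ℝ} (hs' : |s| < 1 / 2) : TT →ₗ[ℝ] K where
  toFun φ := Rs s φ.1
  map_add' φ ψ := Rs_add hI hD hs' φ.2 ψ.2
  map_smul' c φ := Rs_smul hI hD hs' c φ.2

/-- the position part -/
lemma core (hI : St_IsoP) (hD : St_DnsP) {s : ℝ} (hs' : |s| < 1 / 2) {F : E → ℝ} {B : ℝ} (hB : 0 ≤ B)
    (hFl : LocallyIntegrable F volume)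
    (hb : ∀ φ, IsTest φ → |∫ x, F x * φ x| ≤ B * (hs (-2 - s) φ) ^ (1 / 2 : ℝ)) :
    ∃ w : K, ‖w‖ ≤ √c0 * B ∧ ∀ φ, IsTest φ → inner ℝ w (Rs s φ) = ∫ x, F x * φ x ∧
      inner ℝ w (dRs s φ) = (0 : ℝ) := by
  have hint : ∀ φ : E → ℝ, IsTest φ → Integrable (fun x => F x * φ x) volume := fun φ hφ =>
    Pool.Agent.QWE.GamEx.int_mul hFl hφ
  let l : TT →ₗ[ℝ] ℝ :=
    { toFun := fun φ => ∫ x, F x * φ.1 x
      map_add' := fun φ ψ => by
        rw [← integral_add (hint _ φ.2) (hint _ ψ.2)]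
        congr 1
        ext x
        simp only [Submodule.coe_add, Pi.add_apply]
        ring
      map_smul' := fun c φ => by
        rw [RingHom.id_apply, smul_eq_mul, ← integral_const_mul]
        congr 1
        ext x
        simp only [Submodule.coe_smul, Pi.smul_apply, smul_eq_mul]
        ring }
  have hc := c0_pos
  have hbd : ∀ φ : TT, |l φ| ≤ (√c0 * B) * ‖R1 hI hD hs' φ‖ := by
    intro φ
    have h1 := hb φ.1 φ.2
    have h2 := (hI s φ.1 φ.1 hs' (test_sch φ.2) (test_sch φ.2)).2.2.2.2.1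
    rw [← h2, ← Real.sqrt_eq_rpow, Real.sqrt_mul hc.le, Real.sqrt_sq (norm_nonneg _)] at h1
    calc |l φ| ≤ B * (√c0 * ‖Rs s φ.1‖) := h1
      _ = (√c0 * B) * ‖Rs s φ.1‖ := by ring
  obtain ⟨w, hw1, hw2, hw3⟩ := riesz (R1 hI hD hs') l (by positivity) hbd
  refine ⟨w, hw2, fun φ hφ => ⟨hw3 ⟨φ, hφ⟩, ?_⟩⟩
  have hle : (LinearMap.range (R1 hI hD hs')).topologicalClosure ≤ (ℝ ∙ (dRs s φ))ᗮ := by
    refine Submodule.topologicalClosure_minimal _ ?_ (Submodule.isClosed_orthogonal _)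
    rintro _ ⟨ψ, rfl⟩
    rw [Submodule.mem_orthogonal_singleton_iff_inner_right, real_inner_comm]
    exact (hI s ψ.1 φ hs' (test_sch ψ.2) (test_sch hφ)).2.2.2.1
  have := hle hw1
  rw [Submodule.mem_orthogonal_singleton_iff_inner_right] at this
  rw [real_inner_comm]
  exact this

lemma sig_lt {b : ℝ} (hb : 2 < b) : |sig b| < 1 / 2 := by
  unfold sig
  have h1 : 0 < 2 / b := by positivity
  have h2 : 2 / b < 1 := by rw [div_lt_one (by linarith)]; exact hb
  rw [abs_lt]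
  constructor <;> linarith

lemma HN_eq (b : ℝ) (f g : E → ℝ) : HN b f g = HD (2 + sig b) f + HD (1 + sig b) g := by
  unfold HN sig
  congr 2 <;> ring

/-- upper bound for the duality norm -/
lemma up (hI : St_IsoP) (hF : St_FldP) (hH : St_HDl) {s : ℝ} (hs' : |s| < 1 / 2) (k : K) :
    HD (2 + s) (U s k) ≤ ENNReal.ofReal ((√c0)⁻¹ * ‖k‖) ∧
      HD (1 + s) (V s k) ≤ ENNReal.ofReal ((√c0)⁻¹ * ‖k‖) := by
  obtain ⟨C, hC, hfld, -⟩ := hF s hs'
  obtain ⟨f1, -, f3, -, -⟩ := hfld k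
  have hs2 := abs_lt.1 hs'
  have hUl : LocallyIntegrable (U s k) volume :=
    f1.1.locallyIntegrable (FldPx.one_le (by linarith) (by linarith))
  have hVl : LocallyIntegrable (V s k) volume :=
    f3.1.locallyIntegrable (FldPx.one_le (by linarith) (by linarith))
  have hc := c0_pos
  have hc' : 0 < √c0 := Real.sqrt_pos.2 hc
  constructor
  · refine (hH (2 + s) (by linarith) (by linarith)).2.1 _ _ (by positivity) hUl fun φ hφ => ?_
    have h2 := (hI s φ φ hs' (test_sch hφ) (test_sch hφ)).2.2.2.2.1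
    have e : -(2 + s) = -2 - s := by ring
    rw [e, ← h2, ← Real.sqrt_eq_rpow, Real.sqrt_mul hc.le, Real.sqrt_sq (norm_nonneg _), f1.2 φ hφ]
    refine (abs_real_inner_le_norm _ _).trans (le_of_eq ?_)
    field_simp
  · refine (hH (1 + s) (by linarith) (by linarith)).2.1 _ _ (by positivity) hVl fun φ hφ => ?_
    have h2 := (hI s φ φ hs' (test_sch hφ) (test_sch hφ)).2.2.2.2.2.1
    have e : -(1 + s) = -1 - s := by ring
    rw [e, ← h2, ← Real.sqrt_eq_rpow, Real.sqrt_mul hc.le, Real.sqrt_sq (norm_nonneg _), f3.2 φ hφ]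
    refine (abs_real_inner_le_norm _ _).trans (le_of_eq ?_)
    field_simp

/-- existence with the bound -/
lemma ex_k (hI : St_IsoP) (hD : St_DnsP) (hF : St_FldP) (hH : St_HDl) {s : ℝ} (hs' : |s| < 1 / 2)
    {f g : E → ℝ} (hf : HD (2 + s) f < ⊤) (hg : HD (1 + s) g < ⊤) :
    ∃ k : K, (U s k =ᵐ[volume] f) ∧ (V s k =ᵐ[volume] g) ∧
      ‖k‖ ≤ √c0 * ((HD (2 + s) f).toReal + (HD (1 + s) g).toReal) := by
  have hs2 := abs_lt.1 hs'
  obtain ⟨fl, fb⟩ := (hH (2 + s) (by linarith) (by linarith)).1 f hf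
  obtain ⟨gl, gb⟩ := (hH (1 + s) (by linarith) (by linarith)).1 g hg
  have e1 : -(2 + s) = -2 - s := by ring
  have e2 : -(1 + s) = -1 - s := by ring
  rw [e1] at fb
  rw [e2] at gb
  obtain ⟨w1, b1, h1⟩ := core hI hD hs' ENNReal.toReal_nonneg fl fb
  obtain ⟨h2, b2, -, -, -⟩ := thm_GamP hI hD hF s g _ hs' ENNReal.toReal_nonneg gl gb
  obtain ⟨C, hC, hfld, -⟩ := hF s hs'
  obtain ⟨f1, -, f3, -, -⟩ := hfld (w1 + Gam s g)
  have hUl : LocallyIntegrable (U s (w1 + Gam s g)) volume :=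
    f1.1.locallyIntegrable (FldPx.one_le (by linarith) (by linarith))
  have hVl : LocallyIntegrable (V s (w1 + Gam s g)) volume :=
    f3.1.locallyIntegrable (FldPx.one_le (by linarith) (by linarith))
  refine ⟨w1 + Gam s g, ?_, ?_, ?_⟩
  · refine Pool.Agent.QWE.GamEx.ae_eq hUl fl fun φ hφ => ?_
    rw [f1.2 φ hφ, inner_add_left, (h1 φ hφ).1, (h2 φ hφ).1, add_zero]
  · refine Pool.Agent.QWE.GamEx.ae_eq hVl gl fun φ hφ => ?_
    rw [f3.2 φ hφ, inner_add_left, (h1 φ hφ).2, (h2 φ hφ).2, zero_add]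
  · refine (norm_add_le _ _).trans ((add_le_add b1 b2).trans (le_of_eq ?_))
    ring

lemma uniq (hD : St_DnsP) (hF : St_FldP) {s : ℝ} (hs' : |s| < 1 / 2) (k k' : K)
    (hU : U s k =ᵐ[volume] U s k') (hV : V s k =ᵐ[volume] V s k') : k = k' := by
  obtain ⟨C, hC, hfld, -⟩ := hF s hs'
  obtain ⟨f1, -, f3, -, -⟩ := hfld k
  obtain ⟨g1, -, g3, -, -⟩ := hfld k'
  rw [← sub_eq_zero]
  apply FldPx.eq_zero_of hD hs'
  intro φ hφ
  rw [inner_sub_left, inner_sub_left, ← f1.2 φ hφ, ← g1.2 φ hφ, ← f3.2 φ hφ, ← g3.2 φ hφ]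
  constructor
  · rw [sub_eq_zero]
    refine integral_congr_ae ?_
    filter_upwards [hU] with x hx
    rw [hx]
  · rw [sub_eq_zero]
    refine integral_congr_ae ?_
    filter_upwards [hV] with x hx
    rw [hx]

end Br1x

open Br1x in
open Pool.Agent.QWE.Fldx (c0_pos) in
theorem thm_Br1 (hI : St_IsoP) (hD : St_DnsP) (hF : St_FldP) (hH : St_HDl) : St_Br1 := by
  intro b hb
  have hs' := sig_lt hb
  have hs2 := abs_lt.1 hs'
  have hc := c0_pos
  have hc' : 0 < √c0 := Real.sqrt_pos.2 hc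
  refine ⟨(√c0)⁻¹, 2 * (√c0)⁻¹, by positivity, by positivity, fun f g h => ?_, fun f g k hU hV => ?_,
    fun k k' hU hV => uniq hD hF hs' k k' hU hV⟩
  · rw [HN_eq, ENNReal.add_lt_top] at h
    obtain ⟨k, h1, h2, -⟩ := ex_k hI hD hF hH hs' h.1 h.2
    exact ⟨k, h1, h2⟩
  · have e1 := (hH (2 + sig b) (by linarith) (by linarith)).2.2 _ _ hU
    have e2 := (hH (1 + sig b) (by linarith) (by linarith)).2.2 _ _ hV
    obtain ⟨u1, u2⟩ := up hI hF hH hs' k
    rw [e1] at u1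
    rw [e2] at u2
    rw [HN_eq]
    constructor
    · refine (add_le_add u1 u2).trans (le_of_eq ?_)
      rw [← two_mul, ENNReal.ofReal_mul (by norm_num), ENNReal.ofReal_mul (by positivity), ofReal_norm,
        ENNReal.ofReal_ofNat]
      ring
    · obtain ⟨k', h1, h2, h3⟩ := ex_k hI hD hF hH hs' (u1.trans_lt ENNReal.ofReal_lt_top)
        (u2.trans_lt ENNReal.ofReal_lt_top)
      rw [← uniq hD hF hs' k k' (hU.trans h1.symm) (hV.trans h2.symm)] at h3
      have h4 : (√c0)⁻¹ * ‖k‖ ≤ (HD (2 + sig b) f).toReal + (HD (1 + sig b) g).toReal := by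
        rw [inv_mul_le_iff₀ hc']
        exact h3
      calc ENNReal.ofReal (√c0)⁻¹ * ‖k‖ₑ = ENNReal.ofReal ((√c0)⁻¹ * ‖k‖) := by
            rw [ENNReal.ofReal_mul (by positivity), ofReal_norm]
        _ ≤ ENNReal.ofReal ((HD (2 + sig b) f).toReal + (HD (1 + sig b) g).toReal) :=
            ENNReal.ofReal_le_ofReal h4
        _ = HD (2 + sig b) f + HD (1 + sig b) g := by
            rw [ENNReal.ofReal_add ENNReal.toReal_nonneg ENNReal.toReal_nonneg,
              ENNReal.ofReal_toReal (u1.trans_lt ENNReal.ofReal_lt_top).ne,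
              ENNReal.ofReal_toReal (u2.trans_lt ENNReal.ofReal_lt_top).ne]

end Pool.Agent.QWP
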