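import Pool.Agent.QWP.Par

set_option autoImplicit false

/-!
# QWP: derivative of the flow on the test states

`deriv_Rs`: `t ↦ tau t (Rs s φ)` has the derivative `- dRs s φ` at `0`, and `t ↦ tau t (dRs s φ)` has the derivative
`- Rs s (lap φ)` at `0` (`φ` Schwartz, `|s| < 1/2`).
-/

open MeasureTheory Filter Topology Set
open scoped ENNReal NNReal RealInnerProductSpace

namespace Pool.Agent.QWP

open Pool.Agent.QWE (E S sg mu K toK tau sh dl rev gr ig IsTest pd lap Rad dRad Rk dRk c0 WD Sm SmE IsSch half shr WTo)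

namespace DrRsx

/-! ### Differentiability of the flow on test states -/

private lemma trig (θ : ℝ) : 2 + θ ^ 2 - 2 * Real.cos θ - 2 * (θ * Real.sin θ) ≤ 7 * θ ^ 4 := by
  have h1 := Real.one_sub_sq_div_two_le_cos (x := θ)
  have h2 : θ ^ 2 - θ ^ 4 / 6 ≤ θ * Real.sin θ := by
    rcases lt_trichotomy θ 0 with h0 | h0 | h0
    · have h3 := Real.sin_gt_sub_cube (x := -θ) (by linarith)
      rw [Real.sin_neg] at h3
      have h4 : 0 < (-θ) * (-Real.sin θ - (-θ - (-θ) ^ 3 / 6)) := mul_pos (by linarith) (by linarith)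
      nlinarith [h4]
    · simp [h0]
    · have h3 := Real.sin_gt_sub_cube (x := θ) h0
      have h4 : 0 < θ * (Real.sin θ - (θ - θ ^ 3 / 6)) := mul_pos h0 (by linarith)
      nlinarith [h4]
  have h4 : 0 ≤ θ ^ 4 := by positivity
  linarith

private lemma comb {f1 f2 f3 f4 f5 f6 : S × ℝ → ℝ} (i1 : Integrable f1 mu) (i2 : Integrable f2 mu)
    (i3 : Integrable f3 mu) (i4 : Integrable f4 mu) (i5 : Integrable f5 mu) (i6 : Integrable f6 mu) (t : ℝ)
    (h : ∀ z, 2 * f1 z + t ^ 2 * f2 z - 2 * f3 z + 2 * t * f4 z - 2 * t * f5 z ≤ 7 * t ^ 4 * f6 z) :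
    2 * (∫ z, f1 z ∂mu) + t ^ 2 * (∫ z, f2 z ∂mu) - 2 * (∫ z, f3 z ∂mu) + 2 * t * (∫ z, f4 z ∂mu) -
      2 * t * (∫ z, f5 z ∂mu) ≤ 7 * t ^ 4 * ∫ z, f6 z ∂mu := by
  have j1 : Integrable (fun z => 2 * f1 z) mu := i1.const_mul _
  have j2 : Integrable (fun z => t ^ 2 * f2 z) mu := i2.const_mul _
  have j3 : Integrable (fun z => 2 * f3 z) mu := i3.const_mul _
  have j4 : Integrable (fun z => 2 * t * f4 z) mu := i4.const_mul _
  have j5 : Integrable (fun z => 2 * t * f5 z) mu := i5.const_mul _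
  have j6 : Integrable (fun z => 7 * t ^ 4 * f6 z) mu := i6.const_mul _
  have k1 : Integrable (fun z => 2 * f1 z + t ^ 2 * f2 z) mu := j1.add j2
  have k2 : Integrable (fun z => 2 * f1 z + t ^ 2 * f2 z - 2 * f3 z) mu := k1.sub j3
  have k3 : Integrable (fun z => 2 * f1 z + t ^ 2 * f2 z - 2 * f3 z + 2 * t * f4 z) mu := k2.add j4
  have k4 : Integrable (fun z => 2 * f1 z + t ^ 2 * f2 z - 2 * f3 z + 2 * t * f4 z - 2 * t * f5 z) mu :=
    k3.sub j5
  have e := integral_mono k4 j6 h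
  rw [integral_sub k3 j5, integral_add k2 j4, integral_sub k1 j3, integral_add j1 j2] at e
  simp only [integral_const_mul] at e
  exact e

private lemma pt (α : ℂ) (r t : ℝ) :
    2 * (α * (starRingEnd ℂ) α).re +
      t ^ 2 * ((2 * Real.pi * Complex.I * (r : ℂ) * α) *
        (starRingEnd ℂ) (2 * Real.pi * Complex.I * (r : ℂ) * α)).re -
      2 * (α * Complex.exp (-2 * Real.pi * Complex.I * ((r * t : ℝ) : ℂ)) * (starRingEnd ℂ) α).re +
      2 * t * (α * Complex.exp (-2 * Real.pi * Complex.I * ((r * t : ℝ) : ℂ)) *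
        (starRingEnd ℂ) (2 * Real.pi * Complex.I * (r : ℂ) * α)).re -
      2 * t * (α * (starRingEnd ℂ) (2 * Real.pi * Complex.I * (r : ℂ) * α)).re ≤
    7 * t ^ 4 * ((2 * Real.pi * Complex.I * (r : ℂ) * (2 * Real.pi * Complex.I * (r : ℂ) * α)) *
        (starRingEnd ℂ) (2 * Real.pi * Complex.I * (r : ℂ) * (2 * Real.pi * Complex.I * (r : ℂ) * α))).re := by
  have he : Complex.exp (-2 * Real.pi * Complex.I * ((r * t : ℝ) : ℂ)) =
      ((Real.cos (2 * Real.pi * (r * t)) : ℝ) : ℂ) - ((Real.sin (2 * Real.pi * (r * t)) : ℝ) : ℂ) * Complex.I := by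
    have e1 : -2 * (Real.pi : ℂ) * Complex.I * ((r * t : ℝ) : ℂ) =
        ((-(2 * Real.pi * (r * t)) : ℝ) : ℂ) * Complex.I := by push_cast; ring
    rw [e1, Complex.exp_mul_I, ← Complex.ofReal_cos, ← Complex.ofReal_sin, Real.cos_neg, Real.sin_neg]
    push_cast
    ring
  have hq : 0 ≤ α.re ^ 2 + α.im ^ 2 := by positivity
  have h := mul_le_mul_of_nonneg_left (trig (2 * Real.pi * (r * t))) hq
  rw [he]
  generalize Real.cos (2 * Real.pi * (r * t)) = c at h ⊢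
  generalize Real.sin (2 * Real.pi * (r * t)) = d at h ⊢
  simp only [Complex.mul_re, Complex.mul_im, Complex.sub_re, Complex.sub_im, Complex.ofReal_re,
    Complex.ofReal_im, Complex.I_re, Complex.I_im, Complex.conj_re, Complex.conj_im, Complex.re_ofNat,
    Complex.im_ofNat]
  nlinarith [h]

open Parx in
private lemma re_pair {A B : S × ℝ → ℂ} {a b : ℝ → ℝ} (h : Good A a) (h' : Good B b) (t : ℝ) :
    Integrable (fun z => (A z * Complex.exp (-2 * Real.pi * Complex.I * ((z.2 * t : ℝ) : ℂ)) *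
      (starRingEnd ℂ) (B z)).re) mu ∧
    inner ℝ (tau t (toK (RF A))) (toK (RF B)) =
      ∫ z, (A z * Complex.exp (-2 * Real.pi * Complex.I * ((z.2 * t : ℝ) : ℂ)) *
        (starRingEnd ℂ) (B z)).re ∂mu := by
  have h1 := (h.tr t).int_mul h'
  refine ⟨h1.re, ?_⟩
  rw [pair h h' t, ← RCLike.re_eq_complex_re, ← integral_re h1]

open Parx in
private lemma re_pair0 (hGrp1 : Pool.Agent.QWE.St_Grp1) {A B : S × ℝ → ℂ} {a b : ℝ → ℝ} (h : Good A a) (h' : Good B b) :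
    Integrable (fun z => (A z * (starRingEnd ℂ) (B z)).re) mu ∧
    inner ℝ (toK (RF A)) (toK (RF B)) = ∫ z, (A z * (starRingEnd ℂ) (B z)).re ∂mu := by
  have h1 := re_pair h h' 0
  rw [hGrp1.2.1] at h1
  simpa using h1

open Parx in
private lemma deriv_bd (hGrp1 : Pool.Agent.QWE.St_Grp1) {A B C : S × ℝ → ℂ} {a b c : ℝ → ℝ}
    (hA : Good A a) (hB : Good B b) (hC : Good C c)
    (hAB : ∀ z, B z = 2 * Real.pi * Complex.I * (z.2 : ℂ) * A z)
    (hBC : ∀ z, C z = 2 * Real.pi * Complex.I * (z.2 : ℂ) * B z) (t : ℝ) :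
    ‖tau t (toK (RF A)) - toK (RF A) + t • toK (RF B)‖ ≤ 3 * t ^ 2 * ‖toK (RF C)‖ := by
  obtain ⟨i1, e1⟩ := re_pair0 hGrp1 hA hA
  obtain ⟨i2, e2⟩ := re_pair0 hGrp1 hB hB
  obtain ⟨i3, e3⟩ := re_pair hA hA t
  obtain ⟨i4, e4⟩ := re_pair hA hB t
  obtain ⟨i5, e5⟩ := re_pair0 hGrp1 hA hB
  obtain ⟨i6, e6⟩ := re_pair0 hGrp1 hC hC
  have hsq : ‖tau t (toK (RF A)) - toK (RF A) + t • toK (RF B)‖ ^ 2 =
      2 * inner ℝ (toK (RF A)) (toK (RF A)) + t ^ 2 * inner ℝ (toK (RF B)) (toK (RF B)) -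
      2 * inner ℝ (tau t (toK (RF A))) (toK (RF A)) + 2 * t * inner ℝ (tau t (toK (RF A))) (toK (RF B)) -
      2 * t * inner ℝ (toK (RF A)) (toK (RF B)) := by
    have h1 : inner ℝ (tau t (toK (RF A))) (tau t (toK (RF A))) = inner ℝ (toK (RF A)) (toK (RF A)) :=
      LinearIsometry.inner_map_map _ _ _
    rw [← real_inner_self_eq_norm_sq]
    simp only [inner_add_left, inner_add_right, inner_sub_left, inner_sub_right, inner_smul_left,
      inner_smul_right, h1, RCLike.conj_to_real]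
    rw [real_inner_comm (tau t (toK (RF A))) (toK (RF A)), real_inner_comm (tau t (toK (RF A))) (toK (RF B)),
      real_inner_comm (toK (RF A)) (toK (RF B))]
    ring
  have hle : ‖tau t (toK (RF A)) - toK (RF A) + t • toK (RF B)‖ ^ 2 ≤ 7 * t ^ 4 * ‖toK (RF C)‖ ^ 2 := by
    rw [hsq, ← real_inner_self_eq_norm_sq (toK (RF C)), e1, e2, e3, e4, e5, e6]
    refine comb i1 i2 i3 i4 i5 i6 t fun z => ?_
    have h := pt (A z) z.2 t
    rw [← hAB, ← hBC] at h
    exact h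
  have h3 : 7 * t ^ 4 * ‖toK (RF C)‖ ^ 2 ≤ (3 * t ^ 2 * ‖toK (RF C)‖) ^ 2 := by
    have : 0 ≤ t ^ 4 * ‖toK (RF C)‖ ^ 2 := by positivity
    nlinarith
  exact abs_le_of_sq_le_sq' (hle.trans h3) (by positivity) |>.2

open Parx in
private lemma deriv_good (hGrp1 : Pool.Agent.QWE.St_Grp1) {A B C : S × ℝ → ℂ} {a b c : ℝ → ℝ}
    (hA : Good A a) (hB : Good B b) (hC : Good C c)
    (hAB : ∀ z, B z = 2 * Real.pi * Complex.I * (z.2 : ℂ) * A z)
    (hBC : ∀ z, C z = 2 * Real.pi * Complex.I * (z.2 : ℂ) * B z) :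
    HasDerivAt (fun t => tau t (toK (RF A))) (- toK (RF B)) 0 := by
  have hmain := deriv_bd hGrp1 hA hB hC hAB hBC
  rw [hasDerivAt_iff_isLittleO]
  have h00 : tau 0 (toK (RF A)) = toK (RF A) := hGrp1.2.1 _
  simp only [h00, sub_zero, smul_neg, sub_neg_eq_add]
  refine Asymptotics.IsLittleO.of_bound fun c hc => ?_
  have hD : 0 < 3 * ‖toK (RF C)‖ + 1 := by positivity
  have h1' : ∀ᶠ h : ℝ in 𝓝 0, |h| < c / (3 * ‖toK (RF C)‖ + 1) := by
    have : Tendsto (fun h : ℝ => |h|) (𝓝 0) (𝓝 0) := by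
      simpa using (continuous_abs (G := ℝ)).tendsto 0
    exact this.eventually (gt_mem_nhds (by positivity))
  filter_upwards [h1'] with h hh
  have h2 := hmain h
  have h3 : |h| ≤ c / (3 * ‖toK (RF C)‖ + 1) := hh.le
  rw [le_div_iff₀ hD] at h3
  refine h2.trans ?_
  rw [Real.norm_eq_abs]
  have h4 : h ^ 2 = |h| * |h| := by rw [← sq, sq_abs]
  rw [h4]
  have h5 : 0 ≤ |h| := abs_nonneg h
  nlinarith [h3, h5, mul_nonneg h5 h5]

end DrRsx

open Parx DrRsx in
/-- Derivative of the flow on the test states. -/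
theorem deriv_Rs (hGrp1 : Pool.Agent.QWE.St_Grp1) (hFt : St_Ft) {s : ℝ} (hs : |s| < 1 / 2) {φ : E → ℝ}
    (hφ : IsSch φ) :
    HasDerivAt (fun t => tau t (Rs s φ)) (- dRs s φ) 0 ∧
      HasDerivAt (fun t => tau t (dRs s φ)) (- Rs s (lap φ)) 0 := by
  obtain ⟨-, -, -, -, hl, -, -, -, hsl, -⟩ := hFt.2 φ hφ
  obtain ⟨a, hA⟩ := am_good hFt hs hφ
  obtain ⟨b, hB⟩ := dam_good hFt hs hφ
  obtain ⟨c, hC⟩ := am_good hFt hs hsl
  obtain ⟨d, hD⟩ := dam_good hFt hs hsl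
  have e1 : ∀ (ψ : E → ℝ) (z : S × ℝ), dam s ψ z = 2 * Real.pi * Complex.I * (z.2 : ℂ) * am s ψ z := by
    intro ψ z
    simp only [dam, am]
    ring
  have e2 : ∀ z : S × ℝ, am s (lap φ) z = 2 * Real.pi * Complex.I * (z.2 : ℂ) * dam s φ z := by
    intro z
    simp only [dam, am]
    rw [hl, norm_pt]
    have h1 : (((2 * Real.pi * |z.2|) ^ 2 : ℝ) : ℂ) = -(2 * Real.pi * Complex.I * (z.2 : ℂ)) ^ 2 := by
      rw [mul_pow, sq_abs, ← mul_pow]
      push_cast
      ring_nf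
      rw [Complex.I_sq]
      ring
    rw [h1]
    ring
  refine ⟨?_, ?_⟩
  · have h := deriv_good hGrp1 hA hB hC (e1 φ) e2
    rwa [← RsF_eq, ← dRsF_eq] at h
  · have h := deriv_good hGrp1 hB hC hD e2 (e1 (lap φ))
    rwa [← RsF_eq, ← dRsF_eq] at h

/-- Derivative of the flow at any time. -/
theorem deriv_tau (hGrp1 : Pool.Agent.QWE.St_Grp1) {w w' : K} (h : HasDerivAt (fun t => tau t w) (- w') 0)
    (t0 r : ℝ) : HasDerivAt (fun r => tau (r - t0) w) (- tau (r - t0) w') r := by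
  have h1 : (fun q => tau (q - t0) w) = fun q => tau (r - t0) (tau (q - r) w) := by
    funext q
    rw [hGrp1.1]
    congr 2
    ring
  rw [h1]
  have h2 : HasDerivAt (fun q => tau (q - r) w) (- w') r := by
    have h3 : HasDerivAt (fun t => tau t w) (- w') (r - r) := by rwa [sub_self]
    exact HasDerivAt.comp_sub_const r r h3
  have h4 := ((tau (r - t0)).toContinuousLinearMap.hasFDerivAt (x := tau (r - r) w)).comp_hasDerivAt
    r h2
  refine h4.congr_deriv ?_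
  simp

end Pool.Agent.QWP
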