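import Pool.Agent.QWP.StF
import Pool.Agent.QWP.DrRs

set_option autoImplicit false

/-!
# QWP: a weak solution is a Duhamel solution (`St_Br2`)

Port of `Pool.Agent.QWE.Br2` with the test states `Rs s`, `dRs s`.
-/

open MeasureTheory Filter Topology Set
open scoped ENNReal NNReal RealInnerProductSpace Pointwise ContDiff

namespace Pool.Agent.QWP

open Pool.Agent.QWE (E S sg mu K toK tau sh dl rev gr ig IsTest pd lap Rad dRad Rk dRk c0 WD Sm SmE IsSch half shr WTo)

namespace Br2x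

/-! ### A product rule in a Hilbert space -/

section Abstract

variable {X : Type*} [NormedAddCommGroup X] [InnerProductSpace ℝ X]

private lemma ii_inner {n W : ℝ → X} {a b : ℝ} (hn : IntervalIntegrable n volume a b)
    (hW : Continuous W) : IntervalIntegrable (fun q => inner ℝ (n q) (W q)) volume a b := by
  obtain ⟨B, hB⟩ := (isCompact_uIcc (a := a) (b := b)).exists_bound_of_continuousOn hW.continuousOn
  rw [intervalIntegrable_iff] at hn ⊢
  refine (hn.norm.mul_const B).mono' (hn.aestronglyMeasurable.inner hW.aestronglyMeasurable) ?_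
  refine (ae_restrict_iff' measurableSet_uIoc).2 (Eventually.of_forall fun q hq => ?_)
  refine (norm_inner_le_norm _ _).trans ?_
  gcongr
  exact hB q (uIoc_subset_uIcc hq)

private lemma lip_of_deriv {W Z : ℝ → X} {C : ℝ} (hW : ∀ r, HasDerivAt W (- Z r) r)
    (hC : ∀ r, ‖Z r‖ ≤ C) (r q : ℝ) : ‖W q - W r‖ ≤ C * |q - r| := by
  have h1 := Convex.norm_image_sub_le_of_norm_hasDerivWithin_le (f := W) (f' := fun r => - Z r)
    (C := C) (s := univ) (x := r) (y := q) (fun x _ => (hW x).hasDerivWithinAt)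
    (fun x _ => by rw [norm_neg]; exact hC x) convex_univ (mem_univ _) (mem_univ _)
  simpa [Real.norm_eq_abs] using h1

/-- The remainder with the integrable source. -/
private lemma deriv_rem {n W Z : ℝ → X} {b r C : ℝ} (hr : r < b)
    (hn : IntervalIntegrable n volume r b) (hW : ∀ r, HasDerivAt W (- Z r) r)
    (hC : ∀ r, ‖Z r‖ ≤ C) :
    HasDerivWithinAt (fun r' => ∫ q in r..r', inner ℝ (n q) (W q - W r)) 0 (Icc r b) r := by
  have hC0 : 0 ≤ C := (norm_nonneg _).trans (hC 0)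
  have hWc : Continuous W := continuous_iff_continuousAt.2 fun r => (hW r).continuousAt
  rw [hasDerivWithinAt_iff_isLittleO]
  simp only [intervalIntegral.integral_same, sub_zero, smul_zero]
  have hnn : IntervalIntegrable (fun q => ‖n q‖) volume r b := hn.norm
  have hcont : ContinuousOn (fun r' => ∫ q in r..r', ‖n q‖) (Icc r b) := by
    have h1 := intervalIntegral.continuousOn_primitive_interval (μ := volume) (f := fun q => ‖n q‖)
      (a := r) (b := b) ?_
    · rwa [uIcc_of_le hr.le] at h1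
    · rw [uIcc_of_le hr.le]
      rwa [intervalIntegrable_iff_integrableOn_Icc_of_le hr.le] at hnn
  have ht : Tendsto (fun r' => C * ∫ q in r..r', ‖n q‖) (𝓝[Icc r b] r) (𝓝 0) := by
    have h1 := (hcont r (left_mem_Icc.2 hr.le)).tendsto.const_mul C
    simpa using h1
  refine Asymptotics.IsLittleO.of_bound fun c hc => ?_
  have he := ht.eventually (gt_mem_nhds hc)
  filter_upwards [he, self_mem_nhdsWithin] with r' h1 h2
  have h3 : ∀ q ∈ Ioc r r', ‖inner ℝ (n q) (W q - W r)‖ ≤ ‖n q‖ * (C * (r' - r)) := by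
    intro q hq
    refine (norm_inner_le_norm _ _).trans ?_
    gcongr
    refine (lip_of_deriv hW hC r q).trans ?_
    gcongr
    rw [abs_of_pos (by linarith [hq.1])]
    linarith [hq.2]
  have h4 : IntervalIntegrable (fun q => ‖n q‖ * (C * (r' - r))) volume r r' := by
    refine (hnn.mono_set ?_).mul_const _
    rw [uIcc_of_le h2.1, uIcc_of_le hr.le]
    exact Icc_subset_Icc_right h2.2
  have h5 := intervalIntegral.norm_integral_le_of_norm_le h2.1 (Eventually.of_forall h3) h4
  refine h5.trans ?_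
  rw [intervalIntegral.integral_mul_const, Real.norm_of_nonneg (by linarith [h2.1])]
  calc (∫ q in r..r', ‖n q‖) * (C * (r' - r)) = (C * ∫ q in r..r', ‖n q‖) * (r' - r) := by ring
    _ ≤ c * (r' - r) := by
      gcongr
      linarith [h2.1]

private lemma key {k n W Z : ℝ → X} {a b C : ℝ} (hab : a ≤ b) (hk : ContinuousOn k (Icc a b))
    (hn : IntervalIntegrable n volume a b) (hW : ∀ r, HasDerivAt W (- Z r) r)
    (hC : ∀ r, ‖Z r‖ ≤ C)
    (heq : ∀ q, ∀ r1 ∈ Icc a b, ∀ r2 ∈ Icc a b, inner ℝ (k r2) (W q) - inner ℝ (k r1) (W q) =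
      (∫ r in r1..r2, inner ℝ (k r) (Z q)) - ∫ r in r1..r2, inner ℝ (n r) (W q)) :
    inner ℝ (k b) (W b) - inner ℝ (k a) (W a) = - ∫ r in a..b, inner ℝ (n r) (W r) := by
  have hWc : Continuous W := continuous_iff_continuousAt.2 fun r => (hW r).continuousAt
  have hnW := ii_inner hn hWc
  set Ψ : ℝ → ℝ := fun r => inner ℝ (k r) (W r) + ∫ q in a..r, inner ℝ (n q) (W q) with hΨ
  have hΨc : ContinuousOn Ψ (Icc a b) := by
    refine ContinuousOn.add (hk.inner hWc.continuousOn) ?_
    have h1 := intervalIntegral.continuousOn_primitive_interval (μ := volume)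
      (f := fun q => inner ℝ (n q) (W q)) (a := a) (b := b) ?_
    · rwa [uIcc_of_le hab] at h1
    · rw [uIcc_of_le hab]
      rwa [intervalIntegrable_iff_integrableOn_Icc_of_le hab] at hnW
  have hd : ∀ r ∈ Ico a b, HasDerivWithinAt Ψ 0 (Ici r) r := by
    intro r hr
    have hrI : r ∈ Icc a b := ⟨hr.1, hr.2.le⟩
    have hsub : Icc r b ⊆ Icc a b := Icc_subset_Icc_left hr.1
    have hnr : IntervalIntegrable n volume r b := by
      refine hn.mono_set ?_
      rw [uIcc_of_le hr.2.le, uIcc_of_le hab]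
      exact hsub
    have hmem : Icc r b ∈ 𝓝[Ici r] r := Icc_mem_nhdsGE hr.2
    -- the first piece
    have hcw : ContinuousWithinAt (fun q => inner ℝ (k q) (Z r)) (Ioi r) r := by
      have h1 : ContinuousWithinAt k (Ioi r) r :=
        (hk r hrI).mono_of_mem_nhdsWithin
          (mem_of_superset (Ioc_mem_nhdsGT hr.2) (Ioc_subset_Icc_self.trans hsub))
      exact h1.inner continuousWithinAt_const
    have hP : HasDerivWithinAt (fun r' => ∫ q in r..r', inner ℝ (k q) (Z r))
        (inner ℝ (k r) (Z r)) (Ici r) r := by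
      refine intervalIntegral.integral_hasDerivWithinAt_right (s := Ici r) (t := Ioi r) ?_ ?_ hcw
      · exact intervalIntegrable_iff.2 (by simp)
      · refine ⟨Icc r b, mem_of_superset (Ioc_mem_nhdsGT hr.2) Ioc_subset_Icc_self, ?_⟩
        exact ((hk.mono hsub).inner continuousOn_const).aestronglyMeasurable measurableSet_Icc
    -- the second piece
    have hQ : HasDerivWithinAt (fun r' => inner ℝ (k r') (W r' - W r))
        (inner ℝ (k r) (- Z r)) (Icc r b) r := by
      rw [hasDerivWithinAt_iff_tendsto_slope]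
      have h1 : Tendsto (slope W r) (𝓝[Icc r b \ {r}] r) (𝓝 (- Z r)) :=
        (hasDerivWithinAt_iff_tendsto_slope.1 ((hW r).hasDerivWithinAt (s := Icc r b)))
      have h2 : Tendsto k (𝓝[Icc r b \ {r}] r) (𝓝 (k r)) :=
        ((hk r hrI).mono (sdiff_subset.trans hsub)).tendsto
      have h3 := Filter.Tendsto.inner (𝕜 := ℝ) h2 h1
      refine h3.congr fun r' => ?_
      rw [slope_def_module, slope_def_module]
      simp only [sub_self, inner_zero_right, sub_zero, inner_smul_right, smul_eq_mul]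
    have hR := deriv_rem hr.2 hnr hW hC
    have hS : HasDerivWithinAt (fun r' => (∫ q in r..r', inner ℝ (k q) (Z r)) +
        inner ℝ (k r') (W r' - W r) + (∫ q in r..r', inner ℝ (n q) (W q - W r)) +
        (inner ℝ (k r) (W r) + ∫ q in a..r, inner ℝ (n q) (W q)))
        (inner ℝ (k r) (Z r) + inner ℝ (k r) (- Z r) + 0) (Icc r b) r :=
      (((hP.mono Icc_subset_Ici_self).add hQ).add hR).add_const _
    have e0 : inner ℝ (k r) (Z r) + inner ℝ (k r) (- Z r) + 0 = (0 : ℝ) := by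
      rw [inner_neg_right]; ring
    rw [e0] at hS
    refine HasDerivWithinAt.mono_of_mem_nhdsWithin (t := Icc r b) (s := Ici r) ?_ hmem
    refine hS.congr_of_mem (fun r' hr' => ?_) (left_mem_Icc.2 hr.2.le)
    have hr'I : r' ∈ Icc a b := hsub hr'
    have h1 := heq r r hrI r' hr'I
    have i1 : IntervalIntegrable (fun q => inner ℝ (n q) (W q)) volume a r := by
      refine hnW.mono_set ?_
      rw [uIcc_of_le hr.1, uIcc_of_le hab]
      exact Icc_subset_Icc_right hr.2.le
    have i2 : IntervalIntegrable (fun q => inner ℝ (n q) (W q)) volume r r' := by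
      refine hnW.mono_set ?_
      rw [uIcc_of_le hr'.1, uIcc_of_le hab]
      exact Icc_subset_Icc hr.1 hr'.2
    have i3 : IntervalIntegrable (fun q => inner ℝ (n q) (W r)) volume r r' := by
      refine (ii_inner hn continuous_const).mono_set ?_
      rw [uIcc_of_le hr'.1, uIcc_of_le hab]
      exact Icc_subset_Icc hr.1 hr'.2
    have h2 : ∫ q in a..r', inner ℝ (n q) (W q) =
        (∫ q in a..r, inner ℝ (n q) (W q)) + ∫ q in r..r', inner ℝ (n q) (W q) :=
      (intervalIntegral.integral_add_adjacent_intervals i1 i2).symm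
    have h3 : ∫ q in r..r', inner ℝ (n q) (W q - W r) =
        (∫ q in r..r', inner ℝ (n q) (W q)) - ∫ q in r..r', inner ℝ (n q) (W r) := by
      rw [← intervalIntegral.integral_sub i2 i3]
      simp only [inner_sub_right]
    simp only [hΨ]
    rw [h2, h3, inner_sub_right]
    linarith only [h1]
  have h1 := constant_of_has_deriv_right_zero hΨc hd b (right_mem_Icc.2 hab)
  simp only [hΨ, intervalIntegral.integral_same, add_zero] at h1
  linarith only [h1]

end Abstract

/-! ### Test functions -/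

private lemma test_pd {f : E → ℝ} (hf : IsTest f) (i : Fin 5) : IsTest (pd i f) := by
  refine ⟨?_, ?_⟩
  · exact (hf.1.fderiv_right (m := ∞) (by simp)).clm_apply contDiff_const
  · exact hf.2.fderiv_apply ℝ _

private lemma test_lap {f : E → ℝ} (hf : IsTest f) : IsTest (lap f) := by
  refine ⟨?_, ?_⟩
  · unfold lap
    exact ContDiff.sum fun i _ => (test_pd (test_pd hf i) i).1
  · have h1 : lap f = ∑ i, pd i (pd i f) := by
      funext x; simp [lap]
    rw [h1]
    have h2 : ∀ s : Finset (Fin 5), HasCompactSupport (∑ i ∈ s, pd i (pd i f)) := by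
      intro s
      induction s using Finset.induction_on with
      | empty => simpa using (HasCompactSupport.zero : HasCompactSupport (0 : E → ℝ))
      | insert i s hi ih =>
        rw [Finset.sum_insert hi]
        exact (test_pd (test_pd hf i) i).2.add ih
    exact h2 _

/-- Pairs `(w, ∂_p w)` of test elements. -/
private def Y (s : ℝ) (w w' : K) : Prop := ∃ f1 f2 : E → ℝ, IsTest f1 ∧ IsTest f2 ∧ w = Rs s f1 + dRs s f2 ∧
  w' = dRs s f1 + Rs s (lap f2)

private lemma Y_deriv (hGrp1 : Pool.Agent.QWE.St_Grp1) (hFt : St_Ft) {s : ℝ} (hs : |s| < 1 / 2) {w w' : K}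
    (h : Y s w w') : HasDerivAt (fun t => tau t w) (- w') 0 := by
  obtain ⟨f1, f2, h1, h2, rfl, rfl⟩ := h
  have e1 := (deriv_Rs hGrp1 hFt hs (hFt.1 f1 h1)).1.add (deriv_Rs hGrp1 hFt hs (hFt.1 f2 h2)).2
  simp only [map_add]
  refine e1.congr_deriv ?_
  abel

private lemma Y_tau (hGrp1 : Pool.Agent.QWE.St_Grp1) (hFt : St_Ft) {s : ℝ} (hs : |s| < 1 / 2) {w w' : K}
    (h : HasDerivAt (fun t => tau t w) (- w') 0) (τ : ℝ)
    (hτ : ∃ f1 f2 : E → ℝ, IsTest f1 ∧ IsTest f2 ∧ tau τ w = Rs s f1 + dRs s f2) :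
    Y s (tau τ w) (tau τ w') := by
  obtain ⟨f1, f2, h1, h2, h3⟩ := hτ
  refine ⟨f1, f2, h1, h2, h3, ?_⟩
  have e1 : Y s (tau τ w) (dRs s f1 + Rs s (lap f2)) := ⟨f1, f2, h1, h2, h3, rfl⟩
  have e2 := Y_deriv hGrp1 hFt hs e1
  have e3 : (fun t => tau t (tau τ w)) = fun t => tau τ (tau t w) := by
    funext t
    rw [hGrp1.1, hGrp1.1, add_comm]
  rw [e3] at e2
  have e4 := ((tau τ).toContinuousLinearMap.hasFDerivAt (x := tau 0 w)).comp_hasDerivAt 0 h
  have e5 := e4.unique e2
  have e6 : tau τ (- w') = - (dRs s f1 + Rs s (lap f2)) := e5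
  rw [map_neg, neg_inj] at e6
  exact e6

/-! ### The source -/

private lemma sig_lt {b : ℝ} (hb : 2 < b) : |sig b| < 1 / 2 := by
  have h1 : 0 < 2 / b := by positivity
  have h2 : 2 / b < 1 := by rw [div_lt_one (by linarith)]; exact hb
  rw [sig, abs_lt]
  constructor <;> linarith

private lemma sn_fin (hMeas : St_Meas) {b : ℝ} (hb : 2 < b) {k : ℝ → K} {x y : ℝ} (hk : ContinuousOn k (Icc x y))
    (hS : SN b (Icc x y) k < ⊤) : ∀ᵐ r ∂(volume.restrict (Icc x y)), sn b (k r) < ⊤ := by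
  have hkm : AEStronglyMeasurable k (volume.restrict (Icc x y)) :=
    hk.aestronglyMeasurable measurableSet_Icc
  have h1 := (hMeas b hb k (Icc x y) measurableSet_Icc hkm).1
  have h2 : AEMeasurable (fun r => sn b (k r) ^ b) (volume.restrict (Icc x y)) := h1.pow_const b
  have h3 := ae_lt_top' h2 hS.ne
  filter_upwards [h3] with r hr
  by_contra h
  rw [not_lt, top_le_iff] at h
  rw [h, ENNReal.top_rpow_of_pos (by linarith)] at hr
  exact lt_irrefl _ hr

private lemma NL_int (hMeas : St_Meas) (hNLb : St_NLb) {b : ℝ} (hb : 2 < b) {k : ℝ → K} {x y : ℝ}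
    (hk : ContinuousOn k (Icc x y)) (hS : SN b (Icc x y) k < ⊤) :
    IntegrableOn (fun r => NL b (k r)) (Icc x y) volume := by
  have hkm : AEStronglyMeasurable k (volume.restrict (Icc x y)) :=
    hk.aestronglyMeasurable measurableSet_Icc
  have hfin := sn_fin hMeas hb hk hS
  have hm := (hMeas b hb k (Icc x y) measurableSet_Icc hkm).2.2 hfin
  obtain ⟨⟨C, hC, hbd, -⟩, -⟩ := hNLb b hb
  obtain ⟨B, hB⟩ := isCompact_Icc.exists_bound_of_continuousOn hk
  refine ⟨hm, ?_⟩
  rw [hasFiniteIntegral_iff_enorm]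
  calc ∫⁻ r in Icc x y, ‖NL b (k r)‖ₑ
      ≤ ∫⁻ r in Icc x y, (ENNReal.ofReal C * ENNReal.ofReal B) * sn b (k r) ^ b := by
        refine lintegral_mono_ae ((ae_restrict_iff' measurableSet_Icc).2
          (Eventually.of_forall fun r hr => ?_))
        refine (hbd (k r)).trans ?_
        have h1 : ‖k r‖ₑ ≤ ENNReal.ofReal B := by
          rw [← ofReal_norm]
          exact ENNReal.ofReal_le_ofReal (hB r hr)
        calc ENNReal.ofReal C * sn b (k r) ^ b * ‖k r‖ₑ
            ≤ ENNReal.ofReal C * sn b (k r) ^ b * ENNReal.ofReal B := by gcongr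
          _ = (ENNReal.ofReal C * ENNReal.ofReal B) * sn b (k r) ^ b := by ring
    _ = (ENNReal.ofReal C * ENNReal.ofReal B) * ∫⁻ r in Icc x y, sn b (k r) ^ b := by
        rw [lintegral_const_mul']
        exact ENNReal.mul_ne_top ENNReal.ofReal_ne_top ENNReal.ofReal_ne_top
    _ < ⊤ := ENNReal.mul_lt_top (ENNReal.mul_lt_top ENNReal.ofReal_lt_top ENNReal.ofReal_lt_top) hS

private lemma NL_ii (hMeas : St_Meas) (hNLb : St_NLb) {b : ℝ} (hb : 2 < b) {I : Set ℝ} (hI : I.OrdConnected)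
    {k : ℝ → K} (hk : ContinuousOn k I) (hS : ∀ x ∈ I, ∀ y ∈ I, SN b (Icc x y) k < ⊤) {x y : ℝ}
    (hx : x ∈ I) (hy : y ∈ I) : IntervalIntegrable (fun r => NL b (k r)) volume x y := by
  rcases le_total x y with h | h
  · rw [intervalIntegrable_iff_integrableOn_Icc_of_le h]
    exact NL_int hMeas hNLb hb (hk.mono (hI.out hx hy)) (hS x hx y hy)
  · refine IntervalIntegrable.symm ?_
    rw [intervalIntegrable_iff_integrableOn_Icc_of_le h]
    exact NL_int hMeas hNLb hb (hk.mono (hI.out hy hx)) (hS y hy x hx)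

private lemma sn_fin_uIoc (hMeas : St_Meas) {b : ℝ} (hb : 2 < b) {I : Set ℝ} (hI : I.OrdConnected)
    {k : ℝ → K} (hk : ContinuousOn k I) (hS : ∀ x ∈ I, ∀ y ∈ I, SN b (Icc x y) k < ⊤) {x y : ℝ}
    (hx : x ∈ I) (hy : y ∈ I) : ∀ᵐ r : ℝ, r ∈ uIoc x y → sn b (k r) < ⊤ := by
  have hmin : min x y ∈ I := by rcases min_choice x y with h | h <;> rw [h] <;> assumption
  have hmax : max x y ∈ I := by rcases max_choice x y with h | h <;> rw [h] <;> assumption
  have h1 := sn_fin hMeas hb (hk.mono (hI.out hmin hmax)) (hS _ hmin _ hmax)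
  rw [ae_restrict_iff' measurableSet_Icc] at h1
  filter_upwards [h1] with r hr h2
  exact hr (uIoc_subset_uIcc h2)

/-! ### The weak equation, tested with pairs -/

private lemma q0_ge {s : ℝ} (hs : |s| < 1 / 2) : 1 ≤ q0 s := by
  rw [q0, ← ENNReal.ofReal_one]
  refine ENNReal.ofReal_le_ofReal ?_
  have h := abs_lt.1 hs
  rw [le_div_iff₀ (by linarith)]
  linarith

private lemma q1_ge {s : ℝ} (hs : |s| < 1 / 2) : 1 ≤ q1 s := by
  rw [q1, ← ENNReal.ofReal_one]
  refine ENNReal.ofReal_le_ofReal ?_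
  have h := abs_lt.1 hs
  rw [le_div_iff₀ (by linarith)]
  linarith

private lemma test_second (hFldP : St_FldP) (hNLb : St_NLb) {b : ℝ} (hb : 2 < b) {κ : K}
    (hκ : sn b κ < ⊤) {u : E → ℝ} (hu : U (sig b) κ =ᵐ[volume] u) {φ : E → ℝ} (hφ : IsTest φ) :
    ∫ x, (u x * lap φ x - |u x| ^ b * u x * φ x) =
      inner ℝ κ (Rs (sig b) (lap φ)) - inner ℝ (NL b κ) (dRs (sig b) φ) := by
  have hl := test_lap hφ
  obtain ⟨h2, hG, -⟩ := (hNLb b hb).2 κ hκ
  obtain ⟨C, -, hF, -⟩ := hFldP (sig b) (sig_lt hb)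
  have hU := (hF κ).1
  have i1 : Integrable (fun x => U (sig b) κ x * lap φ x) := by
    have := (hU.1.locallyIntegrable (q0_ge (sig_lt hb))).integrable_smul_right_of_hasCompactSupport
      hl.1.continuous hl.2
    simpa [smul_eq_mul, mul_comm] using this
  have i2 : Integrable (fun x => Fn b (U (sig b) κ x) * φ x) := by
    have := (h2.locallyIntegrable (q1_ge (sig_lt hb))).integrable_smul_right_of_hasCompactSupport
      hφ.1.continuous hφ.2
    simpa [smul_eq_mul, mul_comm] using this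
  rw [← hU.2 (lap φ) hl, (hG φ hφ).2, ← integral_sub i1 i2]
  refine integral_congr_ae ?_
  filter_upwards [hu] with x hx
  rw [hx, Fn]

private lemma weak (hFldP : St_FldP) (hMeas : St_Meas) (hNLb : St_NLb) {b : ℝ} (hb : 2 < b)
    {I : Set ℝ} {u v : ℝ → E → ℝ} (hs : IsSoln b I u v) {k : ℝ → K} (hk : ContinuousOn k I)
    (hS : ∀ x ∈ I, ∀ y ∈ I, SN b (Icc x y) k < ⊤)
    (huv : ∀ t ∈ I, (U (sig b) (k t) =ᵐ[volume] u t) ∧ (V (sig b) (k t) =ᵐ[volume] v t)) {w w' : K}
    (hw : Y (sig b) w w') {x y : ℝ} (ha : x ∈ I) (hb' : y ∈ I) :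
    inner ℝ (k y) w - inner ℝ (k x) w =
      (∫ r in x..y, inner ℝ (k r) w') - ∫ r in x..y, inner ℝ (NL b (k r)) w := by
  obtain ⟨f1, f2, h1, h2, rfl, rfl⟩ := hw
  obtain ⟨hI, -, -, -, hweak⟩ := hs
  obtain ⟨C, -, hF, -⟩ := hFldP (sig b) (sig_lt hb)
  have hsub : uIcc x y ⊆ I := hI.uIcc_subset ha hb'
  have pu : ∀ t ∈ I, ∀ φ, IsTest φ → ∫ x, u t x * φ x = inner ℝ (k t) (Rs (sig b) φ) := by
    intro t ht φ hφ
    rw [← (hF (k t)).1.2 φ hφ]
    refine integral_congr_ae ?_
    filter_upwards [(huv t ht).1] with x hx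
    rw [hx]
  have pv : ∀ t ∈ I, ∀ φ, IsTest φ → ∫ x, v t x * φ x = inner ℝ (k t) (dRs (sig b) φ) := by
    intro t ht φ hφ
    rw [← (hF (k t)).2.2.1.2 φ hφ]
    refine integral_congr_ae ?_
    filter_upwards [(huv t ht).2] with x hx
    rw [hx]
  have hfin := sn_fin_uIoc hMeas hb hI hk hS ha hb'
  have hii : ∀ c : K, IntervalIntegrable (fun r => inner ℝ (k r) c) volume x y := fun c =>
    ((hk.mono hsub).inner continuousOn_const).intervalIntegrable
  have hin : ∀ c : K, IntervalIntegrable (fun r => inner ℝ (NL b (k r)) c) volume x y := fun c =>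
    ii_inner (NL_ii hMeas hNLb hb hI hk hS ha hb') continuous_const
  have q1 := (hweak f1 h1 x ha y hb').1
  rw [pu y hb' f1 h1, pu x ha f1 h1] at q1
  have e1 : ∫ r in x..y, ∫ x, v r x * f1 x = ∫ r in x..y, inner ℝ (k r) (dRs (sig b) f1) :=
    intervalIntegral.integral_congr fun r hr => pv r (hsub hr) f1 h1
  rw [e1] at q1
  have q2 := (hweak f2 h2 x ha y hb').2
  rw [pv y hb' f2 h2, pv x ha f2 h2] at q2
  have e2 : ∫ r in x..y, ∫ x, (u r x * lap f2 x - |u r x| ^ b * u r x * f2 x) =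
      ∫ r in x..y, (inner ℝ (k r) (Rs (sig b) (lap f2)) - inner ℝ (NL b (k r)) (dRs (sig b) f2)) := by
    refine intervalIntegral.integral_congr_ae ?_
    filter_upwards [hfin] with r hr hr'
    exact test_second hFldP hNLb hb (hr hr') (huv r (hsub (uIoc_subset_uIcc hr'))).1 h2
  rw [e2, intervalIntegral.integral_sub (hii _) (hin _)] at q2
  have e3 : ∫ r in x..y, inner ℝ (NL b (k r)) (Rs (sig b) f1 + dRs (sig b) f2) =
      ∫ r in x..y, inner ℝ (NL b (k r)) (dRs (sig b) f2) := by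
    refine intervalIntegral.integral_congr_ae ?_
    filter_upwards [hfin] with r hr hr'
    rw [inner_add_right]
    have := (((hNLb b hb).2 (k r) (hr hr')).2.1 f1 h1).1
    rw [this, zero_add]
  have e4 : ∫ r in x..y, inner ℝ (k r) (dRs (sig b) f1 + Rs (sig b) (lap f2)) =
      (∫ r in x..y, inner ℝ (k r) (dRs (sig b) f1)) + ∫ r in x..y, inner ℝ (k r) (Rs (sig b) (lap f2)) := by
    rw [← intervalIntegral.integral_add (hii _) (hii _)]
    simp only [inner_add_right]
  rw [e3, e4, inner_add_right, inner_add_right]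
  linarith only [q1, q2]

/-! ### The Duhamel formula -/

private lemma tau_joint (hGrp1 : Pool.Agent.QWE.St_Grp1) : Continuous fun q : ℝ × K => tau q.1 q.2 := by
  rw [continuous_iff_continuousAt]
  rintro ⟨t0, k0⟩
  rw [ContinuousAt, tendsto_iff_norm_sub_tendsto_zero]
  have h1 : Tendsto (fun q : ℝ × K => ‖q.2 - k0‖ + ‖tau q.1 k0 - tau t0 k0‖) (𝓝 (t0, k0)) (𝓝 0) := by
    have hc : Continuous fun q : ℝ × K => ‖q.2 - k0‖ + ‖tau q.1 k0 - tau t0 k0‖ :=
      ((continuous_snd.sub continuous_const).norm).add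
        ((((hGrp1.2.2.2.2.2.2.2.1 k0).comp continuous_fst).sub continuous_const).norm)
    simpa using hc.tendsto (t0, k0)
  refine squeeze_zero (fun _ => norm_nonneg _) (fun q => ?_) h1
  have e1 : tau q.1 q.2 - tau t0 k0 = tau q.1 (q.2 - k0) + (tau q.1 k0 - tau t0 k0) := by
    rw [map_sub]; abel
  rw [e1]
  refine (norm_add_le _ _).trans ?_
  rw [LinearIsometry.norm_map]

private lemma duh_ii (hGrp1 : Pool.Agent.QWE.St_Grp1) {n : ℝ → K} {a b : ℝ} (hn : IntervalIntegrable n volume a b)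
    (t : ℝ) : IntervalIntegrable (fun r => tau (t - r) (n r)) volume a b := by
  rw [intervalIntegrable_iff] at hn ⊢
  refine hn.norm.mono' ?_ (Eventually.of_forall fun r => ?_)
  · have h1 : AEStronglyMeasurable (fun r : ℝ => (t - r, n r)) (volume.restrict (uIoc a b)) :=
      (Continuous.aestronglyMeasurable (by fun_prop)).prodMk hn.aestronglyMeasurable
    have h2 := Continuous.comp_aestronglyMeasurable (g := fun q : ℝ × K => tau q.1 q.2)
      (f := fun r : ℝ => (t - r, n r)) (tau_joint hGrp1) h1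
    simpa only [Function.comp_def] using h2
  · rw [LinearIsometry.norm_map]

/-- Duhamel formula tested with `w`. -/
private lemma duh_test (hGrp1 : Pool.Agent.QWE.St_Grp1) (hFt : St_Ft) (hFldP : St_FldP)
    (hMeas : St_Meas) (hNLb : St_NLb) {b : ℝ} (hb : 2 < b)
    {I : Set ℝ} {u v : ℝ → E → ℝ} (hs : IsSoln b I u v) {k : ℝ → K} (hk : ContinuousOn k I)
    (hS : ∀ x ∈ I, ∀ y ∈ I, SN b (Icc x y) k < ⊤)
    (huv : ∀ t ∈ I, (U (sig b) (k t) =ᵐ[volume] u t) ∧ (V (sig b) (k t) =ᵐ[volume] v t)) {w w' : K}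
    (hw : HasDerivAt (fun t => tau t w) (- w') 0)
    (hτ : ∀ τ, ∃ f1 f2 : E → ℝ, IsTest f1 ∧ IsTest f2 ∧ tau τ w = Rs (sig b) f1 + dRs (sig b) f2)
    {s t : ℝ} (hs' : s ∈ I) (ht : t ∈ I) :
    inner ℝ (k t - (tau (t - s) (k s) - ∫ r in s..t, tau (t - r) (NL b (k r)))) w = 0 := by
  have hI := hs.1
  have main : ∀ x ∈ I, ∀ y ∈ I, x ≤ y → inner ℝ (k y) (tau (y - t) w) -
      inner ℝ (k x) (tau (x - t) w) = - ∫ r in x..y, inner ℝ (NL b (k r)) (tau (r - t) w) := by
    intro x ha y hb' hab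
    have hsub : Icc x y ⊆ I := hI.out ha hb'
    refine key (C := ‖w'‖) (W := fun r => tau (r - t) w) (Z := fun r => tau (r - t) w') hab
      (hk.mono hsub) (NL_ii hMeas hNLb hb hI hk hS ha hb') (fun r => deriv_tau hGrp1 hw t r)
      (fun r => by rw [LinearIsometry.norm_map]) ?_
    intro q r1 h1 r2 h2
    exact weak hFldP hMeas hNLb hb hs hk hS huv (Y_tau hGrp1 hFt (sig_lt hb) hw _ (hτ _)) (hsub h1)
      (hsub h2)
  have main2 : inner ℝ (k t) (tau (t - t) w) - inner ℝ (k s) (tau (s - t) w) =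
      - ∫ r in s..t, inner ℝ (NL b (k r)) (tau (r - t) w) := by
    rcases le_total s t with h | h
    · exact main s hs' t ht h
    · have h1 := main t ht s hs' h
      rw [intervalIntegral.integral_symm] at h1
      linarith only [h1]
  rw [sub_self, hGrp1.2.1] at main2
  have hadj : ∀ (τ : ℝ) (x y : K), inner ℝ (tau τ x) y = inner ℝ x (tau (-τ) y) :=
    hGrp1.2.2.2.2.2.1
  have hint : inner ℝ (∫ r in s..t, tau (t - r) (NL b (k r))) w =
      ∫ r in s..t, inner ℝ (NL b (k r)) (tau (r - t) w) := by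
    have hii := duh_ii hGrp1 (NL_ii hMeas hNLb hb hI hk hS hs' ht) t
    have h1 := (innerSL ℝ w).intervalIntegral_comp_comm hii
    rw [real_inner_comm]
    have h2 : innerSL ℝ w (∫ r in s..t, tau (t - r) (NL b (k r))) =
        inner ℝ w (∫ r in s..t, tau (t - r) (NL b (k r))) := rfl
    rw [← h2, ← h1]
    refine intervalIntegral.integral_congr fun r _ => ?_
    change inner ℝ w (tau (t - r) (NL b (k r))) = _
    rw [real_inner_comm, hadj, neg_sub]
  rw [inner_sub_left, inner_sub_left, hint, hadj, neg_sub]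
  linarith only [main2]

private lemma eq_zero_of_test (hDnsP : St_DnsP) {s : ℝ} (hs : |s| < 1 / 2) {x : K}
    (h : ∀ φ, IsTest φ → inner ℝ x (Rs s φ) = 0 ∧ inner ℝ x (dRs s φ) = 0) : x = 0 := by
  have h1 : x ∈ (TS s univ)ᗮ := by
    unfold TS
    rw [Submodule.orthogonal_closure, Submodule.mem_orthogonal']
    intro w hw
    induction hw using Submodule.span_induction with
    | mem w hw =>
      obtain ⟨φ, hφ, -, hw⟩ := hw
      rcases hw with rfl | rfl
      · exact (h φ hφ).1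
      · exact (h φ hφ).2
    | zero => exact inner_zero_right _
    | add a b _ _ ha hb => rw [inner_add_right, ha, hb, add_zero]
    | smul c a _ ha => rw [inner_smul_right, ha, mul_zero]
  rw [(hDnsP s hs).1, Submodule.top_orthogonal_eq_bot, Submodule.mem_bot] at h1
  exact h1

end Br2x

open Br2x in
/-- **Br2** (a weak solution is a Duhamel solution). -/
theorem thm_Br2 (hGrp1 : Pool.Agent.QWE.St_Grp1) (hFt : St_Ft) (hDnsP : St_DnsP) (hFldP : St_FldP)
    (hFreeP : St_FreeP) (hNLb : St_NLb) (hMeas : St_Meas) (hBr1 : St_Br1) : St_Br2 := by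
  intro b hb I u v hs
  classical
  have hsb := sig_lt hb
  obtain ⟨c, C, hc, hC, hex, heq, -⟩ := hBr1 b hb
  obtain ⟨C', -, -, hLin, -⟩ := hFldP (sig b) hsb
  obtain ⟨hI, hHN, hcont, hL20, -⟩ := id hs
  have hch : ∀ t, ∃ κ : K, t ∈ I → (U (sig b) κ =ᵐ[volume] u t) ∧ (V (sig b) κ =ᵐ[volume] v t) := by
    intro t
    by_cases ht : t ∈ I
    · obtain ⟨κ, h1, h2⟩ := hex _ _ (hHN t ht)
      exact ⟨κ, fun _ => ⟨h1, h2⟩⟩
    · exact ⟨0, fun h => absurd h ht⟩
  choose k huv using hch
  have hk : ContinuousOn k I := by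
    intro t ht
    have h1 := hcont t ht
    have h2 : ∀ s ∈ I, ENNReal.ofReal c * ‖k s - k t‖ₑ ≤
        HN b (fun x => u s x - u t x) (fun x => v s x - v t x) := by
      intro s hs'
      refine (heq _ _ (k s - k t) ?_ ?_).2
      · have h3 := (hLin (-1) (k s) (k t)).1
        rw [neg_one_smul, ← sub_eq_add_neg] at h3
        filter_upwards [h3, (huv s hs').1, (huv t ht).1] with x x1 x2 x3
        rw [x1, x2, x3]; ring
      · have h3 := (hLin (-1) (k s) (k t)).2.1
        rw [neg_one_smul, ← sub_eq_add_neg] at h3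
        filter_upwards [h3, (huv s hs').2, (huv t ht).2] with x x1 x2 x3
        rw [x1, x2, x3]; ring
    have h3 : Tendsto (fun s => ‖k s - k t‖ₑ) (𝓝[I] t) (𝓝 0) := by
      have h4 : Tendsto (fun s => (ENNReal.ofReal c)⁻¹ *
          HN b (fun x => u s x - u t x) (fun x => v s x - v t x)) (𝓝[I] t) (𝓝 0) := by
        have := ENNReal.Tendsto.const_mul (a := (ENNReal.ofReal c)⁻¹) h1
          (Or.inr (ENNReal.inv_ne_top.2 (ENNReal.ofReal_pos.2 hc).ne'))
        simpa using this
      refine tendsto_of_tendsto_of_tendsto_of_le_of_le' tendsto_const_nhds h4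
        (Eventually.of_forall fun _ => bot_le) ?_
      filter_upwards [self_mem_nhdsWithin] with s hs'
      rw [← ENNReal.mul_le_mul_iff_right (ENNReal.ofReal_pos.2 hc).ne' ENNReal.ofReal_ne_top,
        ← mul_assoc, ENNReal.mul_inv_cancel (ENNReal.ofReal_pos.2 hc).ne' ENNReal.ofReal_ne_top,
        one_mul]
      exact h2 s hs'
    rw [ContinuousWithinAt, tendsto_iff_edist_tendsto_0]
    simpa [edist_eq_enorm_sub] using h3
  have hS : ∀ x ∈ I, ∀ y ∈ I, SN b (Icc x y) k < ⊤ := by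
    intro x ha y hb'
    have h1 : SN b (Icc x y) k = ∫⁻ t in Icc x y, eLpNorm (u t) (ENNReal.ofReal (5 * b)) volume ^ b := by
      unfold SN
      refine setLIntegral_congr_fun measurableSet_Icc fun t ht => ?_
      have := eLpNorm_congr_ae (p := ENNReal.ofReal (5 * b)) (huv t (hI.out ha hb' ht)).1
      simp only [sn, this]
    rw [h1]
    exact hL20 x ha y hb'
  refine ⟨k, ⟨hI, hk, hS, fun s hs' t ht => ?_⟩, fun t ht => huv t ht⟩
  rw [← sub_eq_zero]
  refine eq_zero_of_test hDnsP hsb fun φ hφ => ⟨?_, ?_⟩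
  · refine duh_test hGrp1 hFt hFldP hMeas hNLb hb hs hk hS huv (deriv_Rs hGrp1 hFt hsb (hFt.1 φ hφ)).1 ?_
      hs' ht
    intro τ
    obtain ⟨-, ⟨f1, f2, h1, h2, h3, -⟩, -⟩ := hFreeP (sig b) φ φ τ hsb hφ hφ
    exact ⟨f1, f2, h1, h2, h3⟩
  · refine duh_test hGrp1 hFt hFldP hMeas hNLb hb hs hk hS huv (deriv_Rs hGrp1 hFt hsb (hFt.1 φ hφ)).2 ?_
      hs' ht
    intro τ
    obtain ⟨-, -, ⟨f1, f2, h1, h2, h3, -⟩⟩ := hFreeP (sig b) φ φ τ hsb hφ hφ
    exact ⟨f1, f2, h1, h2, h3⟩

end Pool.Agent.QWP
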