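import Pool.Agent.QWP.StA

set_option autoImplicit false

/-!
# QWP, Par: Parseval for the test states
-/

open MeasureTheory Filter Topology Set
open scoped ENNReal NNReal RealInnerProductSpace

namespace Pool.Agent.QWP

open Pool.Agent.QWE (E S sg mu K toK tau sh dl rev gr ig IsTest pd lap Rad dRad Rk dRk c0 WD Sm SmE IsSch half shr WTo)

namespace Parx

/-! ### One dimensional Parseval for functions in `L¹ ∩ L²` -/

section OneD

open scoped FourierTransform SchwartzMap ContDiff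

lemma continuous_fourier {g : ℝ → ℂ} (h1 : Integrable g) : Continuous (𝓕 g : ℝ → ℂ) :=
  VectorFourier.fourierIntegral_continuous (L := innerₗ ℝ) Real.continuous_fourierChar
    continuous_inner h1

lemma self_adjoint (Φ : 𝓢(ℝ, ℂ)) {g : ℝ → ℂ} (h1 : Integrable g) :
    ∫ ξ, (𝓕 Φ : 𝓢(ℝ, ℂ)) ξ • g ξ = ∫ x, Φ x • (𝓕 g : ℝ → ℂ) x := by
  have h := VectorFourier.integral_fourierIntegral_smul_eq_flip (L := innerₗ ℝ)
    (f := (Φ : ℝ → ℂ)) (g := g) (μ := (volume : Measure ℝ)) (ν := (volume : Measure ℝ))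
    Real.continuous_fourierChar continuous_inner (Φ.integrable (μ := (volume : Measure ℝ))) h1
  simpa using! h

lemma fourier_ae_eq {g : ℝ → ℂ} (h1 : Integrable g) (h2 : MemLp g 2 volume) :
    (𝓕 g : ℝ → ℂ) =ᵐ[volume] (𝓕 (h2.toLp g) : Lp ℂ 2 (volume : Measure ℝ)) := by
  apply ae_eq_of_integral_contDiff_smul_eq
  · exact (continuous_fourier h1).locallyIntegrable
  · exact (Lp.memLp _).locallyIntegrable (by norm_num)
  · intro φ hφ hc
    have hg₁ : HasCompactSupport (Complex.ofRealCLM ∘ φ) := hc.comp_left rfl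
    have hg₂ : ContDiff ℝ ∞ (Complex.ofRealCLM ∘ φ) := by fun_prop
    set Φ : 𝓢(ℝ, ℂ) := hg₁.toSchwartzMap hg₂ with hΦ
    have e1 : ∀ x, Φ x = (φ x : ℂ) := fun x => by simp [hΦ]
    have e2 : ∀ (x : ℝ) (y : ℂ), φ x • y = Φ x • y := by
      intro x y
      rw [e1]
      exact (Complex.coe_smul (φ x) y).symm
    simp only [e2]
    rw [← self_adjoint Φ h1]
    have e3 := Lp.fourier_toTemperedDistribution_eq (h2.toLp g)
    have e4 := DFunLike.congr_fun e3 Φ
    rw [TemperedDistribution.fourier_apply, Lp.toTemperedDistribution_apply,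
      Lp.toTemperedDistribution_apply] at e4
    rw [← e4]
    apply integral_congr_ae
    filter_upwards [h2.coeFn_toLp] with x hx
    rw [hx]

/-- The inverse Fourier integral in one variable. -/
noncomputable def inv1 (a : ℝ → ℂ) (p : ℝ) : ℂ :=
  ∫ r : ℝ, a r * Complex.exp (2 * Real.pi * Complex.I * ((r * p : ℝ) : ℂ))

lemma inv1_eq (a : ℝ → ℂ) (p : ℝ) : inv1 a p = (𝓕 a : ℝ → ℂ) (-p) := by
  rw [Real.fourier_real_eq_integral_exp_smul, inv1]
  refine integral_congr_ae (Eventually.of_forall fun r => ?_)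
  simp only [smul_eq_mul]
  rw [mul_comm]
  congr 2
  push_cast
  ring

lemma inv1_cont {a : ℝ → ℂ} (h1 : Integrable a) : Continuous (inv1 a) := by
  have : inv1 a = fun p => (𝓕 a : ℝ → ℂ) (-p) := funext (inv1_eq a)
  rw [this]
  exact (continuous_fourier h1).comp continuous_neg

lemma memLp_fourier {a : ℝ → ℂ} (h1 : Integrable a) (h2 : MemLp a 2 volume) :
    MemLp (𝓕 a : ℝ → ℂ) 2 volume :=
  (memLp_congr_ae (fourier_ae_eq h1 h2)).2 (Lp.memLp _)

lemma eLp_fourier {a : ℝ → ℂ} (h1 : Integrable a) (h2 : MemLp a 2 volume) :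
    eLpNorm (𝓕 a : ℝ → ℂ) 2 volume = eLpNorm a 2 volume := by
  rw [eLpNorm_congr_ae (fourier_ae_eq h1 h2), ← eLpNorm_congr_ae h2.coeFn_toLp]
  have h3 := Lp.norm_fourier_eq (h2.toLp a)
  rw [Lp.norm_def, Lp.norm_def] at h3
  exact (ENNReal.toReal_eq_toReal_iff' (Lp.eLpNorm_ne_top _) (Lp.eLpNorm_ne_top _)).1 h3

lemma inv1_memLp {a : ℝ → ℂ} (h1 : Integrable a) (h2 : MemLp a 2 volume) :
    MemLp (inv1 a) 2 volume := by
  have : inv1 a = fun p => (𝓕 a : ℝ → ℂ) (-p) := funext (inv1_eq a)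
  rw [this]
  exact (memLp_fourier h1 h2).comp_measurePreserving (Measure.measurePreserving_neg volume)

lemma inv1_eLp {a : ℝ → ℂ} (h1 : Integrable a) (h2 : MemLp a 2 volume) :
    eLpNorm (inv1 a) 2 volume = eLpNorm a 2 volume := by
  have : inv1 a = (𝓕 a : ℝ → ℂ) ∘ fun p => -p := funext (inv1_eq a)
  rw [this, eLpNorm_comp_measurePreserving (memLp_fourier h1 h2).1
    (Measure.measurePreserving_neg volume), eLp_fourier h1 h2]

lemma parseval1 {a b : ℝ → ℂ} (h1 : Integrable a) (h2 : MemLp a 2 volume) (h3 : Integrable b)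
    (h4 : MemLp b 2 volume) :
    ∫ p, inv1 a p * (starRingEnd ℂ) (inv1 b p) = ∫ r, a r * (starRingEnd ℂ) (b r) := by
  simp only [inv1_eq]
  rw [integral_neg_eq_self (fun p : ℝ => (𝓕 a : ℝ → ℂ) p * (starRingEnd ℂ) ((𝓕 b : ℝ → ℂ) p)) volume]
  have e := Lp.inner_fourier_eq (h4.toLp b) (h2.toLp a)
  rw [L2.inner_def, L2.inner_def] at e
  have e1 : ∫ x, inner ℂ ((𝓕 (h4.toLp b) : Lp ℂ 2 (volume : Measure ℝ)) x)
      ((𝓕 (h2.toLp a) : Lp ℂ 2 (volume : Measure ℝ)) x) =
      ∫ p : ℝ, (𝓕 a : ℝ → ℂ) p * (starRingEnd ℂ) ((𝓕 b : ℝ → ℂ) p) := by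
    refine integral_congr_ae ?_
    filter_upwards [fourier_ae_eq h1 h2, fourier_ae_eq h3 h4] with x hx hy
    rw [hx, hy, RCLike.inner_apply]
  have e2 : ∫ x, inner ℂ ((h4.toLp b : Lp ℂ 2 (volume : Measure ℝ)) x)
      ((h2.toLp a : Lp ℂ 2 (volume : Measure ℝ)) x) =
      ∫ r, a r * (starRingEnd ℂ) (b r) := by
    refine integral_congr_ae ?_
    filter_upwards [h2.coeFn_toLp, h4.coeFn_toLp] with x hx hy
    rw [hx, hy, RCLike.inner_apply]
  rw [← e1, ← e2]
  exact e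

end OneD

/-! ### Functions on `S × ℝ` -/

/-- Inverse Fourier integral in the second variable. -/
noncomputable def IF (A : S × ℝ → ℂ) (z : S × ℝ) : ℂ :=
  ∫ r : ℝ, A (z.1, r) * Complex.exp (2 * Real.pi * Complex.I * ((r * z.2 : ℝ) : ℂ))

/-- Admissible amplitudes. -/
structure Good (A : S × ℝ → ℂ) (a : ℝ → ℝ) : Prop where
  meas : Measurable A
  le : ∀ w r, ‖A (w, r)‖ ≤ a r
  int : Integrable a
  sq : MemLp a 2 volume
  cont : ∀ r, Continuous fun w : S => A (w, r)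
  herm : ∀ w r, A (w, -r) = (starRingEnd ℂ) (A (w, r))

variable {A B : S × ℝ → ℂ} {a b : ℝ → ℝ}

lemma Good.meas1 (h : Good A a) (w : S) : Measurable fun r => A (w, r) :=
  h.meas.comp measurable_prodMk_left

lemma Good.int1 (h : Good A a) (w : S) : Integrable fun r => A (w, r) :=
  h.int.mono' (h.meas1 w).aestronglyMeasurable (Eventually.of_forall fun r => h.le w r)

lemma Good.nonneg (h : Good A a) (r : ℝ) : 0 ≤ a r := by
  have w : S := ⟨EuclideanSpace.single 0 1, by simp⟩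
  exact (norm_nonneg _).trans (h.le w r)

lemma Good.sq1 (h : Good A a) (w : S) : MemLp (fun r => A (w, r)) 2 volume :=
  h.sq.mono (h.meas1 w).aestronglyMeasurable (Eventually.of_forall fun r => by
    rw [Real.norm_eq_abs, abs_of_nonneg (h.nonneg r)]; exact h.le w r)

lemma IF_eq (A : S × ℝ → ℂ) (w : S) (p : ℝ) : IF A (w, p) = inv1 (fun r => A (w, r)) p := rfl

lemma norm_char (x : ℝ) : ‖Complex.exp (2 * Real.pi * Complex.I * (x : ℂ))‖ = 1 := by
  have : 2 * Real.pi * Complex.I * (x : ℂ) = ((2 * Real.pi * x : ℝ) : ℂ) * Complex.I := by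
    push_cast; ring
  rw [this, Complex.norm_exp_ofReal_mul_I]

lemma norm_char' (x : ℝ) : ‖Complex.exp (-2 * Real.pi * Complex.I * (x : ℂ))‖ = 1 := by
  have : -2 * Real.pi * Complex.I * (x : ℂ) = ((-2 * Real.pi * x : ℝ) : ℂ) * Complex.I := by
    push_cast; ring
  rw [this, Complex.norm_exp_ofReal_mul_I]

lemma Good.cont_IF (h : Good A a) : Continuous (IF A) := by
  unfold IF
  refine continuous_of_dominated (bound := a) ?_ ?_ h.int ?_
  · intro z
    refine ((h.meas1 z.1).aestronglyMeasurable).mul (Continuous.aestronglyMeasurable ?_)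
    fun_prop
  · intro z
    refine Eventually.of_forall fun r => ?_
    rw [norm_mul, norm_char, mul_one]
    exact h.le z.1 r
  · refine Eventually.of_forall fun r => ?_
    refine ((h.cont r).comp continuous_fst).mul ?_
    fun_prop

lemma Good.real (h : Good A a) (z : S × ℝ) : (((IF A z).re : ℝ) : ℂ) = IF A z := by
  rw [← Complex.conj_eq_iff_re]
  unfold IF
  rw [← integral_conj, ← integral_neg_eq_self]
  refine integral_congr_ae (Eventually.of_forall fun r => ?_)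
  simp only [map_mul, h.herm, Complex.conj_conj, ← Complex.exp_conj, Complex.conj_ofReal,
    Complex.conj_I, map_ofNat]
  congr 2
  push_cast
  ring

lemma lin_sq {α : Type*} [MeasurableSpace α] {μ : Measure α} (f : α → ℂ) :
    ∫⁻ x, ‖f x‖ₑ ^ 2 ∂μ = eLpNorm f 2 μ ^ 2 := by
  have h := eLpNorm_nnreal_pow_eq_lintegral (f := f) (μ := μ) (p := 2) (by norm_num)
  have c1 : ((2 : ℝ≥0) : ℝ≥0∞) = 2 := by norm_num
  have c2 : ((2 : ℝ≥0) : ℝ) = 2 := by norm_num
  rw [c1, c2] at h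
  simp only [ENNReal.rpow_two] at h
  exact h.symm

lemma Good.memLp_IF (h : Good A a) : MemLp (IF A) 2 mu := by
  refine ⟨h.cont_IF.aestronglyMeasurable, ?_⟩
  have h1 : eLpNorm (IF A) 2 mu ^ 2 < ⊤ := by
    rw [← lin_sq, lintegral_prod _ (by
      exact (h.cont_IF.measurable.enorm.pow_const 2).aemeasurable)]
    have h2 : ∀ w : S, ∫⁻ p, ‖IF A (w, p)‖ₑ ^ 2 ≤ eLpNorm a 2 volume ^ 2 := by
      intro w
      have : (fun p => ‖IF A (w, p)‖ₑ ^ 2) = fun p => ‖inv1 (fun r => A (w, r)) p‖ₑ ^ 2 := rfl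
      rw [this, lin_sq, inv1_eLp (h.int1 w) (h.sq1 w)]
      gcongr
      refine eLpNorm_mono fun r => ?_
      rw [Real.norm_eq_abs, abs_of_nonneg (h.nonneg r)]
      exact h.le w r
    calc ∫⁻ w, ∫⁻ p, ‖IF A (w, p)‖ₑ ^ 2 ∂volume ∂sg ≤ ∫⁻ _ : S, eLpNorm a 2 volume ^ 2 ∂sg :=
          lintegral_mono h2
      _ = eLpNorm a 2 volume ^ 2 * sg univ := lintegral_const _
      _ < ⊤ := ENNReal.mul_lt_top (ENNReal.pow_lt_top h.sq.2) (measure_lt_top _ _)
  exact (ENNReal.pow_lt_top_iff.1 h1).resolve_right (by norm_num)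

lemma Good.tr (h : Good A a) (t : ℝ) : Good (fun z => A z *
    Complex.exp (-2 * Real.pi * Complex.I * ((z.2 * t : ℝ) : ℂ))) a where
  meas := h.meas.mul (by fun_prop)
  le w r := by
    rw [norm_mul, norm_char', mul_one]
    exact h.le w r
  int := h.int
  sq := h.sq
  cont r := (h.cont r).mul (by fun_prop)
  herm w r := by
    simp only [map_mul, h.herm, ← Complex.exp_conj, Complex.conj_ofReal,
      Complex.conj_I, map_ofNat, map_neg]
    congr 2
    push_cast
    ring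

lemma IF_tr (A : S × ℝ → ℂ) (t : ℝ) (z : S × ℝ) : IF (fun z => A z *
    Complex.exp (-2 * Real.pi * Complex.I * ((z.2 * t : ℝ) : ℂ))) z = IF A (z.1, z.2 - t) := by
  unfold IF
  refine integral_congr_ae (Eventually.of_forall fun r => ?_)
  simp only
  rw [mul_assoc, ← Complex.exp_add]
  congr 2
  push_cast
  ring

lemma Good.int_mul (h : Good A a) (h' : Good B b) :
    Integrable (fun z => A z * (starRingEnd ℂ) (B z)) mu := by
  have h1 : Integrable (fun r => a r * b r) volume := h.sq.integrable_mul h'.sq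
  have h2 : Integrable (fun z : S × ℝ => a z.2 * b z.2) mu := h1.comp_snd sg
  refine h2.mono' ?_ ?_
  · exact (h.meas.mul (Complex.continuous_conj.measurable.comp h'.meas)).aestronglyMeasurable
  · refine Eventually.of_forall fun z => ?_
    rw [norm_mul, RCLike.norm_conj]
    exact mul_le_mul (h.le z.1 z.2) (h'.le z.1 z.2) (norm_nonneg _) (h.nonneg _)

lemma memLp_conj {α : Type*} [MeasurableSpace α] {μ : Measure α} {f : α → ℂ} {p : ℝ≥0∞}
    (h : MemLp f p μ) : MemLp (fun x => (starRingEnd ℂ) (f x)) p μ :=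
  h.of_le (Complex.continuous_conj.comp_aestronglyMeasurable h.1)
    (Eventually.of_forall fun x => by rw [RCLike.norm_conj])

/-- Parseval on `S × ℝ`. -/
lemma Good.parseval (h : Good A a) (h' : Good B b) :
    ∫ z, IF A z * (starRingEnd ℂ) (IF B z) ∂mu = ∫ z, A z * (starRingEnd ℂ) (B z) ∂mu := by
  have h1 : Integrable (fun z => IF A z * (starRingEnd ℂ) (IF B z)) mu :=
    h.memLp_IF.integrable_mul (memLp_conj h'.memLp_IF)
  rw [integral_prod _ h1, integral_prod _ (h.int_mul h')]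
  refine integral_congr_ae (Eventually.of_forall fun w => ?_)
  exact parseval1 (h.int1 w) (h.sq1 w) (h'.int1 w) (h'.sq1 w)

/-- The real function. -/
noncomputable def RF (A : S × ℝ → ℂ) (z : S × ℝ) : ℝ := (IF A z).re

lemma Good.cont_RF (h : Good A a) : Continuous (RF A) := Complex.continuous_re.comp h.cont_IF

lemma Good.memLp_RF (h : Good A a) : MemLp (RF A) 2 mu :=
  h.memLp_IF.of_le h.cont_RF.aestronglyMeasurable
    (Eventually.of_forall fun z => by
      rw [Real.norm_eq_abs]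
      exact Complex.abs_re_le_norm _)

lemma inner_K {k k' : K} {f g : S × ℝ → ℝ} (hk : (k : S × ℝ → ℝ) =ᵐ[mu] f)
    (hk' : (k' : S × ℝ → ℝ) =ᵐ[mu] g) : inner ℝ k k' = ∫ z, f z * g z ∂mu := by
  rw [L2.inner_def]
  refine integral_congr_ae ?_
  filter_upwards [hk, hk'] with z h1 h2
  rw [h1, h2]
  simp [mul_comm]

/-- Pairing of states given by amplitudes. -/
theorem pair (h : Good A a) (h' : Good B b) (t : ℝ) :
    inner ℝ (tau t (toK (RF A))) (toK (RF B)) =
      (∫ z : S × ℝ, A z * Complex.exp (-2 * Real.pi * Complex.I * ((z.2 * t : ℝ) : ℂ)) *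
        (starRingEnd ℂ) (B z) ∂mu).re := by
  have e1 : (tau t (toK (RF A)) : S × ℝ → ℝ) =ᵐ[mu] fun z => RF A (z.1, z.2 - t) := by
    have h1 := (Pool.Agent.QWE.mp_shift (g := fun _ => t) measurable_const).quasiMeasurePreserving.ae
      (Pool.Agent.QWE.toK_coe h.memLp_RF)
    filter_upwards [Pool.Agent.QWE.tau_coe t (toK (RF A)), h1] with z h2 h3
    rw [h2, h3]
  have h1 : Integrable (fun z => IF (fun z => A z *
      Complex.exp (-2 * Real.pi * Complex.I * ((z.2 * t : ℝ) : ℂ))) z * (starRingEnd ℂ) (IF B z)) mu :=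
    (h.tr t).memLp_IF.integrable_mul (memLp_conj h'.memLp_IF)
  rw [inner_K e1 (Pool.Agent.QWE.toK_coe h'.memLp_RF), ← (h.tr t).parseval h',
    ← RCLike.re_eq_complex_re, ← integral_re h1]
  refine integral_congr_ae (Eventually.of_forall fun z => ?_)
  simp only [IF_tr]
  rw [← h.real, ← h'.real, Complex.conj_ofReal, ← Complex.ofReal_mul, RCLike.re_eq_complex_re,
    Complex.ofReal_re]
  rfl

/-! ### The amplitudes of the test states -/

/-- The dominating function. -/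
noncomputable def dom (s C : ℝ) (r : ℝ) : ℝ := C * (|2 * Real.pi * r| ^ (-s) * (1 + |r|) ^ (-(4 : ℝ)))

lemma int_aux {c : ℝ} (h1 : -1 < c) (h2 : c < 3) :
    Integrable (fun r : ℝ => |r| ^ c * (1 + |r|) ^ (-(4 : ℝ))) := by
  have h := (integrable_fun_norm_addHaar (volume : Measure ℝ)
    (f := fun y : ℝ => y ^ c * (1 + y) ^ (-(4 : ℝ)))).2 ?_
  · simpa [Real.norm_eq_abs] using h
  · simp only [Module.finrank_self, Nat.sub_self, pow_zero, one_smul]
    rw [← Ioc_union_Ioi_eq_Ioi zero_le_one, integrableOn_union]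
    constructor
    · have h3 : IntegrableOn (fun y : ℝ => y ^ c) (Ioc 0 1) :=
        (intervalIntegrable_iff_integrableOn_Ioc_of_le zero_le_one).1
          (intervalIntegral.intervalIntegrable_rpow' h1)
      refine h3.mono' (by fun_prop) ?_
      refine (ae_restrict_iff' measurableSet_Ioc).2 (Eventually.of_forall fun y hy => ?_)
      have h4 : (1 + y) ^ (-(4 : ℝ)) ≤ 1 :=
        Real.rpow_le_one_of_one_le_of_nonpos (by linarith [hy.1]) (by norm_num)
      have h5 : 0 ≤ y ^ c := Real.rpow_nonneg hy.1.le _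
      have h6 : 0 ≤ (1 + y) ^ (-(4 : ℝ)) := Real.rpow_nonneg (by linarith [hy.1]) _
      rw [Real.norm_eq_abs, abs_of_nonneg (mul_nonneg h5 h6)]
      nlinarith
    · have h3 : IntegrableOn (fun y : ℝ => y ^ (c - 4)) (Ioi 1) :=
        integrableOn_Ioi_rpow_of_lt (by linarith) zero_lt_one
      refine h3.mono' (by fun_prop) ?_
      refine (ae_restrict_iff' measurableSet_Ioi).2 (Eventually.of_forall fun y hy => ?_)
      have hy0 : (0 : ℝ) < y := lt_trans zero_lt_one hy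
      have h4 : (1 + y) ^ (-(4 : ℝ)) ≤ y ^ (-(4 : ℝ)) :=
        Real.rpow_le_rpow_of_nonpos hy0 (by linarith) (by norm_num)
      have h5 : 0 ≤ y ^ c := Real.rpow_nonneg hy0.le _
      have h6 : 0 ≤ (1 + y) ^ (-(4 : ℝ)) := Real.rpow_nonneg (by linarith) _
      rw [Real.norm_eq_abs, abs_of_nonneg (mul_nonneg h5 h6)]
      calc y ^ c * (1 + y) ^ (-(4 : ℝ)) ≤ y ^ c * y ^ (-(4 : ℝ)) := by gcongr
        _ = y ^ (c - 4) := by rw [← Real.rpow_add hy0]; ring_nf

lemma dom_meas (s C : ℝ) : Measurable (dom s C) := by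
  unfold dom
  fun_prop

lemma dom_eq (s C : ℝ) : dom s C = fun r => (C * (2 * Real.pi) ^ (-s)) * (|r| ^ (-s) * (1 + |r|) ^ (-(4 : ℝ))) := by
  funext r
  unfold dom
  rw [abs_mul, abs_of_pos Real.two_pi_pos, Real.mul_rpow Real.two_pi_pos.le (abs_nonneg _)]
  ring

lemma dom_int {s : ℝ} (hs : |s| < 1 / 2) (C : ℝ) : Integrable (dom s C) := by
  rw [dom_eq]
  have h := abs_lt.1 hs
  exact (int_aux (by linarith) (by linarith)).const_mul _

lemma dom_sq {s : ℝ} (hs : |s| < 1 / 2) (C : ℝ) : MemLp (dom s C) 2 volume := by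
  rw [memLp_two_iff_integrable_sq (dom_meas s C).aestronglyMeasurable, dom_eq]
  have h := abs_lt.1 hs
  have h1 := (int_aux (c := -2 * s) (by linarith) (by linarith)).const_mul
    ((C * (2 * Real.pi) ^ (-s)) ^ 2)
  refine h1.mono' (by fun_prop) (Eventually.of_forall fun r => ?_)
  have h2 : (|r| ^ (-s)) ^ 2 = |r| ^ (-2 * s) := by
    rw [← Real.rpow_natCast, ← Real.rpow_mul (abs_nonneg _)]
    norm_num
    ring_nf
  have h3 : (1 + |r|) ^ (-(4 : ℝ)) ≤ 1 :=
    Real.rpow_le_one_of_one_le_of_nonpos (by linarith [abs_nonneg r]) (by norm_num)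
  have h4 : 0 ≤ (1 + |r|) ^ (-(4 : ℝ)) := Real.rpow_nonneg (by linarith [abs_nonneg r]) _
  rw [Real.norm_eq_abs, abs_of_nonneg (sq_nonneg _), mul_pow, mul_pow (|r| ^ (-s)), h2]
  have h5 : 0 ≤ |r| ^ (-2 * s) := Real.rpow_nonneg (abs_nonneg _) _
  have h6 : ((1 + |r|) ^ (-(4 : ℝ))) ^ 2 ≤ (1 + |r|) ^ (-(4 : ℝ)) := by nlinarith
  gcongr

/-- Amplitude of `Rs s φ`. -/
noncomputable def am (s : ℝ) (φ : E → ℝ) (z : S × ℝ) : ℂ :=
  ((|2 * Real.pi * z.2| ^ (-s) : ℝ) : ℂ) * ft φ (z.2 • (z.1 : E))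

/-- Amplitude of `dRs s φ`. -/
noncomputable def dam (s : ℝ) (φ : E → ℝ) (z : S × ℝ) : ℂ :=
  ((|2 * Real.pi * z.2| ^ (-s) : ℝ) : ℂ) * (2 * Real.pi * Complex.I * (z.2 : ℂ)) *
    ft φ (z.2 • (z.1 : E))

lemma RsF_eq (s : ℝ) (φ : E → ℝ) : RsF s φ = RF (am s φ) := rfl

lemma dRsF_eq (s : ℝ) (φ : E → ℝ) : dRsF s φ = RF (dam s φ) := rfl

lemma norm_pt (w : S) (r : ℝ) : ‖r • (w : E)‖ = |r| := by
  rw [norm_smul, norm_eq_of_mem_sphere w, mul_one, Real.norm_eq_abs]

lemma am_good (hFt : St_Ft) {s : ℝ} (hs : |s| < 1 / 2) {φ : E → ℝ} (hφ : IsSch φ) :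
    ∃ a, Good (am s φ) a := by
  obtain ⟨hc, hb, -, -, -, hn, -⟩ := hFt.2 φ hφ
  obtain ⟨C, hC⟩ := hb 4
  refine ⟨dom s C, ?_, ?_, dom_int hs C, dom_sq hs C, ?_, ?_⟩
  · unfold am
    refine Measurable.mul (by fun_prop) ?_
    exact (hc.comp (continuous_snd.smul (continuous_subtype_val.comp continuous_fst))).measurable
  · intro w r
    have h1 := hC (r • (w : E))
    rw [norm_pt] at h1
    have h2 : 0 ≤ |2 * Real.pi * r| ^ (-s) := Real.rpow_nonneg (abs_nonneg _) _
    simp only [am, dom]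
    rw [norm_mul, Complex.norm_real, Real.norm_eq_abs, abs_of_nonneg h2]
    have h3 : (1 + |r|) ^ (-(4 : ℝ)) = ((1 + |r|) ^ 4)⁻¹ := by
      rw [Real.rpow_neg (by positivity)]
      norm_cast
    rw [h3]
    calc |2 * Real.pi * r| ^ (-s) * ‖ft φ (r • (w : E))‖ ≤ |2 * Real.pi * r| ^ (-s) * (C / (1 + |r|) ^ 4) := by
          gcongr
      _ = C * (|2 * Real.pi * r| ^ (-s) * ((1 + |r|) ^ 4)⁻¹) := by
          rw [div_eq_mul_inv]; ring
  · intro r
    simp only [am]
    exact continuous_const.mul (hc.comp (continuous_subtype_val.const_smul r))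
  · intro w r
    simp only [am]
    rw [mul_neg, abs_neg, neg_smul, hn, map_mul, Complex.conj_ofReal]

lemma dam_good (hFt : St_Ft) {s : ℝ} (hs : |s| < 1 / 2) {φ : E → ℝ} (hφ : IsSch φ) :
    ∃ a, Good (dam s φ) a := by
  obtain ⟨hc, hb, -, -, -, hn, -⟩ := hFt.2 φ hφ
  obtain ⟨C, hC⟩ := hb 5
  refine ⟨dom s (2 * Real.pi * C), ?_, ?_, dom_int hs _, dom_sq hs _, ?_, ?_⟩
  · unfold dam
    refine Measurable.mul (by fun_prop) ?_
    exact (hc.comp (continuous_snd.smul (continuous_subtype_val.comp continuous_fst))).measurable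
  · intro w r
    have h1 := hC (r • (w : E))
    rw [norm_pt] at h1
    have h2 : 0 ≤ |2 * Real.pi * r| ^ (-s) := Real.rpow_nonneg (abs_nonneg _) _
    have h0 : 0 ≤ C := by
      have := hC 0
      have h4 : 0 ≤ C / (1 + ‖(0 : E)‖) ^ 5 := (norm_nonneg _).trans this
      simpa using h4
    simp only [dam, dom]
    rw [norm_mul, norm_mul, Complex.norm_real, Real.norm_eq_abs, abs_of_nonneg h2]
    have h3 : (1 + |r|) ^ (-(4 : ℝ)) = ((1 + |r|) ^ 4)⁻¹ := by
      rw [Real.rpow_neg (by positivity)]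
      norm_cast
    have h5 : ‖2 * (Real.pi : ℂ) * Complex.I * (r : ℂ)‖ = 2 * Real.pi * |r| := by
      simp [abs_of_pos Real.pi_pos]
    rw [h3, h5]
    have h6 : |r| / (1 + |r|) ^ 5 ≤ ((1 + |r|) ^ 4)⁻¹ := by
      rw [div_le_iff₀ (by positivity), inv_mul_eq_div, le_div_iff₀ (by positivity)]
      have : (1 + |r|) ^ 5 = (1 + |r|) ^ 4 * (1 + |r|) := by ring
      rw [this, mul_comm]
      gcongr
      linarith
    calc |2 * Real.pi * r| ^ (-s) * (2 * Real.pi * |r|) * ‖ft φ (r • (w : E))‖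
        ≤ |2 * Real.pi * r| ^ (-s) * (2 * Real.pi * |r|) * (C / (1 + |r|) ^ 5) := by gcongr
      _ = (2 * Real.pi * C * |2 * Real.pi * r| ^ (-s)) * (|r| / (1 + |r|) ^ 5) := by ring
      _ ≤ (2 * Real.pi * C * |2 * Real.pi * r| ^ (-s)) * ((1 + |r|) ^ 4)⁻¹ := by
          gcongr
      _ = _ := by ring
  · intro r
    simp only [dam]
    exact continuous_const.mul (hc.comp (continuous_subtype_val.const_smul r))
  · intro w r
    simp only [dam]
    rw [mul_neg, abs_neg, neg_smul, hn, map_mul, map_mul, Complex.conj_ofReal]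
    congr 2
    simp only [map_mul, Complex.conj_ofReal, Complex.conj_I, map_ofNat]
    push_cast
    ring

lemma ae_ne : ∀ᵐ z : S × ℝ ∂mu, z.2 ≠ 0 := by
  have h : ∀ᵐ r : ℝ, r ≠ 0 := by
    rw [ae_iff]
    simp
  exact (Measure.quasiMeasurePreserving_snd (μ := sg) (ν := (volume : Measure ℝ))).ae h

lemma rpow_mul_rpow {x : ℝ} (hx : x ≠ 0) (a b : ℝ) : |x| ^ a * |x| ^ b = |x| ^ (a + b) :=
  (Real.rpow_add (abs_pos.2 hx) a b).symm

end Parx

open Parx in
theorem thm_Par (hFt : St_Ft) : St_Par := by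
  intro s s' t φ ψ hs hs' hφ hψ
  obtain ⟨a, ha⟩ := am_good hFt hs hφ
  obtain ⟨b, hb⟩ := dam_good hFt hs hφ
  obtain ⟨a', ha'⟩ := am_good hFt hs' hψ
  obtain ⟨b', hb'⟩ := dam_good hFt hs' hψ
  refine ⟨ha.cont_RF, hb.cont_RF, ha.memLp_RF, hb.memLp_RF, ?_, ?_, ?_⟩
  · refine (pair ha ha' t).trans ?_
    congr 1
    refine integral_congr_ae ?_
    filter_upwards [ae_ne] with z hz
    have hx : 2 * Real.pi * z.2 ≠ 0 := mul_ne_zero Real.two_pi_pos.ne' hz
    simp only [am, map_mul, Complex.conj_ofReal]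
    rw [sub_eq_add_neg (-s) s', ← rpow_mul_rpow hx]
    push_cast
    ring
  · refine (pair hb hb' t).trans ?_
    congr 1
    refine integral_congr_ae ?_
    filter_upwards [ae_ne] with z hz
    have hx : 2 * Real.pi * z.2 ≠ 0 := mul_ne_zero Real.two_pi_pos.ne' hz
    simp only [dam, map_mul, Complex.conj_ofReal, Complex.conj_I, map_ofNat]
    have e : (2 : ℝ) - s - s' = 2 + (-s + -s') := by ring
    have e2 : |2 * Real.pi * z.2| ^ (2 : ℝ) = (2 * Real.pi * z.2) ^ 2 := by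
      rw [Real.rpow_two, sq_abs]
    rw [e, ← rpow_mul_rpow hx, ← rpow_mul_rpow hx, e2]
    push_cast
    linear_combination (-(4 * (Real.pi : ℂ) ^ 2 * (z.2 : ℂ) ^ 2 *
      ((|2 * Real.pi * z.2| ^ (-s) : ℝ) : ℂ) * ((|2 * Real.pi * z.2| ^ (-s') : ℝ) : ℂ) *
      Complex.exp (-2 * Real.pi * Complex.I * ((z.2 : ℂ) * t)) * ft φ (z.2 • (z.1 : E)) *
      (starRingEnd ℂ) (ft ψ (z.2 • (z.1 : E))))) * Complex.I_sq
  · refine (pair ha hb' t).trans ?_
    congr 1
    refine integral_congr_ae ?_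
    filter_upwards [ae_ne] with z hz
    have hx : 2 * Real.pi * z.2 ≠ 0 := mul_ne_zero Real.two_pi_pos.ne' hz
    simp only [am, dam, map_mul, Complex.conj_ofReal, Complex.conj_I, map_ofNat]
    rw [sub_eq_add_neg (-s) s', ← rpow_mul_rpow hx]
    push_cast
    ring

end Pool.Agent.QWP
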