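import Pool.Agent.QWP.StF
import Pool.Agent.QWP.Par

set_option autoImplicit false

/-!
# QWP, Br3: a Duhamel solution is a weak solution; free waves

Reusable: `Br3x.hasDerivAt_tau` (derivative of `t ↦ tau t κ` in `K` for states given by amplitudes), `Br3x.deriv_Rs`,
`Br3x.deriv_dRs`, `Br3x.dtR`, `Br3x.dtV`.
-/

open MeasureTheory Filter Topology Set
open scoped ENNReal NNReal RealInnerProductSpace

namespace Pool.Agent.QWP

open Pool.Agent.QWE (E S sg mu K toK tau sh dl rev gr ig IsTest pd lap Rad dRad Rk dRk c0 WD Sm SmE IsSch half shr WTo)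

namespace Br3x

open Parx

variable {A B : S × ℝ → ℂ} {a b : ℝ → ℝ}

/-! ### calculus of amplitudes -/

lemma good_lin (h : Good A a) (h' : Good B b) (c : ℝ) :
    Good (fun z => A z + (c : ℂ) * B z) (fun r => a r + |c| * b r) where
  meas := h.meas.add (h'.meas.const_mul _)
  le w r := by
    refine (norm_add_le _ _).trans ?_
    rw [norm_mul, Complex.norm_real, Real.norm_eq_abs]
    exact add_le_add (h.le w r) (mul_le_mul_of_nonneg_left (h'.le w r) (abs_nonneg _))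
  int := h.int.add (h'.int.const_mul _)
  sq := h.sq.add (h'.sq.const_mul _)
  cont r := (h.cont r).add (continuous_const.mul (h'.cont r))
  herm w r := by
    simp only [map_add, map_mul, h.herm, h'.herm, Complex.conj_ofReal]

lemma int_char (h : Good A a) (z : S × ℝ) : Integrable (fun r : ℝ => A (z.1, r) *
    Complex.exp (2 * Real.pi * Complex.I * ((r * z.2 : ℝ) : ℂ))) := by
  refine h.int.mono' (((h.meas1 z.1).aestronglyMeasurable).mul
    (Continuous.aestronglyMeasurable (by fun_prop))) (Eventually.of_forall fun r => ?_)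
  rw [norm_mul, norm_char, mul_one]
  exact h.le z.1 r

lemma RF_lin (h : Good A a) (h' : Good B b) (c : ℝ) (z : S × ℝ) :
    RF (fun z => A z + (c : ℂ) * B z) z = RF A z + c * RF B z := by
  unfold RF IF
  have e : ∀ r : ℝ, (A (z.1, r) + (c : ℂ) * B (z.1, r)) *
      Complex.exp (2 * Real.pi * Complex.I * ((r * z.2 : ℝ) : ℂ)) =
      A (z.1, r) * Complex.exp (2 * Real.pi * Complex.I * ((r * z.2 : ℝ) : ℂ)) +
        (c : ℂ) * (B (z.1, r) * Complex.exp (2 * Real.pi * Complex.I * ((r * z.2 : ℝ) : ℂ))) := by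
    intro r
    ring
  simp only [e]
  rw [integral_add (int_char h z) ((int_char h' z).const_mul _), integral_const_mul,
    Complex.add_re, Complex.re_ofReal_mul]

lemma toK_RF_lin (h : Good A a) (h' : Good B b) (c : ℝ) :
    toK (RF (fun z => A z + (c : ℂ) * B z)) = toK (RF A) + c • toK (RF B) := by
  apply Lp.ext
  filter_upwards [Pool.Agent.QWE.toK_coe (good_lin h h' c).memLp_RF,
    Pool.Agent.QWE.toK_coe h.memLp_RF, Pool.Agent.QWE.toK_coe h'.memLp_RF,
    Lp.coeFn_add (toK (RF A)) (c • toK (RF B)), Lp.coeFn_smul c (toK (RF B))] with z h1 h2 h3 h4 h5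
  rw [h1, h4, Pi.add_apply, h5, Pi.smul_apply, h2, h3, RF_lin h h' c z, smul_eq_mul]

lemma tau_toK (h : Good A a) (t : ℝ) : tau t (toK (RF A)) = toK (RF (fun z => A z *
    Complex.exp (-2 * Real.pi * Complex.I * ((z.2 * t : ℝ) : ℂ)))) := by
  apply Lp.ext
  have h1 := (Pool.Agent.QWE.mp_shift (g := fun _ => t) measurable_const).quasiMeasurePreserving.ae
    (Pool.Agent.QWE.toK_coe h.memLp_RF)
  filter_upwards [Pool.Agent.QWE.tau_coe t (toK (RF A)), h1,
    Pool.Agent.QWE.toK_coe (h.tr t).memLp_RF] with z h2 h3 h4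
  rw [h2, h3, h4]
  unfold RF
  rw [IF_tr]

lemma norm_sq (h : Good A a) : ‖toK (RF A)‖ ^ 2 = ∫ z, ‖A z‖ ^ 2 ∂mu := by
  have h1 : Integrable (fun z => IF A z * (starRingEnd ℂ) (IF A z)) mu :=
    h.memLp_IF.integrable_mul (memLp_conj h.memLp_IF)
  rw [← real_inner_self_eq_norm_sq, inner_K (Pool.Agent.QWE.toK_coe h.memLp_RF)
    (Pool.Agent.QWE.toK_coe h.memLp_RF)]
  have e1 : ∫ z, RF A z * RF A z ∂mu = (∫ z, IF A z * (starRingEnd ℂ) (IF A z) ∂mu).re := by
    rw [← RCLike.re_eq_complex_re, ← integral_re h1]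
    refine integral_congr_ae (Eventually.of_forall fun z => ?_)
    simp only
    rw [← h.real, Complex.conj_ofReal, ← Complex.ofReal_mul, RCLike.re_eq_complex_re,
      Complex.ofReal_re]
    rfl
  rw [e1, h.parseval h, ← RCLike.re_eq_complex_re, ← integral_re (h.int_mul h)]
  refine integral_congr_ae (Eventually.of_forall fun z => ?_)
  simp only
  rw [Complex.mul_conj, RCLike.re_eq_complex_re, Complex.ofReal_re, Complex.normSq_eq_norm_sq]

/-! ### differentiation of the flow -/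

/-- The difference quotient of the character. -/
noncomputable def dq (h r : ℝ) : ℂ :=
  ((h⁻¹ : ℝ) : ℂ) * (Complex.exp (-2 * Real.pi * Complex.I * ((r * h : ℝ) : ℂ)) - 1) +
    2 * Real.pi * Complex.I * (r : ℂ)

lemma dq_le {h : ℝ} (hh : h ≠ 0) (r : ℝ) : ‖dq h r‖ ≤ 2 * (2 * Real.pi * |r|) := by
  have e1 : ‖Complex.exp (-2 * Real.pi * Complex.I * ((r * h : ℝ) : ℂ)) - 1‖ ≤
      2 * Real.pi * |r| * |h| := by
    have h1 := Real.norm_exp_I_mul_ofReal_sub_one_le (x := -2 * Real.pi * (r * h))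
    have h2 : Complex.I * ((-2 * Real.pi * (r * h) : ℝ) : ℂ) =
        -2 * Real.pi * Complex.I * ((r * h : ℝ) : ℂ) := by push_cast; ring
    rw [h2] at h1
    refine h1.trans (le_of_eq ?_)
    rw [Real.norm_eq_abs, abs_mul, abs_mul, abs_mul, abs_neg, abs_of_pos (by norm_num : (0 : ℝ) < 2),
      abs_of_pos Real.pi_pos]
    ring
  have e2 : ‖2 * (Real.pi : ℂ) * Complex.I * (r : ℂ)‖ = 2 * Real.pi * |r| := by
    simp [abs_of_pos Real.pi_pos]
  unfold dq
  refine (norm_add_le _ _).trans ?_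
  rw [e2, norm_mul, Complex.norm_real, Real.norm_eq_abs, abs_inv]
  have h3 : 0 < |h| := abs_pos.2 hh
  have h4 : |h|⁻¹ * ‖Complex.exp (-2 * Real.pi * Complex.I * ((r * h : ℝ) : ℂ)) - 1‖ ≤
      2 * Real.pi * |r| := by
    rw [inv_mul_le_iff₀ h3]
    linarith
  linarith

lemma dq_tendsto (r : ℝ) : Tendsto (fun h => dq h r) (𝓝[≠] (0 : ℝ)) (𝓝 0) := by
  have h1 : HasDerivAt (fun h : ℝ => Complex.exp (-2 * Real.pi * Complex.I * ((r * h : ℝ) : ℂ)))
      (Complex.exp (-2 * Real.pi * Complex.I * ((r * 0 : ℝ) : ℂ)) *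
        (-2 * Real.pi * Complex.I * ((r * 1 : ℝ) : ℂ))) 0 := by
    have h2 : HasDerivAt (fun h : ℝ => ((r * h : ℝ) : ℂ)) (((r * 1 : ℝ)) : ℂ) 0 :=
      ((hasDerivAt_id (0 : ℝ)).const_mul r).ofReal_comp
    exact (h2.const_mul _).cexp
  have h3 := hasDerivAt_iff_tendsto_slope_zero.1 h1
  have h4 := h3.add_const (2 * Real.pi * Complex.I * (r : ℂ))
  have h5 : Complex.exp (-2 * Real.pi * Complex.I * ((r * 0 : ℝ) : ℂ)) *
        (-2 * Real.pi * Complex.I * ((r * 1 : ℝ) : ℂ)) + 2 * Real.pi * Complex.I * (r : ℂ) = 0 := by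
    simp
  rw [h5] at h4
  refine h4.congr fun h => ?_
  unfold dq
  simp

/-- derivative at `0` -/
lemma deriv_zero (h : Good A a) (h' : Good B b)
    (hAB : ∀ z : S × ℝ, B z = 2 * Real.pi * Complex.I * (z.2 : ℂ) * A z) :
    Tendsto (fun t : ℝ => ‖t⁻¹ • (tau t (toK (RF A)) - toK (RF A)) + toK (RF B)‖) (𝓝[≠] 0)
      (𝓝 0) := by
  have key : ∀ t : ℝ, t ≠ 0 → ‖t⁻¹ • (tau t (toK (RF A)) - toK (RF A)) + toK (RF B)‖ ^ 2 =
      ∫ z, ‖dq t z.2 * A z‖ ^ 2 ∂mu := by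
    intro t _
    have g1 := good_lin h' (h.tr t) t⁻¹
    have g2 := good_lin g1 h (-t⁻¹)
    have e1 : t⁻¹ • (tau t (toK (RF A)) - toK (RF A)) + toK (RF B) =
        (toK (RF B) + t⁻¹ • tau t (toK (RF A))) + (-t⁻¹) • toK (RF A) := by
      rw [smul_sub, neg_smul]
      abel
    rw [e1, tau_toK h t, ← toK_RF_lin h' (h.tr t) t⁻¹, ← toK_RF_lin g1 h (-t⁻¹), norm_sq g2]
    refine integral_congr_ae (Eventually.of_forall fun z => ?_)
    simp only
    congr 2
    rw [hAB]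
    unfold dq
    push_cast
    ring
  have hz : Tendsto (fun t : ℝ => ∫ z, ‖dq t z.2 * A z‖ ^ 2 ∂mu) (𝓝[≠] 0)
      (𝓝 (∫ _z : S × ℝ, (0 : ℝ) ∂mu)) := by
    have hb2 : Integrable (fun r => (2 * b r) ^ 2) volume := by
      have := (h'.sq.const_mul 2).integrable_sq
      exact this
    refine tendsto_integral_filter_of_dominated_convergence (fun z : S × ℝ => (2 * b z.2) ^ 2)
      (Eventually.of_forall fun t => ?_) ?_ (hb2.comp_snd sg) ?_
    · have : Measurable fun z : S × ℝ => dq t z.2 := by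
        unfold dq
        fun_prop
      exact (((this.mul h.meas).norm).pow_const 2).aestronglyMeasurable
    · filter_upwards [self_mem_nhdsWithin] with t ht
      refine Eventually.of_forall fun z => ?_
      rw [Real.norm_eq_abs, abs_of_nonneg (sq_nonneg _)]
      refine pow_le_pow_left₀ (norm_nonneg _) ?_ 2
      rw [norm_mul]
      have h2 : ‖B z‖ = 2 * Real.pi * |z.2| * ‖A z‖ := by
        rw [hAB, norm_mul]
        congr 1
        simp [abs_of_pos Real.pi_pos]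
      have h3 := h'.le z.1 z.2
      calc ‖dq t z.2‖ * ‖A z‖ ≤ 2 * (2 * Real.pi * |z.2|) * ‖A z‖ :=
            mul_le_mul_of_nonneg_right (dq_le ht z.2) (norm_nonneg _)
        _ = 2 * ‖B z‖ := by rw [h2]; ring
        _ ≤ 2 * b z.2 := by
            have : ‖B z‖ ≤ b z.2 := h3
            linarith
    · refine Eventually.of_forall fun z => ?_
      have h1 := ((dq_tendsto z.2).mul_const (A z)).norm.pow 2
      simpa using h1
  rw [integral_zero] at hz
  have h2 : Tendsto (fun t : ℝ =>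
      ‖t⁻¹ • (tau t (toK (RF A)) - toK (RF A)) + toK (RF B)‖ ^ 2) (𝓝[≠] 0) (𝓝 0) := by
    refine hz.congr' ?_
    filter_upwards [self_mem_nhdsWithin] with t ht
    exact (key t ht).symm
  have h3 := h2.sqrt
  rw [Real.sqrt_zero] at h3
  refine h3.congr fun t => ?_
  rw [Real.sqrt_sq (norm_nonneg _)]

/-- The derivative of the flow in `K`. -/
theorem hasDerivAt_tau (hG : Pool.Agent.QWE.St_Grp1) (h : Good A a) (h' : Good B b)
    (hAB : ∀ z : S × ℝ, B z = 2 * Real.pi * Complex.I * (z.2 : ℂ) * A z) (t : ℝ) :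
    HasDerivAt (fun r => tau r (toK (RF A))) (-(tau t (toK (RF B)))) t := by
  rw [hasDerivAt_iff_tendsto_slope_zero, tendsto_iff_norm_sub_tendsto_zero]
  refine (deriv_zero h h' hAB).congr fun r => ?_
  have e1 : tau (t + r) (toK (RF A)) = tau t (tau r (toK (RF A))) := (hG.1 t r _).symm
  have e2 : r⁻¹ • (tau (t + r) (toK (RF A)) - tau t (toK (RF A))) - -(tau t (toK (RF B))) =
      tau t (r⁻¹ • (tau r (toK (RF A)) - toK (RF A)) + toK (RF B)) := by
    rw [e1, map_add, LinearIsometry.map_smul, map_sub, sub_neg_eq_add]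
  rw [e2, LinearIsometry.norm_map]

lemma dam_am (s : ℝ) (φ : E → ℝ) (z : S × ℝ) :
    dam s φ z = 2 * Real.pi * Complex.I * (z.2 : ℂ) * am s φ z := by
  unfold dam am
  ring

lemma am_lap (hFt : St_Ft) (s : ℝ) {φ : E → ℝ} (hφ : IsSch φ) (z : S × ℝ) :
    am s (lap φ) z = 2 * Real.pi * Complex.I * (z.2 : ℂ) * dam s φ z := by
  obtain ⟨-, -, -, -, hl, -⟩ := hFt.2 φ hφ
  unfold am dam
  rw [hl, norm_pt]
  have e : (((2 * Real.pi * |z.2|) ^ 2 : ℝ) : ℂ) = (2 * Real.pi * (z.2 : ℂ)) ^ 2 := by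
    rw [mul_pow, sq_abs, ← mul_pow]
    push_cast
    ring
  rw [e]
  linear_combination (-(4 * (Real.pi : ℂ) ^ 2 * (z.2 : ℂ) ^ 2 *
    ((|2 * Real.pi * z.2| ^ (-s) : ℝ) : ℂ) * ft φ (z.2 • (z.1 : E)))) * Complex.I_sq

/-- Derivative of `t ↦ tau t (Rs s φ)`. -/
theorem deriv_Rs (hG : Pool.Agent.QWE.St_Grp1) (hFt : St_Ft) {s : ℝ} (hs : |s| < 1 / 2) {φ : E → ℝ}
    (hφ : IsSch φ) (t : ℝ) : HasDerivAt (fun r => tau r (Rs s φ)) (-(tau t (dRs s φ))) t := by
  obtain ⟨a, ha⟩ := am_good hFt hs hφ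
  obtain ⟨b, hb⟩ := dam_good hFt hs hφ
  exact hasDerivAt_tau hG ha hb (dam_am s φ) t

/-- Derivative of `t ↦ tau t (dRs s φ)`. -/
theorem deriv_dRs (hG : Pool.Agent.QWE.St_Grp1) (hFt : St_Ft) {s : ℝ} (hs : |s| < 1 / 2) {φ : E → ℝ}
    (hφ : IsSch φ) (t : ℝ) : HasDerivAt (fun r => tau r (dRs s φ)) (-(tau t (Rs s (lap φ)))) t := by
  obtain ⟨b, hb⟩ := dam_good hFt hs hφ
  obtain ⟨a, ha⟩ := am_good hFt hs (hFt.2 φ hφ).2.2.2.2.2.2.2.2.1
  exact hasDerivAt_tau hG hb ha (am_lap hFt s hφ) t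

/-- The fundamental theorem for pairings. -/
lemma dt (hG : Pool.Agent.QWE.St_Grp1) {κ κ' : K}
    (hd : ∀ t, HasDerivAt (fun r => tau r κ) (-(tau t κ')) t) (k : K) (x t : ℝ) :
    inner ℝ (tau t k) κ - inner ℝ (tau x k) κ = ∫ r in x..t, inner ℝ (tau r k) κ' := by
  have e : ∀ r, inner ℝ (tau r k) κ = inner ℝ k (tau (-r) κ) := fun r => hG.2.2.2.2.2.1 r k κ
  have h1 : ∀ r, HasDerivAt (fun r => inner ℝ (tau r k) κ) (inner ℝ (tau r k) κ') r := by
    intro r
    simp only [e, hG.2.2.2.2.2.1 r k κ']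
    have h2 := (hd (-r)).scomp r (hasDerivAt_neg r)
    have h3 : HasDerivAt (fun r => inner ℝ k (tau (-r) κ)) (inner ℝ k ((-1 : ℝ) • -(tau (-r) κ'))) r :=
      (innerSL ℝ k).hasFDerivAt.comp_hasDerivAt r h2
    simpa using h3
  have hc : Continuous fun r => inner ℝ (tau r k) κ' :=
    (hG.2.2.2.2.2.2.2.1 k).inner continuous_const
  exact (intervalIntegral.integral_eq_sub_of_hasDerivAt (fun r _ => h1 r)
    (hc.intervalIntegrable _ _)).symm

/-- Position field. -/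
theorem dtR (hG : Pool.Agent.QWE.St_Grp1) (hFt : St_Ft) {s : ℝ} (hs : |s| < 1 / 2) {φ : E → ℝ}
    (hφ : IsSch φ) (k : K) (x t : ℝ) : inner ℝ (tau t k) (Rs s φ) - inner ℝ (tau x k) (Rs s φ) =
      ∫ r in x..t, inner ℝ (tau r k) (dRs s φ) := dt hG (deriv_Rs hG hFt hs hφ) k x t

/-- Velocity field. -/
theorem dtV (hG : Pool.Agent.QWE.St_Grp1) (hFt : St_Ft) {s : ℝ} (hs : |s| < 1 / 2) {φ : E → ℝ}
    (hφ : IsSch φ) (k : K) (x t : ℝ) : inner ℝ (tau t k) (dRs s φ) - inner ℝ (tau x k) (dRs s φ) =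
      ∫ r in x..t, inner ℝ (tau r k) (Rs s (lap φ)) := dt hG (deriv_dRs hG hFt hs hφ) k x t

/-! ### norms -/

lemma HN_lt {b c C : ℝ} (hB : ∀ (f g : E → ℝ) (k : K), (U (sig b) k =ᵐ[volume] f) →
    (V (sig b) k =ᵐ[volume] g) → HN b f g ≤ ENNReal.ofReal C * ‖k‖ₑ ∧
      ENNReal.ofReal c * ‖k‖ₑ ≤ HN b f g)
    (k : K) : HN b (U (sig b) k) (V (sig b) k) < ⊤ :=
  (hB _ _ k (ae_eq_refl _) (ae_eq_refl _)).1.trans_lt
    (ENNReal.mul_lt_top ENNReal.ofReal_lt_top enorm_lt_top)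

lemma HN_tendsto {b c C : ℝ} (hL : ∀ (c : ℝ) (k k' : K),
      (U (sig b) (k + c • k') =ᵐ[volume] fun x => U (sig b) k x + c * U (sig b) k' x) ∧
      (V (sig b) (k + c • k') =ᵐ[volume] fun x => V (sig b) k x + c * V (sig b) k' x))
    (hB : ∀ (f g : E → ℝ) (k : K), (U (sig b) k =ᵐ[volume] f) →
    (V (sig b) k =ᵐ[volume] g) → HN b f g ≤ ENNReal.ofReal C * ‖k‖ₑ ∧
      ENNReal.ofReal c * ‖k‖ₑ ≤ HN b f g)
    {l : Filter ℝ} {k : ℝ → K} {k0 : K} (h : Tendsto k l (𝓝 k0)) :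
    Tendsto (fun s => HN b (fun x => U (sig b) (k s) x - U (sig b) k0 x)
      (fun x => V (sig b) (k s) x - V (sig b) k0 x)) l (𝓝 0) := by
  have h1 : Tendsto (fun s => ENNReal.ofReal C * ‖k s + (-1 : ℝ) • k0‖ₑ) l (𝓝 0) := by
    have h2 : Tendsto (fun s => k s + (-1 : ℝ) • k0) l (𝓝 0) := by
      have := h.add (tendsto_const_nhds (x := (-1 : ℝ) • k0))
      simpa using this
    have h3 := ENNReal.Tendsto.const_mul (a := ENNReal.ofReal C) h2.enorm
      (Or.inr ENNReal.ofReal_ne_top)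
    simpa using h3
  refine tendsto_of_tendsto_of_tendsto_of_le_of_le tendsto_const_nhds h1 (fun _ => zero_le)
    fun s => ?_
  obtain ⟨h4, h5⟩ := hL (-1) (k s) k0
  refine (hB _ _ (k s + (-1 : ℝ) • k0) ?_ ?_).1
  · filter_upwards [h4] with x hx
    rw [hx]; ring
  · filter_upwards [h5] with x hx
    rw [hx]; ring

lemma sig_lt {b : ℝ} (hb : 2 < b) : |sig b| < 1 / 2 := by
  unfold sig
  have h1 : 0 < 2 / b := by positivity
  have h2 : 2 / b < 1 := by
    rw [div_lt_one (by linarith)]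
    exact hb
  rw [abs_lt]
  constructor <;> linarith

lemma test_lap {φ : E → ℝ} (h : IsTest φ) : IsTest (lap φ) := by
  have h1 : ∀ (i : Fin 5) {ψ : E → ℝ}, IsTest ψ → IsTest (pd i ψ) := by
    intro i ψ hψ
    refine ⟨?_, hψ.2.fderiv_apply ℝ _⟩
    exact (hψ.1.fderiv_right (m := ((⊤ : ℕ∞) : WithTop ℕ∞)) (by simp)).clm_apply contDiff_const
  refine ⟨ContDiff.sum fun i _ => (h1 i (h1 i h)).1, HasCompactSupport.intro h.2 fun x hx => ?_⟩
  refine Finset.sum_eq_zero fun i _ => ?_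
  exact image_eq_zero_of_notMem_tsupport fun h2 =>
    hx (tsupport_fderiv_apply_subset ℝ _ (tsupport_fderiv_apply_subset ℝ _ h2))

end Br3x

open Br3x in
theorem thm_Br3 (hG : Pool.Agent.QWE.St_Grp1) (hFt : St_Ft) (hF : St_FldP) (hW : St_WEq)
    (hB : St_Br1) : St_Br3 := by
  intro b hb
  have hs := sig_lt hb
  obtain ⟨C, hC, hFk, hL, -⟩ := hF (sig b) hs
  obtain ⟨c1, C1, -, -, -, hB, -⟩ := hB b hb
  have hL' : ∀ (c : ℝ) (k k' : K),
      (U (sig b) (k + c • k') =ᵐ[volume] fun x => U (sig b) k x + c * U (sig b) k' x) ∧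
      (V (sig b) (k + c • k') =ᵐ[volume] fun x => V (sig b) k x + c * V (sig b) k' x) :=
    fun c k k' => ⟨(hL c k k').1, (hL c k k').2.1⟩
  constructor
  · intro I k hk
    exact ⟨hk.1, fun t _ => HN_lt hB (k t), fun t ht => HN_tendsto hL' hB (hk.2.1 t ht),
      hk.2.2.1, fun φ hφ s hs' t ht => hW b hb I k hk s hs' t ht φ hφ⟩
  · intro k
    have hc := hG.2.2.2.2.2.2.2.1 k
    refine ⟨fun t => HN_lt hB (tau t k), fun t => HN_tendsto hL' hB (hc.tendsto t),
      fun φ hφ s t => ⟨?_, ?_⟩⟩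
    · have hsch := hFt.1 φ hφ
      have e1 : ∀ r, ∫ x, U (sig b) (tau r k) x * φ x = inner ℝ (tau r k) (Rs (sig b) φ) :=
        fun r => ((hFk (tau r k)).2.2.2.2.2 φ hsch).1
      have e2 : ∀ r, ∫ x, V (sig b) (tau r k) x * φ x = inner ℝ (tau r k) (dRs (sig b) φ) :=
        fun r => ((hFk (tau r k)).2.2.2.2.2 φ hsch).2
      simp only [e1, e2]
      exact dtR hG hFt hs hsch k s t
    · have hsch := hFt.1 φ hφ
      have hsch' := hFt.1 _ (test_lap hφ)
      have e1 : ∀ r, ∫ x, U (sig b) (tau r k) x * lap φ x =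
          inner ℝ (tau r k) (Rs (sig b) (lap φ)) :=
        fun r => ((hFk (tau r k)).2.2.2.2.2 _ hsch').1
      have e2 : ∀ r, ∫ x, V (sig b) (tau r k) x * φ x = inner ℝ (tau r k) (dRs (sig b) φ) :=
        fun r => ((hFk (tau r k)).2.2.2.2.2 φ hsch).2
      simp only [e1, e2]
      exact dtV hG hFt hs hsch k s t

end Pool.Agent.QWP
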