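import Pool.Agent.QWP.StB

set_option autoImplicit false

/-!
# QWP, block C: compact solutions, first reductions (all `b > 2`)

Ports of block C of `Pool.Agent.QWE`: every `St_X` is to be proved as `theorem thm_X : St_X` (possibly with other statements of QWP
or QWE as hypotheses) in `Pool/Agent/QWP/X.lean`. Copy the proof in `Pool/Agent/QWE/X.lean` and adapt (`s = sig b`, `|s| < 1/2`,
`4` becomes `b`, `20` becomes `5b`, `ex s`, `xt`, `Van s`). Statements of QWE about `K` and the group `gr` only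
(`QWE.St_GrA`, `QWE.St_G0a`, `QWE.St_G0`, `QWE.St_GBd`, `QWE.St_GLim`) and `QWE.St_C5` are used unchanged (with full names).
-/

open MeasureTheory Filter Topology Set
open scoped ENNReal NNReal RealInnerProductSpace

namespace Pool.Agent.QWP

open Pool.Agent.QWE (E S sg mu K toK tau sh dl rev gr ig IsTest pd lap Rad dRad Rk dRk c0 WD Sm SmE IsSch half shr WTo)

/-- **GrP** (exterior seminorms and the group). Proof as the last two clauses of QWE.GrA: ActP with the set identities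
`{z | x + e^{-a} z ∈ ext y R} = ext (e^a (y - x)) (e^a R)`, `{z | x + e^{-a} z ∈ half e c} = half e (e^a (c - ⟪x,e⟫))`. (The other clauses: QWE.GrA.) -/
def St_GrP : Prop := ∀ s : ℝ, |s| < 1 / 2 →
  (∀ (y : E) (R : ℝ) (x : E) (a : ℝ) (k : K),
    ex s (xt y R) (gr x a k) = ex s (xt (Real.exp a • (y - x)) (Real.exp a * R)) k) ∧
  (∀ (e : E) (c : ℝ) (x : E) (a : ℝ) (k : K),
    ex s (half e c) (gr x a k) = ex s (half e (Real.exp a * (c - inner ℝ x e))) k)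

/-- **C0** (we may assume `0 ∉ Q`). Proof as QWE.C0 (Small, Uniq, QWE.GrA). -/
def St_C0 : Prop := ∀ b : ℝ, 2 < b → ∀ (I : Set ℝ) (k : ℝ → K) (Q : Set K) (x : ℝ → E) (a : ℝ → ℝ), IsMax b I k →
  IsCompact Q → (∀ t ∈ I, ∃ κ ∈ Q, k t = gr (x t) (a t) κ) → (∃ t ∈ I, k t ≠ 0) →
  ∃ Q', CSol b Q' I k x a

/-- **CSy** (symmetries of compact solutions). Proof as QWE.CSy (Sym, QWE.GrA). -/
def St_CSy : Prop := ∀ b : ℝ, 2 < b →
  (∀ Q I k x a, CSol b Q I k x a → ∀ (y0 : E) (a0 t0 : ℝ),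
    CSol b Q {s | t0 + Real.exp (-a0) * s ∈ I} (fun s => ig y0 a0 (k (t0 + Real.exp (-a0) * s)))
      (fun s => Real.exp a0 • (x (t0 + Real.exp (-a0) * s) - y0))
      (fun s => a (t0 + Real.exp (-a0) * s) - a0)) ∧
  (∀ Q I k x a, CSol b Q I k x a →
    CSol b (rev '' Q) {t | -t ∈ I} (fun t => rev (k (-t))) (fun t => x (-t)) (fun t => a (-t)))

/-- **C1a** (uniform time of existence for data in a compact set). Proof as QWE.C1a (Loc, StrS, SNt; powers `b` in place of `4`). -/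
def St_C1a : Prop := ∀ b : ℝ, 2 < b → ∀ Q : Set K, IsCompact Q → ∃ c : ℝ, 0 < c ∧ ∀ κ ∈ Q,
  ∃ k : ℝ → K, IsSol b (Icc (-c) c) k ∧ k 0 = κ

/-- **C1** (lifespan). Proof as QWE.C1 (C1a, CSy, MaxE). -/
def St_C1 : Prop := ∀ b : ℝ, 2 < b → ∀ Q : Set K, IsCompact Q → ∃ c : ℝ, 0 < c ∧ ∀ I k x a, CSol b Q I k x a →
  ∀ t ∈ I, Icc (t - c * Real.exp (-(a t))) (t + c * Real.exp (-(a t))) ⊆ I

/-- **Tga** (uniform tightness of compact sets). Proof as QWE.Tga (ExBP). -/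
def St_Tga : Prop := ∀ s : ℝ, |s| < 1 / 2 → ∀ Q : Set K, IsCompact Q → ∀ ε : ℝ, 0 < ε → ∃ R0 : ℝ, 0 < R0 ∧
  ∀ R, R0 ≤ R → ∀ κ ∈ Q, ex s (xt 0 R) κ ≤ ε

/-- **C2a** (a compact solution that stops at the time `T` is supported in a backward cone). Proof as QWE.C2a (C1, Tga, GrP, Ext, ExBP). -/
def St_C2a : Prop := ∀ b : ℝ, 2 < b → ∀ Q I k x a, CSol b Q I k x a → ∀ T : ℝ, IsLUB I T →
  ∃ x0 : E, ∀ s ∈ I, ∀ ρ : ℝ, 0 < ρ → Van (sig b) (xt x0 (2 * ρ + T - s)) (k s)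

/-- **C2b** (energy of a state supported in a small ball), `s = sig b`, `q0 = 5b/2`, `1/q1 = 1/2 - (1+s)/5`. Proof as QWE.C2b: the fields vanish a.e. off `closedBall x0 r` (ExFP with `k' = 0`). Hoelder on the ball, `vol = C r⁵`:
`‖DU i‖_2 ≤ vol^{1/2 - 1/q1} ‖DU i‖_{q1} ≤ C r^{1+s} ‖k‖`, the same for `V`; `‖U‖_{10/3} ≤ vol^{3/10 - 1/q0} ‖U‖_{q0} ≤ C r^{1+s} ‖k‖` (`5(3/10 - 2/(5b)) = 3/2 - 2/b = 1 + s`); `∫ |U|^{b+2} ≤ vol^{1 - (b+2)/q0} ‖U‖_{q0}^{b+2} ≤ C r^{2+2s} ‖k‖^{b+2}`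
(`5 - 2(b+2)/b = 3 - 4/b = 2 + 2s`); FldP. -/
def St_C2b : Prop := ∀ b : ℝ, 2 < b → ∃ C : ℝ, 0 < C ∧ ∀ (k : K) (x0 : E) (r : ℝ), 0 < r →
  Van (sig b) (xt x0 r) k →
  EB (sig b) (C * r ^ (1 + sig b) * ‖k‖) k ∧ 0 ≤ En b k ∧
  En b k ≤ C * r ^ (2 + 2 * sig b) * (‖k‖ ^ 2 + ‖k‖ ^ (b + 2))

/-- **C2** (compact solutions are global). Proof as QWE.C2: suppose `T = sSup I` is finite; C2a with `ρ = T - s`: `Van (xt x0 (3 (T-s))) (k s)`. C2b: `EB (sig b) B (k t)` for `t ∈ [s, s']`, `B = C (3(T-s))^{1+sig b} A`, `A = sup_Q ‖κ‖`, and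
`0 ≤ En b (k s) ≤ C (3(T-s))^{2+2 sig b} (A² + A^{b+2})`. En on `[s,s']`: `En b (k s) = En b (k s')`, `s' → T`: `En b (k s) = 0`, so `k s = 0` (Z1), contradiction. Below: CSy (second part). -/
def St_C2 : Prop := ∀ b : ℝ, 2 < b → ∀ Q I k x a, CSol b Q I k x a → I = univ

/-- **C4** (bounded oscillation). Proof as QWE.C4 (C3, QWE.G0, QWE.GrA). -/
def St_C4 : Prop := ∀ b : ℝ, 2 < b → ∀ Q k x a, CSol b Q univ k x a → ∀ T : ℝ, ∃ C : ℝ, ∀ t s : ℝ, |s| ≤ T →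
  a (t + Real.exp (-(a t)) * s) ≤ a t + C

/-- **C3** (hull). Proof as QWE.C3 (CSy, MaxE, Stab, Uniq, QWE.GLim, C2). -/
def St_C3 : Prop := ∀ b : ℝ, 2 < b → ∀ Q k x a, CSol b Q univ k x a → ∀ (t : ℕ → ℝ) (κn : ℕ → K) (κ : K),
  (∀ n, κn n ∈ Q ∧ k (t n) = gr (x (t n)) (a (t n)) (κn n)) → Tendsto κn atTop (𝓝 κ) →
  ∃ k' x' a', CSol b Q univ k' x' a' ∧ k' 0 = κ ∧
    (∀ (s : ℕ → ℝ) (s0 : ℝ), Tendsto s atTop (𝓝 s0) →
      Tendsto (fun n => ig (x (t n)) (a (t n)) (k (t n + Real.exp (-(a (t n))) * s n))) atTop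
        (𝓝 (k' s0))) ∧
    ∀ s c : ℝ, (∀ᶠ n in atTop, c ≤ a (t n + Real.exp (-(a (t n))) * s) - a (t n)) → c ≤ a' s

/-- **C6** (normalised compact solution). Proof as QWE.C6 (C3, C4, QWE.C5). -/
def St_C6 : Prop := ∀ b : ℝ, 2 < b → ∀ Q k x a, CSol b Q univ k x a → ∃ k' x' a', NSol b Q k' x' a'

/-- **Tgt** (tightness along a normalised solution). Proof as QWE.Tgt (Tga, GrP). -/
def St_Tgt : Prop := ∀ b : ℝ, 2 < b → ∀ Q k x a, NSol b Q k x a → ∀ ε : ℝ, 0 < ε → ∃ R0 : ℝ, 0 < R0 ∧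
  ∀ R, R0 ≤ R → ∀ t, ex (sig b) (xt (x t) R) (k t) ≤ ε

/-- **ABd** (`N` and the centre are bounded on compact time intervals). Proof as QWE.ABd (QWE.GBd). -/
def St_ABd : Prop := ∀ b : ℝ, 2 < b → ∀ Q k x a, CSol b Q univ k x a → ∀ T : ℝ, ∃ B : ℝ, ∀ t : ℝ, |t| ≤ T →
  |a t| ≤ B ∧ ‖x t‖ ≤ B

end Pool.Agent.QWP
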