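import Pool.Agent.QWP.StC

/-!
# QWP, module C1a: uniform time of existence for data in a compact set
-/

set_option autoImplicit false

open MeasureTheory Filter Topology Set
open scoped ENNReal NNReal RealInnerProductSpace

namespace Pool.Agent.QWP

open Pool.Agent.QWE (E S sg mu K toK tau sh dl rev gr ig IsTest pd lap Rad dRad Rk dRk c0 WD Sm SmE IsSch half shr WTo)

namespace C1ax

/-- the Strichartz norm of a free wave on short intervals -/
theorem short {b : ℝ} (hb : 2 < b) (hStr : St_StrS) (κ : K) (ε : ℝ≥0∞) (hε : ε ≠ 0) :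
    ∀ᶠ n : ℕ in atTop, SN b (Icc (-(1 / ((n : ℝ) + 1))) (1 / ((n : ℝ) + 1))) (fun t => tau t κ) ≤ ε := by
  obtain ⟨C, -, hC⟩ := hStr b hb
  have h1 : ∫⁻ t, sn b (tau t κ) ^ b ≠ ⊤ := by
    refine ((hC κ).1.trans_lt ?_).ne
    exact ENNReal.rpow_lt_top_of_nonneg (by linarith)
      (ENNReal.mul_lt_top ENNReal.ofReal_lt_top enorm_lt_top).ne
  have h2 : Tendsto (volume ∘ fun n : ℕ => Icc (-(1 / ((n : ℝ) + 1))) (1 / ((n : ℝ) + 1)))
      atTop (𝓝 0) := by
    have h3 : ∀ n : ℕ, (volume ∘ fun n : ℕ => Icc (-(1 / ((n : ℝ) + 1))) (1 / ((n : ℝ) + 1))) n =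
        ENNReal.ofReal (2 * (1 / ((n : ℝ) + 1))) := by
      intro n
      rw [Function.comp_apply, Real.volume_Icc]
      congr 1
      ring
    rw [tendsto_congr h3]
    have h4 : Tendsto (fun n : ℕ => 2 * (1 / ((n : ℝ) + 1))) atTop (𝓝 0) := by
      have h5 := (tendsto_one_div_add_atTop_nhds_zero_nat (𝕜 := ℝ)).const_mul 2
      rwa [mul_zero] at h5
    have h6 := ENNReal.tendsto_ofReal h4
    rwa [ENNReal.ofReal_zero] at h6
  have h3 := tendsto_setLIntegral_zero h1 h2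
  exact h3.eventually_le_const (pos_iff_ne_zero.mpr hε)

theorem root {b : ℝ} (hb : 2 < b) (x : ℝ≥0∞) : (x ^ b) ^ (1 / b) = x := by
  rw [← ENNReal.rpow_mul, mul_one_div, div_self (by linarith), ENNReal.rpow_one]

theorem root' {b : ℝ} (hb : 2 < b) (x : ℝ≥0∞) : (x ^ (1 / b)) ^ b = x := by
  rw [← ENNReal.rpow_mul, one_div, inv_mul_cancel₀ (by linarith), ENNReal.rpow_one]

end C1ax

open C1ax in
/-- **C1a**. -/
theorem thm_C1a (hGrp1 : Pool.Agent.QWE.St_Grp1) (hStr : St_StrS) (hSNt : St_SNt) (hLoc : St_Loc) :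
    St_C1a := by
  intro b hb Q hQ
  have hb0 : 0 < b := by linarith
  have hib : 0 ≤ 1 / b := by positivity
  have hcont : ∀ k : K, Continuous fun t => tau t k := hGrp1.2.2.2.2.2.2.2.1
  obtain ⟨A, hA0, hA⟩ := hQ.isBounded.exists_pos_norm_le
  obtain ⟨η, hη, hloc⟩ := hLoc b hb A hA0
  obtain ⟨C, hC0, hC⟩ := hStr b hb
  obtain ⟨δ, hδ⟩ : ∃ δ, δ = η / (2 * C) := ⟨_, rfl⟩
  have hδ0 : 0 < δ := by rw [hδ]; positivity
  obtain ⟨F, hFQ, hFfin, hcov⟩ := hQ.finite_cover_balls hδ0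
  have hev : ∀ᶠ n : ℕ in atTop, ∀ κ ∈ F,
      SN b (Icc (-(1 / ((n : ℝ) + 1))) (1 / ((n : ℝ) + 1))) (fun t => tau t κ) ≤
        ENNReal.ofReal (η / 2) ^ b := by
    rw [eventually_all_finite hFfin]
    intro κ _
    refine short hb hStr κ _ ?_
    have h0 : 0 < ENNReal.ofReal (η / 2) := ENNReal.ofReal_pos.2 (by positivity)
    exact (ENNReal.rpow_pos h0 ENNReal.ofReal_ne_top).ne'
  obtain ⟨n, hn⟩ := hev.exists
  obtain ⟨c, hc⟩ : ∃ c : ℝ, c = 1 / ((n : ℝ) + 1) := ⟨_, rfl⟩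
  have hc0 : 0 < c := by rw [hc]; positivity
  rw [← hc] at hn
  refine ⟨c, hc0, ?_⟩
  intro κ hκ
  obtain ⟨κi, hκi, hball⟩ : ∃ κi ∈ F, κ ∈ Metric.ball κi δ := by
    have h1 := hcov hκ
    simpa only [mem_iUnion, exists_prop] using h1
  -- the Strichartz norm of the free evolution of `κ`
  have hJ : MeasurableSet (Icc (-c) c) := measurableSet_Icc
  have h1 := (hSNt b hb (fun t => tau t κi) (fun t => tau t (κ - κi)) (Icc (-c) c) hJ
    (hcont κi).aestronglyMeasurable (hcont (κ - κi)).aestronglyMeasurable).1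
  have h2 : (fun t : ℝ => tau t κi + tau t (κ - κi)) = fun t => tau t κ := by
    funext t
    rw [← map_add, add_sub_cancel]
  rw [h2] at h1
  have h3 : (SN b (Icc (-c) c) fun t => tau t κi) ^ (1 / b) ≤ ENNReal.ofReal (η / 2) := by
    rw [← root hb (ENNReal.ofReal (η / 2))]
    exact ENNReal.rpow_le_rpow (hn κi hκi) hib
  have h4 : (SN b (Icc (-c) c) fun t => tau t (κ - κi)) ^ (1 / b) ≤ ENNReal.ofReal (η / 2) := by
    have h5 : (SN b (Icc (-c) c) fun t => tau t (κ - κi)) ≤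
        (ENNReal.ofReal C * ‖κ - κi‖ₑ) ^ b := by
      refine le_trans ?_ (hC (κ - κi)).1
      exact setLIntegral_le_lintegral _ _
    have h6 : ENNReal.ofReal C * ‖κ - κi‖ₑ ≤ ENNReal.ofReal (η / 2) := by
      rw [← ofReal_norm, ← ENNReal.ofReal_mul hC0.le]
      apply ENNReal.ofReal_le_ofReal
      rw [Metric.mem_ball, dist_eq_norm] at hball
      calc C * ‖κ - κi‖ ≤ C * δ := mul_le_mul_of_nonneg_left hball.le hC0.le
        _ = η / 2 := by
            rw [hδ]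
            field_simp
    refine (ENNReal.rpow_le_rpow h5 hib).trans ?_
    rw [root hb]
    exact h6
  have h5 : (SN b (Icc (-c) c) fun t => tau t κ) ^ (1 / b) ≤ ENNReal.ofReal η := by
    refine h1.trans ((add_le_add h3 h4).trans (le_of_eq ?_))
    rw [← ENNReal.ofReal_add (by positivity) (by positivity)]
    congr 1
    ring
  have h6 : (SN b (Icc (-c) c) fun t => tau (t - 0) κ) ≤ ENNReal.ofReal η ^ b := by
    have h7 : (fun t : ℝ => tau (t - 0) κ) = fun t => tau t κ := by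
      funext t
      rw [sub_zero]
    rw [h7]
    have h8 := ENNReal.rpow_le_rpow h5 hb0.le
    rwa [root' hb] at h8
  obtain ⟨k, hk, hk0, -⟩ := hloc κ (-c) c 0 η (hA κ hκ) (by linarith) hc0.le hη le_rfl h6
  exact ⟨k, hk, hk0⟩

end Pool.Agent.QWP
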