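import Pool.Agent.QWP.StA
import Pool.Agent.QWE.StG
import Pool.Agent.QWE.StD

set_option autoImplicit false

/-!
# QWP, block D: subluminality, all `b > 2`

Port of `Pool.Agent.QWE` block D (`QWE/StD.lean`; modules HB, Hcp, Hsc, D2, D3, D4, Intp, D5 are proved there): the proofs
are the same, with `ex (sig b)`, `IsSol b`, `CSol b`, `NSol b`. Linear statements have the parameter `s`, `|s| < 1/2`. The
statements `QWE.St_GrA`, `QWE.St_G0`, `QWE.St_GBd`, `QWE.St_GLim`, `QWE.St_Grp1`, `QWE.St_Intp` are about `K`, `gr`, `tau`, `sh` only and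
are used as they are. (`|sig b| < 1/2` for `b > 2`: `abs_sig_lt`.)
-/

open MeasureTheory Filter Topology Set
open scoped ENNReal NNReal RealInnerProductSpace

namespace Pool.Agent.QWP

open Pool.Agent.QWE (E S sg mu K toK tau sh dl rev gr ig IsTest pd lap Rad dRad Rk dRk c0 WD Sm SmE IsSch half shr WTo)

/-- **HBP** (half spaces). The first four clauses are those of `QWE.St_HB` about sets (proved in `QWE/HB.lean`, but there under
hypotheses; the proofs of these clauses do not use them) and monotonicity. (5) `St_ActP` and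
`{z | y + e^{-a} z ∈ half e c} = half e (e^a (c - ⟪y,e⟫))`. (6) as in QWE: `h(k; e, c - t) = h(sh (t e) k; e, c)`. -/
def St_HBP : Prop := ∀ s : ℝ, |s| < 1 / 2 →
  (∀ (e : E) (c : ℝ), IsOpen (half e c)) ∧
  (∀ (e : E) (c c' : ℝ) (k : K), c ≤ c' → ex s (half e c') k ≤ ex s (half e c) k) ∧
  (∀ (e : E) (c : ℝ), ‖e‖ = 1 → half e c ⊆ xt 0 c ∧ Metric.ball 0 c ⊆ half e (-c)) ∧
  (∀ (e : E) (c t : ℝ), ‖e‖ = 1 → 0 ≤ t → shr (half e c) t = half e (c + t)) ∧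
  (∀ (e y : E) (c a : ℝ) (k : K),
    ex s (half e c) (gr y a k) = ex s (half e (Real.exp a * (c - inner ℝ y e))) k) ∧
  (∀ (e : E) (c t : ℝ) (k : K), ‖e‖ = 1 →
    ex s (half e (c - t)) k ≤ ex s (half e c) k + ‖sh (t • e) k - k‖)

/-- **HcpP** (uniformity on compact sets). Proof as QWE.Hcp, from ExBP, HBP. -/
def St_HcpP : Prop := ∀ (s : ℝ) (Q : Set K) (d : ℝ), |s| < 1 / 2 → IsCompact Q → 0 < d → ∃ C0 : ℝ, 0 < C0 ∧
  ∀ κ ∈ Q, ∀ e : E, ‖e‖ = 1 → ex s (half e C0) κ ≤ d ∧ ‖κ‖ - d ≤ ex s (half e (-C0)) κ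

/-- **HscP** (semicontinuity in all variables). Proof as QWE.Hsc, from ExBP, CutP, HBP. -/
def St_HscP : Prop := ∀ s : ℝ, |s| < 1 / 2 →
  (∀ (W : ℕ → K) (W' : K) (e : ℕ → E) (e' : E) (b : ℕ → ℝ) (b' b1 ε : ℝ),
    Tendsto W atTop (𝓝 W') → Tendsto e atTop (𝓝 e') → Tendsto b atTop (𝓝 b') → b1 < b' → 0 < ε →
    ∀ᶠ n in atTop, ex s (half (e n) (b n)) (W n) ≤ ex s (half e' b1) W' + ε) ∧
  (∀ (W : ℕ → K) (W' : K) (e : ℕ → E) (e' : E) (b : ℕ → ℝ) (b' d : ℝ),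
    Tendsto W atTop (𝓝 W') → Tendsto e atTop (𝓝 e') → Tendsto b atTop (𝓝 b') →
    (∀ n, ex s (half (e n) (b n)) (W n) ≤ d) → ex s (half e' b') W' ≤ d)

/-- **D2** (small data in a half space moving with speed one). Proof as QWE.D2, from Ext, D1P, ExBP, HBP, QWE.Grp1. -/
def St_D2 : Prop := ∀ b : ℝ, 2 < b → ∃ d0 : ℝ, 0 < d0 ∧ ∀ (k : ℝ → K) (e : E) (c t0 : ℝ), IsSol b univ k → ‖e‖ = 1 →
  ex (sig b) (half e c) (k t0) ≤ d0 →
  (∀ t, t0 ≤ t → ex (sig b) (half e (c + (t - t0))) (k t) ≤ 2 * ex (sig b) (half e c) (k t0)) ∧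
  Tendsto (fun t => ex (sig b) (half e (c + (t - t0))) (k t)) atTop (𝓝 0)

/-- **D3** (gain over the speed of light). Proof as QWE.D3, from D2, HBP, HcpP, HscP, C3, CSy, QWE.GrA, QWE.Grp1. -/
def St_D3 : Prop := ∀ b : ℝ, 2 < b → ∃ d0 : ℝ, 0 < d0 ∧
  ∀ (Q : Set K) (k : ℝ → K) (x : ℝ → E) (a : ℝ → ℝ) (d1 : ℝ), CSol b Q univ k x a →
  0 < d1 → d1 ≤ d0 → (∀ κ ∈ Q, d1 < ‖κ‖) → ∃ Tb s1 : ℝ, 0 < s1 ∧ s1 < Tb ∧
  ∀ (t : ℝ) (e : E) (c : ℝ), ‖e‖ = 1 → ex (sig b) (half e c) (k t) ≤ d1 →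
    ex (sig b) (half e (c + (Tb - s1) * Real.exp (-(a t)))) (k (t + Tb * Real.exp (-(a t)))) ≤ d1

/-- **D4** (speed of the centre). Proof as QWE.D4, from D2, D3, HBP, HcpP, ABd. -/
def St_D4 : Prop := ∀ b : ℝ, 2 < b → ∀ (Q : Set K) (k : ℝ → K) (x : ℝ → E) (a : ℝ → ℝ), NSol b Q k x a →
  ∃ kap C : ℝ, 0 < kap ∧ kap < 1 ∧ ∀ s t, dist (x t) (x s) ≤ (1 - kap) * |t - s| + C

/-- `s = 1/2 - 2/b` is in `(-1/2, 1/2)`. -/
lemma abs_sig_lt {b : ℝ} (hb : 2 < b) : |sig b| < 1 / 2 := by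
  unfold sig
  have h1 : 0 < 2 / b := by positivity
  have h2 : 2 / b < 1 := by rw [div_lt_one (by linarith)]; exact hb
  rw [abs_lt]; constructor <;> linarith

end Pool.Agent.QWP
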