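import Pool.Agent.QWP.StC
import Pool.Agent.QWP.StD
import Pool.Agent.QWE.StC

set_option autoImplicit false

/-!
# QWP, module C2: compact solutions are global
-/

open MeasureTheory Filter Topology Set
open scoped ENNReal NNReal RealInnerProductSpace

namespace Pool.Agent.QWP

open Pool.Agent.QWE (E S sg mu K toK tau sh dl rev gr ig IsTest pd lap Rad dRad Rk dRk c0 WD Sm SmE IsSch half shr WTo)

namespace C2x

theorem sol_mono {b : ℝ} {I J : Set ℝ} {k : ℝ → K} (hJ : J.OrdConnected) (h : J ⊆ I)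
    (hk : IsSol b I k) : IsSol b J k :=
  ⟨hJ, hk.2.1.mono h, fun x hx y hy => hk.2.2.1 x (h hx) y (h hy),
    fun x hx t ht => hk.2.2.2 x (h hx) t (h ht)⟩

theorem EB_mono {s B B' : ℝ} {k : K} (h : B ≤ B') (hk : EB s B k) : EB s B' k :=
  ⟨fun i => (hk.1 i).trans (ENNReal.ofReal_le_ofReal h),
    hk.2.1.trans (ENNReal.ofReal_le_ofReal h), hk.2.2.trans (ENNReal.ofReal_le_ofReal h)⟩

/-- a compact solution is not bounded above -/
theorem notBdd (hC2a : St_C2a) (hC2b : St_C2b) (hEn : St_En) (hZ1 : St_Z1)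
    (hGr : Pool.Agent.QWE.St_GrA) {p : ℝ} (hp : 2 < p)
    {Q : Set K} {I : Set ℝ} {k : ℝ → K} {x : ℝ → E} {a : ℝ → ℝ} (hk : CSol p Q I k x a) :
    ¬ BddAbove I := by
  intro hb
  obtain ⟨-, -, -, g4, -⟩ := hGr
  obtain ⟨hQ, hQ0, hmax, hrep⟩ := hk
  have hne : I.Nonempty := hmax.2.2.1
  have hopen : IsOpen I := hmax.2.1
  have hT : IsLUB I (sSup I) := isLUB_csSup hne hb
  obtain ⟨T, hTdef⟩ : ∃ T, T = sSup I := ⟨_, rfl⟩
  rw [← hTdef] at hT
  have hTI : T ∉ I := by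
    intro h
    obtain ⟨ε, hε, hball⟩ := Metric.isOpen_iff.1 hopen T h
    have h1 : T + ε / 2 ∈ I := hball (by
      rw [Metric.mem_ball, Real.dist_eq, add_sub_cancel_left, abs_of_pos (by positivity)]
      linarith)
    have h2 := hT.1 h1
    linarith
  have hlt : ∀ s ∈ I, s < T := fun s hs => lt_of_le_of_ne (hT.1 hs) fun h => hTI (h ▸ hs)
  obtain ⟨x0, hx0⟩ := hC2a p hp Q I k x a ⟨hQ, hQ0, hmax, hrep⟩ T hT
  obtain ⟨C, hC, hCb⟩ := hC2b p hp
  obtain ⟨A, hA, hAQ⟩ := hQ.isBounded.exists_pos_norm_le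
  have hnorm : ∀ s ∈ I, ‖k s‖ ≤ A ∧ k s ≠ 0 := by
    intro s hs
    obtain ⟨κ, hκ, he⟩ := hrep s hs
    have h1 : ‖k s‖ = ‖κ‖ := by rw [he]; exact (g4 (x s) (a s) κ).1
    refine ⟨h1 ▸ hAQ κ hκ, fun h => ?_⟩
    rw [h, norm_zero] at h1
    exact hQ0 ((norm_eq_zero.1 h1.symm) ▸ hκ)
  have hsig := abs_lt.1 (abs_sig_lt hp)
  obtain ⟨r, hr⟩ : ∃ r, r = 2 + 2 * sig p := ⟨_, rfl⟩
  have hr1 : 1 ≤ r := by rw [hr]; linarith [hsig.1]
  have hb2 : ∀ s ∈ I, EB (sig p) (C * (3 * (T - s)) ^ (1 + sig p) * A) (k s) ∧ 0 ≤ En p (k s) ∧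
      En p (k s) ≤ C * (3 * (T - s)) ^ r * (A ^ 2 + A ^ (p + 2)) := by
    intro s hs
    have hρ : 0 < T - s := sub_pos.2 (hlt s hs)
    have h1 := hx0 s hs (T - s) hρ
    have h2 : 2 * (T - s) + T - s = 3 * (T - s) := by ring
    rw [h2] at h1
    obtain ⟨h3, h4, h5⟩ := hCb (k s) x0 (3 * (T - s)) (by positivity) h1
    rw [← hr] at h5
    have h7 := (hnorm s hs).1
    refine ⟨EB_mono ?_ h3, h4, h5.trans ?_⟩
    · exact mul_le_mul_of_nonneg_left h7 (by positivity)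
    · have h8 : ‖k s‖ ^ 2 ≤ A ^ 2 := pow_le_pow_left₀ (norm_nonneg _) h7 2
      have h9 : ‖k s‖ ^ (p + 2) ≤ A ^ (p + 2) :=
        Real.rpow_le_rpow (norm_nonneg _) h7 (by linarith)
      exact mul_le_mul_of_nonneg_left (add_le_add h8 h9) (by positivity)
  obtain ⟨s, hs⟩ := hne
  have hzero : En p (k s) = 0 := by
    refine le_antisymm ?_ (hb2 s hs).2.1
    by_contra hcon
    rw [not_le] at hcon
    obtain ⟨M, hM⟩ : ∃ M, M = C * 3 ^ r * (A ^ 2 + A ^ (p + 2)) := ⟨_, rfl⟩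
    have hM0 : 0 < M := by rw [hM]; positivity
    obtain ⟨δ, hδ⟩ : ∃ δ, δ = min (min 1 (T - s)) (En p (k s) / (2 * M)) := ⟨_, rfl⟩
    have hTs : 0 < T - s := sub_pos.2 (hlt s hs)
    have hδ0 : 0 < δ := by rw [hδ]; exact lt_min (lt_min one_pos hTs) (by positivity)
    have hδ1 : δ ≤ 1 := by rw [hδ]; exact (min_le_left _ _).trans (min_le_left _ _)
    have hδ3 : δ ≤ T - s := by rw [hδ]; exact (min_le_left _ _).trans (min_le_right _ _)
    have hδ2 : δ ≤ En p (k s) / (2 * M) := by rw [hδ]; exact min_le_right _ _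
    obtain ⟨s', hs', hs'1, -⟩ := hT.exists_between (sub_lt_self T hδ0)
    have hss : s ≤ s' := by linarith
    have hsub : Icc s s' ⊆ I := hmax.1.1.out hs hs'
    have h1 := hEn p hp s s' (C * (3 * (T - s)) ^ (1 + sig p) * A) k hss
      (sol_mono ordConnected_Icc hsub hmax.1) (fun t ht => by
        refine EB_mono ?_ (hb2 t (hsub ht)).1
        have h0 : 0 < T - t := sub_pos.2 (hlt t (hsub ht))
        have h1 : (3 * (T - t)) ^ (1 + sig p) ≤ (3 * (T - s)) ^ (1 + sig p) :=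
          Real.rpow_le_rpow (by positivity) (by linarith [ht.1]) (by linarith [hsig.1])
        exact mul_le_mul_of_nonneg_right (mul_le_mul_of_nonneg_left h1 hC.le) hA.le)
    have h2 := (hb2 s' hs').2.2
    rw [h1] at h2
    have h3 : T - s' < δ := by linarith
    have h4 : 0 < T - s' := sub_pos.2 (hlt s' hs')
    have h5 : (T - s') ^ r ≤ δ := by
      calc (T - s') ^ r ≤ (T - s') ^ (1 : ℝ) :=
            Real.rpow_le_rpow_of_exponent_ge h4 (by linarith) hr1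
        _ = T - s' := Real.rpow_one _
        _ ≤ δ := h3.le
    have h6 : C * (3 * (T - s')) ^ r * (A ^ 2 + A ^ (p + 2)) = M * (T - s') ^ r := by
      rw [hM, Real.mul_rpow (by norm_num) h4.le]; ring
    rw [h6] at h2
    have h7 : M * (T - s') ^ r ≤ M * (En p (k s) / (2 * M)) :=
      mul_le_mul_of_nonneg_left (h5.trans hδ2) hM0.le
    have h8 : M * (En p (k s) / (2 * M)) = En p (k s) / 2 := by
      field_simp
    linarith
  exact (hnorm s hs).2 ((hZ1 p hp (k s) _ (hb2 s hs).1).2 hzero)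

end C2x

open C2x in
theorem thm_C2 (hC2a : St_C2a) (hC2b : St_C2b) (hEn : St_En) (hZ1 : St_Z1) (hCSy : St_CSy)
    (hGr : Pool.Agent.QWE.St_GrA) : St_C2 := by
  intro p hp Q I k x a hk
  have h1 : ¬ BddAbove I := notBdd hC2a hC2b hEn hZ1 hGr hp hk
  have h2 : ¬ BddAbove {t : ℝ | -t ∈ I} :=
    notBdd hC2a hC2b hEn hZ1 hGr hp ((hCSy p hp).2 Q I k x a hk)
  rw [not_bddAbove_iff] at h1 h2
  refine eq_univ_of_forall fun t => ?_
  obtain ⟨u, hu, htu⟩ := h1 t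
  obtain ⟨v, hv, htv⟩ := h2 (-t)
  exact hk.2.2.1.1.1.out hv hu ⟨by linarith, htu.le⟩

end Pool.Agent.QWP
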