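import Pool.Agent.QWP.StC
import Pool.Agent.QWE.StC

set_option autoImplicit false

/-!
# QWP, module C4: bounded oscillation
-/

open MeasureTheory Filter Topology Set
open scoped ENNReal NNReal RealInnerProductSpace

namespace Pool.Agent.QWP

open Pool.Agent.QWE (E S sg mu K toK tau sh dl rev gr ig IsTest pd lap Rad dRad Rk dRk c0 WD Sm SmE IsSch half shr WTo)

theorem thm_C4 (hGr : Pool.Agent.QWE.St_GrA) (hG0 : Pool.Agent.QWE.St_G0) (hC3 : St_C3) :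
    St_C4 := by
  intro p hp Q k x a hk T
  by_contra hcon
  push Not at hcon
  choose t s hs ht using fun n : ℕ => hcon (n : ℝ)
  obtain ⟨hQ, hQ0, hmax, hrep⟩ := hk
  choose κn hκQ hκ using fun n : ℕ => hrep (t n) (mem_univ _)
  choose κm hκmQ hκm using
    fun n : ℕ => hrep (t n + Real.exp (-(a (t n))) * s n) (mem_univ _)
  obtain ⟨κ, -, φ, hφ, hφκ⟩ := hQ.tendsto_subseq hκQ
  obtain ⟨s0, -, ψ, hψ, hψs⟩ := (isCompact_Icc (a := -T) (b := T)).tendsto_subseq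
    (x := s ∘ φ) (fun n => abs_le.1 (hs (φ n)))
  have hφψ : StrictMono (φ ∘ ψ) := hφ.comp hψ
  obtain ⟨k', x', a', hk', -, hlim, -⟩ := hC3 p hp Q k x a ⟨hQ, hQ0, hmax, hrep⟩
    (t ∘ φ ∘ ψ) (κn ∘ φ ∘ ψ) κ (fun n => ⟨hκQ _, hκ _⟩) (hφκ.comp hψ.tendsto_atTop)
  have h1 := hlim (s ∘ φ ∘ ψ) s0 hψs
  obtain ⟨g1, g2, g3, g4, g5, g6, g7, g8, g9, g10⟩ := hGr
  -- the limit is not zero
  have hne : k' s0 ≠ 0 := by
    obtain ⟨hQ', hQ0', -, hrep'⟩ := hk'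
    obtain ⟨κ', hκ', he⟩ := hrep' s0 (mem_univ _)
    intro h0
    rw [h0] at he
    have h2 := (g4 (x' s0) (a' s0) κ').1
    rw [← he, norm_zero] at h2
    exact hQ0' (by rwa [norm_eq_zero.1 h2.symm] at hκ')
  -- the weak limit is zero
  set y : ℕ → E := fun n => -(Real.exp (a (t ((φ ∘ ψ) n))) • x (t ((φ ∘ ψ) n))) +
    Real.exp (-(-(a (t ((φ ∘ ψ) n))))) •
      x (t ((φ ∘ ψ) n) + Real.exp (-(a (t ((φ ∘ ψ) n)))) * s ((φ ∘ ψ) n)) with hy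
  set b : ℕ → ℝ := fun n => -(a (t ((φ ∘ ψ) n))) +
    a (t ((φ ∘ ψ) n) + Real.exp (-(a (t ((φ ∘ ψ) n)))) * s ((φ ∘ ψ) n)) with hb
  have hbt : Tendsto b atTop atTop := by
    refine tendsto_atTop_mono (f := fun n : ℕ => (n : ℝ)) (fun n => ?_) tendsto_natCast_atTop_atTop
    have h2 := ht ((φ ∘ ψ) n)
    have h3 : (n : ℝ) ≤ ((φ ∘ ψ) n : ℕ) := by exact_mod_cast hφψ.id_le n
    simp only [hb]
    linarith
  have hw := hG0 Q (fun n => κm ((φ ∘ ψ) n)) y b hQ (fun n => hκmQ _) (Or.inl hbt)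
  have heq : ∀ n, ig (x ((t ∘ φ ∘ ψ) n)) (a ((t ∘ φ ∘ ψ) n))
      (k ((t ∘ φ ∘ ψ) n + Real.exp (-(a ((t ∘ φ ∘ ψ) n))) * (s ∘ φ ∘ ψ) n)) =
      gr (y n) (b n) (κm ((φ ∘ ψ) n)) := by
    intro n
    have h2 := hκm ((φ ∘ ψ) n)
    simp only [Function.comp_apply] at h2 ⊢
    rw [h2, ig, g1]
    rfl
  have h3 : Tendsto (fun n => gr (y n) (b n) (κm ((φ ∘ ψ) n))) atTop (𝓝 (k' s0)) := by
    refine h1.congr heq
  have h4 := hw (k' s0)
  have h5 : Tendsto (fun n => inner ℝ (gr (y n) (b n) (κm ((φ ∘ ψ) n))) (k' s0)) atTop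
      (𝓝 (inner ℝ (k' s0) (k' s0))) := h3.inner tendsto_const_nhds
  have h6 := tendsto_nhds_unique h5 h4
  rw [inner_zero_left, real_inner_self_eq_norm_sq] at h6
  exact hne (norm_eq_zero.1 (pow_eq_zero_iff (two_ne_zero) |>.1 h6))

end Pool.Agent.QWP
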