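import Pool.Agent.QWP.StA2

set_option autoImplicit false

/-!
# QWP, block B: nonlinear theory for `u_tt - Δu + |u|^b u = 0`, `b > 2`

Ports of block B of `Pool.Agent.QWE` (`4` becomes `b`, `20` becomes `5b`): every `St_X` is to be proved as `theorem thm_X : St_X`
(possibly with other statements of QWP or QWE as hypotheses) in `Pool/Agent/QWP/X.lean`. Copy the proof in
`Pool/Agent/QWE/X.lean` and adapt. `s = sig b`, `|s| < 1/2`, `u = U s k`, `S(J)`-norm `= (SN b J k)^{1/b}`, `sn b k = ‖u‖_{5b}`,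
`F(u) = Fn b u = |u|^b u`. From block A: FldP, ActP, ExBP, FreeP, FSPP, GamP, StrS, SnP, LscP. In the energy part everything happens on the
`s = 0` side (`Rk`, `dRk`), so the statements of QWE may be used there.
-/

open MeasureTheory Filter Topology Set
open scoped ENNReal NNReal RealInnerProductSpace

namespace Pool.Agent.QWP

open Pool.Agent.QWE (E S sg mu K toK tau sh dl rev gr ig IsTest pd lap Rad dRad Rk dRk c0 WD Sm SmE IsSch half shr WTo)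

/-- **NLb** (bounds for the nonlinearity). Proved in the product estimates block (dual Sobolev for the source; Gagliardo-Nirenberg for `b > 4`). -/
def St_NLb : Prop := ∀ b : ℝ, 2 < b →
  (∃ C : ℝ, 0 < C ∧ (∀ k : K, ‖NL b k‖ₑ ≤ ENNReal.ofReal C * sn b k ^ b * ‖k‖ₑ) ∧
    ∀ k k' : K, sn b k < ⊤ → sn b k' < ⊤ → ‖NL b k - NL b k'‖ₑ ≤ ENNReal.ofReal C *
      ((sn b k + sn b k') ^ (b - 1) * sn b (k - k') * (‖k‖ₑ + ‖k'‖ₑ) +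
        (sn b k + sn b k') ^ b * ‖k - k'‖ₑ)) ∧
  ∀ k : K, sn b k < ⊤ → MemLp (fun x => Fn b (U (sig b) k x)) (q1 (sig b)) volume ∧
    IsGam (sig b) (fun x => Fn b (U (sig b) k x)) (NL b k) ∧ (U (sig b) (NL b k) =ᵐ[volume] 0) ∧
    (V (sig b) (NL b k) =ᵐ[volume] fun x => Fn b (U (sig b) k x))

/-- **NLw** (pairing with test states). Proof: IsGam of NLb. The functional `k ↦ ∫ F(U k) φ` is defined and continuous on all of `K`: `U k ∈ L^{q0}`, `q0 = 5b/2 ≥ b + 1`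
(`5b/2 - b - 1 = 3b/2 - 1 > 0`), `|F(u) - F(w)| ≤ (b+1) (|u|+|w|)^b |u-w|`, Hoelder on the support of `φ`: `≤ C_φ (‖u‖_{q0} + ‖w‖_{q0})^b ‖u-w‖_{q0}`, FldP. -/
def St_NLw : Prop := ∀ b : ℝ, 2 < b → ∀ φ : E → ℝ, IsTest φ →
  (∀ k : K, sn b k < ⊤ → inner ℝ (NL b k) (Rs (sig b) φ) = 0 ∧
    inner ℝ (NL b k) (dRs (sig b) φ) = ∫ x, Fn b (U (sig b) k x) * φ x) ∧
  (∀ k : K, Integrable (fun x => Fn b (U (sig b) k x) * φ x) volume) ∧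
  (Continuous fun k : K => ∫ x, Fn b (U (sig b) k x) * φ x) ∧
  ∃ C : ℝ, ∀ k : K, |∫ x, Fn b (U (sig b) k x) * φ x| ≤ C * ‖k‖ ^ (b + 1)

/-- **NLoP** (locality of the nonlinearity). Proof as QWE.NLo: by NLb the fields of `NL b k - NL b k'` are `0` and `F(u) - F(u')` a.e. (FldP); `U k = U k'` a.e. on `Ω` (ExBP), so they
vanish a.e. on `Ω`. Second part: L8P. -/
def St_NLoP : Prop := ∀ b : ℝ, 2 < b →
  (∀ (Ω : Set E) (k k' : K), IsOpen Ω → sn b k < ⊤ → sn b k' < ⊤ → Van (sig b) Ω (k - k') →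
    Van (sig b) Ω (NL b k - NL b k')) ∧
  ∀ (y : E) (ρ : ℝ) (k k' : K), 0 ≤ ρ → sn b k < ⊤ → sn b k' < ⊤ → Van (sig b) (xt y ρ) (k - k') →
    na (sig b) {z | ρ < |z.2 - inner ℝ y (z.1 : E)|} (NL b k - NL b k') = 0

/-- **Meas** (measurability). Proof as QWE.Meas: first parts from LscP, SnP. Last part: on `{r : sn b (k r) < ⊤}` the functions `r ↦ ⟨NL b (k r), Rs s φ⟩`, `r ↦ ⟨NL b (k r), dRs s φ⟩` are
measurable (NLw), the test states are total (DnsP), `QWE.Measx.pettis`. -/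
def St_Meas : Prop := ∀ b : ℝ, 2 < b → ∀ (k : ℝ → K) (J : Set ℝ), MeasurableSet J →
  AEStronglyMeasurable k (volume.restrict J) →
  AEMeasurable (fun r => sn b (k r)) (volume.restrict J) ∧
  (∀ (p : ℝ≥0∞) (B : Set E), 1 ≤ p → MeasurableSet B →
    AEMeasurable (fun r => eLpNorm (B.indicator (U (sig b) (k r))) p volume) (volume.restrict J)) ∧
  ((∀ᵐ r ∂(volume.restrict J), sn b (k r) < ⊤) →
    AEStronglyMeasurable (fun r => NL b (k r)) (volume.restrict J))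

/-- **DuhI** (Duhamel integrals). Proof as QWE.DuhI, with StrS; the exponents `b` and `(b+2)/2` are `≥ 1`. -/
def St_DuhI : Prop := ∀ b : ℝ, 2 < b → ∃ C : ℝ, 0 < C ∧ ∀ (x y t0 : ℝ) (G : ℝ → K), x ≤ t0 → t0 ≤ y →
  IntegrableOn G (Icc x y) volume →
  ContinuousOn (fun t => ∫ r in t0..t, tau (t - r) (G r)) (Icc x y) ∧
  (∀ t ∈ Icc x y, ‖∫ r in t0..t, tau (t - r) (G r)‖ ≤ ∫ r in Icc x y, ‖G r‖) ∧
  SN b (Icc x y) (fun t => ∫ r in t0..t, tau (t - r) (G r)) ≤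
    ENNReal.ofReal (C * ∫ r in Icc x y, ‖G r‖) ^ b ∧
  ∫⁻ t in Icc x y, eLpNorm (U (sig b) (∫ r in t0..t, tau (t - r) (G r)))
      (ENNReal.ofReal (5 * b * (b + 2) / 4)) volume ^ ((b + 2) / 2) ≤
    ENNReal.ofReal (C * ∫ r in Icc x y, ‖G r‖) ^ ((b + 2) / 2)

/-- **SNt** (triangle inequality). Proof: Minkowski in `L^b(J)`, SnP, Meas. -/
def St_SNt : Prop := ∀ b : ℝ, 2 < b → ∀ (k k' : ℝ → K) (J : Set ℝ), MeasurableSet J →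
  AEStronglyMeasurable k (volume.restrict J) → AEStronglyMeasurable k' (volume.restrict J) →
  (SN b J (fun t => k t + k' t)) ^ (1 / b) ≤ (SN b J k) ^ (1 / b) + (SN b J k') ^ (1 / b) ∧
  SN b J (fun t => - k t) = SN b J k

/-- One Picard step. -/
noncomputable def Pic (b : ℝ) (k0 : K) (t0 : ℝ) (k : ℝ → K) : ℝ → K :=
  fun t => tau (t - t0) k0 - ∫ r in t0..t, tau (t - r) (NL b (k r))

/-- Picard iterates. -/
noncomputable def PicN (b : ℝ) (k0 : K) (t0 : ℝ) : ℕ → ℝ → K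
  | 0 => fun t => tau (t - t0) k0
  | n + 1 => Pic b k0 t0 (PicN b k0 t0 n)

/-- **Loc** (local theory). Proof as QWE.Loc: `∫ ‖NL b k‖ ≤ C (2η)^b 2A`, `∫ ‖NL b k - NL b k'‖ ≤ C [(4η)^{b-1} ‖u-u'‖_S 4A + (4η)^b sup ‖k-k'‖]` (Hoelder in `t`, exponents `b/(b-1)`, `b`). -/
def St_Loc : Prop := ∀ b : ℝ, 2 < b → ∀ A : ℝ, 0 < A → ∃ η0 : ℝ, 0 < η0 ∧
  ∀ (k0 : K) (x y t0 η : ℝ), ‖k0‖ ≤ A → x ≤ t0 → t0 ≤ y → 0 < η → η ≤ η0 →
  SN b (Icc x y) (fun t => tau (t - t0) k0) ≤ ENNReal.ofReal η ^ b →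
  ∃ k : ℝ → K, IsSol b (Icc x y) k ∧ k t0 = k0 ∧ SN b (Icc x y) k ≤ ENNReal.ofReal (2 * η) ^ b ∧
    (∀ t ∈ Icc x y, ‖k t‖ ≤ 2 * A) ∧
    ∀ t ∈ Icc x y, Tendsto (fun n => PicN b k0 t0 n t) atTop (𝓝 (k t))

/-- **Uniq** (uniqueness). Proof as QWE.Uniq. -/
def St_Uniq : Prop := ∀ b : ℝ, 2 < b → ∀ (I J : Set ℝ) (k k' : ℝ → K) (t0 : ℝ), IsSol b I k → IsSol b J k' →
  t0 ∈ I → t0 ∈ J → k t0 = k' t0 → ∀ t ∈ I, t ∈ J → k t = k' t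

/-- **Glue** (gluing). Proof as QWE.Glue. -/
def St_Glue : Prop := ∀ b : ℝ, 2 < b → ∀ (I J : Set ℝ) (k k' : ℝ → K) (t0 : ℝ), IsSol b I k → IsSol b J k' →
  t0 ∈ I → t0 ∈ J → k t0 = k' t0 →
  ∃ k'' : ℝ → K, IsSol b (I ∪ J) k'' ∧ (∀ t ∈ I, k'' t = k t) ∧ ∀ t ∈ J, k'' t = k' t

/-- **Gron** (a priori bound). Proof as QWE.Gron. -/
def St_Gron : Prop := ∀ b : ℝ, 2 < b → ∃ C : ℝ, 0 < C ∧ ∀ (I : Set ℝ) (k : ℝ → K), IsSol b I k →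
  SN b I k < ⊤ → ∀ x ∈ I, ∀ t ∈ I, ‖k t‖ ≤ ‖k x‖ * Real.exp (C * (SN b I k).toReal)

/-- **MaxE** (maximal solutions). Proof as QWE.MaxE. -/
def St_MaxE : Prop := ∀ b : ℝ, 2 < b → ∀ (k0 : K) (t0 : ℝ), ∃ (I : Set ℝ) (k : ℝ → K), IsMax b I k ∧
  t0 ∈ I ∧ k t0 = k0 ∧
  ∀ (J : Set ℝ) (k' : ℝ → K), IsSol b J k' → t0 ∈ J → k' t0 = k0 → J ⊆ I ∧ ∀ t ∈ J, k' t = k t

/-- **Blow** (blow-up criterion and scattering). Proof as QWE.Blow. -/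
def St_Blow : Prop := ∀ b : ℝ, 2 < b → ∀ (I : Set ℝ) (k : ℝ → K) (t0 : ℝ), IsMax b I k → t0 ∈ I →
  (SN b (I ∩ Ici t0) k < ⊤ → Ici t0 ⊆ I ∧ (∃ B, ∀ t ∈ Ici t0, ‖k t‖ ≤ B) ∧
    ∃ kp, Tendsto (fun t => tau (-t) (k t)) atTop (𝓝 kp)) ∧
  (SN b (I ∩ Iic t0) k < ⊤ → Iic t0 ⊆ I ∧ (∃ B, ∀ t ∈ Iic t0, ‖k t‖ ≤ B) ∧
    ∃ km, Tendsto (fun t => tau (-t) (k t)) atBot (𝓝 km))

/-- **Small** (small data). Proof as QWE.Small. -/
def St_Small : Prop := ∀ b : ℝ, 2 < b → ∃ d0 C : ℝ, 0 < d0 ∧ 0 < C ∧ ∀ (k0 : K) (t0 : ℝ), ‖k0‖ ≤ d0 →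
  ∃ k : ℝ → K, IsSol b univ k ∧ k t0 = k0 ∧ (∀ t, ‖k t‖ ≤ 2 * ‖k0‖) ∧
    SN b univ k ≤ ENNReal.ofReal (C * ‖k0‖) ^ b ∧ Integrable (fun t => NL b (k t)) volume ∧
    ∫ t, ‖NL b (k t)‖ ≤ C * ‖k0‖ ^ (b + 1) ∧
    (∃ kp, Tendsto (fun t => tau (-t) (k t)) atTop (𝓝 kp)) ∧
    ∃ km, Tendsto (fun t => tau (-t) (k t)) atBot (𝓝 km)

/-- **Pert** (perturbation lemma). Proof as QWE.Pert. -/
def St_Pert : Prop := ∀ b : ℝ, 2 < b → ∀ A M : ℝ, 0 < A → 0 < M → ∃ e1 C : ℝ, 0 < e1 ∧ 0 < C ∧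
  ∀ (T ε : ℝ) (kt e : ℝ → K) (k0 : K), 0 ≤ T → 0 ≤ ε → ε ≤ e1 → ContinuousOn kt (Icc 0 T) →
    (∀ t ∈ Icc 0 T, ‖kt t‖ ≤ A) → SN b (Icc 0 T) kt ≤ ENNReal.ofReal M →
    IntegrableOn e (Icc 0 T) volume → ∫ r in Icc 0 T, ‖e r‖ ≤ ε →
    (∀ t ∈ Icc 0 T, kt t = tau t (kt 0) - ∫ r in (0 : ℝ)..t, tau (t - r) (NL b (kt r) - e r)) →
    ‖k0 - kt 0‖ ≤ ε →
    ∃ k : ℝ → K, IsSol b (Icc 0 T) k ∧ k 0 = k0 ∧ (∀ t ∈ Icc 0 T, ‖k t - kt t‖ ≤ C * ε) ∧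
      SN b (Icc 0 T) (fun t => k t - kt t) ≤ ENNReal.ofReal (C * ε) ^ b

/-- **Stab** (stability on compact intervals). Proof as QWE.Stab. -/
def St_Stab : Prop := ∀ b : ℝ, 2 < b → ∀ (x y t0 : ℝ) (k : ℝ → K) (k0 : ℕ → K), x ≤ t0 → t0 ≤ y →
  IsSol b (Icc x y) k → Tendsto k0 atTop (𝓝 (k t0)) →
  ∃ kn : ℕ → ℝ → K, (∀ᶠ n in atTop, IsSol b (Icc x y) (kn n) ∧ kn n t0 = k0 n) ∧
    ∀ ε : ℝ, 0 < ε → ∀ᶠ n in atTop, (∀ t ∈ Icc x y, ‖kn n t - k t‖ < ε) ∧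
      SN b (Icc x y) (fun t => kn n t - k t) < ENNReal.ofReal ε

/-- **GStab** (stability on a half line). Proof as QWE.GStab. -/
def St_GStab : Prop := ∀ b : ℝ, 2 < b → ∀ (k : ℝ → K) (k0 : ℕ → K), IsSol b (Ici 0) k →
  SN b (Ici 0) k < ⊤ → Tendsto k0 atTop (𝓝 (k 0)) →
  ∃ kn : ℕ → ℝ → K, ∀ᶠ n in atTop, IsSol b (Ici 0) (kn n) ∧ kn n 0 = k0 n ∧
    SN b (Ici 0) (kn n) ≤ SN b (Ici 0) k + 1

/-- **Sym** (symmetries). Proof as QWE.Sym: `sn b (sh y k) = sn b k`, `sn b (dl a k) = e^{a/b} sn b k`, `sn b (rev k) = sn b k` (SnP with `gr 0 a`, `gr y 0`; Grp1, Grp2), `NL b (sh y k) = sh y (NL b k)`,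
`NL b (dl a k) = e^a dl a (NL b k)` (`U (dl a k) = e^{2a/b} U k (e^a ·)`, `V (dl a w) = e^{(1+2/b)a} V w (e^a ·)`, ActP; `2(b+1)/b - 1 - 2/b = 1`), `NL b (rev k) = - rev (NL b k)`. -/
def St_Sym : Prop := ∀ b : ℝ, 2 < b →
  (∀ y k, sn b (sh y k) = sn b k) ∧
  (∀ a k, sn b (dl a k) = ENNReal.ofReal (Real.exp (a / b)) * sn b k) ∧
  (∀ k, sn b (rev k) = sn b k) ∧ (∀ y k, NL b (sh y k) = sh y (NL b k)) ∧
  (∀ a k, NL b (dl a k) = Real.exp a • dl a (NL b k)) ∧ (∀ k, NL b (rev k) = - rev (NL b k)) ∧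
  (∀ (I : Set ℝ) (k : ℝ → K), IsSol b I k →
    (∀ c : ℝ, IsSol b {t | t + c ∈ I} (fun t => k (t + c))) ∧
    (∀ y : E, IsSol b I (fun t => sh y (k t))) ∧
    (∀ a : ℝ, IsSol b {t | Real.exp a * t ∈ I} (fun t => dl a (k (Real.exp a * t)))) ∧
    IsSol b {t | -t ∈ I} (fun t => rev (k (-t)))) ∧
  (∀ (J : Set ℝ) (k : ℝ → K), MeasurableSet J →
    (∀ c : ℝ, SN b {t | t + c ∈ J} (fun t => k (t + c)) = SN b J k) ∧
    (∀ y : E, SN b J (fun t => sh y (k t)) = SN b J k) ∧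
    (∀ a : ℝ, SN b {t | Real.exp a * t ∈ J} (fun t => dl a (k (Real.exp a * t))) = SN b J k) ∧
    SN b {t | -t ∈ J} (fun t => rev (k (-t))) = SN b J k)

/-- **NFSP** (finite speed of propagation). Proof as QWE.NFSP (NLoP, FSPP). -/
def St_NFSP : Prop := ∀ b : ℝ, 2 < b → ∀ (I : Set ℝ) (k k' : ℝ → K) (t0 : ℝ) (Ω : Set E), IsSol b I k →
  IsSol b I k' → t0 ∈ I → IsOpen Ω → Van (sig b) Ω (k t0 - k' t0) →
  ∀ t ∈ I, Van (sig b) (shr Ω |t - t0|) (k t - k' t)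

/-- **Ext** (exterior small solution). Proof as QWE.Ext. -/
def St_Ext : Prop := ∀ b : ℝ, 2 < b → ∃ d0 C : ℝ, 0 < d0 ∧ 0 < C ∧
  ∀ (I : Set ℝ) (k : ℝ → K) (t0 : ℝ) (Ω : Set E),
  IsSol b I k → t0 ∈ I → IsOpen Ω → ex (sig b) Ω (k t0) ≤ d0 →
  ∃ k' : ℝ → K, IsSol b univ k' ∧ k' t0 = pr (sig b) Ω (k t0) ∧ (∀ t, ‖k' t‖ ≤ 2 * ex (sig b) Ω (k t0)) ∧
    Integrable (fun t => NL b (k' t)) volume ∧ ∫ t, ‖NL b (k' t)‖ ≤ C * ex (sig b) Ω (k t0) ^ (b + 1) ∧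
    (∃ kp, Tendsto (fun t => tau (-t) (k' t)) atTop (𝓝 kp)) ∧
    (∃ km, Tendsto (fun t => tau (-t) (k' t)) atBot (𝓝 km)) ∧
    ∀ t ∈ I, Van (sig b) (shr Ω |t - t0|) (k t - k' t) ∧
      ex (sig b) (shr Ω |t - t0|) (k t) ≤ 2 * ex (sig b) Ω (k t0)

/-- **WEq** (the equation in the sense of distributions). Proof as QWE.WEq (`⟨tau t k, Rs s φ⟩' = ⟨tau t k, dRs s φ⟩`, `⟨tau t k, dRs s φ⟩' = ⟨tau t k, Rs s (lap φ)⟩`: Par or DrT). -/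
def St_WEq : Prop := ∀ b : ℝ, 2 < b → ∀ (I : Set ℝ) (k : ℝ → K), IsSol b I k → ∀ x ∈ I, ∀ t ∈ I,
  ∀ φ, IsTest φ →
  (∫ z, U (sig b) (k t) z * φ z) - (∫ z, U (sig b) (k x) z * φ z) = ∫ r in x..t, ∫ z, V (sig b) (k r) z * φ z ∧
  (∫ z, V (sig b) (k t) z * φ z) - (∫ z, V (sig b) (k x) z * φ z) =
    ∫ r in x..t, ∫ z, (U (sig b) (k r) z * lap φ z - Fn b (U (sig b) (k r) z) * φ z)

/-! ### Energy space

A finite energy pair `(u,v)` is represented by the element `e ∈ K` with `∂_p e = k` formally; on the `s = 0` side: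
`⟨e, dRk φ⟩ = - ∫ u φ`, `⟨e, Rk (lap φ)⟩ = - ∫ v φ`. For test functions `e = c0 (dRk (lap f) - Rk (lap g))`. The flow is again `tau`.
No persistence of regularity is needed: En and Mor assume finite energy at ALL times (true for compactly supported solutions and after the decay estimate). -/

/-- `(u,v)` is a finite energy pair, `G` is the weak gradient of `u`. -/
def FP (u v : E → ℝ) (G : Fin 5 → E → ℝ) : Prop := MemLp u (10 / 3) volume ∧ MemLp v 2 volume ∧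
  ∀ i, MemLp (G i) 2 volume ∧ WD i u (G i)

/-- `e` represents the pair `(u,v)`. -/
def IsE (e : K) (u v : E → ℝ) : Prop :=
  ∀ φ, IsTest φ → inner ℝ e (dRk φ) = - ∫ x, u x * φ x ∧ inner ℝ e (Rk (lap φ)) = - ∫ x, v x * φ x

/-- Bound `B` for the energy norms of a state. -/
def EB (s B : ℝ) (k : K) : Prop := (∀ i, eLpNorm (DU s k i) 2 volume ≤ ENNReal.ofReal B) ∧
  eLpNorm (V s k) 2 volume ≤ ENNReal.ofReal B ∧ eLpNorm (U s k) (10 / 3) volume ≤ ENNReal.ofReal B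

/-- **FreX** (free evolution of test states, all in terms of the same two functions). Proof: in QWE.Free (file) `f1(x) = c0 ∂_t⁴ Sph φ (t,x)`, `f2 = - c0 ∂_t³ Sph φ (t,x)`; the first identity is QWE.Free. `∂_t f1 = c0 ∂_t⁵ Sph = lap (c0 ∂_t³ Sph) = - lap f2`
(QWE.Sph (4)), `∂_t f2 = - f1`, and `d/dt tau t (Rk φ) = - tau t (dRk φ)`. Alternatively check the second and third identity against all `QWE.Theta a b` (`⟨tau t (dRk φ), Theta a b⟩ = ⟨dRk φ, Theta a' b'⟩ = ∫ b' φ`, where `a', b'` are the fields of `tau (-t) (Theta a b)`). Then Tr for `Rs s`.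
`lap` of the identity for `φ` is the identity for `lap φ` (uniqueness, or `Sph (lap φ) = lap Sph φ`). Last part: FreX for `-t` and moving `tau`. -/
def St_FreX : Prop := ∀ (φ : E → ℝ) (t : ℝ), IsTest φ → ∃ f1 f2 : E → ℝ, IsTest f1 ∧ IsTest f2 ∧
  tau t (Rk φ) = Rk f1 + dRk f2 ∧ tau t (dRk φ) = Rk (lap f2) + dRk f1 ∧
  tau t (Rk (lap φ)) = Rk (lap f1) + dRk (lap f2) ∧
  ∀ s : ℝ, |s| < 1 / 2 → tau t (Rs s φ) = Rs s f1 + dRs s f2 ∧ tau t (dRs s φ) = Rs s (lap f2) + dRs s f1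

/-- **EnU** (uniqueness in the energy space). Proof. Let `e ⊥ dRk φ, Rk (lap φ)` for all test `φ`. For a test function `φ` put `h(t) = ⟨e, tau t (Rk φ)⟩`; with `f1, f2` of FreX `h(t) = ⟨e, Rk f1⟩ + 0`. By QWE.RadT (`d/dp Rad φ = dRad φ`, `d/dp dRad φ = Rad (lap φ)`, uniform convergence, see
`deriv_Rk` in QWE/Br2.lean or `hasDeriv_tau` in QWE/WEq.lean) `h'(t) = - ⟨e, tau t (dRk φ)⟩ = - ⟨e, Rk (lap f2) + dRk f1⟩ = 0`. So `h` is constant. `h(t) → 0` as `t → ∞`: `tau t w → 0` weakly (approximate `e` and `w` by functions with bounded support in `p`). So `⟨e, Rk φ⟩ = 0`, and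
`⟨e, dRk φ⟩ = 0`: `e = 0` by QWE.Dens. -/
def St_EnU : Prop := ∀ e : K, (∀ φ, IsTest φ → inner ℝ e (dRk φ) = 0 ∧ inner ℝ e (Rk (lap φ)) = 0) → e = 0

/-- **EnR** (representation of finite energy pairs, isometry). Proof. Test functions `f, g`: `e = c0 (dRk (lap f) - Rk (lap g))` has `IsE e f g` and `‖e‖² = c0 (Σ ‖∂_i f‖² + ‖g‖²)`: QWE.Iso (`c0 ⟨dRk (lap f), dRk φ⟩ = - ∫ f φ`, `c0 ⟨Rk (lap g), Rk (lap φ)⟩ = c0 ⟨Rk (lap lap g), Rk φ⟩ = ∫ g φ`: move two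
`p`-derivatives, or approximate; the cross terms vanish: `⟨Rk, dRk⟩ = 0`). Finite energy pair: test `f_n`, `g_n` with `f_n → u` in `L^{10/3}`, `∂_i f_n → G i`, `g_n → v` in `L²` (cut off with `χ(·/M)`: `‖u ∇χ_M‖_2 ≤ ‖∇χ_M‖_5 ‖u‖_{L^{10/3}(|x|>M)}`; mollify, QWE/Moll.lean); the `e_n` are Cauchy. Polarisation. Conversely
test states are dense: for `e ∈ K` (EnU) there are test `f_n, g_n` with `e_n → e`, and `‖f‖_{10/3} ≤ C ‖∇f‖_2` (QWE.Sob) makes `f_n` Cauchy in `L^{10/3}`. -/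
def St_EnR : Prop :=
  (∀ (u v : E → ℝ) (G : Fin 5 → E → ℝ), FP u v G → ∃ e : K, IsE e u v) ∧
  (∀ e : K, ∃ (u v : E → ℝ) (G : Fin 5 → E → ℝ), FP u v G ∧ IsE e u v) ∧
  (∀ (e e' : K) (u v u' v' : E → ℝ) (G G' : Fin 5 → E → ℝ), FP u v G → FP u' v' G' → IsE e u v → IsE e' u' v' →
    inner ℝ e e' = c0 * ((∑ i, ∫ x, G i x * G' i x) + ∫ x, v x * v' x)) ∧
  (∀ f g : E → ℝ, IsTest f → IsTest g → IsE (c0 • (dRk (lap f) - Rk (lap g))) f g) ∧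
  (∀ (e : K) (ε : ℝ), 0 < ε → ∃ f g : E → ℝ, IsTest f ∧ IsTest g ∧ ‖e - c0 • (dRk (lap f) - Rk (lap g))‖ < ε)

/-- **EnS** (states with finite energy norms). Proof: `DU s k i`, `V s k`, `U s k` are measurable and weak derivatives (FldP). `‖F(u)‖_2 ≤ ‖u‖_{5b}^b ‖u‖_{10/3}` (Hoelder, `1/5 + 3/10 = 1/2`); `|u|^{b+2}`: `10/3 ≤ b + 2 ≤ 5b/2 = q0` (`b + 2 ≥ 4`, `3b/2 ≥ 3 > 2`), interpolation. Flow: `⟨tau (-t) e, dRk φ⟩ = ⟨e, tau t (dRk φ)⟩ =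
⟨e, Rk (lap f2) + dRk f1⟩ = - ∫ V f2 - ∫ U f1 = - ⟨k, tau t (Rs s φ)⟩` (FreX), the same for `Rk (lap φ)`; so `tau t e` represents the fields of `tau t k`. -/
def St_EnS : Prop := ∀ b : ℝ, 2 < b → (∀ (k : K) (B : ℝ), EB (sig b) B k →
    FP (U (sig b) k) (V (sig b) k) (DU (sig b) k) ∧ MemLp (U (sig b) k) (ENNReal.ofReal (b + 2)) volume ∧
    eLpNorm (fun x => Fn b (U (sig b) k x)) 2 volume ≤ sn b k ^ b * ENNReal.ofReal B) ∧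
  ∀ (k e : K), IsE e (U (sig b) k) (V (sig b) k) →
    ∀ t : ℝ, IsE (tau t e) (U (sig b) (tau t k)) (V (sig b) (tau t k))

/-- **EnG** (energy sources). Proof: `g` is the element with `IsE g 0 F` (EnR with `u = 0`), unique by EnU, `‖g‖² = c0 ‖F‖_2²`. Measurability in `r`: `⟨g(r), dRk φ⟩ = 0`, `⟨g(r), Rk (lap φ)⟩ = - ∫ F(U (k r)) φ` is continuous in `k r` (NLw), these vectors are total (EnU), `QWE.Measx.pettis`; on the null set where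
`sn b (k r) = ⊤` nothing is needed (a.e.). `∫ ‖g‖ ≤ C B ∫ sn^b < ∞` (EnS). -/
def St_EnG : Prop := ∀ b : ℝ, 2 < b → ∀ (x y B : ℝ) (k : ℝ → K), x ≤ y → IsSol b (Icc x y) k →
  (∀ t ∈ Icc x y, EB (sig b) B (k t)) → ∃ g : ℝ → K, IntegrableOn g (Icc x y) volume ∧
  ∀ᵐ r ∂(volume.restrict (Icc x y)), sn b (k r) < ⊤ ∧ MemLp (fun z => Fn b (U (sig b) (k r) z)) 2 volume ∧
    IsE (g r) 0 (fun z => Fn b (U (sig b) (k r) z))

/-- **EnD** (Duhamel formula in the energy space). Proof: test both sides with `dRk φ` and `Rk (lap φ)` (EnU). `⟨e t, dRk φ⟩ = - ∫ U (k t) φ = - ⟨k t, Rs s φ⟩`; insert the Duhamel formula of `k`, move `tau` to the test state, FreX with `φ` and the time `x' - t`: `⟨k x', Rs s f1 + dRs s f2⟩ = ∫ U f1 + ∫ V f2 = - ⟨e x', dRk f1 + Rk (lap f2)⟩ = - ⟨e x', tau (x'-t) (dRk φ)⟩`;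
the source term in the same way (`⟨NL b k, Rs s f1 + dRs s f2⟩ = ∫ F(u) f2`, NLw, and `⟨g, dRk f1 + Rk (lap f2)⟩ = - ∫ F(u) f2`), the inner product commutes with the Bochner integral. The same with `Rk (lap φ)` and `dRs s φ`. Continuity of `e` follows from the formula. -/
def St_EnD : Prop := ∀ b : ℝ, 2 < b → ∀ (x y B : ℝ) (k g e : ℝ → K), x ≤ y → IsSol b (Icc x y) k →
  (∀ t ∈ Icc x y, EB (sig b) B (k t)) → IntegrableOn g (Icc x y) volume →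
  (∀ᵐ r ∂(volume.restrict (Icc x y)), sn b (k r) < ⊤ ∧ IsE (g r) 0 (fun z => Fn b (U (sig b) (k r) z))) →
  (∀ t ∈ Icc x y, IsE (e t) (U (sig b) (k t)) (V (sig b) (k t))) →
  ContinuousOn e (Icc x y) ∧
  ∀ x' ∈ Icc x y, ∀ t ∈ Icc x y, e t = tau (t - x') (e x') - ∫ r in x'..t, tau (t - r) (g r)

/-- **ACq** (a quadratic form along a Duhamel curve; abstract). `B` bounded symmetric bilinear form with `t ↦ B (tau t w) (tau t w)` non-increasing; `e t = tau (t-x) (e x) - ∫_x^t tau (t-r) (g r) dr`. Proof. Partition `x = t_0 < ... < t_n = y` of mesh `→ 0`: `e t_{j+1} = tau h (e t_j - g_j)`, `g_j = ∫_{t_j}^{t_{j+1}} tau (t_j - r) (g r) dr`, so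
`B(e t_{j+1}, e t_{j+1}) ≤ B(e t_j - g_j, e t_j - g_j) = B(e t_j, e t_j) - 2 B(e t_j, g_j) + B(g_j, g_j)`. Sum: `Σ B(g_j,g_j) ≤ ‖B‖ max_j ‖g_j‖ ∫ ‖g‖ → 0`, and `Σ B(e t_j, g_j) = ∫ B(e t_{j(r)}, tau (t_{j(r)} - r) (g r)) dr → ∫ B(e r, g r) dr` (dominated convergence, strong continuity). With `B = ±` the inner product (invariant) this gives
`‖e y‖² - ‖e x‖² = - 2 ∫ ⟨e, g⟩`. -/
def St_ACq : Prop := ∀ (Bf : K →L[ℝ] K →L[ℝ] ℝ) (x y : ℝ) (e g : ℝ → K), x ≤ y → (∀ w w', Bf w w' = Bf w' w) →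
  (∀ (w : K) (t : ℝ), 0 ≤ t → Bf (tau t w) (tau t w) ≤ Bf w w) → ContinuousOn e (Icc x y) →
  IntegrableOn g (Icc x y) volume →
  (∀ x' ∈ Icc x y, ∀ t ∈ Icc x y, e t = tau (t - x') (e x') - ∫ r in x'..t, tau (t - r) (g r)) →
  Bf (e y) (e y) - Bf (e x) (e x) ≤ - 2 * ∫ r in x..y, Bf (e r) (g r)

/-- **PotE** (potential energy). Proof. `p = b + 2`. By WEq and `‖V‖_2 ≤ B`: `U(k t) - U(k x') = ∫_{x'}^t V(k r) dr` in `L²` (Bochner: `r ↦ V(k r) ∈ L²` is bounded and weakly measurable). Choose a jointly measurable representative `v(r,z)` of `V(k r)(z)` and put `u~(t,z) = U(k x')(z) + ∫_{x'}^t v(r,z) dr` (for a.e. `z` integrable); `u~(t,·) = U(k t)` a.e. for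
every `t`. For a.e. `z` the function `t ↦ |u~(t,z)|^p` is absolutely continuous with a.e. derivative `p F(u~) v` (`|·|^p` is `C¹`). Integrate over `z`: Fubini, `∫∫ |F(u)| |v| ≤ ∫ ‖F(u)‖_2 ‖V‖_2 < ∞` (EnS). [To avoid joint measurability: mollify in `x`, `u_n = ρ_n * u`, for which everything is continuous, and let `n → ∞`.] -/
def St_PotE : Prop := ∀ b : ℝ, 2 < b → ∀ (x y B : ℝ) (k : ℝ → K), x ≤ y → IsSol b (Icc x y) k →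
  (∀ t ∈ Icc x y, EB (sig b) B (k t)) →
  IntervalIntegrable (fun r => ∫ z, Fn b (U (sig b) (k r) z) * V (sig b) (k r) z) volume x y ∧
  (∫ z, |U (sig b) (k y) z| ^ (b + 2)) - (∫ z, |U (sig b) (k x) z| ^ (b + 2)) =
    (b + 2) * ∫ r in x..y, ∫ z, Fn b (U (sig b) (k r) z) * V (sig b) (k r) z

/-- **En** (energy conservation for solutions with finite energy at all times). Proof: `e t` with `IsE (e t) (U (k t)) (V (k t))` (EnR), EnG, EnD, ACq with `Bf = ±` inner product: `‖e y‖² - ‖e x‖² = - 2 ∫ ⟨e, g⟩ = - 2 c0 ∫∫ V F(u)` (EnR), `‖e t‖² = c0 (Σ ‖DU‖² + ‖V‖²)`; PotE. -/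
def St_En : Prop := ∀ b : ℝ, 2 < b → ∀ (x y B : ℝ) (k : ℝ → K), x ≤ y → IsSol b (Icc x y) k →
  (∀ t ∈ Icc x y, EB (sig b) B (k t)) → En b (k y) = En b (k x)

/-- **MorS** (static facts for the Morawetz multiplier), `a = ⟨x⟩ = √(1+|x|²)`, `m(u,G) = (x·G)/⟨x⟩ + (1/2)(⟨x⟩⁻³ + 4⟨x⟩⁻¹) u`. Proof. Hardy `‖u/⟨x⟩‖_2 ≤ (2/3) Σ ‖G i‖_2` for test functions as in QWE.FEd (iii) (see the QWE proof), for finite energy pairs by density (EnR, or FEdx in the file QWE/FEd.lean).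
`∫ F(u) m(u,G) = (b/(2(b+2))) ∫ Δa |u|^{b+2}`, `Δa = ⟨x⟩⁻³ + 4⟨x⟩⁻¹ ≥ 4/⟨x⟩`: `F(u) ∇a·G` is the product of `∇a` with the weak gradient of `|u|^{b+2}/(b+2)` (chain rule for `u ∈ L^{10/3}`, `G ∈ L²`, `F(u) ∈ L²`, `|u|^{b+2} ∈ L¹`: mollify), cut off with `χ(·/M)` (the error is `≤ (C/M) ∫ |u|^{b+2}`), integrate by parts. -/
def St_MorS : Prop := ∃ C : ℝ, 0 < C ∧ ∀ (u v : E → ℝ) (G : Fin 5 → E → ℝ), FP u v G →
  (MemLp (fun x => (∑ i, x i * G i x) / √(1 + ‖x‖ ^ 2) +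
      (1 / (√(1 + ‖x‖ ^ 2)) ^ 3 + 4 / √(1 + ‖x‖ ^ 2)) / 2 * u x) 2 volume) ∧
  eLpNorm (fun x => (∑ i, x i * G i x) / √(1 + ‖x‖ ^ 2) +
      (1 / (√(1 + ‖x‖ ^ 2)) ^ 3 + 4 / √(1 + ‖x‖ ^ 2)) / 2 * u x) 2 volume ≤
    ENNReal.ofReal C * ∑ i, eLpNorm (G i) 2 volume ∧
  ∀ b : ℝ, 2 < b → MemLp (fun x => Fn b (u x)) 2 volume → MemLp u (ENNReal.ofReal (b + 2)) volume →
    2 * b / (b + 2) * ∫ x, |u x| ^ (b + 2) / √(1 + ‖x‖ ^ 2) ≤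
      ∫ x, Fn b (u x) * ((∑ i, x i * G i x) / √(1 + ‖x‖ ^ 2) +
        (1 / (√(1 + ‖x‖ ^ 2)) ^ 3 + 4 / √(1 + ‖x‖ ^ 2)) / 2 * u x)

/-- **MorF** (the Morawetz form on the energy space decreases along the free flow). Proof. `Bf e e' = (1/2)(∫ v m(u',G') + ∫ v' m(u,G))` is well defined (fields are determined by `e`: EnU, EnR), bilinear, `≤ C ‖e‖ ‖e'‖` (MorS, EnR). Monotone: by density (EnR, last clause) for test pairs; `tau t e` has the test fields `f', g'` (FreX / QWE.Free), smooth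
in `t` (or: differentiate with WEq type formulas), `d/dt ∫ g' m(f') = ∫ Δf' m(f') + ∫ g' m(g') = - ∫ D²a(∇f',∇f') + (1/4) ∫ Δ²a f'² + 0 ≤ 0` (QWE.MorI: `Δ²a = -4⟨x⟩⁻⁵(5+2|x|²) - 15⟨x⟩⁻⁷ ≤ 0`, `D²a ≥ 0`, `∫ g (∇a·∇g + (1/2)Δa g) = 0`). -/
def St_MorF : Prop := ∃ Bf : K →L[ℝ] K →L[ℝ] ℝ, (∀ w w', Bf w w' = Bf w' w) ∧
  (∀ (w : K) (t : ℝ), 0 ≤ t → Bf (tau t w) (tau t w) ≤ Bf w w) ∧
  ∀ (e e' : K) (u v u' v' : E → ℝ) (G G' : Fin 5 → E → ℝ), FP u v G → FP u' v' G' → IsE e u v → IsE e' u' v' →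
    Bf e e' = ((∫ x, v x * ((∑ i, x i * G' i x) / √(1 + ‖x‖ ^ 2) +
        (1 / (√(1 + ‖x‖ ^ 2)) ^ 3 + 4 / √(1 + ‖x‖ ^ 2)) / 2 * u' x)) +
      ∫ x, v' x * ((∑ i, x i * G i x) / √(1 + ‖x‖ ^ 2) +
        (1 / (√(1 + ‖x‖ ^ 2)) ^ 3 + 4 / √(1 + ‖x‖ ^ 2)) / 2 * u x)) / 2

/-- **Mor** (Morawetz inequality). Proof: `e t`, `g` as in En, ACq with `Bf` of MorF: `2 ∫_x^y Bf (e r) (g r) dr ≤ Bf (e x) (e x) - Bf (e y) (e y) ≤ C (‖e x‖² + ‖e y‖²) ≤ C' En b (k x)` (energy conservation, all terms of the energy are nonnegative), and `2 Bf (e r) (g r) = ∫ F(u) m(u,DU) ≥ (2b/(b+2)) ∫ |u|^{b+2}/⟨x⟩` (MorS, `m(0,0) = 0`). -/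
def St_Mor : Prop := ∀ b : ℝ, 2 < b → ∃ C : ℝ, 0 < C ∧ ∀ (x y B : ℝ) (k : ℝ → K), x ≤ y → IsSol b (Icc x y) k →
  (∀ t ∈ Icc x y, EB (sig b) B (k t)) →
  ∫⁻ t in Icc x y, ∫⁻ z, ENNReal.ofReal (|U (sig b) (k t) z| ^ (b + 2) / √(1 + ‖z‖ ^ 2)) ≤
    ENNReal.ofReal (C * En b (k x))

/-- **Z1** (energy zero). Proof as QWE.Z1: the terms are nonnegative, so `U = 0`, `V = 0` a.e., `k ⊥ TS s univ = K` (FldP, DnsP). -/
def St_Z1 : Prop := ∀ b : ℝ, 2 < b → ∀ (k : K) (B : ℝ), EB (sig b) B k → 0 ≤ En b k ∧ (En b k = 0 → k = 0)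

end Pool.Agent.QWP
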