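import Pool.Agent.QWP.StA
import Pool.Agent.QWP.StB
import Pool.Agent.QWP.StE

set_option autoImplicit false

/-!
# QWP, module Core: the source in the core
-/

open MeasureTheory Filter Topology Set
open scoped ENNReal NNReal RealInnerProductSpace ContDiff

namespace Pool.Agent.QWP.Corex

open Pool.Agent.QWE (E S sg mu K toK tau sh dl rev gr ig IsTest pd lap Rad dRad Rk dRk c0 WD Sm SmE IsSch half shr WTo)

private lemma test_sch {f : E → ℝ} (hf : IsTest f) : IsSch f :=
  ⟨hf.2.toSchwartzMap hf.1, fun _ => rfl⟩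

private lemma sig_lt {b : ℝ} (hb : 2 < b) : |sig b| < 1 / 2 := by
  unfold sig
  have h1 : 0 < 2 / b := by positivity
  have h2 : 2 / b < 1 := by rw [div_lt_one (by linarith)]; exact hb
  rw [abs_lt]
  constructor <;> linarith

private lemma q0_eq {b : ℝ} (hb : 2 < b) : q0 (sig b) = ENNReal.ofReal (5 * b / 2) := by
  unfold q0 sig
  congr 1
  have : b ≠ 0 := by linarith
  field_simp
  ring

private lemma q1_ge {b : ℝ} (hb : 2 < b) : 1 ≤ q1 (sig b) := by
  unfold q1 sig
  rw [ENNReal.one_le_ofReal]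
  have h0 : 0 < b := by linarith
  have h1 : 0 < 2 / b := by positivity
  have h2 : 2 / b < 1 := by rw [div_lt_one (by linarith)]; exact hb
  rw [le_div_iff₀ (by linarith)]
  linarith

private lemma int_mul {q : ℝ≥0∞} (hq : 1 ≤ q) {f φ : E → ℝ} (hf : MemLp f q volume)
    (h : IsTest φ) : Integrable (fun x => f x * φ x) volume := by
  have := (hf.locallyIntegrable hq).integrable_smul_right_of_hasCompactSupport h.1.continuous h.2
  simpa [smul_eq_mul, mul_comm] using this

private lemma abs_Fn (b u : ℝ) : |Fn b u| ≤ |u| ^ (b + 1) ∨ u = 0 := by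
  by_cases hu : u = 0
  · exact Or.inr hu
  · left
    unfold Fn
    rw [abs_mul, abs_of_nonneg (Real.rpow_nonneg (abs_nonneg u) b),
      Real.rpow_add_one (abs_ne_zero.2 hu)]

private lemma abs_Fn_le {b : ℝ} (hb : 2 < b) (u : ℝ) : |Fn b u| ≤ |u| ^ (b + 1) := by
  rcases abs_Fn b u with h | rfl
  · exact h
  · simp [Fn, Real.zero_rpow (by linarith : b + 1 ≠ 0)]

/-- Hoelder's inequality on a ball -/
private lemma holder {b : ℝ} (hb : 2 < b) (u : E → ℝ)
    (hu : MemLp u (ENNReal.ofReal (5 * b / 2)) volume) (y : E) (r : ℝ) :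
    IntegrableOn (fun x => |u x| ^ (b + 1)) (Metric.ball y r) volume ∧
    ∫ x in Metric.ball y r, |u x| ^ (b + 1) ≤
      (eLpNorm u (ENNReal.ofReal (5 * b / 2)) volume).toReal ^ (b + 1) *
        (volume (Metric.ball y r)).toReal ^ (1 - (b + 1) / (5 * b / 2)) := by
  have hfin : volume (Metric.ball y r) < ⊤ := measure_ball_lt_top
  have : IsFiniteMeasure (volume.restrict (Metric.ball y r)) := ⟨by simpa using hfin⟩
  have hb1 : 0 < b + 1 := by linarith
  have hle : ENNReal.ofReal (b + 1) ≤ ENNReal.ofReal (5 * b / 2) :=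
    ENNReal.ofReal_le_ofReal (by linarith)
  have h10 : MemLp u (ENNReal.ofReal (5 * b / 2)) (volume.restrict (Metric.ball y r)) :=
    hu.restrict _
  have h5 : MemLp u (ENNReal.ofReal (b + 1)) (volume.restrict (Metric.ball y r)) :=
    h10.mono_exponent hle
  have hp0 : ENNReal.ofReal (b + 1) ≠ 0 := (ENNReal.ofReal_pos.2 hb1).ne'
  have hpt : ENNReal.ofReal (b + 1) ≠ ⊤ := ENNReal.ofReal_ne_top
  have htr : (ENNReal.ofReal (b + 1)).toReal = b + 1 := ENNReal.toReal_ofReal hb1.le
  have htr2 : (ENNReal.ofReal (5 * b / 2)).toReal = 5 * b / 2 :=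
    ENNReal.toReal_ofReal (by linarith)
  have hint : IntegrableOn (fun x => |u x| ^ (b + 1)) (Metric.ball y r) volume := by
    have := h5.integrable_norm_rpow hp0 hpt
    rw [htr] at this
    exact this
  refine ⟨hint, ?_⟩
  have h1 : eLpNorm u (ENNReal.ofReal (b + 1)) (volume.restrict (Metric.ball y r)) ≤
      eLpNorm u (ENNReal.ofReal (5 * b / 2)) volume *
        volume (Metric.ball y r) ^ (1 / (b + 1) - 1 / (5 * b / 2)) := by
    have h := eLpNorm_le_eLpNorm_mul_rpow_measure_univ (μ := volume.restrict (Metric.ball y r))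
      (f := u) hle h10.1
    rw [Measure.restrict_apply_univ, htr, htr2] at h
    refine h.trans ?_
    gcongr
    exact Measure.restrict_le_self
  have he : 0 ≤ 1 / (b + 1) - 1 / (5 * b / 2) := by
    rw [sub_nonneg]
    exact one_div_le_one_div_of_le hb1 (by linarith)
  have h2 : (eLpNorm u (ENNReal.ofReal (b + 1)) (volume.restrict (Metric.ball y r))).toReal ≤
      (eLpNorm u (ENNReal.ofReal (5 * b / 2)) volume).toReal *
        (volume (Metric.ball y r)).toReal ^ (1 / (b + 1) - 1 / (5 * b / 2)) := by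
    have h3 := ENNReal.toReal_mono (ENNReal.mul_ne_top hu.2.ne
      (ENNReal.rpow_ne_top_of_nonneg he hfin.ne)) h1
    rwa [ENNReal.toReal_mul, ← ENNReal.toReal_rpow] at h3
  have h0 : 0 ≤ ∫ x in Metric.ball y r, |u x| ^ (b + 1) := integral_nonneg fun x => by positivity
  have h4 : (eLpNorm u (ENNReal.ofReal (b + 1)) (volume.restrict (Metric.ball y r))).toReal ^ (b + 1) =
      ∫ x in Metric.ball y r, |u x| ^ (b + 1) := by
    rw [h5.eLpNorm_eq_integral_rpow_norm hp0 hpt, htr]
    have e : ∫ x in Metric.ball y r, ‖u x‖ ^ (b + 1) = ∫ x in Metric.ball y r, |u x| ^ (b + 1) := rfl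
    rw [e, ENNReal.toReal_ofReal (by positivity), ← Real.rpow_mul h0, inv_mul_cancel₀ hb1.ne',
      Real.rpow_one]
  rw [← h4]
  calc (eLpNorm u (ENNReal.ofReal (b + 1)) (volume.restrict (Metric.ball y r))).toReal ^ (b + 1)
      ≤ ((eLpNorm u (ENNReal.ofReal (5 * b / 2)) volume).toReal *
        (volume (Metric.ball y r)).toReal ^ (1 / (b + 1) - 1 / (5 * b / 2))) ^ (b + 1) := by
        gcongr
    _ = _ := by
        rw [Real.mul_rpow ENNReal.toReal_nonneg (by positivity), ← Real.rpow_mul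
          ENNReal.toReal_nonneg]
        congr 2
        rw [sub_mul, one_div_mul_cancel hb1.ne']
        ring

private lemma vol_ball {b : ℝ} (hb : 2 < b) (y : E) {r : ℝ} (hr : 0 < r) :
    (volume (Metric.ball y r)).toReal ^ (1 - (b + 1) / (5 * b / 2)) =
      (volume (Metric.ball (0 : E) 1)).toReal ^ (1 - (b + 1) / (5 * b / 2)) *
        r ^ (5 / 2 + sig b) := by
  rw [Measure.addHaar_ball _ _ hr.le, ENNReal.toReal_mul,
    ENNReal.toReal_ofReal (by positivity), mul_comm,
    Real.mul_rpow ENNReal.toReal_nonneg (by positivity)]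
  congr 1
  rw [finrank_euclideanSpace_fin, ← Real.rpow_natCast, ← Real.rpow_mul hr.le]
  congr 1
  unfold sig
  have : b ≠ 0 := by linarith
  push_cast
  field_simp
  ring

end Pool.Agent.QWP.Corex

namespace Pool.Agent.QWP

open Pool.Agent.QWE (E S sg mu K toK tau sh dl rev gr ig IsTest pd lap Rad dRad Rk dRk c0 WD Sm SmE IsSch half shr WTo)

open Corex in
/-- **Core** (the source in the core). -/
theorem thm_Core (hIsoP : St_IsoP) (hFldP : St_FldP) (hExFP : St_ExFP) (hGamP : St_GamP)
    (hNLb : St_NLb) : St_Core := by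
  intro b hb
  have hsg := sig_lt hb
  obtain ⟨C0, hC0, hF, -⟩ := hFldP (sig b) hsg
  obtain ⟨C1, hC1, hE⟩ := hExFP (sig b) hsg
  obtain ⟨-, hN⟩ := hNLb b hb
  have hb1 : 0 < b + 1 := by linarith
  have hv1 : 0 ≤ (volume (Metric.ball (0 : E) 1)).toReal ^ (1 - (b + 1) / (5 * b / 2)) := by
    positivity
  refine ⟨C0 ^ (b + 1) * (volume (Metric.ball (0 : E) 1)).toReal ^ (1 - (b + 1) / (5 * b / 2)) + 1,
    by positivity, ?_⟩
  intro k k' y r hr hk hk' hvan
  obtain ⟨a1, aG, -, -⟩ := hN k hk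
  obtain ⟨b1, bG, -, -⟩ := hN k' hk'
  have hΩ : IsOpen (xt y r) := isOpen_lt continuous_const (continuous_id.dist continuous_const)
  have hae := (hE k (xt y r) hΩ).2.2.2 k' hvan
  have hq := q1_ge hb
  let F0 : E → ℝ := fun x => Fn b (U (sig b) k x) - Fn b (U (sig b) k' x)
  let F : E → ℝ := (Metric.closedBall y r).indicator F0
  have hFF : F =ᵐ[volume] F0 := by
    filter_upwards [hae] with x hx
    by_cases h : x ∈ Metric.closedBall y r
    · exact Set.indicator_of_mem h F0
    · change (Metric.closedBall y r).indicator F0 x = F0 x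
      rw [Set.indicator_of_notMem h]
      have h1 : x ∈ xt y r := by
        change r < dist x y
        exact not_le.1 fun h' => h (Metric.mem_closedBall.2 h')
      change (0 : ℝ) = Fn b (U (sig b) k x) - Fn b (U (sig b) k' x)
      rw [(hx h1).1, sub_self]
  have m1 : MemLp F0 (q1 (sig b)) volume := a1.sub b1
  have f1 : MemLp F (q1 (sig b)) volume := (memLp_congr_ae hFF).2 m1
  have hout : ∀ x, r < dist x y → F x = 0 := by
    intro x hx
    have h : x ∉ Metric.closedBall y r := fun h => not_lt.2 (Metric.mem_closedBall.1 h) hx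
    exact Set.indicator_of_notMem h F0
  have hw : IsGam (sig b) F (NL b k - NL b k') := by
    intro φ hφ
    refine ⟨?_, ?_⟩
    · rw [inner_sub_left, (aG φ hφ).1, (bG φ hφ).1, sub_zero]
    · rw [inner_sub_left, (aG φ hφ).2, (bG φ hφ).2, ← integral_sub (int_mul hq a1 hφ)
        (int_mul hq b1 hφ)]
      refine integral_congr_ae ?_
      filter_upwards [hFF] with x hx
      rw [hx]
      change _ = (Fn b (U (sig b) k x) - Fn b (U (sig b) k' x)) * φ x
      ring
  have hc0 : 0 < c0 := by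
    unfold c0
    positivity
  have hB : ∀ φ, IsTest φ → |∫ x, F x * φ x| ≤
      ‖NL b k - NL b k'‖ / √c0 * (hs (-1 - sig b) φ) ^ (1 / 2 : ℝ) := by
    intro φ hφ
    have h1 := (hw φ hφ).2
    rw [← h1]
    have h2 := (hIsoP (sig b) φ φ hsg (test_sch hφ) (test_sch hφ)).2.2.2.2.2.1
    rw [← h2, ← Real.sqrt_eq_rpow, Real.sqrt_mul hc0.le, Real.sqrt_sq (norm_nonneg _)]
    have h3 : √c0 ≠ 0 := (Real.sqrt_pos.2 hc0).ne'
    calc |inner ℝ (NL b k - NL b k') (dRs (sig b) φ)| ≤ ‖NL b k - NL b k'‖ * ‖dRs (sig b) φ‖ :=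
          abs_real_inner_le_norm _ _
      _ = ‖NL b k - NL b k'‖ / √c0 * (√c0 * ‖dRs (sig b) φ‖) := by field_simp
  have hGam := hGamP (sig b) F _ hsg (by positivity) (f1.locallyIntegrable hq) hB
  have hUk : MemLp (U (sig b) k) (ENNReal.ofReal (5 * b / 2)) volume := by
    rw [← q0_eq hb]; exact (hF k).1.1
  have hUk' : MemLp (U (sig b) k') (ENNReal.ofReal (5 * b / 2)) volume := by
    rw [← q0_eq hb]; exact (hF k').1.1
  have hsph : (Metric.ball y r : Set E) =ᵐ[volume] Metric.closedBall y r :=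
    ae_eq_set.2 ⟨by rw [Set.sdiff_eq_empty.2 Metric.ball_subset_closedBall, measure_empty], by
      rw [Metric.closedBall_sdiff_ball]
      exact Measure.addHaar_sphere _ _ _⟩
  obtain ⟨i1, j1⟩ := holder hb (U (sig b) k) hUk y r
  obtain ⟨i2, j2⟩ := holder hb (U (sig b) k') hUk' y r
  have hFi : Integrable F volume := by
    have h1 : MemLp F (q1 (sig b)) (volume.restrict (Metric.closedBall y r)) := f1.restrict _
    have hfin : volume (Metric.closedBall y r) < ⊤ := measure_closedBall_lt_top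
    have : IsFiniteMeasure (volume.restrict (Metric.closedBall y r)) := ⟨by simpa using hfin⟩
    have h2 : IntegrableOn F (Metric.closedBall y r) volume := h1.integrable hq
    exact h2.integrable_of_forall_notMem_eq_zero fun x hx => hout x (not_le.1 hx)
  refine ⟨F, _, by positivity, hB, hout, hGam.2.2.2.2 _ hw, hFi, ?_⟩
  have s1 : ∫ x, |F x| = ∫ x in Metric.ball y r, |F x| := by
    rw [setIntegral_congr_set hsph]
    refine (setIntegral_eq_integral_of_forall_compl_eq_zero fun x hx => ?_).symm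
    rw [hout x (not_le.1 hx), abs_zero]
  have s2 : ∫ x in Metric.ball y r, |F x| ≤
      ∫ x in Metric.ball y r, (|U (sig b) k x| ^ (b + 1) + |U (sig b) k' x| ^ (b + 1)) := by
    refine setIntegral_mono_on hFi.abs.integrableOn (i1.add i2) measurableSet_ball ?_
    intro x hx
    have h1 : F x = Fn b (U (sig b) k x) - Fn b (U (sig b) k' x) :=
      Set.indicator_of_mem (Metric.ball_subset_closedBall hx) F0
    rw [h1]
    exact (abs_sub _ _).trans (add_le_add (abs_Fn_le hb _) (abs_Fn_le hb _))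
  rw [integral_add i1 i2] at s2
  have s3 : ∫ x in Metric.ball y r, |U (sig b) k' x| ^ (b + 1) ≤
      (C0 ^ (b + 1) * (volume (Metric.ball (0 : E) 1)).toReal ^ (1 - (b + 1) / (5 * b / 2)) + 1) *
        r ^ (5 / 2 + sig b) * ‖k'‖ ^ (b + 1) := by
    have h1 : (eLpNorm (U (sig b) k') (ENNReal.ofReal (5 * b / 2)) volume).toReal ≤ C0 * ‖k'‖ := by
      have h2 := (hF k').2.1
      rw [q0_eq hb] at h2
      have h3 := ENNReal.toReal_mono (ENNReal.mul_ne_top ENNReal.ofReal_ne_top
        enorm_ne_top) h2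
      rwa [ENNReal.toReal_mul, ENNReal.toReal_ofReal hC0.le, toReal_enorm] at h3
    have h4 : 0 ≤ r ^ (5 / 2 + sig b) := by positivity
    calc ∫ x in Metric.ball y r, |U (sig b) k' x| ^ (b + 1)
        ≤ (eLpNorm (U (sig b) k') (ENNReal.ofReal (5 * b / 2)) volume).toReal ^ (b + 1) *
          (volume (Metric.ball y r)).toReal ^ (1 - (b + 1) / (5 * b / 2)) := j2
      _ ≤ (C0 * ‖k'‖) ^ (b + 1) *
          ((volume (Metric.ball (0 : E) 1)).toReal ^ (1 - (b + 1) / (5 * b / 2)) *
            r ^ (5 / 2 + sig b)) := by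
          rw [vol_ball hb y hr]
          gcongr
      _ = (C0 ^ (b + 1) * (volume (Metric.ball (0 : E) 1)).toReal ^ (1 - (b + 1) / (5 * b / 2))) *
          r ^ (5 / 2 + sig b) * ‖k'‖ ^ (b + 1) := by
          rw [Real.mul_rpow hC0.le (norm_nonneg _)]
          ring
      _ ≤ _ := by
          gcongr
          linarith
  rw [s1]
  linarith

end Pool.Agent.QWP
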