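import Pool.Agent.QWP.StA
import Pool.Agent.QWE.D1

/-!
# QWP/D1P (helper96): a free wave leaves every half space that moves with speed one
-/

set_option autoImplicit false

open MeasureTheory Filter Topology Set
open scoped ENNReal NNReal RealInnerProductSpace Pointwise ContDiff

namespace Pool.Agent.QWP

open Pool.Agent.QWE (E S sg mu K toK tau sh dl rev gr ig IsTest pd lap Rad dRad Rk dRk c0 WD Sm SmE IsSch half shr WTo)

namespace D1Px

open Pool.Agent.QWE.D1x (et et_zero et_one et_abs et_contDiff det_compact rgn rgn_closed int_le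
  isTest_loc loc_zero half_open pd_zero pd_contDiff)

/-! ### Bounds of derivatives -/

theorem et_iter_bounded (n : ℕ) : ∃ B : ℝ, 0 ≤ B ∧ ∀ y, ‖iteratedFDeriv ℝ n et y‖ ≤ B := by
  rcases n with _ | n
  · refine ⟨1, zero_le_one, fun y => ?_⟩
    rw [norm_iteratedFDeriv_zero, Real.norm_eq_abs]
    exact et_abs y
  · have h1 : HasCompactSupport (fderiv ℝ et) := by
      have h2 : fderiv ℝ et = fun y => ContinuousLinearMap.toSpanSingleton ℝ (deriv et y) := by
        funext y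
        exact (toSpanSingleton_deriv).symm
      rw [h2]
      refine HasCompactSupport.comp_left
        (g := fun z : ℝ => ContinuousLinearMap.toSpanSingleton ℝ z) det_compact ?_
      exact ContinuousLinearMap.toSpanSingleton_zero ℝ
    have h3 : Continuous (iteratedFDeriv ℝ n (fderiv ℝ et)) := by
      refine ContDiff.continuous_iteratedFDeriv (n := ∞) ?_ ?_
      · exact_mod_cast le_top
      · exact et_contDiff.fderiv_right (m := ∞) (by simp)
    obtain ⟨B, hB⟩ := (h1.iteratedFDeriv n).exists_bound_of_continuous h3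
    refine ⟨B, (norm_nonneg _).trans (hB 0), fun y => ?_⟩
    rw [← norm_iteratedFDeriv_fderiv]
    exact hB y

theorem et_bound3 : ∃ B : ℝ, 0 ≤ B ∧ ∀ n ≤ 3, ∀ y, ‖iteratedFDeriv ℝ n et y‖ ≤ B := by
  choose B hB0 hB using et_iter_bounded
  refine ⟨∑ n ∈ Finset.range 4, B n, Finset.sum_nonneg fun n _ => hB0 n, fun n hn y => ?_⟩
  exact (hB n y).trans (Finset.single_le_sum (f := B) (fun n _ => hB0 n)
    (Finset.mem_range.2 (by omega)))

theorem ridge_contDiff (e : E) (s : ℝ) : ContDiff ℝ ∞ (fun x : E => et (inner ℝ x e - s)) :=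
  et_contDiff.comp ((contDiff_id.inner ℝ contDiff_const).sub contDiff_const)

theorem ridge_bound {B : ℝ} (hB : ∀ n ≤ 3, ∀ y, ‖iteratedFDeriv ℝ n et y‖ ≤ B) {e : E}
    (he : ‖e‖ = 1) (s : ℝ) (n : ℕ) (hn : n ≤ 3) (x : E) :
    ‖iteratedFDeriv ℝ n (fun x : E => et (inner ℝ x e - s)) x‖ ≤ B := by
  have h1 : (fun x : E => et (inner ℝ x e - s)) = (fun y : ℝ => et (y - s)) ∘ (innerSL ℝ e) := by
    funext y
    rw [Function.comp_apply, innerSL_apply_apply, real_inner_comm]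
  have h2 : ContDiff ℝ ∞ (fun y : ℝ => et (y - s)) :=
    et_contDiff.comp (contDiff_id.sub contDiff_const)
  rw [h1, ContinuousLinearMap.iteratedFDeriv_comp_right (innerSL ℝ e) h2 x
    (i := n) (by exact_mod_cast le_top)]
  refine (ContinuousMultilinearMap.norm_compContinuousLinearMap_le _ _).trans ?_
  have h3 : ‖innerSL ℝ e‖ = 1 := by
    rw [innerSL_apply_norm, he]
  rw [Finset.prod_const, h3, one_pow, mul_one, iteratedFDeriv_comp_sub]
  exact hB n hn _

/-- derivatives of the localised functions -/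
theorem loc_bound {B C0 : ℝ} (hB0 : 0 ≤ B) (hB : ∀ n ≤ 3, ∀ y, ‖iteratedFDeriv ℝ n et y‖ ≤ B)
    {e : E} (he : ‖e‖ = 1) (s : ℝ) {f : E → ℝ} (hf : ContDiff ℝ ∞ f)
    (hC : ∀ x, ∀ n ≤ 3, ‖iteratedFDeriv ℝ n f x‖ ≤ C0) (n : ℕ) (hn : n ≤ 3) (x : E) :
    ‖iteratedFDeriv ℝ n (fun x : E => et (inner ℝ x e - s) * f x) x‖ ≤ 8 * (B * C0) := by
  have hC0 : 0 ≤ C0 := (norm_nonneg _).trans (hC 0 0 (by norm_num))
  refine (norm_iteratedFDeriv_mul_le (ridge_contDiff e s) hf x (n := n)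
    (by exact_mod_cast le_top)).trans ?_
  calc ∑ i ∈ Finset.range (n + 1), (n.choose i : ℝ) *
        ‖iteratedFDeriv ℝ i (fun x : E => et (inner ℝ x e - s)) x‖ *
        ‖iteratedFDeriv ℝ (n - i) f x‖
      ≤ ∑ i ∈ Finset.range (n + 1), (n.choose i : ℝ) * (B * C0) := by
        refine Finset.sum_le_sum fun i hi => ?_
        rw [Finset.mem_range] at hi
        rw [mul_assoc]
        refine mul_le_mul_of_nonneg_left ?_ (Nat.cast_nonneg _)
        exact mul_le_mul (ridge_bound hB he s i (by omega) x) (hC x (n - i) (by omega))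
          (norm_nonneg _) hB0
    _ = (2 : ℝ) ^ n * (B * C0) := by
        rw [← Finset.sum_mul]
        congr 1
        have h := Nat.sum_range_choose n
        have h' : ((∑ m ∈ Finset.range (n + 1), n.choose m : ℕ) : ℝ) = ((2 ^ n : ℕ) : ℝ) := by
          rw [h]
        push_cast at h'
        exact h'
    _ ≤ 8 * (B * C0) := by
        refine mul_le_mul_of_nonneg_right ?_ (mul_nonneg hB0 hC0)
        have h : (2 : ℝ) ^ n ≤ 2 ^ 3 := pow_le_pow_right₀ (by norm_num) hn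
        linarith

theorem pd_iter_le {f : E → ℝ} (hf : ContDiff ℝ ∞ f) (i : Fin 5) (n : ℕ) (x : E) :
    ‖iteratedFDeriv ℝ n (pd i f) x‖ ≤ ‖iteratedFDeriv ℝ (n + 1) f x‖ := by
  have h1 : pd i f = (ContinuousLinearMap.apply ℝ ℝ (EuclideanSpace.single i (1 : ℝ) : E)) ∘
      (fderiv ℝ f) := by
    funext y
    rfl
  rw [h1]
  refine (ContinuousLinearMap.norm_iteratedFDeriv_comp_left (N := ∞) _
    ((hf.fderiv_right (m := ∞) (by simp)).contDiffAt) (by exact_mod_cast le_top)).trans ?_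
  rw [norm_iteratedFDeriv_fderiv]
  have h2 : ‖ContinuousLinearMap.apply ℝ ℝ (EuclideanSpace.single i (1 : ℝ) : E)‖ ≤ 1 := by
    refine ContinuousLinearMap.opNorm_le_bound _ zero_le_one fun L => ?_
    rw [ContinuousLinearMap.apply_apply, one_mul]
    refine (L.le_opNorm _).trans ?_
    simp
  exact mul_le_of_le_one_left (norm_nonneg _) h2

theorem abs_pd3_le {f : E → ℝ} (hf : ContDiff ℝ ∞ f) (i j l : Fin 5) (x : E) :
    |pd l (pd j (pd i f)) x| ≤ ‖iteratedFDeriv ℝ 3 f x‖ := by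
  have h0 : |pd l (pd j (pd i f)) x| = ‖iteratedFDeriv ℝ 0 (pd l (pd j (pd i f))) x‖ := by
    rw [norm_iteratedFDeriv_zero, Real.norm_eq_abs]
  rw [h0]
  refine (pd_iter_le (pd_contDiff (pd_contDiff hf i) j) l 0 x).trans ?_
  refine (pd_iter_le (pd_contDiff hf i) j 1 x).trans ?_
  exact pd_iter_le hf i 2 x

theorem c0_nonneg : 0 ≤ c0 := by
  unfold c0
  positivity

/-- bound of `hs a` for functions with small derivatives on a small region -/
theorem hs_le (hHs : St_Hs) (hFt : St_Ft) {a : ℝ} (ha0 : 0 ≤ a) (ha3 : a ≤ 3) {e : E}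
    (he : ‖e‖ = 1) {t D Q : ℝ} (hD : 0 < D) (ht : D ≤ t) {f : E → ℝ} (hf : IsTest f)
    (hQ : ∀ n ≤ 3, ∀ x, ‖iteratedFDeriv ℝ n f x‖ ≤ Q) (h0 : ∀ x ∈ (rgn e t D)ᶜ, f x = 0) :
    hs a f ≤ 125 * (Q ^ 2 * (512 * D ^ 3 * t ^ 2)) := by
  have hsch : IsSch f := hFt.1 f hf
  obtain ⟨hH0, _, _, hH3, hint, _⟩ := hHs
  have hO : IsOpen (rgn e t D)ᶜ := (rgn_closed e t D).isOpen_compl
  set Y : ℝ := Q ^ 2 * (512 * D ^ 3 * t ^ 2) with hY
  have hY0 : 0 ≤ Y := by positivity
  have h1 : hs 0 f ≤ 125 * Y := by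
    rw [hH0 f hsch]
    have h2 : ∫ x, f x ^ 2 = ∫ x, f x * f x := by
      congr 1
      funext x
      ring
    rw [h2]
    have h3 : ∫ x, f x * f x ≤ Y := by
      refine int_le he hD ht (fun x => ?_) (fun x hx => h0 x hx)
      have h4 := hQ 0 (by norm_num) x
      rwa [norm_iteratedFDeriv_zero, Real.norm_eq_abs] at h4
    linarith
  have h2 : hs 3 f ≤ 125 * Y := by
    rw [hH3 f hsch]
    have h3 : ∀ i j l : Fin 5, ∫ x, pd l (pd j (pd i f)) x ^ 2 ≤ Y := by
      intro i j l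
      have h4 : ∫ x, pd l (pd j (pd i f)) x ^ 2 =
          ∫ x, pd l (pd j (pd i f)) x * pd l (pd j (pd i f)) x := by
        congr 1
        funext x
        ring
      rw [h4]
      refine int_le he hD ht (fun x => (abs_pd3_le hf.1 i j l x).trans (hQ 3 le_rfl x)) ?_
      intro x hx
      exact pd_zero hO (pd_zero hO (pd_zero hO h0 i) j) l x hx
    have h5 : ∀ i : Fin 5, ∑ j, ∑ l, ∫ x, pd l (pd j (pd i f)) x ^ 2 ≤ 25 * Y := by
      intro i
      have h6 : ∀ j : Fin 5, ∑ l, ∫ x, pd l (pd j (pd i f)) x ^ 2 ≤ 5 * Y := by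
        intro j
        refine (Finset.sum_le_card_nsmul _ _ _ (fun l _ => h3 i j l)).trans ?_
        simp
      refine (Finset.sum_le_card_nsmul _ _ _ (fun j _ => h6 j)).trans ?_
      simp only [Finset.card_univ, Fintype.card_fin, nsmul_eq_mul]
      push_cast
      linarith
    refine (Finset.sum_le_card_nsmul _ _ _ (fun i _ => h5 i)).trans ?_
    simp only [Finset.card_univ, Fintype.card_fin, nsmul_eq_mul]
    push_cast
    linarith
  have hn0 : 0 ≤ hs 0 f := by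
    rw [hH0 f hsch]
    exact integral_nonneg fun x => sq_nonneg _
  have hn3 : 0 ≤ hs 3 f := by
    rw [hH3 f hsch]
    exact Finset.sum_nonneg fun i _ => Finset.sum_nonneg fun j _ => Finset.sum_nonneg fun l _ =>
      integral_nonneg fun x => sq_nonneg _
  have h3 := hint 3 a f (by norm_num) ha0 (by exact_mod_cast ha3) hsch
  push_cast at h3
  refine h3.trans ?_
  have ha1 : 0 ≤ a / 3 := by positivity
  have ha2 : 0 ≤ 1 - a / 3 := by
    rw [sub_nonneg, div_le_one (by norm_num)]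
    exact ha3
  have hX0 : 0 ≤ 125 * Y := by positivity
  calc hs 0 f ^ (1 - a / 3) * hs 3 f ^ (a / 3)
      ≤ (125 * Y) ^ (1 - a / 3) * (125 * Y) ^ (a / 3) := by
        refine mul_le_mul (Real.rpow_le_rpow hn0 h1 ha2) (Real.rpow_le_rpow hn3 h2 ha1)
          (Real.rpow_nonneg hn3 _) (Real.rpow_nonneg hX0 _)
    _ = 125 * Y := by
        rw [← Real.rpow_add_of_nonneg hX0 ha2 ha1, sub_add_cancel, Real.rpow_one]

theorem main (hFt : St_Ft) (hHs : St_Hs) (hI : St_IsoP) (hF : St_FldP) (hX : St_ExBP)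
    (hDc : St_DecayP) {s : ℝ} (hs1 : |s| < 1 / 2) {f g : E → ℝ} (hf : IsTest f)
    (hg : IsTest g) {e : E} (c : ℝ) (he : ‖e‖ = 1) :
    ∃ Kc T : ℝ, 0 ≤ Kc ∧ ∀ t, T ≤ t →
      ex s (half e (c + t)) (tau t (Theta s f g)) ^ 2 ≤ Kc / (1 + t ^ 2) := by
  obtain ⟨C, M0, hC, hM0, hdec⟩ := hDc f g hf hg
  obtain ⟨B, hB, hB1⟩ := et_bound3
  obtain ⟨_, _, _, hlin, hfld⟩ := hF s hs1
  have hXs := hX s hs1
  have hs2 := abs_lt.1 hs1
  set D : ℝ := M0 + |c| + 1 with hD
  have hD0 : 0 < D := by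
    have := abs_nonneg c
    linarith
  set Q0 : ℝ := 8 * (B * C) with hQ0
  refine ⟨c0 * (250 * (Q0 ^ 2 * (512 * D ^ 3))), D, ?_, ?_⟩
  · have := c0_nonneg
    positivity
  intro t ht
  obtain ⟨f', g', hf', hg', htau, hvan, hbd⟩ := hdec t
  have ht0 : 0 ≤ t := by linarith
  set C0 : ℝ := C / (1 + t ^ 2) with hC0
  have hC00 : 0 ≤ C0 := by positivity
  set a : E → ℝ := fun x => et (inner ℝ x e - (t + c)) * f' x with ha
  set b : E → ℝ := fun x => et (inner ℝ x e - (t + c)) * g' x with hb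
  have hat : IsTest a := isTest_loc e (t + c) hf'
  have hbt : IsTest b := isTest_loc e (t + c) hg'
  have hVan : Van s (half e (c + t)) (tau t (Theta s f g) - Theta s a b) := by
    have h1 : tau t (Theta s f g) - Theta s a b = Theta s f' g' + (-1 : ℝ) • Theta s a b := by
      rw [htau s hs1, neg_one_smul, sub_eq_add_neg]
    rw [h1]
    have hl := hlin (-1) (Theta s f' g') (Theta s a b)
    have hv1 := hfld f' g' hf' hg'
    have hv2 := hfld a b hat hbt
    have hone : ∀ x ∈ half e (c + t), et (inner ℝ x e - (t + c)) = 1 := by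
      intro x hx
      have hx' : c + t < inner ℝ x e := hx
      exact et_one (by linarith)
    refine (hXs.2.2.2.2.2.2.1 _ _ (half_open e (c + t))).2 ⟨?_, ?_⟩
    · filter_upwards [hl.1, hv1.1, hv2.1] with x h2 h3 h4 hx
      rw [h2, h3, h4, ha]
      dsimp only
      rw [hone x hx]
      ring
    · filter_upwards [hl.2.1, hv1.2.1, hv2.2.1] with x h2 h3 h4 hx
      rw [h2, h3, h4, hb]
      dsimp only
      rw [hone x hx]
      ring
  have hex : ex s (half e (c + t)) (tau t (Theta s f g)) ≤ ‖Theta s a b‖ :=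
    (hXs.2.2.2.2.2.1 _ _ _ hVan).1
  have hex0 : 0 ≤ ex s (half e (c + t)) (tau t (Theta s f g)) := norm_nonneg _
  refine (pow_le_pow_left₀ hex0 hex 2).trans ?_
  rw [(hI s a b hs1 (hFt.1 a hat) (hFt.1 b hbt)).2.2.2.2.2.2.1]
  have hza : ∀ x ∈ (rgn e t D)ᶜ, a x = 0 := loc_zero hD hM0 ht (fun x hx => (hvan x hx).1)
  have hzb : ∀ x ∈ (rgn e t D)ᶜ, b x = 0 := loc_zero hD hM0 ht (fun x hx => (hvan x hx).2)
  set Q : ℝ := 8 * (B * C0) with hQ
  have hba : ∀ n ≤ 3, ∀ x, ‖iteratedFDeriv ℝ n a x‖ ≤ Q := fun n hn x =>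
    loc_bound hB hB1 he (t + c) hf'.1 (fun x n hn => (hbd x n hn).1) n hn x
  have hbb : ∀ n ≤ 3, ∀ x, ‖iteratedFDeriv ℝ n b x‖ ≤ Q := fun n hn x =>
    loc_bound hB hB1 he (t + c) hg'.1 (fun x n hn => (hbd x n hn).2) n hn x
  have hI1 : hs (2 + s) a ≤ 125 * (Q ^ 2 * (512 * D ^ 3 * t ^ 2)) :=
    hs_le hHs hFt (by linarith [hs2.1]) (by linarith [hs2.2]) he hD0 ht hat hba hza
  have hI2 : hs (1 + s) b ≤ 125 * (Q ^ 2 * (512 * D ^ 3 * t ^ 2)) :=
    hs_le hHs hFt (by linarith [hs2.1]) (by linarith [hs2.2]) he hD0 ht hbt hbb hzb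
  have hsum : hs (2 + s) a + hs (1 + s) b ≤ 250 * (Q ^ 2 * (512 * D ^ 3 * t ^ 2)) := by
    linarith
  refine (mul_le_mul_of_nonneg_left hsum c0_nonneg).trans ?_
  rw [mul_div_assoc]
  refine mul_le_mul_of_nonneg_left ?_ c0_nonneg
  have hQQ : Q = Q0 / (1 + t ^ 2) := by
    rw [hQ, hQ0, hC0]
    ring
  rw [hQQ, div_pow, le_div_iff₀ (by positivity)]
  have h3 : 250 * (Q0 ^ 2 / (1 + t ^ 2) ^ 2 * (512 * D ^ 3 * t ^ 2)) * (1 + t ^ 2) =
      250 * (Q0 ^ 2 * (512 * D ^ 3)) * (t ^ 2 / (1 + t ^ 2)) := by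
    field_simp
  rw [h3]
  refine mul_le_of_le_one_right (by positivity) ?_
  rw [div_le_one (by positivity)]
  linarith

end D1Px

open D1Px in
/-- **D1P** -/
theorem thm_D1P (hFt : St_Ft) (hHs : St_Hs) (hI : St_IsoP) (hDns : St_DnsP) (hF : St_FldP)
    (hX : St_ExBP) (hDc : St_DecayP) : St_D1P := by
  intro s k e c hs1 he
  rw [Metric.tendsto_atTop]
  intro ε hε
  obtain ⟨f, g, hf, hg, hfg⟩ := (hDns s hs1).2.1 k (ε / 2) (half_pos hε)
  obtain ⟨Kc, T, hK, hmain⟩ := main hFt hHs hI hF hX hDc hs1 hf hg c he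
  refine ⟨max T (4 * Kc / ε ^ 2 + 1), ?_⟩
  intro t ht
  have ht1 : T ≤ t := (le_max_left _ _).trans ht
  have ht2 : 4 * Kc / ε ^ 2 + 1 ≤ t := (le_max_right _ _).trans ht
  have h0 : 0 ≤ 4 * Kc / ε ^ 2 := by positivity
  have hex0 : 0 ≤ ex s (half e (c + t)) (tau t k) := norm_nonneg _
  rw [Real.dist_eq, sub_zero, abs_of_nonneg hex0]
  have h1 := hmain t ht1
  have h2 : Kc / (1 + t ^ 2) < (ε / 2) ^ 2 := by
    rw [div_lt_iff₀ (by positivity)]
    have h3 : 4 * Kc / ε ^ 2 < 1 + t ^ 2 := by nlinarith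
    rw [div_lt_iff₀ (by positivity)] at h3
    nlinarith
  have h3 : ex s (half e (c + t)) (tau t (Theta s f g)) < ε / 2 :=
    lt_of_pow_lt_pow_left₀ 2 (by positivity) (h1.trans_lt h2)
  have h4 := (hX s hs1).1 (half e (c + t)) (tau t k) (tau t (Theta s f g))
  have h5 : ‖tau t k - tau t (Theta s f g)‖ = ‖k - Theta s f g‖ := by
    rw [← map_sub, LinearIsometry.norm_map]
  rw [h5] at h4
  have h6 := le_abs_self
    (ex s (half e (c + t)) (tau t k) - ex s (half e (c + t)) (tau t (Theta s f g)))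
  linarith

end Pool.Agent.QWP
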