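import Pool.Agent.QWP.StD
import Pool.Agent.QWP.StC

/-!
# QWP D4: speed of the centre
-/

set_option autoImplicit false

open MeasureTheory Filter Topology Set
open scoped ENNReal NNReal RealInnerProductSpace

namespace Pool.Agent.QWP

open Pool.Agent.QWE (E S sg mu K toK tau sh dl rev gr ig IsTest pd lap Rad dRad Rk dRk c0 WD Sm SmE IsSch half shr WTo)

namespace D4x

/-- the times of the iteration -/
noncomputable def tj (a : ℝ → ℝ) (Tb s : ℝ) : ℕ → ℝ
  | 0 => s
  | j + 1 => tj a Tb s j + Tb * Real.exp (-(a (tj a Tb s j)))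

theorem tj_ge {a : ℝ → ℝ} {Tb s : ℝ} (hT : 0 < Tb) (j : ℕ) : s ≤ tj a Tb s j := by
  induction j with
  | zero => exact le_refl _
  | succ j ih =>
    have : 0 < Tb * Real.exp (-(a (tj a Tb s j))) := by positivity
    change s ≤ tj a Tb s j + Tb * Real.exp (-(a (tj a Tb s j)))
    linarith

theorem tj_far {a : ℝ → ℝ} {Tb s t B : ℝ} (hT : 0 < Tb)
    (hB : ∀ r, s ≤ r → r ≤ t → a r ≤ B) : ∃ j, t < tj a Tb s j := by
  by_contra hcon
  push Not at hcon
  have h1 : ∀ j : ℕ, s + j * (Tb * Real.exp (-B)) ≤ tj a Tb s j := by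
    intro j
    induction j with
    | zero => simp [tj]
    | succ j ih =>
      change _ ≤ tj a Tb s j + Tb * Real.exp (-(a (tj a Tb s j)))
      have h2 : Real.exp (-B) ≤ Real.exp (-(a (tj a Tb s j))) :=
        Real.exp_le_exp.2 (neg_le_neg (hB _ (tj_ge hT j) (hcon j)))
      have h3 := mul_le_mul_of_nonneg_left h2 hT.le
      push_cast
      linarith
  obtain ⟨n, hn⟩ := exists_nat_gt ((t - s) / (Tb * Real.exp (-B)))
  have hpos : 0 < Tb * Real.exp (-B) := by positivity
  rw [div_lt_iff₀ hpos] at hn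
  have h2 := h1 n
  have h3 := hcon n
  linarith

end D4x

open D4x

theorem thm_D4 (h2 : St_D2) (h3 : St_D3) (hHB : St_HBP) (hcp : St_HcpP) (hABd : St_ABd) :
    St_D4 := by
  intro p hp Q k x a hN
  have hs : |sig p| < 1 / 2 := abs_sig_lt hp
  obtain ⟨hC, ha⟩ := hN
  obtain ⟨hQ, h0, hM, hQk⟩ := id hC
  obtain ⟨-, hanti, -, -, hgr, -⟩ := hHB (sig p) hs
  obtain ⟨dA, hdA, hD2⟩ := h2 p hp
  obtain ⟨dB, hdB, hD3⟩ := h3 p hp
  have hSol : IsSol p univ k := hM.1
  -- lower bound of the norm on `Q`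
  obtain ⟨κ0, hκ0, -⟩ := hQk 0 (mem_univ _)
  obtain ⟨κm, hκm, hmin⟩ := hQ.exists_isMinOn ⟨κ0, hκ0⟩ continuous_norm.continuousOn
  obtain ⟨m0, hm0⟩ : ∃ m0 : ℝ, m0 = ‖κm‖ := ⟨_, rfl⟩
  have hm0pos : 0 < m0 := by
    rw [hm0, norm_pos_iff]
    rintro rfl
    exact h0 hκm
  have hm0le : ∀ κ ∈ Q, m0 ≤ ‖κ‖ := fun κ hκ => by
    rw [hm0]
    exact hmin hκ
  obtain ⟨d1, hd1⟩ : ∃ d1 : ℝ, d1 = min (m0 / 2) (min dA dB) := ⟨_, rfl⟩
  have hd1pos : 0 < d1 := by rw [hd1]; positivity
  have hd1m : d1 ≤ m0 / 2 := by rw [hd1]; exact min_le_left _ _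
  have hd1A : d1 ≤ dA := by rw [hd1]; exact (min_le_right _ _).trans (min_le_left _ _)
  have hd1B : d1 ≤ dB := by rw [hd1]; exact (min_le_right _ _).trans (min_le_right _ _)
  obtain ⟨Tb, s1, hs1, hsT, hstep⟩ := hD3 Q k x a d1 hC hd1pos hd1B
    (fun κ hκ => by have := hm0le κ hκ; linarith)
  have hTb : 0 < Tb := hs1.trans hsT
  obtain ⟨C0, hC0, hcpC⟩ := hcp (sig p) Q (min (d1 / 2) ((m0 - d1) / 2)) hs hQ (by
    apply lt_min <;> linarith)
  -- the two facts
  have hexp : ∀ t, Real.exp (-(a t)) ≤ 2 := by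
    intro t
    have e1 : -(a t) ≤ Real.log 2 := by linarith [ha t]
    calc Real.exp (-(a t)) ≤ Real.exp (Real.log 2) := Real.exp_le_exp.2 e1
      _ = 2 := Real.exp_log (by norm_num)
  have hi : ∀ (t : ℝ) (e : E), ‖e‖ = 1 →
      ex (sig p) (half e (inner ℝ (x t) e + C0 * Real.exp (-(a t)))) (k t) ≤ d1 / 2 := by
    intro t e he
    obtain ⟨κ, hκ, hk⟩ := hQk t (mem_univ _)
    rw [hk, hgr]
    have e1 : Real.exp (a t) * (inner ℝ (x t) e + C0 * Real.exp (-(a t)) - inner ℝ (x t) e) = C0 := by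
      rw [add_sub_cancel_left, mul_comm C0, ← mul_assoc, ← Real.exp_add, add_neg_cancel,
        Real.exp_zero, one_mul]
    rw [e1]
    exact (hcpC κ hκ e he).1.trans (min_le_left _ _)
  have hii : ∀ (t : ℝ) (e : E) (c : ℝ), ‖e‖ = 1 → ex (sig p) (half e c) (k t) ≤ d1 →
      inner ℝ (x t) e - C0 * Real.exp (-(a t)) < c := by
    intro t e c he hle
    by_contra hcon
    push Not at hcon
    obtain ⟨κ, hκ, hk⟩ := hQk t (mem_univ _)
    rw [hk, hgr] at hle
    have e1 : Real.exp (a t) * (c - inner ℝ (x t) e) ≤ -C0 := by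
      have e2 : c - inner ℝ (x t) e ≤ -(C0 * Real.exp (-(a t))) := by linarith
      have e3 := mul_le_mul_of_nonneg_left e2 (Real.exp_pos (a t)).le
      have e4 : Real.exp (a t) * -(C0 * Real.exp (-(a t))) = -C0 := by
        have e5 : Real.exp (a t) * -(C0 * Real.exp (-(a t))) =
            -(C0 * (Real.exp (a t) * Real.exp (-(a t)))) := by ring
        rw [e5, ← Real.exp_add, add_neg_cancel, Real.exp_zero, mul_one]
      rw [e4] at e3
      exact e3
    have e6 := hanti e _ _ κ e1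
    have e7 := (hcpC κ hκ e he).2
    have e8 := hm0le κ hκ
    have e9 : min (d1 / 2) ((m0 - d1) / 2) ≤ (m0 - d1) / 2 := min_le_right _ _
    linarith
  have hkap0 : 0 < s1 / Tb := by positivity
  have hkap1 : s1 / Tb < 1 := by rw [div_lt_one hTb]; exact hsT
  -- the main estimate
  have hmain : ∀ (s t : ℝ) (e : E), s ≤ t → ‖e‖ = 1 →
      inner ℝ (x t) e - inner ℝ (x s) e ≤ (1 - s1 / Tb) * (t - s) + (8 * C0 + 2 * Tb) := by
    intro s t e hst he
    obtain ⟨B, hB⟩ := hABd p hp Q k x a hC (max |s| |t|)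
    have hB' : ∀ r, s ≤ r → r ≤ t → a r ≤ B := fun r hr1 hr2 =>
      (le_abs_self _).trans (hB r (abs_le_max_abs_abs hr1 hr2)).1
    have hfar := tj_far (a := a) hTb hB'
    classical
    obtain ⟨j0, hj0⟩ : ∃ j0, j0 = Nat.find hfar := ⟨_, rfl⟩
    have hj0t : t < tj a Tb s j0 := by rw [hj0]; exact Nat.find_spec hfar
    have hj0min : ∀ j < j0, tj a Tb s j ≤ t := fun j hj => by
      rw [hj0] at hj
      exact not_lt.1 (Nat.find_min hfar hj)
    obtain ⟨J, rfl⟩ : ∃ J, j0 = J + 1 := by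
      rcases j0 with _ | J
      · exact absurd hj0t (not_lt.2 hst)
      · exact ⟨J, rfl⟩
    have hJt := hj0min J (Nat.lt_succ_self J)
    -- induction
    have hind : ∀ j, ex (sig p) (half e (inner ℝ (x s) e + C0 * Real.exp (-(a s)) +
        (1 - s1 / Tb) * (tj a Tb s j - s))) (k (tj a Tb s j)) ≤ d1 := by
      intro j
      induction j with
      | zero =>
        change ex (sig p) (half e (inner ℝ (x s) e + C0 * Real.exp (-(a s)) +
          (1 - s1 / Tb) * (s - s))) (k s) ≤ d1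
        rw [sub_self, mul_zero, add_zero]
        exact (hi s e he).trans (by linarith)
      | succ j ih =>
        have e1 := hstep _ e _ he ih
        change ex (sig p) (half e (inner ℝ (x s) e + C0 * Real.exp (-(a s)) +
          (1 - s1 / Tb) * (tj a Tb s j + Tb * Real.exp (-(a (tj a Tb s j))) - s)))
          (k (tj a Tb s j + Tb * Real.exp (-(a (tj a Tb s j))))) ≤ d1
        have e2 : inner ℝ (x s) e + C0 * Real.exp (-(a s)) +
          (1 - s1 / Tb) * (tj a Tb s j + Tb * Real.exp (-(a (tj a Tb s j))) - s) =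
          inner ℝ (x s) e + C0 * Real.exp (-(a s)) + (1 - s1 / Tb) * (tj a Tb s j - s) +
            (Tb - s1) * Real.exp (-(a (tj a Tb s j))) := by
          field_simp
          ring
        rw [e2]
        exact e1
    have f1 := hii _ e _ he (hind J)
    have f2 := (hD2 k e _ _ hSol he ((hi (tj a Tb s J) e he).trans (by linarith))).1 t hJt
    have f3 := hii t e _ he (f2.trans (by linarith [hi (tj a Tb s J) e he]))
    have g1 := mul_le_mul_of_nonneg_left (hexp s) hC0.le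
    have g2 := mul_le_mul_of_nonneg_left (hexp (tj a Tb s J)) hC0.le
    have g3 := mul_le_mul_of_nonneg_left (hexp t) hC0.le
    have g4 := mul_le_mul_of_nonneg_left (hexp (tj a Tb s J)) hTb.le
    have g5 : t < tj a Tb s J + Tb * Real.exp (-(a (tj a Tb s J))) := hj0t
    have g6 : (1 - s1 / Tb) * (tj a Tb s J - s) ≤ (1 - s1 / Tb) * (t - s) :=
      mul_le_mul_of_nonneg_left (by linarith) (by linarith)
    linarith
  have hdist : ∀ s t, s ≤ t → dist (x t) (x s) ≤ (1 - s1 / Tb) * (t - s) + (8 * C0 + 2 * Tb) := by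
    intro s t hst
    by_cases hx : x t = x s
    · rw [hx, dist_self]
      have : 0 ≤ (1 - s1 / Tb) * (t - s) := mul_nonneg (by linarith) (by linarith)
      linarith
    · have hne : x t - x s ≠ 0 := sub_ne_zero.2 hx
      have hnorm : ‖x t - x s‖ ≠ 0 := norm_ne_zero_iff.2 hne
      have he : ‖(‖x t - x s‖)⁻¹ • (x t - x s)‖ = 1 := by
        rw [norm_smul, norm_inv, norm_norm, inv_mul_cancel₀ hnorm]
      have e1 := hmain s t _ hst he
      rw [← inner_sub_left, inner_smul_right, real_inner_self_eq_norm_sq] at e1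
      have e2 : (‖x t - x s‖)⁻¹ * ‖x t - x s‖ ^ 2 = ‖x t - x s‖ := by
        field_simp
      rw [e2] at e1
      rw [dist_eq_norm]
      exact e1
  refine ⟨s1 / Tb, 8 * C0 + 2 * Tb, hkap0, hkap1, fun s t => ?_⟩
  rcases le_total s t with hst | hst
  · rw [abs_of_nonneg (by linarith)]
    exact hdist s t hst
  · rw [dist_comm, abs_of_nonpos (by linarith), neg_sub]
    exact hdist t s hst

end Pool.Agent.QWP
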