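import Pool.Agent.QWP.StD
import Pool.Agent.QWP.StE

set_option autoImplicit false

/-!
# QWP, D5: the centre of a normalised compact solution is subluminal
-/

namespace Pool.Agent.QWP

theorem thm_D5 (h4 : St_D4) (hi : Pool.Agent.QWE.St_Intp) : St_D5 := by
  intro b hb Q k x a h
  obtain ⟨kap, C, h0, h1, h2⟩ := h4 b hb Q k x a h
  exact hi x kap C h0 h1 h2

end Pool.Agent.QWP
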