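import Pool.Agent.QWP.StG

set_option autoImplicit false

/-!
# QWP, Dcy2: decay of second order test states
-/

open MeasureTheory Filter Topology Set
open scoped ENNReal NNReal RealInnerProductSpace ContDiff

namespace Pool.Agent.QWP

open Pool.Agent.QWE (E S sg mu K toK tau sh dl rev gr ig IsTest pd lap Rad dRad Rk dRk c0 WD Sm SmE IsSch half shr WTo resc tau_coe mp_shift)

namespace Dcy2x

/-! ### test functions -/

private lemma test_pd (i : Fin 5) {φ : E → ℝ} (h : IsTest φ) : IsTest (pd i φ) := by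
  refine ⟨?_, h.2.fderiv_apply ℝ _⟩
  exact (h.1.fderiv_right (m := ∞) (by simp)).clm_apply contDiff_const

private lemma tsupport_pd (i : Fin 5) (φ : E → ℝ) : tsupport (pd i φ) ⊆ tsupport φ :=
  tsupport_fderiv_apply_subset ℝ _

private lemma lap_zero {φ : E → ℝ} {x : E} (h : x ∉ tsupport φ) : lap φ x = 0 := by
  refine Finset.sum_eq_zero fun i _ => ?_
  exact image_eq_zero_of_notMem_tsupport fun h2 => h (tsupport_pd i φ (tsupport_pd i _ h2))

private lemma test_lap {φ : E → ℝ} (h : IsTest φ) : IsTest (lap φ) := by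
  refine ⟨?_, HasCompactSupport.intro h.2 fun x hx => lap_zero hx⟩
  exact ContDiff.sum fun i _ => (test_pd i (test_pd i h)).1

private lemma sch {f : E → ℝ} (hf : IsTest f) : IsSch f :=
  ⟨hf.2.toSchwartzMap hf.1, fun _ => rfl⟩

private lemma int_mul {f g : E → ℝ} (hf : IsTest f) (hg : IsTest g) :
    Integrable (fun x => f x * g x) (volume : Measure E) :=
  (hf.1.continuous.mul hg.1.continuous).integrable_of_hasCompactSupport hf.2.mul_right

private lemma ibp (i : Fin 5) {f g : E → ℝ} (hf : IsTest f) (hg : IsTest g) :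
    ∫ x, f x * pd i g x = - ∫ x, pd i f x * g x := by
  have h := integral_mul_fderiv_eq_neg_fderiv_mul_of_integrable (μ := (volume : Measure E))
    (f := f) (g := g) (v := EuclideanSpace.single i (1 : ℝ))
    (int_mul (test_pd i hf) hg) (int_mul hf (test_pd i hg)) (int_mul hf hg)
    (fun x _ => (hf.1.differentiable (by simp)) x) (fun x _ => (hg.1.differentiable (by simp)) x)
  exact h

private lemma ibp_lap {f g : E → ℝ} (hf : IsTest f) (hg : IsTest g) :
    ∫ x, f x * lap g x = - ∑ i, ∫ x, pd i f x * pd i g x := by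
  have h1 : ∫ x, f x * lap g x = ∑ i, ∫ x, f x * pd i (pd i g) x := by
    rw [← integral_finsetSum _ fun i _ => int_mul hf (test_pd i (test_pd i hg))]
    refine integral_congr_ae (Eventually.of_forall fun x => ?_)
    simp only [lap, Finset.mul_sum]
  rw [h1, ← Finset.sum_neg_distrib]
  exact Finset.sum_congr rfl fun i _ => ibp i hf (test_pd i hg)

/-- the Laplacian is symmetric -/
private lemma lap_symm {f g : E → ℝ} (hf : IsTest f) (hg : IsTest g) :
    ∫ x, lap f x * g x = ∫ x, f x * lap g x := by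
  have h1 := ibp_lap hg hf
  have h2 : ∫ x, lap f x * g x = ∫ x, g x * lap f x :=
    integral_congr_ae (Eventually.of_forall fun x => mul_comm _ _)
  have h3 : ∀ i, ∫ x, pd i g x * pd i f x = ∫ x, pd i f x * pd i g x := fun i =>
    integral_congr_ae (Eventually.of_forall fun x => mul_comm _ _)
  rw [h2, h1, ibp_lap hf hg, Finset.sum_congr rfl fun i _ => h3 i]

/-! ### the group -/

private lemma mpt (t : ℝ) : MeasurePreserving (fun z : S × ℝ => (z.1, z.2 - t)) mu mu :=
  mp_shift (g := fun _ => t) measurable_const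

private lemma tau_tau (s t : ℝ) (k : K) : tau s (tau t k) = tau (s + t) k := by
  apply Lp.ext
  have h := (mpt s).quasiMeasurePreserving.ae (tau_coe t k)
  filter_upwards [tau_coe s (tau t k), tau_coe (s + t) k, h] with z h1 h2 h3
  rw [h1, h2, h3]
  congr 2
  ring

private lemma tau_zero (k : K) : tau 0 k = k := by
  apply Lp.ext
  filter_upwards [tau_coe 0 k] with z h1
  rw [h1, sub_zero]

private lemma inner_tau (t : ℝ) (k k' : K) :
    inner ℝ (tau t k) k' = inner ℝ k (tau (-t) k') := by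
  have h : tau t (tau (-t) k') = k' := by rw [tau_tau, add_neg_cancel, tau_zero]
  conv_lhs => rw [← h]
  exact LinearIsometry.inner_map_map _ _ _

/-! ### testing -/

private lemma orth_span (s : Set K) (k : K) :
    k ∈ (Submodule.span ℝ s)ᗮ ↔ ∀ u ∈ s, inner ℝ k u = 0 := by
  constructor
  · intro h u hu
    exact (Submodule.mem_orthogonal' _ _).1 h u (Submodule.subset_span hu)
  · intro h
    rw [Submodule.mem_orthogonal']
    intro u hu
    induction hu using Submodule.span_induction with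
    | mem x hx => exact h x hx
    | zero => exact inner_zero_right _
    | add x y _ _ hx hy => rw [inner_add_right, hx, hy, add_zero]
    | smul a x _ hx => rw [inner_smul_right, hx, mul_zero]

variable {s : ℝ}

private lemma van_iff (Ω : Set E) (k : K) : Van s Ω k ↔ ∀ φ, IsTest φ → tsupport φ ⊆ Ω →
    inner ℝ k (Rs s φ) = 0 ∧ inner ℝ k (dRs s φ) = 0 := by
  unfold Van TS
  rw [Submodule.orthogonal_closure, orth_span]
  constructor
  · intro h φ h1 h2
    exact ⟨h _ ⟨φ, h1, h2, Or.inl rfl⟩, h _ ⟨φ, h1, h2, Or.inr rfl⟩⟩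
  · rintro h u ⟨φ, h1, h2, rfl | rfl⟩
    · exact (h φ h1 h2).1
    · exact (h φ h1 h2).2

private lemma eq_of_test (hD : TS s univ = ⊤) (k k' : K)
    (h : ∀ φ, IsTest φ → inner ℝ k (Rs s φ) = inner ℝ k' (Rs s φ) ∧
      inner ℝ k (dRs s φ) = inner ℝ k' (dRs s φ)) : k = k' := by
  have h1 : Van s univ (k - k') := by
    rw [van_iff]
    intro φ hφ _
    rw [inner_sub_left, inner_sub_left, (h φ hφ).1, (h φ hφ).2, sub_self, sub_self]
    exact ⟨rfl, rfl⟩
  unfold Van at h1
  rw [hD, Submodule.top_orthogonal_eq_bot, Submodule.mem_bot] at h1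
  exact sub_eq_zero.1 h1

/-- the fields of `Theta` tested with test functions -/
private def IT (s : ℝ) : Prop := ∀ f g φ : E → ℝ, IsTest f → IsTest g → IsTest φ →
  inner ℝ (Theta s f g) (Rs s φ) = ∫ x, f x * φ x ∧
    inner ℝ (Theta s f g) (dRs s φ) = ∫ x, g x * φ x

private lemma it_of_fld (hF : St_FldP) (hs : |s| < 1 / 2) : IT s := by
  intro f g φ hf hg hφ
  obtain ⟨C, hC, h1, h0, h2⟩ := hF s hs
  obtain ⟨a1, a2, -⟩ := h2 f g hf hg
  obtain ⟨-, -, -, -, -, h3⟩ := h1 (Theta s f g)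
  obtain ⟨b1, b2⟩ := h3 φ (sch hφ)
  constructor
  · rw [← b1]
    refine integral_congr_ae ?_
    filter_upwards [a1] with x hx
    rw [hx]
  · rw [← b2]
    refine integral_congr_ae ?_
    filter_upwards [a2] with x hx
    rw [hx]

/-- moving `tau` to the test state -/
private lemma move (hI : IT s) {t : ℝ} {a b f1 f2 : E → ℝ} (ha : IsTest a) (hb : IsTest b)
    (h1 : IsTest f1) (h2 : IsTest f2) {w : K} (hw : tau (-t) w = Rs s f1 + dRs s f2) :
    inner ℝ (tau t (Theta s a b)) w = (∫ x, a x * f1 x) + ∫ x, b x * f2 x := by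
  rw [inner_tau, hw, inner_add_right, (hI a b f1 ha hb h1).1, (hI a b f2 ha hb h2).2]

end Dcy2x

open Dcy2x in
theorem thm_Dcy2 (hF : St_FldP) (hDns : St_DnsP) (hX : St_FreX) (hTr : St_Tr)
    (hDec : St_DecayP) : St_Dcy2 := by
  intro f g hf hg
  obtain ⟨C, M0, hC, hM0, h⟩ := hDec f g hf hg
  refine ⟨C, M0, hC, hM0, fun t => ?_⟩
  obtain ⟨f', g', hf', hg', h1, h2, h3⟩ := h t
  refine ⟨f', g', hf', hg', fun s hs => ?_, h2, h3⟩
  have hI := it_of_fld hF hs
  have hk := h1 s hs
  refine eq_of_test (hDns s hs).1 _ _ fun φ hφ => ?_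
  have hlφ := test_lap hφ
  obtain ⟨f1, f2, hf1, hf2, -, -, e3, e4⟩ := hX φ (-t) hφ
  obtain ⟨p1, p2, hp1, hp2, -, -, -, e5⟩ := hX (lap φ) (-t) hlφ
  obtain ⟨e6, e7⟩ := e4 s hs
  obtain ⟨e8, e9⟩ := e5 s hs
  have hlf1 := test_lap hf1
  have hlf2 := test_lap hf2
  have hlf := test_lap hf
  have hlg := test_lap hg
  have e10 : tau (-t) (Rs s (lap φ)) = Rs s (lap f1) + dRs s (lap f2) :=
    (hTr s (-t) (lap φ) (lap f1) (lap f2) f g f' g' hs hlφ hlf1 hlf2 hf hg hf' hg').1 e3
  constructor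
  · -- the first field
    rw [move hI hlf hlg hf1 hf2 e6, (hI (lap f') (lap g') φ (test_lap hf') (test_lap hg') hφ).1,
      lap_symm hf hf1, lap_symm hg hf2, lap_symm hf' hφ,
      ← move hI hf hg hlf1 hlf2 e10, hk, (hI f' g' (lap φ) hf' hg' hlφ).1]
  · -- the second field
    have e11 : (∫ x, g x * p1 x) + ∫ x, lap f x * p2 x =
        (∫ x, g x * lap f1 x) + ∫ x, lap f x * lap f2 x := by
      rw [← move hI hg hlf hp1 hp2 e8, ← move hI hg hlf hlf1 hlf2 e10]
    rw [move hI hlf hlg hlf2 hf1 e7, (hI (lap f') (lap g') φ (test_lap hf') (test_lap hg') hφ).2,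
      lap_symm hg hf1, lap_symm hg' hφ, ← (hI f' g' (lap φ) hf' hg' hlφ).2, ← hk,
      move hI hf hg (test_lap hp2) hp1 e9, ← lap_symm hf hp2]
    linarith

end Pool.Agent.QWP
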