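import Pool.Agent.QWP.StA
import Pool.Agent.QWE.Iso

set_option autoImplicit false

/-!
# QWP: fields of nice functions (`St_DecX`)
-/

open MeasureTheory Filter Topology Set
open scoped ENNReal NNReal RealInnerProductSpace ContDiff

namespace Pool.Agent.QWP.DecXx

open Pool.Agent.QWE (E S sg mu K toK tau sh dl rev gr ig IsTest pd lap Rad dRad Rk dRk c0 WD Sm SmE IsSch half shr WTo)

/-! ### The divergence theorem on the sphere -/

private lemma int_sph {f : S → ℝ} (hf : Continuous f) : Integrable f sg :=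
  hf.integrable_of_hasCompactSupport (HasCompactSupport.of_compactSpace _)

private lemma int_of_cont {X : Type*} [NormedAddCommGroup X] {f : S → X} (hf : Continuous f) :
    Integrable f sg :=
  hf.integrable_of_hasCompactSupport (HasCompactSupport.of_compactSpace _)

private lemma polarR {F : E → ℝ} (hF : Integrable F) :
    ∫ w : S, (∫ r in Ioi (0 : ℝ), r ^ 4 * F (r • (w : E))) ∂sg = ∫ x, F x := by
  have h1 := (Pool.Agent.QWE.Isox.polar (H := fun x => (F x : ℂ)) hF.ofReal).2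
  have h2 : ∀ w : S, ∫ r in Ioi (0 : ℝ), (r : ℂ) ^ 4 * ((F (r • (w : E)) : ℝ) : ℂ) =
      ((∫ r in Ioi (0 : ℝ), r ^ 4 * F (r • (w : E)) : ℝ) : ℂ) := by
    intro w
    rw [← integral_complex_ofReal]
    refine integral_congr_ae (Eventually.of_forall fun r => ?_)
    push_cast
    rfl
  rw [integral_congr_ae (Eventually.of_forall h2), integral_complex_ofReal,
    integral_complex_ofReal] at h1
  exact_mod_cast h1

private lemma int_fderiv {Φ : E → ℝ} (h : ContDiff ℝ 1 Φ) (hc : HasCompactSupport Φ) (x : E) :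
    ∫ y, fderiv ℝ Φ y x = 0 := by
  have hcont : Continuous fun y => fderiv ℝ Φ y x :=
    (h.continuous_fderiv (by simp)).clm_apply continuous_const
  have hcs : HasCompactSupport fun y => fderiv ℝ Φ y x := hc.fderiv_apply ℝ x
  have h1 := integral_mul_fderiv_eq_neg_fderiv_mul_of_integrable (μ := (volume : Measure E))
    (f := fun _ : E => (1 : ℝ)) (g := Φ) (v := x) (by simp) ?_ ?_ ?_ ?_
  · simpa using h1
  · simpa using hcont.integrable_of_hasCompactSupport hcs
  · simpa using h.continuous.integrable_of_hasCompactSupport hc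
  · exact fun y _ => differentiableAt_const _
  · exact fun y _ => (h.differentiable (by simp)) y

/-- A radial cut-off. -/
private lemma exists_bump : ∃ χ : ℝ → ℝ, ContDiff ℝ ∞ χ ∧ (∀ r, χ r ≠ 0 → 1 < r ∧ r < 2) ∧
    (∀ r, 0 ≤ χ r) ∧ χ (3 / 2) = 1 := by
  let f : ContDiffBump (3 / 2 : ℝ) := ⟨1 / 8, 1 / 4, by norm_num, by norm_num⟩
  refine ⟨f, f.contDiff, fun r hr => ?_, fun r => f.nonneg, f.one_of_mem_closedBall (by simp [f])⟩
  have h1 : r ∈ Function.support f := hr
  rw [f.support_eq, Metric.mem_ball, Real.dist_eq, abs_lt] at h1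
  have h2 : f.rOut = 1 / 4 := rfl
  rw [h2] at h1
  constructor <;> linarith [h1.1, h1.2]

private lemma curve_deriv {w : E} (hw : ‖w‖ = 1) {r : ℝ} (hr : 0 < r) (x : E) :
    HasDerivAt (fun t : ℝ => ‖r • w + t • x‖) (inner ℝ w x) 0 ∧
      HasDerivAt (fun t : ℝ => ‖r • w + t • x‖⁻¹ • (r • w + t • x))
        (r⁻¹ • (x - inner ℝ x w • w)) 0 := by
  have h1 : HasDerivAt (fun t : ℝ => r • w + t • x) x 0 := by
    simpa using ((hasDerivAt_id (0 : ℝ)).smul_const x).const_add (r • w)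
  have h2 : HasDerivAt (fun t : ℝ => ‖r • w + t • x‖ ^ 2) (2 * inner ℝ (r • w + (0 : ℝ) • x) x) 0 :=
    h1.norm_sq
  have e0 : ‖r • w + (0 : ℝ) • x‖ ^ 2 = r ^ 2 := by
    rw [zero_smul, add_zero, norm_smul, hw, mul_one, Real.norm_eq_abs, sq_abs]
  have e1 : ‖r • w + (0 : ℝ) • x‖ = r := by
    rw [zero_smul, add_zero, norm_smul, hw, mul_one, Real.norm_eq_abs, abs_of_pos hr]
  have h3 : HasDerivAt (fun t : ℝ => ‖r • w + t • x‖) (inner ℝ w x) 0 := by
    have h4 := h2.sqrt (by rw [e0]; positivity)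
    have h5 : (fun t : ℝ => √(‖r • w + t • x‖ ^ 2)) = fun t : ℝ => ‖r • w + t • x‖ := by
      funext t
      exact Real.sqrt_sq (norm_nonneg _)
    rw [h5] at h4
    refine h4.congr_deriv ?_
    rw [e0, Real.sqrt_sq hr.le, zero_smul, add_zero, inner_smul_left]
    simp only [conj_trivial]
    field_simp
  refine ⟨h3, ?_⟩
  have h6 := (h3.inv (by rw [e1]; exact hr.ne')).smul h1
  refine h6.congr_deriv ?_
  simp only [Pi.inv_apply]
  rw [e1, zero_smul, add_zero, smul_sub, smul_smul, smul_smul]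
  have e2 : -inner ℝ w x / r ^ 2 * r = -(r⁻¹ * inner ℝ x w) := by
    rw [real_inner_comm]
    field_simp
  rw [e2, neg_smul]
  abel

private lemma divS {φ : E → ℝ} (hφ : ContDiff ℝ ∞ φ) (x : E) :
    ∫ w : S, fderiv ℝ φ (w : E) (x - inner ℝ x (w : E) • (w : E)) ∂sg =
      4 * ∫ w : S, inner ℝ x (w : E) * φ (w : E) ∂sg := by
  obtain ⟨χ, hχ, hsupp, hnn, h32⟩ := exists_bump
  set Φ : E → ℝ := fun y => χ ‖y‖ * φ (‖y‖⁻¹ • y) with hΦ
  -- smoothness
  have hΦs : ContDiff ℝ 1 Φ := by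
    rw [contDiff_iff_contDiffAt]
    intro y
    by_cases hy : ‖y‖ < 1
    · have h1 : Φ =ᶠ[𝓝 y] fun _ => 0 := by
        have h2 : ∀ᶠ z : E in 𝓝 y, ‖z‖ < 1 := (continuous_norm.tendsto y).eventually_lt_const hy
        filter_upwards [h2] with z hz
        simp only [hΦ]
        by_contra h
        have := hsupp ‖z‖ (left_ne_zero_of_mul h)
        linarith [this.1]
      exact contDiffAt_const.congr_of_eventuallyEq h1
    · have hy0 : y ≠ 0 := by
        rintro rfl
        simp at hy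
      have hn : ContDiffAt ℝ 1 (fun z : E => ‖z‖) y := contDiffAt_norm ℝ hy0
      have hn1 : ContDiffAt ℝ 1 (fun z : E => ‖z‖⁻¹) y := hn.inv (norm_ne_zero_iff.2 hy0)
      refine ContDiffAt.mul ?_ ?_
      · exact ((hχ.of_le (by exact_mod_cast le_top)).contDiffAt).comp y hn
      · exact ((hφ.of_le (by exact_mod_cast le_top)).contDiffAt).comp y (hn1.smul contDiffAt_id)
  have hΦc : HasCompactSupport Φ := by
    refine HasCompactSupport.intro (isCompact_closedBall 0 2) fun y hy => ?_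
    rw [mem_closedBall_zero_iff, not_le] at hy
    simp only [hΦ]
    by_contra h
    have := hsupp ‖y‖ (left_ne_zero_of_mul h)
    linarith [this.2]
  have hχ1 : ∀ r, r ≤ 0 → χ r = 0 ∧ deriv χ r = 0 := by
    intro r hr
    have h0 : ∀ q, q < 1 → χ q = 0 := by
      intro q hq
      by_contra h
      linarith [(hsupp q h).1]
    refine ⟨h0 r (by linarith), ?_⟩
    have h1 : χ =ᶠ[𝓝 r] fun _ => 0 := by
      filter_upwards [gt_mem_nhds (show r < 1 by linarith)] with q hq
      exact h0 q hq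
    rw [h1.deriv_eq]
    simp
  -- derivative in polar coordinates
  have hder : ∀ (w : S) (r : ℝ), 0 < r → r ^ 4 * fderiv ℝ Φ (r • (w : E)) x =
      (r ^ 4 * deriv χ r) * (inner ℝ x (w : E) * φ (w : E)) +
        (r ^ 3 * χ r) * fderiv ℝ φ (w : E) (x - inner ℝ x (w : E) • (w : E)) := by
    intro w r hr
    have hw : ‖(w : E)‖ = 1 := by simp
    obtain ⟨c1, c2⟩ := curve_deriv hw hr x
    have e1 : ‖r • (w : E) + (0 : ℝ) • x‖ = r := by
      rw [zero_smul, add_zero, norm_smul, hw, mul_one, Real.norm_eq_abs, abs_of_pos hr]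
    have d1 : HasDerivAt χ (deriv χ r) (‖r • (w : E) + (0 : ℝ) • x‖) := by
      rw [e1]
      exact ((hχ.differentiable (by simp)) r).hasDerivAt
    have d2 := d1.comp (0 : ℝ) c1
    have e2 : ‖r • (w : E) + (0 : ℝ) • x‖⁻¹ • (r • (w : E) + (0 : ℝ) • x) = (w : E) := by
      rw [e1, zero_smul, add_zero, smul_smul, inv_mul_cancel₀ hr.ne', one_smul]
    have d3 : HasFDerivAt φ (fderiv ℝ φ (w : E))
        (‖r • (w : E) + (0 : ℝ) • x‖⁻¹ • (r • (w : E) + (0 : ℝ) • x)) := by
      rw [e2]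
      exact ((hφ.differentiable (by simp)) (w : E)).hasFDerivAt
    have d4 := d3.comp_hasDerivAt (0 : ℝ) c2
    have d5 := d2.mul d4
    have c0 : HasDerivAt (fun t : ℝ => r • (w : E) + t • x) x 0 := by
      simpa using ((hasDerivAt_id (0 : ℝ)).smul_const x).const_add (r • (w : E))
    have d6 : HasFDerivAt Φ (fderiv ℝ Φ (r • (w : E))) (r • (w : E) + (0 : ℝ) • x) := by
      rw [zero_smul, add_zero]
      exact ((hΦs.differentiable (by simp)) (r • (w : E))).hasFDerivAt
    have d7 := d6.comp_hasDerivAt (0 : ℝ) c0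
    have d8 := d7.unique d5
    rw [d8]
    simp only [Function.comp_apply]
    rw [e2, e1, map_smul, smul_eq_mul, real_inner_comm]
    field_simp
  have hI := polarR (F := fun y => fderiv ℝ Φ y x)
    (((hΦs.continuous_fderiv (by simp)).clm_apply continuous_const).integrable_of_hasCompactSupport
      (hΦc.fderiv_apply ℝ x))
  rw [int_fderiv hΦs hΦc x] at hI
  -- one dimensional integrals
  have hχc : HasCompactSupport χ := by
    refine HasCompactSupport.intro (isCompact_Icc (a := 1) (b := 2)) fun r hr => ?_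
    by_contra h
    exact hr ⟨(hsupp r h).1.le, (hsupp r h).2.le⟩
  have hχcont : Continuous (deriv χ) := hχ.continuous_deriv (by simp)
  have i1 : Integrable fun r : ℝ => r ^ 4 * deriv χ r :=
    ((continuous_id.pow 4).mul hχcont).integrable_of_hasCompactSupport (hχc.deriv.mul_left)
  have i2 : Integrable fun r : ℝ => r ^ 3 * χ r :=
    ((continuous_id.pow 3).mul hχ.continuous).integrable_of_hasCompactSupport (hχc.mul_left)
  have hib : ∫ r in Ioi (0 : ℝ), r ^ 4 * deriv χ r = - (4 * ∫ r in Ioi (0 : ℝ), r ^ 3 * χ r) := by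
    have g1 : ∫ r in Ioi (0 : ℝ), r ^ 4 * deriv χ r = ∫ r, r ^ 4 * deriv χ r := by
      refine setIntegral_eq_integral_of_forall_compl_eq_zero fun r hr => ?_
      rw [(hχ1 r (by simpa using hr)).2, mul_zero]
    have g2 : ∫ r in Ioi (0 : ℝ), r ^ 3 * χ r = ∫ r, r ^ 3 * χ r := by
      refine setIntegral_eq_integral_of_forall_compl_eq_zero fun r hr => ?_
      rw [(hχ1 r (by simpa using hr)).1, mul_zero]
    have g3 := integral_mul_deriv_eq_deriv_mul_of_integrable (u := fun r : ℝ => r ^ 4)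
      (u' := fun r => 4 * r ^ 3) (v := χ) (v' := deriv χ)
      (fun r _ => by simpa using hasDerivAt_pow 4 r)
      (fun r _ => ((hχ.differentiable (by simp)) r).hasDerivAt) i1
      (by
        have := i2.const_mul 4
        refine this.congr (Eventually.of_forall fun r => ?_)
        simp only [Pi.mul_apply]
        ring)
      (((continuous_id.pow 4).mul hχ.continuous).integrable_of_hasCompactSupport (hχc.mul_left))
    rw [g1, g2, g3, ← integral_const_mul, ← integral_neg, ← integral_neg]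
    refine integral_congr_ae (Eventually.of_forall fun r => ?_)
    simp only
    ring
  have hpos : 0 < ∫ r in Ioi (0 : ℝ), r ^ 3 * χ r := by
    have g2 : ∫ r in Ioi (0 : ℝ), r ^ 3 * χ r = ∫ r, r ^ 3 * χ r := by
      refine setIntegral_eq_integral_of_forall_compl_eq_zero fun r hr => ?_
      rw [(hχ1 r (by simpa using hr)).1, mul_zero]
    rw [g2]
    have hc : Continuous fun r : ℝ => r ^ 3 * χ r := (continuous_id.pow 3).mul hχ.continuous
    refine hc.integral_pos_of_hasCompactSupport_nonneg_nonzero (x := 3 / 2) (hχc.mul_left)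
      (fun r => ?_) ?_
    · by_cases hr : χ r = 0
      · simp [hr]
      · have := (hsupp r hr).1
        have h2 : 0 < r := by linarith
        exact mul_nonneg (by positivity) (hnn r)
    · rw [h32]
      norm_num
  have hin : ∀ w : S, ∫ r in Ioi (0 : ℝ), r ^ 4 * fderiv ℝ Φ (r • (w : E)) x =
      (∫ r in Ioi (0 : ℝ), r ^ 4 * deriv χ r) * (inner ℝ x (w : E) * φ (w : E)) +
        (∫ r in Ioi (0 : ℝ), r ^ 3 * χ r) *
          fderiv ℝ φ (w : E) (x - inner ℝ x (w : E) • (w : E)) := by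
    intro w
    rw [← integral_mul_const, ← integral_mul_const, ← integral_add]
    · exact setIntegral_congr_fun measurableSet_Ioi fun r hr => hder w r hr
    · exact i1.integrableOn.mul_const _
    · exact i2.integrableOn.mul_const _
  have cφ : Continuous fun w : S => inner ℝ x (w : E) * φ (w : E) := by
    have := hφ.continuous
    fun_prop
  have cdφ : Continuous fun w : S => fderiv ℝ φ (w : E) (x - inner ℝ x (w : E) • (w : E)) := by
    have := hφ.continuous_fderiv (by simp)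
    exact (this.comp continuous_subtype_val).clm_apply (by fun_prop)
  rw [integral_congr_ae (Eventually.of_forall hin), integral_add ((int_sph cφ).const_mul _)
    ((int_sph cdφ).const_mul _), integral_const_mul, integral_const_mul, hib] at hI
  have h9 : (∫ r in Ioi (0 : ℝ), r ^ 3 * χ r) *
      ((∫ w : S, fderiv ℝ φ (w : E) (x - inner ℝ x (w : E) • (w : E)) ∂sg) -
        4 * ∫ w : S, inner ℝ x (w : E) * φ (w : E) ∂sg) = 0 := by
    linear_combination hI
  rcases mul_eq_zero.1 h9 with h | h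
  · exact absurd h hpos.ne'
  · linarith only [h]

/-! ### Functions on `E × ℝ` with compact support in the second variable -/

private noncomputable def dp (b : E × ℝ → ℝ) (z : E × ℝ) : ℝ := fderiv ℝ b z ((0 : E), (1 : ℝ))

private noncomputable def dv (i : Fin 5) (b : E × ℝ → ℝ) (z : E × ℝ) : ℝ :=
  fderiv ℝ b z ((EuclideanSpace.single i (1 : ℝ) : E), (0 : ℝ))

private def mp (b : E × ℝ → ℝ) (z : E × ℝ) : ℝ := z.2 * b z

private def mv (i : Fin 5) (b : E × ℝ → ℝ) (z : E × ℝ) : ℝ := z.1 i * b z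

private structure Bp (b : E × ℝ → ℝ) : Prop where
  sm : ContDiff ℝ ∞ b
  su : ∃ M : ℝ, ∀ x p, M ≤ |p| → b (x, p) = 0

private lemma Bp.fd {b : E × ℝ → ℝ} (hb : Bp b) (v : E × ℝ) : Bp fun z => fderiv ℝ b z v := by
  refine ⟨(hb.sm.fderiv_right (m := ∞) (by simp)).clm_apply contDiff_const, ?_⟩
  obtain ⟨M, hM⟩ := hb.su
  refine ⟨M + 1, fun x p hp => ?_⟩
  have h1 : b =ᶠ[𝓝 (x, p)] fun _ => 0 := by
    have h2 : ∀ᶠ z : E × ℝ in 𝓝 (x, p), M < |z.2| := by
      have hc : Continuous fun z : E × ℝ => |z.2| := by fun_prop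
      exact (hc.tendsto (x, p)).eventually_const_lt (by simp only; linarith)
    filter_upwards [h2] with z hz
    exact hM z.1 z.2 hz.le
  change fderiv ℝ b (x, p) v = 0
  rw [h1.fderiv_eq]
  simp

private lemma Bp.D {b : E × ℝ → ℝ} (hb : Bp b) : Bp (dp b) := hb.fd _

private lemma Bp.Dv {b : E × ℝ → ℝ} (hb : Bp b) (i : Fin 5) : Bp (dv i b) := hb.fd _

private lemma cd_coord (i : Fin 5) : ContDiff ℝ ∞ fun z : E × ℝ => z.1 i := by
  have h1 : ContDiff ℝ ∞ fun x : E => x i := by fun_prop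
  exact h1.comp contDiff_fst

private lemma Bp.P {b : E × ℝ → ℝ} (hb : Bp b) : Bp (mp b) := by
  refine ⟨contDiff_snd.mul hb.sm, ?_⟩
  obtain ⟨M, hM⟩ := hb.su
  exact ⟨M, fun x p hp => by simp only [mp]; rw [hM x p hp, mul_zero]⟩

private lemma Bp.Mv {b : E × ℝ → ℝ} (hb : Bp b) (i : Fin 5) : Bp (mv i b) := by
  refine ⟨(cd_coord i).mul hb.sm, ?_⟩
  obtain ⟨M, hM⟩ := hb.su
  exact ⟨M, fun x p hp => by simp only [mv]; rw [hM x p hp, mul_zero]⟩

private lemma Bp.sub {b c : E × ℝ → ℝ} (hb : Bp b) (hc : Bp c) : Bp (b - c) := by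
  refine ⟨hb.sm.sub hc.sm, ?_⟩
  obtain ⟨M, hM⟩ := hb.su
  obtain ⟨N, hN⟩ := hc.su
  refine ⟨max M N, fun x p hp => ?_⟩
  rw [Pi.sub_apply, hM x p ((le_max_left _ _).trans hp), hN x p ((le_max_right _ _).trans hp),
    sub_zero]

private lemma Bp.diff {b : E × ℝ → ℝ} (hb : Bp b) : Differentiable ℝ b :=
  hb.sm.differentiable (by simp)

private lemma dp_sub {b c : E × ℝ → ℝ} (hb : Bp b) (hc : Bp c) : dp (b - c) = dp b - dp c := by
  funext z
  simp only [dp, Pi.sub_apply]
  rw [fderiv_sub (hb.diff z) (hc.diff z)]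
  rfl

private lemma dp_mp {b : E × ℝ → ℝ} (hb : Bp b) : dp (mp b) = b + mp (dp b) := by
  funext z
  have h1 : HasFDerivAt (fun z : E × ℝ => z.2 * b z)
      (z.2 • fderiv ℝ b z + b z • ContinuousLinearMap.snd ℝ E ℝ) z :=
    hasFDerivAt_snd.mul (hb.diff z).hasFDerivAt
  have h2 : fderiv ℝ (mp b) z = _ := h1.fderiv
  simp only [dp, Pi.add_apply]
  rw [h2]
  simp [mp, dp]
  ring

private lemma dp_mv {b : E × ℝ → ℝ} (hb : Bp b) (i : Fin 5) : dp (mv i b) = mv i (dp b) := by
  funext z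
  have h0 : HasFDerivAt (fun z : E × ℝ => z.1 i)
      ((EuclideanSpace.proj i : E →L[ℝ] ℝ).comp (ContinuousLinearMap.fst ℝ E ℝ)) z :=
    ((EuclideanSpace.proj i : E →L[ℝ] ℝ).comp (ContinuousLinearMap.fst ℝ E ℝ)).hasFDerivAt
  have h1 := h0.mul (hb.diff z).hasFDerivAt
  have h2 : fderiv ℝ (mv i b) z = _ := h1.fderiv
  simp only [dp]
  rw [h2]
  simp [mv, dp]

private lemma dp_dv {b : E × ℝ → ℝ} (hb : Bp b) (i : Fin 5) : dp (dv i b) = dv i (dp b) := by
  funext z
  have hs : IsSymmSndFDerivAt ℝ b z := (hb.sm.contDiffAt (x := z)).isSymmSndFDerivAt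
    (by
      simp only [minSmoothness_of_isRCLikeNormedField]
      exact WithTop.coe_le_coe.2 (le_top : (2 : ℕ∞) ≤ ⊤))
  have hd : DifferentiableAt ℝ (fderiv ℝ b) z :=
    ((hb.sm.fderiv_right (m := ∞) (by simp)).differentiable (by simp)) z
  have h1 : ∀ v u : E × ℝ, fderiv ℝ (fun y => fderiv ℝ b y v) z u = fderiv ℝ (fderiv ℝ b) z u v := by
    intro v u
    have h2 := (hd.hasFDerivAt).clm_apply (hasFDerivAt_const v z)
    rw [h2.fderiv]
    simp
  have e1 : fderiv ℝ (dv i b) z = fderiv ℝ (fun y => fderiv ℝ b y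
    ((EuclideanSpace.single i (1 : ℝ) : E), (0 : ℝ))) z := rfl
  have e2 : dv i (dp b) z = fderiv ℝ (fun y => fderiv ℝ b y
    ((0 : E), (1 : ℝ))) z ((EuclideanSpace.single i (1 : ℝ) : E), (0 : ℝ)) := rfl
  rw [e2]
  change fderiv ℝ (dv i b) z ((0 : E), (1 : ℝ)) = _
  rw [e1, h1, h1]
  exact hs _ _

/-- `p`-derivatives of order `k`. -/
private def O (k : ℕ) (c : E × ℝ → ℝ) : Prop := ∃ b, Bp b ∧ c = dp^[k] b

private lemma Bp.iter {b : E × ℝ → ℝ} (hb : Bp b) (k : ℕ) : Bp (dp^[k] b) := by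
  induction k with
  | zero => simpa using hb
  | succ k ih => rw [Function.iterate_succ_apply']; exact ih.D

private lemma O.bp {k : ℕ} {c : E × ℝ → ℝ} (h : O k c) : Bp c := by
  obtain ⟨b, hb, rfl⟩ := h
  exact hb.iter k

private lemma O.D {k : ℕ} {c : E × ℝ → ℝ} (h : O k c) : O (k + 1) (dp c) := by
  obtain ⟨b, hb, rfl⟩ := h
  exact ⟨b, hb, by rw [Function.iterate_succ_apply']⟩

private lemma O.sub {k : ℕ} {c d : E × ℝ → ℝ} (h : O k c) (h' : O k d) : O k (c - d) := by
  obtain ⟨b, hb, rfl⟩ := h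
  obtain ⟨b', hb', rfl⟩ := h'
  refine ⟨b - b', hb.sub hb', ?_⟩
  induction k with
  | zero => simp
  | succ k ih =>
    rw [Function.iterate_succ_apply', Function.iterate_succ_apply', Function.iterate_succ_apply',
      ← ih, dp_sub (hb.iter k) (hb'.iter k)]

private lemma O.Mv {k : ℕ} {c : E × ℝ → ℝ} (h : O k c) (i : Fin 5) : O k (mv i c) := by
  obtain ⟨b, hb, rfl⟩ := h
  refine ⟨mv i b, hb.Mv i, ?_⟩
  induction k with
  | zero => simp
  | succ k ih =>
    rw [Function.iterate_succ_apply', Function.iterate_succ_apply', ← ih, dp_mv (hb.iter k) i]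

private lemma O.Dv {k : ℕ} {c : E × ℝ → ℝ} (h : O k c) (i : Fin 5) : O k (dv i c) := by
  obtain ⟨b, hb, rfl⟩ := h
  refine ⟨dv i b, hb.Dv i, ?_⟩
  induction k with
  | zero => simp
  | succ k ih =>
    rw [Function.iterate_succ_apply', Function.iterate_succ_apply', ← ih, dp_dv (hb.iter k) i]

private lemma O.P {k : ℕ} : ∀ {c : E × ℝ → ℝ}, O (k + 1) c → O k (mp c) := by
  induction k with
  | zero =>
    intro c h
    exact ⟨_, h.bp.P, by simp⟩
  | succ k ih =>
    intro c h
    obtain ⟨b, hb, rfl⟩ := h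
    have h1 : O (k + 1) (dp^[k + 1] b) := ⟨b, hb, rfl⟩
    rw [Function.iterate_succ_apply']
    have h2 := dp_mp h1.bp
    have h3 : mp (dp (dp^[k + 1] b)) =
        dp (mp (dp^[k + 1] b)) - dp^[k + 1] b := by
      rw [h2]; abel
    rw [h3]
    exact (ih h1).D.sub h1

/-! ### The dual transform of such functions -/

private noncomputable def F (b : E × ℝ → ℝ) (x : E) : ℝ :=
  ∫ w : S, b ((w : E), inner ℝ x (w : E)) ∂sg

private lemma F_int {b : E × ℝ → ℝ} (hb : Continuous b) (x : E) :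
    Integrable (fun w : S => b ((w : E), inner ℝ x (w : E))) sg :=
  int_sph (hb.comp (by fun_prop))

private lemma vec_eq (u : E) (s : ℝ) : ((u, s) : E × ℝ) =
    (∑ i, u i • ((EuclideanSpace.single i (1 : ℝ) : E), (0 : ℝ))) + s • ((0 : E), (1 : ℝ)) := by
  have h1 : u = ∑ i, u i • (EuclideanSpace.single i (1 : ℝ) : E) := by
    ext j
    simp [Pi.single_apply]
  ext1
  · rw [Prod.fst_add, Prod.fst_sum]
    simp only [Prod.smul_fst, smul_zero, add_zero]
    exact h1
  · rw [Prod.snd_add, Prod.snd_sum]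
    simp

private lemma fderiv_split (b : E × ℝ → ℝ) (z : E × ℝ) (u : E) (s : ℝ) :
    fderiv ℝ b z (u, s) = (∑ i, u i * dv i b z) + s * dp b z := by
  rw [vec_eq u s, map_add, map_sum, map_smul]
  simp only [map_smul, smul_eq_mul]
  rfl

private lemma int4 {A B C D : S → ℝ} (hA : Integrable A sg) (hB : Integrable B sg)
    (hC : Integrable C sg) (hD : Integrable D sg) :
    ∫ w, (A w - B w + (C w - D w)) ∂sg = (∫ w, A w ∂sg) - (∫ w, B w ∂sg) +
      ((∫ w, C w ∂sg) - ∫ w, D w ∂sg) := by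
  rw [← integral_sub hA hB, ← integral_sub hC hD]
  exact integral_add (hA.sub hB) (hC.sub hD)

/-- The main identity. -/
private lemma ident {c : E × ℝ → ℝ} (hc : Bp c) (x : E) :
    ‖x‖ ^ 2 * F (dp c) x = F (mp (mp (dp c))) x + 4 * F (mp c) x - (∑ i, x i * F (dv i c) x) +
      ∑ i, F (mp (mv i (dv i c))) x := by
  have hφ : ContDiff ℝ ∞ fun v : E => c (v, inner ℝ x v) := by
    exact hc.sm.comp (contDiff_id.prodMk (innerSL ℝ x).contDiff)
  have h1 := divS hφ x
  have hd : ∀ w : S, fderiv ℝ (fun v : E => c (v, inner ℝ x v)) (w : E)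
      (x - inner ℝ x (w : E) • (w : E)) =
      ‖x‖ ^ 2 * dp c ((w : E), inner ℝ x (w : E)) - mp (mp (dp c)) ((w : E), inner ℝ x (w : E)) +
        ((∑ i, x i * dv i c ((w : E), inner ℝ x (w : E))) -
          ∑ i, mp (mv i (dv i c)) ((w : E), inner ℝ x (w : E))) := by
    intro w
    have g1 : HasFDerivAt (fun v : E => (v, inner ℝ x v))
        ((ContinuousLinearMap.id ℝ E).prod (innerSL ℝ x)) (w : E) := by
      have := ((ContinuousLinearMap.id ℝ E).prod (innerSL ℝ x)).hasFDerivAt (x := (w : E))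
      exact this
    have g2 := ((hc.diff ((w : E), inner ℝ x (w : E))).hasFDerivAt).comp (w : E) g1
    have g3 : fderiv ℝ (fun v : E => c (v, inner ℝ x v)) (w : E) = _ := g2.fderiv
    rw [g3, ContinuousLinearMap.comp_apply]
    have g4 : ((ContinuousLinearMap.id ℝ E).prod (innerSL ℝ x))
        (x - inner ℝ x (w : E) • (w : E)) = (x - inner ℝ x (w : E) • (w : E),
          ‖x‖ ^ 2 - inner ℝ x (w : E) * inner ℝ x (w : E)) := by
      simp [inner_sub_right, inner_smul_right]
    rw [g4, fderiv_split]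
    simp only [mp, mv, PiLp.sub_apply, PiLp.smul_apply, smul_eq_mul]
    rw [← Finset.sum_sub_distrib]
    have g5 : ∑ i, (x i - inner ℝ x (w : E) * (w : E) i) * dv i c ((w : E), inner ℝ x (w : E)) =
        ∑ i, (x i * dv i c ((w : E), inner ℝ x (w : E)) -
          inner ℝ x (w : E) * ((w : E) i * dv i c ((w : E), inner ℝ x (w : E)))) :=
      Finset.sum_congr rfl fun i _ => by ring
    rw [g5]
    ring
  rw [integral_congr_ae (Eventually.of_forall hd)] at h1
  have i1 := F_int hc.D.sm.continuous x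
  have i2 := F_int hc.D.P.P.sm.continuous x
  have i3 : ∀ i, Integrable (fun w : S => x i * dv i c ((w : E), inner ℝ x (w : E))) sg :=
    fun i => (F_int (hc.Dv i).sm.continuous x).const_mul _
  have i4 : ∀ i, Integrable (fun w : S => mp (mv i (dv i c)) ((w : E), inner ℝ x (w : E))) sg :=
    fun i => F_int ((hc.Dv i).Mv i).P.sm.continuous x
  rw [int4 (i1.const_mul _) i2 (integrable_finsetSum _ fun i _ => i3 i)
      (integrable_finsetSum _ fun i _ => i4 i), integral_finsetSum _ fun i _ => i3 i,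
    integral_finsetSum _ fun i _ => i4 i, integral_const_mul] at h1
  simp only [integral_const_mul] at h1
  have e1 : ∫ w : S, inner ℝ x (w : E) * c ((w : E), inner ℝ x (w : E)) ∂sg = F (mp c) x := rfl
  rw [e1] at h1
  simp only [F]
  simp only [F] at h1
  linarith only [h1]

/-! ### Decay -/

private def D (e : ℕ) (c : E × ℝ → ℝ) : Prop := ∃ C : ℝ, ∀ x, |F c x| ≤ C / (1 + ‖x‖) ^ e

private lemma Bp.bdd {b : E × ℝ → ℝ} (hb : Bp b) :
    ∃ B M : ℝ, 0 ≤ B ∧ 0 < M ∧ ∀ (w : S) (p : ℝ), |b ((w : E), p)| ≤ (Icc (-M) M).indicator (fun _ => B) p := by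
  obtain ⟨M, hM⟩ := hb.su
  have hK : IsCompact ((univ : Set S) ×ˢ (Icc (-(max M 1)) (max M 1))) := isCompact_univ.prod isCompact_Icc
  have hc : Continuous fun z : S × ℝ => b ((z.1 : E), z.2) := hb.sm.continuous.comp (by fun_prop)
  obtain ⟨B, hB⟩ := hK.exists_bound_of_continuousOn hc.continuousOn
  refine ⟨max B 0, max M 1, le_max_right _ _, by positivity, fun w p => ?_⟩
  by_cases hp : p ∈ Icc (-(max M 1)) (max M 1)
  · rw [indicator_of_mem hp]
    exact (hB (w, p) ⟨mem_univ _, hp⟩).trans (le_max_left _ _)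
  · rw [indicator_of_notMem hp, hM _ p, abs_zero]
    by_contra h
    rw [not_le] at h
    exact hp (abs_le.1 (h.le.trans (le_max_left _ _)))

private lemma F_bdd {b : E × ℝ → ℝ} (hb : Bp b) : ∃ C : ℝ, 0 ≤ C ∧ ∀ x, |F b x| ≤ C := by
  obtain ⟨B, M, hB0, hM0, hB⟩ := hb.bdd
  refine ⟨∫ _ : S, B ∂sg, integral_nonneg fun _ => hB0, fun x => ?_⟩
  refine (abs_integral_le_integral_abs).trans ?_
  refine integral_mono (F_int hb.sm.continuous x).abs (integrable_const _) fun w => ?_
  refine (hB w _).trans ?_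
  exact indicator_le_self' (fun _ _ => hB0) _

private lemma D_zero {b : E × ℝ → ℝ} (hb : Bp b) : D 0 b := by
  obtain ⟨C, hC0, hC⟩ := F_bdd hb
  exact ⟨C, fun x => by simpa using hC x⟩

private lemma strip (hSL1 : Pool.Agent.QWE.St_SL1) {b : E × ℝ → ℝ} (hb : Bp b) :
    ∃ C : ℝ, 0 ≤ C ∧ ∀ x, x ≠ 0 → |F b x| ≤ C / ‖x‖ := by
  obtain ⟨B, M, hB0, hM0, hB⟩ := hb.bdd
  refine ⟨2 * Real.pi ^ 2 * (B * (2 * M)), by positivity, fun x hx => ?_⟩
  have hx0 : 0 < ‖x‖ := norm_pos_iff.2 hx
  have hm : Measurable ((Icc (-M) M).indicator (fun _ : ℝ => ENNReal.ofReal B)) :=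
    measurable_const.indicator measurableSet_Icc
  have h1 := hSL1 x hx _ hm
  have h2 : ENNReal.ofReal |F b x| ≤
      ∫⁻ w : S, (Icc (-M) M).indicator (fun _ : ℝ => ENNReal.ofReal B) (inner ℝ x (w : E)) ∂sg := by
    have h3 : ENNReal.ofReal |F b x| = ‖F b x‖ₑ := by
      rw [← Real.norm_eq_abs, ofReal_norm]
    rw [h3]
    refine (enorm_integral_le_lintegral_enorm _).trans ?_
    refine lintegral_mono fun w => ?_
    rw [← ofReal_norm, Real.norm_eq_abs]
    refine (ENNReal.ofReal_le_ofReal (hB w _)).trans (le_of_eq ?_)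
    by_cases hp : inner ℝ x (w : E) ∈ Icc (-M) M
    · rw [indicator_of_mem hp, indicator_of_mem hp]
    · rw [indicator_of_notMem hp, indicator_of_notMem hp, ENNReal.ofReal_zero]
  have h4 : ∫⁻ p in Icc (-‖x‖) ‖x‖, ENNReal.ofReal (2 * Real.pi ^ 2 / ‖x‖ * (1 - p ^ 2 / ‖x‖ ^ 2)) *
      (Icc (-M) M).indicator (fun _ : ℝ => ENNReal.ofReal B) p ≤
      ENNReal.ofReal (2 * Real.pi ^ 2 * (B * (2 * M)) / ‖x‖) := by
    calc ∫⁻ p in Icc (-‖x‖) ‖x‖, ENNReal.ofReal (2 * Real.pi ^ 2 / ‖x‖ * (1 - p ^ 2 / ‖x‖ ^ 2)) *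
        (Icc (-M) M).indicator (fun _ : ℝ => ENNReal.ofReal B) p
        ≤ ∫⁻ p in Icc (-‖x‖) ‖x‖, (Icc (-M) M).indicator
            (fun _ : ℝ => ENNReal.ofReal (2 * Real.pi ^ 2 / ‖x‖) * ENNReal.ofReal B) p := by
          refine lintegral_mono fun p => ?_
          by_cases hp : p ∈ Icc (-M) M
          · rw [indicator_of_mem hp, indicator_of_mem hp]
            gcongr
            have h5 : 1 - p ^ 2 / ‖x‖ ^ 2 ≤ 1 := by
              have : 0 ≤ p ^ 2 / ‖x‖ ^ 2 := by positivity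
              linarith
            calc 2 * Real.pi ^ 2 / ‖x‖ * (1 - p ^ 2 / ‖x‖ ^ 2) ≤ 2 * Real.pi ^ 2 / ‖x‖ * 1 := by
                  gcongr
              _ = 2 * Real.pi ^ 2 / ‖x‖ := mul_one _
          · rw [indicator_of_notMem hp, indicator_of_notMem hp, mul_zero]
      _ ≤ ∫⁻ p, (Icc (-M) M).indicator
            (fun _ : ℝ => ENNReal.ofReal (2 * Real.pi ^ 2 / ‖x‖) * ENNReal.ofReal B) p :=
          setLIntegral_le_lintegral _ _
      _ = ENNReal.ofReal (2 * Real.pi ^ 2 / ‖x‖) * ENNReal.ofReal B * volume (Icc (-M) M) := by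
          rw [lintegral_indicator measurableSet_Icc, lintegral_const, Measure.restrict_apply_univ]
      _ = ENNReal.ofReal (2 * Real.pi ^ 2 * (B * (2 * M)) / ‖x‖) := by
          rw [Real.volume_Icc, ← ENNReal.ofReal_mul (by positivity),
            ← ENNReal.ofReal_mul (by positivity)]
          congr 1
          ring
  have h5 := h2.trans (h1.le.trans h4)
  rwa [ENNReal.ofReal_le_ofReal_iff (by positivity)] at h5

/-- From large `x` to all `x`. -/
private lemma D_of_large {b : E × ℝ → ℝ} (hb : Bp b) (e : ℕ) {C : ℝ}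
    (h : ∀ x, 1 ≤ ‖x‖ → ‖x‖ ^ e * |F b x| ≤ C) : D e b := by
  obtain ⟨C1, hC10, hC1⟩ := F_bdd hb
  refine ⟨2 ^ e * max C C1, fun x => ?_⟩
  rw [le_div_iff₀ (by positivity), mul_comm]
  by_cases hx : 1 ≤ ‖x‖
  · have h1 : (1 + ‖x‖) ^ e ≤ 2 ^ e * ‖x‖ ^ e := by
      rw [← mul_pow]
      gcongr
      linarith
    calc (1 + ‖x‖) ^ e * |F b x| ≤ 2 ^ e * ‖x‖ ^ e * |F b x| := by gcongr
      _ = 2 ^ e * (‖x‖ ^ e * |F b x|) := by ring
      _ ≤ 2 ^ e * max C C1 := by
        gcongr
        exact (h x hx).trans (le_max_left _ _)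
  · have h1 : (1 + ‖x‖) ^ e ≤ 2 ^ e := by
      gcongr
      linarith
    calc (1 + ‖x‖) ^ e * |F b x| ≤ 2 ^ e * |F b x| := by gcongr
      _ ≤ 2 ^ e * max C C1 := by
        gcongr
        exact (hC1 x).trans (le_max_right _ _)

private lemma D_one (hSL1 : Pool.Agent.QWE.St_SL1) {b : E × ℝ → ℝ} (hb : Bp b) : D 1 b := by
  obtain ⟨C, hC0, hC⟩ := strip hSL1 hb
  refine D_of_large hb 1 (C := C) fun x hx => ?_
  have hx0 : 0 < ‖x‖ := by linarith
  have h1 := hC x (norm_pos_iff.1 hx0)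
  rw [le_div_iff₀ hx0] at h1
  rw [pow_one, mul_comm]
  exact h1

/-- `D` in the form needed for large `x`. -/
private lemma D.large {e : ℕ} {c : E × ℝ → ℝ} (h : D e c) :
    ∃ C : ℝ, 0 ≤ C ∧ ∀ x, 1 ≤ ‖x‖ → ‖x‖ ^ e * |F c x| ≤ C := by
  obtain ⟨C, hC⟩ := h
  refine ⟨max C 0, le_max_right _ _, fun x hx => ?_⟩
  have h1 := hC x
  rw [le_div_iff₀ (by positivity)] at h1
  calc ‖x‖ ^ e * |F c x| ≤ (1 + ‖x‖) ^ e * |F c x| := by
        gcongr
        linarith
    _ = |F c x| * (1 + ‖x‖) ^ e := by ring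
    _ ≤ C := h1
    _ ≤ max C 0 := le_max_left _ _

private lemma abs_coord (x : E) (i : Fin 5) : |x i| ≤ ‖x‖ := by
  have := PiLp.norm_apply_le x i
  simpa [Real.norm_eq_abs] using this

private lemma step {c : E × ℝ → ℝ} (hc : Bp c) {e : ℕ} (h1 : D e (mp (mp (dp c)))) (h2 : D e (mp c))
    (h3 : ∀ i, D (e + 1) (dv i c)) (h4 : ∀ i, D e (mp (mv i (dv i c)))) : D (e + 2) (dp c) := by
  obtain ⟨C1, p1, q1⟩ := h1.large
  obtain ⟨C2, p2, q2⟩ := h2.large
  choose C3 p3 q3 using fun i => (h3 i).large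
  choose C4 p4 q4 using fun i => (h4 i).large
  refine D_of_large hc.D (e + 2) (C := C1 + 4 * C2 + (∑ i, C3 i) + ∑ i, C4 i) fun x hx => ?_
  have hid := ident hc x
  have e1 : ‖x‖ ^ (e + 2) * |F (dp c) x| = ‖x‖ ^ e * |‖x‖ ^ 2 * F (dp c) x| := by
    rw [abs_mul, abs_of_nonneg (by positivity : 0 ≤ ‖x‖ ^ 2)]
    ring
  rw [e1, hid]
  have t1 : |F (mp (mp (dp c))) x + 4 * F (mp c) x - (∑ i, x i * F (dv i c) x) +
      ∑ i, F (mp (mv i (dv i c))) x| ≤ |F (mp (mp (dp c))) x| + 4 * |F (mp c) x| +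
        (∑ i, ‖x‖ * |F (dv i c) x|) + ∑ i, |F (mp (mv i (dv i c))) x| := by
    have a1 : |∑ i, x i * F (dv i c) x| ≤ ∑ i, ‖x‖ * |F (dv i c) x| := by
      refine (Finset.abs_sum_le_sum_abs _ _).trans (Finset.sum_le_sum fun i _ => ?_)
      rw [abs_mul]
      gcongr
      exact abs_coord x i
    have a2 : |∑ i, F (mp (mv i (dv i c))) x| ≤ ∑ i, |F (mp (mv i (dv i c))) x| :=
      Finset.abs_sum_le_sum_abs _ _
    have a3 : |4 * F (mp c) x| = 4 * |F (mp c) x| := by
      rw [abs_mul]; norm_num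
    calc |F (mp (mp (dp c))) x + 4 * F (mp c) x - (∑ i, x i * F (dv i c) x) +
        ∑ i, F (mp (mv i (dv i c))) x|
        ≤ |F (mp (mp (dp c))) x + 4 * F (mp c) x - (∑ i, x i * F (dv i c) x)| +
          |∑ i, F (mp (mv i (dv i c))) x| := abs_add_le _ _
      _ ≤ |F (mp (mp (dp c))) x + 4 * F (mp c) x| + |∑ i, x i * F (dv i c) x| +
          |∑ i, F (mp (mv i (dv i c))) x| := by
        gcongr
        exact abs_sub _ _
      _ ≤ |F (mp (mp (dp c))) x| + |4 * F (mp c) x| + |∑ i, x i * F (dv i c) x| +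
          |∑ i, F (mp (mv i (dv i c))) x| := by
        gcongr
        exact abs_add_le _ _
      _ ≤ _ := by
        rw [a3]
        gcongr
  calc ‖x‖ ^ e * |F (mp (mp (dp c))) x + 4 * F (mp c) x - (∑ i, x i * F (dv i c) x) +
      ∑ i, F (mp (mv i (dv i c))) x|
      ≤ ‖x‖ ^ e * (|F (mp (mp (dp c))) x| + 4 * |F (mp c) x| +
        (∑ i, ‖x‖ * |F (dv i c) x|) + ∑ i, |F (mp (mv i (dv i c))) x|) := by gcongr
    _ = ‖x‖ ^ e * |F (mp (mp (dp c))) x| + 4 * (‖x‖ ^ e * |F (mp c) x|) +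
        (∑ i, ‖x‖ ^ (e + 1) * |F (dv i c) x|) + ∑ i, ‖x‖ ^ e * |F (mp (mv i (dv i c))) x| := by
      rw [mul_add, mul_add, mul_add, Finset.mul_sum, Finset.mul_sum]
      congr 2
      · congr 1
        ring
      · refine Finset.sum_congr rfl fun i _ => ?_
        ring
    _ ≤ C1 + 4 * C2 + (∑ i, C3 i) + ∑ i, C4 i := by
      gcongr
      · exact q1 x hx
      · exact q2 x hx
      · exact q3 _ x hx
      · exact q4 _ x hx

private lemma dec (hSL1 : Pool.Agent.QWE.St_SL1) (k : ℕ) : ∀ c, O k c → D (k + 1) c := by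
  induction k using Nat.strong_induction_on with
  | _ k ih =>
    intro c hc
    rcases k with _ | _ | m
    · exact D_one hSL1 hc.bp
    · obtain ⟨b, hb, rfl⟩ := hc
      have hb0 : O 0 b := ⟨b, hb, rfl⟩
      refine step hb (e := 0) (D_zero hb.D.P.P) (D_zero hb.P) (fun i => ?_)
        (fun i => D_zero ((hb.Dv i).Mv i).P)
      exact D_one hSL1 (hb.Dv i)
    · obtain ⟨b, hb, rfl⟩ := hc
      have h1 : O (m + 1) (dp^[m + 1] b) := ⟨b, hb, rfl⟩
      rw [show m + 1 + 1 = (m + 1) + 1 from rfl, Function.iterate_succ_apply']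
      refine step h1.bp (e := m + 1) ?_ ?_ (fun i => ?_) (fun i => ?_)
      · exact ih m (by omega) _ h1.D.P.P
      · exact ih m (by omega) _ h1.P
      · exact ih (m + 1) (by omega) _ (h1.Dv i)
      · exact ih m (by omega) _ ((h1.Dv i).Mv i).P

/-! ### Derivatives -/

private lemma hasFDerivAt_F {b : E × ℝ → ℝ} (hb : Bp b) (x : E) :
    HasFDerivAt (F b) (∫ w : S, dp b ((w : E), inner ℝ x (w : E)) • innerSL ℝ (w : E) ∂sg) x := by
  have hc : Continuous (fun z : E × S =>
      dp b ((z.2 : E), inner ℝ z.1 (z.2 : E)) • innerSL ℝ (z.2 : E)) := by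
    refine Continuous.smul (hb.D.sm.continuous.comp (by fun_prop)) ?_
    exact (innerSL ℝ).continuous.comp (by fun_prop)
  have hK : IsCompact (Metric.closedBall x 1 ×ˢ (univ : Set S)) :=
    (isCompact_closedBall x 1).prod isCompact_univ
  obtain ⟨C, hC⟩ := hK.exists_bound_of_continuousOn hc.continuousOn
  have hq : ∀ q : E, Continuous fun w : S => (q, w) := fun q => by fun_prop
  refine hasFDerivAt_integral_of_dominated_of_fderiv_le
    (F := fun (q : E) (w : S) => b ((w : E), inner ℝ q (w : E)))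
    (F' := fun (q : E) (w : S) => dp b ((w : E), inner ℝ q (w : E)) • innerSL ℝ (w : E))
    (bound := fun _ => C) (Metric.ball_mem_nhds x one_pos) ?_ ?_ ?_ ?_ ?_ ?_
  · exact Eventually.of_forall fun q => (F_int hb.sm.continuous q).aestronglyMeasurable
  · exact F_int hb.sm.continuous x
  · exact (hc.comp (hq x)).aestronglyMeasurable
  · refine Eventually.of_forall fun w q hq => ?_
    exact hC (q, w) ⟨Metric.ball_subset_closedBall hq, mem_univ _⟩
  · exact integrable_const _
  · refine Eventually.of_forall fun w q hq => ?_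
    have h1 : HasFDerivAt (fun q : E => ((w : E), inner ℝ q (w : E)))
        ((0 : E →L[ℝ] E).prod (innerSL ℝ (w : E))) q := by
      have h2 : HasFDerivAt (fun q : E => innerSL ℝ (w : E) q) (innerSL ℝ (w : E)) q :=
        (innerSL ℝ (w : E)).hasFDerivAt
      have h3 : (fun q : E => inner ℝ q (w : E)) = fun q : E => innerSL ℝ (w : E) q := by
        funext q
        rw [innerSL_apply_apply, real_inner_comm]
      have h4 : HasFDerivAt (fun q : E => inner ℝ q (w : E)) (innerSL ℝ (w : E)) q := by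
        rw [h3]; exact h2
      exact (hasFDerivAt_const (w : E) q).prodMk h4
    have h5 := ((hb.diff ((w : E), inner ℝ q (w : E))).hasFDerivAt).comp q h1
    refine h5.congr_fderiv ?_
    ext v
    rw [ContinuousLinearMap.comp_apply]
    have h6 : ((0 : E →L[ℝ] E).prod (innerSL ℝ (w : E))) v = ((0 : E), inner ℝ (w : E) v) := by
      simp
    rw [h6, fderiv_split]
    simp
    ring

private lemma fderiv_F {b : E × ℝ → ℝ} (hb : Bp b) : fderiv ℝ (F b) =
    fun x => ∑ i, ((ContinuousLinearMap.id ℝ ℝ).smulRight (EuclideanSpace.proj i : E →L[ℝ] ℝ))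
      (F (mv i (dp b)) x) := by
  funext x
  ext v
  rw [(hasFDerivAt_F hb x).fderiv, ContinuousLinearMap.integral_apply]
  · have e1 : (∑ i, ((ContinuousLinearMap.id ℝ ℝ).smulRight (EuclideanSpace.proj i : E →L[ℝ] ℝ))
        (F (mv i (dp b)) x)) v = ∑ i, v i * F (mv i (dp b)) x := by
      rw [_root_.sum_apply]
      refine Finset.sum_congr rfl fun i _ => ?_
      simp
      ring
    rw [e1]
    have e2 : ∀ i, v i * F (mv i (dp b)) x =
        ∫ w : S, v i * mv i (dp b) ((w : E), inner ℝ x (w : E)) ∂sg := by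
      intro i
      rw [integral_const_mul]
      rfl
    rw [Finset.sum_congr rfl fun i _ => e2 i, ← integral_finsetSum _ fun i _ =>
      (F_int (hb.D.Mv i).sm.continuous x).const_mul _]
    refine integral_congr_ae (Eventually.of_forall fun w => ?_)
    simp only [_root_.smul_apply, smul_eq_mul, innerSL_apply_apply, mv]
    have e3 : inner ℝ (w : E) v = ∑ i, v i * (w : E) i := by
      rw [PiLp.inner_apply]
      refine Finset.sum_congr rfl fun i _ => ?_
      simp
    rw [e3, Finset.mul_sum]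
    refine Finset.sum_congr rfl fun i _ => ?_
    ring
  · refine int_of_cont ?_
    refine Continuous.smul (hb.D.sm.continuous.comp (by fun_prop)) ?_
    exact (innerSL ℝ).continuous.comp (by fun_prop)

private lemma contDiff_F (m : ℕ) : ∀ {b : E × ℝ → ℝ}, Bp b → ContDiff ℝ m (F b) := by
  induction m with
  | zero =>
    intro b hb
    rw [show ((0 : ℕ) : WithTop ℕ∞) = 0 from rfl, contDiff_zero]
    exact continuous_iff_continuousAt.2 fun q => (hasFDerivAt_F hb q).continuousAt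
  | succ m ih =>
    intro b hb
    rw [show ((m + 1 : ℕ) : WithTop ℕ∞) = (m : WithTop ℕ∞) + 1 from rfl, contDiff_succ_iff_fderiv]
    refine ⟨fun q => (hasFDerivAt_F hb q).differentiableAt, fun hm => absurd hm (by simp), ?_⟩
    rw [fderiv_F hb]
    exact ContDiff.sum fun i _ => (ContinuousLinearMap.contDiff _).comp (ih (hb.D.Mv i))

private lemma iter_bound (hSL1 : Pool.Agent.QWE.St_SL1) (n : ℕ) : ∀ (k : ℕ) (c : E × ℝ → ℝ), O k c →
    ∃ C : ℝ, 0 ≤ C ∧ ∀ x, ‖iteratedFDeriv ℝ n (F c) x‖ ≤ C / (1 + ‖x‖) ^ (n + k + 1) := by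
  induction n with
  | zero =>
    intro k c hc
    obtain ⟨C, hC⟩ := dec hSL1 k c hc
    refine ⟨|C|, abs_nonneg _, fun x => ?_⟩
    rw [norm_iteratedFDeriv_zero, Real.norm_eq_abs, zero_add]
    refine (hC x).trans ?_
    gcongr
    exact le_abs_self C
  | succ n ih =>
    intro k c hc
    choose C hC0 hC using fun i => ih (k + 1) _ (hc.D.Mv i)
    set L : Fin 5 → ℝ →L[ℝ] (E →L[ℝ] ℝ) := fun i =>
      (ContinuousLinearMap.id ℝ ℝ).smulRight (EuclideanSpace.proj i : E →L[ℝ] ℝ) with hL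
    refine ⟨∑ i, ‖L i‖ * C i, Finset.sum_nonneg fun i _ => mul_nonneg (norm_nonneg (L i)) (hC0 i),
      fun x => ?_⟩
    rw [← norm_iteratedFDeriv_fderiv, fderiv_F hc.bp]
    have h1 : (fun x => ∑ i, ((ContinuousLinearMap.id ℝ ℝ).smulRight
        (EuclideanSpace.proj i : E →L[ℝ] ℝ)) (F (mv i (dp c)) x)) =
        fun x => ∑ i ∈ Finset.univ, (L i ∘ F (mv i (dp c))) x := rfl
    rw [h1, iteratedFDeriv_fun_sum_apply fun i _ =>
      ((ContinuousLinearMap.contDiff _).comp (contDiff_F n (hc.bp.D.Mv i))).contDiffAt]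
    refine (norm_sum_le _ _).trans ?_
    rw [Finset.sum_div]
    refine Finset.sum_le_sum fun i _ => ?_
    have h2 := ContinuousLinearMap.norm_iteratedFDeriv_comp_left (L i) (f := F (mv i (dp c)))
      (x := x) (n := n) (N := n) (contDiff_F n (hc.bp.D.Mv i)).contDiffAt le_rfl
    refine h2.trans ?_
    rw [mul_div_assoc]
    gcongr
    have h3 := hC i x
    rw [show n + (k + 1) + 1 = n + 1 + k + 1 from by ring] at h3
    exact h3

/-! ### Duality -/

private lemma dual (hRadT : Pool.Agent.QWE.St_RadT) {φ : E → ℝ} (hφ : IsTest φ)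
    {b : E × ℝ → ℝ} (hb : Bp b) :
    ∫ x, F b x * φ x = ∫ w : S, ∫ p, Rad φ (w, p) * b ((w : E), p) ∂volume ∂sg := by
  obtain ⟨-, -, -, -, hR, -⟩ := hRadT φ hφ
  have hi : Integrable (fun q : E × S => φ q.1 * b ((q.2 : E), inner ℝ q.1 (q.2 : E)))
      ((volume : Measure E).prod sg) := by
    refine Continuous.integrable_of_hasCompactSupport ?_ ?_
    · exact (hφ.1.continuous.comp continuous_fst).mul (hb.sm.continuous.comp (by fun_prop))
    · refine HasCompactSupport.intro (hφ.2.isCompact.prod isCompact_univ) fun q hq => ?_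
      have : q.1 ∉ tsupport φ := fun h => hq ⟨h, mem_univ _⟩
      rw [image_eq_zero_of_notMem_tsupport this, zero_mul]
  have e1 : ∫ x, F b x * φ x = ∫ x, ∫ w : S, φ x * b ((w : E), inner ℝ x (w : E)) ∂sg := by
    refine integral_congr_ae (Eventually.of_forall fun x => ?_)
    simp only [integral_const_mul, F]
    ring
  rw [e1, integral_integral_swap hi]
  refine integral_congr_ae (Eventually.of_forall fun w => ?_)
  exact (hR w (fun p => b ((w : E), p)) (hb.sm.continuous.comp (by fun_prop))).symm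

private lemma prod_int (hRadT : Pool.Agent.QWE.St_RadT) {φ : E → ℝ} (hφ : IsTest φ)
    {b : E × ℝ → ℝ} (hb : Bp b) :
    Integrable (fun z : S × ℝ => b ((z.1 : E), z.2) * Rad φ z) mu ∧
      Integrable (fun z : S × ℝ => b ((z.1 : E), z.2) * dRad φ z) mu := by
  obtain ⟨c1, c2, -⟩ := hRadT φ hφ
  obtain ⟨M, hM⟩ := hb.su
  have hc : Continuous fun z : S × ℝ => b ((z.1 : E), z.2) := hb.sm.continuous.comp (by fun_prop)
  have hs : ∀ q : S × ℝ, q ∉ (univ : Set S) ×ˢ Icc (-M) M → b ((q.1 : E), q.2) = 0 := by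
    intro q hq
    refine hM _ _ ?_
    by_contra h
    rw [not_le] at h
    exact hq ⟨mem_univ _, abs_le.1 h.le⟩
  refine ⟨Continuous.integrable_of_hasCompactSupport (hc.mul c1) ?_,
    Continuous.integrable_of_hasCompactSupport (hc.mul c2) ?_⟩ <;>
  · refine HasCompactSupport.intro (isCompact_univ.prod (isCompact_Icc (a := -M) (b := M)))
      fun q hq => ?_
    rw [hs q hq, zero_mul]

private lemma ibp (hRadT : Pool.Agent.QWE.St_RadT) {φ : E → ℝ} (hφ : IsTest φ)
    {b : E × ℝ → ℝ} (hb : Bp b) (w : S) :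
    ∫ p, Rad φ (w, p) * dp b ((w : E), p) = - ∫ p, dRad φ (w, p) * b ((w : E), p) := by
  obtain ⟨c1, c2, -, hd, -⟩ := hRadT φ hφ
  have hbd : ∀ p, HasDerivAt (fun p => b ((w : E), p)) (dp b ((w : E), p)) p := by
    intro p
    have h1 : HasDerivAt (fun p : ℝ => ((w : E), p)) ((0 : E), (1 : ℝ)) p :=
      (hasDerivAt_const p (w : E)).prodMk (hasDerivAt_id p)
    exact ((hb.diff ((w : E), p)).hasFDerivAt).comp_hasDerivAt p h1
  have hint : ∀ {c : E × ℝ → ℝ} (_ : Bp c) {ψ : S × ℝ → ℝ} (_ : Continuous ψ),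
      Integrable fun p => ψ (w, p) * c ((w : E), p) := by
    intro c hc ψ hψ
    obtain ⟨M, hM⟩ := hc.su
    refine Continuous.integrable_of_hasCompactSupport ?_ ?_
    · exact (hψ.comp (by fun_prop)).mul (hc.sm.continuous.comp (by fun_prop))
    · refine HasCompactSupport.intro (isCompact_Icc (a := -M) (b := M)) fun p hp => ?_
      rw [hM, mul_zero]
      by_contra h
      rw [not_le] at h
      exact hp (abs_le.1 h.le)
  exact integral_mul_deriv_eq_deriv_mul_of_integrable (u := fun p => Rad φ (w, p))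
    (u' := fun p => dRad φ (w, p)) (v := fun p => b ((w : E), p))
    (v' := fun p => dp b ((w : E), p)) (fun p _ => (hd w p).1) (fun p _ => hbd p)
    (hint hb.D c1) (hint hb c2) (hint hb c1)

private lemma Bp_zero : Bp (0 : E × ℝ → ℝ) := ⟨contDiff_const, 0, fun _ _ _ => rfl⟩

end Pool.Agent.QWP.DecXx

namespace Pool.Agent.QWP

open Pool.Agent.QWE (E S sg mu K toK tau sh dl rev gr ig IsTest pd lap Rad dRad Rk dRk c0 WD Sm SmE IsSch half shr WTo)

open DecXx in
/-- **DecX** (fields of a nice function decay). -/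
theorem thm_DecX (hRadT : Pool.Agent.QWE.St_RadT) (hSL1 : Pool.Agent.QWE.St_SL1) : St_DecX := by
  intro h hh
  obtain ⟨b, hbs, ⟨M, hM⟩, hbh, -⟩ := hh
  have hb : Bp b := ⟨hbs, M, hM⟩
  have hb' : Bp (0 - b) := Bp_zero.sub hb
  have hneg : dp (0 - b) = 0 - dp b := by
    rw [dp_sub Bp_zero hb]
    congr 1
    funext z
    simp [dp]
  have hh' : h = fun z : S × ℝ => b ((z.1 : E), z.2) := funext hbh
  have O0 : O 0 b := ⟨b, hb, rfl⟩
  have O1 : O 1 (dp (0 - b)) := ⟨0 - b, hb', rfl⟩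
  choose C1 hC10 hC1 using fun n => iter_bound hSL1 n 0 b O0
  choose C2 hC20 hC2 using fun n => iter_bound hSL1 n 1 _ O1
  have sm : ∀ {c : E × ℝ → ℝ}, Bp c → SmE (F c) := fun hc =>
    contDiff_infty.2 fun m => contDiff_F m hc
  refine ⟨F b, F (dp (0 - b)), sm hb, sm hb'.D,
    ⟨∑ n ∈ Finset.range 5, (C1 n + C2 n), fun n hn x => ⟨?_, ?_⟩⟩, ?_, ?_, ?_⟩
  · have h1 := hC1 n x
    rw [add_zero] at h1
    refine h1.trans ?_
    gcongr
    have h2 := Finset.single_le_sum (f := fun n => C1 n + C2 n) (s := Finset.range 5)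
      (fun i _ => add_nonneg (hC10 i) (hC20 i)) (Finset.mem_range.2 (show n < 5 by omega))
    linarith [hC20 n]
  · refine (hC2 n x).trans ?_
    rw [show n + 1 + 1 = n + 2 from rfl]
    gcongr
    have h2 := Finset.single_le_sum (f := fun n => C1 n + C2 n) (s := Finset.range 5)
      (fun i _ => add_nonneg (hC10 i) (hC20 i)) (Finset.mem_range.2 (show n < 5 by omega))
    linarith [hC10 n]
  · intro φ hφ
    obtain ⟨i1, i2⟩ := prod_int hRadT hφ hb
    constructor
    · rw [dual hRadT hφ hb, hh', integral_prod _ i1]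
      refine integral_congr_ae (Eventually.of_forall fun w => ?_)
      refine integral_congr_ae (Eventually.of_forall fun p => ?_)
      simp only
      ring
    · rw [dual hRadT hφ hb'.D, hh', integral_prod _ i2]
      refine integral_congr_ae (Eventually.of_forall fun w => ?_)
      simp only
      rw [ibp hRadT hφ hb' w, ← integral_neg]
      refine integral_congr_ae (Eventually.of_forall fun p => ?_)
      simp only [Pi.sub_apply, Pi.zero_apply]
      ring
  · intro y ρ hz x hx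
    have hlt : ∀ w : S, |inner ℝ x (w : E) - inner ℝ y (w : E)| < ρ := by
      intro w
      rw [← inner_sub_left]
      have h1 := abs_real_inner_le_norm (x - y) (w : E)
      have h2 : ‖(w : E)‖ = 1 := by simp
      rw [h2, mul_one, ← dist_eq_norm] at h1
      exact h1.trans_lt hx
    constructor
    · simp only [F]
      rw [← integral_zero S ℝ (μ := sg)]
      refine integral_congr_ae (Eventually.of_forall fun w => ?_)
      simp only
      rw [← hbh (w, inner ℝ x (w : E))]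
      exact hz _ (hlt w)
    · simp only [F]
      rw [← integral_zero S ℝ (μ := sg)]
      refine integral_congr_ae (Eventually.of_forall fun w => ?_)
      simp only
      rw [hneg, Pi.sub_apply, Pi.zero_apply, zero_sub, neg_eq_zero]
      have h1 : HasDerivAt (fun p : ℝ => ((w : E), p)) ((0 : E), (1 : ℝ)) (inner ℝ x (w : E)) :=
        (hasDerivAt_const _ (w : E)).prodMk (hasDerivAt_id _)
      have h2 : HasDerivAt (fun p => b ((w : E), p)) (dp b ((w : E), inner ℝ x (w : E)))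
          (inner ℝ x (w : E)) :=
        ((hb.diff ((w : E), inner ℝ x (w : E))).hasFDerivAt).comp_hasDerivAt _ h1
      have h3 : (fun p => b ((w : E), p)) =ᶠ[𝓝 (inner ℝ x (w : E))] fun _ => 0 := by
        have h4 : ∀ᶠ p : ℝ in 𝓝 (inner ℝ x (w : E)), |p - inner ℝ y (w : E)| < ρ := by
          have hc : Continuous fun p : ℝ => |p - inner ℝ y (w : E)| := by fun_prop
          exact (hc.tendsto _).eventually_lt_const (hlt w)
        filter_upwards [h4] with p hp
        rw [← hbh (w, p)]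
        exact hz _ hp
      have h5 := h2.deriv
      rw [h3.deriv_eq] at h5
      rw [← h5]
      simp
  · intro x
    simp only [F]
    refine integral_congr_ae (Eventually.of_forall fun w => ?_)
    exact (hbh (w, inner ℝ x (w : E))).symm

end Pool.Agent.QWP
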