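import Pool.Agent.QWP.StA
import Pool.Agent.QWE.Decay

set_option autoImplicit false

/-!
# QWP, DecayP: decay of test states with derivatives up to order 3
-/

open MeasureTheory Filter Topology Set
open scoped ENNReal NNReal RealInnerProductSpace ContDiff

namespace Pool.Agent.QWP

namespace DecayPx

open Pool.Agent.QWE (E S sg mu K IsTest lap Rad dRad c0 St_RadT St_Iso St_Dens St_SL1 St_Sph Sph)
open Pool.Agent.QWE.Freex Pool.Agent.QWE.Decayx

/-- scaled bound -/
lemma J_bd {u : S × ℝ → ℝ} {M C : ℝ}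
    (h : ∀ b : S → ℝ, Continuous b → (∀ w, |b w| ≤ 1) → ∀ (t : ℝ) (x : E), ‖x‖ ≤ |t| + M →
      |J b u t x| ≤ C / (1 + t ^ 2)) {b : S → ℝ} {B : ℝ} (hb : Continuous b)
    (hB : ∀ w, |b w| ≤ B) (hB0 : 0 ≤ B) (t : ℝ) (x : E) (hx : ‖x‖ ≤ |t| + M) :
    |J b u t x| ≤ C / (1 + t ^ 2) * B := by
  rcases hB0.eq_or_lt with h0 | h0
  · have h1 : ∀ w, b w = 0 := fun w => abs_nonpos_iff.1 (by rw [h0]; exact hB w)
    have h2 : J b u t x = 0 := by
      unfold J
      simp only [h1, zero_mul, integral_zero]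
    rw [h2, abs_zero, ← h0, mul_zero]
  · have h1 : J b u t x = B * J (fun w => B⁻¹ * b w) u t x := by
      unfold J
      rw [← integral_const_mul]
      congr 1
      funext w
      field_simp
    have h2 := h (fun w => B⁻¹ * b w) (by fun_prop) (fun w => by
      rw [abs_mul, abs_of_pos (inv_pos.2 h0)]
      calc B⁻¹ * |b w| ≤ B⁻¹ * B := by
            gcongr
            exact hB w
        _ = 1 := inv_mul_cancel₀ h0.ne') t x hx
    rw [h1, abs_mul, abs_of_pos h0]
    calc B * |J (fun w => B⁻¹ * b w) u t x| ≤ B * (C / (1 + t ^ 2)) := by gcongr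
      _ = _ := mul_comm _ _

/-- iterated derivatives -/
lemma J_iter {Φ : ℕ → S × ℝ → ℝ} (hn : ∀ k, Pool.Agent.QWE.Freex.Nice (Φ k))
    (hd : ∀ k (w : S) p, HasDerivAt (fun p => Φ k (w, p)) (Φ (k + 1) (w, p)) p) (t : ℝ)
    {b : S → ℝ} (hb : Continuous b) (k : ℕ) (hs : ContDiff ℝ ∞ (J b (Φ k) t)) (n : ℕ) :
    ∀ (x : E) (m : Fin n → E), iteratedFDeriv ℝ n (J b (Φ k) t) x m =
      J (fun w => b w * ∏ i, inner ℝ (m i) (w : E)) (Φ (k + n)) t x := by
  induction n with
  | zero =>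
    intro x m
    simp
  | succ n ih =>
    intro x m
    rw [iteratedFDeriv_succ_apply_left]
    have h1 : DifferentiableAt ℝ (iteratedFDeriv ℝ n (J b (Φ k) t)) x :=
      (hs.differentiable_iteratedFDeriv (m := n) (by exact_mod_cast WithTop.coe_lt_top _)) x
    have h2 : (fderiv ℝ (iteratedFDeriv ℝ n (J b (Φ k) t)) x (m 0)) (Fin.tail m) =
        fderiv ℝ (fun y => iteratedFDeriv ℝ n (J b (Φ k) t) y (Fin.tail m)) x (m 0) := by
      have h3 := h1.hasFDerivAt.continuousMultilinear_apply_const (Fin.tail m)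
      rw [h3.fderiv]
      rfl
    rw [h2]
    have h4 : (fun y => iteratedFDeriv ℝ n (J b (Φ k) t) y (Fin.tail m)) =
        J (fun w => b w * ∏ i, inner ℝ (Fin.tail m i) (w : E)) (Φ (k + n)) t := by
      funext y
      exact ih y _
    have h5 : DifferentiableAt ℝ (fun y => iteratedFDeriv ℝ n (J b (Φ k) t) y (Fin.tail m)) x :=
      (h1.hasFDerivAt.continuousMultilinear_apply_const (Fin.tail m)).differentiableAt
    rw [← h5.lineDeriv_eq_fderiv, h4]
    have h6 := J_line (b := fun w => b w * ∏ i, inner ℝ (Fin.tail m i) (w : E))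
      (hb.mul (continuous_finsetProd _ fun i _ => by fun_prop)) (hn (k + n)) (hn (k + n + 1))
      (hd (k + n)) t x (m 0)
    rw [h6.lineDeriv]
    congr 1
    funext w
    rw [Fin.prod_univ_succ, mul_assoc, mul_comm (∏ i, _)]
    rfl

/-- bound for the iterated derivatives -/
lemma J_norm {Φ : ℕ → S × ℝ → ℝ} (hn : ∀ k, Pool.Agent.QWE.Freex.Nice (Φ k))
    (hd : ∀ k (w : S) p, HasDerivAt (fun p => Φ k (w, p)) (Φ (k + 1) (w, p)) p) (t : ℝ)
    {b : S → ℝ} (hb : Continuous b) (hb1 : ∀ w, |b w| ≤ 1) (k : ℕ)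
    (hs : ContDiff ℝ ∞ (J b (Φ k) t)) (n : ℕ) {C M : ℝ} (hC : 0 ≤ C)
    (h : ∀ b : S → ℝ, Continuous b → (∀ w, |b w| ≤ 1) → ∀ (t : ℝ) (x : E), ‖x‖ ≤ |t| + M →
      |J b (Φ (k + n)) t x| ≤ C / (1 + t ^ 2)) (x : E) (hx : ‖x‖ ≤ |t| + M) :
    ‖iteratedFDeriv ℝ n (J b (Φ k) t) x‖ ≤ C / (1 + t ^ 2) := by
  refine ContinuousMultilinearMap.opNorm_le_bound (by positivity) fun m => ?_
  rw [J_iter hn hd t hb k hs n x m, Real.norm_eq_abs]
  refine J_bd (b := fun w => b w * ∏ i, inner ℝ (m i) (w : E)) h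
    (hb.mul (continuous_finsetProd _ fun i _ => by fun_prop)) (fun w => ?_)
    (Finset.prod_nonneg fun i _ => norm_nonneg _) t x hx
  rw [abs_mul, Finset.abs_prod]
  have h1 : ∀ i, |(inner ℝ (m i) (w : E) : ℝ)| ≤ ‖m i‖ := by
    intro i
    have := norm_inner_le_norm (𝕜 := ℝ) (m i) (w : E)
    rwa [norm_eq_of_mem_sphere w, mul_one] at this
  calc |b w| * ∏ i, |(inner ℝ (m i) (w : E) : ℝ)| ≤ 1 * ∏ i, ‖m i‖ :=
        mul_le_mul (hb1 w) (Finset.prod_le_prod (fun i _ => abs_nonneg _) fun i _ => h1 i)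
          (Finset.prod_nonneg fun i _ => abs_nonneg _) zero_le_one
    _ = _ := one_mul _

/-- iterated Laplacians -/
noncomputable def lp (f : E → ℝ) : ℕ → E → ℝ
  | 0 => f
  | n + 1 => lap (lp f n)

lemma lp_test {f : E → ℝ} (hf : IsTest f) : ∀ n, IsTest (lp f n)
  | 0 => hf
  | n + 1 => test_lap (lp_test hf n)

/-- the derivatives in `p` of `c0 (Rad (lap lap f) - dRad (lap g))` -/
noncomputable def Ph (f g : E → ℝ) (k : ℕ) : S × ℝ → ℝ := fun z =>
  if k % 2 = 0 then c0 * Rad (lp f (k / 2 + 2)) z + (-c0) * dRad (lp g (k / 2 + 1)) z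
  else c0 * dRad (lp f (k / 2 + 2)) z + (-c0) * Rad (lp g (k / 2 + 2)) z

lemma Ph_nice (hR : St_RadT) {f g : E → ℝ} (hf : IsTest f) (hg : IsTest g) (k : ℕ) :
    Pool.Agent.QWE.Freex.Nice (Ph f g k) := by
  unfold Ph
  by_cases hk : k % 2 = 0
  · simp only [hk, if_true]
    exact nice_lin _ _ (nice_both hR (lp_test hf _)).1 (nice_both hR (lp_test hg _)).2
  · simp only [hk, if_false]
    exact nice_lin _ _ (nice_both hR (lp_test hf _)).2 (nice_both hR (lp_test hg _)).1

lemma Ph_deriv (hR : St_RadT) {f g : E → ℝ} (hf : IsTest f) (hg : IsTest g) (k : ℕ) (w : S)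
    (p : ℝ) : HasDerivAt (fun p => Ph f g k (w, p)) (Ph f g (k + 1) (w, p)) p := by
  unfold Ph
  by_cases hk : k % 2 = 0
  · have hk1 : ¬ (k + 1) % 2 = 0 := by omega
    have hk2 : (k + 1) / 2 = k / 2 := by omega
    simp only [hk, hk1, hk2, if_true, if_false]
    exact ((d1 hR (lp_test hf _) w p).const_mul c0).add ((d2 hR (lp_test hg _) w p).const_mul (-c0))
  · have hk1 : (k + 1) % 2 = 0 := by omega
    have hk2 : (k + 1) / 2 = k / 2 + 1 := by omega
    simp only [hk, hk1, hk2, if_true, if_false]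
    exact ((d2 hR (lp_test hf _) w p).const_mul c0).add ((d1 hR (lp_test hg _) w p).const_mul (-c0))

end DecayPx

open Pool.Agent.QWE (E S sg IsTest lap Rad dRad c0 St_RadT St_Iso St_Dens St_SL1 St_Sph Sph) in
open Pool.Agent.QWE.Freex Pool.Agent.QWE.Decayx DecayPx in
theorem thm_DecayP (hR : St_RadT) (hI : St_Iso) (hD : St_Dens) (hSL : St_SL1) (hS : St_Sph)
    (hTr : St_Tr) : St_DecayP := by
  intro f g hf hg
  have hf2 := test_lap hf
  have hf4 := test_lap hf2
  have hg2 := test_lap hg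
  have hg4 := test_lap hg2
  obtain ⟨ρ1, hρ1⟩ := hf.2.isBounded.subset_closedBall (0 : E)
  obtain ⟨ρ2, hρ2⟩ := hg.2.isBounded.subset_closedBall (0 : E)
  have hn : ∀ k, Pool.Agent.QWE.Freex.Nice (Ph f g k) := Ph_nice hR hf hg
  have hd := Ph_deriv hR hf hg
  choose Mk hMk using fun k => (hn k).s
  let M : ℝ := |ρ1| + |ρ2| + ∑ k ∈ Finset.range 5, |Mk k| + 2
  have hSM : 0 ≤ ∑ k ∈ Finset.range 5, |Mk k| := Finset.sum_nonneg fun _ _ => abs_nonneg _
  have hM : 1 ≤ M := by
    have : 0 ≤ |ρ1| + |ρ2| := by positivity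
    simp only [M]
    linarith
  have hz : ∀ k < 5, ∀ z, M ≤ |z.2| → Ph f g k z = 0 := fun k hk z hz => hMk k z (by
    have h1 := le_abs_self (Mk k)
    have h2 := Finset.single_le_sum (f := fun k => |Mk k|) (fun _ _ => abs_nonneg _)
      (Finset.mem_range.2 hk)
    have h3 : 0 ≤ |ρ1| + |ρ2| := by positivity
    simp only [M] at hz
    linarith)
  have hCk : ∀ k : ℕ, ∃ C : ℝ, 0 ≤ C ∧ (k < 5 → ∀ b : S → ℝ, Continuous b →
      (∀ w, |b w| ≤ 1) → ∀ (t : ℝ) (x : E), ‖x‖ ≤ |t| + M →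
        |J b (Ph f g k) t x| ≤ C / (1 + t ^ 2)) := by
    intro k
    by_cases hk : k < 5
    · obtain ⟨C, h1, h2⟩ := J_bound hSL hM (hn k) (hz k hk)
      exact ⟨C, h1, fun _ => h2⟩
    · exact ⟨0, le_rfl, fun h => absurd h hk⟩
  choose Ck hC0 hCb using hCk
  let C : ℝ := ∑ k ∈ Finset.range 5, Ck k + 1
  have hSC : 0 ≤ ∑ k ∈ Finset.range 5, Ck k := Finset.sum_nonneg fun _ _ => hC0 _
  have hCp : 0 < C := by
    simp only [C]
    linarith
  have hCC : ∀ k < 5, ∀ b : S → ℝ, Continuous b → (∀ w, |b w| ≤ 1) → ∀ (t : ℝ) (x : E),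
      ‖x‖ ≤ |t| + M → |J b (Ph f g k) t x| ≤ C / (1 + t ^ 2) := by
    intro k hk b hb hb1 t x hx
    refine (hCb k hk b hb hb1 t x hx).trans ?_
    have h2 := Finset.single_le_sum (f := Ck) (fun _ _ => hC0 _) (Finset.mem_range.2 hk)
    gcongr
    simp only [C]
    linarith
  refine ⟨C, M, hCp, hM, fun t => ?_⟩
  obtain ⟨T1, T2, heq, hvan⟩ := formula hR hI hD hS hf hg t
  -- the functions as integrals over the sphere
  have iS : ∀ {a : E → ℝ}, IsTest a → ∀ x, Integrable (fun w : S => Rad a (w, inner ℝ x (w : E) - t)) sg :=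
    fun ha x => int_S ((nice_both hR ha).1.c.comp (by fun_prop))
  have iS' : ∀ {a : E → ℝ}, IsTest a → ∀ x, Integrable (fun w : S => dRad a (w, inner ℝ x (w : E) - t)) sg :=
    fun ha x => int_S ((nice_both hR ha).2.c.comp (by fun_prop))
  have F1 : (fun x => c0 * (Sph (lap (lap f)) t x + D (lap g) t x)) = J (fun _ => 1) (Ph f g 0) t := by
    funext x
    have h1 := D_eq hR hg2 t x
    have h2 : D (lap g) t x = - ∫ w : S, dRad (lap g) (w, inner ℝ x (w : E) - t) ∂sg := by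
      rw [h1, neg_neg]
    have h3 : (fun w : S => (1 : ℝ) * Ph f g 0 (w, inner ℝ x (w : E) - t)) =
        fun w : S => c0 * Rad (lap (lap f)) (w, inner ℝ x (w : E) - t) +
          (-c0) * dRad (lap g) (w, inner ℝ x (w : E) - t) := by
      funext w
      rw [one_mul]
      rfl
    rw [h2, Sph, J, h3, integral_add ((iS hf4 x).const_mul _) ((iS' hg2 x).const_mul _),
      integral_const_mul, integral_const_mul]
    ring
  have F2 : (fun x => c0 * (D (lap (lap f)) t x + Sph (lap (lap g)) t x)) =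
      J (fun _ => -1) (Ph f g 1) t := by
    funext x
    have h1 := D_eq hR hf4 t x
    have h2 : D (lap (lap f)) t x = - ∫ w : S, dRad (lap (lap f)) (w, inner ℝ x (w : E) - t) ∂sg := by
      rw [h1, neg_neg]
    have h3 : (fun w : S => (-1 : ℝ) * Ph f g 1 (w, inner ℝ x (w : E) - t)) =
        fun w : S => (-c0) * dRad (lap (lap f)) (w, inner ℝ x (w : E) - t) +
          c0 * Rad (lap (lap g)) (w, inner ℝ x (w : E) - t) := by
      funext w
      have h4 : Ph f g 1 (w, inner ℝ x (w : E) - t) =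
          c0 * dRad (lap (lap f)) (w, inner ℝ x (w : E) - t) +
            (-c0) * Rad (lap (lap g)) (w, inner ℝ x (w : E) - t) := rfl
      rw [h4]
      ring
    rw [h2, Sph, J, h3, integral_add ((iS' hf4 x).const_mul _) ((iS hg4 x).const_mul _),
      integral_const_mul, integral_const_mul]
    ring
  set f' : E → ℝ := fun x => c0 * (Sph (lap (lap f)) t x + D (lap g) t x) with hf'
  set g' : E → ℝ := fun x => c0 * (D (lap (lap f)) t x + Sph (lap (lap g)) t x) with hg'
  have hout : ∀ x : E, |t| + M ≤ ‖x‖ + 1 → f' x = 0 ∧ g' x = 0 := by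
    intro x hx
    refine hvan x fun y hy => ?_
    have h1 : ‖x‖ ≤ ‖y‖ + |t| := by
      have := norm_sub_norm_le x y
      rw [dist_comm, dist_eq_norm] at hy
      linarith
    have h2 : |ρ1| + |ρ2| < ‖y‖ := by
      simp only [M] at hx
      linarith
    constructor
    · refine image_eq_zero_of_notMem_tsupport fun h3 => ?_
      have h4 := hρ1 h3
      rw [mem_closedBall_zero_iff] at h4
      have := le_abs_self ρ1
      have := abs_nonneg ρ2
      linarith
    · refine image_eq_zero_of_notMem_tsupport fun h3 => ?_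
      have h4 := hρ2 h3
      rw [mem_closedBall_zero_iff] at h4
      have := le_abs_self ρ2
      have := abs_nonneg ρ1
      linarith
  have hts : ∀ {F : E → ℝ}, (∀ x : E, |t| + M ≤ ‖x‖ + 1 → F x = 0) → ∀ x, |t| + M < ‖x‖ →
      x ∉ tsupport F := by
    intro F hF x hx hx2
    rw [tsupport, mem_closure_iff] at hx2
    obtain ⟨z, hz, hz2⟩ := hx2 {y : E | |t| + M < ‖y‖} (isOpen_lt continuous_const continuous_norm) hx
    exact hz2 (hF z (by
      have : |t| + M < ‖z‖ := hz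
      linarith))
  have hpos : 0 < 1 + t ^ 2 := by positivity
  have hit : ∀ {F : E → ℝ} {x : E} (n : ℕ), x ∉ tsupport F → iteratedFDeriv ℝ n F x = 0 := by
    intro F x n hx
    by_contra h
    exact hx (support_iteratedFDeriv_subset n h)
  refine ⟨f', g', T1, T2, fun s hs => (hTr s t 0 0 0 f g f' g' hs ?_ ?_ ?_ hf hg T1 T2).2.2 heq,
    fun x hx => ?_, fun x n hn3 => ?_⟩
  · exact ⟨contDiff_const, HasCompactSupport.zero⟩
  · exact ⟨contDiff_const, HasCompactSupport.zero⟩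
  · exact ⟨contDiff_const, HasCompactSupport.zero⟩
  · rcases le_abs'.1 hx with h1 | h1
    · have h2 : ‖x‖ ≤ |t| - M := by linarith
      rw [F1, F2]
      exact ⟨J_zero (hz 0 (by norm_num)) h2, J_zero (hz 1 (by norm_num)) h2⟩
    · exact hout x (by linarith)
  · rcases le_or_gt ‖x‖ (|t| + M) with hx | hx
    · have T1' : ContDiff ℝ ∞ (J (fun _ => 1) (Ph f g 0) t) := F1 ▸ T1.1
      have T2' : ContDiff ℝ ∞ (J (fun _ => -1) (Ph f g 1) t) := F2 ▸ T2.1
      rw [F1, F2]
      exact ⟨J_norm hn hd t continuous_const (fun _ => by simp) 0 T1' n hCp.le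
          (hCC (0 + n) (by omega)) x hx,
        J_norm hn hd t continuous_const (fun _ => by simp) 1 T2' n hCp.le
          (hCC (1 + n) (by omega)) x hx⟩
    · have s1 := hts (fun x hx => (hout x hx).1) x hx
      have s2 := hts (fun x hx => (hout x hx).2) x hx
      rw [hit n s1, hit n s2]
      simp only [norm_zero]
      exact ⟨by positivity, by positivity⟩

end Pool.Agent.QWP
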