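import Pool.Agent.QWP.StA

/-!
# QWP, Dns0: total set of states with Fourier support away from `0` and infinity (helper21)
-/

set_option autoImplicit false

open MeasureTheory Filter Topology Set
open scoped ENNReal NNReal RealInnerProductSpace

namespace Pool.Agent.QWP

open Pool.Agent.QWE (E S sg mu K toK tau sh dl rev gr ig IsTest pd lap Rad dRad Rk dRk c0 WD Sm SmE IsSch half shr WTo)

namespace Dns0x

/-! ### cut-offs -/

private noncomputable def fb (n : ℕ) : ContDiffBump (0 : E) :=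
  ⟨(n : ℝ) + 1, (n : ℝ) + 2, by positivity, by linarith⟩

private noncomputable def gb (n : ℕ) : ContDiffBump (0 : E) :=
  ⟨1 / (2 * ((n : ℝ) + 1)), 1 / ((n : ℝ) + 1), by positivity, by
    apply one_div_lt_one_div_of_lt (by positivity)
    linarith [(Nat.cast_nonneg n : (0 : ℝ) ≤ n)]⟩

private noncomputable def cut (n : ℕ) (ξ : E) : ℝ := fb n ξ * (1 - gb n ξ)

private lemma cut_smooth (n : ℕ) : ContDiff ℝ ((⊤ : ℕ∞) : WithTop ℕ∞) (cut n) :=
  (fb n).contDiff.mul (contDiff_const.sub (gb n).contDiff)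

private lemma cut_supp (n : ℕ) : HasCompactSupport (cut n) :=
  (fb n).hasCompactSupport.mul_right

private lemma cut_zero (n : ℕ) : ∀ᶠ ξ in 𝓝 (0 : E), cut n ξ = 0 := by
  filter_upwards [(gb n).eventuallyEq_one] with ξ h
  rw [cut, h]
  simp

private lemma cut_neg (n : ℕ) (ξ : E) : cut n (-ξ) = cut n ξ := by
  rw [cut, cut, (fb n).neg, (gb n).neg]

private lemma cut_nonneg (n : ℕ) (ξ : E) : 0 ≤ cut n ξ :=
  mul_nonneg (fb n).nonneg (sub_nonneg.2 (gb n).le_one)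

private lemma cut_le (n : ℕ) (ξ : E) : cut n ξ ≤ 1 :=
  mul_le_one₀ (fb n).le_one (sub_nonneg.2 (gb n).le_one) (by linarith [(gb n).nonneg (x := ξ)])

private lemma cut_lim {ξ : E} (h : ξ ≠ 0) : ∀ᶠ n in atTop, cut n ξ = 1 := by
  have h0 : 0 < ‖ξ‖ := norm_pos_iff.2 h
  obtain ⟨N, hN⟩ := exists_nat_ge (max ‖ξ‖ (1 / ‖ξ‖))
  filter_upwards [eventually_ge_atTop N] with n hn
  have hn' : (N : ℝ) ≤ n := by exact_mod_cast hn
  have h1 : ‖ξ‖ ≤ n := (le_max_left _ _).trans (hN.trans hn')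
  have h2 : 1 / ‖ξ‖ ≤ n := (le_max_right _ _).trans (hN.trans hn')
  have h3 : fb n ξ = 1 := by
    apply (fb n).one_of_mem_closedBall
    rw [mem_closedBall_zero_iff]
    change ‖ξ‖ ≤ (n : ℝ) + 1
    linarith
  have h4 : gb n ξ = 0 := by
    apply (gb n).zero_of_le_dist
    rw [dist_zero_right]
    change 1 / ((n : ℝ) + 1) ≤ ‖ξ‖
    rw [div_le_iff₀ h0] at h2
    rw [div_le_iff₀ (by positivity)]
    linarith
  rw [cut, h3, h4]
  norm_num

/-! ### smoothness of the Fourier transform -/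

private lemma ft_smooth {φ : E → ℝ} (h : IsSch φ) :
    ContDiff ℝ ((⊤ : ℕ∞) : WithTop ℕ∞) (ft φ) := by
  obtain ⟨f, hf⟩ := h
  have h1 : ft φ = FourierTransform.fourier (fun x => (φ x : ℂ)) := by
    funext ξ
    rw [ft, Real.fourier_eq']
    refine integral_congr_ae (Eventually.of_forall fun x => ?_)
    change (φ x : ℂ) * Complex.exp (-2 * Real.pi * Complex.I * ((inner ℝ x ξ : ℝ) : ℂ)) =
      Complex.exp (((-2 * Real.pi * inner ℝ x ξ : ℝ) : ℂ) * Complex.I) * (φ x : ℂ)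
    rw [mul_comm]
    congr 2
    push_cast
    ring
  rw [h1]
  refine Real.contDiff_fourier fun n _ => ?_
  have h2 := f.integrable_pow_mul (volume : Measure E) n
  refine h2.congr (Eventually.of_forall fun x => ?_)
  change ‖x‖ ^ n * ‖f x‖ = ‖x‖ ^ n * ‖(φ x : ℂ)‖
  rw [hf, Complex.norm_real]

private lemma pow_smooth (s : ℝ) (n : ℕ) :
    ContDiff ℝ ((⊤ : ℕ∞) : WithTop ℕ∞) (fun ξ : E => cut n ξ * (2 * Real.pi * ‖ξ‖) ^ s) := by
  rw [contDiff_iff_contDiffAt]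
  intro ξ
  by_cases h : ξ = 0
  · subst h
    have h1 : (fun ξ : E => cut n ξ * (2 * Real.pi * ‖ξ‖) ^ s) =ᶠ[𝓝 0] fun _ => 0 := by
      filter_upwards [cut_zero n] with ξ h
      rw [h, zero_mul]
    exact contDiffAt_const.congr_of_eventuallyEq h1
  · refine (cut_smooth n).contDiffAt.mul ?_
    refine ContDiffAt.rpow_const_of_ne ?_ ?_
    · exact contDiffAt_const.mul (contDiffAt_norm ℝ h)
    · have := norm_pos_iff.2 h
      positivity

/-- the approximating functions -/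
private lemma ex_psi (hFt : St_Ft) (hFtI : St_FtI) (s : ℝ) {φ : E → ℝ} (hφ : IsSch φ) (n : ℕ) :
    ∃ ψ : E → ℝ, IsSch ψ ∧ HasCompactSupport (ft ψ) ∧ (∀ᶠ ξ in 𝓝 (0 : E), ft ψ ξ = 0) ∧
      ∀ ξ, ft ψ ξ = ((cut n ξ * (2 * Real.pi * ‖ξ‖) ^ s : ℝ) : ℂ) * ft φ ξ := by
  have h1 : ContDiff ℝ ((⊤ : ℕ∞) : WithTop ℕ∞) fun ξ : E =>
      ((cut n ξ * (2 * Real.pi * ‖ξ‖) ^ s : ℝ) : ℂ) * ft φ ξ :=
    (Complex.ofRealCLM.contDiff.comp (pow_smooth s n)).mul (ft_smooth hφ)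
  have h2 : HasCompactSupport fun ξ : E =>
      ((cut n ξ * (2 * Real.pi * ‖ξ‖) ^ s : ℝ) : ℂ) * ft φ ξ := by
    refine HasCompactSupport.intro (cut_supp n) fun ξ hξ => ?_
    rw [image_eq_zero_of_notMem_tsupport hξ]
    simp
  obtain ⟨ψ, hψ, hψ2⟩ := hFtI _ h1 h2 fun ξ => by
    have h3 := (hFt.2 φ hφ).2.2.2.2.2.1 ξ
    rw [h3, cut_neg, norm_neg, map_mul, Complex.conj_ofReal]
  refine ⟨ψ, hψ, ?_, ?_, hψ2⟩
  · rw [funext hψ2]
    exact h2
  · filter_upwards [cut_zero n] with ξ h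
    rw [hψ2, h]
    simp

/-! ### dominated convergence -/

private lemma int_dom {m : ℝ → ℝ} (hm : Continuous m) {C1 : ℝ}
    (hm2 : ∀ r, |m r| ≤ C1 * (1 + |r|) ^ 2) (hFt : St_Ft) {φ : E → ℝ} (hφ : IsSch φ) :
    Integrable (fun z : S × ℝ => ((m z.2 : ℝ) : ℂ) * (ft φ (z.2 • (z.1 : E)) *
      (starRingEnd ℂ) (ft φ (z.2 • (z.1 : E))))) mu := by
  have hc : Continuous (ft φ) := (hFt.2 φ hφ).1
  obtain ⟨C, hC⟩ := (hFt.2 φ hφ).2.1 2
  have h1 : Integrable (fun z : S × ℝ => (C1 * C ^ 2) * (1 + z.2 ^ 2)⁻¹) mu := by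
    have h2 : Integrable (fun r : ℝ => (C1 * C ^ 2) * (1 + r ^ 2)⁻¹) volume :=
      integrable_inv_one_add_sq.const_mul _
    exact h2.comp_snd sg
  have hC1 : 0 ≤ C1 := by
    have := (abs_nonneg _).trans (hm2 0)
    simpa using this
  refine h1.mono' ?_ (Eventually.of_forall fun z => ?_)
  · refine Continuous.aestronglyMeasurable ?_
    have h3 : Continuous fun z : S × ℝ => z.2 • (z.1 : E) := by fun_prop
    have h4 : Continuous fun z : S × ℝ => ft φ (z.2 • (z.1 : E)) := hc.comp h3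
    exact (Complex.continuous_ofReal.comp (hm.comp continuous_snd)).mul
      (h4.mul (Complex.continuous_conj.comp h4))
  · have h5 := hC (z.2 • (z.1 : E))
    have h6 : ‖z.2 • (z.1 : E)‖ = |z.2| := by
      rw [norm_smul, Real.norm_eq_abs, norm_eq_of_mem_sphere, mul_one]
    rw [h6] at h5
    rw [norm_mul, norm_mul, Complex.norm_real, RCLike.norm_conj, Real.norm_eq_abs]
    have h7 : 0 < 1 + |z.2| := by positivity
    have h8 : ‖ft φ (z.2 • (z.1 : E))‖ * ‖ft φ (z.2 • (z.1 : E))‖ ≤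
        (C / (1 + |z.2|) ^ 2) * (C / (1 + |z.2|) ^ 2) :=
      mul_self_le_mul_self (norm_nonneg _) h5
    have h9 : (1 + z.2 ^ 2) ≤ (1 + |z.2|) ^ 2 := by
      nlinarith [abs_nonneg z.2, sq_abs z.2]
    calc |m z.2| * (‖ft φ (z.2 • (z.1 : E))‖ * ‖ft φ (z.2 • (z.1 : E))‖)
        ≤ (C1 * (1 + |z.2|) ^ 2) * ((C / (1 + |z.2|) ^ 2) * (C / (1 + |z.2|) ^ 2)) :=
          mul_le_mul (hm2 _) h8 (by positivity) (by positivity)
      _ = (C1 * C ^ 2) * ((1 + |z.2|) ^ 2)⁻¹ := by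
          field_simp
      _ ≤ (C1 * C ^ 2) * (1 + z.2 ^ 2)⁻¹ := by
          refine mul_le_mul_of_nonneg_left ?_ (by positivity)
          exact inv_anti₀ (by positivity) h9

private lemma ae_ne : ∀ᵐ z : S × ℝ ∂mu, z.2 ≠ 0 := by
  have h1 : ∀ᵐ r : ℝ ∂volume, r ≠ 0 := by
    rw [ae_iff]
    simp
  exact Measure.quasiMeasurePreserving_snd.ae h1

private lemma dom {m : ℝ → ℝ} (hm : Continuous m) {C1 : ℝ}
    (hm2 : ∀ r, |m r| ≤ C1 * (1 + |r|) ^ 2) (hFt : St_Ft) {φ : E → ℝ} (hφ : IsSch φ) (j : ℕ) :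
    Tendsto (fun n : ℕ => (∫ z : S × ℝ, ((m z.2 * cut n (z.2 • (z.1 : E)) ^ j : ℝ) : ℂ) *
      (ft φ (z.2 • (z.1 : E)) * (starRingEnd ℂ) (ft φ (z.2 • (z.1 : E)))) ∂mu).re) atTop
      (𝓝 (∫ z : S × ℝ, ((m z.2 : ℝ) : ℂ) *
      (ft φ (z.2 • (z.1 : E)) * (starRingEnd ℂ) (ft φ (z.2 • (z.1 : E)))) ∂mu).re) := by
  refine (Complex.continuous_re.tendsto _).comp ?_
  refine tendsto_integral_of_dominated_convergence _ ?_ (int_dom hm hm2 hFt hφ).norm ?_ ?_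
  · intro n
    refine Continuous.aestronglyMeasurable ?_
    have h3 : Continuous fun z : S × ℝ => z.2 • (z.1 : E) := by fun_prop
    have h4 : Continuous fun z : S × ℝ => ft φ (z.2 • (z.1 : E)) := (hFt.2 φ hφ).1.comp h3
    have h5 : Continuous fun z : S × ℝ => cut n (z.2 • (z.1 : E)) ^ j :=
      ((cut_smooth n).continuous.comp h3).pow j
    exact (Complex.continuous_ofReal.comp ((hm.comp continuous_snd).mul h5)).mul
      (h4.mul (Complex.continuous_conj.comp h4))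
  · intro n
    refine Eventually.of_forall fun z => ?_
    rw [norm_mul, norm_mul ((m z.2 : ℝ) : ℂ)]
    refine mul_le_mul_of_nonneg_right ?_
      (norm_nonneg (ft φ (z.2 • (z.1 : E)) * (starRingEnd ℂ) (ft φ (z.2 • (z.1 : E)))))
    rw [Complex.norm_real, Complex.norm_real, norm_mul]
    have h1 : ‖cut n (z.2 • (z.1 : E)) ^ j‖ ≤ 1 := by
      rw [Real.norm_eq_abs, abs_of_nonneg (pow_nonneg (cut_nonneg _ _) _)]
      exact pow_le_one₀ (cut_nonneg _ _) (cut_le _ _)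
    calc ‖m z.2‖ * ‖cut n (z.2 • (z.1 : E)) ^ j‖ ≤ ‖m z.2‖ * 1 :=
        mul_le_mul_of_nonneg_left h1 (norm_nonneg (m z.2))
      _ = ‖m z.2‖ := mul_one _
  · filter_upwards [ae_ne] with z hz
    have h1 : z.2 • (z.1 : E) ≠ 0 := by
      refine smul_ne_zero hz ?_
      have h2 : ‖(z.1 : E)‖ = 1 := norm_eq_of_mem_sphere _
      intro h3
      rw [h3, norm_zero] at h2
      exact zero_ne_one h2
    refine tendsto_const_nhds.congr' ?_
    filter_upwards [cut_lim h1] with n hn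
    rw [hn, one_pow, mul_one]

private lemma norm_lim {x : K} {y : ℕ → K} (h1 : Tendsto (fun n => inner ℝ x (y n)) atTop (𝓝 (inner ℝ x x)))
    (h2 : Tendsto (fun n => inner ℝ (y n) (y n)) atTop (𝓝 (inner ℝ x x))) :
    Tendsto y atTop (𝓝 x) := by
  rw [tendsto_iff_norm_sub_tendsto_zero]
  have h3 : Tendsto (fun n => ‖y n - x‖ ^ 2) atTop (𝓝 0) := by
    have h4 : ∀ n, ‖y n - x‖ ^ 2 = inner ℝ (y n) (y n) - 2 * inner ℝ x (y n) + inner ℝ x x := by
      intro n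
      rw [norm_sub_sq_real, real_inner_comm, real_inner_self_eq_norm_sq, real_inner_self_eq_norm_sq]
    simp only [h4]
    have h5 := (h2.sub (h1.const_mul 2)).add_const (inner ℝ x x)
    have h6 : inner ℝ x x - 2 * inner ℝ x x + inner ℝ x x = (0 : ℝ) := by ring
    rwa [h6] at h5
  have h7 := (Real.continuous_sqrt.tendsto 0).comp h3
  rw [Real.sqrt_zero] at h7
  refine h7.congr fun n => ?_
  exact Real.sqrt_sq (norm_nonneg _)

private lemma wt_cont {e : ℝ} (he : 0 ≤ e) : Continuous fun r : ℝ => |2 * Real.pi * r| ^ e :=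
  (Real.continuous_rpow_const he).comp (continuous_abs.comp (continuous_const.mul continuous_id))

private lemma wt_bd {e : ℝ} (he : 0 ≤ e) (he2 : e ≤ 2) (r : ℝ) :
    |(|2 * Real.pi * r| ^ e)| ≤ (2 * Real.pi) ^ 2 * (1 + |r|) ^ 2 := by
  have h0 : 1 ≤ 2 * Real.pi := by linarith [Real.pi_gt_three]
  have h1 : |2 * Real.pi * r| = 2 * Real.pi * |r| := by
    rw [abs_mul, abs_of_nonneg (by positivity)]
  rw [abs_of_nonneg (by positivity), h1]
  calc (2 * Real.pi * |r|) ^ e ≤ (2 * Real.pi * (1 + |r|)) ^ e := by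
        refine Real.rpow_le_rpow (by positivity) ?_ he
        refine mul_le_mul_of_nonneg_left ?_ (by positivity)
        linarith
    _ ≤ (2 * Real.pi * (1 + |r|)) ^ (2 : ℝ) := by
        refine Real.rpow_le_rpow_of_exponent_le ?_ he2
        nlinarith [abs_nonneg r]
    _ = (2 * Real.pi) ^ 2 * (1 + |r|) ^ 2 := by
        rw [Real.rpow_two, mul_pow]

/-- the approximation, for `Rs` (`e = 0`) and `dRs` (`e = 2`) -/
private lemma approx (hFt : St_Ft) {R : ℝ → (E → ℝ) → K} {e : ℝ} (he : 0 ≤ e) (he2 : e ≤ 2)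
    (hR : ∀ (s s' : ℝ) (φ ψ : E → ℝ), |s| < 1 / 2 → |s'| < 1 / 2 → IsSch φ → IsSch ψ →
      inner ℝ (R s φ) (R s' ψ) = (∫ z : S × ℝ, ((|2 * Real.pi * z.2| ^ (e - s - s') : ℝ) : ℂ) *
        ft φ (z.2 • (z.1 : E)) * (starRingEnd ℂ) (ft ψ (z.2 • (z.1 : E))) ∂mu).re)
    {s : ℝ} (hs : |s| < 1 / 2) {φ : E → ℝ} (hφ : IsSch φ) {ψ : ℕ → E → ℝ}
    (hψ : ∀ n, IsSch (ψ n)) (hψ2 : ∀ n ξ, ft (ψ n) ξ =
      ((cut n ξ * (2 * Real.pi * ‖ξ‖) ^ s : ℝ) : ℂ) * ft φ ξ) :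
    Tendsto (fun n => R s (ψ n)) atTop (𝓝 (R 0 φ)) := by
  have h0 : |(0 : ℝ)| < 1 / 2 := by norm_num
  have hz : inner ℝ (R 0 φ) (R 0 φ) = (∫ z : S × ℝ, ((|2 * Real.pi * z.2| ^ e : ℝ) : ℂ) *
      (ft φ (z.2 • (z.1 : E)) * (starRingEnd ℂ) (ft φ (z.2 • (z.1 : E)))) ∂mu).re := by
    rw [hR 0 0 φ φ h0 h0 hφ hφ, sub_zero, sub_zero]
    simp only [mul_assoc]
  have hn : ∀ z : S × ℝ, 2 * Real.pi * ‖z.2 • (z.1 : E)‖ = |2 * Real.pi * z.2| := fun z => by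
    rw [norm_smul, norm_eq_of_mem_sphere, mul_one, Real.norm_eq_abs, abs_mul,
      abs_of_nonneg (by positivity : 0 ≤ 2 * Real.pi)]
  refine norm_lim ?_ ?_
  · rw [hz]
    refine (dom (wt_cont he) (wt_bd he he2) hFt hφ 1).congr fun n => ?_
    rw [hR 0 s φ (ψ n) h0 hs hφ (hψ n)]
    congr 1
    refine integral_congr_ae ?_
    filter_upwards [ae_ne] with z hz
    have ha : 0 < |2 * Real.pi * z.2| := abs_pos.2 (mul_ne_zero (by positivity) hz)
    rw [hψ2, hn, map_mul, Complex.conj_ofReal, sub_zero]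
    have h1 : |2 * Real.pi * z.2| ^ e = |2 * Real.pi * z.2| ^ (e - s) * |2 * Real.pi * z.2| ^ s := by
      rw [← Real.rpow_add ha]
      congr 1
      ring
    rw [h1]
    push_cast
    ring
  · rw [hz]
    refine (dom (wt_cont he) (wt_bd he he2) hFt hφ 2).congr fun n => ?_
    rw [hR s s (ψ n) (ψ n) hs hs (hψ n) (hψ n)]
    congr 1
    refine integral_congr_ae ?_
    filter_upwards [ae_ne] with z hz
    have ha : 0 < |2 * Real.pi * z.2| := abs_pos.2 (mul_ne_zero (by positivity) hz)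
    rw [hψ2, hn, map_mul, Complex.conj_ofReal]
    have h1 : |2 * Real.pi * z.2| ^ e = |2 * Real.pi * z.2| ^ (e - s - s) *
        |2 * Real.pi * z.2| ^ s * |2 * Real.pi * z.2| ^ s := by
      rw [← Real.rpow_add ha, ← Real.rpow_add ha]
      congr 1
      ring
    rw [h1]
    push_cast
    ring

end Dns0x

open Dns0x in
/-- **Dns0** -/
theorem thm_Dns0 (hGrp : Pool.Agent.QWE.St_Grp1) (hDens : Pool.Agent.QWE.St_Dens) (hFt : St_Ft)
    (hFtI : St_FtI) (hPar : St_Par) (hIdn : St_Idn) : St_Dns0 := by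
  intro s hs
  have hR1 : ∀ (s s' : ℝ) (φ ψ : E → ℝ), |s| < 1 / 2 → |s'| < 1 / 2 → IsSch φ → IsSch ψ →
      inner ℝ (Rs s φ) (Rs s' ψ) = (∫ z : S × ℝ, ((|2 * Real.pi * z.2| ^ (0 - s - s') : ℝ) : ℂ) *
        ft φ (z.2 • (z.1 : E)) * (starRingEnd ℂ) (ft ψ (z.2 • (z.1 : E))) ∂mu).re := by
    intro s s' φ ψ h1 h2 h3 h4
    have h5 := (hPar s s' 0 φ ψ h1 h2 h3 h4).2.2.2.2.1
    rw [hGrp.2.1] at h5
    rw [h5, zero_sub]
    congr 2
    funext z
    simp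
  have hR2 : ∀ (s s' : ℝ) (φ ψ : E → ℝ), |s| < 1 / 2 → |s'| < 1 / 2 → IsSch φ → IsSch ψ →
      inner ℝ (dRs s φ) (dRs s' ψ) = (∫ z : S × ℝ, ((|2 * Real.pi * z.2| ^ (2 - s - s') : ℝ) : ℂ) *
        ft φ (z.2 • (z.1 : E)) * (starRingEnd ℂ) (ft ψ (z.2 • (z.1 : E))) ∂mu).re := by
    intro s s' φ ψ h1 h2 h3 h4
    have h5 := (hPar s s' 0 φ ψ h1 h2 h3 h4).2.2.2.2.2.1
    rw [hGrp.2.1] at h5
    rw [h5]
    congr 2
    funext z
    simp
  rw [eq_top_iff, ← hDens.1]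
  unfold Pool.Agent.QWE.TS
  refine Submodule.topologicalClosure_minimal _ ?_ (Submodule.isClosed_topologicalClosure _)
  rw [Submodule.span_le]
  rintro w ⟨φ, hφ, -, hw⟩
  have hφ' : IsSch φ := hFt.1 φ hφ
  choose ψ hψ1 hψ2 hψ3 hψ4 using ex_psi hFt hFtI s hφ'
  rcases hw with rfl | rfl
  · rw [← (hIdn φ φ hφ' hφ').1]
    refine IsClosed.mem_of_tendsto (Submodule.isClosed_topologicalClosure _)
      (approx hFt le_rfl (by norm_num) hR1 hs hφ' hψ1 hψ4) (Eventually.of_forall fun n => ?_)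
    exact Submodule.le_topologicalClosure _ (Submodule.subset_span
      ⟨ψ n, hψ1 n, hψ2 n, hψ3 n, Or.inl rfl⟩)
  · rw [← (hIdn φ φ hφ' hφ').2.1]
    refine IsClosed.mem_of_tendsto (Submodule.isClosed_topologicalClosure _)
      (approx hFt (by norm_num) le_rfl hR2 hs hφ' hψ1 hψ4) (Eventually.of_forall fun n => ?_)
    exact Submodule.le_topologicalClosure _ (Submodule.subset_span
      ⟨ψ n, hψ1 n, hψ2 n, hψ3 n, Or.inr rfl⟩)

end Pool.Agent.QWP
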