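import Pool.Agent.QWP.StA
import Pool.Agent.QWE.DensA

/-!
# QWP/DnsP (helper72): density of the test states
-/

set_option autoImplicit false

open MeasureTheory Filter Topology Set
open scoped ENNReal NNReal RealInnerProductSpace FourierTransform SchwartzMap ContDiff

namespace Pool.Agent.QWP

open Pool.Agent.QWE (E S sg mu K toK tau sh dl rev gr ig IsTest pd lap Rad dRad Rk dRk c0 WD Sm SmE IsSch half shr WTo)
open Pool.Agent.QWE.Isox (sch_pd sch_lap exists_cx)
open Pool.Agent.QWE.Densx (sch_smE test_sch sch_int sch_lin test_lin test_pd test_lap lap_lin UB UB_mul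
  UB_lap UB_bound chi UB_chi UB_sch cut chi_nonneg chi_le_one chi_one cut_test cut_le UB_cut cut_ev lap_ev)

namespace DnsPx

theorem ft_smooth {ψ : E → ℝ} (h : IsSch ψ) : ContDiff ℝ ((⊤ : ℕ∞) : WithTop ℕ∞) (ft ψ) := by
  obtain ⟨f, hf⟩ := exists_cx h
  have e : ft ψ = (𝓕 f : 𝓢(E, ℂ)) := by
    funext ξ
    rw [SchwartzMap.fourier_coe, Real.fourier_eq']
    unfold ft
    apply integral_congr_ae
    filter_upwards with x
    simp only [smul_eq_mul, hf]
    rw [mul_comm]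
    congr 2
    push_cast
    ring
  rw [e]
  exact (𝓕 f : 𝓢(E, ℂ)).smooth ⊤

theorem Rs_congr {s : ℝ} {φ ψ : E → ℝ} (h : ft φ = ft ψ) : Rs s φ = Rs s ψ := by
  unfold Rs RsF
  rw [h]

theorem dRs_congr {s : ℝ} {φ ψ : E → ℝ} (h : ft φ = ft ψ) : dRs s φ = dRs s ψ := by
  unfold dRs dRsF
  rw [h]

/-- Fourier support away from zero and infinity. -/
def FS (ψ : E → ℝ) : Prop :=
  IsSch ψ ∧ HasCompactSupport (ft ψ) ∧ (∀ᶠ ξ in 𝓝 (0 : E), ft ψ ξ = 0)

theorem inv_lap (hF : St_Ft) (hI : St_FtI) {ψ : E → ℝ} (h : FS ψ) :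
    ∃ g : E → ℝ, FS g ∧ ft (lap g) = ft ψ := by
  obtain ⟨hs, hc, h0⟩ := h
  obtain ⟨G, hG⟩ : ∃ G : E → ℂ, G = fun ξ => -ft ψ ξ * ((((2 * Real.pi * ‖ξ‖) ^ 2)⁻¹ : ℝ) : ℂ) :=
    ⟨_, rfl⟩
  have hG0 : ∀ᶠ ξ in 𝓝 (0 : E), G ξ = 0 := by
    filter_upwards [h0] with ξ hξ
    rw [hG]
    simp [hξ]
  have hGc : HasCompactSupport G := by
    rw [hG]
    exact hc.neg.mul_right
  have hGs : ContDiff ℝ ((⊤ : ℕ∞) : WithTop ℕ∞) G := by
    rw [contDiff_iff_contDiffAt]
    intro ξ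
    by_cases hξ : ξ = 0
    · rw [hξ]
      have : G =ᶠ[𝓝 0] fun _ => 0 := hG0
      exact contDiffAt_const.congr_of_eventuallyEq this
    · rw [hG]
      apply ContDiffAt.mul
      · exact (ft_smooth hs).contDiffAt.neg
      · apply Complex.ofRealCLM.contDiff.contDiffAt.comp
        apply ContDiffAt.inv
        · apply ContDiffAt.pow
          exact contDiffAt_const.mul (contDiffAt_norm ℝ hξ)
        · have : 0 < ‖ξ‖ := norm_pos_iff.2 hξ
          positivity
  obtain ⟨g, hg, hgG⟩ := hI G hGs hGc (by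
    intro ξ
    rw [hG]
    dsimp only
    rw [(hF.2 ψ hs).2.2.2.2.2.1 ξ, norm_neg, map_mul, map_neg, Complex.conj_ofReal])
  have hgG' : ft g = G := funext hgG
  refine ⟨g, ⟨hg, by rw [hgG']; exact hGc, by rw [hgG']; exact hG0⟩, ?_⟩
  funext ξ
  rw [(hF.2 g hg).2.2.2.2.1 ξ, hgG ξ, hG]
  dsimp only
  by_cases hξ : ξ = 0
  · have h1 := h0.self_of_nhds
    rw [hξ, h1]
    simp
  · have h2 : 0 < ‖ξ‖ := norm_pos_iff.2 hξ
    have h3 : ((2 * Real.pi * ‖ξ‖) ^ 2) ≠ 0 := by positivity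
    have h4 : (((2 * Real.pi * ‖ξ‖) ^ 2 : ℝ) : ℂ) * ((((2 * Real.pi * ‖ξ‖) ^ 2)⁻¹ : ℝ) : ℂ) = 1 := by
      rw [← Complex.ofReal_mul, mul_inv_cancel₀ h3, Complex.ofReal_one]
    calc _ = ft ψ ξ * ((((2 * Real.pi * ‖ξ‖) ^ 2 : ℝ) : ℂ) *
          ((((2 * Real.pi * ‖ξ‖) ^ 2)⁻¹ : ℝ) : ℂ)) := by ring
      _ = _ := by rw [h4, mul_one]

theorem ft_lap_congr (hF : St_Ft) {φ ψ : E → ℝ} (hφ : IsSch φ) (hψ : IsSch ψ) (h : ft φ = ft ψ) :
    ft (lap φ) = ft (lap ψ) := by
  funext ξ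
  rw [(hF.2 φ hφ).2.2.2.2.1 ξ, (hF.2 ψ hψ).2.2.2.2.1 ξ, h]

theorem inv_lap2 (hF : St_Ft) (hI : St_FtI) {ψ : E → ℝ} (h : FS ψ) :
    ∃ g : E → ℝ, IsSch g ∧ ft (lap (lap g)) = ft ψ := by
  obtain ⟨g1, h1, e1⟩ := inv_lap hF hI h
  obtain ⟨g2, h2, e2⟩ := inv_lap hF hI h1
  refine ⟨g2, h2.1, ?_⟩
  rw [← e1]
  exact ft_lap_congr hF (sch_lap h2.1) h1.1 e2

theorem span_eq (s : ℝ) : {w : K | ∃ ψ : E → ℝ, IsSch ψ ∧ HasCompactSupport (ft ψ) ∧
    (∀ᶠ ξ in 𝓝 (0 : E), ft ψ ξ = 0) ∧ (w = Rs s ψ ∨ w = dRs s ψ)} =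
    {w : K | ∃ ψ : E → ℝ, FS ψ ∧ (w = Rs s ψ ∨ w = dRs s ψ)} := by
  ext w
  constructor
  · rintro ⟨ψ, a, b, c, d⟩
    exact ⟨ψ, ⟨a, b, c⟩, d⟩
  · rintro ⟨ψ, ⟨a, b, c⟩, d⟩
    exact ⟨ψ, a, b, c, d⟩

/-- A closed subspace containing the basic states is everything. -/
theorem top_of (hD : St_Dns0) {s : ℝ} (hs : |s| < 1 / 2) (T : Submodule ℝ K)
    (hT : IsClosed (T : Set K)) (h1 : ∀ ψ, FS ψ → Rs s ψ ∈ T) (h2 : ∀ ψ, FS ψ → dRs s ψ ∈ T) :
    T = ⊤ := by
  have h3 := hD s hs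
  rw [span_eq] at h3
  rw [eq_top_iff, ← h3]
  apply Submodule.topologicalClosure_minimal _ _ hT
  rw [Submodule.span_le]
  rintro w ⟨ψ, hψ, hw | hw⟩
  · rw [hw]
    exact h1 ψ hψ
  · rw [hw]
    exact h2 ψ hψ

/-- Uniqueness. -/
theorem tot (hF : St_Ft) (hI : St_FtI) (hD : St_Dns0) {s : ℝ} (hs : |s| < 1 / 2) (w : K)
    (h : ∀ f, IsSch f → inner ℝ w (Rs s (lap (lap f))) = 0 ∧ inner ℝ w (dRs s (lap f)) = 0) :
    w = 0 := by
  have h1 : (ℝ ∙ w)ᗮ = ⊤ := by
    apply top_of hD hs _ (Submodule.isClosed_orthogonal _)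
    · intro ψ hψ
      obtain ⟨g, hg, e⟩ := inv_lap2 hF hI hψ
      rw [Submodule.mem_orthogonal_singleton_iff_inner_right, ← Rs_congr e]
      exact (h g hg).1
    · intro ψ hψ
      obtain ⟨g, hg, e⟩ := inv_lap hF hI hψ
      rw [Submodule.mem_orthogonal_singleton_iff_inner_right, ← dRs_congr e]
      exact (h g hg.1).2
  have h2 : w ∈ (ℝ ∙ w)ᗮ := by
    rw [h1]
    trivial
  rw [Submodule.mem_orthogonal_singleton_iff_inner_right] at h2
  exact inner_self_eq_zero.1 h2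

theorem c0_pos : 0 < c0 := by
  unfold c0
  positivity

theorem int_prod {f φ : E → ℝ} (hf : IsSch f) (hφ : IsSch φ) : Integrable fun x => f x * φ x := by
  obtain ⟨C, hC⟩ := UB_bound (UB_sch hφ)
  refine (sch_int hf).mul_bdd (c := C) (sch_smE hφ).continuous.aestronglyMeasurable ?_
  filter_upwards with x
  exact hC 0 x

theorem Rs_lin (hF : St_Ft) (hI : St_FtI) (hD : St_Dns0) (hP : St_IsoP) {s : ℝ} (hs : |s| < 1 / 2)
    {φ ψ : E → ℝ} (hφ : IsSch φ) (hψ : IsSch ψ) (c : ℝ) :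
    Rs s (fun x => φ x + c * ψ x) = Rs s φ + c • Rs s ψ ∧
    dRs s (fun x => φ x + c * ψ x) = dRs s φ + c • dRs s ψ := by
  have hs' : |-s| < 1 / 2 := by rwa [abs_neg]
  have hl := sch_lin hφ hψ c
  have hc := c0_pos
  have hint : ∀ f, IsSch f → ∫ x, f x * (φ x + c * ψ x) =
      (∫ x, f x * φ x) + c * ∫ x, f x * ψ x := by
    intro f hf
    rw [← integral_const_mul, ← integral_add (int_prod hf hφ) ((int_prod hf hψ).const_mul c)]
    apply integral_congr_ae
    filter_upwards with x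
    ring
  constructor
  · have h1 : Rs s (fun x => φ x + c * ψ x) - (Rs s φ + c • Rs s ψ) = 0 := by
      apply tot hF hI hD hs'
      intro f hf
      rw [inner_sub_left, inner_add_left, inner_smul_left, inner_sub_left, inner_add_left,
        inner_smul_left]
      constructor
      · have a1 := (hP s f _ hs hf hl).1
        have a2 := (hP s f _ hs hf hφ).1
        have a3 := (hP s f _ hs hf hψ).1
        rw [hint f hf, ← a2, ← a3] at a1
        rw [real_inner_comm (Rs (-s) (lap (lap f))) (Rs s fun x => φ x + c * ψ x),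
          real_inner_comm (Rs (-s) (lap (lap f))) (Rs s φ),
          real_inner_comm (Rs (-s) (lap (lap f))) (Rs s ψ)]
        simp only [conj_trivial]
        have a4 : c0 * (inner ℝ (Rs (-s) (lap (lap f))) (Rs s fun x => φ x + c * ψ x) -
            (inner ℝ (Rs (-s) (lap (lap f))) (Rs s φ) +
              c * inner ℝ (Rs (-s) (lap (lap f))) (Rs s ψ))) = 0 := by
          linarith
        exact (mul_eq_zero.1 a4).resolve_left hc.ne'
      · rw [(hP s _ (lap f) hs hl (sch_lap hf)).2.2.1, (hP s _ (lap f) hs hφ (sch_lap hf)).2.2.1,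
          (hP s _ (lap f) hs hψ (sch_lap hf)).2.2.1]
        simp
    exact sub_eq_zero.1 h1
  · have h1 : dRs s (fun x => φ x + c * ψ x) - (dRs s φ + c • dRs s ψ) = 0 := by
      apply tot hF hI hD hs'
      intro f hf
      rw [inner_sub_left, inner_add_left, inner_smul_left, inner_sub_left, inner_add_left,
        inner_smul_left]
      constructor
      · have g : ∀ φ : E → ℝ, IsSch φ → inner ℝ (dRs s φ) (Rs (-s) (lap (lap f))) = 0 := by
          intro φ hφ
          have := (hP (-s) (lap (lap f)) φ hs' (sch_lap (sch_lap hf)) hφ).2.2.1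
          rw [neg_neg] at this
          rw [real_inner_comm]
          exact this
        rw [g _ hl, g _ hφ, g _ hψ]
        simp
      · have a1 := (hP s f _ hs hf hl).2.1
        have a2 := (hP s f _ hs hf hφ).2.1
        have a3 := (hP s f _ hs hf hψ).2.1
        rw [hint f hf] at a1
        rw [real_inner_comm (dRs (-s) (lap f)) (dRs s fun x => φ x + c * ψ x),
          real_inner_comm (dRs (-s) (lap f)) (dRs s φ),
          real_inner_comm (dRs (-s) (lap f)) (dRs s ψ)]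
        simp only [conj_trivial]
        have a4 : c0 * (inner ℝ (dRs (-s) (lap f)) (dRs s fun x => φ x + c * ψ x) -
            (inner ℝ (dRs (-s) (lap f)) (dRs s φ) +
              c * inner ℝ (dRs (-s) (lap f)) (dRs s ψ))) = 0 := by
          have a5 : c * (c0 * inner ℝ (dRs (-s) (lap f)) (dRs s ψ)) =
              c * - ∫ x, f x * ψ x := by rw [a3]
          linarith
        exact (mul_eq_zero.1 a4).resolve_left hc.ne'
    exact sub_eq_zero.1 h1

theorem dct {p : ℝ≥0∞} (hp0 : p ≠ 0) (hpt : p ≠ ⊤) {f : E → ℝ} (hf : MemLp f p volume)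
    {F : ℕ → E → ℝ} (hFm : ∀ n, Measurable (F n)) (hle : ∀ n x, |F n x| ≤ |f x|)
    (h0 : ∀ x, ∀ᶠ n in atTop, F n x = 0) :
    Tendsto (fun n => eLpNorm (F n) p volume) atTop (𝓝 0) := by
  have hp : 0 < p.toReal := ENNReal.toReal_pos hp0 hpt
  simp only [eLpNorm_eq_lintegral_rpow_enorm_toReal hp0 hpt]
  have h1 : Tendsto (fun n => ∫⁻ x, ‖F n x‖ₑ ^ p.toReal) atTop (𝓝 (∫⁻ _x : E, 0)) := by
    apply tendsto_lintegral_of_dominated_convergence (fun x => ‖f x‖ₑ ^ p.toReal)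
    · intro n
      exact (hFm n).enorm.pow_const _
    · intro n
      filter_upwards with x
      apply ENNReal.rpow_le_rpow _ hp.le
      rw [Real.enorm_eq_ofReal_abs, Real.enorm_eq_ofReal_abs]
      exact ENNReal.ofReal_le_ofReal (hle n x)
    · have h2 := hf.2
      rw [eLpNorm_eq_lintegral_rpow_enorm_toReal hp0 hpt] at h2
      intro h3
      rw [h3, ENNReal.top_rpow_of_pos (by positivity)] at h2
      exact lt_irrefl _ h2
    · filter_upwards with x
      apply tendsto_nhds_of_eventually_eq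
      filter_upwards [h0 x] with n hn
      rw [hn, enorm_zero, ENNReal.zero_rpow_of_pos hp]
  rw [lintegral_zero] at h1
  have h2 := (ENNReal.continuous_rpow_const (y := 1 / p.toReal)).tendsto 0
  rw [ENNReal.zero_rpow_of_pos (by positivity)] at h2
  exact h2.comp h1

/-- The remainder of the cut-off. -/
noncomputable def rem (f : E → ℝ) (n : ℕ) (x : E) : ℝ := f x + (-1) * cut f n x

theorem rem_sch {f : E → ℝ} (hf : IsSch f) (n : ℕ) : IsSch (rem f n) :=
  sch_lin hf (test_sch (cut_test hf n)) (-1)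

theorem rem_le (f : E → ℝ) (n : ℕ) (x : E) : |rem f n x| ≤ |f x| := by
  unfold rem cut
  have e : f x + (-1) * (chi n x * f x) = (1 - chi n x) * f x := by ring
  rw [e, abs_mul]
  have h1 := chi_nonneg n x
  have h2 := chi_le_one n x
  have h3 : |1 - chi n x| ≤ 1 := by
    rw [abs_le]
    constructor <;> linarith
  exact mul_le_of_le_one_left (abs_nonneg _) h3

theorem rem_ev (f : E → ℝ) (x : E) : ∀ᶠ n in atTop, rem f n x = 0 := by
  filter_upwards [cut_ev f x] with n hn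
  unfold rem
  rw [hn.self_of_nhds]
  ring

theorem rem_UB {f : E → ℝ} (hf : IsSch f) : UB (rem f) := by
  have h1 := UB_sch hf
  have h2 := UB_cut hf
  refine ⟨fun n => (h1.1 n).add (contDiff_const.mul (h2.1 n)), fun m => ?_⟩
  obtain ⟨C, hC⟩ := h1.2 m
  obtain ⟨D, hD⟩ := h2.2 m
  refine ⟨C + D, fun n x => ?_⟩
  have e : rem f n = f + (-1 : ℝ) • cut f n := rfl
  have hs1 : ContDiffAt ℝ m f x := ((h1.1 n).of_le (by exact_mod_cast le_top)).contDiffAt
  have hs2 : ContDiffAt ℝ m (cut f n) x := ((h2.1 n).of_le (by exact_mod_cast le_top)).contDiffAt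
  have hs3 : ContDiffAt ℝ m ((-1 : ℝ) • cut f n) x := hs2.const_smul (-1 : ℝ)
  rw [e, iteratedFDeriv_add_apply hs1 hs3, iteratedFDeriv_const_smul_apply hs2]
  refine (norm_add_le _ _).trans (add_le_add (hC n x) ?_)
  rw [norm_smul]
  simpa using hD n x

theorem sch_memLp {f : E → ℝ} (hf : IsSch f) (p : ℝ≥0∞) : MemLp f p volume := by
  obtain ⟨g, hg⟩ := hf
  have e : f = g := funext fun x => (hg x).symm
  rw [e]
  exact g.memLp p volume

theorem rem_Lp {f : E → ℝ} (hf : IsSch f) {p : ℝ≥0∞} (hp0 : p ≠ 0) (hpt : p ≠ ⊤) :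
    Tendsto (fun n => eLpNorm (rem f n) p volume) atTop (𝓝 0) :=
  dct hp0 hpt (sch_memLp hf p) (fun n => (sch_smE (rem_sch hf n)).continuous.measurable)
    (rem_le f) (rem_ev f)

theorem hs_nonneg (a : ℝ) (φ : E → ℝ) : 0 ≤ hs a φ := by
  unfold hs
  apply integral_nonneg
  intro ξ
  positivity

theorem hs3_eq (hF : St_Ft) {φ : E → ℝ} (hφ : IsSch φ) :
    hs 3 φ = - ∫ x, φ x * lap (lap (lap φ)) x := by
  have h1 := sch_lap hφ
  have h2 := sch_lap h1
  have h3 := sch_lap h2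
  rw [(hF.2 φ hφ).2.2.1 _ h3]
  have e : ∀ ξ, ft φ ξ * (starRingEnd ℂ) (ft (lap (lap (lap φ))) ξ) =
      ((-((2 * Real.pi * ‖ξ‖) ^ (2 * 3 : ℝ) * ‖ft φ ξ‖ ^ 2) : ℝ) : ℂ) := by
    intro ξ
    rw [(hF.2 _ h2).2.2.2.2.1 ξ, (hF.2 _ h1).2.2.2.2.1 ξ, (hF.2 _ hφ).2.2.2.2.1 ξ]
    simp only [map_mul, map_neg, Complex.conj_ofReal]
    have e1 : (2 * Real.pi * ‖ξ‖) ^ (2 * 3 : ℝ) = (2 * Real.pi * ‖ξ‖) ^ 6 := by
      rw [← Real.rpow_natCast]
      norm_num
    have e2 : ft φ ξ * (starRingEnd ℂ) (ft φ ξ) = ((‖ft φ ξ‖ ^ 2 : ℝ) : ℂ) := by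
      rw [Complex.mul_conj, Complex.normSq_eq_norm_sq]
    rw [e1]
    push_cast
    push_cast at e2
    linear_combination (-(2 * (Real.pi : ℂ) * (‖ξ‖ : ℂ)) ^ 6) * e2
  simp only [e]
  rw [integral_complex_ofReal, Complex.ofReal_re, integral_neg, neg_neg]
  rfl

theorem hs3_bd (hF : St_Ft) {f : E → ℝ} (hf : IsSch f) : ∃ B : ℝ, ∀ n, hs 3 (rem f n) ≤ B := by
  obtain ⟨C, hC⟩ := UB_bound (UB_lap (UB_lap (UB_lap (rem_UB hf))))
  refine ⟨∫ x, |f x| * C, fun n => ?_⟩
  rw [hs3_eq hF (rem_sch hf n)]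
  refine (neg_le_abs _).trans ?_
  rw [← Real.norm_eq_abs]
  apply norm_integral_le_of_norm_le ((sch_int hf).abs.mul_const C)
  filter_upwards with x
  rw [norm_mul, Real.norm_eq_abs, Real.norm_eq_abs]
  exact mul_le_mul (rem_le f n x) (hC n x) (abs_nonneg _) (abs_nonneg _)

theorem hs0_tend (hH : St_Hs) {f : E → ℝ} (hf : IsSch f) :
    Tendsto (fun n => hs 0 (rem f n)) atTop (𝓝 0) := by
  have h1 : Tendsto (fun n => ∫ x, rem f n x ^ 2) atTop (𝓝 (∫ _x : E, (0 : ℝ))) := by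
    apply tendsto_integral_of_dominated_convergence (fun x => f x * f x)
    · intro n
      exact ((sch_smE (rem_sch hf n)).continuous.pow 2).aestronglyMeasurable
    · exact int_prod hf hf
    · intro n
      filter_upwards with x
      have h2 := rem_le f n x
      rw [norm_pow, Real.norm_eq_abs, ← sq, ← sq_abs (f x)]
      gcongr
    · filter_upwards with x
      apply tendsto_nhds_of_eventually_eq
      filter_upwards [rem_ev f x] with n hn
      rw [hn]
      ring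
  rw [integral_zero] at h1
  refine h1.congr fun n => ?_
  rw [hH.1 _ (rem_sch hf n)]

theorem hs_tend (hF : St_Ft) (hH : St_Hs) {f : E → ℝ} (hf : IsSch f) {a : ℝ} (ha : 0 ≤ a)
    (ha3 : a < 3) : Tendsto (fun n => hs a (rem f n)) atTop (𝓝 0) := by
  obtain ⟨B, hB⟩ := hs3_bd hF hf
  have hexp : 0 < 1 - a / 3 := by
    have : a / 3 < 1 := by
      rw [div_lt_one (by norm_num)]
      exact ha3
    linarith
  have h1 : ∀ n, hs a (rem f n) ≤ hs 0 (rem f n) ^ (1 - a / 3) * B ^ (a / 3) := by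
    intro n
    have h2 := hH.2.2.2.2.1 3 a (rem f n) (by norm_num) ha (by exact_mod_cast ha3.le) (rem_sch hf n)
    push_cast at h2
    refine h2.trans ?_
    apply mul_le_mul_of_nonneg_left _ (Real.rpow_nonneg (hs_nonneg _ _) _)
    exact Real.rpow_le_rpow (hs_nonneg _ _) (hB n) (by positivity)
  have h3 : Tendsto (fun n => hs 0 (rem f n) ^ (1 - a / 3) * B ^ (a / 3)) atTop (𝓝 0) := by
    have h4 := (hs0_tend hH hf).rpow_const (p := 1 - a / 3) (Or.inr hexp.le)
    rw [Real.zero_rpow hexp.ne'] at h4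
    have h5 := h4.mul_const (B ^ (a / 3))
    rwa [zero_mul] at h5
  exact tendsto_of_tendsto_of_tendsto_of_le_of_le tendsto_const_nhds h3
    (fun n => hs_nonneg _ _) h1

theorem hsm_tend (hS : St_SobP) {f : E → ℝ} (hf : IsSch f) {a : ℝ} (ha : 0 < a) (ha5 : a < 5 / 2) :
    Tendsto (fun n => hs (-a) (rem f n)) atTop (𝓝 0) := by
  obtain ⟨C, hC, hb⟩ := hS a ha ha5
  have hp0 : ENNReal.ofReal (10 / (5 + 2 * a)) ≠ 0 := by
    apply (ENNReal.ofReal_pos.2 _).ne'
    positivity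
  have h1 : Tendsto (fun n => ENNReal.ofReal ((hs (-a) (rem f n)) ^ (1 / 2 : ℝ))) atTop (𝓝 0) := by
    have h2 := ENNReal.Tendsto.const_mul (rem_Lp hf hp0 ENNReal.ofReal_ne_top)
      (Or.inr (ENNReal.ofReal_ne_top (r := C)))
    rw [mul_zero] at h2
    exact tendsto_of_tendsto_of_tendsto_of_le_of_le tendsto_const_nhds h2
      (fun n => zero_le) (fun n => (hb _ (rem_sch hf n)).2)
  have h3 : Tendsto (fun n => (hs (-a) (rem f n)) ^ (1 / 2 : ℝ)) atTop (𝓝 0) := by
    have h4 := (ENNReal.tendsto_toReal ENNReal.zero_ne_top).comp h1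
    rw [ENNReal.toReal_zero] at h4
    refine h4.congr fun n => ?_
    simp only [Function.comp]
    rw [ENNReal.toReal_ofReal (Real.rpow_nonneg (hs_nonneg _ _) _)]
  have h5 := h3.pow 2
  rw [zero_pow two_ne_zero] at h5
  refine h5.congr fun n => ?_
  rw [← Real.rpow_natCast, ← Real.rpow_mul (hs_nonneg _ _)]
  norm_num

theorem norm_tend {w : ℕ → K} {w0 : K} {h : ℕ → ℝ} {c : ℝ} (hc : 0 < c)
    (he : ∀ n, c * ‖w0 - w n‖ ^ 2 = h n) (hh : Tendsto h atTop (𝓝 0)) :
    Tendsto w atTop (𝓝 w0) := by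
  rw [tendsto_iff_norm_sub_tendsto_zero]
  have h1 : Tendsto (fun n => √(c⁻¹ * h n)) atTop (𝓝 0) := by
    have h2 := (hh.const_mul c⁻¹).sqrt
    rwa [mul_zero, Real.sqrt_zero] at h2
  refine h1.congr fun n => ?_
  rw [← he n, ← mul_assoc, inv_mul_cancel₀ hc.ne', one_mul, Real.sqrt_sq (norm_nonneg _),
    norm_sub_rev]

section

variable (hF : St_Ft) (hI : St_FtI) (hD : St_Dns0) (hP : St_IsoP)

include hF hI hD hP

theorem cut_tend (hS : St_SobP) {s : ℝ} (hs1 : |s| < 1 / 2) {ψ : E → ℝ} (hψ : IsSch ψ) :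
    Tendsto (fun n => Rs s (cut ψ n)) atTop (𝓝 (Rs s ψ)) ∧
    Tendsto (fun n => dRs s (cut ψ n)) atTop (𝓝 (dRs s ψ)) := by
  have hab := abs_lt.1 hs1
  constructor
  · apply norm_tend c0_pos _ (hsm_tend hS hψ (a := 2 + s) (by linarith [hab.1]) (by linarith [hab.2]))
    intro n
    have h1 := (Rs_lin hF hI hD hP hs1 hψ (test_sch (cut_test hψ n)) (-1)).1
    have h2 := (hP s _ _ hs1 hψ (rem_sch hψ n)).2.2.2.2.1
    have e : Rs s ψ - Rs s (cut ψ n) = Rs s (rem ψ n) := by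
      rw [show rem ψ n = fun x => ψ x + (-1) * cut ψ n x from rfl, h1]
      rw [neg_one_smul, sub_eq_add_neg]
    rw [e, h2]
    congr 1
    ring
  · apply norm_tend c0_pos _ (hsm_tend hS hψ (a := 1 + s) (by linarith [hab.1]) (by linarith [hab.2]))
    intro n
    have h1 := (Rs_lin hF hI hD hP hs1 hψ (test_sch (cut_test hψ n)) (-1)).2
    have h2 := (hP s _ _ hs1 hψ (rem_sch hψ n)).2.2.2.2.2.1
    have e : dRs s ψ - dRs s (cut ψ n) = dRs s (rem ψ n) := by
      rw [show rem ψ n = fun x => ψ x + (-1) * cut ψ n x from rfl, h1]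
      rw [neg_one_smul, sub_eq_add_neg]
    rw [e, h2]
    congr 1
    ring

theorem Theta_lin {s : ℝ} (hs1 : |s| < 1 / 2) {f g f' g' : E → ℝ} (hf : IsSch f) (hg : IsSch g)
    (hf' : IsSch f') (hg' : IsSch g') (c : ℝ) :
    Theta s (fun x => f x + c * f' x) (fun x => g x + c * g' x) =
      Theta s f g + c • Theta s f' g' := by
  have hs2 : |-s| < 1 / 2 := by rwa [abs_neg]
  unfold Theta
  rw [lap_lin hf hf', lap_lin (sch_lap hf) (sch_lap hf'), lap_lin hg hg',
    (Rs_lin hF hI hD hP hs2 (sch_lap (sch_lap hf)) (sch_lap (sch_lap hf')) c).1,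
    (Rs_lin hF hI hD hP hs2 (sch_lap hg) (sch_lap hg') c).2]
  rw [smul_comm c c0, ← smul_add]
  congr 1
  rw [smul_sub]
  abel

theorem Theta_tend (hH : St_Hs) {s : ℝ} (hs1 : |s| < 1 / 2) {f g : E → ℝ} (hf : IsSch f)
    (hg : IsSch g) : Tendsto (fun n => Theta s (cut f n) (cut g n)) atTop (𝓝 (Theta s f g)) := by
  have hab := abs_lt.1 hs1
  have h1 := hs_tend hF hH hf (a := 2 + s) (by linarith [hab.1]) (by linarith [hab.2])
  have h2 := hs_tend hF hH hg (a := 1 + s) (by linarith [hab.1]) (by linarith [hab.2])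
  have h3 := (h1.add h2).const_mul c0
  rw [add_zero, mul_zero] at h3
  apply norm_tend one_pos _ h3
  intro n
  have e : Theta s f g - Theta s (cut f n) (cut g n) = Theta s (rem f n) (rem g n) := by
    rw [show rem f n = fun x => f x + (-1) * cut f n x from rfl,
      show rem g n = fun x => g x + (-1) * cut g n x from rfl,
      Theta_lin hF hI hD hP hs1 hf hg (test_sch (cut_test hf n)) (test_sch (cut_test hg n)),
      neg_one_smul, sub_eq_add_neg]
  rw [e, one_mul, (hP s _ _ hs1 (rem_sch hf n) (rem_sch hg n)).2.2.2.2.2.2.1]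

theorem TS_top (hS : St_SobP) {s : ℝ} (hs1 : |s| < 1 / 2) : TS s univ = ⊤ := by
  have hcl : IsClosed (TS s univ : Set K) := Submodule.isClosed_topologicalClosure _
  have hm : ∀ φ, IsTest φ → Rs s φ ∈ TS s univ ∧ dRs s φ ∈ TS s univ := by
    intro φ hφ
    constructor
    · exact Submodule.le_topologicalClosure _
        (Submodule.subset_span ⟨φ, hφ, subset_univ _, Or.inl rfl⟩)
    · exact Submodule.le_topologicalClosure _
        (Submodule.subset_span ⟨φ, hφ, subset_univ _, Or.inr rfl⟩)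
  apply top_of hD hs1 _ hcl
  · intro ψ hψ
    exact hcl.mem_of_tendsto (cut_tend hF hI hD hP hS hs1 hψ.1).1
      (Eventually.of_forall fun n => (hm _ (cut_test hψ.1 n)).1)
  · intro ψ hψ
    exact hcl.mem_of_tendsto (cut_tend hF hI hD hP hS hs1 hψ.1).2
      (Eventually.of_forall fun n => (hm _ (cut_test hψ.1 n)).2)

/-- The submodule of test states. -/
noncomputable def tst {s : ℝ} (hs1 : |s| < 1 / 2) : Submodule ℝ K where
  carrier := {k | ∃ f g : E → ℝ, IsTest f ∧ IsTest g ∧ k = Theta s f g}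
  add_mem' := by
    rintro _ _ ⟨f, g, hf, hg, rfl⟩ ⟨f', g', hf', hg', rfl⟩
    refine ⟨fun x => f x + 1 * f' x, fun x => g x + 1 * g' x, test_lin hf hf' 1, test_lin hg hg' 1, ?_⟩
    rw [Theta_lin hF hI hD hP hs1 (test_sch hf) (test_sch hg) (test_sch hf') (test_sch hg'), one_smul]
  zero_mem' := by
    have h0 : IsTest (fun _ : E => (0 : ℝ)) := ⟨contDiff_const, HasCompactSupport.zero⟩
    refine ⟨fun _ => 0, fun _ => 0, h0, h0, ?_⟩
    have h1 := Theta_lin hF hI hD hP hs1 (test_sch h0) (test_sch h0) (test_sch h0) (test_sch h0) (-1)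
    have e : (fun _ : E => (0 : ℝ) + (-1) * 0) = fun _ => 0 := by
      funext x
      ring
    rw [e, neg_one_smul, add_neg_cancel] at h1
    exact h1.symm
  smul_mem' := by
    rintro c _ ⟨f, g, hf, hg, rfl⟩
    have h0 : IsTest (fun _ : E => (0 : ℝ)) := ⟨contDiff_const, HasCompactSupport.zero⟩
    refine ⟨fun x => 0 + c * f x, fun x => 0 + c * g x, test_lin h0 hf c, test_lin h0 hg c, ?_⟩
    have h1 := Theta_lin hF hI hD hP hs1 (test_sch h0) (test_sch h0) (test_sch h0) (test_sch h0) (-1)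
    have e : (fun _ : E => (0 : ℝ) + (-1) * 0) = fun _ => 0 := by
      funext x
      ring
    rw [e, neg_one_smul, add_neg_cancel] at h1
    rw [Theta_lin hF hI hD hP hs1 (test_sch h0) (test_sch h0) (test_sch hf) (test_sch hg), h1,
      zero_add]

theorem tst_top (hH : St_Hs) {s : ℝ} (hs1 : |s| < 1 / 2) :
    (tst hF hI hD hP hs1).topologicalClosure = ⊤ := by
  have hcl : IsClosed ((tst hF hI hD hP hs1).topologicalClosure : Set K) :=
    Submodule.isClosed_topologicalClosure _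
  have hs2 : |-s| < 1 / 2 := by rwa [abs_neg]
  have h0 : IsTest (fun _ : E => (0 : ℝ)) := ⟨contDiff_const, HasCompactSupport.zero⟩
  have hm : ∀ f g, IsSch f → IsSch g → Theta s f g ∈ (tst hF hI hD hP hs1).topologicalClosure := by
    intro f g hf hg
    refine hcl.mem_of_tendsto (Theta_tend hF hI hD hP hH hs1 hf hg) (Eventually.of_forall fun n => ?_)
    exact Submodule.le_topologicalClosure _ ⟨_, _, cut_test hf n, cut_test hg n, rfl⟩
  have hl0 : lap (fun _ : E => (0 : ℝ)) = fun _ => 0 := by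
    have h1 := lap_lin (test_sch h0) (test_sch h0) (-1)
    have e : (fun _ : E => (0 : ℝ) + (-1) * 0) = fun _ => 0 := by
      funext x
      ring
    rw [e] at h1
    rw [h1]
    funext x
    ring
  have hz := Rs_lin hF hI hD hP hs2 (test_sch h0) (test_sch h0) (-1)
  have e : (fun _ : E => (0 : ℝ) + (-1) * 0) = fun _ => 0 := by
    funext x
    ring
  rw [e, neg_one_smul, neg_one_smul, add_neg_cancel, add_neg_cancel] at hz
  have hc := c0_pos.ne'
  apply top_of hD hs2 _ hcl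
  · intro ψ hψ
    obtain ⟨g, hg, e⟩ := inv_lap2 hF hI hψ
    have h2 := hm g (fun _ => 0) hg (test_sch h0)
    have h3 : Theta s g (fun _ => 0) = c0 • Rs (-s) ψ := by
      unfold Theta
      rw [hl0, hz.2, sub_zero, Rs_congr e]
    rw [h3] at h2
    have h4 := Submodule.smul_mem _ c0⁻¹ h2
    rwa [smul_smul, inv_mul_cancel₀ hc, one_smul] at h4
  · intro ψ hψ
    obtain ⟨g, hg, e⟩ := inv_lap hF hI hψ
    have h2 := hm (fun _ => 0) g (test_sch h0) hg.1
    have h3 : Theta s (fun _ => 0) g = (-c0) • dRs (-s) ψ := by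
      unfold Theta
      rw [hl0, hl0, hz.1, zero_sub, dRs_congr e, smul_neg, neg_smul]
    rw [h3] at h2
    have h4 := Submodule.smul_mem _ (-c0)⁻¹ h2
    rwa [smul_smul, inv_mul_cancel₀ (neg_ne_zero.2 hc), one_smul] at h4

end

end DnsPx

open DnsPx in
theorem thm_DnsP (hF : St_Ft) (hI : St_FtI) (hPJ : St_PJ) (hN : St_NcR) (hP : St_IsoP) (hH : St_Hs)
    (hS : St_SobP) (hD : St_Dns0) : St_DnsP := by
  intro s hs1
  have hT := TS_top hF hI hD hP hS hs1
  refine ⟨hT, ?_, ?_⟩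
  · intro k ε hε
    have h1 : k ∈ (tst hF hI hD hP hs1).topologicalClosure := by
      rw [tst_top hF hI hD hP hH hs1]
      trivial
    rw [← SetLike.mem_coe, Submodule.topologicalClosure_coe, Metric.mem_closure_iff] at h1
    obtain ⟨w, ⟨f, g, hf, hg, hw⟩, hd⟩ := h1 ε hε
    refine ⟨f, g, hf, hg, ?_⟩
    rw [hw, dist_eq_norm] at hd
    exact hd
  · rw [eq_top_iff, ← hT]
    apply Submodule.topologicalClosure_minimal _ _ (Submodule.isClosed_topologicalClosure _)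
    rw [Submodule.span_le]
    rintro w ⟨φ, hφ, _, hw⟩
    obtain ⟨ρ, hρ⟩ := hφ.2.isBounded.subset_ball 0
    obtain ⟨n1, n2⟩ := hN φ 0 ρ hφ hρ
    obtain ⟨e1, e2⟩ := (hPJ s hs1).2 φ hφ
    have nu : ∀ {A : Set (S × ℝ)} {h : S × ℝ → ℝ}, Nice A h → Nice univ h := by
      rintro A h ⟨g, a, b, c, _⟩
      exact ⟨g, a, b, c, subset_univ _⟩
    rcases hw with hw | hw
    · rw [hw, ← e1]
      exact Submodule.le_topologicalClosure _ (Submodule.subset_span ⟨_, nu n1, rfl⟩)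
    · rw [hw, ← e2]
      exact Submodule.le_topologicalClosure _ (Submodule.subset_span ⟨_, nu n2, rfl⟩)

end Pool.Agent.QWP
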