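import Pool.Agent.QWP.StG
import Pool.Agent.QWP.DnsP

/-!
# QWP/Dns2: density of the second order test states
-/

set_option autoImplicit false

open MeasureTheory Filter Topology Set
open scoped ENNReal NNReal RealInnerProductSpace FourierTransform SchwartzMap ContDiff

namespace Pool.Agent.QWP

open Pool.Agent.QWE (E S sg mu K toK tau sh dl rev gr ig IsTest pd lap Rad dRad Rk dRk c0 WD Sm SmE IsSch half shr WTo)
open Pool.Agent.QWE.Isox (sch_pd sch_lap exists_cx)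
open Pool.Agent.QWE.Densx (sch_smE test_sch sch_int sch_lin test_lin test_pd test_lap lap_lin UB UB_mul
  UB_lap UB_bound chi UB_chi UB_sch cut chi_nonneg chi_le_one chi_one cut_test cut_le UB_cut cut_ev lap_ev)
open DnsPx

namespace Dns2x

theorem inv_lap3 (hF : St_Ft) (hI : St_FtI) {ψ : E → ℝ} (h : FS ψ) :
    ∃ g : E → ℝ, IsSch g ∧ ft (lap (lap (lap g))) = ft ψ := by
  obtain ⟨g1, h1, e1⟩ := inv_lap hF hI h
  obtain ⟨g2, h2, e2⟩ := inv_lap2 hF hI h1
  refine ⟨g2, h2, ?_⟩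
  rw [← e1]
  exact ft_lap_congr hF (sch_lap (sch_lap h2)) h1.1 e2

theorem hs_lap (hF : St_Ft) {φ : E → ℝ} (hφ : IsSch φ) {a : ℝ} (ha : 0 ≤ a) :
    hs a (lap φ) = hs (a + 2) φ := by
  unfold hs
  refine integral_congr_ae (Eventually.of_forall fun ξ => ?_)
  simp only
  rw [(hF.2 φ hφ).2.2.2.2.1 ξ, norm_mul, norm_neg, Complex.norm_real, Real.norm_eq_abs,
    abs_of_nonneg (by positivity : (0 : ℝ) ≤ (2 * Real.pi * ‖ξ‖) ^ 2)]
  have h1 : (2 * Real.pi * ‖ξ‖) ^ (2 * (a + 2)) =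
      (2 * Real.pi * ‖ξ‖) ^ (2 * a) * (2 * Real.pi * ‖ξ‖) ^ 4 := by
    rw [show 2 * (a + 2) = 2 * a + ((4 : ℕ) : ℝ) by push_cast; ring,
      Real.rpow_add_of_nonneg (by positivity) (by positivity) (by positivity), Real.rpow_natCast]
  rw [h1]
  ring

theorem hs5_eq (hF : St_Ft) {φ : E → ℝ} (hφ : IsSch φ) :
    hs 5 φ = - ∫ x, φ x * lap (lap (lap (lap (lap φ)))) x := by
  have h1 := sch_lap hφ
  have h2 := sch_lap h1
  have h3 := sch_lap h2
  have h4 := sch_lap h3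
  have h5 := sch_lap h4
  rw [(hF.2 φ hφ).2.2.1 _ h5]
  have e : ∀ ξ, ft φ ξ * (starRingEnd ℂ) (ft (lap (lap (lap (lap (lap φ))))) ξ) =
      ((-((2 * Real.pi * ‖ξ‖) ^ (2 * 5 : ℝ) * ‖ft φ ξ‖ ^ 2) : ℝ) : ℂ) := by
    intro ξ
    rw [(hF.2 _ h4).2.2.2.2.1 ξ, (hF.2 _ h3).2.2.2.2.1 ξ, (hF.2 _ h2).2.2.2.2.1 ξ,
      (hF.2 _ h1).2.2.2.2.1 ξ, (hF.2 _ hφ).2.2.2.2.1 ξ]
    simp only [map_mul, map_neg, Complex.conj_ofReal]
    have e1 : (2 * Real.pi * ‖ξ‖) ^ (2 * 5 : ℝ) = (2 * Real.pi * ‖ξ‖) ^ 10 := by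
      rw [← Real.rpow_natCast]
      norm_num
    have e2 : ft φ ξ * (starRingEnd ℂ) (ft φ ξ) = ((‖ft φ ξ‖ ^ 2 : ℝ) : ℂ) := by
      rw [Complex.mul_conj, Complex.normSq_eq_norm_sq]
    rw [e1]
    push_cast
    push_cast at e2
    linear_combination (-(2 * (Real.pi : ℂ) * (‖ξ‖ : ℂ)) ^ 10) * e2
  simp only [e]
  rw [integral_complex_ofReal, Complex.ofReal_re, integral_neg, neg_neg]
  rfl

theorem hs5_bd (hF : St_Ft) {f : E → ℝ} (hf : IsSch f) : ∃ B : ℝ, ∀ n, hs 5 (rem f n) ≤ B := by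
  obtain ⟨C, hC⟩ := UB_bound (UB_lap (UB_lap (UB_lap (UB_lap (UB_lap (rem_UB hf))))))
  refine ⟨∫ x, |f x| * C, fun n => ?_⟩
  rw [hs5_eq hF (rem_sch hf n)]
  refine (neg_le_abs _).trans ?_
  rw [← Real.norm_eq_abs]
  apply norm_integral_le_of_norm_le ((sch_int hf).abs.mul_const C)
  filter_upwards with x
  rw [norm_mul, Real.norm_eq_abs, Real.norm_eq_abs]
  exact mul_le_mul (rem_le f n x) (hC n x) (abs_nonneg _) (abs_nonneg _)

theorem hs_tend5 (hF : St_Ft) (hH : St_Hs) {f : E → ℝ} (hf : IsSch f) {a : ℝ} (ha : 0 ≤ a)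
    (ha5 : a < 5) : Tendsto (fun n => hs a (rem f n)) atTop (𝓝 0) := by
  obtain ⟨B, hB⟩ := hs5_bd hF hf
  have hexp : 0 < 1 - a / 5 := by
    have : a / 5 < 1 := by
      rw [div_lt_one (by norm_num)]
      exact ha5
    linarith
  have h1 : ∀ n, hs a (rem f n) ≤ hs 0 (rem f n) ^ (1 - a / 5) * B ^ (a / 5) := by
    intro n
    have h2 := hH.2.2.2.2.1 5 a (rem f n) (by norm_num) ha (by exact_mod_cast ha5.le) (rem_sch hf n)
    push_cast at h2
    refine h2.trans ?_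
    apply mul_le_mul_of_nonneg_left _ (Real.rpow_nonneg (hs_nonneg _ _) _)
    exact Real.rpow_le_rpow (hs_nonneg _ _) (hB n) (by positivity)
  have h3 : Tendsto (fun n => hs 0 (rem f n) ^ (1 - a / 5) * B ^ (a / 5)) atTop (𝓝 0) := by
    have h4 := (hs0_tend hH hf).rpow_const (p := 1 - a / 5) (Or.inr hexp.le)
    rw [Real.zero_rpow hexp.ne'] at h4
    have h5 := h4.mul_const (B ^ (a / 5))
    rwa [zero_mul] at h5
  exact tendsto_of_tendsto_of_tendsto_of_le_of_le tendsto_const_nhds h3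
    (fun n => hs_nonneg _ _) h1

section

variable (hF : St_Ft) (hI : St_FtI) (hD : St_Dns0) (hP : St_IsoP)

include hF hI hD hP

theorem Theta2_lin {s : ℝ} (hs1 : |s| < 1 / 2) {f g f' g' : E → ℝ} (hf : IsSch f) (hg : IsSch g)
    (hf' : IsSch f') (hg' : IsSch g') (c : ℝ) :
    Theta s (lap fun x => f x + c * f' x) (lap fun x => g x + c * g' x) =
      Theta s (lap f) (lap g) + c • Theta s (lap f') (lap g') := by
  rw [lap_lin hf hf', lap_lin hg hg',
    Theta_lin hF hI hD hP hs1 (sch_lap hf) (sch_lap hg) (sch_lap hf') (sch_lap hg')]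

theorem Theta2_tend (hH : St_Hs) {s : ℝ} (hs1 : |s| < 1 / 2) {f g : E → ℝ} (hf : IsSch f)
    (hg : IsSch g) :
    Tendsto (fun n => Theta s (lap (cut f n)) (lap (cut g n))) atTop
      (𝓝 (Theta s (lap f) (lap g))) := by
  have hab := abs_lt.1 hs1
  have h1 := hs_tend5 hF hH hf (a := 2 + s + 2) (by linarith [hab.1]) (by linarith [hab.2])
  have h2 := hs_tend5 hF hH hg (a := 1 + s + 2) (by linarith [hab.1]) (by linarith [hab.2])
  have h3 := (h1.add h2).const_mul c0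
  rw [add_zero, mul_zero] at h3
  apply norm_tend one_pos _ h3
  intro n
  have e : Theta s (lap f) (lap g) - Theta s (lap (cut f n)) (lap (cut g n)) =
      Theta s (lap (rem f n)) (lap (rem g n)) := by
    rw [show rem f n = fun x => f x + (-1) * cut f n x from rfl,
      show rem g n = fun x => g x + (-1) * cut g n x from rfl,
      Theta2_lin hF hI hD hP hs1 hf hg (test_sch (cut_test hf n)) (test_sch (cut_test hg n)),
      neg_one_smul, sub_eq_add_neg]
  rw [e, one_mul, (hP s _ _ hs1 (sch_lap (rem_sch hf n)) (sch_lap (rem_sch hg n))).2.2.2.2.2.2.1,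
    hs_lap hF (rem_sch hf n) (by linarith [hab.1]), hs_lap hF (rem_sch hg n) (by linarith [hab.1])]

/-- The submodule of test states of second order. -/
noncomputable def tst2 {s : ℝ} (hs1 : |s| < 1 / 2) : Submodule ℝ K where
  carrier := {k | ∃ f g : E → ℝ, IsTest f ∧ IsTest g ∧ k = Theta s (lap f) (lap g)}
  add_mem' := by
    rintro _ _ ⟨f, g, hf, hg, rfl⟩ ⟨f', g', hf', hg', rfl⟩
    refine ⟨fun x => f x + 1 * f' x, fun x => g x + 1 * g' x, test_lin hf hf' 1, test_lin hg hg' 1, ?_⟩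
    rw [Theta2_lin hF hI hD hP hs1 (test_sch hf) (test_sch hg) (test_sch hf') (test_sch hg'), one_smul]
  zero_mem' := by
    have h0 : IsTest (fun _ : E => (0 : ℝ)) := ⟨contDiff_const, HasCompactSupport.zero⟩
    refine ⟨fun _ => 0, fun _ => 0, h0, h0, ?_⟩
    have h1 := Theta2_lin hF hI hD hP hs1 (test_sch h0) (test_sch h0) (test_sch h0) (test_sch h0) (-1)
    have e : (fun _ : E => (0 : ℝ) + (-1) * 0) = fun _ => 0 := by
      funext x
      ring
    rw [e, neg_one_smul, add_neg_cancel] at h1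
    exact h1.symm
  smul_mem' := by
    rintro c _ ⟨f, g, hf, hg, rfl⟩
    have h0 : IsTest (fun _ : E => (0 : ℝ)) := ⟨contDiff_const, HasCompactSupport.zero⟩
    refine ⟨fun x => 0 + c * f x, fun x => 0 + c * g x, test_lin h0 hf c, test_lin h0 hg c, ?_⟩
    have h1 := Theta2_lin hF hI hD hP hs1 (test_sch h0) (test_sch h0) (test_sch h0) (test_sch h0) (-1)
    have e : (fun _ : E => (0 : ℝ) + (-1) * 0) = fun _ => 0 := by
      funext x
      ring
    rw [e, neg_one_smul, add_neg_cancel] at h1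
    rw [Theta2_lin hF hI hD hP hs1 (test_sch h0) (test_sch h0) (test_sch hf) (test_sch hg), h1,
      zero_add]

theorem tst2_top (hH : St_Hs) {s : ℝ} (hs1 : |s| < 1 / 2) :
    (tst2 hF hI hD hP hs1).topologicalClosure = ⊤ := by
  have hcl : IsClosed ((tst2 hF hI hD hP hs1).topologicalClosure : Set K) :=
    Submodule.isClosed_topologicalClosure _
  have hs2 : |-s| < 1 / 2 := by rwa [abs_neg]
  have h0 : IsTest (fun _ : E => (0 : ℝ)) := ⟨contDiff_const, HasCompactSupport.zero⟩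
  have hm : ∀ f g, IsSch f → IsSch g →
      Theta s (lap f) (lap g) ∈ (tst2 hF hI hD hP hs1).topologicalClosure := by
    intro f g hf hg
    refine hcl.mem_of_tendsto (Theta2_tend hF hI hD hP hH hs1 hf hg) (Eventually.of_forall fun n => ?_)
    exact Submodule.le_topologicalClosure _ ⟨_, _, cut_test hf n, cut_test hg n, rfl⟩
  have hl0 : lap (fun _ : E => (0 : ℝ)) = fun _ => 0 := by
    have h1 := lap_lin (test_sch h0) (test_sch h0) (-1)
    have e : (fun _ : E => (0 : ℝ) + (-1) * 0) = fun _ => 0 := by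
      funext x
      ring
    rw [e] at h1
    rw [h1]
    funext x
    ring
  have hz := Rs_lin hF hI hD hP hs2 (test_sch h0) (test_sch h0) (-1)
  have e : (fun _ : E => (0 : ℝ) + (-1) * 0) = fun _ => 0 := by
    funext x
    ring
  rw [e, neg_one_smul, neg_one_smul, add_neg_cancel, add_neg_cancel] at hz
  have hc := c0_pos.ne'
  apply top_of hD hs2 _ hcl
  · intro ψ hψ
    obtain ⟨g, hg, e⟩ := inv_lap3 hF hI hψ
    have h2 := hm g (fun _ => 0) hg (test_sch h0)
    have h3 : Theta s (lap g) (lap fun _ => 0) = c0 • Rs (-s) ψ := by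
      unfold Theta
      rw [hl0, hl0, hz.2, sub_zero, Rs_congr e]
    rw [h3] at h2
    have h4 := Submodule.smul_mem _ c0⁻¹ h2
    rwa [smul_smul, inv_mul_cancel₀ hc, one_smul] at h4
  · intro ψ hψ
    obtain ⟨g, hg, e⟩ := inv_lap2 hF hI hψ
    have h2 := hm (fun _ => 0) g (test_sch h0) hg
    have h3 : Theta s (lap fun _ => 0) (lap g) = (-c0) • dRs (-s) ψ := by
      unfold Theta
      rw [hl0, hl0, hl0, hz.1, zero_sub, dRs_congr e, smul_neg, neg_smul]
    rw [h3] at h2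
    have h4 := Submodule.smul_mem _ (-c0)⁻¹ h2
    rwa [smul_smul, inv_mul_cancel₀ (neg_ne_zero.2 hc), one_smul] at h4

end

end Dns2x

open Dns2x in
theorem thm_Dns2 (hF : St_Ft) (hI : St_FtI) (hP : St_IsoP) (hH : St_Hs) (hD : St_Dns0) :
    St_Dns2 := by
  intro s hs1 k ε hε
  have h1 : k ∈ (tst2 hF hI hD hP hs1).topologicalClosure := by
    rw [tst2_top hF hI hD hP hH hs1]
    trivial
  rw [← SetLike.mem_coe, Submodule.topologicalClosure_coe, Metric.mem_closure_iff] at h1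
  obtain ⟨w, ⟨f, g, hf, hg, hw⟩, hd⟩ := h1 ε hε
  refine ⟨f, g, hf, hg, ?_⟩
  rw [hw, dist_eq_norm] at hd
  exact hd

end Pool.Agent.QWP
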