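import Pool.Agent.QWL.Defs
import Pool.Agent.QWP.StF
import Pool.Agent.QWP.Br3
import Pool.Agent.QWP.Ft

set_option autoImplicit false

/-!
# QWP, Duh: the final theorem with the Duhamel formula and `S(t)` written literally

`IsSolnD`, `IsMaxSolnD`, `ScatD`: solutions by the Duhamel formula (`IsSolnD_iff`: the same class as `IsSoln`).
`thm_FinalD`: `St_LA` implies `FinalD b` for all `b > 2`; `thm_Final5`: `QWL.Final 5 p` for all `p > 3`.
-/

open MeasureTheory Filter Topology Set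
open scoped ENNReal NNReal RealInnerProductSpace FourierTransform SchwartzMap ContDiff

namespace Pool.Agent.QWP

open Pool.Agent.QWE (E S sg mu K toK tau sh dl rev gr ig IsTest pd lap Rad dRad Rk dRk c0 WD Sm SmE IsSch half shr WTo)
open Pool.Agent.QWL (cosP sinP dcosP mult)

/-- `u` is a strong solution on `I` (with `v = u_t`), by the Duhamel formula. -/
def IsSolnD (b : ℝ) (I : Set ℝ) (u v : ℝ → E → ℝ) : Prop :=
  I.OrdConnected ∧ (∀ t ∈ I, HN b (u t) (v t) < ⊤) ∧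
  (∀ t ∈ I, Tendsto (fun s => HN b (fun x => u s x - u t x) (fun x => v s x - v t x)) (𝓝[I] t) (𝓝 0)) ∧
  (∀ s ∈ I, ∀ t ∈ I, ∫⁻ r in Icc s t, eLpNorm (u r) (ENNReal.ofReal (5 * b)) volume ^ b < ⊤) ∧
  (∀ φ, IsTest φ → ∀ s ∈ I, ∀ t ∈ I,
    (∫ x, u t x * φ x) - (∫ x, u s x * φ x) = ∫ r in s..t, ∫ x, v r x * φ x) ∧
  ∀ φ, IsTest φ → ∀ s ∈ I, ∀ t ∈ I,
    ∫ x, u t x * φ x = (∫ x, u s x * cosP (t - s) φ x) + (∫ x, v s x * sinP (t - s) φ x) -
      ∫ r in s..t, ∫ x, |u r x| ^ b * u r x * sinP (t - r) φ x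

/-- Maximal lifespan. -/
def IsMaxSolnD (b : ℝ) (I : Set ℝ) (u v : ℝ → E → ℝ) : Prop :=
  IsSolnD b I u v ∧ I.Nonempty ∧ ∀ (J : Set ℝ) (u' v' : ℝ → E → ℝ), IsSolnD b J u' v' → I ⊆ J →
    (∀ t ∈ I, u' t =ᵐ[volume] u t ∧ v' t =ᵐ[volume] v t) → J ⊆ I

/-- `w = S(t)(f,g)`, `z = ∂_t S(t)(f,g)`. -/
def IsS (t : ℝ) (f g w z : E → ℝ) : Prop := ∀ φ : E → ℝ, IsTest φ →
  ∫ x, w x * φ x = (∫ x, f x * cosP t φ x) + ∫ x, g x * sinP t φ x ∧
  ∫ x, z x * φ x = (∫ x, f x * dcosP t φ x) + ∫ x, g x * cosP t φ x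

/-- Scattering along the filter `l`. -/
def ScatD (b : ℝ) (u v : ℝ → E → ℝ) (l : Filter ℝ) : Prop :=
  ∃ f g : E → ℝ, HN b f g < ⊤ ∧ ∃ w z : ℝ → E → ℝ,
    (∀ t, HN b (w t) (z t) < ⊤ ∧ IsS t f g (w t) (z t)) ∧
    Tendsto (fun t => HN b (fun x => u t x - w t x) (fun x => v t x - z t x)) l (𝓝 0)

/-- The final statement for the exponent `b = p - 1`. -/
def FinalD (b : ℝ) : Prop := ∀ (I : Set ℝ) (u v : ℝ → E → ℝ), IsMaxSolnD b I u v →
  (∃ A : ℝ≥0, ∀ t ∈ I, HN b (u t) (v t) ≤ A) →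
  I = univ ∧ ScatD b u v atTop ∧ ScatD b u v atBot

namespace Duhx

open Parx Br3x

/-! ### The propagators on test functions -/

private lemma inv_ft {φ : E → ℝ} (h : IsSch φ) (x : E) : (φ x : ℂ) =
    ∫ η, ft φ η * Complex.exp (2 * Real.pi * Complex.I * ((inner ℝ x η : ℝ) : ℂ)) := by
  obtain ⟨f, hf⟩ := Pool.Agent.QWE.Isox.exists_cx h
  have h1 : ft φ = (𝓕 f : 𝓢(E, ℂ)) := funext fun ξ => Ftx.ft_eq hf ξ
  have h2 : 𝓕⁻ (𝓕 f) = f := FourierTransform.fourierInv_fourier_eq f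
  have h3 : f x = (𝓕⁻ (𝓕 f) : 𝓢(E, ℂ)) x := by rw [h2]
  rw [← hf x, h3, SchwartzMap.fourierInv_coe, Real.fourierInv_eq', h1]
  refine integral_congr_ae (Eventually.of_forall fun η => ?_)
  simp only [smul_eq_mul]
  rw [mul_comm, real_inner_comm]
  congr 2
  push_cast
  ring

private lemma eq_mult {f φ : E → ℝ} (hf : IsSch f) (m : E → ℝ)
    (h : ∀ ξ, ξ ≠ 0 → ft f ξ = (m ξ : ℂ) * ft φ ξ) : mult m φ = f := by
  funext x
  have h1 := congrArg Complex.re (inv_ft hf x)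
  rw [Complex.ofReal_re] at h1
  rw [h1, mult]
  congr 1
  refine integral_congr_ae ?_
  have hne : ∀ᵐ ξ : E, ξ ≠ 0 := by
    rw [ae_iff]
    simp
  filter_upwards [hne] with ξ hξ
  rw [h ξ hξ]
  rfl

private lemma ident (hFt : St_Ft) {φ f1 f2 : E → ℝ} (hφ : IsSch φ)
    (h1 : IsSch f1) (h2 : IsSch f2) {t : ℝ} (h : tau t (Rs 0 φ) = Rs 0 f1 + dRs 0 f2) (w : S) (r : ℝ) :
    ft φ (r • (w : E)) * Complex.exp (-2 * Real.pi * Complex.I * ((r * t : ℝ) : ℂ)) =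
      ft f1 (r • (w : E)) + 2 * Real.pi * Complex.I * (r : ℂ) * ft f2 (r • (w : E)) := by
  have h0 : |(0 : ℝ)| < 1 / 2 := by norm_num
  obtain ⟨a, ha⟩ := am_good hFt h0 hφ
  obtain ⟨a1, ha1⟩ := am_good hFt h0 h1
  obtain ⟨a2, ha2⟩ := dam_good hFt h0 h2
  have g1 := good_lin ha1 ha2 1
  have g2 := good_lin (ha.tr t) g1 (-1)
  have e1 : toK (RF (fun z => am 0 φ z *
      Complex.exp (-2 * Real.pi * Complex.I * ((z.2 * t : ℝ) : ℂ)) +
      ((-1 : ℝ) : ℂ) * (am 0 f1 z + ((1 : ℝ) : ℂ) * dam 0 f2 z))) = 0 := by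
    rw [toK_RF_lin (ha.tr t) g1 (-1), toK_RF_lin ha1 ha2 1, ← tau_toK ha t]
    have e2 : tau t (toK (RF (am 0 φ))) = toK (RF (am 0 f1)) + toK (RF (dam 0 f2)) := h
    rw [e2]
    module
  have e3 := norm_sq g2
  rw [e1, norm_zero] at e3
  have hmeas : Measurable fun z => am 0 φ z *
      Complex.exp (-2 * Real.pi * Complex.I * ((z.2 * t : ℝ) : ℂ)) +
      ((-1 : ℝ) : ℂ) * (am 0 f1 z + ((1 : ℝ) : ℂ) * dam 0 f2 z) := g2.meas
  have hint : Integrable (fun z : S × ℝ => ‖am 0 φ z *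
      Complex.exp (-2 * Real.pi * Complex.I * ((z.2 * t : ℝ) : ℂ)) +
      ((-1 : ℝ) : ℂ) * (am 0 f1 z + ((1 : ℝ) : ℂ) * dam 0 f2 z)‖ ^ 2) mu := by
    have := (g2.int_mul g2).norm
    refine this.congr (Eventually.of_forall fun z => ?_)
    simp only
    rw [norm_mul, RCLike.norm_conj, sq]
  have e4 : (fun z : S × ℝ => ‖am 0 φ z *
      Complex.exp (-2 * Real.pi * Complex.I * ((z.2 * t : ℝ) : ℂ)) +
      ((-1 : ℝ) : ℂ) * (am 0 f1 z + ((1 : ℝ) : ℂ) * dam 0 f2 z)‖ ^ 2) =ᵐ[mu] 0 := by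
    refine (integral_eq_zero_iff_of_nonneg (fun z => by positivity) hint).1 ?_
    rw [← e3]
    norm_num
  have hc : ∀ ψ : E → ℝ, IsSch ψ → Continuous fun z : S × ℝ => ft ψ (z.2 • (z.1 : E)) := fun ψ hψ =>
    (hFt.2 ψ hψ).1.comp (by fun_prop)
  have am0 : ∀ (ψ : E → ℝ) (z : S × ℝ), am 0 ψ z = ft ψ (z.2 • (z.1 : E)) := fun ψ z => by
    unfold am
    simp
  have dam0 : ∀ (ψ : E → ℝ) (z : S × ℝ), dam 0 ψ z =
      2 * Real.pi * Complex.I * (z.2 : ℂ) * ft ψ (z.2 • (z.1 : E)) := fun ψ z => by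
    unfold dam
    simp
  have hcont : Continuous fun z : S × ℝ => ft φ (z.2 • (z.1 : E)) *
      Complex.exp (-2 * Real.pi * Complex.I * ((z.2 * t : ℝ) : ℂ)) -
      (ft f1 (z.2 • (z.1 : E)) + 2 * Real.pi * Complex.I * (z.2 : ℂ) * ft f2 (z.2 • (z.1 : E))) := by
    have c1 := hc φ hφ
    have c2 := hc f1 h1
    have c3 := hc f2 h2
    refine (c1.mul (by fun_prop)).sub (c2.add (Continuous.mul (by fun_prop) c3))
  have e5 : (fun z : S × ℝ => ft φ (z.2 • (z.1 : E)) *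
      Complex.exp (-2 * Real.pi * Complex.I * ((z.2 * t : ℝ) : ℂ)) -
      (ft f1 (z.2 • (z.1 : E)) + 2 * Real.pi * Complex.I * (z.2 : ℂ) * ft f2 (z.2 • (z.1 : E)))) =ᵐ[mu]
      fun _ => 0 := by
    filter_upwards [e4] with z hz
    have h3 : am 0 φ z * Complex.exp (-2 * Real.pi * Complex.I * ((z.2 * t : ℝ) : ℂ)) +
      ((-1 : ℝ) : ℂ) * (am 0 f1 z + ((1 : ℝ) : ℂ) * dam 0 f2 z) = 0 := by
      have h4 : ‖am 0 φ z * Complex.exp (-2 * Real.pi * Complex.I * ((z.2 * t : ℝ) : ℂ)) +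
        ((-1 : ℝ) : ℂ) * (am 0 f1 z + ((1 : ℝ) : ℂ) * dam 0 f2 z)‖ ^ 2 = 0 := hz
      rwa [sq_eq_zero_iff, norm_eq_zero] at h4
    rw [am0, am0, dam0] at h3
    rw [← h3]
    push_cast
    ring
  have e6 := (hcont.ae_eq_iff_eq mu continuous_const).1 e5
  have e7 := congrFun e6 (w, r)
  simp only at e7
  exact sub_eq_zero.1 e7

private lemma lap_test {φ : E → ℝ} (h : IsTest φ) : IsTest (lap φ) := Br3x.test_lap h

/-- **The propagators**: `cosP t φ`, `sinP t φ` are test functions, and they describe the adjoint flow of the test states. -/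
theorem prop_eq (hFt : St_Ft) (hFreX : St_FreX) {φ : E → ℝ} (hφ : IsTest φ)
    (t : ℝ) : IsTest (cosP t φ) ∧ IsTest (sinP t φ) ∧ IsTest (dcosP t φ) ∧ ∀ s : ℝ, |s| < 1 / 2 →
      tau (-t) (Rs s φ) = Rs s (cosP t φ) + dRs s (sinP t φ) ∧
      tau (-t) (dRs s φ) = Rs s (dcosP t φ) + dRs s (cosP t φ) := by
  obtain ⟨f1, f2, h1, h2, -, -, -, h3⟩ := hFreX φ (-t) hφ
  have s0 := hFt.1 φ hφ
  have s1 := hFt.1 f1 h1
  have s2 := hFt.1 f2 h2
  have s3 := hFt.1 _ (lap_test h2)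
  have hid := ident hFt s0 s1 s2 (h3 0 (by norm_num)).1
  -- the two identities at a point
  have key : ∀ ξ : E, ξ ≠ 0 →
      ft φ ξ * Complex.exp (2 * Real.pi * Complex.I * ((‖ξ‖ * t : ℝ) : ℂ)) =
        ft f1 ξ + 2 * Real.pi * Complex.I * (‖ξ‖ : ℂ) * ft f2 ξ ∧
      ft φ ξ * Complex.exp (-(2 * Real.pi * Complex.I * ((‖ξ‖ * t : ℝ) : ℂ))) =
        ft f1 ξ - 2 * Real.pi * Complex.I * (‖ξ‖ : ℂ) * ft f2 ξ := by
    intro ξ hξ
    have hn : ‖ξ‖ ≠ 0 := norm_ne_zero_iff.2 hξ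
    have hw : ‖ξ‖⁻¹ • ξ ∈ Metric.sphere (0 : E) 1 := by
      rw [mem_sphere_zero_iff_norm, norm_smul, norm_inv, norm_norm, inv_mul_cancel₀ hn]
    obtain ⟨w, hwd⟩ : ∃ w : S, (w : E) = ‖ξ‖⁻¹ • ξ := ⟨⟨_, hw⟩, rfl⟩
    have e1 : ‖ξ‖ • (w : E) = ξ := by rw [hwd, smul_smul, mul_inv_cancel₀ hn, one_smul]
    have e2 : (-‖ξ‖) • ((-w : S) : E) = ξ := by
      have : ((-w : S) : E) = -(w : E) := rfl
      rw [this, smul_neg, neg_smul, neg_neg, e1]
    have k1 := hid w ‖ξ‖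
    have k2 := hid (-w) (-‖ξ‖)
    rw [e1] at k1
    rw [e2] at k2
    constructor
    · rw [← k1]
      congr 2
      push_cast
      ring
    · have k3 : ft f1 ξ - 2 * Real.pi * Complex.I * (‖ξ‖ : ℂ) * ft f2 ξ =
          ft f1 ξ + 2 * Real.pi * Complex.I * ((-‖ξ‖ : ℝ) : ℂ) * ft f2 ξ := by
        push_cast
        ring
      rw [k3, ← k2]
      congr 2
      push_cast
      ring
  have hcos : ∀ ξ : E, ((Real.cos (t * (2 * Real.pi * ‖ξ‖)) : ℝ) : ℂ) =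
      (Complex.exp (2 * Real.pi * Complex.I * ((‖ξ‖ * t : ℝ) : ℂ)) +
        Complex.exp (-(2 * Real.pi * Complex.I * ((‖ξ‖ * t : ℝ) : ℂ)))) / 2 := by
    intro ξ
    rw [Complex.ofReal_cos, Complex.cos]
    congr 2
    · congr 1
      push_cast
      ring
    · congr 1
      push_cast
      ring
  have hsin : ∀ ξ : E, ((Real.sin (t * (2 * Real.pi * ‖ξ‖)) : ℝ) : ℂ) =
      (Complex.exp (-(2 * Real.pi * Complex.I * ((‖ξ‖ * t : ℝ) : ℂ))) -
        Complex.exp (2 * Real.pi * Complex.I * ((‖ξ‖ * t : ℝ) : ℂ))) * Complex.I / 2 := by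
    intro ξ
    rw [Complex.ofReal_sin, Complex.sin]
    congr 3
    · congr 1
      push_cast
      ring
    · congr 1
      push_cast
      ring
  have hf1 : cosP t φ = f1 := by
    refine eq_mult s1 _ fun ξ hξ => ?_
    obtain ⟨k1, k2⟩ := key ξ hξ
    rw [hcos]
    linear_combination (-(1 : ℂ) / 2) * k1 - (1 / 2 : ℂ) * k2
  have hS : ∀ ξ : E, ξ ≠ 0 → ((2 * Real.pi * ‖ξ‖ : ℝ) : ℂ) * ft f2 ξ =
      ((Real.sin (t * (2 * Real.pi * ‖ξ‖)) : ℝ) : ℂ) * ft φ ξ := by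
    intro ξ hξ
    obtain ⟨k1, k2⟩ := key ξ hξ
    rw [hsin]
    push_cast at k1 k2 ⊢
    linear_combination ((Complex.I : ℂ) / 2) * k1 - (Complex.I / 2 : ℂ) * k2 +
      (2 * (Real.pi : ℂ) * (‖ξ‖ : ℂ) * ft f2 ξ) * Complex.I_sq
  have hf2 : sinP t φ = f2 := by
    refine eq_mult s2 _ fun ξ hξ => ?_
    have hn : ((2 * Real.pi * ‖ξ‖ : ℝ) : ℂ) ≠ 0 := by
      rw [Complex.ofReal_ne_zero]
      have := norm_pos_iff.2 hξ
      positivity
    have k := hS ξ hξ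
    rw [Complex.ofReal_div, div_mul_eq_mul_div, ← k, mul_div_cancel_left₀ _ hn]
  have hf3 : dcosP t φ = lap f2 := by
    refine eq_mult s3 _ fun ξ hξ => ?_
    have k := hS ξ hξ
    rw [(hFt.2 f2 s2).2.2.2.2.1 ξ]
    push_cast at k ⊢
    linear_combination (-(2 * (Real.pi : ℂ) * (‖ξ‖ : ℂ))) * k
  rw [hf1, hf2, hf3]
  exact ⟨h1, h2, lap_test h2, h3⟩
private lemma sn_fin (hMeas : St_Meas) {b : ℝ} (hb : 2 < b) {k : ℝ → K} {x y : ℝ} (hk : ContinuousOn k (Icc x y))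
    (hS : SN b (Icc x y) k < ⊤) : ∀ᵐ r ∂(volume.restrict (Icc x y)), sn b (k r) < ⊤ := by
  have hkm : AEStronglyMeasurable k (volume.restrict (Icc x y)) :=
    hk.aestronglyMeasurable measurableSet_Icc
  have h1 := (hMeas b hb k (Icc x y) measurableSet_Icc hkm).1
  have h2 : AEMeasurable (fun r => sn b (k r) ^ b) (volume.restrict (Icc x y)) := h1.pow_const b
  have h3 := ae_lt_top' h2 hS.ne
  filter_upwards [h3] with r hr
  by_contra h
  rw [not_lt, top_le_iff] at h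
  rw [h, ENNReal.top_rpow_of_pos (by linarith)] at hr
  exact lt_irrefl _ hr

private lemma NL_int (hMeas : St_Meas) (hNLb : St_NLb) {b : ℝ} (hb : 2 < b) {k : ℝ → K} {x y : ℝ}
    (hk : ContinuousOn k (Icc x y)) (hS : SN b (Icc x y) k < ⊤) :
    IntegrableOn (fun r => NL b (k r)) (Icc x y) volume := by
  have hkm : AEStronglyMeasurable k (volume.restrict (Icc x y)) :=
    hk.aestronglyMeasurable measurableSet_Icc
  have hfin := sn_fin hMeas hb hk hS
  have hm := (hMeas b hb k (Icc x y) measurableSet_Icc hkm).2.2 hfin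
  obtain ⟨⟨C, hC, hbd, -⟩, -⟩ := hNLb b hb
  obtain ⟨B, hB⟩ := isCompact_Icc.exists_bound_of_continuousOn hk
  refine ⟨hm, ?_⟩
  rw [hasFiniteIntegral_iff_enorm]
  calc ∫⁻ r in Icc x y, ‖NL b (k r)‖ₑ
      ≤ ∫⁻ r in Icc x y, (ENNReal.ofReal C * ENNReal.ofReal B) * sn b (k r) ^ b := by
        refine lintegral_mono_ae ((ae_restrict_iff' measurableSet_Icc).2
          (Eventually.of_forall fun r hr => ?_))
        refine (hbd (k r)).trans ?_
        have h1 : ‖k r‖ₑ ≤ ENNReal.ofReal B := by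
          rw [← ofReal_norm]
          exact ENNReal.ofReal_le_ofReal (hB r hr)
        calc ENNReal.ofReal C * sn b (k r) ^ b * ‖k r‖ₑ
            ≤ ENNReal.ofReal C * sn b (k r) ^ b * ENNReal.ofReal B := by gcongr
          _ = (ENNReal.ofReal C * ENNReal.ofReal B) * sn b (k r) ^ b := by ring
    _ = (ENNReal.ofReal C * ENNReal.ofReal B) * ∫⁻ r in Icc x y, sn b (k r) ^ b := by
        rw [lintegral_const_mul']
        exact ENNReal.mul_ne_top ENNReal.ofReal_ne_top ENNReal.ofReal_ne_top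
    _ < ⊤ := ENNReal.mul_lt_top (ENNReal.mul_lt_top ENNReal.ofReal_lt_top ENNReal.ofReal_lt_top) hS

private lemma NL_ii (hMeas : St_Meas) (hNLb : St_NLb) {b : ℝ} (hb : 2 < b) {I : Set ℝ} (hI : I.OrdConnected)
    {k : ℝ → K} (hk : ContinuousOn k I) (hS : ∀ x ∈ I, ∀ y ∈ I, SN b (Icc x y) k < ⊤) {x y : ℝ}
    (hx : x ∈ I) (hy : y ∈ I) : IntervalIntegrable (fun r => NL b (k r)) volume x y := by
  rcases le_total x y with h | h
  · rw [intervalIntegrable_iff_integrableOn_Icc_of_le h]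
    exact NL_int hMeas hNLb hb (hk.mono (hI.out hx hy)) (hS x hx y hy)
  · refine IntervalIntegrable.symm ?_
    rw [intervalIntegrable_iff_integrableOn_Icc_of_le h]
    exact NL_int hMeas hNLb hb (hk.mono (hI.out hy hx)) (hS y hy x hx)

private lemma sn_fin_uIoc (hMeas : St_Meas) {b : ℝ} (hb : 2 < b) {I : Set ℝ} (hI : I.OrdConnected)
    {k : ℝ → K} (hk : ContinuousOn k I) (hS : ∀ x ∈ I, ∀ y ∈ I, SN b (Icc x y) k < ⊤) {x y : ℝ}
    (hx : x ∈ I) (hy : y ∈ I) : ∀ᵐ r : ℝ, r ∈ uIoc x y → sn b (k r) < ⊤ := by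
  have hmin : min x y ∈ I := by rcases min_choice x y with h | h <;> rw [h] <;> assumption
  have hmax : max x y ∈ I := by rcases max_choice x y with h | h <;> rw [h] <;> assumption
  have h1 := sn_fin hMeas hb (hk.mono (hI.out hmin hmax)) (hS _ hmin _ hmax)
  rw [ae_restrict_iff' measurableSet_Icc] at h1
  filter_upwards [h1] with r hr h2
  exact hr (uIoc_subset_uIcc h2)


private lemma tau_joint (hGrp1 : Pool.Agent.QWE.St_Grp1) : Continuous fun q : ℝ × K => tau q.1 q.2 := by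
  rw [continuous_iff_continuousAt]
  rintro ⟨t0, k0⟩
  rw [ContinuousAt, tendsto_iff_norm_sub_tendsto_zero]
  have h1 : Tendsto (fun q : ℝ × K => ‖q.2 - k0‖ + ‖tau q.1 k0 - tau t0 k0‖) (𝓝 (t0, k0)) (𝓝 0) := by
    have hc : Continuous fun q : ℝ × K => ‖q.2 - k0‖ + ‖tau q.1 k0 - tau t0 k0‖ :=
      ((continuous_snd.sub continuous_const).norm).add
        ((((hGrp1.2.2.2.2.2.2.2.1 k0).comp continuous_fst).sub continuous_const).norm)
    simpa using hc.tendsto (t0, k0)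
  refine squeeze_zero (fun _ => norm_nonneg _) (fun q => ?_) h1
  have e1 : tau q.1 q.2 - tau t0 k0 = tau q.1 (q.2 - k0) + (tau q.1 k0 - tau t0 k0) := by
    rw [map_sub]; abel
  rw [e1]
  refine (norm_add_le _ _).trans ?_
  rw [LinearIsometry.norm_map]

private lemma duh_ii (hGrp1 : Pool.Agent.QWE.St_Grp1) {n : ℝ → K} {a b : ℝ} (hn : IntervalIntegrable n volume a b)
    (t : ℝ) : IntervalIntegrable (fun r => tau (t - r) (n r)) volume a b := by
  rw [intervalIntegrable_iff] at hn ⊢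
  refine hn.norm.mono' ?_ (Eventually.of_forall fun r => ?_)
  · have h1 : AEStronglyMeasurable (fun r : ℝ => (t - r, n r)) (volume.restrict (uIoc a b)) :=
      (Continuous.aestronglyMeasurable (by fun_prop)).prodMk hn.aestronglyMeasurable
    have h2 := Continuous.comp_aestronglyMeasurable (g := fun q : ℝ × K => tau q.1 q.2)
      (f := fun r : ℝ => (t - r, n r)) (tau_joint hGrp1) h1
    simpa only [Function.comp_def] using h2
  · rw [LinearIsometry.norm_map]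


private lemma eq_zero_of_test (hDnsP : St_DnsP) {s : ℝ} (hs : |s| < 1 / 2) {x : K}
    (h : ∀ φ, IsTest φ → inner ℝ x (Rs s φ) = 0 ∧ inner ℝ x (dRs s φ) = 0) : x = 0 := by
  have h1 : x ∈ (TS s univ)ᗮ := by
    unfold TS
    rw [Submodule.orthogonal_closure, Submodule.mem_orthogonal']
    intro w hw
    induction hw using Submodule.span_induction with
    | mem w hw =>
      obtain ⟨φ, hφ, -, hw⟩ := hw
      rcases hw with rfl | rfl
      · exact (h φ hφ).1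
      · exact (h φ hφ).2
    | zero => exact inner_zero_right _
    | add a b _ _ ha hb => rw [inner_add_right, ha, hb, add_zero]
    | smul c a _ ha => rw [inner_smul_right, ha, mul_zero]
  rw [(hDnsP s hs).1, Submodule.top_orthogonal_eq_bot, Submodule.mem_bot] at h1
  exact h1


/-! ### Representation in `K` -/

private lemma repr (hFldP : St_FldP) (hBr1 : St_Br1) {b : ℝ} (hb : 2 < b) {I : Set ℝ}
    {u v : ℝ → E → ℝ} (hI : I.OrdConnected) (hHN : ∀ t ∈ I, HN b (u t) (v t) < ⊤)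
    (hcont : ∀ t ∈ I, Tendsto (fun s => HN b (fun x => u s x - u t x) (fun x => v s x - v t x))
      (𝓝[I] t) (𝓝 0))
    (hL20 : ∀ s ∈ I, ∀ t ∈ I,
      ∫⁻ r in Icc s t, eLpNorm (u r) (ENNReal.ofReal (5 * b)) volume ^ b < ⊤) :
    ∃ k : ℝ → K, ContinuousOn k I ∧ (∀ x ∈ I, ∀ y ∈ I, SN b (Icc x y) k < ⊤) ∧
      ∀ t ∈ I, (U (sig b) (k t) =ᵐ[volume] u t) ∧ (V (sig b) (k t) =ᵐ[volume] v t) := by
  classical
  have hsb := sig_lt hb
  obtain ⟨c, C, hc, hC, hex, heq, -⟩ := hBr1 b hb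
  obtain ⟨C', -, -, hLin, -⟩ := hFldP (sig b) hsb
  have hch : ∀ t, ∃ κ : K, t ∈ I → (U (sig b) κ =ᵐ[volume] u t) ∧ (V (sig b) κ =ᵐ[volume] v t) := by
    intro t
    by_cases ht : t ∈ I
    · obtain ⟨κ, h1, h2⟩ := hex _ _ (hHN t ht)
      exact ⟨κ, fun _ => ⟨h1, h2⟩⟩
    · exact ⟨0, fun h => absurd h ht⟩
  choose k huv using hch
  have hk : ContinuousOn k I := by
    intro t ht
    have h1 := hcont t ht
    have h2 : ∀ s ∈ I, ENNReal.ofReal c * ‖k s - k t‖ₑ ≤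
        HN b (fun x => u s x - u t x) (fun x => v s x - v t x) := by
      intro s hs'
      refine (heq _ _ (k s - k t) ?_ ?_).2
      · have h3 := (hLin (-1) (k s) (k t)).1
        rw [neg_one_smul, ← sub_eq_add_neg] at h3
        filter_upwards [h3, (huv s hs').1, (huv t ht).1] with x x1 x2 x3
        rw [x1, x2, x3]; ring
      · have h3 := (hLin (-1) (k s) (k t)).2.1
        rw [neg_one_smul, ← sub_eq_add_neg] at h3
        filter_upwards [h3, (huv s hs').2, (huv t ht).2] with x x1 x2 x3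
        rw [x1, x2, x3]; ring
    have h3 : Tendsto (fun s => ‖k s - k t‖ₑ) (𝓝[I] t) (𝓝 0) := by
      have h4 : Tendsto (fun s => (ENNReal.ofReal c)⁻¹ *
          HN b (fun x => u s x - u t x) (fun x => v s x - v t x)) (𝓝[I] t) (𝓝 0) := by
        have := ENNReal.Tendsto.const_mul (a := (ENNReal.ofReal c)⁻¹) h1
          (Or.inr (ENNReal.inv_ne_top.2 (ENNReal.ofReal_pos.2 hc).ne'))
        simpa using this
      refine tendsto_of_tendsto_of_tendsto_of_le_of_le' tendsto_const_nhds h4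
        (Eventually.of_forall fun _ => bot_le) ?_
      filter_upwards [self_mem_nhdsWithin] with s hs'
      rw [← ENNReal.mul_le_mul_iff_right (ENNReal.ofReal_pos.2 hc).ne' ENNReal.ofReal_ne_top,
        ← mul_assoc, ENNReal.mul_inv_cancel (ENNReal.ofReal_pos.2 hc).ne' ENNReal.ofReal_ne_top,
        one_mul]
      exact h2 s hs'
    rw [ContinuousWithinAt, tendsto_iff_edist_tendsto_0]
    simpa [edist_eq_enorm_sub] using h3
  have hS : ∀ x ∈ I, ∀ y ∈ I, SN b (Icc x y) k < ⊤ := by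
    intro x ha y hb'
    have h1 : SN b (Icc x y) k = ∫⁻ t in Icc x y, eLpNorm (u t) (ENNReal.ofReal (5 * b)) volume ^ b := by
      unfold SN
      refine setLIntegral_congr_fun measurableSet_Icc fun t ht => ?_
      have := eLpNorm_congr_ae (p := ENNReal.ofReal (5 * b)) (huv t (hI.out ha hb' ht)).1
      simp only [sn, this]
    rw [h1]
    exact hL20 x ha y hb'
  exact ⟨k, hk, hS, fun t ht => huv t ht⟩

/-! ### Pairings -/

private lemma flow_pair (hG : Pool.Agent.QWE.St_Grp1) (hFt : St_Ft) (hFreX : St_FreX) {s : ℝ}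
    (hs : |s| < 1 / 2) (κ : K) {φ : E → ℝ} (hφ : IsTest φ) (h : ℝ) :
    inner ℝ (tau h κ) (Rs s φ) = inner ℝ κ (Rs s (cosP h φ)) + inner ℝ κ (dRs s (sinP h φ)) ∧
    inner ℝ (tau h κ) (dRs s φ) = inner ℝ κ (Rs s (dcosP h φ)) + inner ℝ κ (dRs s (cosP h φ)) := by
  obtain ⟨-, -, -, hp⟩ := prop_eq hFt hFreX hφ h
  obtain ⟨p1, p2⟩ := hp s hs
  have hadj : ∀ (τ : ℝ) (x y : K), inner ℝ (tau τ x) y = inner ℝ x (tau (-τ) y) :=
    hG.2.2.2.2.2.1
  rw [hadj, hadj, p1, p2, inner_add_right, inner_add_right]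
  exact ⟨rfl, rfl⟩

private lemma pairF (hFldP : St_FldP) {s : ℝ} (hs : |s| < 1 / 2) {κ : K} {f g : E → ℝ}
    (h1 : U s κ =ᵐ[volume] f) (h2 : V s κ =ᵐ[volume] g) {φ : E → ℝ} (hφ : IsTest φ) :
    ∫ x, f x * φ x = inner ℝ κ (Rs s φ) ∧ ∫ x, g x * φ x = inner ℝ κ (dRs s φ) := by
  obtain ⟨C, -, hF, -⟩ := hFldP s hs
  rw [← (hF κ).1.2 φ hφ, ← (hF κ).2.2.1.2 φ hφ]
  constructor
  · refine integral_congr_ae ?_
    filter_upwards [h1] with x hx
    rw [hx]
  · refine integral_congr_ae ?_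
    filter_upwards [h2] with x hx
    rw [hx]

private lemma duh_pair (hG : Pool.Agent.QWE.St_Grp1) (hFt : St_Ft) (hFreX : St_FreX)
    (hMeas : St_Meas) (hNLb : St_NLb) {b : ℝ} (hb : 2 < b) {I : Set ℝ} (hI : I.OrdConnected)
    {u : ℝ → E → ℝ} {k : ℝ → K} (hk : ContinuousOn k I)
    (hS : ∀ x ∈ I, ∀ y ∈ I, SN b (Icc x y) k < ⊤)
    (hu : ∀ t ∈ I, U (sig b) (k t) =ᵐ[volume] u t) {φ : E → ℝ} (hφ : IsTest φ)
    {s t : ℝ} (hs' : s ∈ I) (ht : t ∈ I) :
    inner ℝ (∫ r in s..t, tau (t - r) (NL b (k r))) (Rs (sig b) φ) =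
      ∫ r in s..t, ∫ x, |u r x| ^ b * u r x * sinP (t - r) φ x := by
  have hsb := sig_lt hb
  have hii := duh_ii hG (NL_ii hMeas hNLb hb hI hk hS hs' ht) t
  have h1 := (innerSL ℝ (Rs (sig b) φ)).intervalIntegral_comp_comm hii
  rw [real_inner_comm]
  have h2 : innerSL ℝ (Rs (sig b) φ) (∫ r in s..t, tau (t - r) (NL b (k r))) =
      inner ℝ (Rs (sig b) φ) (∫ r in s..t, tau (t - r) (NL b (k r))) := rfl
  rw [← h2, ← h1]
  refine intervalIntegral.integral_congr_ae ?_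
  filter_upwards [sn_fin_uIoc hMeas hb hI hk hS hs' ht] with r hr hr'
  have hrI : r ∈ I := hI.uIcc_subset hs' ht (uIoc_subset_uIcc hr')
  obtain ⟨q1, q2, -⟩ := prop_eq hFt hFreX hφ (t - r)
  change inner ℝ (Rs (sig b) φ) (tau (t - r) (NL b (k r))) = _
  rw [real_inner_comm, (flow_pair hG hFt hFreX hsb (NL b (k r)) hφ (t - r)).1]
  obtain ⟨-, hGm, -⟩ := (hNLb b hb).2 (k r) (hr hr')
  rw [(hGm _ q1).1, (hGm _ q2).2, zero_add]
  refine integral_congr_ae ?_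
  filter_upwards [hu r hrI] with x hx
  rw [Fn, hx]

/-! ### The two formulations agree -/

private lemma to_D (hG : Pool.Agent.QWE.St_Grp1) (hFt : St_Ft) (hFreX : St_FreX) (hFldP : St_FldP)
    (hMeas : St_Meas) (hNLb : St_NLb) (hBr2 : St_Br2) {b : ℝ} (hb : 2 < b) {I : Set ℝ}
    {u v : ℝ → E → ℝ} (h : IsSoln b I u v) : IsSolnD b I u v := by
  have hsb := sig_lt hb
  obtain ⟨k, hk, huv⟩ := hBr2 b hb I u v h
  obtain ⟨hI, h1, h2, h3, h4⟩ := h
  refine ⟨hI, h1, h2, h3, fun φ hφ s hs t ht => (h4 φ hφ s hs t ht).1, fun φ hφ s hs t ht => ?_⟩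
  obtain ⟨q1, q2, -⟩ := prop_eq hFt hFreX hφ (t - s)
  rw [(pairF hFldP hsb (huv t ht).1 (huv t ht).2 hφ).1,
    (pairF hFldP hsb (huv s hs).1 (huv s hs).2 q1).1,
    (pairF hFldP hsb (huv s hs).1 (huv s hs).2 q2).2,
    ← (flow_pair hG hFt hFreX hsb (k s) hφ (t - s)).1,
    ← duh_pair hG hFt hFreX hMeas hNLb hb hI hk.2.1 hk.2.2.1 (fun t ht => (huv t ht).1) hφ hs ht,
    ← inner_sub_left, ← hk.2.2.2 s hs t ht]

private lemma of_D (hG : Pool.Agent.QWE.St_Grp1) (hFt : St_Ft) (hFreX : St_FreX) (hFldP : St_FldP)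
    (hMeas : St_Meas) (hNLb : St_NLb) (hDnsP : St_DnsP) (hBr1 : St_Br1) (hBr3 : St_Br3) {b : ℝ}
    (hb : 2 < b) {I : Set ℝ} {u v : ℝ → E → ℝ} (h : IsSolnD b I u v) : IsSoln b I u v := by
  have hsb := sig_lt hb
  obtain ⟨hI, h1, h2, h3, h4, h5⟩ := h
  obtain ⟨k, hk, hS, huv⟩ := repr hFldP hBr1 hb hI h1 h2 h3
  have hn : ∀ {x y : ℝ}, x ∈ I → y ∈ I → IntervalIntegrable (fun r => NL b (k r)) volume x y :=
    fun hx hy => NL_ii hMeas hNLb hb hI hk hS hx hy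
  obtain ⟨kx, hkx⟩ : ∃ kx : ℝ → ℝ → K, ∀ x t, kx x t =
      tau (t - x) (k x) - ∫ r in x..t, tau (t - r) (NL b (k r)) := ⟨_, fun _ _ => rfl⟩
  -- orthogonality to the first kind of test states
  have hor : ∀ x ∈ I, ∀ t ∈ I, ∀ φ, IsTest φ → inner ℝ (k t - kx x t) (Rs (sig b) φ) = 0 := by
    intro x hx t ht φ hφ
    obtain ⟨q1, q2, -⟩ := prop_eq hFt hFreX hφ (t - x)
    have e := h5 φ hφ x hx t ht
    rw [(pairF hFldP hsb (huv t ht).1 (huv t ht).2 hφ).1,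
      (pairF hFldP hsb (huv x hx).1 (huv x hx).2 q1).1,
      (pairF hFldP hsb (huv x hx).1 (huv x hx).2 q2).2,
      ← (flow_pair hG hFt hFreX hsb (k x) hφ (t - x)).1,
      ← duh_pair hG hFt hFreX hMeas hNLb hb hI hk hS (fun t ht => (huv t ht).1) hφ hx ht,
      ← inner_sub_left, ← hkx] at e
    rw [inner_sub_left, e, sub_self]
  -- change of the base point
  have hcoc : ∀ x ∈ I, ∀ y ∈ I, ∀ t ∈ I, kx y t - kx x t = tau (t - y) (k y - kx x y) := by
    intro x hx y hy t ht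
    have i1 := duh_ii hG (hn hx hy) t
    have i2 := duh_ii hG (hn hy ht) t
    have e1 := intervalIntegral.integral_add_adjacent_intervals i1 i2
    have e2 := (tau (t - y)).toContinuousLinearMap.intervalIntegral_comp_comm
      (duh_ii hG (hn hx hy) y)
    have e3 : ∫ r in x..y, (tau (t - y)).toContinuousLinearMap (tau (y - r) (NL b (k r))) =
        ∫ r in x..y, tau (t - r) (NL b (k r)) := by
      refine intervalIntegral.integral_congr fun r _ => ?_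
      change tau (t - y) (tau (y - r) (NL b (k r))) = tau (t - r) (NL b (k r))
      rw [hG.1]
      congr 2
      ring
    rw [e3] at e2
    have e4 : tau (t - y) (∫ r in x..y, tau (y - r) (NL b (k r))) =
        ∫ r in x..y, tau (t - r) (NL b (k r)) := e2.symm
    have e5 : tau (t - y) (tau (y - x) (k x)) = tau (t - x) (k x) := by
      rw [hG.1]
      congr 2
      ring
    rw [hkx y t, hkx x t, hkx x y, map_sub, map_sub, e4, e5, ← e1]
    abel
  -- the difference vanishes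
  have hz : ∀ x ∈ I, ∀ y ∈ I, k y = kx x y := by
    intro x hx y hy
    rw [← sub_eq_zero]
    rcases eq_or_ne x y with rfl | hxy
    · rw [hkx, sub_self, hG.2.1, intervalIntegral.integral_same, sub_zero, sub_self]
    · refine eq_zero_of_test hDnsP hsb fun φ hφ => ⟨hor x hx y hy φ hφ, ?_⟩
      have hzero : ∀ θ ∈ Icc (0 : ℝ) 1,
          inner ℝ (tau (θ * (x - y)) (k y - kx x y)) (Rs (sig b) φ) = 0 := by
        intro θ hθ
        have ht : y + θ * (x - y) ∈ I := by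
          refine hI.uIcc_subset hy hx ?_
          rw [mem_uIcc]
          rcases le_total y x with h | h
          · left
            constructor <;> nlinarith [hθ.1, hθ.2]
          · right
            constructor <;> nlinarith [hθ.1, hθ.2]
        have e1 := hcoc x hx y hy _ ht
        have e2 : y + θ * (x - y) - y = θ * (x - y) := by ring
        rw [e2] at e1
        rw [← e1]
        have e3 := hor x hx _ ht φ hφ
        have e4 := hor y hy _ ht φ hφ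
        have e5 : kx y (y + θ * (x - y)) - kx x (y + θ * (x - y)) =
            (k (y + θ * (x - y)) - kx x (y + θ * (x - y))) -
              (k (y + θ * (x - y)) - kx y (y + θ * (x - y))) := by abel
        rw [e5, inner_sub_left, e3, e4, sub_zero]
      have hder : HasDerivAt (fun θ : ℝ => inner ℝ (tau (θ * (x - y)) (k y - kx x y)) (Rs (sig b) φ))
          ((x - y) * inner ℝ (k y - kx x y) (dRs (sig b) φ)) 0 := by
        have e : ∀ r, inner ℝ (tau r (k y - kx x y)) (Rs (sig b) φ) =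
            inner ℝ (k y - kx x y) (tau (-r) (Rs (sig b) φ)) := fun r => hG.2.2.2.2.2.1 r _ _
        simp only [e]
        have d1 := deriv_Rs hG hFt hsb (hFt.1 φ hφ) (-(0 * (x - y)))
        have d2 : HasDerivAt (fun θ : ℝ => -(θ * (x - y))) (-(x - y)) 0 := by
          have := ((hasDerivAt_id' (0 : ℝ)).mul_const (x - y)).neg
          rw [one_mul] at this
          exact this
        have d3 := HasDerivAt.scomp (0 : ℝ) d1 d2
        have d4 : HasDerivAt (fun θ : ℝ => inner ℝ (k y - kx x y) (tau (-(θ * (x - y))) (Rs (sig b) φ)))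
            (inner ℝ (k y - kx x y) ((-(x - y)) • -(tau (-(0 * (x - y))) (dRs (sig b) φ)))) 0 :=
          (innerSL ℝ (k y - kx x y)).hasFDerivAt.comp_hasDerivAt (0 : ℝ) d3
        have e6 : inner ℝ (k y - kx x y) ((-(x - y)) • -(tau (-(0 * (x - y))) (dRs (sig b) φ))) =
            (x - y) * inner ℝ (k y - kx x y) (dRs (sig b) φ) := by
          rw [zero_mul, neg_zero, hG.2.1, inner_smul_right, inner_neg_right]
          ring
        rw [← e6]
        exact d4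
      have hder0 : HasDerivWithinAt
          (fun θ : ℝ => inner ℝ (tau (θ * (x - y)) (k y - kx x y)) (Rs (sig b) φ)) 0 (Icc 0 1) 0 :=
        (hasDerivWithinAt_const (0 : ℝ) (Icc (0 : ℝ) 1) (0 : ℝ)).congr_of_mem
          (fun θ hθ => hzero θ hθ) (left_mem_Icc.2 zero_le_one)
      have hun := (uniqueDiffOn_Icc (zero_lt_one' ℝ) 0 (left_mem_Icc.2 zero_le_one)).eq_deriv _
        hder.hasDerivWithinAt hder0
      exact (mul_eq_zero.1 hun).resolve_left (sub_ne_zero.2 hxy)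
  have hsol : IsSol b I k := ⟨hI, hk, hS, fun x hx t ht => by rw [hz x hx t ht, hkx]⟩
  obtain ⟨-, -, -, -, h6⟩ := (hBr3 b hb).1 I k hsol
  refine ⟨hI, h1, h2, h3, fun φ hφ s hs t ht => ⟨h4 φ hφ s hs t ht, ?_⟩⟩
  obtain ⟨-, e2⟩ := h6 φ hφ s hs t ht
  have e3 : ∀ r ∈ I, ∫ x, v r x * φ x = ∫ x, V (sig b) (k r) x * φ x := fun r hr => by
    refine integral_congr_ae ?_
    filter_upwards [(huv r hr).2] with x hx
    rw [hx]
  rw [e3 t ht, e3 s hs, e2]
  refine intervalIntegral.integral_congr fun r hr => ?_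
  have hrI : r ∈ I := hI.uIcc_subset hs ht hr
  refine integral_congr_ae ?_
  filter_upwards [(huv r hrI).1] with x hx
  rw [hx]

private lemma isS_tau (hG : Pool.Agent.QWE.St_Grp1) (hFt : St_Ft) (hFreX : St_FreX) (hFldP : St_FldP)
    {s : ℝ} (hs : |s| < 1 / 2) (κ : K) (t : ℝ) :
    IsS t (U s κ) (V s κ) (U s (tau t κ)) (V s (tau t κ)) := by
  intro φ hφ
  obtain ⟨q1, q2, q3, -⟩ := prop_eq hFt hFreX hφ t
  obtain ⟨p1, p2⟩ := flow_pair hG hFt hFreX hs κ hφ t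
  have r : ∀ (κ : K) {φ : E → ℝ}, IsTest φ → ∫ x, U s κ x * φ x = inner ℝ κ (Rs s φ) ∧
      ∫ x, V s κ x * φ x = inner ℝ κ (dRs s φ) := fun κ φ hφ =>
    pairF hFldP hs (ae_eq_refl _) (ae_eq_refl _) hφ
  rw [(r (tau t κ) hφ).1, (r (tau t κ) hφ).2, (r κ q1).1, (r κ q2).2, (r κ q3).1, (r κ q1).2]
  exact ⟨p1, p2⟩

end Duhx

open Duhx in
/-- **The Duhamel solutions are the solutions of `StF`.** -/
theorem IsSolnD_iff (hG : Pool.Agent.QWE.St_Grp1) (hFt : St_Ft) (hFreX : St_FreX) (hFldP : St_FldP)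
    (hMeas : St_Meas) (hNLb : St_NLb) (hDnsP : St_DnsP) (hBr1 : St_Br1) (hBr2 : St_Br2)
    (hBr3 : St_Br3) {b : ℝ} (hb : 2 < b) {I : Set ℝ} {u v : ℝ → E → ℝ} :
    IsSolnD b I u v ↔ IsSoln b I u v :=
  ⟨of_D hG hFt hFreX hFldP hMeas hNLb hDnsP hBr1 hBr3 hb,
    to_D hG hFt hFreX hFldP hMeas hNLb hBr2 hb⟩

namespace Duhx

open Parx Br3x

private lemma norm_bd {c : ℝ} (hc : 0 < c) {A : ℝ≥0} {k : K} {r : ℝ≥0∞}
    (h1 : ENNReal.ofReal c * ‖k‖ₑ ≤ r) (h2 : r ≤ A) : ‖k‖ ≤ (A : ℝ) / c := by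
  have h3 := ENNReal.toReal_mono ENNReal.coe_ne_top (h1.trans h2)
  rw [ENNReal.toReal_mul, ENNReal.toReal_ofReal hc.le, toReal_enorm, ENNReal.coe_toReal] at h3
  rw [le_div_iff₀ hc]
  linarith

private lemma scat (hG : Pool.Agent.QWE.St_Grp1) (hFt : St_Ft) (hFreX : St_FreX) (hFldP : St_FldP)
    {b c C : ℝ} (hb : 2 < b) (hB : ∀ (f g : E → ℝ) (k : K), (U (sig b) k =ᵐ[volume] f) →
      (V (sig b) k =ᵐ[volume] g) → HN b f g ≤ ENNReal.ofReal C * ‖k‖ₑ ∧
      ENNReal.ofReal c * ‖k‖ₑ ≤ HN b f g) {u v : ℝ → E → ℝ} {k : ℝ → K}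
    (hk : ∀ t, (U (sig b) (k t) =ᵐ[volume] u t) ∧ (V (sig b) (k t) =ᵐ[volume] v t))
    (l : Filter ℝ) (kp : K) (h : Tendsto (fun t => tau (-t) (k t)) l (𝓝 kp)) : ScatD b u v l := by
  have hsb := sig_lt hb
  refine ⟨U (sig b) kp, V (sig b) kp, HN_lt hB kp, fun t => U (sig b) (tau t kp),
    fun t => V (sig b) (tau t kp), fun t => ⟨HN_lt hB (tau t kp),
      isS_tau hG hFt hFreX hFldP hsb kp t⟩, ?_⟩
  have h1 : ∀ t, ‖k t - tau t kp‖ = ‖tau (-t) (k t) - kp‖ := by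
    intro t
    have h2 : tau (-t) (k t) - kp = tau (-t) (k t - tau t kp) := by
      rw [map_sub, hG.1, neg_add_cancel, hG.2.1]
    rw [h2, LinearIsometry.norm_map]
  have h3 : Tendsto (fun t => ‖k t - tau t kp‖) l (𝓝 0) := by
    simp only [h1]
    exact tendsto_iff_norm_sub_tendsto_zero.1 h
  have h4 : Tendsto (fun t => ENNReal.ofReal C * ‖k t - tau t kp‖ₑ) l (𝓝 0) := by
    have h5 : Tendsto (fun t => ‖k t - tau t kp‖ₑ) l (𝓝 0) := by
      have h6 := ENNReal.tendsto_ofReal h3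
      rw [ENNReal.ofReal_zero] at h6
      simpa only [ofReal_norm] using h6
    have h7 := ENNReal.Tendsto.const_mul (a := ENNReal.ofReal C) h5 (Or.inr ENNReal.ofReal_ne_top)
    rwa [mul_zero] at h7
  refine tendsto_of_tendsto_of_tendsto_of_le_of_le tendsto_const_nhds h4 (fun t => zero_le)
    fun t => ?_
  obtain ⟨C', -, -, hLin, -⟩ := hFldP (sig b) hsb
  have h8 := hLin (-1) (k t) (tau t kp)
  rw [neg_one_smul, ← sub_eq_add_neg] at h8
  refine (hB _ _ (k t - tau t kp) ?_ ?_).1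
  · filter_upwards [h8.1, (hk t).1] with x x1 x2
    rw [x1, x2]
    ring
  · filter_upwards [h8.2.1, (hk t).2] with x x1 x2
    rw [x1, x2]
    ring

end Duhx

open Duhx in
/-- **The final theorem with the literal definitions.** -/
theorem thm_FinalD (hG : Pool.Agent.QWE.St_Grp1) (hFt : St_Ft) (hFreX : St_FreX) (hFldP : St_FldP)
    (hMeas : St_Meas) (hNLb : St_NLb) (hDnsP : St_DnsP) (hMax : St_MaxE) (hBlow : St_Blow)
    (hBr1 : St_Br1) (hBr2 : St_Br2) (hBr3 : St_Br3) : St_LA → ∀ b : ℝ, 2 < b → FinalD b := by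
  intro hLA b hb
  have hiff : ∀ {I : Set ℝ} {u v : ℝ → E → ℝ}, IsSolnD b I u v ↔ IsSoln b I u v :=
    IsSolnD_iff hG hFt hFreX hFldP hMeas hNLb hDnsP hBr1 hBr2 hBr3 hb
  obtain ⟨c, C, hc, hC, -, hHN, -⟩ := hBr1 b hb
  rintro I u v ⟨hsolD, ⟨t0, ht0⟩, hmaxi⟩ ⟨A, hA⟩
  have hsol := hiff.1 hsolD
  obtain ⟨k, hk, hkf⟩ := hBr2 b hb I u v hsol
  obtain ⟨L, hL⟩ := hLA b hb ((A : ℝ) / c)
  have hbd : ∀ t ∈ I, ‖k t‖ ≤ (A : ℝ) / c := fun t ht =>
    norm_bd hc (hHN _ _ (k t) (hkf t ht).1 (hkf t ht).2).2 (hA t ht)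
  have hSN := hL I k hk hbd
  obtain ⟨J, k', hJ, htJ, hk0, hmax⟩ := hMax b hb (k t0) t0
  obtain ⟨hIJ, hkk⟩ := hmax I k hk ht0 rfl
  have hJI : J ⊆ I := hmaxi J _ _ (hiff.2 ((hBr3 b hb).1 J k' hJ.1)) hIJ fun t ht => by
    change (U (sig b) (k' t) =ᵐ[volume] u t) ∧ (V (sig b) (k' t) =ᵐ[volume] v t)
    rw [← hkk t ht]
    exact hkf t ht
  obtain rfl : I = J := Subset.antisymm hIJ hJI
  have hSN' : SN b I k' < ⊤ := by
    have h1 : SN b I k' = SN b I k := by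
      unfold SN
      refine setLIntegral_congr_fun hsol.1.measurableSet fun t ht => ?_
      rw [hkk t ht]
    rw [h1]
    exact hSN.trans_lt ENNReal.ofReal_lt_top
  have hS1 : SN b (I ∩ Ici t0) k' < ⊤ :=
    (lintegral_mono_set inter_subset_left).trans_lt hSN'
  have hS2 : SN b (I ∩ Iic t0) k' < ⊤ :=
    (lintegral_mono_set inter_subset_left).trans_lt hSN'
  obtain ⟨hI1, -, kp, hkp⟩ := (hBlow b hb I k' t0 hJ ht0).1 hS1
  obtain ⟨hI2, -, km, hkm⟩ := (hBlow b hb I k' t0 hJ ht0).2 hS2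
  have hU : I = univ := by
    refine eq_univ_of_forall fun t => ?_
    rcases le_total t0 t with h | h
    · exact hI1 h
    · exact hI2 h
  subst hU
  have hf : ∀ t, (U (sig b) (k' t) =ᵐ[volume] u t) ∧ (V (sig b) (k' t) =ᵐ[volume] v t) :=
    fun t => by
      rw [← hkk t (mem_univ t)]
      exact hkf t (mem_univ t)
  exact ⟨rfl, scat hG hFt hFreX hFldP hb hHN hf atTop kp hkp,
    scat hG hFt hFreX hFldP hb hHN hf atBot km hkm⟩

/-! ### The definitions of `QWL` for `d = 5` -/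

private lemma HD_eq (a : ℝ) (f : E → ℝ) : Pool.Agent.QWL.HD a f = HD a f := rfl

private lemma HN_eq (p : ℝ) (f g : E → ℝ) : Pool.Agent.QWL.HN p f g = HN (p - 1) f g := by
  have h1 : Pool.Agent.QWL.sc 5 p = 5 / 2 - 2 / (p - 1) := by
    unfold Pool.Agent.QWL.sc
    norm_num
  have h2 : Pool.Agent.QWL.sc 5 p - 1 = 3 / 2 - 2 / (p - 1) := by
    rw [h1]
    ring
  unfold Pool.Agent.QWL.HN HN
  rw [h2, h1, HD_eq, HD_eq]

private lemma soln_eq (p : ℝ) (I : Set ℝ) (u v : ℝ → E → ℝ) :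
    Pool.Agent.QWL.IsSoln p I u v ↔ IsSolnD (p - 1) I u v := by
  unfold Pool.Agent.QWL.IsSoln IsSolnD
  simp only [HN_eq, Nat.cast_ofNat]
  exact Iff.rfl

private lemma max_eq (p : ℝ) (I : Set ℝ) (u v : ℝ → E → ℝ) :
    Pool.Agent.QWL.IsMaxSoln p I u v ↔ IsMaxSolnD (p - 1) I u v := by
  unfold Pool.Agent.QWL.IsMaxSoln IsMaxSolnD
  simp only [soln_eq]

private lemma scat_eq (p : ℝ) (u v : ℝ → E → ℝ) (l : Filter ℝ) :
    Pool.Agent.QWL.Scatters p u v l ↔ ScatD (p - 1) u v l := by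
  unfold Pool.Agent.QWL.Scatters ScatD
  simp only [HN_eq]
  exact Iff.rfl

/-- **Q1 for `d = 5`**, all `p > 3`, with the literal definitions of `QWL`. -/
theorem thm_Final5 (h : ∀ b : ℝ, 2 < b → FinalD b) : ∀ p : ℝ, 3 < p → Pool.Agent.QWL.Final 5 p := by
  intro p hp I u v hmax hA
  have h1 := h (p - 1) (by linarith) I u v ((max_eq p I u v).1 hmax) (by simpa only [HN_eq] using hA)
  exact ⟨h1.1, (scat_eq p u v atTop).2 h1.2.1, (scat_eq p u v atBot).2 h1.2.2⟩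

end Pool.Agent.QWP
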