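import Pool.Agent.QWP.StB
import Pool.Agent.QWE.DuhI

set_option autoImplicit false

/-!
# QWP, DuhI: Duhamel integrals
-/

open MeasureTheory Filter Topology Set
open scoped ENNReal NNReal RealInnerProductSpace

namespace Pool.Agent.QWP

open Pool.Agent.QWE (E S sg mu K toK tau sh dl rev gr ig IsTest pd lap Rad dRad Rk dRk c0 WD Sm SmE IsSch half shr WTo)

namespace DuhIx

theorem sig_lt {b : ℝ} (hb : 2 < b) : |sig b| < 1 / 2 := by
  have hb0 : 0 < b := by linarith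
  have h1 : 0 < 2 / b := by positivity
  have h2 : 2 / b < 1 := by
    rw [div_lt_one hb0]
    exact hb
  rw [sig, abs_lt]
  constructor
  · linarith
  · linarith

theorem N_lsc (hLsc : St_LscP) {s : ℝ} (hs : |s| < 1 / 2) (p : ℝ≥0∞) (hp : 1 ≤ p) :
    LowerSemicontinuous (fun k : K => eLpNorm (U s k) p volume) := by
  have h := (hLsc s p univ hs hp MeasurableSet.univ).1
  simpa using h

theorem N_add (hFld : St_FldP) {s : ℝ} (hs : |s| < 1 / 2) (p : ℝ≥0∞) (hp : 1 ≤ p) (k k' : K) :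
    eLpNorm (U s (k + k')) p volume ≤ eLpNorm (U s k) p volume + eLpNorm (U s k') p volume := by
  obtain ⟨C, -, hF, hL, -⟩ := hFld s hs
  have h1 := (hL 1 k k').1
  rw [one_smul] at h1
  rw [eLpNorm_congr_ae h1]
  simp only [one_mul]
  exact eLpNorm_add_le (hF k).1.1.1 (hF k').1.1.1 hp

theorem N_smul (hFld : St_FldP) {s : ℝ} (hs : |s| < 1 / 2) (p : ℝ≥0∞) (c : ℝ) (k : K) :
    eLpNorm (U s (c • k)) p volume ≤ ENNReal.ofReal |c| * eLpNorm (U s k) p volume := by
  obtain ⟨C, -, -, hL, -⟩ := hFld s hs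
  have h0 : U s (0 : K) =ᵐ[volume] fun _ => 0 := by
    have h1 := (hL (-1) 0 0).1
    rw [smul_zero, add_zero] at h1
    filter_upwards [h1] with x hx
    linarith
  have h1 := (hL c 0 k).1
  rw [zero_add] at h1
  have h2 : U s (c • k) =ᵐ[volume] c • U s k := by
    filter_upwards [h0, h1] with x hx1 hx2
    rw [hx2, hx1, zero_add, Pi.smul_apply, smul_eq_mul]
  rw [eLpNorm_congr_ae h2, eLpNorm_const_smul, Real.enorm_eq_ofReal_abs]

end DuhIx

open DuhIx Pool.Agent.QWE.DuhIx in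
/-- **DuhI** (Duhamel integrals). -/
theorem thm_DuhI (hG1 : Pool.Agent.QWE.St_Grp1) (hFld : St_FldP) (hLsc : St_LscP)
    (hStr : St_StrS) : St_DuhI := by
  intro b hb
  obtain ⟨C, hC, hS⟩ := hStr b hb
  refine ⟨C, hC, ?_⟩
  intro x y t0 G hx hy hGi
  have hs := DuhIx.sig_lt hb
  have htc := tau_cont hG1
  have p1 : (1 : ℝ≥0∞) ≤ ENNReal.ofReal (5 * b) := by
    rw [← ENNReal.ofReal_one]
    exact ENNReal.ofReal_le_ofReal (by linarith)
  have p2 : (1 : ℝ≥0∞) ≤ ENNReal.ofReal (5 * b * (b + 2) / 4) := by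
    rw [← ENNReal.ofReal_one]
    refine ENNReal.ofReal_le_ofReal ?_
    rw [le_div_iff₀ (by norm_num)]
    nlinarith
  refine ⟨gen_cont tau htc hG1.1 x y t0 G hx hy hGi, gen_norm tau x y t0 G hx hy hGi, ?_, ?_⟩
  · exact gen_strich tau htc (fun k : K => sn b k)
      (DuhIx.N_lsc hLsc hs _ p1) (DuhIx.N_add hFld hs _ p1) (DuhIx.N_smul hFld hs _) b
      (by linarith) C hC (fun k => (hS k).1) x y t0 G hx hy hGi
  · exact gen_strich tau htc
      (fun k : K => eLpNorm (U (sig b) k) (ENNReal.ofReal (5 * b * (b + 2) / 4)) volume)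
      (DuhIx.N_lsc hLsc hs _ p2) (DuhIx.N_add hFld hs _ p2) (DuhIx.N_smul hFld hs _) ((b + 2) / 2)
      (by linarith) C hC (fun k => (hS k).2) x y t0 G hx hy hGi

end Pool.Agent.QWP
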