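import Pool.Agent.QWP.StE

set_option autoImplicit false

/-!
# QWP, E1: energy tails from the decay of the exterior norm, by dyadic annuli
-/

open MeasureTheory Filter Topology Set
open scoped ENNReal NNReal RealInnerProductSpace

namespace Pool.Agent.QWP

open Pool.Agent.QWE (E S sg mu K toK tau sh dl rev gr ig IsTest pd lap Rad dRad Rk dRk c0 WD Sm SmE IsSch half shr WTo)

namespace E1x

/-- The volume of the unit ball. -/
private noncomputable def vb : ℝ := (volume (Metric.ball (0 : E) 1)).toReal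

private lemma vb_nonneg : 0 ≤ vb := ENNReal.toReal_nonneg

private lemma isOpen_ext (y : E) (ρ : ℝ) : IsOpen (xt y ρ) :=
  isOpen_lt continuous_const (continuous_id.dist continuous_const)

private lemma vol_ball (y : E) (j : ℕ) {e : ℝ} (he : 0 ≤ e) :
    (volume (Metric.closedBall y ((2 : ℝ) ^ (j + 1)))) ^ e =
      ENNReal.ofReal ((32 * vb) ^ e * (2 : ℝ) ^ (5 * e * j)) := by
  have h0 : (volume (Metric.ball (0 : E) 1)) = ENNReal.ofReal vb :=
    (ENNReal.ofReal_toReal measure_ball_lt_top.ne).symm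
  have hfr : Module.finrank ℝ E = 5 := by simp [E]
  have hvb := vb_nonneg
  rw [Measure.addHaar_closedBall volume y (by positivity), hfr, h0,
    ← ENNReal.ofReal_mul (by positivity), ENNReal.ofReal_rpow_of_nonneg (by positivity) he]
  congr 1
  have h1 : ((2 : ℝ) ^ (j + 1)) ^ 5 * vb = (32 * vb) * (2 : ℝ) ^ (5 * (j : ℝ)) := by
    rw [Real.rpow_mul (by norm_num), Real.rpow_natCast, pow_succ (2 : ℝ) j, mul_pow]
    have h2 : (2 : ℝ) ^ (5 : ℝ) = 32 := by
      rw [show (5 : ℝ) = ((5 : ℕ) : ℝ) by norm_num, Real.rpow_natCast]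
      norm_num
    have h3 : ((2 : ℝ) ^ j) ^ 5 = (32 : ℝ) ^ j := by
      rw [← pow_mul, mul_comm, pow_mul]
      norm_num
    rw [h2, h3]
    ring
  rw [h1, Real.mul_rpow (by positivity) (by positivity), ← Real.rpow_mul (by norm_num)]
  congr 2
  ring

/-- Estimate on one dyadic annulus. -/
private lemma annulus {p q α : ℝ} (hp : 0 < p) (hpq : p ≤ q)
    (hα : 5 * (1 - p / q) - α * p ≤ -1) (y : E) (j : ℕ) {f : E → ℝ}
    (hf : AEStronglyMeasurable f volume) {B : ℝ} (hB : 0 ≤ B)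
    (h : eLpNorm ((xt y (2 ^ j)).indicator f) (ENNReal.ofReal q) volume ≤
      ENNReal.ofReal (B * (2 : ℝ) ^ (-α * j))) :
    ∫⁻ x in xt y (2 ^ j) ∩ Metric.closedBall y (2 ^ (j + 1)), ‖f x‖ₑ ^ p ≤
      ENNReal.ofReal (B ^ p * (32 * vb) ^ (1 - p / q) * (2 : ℝ) ^ (-(j : ℝ))) := by
  obtain ⟨A, hA⟩ : ∃ A, A = xt y (2 ^ j) ∩ Metric.closedBall y (2 ^ (j + 1)) := ⟨_, rfl⟩
  rw [← hA]
  have hq : 0 < q := hp.trans_le hpq
  have hp0 : ENNReal.ofReal p ≠ 0 := (ENNReal.ofReal_pos.2 hp).ne'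
  have hpr : (ENNReal.ofReal p).toReal = p := ENNReal.toReal_ofReal hp.le
  have hqr : (ENNReal.ofReal q).toReal = q := ENNReal.toReal_ofReal hq.le
  have he : 0 ≤ 1 - p / q := by
    rw [sub_nonneg, div_le_one hq]
    exact hpq
  have h1 : ∫⁻ x in A, ‖f x‖ₑ ^ p = eLpNorm f (ENNReal.ofReal p) (volume.restrict A) ^ p := by
    rw [eLpNorm_eq_lintegral_rpow_enorm_toReal hp0 ENNReal.ofReal_ne_top, hpr, ← ENNReal.rpow_mul,
      one_div, inv_mul_cancel₀ hp.ne', ENNReal.rpow_one]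
  have h2 : eLpNorm f (ENNReal.ofReal p) (volume.restrict A) ≤
      eLpNorm f (ENNReal.ofReal q) (volume.restrict A) * (volume A) ^ (1 / p - 1 / q) := by
    have := eLpNorm_le_eLpNorm_mul_rpow_measure_univ (ENNReal.ofReal_le_ofReal hpq)
      (hf.restrict (s := A))
    rwa [Measure.restrict_apply_univ, hpr, hqr] at this
  have h3 : eLpNorm f (ENNReal.ofReal q) (volume.restrict A) ≤
      ENNReal.ofReal (B * (2 : ℝ) ^ (-α * j)) := by
    refine le_trans ?_ h
    rw [eLpNorm_indicator_eq_eLpNorm_restrict (isOpen_ext y _).measurableSet]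
    refine eLpNorm_mono_measure f (Measure.restrict_mono ?_ le_rfl)
    rw [hA]
    exact inter_subset_left
  have hvb := vb_nonneg
  have h4 : ((volume A) ^ (1 / p - 1 / q)) ^ p ≤
      ENNReal.ofReal ((32 * vb) ^ (1 - p / q) * (2 : ℝ) ^ (5 * (1 - p / q) * j)) := by
    rw [← ENNReal.rpow_mul]
    have h5 : (1 / p - 1 / q) * p = 1 - p / q := by
      field_simp
    rw [h5, ← vol_ball y j he]
    refine ENNReal.rpow_le_rpow (measure_mono ?_) he
    rw [hA]
    exact inter_subset_right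
  calc ∫⁻ x in A, ‖f x‖ₑ ^ p = eLpNorm f (ENNReal.ofReal p) (volume.restrict A) ^ p := h1
    _ ≤ (eLpNorm f (ENNReal.ofReal q) (volume.restrict A) * (volume A) ^ (1 / p - 1 / q)) ^ p :=
        ENNReal.rpow_le_rpow h2 hp.le
    _ = eLpNorm f (ENNReal.ofReal q) (volume.restrict A) ^ p *
        ((volume A) ^ (1 / p - 1 / q)) ^ p := ENNReal.mul_rpow_of_nonneg _ _ hp.le
    _ ≤ ENNReal.ofReal (B * (2 : ℝ) ^ (-α * j)) ^ p *
        ENNReal.ofReal ((32 * vb) ^ (1 - p / q) * (2 : ℝ) ^ (5 * (1 - p / q) * j)) :=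
        mul_le_mul' (ENNReal.rpow_le_rpow h3 hp.le) h4
    _ = ENNReal.ofReal ((B * (2 : ℝ) ^ (-α * j)) ^ p *
        ((32 * vb) ^ (1 - p / q) * (2 : ℝ) ^ (5 * (1 - p / q) * j))) := by
        rw [ENNReal.ofReal_rpow_of_nonneg (by positivity) hp.le, ← ENNReal.ofReal_mul (by positivity)]
    _ ≤ ENNReal.ofReal (B ^ p * (32 * vb) ^ (1 - p / q) * (2 : ℝ) ^ (-(j : ℝ))) := by
        apply ENNReal.ofReal_le_ofReal
        have h5 : ((2 : ℝ) ^ (-α * j)) ^ p * (2 : ℝ) ^ (5 * (1 - p / q) * j) ≤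
            (2 : ℝ) ^ (-(j : ℝ)) := by
          rw [← Real.rpow_mul (by norm_num), ← Real.rpow_add (by norm_num)]
          apply Real.rpow_le_rpow_of_exponent_le (by norm_num)
          have h8 : (0 : ℝ) ≤ j := by positivity
          have h9 := mul_le_mul_of_nonneg_right hα h8
          linarith
        calc (B * (2 : ℝ) ^ (-α * j)) ^ p *
            ((32 * vb) ^ (1 - p / q) * (2 : ℝ) ^ (5 * (1 - p / q) * j))
            = B ^ p * (32 * vb) ^ (1 - p / q) *
              (((2 : ℝ) ^ (-α * j)) ^ p * (2 : ℝ) ^ (5 * (1 - p / q) * j)) := by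
              rw [Real.mul_rpow hB (by positivity)]
              ring
          _ ≤ B ^ p * (32 * vb) ^ (1 - p / q) * (2 : ℝ) ^ (-(j : ℝ)) := by
              have : 0 ≤ B ^ p * (32 * vb) ^ (1 - p / q) := by positivity
              gcongr

private lemma ext_subset (y : E) (n : ℕ) :
    xt y ((2 : ℝ) ^ n) ⊆ ⋃ i : ℕ, xt y (2 ^ (n + i)) ∩ Metric.closedBall y (2 ^ (n + i + 1)) := by
  intro x hx
  have hx' : (2 : ℝ) ^ n < dist x y := hx
  have hex : ∃ i : ℕ, dist x y ≤ (2 : ℝ) ^ (n + i + 1) := by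
    obtain ⟨N, hN⟩ := pow_unbounded_of_one_lt (dist x y) (by norm_num : (1 : ℝ) < 2)
    refine ⟨N, hN.le.trans ?_⟩
    exact pow_le_pow_right₀ (by norm_num) (by omega)
  classical
  let i := Nat.find hex
  have hi : dist x y ≤ (2 : ℝ) ^ (n + i + 1) := Nat.find_spec hex
  rw [mem_iUnion]
  refine ⟨i, ?_, hi⟩
  change (2 : ℝ) ^ (n + i) < dist x y
  rcases Nat.eq_zero_or_pos i with h0 | hpos
  · rw [h0]; simpa using hx'
  · have h1 := Nat.find_min hex (m := i - 1) (by omega)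
    rw [not_le] at h1
    have h2 : n + (i - 1) + 1 = n + i := by omega
    rwa [h2] at h1

/-- Estimate outside a dyadic ball. -/
private lemma tail {p q α : ℝ} (hp : 0 < p) (hpq : p ≤ q)
    (hα : 5 * (1 - p / q) - α * p ≤ -1) (y : E) {f : E → ℝ}
    (hf : AEStronglyMeasurable f volume) {B : ℝ} (hB : 0 ≤ B)
    (h : ∀ j : ℕ, eLpNorm ((xt y (2 ^ j)).indicator f) (ENNReal.ofReal q) volume ≤
      ENNReal.ofReal (B * (2 : ℝ) ^ (-α * j))) (n : ℕ) :
    ∫⁻ x in xt y (2 ^ n), ‖f x‖ₑ ^ p ≤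
      ENNReal.ofReal (2 * (B ^ p * (32 * vb) ^ (1 - p / q)) * (2 : ℝ) ^ (-(n : ℝ))) := by
  have hvb := vb_nonneg
  have hK : 0 ≤ B ^ p * (32 * vb) ^ (1 - p / q) := by positivity
  calc ∫⁻ x in xt y (2 ^ n), ‖f x‖ₑ ^ p
      ≤ ∫⁻ x in ⋃ i : ℕ, xt y (2 ^ (n + i)) ∩ Metric.closedBall y (2 ^ (n + i + 1)),
          ‖f x‖ₑ ^ p := lintegral_mono_set (ext_subset y n)
    _ ≤ ∑' i : ℕ, ∫⁻ x in xt y (2 ^ (n + i)) ∩ Metric.closedBall y (2 ^ (n + i + 1)),
          ‖f x‖ₑ ^ p := lintegral_iUnion_le _ _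
    _ ≤ ∑' i : ℕ, ENNReal.ofReal (B ^ p * (32 * vb) ^ (1 - p / q) * (2 : ℝ) ^ (-(n : ℝ)) *
          (1 / 2) ^ i) := by
        refine ENNReal.tsum_le_tsum fun i => ?_
        refine (annulus hp hpq hα y (n + i) hf hB (h (n + i))).trans (le_of_eq ?_)
        congr 1
        rw [mul_assoc (B ^ p * (32 * vb) ^ (1 - p / q))]
        congr 1
        rw [Real.rpow_neg (by norm_num), Real.rpow_natCast, Real.rpow_neg (by norm_num),
          Real.rpow_natCast, pow_add, mul_inv, one_div, inv_pow]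
    _ = ENNReal.ofReal (∑' i : ℕ, B ^ p * (32 * vb) ^ (1 - p / q) * (2 : ℝ) ^ (-(n : ℝ)) *
          (1 / 2) ^ i) := by
        rw [ENNReal.ofReal_tsum_of_nonneg]
        · intro i; positivity
        · exact summable_geometric_two.mul_left _
    _ = _ := by
        rw [tsum_mul_left, tsum_geometric_two]
        congr 1; ring

/-- Bound of the norm and tail estimate. -/
private lemma main {p q α : ℝ} (hp : 0 < p) (hpq : p ≤ q)
    (hα : 5 * (1 - p / q) - α * p ≤ -1) {B B' : ℝ} (hB : 0 ≤ B) :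
    ∃ C : ℝ, 0 ≤ C ∧ ∀ (y : E) (f : E → ℝ), MemLp f (ENNReal.ofReal q) volume →
      eLpNorm f (ENNReal.ofReal q) volume ≤ ENNReal.ofReal B' →
      (∀ j : ℕ, eLpNorm ((xt y (2 ^ j)).indicator f) (ENNReal.ofReal q) volume ≤
        ENNReal.ofReal (B * (2 : ℝ) ^ (-α * j))) →
      eLpNorm f (ENNReal.ofReal p) volume ≤ ENNReal.ofReal C ∧
        ∀ n : ℕ, ∫⁻ x in xt y (2 ^ n), ‖f x‖ₑ ^ p ≤ ENNReal.ofReal (C * (2 : ℝ) ^ (-(n : ℝ))) := by
  have hvb := vb_nonneg
  have hq : 0 < q := hp.trans_le hpq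
  have hp0 : ENNReal.ofReal p ≠ 0 := (ENNReal.ofReal_pos.2 hp).ne'
  have hpr : (ENNReal.ofReal p).toReal = p := ENNReal.toReal_ofReal hp.le
  have hqr : (ENNReal.ofReal q).toReal = q := ENNReal.toReal_ofReal hq.le
  have he : 0 ≤ 1 / p - 1 / q := by
    rw [sub_nonneg]
    exact one_div_le_one_div_of_le hp hpq
  have hK : 0 ≤ 2 * (B ^ p * (32 * vb) ^ (1 - p / q)) := by positivity
  obtain ⟨M, hM⟩ : ∃ M : ℝ≥0∞, M = ENNReal.ofReal (2 * (B ^ p * (32 * vb) ^ (1 - p / q))) +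
    (ENNReal.ofReal B' * volume (Metric.closedBall (0 : E) 1) ^ (1 / p - 1 / q)) ^ p := ⟨_, rfl⟩
  have hMt : M ≠ ⊤ := by
    rw [hM]
    refine ENNReal.add_ne_top.2 ⟨ENNReal.ofReal_ne_top, ?_⟩
    refine ENNReal.rpow_ne_top_of_nonneg hp.le (ENNReal.mul_ne_top ENNReal.ofReal_ne_top ?_)
    exact ENNReal.rpow_ne_top_of_nonneg he measure_closedBall_lt_top.ne
  refine ⟨2 * (B ^ p * (32 * vb) ^ (1 - p / q)) + (M ^ (1 / p)).toReal,
    add_nonneg hK ENNReal.toReal_nonneg, ?_⟩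
  intro y f hf hfB h
  have ht := tail hp hpq hα y hf.1 hB h
  refine ⟨?_, fun n => (ht n).trans (ENNReal.ofReal_le_ofReal ?_)⟩
  · have hms : MeasurableSet (xt y (2 ^ 0)) := (isOpen_ext y _).measurableSet
    have h0 := ht 0
    have e0 : (2 : ℝ) ^ (-((0 : ℕ) : ℝ)) = 1 := by simp
    rw [e0, mul_one] at h0
    have hsub : (xt y ((2 : ℝ) ^ 0))ᶜ ⊆ Metric.closedBall y 1 := by
      intro x hx
      have hx' : ¬ ((2 : ℝ) ^ 0 < dist x y) := hx
      rw [Metric.mem_closedBall]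
      simpa using hx'
    have h2 : eLpNorm f (ENNReal.ofReal p) (volume.restrict (Metric.closedBall y 1)) ≤
        ENNReal.ofReal B' * volume (Metric.closedBall (0 : E) 1) ^ (1 / p - 1 / q) := by
      have h3 := eLpNorm_le_eLpNorm_mul_rpow_measure_univ (ENNReal.ofReal_le_ofReal hpq)
        (hf.1.restrict (s := Metric.closedBall y 1))
      rw [Measure.restrict_apply_univ, hpr, hqr] at h3
      have h4 : volume (Metric.closedBall y 1) = volume (Metric.closedBall (0 : E) 1) := by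
        rw [Measure.addHaar_closedBall volume y (by norm_num),
          Measure.addHaar_closedBall volume (0 : E) (by norm_num)]
      rw [h4] at h3
      refine h3.trans (mul_le_mul' ?_ le_rfl)
      exact (eLpNorm_mono_measure f Measure.restrict_le_self).trans hfB
    have h5 : ∫⁻ x in (xt y ((2 : ℝ) ^ 0))ᶜ, ‖f x‖ₑ ^ p ≤
        (ENNReal.ofReal B' * volume (Metric.closedBall (0 : E) 1) ^ (1 / p - 1 / q)) ^ p := by
      refine (lintegral_mono_set hsub).trans ?_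
      have h6 : ∫⁻ x in Metric.closedBall y 1, ‖f x‖ₑ ^ p =
          eLpNorm f (ENNReal.ofReal p) (volume.restrict (Metric.closedBall y 1)) ^ p := by
        rw [eLpNorm_eq_lintegral_rpow_enorm_toReal hp0 ENNReal.ofReal_ne_top, hpr,
          ← ENNReal.rpow_mul, one_div, inv_mul_cancel₀ hp.ne', ENNReal.rpow_one]
      rw [h6]
      exact ENNReal.rpow_le_rpow h2 hp.le
    have h7 : ∫⁻ x, ‖f x‖ₑ ^ p ≤ M := by
      rw [← lintegral_add_compl _ hms, hM]
      exact add_le_add h0 h5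
    have h8 : eLpNorm f (ENNReal.ofReal p) volume ≤ M ^ (1 / p) := by
      rw [eLpNorm_eq_lintegral_rpow_enorm_toReal hp0 ENNReal.ofReal_ne_top, hpr]
      exact ENNReal.rpow_le_rpow h7 (by positivity)
    refine h8.trans ?_
    have h9 : M ^ (1 / p) ≠ ⊤ := ENNReal.rpow_ne_top_of_nonneg (by positivity) hMt
    rw [← ENNReal.ofReal_toReal h9]
    refine ENNReal.ofReal_le_ofReal ?_
    rw [ENNReal.toReal_ofReal ENNReal.toReal_nonneg]
    linarith
  · have h1 : (0 : ℝ) ≤ (2 : ℝ) ^ (-(n : ℝ)) := by positivity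
    refine mul_le_mul_of_nonneg_right ?_ h1
    linarith [ENNReal.toReal_nonneg (a := M ^ (1 / p))]

/-- real form -/
private lemma rform {p c : ℝ} {A : Set E} {f : E → ℝ} (hp : 0 < p)
    (hf : AEStronglyMeasurable f volume) (hc : 0 ≤ c)
    (h : ∫⁻ x in A, ‖f x‖ₑ ^ p ≤ ENNReal.ofReal c) : ∫ x in A, |f x| ^ p ≤ c := by
  have h1 : ∫ x in A, |f x| ^ p = (∫⁻ x in A, ‖f x‖ₑ ^ p).toReal := by
    rw [integral_eq_lintegral_of_nonneg_ae]
    · congr 1
      apply lintegral_congr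
      intro x
      rw [Real.enorm_eq_ofReal_abs, ENNReal.ofReal_rpow_of_nonneg (abs_nonneg _) hp.le]
    · exact Eventually.of_forall fun x => Real.rpow_nonneg (abs_nonneg _) _
    · exact (hf.restrict.norm.aemeasurable.pow_const p).aestronglyMeasurable
  rw [h1]
  exact ENNReal.toReal_le_of_le_ofReal hc h

private lemma sig_lt {b : ℝ} (hb : 2 < b) : |sig b| < 1 / 2 := by
  have h : sig b = 1 / 2 - 2 / b := rfl
  have h1 : 0 < 2 / b := by positivity
  have h2 : 2 / b < 1 := by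
    rw [div_lt_one (by linarith)]
    exact hb
  rw [h, abs_lt]
  constructor <;> linarith

private lemma sq_form {A : Set E} (f : E → ℝ) :
    ∫ x in A, f x ^ 2 = ∫ x in A, |f x| ^ (2 : ℝ) := by
  refine integral_congr_ae (Eventually.of_forall fun x => ?_)
  simp only
  rw [show (2 : ℝ) = ((2 : ℕ) : ℝ) by norm_num, Real.rpow_natCast, sq_abs]

end E1x

open E1x in
/-- **E1** (energy tails). -/
theorem thm_E1 (hF : St_FldP) (hE : St_ExFP) : St_E1 := by
  intro b hb D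
  have hs := sig_lt hb
  obtain ⟨C1, hC1, hF, -⟩ := hF (sig b) hs
  obtain ⟨C2, hC2, hE⟩ := hE (sig b) hs
  have hb0 : 0 < b := by linarith
  have hsig : sig b = 1 / 2 - 2 / b := rfl
  obtain ⟨c, hc⟩ : ∃ c : ℝ, c = 1 / b := ⟨_, rfl⟩
  have hbc : b * c = 1 := by rw [hc]; field_simp
  have hc0 : 0 < c := by rw [hc]; positivity
  have hsc : sig b = 1 / 2 - 2 * c := by rw [hsig, hc]; ring
  have hc2 : c < 1 / 2 := by
    rw [hc]
    exact one_div_lt_one_div_of_lt (by norm_num) hb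
  have hB : 0 ≤ C2 * |D| := by positivity
  have e4 : 1 - 2 * sig b = 4 * c := by rw [hsc]; ring
  have e3 : 3 - 2 * sig b = 2 + 4 * c := by rw [hsc]; ring
  -- the three exponents
  obtain ⟨A1, hA1, h1⟩ := main (p := 2) (q := 10 / (3 - 2 * sig b)) (α := 3 / 2 + sig b)
    (B := C2 * |D|) (B' := C1 * |D|) (by norm_num)
    (by
      rw [e3, le_div_iff₀ (by positivity)]
      linarith)
    (by
      have : 2 / (10 / (3 - 2 * sig b)) = (3 - 2 * sig b) / 5 := by
        rw [e3]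
        have : (2 + 4 * c) ≠ 0 := by positivity
        field_simp
        ring
      rw [this]
      linarith) hB
  obtain ⟨A2, hA2, h2⟩ := main (p := b + 2) (q := 10 / (1 - 2 * sig b)) (α := 3 / 2 + sig b)
    (B := C2 * |D|) (B' := C1 * |D|) (by linarith)
    (by
      rw [e4, le_div_iff₀ (by positivity)]
      nlinarith)
    (by
      have : (b + 2) / (10 / (1 - 2 * sig b)) = (2 + 4 * c) / 5 := by
        rw [e4, div_div_eq_mul_div]
        have : (b + 2) * (4 * c) = 4 * (b * c) + 8 * c := by ring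
        rw [this, hbc]
        ring
      rw [this, hsc]
      have : (3 / 2 + (1 / 2 - 2 * c)) * (b + 2) = 2 * b + 4 - 2 * (b * c) - 4 * c := by ring
      rw [this, hbc]
      linarith) hB
  obtain ⟨A3, hA3, h3⟩ := main (p := 10 / 3) (q := 10 / (1 - 2 * sig b)) (α := 3 / 2 + sig b)
    (B := C2 * |D|) (B' := C1 * |D|) (by norm_num)
    (by
      rw [e4]
      apply div_le_div_of_nonneg_left (by norm_num) (by positivity)
      linarith)
    (by
      have : (10 / 3) / (10 / (1 - 2 * sig b)) = 4 * c / 3 := by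
        rw [e4]
        field_simp
      rw [this, hsc]
      linarith) hB
  refine ⟨6 * A1 + A2 + A3 + 1, by positivity, ?_⟩
  intro k y hkD hex
  have hD : |D| = D := abs_of_nonneg ((norm_nonneg k).trans hkD)
  have hD0 : 0 ≤ D := (norm_nonneg k).trans hkD
  have hexj : ∀ j : ℕ, C2 * ex (sig b) (xt y (2 ^ j)) k ≤
      C2 * |D| * (2 : ℝ) ^ (-(3 / 2 + sig b) * j) := by
    intro j
    rw [mul_assoc, hD]
    exact mul_le_mul_of_nonneg_left (hex j) hC2.le
  have hopen : ∀ j : ℕ, IsOpen (xt y ((2 : ℝ) ^ j)) := fun j => isOpen_ext y _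
  have hkn : ENNReal.ofReal C1 * ‖k‖ₑ ≤ ENNReal.ofReal (C1 * |D|) := by
    rw [ENNReal.ofReal_mul hC1.le]
    refine mul_le_mul' le_rfl ?_
    rw [← ofReal_norm, hD]
    exact ENNReal.ofReal_le_ofReal hkD
  obtain ⟨⟨hU, -⟩, hUb, ⟨hV, -⟩, hVb, hDU, -⟩ := hF k
  have r1 := fun i => h1 y (DU (sig b) k i) (hDU i).1 ((hDU i).2.2.trans hkn)
    (fun j => ((hE k _ (hopen j)).2.1 i).trans (ENNReal.ofReal_le_ofReal (hexj j)))
  have r2 := h1 y (V (sig b) k) hV (hVb.trans hkn)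
    (fun j => ((hE k _ (hopen j)).2.2.1).trans (ENNReal.ofReal_le_ofReal (hexj j)))
  have r3 := h2 y (U (sig b) k) hU (hUb.trans hkn)
    (fun j => ((hE k _ (hopen j)).1).trans (ENNReal.ofReal_le_ofReal (hexj j)))
  have r4 := h3 y (U (sig b) k) hU (hUb.trans hkn)
    (fun j => ((hE k _ (hopen j)).1).trans (ENNReal.ofReal_le_ofReal (hexj j)))
  have o2 : ENNReal.ofReal 2 = 2 := by norm_num
  have o103 : ENNReal.ofReal (10 / 3) = 10 / 3 := by
    rw [ENNReal.ofReal_div_of_pos (by norm_num)]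
    norm_num
  refine ⟨⟨fun i => ?_, ?_, ?_⟩, fun n => ?_⟩
  · have := (r1 i).1
    rw [o2] at this
    exact this.trans (ENNReal.ofReal_le_ofReal (by linarith))
  · have := r2.1
    rw [o2] at this
    exact this.trans (ENNReal.ofReal_le_ofReal (by linarith))
  · have := r4.1
    rw [o103] at this
    exact this.trans (ENNReal.ofReal_le_ofReal (by linarith))
  · have hn : (0 : ℝ) < (2 : ℝ) ^ (-(n : ℝ)) := by positivity
    have s1 : ∀ i, ∫ x in xt y (2 ^ n), DU (sig b) k i x ^ 2 ≤ A1 * (2 : ℝ) ^ (-(n : ℝ)) := by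
      intro i
      rw [sq_form]
      exact rform (by norm_num) (hDU i).1.1 (by positivity) ((r1 i).2 n)
    have s2 : ∫ x in xt y (2 ^ n), V (sig b) k x ^ 2 ≤ A1 * (2 : ℝ) ^ (-(n : ℝ)) := by
      rw [sq_form]
      exact rform (by norm_num) hV.1 (by positivity) (r2.2 n)
    have s3 : ∫ x in xt y (2 ^ n), |U (sig b) k x| ^ (b + 2) ≤ A2 * (2 : ℝ) ^ (-(n : ℝ)) :=
      rform (by linarith) hU.1 (by positivity) (r3.2 n)
    have s4 : (∑ i, ∫ x in xt y (2 ^ n), DU (sig b) k i x ^ 2) ≤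
        5 * (A1 * (2 : ℝ) ^ (-(n : ℝ))) := by
      calc (∑ i, ∫ x in xt y (2 ^ n), DU (sig b) k i x ^ 2)
          ≤ ∑ _i : Fin 5, A1 * (2 : ℝ) ^ (-(n : ℝ)) := Finset.sum_le_sum fun i _ => s1 i
        _ = 5 * (A1 * (2 : ℝ) ^ (-(n : ℝ))) := by
            rw [Finset.sum_const, Finset.card_univ, Fintype.card_fin, nsmul_eq_mul]
            norm_num
    have s5 : 0 ≤ A3 * (2 : ℝ) ^ (-(n : ℝ)) := by positivity
    linarith

end Pool.Agent.QWP
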