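import Pool.Agent.QWP.StE
import Pool.Agent.QWE.E3

/-!
# QWP, module E3: the frequency scale is unbounded
-/

set_option autoImplicit false

open MeasureTheory Filter Topology Set
open scoped ENNReal NNReal RealInnerProductSpace

namespace Pool.Agent.QWP

open Pool.Agent.QWE (E S sg mu K toK tau sh dl rev gr ig IsTest pd lap Rad dRad Rk dRk c0 WD Sm SmE IsSch half shr WTo)

theorem thm_E3 (hE3a : St_E3a) : St_E3 := by
  intro b hb Q k x a hN y C B hy hxy hB L
  by_contra hcon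
  push Not at hcon
  have hb4 : 0 ≤ 4 - 4 / b := by
    have h1 : 4 / b ≤ 4 := by
      rw [div_le_iff₀ (by linarith)]
      linarith
    linarith
  obtain ⟨hCS, ha⟩ := hN
  obtain ⟨C1, c', hC1, hc', hlow⟩ := hE3a b hb Q k x a hCS
  obtain ⟨K0, hK0⟩ : ∃ K0 : ℝ, K0 = 1 + ‖y 0‖ + |C| + 2 * C1 := ⟨_, rfl⟩
  obtain ⟨c2, hc2⟩ : ∃ c2 : ℝ, c2 = c' * Real.exp (-((4 - 4 / b) * L)) := ⟨_, rfl⟩
  have hc20 : 0 < c2 := by rw [hc2]; positivity
  have hK01 : 1 ≤ K0 := by
    rw [hK0]
    have := norm_nonneg (y 0)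
    have := abs_nonneg C
    linarith
  obtain ⟨g, hg⟩ : ∃ g : ℝ → ℝ≥0∞, g = fun t => ∫⁻ z,
    ENNReal.ofReal (|U (sig b) (k t) z| ^ (b + 2) / √(1 + ‖z‖ ^ 2)) := ⟨_, rfl⟩
  have hexp : ∀ t, Real.exp (-(a t)) ≤ 2 := by
    intro t
    have h1 := Real.exp_le_exp.mpr (show -(a t) ≤ Real.log 2 by linarith [ha t])
    rwa [Real.exp_log (by norm_num)] at h1
  have key : ∀ t : ℝ, 0 ≤ t → ENNReal.ofReal (c2 / K0 / (1 + t)) ≤
      ∫⁻ s in Ico t (t + 2), g s := by
    intro t ht
    have h1 := hlow t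
    have h2 : ENNReal.ofReal c2 ≤ ENNReal.ofReal (c' * Real.exp (-((4 - 4 / b) * a t))) := by
      apply ENNReal.ofReal_le_ofReal
      rw [hc2]
      exact mul_le_mul_of_nonneg_left (Real.exp_le_exp.mpr (by
        have := mul_le_mul_of_nonneg_left (hcon t) hb4
        linarith)) hc'.le
    have h3 : ∀ s, ∫⁻ z in Metric.closedBall (x t) (C1 * Real.exp (-(a t))),
        ENNReal.ofReal (|U (sig b) (k s) z| ^ (b + 2)) ≤ ENNReal.ofReal (K0 * (1 + t)) * g s := by
      intro s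
      rw [hg]
      change _ ≤ ENNReal.ofReal (K0 * (1 + t)) * ∫⁻ z,
        ENNReal.ofReal (|U (sig b) (k s) z| ^ (b + 2) / √(1 + ‖z‖ ^ 2))
      rw [← lintegral_const_mul' _ _ ENNReal.ofReal_ne_top]
      refine le_trans ?_ (setLIntegral_le_lintegral
        (Metric.closedBall (x t) (C1 * Real.exp (-(a t)))) _)
      refine setLIntegral_mono' Metric.isClosed_closedBall.measurableSet fun z hz => ?_
      rw [← ENNReal.ofReal_mul (by positivity)]
      apply ENNReal.ofReal_le_ofReal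
      have hz1 : dist z (x t) ≤ C1 * Real.exp (-(a t)) := Metric.mem_closedBall.mp hz
      have hz2 : C1 * Real.exp (-(a t)) ≤ 2 * C1 := by
        have := mul_le_mul_of_nonneg_left (hexp t) hC1.le
        linarith
      have hz3 : ‖z‖ ≤ ‖y 0‖ + t + |C| + 2 * C1 := by
        have e1 : ‖z‖ ≤ dist z (x t) + dist (x t) (y t) + dist (y t) (y 0) + ‖y 0‖ := by
          have f1 : ‖z‖ = dist z 0 := (dist_zero_right z).symm
          have f2 : ‖y 0‖ = dist (y 0) 0 := (dist_zero_right (y 0)).symm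
          rw [f1, f2]
          have g1 := dist_triangle z (x t) 0
          have g2 := dist_triangle (x t) (y t) 0
          have g3 := dist_triangle (y t) (y 0) 0
          linarith
        have e2 := hxy t
        have e3 := hy 0 t
        rw [sub_zero, abs_of_nonneg ht] at e3
        have e4 := le_abs_self C
        linarith
      have hz4 : √(1 + ‖z‖ ^ 2) ≤ 1 + ‖z‖ := by
        rw [Real.sqrt_le_left (by positivity)]
        nlinarith [norm_nonneg z]
      have hz5 : √(1 + ‖z‖ ^ 2) ≤ K0 * (1 + t) := by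
        have e1 : 1 + ‖z‖ ≤ K0 + t := by rw [hK0]; linarith
        have e2 : K0 * (1 + t) = K0 + K0 * t := by ring
        have e3 : 1 * t ≤ K0 * t := mul_le_mul_of_nonneg_right hK01 ht
        linarith
      have hz6 : 0 < √(1 + ‖z‖ ^ 2) := Real.sqrt_pos.mpr (by positivity)
      have hU : 0 ≤ |U (sig b) (k s) z| ^ (b + 2) := Real.rpow_nonneg (abs_nonneg _) _
      rw [mul_div_assoc', le_div_iff₀ hz6, mul_comm]
      exact mul_le_mul_of_nonneg_right hz5 hU
    have h4 : ENNReal.ofReal c2 ≤ ENNReal.ofReal (K0 * (1 + t)) * ∫⁻ s in Ico t (t + 2), g s := by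
      refine h2.trans (h1.trans ?_)
      rw [← lintegral_const_mul' _ _ ENNReal.ofReal_ne_top]
      refine le_trans (lintegral_mono fun s => h3 s) ?_
      rw [setLIntegral_congr (Ico_ae_eq_Icc (a := t) (b := t + 2) (μ := (volume : Measure ℝ)))]
      refine lintegral_mono_set (Icc_subset_Icc le_rfl ?_)
      linarith [hexp t]
    have hpos : 0 < K0 * (1 + t) := by positivity
    have h5 : ENNReal.ofReal (c2 / K0 / (1 + t)) =
        ENNReal.ofReal c2 / ENNReal.ofReal (K0 * (1 + t)) := by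
      rw [← ENNReal.ofReal_div_of_pos hpos, div_div]
    rw [h5]
    exact ENNReal.div_le_of_le_mul' h4
  obtain ⟨N, hN0, hNB⟩ := Pool.Agent.QWE.E3x.harm (c2 / K0) (max B 0) (by positivity)
  have hN0' : (0 : ℝ) < 2 * N := by
    have : (0 : ℝ) < N := by exact_mod_cast hN0
    linarith
  have h6 : ∑ n ∈ Finset.range N, ENNReal.ofReal (c2 / K0 / (1 + 2 * (n : ℝ))) ≤
      ENNReal.ofReal B := by
    calc ∑ n ∈ Finset.range N, ENNReal.ofReal (c2 / K0 / (1 + 2 * (n : ℝ)))
        ≤ ∑ n ∈ Finset.range N, ∫⁻ s in Ico (2 * (n : ℝ)) (2 * n + 2), g s :=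
          Finset.sum_le_sum fun n _ => key (2 * n) (by positivity)
      _ ≤ ∫⁻ s in Ico (0 : ℝ) (2 * N), g s := Pool.Agent.QWE.E3x.sum_le g N
      _ ≤ ∫⁻ s in Icc (0 : ℝ) (2 * N), g s := lintegral_mono_set Ico_subset_Icc_self
      _ ≤ _ := by
          rw [hg]
          exact hB (2 * N) hN0'
  rw [← ENNReal.ofReal_sum_of_nonneg (fun n _ => by positivity)] at h6
  have h7 : ENNReal.ofReal B ≤ ENNReal.ofReal (max B 0) :=
    ENNReal.ofReal_le_ofReal (le_max_left _ _)
  have h8 := (ENNReal.ofReal_le_ofReal_iff (le_max_right B 0)).mp (h6.trans h7)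
  linarith

end Pool.Agent.QWP
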