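import Pool.Agent.QWP.StB

/-!
# QWP, module En: conservation of the energy (helper18)
-/

set_option autoImplicit false

open MeasureTheory Filter Topology Set
open scoped ENNReal NNReal RealInnerProductSpace

namespace Pool.Agent.QWP

open Pool.Agent.QWE (E S sg mu K toK tau sh dl rev gr ig IsTest pd lap Rad dRad Rk dRk c0 WD Sm SmE IsSch half shr WTo)

namespace Enx

/-- the inner product as a continuous bilinear form -/
noncomputable def bf : K →L[ℝ] K →L[ℝ] ℝ :=
  LinearMap.mkContinuous₂ (innerₗ K) 1 fun w w' => by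
    rw [one_mul, innerₗ_apply_apply]
    exact norm_inner_le_norm w w'

theorem bf_apply (w w' : K) : bf w w' = inner ℝ w w' := rfl

theorem c0_pos : 0 < c0 := by unfold c0; positivity

theorem wd0 (i : Fin 5) : WD i (0 : E → ℝ) (0 : E → ℝ) := by
  intro φ _
  simp

/-- the square of the norm along a Duhamel curve -/
theorem sq (hA : St_ACq) (x y : ℝ) (e g : ℝ → K) (hxy : x ≤ y) (he : ContinuousOn e (Icc x y))
    (hg : IntegrableOn g (Icc x y) volume)
    (hD : ∀ x' ∈ Icc x y, ∀ t ∈ Icc x y,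
      e t = tau (t - x') (e x') - ∫ r in x'..t, tau (t - r) (g r)) :
    ‖e y‖ ^ 2 - ‖e x‖ ^ 2 = - 2 * ∫ r in x..y, (inner ℝ (e r) (g r) : ℝ) := by
  have h1 := hA bf x y e g hxy (fun w w' => by
      rw [bf_apply, bf_apply, real_inner_comm]) (fun w t _ => by
      rw [bf_apply, bf_apply, real_inner_self_eq_norm_sq, real_inner_self_eq_norm_sq,
        LinearIsometry.norm_map]) he hg hD
  have h2 := hA (-bf) x y e g hxy (fun w w' => by
      change -(bf w w') = -(bf w' w)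
      rw [bf_apply, bf_apply, real_inner_comm]) (fun w t _ => by
      change -(bf (tau t w) (tau t w)) ≤ -(bf w w)
      rw [bf_apply, bf_apply, real_inner_self_eq_norm_sq, real_inner_self_eq_norm_sq,
        LinearIsometry.norm_map]) he hg hD
  simp only [ContinuousLinearMap.neg_apply, bf_apply, intervalIntegral.integral_neg] at h1 h2
  rw [real_inner_self_eq_norm_sq, real_inner_self_eq_norm_sq] at h1 h2
  linarith

end Enx

open Enx

theorem thm_En (hR : St_EnR) (hS : St_EnS) (hG : St_EnG) (hD : St_EnD) (hA : St_ACq)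
    (hP : St_PotE) : St_En := by
  intro b hb x y B k hxy hk hB
  have hFP : ∀ t ∈ Icc x y, FP (U (sig b) (k t)) (V (sig b) (k t)) (DU (sig b) (k t)) :=
    fun t ht => ((hS b hb).1 (k t) B (hB t ht)).1
  have hex : ∀ t, ∃ e : K, t ∈ Icc x y → IsE e (U (sig b) (k t)) (V (sig b) (k t)) := by
    intro t
    by_cases ht : t ∈ Icc x y
    · obtain ⟨e, he⟩ := hR.1 _ _ _ (hFP t ht)
      exact ⟨e, fun _ => he⟩
    · exact ⟨0, fun h => absurd h ht⟩
  choose e he using hex
  obtain ⟨g, hg, hae⟩ := hG b hb x y B k hxy hk hB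
  obtain ⟨hc, hDu⟩ := hD b hb x y B k g e hxy hk hB hg
    (by filter_upwards [hae] with r hr using ⟨hr.1, hr.2.2⟩) (fun t ht => he t ht)
  have h1 := sq hA x y e g hxy hc hg hDu
  have h2 : ∫ r in x..y, (inner ℝ (e r) (g r) : ℝ) =
      c0 * ∫ r in x..y, ∫ z, Fn b (U (sig b) (k r) z) * V (sig b) (k r) z := by
    rw [← intervalIntegral.integral_const_mul, intervalIntegral.integral_of_le hxy,
      intervalIntegral.integral_of_le hxy, ← integral_Icc_eq_integral_Ioc,
      ← integral_Icc_eq_integral_Ioc]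
    refine integral_congr_ae ?_
    filter_upwards [hae, ae_restrict_mem measurableSet_Icc] with r hr hr'
    have hF0 : FP (0 : E → ℝ) (fun z => Fn b (U (sig b) (k r) z)) (fun _ => (0 : E → ℝ)) :=
      ⟨MemLp.zero, hr.2.1, fun i => ⟨MemLp.zero, wd0 i⟩⟩
    rw [hR.2.2.1 (e r) (g r) _ _ _ _ _ _ (hFP r hr') hF0 (he r hr') hr.2.2]
    congr 1
    simp only [Pi.zero_apply, mul_zero, integral_zero, Finset.sum_const_zero, zero_add]
    refine integral_congr_ae (Eventually.of_forall fun z => ?_)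
    exact mul_comm _ _
  have h3 : ∀ t ∈ Icc x y, ‖e t‖ ^ 2 = c0 * ((∑ i, ∫ z, DU (sig b) (k t) i z ^ 2) +
      ∫ z, V (sig b) (k t) z ^ 2) := by
    intro t ht
    rw [← real_inner_self_eq_norm_sq,
      hR.2.2.1 (e t) (e t) _ _ _ _ _ _ (hFP t ht) (hFP t ht) (he t ht) (he t ht)]
    simp only [pow_two]
  obtain ⟨-, h4⟩ := hP b hb x y B k hxy hk hB
  rw [h2, h3 y ⟨hxy, le_rfl⟩, h3 x ⟨le_rfl, hxy⟩] at h1
  have hc0 := c0_pos
  have hb2 : (0 : ℝ) < b + 2 := by linarith
  have h5 : ((∑ i, ∫ z, DU (sig b) (k y) i z ^ 2) + ∫ z, V (sig b) (k y) z ^ 2) -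
      ((∑ i, ∫ z, DU (sig b) (k x) i z ^ 2) + ∫ z, V (sig b) (k x) z ^ 2) =
      - 2 * ∫ r in x..y, ∫ z, Fn b (U (sig b) (k r) z) * V (sig b) (k r) z := by
    have h6 : c0 * (((∑ i, ∫ z, DU (sig b) (k y) i z ^ 2) + ∫ z, V (sig b) (k y) z ^ 2) -
      ((∑ i, ∫ z, DU (sig b) (k x) i z ^ 2) + ∫ z, V (sig b) (k x) z ^ 2)) =
      c0 * (- 2 * ∫ r in x..y, ∫ z, Fn b (U (sig b) (k r) z) * V (sig b) (k r) z) := by
      linarith
    exact mul_left_cancel₀ hc0.ne' h6
  have h7 : (∫ z, |U (sig b) (k y) z| ^ (b + 2)) / (b + 2) -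
      (∫ z, |U (sig b) (k x) z| ^ (b + 2)) / (b + 2) =
      ∫ r in x..y, ∫ z, Fn b (U (sig b) (k r) z) * V (sig b) (k r) z := by
    rw [← sub_div, h4, mul_div_cancel_left₀ _ hb2.ne']
  unfold En
  linarith

end Pool.Agent.QWP
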