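import Pool.Agent.QWP.StB

set_option autoImplicit false

/-!
# QWP, EnD: the Duhamel formula in the energy space
-/

open MeasureTheory Filter Topology Set
open scoped ENNReal NNReal RealInnerProductSpace

namespace Pool.Agent.QWP

open Pool.Agent.QWE (E S sg mu K toK tau sh dl rev gr ig IsTest pd lap Rad dRad Rk dRk c0 WD Sm SmE IsSch half shr WTo)

namespace EnDx

theorem tau_cont (hG : Pool.Agent.QWE.St_Grp1) : Continuous (fun q : ℝ × K => tau q.1 q.2) := by
  obtain ⟨_, _, _, _, _, _, _, hc, _⟩ := hG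
  rw [continuous_iff_continuousAt]
  rintro ⟨s, k⟩
  rw [ContinuousAt, tendsto_iff_norm_sub_tendsto_zero]
  have h1 : ∀ q : ℝ × K, ‖tau q.1 q.2 - tau s k‖ ≤ ‖q.2 - k‖ + ‖tau q.1 k - tau s k‖ := by
    intro q
    have h2 : tau q.1 q.2 - tau s k = tau q.1 (q.2 - k) + (tau q.1 k - tau s k) := by
      rw [map_sub]; abel
    rw [h2]
    refine le_trans (norm_add_le _ _) ?_
    rw [LinearIsometry.norm_map]
  have h3 : Tendsto (fun q : ℝ × K => ‖q.2 - k‖ + ‖tau q.1 k - tau s k‖) (𝓝 (s, k)) (𝓝 0) := by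
    have h4 : Continuous (fun q : ℝ × K => ‖q.2 - k‖ + ‖tau q.1 k - tau s k‖) :=
      (continuous_snd.sub continuous_const).norm.add
        (((hc k).comp continuous_fst).sub continuous_const).norm
    have h5 := h4.tendsto (s, k)
    simpa using h5
  exact squeeze_zero (fun q => norm_nonneg _) h1 h3

/-- integrability of the Duhamel integrand -/
theorem int_tau (hG : Pool.Agent.QWE.St_Grp1) {μ : Measure ℝ} {G : ℝ → K} (h : Integrable G μ)
    (t : ℝ) : Integrable (fun r => tau (t - r) (G r)) μ := by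
  have h1 : AEStronglyMeasurable (fun r => tau (t - r) (G r)) μ := by
    have h2 : AEStronglyMeasurable (fun r : ℝ => ((t - r, G r) : ℝ × K)) μ :=
      (by fun_prop : Continuous fun r : ℝ => t - r).aestronglyMeasurable.prodMk h.1
    have h3 := Continuous.comp_aestronglyMeasurable
      (g := fun p : ℝ × K => tau p.1 p.2) (f := fun r : ℝ => ((t - r, G r) : ℝ × K))
      (tau_cont hG) h2
    exact h3
  rw [← integrable_norm_iff h1]
  have h2 : (fun r => ‖tau (t - r) (G r)‖) = fun r => ‖G r‖ :=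
    funext fun r => (tau (t - r)).norm_map _
  rw [h2]
  exact h.norm

theorem ii_tau (hG : Pool.Agent.QWE.St_Grp1) {a b : ℝ} {G : ℝ → K}
    (h : IntegrableOn G (Icc a b) volume)
    (t : ℝ) {s s' : ℝ} (hs : s ∈ Icc a b) (hs' : s' ∈ Icc a b) :
    IntervalIntegrable (fun r => tau (t - r) (G r)) volume s s' := by
  rw [intervalIntegrable_iff]
  refine IntegrableOn.mono_set (int_tau hG h t) ?_
  intro r hr
  have h1 := uIoc_subset_uIcc hr
  exact ordConnected_Icc.uIcc_subset hs hs' h1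

/-- integrability of the source along a solution -/
theorem source {b : ℝ} (hb : 2 < b) (hN : St_NLb) (hM : St_Meas) {x y : ℝ} {k : ℝ → K}
    (hxy : x ≤ y) (hk : IsSol b (Icc x y) k)
    (hfin : ∀ᵐ r ∂(volume.restrict (Icc x y)), sn b (k r) < ⊤) :
    IntegrableOn (fun t => NL b (k t)) (Icc x y) volume := by
  obtain ⟨⟨C, hC, hN1, -⟩, -⟩ := hN b hb
  obtain ⟨hI, hc, hS, hD⟩ := hk
  have hkm : AEStronglyMeasurable k (volume.restrict (Icc x y)) :=
    hc.aestronglyMeasurable measurableSet_Icc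
  have hNm := (hM b hb k (Icc x y) measurableSet_Icc hkm).2.2 hfin
  obtain ⟨B, hB⟩ := isCompact_Icc.exists_bound_of_continuousOn hc
  have hSf := hS x (left_mem_Icc.2 hxy) y (right_mem_Icc.2 hxy)
  refine ⟨hNm, ?_⟩
  have hle : ∫⁻ t in Icc x y, ‖NL b (k t)‖ₑ ≤
      (ENNReal.ofReal C * ENNReal.ofReal B) * SN b (Icc x y) k := by
    calc ∫⁻ t in Icc x y, ‖NL b (k t)‖ₑ
        ≤ ∫⁻ t in Icc x y, (ENNReal.ofReal C * ENNReal.ofReal B) * sn b (k t) ^ b := by
          refine setLIntegral_mono' measurableSet_Icc fun t ht => ?_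
          have h1 : ‖k t‖ₑ ≤ ENNReal.ofReal B := by
            rw [← ofReal_norm]
            exact ENNReal.ofReal_le_ofReal (hB t ht)
          calc ‖NL b (k t)‖ₑ ≤ ENNReal.ofReal C * sn b (k t) ^ b * ‖k t‖ₑ := hN1 (k t)
            _ ≤ ENNReal.ofReal C * sn b (k t) ^ b * ENNReal.ofReal B := by gcongr
            _ = (ENNReal.ofReal C * ENNReal.ofReal B) * sn b (k t) ^ b := by ring
      _ = (ENNReal.ofReal C * ENNReal.ofReal B) * SN b (Icc x y) k :=
          lintegral_const_mul' _ _ (ENNReal.mul_ne_top ENNReal.ofReal_ne_top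
            ENNReal.ofReal_ne_top)
  refine lt_of_le_of_lt hle ?_
  exact ENNReal.mul_lt_top (ENNReal.mul_lt_top ENNReal.ofReal_lt_top ENNReal.ofReal_lt_top) hSf

/-- the relation between the energy element and the state -/
def Rel (s : ℝ) (e k : K) : Prop := ∀ φ, IsTest φ →
  inner ℝ e (dRk φ) = - inner ℝ k (Rs s φ) ∧ inner ℝ e (Rk (lap φ)) = - inner ℝ k (dRs s φ)

theorem rel_of_isE {s : ℝ} {e k : K} (hU : IsU s k (U s k)) (hV : IsV s k (V s k))
    (h : IsE e (U s k) (V s k)) : Rel s e k := by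
  intro φ hφ
  rw [(h φ hφ).1, (h φ hφ).2, hU.2 φ hφ, hV.2 φ hφ]
  exact ⟨rfl, rfl⟩

theorem rel_sub {s : ℝ} {e k e' k' : K} (h : Rel s e k) (h' : Rel s e' k') :
    Rel s (e - e') (k - k') := by
  intro φ hφ
  rw [inner_sub_left, inner_sub_left, inner_sub_left, inner_sub_left, (h φ hφ).1, (h φ hφ).2,
    (h' φ hφ).1, (h' φ hφ).2]
  constructor <;> ring

theorem rel_tau (hG : Pool.Agent.QWE.St_Grp1) (hX : St_FreX) {s : ℝ} (hs : |s| < 1 / 2)
    {e k : K} (h : Rel s e k) (t : ℝ) : Rel s (tau t e) (tau t k) := by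
  obtain ⟨_, _, _, _, _, hadj, _⟩ := hG
  intro φ hφ
  obtain ⟨f1, f2, hf1, hf2, -, q2, q3, q4⟩ := hX φ (-t) hφ
  obtain ⟨q4, q5⟩ := q4 s hs
  rw [hadj, hadj, hadj, hadj, q2, q3, q4, q5, inner_add_right, inner_add_right, inner_add_right,
    inner_add_right, (h f1 hf1).1, (h f1 hf1).2, (h f2 hf2).2]
  refine ⟨by ring, ?_⟩
  -- the second identity needs the test function `lap f2`
  have h2 : IsTest (lap f2) := by
    refine ⟨?_, HasCompactSupport.intro hf2.2 fun x hx => ?_⟩
    · refine ContDiff.sum fun i _ => ?_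
      have hp : ∀ (i : Fin 5) {φ : E → ℝ}, IsTest φ → IsTest (pd i φ) := by
        intro i φ h
        refine ⟨?_, h.2.fderiv_apply ℝ _⟩
        exact (h.1.fderiv_right (m := ((⊤ : ℕ∞) : WithTop ℕ∞)) (by simp)).clm_apply contDiff_const
      exact (hp i (hp i hf2)).1
    · refine Finset.sum_eq_zero fun i _ => ?_
      have hsup : ∀ (i : Fin 5) (φ : E → ℝ), tsupport (pd i φ) ⊆ tsupport φ := fun i φ =>
        tsupport_fderiv_apply_subset ℝ _
      exact image_eq_zero_of_notMem_tsupport fun h2 => hx (hsup i f2 (hsup i _ h2))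
  rw [(h (lap f2) h2).1]
  ring

theorem rel_int {s a b : ℝ} {f g : ℝ → K} (hf : IntervalIntegrable f volume a b)
    (hg : IntervalIntegrable g volume a b)
    (h : ∀ᵐ r ∂(volume : Measure ℝ), r ∈ Set.uIoc a b → Rel s (f r) (g r)) :
    Rel s (∫ r in a..b, f r) (∫ r in a..b, g r) := by
  have key : ∀ (w : K) (f : ℝ → K), IntervalIntegrable f volume a b →
      inner ℝ (∫ r in a..b, f r) w = ∫ r in a..b, inner ℝ (f r) w := by
    intro w f hf
    have h1 := ContinuousLinearMap.intervalIntegral_comp_comm (innerSL ℝ w) hf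
    rw [real_inner_comm]
    have h2 : (innerSL ℝ w) (∫ r in a..b, f r) = inner ℝ w (∫ r in a..b, f r) := rfl
    rw [← h2, ← h1]
    refine intervalIntegral.integral_congr fun r _ => ?_
    change inner ℝ w (f r) = inner ℝ (f r) w
    exact real_inner_comm _ _
  intro φ hφ
  rw [key _ f hf, key _ f hf, key _ g hg, key _ g hg, ← intervalIntegral.integral_neg,
    ← intervalIntegral.integral_neg]
  constructor
  · refine intervalIntegral.integral_congr_ae ?_
    filter_upwards [h] with r hr hr'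
    exact (hr hr' φ hφ).1
  · refine intervalIntegral.integral_congr_ae ?_
    filter_upwards [h] with r hr hr'
    exact (hr hr' φ hφ).2

end EnDx

open EnDx in
theorem thm_EnD (hG : Pool.Agent.QWE.St_Grp1) (hFld : St_FldP) (hNLb : St_NLb) (hM : St_Meas)
    (hDu : St_DuhI) (hX : St_FreX) (hU : St_EnU) : St_EnD := by
  intro b hb x y B k g e hxy hk hB hg hae hE
  have hs : |sig b| < 1 / 2 := by
    unfold sig
    have h1 : 0 < 2 / b := by positivity
    have h2 : 2 / b < 1 := by
      rw [div_lt_one (by linarith)]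
      exact hb
    rw [abs_lt]
    constructor <;> linarith
  obtain ⟨C, hC, hF, -⟩ := hFld (sig b) hs
  have hsrc := source hb hNLb hM hxy hk (hae.mono fun r hr => hr.1)
  -- the relation of the sources
  have hR : ∀ᵐ r ∂(volume : Measure ℝ), r ∈ Icc x y → Rel (sig b) (g r) (NL b (k r)) := by
    rw [ae_restrict_iff' measurableSet_Icc] at hae
    filter_upwards [hae] with r hr hr'
    obtain ⟨h1, h2⟩ := hr hr'
    have h3 := ((hNLb b hb).2 (k r) h1).2.1
    intro φ hφ
    rw [(h2 φ hφ).1, (h2 φ hφ).2, (h3 φ hφ).1, (h3 φ hφ).2]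
    refine ⟨?_, rfl⟩
    simp
  have hform : ∀ x' ∈ Icc x y, ∀ t ∈ Icc x y,
      e t = tau (t - x') (e x') - ∫ r in x'..t, tau (t - r) (g r) := by
    intro x' hx' t ht
    have r1 : Rel (sig b) (e t) (k t) :=
      rel_of_isE (hF (k t)).1 (hF (k t)).2.2.1 (hE t ht)
    have r2 : Rel (sig b) (tau (t - x') (e x')) (tau (t - x') (k x')) :=
      rel_tau hG hX hs (rel_of_isE (hF (k x')).1 (hF (k x')).2.2.1 (hE x' hx')) _
    have r3 : Rel (sig b) (∫ r in x'..t, tau (t - r) (g r))
        (∫ r in x'..t, tau (t - r) (NL b (k r))) := by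
      refine rel_int (ii_tau hG hg t hx' ht) (ii_tau hG hsrc t hx' ht) ?_
      filter_upwards [hR] with r hr hr'
      have h1 := uIoc_subset_uIcc hr'
      exact rel_tau hG hX hs (hr (ordConnected_Icc.uIcc_subset hx' ht h1)) _
    have r4 := rel_sub r1 (rel_sub r2 r3)
    rw [← hk.2.2.2 x' hx' t ht, sub_self] at r4
    have h5 : e t - (tau (t - x') (e x') - ∫ r in x'..t, tau (t - r) (g r)) = 0 := by
      refine hU _ fun φ hφ => ?_
      rw [(r4 φ hφ).1, (r4 φ hφ).2, inner_zero_left, inner_zero_left, neg_zero]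
      exact ⟨rfl, rfl⟩
    exact sub_eq_zero.1 h5
  refine ⟨?_, hform⟩
  obtain ⟨C', -, hD⟩ := hDu b hb
  have h1 := (hD x y x g le_rfl hxy hg).1
  have h2 : ContinuousOn (fun t => tau (t - x) (e x) - ∫ r in x..t, tau (t - r) (g r))
      (Icc x y) := by
    refine ContinuousOn.sub ?_ h1
    have h3 : Continuous fun t : ℝ => tau (t - x) (e x) := by
      obtain ⟨_, _, _, _, _, _, _, hc, _⟩ := hG
      exact (hc (e x)).comp (continuous_id.sub continuous_const)
    exact h3.continuousOn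
  exact h2.congr fun t ht => hform x (left_mem_Icc.2 hxy) t ht

end Pool.Agent.QWP
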