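import Pool.Agent.QWP.StB
import Pool.Agent.QWE.Meas

/-!
# QWP, module EnG: energy sources (helper9)
-/

set_option autoImplicit false

open MeasureTheory Filter Topology Set
open scoped ENNReal NNReal RealInnerProductSpace Pointwise

namespace Pool.Agent.QWP

open Pool.Agent.QWE (E S sg mu K toK tau sh dl rev gr ig IsTest pd lap Rad dRad Rk dRk c0 WD Sm SmE IsSch half shr WTo)

namespace EnGx

theorem fn_cont {b : ℝ} (hb : 0 < b) : Continuous (Fn b) := by
  unfold Fn
  exact (continuous_abs.rpow_const fun _ => Or.inr hb.le).mul continuous_id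

/-- the element of a source. -/
theorem elem (hR : St_EnR) {F : E → ℝ} (hF : MemLp F 2 volume) :
    ∃ e : K, IsE e 0 F ∧ ‖e‖ₑ ≤ ENNReal.ofReal (√c0) * eLpNorm F 2 volume := by
  obtain ⟨h1, -, h3, -, -⟩ := hR
  have hFP : FP (0 : E → ℝ) F (fun _ => 0) := by
    refine ⟨MemLp.zero', hF, fun i => ⟨MemLp.zero', ?_⟩⟩
    intro φ hφ
    simp
  obtain ⟨e, he⟩ := h1 _ _ _ hFP
  refine ⟨e, he, ?_⟩
  have h4 := h3 e e _ _ _ _ _ _ hFP hFP he he
  have hc : 0 ≤ c0 := by
    unfold c0
    positivity
  have h5 : (eLpNorm F 2 volume).toReal ^ 2 = ∫ x, F x * F x := by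
    have h6 := hF.eLpNorm_eq_integral_rpow_norm (by norm_num) (by norm_num)
    rw [h6, ENNReal.toReal_ofReal (by positivity)]
    have h7 : (∫ x, ‖F x‖ ^ (2 : ℝ≥0∞).toReal) = ∫ x, F x * F x := by
      refine integral_congr_ae (Eventually.of_forall fun x => ?_)
      simp [sq]
    rw [h7, ENNReal.toReal_ofNat, ← one_div, ← Real.sqrt_eq_rpow, Real.sq_sqrt]
    exact integral_nonneg fun x => mul_self_nonneg _
  have h8 : ‖e‖ = √c0 * (eLpNorm F 2 volume).toReal := by
    have h9 : ‖e‖ ^ 2 = (√c0 * (eLpNorm F 2 volume).toReal) ^ 2 := by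
      rw [mul_pow, Real.sq_sqrt hc, h5, ← real_inner_self_eq_norm_sq, h4]
      simp
    exact (sq_eq_sq₀ (norm_nonneg _) (by positivity)).1 h9
  rw [← ofReal_norm, h8, ENNReal.ofReal_mul (Real.sqrt_nonneg _), ENNReal.ofReal_toReal hF.2.ne]

end EnGx

open EnGx

theorem thm_EnG (hN : St_NLw) (hM : St_Meas) (hS : St_EnS) (hR : St_EnR) (hU : St_EnU) : St_EnG := by
  intro b hb x y B k hxy hsol hEB
  have hb0 : 0 < b := by linarith
  have hkm : AEStronglyMeasurable k (volume.restrict (Icc x y)) :=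
    hsol.2.1.aestronglyMeasurable measurableSet_Icc
  have hsm := hkm.stronglyMeasurable_mk
  obtain ⟨hsn, -, -⟩ := hM b hb k (Icc x y) measurableSet_Icc hkm
  have hSN : SN b (Icc x y) k < ⊤ :=
    hsol.2.2.1 x (left_mem_Icc.2 hxy) y (right_mem_Icc.2 hxy)
  have hfin : ∀ᵐ r ∂(volume.restrict (Icc x y)), sn b (k r) < ⊤ := by
    filter_upwards [ae_lt_top' (hsn.pow_const b) hSN.ne] with r hr
    by_contra hcon
    rw [not_lt, top_le_iff] at hcon
    rw [hcon, ENNReal.top_rpow_of_pos hb0] at hr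
    exact lt_irrefl _ hr
  have hgood : ∀ᵐ r ∂(volume.restrict (Icc x y)),
      sn b (k r) < ⊤ ∧ r ∈ Icc x y ∧ k r = hkm.mk k r := by
    filter_upwards [hfin, ae_restrict_mem measurableSet_Icc, hkm.ae_eq_mk] with r h1 h2 h3
    exact ⟨h1, h2, h3⟩
  obtain ⟨N, hN1, hN2, hN3⟩ := exists_measurable_superset_of_null (ae_iff.1 hgood)
  have hT : ∀ r, r ∉ N → sn b (k r) < ⊤ ∧ r ∈ Icc x y ∧ k r = hkm.mk k r := by
    intro r hr
    by_contra hcon
    exact hr (hN1 hcon)
  have hex : ∀ r, ∃ e : K, r ∉ N → MemLp (fun z => Fn b (U (sig b) (k r) z)) 2 volume ∧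
      IsE e 0 (fun z => Fn b (U (sig b) (k r) z)) ∧
      ‖e‖ₑ ≤ ENNReal.ofReal (√c0) * (sn b (k r) ^ b * ENNReal.ofReal B) := by
    intro r
    by_cases hr : r ∈ N
    · exact ⟨0, fun h => absurd hr h⟩
    · obtain ⟨h1, h2, -⟩ := hT r hr
      obtain ⟨h3, -, h4⟩ := (hS b hb).1 (k r) B (hEB r h2)
      have h5 : MemLp (fun z => Fn b (U (sig b) (k r) z)) 2 volume := by
        refine ⟨(fn_cont hb0).comp_aestronglyMeasurable h3.1.1, lt_of_le_of_lt h4 ?_⟩
        exact ENNReal.mul_lt_top (ENNReal.rpow_lt_top_of_nonneg hb0.le h1.ne) ENNReal.ofReal_lt_top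
      obtain ⟨e, he1, he2⟩ := elem hR h5
      exact ⟨e, fun _ => ⟨h5, he1, he2.trans (by gcongr)⟩⟩
  choose e he using hex
  have hNm : MeasurableSet Nᶜ := hN2.compl
  have : Fact ((2 : ℝ≥0∞) ≠ ⊤) := ⟨by norm_num⟩
  have : IsSeparable mu := isSeparable_of_sigmaFinite _
  have : SecondCountableTopology K := Lp.SecondCountableTopology
  have hD : Dense ((Submodule.span ℝ {w : K | ∃ φ, IsTest φ ∧ (w = dRk φ ∨ w = Rk (lap φ))} :
      Submodule ℝ K) : Set K) := by
    rw [Submodule.dense_iff_topologicalClosure_eq_top, Submodule.topologicalClosure_eq_top_iff,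
      Submodule.eq_bot_iff]
    intro v hv
    refine hU v fun φ hφ => ⟨?_, ?_⟩
    · rw [real_inner_comm]
      exact (Submodule.mem_orthogonal _ _).1 hv _ (Submodule.subset_span ⟨φ, hφ, Or.inl rfl⟩)
    · rw [real_inner_comm]
      exact (Submodule.mem_orthogonal _ _).1 hv _ (Submodule.subset_span ⟨φ, hφ, Or.inr rfl⟩)
  have hg : StronglyMeasurable (Nᶜ.indicator e) := by
    refine Pool.Agent.QWE.Measx.pettis hD ?_
    intro w hw
    refine Submodule.span_induction (p := fun w _ => Measurable fun r => inner ℝ (Nᶜ.indicator e r) w)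
      ?_ ?_ ?_ ?_ hw
    · rintro w ⟨φ, hφ, rfl | rfl⟩
      · have h1 : (fun r => inner ℝ (Nᶜ.indicator e r) (dRk φ)) = fun _ => (0 : ℝ) := by
          funext r
          by_cases hr : r ∈ N
          · rw [indicator_of_notMem (by simpa using hr), inner_zero_left]
          · rw [indicator_of_mem (by simpa using hr), (((he r hr).2.1) φ hφ).1]
            simp
        rw [h1]
        exact measurable_const
      · have hc := (hN b hb φ hφ).2.2.1
        have h1 : (fun r => inner ℝ (Nᶜ.indicator e r) (Rk (lap φ))) =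
            Nᶜ.indicator fun r => - ∫ z, Fn b (U (sig b) (hkm.mk k r) z) * φ z := by
          funext r
          by_cases hr : r ∈ N
          · rw [indicator_of_notMem (by simpa using hr), indicator_of_notMem (by simpa using hr),
              inner_zero_left]
          · rw [indicator_of_mem (by simpa using hr), indicator_of_mem (by simpa using hr),
              (((he r hr).2.1) φ hφ).2, (hT r hr).2.2]
        rw [h1]
        exact ((hc.comp_stronglyMeasurable hsm).measurable.neg).indicator hNm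
    · simp only [inner_zero_right]
      exact measurable_const
    · intro u v _ _ hu hv
      simp only [inner_add_right]
      exact hu.add hv
    · intro a v _ hv
      simp only [inner_smul_right]
      exact hv.const_mul a
  have hbd : ∀ r, ‖Nᶜ.indicator e r‖ₑ ≤
      ENNReal.ofReal (√c0) * ENNReal.ofReal B * sn b (k r) ^ b := by
    intro r
    by_cases hr : r ∈ N
    · rw [indicator_of_notMem (by simpa using hr), enorm_zero]
      exact bot_le
    · rw [indicator_of_mem (by simpa using hr)]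
      refine ((he r hr).2.2).trans (le_of_eq ?_)
      ring
  refine ⟨Nᶜ.indicator e, ⟨hg.aestronglyMeasurable, ?_⟩, ?_⟩
  · refine lt_of_le_of_lt (lintegral_mono hbd) ?_
    rw [lintegral_const_mul' _ _ (by finiteness)]
    exact ENNReal.mul_lt_top (by finiteness) hSN
  · have h1 : ∀ᵐ r ∂(volume.restrict (Icc x y)), r ∉ N := by
      rw [ae_iff]
      simpa using hN3
    filter_upwards [h1] with r hr
    refine ⟨(hT r hr).1, (he r hr).1, ?_⟩
    rw [indicator_of_mem (by simpa using hr)]
    exact (he r hr).2.1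

end Pool.Agent.QWP
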