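import Pool.Agent.QWP.StB
import Pool.Agent.QWE.FEd
import Pool.Agent.QWE.Fld

set_option autoImplicit false

/-!
# QWP / EnR: representation of finite energy pairs
-/

open MeasureTheory Filter Topology Set
open scoped ENNReal NNReal RealInnerProductSpace ContDiff

namespace Pool.Agent.QWP

open Pool.Agent.QWE (E S sg mu K toK tau sh dl rev gr ig IsTest pd lap Rad dRad Rk dRk c0 WD Sm SmE IsSch half shr WTo)

namespace EnRx

open Pool.Agent.QWE.Linx Pool.Agent.QWE.Fldx Pool.Agent.QWE.FEdx Pool.Agent.QWE.Moll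

/-- test state -/
noncomputable def ee (f g : E → ℝ) : K := c0 • (dRk (lap f) - Rk (lap g))

lemma inner_lap (hG : Pool.Agent.QWE.St_Grp1) (hI : Pool.Agent.QWE.St_Iso) (hFt : St_Ft) (hPar : St_Par)
    (hIdn : St_Idn) {f φ : E → ℝ} (hf : IsTest f) (hφ : IsTest φ) :
    c0 * inner ℝ (Rk (lap f)) (Rk (lap φ)) = ∫ x, f x * φ x := by
  have sf := Pool.Agent.QWE.Linx.test_sch (test_lap hf)
  have sff := Pool.Agent.QWE.Linx.test_sch (test_lap (test_lap hf))
  have sφ := Pool.Agent.QWE.Linx.test_sch hφ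
  have sφ' := Pool.Agent.QWE.Linx.test_sch (test_lap hφ)
  have h1 := (hPar 0 0 0 (lap f) (lap φ) (by norm_num) (by norm_num) sf sφ').2.2.2.2.1
  have h2 := (hPar 0 0 0 (lap (lap f)) φ (by norm_num) (by norm_num) sff sφ).2.2.2.2.1
  rw [(hIdn _ _ sf sf).1, (hIdn _ _ sφ' sφ').1, hG.2.1] at h1
  rw [(hIdn _ _ sff sff).1, (hIdn _ _ sφ sφ).1, hG.2.1] at h2
  rw [← (hI f φ (Pool.Agent.QWE.Linx.test_sch hf) sφ).1, h1, h2]
  congr 3
  funext z
  rw [((hFt.2 φ sφ).2.2.2.2.1 _), ((hFt.2 (lap f) sf).2.2.2.2.1 _), map_mul, map_neg, Complex.conj_ofReal]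
  ring

lemma isE_ee (hG : Pool.Agent.QWE.St_Grp1) (hI : Pool.Agent.QWE.St_Iso) (hFt : St_Ft) (hPar : St_Par)
    (hIdn : St_Idn) {f g : E → ℝ} (hf : IsTest f) (hg : IsTest g) : IsE (ee f g) f g := by
  intro φ hφ
  have h1 := (hI f φ (Pool.Agent.QWE.Linx.test_sch hf) (Pool.Agent.QWE.Linx.test_sch hφ)).2.1
  have h2 := (hI (lap g) φ (Pool.Agent.QWE.Linx.test_sch (test_lap hg)) (Pool.Agent.QWE.Linx.test_sch hφ)).2.2
  have h3 : inner ℝ (dRk (lap f)) (Rk (lap φ)) = 0 := by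
    rw [real_inner_comm]
    exact (hI (lap φ) (lap f) (Pool.Agent.QWE.Linx.test_sch (test_lap hφ))
      (Pool.Agent.QWE.Linx.test_sch (test_lap hf))).2.2
  have h4 := inner_lap hG hI hFt hPar hIdn hg hφ
  constructor
  · unfold ee
    rw [real_inner_smul_left, inner_sub_left, h2, sub_zero, h1]
  · unfold ee
    rw [real_inner_smul_left, inner_sub_left, h3, zero_sub, mul_neg, h4]

lemma uniq (hD : Pool.Agent.QWE.St_Dens) {e e' : K} {u v : E → ℝ} (h : IsE e u v) (h' : IsE e' u v) : e = e' := by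
  rw [← sub_eq_zero]
  have h0 : ∀ f g, IsTest f → IsTest g → inner ℝ (e - e') (Pool.Agent.QWE.Theta f g) = 0 := by
    intro f g hf hg
    unfold Pool.Agent.QWE.Theta
    rw [real_inner_smul_right, inner_sub_right, inner_sub_left, inner_sub_left, (h _ (test_lap hf)).2,
      (h' _ (test_lap hf)).2, (h _ (test_lap hg)).1, (h' _ (test_lap hg)).1]
    ring
  by_contra hne
  have hpos := norm_pos_iff.2 hne
  obtain ⟨f, g, hf, hg, hlt⟩ := hD.2 (e - e') ‖e - e'‖ hpos
  have h1 : ‖e - e'‖ ^ 2 = inner ℝ (e - e') ((e - e') - Pool.Agent.QWE.Theta f g) := by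
    rw [inner_sub_right, h0 f g hf hg, sub_zero, real_inner_self_eq_norm_sq]
  have h2 := real_inner_le_norm (e - e') ((e - e') - Pool.Agent.QWE.Theta f g)
  nlinarith

lemma in_L2 {a b : E → ℝ} (ha : MemLp a 2 volume) (hb : MemLp b 2 volume) :
    ∫ x, a x * b x = inner ℝ (ha.toLp a) (hb.toLp b) := by
  rw [L2.inner_def]
  refine integral_congr_ae ?_
  filter_upwards [ha.coeFn_toLp, hb.coeFn_toLp] with x h1 h2
  rw [h1, h2]
  simp [mul_comm]

/-- gradient components and velocity in `L²` -/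
noncomputable def P (i : Fin 5) {f : E → ℝ} (hf : IsTest f) : Lp ℝ 2 (volume : Measure E) :=
  (memLp_test (Pool.Agent.QWE.Linx.test_pd hf i) 2).toLp (pd i f)

/-- velocity in `L²` -/
noncomputable def Q {f : E → ℝ} (hf : IsTest f) : Lp ℝ 2 (volume : Measure E) :=
  (memLp_test hf 2).toLp f

lemma inner_ee (hG : Pool.Agent.QWE.St_Grp1) (hI : Pool.Agent.QWE.St_Iso) (hFt : St_Ft) (hPar : St_Par)
    (hIdn : St_Idn) {f g f' g' : E → ℝ} (hf : IsTest f) (hg : IsTest g) (hf' : IsTest f') (hg' : IsTest g') :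
    inner ℝ (ee f g) (ee f' g') = c0 * ((∑ i, inner ℝ (P i hf) (P i hf')) + inner ℝ (Q hg) (Q hg')) := by
  have h := isE_ee hG hI hFt hPar hIdn hf hg
  have h1 := (h _ (test_lap hf')).1
  have h2 := (h _ hg').2
  have h3 : inner ℝ (ee f g) (ee f' g') =
      c0 * (inner ℝ (ee f g) (dRk (lap f')) - inner ℝ (ee f g) (Rk (lap g'))) := by
    conv_lhs => rw [show ee f' g' = c0 • (dRk (lap f') - Rk (lap g')) from rfl]
    rw [real_inner_smul_right, inner_sub_right]
  rw [h3, h1, h2, ibp_lap hf hf']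
  unfold P Q
  simp only [← in_L2]
  ring

lemma norm_ee (hG : Pool.Agent.QWE.St_Grp1) (hI : Pool.Agent.QWE.St_Iso) (hFt : St_Ft) (hPar : St_Par)
    (hIdn : St_Idn) {f g f' g' : E → ℝ} (hf : IsTest f) (hg : IsTest g) (hf' : IsTest f') (hg' : IsTest g') :
    ‖ee f g - ee f' g'‖ ^ 2 = c0 * ((∑ i, ‖P i hf - P i hf'‖ ^ 2) + ‖Q hg - Q hg'‖ ^ 2) := by
  simp only [norm_sub_sq_real, Finset.sum_add_distrib, Finset.sum_sub_distrib, ← Finset.mul_sum]
  simp only [← real_inner_self_eq_norm_sq, inner_ee hG hI hFt hPar hIdn hf hg hf hg,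
    inner_ee hG hI hFt hPar hIdn hf hg hf' hg', inner_ee hG hI hFt hPar hIdn hf' hg' hf' hg']
  ring

lemma lim_pair {p : ℝ≥0∞} (hp : 1 ≤ p) {f : ℕ → E → ℝ} {u φ : E → ℝ} (hm : ∀ n, MemLp (f n) p volume)
    (hu : MemLp u p volume) (hz : Z p (fun n x => f n x - u x)) (hφ : IsTest φ) :
    Tendsto (fun n => ∫ x, f n x * φ x) atTop (𝓝 (∫ x, u x * φ x)) := by
  obtain ⟨D, hD⟩ := pair_cont p hp hφ
  rw [tendsto_iff_dist_tendsto_zero]
  have h0 : Tendsto (fun n => D * (eLpNorm (fun x => f n x - u x) p volume).toReal) atTop (𝓝 0) := by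
    have := ((ENNReal.tendsto_toReal ENNReal.zero_ne_top).comp hz.2).const_mul D
    simpa using this
  refine squeeze_zero (fun n => dist_nonneg) (fun n => ?_) h0
  rw [Real.dist_eq, ← integral_sub (int_mul ((hm n).locallyIntegrable hp) hφ)
    (int_mul (hu.locallyIntegrable hp) hφ)]
  refine le_trans (le_of_eq ?_) (hD (fun x => f n x - u x) ((hm n).sub hu))
  congr 2
  ext x
  ring

lemma lim_L2 {f : ℕ → E → ℝ} {u : E → ℝ} (hm : ∀ n, MemLp (f n) 2 volume) (hu : MemLp u 2 volume)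
    (hz : Z 2 (fun n x => f n x - u x)) :
    Tendsto (fun n => (hm n).toLp (f n)) atTop (𝓝 (hu.toLp u)) :=
  (Lp.tendsto_Lp_iff_tendsto_eLpNorm'' _ hm _ hu).2 hz.2

lemma ten1 : (1 : ℝ≥0∞) ≤ 10 / 3 := Pool.Agent.QWE.GamEx.one_le_ten

/-- density of test functions -/
lemma dense {u v : E → ℝ} {G : Fin 5 → E → ℝ} (h : FP u v G) :
    ∃ f g : ℕ → E → ℝ, (∀ n, IsTest (f n)) ∧ (∀ n, IsTest (g n)) ∧
      Z (10 / 3) (fun n x => f n x - u x) ∧ (∀ i, Z 2 (fun n x => pd i (f n) x - G i x)) ∧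
      Z 2 (fun n x => g n x - v x) := by
  obtain ⟨B, A, hB, hA, hb1, hb2, hb3, hb4⟩ := chi_bds
  obtain ⟨hu, hv, hGG⟩ := h
  have hul : LocallyIntegrable u volume := hu.locallyIntegrable ten1
  have hvl : LocallyIntegrable v volume := hv.locallyIntegrable (by norm_num)
  have sm0 : ∀ n, ContDiff ℝ ∞ (mw u n) := fun n => mc_smooth (ph_test n) hul
  have sm1 : ∀ n, ContDiff ℝ ∞ (mw v n) := fun n => mc_smooth (ph_test n) hvl
  refine ⟨fun n x => chi n x * mw u n x, fun n x => chi n x * mw v n x,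
    fun n => test_mul (chi_test n) (sm0 n), fun n => test_mul (chi_test n) (sm1 n),
    cut_sub ten1 ten3 hu, fun i => ?_, cut_sub (by norm_num) (by norm_num) hv⟩
  have p1 : ∀ n x, pd i (fun x => chi n x * mw u n x) x =
      pd i (chi n) x * mw u n x + chi n x * mw (G i) n x := by
    intro n x
    rw [pd_mul (test_diff (chi_test n) x) ((sm0 n).differentiable (by simp) x),
      pd_mw hul (hGG i).2]
  have z1 : Z 2 (fun n x => pd i (chi n) x * (mw u n x - u x)) :=
    Z.hol ht1 hA (fun n => test_meas (Pool.Agent.QWE.Linx.test_pd (chi_test n) i)) (fun n => hb3 n i)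
      (mw_sub ten1 ten3 hu)
  have mS : ∀ n : ℕ, MeasurableSet {x : E | (n : ℝ) < ‖x‖} := fun n =>
    measurableSet_lt measurable_const measurable_norm
  have z2 : Z (10 / 3) (fun n x => ({x : E | (n : ℝ) < ‖x‖}.indicator (fun _ => (1 : ℝ)) x) * u x) := by
    refine Z.dom ten1 ten3 (B := 1) (fun n => (measurable_const.indicator (mS n)).aestronglyMeasurable) hu
      (fun n x => ?_) fun x => ?_
    · by_cases hx : x ∈ {x : E | (n : ℝ) < ‖x‖}
      · rw [indicator_of_mem hx]; norm_num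
      · rw [indicator_of_notMem hx]; norm_num
    · filter_upwards [chi_ev x] with n hn
      rw [indicator_of_notMem]
      exact not_lt.2 hn
  have z3 : Z 2 (fun n x => pd i (chi n) x *
      (({x : E | (n : ℝ) < ‖x‖}.indicator (fun _ => (1 : ℝ)) x) * u x)) :=
    Z.hol ht1 hA (fun n => test_meas (Pool.Agent.QWE.Linx.test_pd (chi_test n) i)) (fun n => hb3 n i) z2
  have z4 := cut_sub (p := 2) (by norm_num) (by norm_num) (hGG i).1
  refine ((z1.add (by norm_num) z3).add (by norm_num) z4).congr fun n => ?_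
  funext x
  rw [p1]
  by_cases hx : x ∈ {x : E | (n : ℝ) < ‖x‖}
  · rw [indicator_of_mem hx]; ring
  · rw [pd_chi_zero n i x (not_lt.1 hx)]; ring

lemma theta_ee (hG : Pool.Agent.QWE.St_Grp1) (hI : Pool.Agent.QWE.St_Iso) (hD : Pool.Agent.QWE.St_Dens)
    (hFt : St_Ft) (hPar : St_Par) (hIdn : St_Idn) {f g : E → ℝ} (hf : IsTest f) (hg : IsTest g) :
    Pool.Agent.QWE.Theta f g = ee (fun x => - g x) (fun x => - lap f x) := by
  have hg' : IsTest fun x => - g x := ⟨hg.1.neg, hg.2.neg⟩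
  have hl' : IsTest fun x => - lap f x := ⟨(test_lap hf).1.neg, (test_lap hf).2.neg⟩
  refine uniq hD (u := fun x => - g x) (v := fun x => - lap f x) ?_ (isE_ee hG hI hFt hPar hIdn hg' hl')
  intro φ hφ
  rw [inner_Theta_dRk hI hf hg (Pool.Agent.QWE.Linx.test_sch hφ),
    inner_Theta_Rk hI hf hg (Pool.Agent.QWE.Linx.test_sch (test_lap hφ))]
  constructor
  · rw [← integral_neg]
    exact integral_congr_ae (Eventually.of_forall fun x => by simp only; ring)
  · have h1 : - ∫ x, - lap f x * φ x = ∫ x, φ x * lap f x := by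
      rw [← integral_neg]
      exact integral_congr_ae (Eventually.of_forall fun x => by simp only; ring)
    rw [h1, ibp_lap hf hφ, ibp_lap hφ hf]
    congr 1
    refine Finset.sum_congr rfl fun i _ => ?_
    exact integral_congr_ae (Eventually.of_forall fun x => mul_comm _ _)

/-- convergence of test states -/
lemma conv (hG : Pool.Agent.QWE.St_Grp1) (hI : Pool.Agent.QWE.St_Iso) (hFt : St_Ft) (hPar : St_Par)
    (hIdn : St_Idn) {u v : E → ℝ} {G : Fin 5 → E → ℝ} (h : FP u v G) {f g : ℕ → E → ℝ}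
    (hf : ∀ n, IsTest (f n)) (hg : ∀ n, IsTest (g n)) (h1 : Z (10 / 3) (fun n x => f n x - u x))
    (h2 : ∀ i, Z 2 (fun n x => pd i (f n) x - G i x)) (h3 : Z 2 (fun n x => g n x - v x)) :
    ∃ e : K, IsE e u v ∧ Tendsto (fun n => ee (f n) (g n)) atTop (𝓝 e) := by
  have hcau : CauchySeq fun n => ee (f n) (g n) := by
    rw [cauchySeq_iff_tendsto_dist_atTop_0]
    have c1 : ∀ i, Tendsto (fun n : ℕ × ℕ => ‖P i (hf n.1) - P i (hf n.2)‖) atTop (𝓝 0) := by
      intro i
      have c := (lim_L2 (fun n => memLp_test (Pool.Agent.QWE.Linx.test_pd (hf n) i) 2) (h.2.2 i).1 (h2 i)).cauchySeq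
      rw [cauchySeq_iff_tendsto_dist_atTop_0] at c
      refine c.congr fun n => ?_
      rw [dist_eq_norm]
      rfl
    have c2 : Tendsto (fun n : ℕ × ℕ => ‖Q (hg n.1) - Q (hg n.2)‖) atTop (𝓝 0) := by
      have c := (lim_L2 (fun n => memLp_test (hg n) 2) h.2.1 h3).cauchySeq
      rw [cauchySeq_iff_tendsto_dist_atTop_0] at c
      refine c.congr fun n => ?_
      rw [dist_eq_norm]
      rfl
    have c3 : Tendsto (fun n : ℕ × ℕ => c0 * ((∑ i, ‖P i (hf n.1) - P i (hf n.2)‖ ^ 2) +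
        ‖Q (hg n.1) - Q (hg n.2)‖ ^ 2)) atTop (𝓝 0) := by
      have := ((tendsto_finsetSum Finset.univ fun i _ => (c1 i).pow 2).add (c2.pow 2)).const_mul c0
      simpa using this
    have c4 := (Real.continuous_sqrt.tendsto 0).comp c3
    rw [Real.sqrt_zero] at c4
    refine c4.congr fun n => ?_
    simp only [Function.comp_apply]
    rw [← norm_ee hG hI hFt hPar hIdn (hf n.1) (hg n.1) (hf n.2) (hg n.2), Real.sqrt_sq (norm_nonneg _),
      dist_eq_norm]
  obtain ⟨e, he⟩ := cauchySeq_tendsto_of_complete hcau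
  refine ⟨e, fun φ hφ => ⟨?_, ?_⟩, he⟩
  · have l1 : Tendsto (fun n => inner ℝ (ee (f n) (g n)) (dRk φ)) atTop (𝓝 (inner ℝ e (dRk φ))) :=
      he.inner tendsto_const_nhds
    have l2 := (lim_pair ten1 (fun n => memLp_test (hf n) (10 / 3)) h.1 h1 hφ).neg
    refine tendsto_nhds_unique l1 (l2.congr fun n => ?_)
    exact ((isE_ee hG hI hFt hPar hIdn (hf n) (hg n) φ hφ).1).symm
  · have l1 : Tendsto (fun n => inner ℝ (ee (f n) (g n)) (Rk (lap φ))) atTop (𝓝 (inner ℝ e (Rk (lap φ)))) :=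
      he.inner tendsto_const_nhds
    have l2 := (lim_pair (by norm_num) (fun n => memLp_test (hg n) 2) h.2.1 h3 hφ).neg
    refine tendsto_nhds_unique l1 (l2.congr fun n => ?_)
    exact ((isE_ee hG hI hFt hPar hIdn (hf n) (hg n) φ hφ).2).symm

end EnRx

open EnRx in
open Pool.Agent.QWE.Linx Pool.Agent.QWE.Fldx Pool.Agent.QWE.FEdx Pool.Agent.QWE.Moll in
theorem thm_EnR (hG : Pool.Agent.QWE.St_Grp1) (hI : Pool.Agent.QWE.St_Iso) (hD : Pool.Agent.QWE.St_Dens)
    (hS : Pool.Agent.QWE.St_Sob) (hFt : St_Ft) (hPar : St_Par) (hIdn : St_Idn) : St_EnR := by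
  refine ⟨fun u v G h => ?_, fun e => ?_, fun e e' u v u' v' G G' h h' he he' => ?_,
    fun f g hf hg => isE_ee hG hI hFt hPar hIdn hf hg, fun e ε hε => ?_⟩
  · obtain ⟨f, g, hf, hg, h1, h2, h3⟩ := dense h
    obtain ⟨e, he, -⟩ := conv hG hI hFt hPar hIdn h hf hg h1 h2 h3
    exact ⟨e, he⟩
  · obtain ⟨C, hC, hs⟩ := hS
    have hc1 : 0 ≤ √(1 / c0) := Real.sqrt_nonneg _
    obtain ⟨u, hu, -, hu'⟩ := ext_test hI hD (10 / 3) ten1 (C * (5 * √(1 / c0))) (by positivity)
      (fun φ => - dRk φ) (fun f g hf hg => by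
        refine ⟨fun x => - g x, (memLp_test hg (10 / 3)).neg, ?_, fun φ hφ => ?_⟩
        · have e1 : eLpNorm (fun x => - g x) (10 / 3) (volume : Measure E) = eLpNorm g (10 / 3) volume :=
            eLpNorm_neg g _ _
          rw [e1]
          refine (hs g hg).2.2.2.trans ?_
          have e2 : ∑ i, eLpNorm (pd i g) 2 volume ≤
              5 * (ENNReal.ofReal (√(1 / c0)) * ‖Pool.Agent.QWE.Theta f g‖ₑ) := by
            refine (Finset.sum_le_sum fun i _ => (theta_bound hI hf hg).2 i).trans (le_of_eq ?_)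
            rw [Finset.sum_const, Finset.card_univ, Fintype.card_fin, nsmul_eq_mul]
            norm_num
          calc ENNReal.ofReal C * ∑ i, eLpNorm (pd i g) 2 volume ≤
                ENNReal.ofReal C * (5 * (ENNReal.ofReal (√(1 / c0)) * ‖Pool.Agent.QWE.Theta f g‖ₑ)) := by
                gcongr
            _ = ENNReal.ofReal (C * (5 * √(1 / c0))) * ‖Pool.Agent.QWE.Theta f g‖ₑ := by
                rw [ENNReal.ofReal_mul hC.le, ENNReal.ofReal_mul (by norm_num), ENNReal.ofReal_ofNat]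
                ring
        · rw [inner_neg_right, inner_Theta_dRk hI hf hg (Pool.Agent.QWE.Linx.test_sch hφ), ← integral_neg]
          exact integral_congr_ae (Eventually.of_forall fun x => by simp only; ring)) e
    obtain ⟨v, hv, -, hv'⟩ := ext_test hI hD 2 (by norm_num) (√(1 / c0)) hc1
      (fun φ => - Rk (lap φ)) (fun f g hf hg => by
        refine ⟨fun x => - lap f x, (memLp_test (test_lap hf) 2).neg, ?_, fun φ hφ => ?_⟩
        · have e1 : eLpNorm (fun x => - lap f x) 2 (volume : Measure E) = eLpNorm (lap f) 2 volume :=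
            eLpNorm_neg _ _ _
          rw [e1]
          exact (theta_bound hI hf hg).1
        · rw [inner_neg_right, inner_Theta_Rk hI hf hg (Pool.Agent.QWE.Linx.test_sch (test_lap hφ)),
            ibp_lap hf hφ]
          have h1 : ∫ x, - lap f x * φ x = - ∫ x, φ x * lap f x := by
            rw [← integral_neg]
            exact integral_congr_ae (Eventually.of_forall fun x => by simp only; ring)
          rw [h1, ibp_lap hφ hf]
          congr 2
          refine Finset.sum_congr rfl fun i _ => ?_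
          exact integral_congr_ae (Eventually.of_forall fun x => mul_comm _ _)) e
    have hW : ∀ i, ∃ w : E → ℝ, MemLp w 2 volume ∧ eLpNorm w 2 volume ≤ ENNReal.ofReal (√(1 / c0)) * ‖e‖ₑ ∧
        ∀ φ, IsTest φ → ∫ x, w x * φ x = inner ℝ e (dRk (pd i φ)) := fun i =>
      ext_test hI hD 2 (by norm_num) (√(1 / c0)) hc1 (fun φ => dRk (pd i φ)) (fun f g hf hg => by
        refine ⟨fun x => - pd i g x, (memLp_test (Pool.Agent.QWE.Linx.test_pd hg i) 2).neg, ?_, fun φ hφ => ?_⟩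
        · have e1 : eLpNorm (fun x => - pd i g x) 2 (volume : Measure E) = eLpNorm (pd i g) 2 volume :=
            eLpNorm_neg _ _ _
          rw [e1]
          exact (theta_bound hI hf hg).2 i
        · rw [inner_Theta_dRk hI hf hg (Pool.Agent.QWE.Linx.test_sch (Pool.Agent.QWE.Linx.test_pd hφ i)),
            ibp i hg hφ, ← integral_neg]
          exact integral_congr_ae (Eventually.of_forall fun x => by simp only; ring)) e
    choose G hG1 _ hG2 using hW
    refine ⟨u, v, G, ⟨hu, hv, fun i => ⟨hG1 i, fun φ hφ => ?_⟩⟩, fun φ hφ => ⟨?_, ?_⟩⟩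
    · rw [hG2 i φ hφ, hu' _ (Pool.Agent.QWE.Linx.test_pd hφ i), inner_neg_right]
    · rw [hu' φ hφ, inner_neg_right, neg_neg]
    · rw [hv' φ hφ, inner_neg_right, neg_neg]
  · obtain ⟨f, g, hf, hg, h1, h2, h3⟩ := dense h
    obtain ⟨e1, he1, l1⟩ := conv hG hI hFt hPar hIdn h hf hg h1 h2 h3
    obtain ⟨f', g', hf', hg', h1', h2', h3'⟩ := dense h'
    obtain ⟨e2, he2, l2⟩ := conv hG hI hFt hPar hIdn h' hf' hg' h1' h2' h3'
    rw [uniq hD he he1, uniq hD he' he2]
    have l3 : Tendsto (fun n => inner ℝ (ee (f n) (g n)) (ee (f' n) (g' n))) atTop (𝓝 (inner ℝ e1 e2)) :=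
      l1.inner l2
    refine tendsto_nhds_unique l3 ?_
    have l4 : ∀ i, Tendsto (fun n => inner ℝ (P i (hf n)) (P i (hf' n))) atTop
        (𝓝 (∫ x, G i x * G' i x)) := by
      intro i
      rw [in_L2 (h.2.2 i).1 (h'.2.2 i).1]
      exact (lim_L2 (fun n => memLp_test (Pool.Agent.QWE.Linx.test_pd (hf n) i) 2) (h.2.2 i).1 (h2 i)).inner
        (lim_L2 (fun n => memLp_test (Pool.Agent.QWE.Linx.test_pd (hf' n) i) 2) (h'.2.2 i).1 (h2' i))
    have l5 : Tendsto (fun n => inner ℝ (Q (hg n)) (Q (hg' n))) atTop (𝓝 (∫ x, v x * v' x)) := by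
      rw [in_L2 h.2.1 h'.2.1]
      exact (lim_L2 (fun n => memLp_test (hg n) 2) h.2.1 h3).inner
        (lim_L2 (fun n => memLp_test (hg' n) 2) h'.2.1 h3')
    refine (((tendsto_finsetSum Finset.univ fun i _ => l4 i).add l5).const_mul c0).congr fun n => ?_
    exact (inner_ee hG hI hFt hPar hIdn (hf n) (hg n) (hf' n) (hg' n)).symm
  · obtain ⟨f, g, hf, hg, hlt⟩ := hD.2 e ε hε
    refine ⟨fun x => - g x, fun x => - lap f x, ⟨hg.1.neg, hg.2.neg⟩,
      ⟨(test_lap hf).1.neg, (test_lap hf).2.neg⟩, ?_⟩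
    have h1 := theta_ee hG hI hD hFt hPar hIdn hf hg
    rw [h1] at hlt
    exact hlt

end Pool.Agent.QWP
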