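import Pool.Agent.QWP.StB
import Pool.Agent.QWE.WEq

set_option autoImplicit false

/-!
# QWP, module EnU: uniqueness in the energy space
-/

open MeasureTheory Filter Topology Set
open scoped ENNReal NNReal RealInnerProductSpace

namespace Pool.Agent.QWP

open Pool.Agent.QWE (E S sg mu K toK tau sh dl rev gr ig IsTest pd lap Rad dRad Rk dRk c0 WD Sm SmE IsSch half shr WTo)

namespace EnUx

/-- Translates with disjoint supports are orthogonal. -/
theorem orth {F : K} {f : S × ℝ → ℝ} (hF : (F : S × ℝ → ℝ) =ᵐ[mu] f) {M : ℝ}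
    (hf : ∀ z : S × ℝ, M ≤ |z.2| → f z = 0) {t : ℝ} (ht : 2 * M ≤ |t|) :
    (inner ℝ F (tau t F) : ℝ) = 0 := by
  rw [L2.inner_def]
  have h1 := (Pool.Agent.QWE.mp_shift (g := fun _ => t) measurable_const).quasiMeasurePreserving.ae hF
  rw [integral_eq_zero_of_ae]
  filter_upwards [hF, h1, Pool.Agent.QWE.tau_coe t F] with z e1 e2 e3
  rw [e3, e2, e1]
  by_cases hz : M ≤ |z.2|
  · rw [hf z hz]
    simp
  · have h2 : M ≤ |z.2 - t| := by
      have h3 : |t| ≤ |z.2| + |z.2 - t| := by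
        have h4 : t = z.2 - (z.2 - t) := by ring
        calc |t| = |z.2 - (z.2 - t)| := by rw [← h4]
          _ ≤ |z.2| + |z.2 - t| := abs_sub _ _
      rw [not_le] at hz
      linarith
    rw [hf (z.1, z.2 - t) h2]
    simp

/-- A vector whose products with the translates of `F` do not depend on the time is orthogonal to `F`. -/
theorem const_zero (hGrp : Pool.Agent.QWE.St_Grp1) {e F : K} {f : S × ℝ → ℝ}
    (hF : (F : S × ℝ → ℝ) =ᵐ[mu] f) {M : ℝ} (hM : 0 < M)
    (hf : ∀ z : S × ℝ, M ≤ |z.2| → f z = 0)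
    (hc : ∀ t : ℝ, (inner ℝ e (tau (-t) F) : ℝ) = inner ℝ e F) : (inner ℝ e F : ℝ) = 0 := by
  obtain ⟨g1, g2, -, -, -, g6, -⟩ := hGrp
  by_cases hF0 : F = 0
  · rw [hF0, inner_zero_right]
  have hn : 0 < ‖F‖ := norm_pos_iff.2 hF0
  set v : ℕ → K := fun n => ‖F‖⁻¹ • tau (-(2 * M * n)) F with hv
  have hon : Orthonormal ℝ v := by
    refine ⟨fun n => ?_, fun i j hij => ?_⟩
    · simp only [hv]
      rw [norm_smul, LinearIsometry.norm_map, norm_inv, norm_norm, inv_mul_cancel₀ hn.ne']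
    · simp only [hv]
      rw [real_inner_smul_left, real_inner_smul_right, g6, g1, orth hF hf, mul_zero, mul_zero]
      have h1 : (1 : ℝ) ≤ |(i : ℝ) - j| := by
        rcases lt_or_gt_of_ne hij with h | h
        · have : ((i : ℕ) : ℝ) + 1 ≤ j := by exact_mod_cast h
          rw [abs_of_neg (by linarith)]
          linarith
        · have : ((j : ℕ) : ℝ) + 1 ≤ i := by exact_mod_cast h
          rw [abs_of_nonneg (by linarith)]
          linarith
      have h2 : - -(2 * M * (i : ℝ)) + -(2 * M * (j : ℝ)) = 2 * M * ((i : ℝ) - j) := by ring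
      rw [h2, abs_mul, abs_of_pos (by linarith : (0 : ℝ) < 2 * M)]
      nlinarith
  set c : ℝ := inner ℝ e F with hcd
  have hin : ∀ n, (inner ℝ (v n) e : ℝ) = ‖F‖⁻¹ * c := by
    intro n
    simp only [hv]
    rw [real_inner_smul_left, real_inner_comm, hc]
  have hb : ∀ n : ℕ, (n : ℝ) * (‖F‖⁻¹ * c) ^ 2 ≤ ‖e‖ ^ 2 := by
    intro n
    have h1 := hon.sum_inner_products_le e (s := Finset.range n)
    have h2 : ∑ i ∈ Finset.range n, ‖(inner ℝ (v i) e : ℝ)‖ ^ 2 = (n : ℝ) * (‖F‖⁻¹ * c) ^ 2 := by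
      rw [Finset.sum_congr rfl (fun i _ => by rw [hin i, Real.norm_eq_abs, sq_abs]),
        Finset.sum_const, Finset.card_range, nsmul_eq_mul]
    rw [← h2]
    exact h1
  have h0 : (‖F‖⁻¹ * c) ^ 2 = 0 := by
    by_contra hne
    have hpos : 0 < (‖F‖⁻¹ * c) ^ 2 := lt_of_le_of_ne (sq_nonneg _) (Ne.symm hne)
    obtain ⟨n, hn'⟩ := exists_nat_gt (‖e‖ ^ 2 / (‖F‖⁻¹ * c) ^ 2)
    rw [div_lt_iff₀ hpos] at hn'
    exact absurd (hb n) (not_le.2 hn')
  have h1 : ‖F‖⁻¹ * c = 0 := by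
    exact pow_eq_zero_iff (two_ne_zero) |>.1 h0
  rcases mul_eq_zero.1 h1 with h | h
  · exact absurd h (inv_ne_zero hn.ne')
  · exact h

end EnUx

theorem thm_EnU (hGrp : Pool.Agent.QWE.St_Grp1) (hRadT : Pool.Agent.QWE.St_RadT)
    (hDens : Pool.Agent.QWE.St_Dens) (hFreX : St_FreX) : St_EnU := by
  intro e he
  have key : ∀ φ, IsTest φ → (inner ℝ e (Rk φ) : ℝ) = 0 := by
    intro φ hφ
    obtain ⟨_, c2, hsup1, hder1, _, e1, e2⟩ := hRadT φ hφ
    obtain ⟨M1, hM1⟩ := hφ.2.isCompact.isBounded.subset_closedBall (0 : E)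
    have hz : ∀ z : S × ℝ, z.2 - inner ℝ (0 : E) (z.1 : E) = z.2 := fun z => by
      rw [inner_zero_left, sub_zero]
    have hA : ∀ z : S × ℝ, max M1 1 ≤ |z.2| → Rad φ z = 0 ∧ dRad φ z = 0 := fun z hzz =>
      hsup1 0 M1 hM1 z (by rw [hz]; exact (le_max_left _ _).trans hzz)
    have hder : ∀ r, HasDerivAt (fun r => (inner ℝ e (tau (-r) (Rk φ)) : ℝ))
        (inner ℝ e (tau (-r) (dRk φ))) r := fun r =>
      (innerSL ℝ e).hasFDerivAt.comp_hasDerivAt r
        (Pool.Agent.QWE.WEqx.hasDeriv_tau hGrp e1 e2 c2 (fun z hz => (hA z hz).1)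
          (fun z hz => (hA z hz).2) (fun w p => (hder1 w p).1) r)
    have hz0 : ∀ r, (inner ℝ e (tau (-r) (dRk φ)) : ℝ) = 0 := by
      intro r
      obtain ⟨f1, f2, hf1, hf2, -, h2, -, -⟩ := hFreX φ (-r) hφ
      rw [h2, inner_add_right, (he f2 hf2).2, (he f1 hf1).1, add_zero]
    have hconst : ∀ t : ℝ, (inner ℝ e (tau (-t) (Rk φ)) : ℝ) = inner ℝ e (Rk φ) := by
      intro t
      have h1 := is_const_of_deriv_eq_zero (f := fun r => (inner ℝ e (tau (-r) (Rk φ)) : ℝ))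
        (fun r => (hder r).differentiableAt) (fun r => by rw [(hder r).deriv, hz0]) t 0
      have h2 : (fun r => (inner ℝ e (tau (-r) (Rk φ)) : ℝ)) 0 = inner ℝ e (Rk φ) := by
        show (inner ℝ e (tau (-(0 : ℝ)) (Rk φ)) : ℝ) = inner ℝ e (Rk φ)
        rw [neg_zero, hGrp.2.1]
      rw [← h2]
      exact h1
    exact EnUx.const_zero hGrp e1 (lt_max_of_lt_right one_pos) (fun z hz => (hA z hz).1) hconst
  have hle : Pool.Agent.QWE.TS univ ≤ (Submodule.span ℝ {e})ᗮ := by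
    refine Submodule.topologicalClosure_minimal _ ?_ (Submodule.isClosed_orthogonal _)
    rw [Submodule.span_le]
    rintro w ⟨φ, hφ, -, hw⟩
    rw [SetLike.mem_coe, Submodule.mem_orthogonal_singleton_iff_inner_right]
    rcases hw with rfl | rfl
    · exact key φ hφ
    · exact (he φ hφ).1
  rw [hDens.1] at hle
  have h1 : e ∈ (Submodule.span ℝ {e})ᗮ := hle Submodule.mem_top
  rw [Submodule.mem_orthogonal_singleton_iff_inner_right] at h1
  exact inner_self_eq_zero.1 h1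

end Pool.Agent.QWP
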