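import Pool.Agent.QWP.StA

set_option autoImplicit false

/-!
# QWP / ExBP: exterior seminorms
-/

open MeasureTheory Filter Topology Set
open scoped ENNReal NNReal RealInnerProductSpace Pointwise

namespace Pool.Agent.QWP

open Pool.Agent.QWE (E S sg mu K toK tau sh dl rev gr ig IsTest pd lap Rad dRad Rk dRk c0 WD Sm SmE IsSch half shr WTo)

namespace ExBPx

theorem one_le_q0 {s : ℝ} (hs : |s| < 1 / 2) : 1 ≤ q0 s := by
  have h := abs_lt.1 hs
  rw [q0, ← ENNReal.ofReal_one]
  refine ENNReal.ofReal_le_ofReal ?_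
  rw [le_div_iff₀ (by linarith)]
  linarith

theorem one_le_q1 {s : ℝ} (hs : |s| < 1 / 2) : 1 ≤ q1 s := by
  have h := abs_lt.1 hs
  rw [q1, ← ENNReal.ofReal_one]
  refine ENNReal.ofReal_le_ofReal ?_
  rw [le_div_iff₀ (by linarith)]
  linarith

theorem TS_mono (s : ℝ) {Ω Ω' : Set E} (h : Ω ⊆ Ω') : TS s Ω ≤ TS s Ω' := by
  refine Submodule.topologicalClosure_mono (Submodule.span_mono ?_)
  rintro w ⟨φ, h1, h2, h3⟩
  exact ⟨φ, h1, h2.trans h, h3⟩

theorem gen_mem (s : ℝ) {Ω : Set E} {φ : E → ℝ} (h1 : IsTest φ) (h2 : tsupport φ ⊆ Ω) :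
    Rs s φ ∈ TS s Ω ∧ dRs s φ ∈ TS s Ω :=
  ⟨Submodule.le_topologicalClosure _ (Submodule.subset_span ⟨φ, h1, h2, Or.inl rfl⟩),
    Submodule.le_topologicalClosure _ (Submodule.subset_span ⟨φ, h1, h2, Or.inr rfl⟩)⟩

theorem van_iff {s : ℝ} {Ω : Set E} {k : K} : Van s Ω k ↔ ∀ φ, IsTest φ → tsupport φ ⊆ Ω →
    inner ℝ k (Rs s φ) = 0 ∧ inner ℝ k (dRs s φ) = 0 := by
  constructor
  · intro h φ h1 h2
    have h3 := gen_mem s h1 h2
    exact ⟨Submodule.inner_left_of_mem_orthogonal h3.1 h,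
      Submodule.inner_left_of_mem_orthogonal h3.2 h⟩
  · intro h
    unfold Van TS
    rw [Submodule.orthogonal_closure, Submodule.mem_orthogonal']
    intro u hu
    induction hu using Submodule.span_induction with
    | mem x hx =>
      obtain ⟨φ, h1, h2, h3 | h3⟩ := hx
      · rw [h3]; exact (h φ h1 h2).1
      · rw [h3]; exact (h φ h1 h2).2
    | zero => exact inner_zero_right _
    | add x y _ _ hx hy => rw [inner_add_right, hx, hy, add_zero]
    | smul c x _ hx => rw [inner_smul_right, hx, mul_zero]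

theorem van_iff_pr {s : ℝ} {Ω : Set E} {k : K} : Van s Ω k ↔ pr s Ω k = 0 := by
  unfold Van pr
  rw [Submodule.starProjection_apply_eq_zero_iff]

theorem pr_of_subset (s : ℝ) {Ω Ω' : Set E} (h : Ω ⊆ Ω') (k : K) :
    pr s Ω (pr s Ω' k) = pr s Ω k := by
  have h1 := Submodule.starProjection_comp_starProjection_of_le (TS_mono s h)
  exact congrArg (fun T : K →L[ℝ] K => T k) h1

/-- the projections converge along increasing open sets -/
theorem tendsto_pr (s : ℝ) {ι : Type} [Preorder ι] [Nonempty ι] [IsDirectedOrder ι]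
    (Ω : ι → Set E) (k : K) (hm : Monotone Ω) (ho : ∀ n, IsOpen (Ω n)) :
    Tendsto (fun n => pr s (Ω n) k) atTop (𝓝 (pr s (⋃ n, Ω n) k)) := by
  have hcl : (⨆ n, TS s (Ω n)).topologicalClosure = TS s (⋃ n, Ω n) := by
    apply le_antisymm
    · refine Submodule.topologicalClosure_minimal _
        (iSup_le fun n => TS_mono s (subset_iUnion Ω n)) ?_
      exact Submodule.isClosed_topologicalClosure _
    · refine Submodule.topologicalClosure_minimal _ ?_ (Submodule.isClosed_topologicalClosure _)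
      rw [Submodule.span_le]
      rintro w ⟨φ, h1, h2, h3⟩
      obtain ⟨n, hn⟩ := h1.2.isCompact.elim_directed_cover Ω ho h2 hm.directed_le
      have h4 := gen_mem s h1 hn
      refine Submodule.le_topologicalClosure _ (Submodule.mem_iSup_of_mem n ?_)
      rcases h3 with h3 | h3
      · rw [h3]; exact h4.1
      · rw [h3]; exact h4.2
  have : (⨆ n, TS s (Ω n)).topologicalClosure.HasOrthogonalProjection := by
    rw [hcl]; infer_instance
  have h := Submodule.starProjection_tendsto_closure_iSup (fun n => TS s (Ω n))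
    (fun a b hab => TS_mono s (hm hab)) k
  have e : (⨆ n, TS s (Ω n)).topologicalClosure.starProjection k = pr s (⋃ n, Ω n) k := by
    unfold pr
    congr 1
    simp only [hcl]
  rw [e] at h
  exact h

theorem van_field (hF : St_FldP) {s : ℝ} (hs : |s| < 1 / 2) {Ω : Set E} (hΩ : IsOpen Ω) (k : K) :
    Van s Ω k ↔ (∀ᵐ x, x ∈ Ω → U s k x = 0) ∧ ∀ᵐ x, x ∈ Ω → V s k x = 0 := by
  obtain ⟨C, -, hC, -⟩ := hF s hs
  have hU : IsU s k (U s k) := (hC k).1
  have hV : IsV s k (V s k) := (hC k).2.2.1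
  have hUloc : LocallyIntegrable (U s k) volume := hU.1.locallyIntegrable (one_le_q0 hs)
  have hVloc : LocallyIntegrable (V s k) volume := hV.1.locallyIntegrable (one_le_q1 hs)
  rw [van_iff]
  constructor
  · intro h
    constructor
    · refine hΩ.ae_eq_zero_of_integral_contDiff_smul_eq_zero (hUloc.locallyIntegrableOn _) ?_
      intro g g1 g2 g3
      have h1 := hU.2 g ⟨g1, g2⟩
      rw [(h g ⟨g1, g2⟩ g3).1] at h1
      rw [← h1]
      exact integral_congr_ae (Eventually.of_forall fun x => by simp [mul_comm])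
    · refine hΩ.ae_eq_zero_of_integral_contDiff_smul_eq_zero (hVloc.locallyIntegrableOn _) ?_
      intro g g1 g2 g3
      have h1 := hV.2 g ⟨g1, g2⟩
      rw [(h g ⟨g1, g2⟩ g3).2] at h1
      rw [← h1]
      exact integral_congr_ae (Eventually.of_forall fun x => by simp [mul_comm])
  · rintro ⟨h1, h2⟩ φ p1 p2
    have hz : ∀ f : E → ℝ, (∀ᵐ x, x ∈ Ω → f x = 0) → ∫ x, f x * φ x = 0 := by
      intro f hf
      have : (fun x => f x * φ x) =ᵐ[volume] fun _ => (0 : ℝ) := by
        filter_upwards [hf] with x hx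
        by_cases hxΩ : x ∈ Ω
        · rw [hx hxΩ, zero_mul]
        · have : φ x = 0 := by
            by_contra hne
            exact hxΩ (p2 (subset_tsupport φ hne))
          rw [this, mul_zero]
      rw [integral_congr_ae this, integral_zero]
    constructor
    · rw [← hU.2 φ p1]
      exact hz _ h1
    · rw [← hV.2 φ p1]
      exact hz _ h2

theorem isOpen_xt (y : E) (ρ : ℝ) : IsOpen (xt y ρ) :=
  isOpen_lt continuous_const (by fun_prop)

end ExBPx

open ExBPx in
theorem thm_ExBP (h1 : St_DnsP) (h3 : St_FldP) : St_ExBP := by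
  intro s hs
  have A1 : ∀ Ω (k k' : K), |ex s Ω k - ex s Ω k'| ≤ ‖k - k'‖ := by
    intro Ω k k'
    refine (abs_norm_sub_norm_le _ _).trans ?_
    rw [← map_sub]
    exact Submodule.norm_starProjection_apply_le _ _
  have A2 : ∀ Ω (k : K), ex s Ω k ≤ ‖k‖ := fun Ω k => Submodule.norm_starProjection_apply_le _ _
  have A3 : ∀ Ω Ω' (k : K), Ω ⊆ Ω' → ex s Ω k ≤ ex s Ω' k := by
    intro Ω Ω' k h
    unfold ex
    rw [← pr_of_subset s h k]
    exact Submodule.norm_starProjection_apply_le _ _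
  have A4 : ∀ Ω (k : K), Van s Ω k ↔ ex s Ω k = 0 := by
    intro Ω k
    rw [van_iff_pr, ex, norm_eq_zero]
  have A5 : ∀ Ω (k : K), Van s Ω (k - pr s Ω k) := fun Ω k =>
    Submodule.sub_starProjection_mem_orthogonal k
  have A6 : ∀ Ω (k k' : K), Van s Ω (k - k') → ex s Ω k ≤ ‖k'‖ ∧ ex s Ω k = ex s Ω k' := by
    intro Ω k k' h
    rw [van_iff_pr, map_sub, sub_eq_zero] at h
    have e : ex s Ω k = ex s Ω k' := by rw [ex, ex, h]
    exact ⟨e.trans_le (A2 Ω k'), e⟩
  have A7 : ∀ Ω (k : K), IsOpen Ω →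
      (Van s Ω k ↔ (∀ᵐ x, x ∈ Ω → U s k x = 0) ∧ ∀ᵐ x, x ∈ Ω → V s k x = 0) :=
    fun Ω k h => van_field h3 hs h k
  have A8 : ∀ Ω (k : ℕ → K) (k' : K) (r : ℝ), WTo k k' → (∀ n, ex s Ω (k n) ≤ r) →
      ex s Ω k' ≤ r := by
    intro Ω k k' r hw hr
    have hr0 : 0 ≤ r := (norm_nonneg _).trans (hr 0)
    have h5 := hw (pr s Ω k')
    have h6 : inner ℝ k' (pr s Ω k') = ex s Ω k' * ex s Ω k' := by
      have : inner ℝ (pr s Ω k') (pr s Ω k') = inner ℝ k' (pr s Ω (pr s Ω k')) :=
        Submodule.inner_starProjection_left_eq_right _ _ _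
      rw [pr_of_subset s (subset_refl Ω)] at this
      rw [← this, real_inner_self_eq_norm_mul_norm, ex]
    have h7 : ∀ n, inner ℝ (k n) (pr s Ω k') ≤ r * ex s Ω k' := by
      intro n
      have : inner ℝ (pr s Ω (k n)) (pr s Ω k') = inner ℝ (k n) (pr s Ω (pr s Ω k')) :=
        Submodule.inner_starProjection_left_eq_right _ _ _
      rw [pr_of_subset s (subset_refl Ω)] at this
      rw [← this]
      refine (real_inner_le_norm _ _).trans ?_
      exact mul_le_mul_of_nonneg_right (hr n) (norm_nonneg _)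
    have h8 : inner ℝ k' (pr s Ω k') ≤ r * ex s Ω k' := le_of_tendsto' h5 h7
    rw [h6] at h8
    by_cases h0 : ex s Ω k' = 0
    · rw [h0]; exact hr0
    · have : 0 < ex s Ω k' := lt_of_le_of_ne (norm_nonneg _) (Ne.symm h0)
      exact le_of_mul_le_mul_right h8 this
  have hTS : ∀ k : K, ex s univ k = ‖k‖ := by
    intro k
    unfold ex pr
    have : k ∈ TS s univ := by rw [(h1 s hs).1]; trivial
    rw [Submodule.starProjection_eq_self_iff.2 this]
  refine ⟨A1, A2, A3, A4, A5, A6, A7, A8, ?_, ?_, ?_⟩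
  · intro Ω k hm ho
    exact (tendsto_pr s Ω k hm ho).norm
  · intro k
    rw [Metric.tendsto_atTop]
    intro ε hε
    obtain ⟨f, g, hf, hg, hfg⟩ := (h1 s hs).2.1 k ε hε
    obtain ⟨R₀, hR₀⟩ :=
      (hf.2.isCompact.isBounded.union hg.2.isCompact.isBounded).subset_closedBall 0
    refine ⟨R₀, fun R hR => ?_⟩
    have hvan : Van s (xt 0 R) (Theta s f g) := by
      rw [A7 _ _ (isOpen_xt 0 R)]
      have hout : ∀ x ∈ xt 0 R, f x = 0 ∧ g x = 0 := by
        intro x hx
        have hx' : R < dist x 0 := hx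
        have hnot : x ∉ Metric.closedBall (0 : E) R₀ := by
          rw [Metric.mem_closedBall, not_le]
          linarith
        constructor
        · by_contra hne
          exact hnot (hR₀ (Or.inl (subset_tsupport f hne)))
        · by_contra hne
          exact hnot (hR₀ (Or.inr (subset_tsupport g hne)))
      obtain ⟨C, -, -, -, hT⟩ := h3 s hs
      obtain ⟨l1, l2, -⟩ := hT f g hf hg
      constructor
      · filter_upwards [l1] with x hx hxΩ
        rw [hx, (hout x hxΩ).1]
      · filter_upwards [l2] with x hx hxΩ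
        rw [hx, (hout x hxΩ).2]
    rw [Real.dist_eq, sub_zero]
    have h5 := A1 (xt 0 R) k (Theta s f g)
    rw [(A4 _ _).1 hvan, sub_zero] at h5
    exact h5.trans_lt hfg
  · intro k
    have h5 := (tendsto_pr s (fun R : ℝ => Metric.ball (0 : E) R) k
      (fun a b hab => Metric.ball_subset_ball hab) (fun _ => Metric.isOpen_ball)).norm
    have e : (⋃ R : ℝ, Metric.ball (0 : E) R) = univ := by
      ext x
      simp only [mem_iUnion, Metric.mem_ball, mem_univ, iff_true]
      exact ⟨dist x 0 + 1, by linarith⟩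
    rw [e] at h5
    have h6 : ‖pr s univ k‖ = ‖k‖ := hTS k
    rw [h6] at h5
    exact h5

end Pool.Agent.QWP
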