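import Pool.Agent.QWP.StA
import Pool.Agent.QWE.ExF

set_option autoImplicit false

/-!
# QWP, ExFP: fields on an open set are controlled by the exterior norm
-/

open MeasureTheory Filter Topology Set
open scoped ENNReal NNReal RealInnerProductSpace

namespace Pool.Agent.QWP

open Pool.Agent.QWE (E S sg mu K toK tau sh dl rev gr ig IsTest pd lap Rad dRad Rk dRk c0 WD Sm SmE IsSch half shr WTo)

namespace ExFPx

theorem q1_one {s : ℝ} (hs : |s| < 1 / 2) : 1 ≤ q1 s := by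
  rw [abs_lt] at hs
  unfold q1
  rw [ENNReal.one_le_ofReal, le_div_iff₀ (by linarith)]
  linarith

end ExFPx

open ExFPx in
theorem thm_ExFP (hF : St_FldP) (hE : St_ExBP) : St_ExFP := by
  intro s hs
  obtain ⟨C, hC, hF, hL, -⟩ := hF s hs
  obtain ⟨-, -, -, -, hpr, -, hvan, -, -, -, -⟩ := hE s hs
  have key : ∀ (k k' : K) (Ω : Set E), IsOpen Ω → Van s Ω (k - k') →
      (∀ᵐ x, x ∈ Ω → U s k x = U s k' x ∧ V s k x = V s k' x ∧ ∀ i, DU s k i x = DU s k' i x) := by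
    intro k k' Ω hΩ hv
    obtain ⟨hU0, hV0⟩ := (hvan Ω (k - k') hΩ).1 hv
    obtain ⟨-, -, -, -, hDU, -⟩ := hF (k - k')
    have hDU0 : ∀ i, ∀ᵐ x, x ∈ Ω → DU s (k - k') i x = 0 := fun i =>
      Pool.Agent.QWE.ExFx.wd_zero hΩ (hDU i).2.1 ((hDU i).1.locallyIntegrable (q1_one hs)) hU0
    have hk : k' + (1 : ℝ) • (k - k') = k := by
      rw [one_smul, add_sub_cancel]
    obtain ⟨a1, a2, a3⟩ := hL 1 k' (k - k')
    rw [hk] at a1 a2
    simp only [hk] at a3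
    filter_upwards [hU0, hV0, ae_all_iff.2 hDU0, a1, a2, ae_all_iff.2 a3]
      with x b1 b2 b3 c1 c2 c3 hx
    refine ⟨?_, ?_, fun i => ?_⟩
    · rw [c1, b1 hx, mul_zero, add_zero]
    · rw [c2, b2 hx, mul_zero, add_zero]
    · rw [c3 i, b3 i hx, mul_zero, add_zero]
  have tr : ∀ (Ω : Set E) (k : K) (p : ℝ≥0∞) (f g : E → ℝ), (∀ᵐ x, x ∈ Ω → f x = g x) →
      eLpNorm g p volume ≤ ENNReal.ofReal C * ‖pr s Ω k‖ₑ →
      eLpNorm (Ω.indicator f) p volume ≤ ENNReal.ofReal (C * ex s Ω k) := by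
    intro Ω k p f g h1 h2
    have h3 : Ω.indicator f =ᵐ[volume] Ω.indicator g := by
      filter_upwards [h1] with x hx
      by_cases hxΩ : x ∈ Ω
      · rw [indicator_of_mem hxΩ, indicator_of_mem hxΩ, hx hxΩ]
      · rw [indicator_of_notMem hxΩ, indicator_of_notMem hxΩ]
    rw [eLpNorm_congr_ae h3]
    refine (eLpNorm_indicator_le g).trans (h2.trans (le_of_eq ?_))
    rw [ENNReal.ofReal_mul hC.le, ex, ofReal_norm]
  refine ⟨C, hC, fun k Ω hΩ => ?_⟩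
  have hk := key k (pr s Ω k) Ω hΩ (hpr Ω k)
  obtain ⟨-, f1, -, f2, f3, -⟩ := hF (pr s Ω k)
  refine ⟨?_, fun i => ?_, ?_, fun k' hv => key k k' Ω hΩ hv⟩
  · exact tr Ω k (q0 s) _ _ (hk.mono fun x hx hxΩ => (hx hxΩ).1) f1
  · exact tr Ω k (q1 s) _ _ (hk.mono fun x hx hxΩ => (hx hxΩ).2.2 i) (f3 i).2.2
  · exact tr Ω k (q1 s) _ _ (hk.mono fun x hx hxΩ => (hx hxΩ).2.1) f2

end Pool.Agent.QWP
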