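import Pool.Agent.QWP.StA
import Pool.Agent.QWP.StB

set_option autoImplicit false

/-!
# QWP, Ext: exterior small solution
-/

open MeasureTheory Filter Topology Set
open scoped ENNReal NNReal RealInnerProductSpace Pointwise

namespace Pool.Agent.QWP

open Pool.Agent.QWE (E S sg mu K toK tau sh dl rev gr ig IsTest pd lap Rad dRad Rk dRk c0 WD Sm SmE IsSch half shr WTo)

theorem thm_Ext (hE : St_ExBP) (hS : St_Small) (hN : St_NFSP) : St_Ext := by
  intro b hb
  have hs : |sig b| < 1 / 2 := by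
    have h1 : 2 / b < 1 := by rw [div_lt_one (by linarith)]; exact hb
    have h2 : 0 < 2 / b := by positivity
    rw [sig, abs_lt]
    constructor <;> linarith
  obtain ⟨d0, C, hd0, hC, hS⟩ := hS b hb
  obtain ⟨-, -, -, -, hE5, hE6, -⟩ := hE (sig b) hs
  refine ⟨d0, C, hd0, hC, ?_⟩
  intro I k t0 Ω hk ht0 hΩ hex
  obtain ⟨k', h1, h2, h3, -, h5, h6, h7, h8⟩ := hS (pr (sig b) Ω (k t0)) t0 hex
  refine ⟨k', h1, h2, h3, h5, h6, h7, h8, ?_⟩
  have h9 : IsSol b I k' := by
    refine ⟨hk.1, h1.2.1.mono (subset_univ I), ?_, ?_⟩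
    · intro x _ y _
      exact h1.2.2.1 x (mem_univ x) y (mem_univ y)
    · intro s _ t _
      exact h1.2.2.2 s (mem_univ s) t (mem_univ t)
  have h10 : Van (sig b) Ω (k t0 - k' t0) := by
    rw [h2]
    exact hE5 Ω (k t0)
  intro t ht
  have h11 := hN b hb I k k' t0 Ω hk h9 ht0 hΩ h10 t ht
  exact ⟨h11, (hE6 _ (k t) (k' t) h11).1.trans (h3 t)⟩

end Pool.Agent.QWP
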