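import Pool.Agent.QWP.StM
import Pool.Agent.QWP.FldP

/-!
# QWP, module FldD: second derivatives of the position field (helper91)
-/

set_option autoImplicit false

open MeasureTheory Filter Topology Set
open scoped ENNReal NNReal RealInnerProductSpace ContDiff Pointwise

namespace Pool.Agent.QWP

open Pool.Agent.QWE (E S sg mu K toK tau sh dl rev gr ig IsTest pd lap Rad dRad Rk dRk c0 WD Sm SmE IsSch half shr WTo)

namespace FldDx

open Pool.Agent.QWE.Linx (test_sch test_pd test_lap int_mul ae_lin wd_lin wd_test wd_eq ae_uniq)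
open Pool.Agent.QWE.Fldx (int_mul' ibp memLp_test test_sub pair_cont c0_pos)

lemma one_le_q2 {s : ℝ} (h0 : 0 ≤ s) (h1 : s < 1 / 2) : (1 : ℝ≥0∞) ≤ q2 s := by
  unfold q2
  exact FldPx.one_le (by linarith) (by linarith)

/-- Sobolev bound in the exponent `q2`, including `s = 0`. -/
lemma sob2 (hH : St_Hs) (hS : St_SobP) {s : ℝ} (h0 : 0 ≤ s) (h1 : s < 1 / 2) :
    ∃ C : ℝ, 0 < C ∧ ∀ h : E → ℝ, IsTest h →
      eLpNorm h (q2 s) volume ≤ ENNReal.ofReal (C * (hs s h) ^ (1 / 2 : ℝ)) := by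
  rcases h0.eq_or_lt with rfl | hpos
  · refine ⟨1, one_pos, fun h hh => ?_⟩
    have e1 : q2 0 = 2 := by
      unfold q2
      have : (10 : ℝ) / (5 - 2 * 0) = 2 := by norm_num
      rw [this]
      exact ENNReal.ofReal_ofNat 2
    rw [e1, one_mul, hH.1 h (test_sch hh)]
    have hm : MemLp h 2 (volume : Measure E) := memLp_test hh 2
    have e2 := hm.eLpNorm_eq_integral_rpow_norm (by norm_num) (by norm_num)
    rw [e2]
    have e3 : (2 : ℝ≥0∞).toReal = 2 := by norm_num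
    rw [e3]
    apply le_of_eq
    congr 1
    have e4 : ∫ x, ‖h x‖ ^ (2 : ℝ) = ∫ x, h x ^ 2 := by
      congr 1
      ext x
      rw [Real.norm_eq_abs, Real.rpow_two, sq_abs]
    rw [e4, one_div]
  · obtain ⟨C, hC, hb⟩ := hS s hpos (by linarith)
    exact ⟨C, hC, fun h hh => (hb h (test_sch hh)).1⟩

lemma hs_pdpd (hH : St_Hs) {s : ℝ} (h0 : 0 ≤ s) {f : E → ℝ} (hf : IsTest f) (i j : Fin 5) :
    hs s (pd j (pd i f)) ≤ hs (2 + s) f := by
  have r1 := hH.2.2.2.2.2.1 s (pd i f) (by linarith) (test_sch (test_pd hf i))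
  have r2 := hH.2.2.2.2.2.1 (s + 1) f (by linarith) (test_sch hf)
  have e1 : hs s (pd j (pd i f)) ≤ hs (s + 1) (pd i f) := by
    rw [← r1]
    exact Finset.single_le_sum (fun j _ => FldPx.hs_nonneg s (pd j (pd i f))) (Finset.mem_univ j)
  have e2 : hs (s + 1) (pd i f) ≤ hs (s + 1 + 1) f := by
    rw [← r2]
    exact Finset.single_le_sum (fun j _ => FldPx.hs_nonneg (s + 1) (pd j f)) (Finset.mem_univ i)
  have e3 : s + 1 + 1 = 2 + s := by ring
  rw [e3] at e2
  exact e1.trans e2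

/-- the second derivatives of all states -/
theorem fields (hI : St_IsoP) (hH : St_Hs) (hS : St_SobP) (hD : St_DnsP) (hF : St_FldP) {s : ℝ}
    (h0 : 0 ≤ s) (h1 : s < 1 / 2) : ∃ C : ℝ, 0 < C ∧ ∀ (k : K) (i j : Fin 5),
      MemLp (DDU s k i j) (q2 s) volume ∧ WD j (DU s k i) (DDU s k i j) ∧
      eLpNorm (DDU s k i j) (q2 s) volume ≤ ENNReal.ofReal C * ‖k‖ₑ := by
  have hs' : |s| < 1 / 2 := by rw [abs_of_nonneg h0]; exact h1
  obtain ⟨C2, hC2, hSob⟩ := sob2 hH hS h0 h1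
  obtain ⟨CF, -, hF1, -, -⟩ := hF s hs'
  have hc := c0_pos
  set K0 : ℝ := √(1 / c0) with hK0
  have hK0p : 0 < K0 := Real.sqrt_pos.2 (by positivity)
  set C : ℝ := C2 * K0 with hC
  have hCp : 0 < C := by positivity
  have hq2 : (1 : ℝ≥0∞) ≤ q2 s := one_le_q2 h0 h1
  refine ⟨C, hCp, fun k i j => ?_⟩
  obtain ⟨g, g1, g2, g3⟩ := FldPx.ext_test hI hD hs' (q2 s) hq2 C hCp.le
    (fun φ => Rs s (pd i (pd j φ))) (by
    intro f g hf hg
    have hfi := test_pd hf i
    have hfj := test_pd hfi j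
    refine ⟨pd j (pd i f), memLp_test hfj _, ?_, fun φ hφ => ?_⟩
    · have r1 := hSob _ hfj
      have r2 : (hs s (pd j (pd i f))) ^ (1 / 2 : ℝ) ≤ K0 * ‖Theta s f g‖ := by
        refine le_trans ?_ (FldPx.bd hI hs' hf hg).1
        exact Real.rpow_le_rpow (FldPx.hs_nonneg _ _) (hs_pdpd hH h0 hf i j) (by norm_num)
      exact FldPx.toE hC2.le hK0p.le r1 r2
    · have hφj := test_pd hφ j
      rw [FldPx.thR hI hs' hf hg (test_sch (test_pd hφj i)), ibp i hf hφj, ibp j hfi hφ,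
        neg_neg]) k
  have hwd : WD j (DU s k i) g := by
    intro φ hφ
    have hφj := test_pd hφ j
    have a1 := (hF1 k).1.2 _ (test_pd hφj i)
    have a2 := ((hF1 k).2.2.2.2.1 i).2.1 _ hφj
    rw [g3 φ hφ, ← a1, a2, neg_neg]
  have hex : ∃ g : E → ℝ, MemLp g (q2 s) volume ∧ WD j (DU s k i) g := ⟨g, g1, hwd⟩
  have hsp : MemLp (DDU s k i j) (q2 s) volume ∧ WD j (DU s k i) (DDU s k i j) := by
    have e : DDU s k i j = hex.choose := by simp only [DDU, dif_pos hex]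
    rw [e]
    exact hex.choose_spec
  have hae : DDU s k i j =ᵐ[volume] g := by
    apply ae_uniq (hsp.1.locallyIntegrable hq2) (g1.locallyIntegrable hq2)
    intro φ hφ
    have e1 := hsp.2 φ hφ
    have e2 := hwd φ hφ
    linarith
  exact ⟨hsp.1, hsp.2, (eLpNorm_congr_ae hae).trans_le g2⟩

end FldDx

open Pool.Agent.QWE.Linx (test_sch test_pd test_lap int_mul ae_lin wd_lin wd_test wd_eq ae_uniq)

/-- **FldD** -/
theorem thm_FldD (hI : St_IsoP) (hH : St_Hs) (hS : St_SobP) (hD : St_DnsP) (hF : St_FldP) :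
    St_FldD := by
  intro s h0 h1
  have hs' : |s| < 1 / 2 := by rw [abs_of_nonneg h0]; exact h1
  obtain ⟨C, hC, hb⟩ := FldDx.fields hI hH hS hD hF h0 h1
  obtain ⟨CF, -, hF1, hF2, hF3⟩ := hF s hs'
  have hq1 : (1 : ℝ≥0∞) ≤ q1 s := FldPx.one_le (by linarith) (by linarith)
  have hq2 : (1 : ℝ≥0∞) ≤ q2 s := FldDx.one_le_q2 h0 h1
  have liDU : ∀ (k : K) i, LocallyIntegrable (DU s k i) volume := fun k i =>
    ((hF1 k).2.2.2.2.1 i).1.locallyIntegrable hq1
  have liDDU : ∀ (k : K) i j, LocallyIntegrable (DDU s k i j) volume := fun k i j =>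
    (hb k i j).1.locallyIntegrable hq2
  refine ⟨C, hC, hb, fun c k k' i j => ?_, fun f g i j hf hg => ?_⟩
  · exact wd_lin (liDU _ i) (liDU _ i) (liDDU _ i j) (liDDU _ i j) (liDDU _ i j) (hb _ i j).2.1
      (hb _ i j).2.1 (hb _ i j).2.1 ((hF2 c k k').2.2 i)
  · exact wd_eq (test_pd hf i).1.continuous.locallyIntegrable (liDDU _ i j)
      (test_pd (test_pd hf i) j).1.continuous.locallyIntegrable (hb _ i j).2.1
      (wd_test (test_pd hf i) j) ((hF3 f g hf hg).2.2 i)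

end Pool.Agent.QWP
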