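import Pool.Agent.QWP.StB
import Pool.Agent.QWE.Free

set_option autoImplicit false

/-!
# QWP / FreX: free evolution of test states
-/

open MeasureTheory Filter Topology Set
open scoped ENNReal NNReal RealInnerProductSpace ContDiff

namespace Pool.Agent.QWP

open Pool.Agent.QWE (E S sg mu K toK tau sh dl rev gr ig IsTest pd lap Rad dRad Rk dRk c0 WD Sm SmE IsSch half shr WTo Sph)

namespace FreXx

open Pool.Agent.QWE.Freex (test_pd test_lap test_cmul vn_compact smooth_sph smooth_D van3 van4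
  theta_in zero_of_theta inA inB inC inD p0 p1 p2 p3)

lemma int_mul {f g : E → ℝ} (hf : IsTest f) (hg : IsTest g) :
    Integrable (fun x => f x * g x) (volume : Measure E) :=
  (hf.1.continuous.mul hg.1.continuous).integrable_of_hasCompactSupport hg.2.mul_left

lemma ibp (i : Fin 5) {f g : E → ℝ} (hf : IsTest f) (hg : IsTest g) :
    ∫ x, f x * pd i g x = - ∫ x, pd i f x * g x := by
  have h := integral_mul_fderiv_eq_neg_fderiv_mul_of_integrable (μ := (volume : Measure E))
    (f := f) (g := g) (v := EuclideanSpace.single i (1 : ℝ))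
    (int_mul (test_pd i hf) hg) (int_mul hf (test_pd i hg)) (int_mul hf hg)
    (fun x _ => (hf.1.differentiable (by simp)) x) (fun x _ => (hg.1.differentiable (by simp)) x)
  exact h

lemma ibp_lap {f g : E → ℝ} (hf : IsTest f) (hg : IsTest g) :
    ∫ x, f x * lap g x = ∫ x, lap f x * g x := by
  have h1 : ∫ x, f x * lap g x = ∑ i, ∫ x, f x * pd i (pd i g) x := by
    rw [← integral_finsetSum _ fun i _ => int_mul hf (test_pd i (test_pd i hg))]
    refine integral_congr_ae (Eventually.of_forall fun x => ?_)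
    simp only [lap, Finset.mul_sum]
  have h2 : ∫ x, lap f x * g x = ∑ i, ∫ x, pd i (pd i f) x * g x := by
    rw [← integral_finsetSum _ fun i _ => int_mul (test_pd i (test_pd i hf)) hg]
    refine integral_congr_ae (Eventually.of_forall fun x => ?_)
    simp only [lap, Finset.sum_mul]
  rw [h1, h2]
  refine Finset.sum_congr rfl fun i _ => ?_
  rw [ibp i hf (test_pd i hg), ibp i (test_pd i hf) hg, neg_neg]

lemma int_c {a F : E → ℝ} (c : ℝ) : ∫ x, a x * (c * F x) = c * ∫ x, a x * F x := by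
  rw [← integral_const_mul]
  exact integral_congr_ae (Eventually.of_forall fun x => by ring)

end FreXx

open FreXx in
open Pool.Agent.QWE.Freex (test_pd test_lap test_cmul vn_compact smooth_sph smooth_D van3 van4
  theta_in zero_of_theta inA inB inC inD p0 p1 p2 p3) in
theorem thm_FreX (hR : Pool.Agent.QWE.St_RadT) (hI : Pool.Agent.QWE.St_Iso)
    (hD : Pool.Agent.QWE.St_Dens) (hS : Pool.Agent.QWE.St_Sph) (hTr : St_Tr) : St_FreX := by
  intro φ t hφ
  have hφ2 : IsTest (lap φ) := test_lap hφ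
  have hφ4 : IsTest (lap (lap φ)) := test_lap hφ2
  have T4 : IsTest (Sph (lap (lap φ)) t) :=
    vn_compact hφ (smooth_sph hS hφ4 t) (van4 hS hφ t)
  have T3 : IsTest (Pool.Agent.QWE.Freex.D (lap φ) t) :=
    vn_compact hφ (smooth_D hS hφ2 t) (van3 hS hφ t)
  obtain ⟨f1, hf1⟩ : ∃ f1 : E → ℝ, f1 = fun x => c0 * Sph (lap (lap φ)) t x := ⟨_, rfl⟩
  obtain ⟨f2, hf2⟩ : ∃ f2 : E → ℝ, f2 = fun x => (-c0) * Pool.Agent.QWE.Freex.D (lap φ) t x :=
    ⟨_, rfl⟩
  have t1 : IsTest f1 := by rw [hf1]; exact test_cmul c0 T4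
  have t2 : IsTest f2 := by rw [hf2]; exact test_cmul (-c0) T3
  have A1 : tau t (Rk φ) = Rk f1 + dRk f2 := by
    rw [← sub_eq_zero]
    refine zero_of_theta hD fun a b ha hb => ?_
    have e1 := (theta_in hI ha hb t1).1
    have e2 := (theta_in hI ha hb t2).2
    have e3 : inner ℝ (tau t (Rk φ)) (Rk (lap (lap a))) = ∫ x, a x * Sph (lap (lap φ)) t x := by
      rw [p2 hR hφ (test_lap ha), p1 hR hφ (test_lap ha), p2 hR hφ2 ha, p1 hR hφ2 ha, inA hR hφ4 ha]
      ring
    have e4 : inner ℝ (tau t (Rk φ)) (dRk (lap b)) =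
        ∫ x, b x * Pool.Agent.QWE.Freex.D (lap φ) t x := by
      rw [p0 hR hφ (test_lap hb), p3 hR hφ hb, inC hR hφ2 hb, neg_neg]
    rw [inner_sub_left, inner_add_left, real_inner_comm (Pool.Agent.QWE.Theta a b) (Rk _),
      real_inner_comm (Pool.Agent.QWE.Theta a b) (dRk _), e1, e2, Pool.Agent.QWE.Theta,
      real_inner_smul_right, inner_sub_right, e3, e4, hf1, hf2, int_c, int_c]
    ring
  have A2 : tau t (dRk φ) = Rk (lap f2) + dRk f1 := by
    rw [← sub_eq_zero]
    refine zero_of_theta hD fun a b ha hb => ?_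
    have e1 := (theta_in hI ha hb (test_lap t2)).1
    have e2 := (theta_in hI ha hb t1).2
    have e3 : inner ℝ (tau t (dRk φ)) (Rk (lap (lap a))) =
        - ∫ x, lap a x * Pool.Agent.QWE.Freex.D (lap φ) t x := by
      rw [p3 hR hφ (test_lap ha), inC hR hφ2 (test_lap ha)]
    have e4 : inner ℝ (tau t (dRk φ)) (dRk (lap b)) = - ∫ x, b x * Sph (lap (lap φ)) t x := by
      rw [p1 hR hφ (test_lap hb), p2 hR hφ2 hb, p1 hR hφ2 hb, inA hR hφ4 hb, neg_neg]
    rw [inner_sub_left, inner_add_left, real_inner_comm (Pool.Agent.QWE.Theta a b) (Rk _),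
      real_inner_comm (Pool.Agent.QWE.Theta a b) (dRk _), e1, e2, Pool.Agent.QWE.Theta,
      real_inner_smul_right, inner_sub_right, e3, e4, ibp_lap ha t2, hf1, hf2, int_c, int_c]
    ring
  have A3 : tau t (Rk (lap φ)) = Rk (lap f1) + dRk (lap f2) := by
    rw [← sub_eq_zero]
    refine zero_of_theta hD fun a b ha hb => ?_
    have e1 := (theta_in hI ha hb (test_lap t1)).1
    have e2 := (theta_in hI ha hb (test_lap t2)).2
    have e3 : inner ℝ (tau t (Rk (lap φ))) (Rk (lap (lap a))) =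
        ∫ x, lap a x * Sph (lap (lap φ)) t x := by
      rw [p2 hR hφ2 (test_lap ha), p1 hR hφ2 (test_lap ha), inA hR hφ4 (test_lap ha), neg_neg]
    have e4 : inner ℝ (tau t (Rk (lap φ))) (dRk (lap b)) =
        ∫ x, lap b x * Pool.Agent.QWE.Freex.D (lap φ) t x := by
      rw [inC hR hφ2 (test_lap hb)]
    rw [inner_sub_left, inner_add_left, real_inner_comm (Pool.Agent.QWE.Theta a b) (Rk _),
      real_inner_comm (Pool.Agent.QWE.Theta a b) (dRk _), e1, e2, Pool.Agent.QWE.Theta,
      real_inner_smul_right, inner_sub_right, e3, e4, ibp_lap ha t1, ibp_lap hb t2, hf1, hf2,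
      int_c, int_c]
    ring
  refine ⟨f1, f2, t1, t2, A1, A2, A3, fun s hs => ?_⟩
  exact ⟨(hTr s t φ f1 f2 φ φ φ φ hs hφ t1 t2 hφ hφ hφ hφ).1 A1,
    (hTr s t φ (lap f2) f1 φ φ φ φ hs hφ (test_lap t2) t1 hφ hφ hφ hφ).2.1 A2⟩

end Pool.Agent.QWP
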