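import Pool.Agent.QWP.StA

set_option autoImplicit false

/-!
# QWP, FreeP: the free evolution of test states, all `s` (helper4)
-/

open MeasureTheory Filter Topology Set
open scoped ENNReal NNReal RealInnerProductSpace

namespace Pool.Agent.QWP

open Pool.Agent.QWE (E S sg mu K toK tau sh dl rev gr ig IsTest pd lap Rad dRad Rk dRk c0 WD Sm SmE IsSch half shr WTo)

theorem thm_FreeP (hF : Pool.Agent.QWE.St_Free) (hT : St_Tr) : St_FreeP := by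
  intro s f g t hs hf hg
  obtain ⟨⟨f', g', h1, h2, h3, h4⟩, ⟨f1, f2, k1, k2, k3, k4⟩, ⟨e1, e2, l1, l2, l3, l4⟩⟩ :=
    hF f g t hf hg
  refine ⟨⟨f', g', h1, h2, ?_, h4⟩, ⟨f1, f2, k1, k2, ?_, k4⟩, ⟨e1, e2, l1, l2, ?_, l4⟩⟩
  · exact (hT s t f f1 f2 f g f' g' hs hf k1 k2 hf hg h1 h2).2.2 h3
  · exact (hT s t f f1 f2 f g f' g' hs hf k1 k2 hf hg h1 h2).1 k3
  · exact (hT s t f e1 e2 f g f' g' hs hf l1 l2 hf hg h1 h2).2.1 l3

end Pool.Agent.QWP
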