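import Pool.Agent.QWP.StA
import Pool.Agent.QWP.Ft

set_option autoImplicit false

/-!
# QWP, FtI: Fourier inversion
-/

open MeasureTheory Filter Topology Set
open scoped ENNReal NNReal RealInnerProductSpace FourierTransform SchwartzMap

namespace Pool.Agent.QWP

open Pool.Agent.QWE (E S sg mu K toK tau sh dl rev gr ig IsTest pd lap Rad dRad Rk dRk c0 WD Sm SmE IsSch half shr WTo)

namespace FtIx

theorem real_inv (g : E → ℂ) (h : ∀ ξ, g (-ξ) = (starRingEnd ℂ) (g ξ)) (x : E) :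
    (starRingEnd ℂ) (𝓕⁻ g x) = 𝓕⁻ g x := by
  rw [Real.fourierInv_eq']
  rw [← integral_conj]
  rw [← integral_neg_eq_self (fun v : E => Complex.exp (↑(2 * Real.pi * inner ℝ v x) * Complex.I) • g v)]
  refine integral_congr_ae (Eventually.of_forall fun v => ?_)
  simp only [smul_eq_mul, map_mul, ← Complex.exp_conj, Complex.conj_ofReal, Complex.conj_I,
    inner_neg_left, h]
  congr 2
  push_cast
  ring

end FtIx

open FtIx in
/-- **FtI**. -/
theorem thm_FtI : St_FtI := by
  intro g hg hc hs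
  set gS : 𝓢(E, ℂ) := hc.toSchwartzMap hg with hgS
  have hgS' : (gS : E → ℂ) = g := rfl
  set F : 𝓢(E, ℂ) := 𝓕⁻ gS with hF
  have hreal : ∀ x, (((F x).re : ℝ) : ℂ) = F x := by
    intro x
    rw [← Complex.conj_eq_iff_re, hF, SchwartzMap.fourierInv_coe, hgS']
    exact real_inv g hs x
  refine ⟨fun x => (F x).re, ⟨F.postcompCLM Complex.reCLM, fun x => ?_⟩, fun ξ => ?_⟩
  · rw [SchwartzMap.postcompCLM_apply]
    rfl
  · rw [Ftx.ft_eq (f := F) (fun x => (hreal x).symm), hF]
    have h1 : 𝓕 (𝓕⁻ gS) = gS := FourierTransform.fourier_fourierInv_eq gS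
    rw [h1]
    rfl

end Pool.Agent.QWP
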