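import Pool.Agent.QWP.StG

set_option autoImplicit false

/-!
# QWP, G7a: pairing with a function supported in a shell
-/

open MeasureTheory Filter Topology Set
open scoped ENNReal NNReal RealInnerProductSpace ContDiff

namespace Pool.Agent.QWP

open Pool.Agent.QWE (E S sg mu K toK tau sh dl rev gr ig IsTest pd lap Rad dRad Rk dRk c0 WD Sm SmE IsSch half shr WTo resc)

namespace G7ax

/-! ### The shell -/

lemma num_shell (r M0 : ℝ) (hr : 1 ≤ r) (hM : 1 ≤ M0) :
    (r + M0) ^ 5 - (max 0 (r - M0)) ^ 5 ≤ 10 * M0 * (1 + M0) ^ 4 * r ^ 4 := by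
  obtain ⟨s, hs⟩ : ∃ s, s = max 0 (r - M0) := ⟨_, rfl⟩
  obtain ⟨R, hR⟩ : ∃ R, R = r + M0 := ⟨_, rfl⟩
  rw [← hs, ← hR]
  have h0 : 0 ≤ s := by rw [hs]; exact le_max_left _ _
  have h1 : r - M0 ≤ s := by rw [hs]; exact le_max_right _ _
  have h2 : s ≤ R := by
    rw [hs, hR]
    exact max_le (by linarith) (by linarith)
  have hR0 : 0 ≤ R := h0.trans h2
  have h3 : R - s ≤ 2 * M0 := by rw [hR]; linarith
  have h4 : R ≤ (1 + M0) * r := by
    rw [hR]
    nlinarith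
  have h5 : R ^ 5 - s ^ 5 = (R - s) * (R ^ 4 + R ^ 3 * s + R ^ 2 * s ^ 2 + R * s ^ 3 + s ^ 4) := by
    ring
  have h6 : R ^ 3 * s ≤ R ^ 4 := by
    have := mul_le_mul_of_nonneg_left h2 (pow_nonneg hR0 3)
    linarith [this, (by ring : R ^ 3 * R = R ^ 4)]
  have h7 : R ^ 2 * s ^ 2 ≤ R ^ 4 := by
    have h8 : s ^ 2 ≤ R ^ 2 := pow_le_pow_left₀ h0 h2 2
    have := mul_le_mul_of_nonneg_left h8 (pow_nonneg hR0 2)
    linarith [this, (by ring : R ^ 2 * R ^ 2 = R ^ 4)]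
  have h8 : R * s ^ 3 ≤ R ^ 4 := by
    have h9 : s ^ 3 ≤ R ^ 3 := pow_le_pow_left₀ h0 h2 3
    have := mul_le_mul_of_nonneg_left h9 hR0
    linarith [this, (by ring : R * R ^ 3 = R ^ 4)]
  have h9 : s ^ 4 ≤ R ^ 4 := pow_le_pow_left₀ h0 h2 4
  have h10 : R ^ 4 ≤ ((1 + M0) * r) ^ 4 := pow_le_pow_left₀ hR0 h4 4
  have h11 : R ^ 4 + R ^ 3 * s + R ^ 2 * s ^ 2 + R * s ^ 3 + s ^ 4 ≤ 5 * ((1 + M0) * r) ^ 4 := by
    linarith
  rw [h5]
  calc (R - s) * (R ^ 4 + R ^ 3 * s + R ^ 2 * s ^ 2 + R * s ^ 3 + s ^ 4) ≤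
      (2 * M0) * (5 * ((1 + M0) * r) ^ 4) := by
        apply mul_le_mul h3 h11 (by positivity) (by linarith)
    _ = _ := by ring

lemma shell_vol (r M0 : ℝ) (hr : 1 ≤ r) (hM : 1 ≤ M0) :
    volume {x : E | |‖x‖ - r| ≤ M0} ≤
      ENNReal.ofReal (10 * M0 * (1 + M0) ^ 4 * r ^ 4) * volume (Metric.ball (0 : E) 1) := by
  have hs : (0 : ℝ) ≤ max 0 (r - M0) := le_max_left _ _
  have hR : (0 : ℝ) ≤ r + M0 := by linarith
  have hsR : max 0 (r - M0) ≤ r + M0 := max_le (by linarith) (by linarith)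
  have h1 : {x : E | |‖x‖ - r| ≤ M0} ⊆
      Metric.closedBall 0 (r + M0) \ Metric.ball 0 (max 0 (r - M0)) := by
    intro x hx
    have h2 := abs_le.1 (show |‖x‖ - r| ≤ M0 from hx)
    refine ⟨?_, ?_⟩
    · rw [Metric.mem_closedBall, dist_zero_right]
      linarith [h2.2]
    · rw [Metric.mem_ball, dist_zero_right, not_lt]
      exact max_le (norm_nonneg x) (by linarith [h2.1])
  refine (measure_mono h1).trans ?_
  have hsub : Metric.ball (0 : E) (max 0 (r - M0)) ⊆ Metric.closedBall 0 (r + M0) :=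
    (Metric.ball_subset_ball hsR).trans Metric.ball_subset_closedBall
  rw [measure_sdiff hsub measurableSet_ball.nullMeasurableSet measure_ball_lt_top.ne,
    Measure.addHaar_closedBall _ _ hR, Measure.addHaar_ball _ _ hs, finrank_euclideanSpace_fin,
    tsub_le_iff_right, ← add_mul]
  refine mul_le_mul_left ?_ _
  rw [← ENNReal.ofReal_add (by positivity) (by positivity)]
  apply ENNReal.ofReal_le_ofReal
  linarith [num_shell r M0 hr hM]

/-! ### Hoelder's inequality with three factors -/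

lemma hol (A : Set E) (u d : E → ℝ) (hu : AEStronglyMeasurable u volume)
    (hd : AEStronglyMeasurable d volume) {b q α β p3 : ℝ} (hb : 0 < b) (hq : 0 < q) (hα : 0 ≤ α)
    (hβ : 0 ≤ β) (hp3 : 0 ≤ p3) (hsum : α / (2 * b) + β / q + p3 = 1) :
    ∫⁻ x in A, ‖u x‖ₑ ^ α * ‖d x‖ₑ ^ β ≤ (∫⁻ x in A, ‖u x‖ₑ ^ (2 * b)) ^ (α / (2 * b)) *
      (eLpNorm d (ENNReal.ofReal q) volume) ^ β * volume A ^ p3 := by
  have h1 := ENNReal.lintegral_prod_norm_pow_le (μ := volume.restrict A) (Finset.univ : Finset (Fin 3))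
    (f := ![fun x => ‖u x‖ₑ ^ (2 * b), fun x => ‖d x‖ₑ ^ q, fun _ => 1])
    (p := ![α / (2 * b), β / q, p3]) (by
      intro i _
      fin_cases i
      · exact hu.restrict.enorm.pow_const _
      · exact hd.restrict.enorm.pow_const _
      · exact aemeasurable_const) (by
      rw [Fin.sum_univ_three]
      exact hsum) (by
      intro i _
      fin_cases i
      · exact div_nonneg hα (by positivity)
      · exact div_nonneg hβ hq.le
      · exact hp3)
  simp only [Fin.prod_univ_three] at h1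
  have e1 : ∀ x, (‖u x‖ₑ ^ (2 * b)) ^ (α / (2 * b)) = ‖u x‖ₑ ^ α := by
    intro x
    rw [← ENNReal.rpow_mul]
    congr 1
    field_simp
  have e2 : ∀ x, (‖d x‖ₑ ^ q) ^ (β / q) = ‖d x‖ₑ ^ β := by
    intro x
    rw [← ENNReal.rpow_mul]
    congr 1
    field_simp
  have h2 : ∫⁻ x in A, ‖u x‖ₑ ^ α * ‖d x‖ₑ ^ β ≤ (∫⁻ x in A, ‖u x‖ₑ ^ (2 * b)) ^ (α / (2 * b)) *
      (∫⁻ x in A, ‖d x‖ₑ ^ q) ^ (β / q) * (∫⁻ x in A, 1) ^ p3 := by
    refine le_trans (le_of_eq ?_) h1
    apply lintegral_congr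
    intro x
    show _ = (‖u x‖ₑ ^ (2 * b)) ^ (α / (2 * b)) * (‖d x‖ₑ ^ q) ^ (β / q) * (1 : ℝ≥0∞) ^ p3
    rw [e1, e2, ENNReal.one_rpow, mul_one]
  rw [setLIntegral_one] at h2
  refine h2.trans ?_
  have h3 : (∫⁻ x in A, ‖d x‖ₑ ^ q) ^ (β / q) ≤ (eLpNorm d (ENNReal.ofReal q) volume) ^ β := by
    have h4 : eLpNorm d (ENNReal.ofReal q) volume = (∫⁻ x, ‖d x‖ₑ ^ q) ^ (1 / q) := by
      rw [eLpNorm_eq_lintegral_rpow_enorm_toReal (by
        rw [Ne, ENNReal.ofReal_eq_zero, not_le]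
        exact hq) ENNReal.ofReal_ne_top, ENNReal.toReal_ofReal hq.le]
    rw [h4, ← ENNReal.rpow_mul]
    have h5 : 1 / q * β = β / q := by ring
    rw [h5]
    exact ENNReal.rpow_le_rpow (setLIntegral_le_lintegral _ _) (div_nonneg hβ hq.le)
  gcongr

lemma est (A : Set E) (u d : E → ℝ) (hu : AEStronglyMeasurable u volume)
    (hd : AEStronglyMeasurable d volume) {b q α β p3 c1 c2 D r N : ℝ} (hb : 0 < b) (hq : 0 < q)
    (hα : 0 ≤ α) (hβ : 0 ≤ β) (hp3 : 0 ≤ p3) (hsum : α / (2 * b) + β / q + p3 = 1)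
    (hαβ : α + β = b + 1) (h4 : p3 ≤ 1 / 5) (hc1 : 0 ≤ c1) (hc2 : 0 ≤ c2) (hD : 0 ≤ D) (hr : 1 ≤ r)
    (hN : 0 ≤ N) (h1 : ∫⁻ x in A, ‖u x‖ₑ ^ (2 * b) ≤ ENNReal.ofReal (c1 * N ^ (2 * b)))
    (h2 : eLpNorm d (ENNReal.ofReal q) volume ≤ ENNReal.ofReal (c2 * N))
    (h3 : volume A ≤ ENNReal.ofReal (D * r ^ 4)) :
    ∫⁻ x in A, ‖u x‖ₑ ^ α * ‖d x‖ₑ ^ β ≤
      ENNReal.ofReal (c1 ^ (α / (2 * b)) * c2 ^ β * D ^ p3 * r ^ (4 / 5 : ℝ) * N ^ (b + 1)) := by
  have hr0 : 0 < r := by linarith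
  refine (hol A u d hu hd hb hq hα hβ hp3 hsum).trans ?_
  have g1 : (∫⁻ x in A, ‖u x‖ₑ ^ (2 * b)) ^ (α / (2 * b)) ≤
      ENNReal.ofReal (c1 ^ (α / (2 * b)) * N ^ α) := by
    refine (ENNReal.rpow_le_rpow h1 (by positivity)).trans (le_of_eq ?_)
    rw [ENNReal.ofReal_rpow_of_nonneg (by positivity) (by positivity),
      Real.mul_rpow hc1 (by positivity), ← Real.rpow_mul hN]
    congr 3
    field_simp
  have g2 : (eLpNorm d (ENNReal.ofReal q) volume) ^ β ≤ ENNReal.ofReal (c2 ^ β * N ^ β) := by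
    refine (ENNReal.rpow_le_rpow h2 hβ).trans (le_of_eq ?_)
    rw [ENNReal.ofReal_rpow_of_nonneg (by positivity) hβ, Real.mul_rpow hc2 hN]
  have g3 : volume A ^ p3 ≤ ENNReal.ofReal (D ^ p3 * r ^ (4 / 5 : ℝ)) := by
    refine (ENNReal.rpow_le_rpow h3 hp3).trans ?_
    rw [ENNReal.ofReal_rpow_of_nonneg (by positivity) hp3, Real.mul_rpow hD (by positivity)]
    apply ENNReal.ofReal_le_ofReal
    have h5 : (r ^ 4) ^ p3 ≤ r ^ (4 / 5 : ℝ) := by
      rw [← Real.rpow_natCast, ← Real.rpow_mul hr0.le]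
      apply Real.rpow_le_rpow_of_exponent_le hr
      push_cast
      linarith
    exact mul_le_mul_of_nonneg_left h5 (by positivity)
  calc (∫⁻ x in A, ‖u x‖ₑ ^ (2 * b)) ^ (α / (2 * b)) * (eLpNorm d (ENNReal.ofReal q) volume) ^ β *
        volume A ^ p3 ≤ ENNReal.ofReal (c1 ^ (α / (2 * b)) * N ^ α) * ENNReal.ofReal (c2 ^ β * N ^ β) *
        ENNReal.ofReal (D ^ p3 * r ^ (4 / 5 : ℝ)) := by gcongr
    _ = ENNReal.ofReal (c1 ^ (α / (2 * b)) * c2 ^ β * D ^ p3 * r ^ (4 / 5 : ℝ) * (N ^ α * N ^ β)) := by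
      rw [← ENNReal.ofReal_mul (by positivity), ← ENNReal.ofReal_mul (by positivity)]
      congr 1
      ring
    _ ≤ _ := by
      apply ENNReal.ofReal_le_ofReal
      apply mul_le_mul_of_nonneg_left _ (by positivity)
      rw [← hαβ, Real.rpow_add_of_nonneg hN hα hβ]

/-! ### Test functions -/

lemma test_pd (i : Fin 5) {φ : E → ℝ} (h : IsTest φ) : IsTest (pd i φ) := by
  refine ⟨?_, h.2.fderiv_apply ℝ _⟩
  exact (h.1.fderiv_right (m := ∞) (by simp)).clm_apply contDiff_const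

lemma tsupport_pd (i : Fin 5) (φ : E → ℝ) : tsupport (pd i φ) ⊆ tsupport φ :=
  tsupport_fderiv_apply_subset ℝ _

lemma lap_zero {φ : E → ℝ} {x : E} (h : x ∉ tsupport φ) : lap φ x = 0 := by
  refine Finset.sum_eq_zero fun i _ => ?_
  exact image_eq_zero_of_notMem_tsupport fun h2 => h (tsupport_pd i φ (tsupport_pd i _ h2))

lemma test_lap {φ : E → ℝ} (h : IsTest φ) : IsTest (lap φ) := by
  refine ⟨?_, HasCompactSupport.intro h.2 fun x hx => lap_zero hx⟩
  exact ContDiff.sum fun i _ => (test_pd i (test_pd i h)).1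

lemma ifd_pd {φ : E → ℝ} (h : IsTest φ) (i : Fin 5) (m : ℕ) (x : E) :
    ‖iteratedFDeriv ℝ m (pd i φ) x‖ ≤ ‖iteratedFDeriv ℝ (m + 1) φ x‖ := by
  have hs : ContDiff ℝ ((⊤ : ℕ∞) : WithTop ℕ∞) (fderiv ℝ φ) :=
    ContDiff.fderiv_right h.1 (by exact_mod_cast le_top)
  have h1 := norm_iteratedFDeriv_clm_apply_const (N := ((⊤ : ℕ∞) : WithTop ℕ∞)) (n := m)
    (f := fderiv ℝ φ) (x := x) (c := (EuclideanSpace.single i (1 : ℝ) : E))
    hs.contDiffAt (by exact_mod_cast le_top)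
  rw [norm_iteratedFDeriv_fderiv] at h1
  have h2 : ‖(EuclideanSpace.single i (1 : ℝ) : E)‖ = 1 := by simp
  rw [h2, one_mul] at h1
  exact h1

lemma pd2_le {φ : E → ℝ} (h : IsTest φ) (i j : Fin 5) (x : E) :
    |pd j (pd i φ) x| ≤ ‖iteratedFDeriv ℝ 2 φ x‖ := by
  have h0 : |pd j (pd i φ) x| = ‖iteratedFDeriv ℝ 0 (pd j (pd i φ)) x‖ := by
    rw [norm_iteratedFDeriv_zero, Real.norm_eq_abs]
  rw [h0]
  exact (ifd_pd (test_pd i h) j 0 x).trans (ifd_pd h i 1 x)

lemma pd3_le {φ : E → ℝ} (h : IsTest φ) (i j l : Fin 5) (x : E) :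
    |pd l (pd j (pd i φ)) x| ≤ ‖iteratedFDeriv ℝ 3 φ x‖ := by
  have h0 : |pd l (pd j (pd i φ)) x| = ‖iteratedFDeriv ℝ 0 (pd l (pd j (pd i φ))) x‖ := by
    rw [norm_iteratedFDeriv_zero, Real.norm_eq_abs]
  rw [h0]
  exact ((ifd_pd (test_pd j (test_pd i h)) l 0 x).trans
    (ifd_pd (test_pd i h) j 1 x)).trans (ifd_pd h i 2 x)

lemma pd_sum {φ : Fin 5 → E → ℝ} (h : ∀ i, IsTest (φ i)) (j : Fin 5) (x : E) :
    pd j (fun x => ∑ i, φ i x) x = ∑ i, pd j (φ i) x := by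
  unfold pd
  have h1 : fderiv ℝ (fun x => ∑ i, φ i x) x = ∑ i, fderiv ℝ (φ i) x :=
    fderiv_fun_sum fun i _ => (h i).1.differentiable (by simp) x
  rw [h1, sum_apply]

lemma lap_le {φ : E → ℝ} (h : IsTest φ) {H : ℝ} (hH : ∀ x, ∀ n ≤ 3, ‖iteratedFDeriv ℝ n φ x‖ ≤ H)
    (x : E) : |lap φ x| ≤ 5 * H := by
  unfold lap
  refine (Finset.abs_sum_le_sum_abs _ _).trans ?_
  have h1 : ∀ i ∈ (Finset.univ : Finset (Fin 5)), |pd i (pd i φ) x| ≤ H := fun i _ =>
    (pd2_le h i i x).trans (hH x 2 (by norm_num))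
  refine (Finset.sum_le_sum h1).trans ?_
  simp

lemma pdlap_le {φ : E → ℝ} (h : IsTest φ) {H : ℝ} (hH : ∀ x, ∀ n ≤ 3, ‖iteratedFDeriv ℝ n φ x‖ ≤ H)
    (j : Fin 5) (x : E) : |pd j (lap φ) x| ≤ 5 * H := by
  have h0 : pd j (lap φ) x = ∑ i, pd j (pd i (pd i φ)) x :=
    pd_sum (φ := fun i => pd i (pd i φ)) (fun i => test_pd i (test_pd i h)) j x
  rw [h0]
  refine (Finset.abs_sum_le_sum_abs _ _).trans ?_
  have h1 : ∀ i ∈ (Finset.univ : Finset (Fin 5)), |pd j (pd i (pd i φ)) x| ≤ H := fun i _ =>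
    (pd3_le h i i j x).trans (hH x 3 (by norm_num))
  refine (Finset.sum_le_sum h1).trans ?_
  simp

/-- derivatives vanish outside the shell -/
lemma supp_shell {φ : E → ℝ} {M0 r : ℝ} (hφ : ∀ x, M0 ≤ |‖x‖ - r| → φ x = 0) (x : E)
    (hx : x ∉ {x : E | |‖x‖ - r| ≤ M0}) : x ∉ tsupport φ := by
  have hopen : IsOpen {y : E | M0 < |‖y‖ - r|} := isOpen_lt continuous_const (by fun_prop)
  have hx' : M0 < |‖x‖ - r| := not_le.1 hx
  rw [notMem_tsupport_iff_eventuallyEq]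
  filter_upwards [hopen.mem_nhds hx'] with y hy
  exact hφ y (le_of_lt hy)

lemma mul_int {f g : E → ℝ} (hf : Continuous f) (hg : IsTest g) :
    Integrable (fun x => f x * g x) volume :=
  (hf.mul hg.1.continuous).integrable_of_hasCompactSupport hg.2.mul_left

/-- integration by parts with a differentiable function on the left -/
lemma ibp {w w' : E → ℝ} (i : Fin 5) (hw : Differentiable ℝ w) (hwc : Continuous w')
    (hww : ∀ x, fderiv ℝ w x (EuclideanSpace.single i (1 : ℝ)) = w' x) {ψ : E → ℝ}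
    (hψ : IsTest ψ) : ∫ x, w x * pd i ψ x = - ∫ x, w' x * ψ x := by
  have h := integral_mul_fderiv_eq_neg_fderiv_mul_of_integrable (μ := (volume : Measure E))
    (f := w) (g := ψ) (v := EuclideanSpace.single i (1 : ℝ)) ?_ ?_ ?_ ?_ ?_
  · unfold pd
    rw [h]
    congr 1
    refine integral_congr_ae (Eventually.of_forall fun x => ?_)
    simp only [hww]
  · simp only [hww]
    exact mul_int hwc hψ
  · exact mul_int hw.continuous (test_pd i hψ)
  · exact mul_int hw.continuous hψ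
  · intro x _
    exact hw x
  · intro x _
    exact (hψ.1.differentiable (by simp)) x

/-- an integral with a bounded factor supported in `A` -/
lemma int_le {A : Set E} (hA : MeasurableSet A) {w ψ : E → ℝ} {H : ℝ} (hH : 0 ≤ H)
    (h1 : ∀ x, |ψ x| ≤ H) (h2 : ∀ x, x ∉ A → ψ x = 0) :
    ‖∫ x, w x * ψ x‖ₑ ≤ ENNReal.ofReal H * ∫⁻ x in A, ‖w x‖ₑ := by
  refine (enorm_integral_le_lintegral_enorm _).trans ?_
  rw [← lintegral_const_mul' _ _ ENNReal.ofReal_ne_top, ← lintegral_indicator hA]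
  refine lintegral_mono fun x => ?_
  by_cases hx : x ∈ A
  · rw [indicator_of_mem hx, enorm_mul, mul_comm]
    have h3 : ‖ψ x‖ₑ ≤ ENNReal.ofReal H := by
      rw [Real.enorm_eq_ofReal_abs]
      exact ENNReal.ofReal_le_ofReal (h1 x)
    exact mul_le_mul' h3 le_rfl
  · rw [h2 x hx, mul_zero, enorm_zero]
    exact bot_le

lemma of_enorm {x B : ℝ} (hB : 0 ≤ B) (h : ‖x‖ₑ ≤ ENNReal.ofReal B) : |x| ≤ B := by
  rwa [Real.enorm_eq_ofReal_abs, ENNReal.ofReal_le_ofReal_iff hB] at h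

end G7ax

open G7ax in
theorem thm_G7a (hG6 : St_G6) (hFld : St_FldP) (hFldD : St_FldD) (hNpq : St_Npq) : St_G7a := by
  intro b hb M0 hM0
  have hb0 : 0 < b := by linarith
  have hs : |sig b| < 1 / 2 := by
    have h1 : 0 < 2 / b := by positivity
    have h2 : 2 / b < 1 := by rw [div_lt_one (by linarith)]; exact hb
    unfold sig
    rw [abs_lt]
    constructor <;> linarith
  obtain ⟨C2, hC2, hg6⟩ := hG6 b hb
  obtain ⟨C3, hC3, hfld, -, hth⟩ := hFld (sig b) hs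
  obtain ⟨Cn, -, hd1, hd2, hcb, hcb2, -⟩ := hNpq b hb
  obtain ⟨v, hv⟩ : ∃ v : ℝ, v = (volume (Metric.ball (0 : E) 1)).toReal := ⟨_, rfl⟩
  have hv0 : 0 ≤ v := by rw [hv]; exact ENNReal.toReal_nonneg
  have hvE : volume (Metric.ball (0 : E) 1) = ENNReal.ofReal v := by
    rw [hv, ENNReal.ofReal_toReal measure_ball_lt_top.ne]
  obtain ⟨D, hD⟩ : ∃ D : ℝ, D = 10 * M0 * (1 + M0) ^ 4 * v := ⟨_, rfl⟩
  have hM0' : 0 < M0 := by linarith
  have hD0 : 0 ≤ D := by rw [hD]; positivity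
  have hvol : ∀ r : ℝ, 1 ≤ r → volume {x : E | |‖x‖ - r| ≤ M0} ≤ ENNReal.ofReal (D * r ^ 4) := by
    intro r hr
    have h1 := shell_vol r M0 hr hM0
    rw [hvE, ← ENNReal.ofReal_mul (by positivity)] at h1
    refine h1.trans (le_of_eq ?_)
    congr 1
    rw [hD]
    ring
  have hmeas : ∀ r : ℝ, MeasurableSet {x : E | |‖x‖ - r| ≤ M0} := fun r =>
    (isClosed_le (by fun_prop) continuous_const).measurableSet
  have hc1 : 0 ≤ C2 * M0 := by positivity
  -- the norm of `f` on the shell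
  have hU : ∀ (f g : E → ℝ) (r : ℝ), IsTest f → IsTest g →
      ∫⁻ x in {x : E | |‖x‖ - r| ≤ M0}, ‖f x‖ₑ ^ (2 * b) ≤
        ENNReal.ofReal ((C2 * M0) * ‖Theta (sig b) f g‖ ^ (2 * b)) := by
    intro f g r hf hg
    have h1 := hg6 (Theta (sig b) f g) r M0 hM0'.le
    have h2 : ∫⁻ x in {x : E | |‖x‖ - r| ≤ M0}, ‖U (sig b) (Theta (sig b) f g) x‖ₑ ^ (2 * b) =
        ∫⁻ x in {x : E | |‖x‖ - r| ≤ M0}, ‖f x‖ₑ ^ (2 * b) := by
      apply lintegral_congr_ae
      filter_upwards [ae_restrict_of_ae (hth f g hf hg).1] with x hx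
      rw [hx]
    rw [h2] at h1
    refine h1.trans (le_of_eq ?_)
    rw [ENNReal.ofReal_mul hc1, ← ENNReal.ofReal_rpow_of_nonneg (norm_nonneg _) (by positivity),
      ofReal_norm]
  have hDU : ∀ (f g : E → ℝ) (i : Fin 5), IsTest f → IsTest g →
      eLpNorm (pd i f) (ENNReal.ofReal (10 / (3 - 2 * sig b))) volume ≤
        ENNReal.ofReal (C3 * ‖Theta (sig b) f g‖) := by
    intro f g i hf hg
    have h1 := ((hfld (Theta (sig b) f g)).2.2.2.2.1 i).2.2
    rw [eLpNorm_congr_ae ((hth f g hf hg).2.2 i)] at h1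
    rw [ENNReal.ofReal_mul hC3.le, ofReal_norm]
    exact h1
  have hsplit : ∀ (f φ : E → ℝ), IsTest f → IsTest φ →
      ∫ x, Fn b (f x) * lap (lap φ) x = ∑ i, ∫ x, Fn b (f x) * pd i (pd i (lap φ)) x := by
    intro f φ hf hφ
    have hcF : Continuous fun x => Fn b (f x) :=
      (continuous_iff_continuousAt.2 fun u => (hd1 u).continuousAt).comp hf.1.continuous
    rw [← integral_finsetSum _ fun i _ => mul_int hcF (test_pd i (test_pd i (test_lap hφ)))]
    refine integral_congr_ae (Eventually.of_forall fun x => ?_)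
    show Fn b (f x) * (∑ i, pd i (pd i (lap φ)) x) = _
    rw [Finset.mul_sum]
  -- first integration by parts
  have hibp1 : ∀ (f ψ : E → ℝ) (i : Fin 5), IsTest f → IsTest ψ →
      ∫ x, Fn b (f x) * pd i ψ x = - ∫ x, ((b + 1) * |f x| ^ b * pd i f x) * ψ x := by
    intro f ψ i hf hψ
    have hfd : ∀ x, HasFDerivAt f (fderiv ℝ f x) x := fun x =>
      ((hf.1.differentiable (by simp)) x).hasFDerivAt
    have hw : ∀ x, HasFDerivAt (fun x => Fn b (f x)) (((b + 1) * |f x| ^ b) • fderiv ℝ f x) x :=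
      fun x => (hd1 (f x)).comp_hasFDerivAt x (hfd x)
    refine ibp i (fun x => (hw x).differentiableAt) ?_ (fun x => ?_) hψ
    · exact (continuous_const.mul (hcb.comp hf.1.continuous)).mul (test_pd i hf).1.continuous
    · rw [(hw x).fderiv]
      rfl
  -- it is enough to estimate the summands
  suffices hmain : ∃ C : ℝ, 0 ≤ C ∧ ∀ (f g φ : E → ℝ) (r H : ℝ) (i : Fin 5), IsTest f → IsTest g →
      IsTest φ → 1 ≤ r → 0 ≤ H → (∀ x, M0 ≤ abs (‖x‖ - r) → φ x = 0) →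
      (∀ x, ∀ n ≤ 3, ‖iteratedFDeriv ℝ n φ x‖ ≤ H) →
      |∫ x, Fn b (f x) * pd i (pd i (lap φ)) x| ≤
        C * H * r ^ (4 / 5 : ℝ) * ‖Theta (sig b) f g‖ ^ (b + 1) by
    obtain ⟨C, hC, h⟩ := hmain
    refine ⟨5 * C + 1, by linarith, ?_⟩
    intro f g φ r H hf hg hφ hr hH h1 h2
    rw [hsplit f φ hf hφ]
    refine (Finset.abs_sum_le_sum_abs _ _).trans ?_
    refine (Finset.sum_le_sum fun i _ => h f g φ r H i hf hg hφ hr hH h1 h2).trans ?_
    have hr0 : 0 < r := by linarith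
    have hX : 0 ≤ H * r ^ (4 / 5 : ℝ) * ‖Theta (sig b) f g‖ ^ (b + 1) := by positivity
    rw [Finset.sum_const, Finset.card_univ, Fintype.card_fin, nsmul_eq_mul]
    push_cast
    nlinarith
  have hes : sig b = 1 / 2 - 2 / b := rfl
  have hb2 : 2 / b < 1 := by rw [div_lt_one (by linarith)]; exact hb
  have hb2' : 0 < 2 / b := by positivity
  rcases le_or_gt b 4 with hb4 | hb4
  · -- `b ≤ 4`
    obtain ⟨KA, hKA⟩ : ∃ KA : ℝ, KA = (C2 * M0) ^ (b / (2 * b)) * C3 ^ (1 : ℝ) *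
      D ^ (3 / 10 - 2 / (5 * b)) := ⟨_, rfl⟩
    have hKA0 : 0 ≤ KA := by rw [hKA]; positivity
    refine ⟨5 * (b + 1) * KA, by positivity, ?_⟩
    intro f g φ r H i hf hg hφ hr hH h1 h2
    have hr0 : 0 < r := by linarith
    rw [hibp1 f (pd i (lap φ)) i hf (test_pd i (test_lap hφ)), abs_neg]
    apply of_enorm (by positivity)
    refine (int_le (hmeas r) (by positivity : 0 ≤ 5 * H) (pdlap_le hφ h2 i) fun x hx => ?_).trans ?_
    · exact image_eq_zero_of_notMem_tsupport fun h3 => supp_shell h1 x hx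
        ((closure_minimal (fun y hy => by
          by_contra h4
          exact hy (lap_zero h4)) (isClosed_tsupport φ)) (tsupport_pd i (lap φ) h3))
    · have e1 : ∀ x, ‖(b + 1) * |f x| ^ b * pd i f x‖ₑ =
          ENNReal.ofReal (b + 1) * (‖f x‖ₑ ^ b * ‖pd i f x‖ₑ ^ (1 : ℝ)) := by
        intro x
        rw [ENNReal.rpow_one, enorm_mul, enorm_mul, Real.enorm_eq_ofReal (by linarith : 0 ≤ b + 1),
          Real.enorm_eq_ofReal (by positivity : 0 ≤ |f x| ^ b), Real.enorm_eq_ofReal_abs (f x),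
          ENNReal.ofReal_rpow_of_nonneg (abs_nonneg _) hb0.le, mul_assoc]
      rw [lintegral_congr e1, lintegral_const_mul' _ _ ENNReal.ofReal_ne_top]
      have h5 : 2 / (5 * b) = 2 / b / 5 := by field_simp
      have h6 := est {x : E | |‖x‖ - r| ≤ M0} f (pd i f) hf.1.continuous.aestronglyMeasurable
        (test_pd i hf).1.continuous.aestronglyMeasurable (b := b) (q := 10 / (3 - 2 * sig b))
        (α := b) (β := 1) (p3 := 3 / 10 - 2 / (5 * b)) (c1 := C2 * M0) (c2 := C3) (D := D) (r := r)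
        (N := ‖Theta (sig b) f g‖) hb0 (by
          rw [hes]
          apply div_pos (by norm_num)
          linarith) hb0.le (by norm_num) (by
          rw [h5]
          linarith) (by
          rw [hes]
          have h7 : (3 - 2 * (1 / 2 - 2 / b)) ≠ 0 := by
            have : 0 < 3 - 2 * (1 / 2 - 2 / b) := by linarith
            exact this.ne'
          rw [one_div_div, h5]
          have h8 : b / (2 * b) = 1 / 2 := by field_simp
          rw [h8]
          ring) rfl (by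
          rw [h5]
          have h9 : 1 / 2 ≤ 2 / b := by
            rw [div_le_div_iff₀ (by norm_num) hb0]
            linarith
          linarith) hc1 hC3.le hD0 hr (norm_nonneg _) (hU f g r hf hg) (hDU f g i hf hg) (hvol r hr)
      rw [← hKA] at h6
      calc ENNReal.ofReal (5 * H) * (ENNReal.ofReal (b + 1) *
            ∫⁻ x in {x : E | |‖x‖ - r| ≤ M0}, ‖f x‖ₑ ^ b * ‖pd i f x‖ₑ ^ (1 : ℝ)) ≤
          ENNReal.ofReal (5 * H) * (ENNReal.ofReal (b + 1) *
            ENNReal.ofReal (KA * r ^ (4 / 5 : ℝ) * ‖Theta (sig b) f g‖ ^ (b + 1))) := by gcongr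
        _ = _ := by
          rw [← ENNReal.ofReal_mul (by positivity), ← ENNReal.ofReal_mul (by positivity)]
          congr 1
          ring
  · -- `b > 4`
    have hs0 : 0 ≤ sig b := by
      rw [hes]
      have : 2 / b < 1 / 2 := by
        rw [div_lt_div_iff₀ hb0 (by norm_num)]
        linarith
      linarith
    obtain ⟨C4, hC4, hfd, -, hth2⟩ := hFldD (sig b) hs0 (abs_lt.1 hs).2
    have hDDU : ∀ (f g : E → ℝ) (i : Fin 5), IsTest f → IsTest g →
        eLpNorm (pd i (pd i f)) (ENNReal.ofReal (10 / (5 - 2 * sig b))) volume ≤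
          ENNReal.ofReal (C4 * ‖Theta (sig b) f g‖) := by
      intro f g i hf hg
      have h1 := (hfd (Theta (sig b) f g) i i).2.2
      rw [eLpNorm_congr_ae (hth2 f g i i hf hg)] at h1
      rw [ENNReal.ofReal_mul hC4.le, ofReal_norm]
      exact h1
    -- second integration by parts
    have hibp2 : ∀ (f ψ : E → ℝ) (i : Fin 5), IsTest f → IsTest ψ →
        ∫ x, ((b + 1) * |f x| ^ b * pd i f x) * pd i ψ x = - ∫ x, ((b + 1) *
          (b * (|f x| ^ (b - 2) * f x)) * pd i f x * pd i f x +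
            (b + 1) * |f x| ^ b * pd i (pd i f) x) * ψ x := by
      intro f ψ i hf hψ
      have hfd : ∀ x, HasFDerivAt f (fderiv ℝ f x) x := fun x =>
        ((hf.1.differentiable (by simp)) x).hasFDerivAt
      have hpfd : ∀ x, HasFDerivAt (pd i f) (fderiv ℝ (pd i f) x) x := fun x =>
        (((test_pd i hf).1.differentiable (by simp)) x).hasFDerivAt
      have hw1 : ∀ x, HasFDerivAt (fun x => (b + 1) * |f x| ^ b)
          ((b + 1) • ((b * (|f x| ^ (b - 2) * f x)) • fderiv ℝ f x)) x :=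
        fun x => ((hd2 (f x)).comp_hasFDerivAt x (hfd x)).const_mul (b + 1)
      have hw : ∀ x, HasFDerivAt (fun x => (b + 1) * |f x| ^ b * pd i f x)
          (((b + 1) * |f x| ^ b) • fderiv ℝ (pd i f) x +
            pd i f x • ((b + 1) • ((b * (|f x| ^ (b - 2) * f x)) • fderiv ℝ f x))) x :=
        fun x => (hw1 x).mul (hpfd x)
      have hcf := hf.1.continuous
      have hcp := (test_pd i hf).1.continuous
      have hcpp := (test_pd i (test_pd i hf)).1.continuous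
      refine ibp i (fun x => (hw x).differentiableAt) ?_ (fun x => ?_) hψ
      · exact (((continuous_const.mul (continuous_const.mul (hcb2.comp hcf))).mul hcp).mul hcp).add
          ((continuous_const.mul (hcb.comp hcf)).mul hcpp)
      · rw [(hw x).fderiv]
        show ((b + 1) * |f x| ^ b) * pd i (pd i f) x + pd i f x * ((b + 1) *
          ((b * (|f x| ^ (b - 2) * f x)) * pd i f x)) = _
        ring
    obtain ⟨K1, hK1⟩ : ∃ K1 : ℝ, K1 = (C2 * M0) ^ (b / (2 * b)) * C4 ^ (1 : ℝ) *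
      D ^ (1 / 10 - 2 / (5 * b)) := ⟨_, rfl⟩
    obtain ⟨K2, hK2⟩ : ∃ K2 : ℝ, K2 = (C2 * M0) ^ ((b - 1) / (2 * b)) * C3 ^ (2 : ℝ) *
      D ^ (1 / 10 - 3 / (10 * b)) := ⟨_, rfl⟩
    have hK10 : 0 ≤ K1 := by rw [hK1]; positivity
    have hK20 : 0 ≤ K2 := by rw [hK2]; positivity
    refine ⟨5 * ((b + 1) * b * K2 + (b + 1) * K1), by positivity, ?_⟩
    intro f g φ r H i hf hg hφ hr hH h1 h2
    have hr0 : 0 < r := by linarith
    rw [hibp1 f (pd i (lap φ)) i hf (test_pd i (test_lap hφ)), abs_neg,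
      hibp2 f (lap φ) i hf (test_lap hφ), abs_neg]
    apply of_enorm (by positivity)
    refine (int_le (hmeas r) (by positivity : 0 ≤ 5 * H) (lap_le hφ h2) fun x hx =>
      lap_zero (supp_shell h1 x hx)).trans ?_
    have e1 : ∀ x, ‖(b + 1) * (b * (|f x| ^ (b - 2) * f x)) * pd i f x * pd i f x +
            (b + 1) * |f x| ^ b * pd i (pd i f) x‖ₑ ≤
          ENNReal.ofReal ((b + 1) * b) * (‖f x‖ₑ ^ (b - 1) * ‖pd i f x‖ₑ ^ (2 : ℝ)) +
          ENNReal.ofReal (b + 1) * (‖f x‖ₑ ^ b * ‖pd i (pd i f) x‖ₑ ^ (1 : ℝ)) := by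
      intro x
      refine (enorm_add_le _ _).trans (le_of_eq ?_)
      congr 1
      · have h3 : |(|f x| ^ (b - 2) * f x)| = |f x| ^ (b - 1) := by
          rcases eq_or_ne (f x) 0 with h0 | h0
          · rw [h0, mul_zero, abs_zero, Real.zero_rpow (by linarith)]
          · have hx0 : 0 < |f x| := abs_pos.2 h0
            rw [abs_mul, abs_of_nonneg (Real.rpow_nonneg (abs_nonneg _) _)]
            nth_rewrite 2 [← Real.rpow_one |f x|]
            rw [← Real.rpow_add hx0]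
            congr 1
            ring
        have h4 : ‖(b + 1) * (b * (|f x| ^ (b - 2) * f x)) * pd i f x * pd i f x‖ₑ =
            ‖(b + 1) * b‖ₑ * ‖|f x| ^ (b - 2) * f x‖ₑ * (‖pd i f x‖ₑ * ‖pd i f x‖ₑ) := by
          rw [← enorm_mul, ← enorm_mul, ← enorm_mul]
          congr 1
          ring
        rw [h4, Real.enorm_eq_ofReal (by positivity : 0 ≤ (b + 1) * b),
          Real.enorm_eq_ofReal_abs (|f x| ^ (b - 2) * f x), h3, Real.enorm_eq_ofReal_abs (f x),
          ENNReal.ofReal_rpow_of_nonneg (abs_nonneg _) (by linarith), ENNReal.rpow_two, sq, mul_assoc]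
      · rw [ENNReal.rpow_one, enorm_mul, enorm_mul, Real.enorm_eq_ofReal (by linarith : 0 ≤ b + 1),
          Real.enorm_eq_ofReal (by positivity : 0 ≤ |f x| ^ b), Real.enorm_eq_ofReal_abs (f x),
          ENNReal.ofReal_rpow_of_nonneg (abs_nonneg _) hb0.le, mul_assoc]
    have hmf := hf.1.continuous.aestronglyMeasurable (μ := (volume : Measure E))
    have hmp := (test_pd i hf).1.continuous.aestronglyMeasurable (μ := (volume : Measure E))
    have hmpp := (test_pd i (test_pd i hf)).1.continuous.aestronglyMeasurable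
      (μ := (volume : Measure E))
    have h5 : 2 / (5 * b) = 2 / b / 5 := by field_simp
    have h5' : 3 / (10 * b) = 3 * (2 / b) / 20 := by field_simp; norm_num
    have h5'' : (b - 1) / (2 * b) = 1 / 2 - 2 / b / 4 := by field_simp; ring
    have h8 : b / (2 * b) = 1 / 2 := by field_simp
    have h9 : 2 / b < 1 / 2 := by
      rw [div_lt_div_iff₀ hb0 (by norm_num)]
      linarith
    have f1 := est {x : E | |‖x‖ - r| ≤ M0} f (pd i (pd i f)) hmf hmpp (b := b)
        (q := 10 / (5 - 2 * sig b))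
        (α := b) (β := 1) (p3 := 1 / 10 - 2 / (5 * b)) (c1 := C2 * M0) (c2 := C4) (D := D) (r := r)
        (N := ‖Theta (sig b) f g‖) hb0 (by
          rw [hes]
          apply div_pos (by norm_num)
          linarith) hb0.le (by norm_num) (by
          rw [h5]
          linarith) (by
          rw [hes, one_div_div, h5, h8]
          ring) rfl (by
          rw [h5]
          linarith) hc1 hC4.le hD0 hr (norm_nonneg _) (hU f g r hf hg) (hDDU f g i hf hg) (hvol r hr)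
    have f2 := est {x : E | |‖x‖ - r| ≤ M0} f (pd i f) hmf hmp (b := b)
        (q := 10 / (3 - 2 * sig b))
        (α := b - 1) (β := 2) (p3 := 1 / 10 - 3 / (10 * b)) (c1 := C2 * M0) (c2 := C3) (D := D) (r := r)
        (N := ‖Theta (sig b) f g‖) hb0 (by
          rw [hes]
          apply div_pos (by norm_num)
          linarith) (by linarith) (by norm_num) (by
          rw [h5']
          linarith) (by
          have h7 : 2 / (10 / (3 - 2 * sig b)) = 2 * (3 - 2 * sig b) / 10 := by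
            rw [div_div_eq_mul_div]
          rw [h7, hes, h5', h5'']
          ring) (by ring) (by
          rw [h5']
          linarith) hc1 hC3.le hD0 hr (norm_nonneg _) (hU f g r hf hg) (hDU f g i hf hg) (hvol r hr)
    rw [← hK1] at f1
    rw [← hK2] at f2
    have hm2 : AEMeasurable (fun x => ENNReal.ofReal ((b + 1) * b) *
        (‖f x‖ₑ ^ (b - 1) * ‖pd i f x‖ₑ ^ (2 : ℝ)))
        ((volume : Measure E).restrict {x : E | |‖x‖ - r| ≤ M0}) :=
      ((hmf.restrict.enorm.pow_const _).mul (hmp.restrict.enorm.pow_const _)).const_mul _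
    calc ENNReal.ofReal (5 * H) * ∫⁻ x in {x : E | |‖x‖ - r| ≤ M0},
          ‖(b + 1) * (b * (|f x| ^ (b - 2) * f x)) * pd i f x * pd i f x +
            (b + 1) * |f x| ^ b * pd i (pd i f) x‖ₑ
        ≤ ENNReal.ofReal (5 * H) * ∫⁻ x in {x : E | |‖x‖ - r| ≤ M0},
          (ENNReal.ofReal ((b + 1) * b) * (‖f x‖ₑ ^ (b - 1) * ‖pd i f x‖ₑ ^ (2 : ℝ)) +
          ENNReal.ofReal (b + 1) * (‖f x‖ₑ ^ b * ‖pd i (pd i f) x‖ₑ ^ (1 : ℝ))) := by
            gcongr with x
            exact e1 x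
      _ = ENNReal.ofReal (5 * H) * (ENNReal.ofReal ((b + 1) * b) *
            (∫⁻ x in {x : E | |‖x‖ - r| ≤ M0}, ‖f x‖ₑ ^ (b - 1) * ‖pd i f x‖ₑ ^ (2 : ℝ)) +
          ENNReal.ofReal (b + 1) *
            ∫⁻ x in {x : E | |‖x‖ - r| ≤ M0}, ‖f x‖ₑ ^ b * ‖pd i (pd i f) x‖ₑ ^ (1 : ℝ)) := by
            rw [lintegral_add_left' hm2, lintegral_const_mul' _ _ ENNReal.ofReal_ne_top,
              lintegral_const_mul' _ _ ENNReal.ofReal_ne_top]
      _ ≤ ENNReal.ofReal (5 * H) * (ENNReal.ofReal ((b + 1) * b) *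
            ENNReal.ofReal (K2 * r ^ (4 / 5 : ℝ) * ‖Theta (sig b) f g‖ ^ (b + 1)) +
          ENNReal.ofReal (b + 1) *
            ENNReal.ofReal (K1 * r ^ (4 / 5 : ℝ) * ‖Theta (sig b) f g‖ ^ (b + 1))) := by
            gcongr
      _ = _ := by
          rw [← ENNReal.ofReal_mul (by positivity), ← ENNReal.ofReal_mul (by positivity),
            ← ENNReal.ofReal_add (by positivity) (by positivity), ← ENNReal.ofReal_mul (by positivity)]
          congr 1
          ring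

end Pool.Agent.QWP
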