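import Pool.Agent.QWP.StG
import Pool.Agent.QWP.G7a
import Pool.Agent.QWP.LocC

set_option autoImplicit false

/-!
# QWP, G10: dispersion
-/

open MeasureTheory Filter Topology Set
open scoped ENNReal NNReal RealInnerProductSpace

namespace Pool.Agent.QWP

open Pool.Agent.QWE (E S sg mu K toK tau sh dl rev gr ig IsTest pd lap Rad dRad Rk dRk c0 WD Sm SmE IsSch half shr WTo resc)

namespace G10x

open G7ax (shell_vol supp_shell test_pd tsupport_pd ifd_pd pd2_le)
open LocCx (sig_lt sig_pos)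

/-- The norm of a bounded function supported in a shell. -/
theorem shell_norm {q : ℝ} (hq : 0 < q) (h : E → ℝ) (r M0 B : ℝ) (hr : 1 ≤ r) (hM : 1 ≤ M0)
    (h1 : ∀ x, |h x| ≤ B) (h2 : ∀ x ∉ {x : E | |‖x‖ - r| ≤ M0}, h x = 0) :
    eLpNorm h (ENNReal.ofReal q) volume ≤
      ENNReal.ofReal ((10 * M0 * (1 + M0) ^ 4 * (volume (Metric.ball (0 : E) 1)).toReal *
        r ^ 4) ^ (1 / q) * B) := by
  have hv' : volume (Metric.ball (0 : E) 1) =
      ENNReal.ofReal (volume (Metric.ball (0 : E) 1)).toReal := by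
    rw [ENNReal.ofReal_toReal measure_ball_lt_top.ne]
  have hm : MeasurableSet {x : E | |‖x‖ - r| ≤ M0} :=
    (isClosed_le (by fun_prop) continuous_const).measurableSet
  have e1 : h = {x : E | |‖x‖ - r| ≤ M0}.indicator h := by
    funext x
    by_cases hx : x ∈ {x : E | |‖x‖ - r| ≤ M0}
    · rw [indicator_of_mem hx]
    · rw [indicator_of_notMem hx]
      exact h2 x hx
  rw [e1, eLpNorm_indicator_eq_eLpNorm_restrict hm]
  have e2 := eLpNorm_le_of_ae_bound (p := ENNReal.ofReal q) (f := h) (C := B)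
    (μ := volume.restrict {x : E | |‖x‖ - r| ≤ M0}) (Eventually.of_forall h1)
  refine e2.trans ?_
  rw [Measure.restrict_apply_univ, ENNReal.toReal_ofReal hq.le,
    ENNReal.ofReal_mul (by positivity), inv_eq_one_div]
  refine mul_le_mul_left ?_ _
  rw [← ENNReal.ofReal_rpow_of_nonneg (by positivity) (by positivity)]
  refine ENNReal.rpow_le_rpow ?_ (by positivity)
  have e3 := shell_vol r M0 hr hM
  rw [hv', ← ENNReal.ofReal_mul (by positivity)] at e3
  refine e3.trans (le_of_eq ?_)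
  congr 1
  ring

/-- the bound tends to zero -/
theorem bound_tend {q : ℝ} (hq : 2 < q) (D C : ℝ) (hD : 0 ≤ D) (hC : 0 ≤ C) :
    Tendsto (fun t : ℝ => ENNReal.ofReal ((D * t ^ 4) ^ (1 / q) * (C / (1 + t ^ 2)))) atTop
      (𝓝 0) := by
  have hq0 : 0 < q := by linarith
  have h4 : 0 < 2 - 4 / q := by
    have : 4 / q < 2 := by
      rw [div_lt_iff₀ hq0]
      linarith
    linarith
  have hmain : Tendsto (fun t : ℝ => D ^ (1 / q) * C * t ^ (-(2 - 4 / q))) atTop (𝓝 0) := by
    have := (tendsto_rpow_neg_atTop h4).const_mul (D ^ (1 / q) * C)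
    rwa [mul_zero] at this
  have h5 : Tendsto (fun t : ℝ => (D * t ^ 4) ^ (1 / q) * (C / (1 + t ^ 2))) atTop (𝓝 0) := by
    refine squeeze_zero' ?_ ?_ hmain
    · exact Eventually.of_forall fun t => by positivity
    · filter_upwards [eventually_ge_atTop (1 : ℝ)] with t ht
      have htp : 0 < t := by linarith
      have h6 : C / (1 + t ^ 2) ≤ C * t ^ (-(2 : ℝ)) := by
        rw [Real.rpow_neg htp.le, Real.rpow_two, ← div_eq_mul_inv]
        gcongr
        linarith
      have h7 : (D * t ^ 4) ^ (1 / q) = D ^ (1 / q) * t ^ (4 / q) := by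
        rw [Real.mul_rpow hD (by positivity), ← Real.rpow_natCast t 4, ← Real.rpow_mul htp.le]
        congr 2
        push_cast
        ring
      calc (D * t ^ 4) ^ (1 / q) * (C / (1 + t ^ 2)) ≤
          (D ^ (1 / q) * t ^ (4 / q)) * (C * t ^ (-(2 : ℝ))) := by
            rw [h7]
            gcongr
        _ = D ^ (1 / q) * C * (t ^ (4 / q) * t ^ (-(2 : ℝ))) := by ring
        _ = D ^ (1 / q) * C * t ^ (-(2 - 4 / q)) := by
            rw [← Real.rpow_add htp]
            congr 2
            ring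
  rw [← ENNReal.ofReal_zero]
  exact (ENNReal.continuous_ofReal.tendsto 0).comp h5

theorem q1_gt {b : ℝ} (hb : 2 < b) : 2 < 10 / (3 - 2 * sig b) := by
  have h := abs_lt.1 (sig_lt hb)
  have h1 : 0 < 3 - 2 * sig b := by linarith
  rw [lt_div_iff₀ h1]
  linarith

theorem q2_gt {b : ℝ} (hb : 4 < b) : 2 < 10 / (5 - 2 * sig b) := by
  have h := abs_lt.1 (sig_lt (show (2 : ℝ) < b by linarith))
  have h2 := sig_pos hb
  have h1 : 0 < 5 - 2 * sig b := by linarith
  rw [lt_div_iff₀ h1]
  linarith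

/-- decay of the norms of the derivatives -/
theorem tn_test (hDec : St_DecayP) (hF : St_FldP) (hFD : St_FldD) {b : ℝ} (hb : 2 < b)
    (f g : E → ℝ) (hf : IsTest f) (hg : IsTest g) :
    Tendsto (fun t => tn b (tau t (Theta (sig b) f g))) atTop (𝓝 0) := by
  obtain ⟨C, M0, hC, hM0, hdec⟩ := hDec f g hf hg
  obtain ⟨D, hD⟩ : ∃ D : ℝ, D = 10 * M0 * (1 + M0) ^ 4 *
    (volume (Metric.ball (0 : E) 1)).toReal := ⟨_, rfl⟩
  have hD0 : 0 ≤ D := by
    rw [hD]
    positivity
  unfold tn
  by_cases h4 : b ≤ 4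
  · simp only [h4, if_true]
    rw [← Finset.sum_const_zero (s := (Finset.univ : Finset (Fin 5)))]
    refine tendsto_finsetSum _ fun i _ => ?_
    refine tendsto_of_tendsto_of_tendsto_of_le_of_le' tendsto_const_nhds
      (bound_tend (q1_gt hb) D C hD0 hC.le) (Eventually.of_forall fun _ => bot_le) ?_
    filter_upwards [eventually_ge_atTop (1 : ℝ)] with t ht
    obtain ⟨f', g', hf', hg', hfg', hsupp, hbd⟩ := hdec t
    rw [hfg' _ (sig_lt hb)]
    obtain ⟨-, -, -, -, hth⟩ := hF (sig b) (sig_lt hb)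
    rw [eLpNorm_congr_ae ((hth f' g' hf' hg').2.2 i)]
    have h1 : ∀ x, |pd i f' x| ≤ C / (1 + t ^ 2) := by
      intro x
      have h0 : |pd i f' x| = ‖iteratedFDeriv ℝ 0 (pd i f') x‖ := by
        rw [norm_iteratedFDeriv_zero, Real.norm_eq_abs]
      rw [h0]
      exact (ifd_pd hf' i 0 x).trans (hbd x 1 (by norm_num)).1
    have h2 : ∀ x ∉ {x : E | |‖x‖ - t| ≤ M0}, pd i f' x = 0 := by
      intro x hx
      have h3 := supp_shell (φ := f') (M0 := M0) (r := t) (fun y hy => (hsupp y (by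
        rwa [abs_of_pos (show (0 : ℝ) < t by linarith)])).1) x hx
      exact image_eq_zero_of_notMem_tsupport fun h5 => h3 (tsupport_pd i f' h5)
    have h3 := shell_norm (by linarith [q1_gt hb] : (0 : ℝ) < 10 / (3 - 2 * sig b)) (pd i f') t M0
      (C / (1 + t ^ 2)) ht hM0 h1 h2
    rw [← hD] at h3
    exact h3
  · simp only [h4, if_false]
    have h4' : 4 < b := not_le.1 h4
    rw [← Finset.sum_const_zero (s := (Finset.univ : Finset (Fin 5)))]
    refine tendsto_finsetSum _ fun i _ => ?_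
    rw [← Finset.sum_const_zero (s := (Finset.univ : Finset (Fin 5)))]
    refine tendsto_finsetSum _ fun j _ => ?_
    refine tendsto_of_tendsto_of_tendsto_of_le_of_le' tendsto_const_nhds
      (bound_tend (q2_gt h4') D C hD0 hC.le) (Eventually.of_forall fun _ => bot_le) ?_
    filter_upwards [eventually_ge_atTop (1 : ℝ)] with t ht
    obtain ⟨f', g', hf', hg', hfg', hsupp, hbd⟩ := hdec t
    rw [hfg' _ (sig_lt hb)]
    obtain ⟨-, -, -, -, hth⟩ := hFD (sig b) (sig_pos h4').le (abs_lt.1 (sig_lt hb)).2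
    rw [eLpNorm_congr_ae (hth f' g' i j hf' hg')]
    have h1 : ∀ x, |pd j (pd i f') x| ≤ C / (1 + t ^ 2) := fun x =>
      (pd2_le hf' i j x).trans (hbd x 2 (by norm_num)).1
    have h2 : ∀ x ∉ {x : E | |‖x‖ - t| ≤ M0}, pd j (pd i f') x = 0 := by
      intro x hx
      have h3 := supp_shell (φ := f') (M0 := M0) (r := t) (fun y hy => (hsupp y (by
        rwa [abs_of_pos (show (0 : ℝ) < t by linarith)])).1) x hx
      exact image_eq_zero_of_notMem_tsupport fun h5 => h3 (tsupport_pd i f' (tsupport_pd j _ h5))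
    have h3 := shell_norm (by linarith [q2_gt h4'] : (0 : ℝ) < 10 / (5 - 2 * sig b))
      (pd j (pd i f')) t M0 (C / (1 + t ^ 2)) ht hM0 h1 h2
    rw [← hD] at h3
    exact h3

theorem tn_add (hF : St_FldP) (hFD : St_FldD) {b : ℝ} (hb : 2 < b) (k k' : K) :
    tn b (k + k') ≤ tn b k + tn b k' := by
  unfold tn
  by_cases h4 : b ≤ 4
  · simp only [h4, if_true]
    obtain ⟨_, _, hfl, hlin, -⟩ := hF (sig b) (sig_lt hb)
    rw [← Finset.sum_add_distrib]
    refine Finset.sum_le_sum fun i _ => ?_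
    have h1 := (hlin 1 k k').2.2 i
    rw [one_smul] at h1
    rw [eLpNorm_congr_ae h1]
    have h2 : (fun x => DU (sig b) k i x + 1 * DU (sig b) k' i x) =
        DU (sig b) k i + DU (sig b) k' i := by
      funext x
      rw [one_mul]
      rfl
    rw [h2]
    refine eLpNorm_add_le ((hfl k).2.2.2.2.1 i).1.aestronglyMeasurable
      ((hfl k').2.2.2.2.1 i).1.aestronglyMeasurable ?_
    unfold q1
    rw [← ENNReal.ofReal_one]
    exact ENNReal.ofReal_le_ofReal (by linarith [q1_gt hb])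
  · simp only [h4, if_false]
    have h4' : 4 < b := not_le.1 h4
    obtain ⟨_, _, hfl, hlin, -⟩ := hFD (sig b) (sig_pos h4').le (abs_lt.1 (sig_lt hb)).2
    rw [← Finset.sum_add_distrib]
    refine Finset.sum_le_sum fun i _ => ?_
    rw [← Finset.sum_add_distrib]
    refine Finset.sum_le_sum fun j _ => ?_
    have h1 := hlin 1 k k' i j
    rw [one_smul] at h1
    rw [eLpNorm_congr_ae h1]
    have h2 : (fun x => DDU (sig b) k i j x + 1 * DDU (sig b) k' i j x) =
        DDU (sig b) k i j + DDU (sig b) k' i j := by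
      funext x
      rw [one_mul]
      rfl
    rw [h2]
    refine eLpNorm_add_le (hfl k i j).1.aestronglyMeasurable
      (hfl k' i j).1.aestronglyMeasurable ?_
    unfold q2
    rw [← ENNReal.ofReal_one]
    exact ENNReal.ofReal_le_ofReal (by linarith [q2_gt h4'])

end G10x

open G10x in
/-- **G10** (dispersion) -/
theorem thm_G10 (hDec : St_DecayP) (hDns : St_DnsP) (hF : St_FldP) (hFD : St_FldD)
    (hNLd : St_NLd) (hG : Pool.Agent.QWE.St_Grp1) : St_G10 := by
  intro b hb
  refine ⟨fun k k' => tn_add hF hFD hb k k', fun k kp hlim => ?_⟩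
  obtain ⟨C, hC, htn, -⟩ := hNLd b hb
  obtain ⟨g1, g2, -⟩ := hG
  rw [ENNReal.tendsto_nhds_zero]
  intro ε hε
  by_cases hεt : ε = ⊤
  · exact Eventually.of_forall fun t => by rw [hεt]; exact le_top
  obtain ⟨e, he⟩ : ∃ e, e = ε.toReal := ⟨_, rfl⟩
  have he0 : 0 < e := by rw [he]; exact ENNReal.toReal_pos hε.ne' hεt
  have heε : ENNReal.ofReal e = ε := by rw [he]; exact ENNReal.ofReal_toReal hεt
  obtain ⟨f, g, hf, hg, hfg⟩ := (hDns (sig b) (LocCx.sig_lt hb)).2.1 kp (e / (4 * C))
    (by positivity)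
  have hmain := tn_test hDec hF hFD hb f g hf hg
  rw [ENNReal.tendsto_nhds_zero] at hmain
  have hev1 := hmain (ENNReal.ofReal (e / 2)) (ENNReal.ofReal_pos.2 (by positivity))
  have hev2 : ∀ᶠ t in atTop, ‖tau (-t) (k t) - kp‖ < e / (4 * C) := by
    have := Metric.tendsto_nhds.1 hlim (e / (4 * C)) (by positivity)
    refine this.mono fun t ht => ?_
    rwa [dist_eq_norm] at ht
  filter_upwards [hev1, hev2] with t ht1 ht2
  obtain ⟨w, hw⟩ : ∃ w : K, w = k t - tau t (Theta (sig b) f g) := ⟨_, rfl⟩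
  have hkt : k t = tau t (Theta (sig b) f g) + w := by
    rw [hw]; abel
  have hwn : ‖w‖ ≤ e / (2 * C) := by
    have h1 : w = tau t (tau (-t) (k t) - Theta (sig b) f g) := by
      rw [hw, map_sub, g1, add_neg_cancel, g2]
    rw [h1, LinearIsometry.norm_map]
    have h2 : tau (-t) (k t) - Theta (sig b) f g =
        (tau (-t) (k t) - kp) + (kp - Theta (sig b) f g) := by abel
    rw [h2]
    refine (norm_add_le _ _).trans ?_
    have h3 : e / (2 * C) = e / (4 * C) + e / (4 * C) := by field_simp; norm_num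
    rw [h3]
    exact add_le_add ht2.le hfg.le
  have hwe : tn b w ≤ ENNReal.ofReal (e / 2) := by
    refine (htn w).trans ?_
    rw [← ofReal_norm, ← ENNReal.ofReal_mul hC.le]
    apply ENNReal.ofReal_le_ofReal
    calc C * ‖w‖ ≤ C * (e / (2 * C)) := by gcongr
      _ = e / 2 := by field_simp
  rw [hkt]
  refine (tn_add hF hFD hb _ _).trans ((add_le_add ht1 hwe).trans (le_of_eq ?_))
  rw [← ENNReal.ofReal_add (by positivity) (by positivity), ← heε]
  congr 1
  ring

end Pool.Agent.QWP
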