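import Pool.Agent.QWP.StG
import Pool.Agent.QWP.Loc

/-!
# QWP, G11: the interaction vanishes, all exponents
-/

set_option autoImplicit false

open MeasureTheory Filter Topology Set
open scoped ENNReal NNReal RealInnerProductSpace

namespace Pool.Agent.QWP

open Pool.Agent.QWE (E S sg mu K toK tau sh dl rev gr ig IsTest pd lap Rad dRad Rk dRk c0 WD Sm SmE IsSch half shr WTo resc)

namespace G11x

theorem mul_pow {b : ℝ} (hb : 2 < b) (x : ℝ≥0∞) : x * x ^ (b - 1) = x ^ b := by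
  have h := ENNReal.rpow_add_of_nonneg (x := x) 1 (b - 1) zero_le_one (by linarith)
  rw [ENNReal.rpow_one] at h
  rw [← h]
  congr 1
  ring

theorem young {b : ℝ} (hb : 2 < b) (x s lam : ℝ≥0∞) (h0 : lam ≠ 0) (h1 : lam ≠ ⊤) :
    s ^ (b - 1) * x ≤ lam * s ^ b + lam⁻¹ ^ (b - 1) * x ^ b := by
  rcases le_total x (lam * s) with h | h
  · calc s ^ (b - 1) * x ≤ s ^ (b - 1) * (lam * s) := by gcongr
      _ = lam * s ^ b := by rw [← mul_pow hb s]; ring
      _ ≤ _ := le_self_add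
  · have h2 : s ≤ lam⁻¹ * x := by
      calc s = lam⁻¹ * (lam * s) := by rw [← mul_assoc, ENNReal.inv_mul_cancel h0 h1, one_mul]
        _ ≤ lam⁻¹ * x := by gcongr
    calc s ^ (b - 1) * x ≤ (lam⁻¹ * x) ^ (b - 1) * x := by
          gcongr
          linarith
      _ = lam⁻¹ ^ (b - 1) * x ^ b := by
          rw [ENNReal.mul_rpow_of_nonneg _ _ (by linarith), ← mul_pow hb x]
          ring
      _ ≤ _ := le_add_self

theorem pow_sum {b : ℝ} (hb : 2 < b) (x y z : ℝ≥0∞) :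
    (2 * (x + y + z)) ^ b ≤ 6 ^ b * (x ^ b + y ^ b + z ^ b) := by
  have hb0 : 0 ≤ b := by linarith
  have key : ∀ w : ℝ≥0∞, x ≤ w → y ≤ w → z ≤ w → w ^ b ≤ x ^ b + y ^ b + z ^ b →
      (2 * (x + y + z)) ^ b ≤ 6 ^ b * (x ^ b + y ^ b + z ^ b) := by
    intro w h1 h2 h3 h4
    calc (2 * (x + y + z)) ^ b ≤ (6 * w) ^ b := by
          refine ENNReal.rpow_le_rpow ?_ hb0
          calc 2 * (x + y + z) ≤ 2 * (w + w + w) := by gcongr
            _ = 6 * w := by ring
      _ = 6 ^ b * w ^ b := ENNReal.mul_rpow_of_nonneg _ _ hb0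
      _ ≤ _ := by gcongr
  rcases le_total x y with h | h
  · rcases le_total y z with h' | h'
    · exact key z (h.trans h') h' le_rfl le_add_self
    · exact key y h le_rfl h' (le_trans le_add_self le_self_add)
  · rcases le_total x z with h' | h'
    · exact key z h' (h.trans h') le_rfl le_add_self
    · exact key x le_rfl h h' (by rw [add_assoc]; exact le_self_add)

theorem pow_one_add {b : ℝ} (hb : 2 < b) (x : ℝ≥0∞) : (1 + x) ^ b ≤ 2 ^ b * (1 + x ^ b) := by
  have hb0 : 0 ≤ b := by linarith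
  rcases le_total x 1 with h | h
  · calc (1 + x) ^ b ≤ (2 : ℝ≥0∞) ^ b := by
          refine ENNReal.rpow_le_rpow ?_ hb0
          calc 1 + x ≤ 1 + 1 := by gcongr
            _ = 2 := one_add_one_eq_two
      _ = 2 ^ b * 1 := (mul_one _).symm
      _ ≤ _ := by gcongr; exact le_self_add
  · calc (1 + x) ^ b ≤ (2 * x) ^ b := by
          refine ENNReal.rpow_le_rpow ?_ hb0
          calc 1 + x ≤ x + x := by gcongr
            _ = 2 * x := (two_mul x).symm
      _ = 2 ^ b * x ^ b := ENNReal.mul_rpow_of_nonneg _ _ hb0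
      _ ≤ _ := by gcongr; exact le_add_self

/-- Hoelder with the exponents `b / (b - 1)` and `b`. -/
theorem hol {b : ℝ} (hb : 2 < b) {μ : Measure ℝ} {x S : ℝ → ℝ≥0∞} (hx : AEMeasurable x μ)
    (hS : AEMeasurable S μ) : ∫⁻ t, S t ^ (b - 1) * x t ∂μ ≤
      (∫⁻ t, S t ^ b ∂μ) ^ ((b - 1) / b) * (∫⁻ t, x t ^ b ∂μ) ^ (1 / b) := by
  have hb1 : 0 < b := by linarith
  have hbne : b - 1 ≠ 0 := by linarith
  have hpq : (b / (b - 1)).HolderConjugate b := by
    rw [Real.holderConjugate_iff]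
    constructor
    · rw [lt_div_iff₀ (by linarith)]
      linarith
    · field_simp
      ring
  have h := ENNReal.lintegral_mul_le_Lp_mul_Lq μ hpq (hS.pow_const (b - 1)) hx
  have e1 : ∀ z : ℝ≥0∞, (z ^ (b - 1)) ^ (b / (b - 1)) = z ^ b := by
    intro z
    rw [← ENNReal.rpow_mul]
    congr 1
    field_simp
  have e3 : (1 / (b / (b - 1)) : ℝ) = (b - 1) / b := by
    field_simp
  simp only [e1, e3, Pi.mul_apply] at h
  exact h

theorem toK_zero : toK (fun _ => 0) = 0 := by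
  have h : MemLp (fun _ : S × ℝ => (0 : ℝ)) 2 mu := MemLp.zero
  have h1 := Pool.Agent.QWE.toK_coe h
  refine (Lp.eq_zero_iff_ae_eq_zero).2 ?_
  exact h1

theorem lap_zero : lap (fun _ => 0) = fun _ => 0 := by
  funext x
  have h : ∀ i, pd i (fun _ : E => (0 : ℝ)) = fun _ => 0 := by
    intro i
    funext y
    simp [pd]
  simp [lap, h]

theorem ft_zero (ξ : E) : ft (fun _ => 0) ξ = 0 := by
  simp [ft]

theorem theta_zero (s : ℝ) : Theta s (fun _ => 0) (fun _ => 0) = 0 := by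
  have h1 : Rs (-s) (fun _ => 0) = 0 := by
    have : RsF (-s) (fun _ => 0) = fun _ => 0 := by
      funext z
      simp [RsF, ft_zero]
    rw [Rs, this, toK_zero]
  have h2 : dRs (-s) (fun _ => 0) = 0 := by
    have : dRsF (-s) (fun _ => 0) = fun _ => 0 := by
      funext z
      simp [dRsF, ft_zero]
    rw [dRs, this, toK_zero]
  simp [Theta, lap_zero, h1, h2]

theorem tendsto_rpow_zero {f : ℕ → ℝ≥0∞} {y : ℝ} (hy : 0 < y) (h : Tendsto f atTop (𝓝 0)) :
    Tendsto (fun n => f n ^ y) atTop (𝓝 0) := by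
  have h1 := ((ENNReal.continuous_rpow_const (y := y)).tendsto 0).comp h
  rw [ENNReal.zero_rpow_of_pos hy] at h1
  exact h1

/-- the estimate of the brackets with the approximation, integrated, abstract form -/
theorem part1 {b : ℝ} (hb : 2 < b) {μ : Measure ℝ} {x y z : ℝ → ℝ≥0∞} {C B lam Qx Qy : ℝ≥0∞}
    (hx : AEMeasurable x μ) (hy : AEMeasurable y μ) (hz : AEMeasurable z μ)
    (h1 : ∫⁻ t, x t ^ b ∂μ ≤ Qx) (h2 : ∫⁻ t, y t ^ b ∂μ ≤ Qy) (h3 : ∫⁻ t, z t ^ b ∂μ ≤ lam ^ b)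
    (hl0 : lam ≠ 0) (hl1 : lam ≤ 1) :
    ∫⁻ t, C * ((2 * (x t + y t + z t)) ^ (b - 1) * z t * B +
        (2 * (x t + y t + z t)) ^ b * lam ^ b) ∂μ ≤
      C * (B * (6 ^ b * (Qx + Qy + 1) + 1) + 6 ^ b * (Qx + Qy + 1)) * lam := by
  have hlT : lam ≠ ⊤ := (hl1.trans_lt ENNReal.one_lt_top).ne
  have hb0 : 0 < b := by linarith
  have hS : AEMeasurable (fun t => 2 * (x t + y t + z t)) μ := ((hx.add hy).add hz).const_mul 2
  have hS1 : AEMeasurable (fun t => (2 * (x t + y t + z t)) ^ (b - 1) * z t) μ :=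
    (hS.pow_const _).mul hz
  have hSb : AEMeasurable (fun t => (2 * (x t + y t + z t)) ^ b) μ := hS.pow_const _
  have hxy : AEMeasurable (fun t => x t ^ b + y t ^ b) μ := (hx.pow_const b).add (hy.pow_const b)
  have hSB : AEMeasurable (fun t => (2 * (x t + y t + z t)) ^ (b - 1) * z t * B) μ :=
    hS1.mul_const B
  have hSL : AEMeasurable (fun t => (2 * (x t + y t + z t)) ^ b * lam ^ b) μ :=
    hSb.mul_const _
  have hSS : AEMeasurable (fun t => (2 * (x t + y t + z t)) ^ (b - 1) * z t * B +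
      (2 * (x t + y t + z t)) ^ b * lam ^ b) μ := hSB.add hSL
  have hlamb : lam ^ b ≤ lam := by
    rw [← mul_pow hb lam]
    calc lam * lam ^ (b - 1) ≤ lam * 1 := by
          gcongr
          exact ENNReal.rpow_le_one hl1 (by linarith)
      _ = lam := mul_one _
  have hQ : ∫⁻ t, (2 * (x t + y t + z t)) ^ b ∂μ ≤ 6 ^ b * (Qx + Qy + 1) := by
    calc ∫⁻ t, (2 * (x t + y t + z t)) ^ b ∂μ ≤ ∫⁻ t, 6 ^ b * (x t ^ b + y t ^ b + z t ^ b) ∂μ :=
          lintegral_mono fun t => pow_sum hb _ _ _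
      _ = 6 ^ b * (∫⁻ t, x t ^ b ∂μ + ∫⁻ t, y t ^ b ∂μ + ∫⁻ t, z t ^ b ∂μ) := by
          rw [lintegral_const_mul' _ _ (ENNReal.rpow_ne_top_of_nonneg hb0.le (by norm_num)),
            lintegral_add_left' hxy,
            lintegral_add_left' (hx.pow_const b)]
      _ ≤ 6 ^ b * (Qx + Qy + 1) := by
          gcongr
          exact h3.trans (hlamb.trans hl1)
  have hY : ∫⁻ t, (2 * (x t + y t + z t)) ^ (b - 1) * z t ∂μ ≤
      lam * (6 ^ b * (Qx + Qy + 1)) + lam := by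
    calc ∫⁻ t, (2 * (x t + y t + z t)) ^ (b - 1) * z t ∂μ ≤
        ∫⁻ t, (lam * (2 * (x t + y t + z t)) ^ b + lam⁻¹ ^ (b - 1) * z t ^ b) ∂μ :=
          lintegral_mono fun t => young hb _ _ lam hl0 hlT
      _ = lam * ∫⁻ t, (2 * (x t + y t + z t)) ^ b ∂μ + lam⁻¹ ^ (b - 1) * ∫⁻ t, z t ^ b ∂μ := by
          rw [lintegral_add_left' (hSb.const_mul _), lintegral_const_mul'' _ hSb,
            lintegral_const_mul'' _ (hz.pow_const b)]
      _ ≤ lam * (6 ^ b * (Qx + Qy + 1)) + lam⁻¹ ^ (b - 1) * lam ^ b := by gcongr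
      _ = lam * (6 ^ b * (Qx + Qy + 1)) + lam := by
          congr 1
          rw [← mul_pow hb lam]
          calc lam⁻¹ ^ (b - 1) * (lam * lam ^ (b - 1)) = lam * (lam⁻¹ ^ (b - 1) * lam ^ (b - 1)) := by
                ring
            _ = lam * (lam⁻¹ * lam) ^ (b - 1) := by
                rw [ENNReal.mul_rpow_of_nonneg _ _ (by linarith)]
            _ = lam := by rw [ENNReal.inv_mul_cancel hl0 hlT, ENNReal.one_rpow, mul_one]
  calc ∫⁻ t, C * ((2 * (x t + y t + z t)) ^ (b - 1) * z t * B +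
        (2 * (x t + y t + z t)) ^ b * lam ^ b) ∂μ =
      C * ((∫⁻ t, (2 * (x t + y t + z t)) ^ (b - 1) * z t ∂μ) * B +
        (∫⁻ t, (2 * (x t + y t + z t)) ^ b ∂μ) * lam ^ b) := by
        rw [lintegral_const_mul'' _ hSS, lintegral_add_left' hSB, lintegral_mul_const'' _ hS1,
          lintegral_mul_const'' _ hSb]
    _ ≤ C * ((lam * (6 ^ b * (Qx + Qy + 1)) + lam) * B + (6 ^ b * (Qx + Qy + 1)) * lam) := by
        gcongr
    _ = _ := by ring

/-- the three brackets, pointwise -/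
theorem brackets (hSn : St_SnP) {b C : ℝ} (hb : 2 < b)
    (hC : ∀ k k' : K, sn b k < ⊤ → sn b k' < ⊤ → ‖NL b k - NL b k'‖ₑ ≤ ENNReal.ofReal C *
      ((sn b k + sn b k') ^ (b - 1) * sn b (k - k') * (‖k‖ₑ + ‖k'‖ₑ) +
        (sn b k + sn b k') ^ b * tn b (k - k')))
    {a β Θ : K} {A1 A2 A3 L H : ℝ≥0∞} (h1 : sn b a < ⊤) (h2 : sn b β < ⊤) (h3 : sn b (a - Θ) < ⊤)
    (ha : ‖a‖ₑ ≤ A1) (hβ : ‖β‖ₑ ≤ A2) (hΘ : ‖Θ‖ₑ ≤ A3) (ht : tn b (a - Θ) ≤ L)
    (hm : ‖NL b (Θ + β) - NL b Θ - NL b β‖ₑ ≤ H) :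
    ‖NL b (a + β) - NL b a - NL b β‖ₑ ≤ 2 * ENNReal.ofReal C *
      ((2 * (sn b a + sn b β + sn b (a - Θ))) ^ (b - 1) * sn b (a - Θ) * (A1 + A2 + (A3 + A2)) +
        (2 * (sn b a + sn b β + sn b (a - Θ))) ^ b * L) + H := by
  obtain ⟨hadd, hsm, -⟩ := hSn b hb
  have hb0 : 0 ≤ b := by linarith
  have hb1 : 0 ≤ b - 1 := by linarith
  have hsΘ : sn b Θ ≤ sn b a + sn b (a - Θ) := by
    have e1 : Θ = a + (-1 : ℝ) • (a - Θ) := by
      rw [neg_one_smul]
      abel
    calc sn b Θ = sn b (a + (-1 : ℝ) • (a - Θ)) := by rw [← e1]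
      _ ≤ sn b a + sn b ((-1 : ℝ) • (a - Θ)) := hadd _ _
      _ = sn b a + sn b (a - Θ) := by
          rw [hsm]
          simp
  have hΘf : sn b Θ < ⊤ := hsΘ.trans_lt (ENNReal.add_lt_top.2 ⟨h1, h3⟩)
  have f1 : sn b (a + β) < ⊤ := (hadd a β).trans_lt (ENNReal.add_lt_top.2 ⟨h1, h2⟩)
  have f2 : sn b (Θ + β) < ⊤ := (hadd Θ β).trans_lt (ENNReal.add_lt_top.2 ⟨hΘf, h2⟩)
  have g1 : sn b (a + β) + sn b (Θ + β) ≤ 2 * (sn b a + sn b β + sn b (a - Θ)) := by
    calc sn b (a + β) + sn b (Θ + β) ≤ (sn b a + sn b β) + (sn b a + sn b (a - Θ) + sn b β) :=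
          add_le_add (hadd a β) ((hadd Θ β).trans (add_le_add hsΘ le_rfl))
      _ ≤ (sn b a + sn b β) + (sn b a + sn b (a - Θ) + sn b β) + sn b (a - Θ) := le_self_add
      _ = _ := by ring
  have g2 : sn b a + sn b Θ ≤ 2 * (sn b a + sn b β + sn b (a - Θ)) := by
    calc sn b a + sn b Θ ≤ sn b a + (sn b a + sn b (a - Θ)) := add_le_add le_rfl hsΘ
      _ ≤ sn b a + (sn b a + sn b (a - Θ)) + (2 * sn b β + sn b (a - Θ)) := le_self_add
      _ = _ := by ring
  have n1 : ‖a + β‖ₑ + ‖Θ + β‖ₑ ≤ A1 + A2 + (A3 + A2) :=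
    add_le_add ((enorm_add_le _ _).trans (add_le_add ha hβ))
      ((enorm_add_le _ _).trans (add_le_add hΘ hβ))
  have n2 : ‖a‖ₑ + ‖Θ‖ₑ ≤ A1 + A2 + (A3 + A2) :=
    add_le_add (ha.trans le_self_add) (hΘ.trans le_self_add)
  have b1 := hC (a + β) (Θ + β) f1 f2
  rw [add_sub_add_right_eq_sub] at b1
  have b3 := hC a Θ h1 hΘf
  have c1 : ‖NL b (a + β) - NL b (Θ + β)‖ₑ ≤ ENNReal.ofReal C *
      ((2 * (sn b a + sn b β + sn b (a - Θ))) ^ (b - 1) * sn b (a - Θ) * (A1 + A2 + (A3 + A2)) +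
        (2 * (sn b a + sn b β + sn b (a - Θ))) ^ b * L) := by
    refine b1.trans ?_
    gcongr
  have c3 : ‖NL b a - NL b Θ‖ₑ ≤ ENNReal.ofReal C *
      ((2 * (sn b a + sn b β + sn b (a - Θ))) ^ (b - 1) * sn b (a - Θ) * (A1 + A2 + (A3 + A2)) +
        (2 * (sn b a + sn b β + sn b (a - Θ))) ^ b * L) := by
    refine b3.trans ?_
    gcongr
  have e : NL b (a + β) - NL b a - NL b β = (NL b (a + β) - NL b (Θ + β)) +
      (NL b (Θ + β) - NL b Θ - NL b β) - (NL b a - NL b Θ) := by abel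
  rw [e]
  refine (enorm_sub_le).trans ((add_le_add (enorm_add_le _ _) le_rfl).trans ?_)
  refine (add_le_add (add_le_add c1 hm) c3).trans (le_of_eq ?_)
  ring

end G11x

open G11x in
theorem thm_G11 (hApx : St_ApxP) (hQA : St_QstA) (hQB : St_QstB) (hNd : St_NLd) (hG9 : St_G9)
    (hLoc : St_LocC) (hGr : St_Gron) (hSn : St_SnP) (hMe : St_Meas) : St_G11 := by
  intro b hb A M J a T β hJa hβ hTJ
  have hb0 : 0 < b := by linarith
  have hb1 : 0 ≤ b - 1 := by linarith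
  have hJa' := hJa
  obtain ⟨hJ, hsol, hSJ⟩ := hJa
  have hβ1 := hβ.1
  have h0J : (0 : ℝ) ∈ J := by
    rcases hJ with rfl | ⟨Ts, hTs, rfl⟩
    · exact mem_Ici.2 le_rfl
    · exact ⟨le_rfl, hTs⟩
  have hJm : MeasurableSet J := by
    rcases hJ with rfl | ⟨Ts, hTs, rfl⟩
    · exact measurableSet_Ici
    · exact measurableSet_Icc
  have hsub : ∀ n, Icc 0 (T n) ⊆ J := fun n => hsol.1.out h0J (hTJ n)
  obtain ⟨Cg, -, hg⟩ := hGr b hb
  obtain ⟨A', hA'⟩ : ∃ A', A' = ‖a 0‖ * Real.exp (Cg * (SN b J a).toReal) := ⟨_, rfl⟩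
  have hA'b : ∀ t ∈ J, ‖a t‖ ≤ A' := fun t ht => hA' ▸ hg J a hsol hSJ 0 h0J t ht
  have hA'0 : 0 ≤ A' := by rw [hA']; positivity
  have hA0 : 0 ≤ A := (norm_nonneg _).trans ((hβ1 0).2.2.1 0 ⟨le_rfl, (hβ1 0).1⟩)
  obtain ⟨C, hC, -, hC2, hC3, -⟩ := hNd b hb
  -- enorm bounds
  have hen : ∀ {x : K} {B : ℝ}, ‖x‖ ≤ B → ‖x‖ₑ ≤ ENNReal.ofReal B := by
    intro x B hx
    rw [← ofReal_norm]
    exact ENNReal.ofReal_le_ofReal hx
  have hNL0 : NL b 0 = 0 := by
    have h := hC2 0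
    rw [enorm_zero, mul_zero] at h
    exact enorm_eq_zero.1 (le_antisymm h bot_le)
  obtain ⟨S, hS⟩ : ∃ S, S = SN b J a := ⟨_, rfl⟩
  obtain ⟨B, hB⟩ : ∃ B : ℝ≥0∞, B = ENNReal.ofReal A' + ENNReal.ofReal A +
    (ENNReal.ofReal (A' + 1) + ENNReal.ofReal A) := ⟨_, rfl⟩
  have hBT : B ≠ ⊤ := by
    rw [hB]
    simp
  obtain ⟨Kc, hKc⟩ : ∃ Kc : ℝ≥0∞, Kc = 2 * ENNReal.ofReal C *
      (B * (6 ^ b * (S + ENNReal.ofReal M + 1) + 1) + 6 ^ b * (S + ENNReal.ofReal M + 1)) :=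
    ⟨_, rfl⟩
  have hKcT : Kc ≠ ⊤ := by
    have h1 : (6 : ℝ≥0∞) ^ b * (S + ENNReal.ofReal M + 1) ≠ ⊤ := by
      refine ENNReal.mul_ne_top (ENNReal.rpow_ne_top_of_nonneg hb0.le (by norm_num)) ?_
      rw [hS]
      exact ENNReal.add_ne_top.2 ⟨ENNReal.add_ne_top.2 ⟨hSJ.ne, ENNReal.ofReal_ne_top⟩,
        ENNReal.one_ne_top⟩
    rw [hKc]
    refine ENNReal.mul_ne_top (ENNReal.mul_ne_top (by norm_num) ENNReal.ofReal_ne_top)
      (ENNReal.add_ne_top.2 ⟨ENNReal.mul_ne_top hBT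
        (ENNReal.add_ne_top.2 ⟨h1, ENNReal.one_ne_top⟩), h1⟩)
  have key : ∀ lam : ℝ, 0 < lam → lam ≤ 1 → ∃ r : ℕ → ℝ≥0∞, Tendsto r atTop (𝓝 0) ∧ ∀ n,
      ∫⁻ t in Icc 0 (T n), ‖NL b (a t + β n t) - NL b (a t) - NL b (β n t)‖ₑ ≤
        Kc * ENNReal.ofReal lam + r n := by
    intro lam hlam0 hlam1
    obtain ⟨m, N, j, f, g, hm, hj, hjN, hjm, hfg, hfg0, hap1, hap2, hap3⟩ :=
      hApx b hb J a hJa' (lam ^ b) (Real.rpow_pos_of_pos hlam0 b)
    obtain ⟨L, hLdef⟩ : ∃ L, L = ENNReal.ofReal lam := ⟨_, rfl⟩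
    have hL0 : L ≠ 0 := by
      rw [hLdef, Ne, ENNReal.ofReal_eq_zero, not_le]
      exact hlam0
    have hL1 : L ≤ 1 := by
      rw [hLdef]
      exact ENNReal.ofReal_le_one.2 hlam1
    have hε : ENNReal.ofReal (lam ^ b) = L ^ b := by
      rw [hLdef, ENNReal.ofReal_rpow_of_pos hlam0]
    have hε1 : lam ^ b ≤ 1 := Real.rpow_le_one hlam0.le hlam1 hb0.le
    rw [hε] at hap3
    have hap2' : ∀ t ∈ J, tn b (a t - Theta (sig b) (f (j t)) (g (j t))) ≤ L ^ b := by
      intro t ht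
      rw [← hε]
      exact hap2 t ht
    obtain ⟨Θ, hΘ⟩ : ∃ Θ : ℕ → K, Θ = fun i => Theta (sig b) (f i) (g i) := ⟨_, rfl⟩
    have hΘ0 : Θ 0 = 0 := by
      have e1 : f 0 = fun _ => 0 := funext fun x => (hfg0 x).1
      have e2 : g 0 = fun _ => 0 := funext fun x => (hfg0 x).2
      rw [hΘ]
      simp only [e1, e2]
      exact theta_zero _
    have hQ : ∀ i, ∃ C θ m N : ℝ, 0 < C ∧ 0 < θ ∧ 0 ≤ m ∧ 0 ≤ N ∧ ∀ k' : K, sn b k' < ⊤ →
        ‖NL b (Θ i + k') - NL b (Θ i) - NL b k'‖ₑ ≤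
          ENNReal.ofReal C * loc b m k' ^ θ * (1 + sn b k') ^ (b - 1) * (1 + ‖k'‖ₑ) ^ N := by
      intro i
      rw [hΘ]
      rcases le_or_gt b 4 with h4 | h4
      · exact hQA b hb h4 (f i) (g i) (hfg i).1 (hfg i).2
      · exact hQB b h4 (f i) (g i) (hfg i).1 (hfg i).2
    choose Cc θc mc Nc hCc hθc hmc hNc hQ using hQ
    obtain ⟨D, hD⟩ : ∃ D : ℕ → ℝ≥0∞, D = fun i => ENNReal.ofReal (Cc i) *
      (1 + ENNReal.ofReal A) ^ (Nc i) := ⟨_, rfl⟩
    have hDT : ∀ i, D i ≠ ⊤ := by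
      intro i
      rw [hD]
      exact ENNReal.mul_ne_top ENNReal.ofReal_ne_top (ENNReal.rpow_ne_top_of_nonneg (hNc i)
        (ENNReal.add_ne_top.2 ⟨ENNReal.one_ne_top, ENNReal.ofReal_ne_top⟩))
    obtain ⟨F, hF⟩ : ∃ F : ℝ≥0∞, F = (2 ^ b * (ENNReal.ofReal m + ENNReal.ofReal M)) ^ ((b - 1) / b) :=
      ⟨_, rfl⟩
    have hFT : F ≠ ⊤ := by
      rw [hF]
      exact ENNReal.rpow_ne_top_of_nonneg (div_nonneg hb1 hb0.le) (ENNReal.mul_ne_top
        (ENNReal.rpow_ne_top_of_nonneg hb0.le (by norm_num)) (ENNReal.add_ne_top.2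
          ⟨ENNReal.ofReal_ne_top, ENNReal.ofReal_ne_top⟩))
    refine ⟨fun n => ∑ i ∈ Finset.range (N + 1), D i * (F * (∫⁻ t in Icc 0 (min m (T n)),
      loc b (mc i) (β n t) ^ (b * θc i)) ^ (1 / b)), ?_, ?_⟩
    · have t5 : Tendsto (fun n => ∑ i ∈ Finset.range (N + 1), D i * (F *
          (∫⁻ t in Icc 0 (min m (T n)), loc b (mc i) (β n t) ^ (b * θc i)) ^ (1 / b))) atTop
          (𝓝 (∑ _i ∈ Finset.range (N + 1), 0)) := by
        refine tendsto_finsetSum _ fun i _ => ?_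
        have t1 := hG9 b hb A M (mc i) m (b * θc i) T β hβ (mul_pos hb0 (hθc i))
        have t2 := tendsto_rpow_zero (y := 1 / b) (by positivity) t1
        have t3 := ENNReal.Tendsto.const_mul (a := F) t2 (Or.inr hFT)
        rw [mul_zero] at t3
        have t4 := ENNReal.Tendsto.const_mul (a := D i) t3 (Or.inr (hDT i))
        rw [mul_zero] at t4
        exact t4
      rwa [Finset.sum_const_zero] at t5
    · intro n
      obtain ⟨hTn, hβs, hβA, hβM⟩ := hβ1 n
      have hac : ContinuousOn a (Icc 0 (T n)) := hsol.2.1.mono (hsub n)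
      have hbc : ContinuousOn (β n) (Icc 0 (T n)) := hβs.2.1
      have hI : MeasurableSet (Icc 0 (T n)) := measurableSet_Icc
      have am : AEStronglyMeasurable a (volume.restrict (Icc 0 (T n))) :=
        hac.aestronglyMeasurable hI
      have bm : AEStronglyMeasurable (β n) (volume.restrict (Icc 0 (T n))) :=
        hbc.aestronglyMeasurable hI
      have Θm : AEStronglyMeasurable (fun t => Θ (j t)) (volume.restrict (Icc 0 (T n))) := by
        have h1 : StronglyMeasurable Θ := StronglyMeasurable.of_discrete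
        exact (h1.comp_measurable hj).aestronglyMeasurable
      have rm : AEStronglyMeasurable (fun t => a t - Θ (j t)) (volume.restrict (Icc 0 (T n))) :=
        am.sub Θm
      have hSa : SN b (Icc 0 (T n)) a ≤ S := hS ▸ lintegral_mono_set (hsub n)
      have hSr : SN b (Icc 0 (T n)) (fun t => a t - Θ (j t)) ≤ L ^ b := by
        refine le_trans (lintegral_mono_set (hsub n)) ?_
        rw [hΘ]
        exact hap3
      have hLbT : L ^ b < ⊤ := ENNReal.rpow_lt_top_of_nonneg hb0.le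
        (hL1.trans_lt ENNReal.one_lt_top).ne
      have fa := Locx.sn_fin hb hMe hI am (hSa.trans_lt (hS ▸ hSJ))
      have fb := Locx.sn_fin hb hMe hI bm (hβM.trans_lt ENNReal.ofReal_lt_top)
      have fr := Locx.sn_fin hb hMe hI rm (hSr.trans_lt hLbT)
      have sa := Locx.sn_meas hb hMe hI am
      have sb := Locx.sn_meas hb hMe hI bm
      have sr := Locx.sn_meas hb hMe hI rm
      -- the middle bracket
      obtain ⟨H, hH⟩ : ∃ H : ℝ → ℝ≥0∞, H = fun t => ∑ i ∈ Finset.range (N + 1),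
        D i * ((1 + sn b (β n t)) ^ (b - 1) * loc b (mc i) (β n t) ^ θc i) := ⟨_, rfl⟩
      have hW : ∀ᵐ t ∂(volume.restrict (Icc 0 (T n))),
          ‖NL b (a t + β n t) - NL b (a t) - NL b (β n t)‖ₑ ≤ 2 * ENNReal.ofReal C *
            ((2 * (sn b (a t) + sn b (β n t) + sn b (a t - Θ (j t)))) ^ (b - 1) *
              sn b (a t - Θ (j t)) * B +
            (2 * (sn b (a t) + sn b (β n t) + sn b (a t - Θ (j t)))) ^ b * L ^ b) +
            (Iic m).indicator H t := by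
        filter_upwards [fa, fb, fr, ae_restrict_mem hI] with t h1 h2 h3 ht
        have htJ := hsub n ht
        have hn1 := hen (hA'b t htJ)
        have hn2 := hen (hβA t ht)
        have hn3 : ‖Θ (j t)‖ₑ ≤ ENNReal.ofReal (A' + 1) := by
          refine hen ?_
          rw [hΘ]
          have h5 := hap1 t htJ
          have h6 := hA'b t htJ
          linarith
        have hn4 : tn b (a t - Θ (j t)) ≤ L ^ b := by
          rw [hΘ]
          exact hap2' t htJ
        rw [hB]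
        refine brackets hSn hb hC3 h1 h2 h3 hn1 hn2 hn3 hn4 ?_
        rcases le_or_gt t m with htm | htm
        · rw [indicator_of_mem (mem_Iic.2 htm), hH]
          have h5 := hQ (j t) (β n t) h2
          refine h5.trans (le_trans ?_ (Finset.single_le_sum (fun _ _ => bot_le)
            (Finset.mem_range.2 (Nat.lt_succ_of_le (hjN t)))))
          rw [hD]
          calc ENNReal.ofReal (Cc (j t)) * loc b (mc (j t)) (β n t) ^ θc (j t) *
                (1 + sn b (β n t)) ^ (b - 1) * (1 + ‖β n t‖ₑ) ^ Nc (j t) ≤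
              ENNReal.ofReal (Cc (j t)) * loc b (mc (j t)) (β n t) ^ θc (j t) *
                (1 + sn b (β n t)) ^ (b - 1) * (1 + ENNReal.ofReal A) ^ Nc (j t) := by
                gcongr
                exact hNc _
            _ = _ := by ring
        · rw [indicator_of_notMem (by rw [mem_Iic, not_le]; exact htm), hjm t htm, hΘ0, zero_add,
            hNL0, sub_zero, sub_self, enorm_zero]
      have hp1 := part1 (μ := volume.restrict (Icc 0 (T n))) (C := 2 * ENNReal.ofReal C) (B := B)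
        (lam := L) (Qx := S) (Qy := ENNReal.ofReal M) hb sa sb sr hSa hβM hSr hL0 hL1
      -- second part
      have hmin : Iic m ∩ Icc 0 (T n) = Icc 0 (min m (T n)) := by
        ext t
        simp only [mem_inter_iff, mem_Iic, mem_Icc, le_min_iff]
        tauto
      have hI1 : Icc 0 (min m (T n)) ⊆ Icc 0 (T n) := Icc_subset_Icc_right (min_le_right _ _)
      have hI2 : MeasurableSet (Icc 0 (min m (T n))) := measurableSet_Icc
      have hbc1 : ContinuousOn (β n) (Icc 0 (min m (T n))) := hbc.mono hI1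
      have sb1 : AEMeasurable (fun t => sn b (β n t)) (volume.restrict (Icc 0 (min m (T n)))) :=
        Locx.sn_meas hb hMe hI2 (hbc1.aestronglyMeasurable hI2)
      have sb2 : AEMeasurable (fun t => 1 + sn b (β n t))
          (volume.restrict (Icc 0 (min m (T n)))) := sb1.const_add 1
      have lm : ∀ i, AEMeasurable (fun t => loc b (mc i) (β n t) ^ θc i)
          (volume.restrict (Icc 0 (min m (T n)))) := fun i =>
        (((hLoc b (mc i) hb).2.1.comp_continuousOn hbc1).aemeasurable hI2).pow_const _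
      have pm : ∀ i, AEMeasurable (fun t => (1 + sn b (β n t)) ^ (b - 1) *
          loc b (mc i) (β n t) ^ θc i) (volume.restrict (Icc 0 (min m (T n)))) := fun i =>
        (sb2.pow_const _).mul (lm i)
      have hvol : (volume.restrict (Icc 0 (min m (T n)))) univ ≤ ENNReal.ofReal m := by
        rw [Measure.restrict_apply_univ, Real.volume_Icc]
        refine ENNReal.ofReal_le_ofReal ?_
        rw [sub_zero]
        exact min_le_left _ _
      have hone : ∫⁻ t in Icc 0 (min m (T n)), (1 + sn b (β n t)) ^ b ≤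
          2 ^ b * (ENNReal.ofReal m + ENNReal.ofReal M) := by
        calc ∫⁻ t in Icc 0 (min m (T n)), (1 + sn b (β n t)) ^ b ≤
            ∫⁻ t in Icc 0 (min m (T n)), 2 ^ b * (1 + sn b (β n t) ^ b) :=
              lintegral_mono fun t => pow_one_add hb _
          _ = 2 ^ b * ((volume.restrict (Icc 0 (min m (T n)))) univ +
              ∫⁻ t in Icc 0 (min m (T n)), sn b (β n t) ^ b) := by
              rw [lintegral_const_mul' _ _ (ENNReal.rpow_ne_top_of_nonneg hb0.le (by norm_num)),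
                lintegral_add_left' aemeasurable_const, lintegral_one]
          _ ≤ _ := by
              gcongr
              exact (lintegral_mono_set hI1).trans hβM
      have hp2 : ∫⁻ t in Icc 0 (T n), (Iic m).indicator H t ≤
          ∑ i ∈ Finset.range (N + 1), D i * (F * (∫⁻ t in Icc 0 (min m (T n)),
            loc b (mc i) (β n t) ^ (b * θc i)) ^ (1 / b)) := by
        rw [lintegral_indicator measurableSet_Iic, Measure.restrict_restrict measurableSet_Iic,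
          hmin, hH, lintegral_finsetSum' _ fun i _ => (pm i).const_mul _]
        refine Finset.sum_le_sum fun i _ => ?_
        rw [lintegral_const_mul'' _ (pm i)]
        gcongr
        refine (hol hb (lm i) sb2).trans ?_
        have e1 : ∀ t, (loc b (mc i) (β n t) ^ θc i) ^ b = loc b (mc i) (β n t) ^ (b * θc i) := by
          intro t
          rw [← ENNReal.rpow_mul, mul_comm]
        simp only [e1]
        rw [hF]
        gcongr
      refine (lintegral_mono_ae hW).trans ?_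
      rw [hLdef] at hp1
      have e0 : ∫⁻ t in Icc 0 (T n), (2 * ENNReal.ofReal C *
            ((2 * (sn b (a t) + sn b (β n t) + sn b (a t - Θ (j t)))) ^ (b - 1) *
              sn b (a t - Θ (j t)) * B +
            (2 * (sn b (a t) + sn b (β n t) + sn b (a t - Θ (j t)))) ^ b * L ^ b) +
            (Iic m).indicator H t) = (∫⁻ t in Icc 0 (T n), 2 * ENNReal.ofReal C *
            ((2 * (sn b (a t) + sn b (β n t) + sn b (a t - Θ (j t)))) ^ (b - 1) *
              sn b (a t - Θ (j t)) * B +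
            (2 * (sn b (a t) + sn b (β n t) + sn b (a t - Θ (j t)))) ^ b * L ^ b)) +
            ∫⁻ t in Icc 0 (T n), (Iic m).indicator H t := by
        refine lintegral_add_left' ?_ _
        have s1 : AEMeasurable (fun t => 2 * (sn b (a t) + sn b (β n t) + sn b (a t - Θ (j t))))
            (volume.restrict (Icc 0 (T n))) := ((sa.add sb).add sr).const_mul 2
        have s2 : AEMeasurable (fun t => (2 * (sn b (a t) + sn b (β n t) +
            sn b (a t - Θ (j t)))) ^ (b - 1) * sn b (a t - Θ (j t)) * B)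
            (volume.restrict (Icc 0 (T n))) := ((s1.pow_const _).mul sr).mul_const B
        have s3 : AEMeasurable (fun t => (2 * (sn b (a t) + sn b (β n t) +
            sn b (a t - Θ (j t)))) ^ b * L ^ b)
            (volume.restrict (Icc 0 (T n))) := (s1.pow_const _).mul_const _
        exact (s2.add s3).const_mul _
      rw [e0, hKc]
      rw [hLdef]
      exact add_le_add hp1 hp2
  -- conclusion
  rw [ENNReal.tendsto_nhds_zero]
  intro η hη
  obtain ⟨lam, hlam0, hlam1, hlam⟩ : ∃ lam : ℝ, 0 < lam ∧ lam ≤ 1 ∧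
      Kc * ENNReal.ofReal lam ≤ η / 2 := by
    have h1 : Tendsto (fun x : ℝ => Kc * ENNReal.ofReal x) (𝓝[>] 0) (𝓝 0) := by
      have h2 : Tendsto (fun x : ℝ => ENNReal.ofReal x) (𝓝[>] 0) (𝓝 0) := by
        have h3 := (ENNReal.continuous_ofReal.tendsto 0).mono_left
          (nhdsWithin_le_nhds (s := Ioi (0 : ℝ)))
        rwa [ENNReal.ofReal_zero] at h3
      have h4 := ENNReal.Tendsto.const_mul (a := Kc) h2 (Or.inr hKcT)
      rwa [mul_zero] at h4
    have h5 : ∀ᶠ x : ℝ in 𝓝[>] 0, Kc * ENNReal.ofReal x ≤ η / 2 :=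
      (ENNReal.tendsto_nhds_zero.1 h1) (η / 2) (ENNReal.half_pos hη.ne')
    have h6 : ∀ᶠ x : ℝ in 𝓝[>] 0, x ∈ Ioc (0 : ℝ) 1 := Ioc_mem_nhdsGT one_pos
    obtain ⟨x, hx1, hx2⟩ := (h5.and h6).exists
    exact ⟨x, hx2.1, hx2.2, hx1⟩
  obtain ⟨r, hr, hr1⟩ := key lam hlam0 hlam1
  filter_upwards [(ENNReal.tendsto_nhds_zero.1 hr) (η / 2) (ENNReal.half_pos hη.ne')] with n hn
  calc _ ≤ Kc * ENNReal.ofReal lam + r n := hr1 n
    _ ≤ η / 2 + η / 2 := add_le_add hlam hn
    _ = η := ENNReal.add_halves η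

end Pool.Agent.QWP
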