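import Pool.Agent.QWP.StG
import Pool.Agent.QWP.G14

set_option autoImplicit false

/-!
# QWP, G13: the critical element
-/

open MeasureTheory Filter Topology Set
open scoped ENNReal NNReal RealInnerProductSpace

namespace Pool.Agent.QWP

open Pool.Agent.QWE (E S sg mu K toK tau sh dl rev gr ig IsTest pd lap Rad dRad Rk dRk c0 WD Sm SmE IsSch half shr WTo resc)

namespace G13x

lemma LA_mono {p : ℝ} {A B : ℝ} (h : A ≤ B) : LA p A ≤ LA p B := by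
  unfold LA
  refine iSup_mono fun I => iSup_mono fun k => ?_
  exact iSup_mono' fun hk => ⟨⟨hk.1, fun t ht => (hk.2 t ht).trans h⟩, le_rfl⟩

lemma LA_neg {p : ℝ} {A : ℝ} (h : A < 0) : LA p A = 0 := by
  unfold LA
  rw [ENNReal.iSup_eq_zero]
  intro I
  rw [ENNReal.iSup_eq_zero]
  intro k
  rw [ENNReal.iSup_eq_zero]
  intro hk
  have : I = ∅ := by
    by_contra hne
    obtain ⟨t, ht⟩ := nonempty_iff_ne_empty.2 hne
    have := hk.2 t ht
    have h2 := norm_nonneg (k t)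
    linarith
  rw [this]; simp [SN]

/-- Compact intervals with large Strichartz norm and a bubble at the beginning. -/
lemma piece {p : ℝ} (hp : 2 < p) (hG2 : St_G2) (hN : St_SNc) {ψ : E → ℝ} (hψ : IsPsi ψ) (A : ℝ) : ∃ c : ℝ, 0 < c ∧
    ∀ (n : ℕ) (A' : ℝ), A' ≤ A → LA p A' = ⊤ → ∃ (k : ℝ → K) (r ω : ℝ) (y : E) (b : ℝ),
      r ≤ ω ∧ IsSol p (Icc r ω) k ∧ (∀ s ∈ Icc r ω, ‖k s‖ ≤ A') ∧ (n : ℝ≥0∞) ≤ SN p (Icc r ω) k ∧
      c ≤ |inner ℝ (ig y b (k r)) (Rs (sig p) ψ)| := by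
  obtain ⟨c, hc, hcc⟩ := hG2 p hp ψ hψ A
  refine ⟨c, hc, fun n A' hA' hLA => ?_⟩
  have h1 : ((n + 1 : ℕ) : ℝ≥0∞) < LA p A' := by rw [hLA]; exact ENNReal.natCast_lt_top _
  unfold LA at h1
  obtain ⟨I, h1⟩ := lt_iSup_iff.1 h1
  obtain ⟨k, h1⟩ := lt_iSup_iff.1 h1
  obtain ⟨⟨hk, hkb⟩, h1⟩ := lt_iSup_iff.1 h1
  obtain ⟨α, hα, ω, hω, hαω, h2⟩ := (hN p hp).2.1 I k _ hk h1
  have hsub : Icc α ω ⊆ I := fun z hz => hk.1.out hα hω hz
  have hcont := ((hN p hp).2.2.2.1 I k α hk hα).1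
  have hcont' : ContinuousOn (fun s => (SN p (Icc α s) k).toReal) (Icc α ω) :=
    hcont.mono fun z hz => ⟨hsub hz, hz.1⟩
  have hfin : SN p (Icc α ω) k ≠ ⊤ := (hk.2.2.1 α hα ω hω).ne
  have h3 : (1 : ℝ) ≤ (SN p (Icc α ω) k).toReal := by
    have h4 : (1 : ℝ≥0∞) ≤ SN p (Icc α ω) k := by
      refine le_trans ?_ h2.le
      rw [Nat.cast_add]; simp
    have := ENNReal.toReal_mono hfin h4
    simpa using this
  have h4 : (SN p (Icc α α) k).toReal ≤ 1 := by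
    have : SN p (Icc α α) k = 0 := by simp [SN]
    rw [this]; simp
  obtain ⟨β, hβ, hβ1⟩ := intermediate_value_Icc hαω hcont' ⟨h4, h3⟩
  have hβ2 : SN p (Icc α β) k = 1 := by
    simp only at hβ1
    exact (ENNReal.toReal_eq_one_iff _).1 hβ1
  have hsol : IsSol p (Icc α β) k :=
    (hN p hp).1 I _ k hk ((Icc_subset_Icc_right hβ.2).trans hsub) ordConnected_Icc
  obtain ⟨r, hr, y, b, hyb⟩ := hcc α β k hsol
    (fun z hz => (hkb z (hsub ⟨hz.1, hz.2.trans hβ.2⟩)).trans hA') hβ2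
  have hrω : r ≤ ω := hr.2.trans hβ.2
  have hsub2 : Icc r ω ⊆ I := (Icc_subset_Icc_left hr.1).trans hsub
  refine ⟨k, r, ω, y, b, hrω, (hN p hp).1 I _ k hk hsub2 ordConnected_Icc,
    fun s hs => hkb s (hsub2 hs), ?_, hyb⟩
  have h5 := (hN p hp).2.2.2.2.1 k α r ω hr.1 hrω
  have h6 : SN p (Icc α r) k ≤ 1 := by
    rw [← hβ2]; exact lintegral_mono_set (Icc_subset_Icc_right hr.2)
  by_contra hcon
  push Not at hcon
  have h7 : SN p (Icc α ω) k ≤ 1 + n := by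
    rw [h5]; exact add_le_add h6 hcon.le
  have h8 : ((n + 1 : ℕ) : ℝ≥0∞) = 1 + n := by rw [Nat.cast_add, Nat.cast_one, add_comm]
  rw [h8] at h2
  exact absurd h2 (not_lt.2 h7)

end G13x

open G13x in
theorem thm_G13 (hPsi : St_Psi) (hG2 : St_G2) (hW : Pool.Agent.QWE.St_WkS) (h12 : St_G12) (h13a : St_G13a)
    (hSc : St_ScM) (hN : St_SNc) : St_G13 := by
  classical
  rintro p hp ⟨A0, hA0⟩
  obtain ⟨ψ, hψ⟩ := hPsi
  set S : Set ℝ := {A | LA p A = ⊤} with hS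
  have hne : S.Nonempty := ⟨A0, hA0⟩
  have hbd : BddBelow S := by
    refine ⟨0, fun A hA => ?_⟩
    by_contra hc
    push Not at hc
    have h1 := LA_neg (p := p) hc
    have h2 : LA p A = ⊤ := hA
    rw [h1] at h2
    exact absurd h2 (by simp)
  set Ac : ℝ := sInf S with hAc
  have hLA : ∀ A' < Ac, LA p A' < ⊤ := by
    intro A' h
    rw [lt_top_iff_ne_top]
    intro h2
    exact absurd (csInf_le hbd (show A' ∈ S from h2)) (not_le.2 h)
  have hLAn : ∀ n : ℕ, LA p (Ac + 1 / ((n : ℝ) + 1)) = ⊤ := by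
    intro n
    have hlt : sInf S < Ac + 1 / ((n : ℝ) + 1) := by
      have : (0 : ℝ) < 1 / ((n : ℝ) + 1) := by positivity
      linarith
    obtain ⟨A, hA, hA2⟩ := exists_lt_of_csInf_lt hne hlt
    have h1 : LA p A = ⊤ := hA
    have h2 := LA_mono (p := p) hA2.le
    rw [h1] at h2
    exact top_le_iff.1 h2
  obtain ⟨c, hc, hpiece⟩ := piece hp hG2 hN hψ (Ac + 1)
  replace h12 := h12 p hp
  replace h13a := h13a p hp
  replace hSc := hSc p hp
  replace hN := hN p hp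
  have hex : ∀ n : ℕ, ∃ (k : ℝ → K) (r ω : ℝ) (y : E) (b : ℝ),
      r ≤ ω ∧ IsSol p (Icc r ω) k ∧ (∀ s ∈ Icc r ω, ‖k s‖ ≤ Ac + 1 / ((n : ℝ) + 1)) ∧
      (n : ℝ≥0∞) ≤ SN p (Icc r ω) k ∧ c ≤ |inner ℝ (ig y b (k r)) (Rs (sig p) ψ)| := by
    intro n
    refine hpiece n _ ?_ (hLAn n)
    have : 1 / ((n : ℝ) + 1) ≤ 1 := by
      rw [div_le_one (by positivity)]
      have : (0 : ℝ) ≤ n := Nat.cast_nonneg n
      linarith
    linarith
  choose a r ω y b hrω hasol hab haS hyb using hex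
  set k : ℕ → ℝ → K := fun n => resc (a n) (r n) (y n) (b n) with hk
  set τ : ℕ → ℝ := fun n => (ω n - r n) * Real.exp (b n) with hτ
  have hτ0 : ∀ n, 0 ≤ τ n := fun n => mul_nonneg (by linarith [hrω n]) (Real.exp_pos _).le
  have hksol : ∀ n, IsSol p (Icc 0 (τ n)) (k n) := by
    intro n
    have h2 := (hSc _ (a n) (r n) (y n) (b n)).1 (hasol n)
    rwa [G14x.set_eq] at h2
  have hSNk : ∀ n, SN p (Icc 0 (τ n)) (k n) = SN p (Icc (r n) (ω n)) (a n) := by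
    intro n
    have := (hSc (Icc (r n) (ω n)) (a n) (r n) (y n) (b n)).2.2.1 measurableSet_Icc
    rwa [G14x.set_eq] at this
  have hkb : ∀ n, ∀ s ∈ Icc 0 (τ n), ‖k n s‖ ≤ Ac + 1 / ((n : ℝ) + 1) := by
    intro n s hs
    have h1 := (hSc univ (a n) (r n) (y n) (b n)).2.2.2 s
    show ‖resc (a n) (r n) (y n) (b n) s‖ ≤ _
    rw [h1]
    have h2 : s ∈ {s : ℝ | r n + s * Real.exp (-(b n)) ∈ Icc (r n) (ω n)} := by
      rw [G14x.set_eq]; exact hs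
    exact hab n _ h2
  have hk0 : ∀ n, k n 0 = ig (y n) (b n) (a n (r n)) := by
    intro n
    simp only [hk, resc, zero_mul, add_zero]
  have hkb1 : ∀ n, ‖k n 0‖ ≤ Ac + 1 := by
    intro n
    have h1 := hkb n 0 ⟨le_rfl, hτ0 n⟩
    have : 1 / ((n : ℝ) + 1) ≤ 1 := by
      rw [div_le_one (by positivity)]
      have : (0 : ℝ) ≤ n := Nat.cast_nonneg n
      linarith
    linarith
  obtain ⟨ξ, hξ, φ, -, hφw⟩ := hW.1 (fun n => k n 0) (Ac + 1) hkb1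
  have hφ0 : φ ≠ 0 := by
    intro h
    have h1 := (hφw (Rs (sig p) ψ)).abs
    rw [h, inner_zero_left, abs_zero] at h1
    obtain ⟨n, hn⟩ := (h1.eventually (gt_mem_nhds hc)).exists
    have h2 := hyb (ξ n)
    rw [← hk0] at h2
    exact absurd hn (not_lt.2 h2)
  have hSinf : Tendsto (fun n => SN p (Icc 0 (τ (ξ n))) (k (ξ n))) atTop (𝓝 ⊤) := by
    have h1 : Tendsto (fun n => SN p (Icc 0 (τ n)) (k n)) atTop (𝓝 ⊤) := by
      refine tendsto_of_tendsto_of_tendsto_of_le_of_le' (g := fun n : ℕ => (n : ℝ≥0∞))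
        (h := fun _ => ⊤) ENNReal.tendsto_nat_nhds_top tendsto_const_nhds ?_ ?_
      · refine Eventually.of_forall fun n => ?_
        show (n : ℝ≥0∞) ≤ SN p (Icc 0 (τ n)) (k n)
        rw [hSNk]; exact haS n
      · exact Eventually.of_forall fun n => le_top
    exact h1.comp hξ.tendsto_atTop
  have hδ : Tendsto (fun n => 1 / (((ξ n : ℕ) : ℝ) + 1)) atTop (𝓝 0) :=
    (tendsto_one_div_add_atTop_nhds_zero_nat (𝕜 := ℝ)).comp hξ.tendsto_atTop
  have hstrong := h12 Ac hLA (fun n => τ (ξ n)) (fun n => 1 / (((ξ n : ℕ) : ℝ) + 1))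
    (fun n => k (ξ n)) φ (fun n => hτ0 _) (fun n => hksol _) hδ (fun n s hs => hkb _ s hs)
    hSinf hφw hφ0
  obtain ⟨I, a', hI, h0, -, hb, hinf, -⟩ := h13a Ac (fun n => τ (ξ n))
    (fun n => 1 / (((ξ n : ℕ) : ℝ) + 1)) (fun n => k (ξ n)) φ (fun n => hτ0 _)
    (fun n => hksol _) hδ (fun n s hs => hkb _ s hs) hSinf hstrong
  exact ⟨Ac, I, a', hLA, hI, h0, hb, hinf⟩

end Pool.Agent.QWP
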