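import Pool.Agent.QWP.StG
import Pool.Agent.QWP.StD

set_option autoImplicit false

/-!
# QWP, G15: choice of the parameters
-/

open MeasureTheory Filter Topology Set
open scoped ENNReal NNReal RealInnerProductSpace

namespace Pool.Agent.QWP

open Pool.Agent.QWE (E S sg mu K toK tau sh dl rev gr ig IsTest pd lap Rad dRad Rk dRk c0 WD Sm SmE IsSch half shr WTo resc)

namespace G15x

lemma crit_ne_zero {p : ℝ} (hp : 2 < p) (hL : St_SnP) (hN : St_SNc) {Ac : ℝ} {I : Set ℝ} {a : ℝ → K} (h : Crit p Ac I a) :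
    ∀ t ∈ I, a t ≠ 0 := by
  intro t ht h0
  obtain ⟨-, hI, hI0, -, hinf⟩ := h
  have hz := (hN p hp).2.2.2.2.2 I a t hI.1 ht h0
  have hord : (I ∩ Ici 0).OrdConnected := hI.1.1.inter ordConnected_Ici
  have h1 : SN p (I ∩ Ici 0) a = 0 := by
    unfold SN
    rw [setLIntegral_congr_fun (g := fun _ => 0) hord.measurableSet]
    · simp
    · intro s hs
      simp only
      rw [hz s hs.1, (hL p hp).2.2.2.2.1, ENNReal.zero_rpow_of_pos (by linarith)]
  rw [h1] at hinf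
  exact absurd hinf (by simp)

lemma ig_zero (hG : Pool.Agent.QWE.St_GrA) (k : K) : ig 0 0 k = k := by
  unfold ig
  have := hG.2.1 k
  simpa using this

/-- After passing to a subsequence the orbit points can be renormalised to converge. -/
lemma step1 {p : ℝ} (hp : 2 < p) (h14 : St_G14) (hL : St_SnP) (hN : St_SNc) (hG : Pool.Agent.QWE.St_GrA) {Ac : ℝ} {I : Set ℝ} {a : ℝ → K}
    (h : Crit p Ac I a) (u : ℕ → ℝ) (hu : ∀ n, u n ∈ I ∧ 0 ≤ u n) :
    ∃ (ρ : ℕ → ℕ) (y : ℕ → E) (c : ℕ → ℝ) (φ : K), StrictMono ρ ∧ φ ≠ 0 ∧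
      Tendsto (fun n => ig (y n) (c n) (a (u (ρ n)))) atTop (𝓝 φ) := by
  by_cases hA : ∃ T ∈ I, ∃ᶠ n in atTop, u n ≤ T
  · obtain ⟨T, hT, hf⟩ := hA
    obtain ⟨ρ, hρ, hρT⟩ := extraction_of_frequently_atTop hf
    have hsub : Icc 0 T ⊆ I := fun z hz => h.2.1.1.1.out h.2.2.1 hT hz
    obtain ⟨s, hs, ξ, hξ, hlim⟩ := isCompact_Icc.tendsto_subseq
      (x := fun n => u (ρ n)) (fun n => (⟨(hu _).2, hρT n⟩ : u (ρ n) ∈ Icc 0 T))
    refine ⟨ρ ∘ ξ, fun _ => 0, fun _ => 0, a s, hρ.comp hξ, crit_ne_zero hp hL hN h s (hsub hs), ?_⟩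
    have hc : ContinuousWithinAt a I s := h.2.1.1.2.1 s (hsub hs)
    have hc2 : Tendsto (fun n => a (u (ρ (ξ n)))) atTop (𝓝 (a s)) :=
      hc.tendsto.comp (tendsto_nhdsWithin_iff.2 ⟨hlim, Eventually.of_forall fun n => (hu _).1⟩)
    refine hc2.congr fun n => ?_
    rw [ig_zero hG]; rfl
  · push Not at hA
    have hB : ∀ T ∈ I, ∀ᶠ n in atTop, T ≤ u n := by
      intro T hT
      have := hA T hT
      filter_upwards [this] with n hn
      exact hn.le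
    obtain ⟨ρ, y, c, φ, h1, h2, h3⟩ := h14 p hp Ac I a h u hu hB
    exact ⟨ρ, y, c, φ, h1, h2, h3⟩

end G15x

open G15x in
theorem thm_G15 (h14 : St_G14) (hF : St_FbPP) (hPsi : St_Psi) (hBd : Pool.Agent.QWE.St_GBd) (hG : Pool.Agent.QWE.St_GrA)
    (hN : St_SNc) (hW : Pool.Agent.QWE.St_WkS) (hL : St_SnP) : St_G15 := by
  classical
  intro p hp Ac I a hcr
  obtain ⟨ψ, hψ⟩ := hPsi
  obtain ⟨⟨C, hC⟩, hinv, hpos⟩ := hF (sig p) ψ (abs_sig_lt hp) hψ
  have hne := crit_ne_zero hp hL hN hcr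
  have hch : ∀ t ∈ I, ∃ (y : E) (b : ℝ), Fb (sig p) ψ (a t) / 2 ≤
      max |inner ℝ (ig y b (a t)) (Rs (sig p) ψ)| |inner ℝ (ig y b (a t)) (dRs (sig p) ψ)| := fun t ht =>
    (hpos (a t) (hne t ht)).2
  choose! x b hxb using hch
  -- the claim on sequences
  have claim : ∀ u : ℕ → ℝ, (∀ n, u n ∈ I ∧ 0 ≤ u n) → ∃ (ν : ℕ → ℕ) (κ : K), StrictMono ν ∧ κ ≠ 0 ∧
      Tendsto (fun n => ig (x (u (ν n))) (b (u (ν n))) (a (u (ν n)))) atTop (𝓝 κ) := by
    intro u hu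
    obtain ⟨ρ, y, c, φ, hρ, hφ, hlim⟩ := step1 hp h14 hL hN hG hcr u hu
    set w : ℕ → K := fun n => ig (y n) (c n) (a (u (ρ n))) with hw
    have haw : ∀ n, a (u (ρ n)) = gr (y n) (c n) (w n) := fun n => ((hG.2.2.1 _ _ _).1).symm
    have hFw : ∀ n, Fb (sig p) ψ (a (u (ρ n))) = Fb (sig p) ψ (w n) := fun n => by rw [haw, hinv]
    have hFlim : Tendsto (fun n => Fb (sig p) ψ (w n)) atTop (𝓝 (Fb (sig p) ψ φ)) := by
      rw [tendsto_iff_dist_tendsto_zero]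
      refine squeeze_zero (fun _ => dist_nonneg) (fun n => ?_)
        (g := fun n => C * ‖w n - φ‖) ?_
      · rw [Real.dist_eq]; exact hC _ _
      · have := (tendsto_iff_norm_sub_tendsto_zero.1 hlim).const_mul C
        simpa using this
    have hFp : 0 < Fb (sig p) ψ φ := (hpos φ hφ).1
    set v : ℕ → K := fun n => ig (x (u (ρ n))) (b (u (ρ n))) (a (u (ρ n))) with hv
    set Y : ℕ → E := fun n => -(Real.exp (b (u (ρ n))) • x (u (ρ n))) + Real.exp (b (u (ρ n))) • y n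
      with hY
    set D : ℕ → ℝ := fun n => -(b (u (ρ n))) + c n with hD
    have hvg : ∀ n, v n = gr (Y n) (D n) (w n) := by
      intro n
      simp only [hv, hY, hD]
      conv_lhs => rw [haw n]
      unfold ig
      rw [hG.1, neg_neg]
    have hvb : ∀ n, ‖v n‖ ≤ Ac := by
      intro n
      have h1 := (hG.2.2.2.1 (x (u (ρ n))) (b (u (ρ n))) (a (u (ρ n)))).2
      show ‖ig _ _ _‖ ≤ Ac
      rw [h1]
      exact hcr.2.2.2.1 _ (hu _).1 (hu _).2
    obtain ⟨ξ, hξ, v', -, hv'⟩ := hW.1 v Ac hvb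
    have hv'0 : v' ≠ 0 := by
      intro h0
      have h1 := hv' (Rs (sig p) ψ)
      have h2 := hv' (dRs (sig p) ψ)
      rw [h0, inner_zero_left] at h1 h2
      have h3 := (h1.abs).max (h2.abs)
      rw [abs_zero, max_self] at h3
      have h4 := h3.eventually (gt_mem_nhds (show (0 : ℝ) < Fb (sig p) ψ φ / 4 by linarith))
      have h5 := (hFlim.comp hξ.tendsto_atTop).eventually
        (lt_mem_nhds (show Fb (sig p) ψ φ / 2 < Fb (sig p) ψ φ by linarith))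
      obtain ⟨n, h6, h7⟩ := (h4.and h5).exists
      have h8 := hxb (u (ρ (ξ n))) (hu _).1
      rw [hFw] at h8
      simp only [Function.comp] at h6 h7
      have h9 : max |inner ℝ (v (ξ n)) (Rs (sig p) ψ)| |inner ℝ (v (ξ n)) (dRs (sig p) ψ)| < Fb (sig p) ψ φ / 4 := h6
      have h10 : Fb (sig p) ψ (w (ξ n)) / 2 ≤
        max |inner ℝ (v (ξ n)) (Rs (sig p) ψ)| |inner ℝ (v (ξ n)) (dRs (sig p) ψ)| := h8
      linarith
    have hwlim : Tendsto (fun n => w (ξ n)) atTop (𝓝 φ) := hlim.comp hξ.tendsto_atTop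
    have hQ' : IsCompact (insert φ (range fun n => w (ξ n))) := hwlim.isCompact_insert_range
    have hwt : WTo (fun n => gr (Y (ξ n)) (D (ξ n)) (w (ξ n))) v' := by
      intro z
      refine (hv' z).congr fun n => ?_
      show inner ℝ (v (ξ n)) z = _
      rw [hvg]
    obtain ⟨B, hB⟩ := hBd _ (fun n => w (ξ n)) _ _ v' hQ' (fun n => mem_insert_of_mem _ ⟨n, rfl⟩)
      hwt hv'0
    have hcpt : IsCompact (Metric.closedBall (0 : E) B ×ˢ Icc (-B) B) :=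
      (isCompact_closedBall 0 B).prod isCompact_Icc
    have hin : ∀ n, (Y (ξ n), D (ξ n)) ∈ Metric.closedBall (0 : E) B ×ˢ Icc (-B) B := by
      intro n
      refine ⟨?_, ?_⟩
      · rw [mem_closedBall_zero_iff]; exact (hB n).2
      · exact abs_le.1 (hB n).1
    obtain ⟨⟨Ys, Ds⟩, -, ζ, hζ, hlim2⟩ := hcpt.tendsto_subseq hin
    have hjoint : Tendsto (fun n => (Y (ξ (ζ n)), D (ξ (ζ n)), w (ξ (ζ n)))) atTop
        (𝓝 (Ys, Ds, φ)) := by
      have e1 : Tendsto (fun n => Y (ξ (ζ n))) atTop (𝓝 Ys) := (continuous_fst.tendsto _).comp hlim2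
      have e2 : Tendsto (fun n => D (ξ (ζ n))) atTop (𝓝 Ds) := (continuous_snd.tendsto _).comp hlim2
      have e3 : Tendsto (fun n => w (ξ (ζ n))) atTop (𝓝 φ) := hwlim.comp hζ.tendsto_atTop
      exact e1.prodMk_nhds (e2.prodMk_nhds e3)
    have hcont := (hG.2.2.2.2.2.2.2.1.tendsto (Ys, Ds, φ)).comp hjoint
    refine ⟨ρ ∘ ξ ∘ ζ, gr Ys Ds φ, hρ.comp (hξ.comp hζ), ?_, ?_⟩
    · intro h0
      have := (hG.2.2.2.1 Ys Ds φ).1
      rw [h0, norm_zero] at this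
      exact hφ (norm_eq_zero.1 this.symm)
    · refine hcont.congr fun n => ?_
      exact (hvg (ξ (ζ n))).symm
  -- the compact set
  set S0 : Set K := {κ | ∃ t ∈ I, 0 ≤ t ∧ ig (x t) (b t) (a t) = κ} with hS0
  have hseq : ∀ s : ℕ → K, (∀ n, s n ∈ S0) → ∃ (ν : ℕ → ℕ) (κ : K), StrictMono ν ∧ κ ≠ 0 ∧
      Tendsto (s ∘ ν) atTop (𝓝 κ) := by
    intro s hs
    choose u hu1 hu2 hu3 using hs
    obtain ⟨ν, κ, h1, h2, h3⟩ := claim u fun n => ⟨hu1 n, hu2 n⟩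
    refine ⟨ν, κ, h1, h2, h3.congr fun n => ?_⟩
    exact hu3 (ν n)
  refine ⟨closure S0, x, b, ?_, ?_, ?_⟩
  · apply IsSeqCompact.isCompact
    intro z hz
    have hz' : ∀ n : ℕ, ∃ s ∈ S0, dist (z n) s < 1 / ((n : ℝ) + 1) := fun n =>
      Metric.mem_closure_iff.1 (hz n) _ (by positivity)
    choose s hs hsd using hz'
    obtain ⟨ν, κ, h1, -, h3⟩ := hseq s hs
    have hzlim : Tendsto (z ∘ ν) atTop (𝓝 κ) := by
      rw [tendsto_iff_dist_tendsto_zero]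
      have e1 : Tendsto (fun n => dist (s (ν n)) κ) atTop (𝓝 0) := tendsto_iff_dist_tendsto_zero.1 h3
      have e2 : Tendsto (fun n : ℕ => 1 / (((ν n : ℕ) : ℝ) + 1)) atTop (𝓝 0) :=
        (tendsto_one_div_add_atTop_nhds_zero_nat (𝕜 := ℝ)).comp h1.tendsto_atTop
      have e3 := e2.add e1
      rw [add_zero] at e3
      refine squeeze_zero (fun _ => dist_nonneg) (fun n => ?_) e3
      exact (dist_triangle _ (s (ν n)) _).trans (add_le_add (hsd _).le le_rfl)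
    refine ⟨κ, ?_, ν, h1, hzlim⟩
    exact isClosed_closure.mem_of_tendsto hzlim (Eventually.of_forall fun n => hz _)
  · intro h0
    obtain ⟨s, hs, hlim⟩ := mem_closure_iff_seq_limit.1 h0
    obtain ⟨ν, κ, h1, h2, h3⟩ := hseq s hs
    exact h2 (tendsto_nhds_unique h3 (hlim.comp h1.tendsto_atTop))
  · intro t ht h0
    exact ⟨_, subset_closure ⟨t, ht, h0, rfl⟩, ((hG.2.2.1 _ _ _).1).symm⟩

end Pool.Agent.QWP
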