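import Pool.Agent.QWP.StG
import Pool.Agent.QWP.WkP

set_option autoImplicit false

/-!
# QWP / G4d: local compactness of second derivatives (helper45; copy of WkP)
-/

open MeasureTheory Filter Topology Set
open scoped ENNReal NNReal RealInnerProductSpace Pointwise ContDiff Convolution

namespace Pool.Agent.QWP

open Pool.Agent.QWE (E S sg mu K toK tau sh dl rev gr ig IsTest pd lap Rad dRad Rk dRk c0 WD Sm SmE IsSch half shr WTo)

open WkPx in
theorem thm_G4d (hDns : St_DnsP) (hFld : St_FldP) (hFldD : St_FldD) (hMol : St_MolD) : St_G4d := by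
  intro s k M hs0 hs2 hk i j
  have hs : |s| < 1 / 2 := by rw [abs_of_pos hs0]; exact hs2
  obtain ⟨ρ, hρ, hρi, hρn, hρ1⟩ := bump
  obtain ⟨C₀, hC₀, hF, hLin, hT⟩ := hFld s hs
  obtain ⟨C, hC, hF2, hLin2, hT2⟩ := hFldD s hs0.le hs2
  obtain ⟨C', hC', hM⟩ := hMol s ρ hs0 hs2 hρ hρi hρn
  obtain ⟨A, hA, hkA⟩ := bdd hk
  have hq2 : 2 ≤ q2 s := by
    rw [q2, show (2 : ℝ≥0∞) = ENNReal.ofReal 2 by norm_num]
    refine ENNReal.ofReal_le_ofReal ?_
    rw [le_div_iff₀ (by linarith)]
    linarith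
  have hq2' : 1 ≤ q2 s := le_trans (by norm_num) hq2
  -- approximation by test states
  have hpos : ∀ n : ℕ, (0 : ℝ) < 1 / ((n : ℝ) + 1) := fun n => by positivity
  choose f g hf hg hfg using fun n => (hDns s hs).2.1 (k n) (1 / ((n : ℝ) + 1)) (hpos n)
  obtain ⟨κ, hκ⟩ : ∃ κ : ℕ → K, κ = fun n => Theta s (f n) (g n) := ⟨_, rfl⟩
  have hκn : ∀ n, κ n = Theta s (f n) (g n) := fun n => by rw [hκ]
  have hd : Tendsto (fun n => ‖k n - κ n‖) atTop (𝓝 0) := by
    refine squeeze_zero (fun n => norm_nonneg _) (fun n => ?_)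
      tendsto_one_div_add_atTop_nhds_zero_nat
    rw [hκn]
    exact (hfg n).le
  have hκb : ∀ n, ‖κ n‖ ≤ A + 1 := by
    intro n
    have h1 : ‖κ n‖ ≤ ‖k n‖ + ‖k n - κ n‖ := by
      have := norm_sub_le (k n) (k n - κ n)
      rwa [sub_sub_cancel] at this
    have h2 : ‖k n - κ n‖ ≤ 1 := by
      rw [hκn]
      refine (hfg n).le.trans ?_
      rw [div_le_one (by positivity)]
      linarith [Nat.cast_nonneg (α := ℝ) n]
    linarith [hkA n]
  have hκe : ∀ n, ‖κ n‖ₑ ≤ ENNReal.ofReal (A + 1) := fun n => by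
    rw [← ofReal_norm]
    exact ENNReal.ofReal_le_ofReal (hκb n)
  have hκw : ∀ w : K, Tendsto (fun n => inner ℝ (κ n) w) atTop (𝓝 0) := by
    intro w
    have h1 := hk w
    rw [inner_zero_left] at h1
    have h2 : Tendsto (fun n => inner ℝ (k n - κ n) w) atTop (𝓝 0) := by
      refine squeeze_zero_norm (fun n => norm_inner_le_norm _ _) ?_
      have := hd.mul_const ‖w‖
      rwa [zero_mul] at this
    have h3 := h1.sub h2
    rw [sub_zero] at h3
    refine h3.congr fun n => ?_
    rw [← inner_sub_left, sub_sub_cancel]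
  have hDf : ∀ n, DDU s (κ n) i j =ᵐ[volume] pd j (pd i (f n)) := fun n => by
    rw [hκn]
    exact hT2 _ _ i j (hf n) (hg n)
  have hpdt : ∀ (i : Fin 5) (φ : E → ℝ), IsTest φ → IsTest (pd i φ) := by
    intro i φ hφ
    refine ⟨?_, ?_⟩
    · unfold pd
      exact (hφ.1.fderiv_right (by simp)).clm_apply contDiff_const
    · refine (hφ.2.fderiv ℝ).mono ?_
      intro x hx hx0
      apply hx
      unfold pd
      rw [hx0]
      rfl
  have hBm : MeasurableSet (Metric.ball (0 : E) M) := measurableSet_ball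
  have hcont : ∀ (h : E → ℝ), Continuous h → ∀ ε : ℝ, AEStronglyMeasurable
      (fun x => ∫ y, ρ y * h (x - ε • y)) volume := by
    intro h hh ε
    have h1 : Continuous (fun p : E × E => ρ p.2 * h (p.1 - ε • p.2)) := by
      have := hρ.1.continuous
      fun_prop
    exact h1.stronglyMeasurable.integral_prod_right.aestronglyMeasurable
  have hbig : ENNReal.ofReal C * ENNReal.ofReal (A + 1) < ⊤ :=
    ENNReal.mul_lt_top ENNReal.ofReal_lt_top ENNReal.ofReal_lt_top
  have hD1 : ENNReal.ofReal C' * ENNReal.ofReal (A + 1) < ⊤ :=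
    ENNReal.mul_lt_top ENNReal.ofReal_lt_top ENNReal.ofReal_lt_top
  have hh : ∀ n, IsTest (pd j (pd i (f n))) := fun n => hpdt j _ (hpdt i _ (hf n))
  -- bounds from MolD for continuous representatives
  have hDi : ∀ n ε, 0 < ε →
      eLpNorm (fun x => pd j (pd i (f n)) x - ∫ y, ρ y * pd j (pd i (f n)) (x - ε • y)) 2 volume ≤
        ENNReal.ofReal C' * ENNReal.ofReal (A + 1) * ENNReal.ofReal (ε ^ s) := by
    intro n ε hε
    have e1 : (fun x => pd j (pd i (f n)) x - ∫ y, ρ y * pd j (pd i (f n)) (x - ε • y)) =ᵐ[volume]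
        fun x => DDU s (κ n) i j x - ∫ y, ρ y * DDU s (κ n) i j (x - ε • y) := by
      filter_upwards [hDf n] with x hx
      rw [hx, conv_congr ρ (hDf n) hε x]
    rw [eLpNorm_congr_ae e1]
    refine (hM (κ n) ε i j hε).trans ?_
    rw [ENNReal.ofReal_mul hC'.le, mul_right_comm]
    gcongr
    exact hκe n
  refine red (X := fun k => DDU s k i j) hq2 (fun k => (hF2 k i j).1)
    (fun k => (hF2 k i j).2.2) (fun k k' => hLin2 1 k k' i j) hd M ?_
  have h1 : Tendsto (fun n => eLpNorm ((Metric.ball (0 : E) M).indicator (pd j (pd i (f n)))) 2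
      volume) atTop (𝓝 0) := by
    refine comb (G := fun ε n x => ∫ y, ρ y * pd j (pd i (f n)) (x - ε • y)) hD1 hBm
      (fun n => (hh n).1.continuous.aestronglyMeasurable)
      (fun ε _ n => hcont _ (hh n).1.continuous ε) hs0 ?_ ?_
    · intro ε hε n
      exact (eLpNorm_indicator_le _).trans (hDi n ε hε)
    · intro ε hε
      refine conv_tend hρ hρ1 (fun n => (hh n).1.continuous) hq2' hbig
        (fun n => ?_) ?_ hε M
      · rw [eLpNorm_congr_ae (hDf n).symm]
        refine ((hF2 _ i j).2.2).trans ?_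
        gcongr
        exact hκe n
      · intro φ hφ
        refine (hκw (Rs s (pd i (pd j φ)))).congr fun n => ?_
        rw [← (hF (κ n)).1.2 _ (hpdt i _ (hpdt j φ hφ)),
          ((hF (κ n)).2.2.2.2.1 i).2.1 _ (hpdt j φ hφ), (hF2 (κ n) i j).2.1 φ hφ, neg_neg]
        refine integral_congr_ae ?_
        filter_upwards [hDf n] with x hx
        rw [hx]
  refine h1.congr fun n => ?_
  refine eLpNorm_congr_ae ?_
  filter_upwards [hDf n] with x hx
  by_cases hxB : x ∈ Metric.ball (0 : E) M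
  · rw [indicator_of_mem hxB, indicator_of_mem hxB, hx]
  · rw [indicator_of_notMem hxB, indicator_of_notMem hxB]

end Pool.Agent.QWP
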