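import Pool.Agent.QWP.StG
import Pool.Agent.QWP.Loc
import Pool.Agent.QWE.G5

set_option autoImplicit false

/-!
# QWP, G5: weak nullity for bounded times, all exponents (port of QWE.G5, helper15)
-/

open MeasureTheory Filter Topology Set
open scoped ENNReal NNReal RealInnerProductSpace

namespace Pool.Agent.QWP

open Pool.Agent.QWE (E S sg mu K toK tau sh dl rev gr ig IsTest pd lap Rad dRad Rk dRk c0 WD Sm SmE IsSch half shr WTo)

namespace G5x

open Pool.Agent.QWE.Locx (tau_cont int_tau ii_tau)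
open Pool.Agent.QWE.G5x (pettis inner_int)
open Locx (pow_mono of_lt_top sn_meas sn_fin)

theorem sig_lt {b : ℝ} (hb : 2 < b) : |sig b| < 1 / 2 := by
  have h1 : 0 < 2 / b := by positivity
  have h2 : 2 / b < 1 := by rw [div_lt_one (by linarith)]; exact hb
  rw [sig, abs_lt]
  constructor <;> linarith

theorem nsig_lt {b : ℝ} (hb : 2 < b) : |-sig b| < 1 / 2 := by
  rw [abs_neg]
  exact sig_lt hb

/-- the nonlinearity along a measurable curve is integrable -/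
theorem nl_int {b C : ℝ} (hb : 2 < b)
    (hC : ∀ k : K, ‖NL b k‖ₑ ≤ ENNReal.ofReal C * sn b k ^ b * ‖k‖ₑ) (hM : St_Meas)
    {x y : ℝ} {k : ℝ → K} (hm : AEStronglyMeasurable k (volume.restrict (Icc x y))) {B : ℝ}
    (hS : SN b (Icc x y) k < ⊤) (hn : ∀ t ∈ Icc x y, ‖k t‖ ≤ B) :
    IntegrableOn (fun r => NL b (k r)) (Icc x y) volume := by
  have hf := sn_fin hb hM measurableSet_Icc hm hS
  have hNm := (hM b hb k (Icc x y) measurableSet_Icc hm).2.2 hf
  refine ⟨hNm, ?_⟩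
  show ∫⁻ r in Icc x y, ‖NL b (k r)‖ₑ < ⊤
  calc ∫⁻ r in Icc x y, ‖NL b (k r)‖ₑ
      ≤ ∫⁻ r in Icc x y, (ENNReal.ofReal C * ENNReal.ofReal B) * sn b (k r) ^ b := by
        refine setLIntegral_mono_ae' measurableSet_Icc (Eventually.of_forall fun r hr => ?_)
        calc ‖NL b (k r)‖ₑ ≤ ENNReal.ofReal C * sn b (k r) ^ b * ‖k r‖ₑ := hC _
          _ ≤ ENNReal.ofReal C * sn b (k r) ^ b * ENNReal.ofReal B := by
              gcongr
              rw [← ofReal_norm]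
              exact ENNReal.ofReal_le_ofReal (hn r hr)
          _ = (ENNReal.ofReal C * ENNReal.ofReal B) * sn b (k r) ^ b := by ring
    _ = (ENNReal.ofReal C * ENNReal.ofReal B) * SN b (Icc x y) k := by
        rw [lintegral_const_mul'' _ ((sn_meas hb hM measurableSet_Icc hm).pow_const b)]
        rfl
    _ < ⊤ := ENNReal.mul_lt_top (ENNReal.mul_lt_top ENNReal.ofReal_lt_top
        ENNReal.ofReal_lt_top) hS

/-- the Duhamel formula in weak form -/
theorem wduh (hG : Pool.Agent.QWE.St_Grp1) {b t : ℝ} {γ : ℝ → K} (h : IsSol b (Icc 0 t) γ)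
    (hi : IntegrableOn (fun r => NL b (γ r)) (Icc 0 t) volume) {s' s : ℝ} (hs' : s' ∈ Icc 0 t)
    (hs : s ∈ Icc 0 t) (w : K) :
    inner ℝ (γ s) w = inner ℝ (γ s') (tau (s' - s) w) -
      ∫ r in s'..s, inner ℝ (NL b (γ r)) (tau (r - s) w) := by
  have hadj := hG.2.2.2.2.2.1
  rw [h.2.2.2 s' hs' s hs, inner_sub_left, hadj, inner_int (ii_tau hG hi s hs' hs)]
  rw [neg_sub]
  congr 1
  refine intervalIntegral.integral_congr fun r _ => ?_
  show inner ℝ (tau (s - r) (NL b (γ r))) w = inner ℝ (NL b (γ r)) (tau (r - s) w)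
  rw [hadj, neg_sub]

theorem dense_theta {b : ℝ} (hb : 2 < b) (hD : St_DnsP) :
    Dense {w : K | ∃ f g : E → ℝ, IsTest f ∧ IsTest g ∧ w = Theta (-sig b) f g} := by
  intro k
  rw [Metric.mem_closure_iff]
  intro ε hε
  obtain ⟨f, g, hf, hg, h⟩ := (hD (-sig b) (nsig_lt hb)).2.1 k ε hε
  exact ⟨Theta (-sig b) f g, ⟨f, g, hf, hg, rfl⟩, by rw [dist_eq_norm]; exact h⟩

theorem zero_sol {b C : ℝ} (hb : 2 < b) (hSn : St_SnP)
    (hC : ∀ k : K, ‖NL b k‖ₑ ≤ ENNReal.ofReal C * sn b k ^ b * ‖k‖ₑ) (t : ℝ) :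
    IsSol b (Icc 0 t) (fun _ => (0 : K)) := by
  have hN : NL b (0 : K) = 0 := by
    have h := hC 0
    rw [enorm_zero, mul_zero, nonpos_iff_eq_zero, enorm_eq_zero] at h
    exact h
  refine ⟨ordConnected_Icc, continuousOn_const, fun x _ y _ => ?_, fun s _ r _ => ?_⟩
  · show ∫⁻ _ in Icc x y, sn b (0 : K) ^ b < ⊤
    rw [(hSn b hb).2.2.2.2.1, ENNReal.zero_rpow_of_pos (by linarith)]
    simp
  · simp [hN]

theorem pair_bd {b A t C : ℝ} (hb : 2 < b) (hC0 : 0 < C) {w : K}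
    (hw : ∀ (s : ℝ) (k : K), |s| ≤ t → sn b k < ⊤ → |inner ℝ (NL b k) (tau s w)| ≤ C * ‖k‖ ^ (b + 1))
    {γ : ℝ → K} (hn : ∀ s ∈ Icc 0 t, ‖γ s‖ ≤ A)
    (hf : ∀ᵐ r ∂(volume.restrict (Icc 0 t)), sn b (γ r) < ⊤) {s s' : ℝ} (hs : s ∈ Icc 0 t)
    (hs' : s' ∈ Icc 0 t) :
    ∀ᵐ r, r ∈ uIoc s' s → ‖(inner ℝ (NL b (γ r)) (tau (r - s) w) : ℝ)‖ ≤ C * A ^ (b + 1) := by
  have h1 := (ae_restrict_iff' measurableSet_Icc).1 hf
  filter_upwards [h1] with r hr hr2
  have hr3 : r ∈ Icc 0 t := ordConnected_Icc.uIcc_subset hs' hs (uIoc_subset_uIcc hr2)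
  have h2 : |r - s| ≤ t := by
    rw [abs_le]
    constructor <;> linarith [hr3.1, hr3.2, hs.1, hs.2]
  refine (hw (r - s) (γ r) h2 (hr hr3)).trans ?_
  refine mul_le_mul_of_nonneg_left ?_ hC0.le
  exact Real.rpow_le_rpow (norm_nonneg _) (hn r hr3) (by linarith)

theorem equi (hG : Pool.Agent.QWE.St_Grp1) {b A t C : ℝ} (hb : 2 < b) (hC0 : 0 < C) {w : K}
    (hw : ∀ (s : ℝ) (k : K), |s| ≤ t → sn b k < ⊤ → |inner ℝ (NL b k) (tau s w)| ≤ C * ‖k‖ ^ (b + 1))
    {γ : ℝ → K} (h : IsSol b (Icc 0 t) γ) (hn : ∀ s ∈ Icc 0 t, ‖γ s‖ ≤ A)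
    (hi : IntegrableOn (fun r => NL b (γ r)) (Icc 0 t) volume)
    (hf : ∀ᵐ r ∂(volume.restrict (Icc 0 t)), sn b (γ r) < ⊤) {s s' : ℝ} (hs : s ∈ Icc 0 t)
    (hs' : s' ∈ Icc 0 t) :
    |(inner ℝ (γ s) w - inner ℝ (γ s') w : ℝ)| ≤
      A * ‖tau (s' - s) w - w‖ + C * A ^ (b + 1) * |s - s'| := by
  rw [wduh hG h hi hs' hs w]
  have e : (inner ℝ (γ s') (tau (s' - s) w) - (∫ r in s'..s, inner ℝ (NL b (γ r)) (tau (r - s) w)) -
      inner ℝ (γ s') w : ℝ) = inner ℝ (γ s') (tau (s' - s) w - w) -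
        ∫ r in s'..s, inner ℝ (NL b (γ r)) (tau (r - s) w) := by
    rw [inner_sub_right]
    ring
  rw [e, ← Real.norm_eq_abs]
  refine (norm_sub_le _ _).trans (add_le_add ?_ ?_)
  · refine (norm_inner_le_norm _ _).trans ?_
    exact mul_le_mul_of_nonneg_right (hn s' hs') (norm_nonneg _)
  · exact intervalIntegral.norm_integral_le_of_norm_le_const_ae
      (pair_bd hb hC0 hw hn hf hs hs')

/-- lower semicontinuity of the Strichartz norm under weak convergence at every time -/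
theorem sn_lim {b : ℝ} (hb : 2 < b) (hNc : St_NLc) (hM : St_Meas) {t : ℝ} {γ : ℕ → ℝ → K} {k : ℝ → K} {m : ℝ≥0∞}
    (hm : ∀ n, AEStronglyMeasurable (γ n) (volume.restrict (Icc 0 t)))
    (hS : ∀ n, SN b (Icc 0 t) (γ n) ≤ m) (hk : ∀ s ∈ Icc 0 t, WTo (fun n => γ n s) (k s)) :
    SN b (Icc 0 t) k ≤ m := by
  have hb0 : 0 ≤ b := by linarith
  have hp : ∀ x : ℕ → ℝ≥0∞, (liminf x atTop) ^ b = liminf (fun n => x n ^ b) atTop := by
    intro x
    exact Monotone.map_liminf_of_continuousAt (f := fun y : ℝ≥0∞ => y ^ b)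
      (fun y z hyz => pow_mono hb0 hyz) x (ENNReal.continuous_rpow_const).continuousAt
  calc SN b (Icc 0 t) k = ∫⁻ r in Icc 0 t, sn b (k r) ^ b := rfl
    _ ≤ ∫⁻ r in Icc 0 t, liminf (fun n => sn b (γ n r) ^ b) atTop := by
        refine setLIntegral_mono_ae' measurableSet_Icc (Eventually.of_forall fun r hr => ?_)
        rw [← hp]
        exact pow_mono hb0 ((hNc b hb).1 _ _ (hk r hr))
    _ ≤ liminf (fun n => ∫⁻ r in Icc 0 t, sn b (γ n r) ^ b) atTop :=
        lintegral_liminf_le' fun n => (sn_meas hb hM measurableSet_Icc (hm n)).pow_const b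
    _ ≤ m := by
        refine liminf_le_of_le (by isBoundedDefault) fun c hc => ?_
        obtain ⟨j, hj⟩ := hc.exists
        exact hj.trans (hS j)

theorem pair_meas (hG : Pool.Agent.QWE.St_Grp1) {b t : ℝ} {γ : ℝ → K} (s : ℝ) (w : K)
    (hi : IntegrableOn (fun r => NL b (γ r)) (Icc 0 t) volume) :
    AEStronglyMeasurable (fun r => (inner ℝ (NL b (γ r)) (tau (r - s) w) : ℝ))
      (volume.restrict (Icc 0 t)) := by
  have hc := hG.2.2.2.2.2.2.2.1 w
  have h1 : Continuous fun r : ℝ => tau (r - s) w := hc.comp (continuous_id.sub continuous_const)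
  exact hi.1.inner h1.aestronglyMeasurable

/-- a curve that satisfies the Duhamel formula with base point `0` and zero data is a solution -/
theorem sol_of (hG : Pool.Agent.QWE.St_Grp1) (hDu : St_DuhI) {b : ℝ} (hb : 2 < b) {t : ℝ} (ht : 0 ≤ t) {k : ℝ → K}
    (hi : IntegrableOn (fun r => NL b (k r)) (Icc 0 t) volume) (hS : SN b (Icc 0 t) k < ⊤)
    (hk : ∀ s ∈ Icc 0 t, k s = - ∫ r in (0 : ℝ)..s, tau (s - r) (NL b (k r))) :
    IsSol b (Icc 0 t) k := by
  obtain ⟨g1, -⟩ := id hG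
  obtain ⟨C', -, hD'⟩ := hDu b hb
  have h0 : (0 : ℝ) ∈ Icc 0 t := ⟨le_refl _, ht⟩
  refine ⟨ordConnected_Icc, ?_, ?_, ?_⟩
  · refine ((hD' 0 t 0 _ le_rfl ht hi).1.neg).congr fun s hs => ?_
    exact hk s hs
  · intro a' ha' b' hb'
    refine lt_of_le_of_lt ?_ hS
    exact lintegral_mono_set (Icc_subset_Icc ha'.1 hb'.2)
  · intro s hs s2 hs2
    have i1 := ii_tau hG hi s h0 hs
    have i2 := ii_tau hG hi s2 h0 hs
    have i3 := ii_tau hG hi s2 hs hs2
    have e3 : tau (s2 - s) (∫ r in (0 : ℝ)..s, tau (s - r) (NL b (k r))) =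
        ∫ r in (0 : ℝ)..s, tau (s2 - r) (NL b (k r)) := by
      have h := (tau (s2 - s)).toContinuousLinearMap.intervalIntegral_comp_comm i1
      have h2 : (∫ r in (0 : ℝ)..s, (tau (s2 - s)).toContinuousLinearMap
          (tau (s - r) (NL b (k r)))) = ∫ r in (0 : ℝ)..s, tau (s2 - r) (NL b (k r)) := by
        refine intervalIntegral.integral_congr fun r _ => ?_
        show tau (s2 - s) (tau (s - r) (NL b (k r))) = _
        rw [g1]
        congr 2
        ring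
      rw [h2] at h
      exact h.symm
    have e5 := intervalIntegral.integral_add_adjacent_intervals i2 i3
    rw [hk s2 hs2, hk s hs, map_neg, e3, ← e5]
    abel

theorem core (hWS : Pool.Agent.QWE.St_WkS) (hWC : Pool.Agent.QWE.St_WkC) (hNc : St_NLc)
    (hNb : St_NLb) (hM : St_Meas) (hU : St_Uniq) (hDu : St_DuhI) (hF : St_FreeP) (hD : St_DnsP)
    (hG : Pool.Agent.QWE.St_Grp1) (hSn : St_SnP) {b : ℝ} (hb : 2 < b) {A M t : ℝ} (ht : 0 ≤ t) {γ : ℕ → ℝ → K} (hs : ∀ n, IsSol b (Icc 0 t) (γ n))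
    (hn : ∀ n, ∀ s ∈ Icc 0 t, ‖γ n s‖ ≤ A)
    (hS : ∀ n, SN b (Icc 0 t) (γ n) ≤ ENNReal.ofReal M) (h0 : WTo (fun n => γ n 0) 0) :
    ∃ φ : ℕ → ℕ, StrictMono φ ∧ WTo (fun n => γ (φ n) t) 0 := by
  obtain ⟨⟨C, hC0, hC1, hC2⟩, -⟩ := hNb b hb
  have h0t : (0 : ℝ) ∈ Icc 0 t := ⟨le_refl _, ht⟩
  have htt : t ∈ Icc 0 t := ⟨ht, le_refl _⟩
  have hA : 0 ≤ A := (norm_nonneg _).trans (hn 0 0 h0t)
  have hm : ∀ n, AEStronglyMeasurable (γ n) (volume.restrict (Icc 0 t)) := fun n =>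
    (hs n).2.1.aestronglyMeasurable measurableSet_Icc
  have hSt : ∀ n, SN b (Icc 0 t) (γ n) < ⊤ := fun n => (hS n).trans_lt ENNReal.ofReal_lt_top
  have hi : ∀ n, IntegrableOn (fun r => NL b (γ n r)) (Icc 0 t) volume := fun n =>
    nl_int hb hC1 hM (hm n) (hSt n) (hn n)
  have hf : ∀ n, ∀ᵐ r ∂(volume.restrict (Icc 0 t)), sn b (γ n r) < ⊤ := fun n =>
    sn_fin hb hM measurableSet_Icc (hm n) (hSt n)
  -- equicontinuity
  obtain ⟨φ, k, hφ, hk1, hk2⟩ := hWC A t γ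
    {w : K | ∃ f g : E → ℝ, IsTest f ∧ IsTest g ∧ w = Theta (-sig b) f g} ht (dense_theta hb hD) hn (by
      rintro w ⟨f, g, hf1, hg1, rfl⟩ ε hε
      obtain ⟨C3, hC3, hw⟩ := (hNc b hb).2.2 f g t hf1 hg1
      obtain ⟨w, hww⟩ : ∃ w, w = Theta (-sig b) f g := ⟨_, rfl⟩
      rw [← hww] at hw ⊢
      have hc := hG.2.2.2.2.2.2.2.1 w
      have hc0 : tau 0 w = w := hG.2.1 w
      have h1 : Tendsto (fun s => ‖tau s w - w‖) (𝓝 0) (𝓝 0) := by
        have h2 : Continuous fun s => ‖tau s w - w‖ := (hc.sub continuous_const).norm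
        have h3 := h2.tendsto 0
        rw [hc0, sub_self, norm_zero] at h3
        exact h3
      have h4 : ∀ᶠ s in 𝓝 (0 : ℝ), ‖tau s w - w‖ < ε / (2 * (A + 1)) :=
        h1.eventually (gt_mem_nhds (by positivity))
      rw [Metric.eventually_nhds_iff] at h4
      obtain ⟨δ1, hδ1, h5⟩ := h4
      refine ⟨min (δ1 / 2) (ε / (2 * (C3 * A ^ (b + 1) + 1))), by positivity, ?_⟩
      intro n s hs1 s' hs2 hss
      refine (equi hG hb hC3 hw (hs n) (hn n) (hi n) (hf n) hs1 hs2).trans ?_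
      have h6 : ‖tau (s' - s) w - w‖ < ε / (2 * (A + 1)) := by
        refine h5 ?_
        rw [dist_zero_right, Real.norm_eq_abs, abs_sub_comm]
        exact (hss.trans (min_le_left _ _)).trans_lt (by linarith)
      have h7 : |s - s'| ≤ ε / (2 * (C3 * A ^ (b + 1) + 1)) := hss.trans (min_le_right _ _)
      have h8 : A * ‖tau (s' - s) w - w‖ ≤ ε / 2 := by
        calc A * ‖tau (s' - s) w - w‖ ≤ (A + 1) * (ε / (2 * (A + 1))) := by
              refine mul_le_mul (by linarith) h6.le (norm_nonneg _) (by positivity)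
          _ = ε / 2 := by field_simp
      have h9 : C3 * A ^ (b + 1) * |s - s'| ≤ ε / 2 := by
        have h10 : 0 ≤ C3 * A ^ (b + 1) := by positivity
        calc C3 * A ^ (b + 1) * |s - s'| ≤ (C3 * A ^ (b + 1) + 1) * (ε / (2 * (C3 * A ^ (b + 1) + 1))) := by
              refine mul_le_mul (by linarith) h7 (abs_nonneg _) (by positivity)
          _ = ε / 2 := by field_simp
      linarith)
  refine ⟨φ, hφ, ?_⟩
  -- properties of the limit
  have hkn : ∀ s ∈ Icc 0 t, ‖k s‖ ≤ A := fun s hs => (hk1 s hs).1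
  have hkw : ∀ s ∈ Icc 0 t, WTo (fun n => γ (φ n) s) (k s) := fun s hs => (hk1 s hs).2
  have hkm : AEStronglyMeasurable k (volume.restrict (Icc 0 t)) := pettis measurableSet_Icc k hk2
  have hkS : SN b (Icc 0 t) k ≤ ENNReal.ofReal M :=
    sn_lim hb hNc hM (fun n => hm (φ n)) (fun n => hS (φ n)) hkw
  have hkSt : SN b (Icc 0 t) k < ⊤ := hkS.trans_lt ENNReal.ofReal_lt_top
  have hki : IntegrableOn (fun r => NL b (k r)) (Icc 0 t) volume := nl_int hb hC1 hM hkm hkSt hkn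
  have hkf := sn_fin hb hM measurableSet_Icc hkm hkSt
  -- initial value
  have hk0 : k 0 = 0 := by
    have h1 := hWS.2.2.2.1 (fun n => γ n 0) 0 φ h0 hφ
    exact hWS.2.2.2.2.1 _ _ _ (hkw 0 h0t) h1
  -- limit in the Duhamel formula
  have hlim : ∀ s ∈ Icc 0 t, ∀ f g : E → ℝ, IsTest f → IsTest g →
      inner ℝ (k s) (Theta (-sig b) f g) =
        - ∫ r in (0 : ℝ)..s, inner ℝ (NL b (k r)) (tau (r - s) (Theta (-sig b) f g)) := by
    intro s hs1 f g hf1 hg1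
    obtain ⟨C3, hC3, hw⟩ := (hNc b hb).2.2 f g t hf1 hg1
    have e1 : Tendsto (fun n => (inner ℝ (γ (φ n) s) (Theta (-sig b) f g) : ℝ)) atTop
        (𝓝 (inner ℝ (k s) (Theta (-sig b) f g))) := hkw s hs1 (Theta (-sig b) f g)
    have e2 : Tendsto (fun n => (inner ℝ (γ (φ n) 0) (tau (0 - s) (Theta (-sig b) f g)) : ℝ)) atTop
        (𝓝 0) := by
      have h1 := hkw 0 h0t (tau (0 - s) (Theta (-sig b) f g))
      rw [hk0, inner_zero_left] at h1
      exact h1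
    have hsub : uIoc 0 s ⊆ Icc 0 t := fun r hr =>
      ordConnected_Icc.uIcc_subset h0t hs1 (uIoc_subset_uIcc hr)
    have e3 : Tendsto (fun n => ∫ r in (0 : ℝ)..s,
        (inner ℝ (NL b (γ (φ n) r)) (tau (r - s) (Theta (-sig b) f g)) : ℝ)) atTop
        (𝓝 (∫ r in (0 : ℝ)..s, inner ℝ (NL b (k r)) (tau (r - s) (Theta (-sig b) f g)))) := by
      refine intervalIntegral.tendsto_integral_filter_of_dominated_convergence
        (fun _ => C3 * A ^ (b + 1)) ?_ ?_ intervalIntegrable_const ?_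
      · exact Eventually.of_forall fun n =>
          (pair_meas hG s (Theta (-sig b) f g) (hi (φ n))).mono_measure (Measure.restrict_mono_set _ hsub)
      · exact Eventually.of_forall fun n => pair_bd hb hC3 hw (hn (φ n)) (hf (φ n)) hs1 h0t
      · have h1 := (ae_restrict_iff' measurableSet_Icc).1 (ae_all_iff.2 fun n => hf (φ n))
        have h2 := (ae_restrict_iff' measurableSet_Icc).1 hkf
        filter_upwards [h1, h2] with r hr1 hr2 hr3
        have hr := hsub hr3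
        obtain ⟨⟨f', g', hf', hg', he, -⟩, -⟩ := hF (-sig b) f g (r - s) (nsig_lt hb) hf1 hg1
        rw [he]
        exact (hNc b hb).2.1 _ _ f' g' hf' hg' (hkw r hr) (hr1 hr) (hr2 hr)
    have e4 := e2.sub e3
    have e5 : (fun n => (inner ℝ (γ (φ n) 0) (tau (0 - s) (Theta (-sig b) f g)) : ℝ) -
        ∫ r in (0 : ℝ)..s, (inner ℝ (NL b (γ (φ n) r)) (tau (r - s) (Theta (-sig b) f g)) : ℝ)) =
        fun n => inner ℝ (γ (φ n) s) (Theta (-sig b) f g) :=
      funext fun n => (wduh hG (hs (φ n)) (hi (φ n)) h0t hs1 (Theta (-sig b) f g)).symm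
    rw [e5, zero_sub] at e4
    exact tendsto_nhds_unique e1 e4
  have hadj := hG.2.2.2.2.2.1
  have hkd : ∀ s ∈ Icc 0 t, k s = - ∫ r in (0 : ℝ)..s, tau (s - r) (NL b (k r)) := by
    intro s hs1
    refine ext_inner_right ℝ fun v => ?_
    have h1 : Continuous fun v : K => (inner ℝ (k s) v : ℝ) := continuous_const.inner continuous_id
    have h2 : Continuous fun v : K =>
        (inner ℝ (- ∫ r in (0 : ℝ)..s, tau (s - r) (NL b (k r))) v : ℝ) :=
      continuous_const.inner continuous_id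
    refine congrFun (Continuous.ext_on (dense_theta hb hD) h1 h2 ?_) v
    rintro w ⟨f, g, hf1, hg1, rfl⟩
    show (inner ℝ (k s) (Theta (-sig b) f g) : ℝ) = inner ℝ (- ∫ r in (0 : ℝ)..s, tau (s - r) (NL b (k r)))
      (Theta (-sig b) f g)
    rw [hlim s hs1 f g hf1 hg1, inner_neg_left, inner_int (ii_tau hG hki s h0t hs1)]
    congr 1
    refine intervalIntegral.integral_congr fun r _ => ?_
    show inner ℝ (NL b (k r)) (tau (r - s) (Theta (-sig b) f g)) = inner ℝ (tau (s - r) (NL b (k r))) (Theta (-sig b) f g)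
    rw [hadj, neg_sub]
  have hsol := sol_of hG hDu hb ht hki hkSt hkd
  have hz := hU b hb (Icc 0 t) (Icc 0 t) k (fun _ => 0) 0 hsol (zero_sol hb hSn hC1 t) h0t h0t hk0 t htt htt
  have h1 := hkw t htt
  rw [hz] at h1
  exact h1

end G5x

open G5x

/-- **G5** -/
theorem thm_G5 (hWS : Pool.Agent.QWE.St_WkS) (hWC : Pool.Agent.QWE.St_WkC) (hNc : St_NLc)
    (hNb : St_NLb) (hM : St_Meas) (hU : St_Uniq) (hDu : St_DuhI) (hF : St_FreeP) (hD : St_DnsP)
    (hG : Pool.Agent.QWE.St_Grp1) (hSn : St_SnP) : St_G5 := by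
  intro b hb A M T β hβ t ht
  by_contra hcon
  obtain ⟨w, ε, φ, hε, hφ, hbb⟩ := hWS.2.2.2.2.2.2.2.2 _ _ hcon
  have hT : ∀ n, t ≤ T (φ n) := by
    intro n
    by_contra hc
    have h1 := hbb n
    simp only [if_neg hc, sub_self, abs_zero] at h1
    linarith
  have hsub : ∀ n, Icc 0 t ⊆ Icc 0 (T (φ n)) := fun n => Icc_subset_Icc le_rfl (hT n)
  obtain ⟨ψ, hψ, h2⟩ := core hWS hWC hNc hNb hM hU hDu hF hD hG hSn hb (A := A) (M := M) ht
    (γ := fun n => β (φ n))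
    (fun n => by
      obtain ⟨-, ⟨-, h3, h4, h5⟩, -⟩ := hβ.1 (φ n)
      exact ⟨ordConnected_Icc, h3.mono (hsub n), fun x hx y hy => h4 x (hsub n hx) y (hsub n hy),
        fun x hx y hy => h5 x (hsub n hx) y (hsub n hy)⟩)
    (fun n s hs => (hβ.1 (φ n)).2.2.1 s (hsub n hs))
    (fun n => (lintegral_mono_set (hsub n)).trans (hβ.1 (φ n)).2.2.2)
    (hWS.2.2.2.1 (fun n => β n 0) 0 φ hβ.2 hφ)
  have h3 := h2 w
  rw [inner_zero_left] at h3
  have h4 : ∀ᶠ n in atTop, |(inner ℝ (β (φ (ψ n)) t) w : ℝ)| < ε := by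
    have h5 := h3.abs
    rw [abs_zero] at h5
    exact h5.eventually (gt_mem_nhds hε)
  obtain ⟨n, hn⟩ := h4.exists
  have h5 := hbb (ψ n)
  simp only [if_pos (hT (ψ n)), inner_zero_left, sub_zero] at h5
  linarith

end Pool.Agent.QWP
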