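import Pool.Agent.QWP.StG

set_option autoImplicit false

/-!
# QWP, G6: shell estimate (polar coordinates)
-/

open MeasureTheory Filter Topology Set
open scoped ENNReal NNReal RealInnerProductSpace

namespace Pool.Agent.QWP

open Pool.Agent.QWE (E S sg mu K toK tau sh dl rev gr ig IsTest pd lap Rad dRad Rk dRk c0 WD Sm SmE IsSch half shr WTo resc)

namespace G6x

/-- polar coordinates -/
private lemma polar (h : E → ℝ≥0∞) (hm : Measurable h) :
    ∫⁻ w : S, ∫⁻ s in Ioi (0 : ℝ), ENNReal.ofReal (s ^ 4) * h (s • (w : E)) ∂volume ∂sg = ∫⁻ x, h x := by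
  have hmp := (volume : Measure E).measurePreserving_homeomorphUnitSphereProd
  have hdim : Module.finrank ℝ E - 1 = 4 := by simp [E]
  rw [hdim] at hmp
  have hval : ∀ x : ({0}ᶜ : Set E), (((homeomorphUnitSphereProd E x).2 : ℝ)) •
      ((homeomorphUnitSphereProd E x).1 : E) = (x : E) := by
    intro x
    exact congrArg (fun y : ({0}ᶜ : Set E) => (y : E))
      ((homeomorphUnitSphereProd E).symm_apply_apply x)
  have hg : Measurable fun z : S × Ioi (0 : ℝ) => h ((z.2 : ℝ) • (z.1 : E)) := by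
    refine hm.comp ?_
    fun_prop
  have hin : ∀ w : S, ∫⁻ s : Ioi (0 : ℝ), h ((s : ℝ) • (w : E)) ∂(Measure.volumeIoiPow 4) =
      ∫⁻ s in Ioi (0 : ℝ), ENNReal.ofReal (s ^ 4) * h (s • (w : E)) := by
    intro w
    have hf : Measurable fun s : Ioi (0 : ℝ) => ENNReal.ofReal ((s : ℝ) ^ 4) := by fun_prop
    have hh : Measurable fun s : Ioi (0 : ℝ) => h ((s : ℝ) • (w : E)) := by
      refine hm.comp ?_
      fun_prop
    rw [Measure.volumeIoiPow, lintegral_withDensity_eq_lintegral_mul _ hf hh,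
      ← lintegral_subtype_comap measurableSet_Ioi fun s : ℝ => ENNReal.ofReal (s ^ 4) * h (s • (w : E))]
    rfl
  calc ∫⁻ w : S, ∫⁻ s in Ioi (0 : ℝ), ENNReal.ofReal (s ^ 4) * h (s • (w : E)) ∂volume ∂sg
      = ∫⁻ w : S, ∫⁻ s : Ioi (0 : ℝ), h ((s : ℝ) • (w : E)) ∂(Measure.volumeIoiPow 4) ∂sg :=
        lintegral_congr fun w => (hin w).symm
    _ = ∫⁻ z : S × Ioi (0 : ℝ), h ((z.2 : ℝ) • (z.1 : E)) ∂(sg.prod (Measure.volumeIoiPow 4)) :=
        (lintegral_prod _ hg.aemeasurable).symm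
    _ = ∫⁻ x : ({0}ᶜ : Set E), h x ∂((volume : Measure E).comap (↑)) := by
        rw [← hmp.lintegral_comp hg]
        exact lintegral_congr fun x => by rw [hval]
    _ = ∫⁻ x, h x := by
        rw [lintegral_subtype_comap (measurableSet_singleton _).compl fun x => h x,
          restrict_compl_singleton]

private lemma dir (f : E → ℝ) (x : E) (w : S) :
    ‖fderiv ℝ f x (w : E)‖ₑ ≤ ∑ i, ‖pd i f x‖ₑ := by
  have h1 : (w : E) = ∑ i, (w : E) i • (EuclideanSpace.single i (1 : ℝ) : E) := by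
    have := ((EuclideanSpace.basisFun (Fin 5) ℝ).sum_repr (w : E)).symm
    simpa using this
  have h2 : fderiv ℝ f x (w : E) = ∑ i, (w : E) i * pd i f x := by
    conv_lhs => rw [h1]
    rw [map_sum]
    refine Finset.sum_congr rfl fun i _ => ?_
    rw [map_smul, smul_eq_mul, pd]
  rw [h2]
  refine (enorm_sum_le _ _).trans ?_
  refine Finset.sum_le_sum fun i _ => ?_
  rw [enorm_mul]
  have h3 : ‖(w : E) i‖ₑ ≤ 1 := by
    have h4 := PiLp.norm_apply_le (w : E) i
    have h5 : ‖(w : E)‖ = 1 := by simp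
    rw [h5] at h4
    rw [← ofReal_norm]
    exact ENNReal.ofReal_le_one.2 h4
  calc ‖(w : E) i‖ₑ * ‖pd i f x‖ₑ ≤ 1 * ‖pd i f x‖ₑ := by gcongr
    _ = ‖pd i f x‖ₑ := one_mul _

/-- the density on rays -/
private noncomputable def H (b : ℝ) (f : E → ℝ) (x : E) : ℝ≥0∞ :=
  ‖f x‖ₑ ^ (2 * b - 1) * ∑ i, ‖pd i f x‖ₑ

private lemma pd_cont {f : E → ℝ} (hf : IsTest f) (i : Fin 5) : Continuous (pd i f) := by
  have h := hf.1.continuous_fderiv (by simp)
  unfold pd
  exact h.clm_apply continuous_const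

private lemma H_meas (b : ℝ) {f : E → ℝ} (hf : IsTest f) : Measurable (H b f) := by
  have h1 : ∀ i, Measurable (pd i f) := fun i => (pd_cont hf i).measurable
  have h2 : Measurable f := hf.1.continuous.measurable
  unfold H
  refine (h2.enorm.pow_const _).mul ?_
  exact Finset.measurable_sum _ fun i _ => (h1 i).enorm

private lemma enorm_abs_rpow (u : ℝ) {c : ℝ} (hc : 0 ≤ c) : ‖|u| ^ c‖ₑ = ‖u‖ₑ ^ c := by
  rw [Real.enorm_eq_ofReal (by positivity), Real.enorm_eq_ofReal_abs,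
    ENNReal.ofReal_rpow_of_nonneg (abs_nonneg _) hc]

private lemma ray {b : ℝ} (hb : 2 < b) {f : E → ℝ} (hf : IsTest f) (w : S) {ρ : ℝ} (hρ : 0 < ρ) :
    ENNReal.ofReal (ρ ^ 4) * ‖f (ρ • (w : E))‖ₑ ^ (2 * b) ≤
      ENNReal.ofReal (2 * b) *
        ∫⁻ s in Ioi (0 : ℝ), ENNReal.ofReal (s ^ 4) * H b f (s • (w : E)) := by
  have hb0 : 0 < b := by linarith
  have hw : ‖(w : E)‖ = 1 := by simp
  obtain ⟨R, hR⟩ := hf.2.isCompact.isBounded.exists_norm_le
  have hz : f ((max R ρ + 1) • (w : E)) = 0 := by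
    by_contra hne
    have h1 := hR _ (subset_tsupport f (Function.mem_support.2 hne))
    rw [norm_smul, hw, mul_one, Real.norm_eq_abs, abs_of_pos (by linarith [le_max_right R ρ])] at h1
    linarith [le_max_left R ρ]
  set N := max R ρ + 1 with hN
  have hρN : ρ ≤ N := by rw [hN]; linarith [le_max_right R ρ]
  have hdf : Differentiable ℝ f := hf.1.differentiable (by simp)
  have hD : ∀ s : ℝ, HasDerivAt (fun s : ℝ => |f (s • (w : E))| ^ (2 * b))
      ((2 * b) * |f (s • (w : E))| ^ (2 * b - 2) * f (s • (w : E)) *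
        fderiv ℝ f (s • (w : E)) (w : E)) s := by
    intro s
    have h1 : HasDerivAt (fun s : ℝ => s • (w : E)) ((1 : ℝ) • (w : E)) s :=
      (hasDerivAt_id s).smul_const (w : E)
    have h2 : HasDerivAt (fun s : ℝ => f (s • (w : E))) (fderiv ℝ f (s • (w : E)) (w : E)) s := by
      have h3 := (hdf (s • (w : E))).hasFDerivAt.comp_hasDerivAt s h1
      rwa [one_smul] at h3
    exact (hasDerivAt_abs_rpow (f (s • (w : E))) (by linarith : 1 < 2 * b)).comp s h2
  have hcf : Continuous (fderiv ℝ f) := hf.1.continuous_fderiv (by simp)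
  have hfc : Continuous f := hf.1.continuous
  have hc : Continuous fun s : ℝ => (2 * b) * |f (s • (w : E))| ^ (2 * b - 2) * f (s • (w : E)) *
      fderiv ℝ f (s • (w : E)) (w : E) := by
    have h1 : Continuous fun s : ℝ => fderiv ℝ f (s • (w : E)) := hcf.comp (by fun_prop)
    have h2 : Continuous fun s : ℝ => fderiv ℝ f (s • (w : E)) (w : E) :=
      h1.clm_apply continuous_const
    have h3 : Continuous fun s : ℝ => f (s • (w : E)) := by fun_prop
    have h4 : Continuous fun s : ℝ => |f (s • (w : E))| ^ (2 * b - 2) :=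
      h3.abs.rpow_const fun _ => Or.inr (by linarith)
    exact ((continuous_const.mul h4).mul h3).mul h2
  have hI := intervalIntegral.integral_eq_sub_of_hasDerivAt (fun s _ => hD s)
    (hc.intervalIntegrable ρ N)
  rw [hz, intervalIntegral.integral_of_le hρN, abs_zero, Real.zero_rpow (by linarith), zero_sub]
    at hI
  have h1 : ‖f (ρ • (w : E))‖ₑ ^ (2 * b) ≤
      ∫⁻ s in Ioc ρ N, ‖(2 * b) * |f (s • (w : E))| ^ (2 * b - 2) * f (s • (w : E)) *
        fderiv ℝ f (s • (w : E)) (w : E)‖ₑ := by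
    have h2 := enorm_integral_le_lintegral_enorm (μ := volume.restrict (Ioc ρ N))
      (fun s : ℝ => (2 * b) * |f (s • (w : E))| ^ (2 * b - 2) * f (s • (w : E)) *
        fderiv ℝ f (s • (w : E)) (w : E))
    rw [hI, enorm_neg, enorm_abs_rpow _ (by linarith)] at h2
    exact h2
  calc ENNReal.ofReal (ρ ^ 4) * ‖f (ρ • (w : E))‖ₑ ^ (2 * b)
      ≤ ENNReal.ofReal (ρ ^ 4) *
        ∫⁻ s in Ioc ρ N, ‖(2 * b) * |f (s • (w : E))| ^ (2 * b - 2) * f (s • (w : E)) *
          fderiv ℝ f (s • (w : E)) (w : E)‖ₑ := by gcongr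
    _ = ∫⁻ s in Ioc ρ N, ENNReal.ofReal (ρ ^ 4) *
        ‖(2 * b) * |f (s • (w : E))| ^ (2 * b - 2) * f (s • (w : E)) *
          fderiv ℝ f (s • (w : E)) (w : E)‖ₑ := by
        rw [lintegral_const_mul _ hc.measurable.enorm]
    _ ≤ ∫⁻ s in Ioc ρ N, ENNReal.ofReal (2 * b) *
        (ENNReal.ofReal (s ^ 4) * H b f (s • (w : E))) := by
        refine setLIntegral_mono' measurableSet_Ioc fun s hs => ?_
        have h3 : ENNReal.ofReal (ρ ^ 4) ≤ ENNReal.ofReal (s ^ 4) :=
          ENNReal.ofReal_le_ofReal (pow_le_pow_left₀ hρ.le hs.1.le 4)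
        have h4 := dir f (s • (w : E)) w
        have h5 : ‖(2 * b : ℝ)‖ₑ = ENNReal.ofReal (2 * b) := Real.enorm_eq_ofReal (by linarith)
        have h6 : ‖(2 * b) * |f (s • (w : E))| ^ (2 * b - 2) * f (s • (w : E)) *
            fderiv ℝ f (s • (w : E)) (w : E)‖ₑ = ENNReal.ofReal (2 * b) *
              ‖f (s • (w : E))‖ₑ ^ (2 * b - 1) * ‖fderiv ℝ f (s • (w : E)) (w : E)‖ₑ := by
          rw [enorm_mul, enorm_mul, enorm_mul, h5, enorm_abs_rpow _ (by linarith)]
          have h7 : ‖f (s • (w : E))‖ₑ ^ (2 * b - 1) =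
              ‖f (s • (w : E))‖ₑ ^ (2 * b - 2) * ‖f (s • (w : E))‖ₑ := by
            have h8 : 2 * b - 1 = (2 * b - 2) + 1 := by ring
            rw [h8, ENNReal.rpow_add_of_nonneg _ _ (by linarith) (by norm_num),
              ENNReal.rpow_one]
          rw [h7]
          ring
        rw [h6, H]
        calc ENNReal.ofReal (ρ ^ 4) * (ENNReal.ofReal (2 * b) *
              ‖f (s • (w : E))‖ₑ ^ (2 * b - 1) * ‖fderiv ℝ f (s • (w : E)) (w : E)‖ₑ)
            ≤ ENNReal.ofReal (s ^ 4) * (ENNReal.ofReal (2 * b) *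
              ‖f (s • (w : E))‖ₑ ^ (2 * b - 1) * ∑ i, ‖pd i f (s • (w : E))‖ₑ) := by gcongr
          _ = _ := by ring
    _ ≤ ∫⁻ s in Ioi (0 : ℝ), ENNReal.ofReal (2 * b) *
        (ENNReal.ofReal (s ^ 4) * H b f (s • (w : E))) :=
        lintegral_mono_set fun s hs => hρ.trans hs.1
    _ = ENNReal.ofReal (2 * b) *
        ∫⁻ s in Ioi (0 : ℝ), ENNReal.ofReal (s ^ 4) * H b f (s • (w : E)) := by
        refine lintegral_const_mul _ ?_
        have h6 : Measurable fun s : ℝ => H b f (s • (w : E)) := (H_meas b hf).comp (by fun_prop)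
        fun_prop

private lemma shell {b : ℝ} (hb : 2 < b) {f : E → ℝ} (hf : IsTest f) (r M : ℝ) :
    ∫⁻ x in {x : E | |‖x‖ - r| ≤ M}, ‖f x‖ₑ ^ (2 * b) ≤
      ENNReal.ofReal (2 * b * (2 * M)) * ∫⁻ x, H b f x := by
  have hms : MeasurableSet {x : E | |‖x‖ - r| ≤ M} :=
    measurableSet_le (by fun_prop) measurable_const
  have hfm : Measurable f := hf.1.continuous.measurable
  rw [← lintegral_indicator hms]
  have hind : Measurable ({x : E | |‖x‖ - r| ≤ M}.indicator fun x => ‖f x‖ₑ ^ (2 * b)) :=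
    Measurable.indicator (hfm.enorm.pow_const _) hms
  rw [← polar _ hind]
  have h0 : ∀ w : S, ∫⁻ s in Ioi (0 : ℝ), ENNReal.ofReal (s ^ 4) *
      {x : E | |‖x‖ - r| ≤ M}.indicator (fun x => ‖f x‖ₑ ^ (2 * b)) (s • (w : E)) ≤
      ENNReal.ofReal (2 * b * (2 * M)) *
        ∫⁻ s in Ioi (0 : ℝ), ENNReal.ofReal (s ^ 4) * H b f (s • (w : E)) := by
    intro w
    have hw : ‖(w : E)‖ = 1 := by simp
    set J := ∫⁻ s in Ioi (0 : ℝ), ENNReal.ofReal (s ^ 4) * H b f (s • (w : E)) with hJ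
    calc ∫⁻ s in Ioi (0 : ℝ), ENNReal.ofReal (s ^ 4) *
          {x : E | |‖x‖ - r| ≤ M}.indicator (fun x => ‖f x‖ₑ ^ (2 * b)) (s • (w : E))
        ≤ ∫⁻ s in Ioi (0 : ℝ), (Icc (r - M) (r + M)).indicator
            (fun _ => ENNReal.ofReal (2 * b) * J) s := by
          refine setLIntegral_mono' measurableSet_Ioi fun s hs => ?_
          have hs0 : (0 : ℝ) < s := hs
          have hn : ‖s • (w : E)‖ = s := by
            rw [norm_smul, hw, mul_one, Real.norm_eq_abs, abs_of_pos hs0]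
          by_cases hsm : |s - r| ≤ M
          · have h1 : s • (w : E) ∈ {x : E | |‖x‖ - r| ≤ M} := by
              simp only [Set.mem_ofPred_eq, hn]; exact hsm
            have h2 : s ∈ Icc (r - M) (r + M) := by
              rw [abs_le] at hsm
              exact ⟨by linarith [hsm.1], by linarith [hsm.2]⟩
            rw [indicator_of_mem h1, indicator_of_mem h2]
            exact ray hb hf w hs0
          · have h1 : s • (w : E) ∉ {x : E | |‖x‖ - r| ≤ M} := by
              simp only [Set.mem_ofPred_eq, hn]; exact hsm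
            rw [indicator_of_notMem h1, mul_zero]
            exact bot_le
      _ ≤ ∫⁻ s : ℝ, (Icc (r - M) (r + M)).indicator (fun _ => ENNReal.ofReal (2 * b) * J) s :=
          setLIntegral_le_lintegral _ _
      _ = ENNReal.ofReal (2 * b) * J * ENNReal.ofReal (2 * M) := by
          rw [lintegral_indicator measurableSet_Icc, lintegral_const, Measure.restrict_apply_univ,
            Real.volume_Icc]
          congr 2; ring
      _ = ENNReal.ofReal (2 * b * (2 * M)) * J := by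
          rw [ENNReal.ofReal_mul (p := 2 * b) (q := 2 * M) (by linarith)]
          generalize ENNReal.ofReal (2 * b) = A
          generalize ENNReal.ofReal (2 * M) = B
          ring
  refine (lintegral_mono h0).trans ?_
  rw [lintegral_const_mul', polar _ (H_meas b hf)]
  exact ENNReal.ofReal_ne_top

theorem abs_sg {b : ℝ} (hb : 2 < b) : |sig b| < 1 / 2 := by
  rw [sig, abs_lt]
  have h1 : 0 < 2 / b := by positivity
  have h2 : 2 / b < 1 := by rw [div_lt_one (by linarith)]; exact hb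
  constructor <;> linarith

theorem q0_sig {b : ℝ} (hb : 2 < b) : q0 (sig b) = ENNReal.ofReal (5 * b / 2) := by
  rw [q0, sig]
  congr 1
  have : b ≠ 0 := by linarith
  field_simp
  ring

theorem q1_sig {b : ℝ} (hb : 2 < b) : q1 (sig b) = ENNReal.ofReal (5 * b / (b + 2)) := by
  rw [q1, sig]
  congr 1
  have : b ≠ 0 := by linarith
  have : b + 2 ≠ 0 := by linarith
  have h1 : 3 - 2 * (1 / 2 - 2 / b) = 2 * (b + 2) / b := by
    field_simp
    ring
  rw [h1]
  field_simp
  ring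

private lemma holder {b : ℝ} (hb : 2 < b) {f : E → ℝ} (hf : IsTest f) :
    ∫⁻ x, H b f x ≤ eLpNorm f (q0 (sig b)) volume ^ (2 * b - 1) *
      ∑ i, eLpNorm (pd i f) (q1 (sig b)) volume := by
  have hb0 : 0 < b := by linarith
  have hb1 : 0 < 2 * b - 1 := by linarith
  have hb2 : 0 < b + 2 := by linarith
  have hfm : Measurable f := hf.1.continuous.measurable
  have hpm : ∀ i, Measurable (pd i f) := fun i => (pd_cont hf i).measurable
  have n1 : ENNReal.ofReal (5 * b / 2) ≠ 0 := by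
    rw [Ne, ENNReal.ofReal_eq_zero, not_le]; positivity
  have n2 : ENNReal.ofReal (5 * b / (b + 2)) ≠ 0 := by
    rw [Ne, ENNReal.ofReal_eq_zero, not_le]; positivity
  have hi : ∀ i, ∫⁻ x, ‖f x‖ₑ ^ (2 * b - 1) * ‖pd i f x‖ₑ ≤
      eLpNorm f (q0 (sig b)) volume ^ (2 * b - 1) * eLpNorm (pd i f) (q1 (sig b)) volume := by
    intro i
    have hpq : (5 * b / 2 / (2 * b - 1) : ℝ).HolderConjugate (5 * b / (b + 2)) := by
      rw [Real.holderConjugate_iff]
      constructor
      · rw [div_div, one_lt_div (by positivity)]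
        linarith
      · field_simp
        ring
    have h := ENNReal.lintegral_mul_le_Lp_mul_Lq volume hpq
      (f := fun x => ‖f x‖ₑ ^ (2 * b - 1)) (g := fun x => ‖pd i f x‖ₑ)
      (hfm.enorm.pow_const _).aemeasurable (hpm i).enorm.aemeasurable
    refine h.trans (le_of_eq ?_)
    rw [q0_sig hb, q1_sig hb, eLpNorm_eq_lintegral_rpow_enorm_toReal n1 ENNReal.ofReal_ne_top,
      eLpNorm_eq_lintegral_rpow_enorm_toReal n2 ENNReal.ofReal_ne_top,
      ENNReal.toReal_ofReal (by positivity), ENNReal.toReal_ofReal (by positivity)]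
    have e4 : ∀ x, (‖f x‖ₑ ^ (2 * b - 1)) ^ (5 * b / 2 / (2 * b - 1)) = ‖f x‖ₑ ^ (5 * b / 2) := by
      intro x
      rw [← ENNReal.rpow_mul]
      congr 1
      field_simp
    simp_rw [e4]
    congr 1
    rw [← ENNReal.rpow_mul]
    congr 1
    field_simp
  calc ∫⁻ x, H b f x = ∫⁻ x, ∑ i, ‖f x‖ₑ ^ (2 * b - 1) * ‖pd i f x‖ₑ :=
        lintegral_congr fun x => by rw [H, Finset.mul_sum]
    _ = ∑ i, ∫⁻ x, ‖f x‖ₑ ^ (2 * b - 1) * ‖pd i f x‖ₑ := by
        refine lintegral_finsetSum _ fun i _ => ?_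
        exact (hfm.enorm.pow_const _).mul (hpm i).enorm
    _ ≤ ∑ i, eLpNorm f (q0 (sig b)) volume ^ (2 * b - 1) *
        eLpNorm (pd i f) (q1 (sig b)) volume := Finset.sum_le_sum fun i _ => hi i
    _ = _ := by rw [Finset.mul_sum]

end G6x

open G6x in
theorem thm_G6 (hDens : St_DnsP) (hFld : St_FldP) : St_G6 := by
  intro b hb
  have hb0 : 0 < b := by linarith
  obtain ⟨C0, hC0, hF, hLin, hTh⟩ := hFld (sig b) (abs_sg hb)
  refine ⟨20 * b * C0 ^ (2 * b), by positivity, ?_⟩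
  intro k r M hM
  have ht : ∀ f g : E → ℝ, IsTest f → IsTest g →
      ∫⁻ x in {x : E | |‖x‖ - r| ≤ M}, ‖f x‖ₑ ^ (2 * b) ≤
        ENNReal.ofReal (20 * b * C0 ^ (2 * b) * M) * ‖Theta (sig b) f g‖ₑ ^ (2 * b) := by
    intro f g hf hg
    have h1 : eLpNorm f (q0 (sig b)) volume ≤ ENNReal.ofReal C0 * ‖Theta (sig b) f g‖ₑ := by
      rw [← eLpNorm_congr_ae (hTh f g hf hg).1]
      exact (hF (Theta (sig b) f g)).2.1
    have h2 : ∀ i, eLpNorm (pd i f) (q1 (sig b)) volume ≤
        ENNReal.ofReal C0 * ‖Theta (sig b) f g‖ₑ := by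
      intro i
      rw [← eLpNorm_congr_ae ((hTh f g hf hg).2.2 i)]
      exact ((hF (Theta (sig b) f g)).2.2.2.2.1 i).2.2
    have h3 : ∑ i, eLpNorm (pd i f) (q1 (sig b)) volume ≤
        5 * (ENNReal.ofReal C0 * ‖Theta (sig b) f g‖ₑ) := by
      refine (Finset.sum_le_sum fun i _ => h2 i).trans ?_
      rw [Finset.sum_const, Finset.card_univ, Fintype.card_fin, nsmul_eq_mul]
      norm_num
    calc ∫⁻ x in {x : E | |‖x‖ - r| ≤ M}, ‖f x‖ₑ ^ (2 * b)
        ≤ ENNReal.ofReal (2 * b * (2 * M)) * ∫⁻ x, H b f x := shell hb hf r M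
      _ ≤ ENNReal.ofReal (2 * b * (2 * M)) *
          ((ENNReal.ofReal C0 * ‖Theta (sig b) f g‖ₑ) ^ (2 * b - 1) *
            (5 * (ENNReal.ofReal C0 * ‖Theta (sig b) f g‖ₑ))) := by
          refine mul_le_mul' le_rfl ((holder hb hf).trans (mul_le_mul' ?_ h3))
          exact ENNReal.rpow_le_rpow h1 (by linarith)
      _ = ENNReal.ofReal (20 * b * C0 ^ (2 * b) * M) * ‖Theta (sig b) f g‖ₑ ^ (2 * b) := by
          have e1 : (20 : ℝ) * b * C0 ^ (2 * b) * M = 5 * (C0 ^ (2 * b) * (2 * b * (2 * M))) := by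
            ring
          have e2 : ENNReal.ofReal 5 = 5 := by norm_num
          have e3 : (ENNReal.ofReal C0 * ‖Theta (sig b) f g‖ₑ) ^ (2 * b) =
              (ENNReal.ofReal C0 * ‖Theta (sig b) f g‖ₑ) ^ (2 * b - 1) *
                (ENNReal.ofReal C0 * ‖Theta (sig b) f g‖ₑ) := by
            have h8 : 2 * b = (2 * b - 1) + 1 := by ring
            conv_lhs => rw [h8]
            rw [ENNReal.rpow_add_of_nonneg _ _ (by linarith) (by norm_num), ENNReal.rpow_one]
          have e4 : (ENNReal.ofReal C0 * ‖Theta (sig b) f g‖ₑ) ^ (2 * b) =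
              ENNReal.ofReal (C0 ^ (2 * b)) * ‖Theta (sig b) f g‖ₑ ^ (2 * b) := by
            rw [ENNReal.mul_rpow_of_nonneg _ _ (by linarith),
              ENNReal.ofReal_rpow_of_nonneg hC0.le (by linarith)]
          rw [e1, ENNReal.ofReal_mul (p := 5) (by norm_num), e2,
            ENNReal.ofReal_mul (p := C0 ^ (2 * b)) (by positivity)]
          calc ENNReal.ofReal (2 * b * (2 * M)) *
                ((ENNReal.ofReal C0 * ‖Theta (sig b) f g‖ₑ) ^ (2 * b - 1) *
                  (5 * (ENNReal.ofReal C0 * ‖Theta (sig b) f g‖ₑ)))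
              = 5 * ENNReal.ofReal (2 * b * (2 * M)) *
                ((ENNReal.ofReal C0 * ‖Theta (sig b) f g‖ₑ) ^ (2 * b - 1) *
                  (ENNReal.ofReal C0 * ‖Theta (sig b) f g‖ₑ)) := by ring
            _ = _ := by
                rw [← e3, e4]
                ring
  choose f g hf hg hfg using fun n : ℕ =>
    (hDens (sig b) (abs_sg hb)).2.1 k (1 / ((n : ℝ) + 1)) (by positivity)
  have hlim : Tendsto (fun n => Theta (sig b) (f n) (g n)) atTop (𝓝 k) := by
    rw [tendsto_iff_norm_sub_tendsto_zero]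
    refine squeeze_zero (fun n => norm_nonneg _) (fun n => ?_)
      (tendsto_one_div_add_atTop_nhds_zero_nat (𝕜 := ℝ))
    rw [norm_sub_rev]
    exact (hfg n).le
  have hL : Tendsto (fun n => eLpNorm (f n - U (sig b) k) (q0 (sig b)) volume) atTop (𝓝 0) := by
    have h1 : ∀ n, eLpNorm (f n - U (sig b) k) (q0 (sig b)) volume ≤
        ENNReal.ofReal C0 * ‖Theta (sig b) (f n) (g n) - k‖ₑ := by
      intro n
      have h2 := (hLin (-1) (Theta (sig b) (f n) (g n)) k).1
      have h3 := (hTh (f n) (g n) (hf n) (hg n)).1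
      have h4 : Theta (sig b) (f n) (g n) + (-1 : ℝ) • k = Theta (sig b) (f n) (g n) - k := by
        rw [neg_one_smul, sub_eq_add_neg]
      rw [h4] at h2
      have h5 : (f n - U (sig b) k) =ᵐ[volume] U (sig b) (Theta (sig b) (f n) (g n) - k) := by
        filter_upwards [h2, h3] with x h6 h7
        rw [h6, h7, Pi.sub_apply]; ring
      rw [eLpNorm_congr_ae h5]
      exact (hF _).2.1
    have h2 : Tendsto (fun n => ENNReal.ofReal C0 * ‖Theta (sig b) (f n) (g n) - k‖ₑ) atTop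
        (𝓝 0) := by
      have h3 : Tendsto (fun n => Theta (sig b) (f n) (g n) - k) atTop (𝓝 0) := by
        simpa using hlim.sub_const k
      have h4 : Tendsto (fun n => ‖Theta (sig b) (f n) (g n) - k‖ₑ) atTop (𝓝 0) := by
        have h6 : Tendsto (fun n => ‖Theta (sig b) (f n) (g n) - k‖ₑ) atTop (𝓝 ‖(0 : K)‖ₑ) :=
          ((continuous_enorm (E := K)).tendsto 0).comp h3
        rwa [enorm_zero] at h6
      have h5 := ENNReal.Tendsto.const_mul h4 (Or.inr (ENNReal.ofReal_ne_top (r := C0)))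
      simpa using h5
    exact tendsto_of_tendsto_of_tendsto_of_le_of_le tendsto_const_nhds h2
      (fun n => bot_le) h1
  have hq0 : q0 (sig b) ≠ 0 := by
    rw [q0_sig hb, Ne, ENNReal.ofReal_eq_zero, not_le]; positivity
  have hmeas : TendstoInMeasure volume f atTop (U (sig b) k) :=
    tendstoInMeasure_of_tendsto_eLpNorm hq0
      (fun n => (hf n).1.continuous.aestronglyMeasurable) (hF k).1.1.1 hL
  obtain ⟨ns, hns, hae⟩ := hmeas.exists_seq_tendsto_ae
  have hR : Tendsto (fun n => ENNReal.ofReal (20 * b * C0 ^ (2 * b) * M) *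
      ‖Theta (sig b) (f (ns n)) (g (ns n))‖ₑ ^ (2 * b)) atTop
      (𝓝 (ENNReal.ofReal (20 * b * C0 ^ (2 * b) * M) * ‖k‖ₑ ^ (2 * b))) := by
    have h1 : Tendsto (fun n => ‖Theta (sig b) (f (ns n)) (g (ns n))‖ₑ) atTop (𝓝 ‖k‖ₑ) :=
      ((continuous_enorm (E := K)).tendsto k).comp (hlim.comp hns.tendsto_atTop)
    exact ENNReal.Tendsto.const_mul
      (((ENNReal.continuous_rpow_const (y := 2 * b)).tendsto _).comp h1)
      (Or.inr ENNReal.ofReal_ne_top)
  calc ∫⁻ x in {x : E | |‖x‖ - r| ≤ M}, ‖U (sig b) k x‖ₑ ^ (2 * b)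
      = ∫⁻ x in {x : E | |‖x‖ - r| ≤ M}, liminf (fun n => ‖f (ns n) x‖ₑ ^ (2 * b)) atTop := by
        refine lintegral_congr_ae ?_
        filter_upwards [ae_restrict_of_ae hae] with x hx
        have h1 : Tendsto (fun n => ‖f (ns n) x‖ₑ ^ (2 * b)) atTop
            (𝓝 (‖U (sig b) k x‖ₑ ^ (2 * b))) :=
          ((ENNReal.continuous_rpow_const (y := 2 * b)).tendsto _).comp
            ((continuous_enorm.tendsto _).comp hx)
        exact h1.liminf_eq.symm
    _ ≤ liminf (fun n => ∫⁻ x in {x : E | |‖x‖ - r| ≤ M}, ‖f (ns n) x‖ₑ ^ (2 * b)) atTop := by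
        refine lintegral_liminf_le fun n => ?_
        exact (hf (ns n)).1.continuous.measurable.enorm.pow_const _
    _ ≤ liminf (fun n => ENNReal.ofReal (20 * b * C0 ^ (2 * b) * M) *
        ‖Theta (sig b) (f (ns n)) (g (ns n))‖ₑ ^ (2 * b)) atTop :=
        liminf_le_liminf (Eventually.of_forall fun n => ht _ _ (hf _) (hg _))
    _ = ENNReal.ofReal (20 * b * C0 ^ (2 * b) * M) * ‖k‖ₑ ^ (2 * b) := hR.liminf_eq

end Pool.Agent.QWP
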