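import Pool.Agent.QWP.StG

set_option autoImplicit false

/-!
# QWP, G7: decay of the pairing, pointwise in time
-/

open MeasureTheory Filter Topology Set
open scoped ENNReal NNReal RealInnerProductSpace ContDiff

namespace Pool.Agent.QWP

open Pool.Agent.QWE (E S sg mu K toK tau sh dl rev gr ig IsTest pd lap Rad dRad Rk dRk c0 WD Sm SmE IsSch half shr WTo resc)

namespace G7x

private lemma sm_pd (i : Fin 5) {φ : E → ℝ} (h : ContDiff ℝ ∞ φ) : ContDiff ℝ ∞ (pd i φ) :=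
  (h.fderiv_right (m := ∞) (by simp)).clm_apply contDiff_const

private lemma tsupport_pd (i : Fin 5) (φ : E → ℝ) : tsupport (pd i φ) ⊆ tsupport φ :=
  tsupport_fderiv_apply_subset ℝ _

private lemma sm_lap {φ : E → ℝ} (h : ContDiff ℝ ∞ φ) : ContDiff ℝ ∞ (lap φ) :=
  ContDiff.sum fun i _ => sm_pd i (sm_pd i h)

private lemma lap_zero {φ : E → ℝ} {x : E} (h : x ∉ tsupport φ) : lap φ x = 0 := by
  refine Finset.sum_eq_zero fun i _ => ?_
  exact image_eq_zero_of_notMem_tsupport fun h2 => h (tsupport_pd i φ (tsupport_pd i _ h2))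

lemma test_lap {φ : E → ℝ} (h : IsTest φ) : IsTest (lap φ) :=
  ⟨sm_lap h.1, HasCompactSupport.intro h.2 fun _ hx => lap_zero hx⟩

lemma sig_lt {b : ℝ} (hb : 2 < b) : |sig b| < 1 / 2 := by
  have hb0 : 0 < b := by linarith
  have h1 : 0 < 2 / b := by positivity
  have h2 : 2 / b < 1 := by rw [div_lt_one hb0]; exact hb
  unfold sig
  rw [abs_lt]
  constructor <;> linarith

end G7x

open G7x in
theorem thm_G7 (hFld : St_FldP) (hDns : St_DnsP) (hNLw : St_NLw) (hDcy : St_Dcy2)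
    (hG7a : St_G7a) : St_G7 := by
  intro b hb f g hf hg
  have hs := sig_lt hb
  obtain ⟨C, M0, hC, hM0, hD⟩ := hDcy f g hf hg
  obtain ⟨Ca, hCa, hA⟩ := hG7a b hb M0 hM0
  obtain ⟨-, -, -, -, hFT⟩ := hFld (sig b) hs
  obtain ⟨-, hdense, -⟩ := hDns (sig b) hs
  have hc0 : 0 < c0 := by unfold c0; positivity
  refine ⟨c0 * (Ca * C), by positivity, fun k r hr hk => ?_⟩
  have hr0 : 0 < r := by linarith
  obtain ⟨f', g', hf', hg', h1, h2, h3⟩ := hD r
  have h4 := h1 (-sig b) (by rwa [abs_neg])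
  have hll : IsTest (lap (lap g')) := test_lap (test_lap hg')
  have hlll : IsTest (lap (lap (lap f'))) := test_lap (test_lap (test_lap hf'))
  -- the pairing
  have h5 : inner ℝ (NL b k) (tau r (Theta (-sig b) (lap f) (lap g))) =
      -(c0 * ∫ x, Fn b (U (sig b) k x) * lap (lap g') x) := by
    rw [h4]
    unfold Theta
    rw [neg_neg, real_inner_smul_right, inner_sub_right,
      ((hNLw b hb _ hlll).1 k hk).1, ((hNLw b hb _ hll).1 k hk).2]
    ring
  set A : ℝ := Ca * (C / (1 + r ^ 2)) * r ^ (4 / 5 : ℝ) with hAdef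
  have hA0 : 0 ≤ A := by rw [hAdef]; positivity
  -- the bound for all states by density
  have h6 : ∀ k' : K, |∫ x, Fn b (U (sig b) k' x) * lap (lap g') x| ≤ A * ‖k'‖ ^ (b + 1) := by
    have hcont : Continuous fun k' : K => ∫ x, Fn b (U (sig b) k' x) * lap (lap g') x :=
      (hNLw b hb _ hll).2.2.1
    have hcl : IsClosed {k' : K | |∫ x, Fn b (U (sig b) k' x) * lap (lap g') x| ≤
        A * ‖k'‖ ^ (b + 1)} := by
      refine isClosed_le hcont.abs ?_
      exact continuous_const.mul (continuous_norm.rpow_const fun _ => Or.inr (by linarith))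
    intro k'
    have hmem : k' ∈ closure {k' : K | |∫ x, Fn b (U (sig b) k' x) * lap (lap g') x| ≤
        A * ‖k'‖ ^ (b + 1)} := by
      rw [Metric.mem_closure_iff]
      intro ε hε
      obtain ⟨f1, g1, hf1, hg1, hfg⟩ := hdense k' ε hε
      refine ⟨Theta (sig b) f1 g1, ?_, by rwa [dist_eq_norm]⟩
      have h7 := hA f1 g1 g' r (C / (1 + r ^ 2)) hf1 hg1 hg' hr (by positivity)
        (fun x hx => (h2 x (by rwa [abs_of_pos hr0])).2) (fun x n hn => (h3 x n hn).2)
      have h8 : ∫ x, Fn b (U (sig b) (Theta (sig b) f1 g1) x) * lap (lap g') x =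
          ∫ x, Fn b (f1 x) * lap (lap g') x := by
        refine integral_congr_ae ?_
        filter_upwards [(hFT f1 g1 hf1 hg1).1] with x hx
        rw [hx]
      show |∫ x, Fn b (U (sig b) (Theta (sig b) f1 g1) x) * lap (lap g') x| ≤
        A * ‖Theta (sig b) f1 g1‖ ^ (b + 1)
      rw [h8]
      exact h7
    rw [hcl.closure_eq] at hmem
    exact hmem
  have h9 : A ≤ Ca * C * r ^ (-(6 / 5 : ℝ)) := by
    have e1 : r ^ (-(6 / 5 : ℝ)) = r ^ (4 / 5 : ℝ) / r ^ 2 := by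
      rw [← Real.rpow_natCast r 2, ← Real.rpow_sub hr0]
      norm_num
    rw [e1, hAdef]
    have e2 : C / (1 + r ^ 2) ≤ C / r ^ 2 :=
      div_le_div_of_nonneg_left hC.le (by positivity) (by linarith)
    calc Ca * (C / (1 + r ^ 2)) * r ^ (4 / 5 : ℝ) ≤ Ca * (C / r ^ 2) * r ^ (4 / 5 : ℝ) := by
          gcongr
      _ = Ca * C * (r ^ (4 / 5 : ℝ) / r ^ 2) := by ring
  rw [h5, abs_neg, abs_mul, abs_of_pos hc0]
  have h10 : 0 ≤ ‖k‖ ^ (b + 1) := by positivity
  calc c0 * |∫ x, Fn b (U (sig b) k x) * lap (lap g') x| ≤ c0 * (A * ‖k‖ ^ (b + 1)) :=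
        mul_le_mul_of_nonneg_left (h6 k) hc0.le
    _ ≤ c0 * ((Ca * C * r ^ (-(6 / 5 : ℝ))) * ‖k‖ ^ (b + 1)) :=
        mul_le_mul_of_nonneg_left (mul_le_mul_of_nonneg_right h9 h10) hc0.le
    _ = c0 * (Ca * C) * r ^ (-(6 / 5 : ℝ)) * ‖k‖ ^ (b + 1) := by ring

end Pool.Agent.QWP
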