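import Pool.Agent.QWP.StG

set_option autoImplicit false

/-!
# QWP, G9: local smallness
-/

open MeasureTheory Filter Topology Set
open scoped ENNReal NNReal RealInnerProductSpace

namespace Pool.Agent.QWP

open Pool.Agent.QWE (E S sg mu K toK tau sh dl rev gr ig IsTest pd lap Rad dRad Rk dRk c0 WD Sm SmE IsSch half shr WTo resc)

theorem thm_G9 (h5 : St_G5) (hL : St_LocC) : St_G9 := by
  intro b hb A M m R p T β hβ hp
  obtain ⟨⟨C, hC, hC1⟩, hcont, hweak⟩ := hL b m hb
  obtain ⟨G, hG⟩ : ∃ G : ℕ → ℝ → K, ∀ n, G n = (Icc 0 (T n)).indicator (β n) :=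
    ⟨fun n => (Icc 0 (T n)).indicator (β n), fun n => rfl⟩
  have hA0 : 0 ≤ A := (norm_nonneg _).trans ((hβ.1 0).2.2.1 0 ⟨le_rfl, (hβ.1 0).1⟩)
  -- the bound
  have hbd : ∀ n t, loc b m (G n t) ^ p ≤ (ENNReal.ofReal C * ENNReal.ofReal A) ^ p := by
    intro n t
    refine ENNReal.rpow_le_rpow (((hC1 (G n t) 0).1).trans ?_) hp.le
    refine mul_le_mul' le_rfl ?_
    rw [← ofReal_norm]
    refine ENNReal.ofReal_le_ofReal ?_
    rw [hG]
    by_cases ht : t ∈ Icc 0 (T n)
    · rw [indicator_of_mem ht]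
      exact (hβ.1 n).2.2.1 t ht
    · rw [indicator_of_notMem ht, norm_zero]
      exact hA0
  have hmeas : ∀ n, AEMeasurable (fun t => loc b m (G n t) ^ p) (volume.restrict (Icc 0 R)) := by
    intro n
    refine AEMeasurable.pow_const ?_ p
    have h1 : AEStronglyMeasurable (G n) volume := by
      rw [hG, aestronglyMeasurable_indicator_iff measurableSet_Icc]
      exact (hβ.1 n).2.1.2.1.aestronglyMeasurable measurableSet_Icc
    have h2 := hcont.comp_aestronglyMeasurable (h1.restrict (s := Icc 0 R))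
    exact h2.aemeasurable
  have hlim : ∀ t ∈ Icc (0 : ℝ) R, Tendsto (fun n => loc b m (G n t) ^ p) atTop (𝓝 0) := by
    intro t ht
    have h1 := hweak _ (h5 b hb A M T β hβ t ht.1)
    have h2 := ((ENNReal.continuous_rpow_const (y := p)).tendsto 0).comp h1
    rw [ENNReal.zero_rpow_of_pos hp] at h2
    refine h2.congr fun n => ?_
    simp only [Function.comp_apply, hG]
    by_cases h3 : t ≤ T n
    · have h4 : t ∈ Icc 0 (T n) := ⟨ht.1, h3⟩
      rw [if_pos h3, indicator_of_mem h4]
    · rw [if_neg h3, indicator_of_notMem fun h4 => h3 h4.2]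
  have key : Tendsto (fun n => ∫⁻ t in Icc 0 R, loc b m (G n t) ^ p) atTop (𝓝 0) := by
    have h1 := tendsto_lintegral_of_dominated_convergence' (μ := volume.restrict (Icc 0 R))
      (f := fun _ => 0) (fun _ => (ENNReal.ofReal C * ENNReal.ofReal A) ^ p) hmeas
      (fun n => Eventually.of_forall (hbd n)) ?_ ?_
    · rwa [lintegral_zero] at h1
    · rw [lintegral_const, Measure.restrict_apply_univ, Real.volume_Icc]
      refine ENNReal.mul_ne_top ?_ ENNReal.ofReal_ne_top
      exact ENNReal.rpow_ne_top_of_nonneg hp.le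
        (ENNReal.mul_ne_top ENNReal.ofReal_ne_top ENNReal.ofReal_ne_top)
    · filter_upwards [ae_restrict_mem measurableSet_Icc] with t ht
      exact hlim t ht
  refine tendsto_of_tendsto_of_tendsto_of_le_of_le tendsto_const_nhds key
    (fun n => bot_le) fun n => ?_
  have h1 : ∫⁻ t in Icc 0 (min R (T n)), loc b m (β n t) ^ p =
      ∫⁻ t in Icc 0 (min R (T n)), loc b m (G n t) ^ p := by
    refine setLIntegral_congr_fun measurableSet_Icc fun t ht => ?_
    have h2 : t ∈ Icc 0 (T n) := ⟨ht.1, ht.2.trans (min_le_right _ _)⟩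
    simp only [hG, indicator_of_mem h2]
  rw [h1]
  exact lintegral_mono_set (Icc_subset_Icc_right (min_le_left _ _))

end Pool.Agent.QWP
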