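import Pool.Agent.QWP.GNt

set_option autoImplicit false

/-!
# QWP.GNk: Gagliardo-Nirenberg inequality for states
-/

open MeasureTheory Filter Topology Set
open scoped ENNReal NNReal RealInnerProductSpace

namespace Pool.Agent.QWP

open Pool.Agent.QWE (E S sg mu K toK tau sh dl rev gr ig IsTest pd lap Rad dRad Rk dRk c0 WD Sm SmE IsSch half shr WTo)

theorem thm_GNk (hDen : St_DenX) (hGN : St_GNt) (hP : St_FldP) (hD : St_FldD) : St_GNk := by
  intro b hb
  have hb0 : 0 < b := by linarith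
  obtain ⟨s, hs⟩ : ∃ s, s = sig b := ⟨_, rfl⟩
  have hs' : s = 1 / 2 - 2 / b := by rw [hs]; rfl
  have hb2 : 2 / b < 1 / 2 := by
    rw [div_lt_div_iff₀ hb0 (by norm_num)]
    linarith
  have hb3 : 0 < 2 / b := by positivity
  have hs0 : 0 ≤ s := by rw [hs']; linarith
  have hs1 : s < 1 / 2 := by rw [hs']; linarith
  have hs2 : |s| < 1 / 2 := by rw [abs_of_nonneg hs0]; exact hs1
  obtain ⟨C1, hC1, hP1, hP2, hP3⟩ := hP s hs2
  obtain ⟨C2, hC2, hD1, hD2, hD3⟩ := hD s hs0 hs1
  obtain ⟨y, hy⟩ : ∃ y, y = 10 * b / (2 * b + 3) := ⟨_, rfl⟩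
  have hy2 : 2 < y := by
    rw [hy, lt_div_iff₀ (by linarith)]
    linarith
  refine ⟨y - 1, by linarith, fun k i hk => ?_⟩
  rw [← hs, ← hy]
  have hq2 : q2 s = ENNReal.ofReal (5 * b / (2 * b + 2)) := by
    unfold q2
    congr 1
    have h1 : 5 - 2 * s = (4 * b + 4) / b := by
      rw [hs']
      field_simp
      ring
    rw [h1, div_div_eq_mul_div, div_eq_div_iff (by positivity) (by positivity)]
    ring
  -- the test states
  have hex : ∀ n : ℕ, ∃ f g : E → ℝ, IsTest f ∧ IsTest g ∧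
      ‖k - Theta s f g‖ < 1 / ((n : ℝ) + 1) ∧
      sn b (k - Theta s f g) < ENNReal.ofReal (1 / ((n : ℝ) + 1)) := by
    intro n
    rw [hs]
    exact hDen b k (1 / ((n : ℝ) + 1)) (by linarith) hk (by positivity)
  choose f g hf hg hn1 hn2 using hex
  have hsub : ∀ k' : K, k + (-1 : ℝ) • k' = k - k' := by
    intro k'
    rw [neg_one_smul, sub_eq_add_neg]
  have hUe : ∀ n, f n =ᵐ[volume] fun x => U s k x - U s (k - Theta s (f n) (g n)) x := by
    intro n
    have h1 := (hP2 (-1) k (Theta s (f n) (g n))).1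
    rw [hsub] at h1
    have h2 := (hP3 (f n) (g n) (hf n) (hg n)).1
    filter_upwards [h1, h2] with x hx1 hx2
    rw [hx1, hx2]
    ring
  have hDUe : ∀ n, (fun x => pd i (f n) x - DU s k i x) =ᵐ[volume]
      fun x => - DU s (k - Theta s (f n) (g n)) i x := by
    intro n
    have h1 := (hP2 (-1) k (Theta s (f n) (g n))).2.2 i
    rw [hsub] at h1
    have h2 := (hP3 (f n) (g n) (hf n) (hg n)).2.2 i
    filter_upwards [h1, h2] with x hx1 hx2
    rw [hx1, hx2]
    ring
  have hDDe : ∀ n, pd i (pd i (f n)) =ᵐ[volume]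
      fun x => DDU s k i i x - DDU s (k - Theta s (f n) (g n)) i i x := by
    intro n
    have h1 := hD2 (-1) k (Theta s (f n) (g n)) i i
    rw [hsub] at h1
    have h2 := hD3 (f n) (g n) i i (hf n) (hg n)
    filter_upwards [h1, h2] with x hx1 hx2
    rw [hx1, hx2]
    ring
  have hUm : ∀ k' : K, AEStronglyMeasurable (U s k') volume := fun k' => (hP1 k').1.1.1
  have hDUm : ∀ k' : K, MemLp (DU s k' i) (q1 s) volume := fun k' => ((hP1 k').2.2.2.2.1 i).1
  have hDDm : ∀ k' : K, MemLp (DDU s k' i i) (q2 s) volume := fun k' => (hD1 k' i i).1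
  have h1p : (1 : ℝ≥0∞) ≤ ENNReal.ofReal (5 * b) := by
    rw [← ENNReal.ofReal_one]
    exact ENNReal.ofReal_le_ofReal (by linarith)
  have h1q : (1 : ℝ≥0∞) ≤ q2 s := by
    rw [hq2, ← ENNReal.ofReal_one]
    apply ENNReal.ofReal_le_ofReal
    rw [le_div_iff₀ (by linarith)]
    linarith
  -- bounds of the two factors
  have hB1 : ∀ n, eLpNorm (f n) (ENNReal.ofReal (5 * b)) volume ≤
      sn b k + ENNReal.ofReal (1 / ((n : ℝ) + 1)) := by
    intro n
    rw [eLpNorm_congr_ae (hUe n)]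
    refine (eLpNorm_sub_le (hUm k) (hUm _) h1p).trans ?_
    unfold sn
    rw [← hs]
    gcongr
    have h := hn2 n
    unfold sn at h
    rw [← hs] at h
    exact h.le
  have hB2 : ∀ n, eLpNorm (pd i (pd i (f n))) (q2 s) volume ≤
      tn b k + ENNReal.ofReal C2 * ENNReal.ofReal (1 / ((n : ℝ) + 1)) := by
    intro n
    rw [eLpNorm_congr_ae (hDDe n)]
    refine (eLpNorm_sub_le (hDDm k).1 (hDDm _).1 h1q).trans ?_
    apply add_le_add
    · unfold tn
      rw [if_neg (by linarith), ← hs]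
      exact (Finset.single_le_sum (f := fun j => eLpNorm (DDU s k i j) (q2 s) volume)
        (fun _ _ => zero_le) (Finset.mem_univ i)).trans
        (Finset.single_le_sum (f := fun i => ∑ j, eLpNorm (DDU s k i j) (q2 s) volume)
        (fun _ _ => zero_le) (Finset.mem_univ i))
    · refine ((hD1 _ i i).2.2).trans ?_
      gcongr
      rw [← ofReal_norm]
      exact ENNReal.ofReal_le_ofReal (hn1 n).le
  have hGNn : ∀ n, eLpNorm (pd i (f n)) (ENNReal.ofReal y) volume ^ 2 ≤
      ENNReal.ofReal (y - 1) * (sn b k + ENNReal.ofReal (1 / ((n : ℝ) + 1))) *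
        (tn b k + ENNReal.ofReal C2 * ENNReal.ofReal (1 / ((n : ℝ) + 1))) := by
    intro n
    have h := hGN (5 * b) (5 * b / (2 * b + 2)) y (by linarith)
      (by rw [lt_div_iff₀ (by linarith)]; linarith) hy2
      (by rw [hy]; field_simp; ring) (f n) i (hf n)
    refine h.trans ?_
    rw [← hq2]
    gcongr
    · exact hB1 n
    · exact hB2 n
  -- convergence almost everywhere of a subsequence
  have hε : Tendsto (fun n : ℕ => ENNReal.ofReal (1 / ((n : ℝ) + 1))) atTop (𝓝 0) := by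
    have h := ENNReal.tendsto_ofReal (tendsto_one_div_add_atTop_nhds_zero_nat (𝕜 := ℝ))
    rwa [ENNReal.ofReal_zero] at h
  have hconv : Tendsto (fun n => eLpNorm (pd i (f n) - DU s k i) (q1 s) volume) atTop (𝓝 0) := by
    have hle : ∀ n, eLpNorm (pd i (f n) - DU s k i) (q1 s) volume ≤
        ENNReal.ofReal C1 * ENNReal.ofReal (1 / ((n : ℝ) + 1)) := by
      intro n
      have h1 : eLpNorm (pd i (f n) - DU s k i) (q1 s) volume =
          eLpNorm (DU s (k - Theta s (f n) (g n)) i) (q1 s) volume := by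
        rw [← eLpNorm_neg (f := DU s (k - Theta s (f n) (g n)) i)]
        exact eLpNorm_congr_ae (hDUe n)
      rw [h1]
      refine (((hP1 _).2.2.2.2.1 i).2.2).trans ?_
      gcongr
      rw [← ofReal_norm]
      exact ENNReal.ofReal_le_ofReal (hn1 n).le
    have hz : Tendsto (fun n : ℕ => ENNReal.ofReal C1 * ENNReal.ofReal (1 / ((n : ℝ) + 1))) atTop
        (𝓝 0) := by
      have := ENNReal.Tendsto.const_mul hε (Or.inr (ENNReal.ofReal_ne_top (r := C1)))
      rwa [mul_zero] at this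
    exact tendsto_of_tendsto_of_tendsto_of_le_of_le tendsto_const_nhds hz (fun _ => zero_le) hle
  have hpm : ∀ n, AEStronglyMeasurable (pd i (f n)) volume := fun n =>
    (GNtx.test_pd (hf n) i).1.continuous.aestronglyMeasurable
  have hq1 : q1 s ≠ 0 := by
    unfold q1
    rw [ne_eq, ENNReal.ofReal_eq_zero, not_le]
    apply div_pos (by norm_num)
    linarith
  obtain ⟨ns, hns, hae⟩ := (tendstoInMeasure_of_tendsto_eLpNorm hq1 hpm (hDUm k).1
    hconv).exists_seq_tendsto_ae
  have hFatou := Lp.eLpNorm_lim_le_liminf_eLpNorm (p := ENNReal.ofReal y)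
    (fun n => hpm (ns n)) (DU s k i) hae
  -- the limit
  have htn : tn b k ≠ ⊤ := by
    unfold tn
    rw [if_neg (by linarith), ← hs]
    apply (ENNReal.sum_lt_top.2 fun i _ => ENNReal.sum_lt_top.2 fun j _ => ?_).ne
    exact (hD1 k i j).1.2
  have hlim : Tendsto (fun n : ℕ => (ENNReal.ofReal (y - 1) *
      (sn b k + ENNReal.ofReal (1 / ((ns n : ℝ) + 1))) *
      (tn b k + ENNReal.ofReal C2 * ENNReal.ofReal (1 / ((ns n : ℝ) + 1)))) ^ (1 / 2 : ℝ)) atTop
      (𝓝 ((ENNReal.ofReal (y - 1) * sn b k * tn b k) ^ (1 / 2 : ℝ))) := by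
    have hε' := hε.comp hns.tendsto_atTop
    have t1 : Tendsto (fun n : ℕ => sn b k + ENNReal.ofReal (1 / ((ns n : ℝ) + 1))) atTop
        (𝓝 (sn b k)) := by
      have := (tendsto_const_nhds (x := sn b k)).add hε'
      rwa [add_zero] at this
    have t2 : Tendsto (fun n : ℕ => tn b k +
        ENNReal.ofReal C2 * ENNReal.ofReal (1 / ((ns n : ℝ) + 1))) atTop (𝓝 (tn b k)) := by
      have h1 := ENNReal.Tendsto.const_mul hε' (Or.inr (ENNReal.ofReal_ne_top (r := C2)))
      rw [mul_zero] at h1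
      have := (tendsto_const_nhds (x := tn b k)).add h1
      rwa [add_zero] at this
    have t3 := ENNReal.Tendsto.const_mul t1 (Or.inr (ENNReal.ofReal_ne_top (r := y - 1)))
    have t4 := ENNReal.Tendsto.mul t3 (Or.inr htn) t2
      (Or.inr (ENNReal.mul_ne_top ENNReal.ofReal_ne_top hk.ne))
    exact (ENNReal.continuous_rpow_const.tendsto _).comp t4
  have hle : ∀ n, eLpNorm (pd i (f (ns n))) (ENNReal.ofReal y) volume ≤
      (ENNReal.ofReal (y - 1) *
      (sn b k + ENNReal.ofReal (1 / ((ns n : ℝ) + 1))) *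
      (tn b k + ENNReal.ofReal C2 * ENNReal.ofReal (1 / ((ns n : ℝ) + 1)))) ^ (1 / 2 : ℝ) := by
    intro n
    have h := ENNReal.rpow_le_rpow (hGNn (ns n)) (show (0 : ℝ) ≤ 1 / 2 by norm_num)
    have e : (eLpNorm (pd i (f (ns n))) (ENNReal.ofReal y) volume ^ 2) ^ (1 / 2 : ℝ) =
        eLpNorm (pd i (f (ns n))) (ENNReal.ofReal y) volume := by
      rw [← ENNReal.rpow_natCast, ← ENNReal.rpow_mul]
      norm_num
    rw [e] at h
    exact h
  have hfin : eLpNorm (DU s k i) (ENNReal.ofReal y) volume ≤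
      (ENNReal.ofReal (y - 1) * sn b k * tn b k) ^ (1 / 2 : ℝ) := by
    refine hFatou.trans ?_
    rw [← hlim.liminf_eq]
    exact liminf_le_liminf (Eventually.of_forall hle)
  calc eLpNorm (DU s k i) (ENNReal.ofReal y) volume ^ 2
      ≤ ((ENNReal.ofReal (y - 1) * sn b k * tn b k) ^ (1 / 2 : ℝ)) ^ 2 := by gcongr
    _ = _ := by
      rw [← ENNReal.rpow_natCast, ← ENNReal.rpow_mul]
      norm_num

end Pool.Agent.QWP
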