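import Pool.Agent.QWP.Npq

set_option autoImplicit false

/-!
# QWP.GNt: Gagliardo-Nirenberg inequality, one direction
-/

open MeasureTheory Filter Topology Set
open scoped ENNReal NNReal RealInnerProductSpace

namespace Pool.Agent.QWP

open Pool.Agent.QWE (E S sg mu K toK tau sh dl rev gr ig IsTest pd lap Rad dRad Rk dRk c0 WD Sm SmE IsSch half shr WTo)

namespace GNtx

theorem test_pd {f : E → ℝ} (hf : IsTest f) (i : Fin 5) : IsTest (pd i f) := by
  refine ⟨?_, ?_⟩
  · have h := hf.1.fderiv_right (m := ((⊤ : ℕ∞) : WithTop ℕ∞)) (by simp)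
    exact h.clm_apply contDiff_const
  · exact hf.2.fderiv_apply ℝ _

/-- three functions -/
theorem hoelder {f1 f2 f3 : E → ℝ≥0∞} (h1 : AEMeasurable f1) (h2 : AEMeasurable f2)
    (h3 : AEMeasurable f3) {a b c : ℝ} (ha : 0 ≤ a) (hb : 0 ≤ b) (hc : 0 ≤ c)
    (habc : a + b + c = 1) :
    ∫⁻ x, f1 x ^ a * f2 x ^ b * f3 x ^ c ≤
      (∫⁻ x, f1 x) ^ a * (∫⁻ x, f2 x) ^ b * (∫⁻ x, f3 x) ^ c := by
  have h := ENNReal.lintegral_prod_norm_pow_le (μ := (volume : Measure E)) (s := Finset.univ)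
    (f := ![f1, f2, f3]) (p := ![a, b, c])
    (by
      intro i _
      fin_cases i
      · exact h1
      · exact h2
      · exact h3)
    (by simp [Fin.sum_univ_three, habc])
    (by
      intro i _
      fin_cases i
      · exact ha
      · exact hb
      · exact hc)
  simpa [Fin.prod_univ_three] using h

end GNtx

open GNtx in
theorem thm_GNt : St_GNt := by
  intro p q y hp hq hy hpq f i hf
  obtain ⟨g, hgd⟩ : ∃ g, g = pd i f := ⟨_, rfl⟩
  obtain ⟨g', hg'd⟩ : ∃ g', g' = pd i g := ⟨_, rfl⟩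
  have hgt : IsTest g := hgd ▸ test_pd hf i
  have hg't : IsTest g' := hg'd ▸ test_pd hgt i
  rw [← hgd, ← hg'd]
  have hy0 : 0 < y := by linarith
  have hp0 : 0 < p := by linarith
  have hq0 : 0 < q := by linarith
  have hfc := hf.1.continuous
  have hgc := hgt.1.continuous
  have hg'c := hg't.1.continuous
  have hPc : Continuous fun x => |g x| ^ (y - 2) :=
    (continuous_abs.comp hgc).rpow_const fun x => Or.inr (by linarith)
  obtain ⟨G, hG⟩ : ∃ G : E → ℝ, G = fun x => |g x| ^ (y - 2) * g x := ⟨_, rfl⟩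
  have hGc : Continuous G := by
    rw [hG]
    exact hPc.mul hgc
  have hGs : HasCompactSupport G := by
    rw [hG]
    exact hgt.2.mul_left
  have hder : ∀ x, HasFDerivAt G (((y - 1) * |g x| ^ (y - 2)) • fderiv ℝ g x) x := by
    intro x
    have h1 := Npqx.der_G (a := y - 2) (by linarith) (g x)
    rw [show y - 2 + 1 = y - 1 by ring] at h1
    have h2 : HasFDerivAt g (fderiv ℝ g x) x :=
      (hgt.1.differentiable (by simp) x).hasFDerivAt
    have h3 := h1.comp_hasFDerivAt x h2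
    rw [hG]
    exact h3
  have hfd : ∀ x, fderiv ℝ f x (EuclideanSpace.single i (1 : ℝ)) = g x := by
    intro x
    rw [hgd]
    rfl
  have hGd : ∀ x, fderiv ℝ G x (EuclideanSpace.single i (1 : ℝ)) =
      (y - 1) * |g x| ^ (y - 2) * g' x := by
    intro x
    rw [(hder x).fderiv, hg'd]
    rfl
  have hi1 : Integrable fun x => g x * G x :=
    (hgc.mul hGc).integrable_of_hasCompactSupport hgt.2.mul_right
  have hi2 : Integrable fun x => f x * ((y - 1) * |g x| ^ (y - 2) * g' x) :=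
    (hfc.mul ((continuous_const.mul hPc).mul hg'c)).integrable_of_hasCompactSupport hf.2.mul_right
  have hi3 : Integrable fun x => f x * G x :=
    (hfc.mul hGc).integrable_of_hasCompactSupport hf.2.mul_right
  have hparts : ∫ x, f x * ((y - 1) * |g x| ^ (y - 2) * g' x) = -∫ x, g x * G x := by
    have h := integral_mul_fderiv_eq_neg_fderiv_mul_of_integrable (μ := (volume : Measure E))
      (f := f) (g := G) (v := EuclideanSpace.single i (1 : ℝ))
      (by simp_rw [hfd]; exact hi1) (by simp_rw [hGd]; exact hi2) hi3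
      (fun x _ => hf.1.differentiable (by simp) x) (fun x _ => (hder x).differentiableAt)
    simp_rw [hfd, hGd] at h
    exact h
  -- the power
  have hpow : ∀ x, g x * G x = |g x| ^ y := by
    intro x
    rw [hG]
    rcases eq_or_ne (g x) 0 with h0 | h0
    · rw [h0, abs_zero, Real.zero_rpow hy0.ne', zero_mul]
    · have h1 : 0 < |g x| := abs_pos.2 h0
      have h2 : |g x| ^ (y - 2) * g x ^ 2 = |g x| ^ y := by
        rw [← sq_abs, ← Real.rpow_natCast |g x| 2, ← Real.rpow_add h1]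
        congr 1
        push_cast
        ring
      show g x * (|g x| ^ (y - 2) * g x) = |g x| ^ y
      rw [← h2]
      ring
  obtain ⟨X, hX⟩ : ∃ X : ℝ≥0∞, X = ∫⁻ x, ‖g x‖ₑ ^ y := ⟨_, rfl⟩
  have hXe : ∀ x, ‖g x‖ₑ ^ y = ENNReal.ofReal (g x * G x) := by
    intro x
    rw [hpow, ← Real.enorm_abs, Real.enorm_of_nonneg (abs_nonneg _),
      ENNReal.ofReal_rpow_of_nonneg (abs_nonneg _) hy0.le]
  have hXr : X = ENNReal.ofReal (∫ x, g x * G x) := by
    rw [hX, ofReal_integral_eq_lintegral_ofReal hi1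
      (Eventually.of_forall fun x => by
        show 0 ≤ g x * G x
        rw [hpow]
        positivity)]
    exact lintegral_congr hXe
  have hXtop : X ≠ ⊤ := by
    rw [hXr]
    exact ENNReal.ofReal_ne_top
  have hmain : X ≤ ENNReal.ofReal (y - 1) *
      ∫⁻ x, (‖f x‖ₑ ^ p) ^ (1 / p) * (‖g x‖ₑ ^ y) ^ ((y - 2) / y) * (‖g' x‖ₑ ^ q) ^ (1 / q) := by
    have h1 : X = ‖∫ x, f x * ((y - 1) * |g x| ^ (y - 2) * g' x)‖ₑ := by
      rw [hparts, enorm_neg, hXr, Real.enorm_of_nonneg]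
      apply integral_nonneg
      intro x
      show 0 ≤ g x * G x
      rw [hpow]
      positivity
    rw [h1]
    refine (enorm_integral_le_lintegral_enorm _).trans ?_
    rw [← lintegral_const_mul' _ _ ENNReal.ofReal_ne_top]
    refine lintegral_mono fun x => le_of_eq ?_
    rw [enorm_mul, enorm_mul, enorm_mul, ← ENNReal.rpow_mul, ← ENNReal.rpow_mul,
      ← ENNReal.rpow_mul, mul_one_div_cancel hp0.ne', mul_one_div_cancel hq0.ne',
      ENNReal.rpow_one, ENNReal.rpow_one, mul_div_cancel₀ _ hy0.ne',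
      Real.enorm_of_nonneg (by linarith : 0 ≤ y - 1),
      Real.enorm_rpow_of_nonneg (abs_nonneg _) (by linarith), Real.enorm_abs]
    ring
  have hsum : 1 / p + (y - 2) / y + 1 / q = 1 := by
    have : (y - 2) / y = 1 - 2 / y := by
      field_simp
    rw [this, hpq]
    ring
  have hH := hoelder (f1 := fun x => ‖f x‖ₑ ^ p) (f2 := fun x => ‖g x‖ₑ ^ y)
    (f3 := fun x => ‖g' x‖ₑ ^ q) (by fun_prop) (by fun_prop) (by fun_prop)
    (a := 1 / p) (b := (y - 2) / y) (c := 1 / q) (by positivity)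
    (div_nonneg (by linarith) hy0.le) (by positivity) hsum
  have hE : X ≤ ENNReal.ofReal (y - 1) * ((∫⁻ x, ‖f x‖ₑ ^ p) ^ (1 / p) * X ^ ((y - 2) / y) *
      (∫⁻ x, ‖g' x‖ₑ ^ q) ^ (1 / q)) := by
    refine hmain.trans ?_
    rw [hX]
    exact mul_le_mul_right hH _
  have ep : eLpNorm f (ENNReal.ofReal p) volume = (∫⁻ x, ‖f x‖ₑ ^ p) ^ (1 / p) := by
    rw [eLpNorm_eq_lintegral_rpow_enorm_toReal (by simpa using hp0) ENNReal.ofReal_ne_top,
      ENNReal.toReal_ofReal hp0.le]
  have eq' : eLpNorm g' (ENNReal.ofReal q) volume = (∫⁻ x, ‖g' x‖ₑ ^ q) ^ (1 / q) := by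
    rw [eLpNorm_eq_lintegral_rpow_enorm_toReal (by simpa using hq0) ENNReal.ofReal_ne_top,
      ENNReal.toReal_ofReal hq0.le]
  have ey : eLpNorm g (ENNReal.ofReal y) volume = X ^ (1 / y) := by
    rw [eLpNorm_eq_lintegral_rpow_enorm_toReal (by simpa using hy0) ENNReal.ofReal_ne_top,
      ENNReal.toReal_ofReal hy0.le, hX]
  rw [ep, eq', ey]
  rcases eq_or_ne X 0 with h0 | h0
  · rw [h0, ENNReal.zero_rpow_of_pos (by positivity)]
    simp
  · have h1 : X = (X ^ (1 / y)) ^ 2 * X ^ ((y - 2) / y) := by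
      rw [← ENNReal.rpow_natCast, ← ENNReal.rpow_mul, ← ENNReal.rpow_add _ _ h0 hXtop]
      have : 1 / y * ((2 : ℕ) : ℝ) + (y - 2) / y = 1 := by
        push_cast
        field_simp
        ring
      rw [this, ENNReal.rpow_one]
    have h2 : X ^ ((y - 2) / y) ≠ 0 := (ENNReal.rpow_pos (pos_iff_ne_zero.2 h0) hXtop).ne'
    have h3 : X ^ ((y - 2) / y) ≠ ⊤ := ENNReal.rpow_ne_top_of_nonneg
      (div_nonneg (by linarith) hy0.le) hXtop
    have h4 : (X ^ (1 / y)) ^ 2 * X ^ ((y - 2) / y) ≤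
        (ENNReal.ofReal (y - 1) * (∫⁻ x, ‖f x‖ₑ ^ p) ^ (1 / p) *
          (∫⁻ x, ‖g' x‖ₑ ^ q) ^ (1 / q)) * X ^ ((y - 2) / y) := by
      rw [← h1]
      refine hE.trans (le_of_eq ?_)
      ring
    exact (ENNReal.mul_le_mul_iff_left h2 h3).1 h4

end Pool.Agent.QWP
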