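import Pool.Agent.QWP.Hrd

set_option autoImplicit false

/-!
# QWP.Gag1: one dimensional Gagliardo formula
-/

open MeasureTheory Filter Topology Set FourierTransform
open scoped ENNReal NNReal RealInnerProductSpace

namespace Pool.Agent.QWP

open Pool.Agent.QWE (E S sg mu K toK)

namespace Gag1x

/-- one dimensional transform -/
noncomputable def T (f : ℝ → ℝ) (r : ℝ) : ℂ :=
  ∫ p, (f p : ℂ) * Complex.exp (-2 * Real.pi * Complex.I * ((r * p : ℝ) : ℂ))

theorem T_eq (f : ℝ → ℝ) (r : ℝ) : T f r = 𝓕 (fun p : ℝ => (f p : ℂ)) r := by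
  rw [Real.fourier_real_eq_integral_exp_smul]
  unfold T
  refine integral_congr_ae (Eventually.of_forall fun p => ?_)
  simp only [smul_eq_mul]
  rw [mul_comm]
  congr 2
  push_cast
  ring

/-- complexification as a Schwartz function -/
noncomputable def cS {f : ℝ → ℝ} (hf : ContDiff ℝ ((⊤ : ℕ∞) : WithTop ℕ∞) f)
    (hc : HasCompactSupport f) : SchwartzMap ℝ ℂ :=
  HasCompactSupport.toSchwartzMap (f := fun x => (f x : ℂ))
    (hc.comp_left (g := ((↑) : ℝ → ℂ)) Complex.ofReal_zero)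
    (Complex.ofRealCLM.contDiff.comp hf)

theorem cS_apply {f : ℝ → ℝ} (hf : ContDiff ℝ ((⊤ : ℕ∞) : WithTop ℕ∞) f)
    (hc : HasCompactSupport f) (x : ℝ) : cS hf hc x = (f x : ℂ) := rfl

theorem planch {f : ℝ → ℝ} (hf : ContDiff ℝ ((⊤ : ℕ∞) : WithTop ℕ∞) f)
    (hc : HasCompactSupport f) :
    ∫⁻ r, ENNReal.ofReal (‖T f r‖ ^ 2) = ∫⁻ p, ENNReal.ofReal (f p ^ 2) := by
  have h1 : ∀ r, T f r = (𝓕 (cS hf hc)) r := by
    intro r
    rw [T_eq, SchwartzMap.fourier_coe]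
    rfl
  have h2 := SchwartzMap.integral_norm_sq_fourier (cS hf hc)
  have h3 : Integrable (fun r => ‖(𝓕 (cS hf hc)) r‖ ^ 2) volume :=
    ((𝓕 (cS hf hc)).memLp 2 volume).integrable_norm_pow (by norm_num)
  have h4 : Integrable (fun r => ‖(cS hf hc) r‖ ^ 2) volume :=
    ((cS hf hc).memLp 2 volume).integrable_norm_pow (by norm_num)
  calc ∫⁻ r, ENNReal.ofReal (‖T f r‖ ^ 2)
      = ∫⁻ r, ENNReal.ofReal (‖(𝓕 (cS hf hc)) r‖ ^ 2) := by simp_rw [h1]
    _ = ENNReal.ofReal (∫ r, ‖(𝓕 (cS hf hc)) r‖ ^ 2) :=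
        (ofReal_integral_eq_lintegral_ofReal h3 (Eventually.of_forall fun _ => by positivity)).symm
    _ = ENNReal.ofReal (∫ r, ‖(cS hf hc) r‖ ^ 2) := by rw [h2]
    _ = ∫⁻ r, ENNReal.ofReal (‖(cS hf hc) r‖ ^ 2) :=
        ofReal_integral_eq_lintegral_ofReal h4 (Eventually.of_forall fun _ => by positivity)
    _ = _ := by
        refine lintegral_congr fun p => ?_
        rw [cS_apply, Complex.norm_real, Real.norm_eq_abs, sq_abs]

theorem T_deriv {f : ℝ → ℝ} (hf : ContDiff ℝ ((⊤ : ℕ∞) : WithTop ℕ∞) f)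
    (hc : HasCompactSupport f) (r : ℝ) :
    T (deriv f) r = (2 * Real.pi * Complex.I * r) * T f r := by
  have hd : Differentiable ℝ f := hf.differentiable (by simp)
  have h1 : deriv (fun p : ℝ => (f p : ℂ)) = fun p : ℝ => ((deriv f p : ℝ) : ℂ) := by
    funext p
    exact (hd p).hasDerivAt.ofReal_comp.deriv
  have h2 : Integrable (fun p : ℝ => (f p : ℂ)) := (cS hf hc).integrable
  have h3 : Integrable (deriv (fun p : ℝ => (f p : ℂ))) := by
    rw [h1]
    have hf' : ContDiff ℝ ((⊤ : ℕ∞) : WithTop ℕ∞) (deriv f) := by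
      have := hf.iterate_deriv 1
      simpa using this
    exact (cS hf' hc.deriv).integrable
  have h4 := Real.fourier_deriv h2
    (fun p => (hd p).hasDerivAt.ofReal_comp.differentiableAt) h3
  rw [T_eq, T_eq, ← h1, h4]
  rfl

theorem T_shift {f : ℝ → ℝ} (hf : ContDiff ℝ ((⊤ : ℕ∞) : WithTop ℕ∞) f)
    (hc : HasCompactSupport f) (u r : ℝ) :
    T (fun p => f (p + u) - f p) r =
      (Complex.exp (Complex.I * ((2 * Real.pi * r * u : ℝ) : ℂ)) - 1) * T f r := by
  have hcont : Continuous f := hf.continuous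
  have hi : Integrable (fun p : ℝ => (f p : ℂ) *
      Complex.exp (-2 * Real.pi * Complex.I * ((r * p : ℝ) : ℂ))) := by
    apply Continuous.integrable_of_hasCompactSupport (by fun_prop)
    exact (hc.comp_left (g := ((↑) : ℝ → ℂ)) Complex.ofReal_zero).mul_right
  have hs : ∀ p : ℝ, (f (p + u) : ℂ) * Complex.exp (-2 * Real.pi * Complex.I * ((r * p : ℝ) : ℂ)) =
      Complex.exp (Complex.I * ((2 * Real.pi * r * u : ℝ) : ℂ)) *
        ((fun p : ℝ => (f p : ℂ) * Complex.exp (-2 * Real.pi * Complex.I * ((r * p : ℝ) : ℂ)))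
          (p + u)) := by
    intro p
    show _ = Complex.exp (Complex.I * ((2 * Real.pi * r * u : ℝ) : ℂ)) *
      ((f (p + u) : ℂ) * Complex.exp (-2 * Real.pi * Complex.I * ((r * (p + u) : ℝ) : ℂ)))
    rw [mul_left_comm, ← Complex.exp_add]
    congr 2
    push_cast
    ring
  have hi2 : Integrable (fun p : ℝ => (f (p + u) : ℂ) *
      Complex.exp (-2 * Real.pi * Complex.I * ((r * p : ℝ) : ℂ))) := by
    simp_rw [hs]
    exact (hi.comp_add_right u).const_mul _
  have h1 : T (fun p => f (p + u)) r =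
      Complex.exp (Complex.I * ((2 * Real.pi * r * u : ℝ) : ℂ)) * T f r := by
    unfold T
    simp_rw [hs]
    rw [integral_const_mul, integral_add_right_eq_self (fun p : ℝ => (f p : ℂ) *
      Complex.exp (-2 * Real.pi * Complex.I * ((r * p : ℝ) : ℂ))) u]
  have h2 : T (fun p => f (p + u) - f p) r = T (fun p => f (p + u)) r - T f r := by
    unfold T
    rw [← integral_sub hi2 hi]
    refine integral_congr_ae (Eventually.of_forall fun p => ?_)
    push_cast
    ring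
  rw [h2, h1]
  ring

/-! ### The constant -/

/-- the constant -/
noncomputable def ker (τ : ℝ) : ℝ≥0∞ :=
  ∫⁻ u : ℝ, ENNReal.ofReal (|u| ^ (-1 - 2 * τ) * ‖Complex.exp (Complex.I * (u : ℂ)) - 1‖ ^ 2)

theorem ker_ne_top {τ : ℝ} (h1 : 0 < τ) (h2 : τ < 1 / 2) : ker τ ≠ ⊤ := by
  have hI : Integrable (fun x : ℝ => (1 + ‖x‖) ^ (-(1 + 2 * τ))) volume :=
    integrable_one_add_norm (by simp; linarith)
  have hb : ∀ u : ℝ, |u| ^ (-1 - 2 * τ) * ‖Complex.exp (Complex.I * (u : ℂ)) - 1‖ ^ 2 ≤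
      (4 * 2 ^ (1 + 2 * τ)) * (1 + ‖u‖) ^ (-(1 + 2 * τ)) := by
    intro u
    rw [Real.norm_eq_abs]
    have hu : 0 ≤ |u| := abs_nonneg u
    have e0 : (1 + |u|) ^ (-(1 + 2 * τ)) * 2 ^ (1 + 2 * τ) = ((1 + |u|) / 2) ^ (-(1 + 2 * τ)) := by
      rw [Real.div_rpow (by linarith) (by norm_num), Real.rpow_neg (show (0 : ℝ) ≤ 2 by norm_num)]
      rw [div_inv_eq_mul]
    rcases le_or_gt 1 |u| with hu1 | hu1
    · have e1 : ‖Complex.exp (Complex.I * (u : ℂ)) - 1‖ ≤ 2 := by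
        rw [Complex.norm_exp_I_mul_ofReal_sub_one, norm_mul, Real.norm_eq_abs, Real.norm_eq_abs]
        have := Real.abs_sin_le_one (u / 2)
        norm_num
        linarith
      have e2 : ‖Complex.exp (Complex.I * (u : ℂ)) - 1‖ ^ 2 ≤ 4 := by
        nlinarith [norm_nonneg (Complex.exp (Complex.I * (u : ℂ)) - 1)]
      have e3 : |u| ^ (-1 - 2 * τ) ≤ ((1 + |u|) / 2) ^ (-1 - 2 * τ) := by
        apply Real.rpow_le_rpow_of_nonpos (by linarith) (by linarith) (by linarith)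
      have e4 : 0 ≤ |u| ^ (-1 - 2 * τ) := Real.rpow_nonneg hu _
      have e5 : -1 - 2 * τ = -(1 + 2 * τ) := by ring
      rw [e5] at e3 e4 ⊢
      rw [← e0] at e3
      nlinarith
    · have e1 : ‖Complex.exp (Complex.I * (u : ℂ)) - 1‖ ≤ |u| :=
        Real.norm_exp_I_mul_ofReal_sub_one_le
      have e2 : |u| ^ (-1 - 2 * τ) * ‖Complex.exp (Complex.I * (u : ℂ)) - 1‖ ^ 2 ≤ 1 := by
        rcases eq_or_lt_of_le hu with h0 | h0
        · rw [← h0] at e1
          have : ‖Complex.exp (Complex.I * (u : ℂ)) - 1‖ = 0 := le_antisymm e1 (norm_nonneg _)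
          rw [this]
          norm_num
        · have e3 : ‖Complex.exp (Complex.I * (u : ℂ)) - 1‖ ^ 2 ≤ |u| ^ 2 :=
            pow_le_pow_left₀ (norm_nonneg _) e1 2
          have e4 : |u| ^ (-1 - 2 * τ) * |u| ^ 2 = |u| ^ (1 - 2 * τ) := by
            rw [← Real.rpow_natCast |u| 2, ← Real.rpow_add h0]
            congr 1
            push_cast
            ring
          calc |u| ^ (-1 - 2 * τ) * ‖Complex.exp (Complex.I * (u : ℂ)) - 1‖ ^ 2
              ≤ |u| ^ (-1 - 2 * τ) * |u| ^ 2 :=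
                mul_le_mul_of_nonneg_left e3 (Real.rpow_nonneg hu _)
            _ = |u| ^ (1 - 2 * τ) := e4
            _ ≤ 1 := Real.rpow_le_one hu hu1.le (by linarith)
      have e5 : 1 ≤ (1 + |u|) ^ (-(1 + 2 * τ)) * 2 ^ (1 + 2 * τ) := by
        rw [e0]
        exact Real.one_le_rpow_of_pos_of_le_one_of_nonpos (by linarith) (by linarith)
          (by linarith)
      linarith
  unfold ker
  refine ne_top_of_le_ne_top ?_ (lintegral_mono fun u => ENNReal.ofReal_le_ofReal (hb u))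
  exact (hI.const_mul _).lintegral_lt_top.ne

theorem ker_meas (τ r : ℝ) : Measurable fun u : ℝ =>
    ENNReal.ofReal (|u| ^ (-1 - 2 * τ) *
      ‖Complex.exp (Complex.I * ((2 * Real.pi * r * u : ℝ) : ℂ)) - 1‖ ^ 2) := by
  fun_prop

theorem ker_meas' (τ : ℝ) : Measurable fun u : ℝ =>
    ENNReal.ofReal (|u| ^ (-1 - 2 * τ) * ‖Complex.exp (Complex.I * (u : ℂ)) - 1‖ ^ 2) := by
  fun_prop

theorem ker_pos (τ : ℝ) : 0 < ker τ := by
  unfold ker
  rw [lintegral_pos_iff_support (ker_meas' τ)]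
  have h1 : Ioo (0 : ℝ) 1 ⊆ Function.support fun u : ℝ =>
      ENNReal.ofReal (|u| ^ (-1 - 2 * τ) * ‖Complex.exp (Complex.I * (u : ℂ)) - 1‖ ^ 2) := by
    intro u hu
    rw [Function.mem_support, ne_eq, ENNReal.ofReal_eq_zero, not_le]
    have hu0 : 0 < |u| := abs_pos.2 hu.1.ne'
    apply mul_pos (Real.rpow_pos_of_pos hu0 _)
    apply pow_pos
    rw [Complex.norm_exp_I_mul_ofReal_sub_one, norm_pos_iff]
    have : 0 < Real.sin (u / 2) := by
      apply Real.sin_pos_of_pos_of_lt_pi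
      · linarith [hu.1]
      · linarith [hu.2, Real.pi_gt_three]
    positivity
  refine lt_of_lt_of_le ?_ (measure_mono h1)
  rw [Real.volume_Ioo]
  norm_num

theorem ker_scale {τ : ℝ} (h1 : 0 < τ) (r : ℝ) :
    ∫⁻ u : ℝ, ENNReal.ofReal (|u| ^ (-1 - 2 * τ) *
      ‖Complex.exp (Complex.I * ((2 * Real.pi * r * u : ℝ) : ℂ)) - 1‖ ^ 2) =
      ENNReal.ofReal (|2 * Real.pi * r| ^ (2 * τ)) * ker τ := by
  rcases eq_or_ne (2 * Real.pi * r) 0 with h0 | h0
  · rw [h0, abs_zero, Real.zero_rpow (by linarith), ENNReal.ofReal_zero, zero_mul]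
    simp
  · obtain ⟨a, ha⟩ : ∃ a, a = 2 * Real.pi * r := ⟨_, rfl⟩
    rw [← ha] at h0 ⊢
    have ha' : 0 < |a| := abs_pos.2 h0
    have h2 := lintegral_map (μ := (volume : Measure ℝ)) (ker_meas' τ) (g := fun x => x * a)
      (by fun_prop)
    rw [Real.map_volume_mul_right h0, lintegral_smul_measure] at h2
    have h3 : ∀ u : ℝ, ENNReal.ofReal (|u| ^ (-1 - 2 * τ) *
        ‖Complex.exp (Complex.I * ((a * u : ℝ) : ℂ)) - 1‖ ^ 2) =
        ENNReal.ofReal (|a| ^ (1 + 2 * τ)) * ENNReal.ofReal (|u * a| ^ (-1 - 2 * τ) *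
          ‖Complex.exp (Complex.I * ((u * a : ℝ) : ℂ)) - 1‖ ^ 2) := by
      intro u
      rw [← ENNReal.ofReal_mul (Real.rpow_nonneg ha'.le _), mul_comm u a, abs_mul,
        Real.mul_rpow ha'.le (abs_nonneg _)]
      congr 1
      have e1 : |a| ^ (1 + 2 * τ) * |a| ^ (-1 - 2 * τ) = 1 := by
        rw [← Real.rpow_add ha', show 1 + 2 * τ + (-1 - 2 * τ) = 0 by ring, Real.rpow_zero]
      calc |u| ^ (-1 - 2 * τ) * ‖Complex.exp (Complex.I * ((a * u : ℝ) : ℂ)) - 1‖ ^ 2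
          = (|a| ^ (1 + 2 * τ) * |a| ^ (-1 - 2 * τ)) * (|u| ^ (-1 - 2 * τ) *
            ‖Complex.exp (Complex.I * ((a * u : ℝ) : ℂ)) - 1‖ ^ 2) := by rw [e1, one_mul]
        _ = _ := by ring
    rw [lintegral_congr h3, lintegral_const_mul' _ _ ENNReal.ofReal_ne_top, ← h2, smul_eq_mul]
    unfold ker
    rw [← mul_assoc, ← ENNReal.ofReal_mul (Real.rpow_nonneg ha'.le _), abs_inv,
      ← Real.rpow_neg_one |a|, ← Real.rpow_add ha', show 1 + 2 * τ + -1 = 2 * τ by ring]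

/-! ### Nice functions -/

theorem slice {h : S × ℝ → ℝ} (hn : Nice univ h) (w : S) :
    ContDiff ℝ ((⊤ : ℕ∞) : WithTop ℕ∞) (fun p => h (w, p)) ∧
      HasCompactSupport (fun p => h (w, p)) := by
  obtain ⟨M, B, -, -, -, hz⟩ := Hrdx.bdd hn
  obtain ⟨g, hg, -, hh, -⟩ := hn
  constructor
  · have h1 : (fun p => h (w, p)) = fun p => g ((w : E), p) := funext fun p => hh (w, p)
    rw [h1]
    exact hg.comp (by fun_prop)
  · apply HasCompactSupport.of_support_subset_isCompact (K := Icc (-M) M) isCompact_Icc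
    intro p hp
    by_contra hcon
    apply hp
    apply hz
    rw [mem_Icc, ← abs_le, not_le] at hcon
    exact hcon

theorem nice_d {h : S × ℝ → ℝ} (hn : Nice univ h) :
    Nice univ (fun z => deriv (fun p => h (z.1, p)) z.2) := by
  obtain ⟨g, hg, ⟨M, hM⟩, hh, -⟩ := hn
  refine ⟨fun y => fderiv ℝ g y (0, 1), ?_, ⟨M + 1, ?_⟩, ?_, subset_univ _⟩
  · exact (hg.fderiv_right (m := ((⊤ : ℕ∞) : WithTop ℕ∞)) (by simp)).clm_apply contDiff_const
  · intro x p hp
    have h1 : g =ᶠ[𝓝 (x, p)] fun _ => 0 := by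
      have hopen : IsOpen {y : E × ℝ | M < |y.2|} := isOpen_lt continuous_const (by fun_prop)
      have hmem : (x, p) ∈ {y : E × ℝ | M < |y.2|} := by
        show M < |p|
        linarith
      filter_upwards [hopen.mem_nhds hmem] with y hy
      exact hM y.1 y.2 (le_of_lt hy)
    show fderiv ℝ g (x, p) (0, 1) = 0
    rw [h1.fderiv_eq]
    simp
  · intro z
    have h1 : (fun p => h (z.1, p)) = fun p => g ((z.1 : E), p) := funext fun p => hh (z.1, p)
    show deriv (fun p => h (z.1, p)) z.2 = fderiv ℝ g ((z.1 : E), z.2) (0, 1)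
    rw [h1]
    have hd : HasFDerivAt g (fderiv ℝ g ((z.1 : E), z.2)) ((z.1 : E), z.2) :=
      (hg.differentiable (by simp) _).hasFDerivAt
    have h2 : HasDerivAt (fun p : ℝ => ((z.1 : E), p)) ((0 : E), (1 : ℝ)) z.2 :=
      (hasDerivAt_const z.2 (z.1 : E)).prodMk (hasDerivAt_id z.2)
    exact (hd.comp_hasDerivAt z.2 h2).deriv

theorem ftp_meas {h : S × ℝ → ℝ} (hn : Nice univ h) :
    StronglyMeasurable fun z : S × ℝ => ftp h z.1 z.2 := by
  have hc := Hrdx.cont hn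
  have h1 : StronglyMeasurable (Function.uncurry fun (z : S × ℝ) (p : ℝ) =>
      (h (z.1, p) : ℂ) * Complex.exp (-2 * Real.pi * Complex.I * ((z.2 * p : ℝ) : ℂ))) := by
    apply Continuous.stronglyMeasurable
    simp only [Function.uncurry_def]
    fun_prop
  exact h1.integral_prod_right

/-- Plancherel on `S × ℝ` -/
theorem planchS {h : S × ℝ → ℝ} (hn : Nice univ h) :
    ∫⁻ z : S × ℝ, ENNReal.ofReal (‖ftp h z.1 z.2‖ ^ 2) ∂mu =
      ∫⁻ z : S × ℝ, ENNReal.ofReal (h z ^ 2) ∂mu := by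
  have hc := Hrdx.cont hn
  have hm := (ftp_meas hn).measurable
  have hhm := hc.measurable
  rw [lintegral_prod _ (by fun_prop), lintegral_prod _ (by fun_prop)]
  refine lintegral_congr fun w => ?_
  exact planch (slice hn w).1 (slice hn w).2

theorem nice_fin {h : S × ℝ → ℝ} (hn : Nice univ h) :
    ∫⁻ z : S × ℝ, ENNReal.ofReal (h z ^ 2) ∂mu ≠ ⊤ := by
  obtain ⟨M, B, hM, hB, hb, hz⟩ := Hrdx.bdd hn
  have hle : ∀ z : S × ℝ, ENNReal.ofReal (h z ^ 2) ≤
      (Icc (-M) M).indicator (fun _ => ENNReal.ofReal (B ^ 2)) z.2 := by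
    intro z
    by_cases hz1 : z.2 ∈ Icc (-M) M
    · rw [indicator_of_mem hz1]
      apply ENNReal.ofReal_le_ofReal
      rw [← sq_abs]
      exact pow_le_pow_left₀ (abs_nonneg _) (hb z) 2
    · rw [indicator_of_notMem hz1]
      have : h z = 0 := by
        apply hz
        by_contra hc
        rw [not_lt, abs_le] at hc
        exact hz1 hc
      rw [this]
      simp
  refine ne_top_of_le_ne_top ?_ (lintegral_mono hle)
  have hmeas : Measurable ((Icc (-M) M).indicator (fun _ : ℝ => ENNReal.ofReal (B ^ 2))) :=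
    Measurable.indicator measurable_const measurableSet_Icc
  rw [lintegral_prod (fun z : S × ℝ =>
    (Icc (-M) M).indicator (fun _ : ℝ => ENNReal.ofReal (B ^ 2)) z.2)
    (hmeas.comp measurable_snd).aemeasurable]
  simp only [lintegral_const]
  apply ENNReal.mul_ne_top
  · rw [lintegral_indicator measurableSet_Icc, setLIntegral_const]
    apply ENNReal.mul_ne_top ENNReal.ofReal_ne_top
    rw [Real.volume_Icc]
    exact ENNReal.ofReal_ne_top
  · exact measure_ne_top _ _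

theorem ftp_deriv {h : S × ℝ → ℝ} (hn : Nice univ h) (w : S) (r : ℝ) :
    ftp (fun z => deriv (fun p => h (z.1, p)) z.2) w r =
      (2 * Real.pi * Complex.I * r) * ftp h w r :=
  T_deriv (slice hn w).1 (slice hn w).2 r

theorem weight_fin {τ : ℝ} (h1 : 0 < τ) (h2 : τ < 1 / 2) {h : S × ℝ → ℝ} (hn : Nice univ h) :
    ∫⁻ z : S × ℝ, ENNReal.ofReal (|2 * Real.pi * z.2| ^ (2 * τ) * ‖ftp h z.1 z.2‖ ^ 2) ∂mu ≠ ⊤ := by
  have hle : ∀ z : S × ℝ, ENNReal.ofReal (|2 * Real.pi * z.2| ^ (2 * τ) * ‖ftp h z.1 z.2‖ ^ 2) ≤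
      ENNReal.ofReal (‖ftp h z.1 z.2‖ ^ 2) +
      ENNReal.ofReal (‖ftp (fun z => deriv (fun p => h (z.1, p)) z.2) z.1 z.2‖ ^ 2) := by
    intro z
    rw [← ENNReal.ofReal_add (by positivity) (by positivity)]
    apply ENNReal.ofReal_le_ofReal
    rw [ftp_deriv hn, norm_mul, mul_pow]
    have e1 : ‖(2 * Real.pi * Complex.I * (z.2 : ℂ))‖ = |2 * Real.pi * z.2| := by
      rw [norm_mul, norm_mul, norm_mul, Complex.norm_I, Complex.norm_real, Complex.norm_real,
        Complex.norm_ofNat, mul_one, Real.norm_eq_abs, Real.norm_eq_abs, abs_mul, abs_mul]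
      norm_num
    rw [e1]
    have e2 : |2 * Real.pi * z.2| ^ (2 * τ) ≤ 1 + |2 * Real.pi * z.2| ^ 2 := by
      rcases le_or_gt |2 * Real.pi * z.2| 1 with h3 | h3
      · have := Real.rpow_le_one (abs_nonneg _) h3 (show 0 ≤ 2 * τ by linarith)
        have h4 : 0 ≤ |2 * Real.pi * z.2| ^ 2 := by positivity
        linarith
      · have h4 := Real.rpow_le_rpow_of_exponent_le h3.le (show 2 * τ ≤ 2 by linarith)
        rw [Real.rpow_two] at h4
        linarith
    have e3 : 0 ≤ ‖ftp h z.1 z.2‖ ^ 2 := by positivity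
    nlinarith
  refine ne_top_of_le_ne_top ?_ (lintegral_mono hle)
  have hm := (ftp_meas hn).measurable
  rw [lintegral_add_left (by fun_prop), planchS hn, planchS (nice_d hn)]
  exact ENNReal.add_ne_top.2 ⟨nice_fin hn, nice_fin (nice_d hn)⟩

end Gag1x

open Gag1x in
theorem thm_Gag1 (hPJ : St_PJ) : St_Gag1 := by
  intro τ h1 h2
  have hk1 := ker_ne_top h1 h2
  have hk2 := ker_pos τ
  refine ⟨(ker τ).toReal, ENNReal.toReal_pos hk2.ne' hk1, fun h hn => ?_⟩
  have hs : |-τ| < 1 / 2 := by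
    rw [abs_neg, abs_of_pos h1]
    exact h2
  obtain ⟨-, -, -, -, -, -, -, hpj, -⟩ := (hPJ (-τ) hs).1 h hn
  have hinn := (hpj h hn).2.2
  have hc := Hrdx.cont hn
  have hhm := hc.measurable
  have hm := (ftp_meas hn).measurable
  -- the norm
  have hnorm : ENNReal.ofReal (‖JK (-τ) h‖ ^ 2) =
      ∫⁻ z : S × ℝ, ENNReal.ofReal (|2 * Real.pi * z.2| ^ (2 * τ) * ‖ftp h z.1 z.2‖ ^ 2) ∂mu := by
    rw [real_inner_self_eq_norm_sq] at hinn
    have e1 : ∀ z : S × ℝ, ((|2 * Real.pi * z.2| ^ (-2 * -τ) : ℝ) : ℂ) * ftp h z.1 z.2 *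
        (starRingEnd ℂ) (ftp h z.1 z.2) =
        ((|2 * Real.pi * z.2| ^ (2 * τ) * ‖ftp h z.1 z.2‖ ^ 2 : ℝ) : ℂ) := by
      intro z
      rw [mul_assoc, Complex.mul_conj, Complex.normSq_eq_norm_sq]
      push_cast
      rw [show -2 * -τ = 2 * τ by ring]
    simp_rw [e1] at hinn
    rw [integral_complex_ofReal, Complex.ofReal_re] at hinn
    rw [hinn]
    apply ofReal_integral_eq_lintegral_ofReal
    · refine ⟨by fun_prop, ?_⟩
      rw [hasFiniteIntegral_iff_ofReal (Eventually.of_forall fun z => by positivity)]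
      exact (weight_fin h1 h2 hn).lt_top
    · exact Eventually.of_forall fun z => by positivity
  have hu : ∀ u : ℝ, ∫⁻ z : S × ℝ, ENNReal.ofReal (|u| ^ (-1 - 2 * τ) *
      (h (z.1, z.2 + u) - h z) ^ 2) ∂mu = ∫⁻ z : S × ℝ, ENNReal.ofReal (|u| ^ (-1 - 2 * τ) *
      ‖Complex.exp (Complex.I * ((2 * Real.pi * z.2 * u : ℝ) : ℂ)) - 1‖ ^ 2) *
        ENNReal.ofReal (‖ftp h z.1 z.2‖ ^ 2) ∂mu := by
    intro u
    rw [lintegral_prod _ (by fun_prop), lintegral_prod _ (by fun_prop)]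
    refine lintegral_congr fun w => ?_
    obtain ⟨hs1, hs2⟩ := slice hn w
    have hp := planch (f := fun p => h (w, p + u) - h (w, p))
      ((hs1.comp (by fun_prop : ContDiff ℝ ((⊤ : ℕ∞) : WithTop ℕ∞) fun p : ℝ => p + u)).sub hs1)
      ((hs2.comp_homeomorph (Homeomorph.addRight u)).sub hs2)
    have e0 : 0 ≤ |u| ^ (-1 - 2 * τ) := Real.rpow_nonneg (abs_nonneg _) _
    calc ∫⁻ p : ℝ, ENNReal.ofReal (|u| ^ (-1 - 2 * τ) * (h (w, p + u) - h (w, p)) ^ 2)
        = ENNReal.ofReal (|u| ^ (-1 - 2 * τ)) *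
          ∫⁻ p : ℝ, ENNReal.ofReal ((h (w, p + u) - h (w, p)) ^ 2) := by
          rw [← lintegral_const_mul' _ _ ENNReal.ofReal_ne_top]
          refine lintegral_congr fun p => ?_
          rw [ENNReal.ofReal_mul e0]
      _ = ENNReal.ofReal (|u| ^ (-1 - 2 * τ)) *
          ∫⁻ r : ℝ, ENNReal.ofReal (‖T (fun p => h (w, p + u) - h (w, p)) r‖ ^ 2) := by rw [hp]
      _ = _ := by
          rw [← lintegral_const_mul' _ _ ENNReal.ofReal_ne_top]
          refine lintegral_congr fun r => ?_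
          rw [T_shift hs1 hs2 u r, norm_mul, mul_pow, ENNReal.ofReal_mul (by positivity),
            ← mul_assoc, ← ENNReal.ofReal_mul e0]
          rfl
  rw [lintegral_congr hu, lintegral_lintegral_swap]
  · calc ∫⁻ z : S × ℝ, (∫⁻ u : ℝ, ENNReal.ofReal (|u| ^ (-1 - 2 * τ) *
          ‖Complex.exp (Complex.I * ((2 * Real.pi * z.2 * u : ℝ) : ℂ)) - 1‖ ^ 2) *
            ENNReal.ofReal (‖ftp h z.1 z.2‖ ^ 2)) ∂mu
        = ∫⁻ z : S × ℝ, ker τ *
          ENNReal.ofReal (|2 * Real.pi * z.2| ^ (2 * τ) * ‖ftp h z.1 z.2‖ ^ 2) ∂mu := by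
          refine lintegral_congr fun z => ?_
          rw [lintegral_mul_const _ (ker_meas τ z.2), ker_scale h1,
            ENNReal.ofReal_mul (Real.rpow_nonneg (abs_nonneg _) _)]
          ring
      _ = ker τ * ENNReal.ofReal (‖JK (-τ) h‖ ^ 2) := by
          rw [lintegral_const_mul' _ _ hk1, hnorm]
      _ = _ := by
          rw [ENNReal.ofReal_mul ENNReal.toReal_nonneg, ENNReal.ofReal_toReal hk1]
  · apply Measurable.aemeasurable
    simp only [Function.uncurry_def]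
    fun_prop

end Pool.Agent.QWP
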