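import Pool.Agent.QWP.StA

set_option autoImplicit false

/-!
# QWP Hs: calculus of the homogeneous Sobolev norms `hs a`
-/

open MeasureTheory Filter Topology Set
open scoped ENNReal NNReal RealInnerProductSpace

namespace Pool.Agent.QWP

open Pool.Agent.QWE (E S sg mu K toK tau sh dl rev gr ig IsTest pd lap Rad dRad Rk dRk c0 WD Sm SmE IsSch half shr WTo)

namespace Hsx

/-- finiteness of `hs a f` -/
lemma int (hI : St_IsoP) {f : E → ℝ} (hf : IsSch f) {a : ℝ} (ha : -5 / 2 < a) :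
    Integrable (fun ξ => (2 * Real.pi * ‖ξ‖) ^ (2 * a) * ‖ft f ξ‖ ^ 2) volume :=
  (hI 0 f f (by norm_num) hf hf).2.2.2.2.2.2.2 a ha

/-- Plancherel -/
lemma pl (hF : St_Ft) {f : E → ℝ} (hf : IsSch f) : ∫ ξ, ‖ft f ξ‖ ^ 2 = ∫ x, f x ^ 2 := by
  have h1 := (hF.2 f hf).2.2.1 f hf
  have h2 : ∀ ξ, ft f ξ * (starRingEnd ℂ) (ft f ξ) = ((‖ft f ξ‖ ^ 2 : ℝ) : ℂ) := by
    intro ξ
    rw [Complex.mul_conj, Complex.normSq_eq_norm_sq]
  simp only [h2] at h1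
  rw [integral_complex_ofReal, Complex.ofReal_re] at h1
  rw [← h1]
  exact integral_congr_ae (Eventually.of_forall fun x => by show f x * f x = f x ^ 2; ring)

lemma npd (hF : St_Ft) {f : E → ℝ} (hf : IsSch f) (i : Fin 5) (ξ : E) :
    ‖ft (pd i f) ξ‖ ^ 2 = (2 * Real.pi * ξ i) ^ 2 * ‖ft f ξ‖ ^ 2 := by
  rw [(hF.2 f hf).2.2.2.1 i ξ, norm_mul, mul_pow]
  congr 1
  rw [norm_mul, norm_mul, norm_mul, Complex.norm_real, Complex.norm_real, Complex.norm_I,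
    Complex.norm_ofNat, mul_one, mul_pow, mul_pow, Real.norm_eq_abs, Real.norm_eq_abs, sq_abs,
    sq_abs, mul_pow, mul_pow]

lemma nlap (hF : St_Ft) {f : E → ℝ} (hf : IsSch f) (ξ : E) :
    ‖ft (lap f) ξ‖ ^ 2 = (2 * Real.pi * ‖ξ‖) ^ 4 * ‖ft f ξ‖ ^ 2 := by
  rw [(hF.2 f hf).2.2.2.2.1 ξ, norm_mul, mul_pow]
  congr 1
  rw [norm_neg, Complex.norm_real, Real.norm_eq_abs, sq_abs]
  ring

lemma ae_ne : ∀ᵐ ξ : E, ξ ≠ 0 := by
  have h : (volume : Measure E) {0} = 0 := measure_singleton 0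
  exact compl_mem_ae_iff.2 h

/-- first clause -/
lemma c1 (hF : St_Ft) {f : E → ℝ} (hf : IsSch f) : hs 0 f = ∫ x, f x ^ 2 := by
  rw [hs, ← pl hF hf]
  refine integral_congr_ae (Eventually.of_forall fun ξ => ?_)
  show (2 * Real.pi * ‖ξ‖) ^ (2 * (0 : ℝ)) * ‖ft f ξ‖ ^ 2 = ‖ft f ξ‖ ^ 2
  rw [mul_zero, Real.rpow_zero, one_mul]

/-- derivatives -/
lemma c6 (hF : St_Ft) (hI : St_IsoP) {a : ℝ} {f : E → ℝ} (ha : -3 / 2 < a) (hf : IsSch f) :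
    ∑ i, hs a (pd i f) = hs (a + 1) f := by
  have h0 : ∀ i ∈ (Finset.univ : Finset (Fin 5)),
      Integrable (fun ξ => (2 * Real.pi * ‖ξ‖) ^ (2 * a) * ‖ft (pd i f) ξ‖ ^ 2) volume := fun i _ =>
    int hI ((hF.2 f hf).2.2.2.2.2.2.2.1 i) (by linarith)
  unfold hs
  rw [← integral_finsetSum _ h0]
  refine integral_congr_ae ?_
  filter_upwards [ae_ne] with ξ hξ
  have hp : 0 < 2 * Real.pi * ‖ξ‖ := by
    have := norm_pos_iff.2 hξ
    positivity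
  have h1 : ∑ i : Fin 5, (ξ i) ^ 2 = ‖ξ‖ ^ 2 := by
    rw [EuclideanSpace.real_norm_sq_eq]
  calc ∑ i, (2 * Real.pi * ‖ξ‖) ^ (2 * a) * ‖ft (pd i f) ξ‖ ^ 2
      = ∑ i : Fin 5, (2 * Real.pi * ‖ξ‖) ^ (2 * a) * (4 * Real.pi ^ 2 * ‖ft f ξ‖ ^ 2) * (ξ i) ^ 2 := by
        refine Finset.sum_congr rfl fun i _ => ?_
        rw [npd hF hf]
        ring
    _ = (2 * Real.pi * ‖ξ‖) ^ (2 * a) * (4 * Real.pi ^ 2 * ‖ft f ξ‖ ^ 2) * ‖ξ‖ ^ 2 := by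
        rw [← Finset.mul_sum, h1]
    _ = (2 * Real.pi * ‖ξ‖) ^ (2 * (a + 1)) * ‖ft f ξ‖ ^ 2 := by
        rw [mul_add, mul_one, Real.rpow_add hp, Real.rpow_two]
        ring

lemma c3 (hF : St_Ft) {f : E → ℝ} (hf : IsSch f) : hs 2 f = ∫ x, lap f x ^ 2 := by
  rw [hs, ← pl hF (hF.2 f hf).2.2.2.2.2.2.2.2.1]
  refine integral_congr_ae (Eventually.of_forall fun ξ => ?_)
  show (2 * Real.pi * ‖ξ‖) ^ (2 * (2 : ℝ)) * ‖ft f ξ‖ ^ 2 = ‖ft (lap f) ξ‖ ^ 2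
  rw [nlap hF hf, show (2 * (2 : ℝ)) = ((4 : ℕ) : ℝ) by norm_num, Real.rpow_natCast]

/-- geometric interpolation of two integrable functions -/
lemma hoelder {A B : E → ℝ} (hA : Integrable A volume) (hB : Integrable B volume)
    (hA0 : ∀ x, 0 ≤ A x) (hB0 : ∀ x, 0 ≤ B x) {θ : ℝ} (h0 : 0 < θ) (h1 : θ < 1) :
    ∫ x, A x ^ (1 - θ) * B x ^ θ ≤ (∫ x, A x) ^ (1 - θ) * (∫ x, B x) ^ θ := by
  have h2 : 0 < 1 - θ := by linarith
  have hpq : ((1 - θ)⁻¹).HolderConjugate θ⁻¹ := by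
    rw [Real.holderConjugate_iff]
    refine ⟨(one_lt_inv₀ h2).2 (by linarith), ?_⟩
    rw [inv_inv, inv_inv]
    ring
  have key : ∀ (C : E → ℝ) (t : ℝ), Integrable C volume → (∀ x, 0 ≤ C x) → 0 < t →
      MemLp (fun x => C x ^ t) (ENNReal.ofReal t⁻¹) volume := by
    intro C t hC hC0 ht
    have ht' : 0 < t⁻¹ := inv_pos.2 ht
    have hm : AEStronglyMeasurable (fun x => C x ^ t) volume :=
      (Real.continuous_rpow_const ht.le).comp_aestronglyMeasurable hC.aestronglyMeasurable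
    refine (integrable_norm_rpow_iff hm ?_ ENNReal.ofReal_ne_top).1 ?_
    · exact (ENNReal.ofReal_pos.2 ht').ne'
    · refine hC.congr (Eventually.of_forall fun x => ?_)
      show C x = ‖C x ^ t‖ ^ (ENNReal.ofReal t⁻¹).toReal
      rw [ENNReal.toReal_ofReal ht'.le, Real.norm_of_nonneg (Real.rpow_nonneg (hC0 x) _),
        ← Real.rpow_mul (hC0 x), mul_inv_cancel₀ ht.ne', Real.rpow_one]
  have h3 := integral_mul_le_Lp_mul_Lq_of_nonneg hpq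
    (f := fun x => A x ^ (1 - θ)) (g := fun x => B x ^ θ) (μ := (volume : Measure E))
    (Eventually.of_forall fun x => Real.rpow_nonneg (hA0 x) _)
    (Eventually.of_forall fun x => Real.rpow_nonneg (hB0 x) _)
    (key A (1 - θ) hA hA0 h2) (key B θ hB hB0 h0)
  have h4 : ∀ (C : E → ℝ) (t : ℝ), (∀ x, 0 ≤ C x) → 0 < t →
      (∫ x, (C x ^ t) ^ t⁻¹) = ∫ x, C x := by
    intro C t hC0 ht
    refine integral_congr_ae (Eventually.of_forall fun x => ?_)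
    show (C x ^ t) ^ t⁻¹ = C x
    rw [← Real.rpow_mul (hC0 x), mul_inv_cancel₀ ht.ne', Real.rpow_one]
  rw [h4 A (1 - θ) hA0 h2, h4 B θ hB0 h0, one_div, one_div, inv_inv, inv_inv] at h3
  exact h3

/-- interpolation -/
lemma c5 (hI : St_IsoP) (n : ℕ) (a : ℝ) (f : E → ℝ) (hn : 0 < n) (ha : 0 ≤ a) (han : a ≤ n)
    (hf : IsSch f) : hs a f ≤ hs 0 f ^ (1 - a / n) * hs n f ^ (a / n) := by
  have hn' : (0 : ℝ) < n := by exact_mod_cast hn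
  rcases ha.eq_or_lt with rfl | ha
  · rw [zero_div, sub_zero, Real.rpow_one, Real.rpow_zero, mul_one]
  rcases han.eq_or_lt with rfl | han
  · rw [div_self hn'.ne', sub_self, Real.rpow_one, Real.rpow_zero, one_mul]
  have h0 : 0 < a / n := div_pos ha hn'
  have h1 : a / n < 1 := (div_lt_one hn').2 han
  have h2 := hoelder (int hI hf (a := 0) (by norm_num)) (int hI hf (a := n) (by linarith))
    (fun ξ => by positivity) (fun ξ => by positivity) h0 h1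
  refine le_of_eq_of_le ?_ h2
  rw [hs]
  refine integral_congr_ae (Eventually.of_forall fun ξ => ?_)
  show (2 * Real.pi * ‖ξ‖) ^ (2 * a) * ‖ft f ξ‖ ^ 2 =
    ((2 * Real.pi * ‖ξ‖) ^ (2 * (0 : ℝ)) * ‖ft f ξ‖ ^ 2) ^ (1 - a / n) *
      ((2 * Real.pi * ‖ξ‖) ^ (2 * (n : ℝ)) * ‖ft f ξ‖ ^ 2) ^ (a / n)
  have hx : 0 ≤ 2 * Real.pi * ‖ξ‖ := by positivity
  have hy : 0 ≤ ‖ft f ξ‖ ^ 2 := by positivity
  rw [mul_zero, Real.rpow_zero, one_mul, Real.mul_rpow (Real.rpow_nonneg hx _) hy,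
    ← Real.rpow_mul hx, show 2 * (n : ℝ) * (a / n) = 2 * a by field_simp, mul_left_comm,
    ← Real.rpow_add' hy (by rw [sub_add_cancel]; exact one_ne_zero), sub_add_cancel,
    Real.rpow_one]

/-- Fourier transform of a dilated function -/
lemma ft_dil (f : E → ℝ) {l : ℝ} (hl : 0 < l) (ξ : E) :
    ft (fun x => f (l • x)) ξ = ((l ^ 5)⁻¹ : ℝ) • ft f (l⁻¹ • ξ) := by
  have h1 := Measure.integral_comp_smul (volume : Measure E) (fun y : E => (f y : ℂ) *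
    Complex.exp (-2 * Real.pi * Complex.I * ((inner ℝ y (l⁻¹ • ξ) : ℝ) : ℂ))) l
  rw [finrank_euclideanSpace, Fintype.card_fin, abs_of_pos (by positivity)] at h1
  rw [ft, ft, ← h1]
  refine integral_congr_ae (Eventually.of_forall fun x => ?_)
  show (f (l • x) : ℂ) * Complex.exp (-2 * Real.pi * Complex.I * ((inner ℝ x ξ : ℝ) : ℂ)) =
    (f (l • x) : ℂ) * Complex.exp (-2 * Real.pi * Complex.I *
      ((inner ℝ (l • x) (l⁻¹ • ξ) : ℝ) : ℂ))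
  rw [real_inner_smul_left, real_inner_smul_right, ← mul_assoc, mul_inv_cancel₀ hl.ne', one_mul]

/-- scaling -/
lemma c7 (a l : ℝ) (f : E → ℝ) (hl : 0 < l) :
    hs a (fun x => f (l • x)) = l ^ (2 * a - 5) * hs a f := by
  have h1 := Measure.integral_comp_smul (volume : Measure E) (fun η : E =>
    (2 * Real.pi * ‖l • η‖) ^ (2 * a) * ‖((l ^ 5)⁻¹ : ℝ) • ft f η‖ ^ 2) l⁻¹
  rw [finrank_euclideanSpace, Fintype.card_fin, abs_of_pos (by positivity)] at h1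
  have h2 : hs a (fun x => f (l • x)) = ∫ x : E,
      (2 * Real.pi * ‖l • (l⁻¹ • x)‖) ^ (2 * a) * ‖((l ^ 5)⁻¹ : ℝ) • ft f (l⁻¹ • x)‖ ^ 2 := by
    rw [hs]
    refine integral_congr_ae (Eventually.of_forall fun ξ => ?_)
    show (2 * Real.pi * ‖ξ‖) ^ (2 * a) * ‖ft (fun x => f (l • x)) ξ‖ ^ 2 =
      (2 * Real.pi * ‖l • (l⁻¹ • ξ)‖) ^ (2 * a) * ‖((l ^ 5)⁻¹ : ℝ) • ft f (l⁻¹ • ξ)‖ ^ 2
    rw [ft_dil f hl, smul_smul, mul_inv_cancel₀ hl.ne', one_smul]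
  rw [h2, h1, hs, smul_eq_mul]
  have h3 : ∀ η : E, (2 * Real.pi * ‖l • η‖) ^ (2 * a) * ‖((l ^ 5)⁻¹ : ℝ) • ft f η‖ ^ 2 =
      (l ^ (2 * a) * ((l ^ 5)⁻¹) ^ 2) * ((2 * Real.pi * ‖η‖) ^ (2 * a) * ‖ft f η‖ ^ 2) := by
    intro η
    rw [norm_smul, norm_smul, Real.norm_of_nonneg hl.le,
      Real.norm_of_nonneg (show (0 : ℝ) ≤ (l ^ 5)⁻¹ by positivity),
      show 2 * Real.pi * (l * ‖η‖) = l * (2 * Real.pi * ‖η‖) by ring,
      Real.mul_rpow hl.le (by positivity)]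
    ring
  simp only [h3]
  rw [integral_const_mul, ← mul_assoc]
  congr 1
  rw [Real.rpow_sub hl, show (5 : ℝ) = ((5 : ℕ) : ℝ) by norm_num, Real.rpow_natCast]
  field_simp

lemma sch_add {f g : E → ℝ} (hf : IsSch f) (hg : IsSch g) : IsSch fun x => f x + g x := by
  obtain ⟨F, hF⟩ := hf
  obtain ⟨G, hG⟩ := hg
  refine ⟨F + G, fun x => ?_⟩
  show F x + G x = f x + g x
  rw [← hF, ← hG]

lemma sch_int {f : E → ℝ} (hf : IsSch f) : Integrable f volume := by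
  obtain ⟨F, hF⟩ := hf
  exact F.integrable.congr (Eventually.of_forall hF)

lemma ft_int {f : E → ℝ} (hf : IsSch f) (ξ : E) : Integrable (fun x => (f x : ℂ) *
    Complex.exp (-2 * Real.pi * Complex.I * ((inner ℝ x ξ : ℝ) : ℂ))) volume := by
  refine (sch_int hf).ofReal.mul_bdd (c := 1) ?_ (Eventually.of_forall fun x => ?_)
  · exact (by fun_prop : Continuous fun x : E =>
      Complex.exp (-2 * Real.pi * Complex.I * ((inner ℝ x ξ : ℝ) : ℂ))).aestronglyMeasurable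
  · rw [show -2 * (Real.pi : ℂ) * Complex.I * ((inner ℝ x ξ : ℝ) : ℂ) =
      ((-2 * Real.pi * inner ℝ x ξ : ℝ) : ℂ) * Complex.I by push_cast; ring,
      Complex.norm_exp_ofReal_mul_I]

lemma ft_add {f g : E → ℝ} (hf : IsSch f) (hg : IsSch g) (ξ : E) :
    ft (fun x => f x + g x) ξ = ft f ξ + ft g ξ := by
  rw [ft, ft, ft, ← integral_add (ft_int hf ξ) (ft_int hg ξ)]
  refine integral_congr_ae (Eventually.of_forall fun x => ?_)
  simp only [Complex.ofReal_add]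
  ring

lemma hs_nonneg (a : ℝ) (f : E → ℝ) : 0 ≤ hs a f :=
  integral_nonneg fun ξ => by
    show 0 ≤ (2 * Real.pi * ‖ξ‖) ^ (2 * a) * ‖ft f ξ‖ ^ 2
    positivity

/-- triangle inequality -/
lemma c8 (hI : St_IsoP) (a : ℝ) (f g : E → ℝ) (ha : -5 / 2 < a) (hf : IsSch f) (hg : IsSch g) :
    hs a (fun x => f x + g x) ^ (1 / 2 : ℝ) ≤ hs a f ^ (1 / 2 : ℝ) + hs a g ^ (1 / 2 : ℝ) := by
  have hA := int hI hf ha
  have hB := int hI hg ha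
  have h1 := hoelder hA hB (fun ξ => by positivity) (fun ξ => by positivity)
    (θ := 1 / 2) (by norm_num) (by norm_num)
  have h2 : ∀ ξ : E, ((2 * Real.pi * ‖ξ‖) ^ (2 * a) * ‖ft f ξ‖ ^ 2) ^ (1 - (1 / 2 : ℝ)) *
      ((2 * Real.pi * ‖ξ‖) ^ (2 * a) * ‖ft g ξ‖ ^ 2) ^ (1 / 2 : ℝ) =
      (2 * Real.pi * ‖ξ‖) ^ (2 * a) * (‖ft f ξ‖ * ‖ft g ξ‖) := by
    intro ξ
    have hw : 0 ≤ (2 * Real.pi * ‖ξ‖) ^ (2 * a) := by positivity
    rw [show (1 - (1 / 2 : ℝ)) = 1 / 2 by norm_num, ← Real.sqrt_eq_rpow, ← Real.sqrt_eq_rpow,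
      Real.sqrt_mul hw, Real.sqrt_mul hw, Real.sqrt_sq (norm_nonneg _),
      Real.sqrt_sq (norm_nonneg _)]
    calc √((2 * Real.pi * ‖ξ‖) ^ (2 * a)) * ‖ft f ξ‖ *
        (√((2 * Real.pi * ‖ξ‖) ^ (2 * a)) * ‖ft g ξ‖)
        = (√((2 * Real.pi * ‖ξ‖) ^ (2 * a)) * √((2 * Real.pi * ‖ξ‖) ^ (2 * a))) *
          (‖ft f ξ‖ * ‖ft g ξ‖) := by ring
      _ = _ := by rw [Real.mul_self_sqrt hw]
  simp only [h2] at h1
  rw [show (1 - (1 / 2 : ℝ)) = 1 / 2 by norm_num] at h1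
  have hC : Integrable (fun ξ : E => (2 * Real.pi * ‖ξ‖) ^ (2 * a) *
      (‖ft f ξ‖ * ‖ft g ξ‖)) volume := by
    have hm : AEStronglyMeasurable (fun ξ : E => (2 * Real.pi * ‖ξ‖) ^ (2 * a) *
        (‖ft f ξ‖ * ‖ft g ξ‖)) volume := by
      have h3 : (fun ξ : E => (2 * Real.pi * ‖ξ‖) ^ (2 * a) * (‖ft f ξ‖ * ‖ft g ξ‖)) =
          fun ξ => ((2 * Real.pi * ‖ξ‖) ^ (2 * a) * ‖ft f ξ‖ ^ 2) ^ (1 - (1 / 2 : ℝ)) *
      ((2 * Real.pi * ‖ξ‖) ^ (2 * a) * ‖ft g ξ‖ ^ 2) ^ (1 / 2 : ℝ) := funext fun ξ => (h2 ξ).symm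
      rw [h3]
      exact ((Real.continuous_rpow_const (by norm_num)).comp_aestronglyMeasurable
        hA.aestronglyMeasurable).mul
        ((Real.continuous_rpow_const (by norm_num)).comp_aestronglyMeasurable
        hB.aestronglyMeasurable)
    refine (hA.add hB).mono' hm (Eventually.of_forall fun ξ => ?_)
    have hw : 0 ≤ (2 * Real.pi * ‖ξ‖) ^ (2 * a) := by positivity
    rw [Real.norm_of_nonneg (by positivity)]
    show (2 * Real.pi * ‖ξ‖) ^ (2 * a) * (‖ft f ξ‖ * ‖ft g ξ‖) ≤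
      (2 * Real.pi * ‖ξ‖) ^ (2 * a) * ‖ft f ξ‖ ^ 2 +
        (2 * Real.pi * ‖ξ‖) ^ (2 * a) * ‖ft g ξ‖ ^ 2
    rw [← mul_add]
    refine mul_le_mul_of_nonneg_left ?_ hw
    nlinarith [sq_nonneg (‖ft f ξ‖ - ‖ft g ξ‖), sq_nonneg (‖ft f ξ‖), sq_nonneg (‖ft g ξ‖)]
  have h4 : hs a (fun x => f x + g x) ≤ hs a f + hs a g +
      2 * (hs a f ^ (1 / 2 : ℝ) * hs a g ^ (1 / 2 : ℝ)) := by
    have h5 : hs a (fun x => f x + g x) ≤ ∫ ξ : E, (((2 * Real.pi * ‖ξ‖) ^ (2 * a) *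
        ‖ft f ξ‖ ^ 2 + (2 * Real.pi * ‖ξ‖) ^ (2 * a) * ‖ft g ξ‖ ^ 2) +
        2 * ((2 * Real.pi * ‖ξ‖) ^ (2 * a) * (‖ft f ξ‖ * ‖ft g ξ‖))) := by
      rw [hs]
      refine integral_mono_of_nonneg (Eventually.of_forall fun ξ => ?_)
        ((hA.add hB).add (hC.const_mul 2)) (Eventually.of_forall fun ξ => ?_)
      · show 0 ≤ (2 * Real.pi * ‖ξ‖) ^ (2 * a) * ‖ft (fun x => f x + g x) ξ‖ ^ 2
        positivity
      · show (2 * Real.pi * ‖ξ‖) ^ (2 * a) * ‖ft (fun x => f x + g x) ξ‖ ^ 2 ≤ _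
        have hw : 0 ≤ (2 * Real.pi * ‖ξ‖) ^ (2 * a) := by positivity
        rw [ft_add hf hg]
        calc (2 * Real.pi * ‖ξ‖) ^ (2 * a) * ‖ft f ξ + ft g ξ‖ ^ 2
            ≤ (2 * Real.pi * ‖ξ‖) ^ (2 * a) * (‖ft f ξ‖ + ‖ft g ξ‖) ^ 2 :=
              mul_le_mul_of_nonneg_left
                (pow_le_pow_left₀ (norm_nonneg _) (norm_add_le _ _) 2) hw
          _ = _ := by ring
    have hAB : Integrable (fun ξ : E => (2 * Real.pi * ‖ξ‖) ^ (2 * a) * ‖ft f ξ‖ ^ 2 +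
        (2 * Real.pi * ‖ξ‖) ^ (2 * a) * ‖ft g ξ‖ ^ 2) volume := hA.add hB
    rw [integral_add hAB (hC.const_mul 2), integral_add hA hB, integral_const_mul] at h5
    refine h5.trans ?_
    exact add_le_add le_rfl (mul_le_mul_of_nonneg_left h1 (by norm_num))
  have h6 : ∀ x : ℝ, 0 ≤ x → (x ^ (1 / 2 : ℝ)) ^ 2 = x := by
    intro x hx
    rw [← Real.sqrt_eq_rpow, Real.sq_sqrt hx]
  have h7 : 0 ≤ hs a f ^ (1 / 2 : ℝ) := Real.rpow_nonneg (hs_nonneg a f) _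
  have h8 : 0 ≤ hs a g ^ (1 / 2 : ℝ) := Real.rpow_nonneg (hs_nonneg a g) _
  refine le_of_sq_le_sq ?_ (add_nonneg h7 h8)
  rw [h6 _ (hs_nonneg a _), add_sq, h6 _ (hs_nonneg a f), h6 _ (hs_nonneg a g)]
  linarith

end Hsx

/-- **Hs**: calculus of `hs` -/
theorem thm_Hs (hF : St_Ft) (hI : St_IsoP) : St_Hs := by
  have h2 : ∀ f : E → ℝ, IsSch f → hs 1 f = ∑ i, ∫ x, pd i f x ^ 2 := by
    intro f hf
    have h := Hsx.c6 hF hI (a := 0) (by norm_num) hf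
    rw [zero_add] at h
    rw [← h]
    exact Finset.sum_congr rfl fun i _ => Hsx.c1 hF ((hF.2 f hf).2.2.2.2.2.2.2.1 i)
  refine ⟨fun f hf => Hsx.c1 hF hf, h2, fun f hf => Hsx.c3 hF hf, fun f hf => ?_,
    fun n a f hn ha han hf => Hsx.c5 hI n a f hn ha han hf, fun a f ha hf => Hsx.c6 hF hI ha hf,
    fun a l f _ hl _ => Hsx.c7 a l f hl, fun a f g ha hf hg => Hsx.c8 hI a f g ha hf hg⟩
  have h3 := Hsx.c6 hF hI (a := 2) (by norm_num) hf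
  rw [show (2 : ℝ) + 1 = 3 by norm_num] at h3
  rw [← h3]
  refine Finset.sum_congr rfl fun i _ => ?_
  have hi := (hF.2 f hf).2.2.2.2.2.2.2.1 i
  have h4 := Hsx.c6 hF hI (a := 1) (by norm_num) hi
  rw [show (1 : ℝ) + 1 = 2 by norm_num] at h4
  rw [← h4]
  exact Finset.sum_congr rfl fun j _ => h2 _ ((hF.2 _ hi).2.2.2.2.2.2.2.1 j)

end Pool.Agent.QWP
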