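import Pool.Agent.QWP.StM
import Pool.Agent.QWP.FldP
import Pool.Agent.QWP.Hs

set_option autoImplicit false

/-!
# QWP / GamQ: source elements
-/

open MeasureTheory Filter Topology Set
open scoped ENNReal NNReal RealInnerProductSpace ContDiff

namespace Pool.Agent.QWP

open Pool.Agent.QWE (E S sg mu K toK tau sh dl rev gr ig IsTest pd lap Rad dRad Rk dRk c0 WD Sm SmE IsSch half shr WTo)

namespace GamQx

open Pool.Agent.QWE.Linx (test_sch test_pd int_mul)
open Pool.Agent.QWE.Fldx (pair_cont c0_pos)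

/-- Cauchy-Schwarz on the Fourier side -/
theorem cs (hF : St_Ft) (hI : St_IsoP) {s : ℝ} (hs' : |s| < 1 / 2) {f φ : E → ℝ} (hf : IsTest f)
    (hφ : IsTest φ) :
    |∫ x, f x * φ x| ≤ (hs (1 + s) f) ^ (1 / 2 : ℝ) * (hs (-1 - s) φ) ^ (1 / 2 : ℝ) := by
  have hs2 := abs_lt.1 hs'
  have sf := hF.1 f hf
  have sφ := hF.1 φ hφ
  have h1 := (hF.2 f sf).2.2.1 φ sφ
  rw [h1]
  refine (Complex.abs_re_le_norm _).trans ((norm_integral_le_integral_norm _).trans ?_)
  obtain ⟨A, hA⟩ : ∃ A : E → ℝ, A = fun ξ => (2 * Real.pi * ‖ξ‖) ^ (1 + s) * ‖ft f ξ‖ := ⟨_, rfl⟩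
  obtain ⟨B, hB⟩ : ∃ B : E → ℝ, B = fun ξ => (2 * Real.pi * ‖ξ‖) ^ (-1 - s) * ‖ft φ ξ‖ :=
    ⟨_, rfl⟩
  have hn : ∀ ξ : E, 0 ≤ 2 * Real.pi * ‖ξ‖ := fun ξ => by positivity
  have hAsq : ∀ ξ, A ξ ^ 2 = (2 * Real.pi * ‖ξ‖) ^ (2 * (1 + s)) * ‖ft f ξ‖ ^ 2 := by
    intro ξ
    rw [hA]
    dsimp only
    rw [mul_pow, ← Real.rpow_natCast, ← Real.rpow_mul (hn ξ)]
    congr 2
    push_cast
    ring
  have hBsq : ∀ ξ, B ξ ^ 2 = (2 * Real.pi * ‖ξ‖) ^ (2 * (-1 - s)) * ‖ft φ ξ‖ ^ 2 := by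
    intro ξ
    rw [hB]
    dsimp only
    rw [mul_pow, ← Real.rpow_natCast, ← Real.rpow_mul (hn ξ)]
    congr 2
    push_cast
    ring
  have hA0 : ∀ ξ, 0 ≤ A ξ := fun ξ => by
    rw [hA]
    exact mul_nonneg (Real.rpow_nonneg (hn ξ) _) (norm_nonneg _)
  have hB0 : ∀ ξ, 0 ≤ B ξ := fun ξ => by
    rw [hB]
    exact mul_nonneg (Real.rpow_nonneg (hn ξ) _) (norm_nonneg _)
  have hAm : AEStronglyMeasurable A volume := by
    rw [hA]
    have h2 : Measurable fun ξ : E => (2 * Real.pi * ‖ξ‖) ^ (1 + s) :=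
      (measurable_const.mul measurable_norm).pow_const _
    exact (h2.mul (hF.2 f sf).1.norm.measurable).aestronglyMeasurable
  have hBm : AEStronglyMeasurable B volume := by
    rw [hB]
    have h2 : Measurable fun ξ : E => (2 * Real.pi * ‖ξ‖) ^ (-1 - s) :=
      (measurable_const.mul measurable_norm).pow_const _
    exact (h2.mul (hF.2 φ sφ).1.norm.measurable).aestronglyMeasurable
  have hAL : MemLp A (ENNReal.ofReal 2) volume := by
    rw [ENNReal.ofReal_ofNat, memLp_two_iff_integrable_sq hAm]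
    refine (Hsx.int hI sf (a := 1 + s) (by linarith)).congr (Eventually.of_forall fun ξ => ?_)
    exact (hAsq ξ).symm
  have hBL : MemLp B (ENNReal.ofReal 2) volume := by
    rw [ENNReal.ofReal_ofNat, memLp_two_iff_integrable_sq hBm]
    refine (Hsx.int hI sφ (a := -1 - s) (by linarith)).congr (Eventually.of_forall fun ξ => ?_)
    exact (hBsq ξ).symm
  have h2 := integral_mul_le_Lp_mul_Lq_of_nonneg Real.HolderConjugate.two_two
    (Eventually.of_forall hA0) (Eventually.of_forall hB0) hAL hBL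
  have e1 : ∫ ξ, ‖ft f ξ * (starRingEnd ℂ) (ft φ ξ)‖ = ∫ ξ, A ξ * B ξ := by
    refine integral_congr_ae ?_
    filter_upwards [Hsx.ae_ne] with ξ hξ
    have hp : 0 < 2 * Real.pi * ‖ξ‖ := by
      have := norm_pos_iff.2 hξ
      positivity
    rw [norm_mul, RCLike.norm_conj, hA, hB]
    dsimp only
    have e2 : (2 * Real.pi * ‖ξ‖) ^ (1 + s) * (2 * Real.pi * ‖ξ‖) ^ (-1 - s) = 1 := by
      rw [← Real.rpow_add hp]
      have : 1 + s + (-1 - s) = 0 := by ring
      rw [this, Real.rpow_zero]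
    calc ‖ft f ξ‖ * ‖ft φ ξ‖ = ((2 * Real.pi * ‖ξ‖) ^ (1 + s) * (2 * Real.pi * ‖ξ‖) ^ (-1 - s)) *
          (‖ft f ξ‖ * ‖ft φ ξ‖) := by rw [e2, one_mul]
      _ = _ := by ring
  rw [e1]
  refine h2.trans (le_of_eq ?_)
  congr 1
  · rw [hs]
    congr 1
    refine integral_congr_ae (Eventually.of_forall fun ξ => ?_)
    dsimp only
    rw [← hAsq ξ, ← Real.rpow_natCast]
    norm_num
  · rw [hs]
    congr 1
    refine integral_congr_ae (Eventually.of_forall fun ξ => ?_)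
    dsimp only
    rw [← hBsq ξ, ← Real.rpow_natCast]
    norm_num

theorem hs_nonneg (a : ℝ) (f : E → ℝ) : 0 ≤ hs a f := by
  unfold hs
  exact integral_nonneg fun ξ => by positivity

theorem one_le_q1 {s : ℝ} (hs' : |s| < 1 / 2) : 1 ≤ q1 s := by
  have h := abs_lt.1 hs'
  rw [q1, ← ENNReal.ofReal_one]
  refine ENNReal.ofReal_le_ofReal ?_
  rw [le_div_iff₀ (by linarith)]
  linarith

/-- passage to the limit -/
theorem main (hF : St_Ft) (hI : St_IsoP) (hG : St_GamP) {s : ℝ} (hs' : |s| < 1 / 2) {F : E → ℝ}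
    (hFL : MemLp F (q1 s) volume) {f : ℕ → E → ℝ} (hf : ∀ n, IsTest (f n))
    (hlim : Tendsto (fun n => eLpNorm (fun x => f n x - F x) (q1 s) volume) atTop (𝓝 0))
    {N : ℕ → ℝ≥0∞} {B : ℝ≥0∞} (hB : B < ⊤)
    (hN : ∀ n, ENNReal.ofReal ((hs (1 + s) (f n)) ^ (1 / 2 : ℝ)) ≤ N n)
    (hNB : Tendsto N atTop (𝓝 B)) :
    IsGam s F (Gam s F) ∧ ‖Gam s F‖ₑ ≤ ENNReal.ofReal (√c0) * B := by
  have hli : LocallyIntegrable F volume := hFL.locallyIntegrable (one_le_q1 hs')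
  have key : ∀ φ, IsTest φ → |∫ x, F x * φ x| ≤ B.toReal * (hs (-1 - s) φ) ^ (1 / 2 : ℝ) := by
    intro φ hφ
    obtain ⟨D, hD⟩ := pair_cont (q1 s) (one_le_q1 hs') hφ
    have hfL : ∀ n, MemLp (f n) (q1 s) volume := fun n =>
      (hf n).1.continuous.memLp_of_hasCompactSupport (hf n).2
    have h1 : Tendsto (fun n => (eLpNorm (fun x => f n x - F x) (q1 s) volume).toReal) atTop
        (𝓝 0) := by
      have h7 := (ENNReal.continuousAt_toReal ENNReal.zero_ne_top).tendsto.comp hlim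
      rw [ENNReal.toReal_zero] at h7
      exact h7
    have h2 : Tendsto (fun n => ∫ x, f n x * φ x) atTop (𝓝 (∫ x, F x * φ x)) := by
      rw [tendsto_iff_dist_tendsto_zero]
      have h0 := h1.const_mul D
      rw [mul_zero] at h0
      refine squeeze_zero (fun n => dist_nonneg) (fun n => ?_) h0
      rw [Real.dist_eq, ← integral_sub (int_mul ((hfL n).locallyIntegrable (one_le_q1 hs')) hφ)
        (int_mul hli hφ)]
      have e1 : ∫ x, (f n x * φ x - F x * φ x) = ∫ x, (fun x => f n x - F x) x * φ x := by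
        congr 1
        ext x
        ring
      rw [e1]
      exact hD _ ((hfL n).sub hFL)
    have h3 : Tendsto (fun n => ENNReal.ofReal |∫ x, f n x * φ x|) atTop
        (𝓝 (ENNReal.ofReal |∫ x, F x * φ x|)) :=
      ENNReal.tendsto_ofReal h2.abs
    have h4 : Tendsto (fun n => N n * ENNReal.ofReal ((hs (-1 - s) φ) ^ (1 / 2 : ℝ))) atTop
        (𝓝 (B * ENNReal.ofReal ((hs (-1 - s) φ) ^ (1 / 2 : ℝ)))) :=
      ENNReal.Tendsto.mul_const hNB (Or.inr ENNReal.ofReal_ne_top)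
    have h5 : ENNReal.ofReal |∫ x, F x * φ x| ≤
        B * ENNReal.ofReal ((hs (-1 - s) φ) ^ (1 / 2 : ℝ)) := by
      refine le_of_tendsto_of_tendsto' h3 h4 fun n => ?_
      refine (ENNReal.ofReal_le_ofReal (cs hF hI hs' (hf n) hφ)).trans ?_
      rw [ENNReal.ofReal_mul (Real.rpow_nonneg (hs_nonneg _ _) _)]
      gcongr
      exact hN n
    have h6 := ENNReal.toReal_mono (ENNReal.mul_lt_top hB ENNReal.ofReal_lt_top).ne h5
    rw [ENNReal.toReal_ofReal (abs_nonneg _), ENNReal.toReal_mul,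
      ENNReal.toReal_ofReal (Real.rpow_nonneg (hs_nonneg _ _) _)] at h6
    exact h6
  obtain ⟨g1, g2, -⟩ := hG s F B.toReal hs' ENNReal.toReal_nonneg hli key
  refine ⟨g1, ?_⟩
  rw [← ofReal_norm]
  refine (ENNReal.ofReal_le_ofReal g2).trans ?_
  rw [ENNReal.ofReal_mul (Real.sqrt_nonneg _), ENNReal.ofReal_toReal hB.ne]

theorem add_le {a b : E → ℝ} {p : ℝ≥0∞} (hp : 1 ≤ p) (ha : AEStronglyMeasurable a volume)
    (hb : AEStronglyMeasurable b volume) :
    eLpNorm a p volume ≤ eLpNorm b p volume + eLpNorm (fun x => a x - b x) p volume := by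
  have e : a = b + fun x => a x - b x := by
    funext x
    simp
  calc eLpNorm a p volume = eLpNorm (b + fun x => a x - b x) p volume := by rw [← e]
    _ ≤ _ := eLpNorm_add_le hb (ha.sub hb) hp

end GamQx

open GamQx in
open Pool.Agent.QWE.Linx (test_pd) in
open Pool.Agent.QWE.Fldx (c0_pos) in
theorem thm_GamQ (hF : St_Ft) (hI : St_IsoP) (hG : St_GamP) (hSo : St_SoD) (hAp : St_ApW) :
    St_GamQ := by
  intro s hs'
  have h := abs_lt.1 hs'
  obtain ⟨C, hC, hSo⟩ := hSo s hs'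
  obtain ⟨hA1, hA2⟩ := hAp s hs'
  have hq2 : 1 ≤ q2 s := by
    rw [q2, ← ENNReal.ofReal_one]
    refine ENNReal.ofReal_le_ofReal ?_
    rw [le_div_iff₀ (by linarith)]
    linarith
  have hp2 : 1 ≤ p2 s := by
    rw [p2, ← ENNReal.ofReal_one]
    refine ENNReal.ofReal_le_ofReal ?_
    rw [le_div_iff₀ (by linarith)]
    linarith
  have hc0 : 0 < √c0 := Real.sqrt_pos.2 c0_pos
  refine ⟨√c0 * C, by positivity, fun F G hFL hGL => ⟨fun hs0 => ?_, fun H hH => ?_⟩⟩
  · obtain ⟨f, hf, hlim, hd⟩ := hA1 F G hFL hGL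
    have hB : ENNReal.ofReal C * ∑ i, eLpNorm (G i) (q2 s) volume < ⊤ :=
      ENNReal.mul_lt_top ENNReal.ofReal_lt_top
        (ENNReal.sum_lt_top.2 fun i _ => (hGL i).1.eLpNorm_lt_top)
    have hN : Tendsto (fun n => ENNReal.ofReal C * ∑ i, (eLpNorm (G i) (q2 s) volume +
        eLpNorm (fun x => pd i (f n) x - G i x) (q2 s) volume)) atTop
        (𝓝 (ENNReal.ofReal C * ∑ i, eLpNorm (G i) (q2 s) volume)) := by
      refine ENNReal.Tendsto.const_mul ?_ (Or.inr ENNReal.ofReal_ne_top)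
      refine tendsto_finsetSum _ fun i _ => ?_
      have := (hd i).const_add (eLpNorm (G i) (q2 s) volume)
      rwa [add_zero] at this
    obtain ⟨g1, g2⟩ := main hF hI hG hs' hFL hf hlim hB (fun n => ((hSo (f n) (hf n)).1 hs0).trans
      (by
        gcongr with i _
        exact GamQx.add_le hq2 (test_pd (hf n) i).1.continuous.aestronglyMeasurable (hGL i).1.1)) hN
    refine ⟨g1, g2.trans (le_of_eq ?_)⟩
    rw [ENNReal.ofReal_mul hc0.le, mul_assoc]
  · obtain ⟨f, hf, hlim, hd⟩ := hA2 F G H hFL hGL hH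
    have hB : ENNReal.ofReal C * ∑ i, ∑ j, eLpNorm (H i j) (p2 s) volume < ⊤ :=
      ENNReal.mul_lt_top ENNReal.ofReal_lt_top
        (ENNReal.sum_lt_top.2 fun i _ => ENNReal.sum_lt_top.2 fun j _ =>
          (hH i j).1.eLpNorm_lt_top)
    have hN : Tendsto (fun n => ENNReal.ofReal C * ∑ i, ∑ j, (eLpNorm (H i j) (p2 s) volume +
        eLpNorm (fun x => pd j (pd i (f n)) x - H i j x) (p2 s) volume)) atTop
        (𝓝 (ENNReal.ofReal C * ∑ i, ∑ j, eLpNorm (H i j) (p2 s) volume)) := by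
      refine ENNReal.Tendsto.const_mul ?_ (Or.inr ENNReal.ofReal_ne_top)
      refine tendsto_finsetSum _ fun i _ => tendsto_finsetSum _ fun j _ => ?_
      have := (hd i j).const_add (eLpNorm (H i j) (p2 s) volume)
      rwa [add_zero] at this
    obtain ⟨g1, g2⟩ := main hF hI hG hs' hFL hf hlim hB (fun n => (hSo (f n) (hf n)).2.trans
      (by
        gcongr with i _ j _
        exact GamQx.add_le hp2 (test_pd (test_pd (hf n) i) j).1.continuous.aestronglyMeasurable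
          (hH i j).1.1)) hN
    refine ⟨g1, g2.trans (le_of_eq ?_)⟩
    rw [ENNReal.ofReal_mul hc0.le, mul_assoc]

end Pool.Agent.QWP
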