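import Pool.Agent.QWP.StC
import Pool.Agent.QWE.GrA

/-!
# QWP, module GrP: exterior seminorms and the group
-/

set_option autoImplicit false

open MeasureTheory Filter Topology Set
open scoped ENNReal NNReal RealInnerProductSpace

namespace Pool.Agent.QWP

open Pool.Agent.QWE (E S sg mu K toK tau sh dl rev gr ig IsTest pd lap Rad dRad Rk dRk c0 WD Sm SmE IsSch half shr WTo)

/-- **GrP** (exterior seminorms and the group). -/
theorem thm_GrP (hA : St_ActP) : St_GrP := by
  intro s hs
  refine ⟨?_, ?_⟩
  · intro y R x a k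
    rw [(hA s hs).2.2.1, Pool.Agent.QWE.GrAx.ext_set]
  · intro e c x a k
    rw [(hA s hs).2.2.1, Pool.Agent.QWE.GrAx.half_set]

end Pool.Agent.QWP
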