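import Pool.Agent.QWP.StD
import Pool.Agent.QWE.HB

/-!
# QWP, module HBP: half spaces, elementary facts
-/

set_option autoImplicit false

open MeasureTheory Filter Topology Set
open scoped ENNReal NNReal RealInnerProductSpace

namespace Pool.Agent.QWP

open Pool.Agent.QWE (E S sg mu K toK tau sh dl rev gr ig IsTest pd lap Rad dRad Rk dRk c0 WD Sm SmE IsSch half shr WTo)

/-- **HBP** (half spaces). -/
theorem thm_HBP (hA : St_ActP) (hB : St_ExBP) (hG2 : Pool.Agent.QWE.St_Grp2) : St_HBP := by
  intro s hs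
  have h5 : ∀ (e y : E) (c a : ℝ) (k : K),
      ex s (half e c) (gr y a k) = ex s (half e (Real.exp a * (c - inner ℝ y e))) k := by
    intro e y c a k
    rw [(hA s hs).2.2.1, Pool.Agent.QWE.HBx.set_gr]
  refine ⟨fun e c => ?_, fun e c c' k h => ?_, fun e c he => ⟨?_, ?_⟩,
    Pool.Agent.QWE.HBx.shr_half, h5, ?_⟩
  · exact isOpen_lt continuous_const (by fun_prop)
  · exact (hB s hs).2.2.1 _ _ _ fun x hx => lt_of_le_of_lt h hx
  · intro x hx
    have h1 : c < inner ℝ x e := hx
    change c < dist x 0
    rw [dist_zero_right]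
    exact lt_of_lt_of_le h1 (Pool.Agent.QWE.HBx.inner_le e x he)
  · intro x hx
    rw [Metric.mem_ball, dist_zero_right] at hx
    have h1 := Pool.Agent.QWE.HBx.neg_le_inner e x he
    change -c < inner ℝ x e
    linarith
  · intro e c t k he
    have h6 := h5 e (t • e) c 0 k
    have hee : (inner ℝ e e : ℝ) = 1 := by rw [real_inner_self_eq_norm_sq, he]; norm_num
    rw [Real.exp_zero, one_mul, real_inner_smul_left, hee, mul_one] at h6
    unfold gr at h6
    rw [hG2.2.1] at h6
    rw [← h6]
    have h7 := (hB s hs).1 (half e c) (sh (t • e) k) k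
    have h8 := (abs_le.1 h7).2
    linarith

end Pool.Agent.QWP
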