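import Pool.Agent.QWP.StF

set_option autoImplicit false

/-!
# QWP, HDl: calculus of the duality norm
-/

open MeasureTheory Filter Topology Set
open scoped ENNReal NNReal RealInnerProductSpace

namespace Pool.Agent.QWP

open Pool.Agent.QWE (E S sg mu K toK tau sh dl rev gr ig IsTest pd lap Rad dRad Rk dRk c0 WD Sm SmE IsSch half shr WTo)

namespace HDlx

lemma ft_smul (c : ℝ) (φ : E → ℝ) (ξ : E) : ft (fun x => c * φ x) ξ = (c : ℂ) * ft φ ξ := by
  unfold ft
  rw [← integral_const_mul]
  refine integral_congr_ae (Eventually.of_forall fun x => ?_)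
  simp only [Complex.ofReal_mul]
  ring

lemma hs_smul (a c : ℝ) (φ : E → ℝ) : hs a (fun x => c * φ x) = c ^ 2 * hs a φ := by
  unfold hs
  rw [← integral_const_mul]
  refine integral_congr_ae (Eventually.of_forall fun ξ => ?_)
  simp only [ft_smul]
  rw [norm_mul, Complex.norm_real, Real.norm_eq_abs, mul_pow, sq_abs]
  ring

lemma hs_nonneg (a : ℝ) (φ : E → ℝ) : 0 ≤ hs a φ :=
  integral_nonneg fun ξ => mul_nonneg (Real.rpow_nonneg (by positivity) _) (by positivity)

lemma test_smul (c : ℝ) {φ : E → ℝ} (h : IsTest φ) : IsTest (fun x => c * φ x) :=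
  ⟨contDiff_const.mul h.1, h.2.mul_left⟩

lemma int_smul (c : ℝ) (f φ : E → ℝ) : ∫ x, f x * (c * φ x) = c * ∫ x, f x * φ x := by
  rw [← integral_const_mul]
  refine integral_congr_ae (Eventually.of_forall fun x => ?_)
  simp only
  ring

lemma locInt_congr {f g : E → ℝ} (h : f =ᵐ[volume] g) (hf : LocallyIntegrable f volume) :
    LocallyIntegrable g volume := fun x => by
  obtain ⟨s, hs, hi⟩ := hf x
  exact ⟨s, hs, hi.congr_fun_ae (ae_restrict_of_ae h)⟩

end HDlx

open HDlx in
/-- **HDl**. -/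
theorem thm_HDl : St_HDl := by
  intro a ha0 ha1
  refine ⟨?_, ?_, ?_⟩
  · intro f hf
    have hloc : LocallyIntegrable f volume := by
      by_contra hno
      rw [HD, if_neg hno] at hf
      exact lt_irrefl _ hf
    refine ⟨hloc, ?_⟩
    have hB : ∀ φ, IsTest φ → hs (-a) φ ≤ 1 → |∫ x, f x * φ x| ≤ (HD a f).toReal := by
      intro φ h1 h2
      have h3 : ENNReal.ofReal |∫ x, f x * φ x| ≤ HD a f := by
        rw [HD, if_pos hloc]
        exact le_iSup_of_le φ (le_iSup_of_le h1 (le_iSup_of_le h2 le_rfl))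
      exact (ENNReal.ofReal_le_iff_le_toReal hf.ne).1 h3
    have hB0 : 0 ≤ (HD a f).toReal := ENNReal.toReal_nonneg
    intro φ hφ
    rcases (hs_nonneg (-a) φ).eq_or_lt with h0 | h0
    · rw [← h0, Real.zero_rpow (by norm_num), mul_zero]
      by_contra hno
      push Not at hno
      have h1 := hB _ (test_smul (((HD a f).toReal + 1) / |∫ x, f x * φ x|) hφ) (by
        rw [hs_smul, ← h0, mul_zero]
        exact zero_le_one)
      rw [int_smul, abs_mul, abs_div, abs_abs, div_mul_cancel₀ _ hno.ne',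
        abs_of_nonneg (by linarith)] at h1
      linarith
    · have hr : 0 < (hs (-a) φ) ^ (1 / 2 : ℝ) := Real.rpow_pos_of_pos h0 _
      have hr2 : ((hs (-a) φ) ^ (1 / 2 : ℝ)) ^ 2 = hs (-a) φ := by
        rw [← Real.rpow_natCast, ← Real.rpow_mul h0.le]
        norm_num
      have h1 := hB _ (test_smul ((hs (-a) φ) ^ (1 / 2 : ℝ))⁻¹ hφ) (by
        rw [hs_smul, inv_pow, hr2, inv_mul_cancel₀ h0.ne'])
      rw [int_smul, abs_mul, abs_inv, abs_of_pos hr, inv_mul_le_iff₀ hr] at h1
      rw [mul_comm]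
      exact h1
  · intro f B hB hloc h
    rw [HD, if_pos hloc]
    refine iSup_le fun φ => iSup_le fun h1 => iSup_le fun h2 => ?_
    refine ENNReal.ofReal_le_ofReal ((h φ h1).trans ?_)
    have h3 : (hs (-a) φ) ^ (1 / 2 : ℝ) ≤ 1 := Real.rpow_le_one (hs_nonneg _ _) h2 (by norm_num)
    calc B * (hs (-a) φ) ^ (1 / 2 : ℝ) ≤ B * 1 := mul_le_mul_of_nonneg_left h3 hB
      _ = B := mul_one B
  · intro f g h
    by_cases hf : LocallyIntegrable f volume
    · have hg := locInt_congr h hf
      rw [HD, HD, if_pos hf, if_pos hg]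
      refine iSup_congr fun φ => iSup_congr fun _ => iSup_congr fun _ => ?_
      have h1 : ∫ x, f x * φ x = ∫ x, g x * φ x :=
        integral_congr_ae (h.mono fun x hx => by simp only [hx])
      rw [h1]
    · have hg : ¬ LocallyIntegrable g volume := fun hg => hf (locInt_congr h.symm hg)
      rw [HD, HD, if_neg hf, if_neg hg]

end Pool.Agent.QWP
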