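import Pool.Agent.QWP.StD

/-!
# QWP, module HcpP: uniformity on compact sets
-/

set_option autoImplicit false

open MeasureTheory Filter Topology Set
open scoped ENNReal NNReal RealInnerProductSpace

namespace Pool.Agent.QWP

open Pool.Agent.QWE (E S sg mu K toK tau sh dl rev gr ig IsTest pd lap Rad dRad Rk dRk c0 WD Sm SmE IsSch half shr WTo)

/-- **HcpP** (uniformity on compact sets). -/
theorem thm_HcpP (hB' : St_ExBP) (hH : St_HBP) : St_HcpP := by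
  intro s Q d hs hQ hd
  obtain ⟨hLip, hle, hmono, -, -, -, -, -, -, hext, hball⟩ := hB' s hs
  have hemono : ∀ (k : K) (R R' : ℝ), R ≤ R' → ex s (xt 0 R') k ≤ ex s (xt 0 R) k :=
    fun k R R' h => hmono _ _ _ fun x hx => lt_of_le_of_lt h hx
  have hbmono : ∀ (k : K) (R R' : ℝ), R ≤ R' →
      ex s (Metric.ball 0 R) k ≤ ex s (Metric.ball 0 R') k :=
    fun k R R' h => hmono _ _ _ (Metric.ball_subset_ball h)
  have key : ∃ C0 : ℝ, 0 < C0 ∧ ∀ κ ∈ Q, ∀ R : ℝ, C0 ≤ R →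
      ex s (xt 0 R) κ ≤ d ∧ ‖κ‖ - d ≤ ex s (Metric.ball 0 R) κ := by
    refine IsCompact.induction_on (p := fun t => ∃ C0 : ℝ, 0 < C0 ∧ ∀ κ ∈ t, ∀ R : ℝ, C0 ≤ R →
      ex s (xt 0 R) κ ≤ d ∧ ‖κ‖ - d ≤ ex s (Metric.ball 0 R) κ) hQ ?_ ?_ ?_ ?_
    · exact ⟨1, one_pos, fun κ hκ => absurd hκ (Set.notMem_empty κ)⟩
    · rintro u t hst ⟨C0, h0, h1⟩
      exact ⟨C0, h0, fun κ hκ => h1 κ (hst hκ)⟩
    · rintro u t ⟨C0, h0, h1⟩ ⟨C1, h2, h3⟩
      refine ⟨max C0 C1, lt_max_of_lt_left h0, fun κ hκ R hR => ?_⟩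
      rcases hκ with hκ | hκ
      · exact h1 κ hκ R ((le_max_left _ _).trans hR)
      · exact h3 κ hκ R ((le_max_right _ _).trans hR)
    · intro κ _
      have e1 : ∀ᶠ R : ℝ in atTop, ex s (xt 0 R) κ < d / 3 :=
        (hext κ).eventually (gt_mem_nhds (by positivity))
      have e2 : ∀ᶠ R : ℝ in atTop, ‖κ‖ - d / 3 < ex s (Metric.ball 0 R) κ :=
        (hball κ).eventually (lt_mem_nhds (by linarith))
      obtain ⟨C0, hC0⟩ := eventually_atTop.1 (e1.and (e2.and (eventually_gt_atTop (0 : ℝ))))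
      refine ⟨Metric.ball κ (d / 3), mem_nhdsWithin_of_mem_nhds
        (Metric.ball_mem_nhds κ (by positivity)), C0, (hC0 C0 le_rfl).2.2, fun κ' hκ' R hR => ?_⟩
      rw [Metric.mem_ball, dist_eq_norm] at hκ'
      have h1 := hC0 R hR
      have h2 := (abs_le.1 (hLip (xt 0 R) κ' κ)).2
      have h3 := (abs_le.1 (hLip (Metric.ball 0 R) κ' κ)).1
      have h4 : ‖κ'‖ ≤ ‖κ‖ + ‖κ' - κ‖ := by
        have := norm_add_le κ (κ' - κ)
        rwa [add_sub_cancel] at this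
      constructor
      · linarith [h1.1]
      · linarith [h1.2.1]
  obtain ⟨C0, h0, h1⟩ := key
  refine ⟨C0, h0, fun κ hκ e he => ?_⟩
  have h2 := h1 κ hκ C0 le_rfl
  have h3 := (hH s hs).2.2.1 e C0 he
  exact ⟨(hmono _ _ _ h3.1).trans h2.1, h2.2.trans (hmono _ _ _ h3.2)⟩

end Pool.Agent.QWP
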