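import Pool.Agent.QWP.StA

set_option autoImplicit false

/-!
# QWP.Hrd: one dimensional fractional Hardy inequality
-/

open MeasureTheory Filter Topology Set
open scoped ENNReal NNReal RealInnerProductSpace

namespace Pool.Agent.QWP

open Pool.Agent.QWE (E S sg mu K toK)

namespace Hrdx

theorem cont {A : Set (S × ℝ)} {h : S × ℝ → ℝ} (hn : Nice A h) : Continuous h := by
  obtain ⟨g, hg, -, hh, -⟩ := hn
  have h1 : h = fun z : S × ℝ => g ((z.1 : E), z.2) := funext hh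
  rw [h1]
  exact hg.continuous.comp (by fun_prop)

theorem bdd {A : Set (S × ℝ)} {h : S × ℝ → ℝ} (hn : Nice A h) :
    ∃ M B : ℝ, 0 < M ∧ 0 ≤ B ∧ (∀ z, |h z| ≤ B) ∧ ∀ z, M < |z.2| → h z = 0 := by
  have hc := cont hn
  obtain ⟨g, hg, ⟨M, hM⟩, hh, -⟩ := hn
  have hcomp : IsCompact ((univ : Set S) ×ˢ Icc (-(max M 1)) (max M 1)) :=
    isCompact_univ.prod isCompact_Icc
  obtain ⟨B, hB⟩ := hcomp.exists_bound_of_continuousOn hc.continuousOn
  have hz : ∀ z : S × ℝ, max M 1 < |z.2| → h z = 0 := by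
    intro z hz
    rw [hh z]
    exact hM _ _ ((le_max_left M 1).trans hz.le)
  refine ⟨max M 1, max B 0, lt_max_of_lt_right one_pos, le_max_right _ _, fun z => ?_, hz⟩
  by_cases h1 : max M 1 < |z.2|
  · rw [hz z h1, abs_zero]
    exact le_max_right _ _
  · rw [not_lt, abs_le] at h1
    exact (hB z ⟨mem_univ _, h1⟩).trans (le_max_left _ _)

theorem intg {r : ℝ} (hr : -1 < r) (M : ℝ) (hM : 0 < M) :
    IntegrableOn (fun x : ℝ => |x| ^ r) (Icc (-M) M) := by
  have h1 : IntervalIntegrable (fun x : ℝ => |x| ^ r) volume 0 M := by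
    have h2 : IntervalIntegrable (fun x : ℝ => x ^ r) volume 0 M :=
      intervalIntegral.intervalIntegrable_rpow' hr
    apply h2.congr
    rw [uIoc_of_le hM.le]
    intro x hx
    show x ^ r = |x| ^ r
    rw [abs_of_pos hx.1]
  have h2 : IntervalIntegrable (fun x : ℝ => |x| ^ r) volume (-M) 0 := by
    have h3 := (IntervalIntegrable.iff_comp_neg (by simp)).1 h1.symm
    simpa only [abs_neg, neg_zero] using h3
  have h3 := h2.trans h1
  rw [intervalIntegrable_iff_integrableOn_Icc_of_le (by linarith)] at h3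
  exact h3

/-- the weighted norm is finite -/
theorem fin {τ : ℝ} (h1 : 0 < τ) (h2 : τ < 1 / 2) {A : Set (S × ℝ)} {h : S × ℝ → ℝ}
    (hn : Nice A h) :
    ∫⁻ z : S × ℝ, ENNReal.ofReal (|z.2| ^ (-2 * τ) * h z ^ 2) ∂mu ≠ ⊤ := by
  obtain ⟨M, B, hM, hB, hb, hz⟩ := bdd hn
  have hI := intg (r := -2 * τ) (by linarith) M hM
  have hle : ∀ z : S × ℝ, ENNReal.ofReal (|z.2| ^ (-2 * τ) * h z ^ 2) ≤
      (Icc (-M) M).indicator (fun p => ENNReal.ofReal (B ^ 2 * |p| ^ (-2 * τ))) z.2 := by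
    intro z
    by_cases hz1 : z.2 ∈ Icc (-M) M
    · rw [indicator_of_mem hz1]
      apply ENNReal.ofReal_le_ofReal
      have e1 : h z ^ 2 ≤ B ^ 2 := by
        rw [← sq_abs]
        exact pow_le_pow_left₀ (abs_nonneg _) (hb z) 2
      have e2 : 0 ≤ |z.2| ^ (-2 * τ) := Real.rpow_nonneg (abs_nonneg _) _
      nlinarith
    · rw [indicator_of_notMem hz1]
      have : h z = 0 := by
        apply hz
        by_contra hc
        rw [not_lt, abs_le] at hc
        exact hz1 hc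
      rw [this]
      simp
  refine ne_top_of_le_ne_top ?_ (lintegral_mono hle)
  have hmeas : Measurable ((Icc (-M) M).indicator
      (fun p : ℝ => ENNReal.ofReal (B ^ 2 * |p| ^ (-2 * τ)))) := by
    apply Measurable.indicator _ measurableSet_Icc
    fun_prop
  rw [lintegral_prod (fun z : S × ℝ =>
    (Icc (-M) M).indicator (fun p : ℝ => ENNReal.ofReal (B ^ 2 * |p| ^ (-2 * τ))) z.2)
    (hmeas.comp measurable_snd).aemeasurable]
  simp only [lintegral_const]
  apply ENNReal.mul_ne_top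
  · rw [lintegral_indicator measurableSet_Icc]
    have := (hI.const_mul (B ^ 2))
    exact (this.lintegral_lt_top).ne
  · exact measure_ne_top _ _

/-- scaling -/
theorem scale {τ l : ℝ} (hl : 0 < l) {h : S × ℝ → ℝ} (hc : Continuous h) :
    ∫⁻ z : S × ℝ, ENNReal.ofReal (|z.2| ^ (-2 * τ) * h (z.1, l * z.2) ^ 2) ∂mu =
      ENNReal.ofReal (l ^ (2 * τ - 1)) *
        ∫⁻ z : S × ℝ, ENNReal.ofReal (|z.2| ^ (-2 * τ) * h z ^ 2) ∂mu := by
  have hmeas : Measurable fun z : S × ℝ => ENNReal.ofReal (|z.2| ^ (-2 * τ) * h z ^ 2) := by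
    have := hc.measurable
    fun_prop
  have h1 : ∀ z : S × ℝ, ENNReal.ofReal (|z.2| ^ (-2 * τ) * h (z.1, l * z.2) ^ 2) =
      ENNReal.ofReal (l ^ (2 * τ)) *
        (fun z : S × ℝ => ENNReal.ofReal (|z.2| ^ (-2 * τ) * h z ^ 2)) (z.1, l * z.2) := by
    intro z
    show _ = ENNReal.ofReal (l ^ (2 * τ)) *
      ENNReal.ofReal (|l * z.2| ^ (-2 * τ) * h (z.1, l * z.2) ^ 2)
    rw [← ENNReal.ofReal_mul (Real.rpow_nonneg hl.le _), abs_mul, abs_of_pos hl,
      Real.mul_rpow hl.le (abs_nonneg _)]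
    congr 1
    have : l ^ (2 * τ) * l ^ (-2 * τ) = 1 := by
      rw [← Real.rpow_add hl]
      rw [show 2 * τ + -2 * τ = 0 by ring, Real.rpow_zero]
    calc |z.2| ^ (-2 * τ) * h (z.1, l * z.2) ^ 2
        = (l ^ (2 * τ) * l ^ (-2 * τ)) * (|z.2| ^ (-2 * τ) * h (z.1, l * z.2) ^ 2) := by
          rw [this, one_mul]
      _ = _ := by ring
  have hm : Measurable fun z : S × ℝ => (z.1, l * z.2) := by fun_prop
  have h2 := lintegral_map (μ := mu) hmeas hm
  rw [Pool.Agent.QWE.map_scale hl, lintegral_smul_measure] at h2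
  have h3 : Measurable fun z : S × ℝ =>
      (fun z : S × ℝ => ENNReal.ofReal (|z.2| ^ (-2 * τ) * h z ^ 2)) (z.1, l * z.2) := hmeas.comp hm
  rw [lintegral_congr h1, lintegral_const_mul _ h3, ← h2, smul_eq_mul, ← mul_assoc,
    ← ENNReal.ofReal_mul (Real.rpow_nonneg hl.le _), ← Real.rpow_neg_one l, ← Real.rpow_add hl]
  rfl

/-- substitution `u = (l - 1) p` -/
theorem subst {τ : ℝ} (h1 : 0 < τ) {f : ℝ → ℝ} (hf : Continuous f) (p : ℝ) :
    ∫⁻ l in Icc (3 / 2 : ℝ) 2, ENNReal.ofReal (|p| ^ (-2 * τ) * (f p - f (l * p)) ^ 2) ≤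
      ∫⁻ u : ℝ, ENNReal.ofReal (|u| ^ (-1 - 2 * τ) * (f (p + u) - f p) ^ 2) := by
  rcases eq_or_ne p 0 with rfl | hp
  · have : ∀ l : ℝ, ENNReal.ofReal (|(0 : ℝ)| ^ (-2 * τ) * (f 0 - f (l * 0)) ^ 2) = 0 := by
      intro l
      rw [mul_zero, sub_self]
      simp
    rw [lintegral_congr this]
    simp
  · have hp' : 0 < |p| := abs_pos.2 hp
    have hG : Measurable fun u : ℝ => ENNReal.ofReal (|u| ^ (-1 - 2 * τ) * (f (p + u) - f p) ^ 2) := by
      have := hf.measurable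
      fun_prop
    have hpt : ∀ l ∈ Icc (3 / 2 : ℝ) 2, ENNReal.ofReal (|p| ^ (-2 * τ) * (f p - f (l * p)) ^ 2) ≤
        ENNReal.ofReal |p| *
          ENNReal.ofReal (|(l - 1) * p| ^ (-1 - 2 * τ) * (f (p + (l - 1) * p) - f p) ^ 2) := by
      intro l hl
      rw [← ENNReal.ofReal_mul hp'.le]
      apply ENNReal.ofReal_le_ofReal
      have e1 : p + (l - 1) * p = l * p := by ring
      rw [e1]
      have e2 : 0 < |(l - 1) * p| := by
        rw [abs_mul]
        apply mul_pos _ hp'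
        rw [abs_pos]
        have := hl.1
        intro h
        linarith
      have e3 : |(l - 1) * p| ≤ |p| := by
        rw [abs_mul]
        have : |l - 1| ≤ 1 := by
          rw [abs_le]
          constructor <;> linarith [hl.1, hl.2]
        nlinarith
      have e4 := Real.rpow_le_rpow_of_nonpos e2 e3 (show -1 - 2 * τ ≤ 0 by linarith)
      have e5 : |p| ^ (-2 * τ) = |p| * |p| ^ (-1 - 2 * τ) := by
        nth_rewrite 2 [← Real.rpow_one |p|]
        rw [← Real.rpow_add hp']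
        congr 1
        ring
      rw [e5]
      have e6 : (f p - f (l * p)) ^ 2 = (f (l * p) - f p) ^ 2 := by ring
      rw [e6, mul_assoc]
      apply mul_le_mul_of_nonneg_left _ hp'.le
      exact mul_le_mul_of_nonneg_right e4 (sq_nonneg _)
    calc ∫⁻ l in Icc (3 / 2 : ℝ) 2, ENNReal.ofReal (|p| ^ (-2 * τ) * (f p - f (l * p)) ^ 2)
        ≤ ∫⁻ l in Icc (3 / 2 : ℝ) 2, ENNReal.ofReal |p| *
          ENNReal.ofReal (|(l - 1) * p| ^ (-1 - 2 * τ) * (f (p + (l - 1) * p) - f p) ^ 2) :=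
          setLIntegral_mono' measurableSet_Icc hpt
      _ ≤ ∫⁻ l : ℝ, ENNReal.ofReal |p| *
          ENNReal.ofReal (|(l - 1) * p| ^ (-1 - 2 * τ) * (f (p + (l - 1) * p) - f p) ^ 2) :=
          setLIntegral_le_lintegral _ _
      _ = ENNReal.ofReal |p| * ∫⁻ l : ℝ,
          (fun x : ℝ => ENNReal.ofReal (|x * p| ^ (-1 - 2 * τ) * (f (p + x * p) - f p) ^ 2))
            (l - 1) := by
          rw [lintegral_const_mul' _ _ ENNReal.ofReal_ne_top]
      _ = ENNReal.ofReal |p| * ∫⁻ x : ℝ,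
          ENNReal.ofReal (|x * p| ^ (-1 - 2 * τ) * (f (p + x * p) - f p) ^ 2) := by
          rw [lintegral_sub_right_eq_self (fun x : ℝ =>
            ENNReal.ofReal (|x * p| ^ (-1 - 2 * τ) * (f (p + x * p) - f p) ^ 2)) (1 : ℝ)]
      _ = ENNReal.ofReal |p| * (ENNReal.ofReal |p⁻¹| *
          ∫⁻ u : ℝ, ENNReal.ofReal (|u| ^ (-1 - 2 * τ) * (f (p + u) - f p) ^ 2)) := by
          congr 1
          have h2 := lintegral_map (μ := (volume : Measure ℝ)) hG (g := fun x => x * p)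
            (by fun_prop)
          rw [Real.map_volume_mul_right hp, lintegral_smul_measure] at h2
          exact h2.symm
      _ = _ := by
          rw [← mul_assoc, ← ENNReal.ofReal_mul hp'.le, abs_inv, mul_inv_cancel₀ hp'.ne',
            ENNReal.ofReal_one, one_mul]

end Hrdx

open Hrdx in
theorem thm_Hrd (hG : St_Gag1) : St_Hrd := by
  intro τ h1 h2
  obtain ⟨C, hC, hGag⟩ := hG τ h1 h2
  -- the contraction factor
  obtain ⟨q0', hq0⟩ : ∃ q : ℝ, q = (3 / 2 : ℝ) ^ (2 * τ - 1) := ⟨_, rfl⟩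
  have hq1 : q0' < 1 := by
    rw [hq0]
    exact Real.rpow_lt_one_of_one_lt_of_neg (by norm_num) (by linarith)
  have hq2 : 0 < q0' := by
    rw [hq0]
    exact Real.rpow_pos_of_pos (by norm_num) _
  obtain ⟨ε, hε⟩ : ∃ ε : ℝ, ε = (1 - q0') / (2 * q0') := ⟨_, rfl⟩
  have hε0 : 0 < ε := by
    rw [hε]
    apply div_pos <;> linarith
  have hεq : (1 + ε) * q0' = (1 + q0') / 2 := by
    rw [hε]
    field_simp
    ring
  refine ⟨2 * (2 / (1 - q0')) * (1 + 1 / ε) * C, ?_, fun h hn => ?_⟩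
  · have : 0 < 1 - q0' := by linarith
    positivity
  have hc := cont hn
  have hW := fin h1 h2 hn
  set W := ∫⁻ z : S × ℝ, ENNReal.ofReal (|z.2| ^ (-2 * τ) * h z ^ 2) ∂mu with hWd
  have hhm := hc.measurable
  -- for every dilation
  have hl : ∀ l ∈ Icc (3 / 2 : ℝ) 2, ENNReal.ofReal ((1 - q0') / 2) * W ≤
      ENNReal.ofReal (1 + 1 / ε) * ∫⁻ z : S × ℝ, ENNReal.ofReal (|z.2| ^ (-2 * τ) *
        (h (z.1, z.2) - h (z.1, l * z.2)) ^ 2) ∂mu := by
    intro l hl
    have hl0 : 0 < l := by linarith [hl.1]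
    have hpt : ∀ z : S × ℝ, ENNReal.ofReal (|z.2| ^ (-2 * τ) * h z ^ 2) ≤
        ENNReal.ofReal (1 + ε) * ENNReal.ofReal (|z.2| ^ (-2 * τ) * h (z.1, l * z.2) ^ 2) +
        ENNReal.ofReal (1 + 1 / ε) * ENNReal.ofReal (|z.2| ^ (-2 * τ) *
          (h (z.1, z.2) - h (z.1, l * z.2)) ^ 2) := by
      intro z
      have e2 : 0 ≤ |z.2| ^ (-2 * τ) := Real.rpow_nonneg (abs_nonneg _) _
      rw [← ENNReal.ofReal_mul (by positivity), ← ENNReal.ofReal_mul (by positivity),
        ← ENNReal.ofReal_add (by positivity) (by positivity)]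
      apply ENNReal.ofReal_le_ofReal
      have e3 : h z ^ 2 ≤ (1 + ε) * h (z.1, l * z.2) ^ 2 +
          (1 + 1 / ε) * (h (z.1, z.2) - h (z.1, l * z.2)) ^ 2 := by
        have e4 : h (z.1, z.2) = h z := rfl
        rw [e4]
        have e5 : (1 + ε) * h (z.1, l * z.2) ^ 2 + (1 + 1 / ε) * (h z - h (z.1, l * z.2)) ^ 2 -
            h z ^ 2 = (ε * h (z.1, l * z.2) - (h z - h (z.1, l * z.2))) ^ 2 / ε := by
          field_simp
          ring
        have e6 : 0 ≤ (ε * h (z.1, l * z.2) - (h z - h (z.1, l * z.2))) ^ 2 / ε := by positivity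
        linarith
      have e7 := mul_le_mul_of_nonneg_left e3 e2
      linarith
    have hint : W ≤ ENNReal.ofReal (1 + ε) * (ENNReal.ofReal (l ^ (2 * τ - 1)) * W) +
        ENNReal.ofReal (1 + 1 / ε) * ∫⁻ z : S × ℝ, ENNReal.ofReal (|z.2| ^ (-2 * τ) *
          (h (z.1, z.2) - h (z.1, l * z.2)) ^ 2) ∂mu := by
      calc W ≤ ∫⁻ z : S × ℝ, (ENNReal.ofReal (1 + ε) *
              ENNReal.ofReal (|z.2| ^ (-2 * τ) * h (z.1, l * z.2) ^ 2) +
            ENNReal.ofReal (1 + 1 / ε) * ENNReal.ofReal (|z.2| ^ (-2 * τ) *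
              (h (z.1, z.2) - h (z.1, l * z.2)) ^ 2)) ∂mu := lintegral_mono hpt
        _ = _ := by
          rw [lintegral_add_left (by fun_prop), lintegral_const_mul _ (by fun_prop),
            lintegral_const_mul _ (by fun_prop), scale hl0 hc]
    have hq : ENNReal.ofReal (1 + ε) * (ENNReal.ofReal (l ^ (2 * τ - 1)) * W) ≤
        ENNReal.ofReal ((1 + q0') / 2) * W := by
      rw [← mul_assoc, ← ENNReal.ofReal_mul (by positivity)]
      gcongr
      rw [← hεq]
      apply mul_le_mul_of_nonneg_left _ (by positivity)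
      rw [hq0]
      exact Real.rpow_le_rpow_of_nonpos (by norm_num) hl.1 (by linarith)
    have hsplit : W = ENNReal.ofReal ((1 + q0') / 2) * W + ENNReal.ofReal ((1 - q0') / 2) * W := by
      rw [← add_mul, ← ENNReal.ofReal_add (by linarith) (by linarith)]
      rw [show (1 + q0') / 2 + (1 - q0') / 2 = 1 by ring, ENNReal.ofReal_one, one_mul]
    have h5 := hint.trans (add_le_add_left hq _)
    rw [hsplit] at h5
    nth_rewrite 2 [← hsplit] at h5
    exact (ENNReal.add_le_add_iff_left (ENNReal.mul_ne_top ENNReal.ofReal_ne_top hW)).1 h5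
  -- integrate over the dilations
  have hq3 : 0 < 1 - q0' := by linarith
  have hvol : (volume : Measure ℝ) (Icc (3 / 2 : ℝ) 2) = ENNReal.ofReal (1 / 2) := by
    rw [Real.volume_Icc]
    norm_num
  have hint : ENNReal.ofReal (1 / 2) * (ENNReal.ofReal ((1 - q0') / 2) * W) ≤
      ENNReal.ofReal (1 + 1 / ε) * ENNReal.ofReal (C * ‖JK (-τ) h‖ ^ 2) := by
    calc ENNReal.ofReal (1 / 2) * (ENNReal.ofReal ((1 - q0') / 2) * W)
        = ∫⁻ _l in Icc (3 / 2 : ℝ) 2, ENNReal.ofReal ((1 - q0') / 2) * W := by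
          rw [setLIntegral_const, hvol, mul_comm]
      _ ≤ ∫⁻ l in Icc (3 / 2 : ℝ) 2, ENNReal.ofReal (1 + 1 / ε) *
          ∫⁻ z : S × ℝ, ENNReal.ofReal (|z.2| ^ (-2 * τ) *
            (h (z.1, z.2) - h (z.1, l * z.2)) ^ 2) ∂mu := setLIntegral_mono' measurableSet_Icc hl
      _ = ENNReal.ofReal (1 + 1 / ε) * ∫⁻ l in Icc (3 / 2 : ℝ) 2,
          ∫⁻ z : S × ℝ, ENNReal.ofReal (|z.2| ^ (-2 * τ) *
            (h (z.1, z.2) - h (z.1, l * z.2)) ^ 2) ∂mu := by
          rw [lintegral_const_mul' _ _ ENNReal.ofReal_ne_top]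
      _ = ENNReal.ofReal (1 + 1 / ε) * ∫⁻ z : S × ℝ, (∫⁻ l in Icc (3 / 2 : ℝ) 2,
          ENNReal.ofReal (|z.2| ^ (-2 * τ) *
            (h (z.1, z.2) - h (z.1, l * z.2)) ^ 2)) ∂mu := by
          rw [lintegral_lintegral_swap]
          apply Measurable.aemeasurable
          simp only [Function.uncurry_def]
          fun_prop
      _ ≤ ENNReal.ofReal (1 + 1 / ε) * ∫⁻ z : S × ℝ, (∫⁻ u : ℝ,
          ENNReal.ofReal (|u| ^ (-1 - 2 * τ) * (h (z.1, z.2 + u) - h z) ^ 2)) ∂mu := by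
          refine mul_le_mul_right (lintegral_mono fun z => ?_) _
          exact subst h1 (f := fun p => h (z.1, p)) (hc.comp (by fun_prop)) z.2
      _ = ENNReal.ofReal (1 + 1 / ε) * ∫⁻ u : ℝ, ∫⁻ z : S × ℝ,
          ENNReal.ofReal (|u| ^ (-1 - 2 * τ) * (h (z.1, z.2 + u) - h z) ^ 2) ∂mu := by
          rw [lintegral_lintegral_swap]
          apply Measurable.aemeasurable
          simp only [Function.uncurry_def]
          fun_prop
      _ = _ := by rw [hGag h hn]
  have hpos : 0 ≤ 2 * (2 / (1 - q0')) := by positivity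
  calc W = ENNReal.ofReal (2 * (2 / (1 - q0'))) *
        (ENNReal.ofReal (1 / 2) * (ENNReal.ofReal ((1 - q0') / 2) * W)) := by
        rw [← mul_assoc, ← mul_assoc, ← ENNReal.ofReal_mul hpos,
          ← ENNReal.ofReal_mul (by positivity)]
        rw [show 2 * (2 / (1 - q0')) * (1 / 2) * ((1 - q0') / 2) = 1 by field_simp,
          ENNReal.ofReal_one, one_mul]
    _ ≤ ENNReal.ofReal (2 * (2 / (1 - q0'))) *
        (ENNReal.ofReal (1 + 1 / ε) * ENNReal.ofReal (C * ‖JK (-τ) h‖ ^ 2)) := by gcongr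
    _ = _ := by
        rw [← ENNReal.ofReal_mul (by positivity), ← ENNReal.ofReal_mul hpos]
        congr 1
        ring

end Pool.Agent.QWP
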