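import Pool.Agent.QWP.StA

set_option autoImplicit false

/-!
# QWP, module Idn: the case `s = 0`
-/

open MeasureTheory Filter Topology Set FourierTransform
open scoped ENNReal NNReal RealInnerProductSpace

namespace Pool.Agent.QWP

open Pool.Agent.QWE (E S sg mu K toK tau sh dl rev gr ig IsTest pd lap Rad dRad Rk dRk c0 WD Sm SmE IsSch half shr WTo)

namespace Idnx

theorem sphere_norm (w : S) : ‖(w : E)‖ = 1 := by
  have := w.2
  rwa [mem_sphere_zero_iff_norm] at this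

theorem int_of_bound {g : ℝ → ℂ} (hg : Continuous g) {C : ℝ} (h : ∀ r : ℝ, ‖g r‖ ≤ C / (1 + |r|) ^ 2) :
    Integrable g volume := by
  have hC : 0 ≤ C := by
    have := (norm_nonneg _).trans (h 0)
    simpa using this
  refine Integrable.mono' (g := fun r : ℝ => C * (1 + r ^ 2)⁻¹)
    (integrable_inv_one_add_sq.const_mul C) hg.aestronglyMeasurable (Eventually.of_forall fun r => ?_)
  refine (h r).trans ?_
  rw [div_eq_mul_inv]
  refine mul_le_mul_of_nonneg_left ?_ hC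
  apply inv_anti₀ (by positivity)
  have h1 : (1 + |r|) ^ 2 = 1 + 2 * |r| + r ^ 2 := by
    rw [← sq_abs r]
    ring
  rw [h1]
  have := abs_nonneg r
  linarith

theorem ft_slice (hFSl : Pool.Agent.QWE.St_FSl) {φ : E → ℝ} (hφ : IsSch φ) (w : S) (r : ℝ) :
    𝓕 (fun p : ℝ => (Rad φ (w, p) : ℂ)) r = ft φ (r • (w : E)) := by
  rw [Real.fourier_real_eq_integral_exp_smul]
  have h := hFSl φ hφ w r
  have h1 : ∀ p : ℝ, Complex.exp (((-2 * Real.pi * p * r : ℝ) : ℂ) * Complex.I) • (Rad φ (w, p) : ℂ) =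
      (Rad φ (w, p) : ℂ) * Complex.exp (-2 * Real.pi * Complex.I * r * p) := by
    intro p
    rw [smul_eq_mul, mul_comm]
    congr 2
    push_cast
    ring
  rw [integral_congr_ae (Eventually.of_forall h1), h]
  unfold ft
  refine integral_congr_ae (Eventually.of_forall fun x => ?_)
  simp only
  rw [real_inner_smul_right]
  congr 2
  push_cast
  ring

theorem rad_props (hRadS : Pool.Agent.QWE.St_RadS) {φ : E → ℝ} (hφ : IsSch φ) (w : S) :
    Continuous (fun p : ℝ => (Rad φ (w, p) : ℂ)) ∧ Integrable (fun p : ℝ => (Rad φ (w, p) : ℂ)) volume ∧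
    Continuous (fun p : ℝ => (dRad φ (w, p) : ℂ)) ∧ Integrable (fun p : ℝ => (dRad φ (w, p) : ℂ)) volume ∧
    ∀ p : ℝ, HasDerivAt (fun p : ℝ => (Rad φ (w, p) : ℂ)) (dRad φ (w, p) : ℂ) p := by
  obtain ⟨hc1, hc2, ⟨C, hC⟩, hd, -, -, -⟩ := hRadS φ hφ
  have c1 : Continuous (fun p : ℝ => (Rad φ (w, p) : ℂ)) :=
    Complex.continuous_ofReal.comp (hc1.comp (by fun_prop))
  have c2 : Continuous (fun p : ℝ => (dRad φ (w, p) : ℂ)) :=
    Complex.continuous_ofReal.comp (hc2.comp (by fun_prop))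
  refine ⟨c1, ?_, c2, ?_, fun p => (hd w p).1.ofReal_comp⟩
  · refine Integrable.mono' (g := fun p : ℝ => C * (1 + p ^ 2)⁻¹)
      (integrable_inv_one_add_sq.const_mul C) c1.aestronglyMeasurable (Eventually.of_forall fun p => ?_)
    rw [Complex.norm_real, Real.norm_eq_abs]
    have h1 := (hC (w, p)).1
    rw [div_eq_mul_inv] at h1
    exact h1
  · refine Integrable.mono' (g := fun p : ℝ => C * (1 + p ^ 2)⁻¹)
      (integrable_inv_one_add_sq.const_mul C) c2.aestronglyMeasurable (Eventually.of_forall fun p => ?_)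
    rw [Complex.norm_real, Real.norm_eq_abs]
    have h1 := (hC (w, p)).2
    rw [div_eq_mul_inv] at h1
    exact h1

theorem inv_eq {f : ℝ → ℂ} (hf : Continuous f) (hi : Integrable f volume) (hF : Integrable (𝓕 f) volume) (p : ℝ) :
    ∫ r : ℝ, 𝓕 f r * Complex.exp (2 * Real.pi * Complex.I * ((r * p : ℝ) : ℂ)) = f p := by
  have h := congrFun (hf.fourierInv_fourier_eq hi hF) p
  rw [Real.fourierInv_eq'] at h
  rw [← h]
  refine integral_congr_ae (Eventually.of_forall fun r => ?_)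
  simp only [smul_eq_mul]
  rw [mul_comm]
  congr 2
  have h2 : (inner ℝ r p : ℝ) = r * p := by
    simp [mul_comm]
  rw [h2]
  push_cast
  ring

theorem RsF_zero (h1 : St_Ft) (h2 : Pool.Agent.QWE.St_RadS) (h3 : Pool.Agent.QWE.St_FSl) {φ : E → ℝ}
    (hφ : IsSch φ) : RsF 0 φ = Rad φ := by
  funext z
  obtain ⟨w, p⟩ := z
  obtain ⟨c1, i1, -, -, -⟩ := rad_props h2 hφ w
  obtain ⟨fc, fb, -⟩ := h1.2 φ hφ
  obtain ⟨C, hC⟩ := fb 2
  have hF : 𝓕 (fun p : ℝ => (Rad φ (w, p) : ℂ)) = fun r : ℝ => ft φ (r • (w : E)) :=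
    funext fun r => ft_slice h3 hφ w r
  have hFi : Integrable (𝓕 (fun p : ℝ => (Rad φ (w, p) : ℂ))) volume := by
    rw [hF]
    refine int_of_bound (C := C) (fc.comp (by fun_prop)) fun r => ?_
    have := hC (r • (w : E))
    rwa [norm_smul, sphere_norm, mul_one, Real.norm_eq_abs] at this
  have h := inv_eq c1 i1 hFi p
  rw [hF] at h
  unfold RsF
  simp only [neg_zero, Real.rpow_zero, Complex.ofReal_one, one_mul]
  rw [h, Complex.ofReal_re]

theorem dRsF_zero (h1 : St_Ft) (h2 : Pool.Agent.QWE.St_RadS) (h3 : Pool.Agent.QWE.St_FSl) {φ : E → ℝ}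
    (hφ : IsSch φ) : dRsF 0 φ = dRad φ := by
  funext z
  obtain ⟨w, p⟩ := z
  obtain ⟨c1, i1, c2, i2, hd⟩ := rad_props h2 hφ w
  obtain ⟨fc, fb, -⟩ := h1.2 φ hφ
  obtain ⟨C, hC⟩ := fb 3
  have hder : deriv (fun p : ℝ => (Rad φ (w, p) : ℂ)) = fun p : ℝ => (dRad φ (w, p) : ℂ) :=
    funext fun p => (hd p).deriv
  have hF : 𝓕 (fun p : ℝ => (dRad φ (w, p) : ℂ)) =
      fun r : ℝ => (2 * Real.pi * Complex.I * (r : ℂ)) * ft φ (r • (w : E)) := by
    rw [← hder, Real.fourier_deriv i1 (fun p => (hd p).differentiableAt) (by rw [hder]; exact i2)]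
    funext r
    rw [ft_slice h3 hφ w r, smul_eq_mul]
  have hFi : Integrable (𝓕 (fun p : ℝ => (dRad φ (w, p) : ℂ))) volume := by
    rw [hF]
    refine int_of_bound (C := 2 * Real.pi * C)
      ((by fun_prop : Continuous fun r : ℝ => (2 * Real.pi * Complex.I * (r : ℂ))).mul (fc.comp (by fun_prop)))
      fun r => ?_
    have h4 := hC (r • (w : E))
    rw [norm_smul, sphere_norm, mul_one, Real.norm_eq_abs] at h4
    have h5 : ‖(2 * Real.pi * Complex.I * (r : ℂ))‖ = 2 * Real.pi * |r| := by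
      rw [norm_mul, norm_mul, norm_mul, Complex.norm_I, Complex.norm_real, Complex.norm_real, Real.norm_eq_abs,
        Real.norm_eq_abs, abs_of_pos Real.pi_pos]
      simp
    rw [norm_mul, h5]
    have hr := abs_nonneg r
    have hpos : 0 < (1 + |r|) := by linarith
    have hC0 : 0 ≤ C := by
      have := (norm_nonneg _).trans h4
      by_contra hneg
      push Not at hneg
      have h6 : C / (1 + |r|) ^ 3 < 0 := div_neg_of_neg_of_pos hneg (by positivity)
      linarith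
    calc 2 * Real.pi * |r| * ‖ft φ (r • (w : E))‖ ≤ 2 * Real.pi * |r| * (C / (1 + |r|) ^ 3) :=
          mul_le_mul_of_nonneg_left h4 (by positivity)
      _ ≤ 2 * Real.pi * (1 + |r|) * (C / (1 + |r|) ^ 3) := by
          apply mul_le_mul_of_nonneg_right _ (by positivity)
          have := Real.pi_pos
          nlinarith
      _ = 2 * Real.pi * C / (1 + |r|) ^ 2 := by
          field_simp
  have h := inv_eq c2 i2 hFi p
  rw [hF] at h
  unfold dRsF
  simp only [neg_zero, Real.rpow_zero, Complex.ofReal_one, one_mul]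
  rw [h, Complex.ofReal_re]

end Idnx

open Idnx

theorem thm_Idn (h1 : St_Ft) (h2 : Pool.Agent.QWE.St_RadS) (h3 : Pool.Agent.QWE.St_FSl) : St_Idn := by
  intro φ g hφ hg
  have a1 : ∀ {φ : E → ℝ}, IsSch φ → Rs 0 φ = Rk φ := fun hφ => by
    unfold Rs Rk
    rw [RsF_zero h1 h2 h3 hφ]
  have a2 : ∀ {φ : E → ℝ}, IsSch φ → dRs 0 φ = dRk φ := fun hφ => by
    unfold dRs dRk
    rw [dRsF_zero h1 h2 h3 hφ]
  have lapS : ∀ {φ : E → ℝ}, IsSch φ → IsSch (lap φ) := fun {φ} hφ => by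
    obtain ⟨-, -, -, -, -, -, -, -, h, -⟩ := h1.2 φ hφ
    exact h
  refine ⟨a1 hφ, a2 hφ, ?_⟩
  unfold Theta Pool.Agent.QWE.Theta
  rw [neg_zero, a1 (lapS (lapS hφ)), a2 (lapS hg)]

end Pool.Agent.QWP
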