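import Pool.Agent.QWP.StA

set_option autoImplicit false

/-!
# QWP, IsoP: the isometry
-/

open MeasureTheory Filter Topology Set
open scoped ENNReal NNReal RealInnerProductSpace

namespace Pool.Agent.QWP

open Pool.Agent.QWE (E S sg mu K toK tau sh dl rev gr ig IsTest pd lap Rad dRad Rk dRk c0 WD Sm SmE IsSch half shr WTo)

namespace IsoPx

lemma ae_ne : ∀ᵐ ξ : E, ξ ≠ 0 := by
  have h : ({0} : Set E)ᶜ ∈ ae (volume : Measure E) := by
    rw [mem_ae_iff, compl_compl]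
    exact measure_singleton 0
  filter_upwards [h] with x hx using hx

lemma sphere_norm (z : S × ℝ) : ‖z.2 • (z.1 : E)‖ = |z.2| := by
  rw [norm_smul, norm_eq_of_mem_sphere, mul_one, Real.norm_eq_abs]

lemma abs_eq (z : S × ℝ) : |2 * Real.pi * z.2| = 2 * Real.pi * ‖z.2 • (z.1 : E)‖ := by
  rw [sphere_norm, abs_mul, abs_of_pos Real.two_pi_pos]

lemma meas (hFt : St_Ft) {φ ψ : E → ℝ} (hφ : IsSch φ) (hψ : IsSch ψ) (a : ℝ) :
    AEStronglyMeasurable (fun ξ : E => (((2 * Real.pi * ‖ξ‖) ^ a : ℝ) : ℂ) * ft φ ξ *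
      (starRingEnd ℂ) (ft ψ ξ)) volume := by
  have h1 : Measurable fun ξ : E => (((2 * Real.pi * ‖ξ‖) ^ a : ℝ) : ℂ) := by fun_prop
  have h2 : Continuous (ft φ) := (hFt.2 φ hφ).1
  have h3 : Continuous fun ξ => (starRingEnd ℂ) (ft ψ ξ) :=
    Complex.continuous_conj.comp (hFt.2 ψ hψ).1
  exact ((h1.aestronglyMeasurable).mul h2.aestronglyMeasurable).mul h3.aestronglyMeasurable

/-- Polar coordinates. -/
lemma polar (hFt : St_Ft) (hPol : St_Pol) {φ ψ : E → ℝ} (hφ : IsSch φ) (hψ : IsSch ψ) (a : ℝ) :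
    c0 * (∫ z : S × ℝ, ((|2 * Real.pi * z.2| ^ a : ℝ) : ℂ) * ft φ (z.2 • (z.1 : E)) *
      (starRingEnd ℂ) (ft ψ (z.2 • (z.1 : E))) ∂mu).re =
    (∫ ξ, (((2 * Real.pi * ‖ξ‖) ^ (a - 4) : ℝ) : ℂ) * (ft φ ξ * (starRingEnd ℂ) (ft ψ ξ))).re := by
  have h1 := (hPol _ (meas hFt hφ hψ a)).2
  simp only [abs_eq]
  rw [h1, ← Complex.re_ofReal_mul, ← integral_const_mul, ← integral_const_mul]
  congr 1
  refine integral_congr_ae ?_
  filter_upwards [ae_ne] with ξ hξ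
  have hn : 0 < ‖ξ‖ := norm_pos_iff.2 hξ
  have hp : (0 : ℝ) < 2 * Real.pi := Real.two_pi_pos
  have e1 : c0 * 2 * ‖ξ‖ ^ (-4 : ℝ) = (2 * Real.pi * ‖ξ‖) ^ (-4 : ℝ) := by
    have h4 : (-4 : ℝ) = ((-4 : ℤ) : ℝ) := by norm_num
    rw [h4, Real.rpow_intCast, Real.rpow_intCast]
    unfold c0
    have : Real.pi ≠ 0 := Real.pi_ne_zero
    field_simp
    norm_num
  have e2 : (2 * Real.pi * ‖ξ‖) ^ (a - 4) =
      (2 * Real.pi * ‖ξ‖) ^ (-4 : ℝ) * (2 * Real.pi * ‖ξ‖) ^ a := by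
    rw [← Real.rpow_add (by positivity)]
    congr 1
    ring
  rw [e2, ← e1]
  push_cast
  ring

lemma hs_eq (a : ℝ) (φ : E → ℝ) :
    (∫ ξ, (((2 * Real.pi * ‖ξ‖) ^ (2 * a) : ℝ) : ℂ) * (ft φ ξ * (starRingEnd ℂ) (ft φ ξ))).re =
      hs a φ := by
  have h1 : ∀ ξ, (((2 * Real.pi * ‖ξ‖) ^ (2 * a) : ℝ) : ℂ) * (ft φ ξ * (starRingEnd ℂ) (ft φ ξ)) =
      (((2 * Real.pi * ‖ξ‖) ^ (2 * a) * ‖ft φ ξ‖ ^ 2 : ℝ) : ℂ) := by
    intro ξ
    rw [Complex.mul_conj']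
    push_cast
    ring
  simp only [h1]
  rw [integral_complex_ofReal, Complex.ofReal_re]
  rfl

/-- Odd functions have integral zero. -/
lemma odd_zero (G : S × ℝ → ℂ) (h : ∀ z, G (-z.1, -z.2) = - G z) : ∫ z, G z ∂mu = 0 := by
  have hemb : MeasurableEmbedding fun z : S × ℝ => (-z.1, -z.2) := by
    have h1 : (fun z : S × ℝ => (-z.1, -z.2)) = Prod.map (fun w : S => -w) (fun p : ℝ => -p) := rfl
    rw [h1]
    exact ((Homeomorph.neg S).prodCongr (Homeomorph.neg ℝ)).measurableEmbedding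
  have h1 := Pool.Agent.QWE.mp_rev.integral_comp hemb G
  simp only [h] at h1
  rw [integral_neg] at h1
  have h2 : (2 : ℂ) * ∫ z, G z ∂mu = 0 := by linear_combination -h1
  exact (mul_eq_zero.1 h2).resolve_left two_ne_zero

lemma cross (hG : Pool.Agent.QWE.St_Grp1) (hPar : St_Par) (s s' : ℝ) {f φ : E → ℝ}
    (hs : |s| < 1 / 2) (hs' : |s'| < 1 / 2) (hf : IsSch f) (hφ : IsSch φ) :
    inner ℝ (Rs s f) (dRs s' φ) = 0 := by
  have h1 := (hPar s s' 0 f φ hs hs' hf hφ).2.2.2.2.2.2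
  rw [hG.2.1] at h1
  rw [h1, odd_zero, Complex.zero_re]
  intro z
  have e1 : (-z.2) • ((-z.1 : S) : E) = z.2 • (z.1 : E) := by
    have h2 : ((-z.1 : S) : E) = -(z.1 : E) := rfl
    rw [h2, smul_neg, neg_smul, neg_neg]
  simp only [e1, mul_neg, abs_neg, mul_zero, Complex.ofReal_neg, neg_mul]

lemma diagR (hG : Pool.Agent.QWE.St_Grp1) (hFt : St_Ft) (hPar : St_Par) (hPol : St_Pol)
    (s s' : ℝ) {f φ : E → ℝ} (hs : |s| < 1 / 2) (hs' : |s'| < 1 / 2) (hf : IsSch f)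
    (hφ : IsSch φ) :
    c0 * inner ℝ (Rs s f) (Rs s' φ) = (∫ ξ, (((2 * Real.pi * ‖ξ‖) ^ (-s - s' - 4) : ℝ) : ℂ) *
      (ft f ξ * (starRingEnd ℂ) (ft φ ξ))).re := by
  have h1 := (hPar s s' 0 f φ hs hs' hf hφ).2.2.2.2.1
  rw [hG.2.1] at h1
  rw [h1, ← polar hFt hPol hf hφ]
  simp only [mul_zero, Complex.ofReal_zero, Complex.exp_zero, mul_one]

lemma diagD (hG : Pool.Agent.QWE.St_Grp1) (hFt : St_Ft) (hPar : St_Par) (hPol : St_Pol)
    (s s' : ℝ) {f φ : E → ℝ} (hs : |s| < 1 / 2) (hs' : |s'| < 1 / 2) (hf : IsSch f)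
    (hφ : IsSch φ) :
    c0 * inner ℝ (dRs s f) (dRs s' φ) =
      (∫ ξ, (((2 * Real.pi * ‖ξ‖) ^ (2 - s - s' - 4) : ℝ) : ℂ) *
        (ft f ξ * (starRingEnd ℂ) (ft φ ξ))).re := by
  have h1 := (hPar s s' 0 f φ hs hs' hf hφ).2.2.2.2.2.1
  rw [hG.2.1] at h1
  rw [h1, ← polar hFt hPol hf hφ]
  simp only [mul_zero, Complex.ofReal_zero, Complex.exp_zero, mul_one]

lemma normR (hG : Pool.Agent.QWE.St_Grp1) (hFt : St_Ft) (hPar : St_Par) (hPol : St_Pol)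
    (s : ℝ) {φ : E → ℝ} (hs : |s| < 1 / 2) (hφ : IsSch φ) :
    c0 * ‖Rs s φ‖ ^ 2 = QWP.hs (-2 - s) φ := by
  rw [← real_inner_self_eq_norm_sq, diagR hG hFt hPar hPol s s hs hs hφ hφ, ← hs_eq]
  have e : -s - s - 4 = 2 * (-2 - s) := by ring
  rw [e]

lemma normD (hG : Pool.Agent.QWE.St_Grp1) (hFt : St_Ft) (hPar : St_Par) (hPol : St_Pol)
    (s : ℝ) {φ : E → ℝ} (hs : |s| < 1 / 2) (hφ : IsSch φ) :
    c0 * ‖dRs s φ‖ ^ 2 = QWP.hs (-1 - s) φ := by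
  rw [← real_inner_self_eq_norm_sq, diagD hG hFt hPar hPol s s hs hs hφ hφ, ← hs_eq]
  have e : 2 - s - s - 4 = 2 * (-1 - s) := by ring
  rw [e]

lemma hs_lap (hFt : St_Ft) (a : ℝ) {φ : E → ℝ} (hφ : IsSch φ) :
    QWP.hs a (lap φ) = QWP.hs (a + 2) φ := by
  unfold QWP.hs
  refine integral_congr_ae ?_
  filter_upwards [ae_ne] with ξ hξ
  have hn : 0 < ‖ξ‖ := norm_pos_iff.2 hξ
  have hp : (0 : ℝ) < 2 * Real.pi := Real.two_pi_pos
  have h1 : ft (lap φ) ξ = -(((2 * Real.pi * ‖ξ‖) ^ 2 : ℝ) : ℂ) * ft φ ξ :=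
    (hFt.2 φ hφ).2.2.2.2.1 ξ
  rw [h1, norm_mul, norm_neg, Complex.norm_real, Real.norm_eq_abs, abs_of_nonneg (by positivity)]
  have e : 2 * (a + 2) = 2 * a + 4 := by ring
  rw [e, Real.rpow_add (by positivity)]
  have e4 : (2 * Real.pi * ‖ξ‖) ^ (4 : ℝ) = (2 * Real.pi * ‖ξ‖) ^ 4 := by
    rw [← Real.rpow_natCast]
    norm_num
  rw [e4]
  ring

/-- Integrability. -/
lemma integ (hFt : St_Ft) {φ : E → ℝ} (hφ : IsSch φ) (a : ℝ) (ha : -5 / 2 < a) :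
    Integrable (fun ξ : E => (2 * Real.pi * ‖ξ‖) ^ (2 * a) * ‖ft φ ξ‖ ^ 2) volume := by
  obtain ⟨N, hN⟩ := exists_nat_gt (5 + 2 * a)
  obtain ⟨C0, hC0⟩ := (hFt.2 φ hφ).2.1 0
  obtain ⟨C1, hC1⟩ := (hFt.2 φ hφ).2.1 N
  simp only [pow_zero, div_one] at hC0
  have hC0' : 0 ≤ C0 := (norm_nonneg _).trans (hC0 0)
  have hC1' : 0 ≤ C1 := by
    have h := (norm_nonneg _).trans (hC1 0)
    rw [norm_zero, add_zero, one_pow, div_one] at h
    exact h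
  set g : ℝ → ℝ := fun r => if r ≤ 1 then (2 * Real.pi) ^ (2 * a) * C0 ^ 2 * r ^ (2 * a)
    else (2 * Real.pi) ^ (2 * a) * C1 ^ 2 * r ^ (2 * a - 2 * N) with hg
  have hgint : Integrable (fun ξ : E => g ‖ξ‖) volume := by
    rw [integrable_fun_norm_addHaar, finrank_euclideanSpace_fin]
    have h1 : Ioi (0 : ℝ) = Ioc 0 1 ∪ Ioi 1 := by
      rw [Ioc_union_Ioi_eq_Ioi zero_le_one]
    rw [h1, integrableOn_union]
    constructor
    · have h2 : IntegrableOn (fun r : ℝ => (2 * Real.pi) ^ (2 * a) * C0 ^ 2 * r ^ (4 + 2 * a))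
          (Ioc 0 1) volume := by
        have h3 := intervalIntegral.intervalIntegrable_rpow' (r := 4 + 2 * a) (a := 0) (b := 1)
          (by linarith)
        rw [intervalIntegrable_iff_integrableOn_Ioc_of_le zero_le_one] at h3
        exact h3.const_mul _
      refine h2.congr_fun ?_ measurableSet_Ioc
      intro r hr
      simp only [hg, smul_eq_mul, if_pos hr.2]
      rw [Real.rpow_add hr.1]
      have e4 : r ^ (4 : ℝ) = r ^ 4 := by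
        rw [← Real.rpow_natCast]
        norm_num
      rw [e4]
      norm_num
      ring
    · have h2 : IntegrableOn (fun r : ℝ => (2 * Real.pi) ^ (2 * a) * C1 ^ 2 *
          r ^ (4 + (2 * a - 2 * N))) (Ioi 1) volume := by
        have h3 := integrableOn_Ioi_rpow_of_lt (a := 4 + (2 * a - 2 * N)) (c := 1) (by
          have hN0 : (0 : ℝ) < N := by linarith
          linarith) one_pos
        exact h3.const_mul _
      refine h2.congr_fun ?_ measurableSet_Ioi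
      intro r hr
      have hr1 : (1 : ℝ) < r := hr
      simp only [hg, smul_eq_mul, if_neg (not_le.2 hr1)]
      rw [Real.rpow_add (by linarith)]
      have e4 : r ^ (4 : ℝ) = r ^ 4 := by
        rw [← Real.rpow_natCast]
        norm_num
      rw [e4]
      norm_num
      ring
  refine hgint.mono ?_ ?_
  · have h1 : Measurable fun ξ : E => (2 * Real.pi * ‖ξ‖) ^ (2 * a) := by fun_prop
    have h2 : Continuous fun ξ => ‖ft φ ξ‖ ^ 2 := ((hFt.2 φ hφ).1.norm).pow 2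
    exact h1.aestronglyMeasurable.mul h2.aestronglyMeasurable
  · filter_upwards [ae_ne] with ξ hξ
    have hn : 0 < ‖ξ‖ := norm_pos_iff.2 hξ
    have hp : (0 : ℝ) < 2 * Real.pi := Real.two_pi_pos
    rw [Real.norm_of_nonneg (by positivity), Real.norm_eq_abs]
    refine le_trans ?_ (le_abs_self _)
    rw [Real.mul_rpow hp.le hn.le]
    simp only [hg]
    split_ifs with h
    · calc (2 * Real.pi) ^ (2 * a) * ‖ξ‖ ^ (2 * a) * ‖ft φ ξ‖ ^ 2
          ≤ (2 * Real.pi) ^ (2 * a) * ‖ξ‖ ^ (2 * a) * C0 ^ 2 := by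
            gcongr
            exact hC0 ξ
        _ = (2 * Real.pi) ^ (2 * a) * C0 ^ 2 * ‖ξ‖ ^ (2 * a) := by ring
    · have h2 : ‖ft φ ξ‖ ≤ C1 / ‖ξ‖ ^ N := by
        refine (hC1 ξ).trans ?_
        gcongr
        linarith
      have h3 : ‖ξ‖ ^ (2 * a - 2 * N) = ‖ξ‖ ^ (2 * a) / (‖ξ‖ ^ N) ^ 2 := by
        rw [Real.rpow_sub hn]
        congr 1
        rw [← pow_mul, ← Real.rpow_natCast]
        congr 1
        push_cast
        ring
      calc (2 * Real.pi) ^ (2 * a) * ‖ξ‖ ^ (2 * a) * ‖ft φ ξ‖ ^ 2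
          ≤ (2 * Real.pi) ^ (2 * a) * ‖ξ‖ ^ (2 * a) * (C1 / ‖ξ‖ ^ N) ^ 2 := by
            gcongr
        _ = (2 * Real.pi) ^ (2 * a) * C1 ^ 2 * ‖ξ‖ ^ (2 * a - 2 * N) := by
            rw [h3, div_pow]
            ring

end IsoPx

open IsoPx

theorem thm_IsoP (hG : Pool.Agent.QWE.St_Grp1) (hFt : St_Ft) (hPol : St_Pol) (hPar : St_Par) :
    St_IsoP := by
  intro s f φ hs hf hφ
  have hs' : |-s| < 1 / 2 := by rwa [abs_neg]
  have hlf : IsSch (lap f) := (hFt.2 f hf).2.2.2.2.2.2.2.2.1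
  have hllf : IsSch (lap (lap f)) := (hFt.2 _ hlf).2.2.2.2.2.2.2.2.1
  have hlφ : IsSch (lap φ) := (hFt.2 φ hφ).2.2.2.2.2.2.2.2.1
  have hPl : ∫ x, f x * φ x = (∫ ξ, ft f ξ * (starRingEnd ℂ) (ft φ ξ)).re :=
    (hFt.2 f hf).2.2.1 φ hφ
  have hl1 : ∀ ξ, ft (lap f) ξ = -(((2 * Real.pi * ‖ξ‖) ^ 2 : ℝ) : ℂ) * ft f ξ :=
    (hFt.2 f hf).2.2.2.2.1
  have hl2 : ∀ ξ, ft (lap (lap f)) ξ = -(((2 * Real.pi * ‖ξ‖) ^ 2 : ℝ) : ℂ) * ft (lap f) ξ :=
    (hFt.2 _ hlf).2.2.2.2.1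
  refine ⟨?_, ?_, cross hG hPar s (-s) hs hs' hf hφ, cross hG hPar s s hs hs hf hφ,
    normR hG hFt hPar hPol s hs hφ, normD hG hFt hPar hPol s hs hφ, ?_,
    fun a ha => integ hFt hφ a ha⟩
  · rw [diagR hG hFt hPar hPol (-s) s hs' hs hllf hφ, hPl]
    congr 1
    refine integral_congr_ae ?_
    filter_upwards [ae_ne] with ξ hξ
    have hn : 0 < ‖ξ‖ := norm_pos_iff.2 hξ
    have hp : (0 : ℝ) < 2 * Real.pi := Real.two_pi_pos
    have e : - -s - s - 4 = ((-4 : ℤ) : ℝ) := by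
      push_cast
      ring
    rw [hl2, hl1, e, Real.rpow_intCast]
    have e2 : (((2 * Real.pi * ‖ξ‖) ^ (-4 : ℤ) : ℝ) : ℂ) * ((((2 * Real.pi * ‖ξ‖) ^ 2 : ℝ) : ℂ) *
        (((2 * Real.pi * ‖ξ‖) ^ 2 : ℝ) : ℂ)) = 1 := by
      rw [← Complex.ofReal_mul, ← Complex.ofReal_mul, ← Complex.ofReal_one]
      congr 1
      field_simp
    linear_combination (ft f ξ * (starRingEnd ℂ) (ft φ ξ)) * e2
  · rw [diagD hG hFt hPar hPol (-s) s hs' hs hlf hφ, hPl, ← Complex.neg_re, ← integral_neg]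
    congr 1
    refine integral_congr_ae ?_
    filter_upwards [ae_ne] with ξ hξ
    have hn : 0 < ‖ξ‖ := norm_pos_iff.2 hξ
    have hp : (0 : ℝ) < 2 * Real.pi := Real.two_pi_pos
    have e : 2 - -s - s - 4 = ((-2 : ℤ) : ℝ) := by
      push_cast
      ring
    rw [hl1, e, Real.rpow_intCast]
    have e2 : (((2 * Real.pi * ‖ξ‖) ^ (-2 : ℤ) : ℝ) : ℂ) *
        (((2 * Real.pi * ‖ξ‖) ^ 2 : ℝ) : ℂ) = 1 := by
      rw [← Complex.ofReal_mul, ← Complex.ofReal_one]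
      congr 1
      field_simp
    linear_combination -(ft f ξ * (starRingEnd ℂ) (ft φ ξ)) * e2
  · have h1 : c0 * ‖Rs (-s) (lap (lap f))‖ ^ 2 = QWP.hs (2 + s) f := by
      rw [normR hG hFt hPar hPol (-s) hs' hllf, hs_lap hFt _ hlf, hs_lap hFt _ hf]
      congr 1
      ring
    have h2 : c0 * ‖dRs (-s) (lap φ)‖ ^ 2 = QWP.hs (1 + s) φ := by
      rw [normD hG hFt hPar hPol (-s) hs' hlφ, hs_lap hFt _ hφ]
      congr 1
      ring
    have h3 := cross hG hPar (-s) (-s) hs' hs' hllf hlφ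
    have hc : 0 ≤ c0 := by
      unfold c0
      positivity
    unfold Theta
    rw [norm_smul, mul_pow, norm_sub_sq_real, h3, Real.norm_of_nonneg hc, ← h1, ← h2]
    ring

end Pool.Agent.QWP
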