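import Pool.Agent.QWP.StA2

set_option autoImplicit false

/-!
# QWP, KerB: bounds of the kernel profile
-/

open MeasureTheory Filter Topology Set
open scoped ENNReal NNReal

namespace Pool.Agent.QWP.KerBx

/-- Even extensions. -/
lemma even_int {d : ℝ → ℝ} (hd : IntegrableOn d (Ioi 0)) : Integrable fun u : ℝ => d |u| := by
  have h1 : IntegrableOn (fun u : ℝ => d |u|) (Ioi 0) := by
    refine hd.congr_fun (fun u hu => ?_) measurableSet_Ioi
    have hu' : (0 : ℝ) < u := hu
    simp only [abs_of_pos hu']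
  have h2 : IntegrableOn (fun u : ℝ => d |u|) (Iic 0) := by
    rw [integrableOn_Iic_iff_integrableOn_Iio]
    have hmp : MeasurePreserving (fun x : ℝ => -x) volume volume := Measure.measurePreserving_neg volume
    have h3 := (hmp.integrableOn_comp_preimage (Homeomorph.neg ℝ).measurableEmbedding
      (f := fun u : ℝ => d |u|) (s := Ioi 0)).2 h1
    have h4 : (fun x : ℝ => -x) ⁻¹' Ioi 0 = Iio 0 := by ext x; simp
    rw [h4] at h3
    refine h3.congr_fun (fun u _ => ?_) measurableSet_Iio
    simp only [Function.comp, abs_neg]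
  have h3 := h2.union h1
  rw [Iic_union_Ioi, integrableOn_univ] at h3
  exact h3

/-- The profile. -/
noncomputable def P (t : ℝ) : ℝ := max 0 (1 - t ^ 2)

lemma P_cont : Continuous P := by unfold P; fun_prop

lemma P_nonneg (t : ℝ) : 0 ≤ P t := le_max_left _ _

lemma P_le (t : ℝ) : P t ≤ 1 := max_le zero_le_one (by nlinarith [sq_nonneg t])

lemma P_zero {t : ℝ} (h : 1 ≤ |t|) : P t = 0 := by
  unfold P
  rw [max_eq_left]
  have : 1 ≤ t ^ 2 := by rw [← sq_abs]; nlinarith
  linarith

lemma P_eq (t : ℝ) : P t = 1 - min 1 |t| ^ 2 := by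
  rcases le_total 1 |t| with h | h
  · rw [P_zero h, min_eq_left h]; ring
  · unfold P
    rw [min_eq_right h, sq_abs, max_eq_right]
    have : t ^ 2 ≤ 1 := by rw [← sq_abs]; nlinarith [abs_nonneg t]
    linarith

lemma P_lip (t t' : ℝ) : |P t - P t'| ≤ 2 * |t - t'| := by
  rw [P_eq, P_eq]
  have h0 : 0 ≤ min 1 |t| := le_min zero_le_one (abs_nonneg _)
  have h0' : 0 ≤ min 1 |t'| := le_min zero_le_one (abs_nonneg _)
  have h1 : min 1 |t| ≤ 1 := min_le_left _ _
  have h1' : min 1 |t'| ≤ 1 := min_le_left _ _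
  have h2 : |min 1 |t'| - min 1 (|t|)| ≤ |t - t'| := by
    have h4 : |min 1 |t'| - min 1 (|t|)| ≤ |(|t'| - |t|)| := by
      have h5 := abs_min_sub_min_le_max 1 (|t'|) 1 (|t|)
      rw [sub_self, abs_zero, max_eq_right (abs_nonneg _)] at h5
      exact h5
    calc _ ≤ |(|t'| - |t|)| := h4
      _ ≤ |t' - t| := abs_abs_sub_abs_le_abs_sub t' t
      _ = |t - t'| := abs_sub_comm _ _
  have h3 : (1 - min 1 |t| ^ 2) - (1 - min 1 |t'| ^ 2) =
      (min 1 |t'| - min 1 |t|) * (min 1 |t'| + min 1 |t|) := by ring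
  rw [h3, abs_mul, abs_of_nonneg (a := min 1 |t'| + min 1 |t|) (by positivity)]
  nlinarith [abs_nonneg (min 1 |t'| - min 1 (|t|))]

lemma P_diff (t t' : ℝ) : |P t - P t'| ≤ 1 := by
  rw [abs_le]
  constructor <;> linarith [P_nonneg t, P_nonneg t', P_le t, P_le t']

/-- Dominating function for (i). -/
lemma int_D1 {α : ℝ} (h0 : 0 < α) (h1 : α < 1) :
    Integrable fun u : ℝ => min (2 * |u|) 1 * |u| ^ (-1 - α) := by
  refine even_int (d := fun u => min (2 * u) 1 * u ^ (-1 - α)) ?_
  have hmeas : AEStronglyMeasurable (fun u : ℝ => min (2 * u) 1 * u ^ (-1 - α)) volume :=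
    (by fun_prop : Measurable fun u : ℝ => min (2 * u) 1 * u ^ (-1 - α)).aestronglyMeasurable
  rw [← Ioc_union_Ioi_eq_Ioi (zero_le_one' ℝ)]
  refine IntegrableOn.union ?_ ?_
  · have h2 : IntegrableOn (fun u : ℝ => 2 * u ^ (-α)) (Ioc 0 1) :=
      ((intervalIntegrable_iff_integrableOn_Ioc_of_le zero_le_one).1
        (intervalIntegral.intervalIntegrable_rpow' (by linarith))).const_mul 2
    refine h2.mono' hmeas.restrict ((ae_restrict_iff' measurableSet_Ioc).2
      (Eventually.of_forall fun u hu => ?_))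
    have hu0 : 0 < u := hu.1
    rw [Real.norm_of_nonneg (by positivity)]
    have h3 : u ^ (-α) = u * u ^ (-1 - α) := by
      nth_rw 2 [← Real.rpow_one u]
      rw [← Real.rpow_add hu0]
      congr 1; ring
    rw [h3]
    calc min (2 * u) 1 * u ^ (-1 - α) ≤ 2 * u * u ^ (-1 - α) := by
          gcongr
          exact min_le_left _ _
      _ = _ := by ring
  · have h2 : IntegrableOn (fun u : ℝ => u ^ (-1 - α)) (Ioi 1) :=
      integrableOn_Ioi_rpow_of_lt (by linarith) one_pos
    refine h2.mono' hmeas.restrict ((ae_restrict_iff' measurableSet_Ioi).2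
      (Eventually.of_forall fun u hu => ?_))
    have hu0 : (0 : ℝ) < u := zero_lt_one.trans hu
    rw [Real.norm_of_nonneg (by positivity)]
    calc min (2 * u) 1 * u ^ (-1 - α) ≤ 1 * u ^ (-1 - α) := by
          gcongr
          exact min_le_right _ _
      _ = _ := one_mul _

/-- Dominating function for (ii). -/
lemma int_D2 {α : ℝ} (h0 : 0 < α) :
    Integrable fun u : ℝ => (Icc (-3 : ℝ) 3).indicator (fun u => |u| ^ (α - 1)) u := by
  have h1 : Integrable fun u : ℝ => (Ioc (0 : ℝ) 3).indicator (fun u => u ^ (α - 1)) |u| := by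
    refine even_int ?_
    refine (IntegrableOn.integrable_indicator ?_ measurableSet_Ioc).integrableOn
    exact (intervalIntegrable_iff_integrableOn_Ioc_of_le (by norm_num)).1
      (intervalIntegral.intervalIntegrable_rpow' (by linarith))
  refine h1.congr ?_
  have h2 : ∀ᵐ u : ℝ, u ≠ 0 := Measure.ae_ne volume 0
  filter_upwards [h2] with u hu
  have hu0 : 0 < |u| := abs_pos.2 hu
  by_cases h3 : |u| ≤ 3
  · rw [indicator_of_mem (show |u| ∈ Ioc (0 : ℝ) 3 from ⟨hu0, h3⟩),
      indicator_of_mem (show u ∈ Icc (-3 : ℝ) 3 from abs_le.1 h3)]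
  · rw [indicator_of_notMem (fun h : |u| ∈ Ioc (0 : ℝ) 3 => h3 h.2),
      indicator_of_notMem (fun h : u ∈ Icc (-3 : ℝ) 3 => h3 (abs_le.2 h))]

lemma pow_bd {c t : ℝ} (hc : c < 0) (ht : 2 ≤ |t|) :
    (|t| / 2) ^ c ≤ (1 / 3) ^ c * (1 + |t|) ^ c := by
  rw [← Real.mul_rpow (by norm_num) (by positivity)]
  exact Real.rpow_le_rpow_of_nonpos (by positivity) (by linarith) hc.le

lemma far_bd {c t t' : ℝ} (hc : c < 0) (ht : 2 ≤ |t|) (ht' : |t'| ≤ 1) :
    |t - t'| ^ c ≤ (1 / 3) ^ c * (1 + |t|) ^ c := by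
  refine le_trans ?_ (pow_bd hc ht)
  have h1 : |t| / 2 ≤ |t - t'| := by
    have := abs_sub_abs_le_abs_sub t t'
    linarith
  exact Real.rpow_le_rpow_of_nonpos (by positivity) h1 hc.le

lemma near_bd {c t : ℝ} (hc : c < 0) (ht : |t| ≤ 2) : 1 ≤ (1 / 3) ^ c * (1 + |t|) ^ c := by
  rw [← Real.mul_rpow (by norm_num) (by positivity)]
  exact Real.one_le_rpow_of_pos_of_le_one_of_nonpos (by positivity) (by linarith) hc.le

/-- Bound of an integral over the unit interval. -/
lemma box_bd {f : ℝ → ℝ} {B : ℝ} (hm : Measurable f) (hB : ∀ t', |f t'| ≤ (Icc (-1 : ℝ) 1).indicator (fun _ => B) t') :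
    Integrable f ∧ |∫ t', f t'| ≤ 2 * B := by
  have hi : Integrable ((Icc (-1 : ℝ) 1).indicator fun _ => B) :=
    (integrable_indicator_iff measurableSet_Icc).2 (integrableOn_const (by simp) )
  have h1 : Integrable f := hi.mono' hm.aestronglyMeasurable (Eventually.of_forall hB)
  refine ⟨h1, ?_⟩
  have h2 : ‖∫ t', f t'‖ ≤ _ := norm_integral_le_of_norm_le hi (Eventually.of_forall hB)
  rw [integral_indicator measurableSet_Icc, setIntegral_const, smul_eq_mul] at h2
  have h3 : (volume : Measure ℝ).real (Icc (-1) 1) = 2 := by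
    rw [Measure.real, Real.volume_Icc]; norm_num
  rw [h3] at h2
  exact h2

end Pool.Agent.QWP.KerBx

namespace Pool.Agent.QWP

open KerBx

theorem thm_KerB : St_KerB := by
  intro α h0 h1
  set I1 : ℝ := ∫ u : ℝ, min (2 * |u|) 1 * |u| ^ (-1 - α) with hI1
  set I2 : ℝ := ∫ u : ℝ, (Icc (-3 : ℝ) 3).indicator (fun u => |u| ^ (α - 1)) u with hI2
  have hI1n : 0 ≤ I1 := integral_nonneg fun u => by positivity
  have hI2n : 0 ≤ I2 := integral_nonneg fun u => indicator_nonneg (fun _ _ => by positivity) u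
  set a : ℝ := (1 / 3 : ℝ) ^ (-1 - α) with ha
  set b : ℝ := (1 / 3 : ℝ) ^ (α - 1) with hb
  have hap : 0 < a := by positivity
  have hbp : 0 < b := by positivity
  refine ⟨(I1 + 2) * a + (I2 + 2) * b, by positivity, fun t => ⟨?_, ?_⟩⟩
  · have hm : Measurable fun t' : ℝ => (P t - P t') * |t - t'| ^ (-1 - α) :=
      (measurable_const.sub P_cont.measurable).mul (by fun_prop)
    have hle : ∀ {x : ℝ}, x ≤ (I1 + 2) * (a * (1 + |t|) ^ (-1 - α)) →
        x ≤ ((I1 + 2) * a + (I2 + 2) * b) * (1 + |t|) ^ (-1 - α) := by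
      intro x hx
      refine hx.trans ?_
      have : 0 ≤ (I2 + 2) * b * (1 + |t|) ^ (-1 - α) := by positivity
      linarith
    rcases le_total |t| 2 with ht | ht
    · have hd : ∀ t', |(P t - P t') * |t - t'| ^ (-1 - α)| ≤
          min (2 * |t - t'|) 1 * |t - t'| ^ (-1 - α) := by
        intro t'
        rw [abs_mul, abs_of_nonneg (a := |t - t'| ^ (-1 - α)) (by positivity)]
        gcongr
        exact le_min (P_lip t t') (P_diff t t')
      have hi := (int_D1 h0 h1).comp_sub_left t
      have hint : Integrable fun t' : ℝ => (P t - P t') * |t - t'| ^ (-1 - α) :=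
        hi.mono' hm.aestronglyMeasurable (Eventually.of_forall hd)
      refine ⟨hint, hle ?_⟩
      have h2 : ‖∫ t', (P t - P t') * |t - t'| ^ (-1 - α)‖ ≤ _ :=
        norm_integral_le_of_norm_le hi (Eventually.of_forall hd)
      have h3 : ∫ t', min (2 * |t - t'|) 1 * |t - t'| ^ (-1 - α) = I1 :=
        integral_sub_left_eq_self (fun u : ℝ => min (2 * |u|) 1 * |u| ^ (-1 - α)) volume t
      rw [h3] at h2
      have h4 := near_bd (c := -1 - α) (by linarith) ht
      calc _ ≤ I1 := h2
        _ ≤ (I1 + 2) * 1 := by linarith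
        _ ≤ _ := by gcongr
    · have hPt : P t = 0 := P_zero (by linarith)
      have hd : ∀ t', |(P t - P t') * |t - t'| ^ (-1 - α)| ≤
          (Icc (-1 : ℝ) 1).indicator (fun _ => a * (1 + |t|) ^ (-1 - α)) t' := by
        intro t'
        by_cases h2 : |t'| ≤ 1
        · rw [indicator_of_mem (show t' ∈ Icc (-1 : ℝ) 1 from abs_le.1 h2), abs_mul,
            abs_of_nonneg (a := |t - t'| ^ (-1 - α)) (by positivity)]
          have h3 := far_bd (c := -1 - α) (by linarith) ht h2
          calc |P t - P t'| * |t - t'| ^ (-1 - α) ≤ 1 * |t - t'| ^ (-1 - α) := by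
                gcongr; exact P_diff t t'
            _ ≤ _ := by rw [one_mul]; exact h3
        · rw [indicator_of_notMem (fun h : t' ∈ Icc (-1 : ℝ) 1 => h2 (abs_le.2 h)), hPt,
            P_zero (not_le.1 h2).le]
          simp
      obtain ⟨h2, h3⟩ := box_bd hm hd
      refine ⟨h2, hle (h3.trans ?_)⟩
      have : 0 ≤ a * (1 + |t|) ^ (-1 - α) := by positivity
      nlinarith
  · have hm : Measurable fun t' : ℝ => P t' * |t - t'| ^ (α - 1) :=
      P_cont.measurable.mul (by fun_prop)
    have hle : ∀ {x : ℝ}, x ≤ (I2 + 2) * (b * (1 + |t|) ^ (α - 1)) →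
        x ≤ ((I1 + 2) * a + (I2 + 2) * b) * (1 + |t|) ^ (α - 1) := by
      intro x hx
      refine hx.trans ?_
      have : 0 ≤ (I1 + 2) * a * (1 + |t|) ^ (α - 1) := by positivity
      linarith
    rcases le_total |t| 2 with ht | ht
    · have hd : ∀ t', |P t' * |t - t'| ^ (α - 1)| ≤
          (Icc (-3 : ℝ) 3).indicator (fun u => |u| ^ (α - 1)) (t - t') := by
        intro t'
        rw [abs_mul, abs_of_nonneg (a := |t - t'| ^ (α - 1)) (by positivity),
          abs_of_nonneg (P_nonneg t')]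
        by_cases h2 : |t - t'| ≤ 3
        · rw [indicator_of_mem (show t - t' ∈ Icc (-3 : ℝ) 3 from abs_le.1 h2)]
          calc P t' * |t - t'| ^ (α - 1) ≤ 1 * |t - t'| ^ (α - 1) := by
                gcongr; exact P_le t'
            _ = _ := one_mul _
        · have h3 : 1 ≤ |t'| := by
            have := abs_sub t t'
            have h4 := not_le.1 h2
            linarith
          rw [P_zero h3, zero_mul]
          exact indicator_nonneg (fun _ _ => by positivity) _
      have hi := (int_D2 h0).comp_sub_left t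
      have hint : Integrable fun t' : ℝ => P t' * |t - t'| ^ (α - 1) :=
        hi.mono' hm.aestronglyMeasurable (Eventually.of_forall hd)
      refine ⟨hint, hle ?_⟩
      have h2 : ‖∫ t', P t' * |t - t'| ^ (α - 1)‖ ≤ _ :=
        norm_integral_le_of_norm_le hi (Eventually.of_forall hd)
      have h3 : ∫ t', (Icc (-3 : ℝ) 3).indicator (fun u => |u| ^ (α - 1)) (t - t') = I2 :=
        integral_sub_left_eq_self (fun u : ℝ => (Icc (-3 : ℝ) 3).indicator
          (fun u => |u| ^ (α - 1)) u) volume t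
      rw [h3] at h2
      have h4 := near_bd (c := α - 1) (by linarith) ht
      calc _ ≤ I2 := h2
        _ ≤ (I2 + 2) * 1 := by linarith
        _ ≤ _ := by gcongr
    · have hd : ∀ t', |P t' * |t - t'| ^ (α - 1)| ≤
          (Icc (-1 : ℝ) 1).indicator (fun _ => b * (1 + |t|) ^ (α - 1)) t' := by
        intro t'
        by_cases h2 : |t'| ≤ 1
        · rw [indicator_of_mem (show t' ∈ Icc (-1 : ℝ) 1 from abs_le.1 h2), abs_mul,
            abs_of_nonneg (a := |t - t'| ^ (α - 1)) (by positivity), abs_of_nonneg (P_nonneg t')]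
          have h3 := far_bd (c := α - 1) (by linarith) ht h2
          calc P t' * |t - t'| ^ (α - 1) ≤ 1 * |t - t'| ^ (α - 1) := by
                gcongr; exact P_le t'
            _ ≤ _ := by rw [one_mul]; exact h3
        · rw [indicator_of_notMem (fun h : t' ∈ Icc (-1 : ℝ) 1 => h2 (abs_le.2 h)),
            P_zero (not_le.1 h2).le]
          simp
      obtain ⟨h2, h3⟩ := box_bd hm hd
      refine ⟨h2, hle (h3.trans ?_)⟩
      have : 0 ≤ b * (1 + |t|) ^ (α - 1) := by positivity
      nlinarith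

end Pool.Agent.QWP
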