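import Pool.Agent.QWP.KerPc

set_option autoImplicit false
set_option linter.unusedVariables false

/-!
# QWP, KerP: the kernel of `T T*`
-/

open MeasureTheory Filter Topology Set
open scoped ENNReal NNReal RealInnerProductSpace

namespace Pool.Agent.QWP

open Pool.Agent.QWE (E S sg mu K toK tau sh dl rev gr ig IsTest pd lap Rad dRad Rk dRk c0 WD Sm SmE IsSch half shr WTo Kc Sph kap IsMol)

namespace KerPx

/-- the identity, from a pointwise identity in `t` -/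
lemma ident {φ ψ : E → ℝ} (hφ : IsTest φ) (hψ : IsTest ψ) {ε δ e c C0 : ℝ} (he : -5 < e)
    (hI : ∀ t, Integrable (F ε δ e t)) (hA : ∀ t, ∫ τ, |F ε δ e t τ| ≤ C0) (t : ℝ) :
    c * (∫ t', (ε * A φ ψ t + δ * A φ ψ t') * |t - t'| ^ e) =
      ∫ x, ∫ y, φ x * ψ y * (c * ∫ t', H ε δ e t t' (x - y)) := by
  have hC0 : 0 ≤ C0 := (integral_nonneg fun _ => abs_nonneg _).trans (hA 0)
  have hN : Measurable fun q : E × E => c * ∫ t', H ε δ e t t' (q.1 - q.2) := by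
    have h1 : StronglyMeasurable fun q : E × E => ∫ t', H ε δ e t t' (q.1 - q.2) :=
      (H_meas' ε δ e t).stronglyMeasurable.integral_prod_right
    exact h1.measurable.const_mul c
  have hint : Integrable (fun q : E × E => φ q.1 * ψ q.2 * (c * ∫ t', H ε δ e t t' (q.1 - q.2)))
      (volume.prod volume) := by
    have h1 := ((maj hφ hψ he).norm).const_mul (|c| * (2 * Real.pi ^ 2 * C0))
    refine h1.mono' ?_ (Eventually.of_forall fun q => ?_)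
    · refine Measurable.aestronglyMeasurable ?_
      have h2 : Measurable fun q : E × E => φ q.1 := hφ.1.continuous.measurable.comp measurable_fst
      have h3 : Measurable fun q : E × E => ψ q.2 := hψ.1.continuous.measurable.comp measurable_snd
      exact (h2.mul h3).mul hN
    · have h2 : |∫ t', H ε δ e t t' (q.1 - q.2)| ≤ 2 * Real.pi ^ 2 * C0 * ‖q.1 - q.2‖ ^ e :=
        (abs_integral_le_integral_abs).trans (H_abs hA t (q.1 - q.2))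
      rw [norm_mul (φ q.1 * ψ q.2), norm_mul (φ q.1 * ψ q.2), Real.norm_eq_abs (c * _),
        Real.norm_eq_abs (‖q.1 - q.2‖ ^ e), abs_of_nonneg (by positivity : 0 ≤ ‖q.1 - q.2‖ ^ e),
        abs_mul]
      calc ‖φ q.1 * ψ q.2‖ * (|c| * |∫ t', H ε δ e t t' (q.1 - q.2)|) ≤
          ‖φ q.1 * ψ q.2‖ * (|c| * (2 * Real.pi ^ 2 * C0 * ‖q.1 - q.2‖ ^ e)) := by gcongr
        _ = _ := by ring
  rw [fub hφ hψ he hI hA t, ← integral_const_mul]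
  rw [← integral_prod _ hint]
  refine integral_congr_ae (Eventually.of_forall fun q => ?_)
  show c * (φ q.1 * ψ q.2 * ∫ t', H ε δ e t t' (q.1 - q.2)) =
    φ q.1 * ψ q.2 * (c * ∫ t', H ε δ e t t' (q.1 - q.2))
  ring

/-- the bound of the kernel -/
lemma N_bound {ε δ e c CB : ℝ} (hc : 0 < c)
    (hB : ∀ t, |∫ τ, F ε δ e t τ| ≤ CB * (1 + |t|) ^ e) (t : ℝ) {z : E} (hz : z ≠ 0) :
    |c * ∫ t', H ε δ e t t' z| ≤ c * (2 * Real.pi ^ 2) * CB * (|t| + ‖z‖) ^ e := by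
  have hn : 0 < ‖z‖ := norm_pos_iff.2 hz
  have ht : 0 ≤ |t| := abs_nonneg t
  rw [H_eq t hz, abs_mul, abs_of_pos hc, abs_mul, abs_of_nonneg (by positivity)]
  have h1 := hB (t / ‖z‖)
  rw [abs_div, abs_of_pos hn] at h1
  have h2 : ‖z‖ ^ e * (1 + |t| / ‖z‖) ^ e = (|t| + ‖z‖) ^ e := by
    rw [← Real.mul_rpow hn.le (by positivity)]
    congr 1
    field_simp
    ring
  calc c * (2 * Real.pi ^ 2 * ‖z‖ ^ e * |∫ τ, F ε δ e (t / ‖z‖) τ|) ≤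
      c * (2 * Real.pi ^ 2 * ‖z‖ ^ e * (CB * (1 + |t| / ‖z‖) ^ e)) := by gcongr
    _ = c * (2 * Real.pi ^ 2) * CB * (‖z‖ ^ e * (1 + |t| / ‖z‖) ^ e) := by ring
    _ = _ := by rw [h2]

/-- the general step -/
lemma core {ε δ e c C0 CB s : ℝ} (he : -5 < e) (hc : 0 < c) (hCB : 0 < CB)
    (hI : ∀ t, Integrable (F ε δ e t)) (hA : ∀ t, ∫ τ, |F ε δ e t τ| ≤ C0)
    (hB : ∀ t, |∫ τ, F ε δ e t τ| ≤ CB * (1 + |t|) ^ e) (hs : e = -1 + 2 * s)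
    (hid : ∀ (t : ℝ) (φ ψ : E → ℝ), IsTest φ → IsTest ψ → inner ℝ (tau t (Rs s φ)) (Rs s ψ) =
      c * (∫ t', (ε * A φ ψ t + δ * A φ ψ t') * |t - t'| ^ e)) :
    ∃ (C : ℝ) (N : ℝ → E → ℝ), 0 < C ∧ Measurable (Function.uncurry N) ∧
    (∀ t z, z ≠ 0 → |N t z| ≤ C * (|t| + ‖z‖) ^ (-1 + 2 * s)) ∧
    ∀ (t : ℝ) (φ ψ : E → ℝ), IsTest φ → IsTest ψ →
      inner ℝ (tau t (Rs s φ)) (Rs s ψ) = ∫ x, ∫ y, φ x * ψ y * N t (x - y) := by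
  refine ⟨c * (2 * Real.pi ^ 2) * CB, fun t z => c * ∫ t', H ε δ e t t' z, by positivity, ?_,
    fun t z hz => ?_, fun t φ ψ hφ hψ => ?_⟩
  · have h1 : StronglyMeasurable fun q : ℝ × E => ∫ t', H ε δ e q.1 t' q.2 :=
      (H_meas ε δ e).stronglyMeasurable.integral_prod_right
    exact h1.measurable.const_mul c
  · rw [← hs]
    exact N_bound hc hB t hz
  · rw [hid t φ ψ hφ hψ]
    exact ident hφ hψ he hI hA t

/-- the Fourier side as an integral in `t'`, case `s < 0` -/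
lemma id_neg {C1 C2 α s : ℝ} (hs : α = -(2 * s)) (hs' : |s| < 1 / 2)
    (hFt : St_Ft) (hPar : St_Par) (hI : St_Idn) (hR : Pool.Agent.QWE.St_RadT)
    (hS : Pool.Agent.QWE.St_Sph)
    (hz : ∀ (G A : ℝ → ℂ), Continuous G →
      (∀ N : ℕ, ∃ B : ℝ, ∀ r, ‖G r‖ ≤ B / (1 + |r|) ^ N) →
      (∀ t, A t = ∫ r : ℝ, Complex.exp (-2 * Real.pi * Complex.I * ((r * t : ℝ) : ℂ)) * G r) →
      HasCompactSupport A → ∀ t,
      (∫ r : ℝ, ((|2 * Real.pi * r| ^ α : ℝ) : ℂ) *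
        Complex.exp (-2 * Real.pi * Complex.I * ((r * t : ℝ) : ℂ)) * G r =
        C1 * ∫ t', (A t - A t') * ((|t - t'| ^ (-1 - α) : ℝ) : ℂ)) ∧
      (∫ r : ℝ, ((|2 * Real.pi * r| ^ (-α) : ℝ) : ℂ) *
        Complex.exp (-2 * Real.pi * Complex.I * ((r * t : ℝ) : ℂ)) * G r =
        C2 * ∫ t', A t' * ((|t - t'| ^ (α - 1) : ℝ) : ℂ)))
    (t : ℝ) (φ ψ : E → ℝ) (hφ : IsTest φ) (hψ : IsTest ψ) :
    inner ℝ (tau t (Rs s φ)) (Rs s ψ) =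
      C1 * (∫ t', (1 * A φ ψ t + (-1) * A φ ψ t') * |t - t'| ^ (-1 - α)) := by
  have h1 := inner_Rs hFt hPar (hFt.1 φ hφ) (hFt.1 ψ hψ) hs' t
  have h2 := (hz (G0 φ ψ) (fun t => ((A φ ψ t : ℝ) : ℂ)) (G0_cont hFt (hFt.1 φ hφ) (hFt.1 ψ hψ))
    (G0_bound hFt (hFt.1 φ hφ) (hFt.1 ψ hψ))
    (fun t => by
      rw [← A_eq hR hS hφ hψ t]
      exact inner_Rk hFt hPar hI (hFt.1 φ hφ) (hFt.1 ψ hψ) t) (A_supp hφ hψ) t).1
  rw [hs] at h2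
  have h3 : ∫ r : ℝ, mF (-(2 * s)) t r * G0 φ ψ r = ∫ r : ℝ, ((|2 * Real.pi * r| ^ (-(2 * s)) : ℝ) : ℂ) *
        Complex.exp (-2 * Real.pi * Complex.I * ((r * t : ℝ) : ℂ)) * G0 φ ψ r := rfl
  rw [h3, h2] at h1
  rw [← hs] at h1
  have h4 : ∫ t', (((A φ ψ t : ℝ) : ℂ) - ((A φ ψ t' : ℝ) : ℂ)) * ((|t - t'| ^ (-1 - α) : ℝ) : ℂ) =
      ((∫ t', (1 * A φ ψ t + (-1) * A φ ψ t') * |t - t'| ^ (-1 - α) : ℝ) : ℂ) := by
    rw [← integral_complex_ofReal]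
    refine integral_congr_ae (Eventually.of_forall fun t' => ?_)
    show (((A φ ψ t : ℝ) : ℂ) - ((A φ ψ t' : ℝ) : ℂ)) * ((|t - t'| ^ (-1 - α) : ℝ) : ℂ) =
      (((1 * A φ ψ t + (-1) * A φ ψ t') * |t - t'| ^ (-1 - α) : ℝ) : ℂ)
    push_cast
    ring
  rw [h4, ← Complex.ofReal_mul] at h1
  exact Complex.ofReal_injective h1

/-- the Fourier side as an integral in `t'`, case `s > 0` -/
lemma id_pos {C1 C2 α s : ℝ} (hs : α = 2 * s) (hs' : |s| < 1 / 2)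
    (hFt : St_Ft) (hPar : St_Par) (hI : St_Idn) (hR : Pool.Agent.QWE.St_RadT)
    (hS : Pool.Agent.QWE.St_Sph)
    (hz : ∀ (G A : ℝ → ℂ), Continuous G →
      (∀ N : ℕ, ∃ B : ℝ, ∀ r, ‖G r‖ ≤ B / (1 + |r|) ^ N) →
      (∀ t, A t = ∫ r : ℝ, Complex.exp (-2 * Real.pi * Complex.I * ((r * t : ℝ) : ℂ)) * G r) →
      HasCompactSupport A → ∀ t,
      (∫ r : ℝ, ((|2 * Real.pi * r| ^ α : ℝ) : ℂ) *
        Complex.exp (-2 * Real.pi * Complex.I * ((r * t : ℝ) : ℂ)) * G r =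
        C1 * ∫ t', (A t - A t') * ((|t - t'| ^ (-1 - α) : ℝ) : ℂ)) ∧
      (∫ r : ℝ, ((|2 * Real.pi * r| ^ (-α) : ℝ) : ℂ) *
        Complex.exp (-2 * Real.pi * Complex.I * ((r * t : ℝ) : ℂ)) * G r =
        C2 * ∫ t', A t' * ((|t - t'| ^ (α - 1) : ℝ) : ℂ)))
    (t : ℝ) (φ ψ : E → ℝ) (hφ : IsTest φ) (hψ : IsTest ψ) :
    inner ℝ (tau t (Rs s φ)) (Rs s ψ) =
      C2 * (∫ t', (0 * A φ ψ t + 1 * A φ ψ t') * |t - t'| ^ (α - 1)) := by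
  have h1 := inner_Rs hFt hPar (hFt.1 φ hφ) (hFt.1 ψ hψ) hs' t
  have h2 := (hz (G0 φ ψ) (fun t => ((A φ ψ t : ℝ) : ℂ)) (G0_cont hFt (hFt.1 φ hφ) (hFt.1 ψ hψ))
    (G0_bound hFt (hFt.1 φ hφ) (hFt.1 ψ hψ))
    (fun t => by
      rw [← A_eq hR hS hφ hψ t]
      exact inner_Rk hFt hPar hI (hFt.1 φ hφ) (hFt.1 ψ hψ) t) (A_supp hφ hψ) t).2
  rw [hs] at h2
  have h3 : ∫ r : ℝ, mF (-(2 * s)) t r * G0 φ ψ r = ∫ r : ℝ, ((|2 * Real.pi * r| ^ (-(2 * s)) : ℝ) : ℂ) *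
        Complex.exp (-2 * Real.pi * Complex.I * ((r * t : ℝ) : ℂ)) * G0 φ ψ r := rfl
  rw [h3, h2] at h1
  rw [← hs] at h1
  have h4 : ∫ t', ((A φ ψ t' : ℝ) : ℂ) * ((|t - t'| ^ (α - 1) : ℝ) : ℂ) =
      ((∫ t', (0 * A φ ψ t + 1 * A φ ψ t') * |t - t'| ^ (α - 1) : ℝ) : ℂ) := by
    rw [← integral_complex_ofReal]
    refine integral_congr_ae (Eventually.of_forall fun t' => ?_)
    show ((A φ ψ t' : ℝ) : ℂ) * ((|t - t'| ^ (α - 1) : ℝ) : ℂ) =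
      (((0 * A φ ψ t + 1 * A φ ψ t') * |t - t'| ^ (α - 1) : ℝ) : ℂ)
    push_cast
    ring
  rw [h4, ← Complex.ofReal_mul] at h1
  exact Complex.ofReal_injective h1

/-- the case `s = 0` -/
lemma zero_case (hI : St_Idn) (hFt : St_Ft) (hR : Pool.Agent.QWE.St_RadT)
    (hS : Pool.Agent.QWE.St_Sph) :
    ∃ (C : ℝ) (N : ℝ → E → ℝ), 0 < C ∧ Measurable (Function.uncurry N) ∧
    (∀ t z, z ≠ 0 → |N t z| ≤ C * (|t| + ‖z‖) ^ (-1 + 2 * (0 : ℝ))) ∧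
    ∀ (t : ℝ) (φ ψ : E → ℝ), IsTest φ → IsTest ψ →
      inner ℝ (tau t (Rs 0 φ)) (Rs 0 ψ) = ∫ x, ∫ y, φ x * ψ y * N t (x - y) := by
  refine ⟨4 * Real.pi ^ 2, Kc, by positivity, Kc_meas, fun t z hz => ?_, fun t φ ψ hφ hψ => ?_⟩
  · have hn : 0 < ‖z‖ := norm_pos_iff.2 hz
    have ht : 0 ≤ |t| := abs_nonneg t
    rw [mul_zero, add_zero, Real.rpow_neg_one]
    rcases le_or_gt ‖z‖ |t| with h | h
    · rw [Kc_van h, abs_zero]
      positivity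
    · refine (Kc_abs t z).trans ?_
      rw [Real.rpow_neg_one]
      have h1 : ‖z‖⁻¹ ≤ 2 * (|t| + ‖z‖)⁻¹ := by
        rw [← div_eq_mul_inv, inv_eq_one_div, div_le_div_iff₀ hn (by positivity)]
        linarith
      calc 2 * Real.pi ^ 2 * ‖z‖⁻¹ ≤ 2 * Real.pi ^ 2 * (2 * (|t| + ‖z‖)⁻¹) := by gcongr
        _ = _ := by ring
  · rw [(hI φ ψ (hFt.1 φ hφ) (hFt.1 ψ hψ)).1, (hI ψ φ (hFt.1 ψ hψ) (hFt.1 φ hφ)).1,
      A_eq hR hS hφ hψ t]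
    unfold A
    exact integral_prod _ (Kc_int hφ hψ t)

end KerPx

/-- **KerP** -/
theorem thm_KerP (hFt : St_Ft) (hPar : St_Par) (hI : St_Idn) (hB : St_KerB) (hRsz : St_Rsz)
    (hR : Pool.Agent.QWE.St_RadT) (hS : Pool.Agent.QWE.St_Sph) : St_KerP := by
  intro s hs
  have h1 := abs_lt.1 hs
  rcases lt_trichotomy s 0 with h | h | h
  · obtain ⟨C1, C2, hC1, hC2, hz⟩ := hRsz (-(2 * s)) (by linarith) (by linarith)
    obtain ⟨C0, CB, hCB, hI0, hA0, hB0⟩ := KerPx.prof_neg hB (α := -(2 * s)) (by linarith)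
      (by linarith)
    exact KerPx.core (by linarith) hC1 hCB hI0 hA0 hB0 (by ring) fun t φ ψ hφ hψ =>
      KerPx.id_neg rfl hs hFt hPar hI hR hS hz t φ ψ hφ hψ
  · subst h
    exact KerPx.zero_case hI hFt hR hS
  · obtain ⟨C1, C2, hC1, hC2, hz⟩ := hRsz (2 * s) (by linarith) (by linarith)
    obtain ⟨C0, CB, hCB, hI0, hA0, hB0⟩ := KerPx.prof_pos hB (α := 2 * s) (by linarith)
      (by linarith)
    exact KerPx.core (by linarith) hC2 hCB hI0 hA0 hB0 (by ring) fun t φ ψ hφ hψ =>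
      KerPx.id_pos rfl hs hFt hPar hI hR hS hz t φ ψ hφ hψ

end Pool.Agent.QWP
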