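import Pool.Agent.QWP.StE

set_option autoImplicit false

/-!
# QWP, L5B: the `L^{b+1}` norm on a ball by dyadic annuli
-/

open MeasureTheory Filter Topology Set
open scoped ENNReal NNReal RealInnerProductSpace

namespace Pool.Agent.QWP

open Pool.Agent.QWE (E S sg mu K toK tau sh dl rev gr ig IsTest pd lap Rad dRad Rk dRk c0 WD Sm SmE IsSch half shr WTo)

namespace L5Bx

/-- The Hoelder exponent `1 - (b+1)/q0`. -/
noncomputable def ee (b : ℝ) : ℝ := 1 - 2 * (b + 1) / (5 * b)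

lemma ee_pos {b : ℝ} (hb : 2 < b) : 0 < ee b := by
  unfold ee
  have h : 2 * (b + 1) / (5 * b) < 1 := by
    rw [div_lt_one (by linarith)]
    linarith
  linarith

lemma five_ee {b : ℝ} (hb : 2 < b) : 5 * ee b = 5 / 2 + sig b := by
  unfold ee sig
  have : b ≠ 0 := by linarith
  field_simp
  ring

lemma sig_lt {b : ℝ} (hb : 2 < b) : |sig b| < 1 / 2 := by
  unfold sig
  have h1 : 0 < 2 / b := by positivity
  have h2 : 2 / b < 1 := by
    rw [div_lt_one (by linarith)]
    exact hb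
  rw [abs_lt]
  constructor <;> linarith

lemma q0_eq {b : ℝ} (hb : 2 < b) : q0 (sig b) = ENNReal.ofReal (5 * b / 2) := by
  unfold q0 sig
  congr 1
  have : b ≠ 0 := by linarith
  field_simp
  ring

lemma powq {b : ℝ} (hb : 2 < b) (f : E → ℝ) (s : Set E) :
    ∫⁻ x in s, ‖f x‖ₑ ^ (b + 1) =
      eLpNorm f (ENNReal.ofReal (b + 1)) (volume.restrict s) ^ (b + 1) := by
  have hb1 : 0 < b + 1 := by linarith
  rw [eLpNorm_eq_lintegral_rpow_enorm_toReal (by simpa using hb1) ENNReal.ofReal_ne_top,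
    ENNReal.toReal_ofReal hb1.le, ← ENNReal.rpow_mul, one_div, inv_mul_cancel₀ hb1.ne',
    ENNReal.rpow_one]

lemma holderq {b : ℝ} (hb : 2 < b) {f : E → ℝ} (hf : AEStronglyMeasurable f volume) (s : Set E) :
    ∫⁻ x in s, ‖f x‖ₑ ^ (b + 1) ≤
      eLpNorm f (q0 (sig b)) (volume.restrict s) ^ (b + 1) * (volume s) ^ (ee b) := by
  have hb1 : 0 < b + 1 := by linarith
  have h1 := eLpNorm_le_eLpNorm_mul_rpow_measure_univ (μ := volume.restrict s)
    (p := ENNReal.ofReal (b + 1)) (q := ENNReal.ofReal (5 * b / 2))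
    (ENNReal.ofReal_le_ofReal (by linarith)) (hf.restrict)
  rw [ENNReal.toReal_ofReal hb1.le, ENNReal.toReal_ofReal (by linarith : (0 : ℝ) ≤ 5 * b / 2),
    Measure.restrict_apply_univ] at h1
  rw [powq hb, q0_eq hb]
  calc eLpNorm f (ENNReal.ofReal (b + 1)) (volume.restrict s) ^ (b + 1)
      ≤ (eLpNorm f (ENNReal.ofReal (5 * b / 2)) (volume.restrict s) *
          volume s ^ (1 / (b + 1) - 1 / (5 * b / 2))) ^ (b + 1) :=
        ENNReal.rpow_le_rpow h1 hb1.le
    _ = eLpNorm f (ENNReal.ofReal (5 * b / 2)) (volume.restrict s) ^ (b + 1) *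
          (volume s) ^ (ee b) := by
        rw [ENNReal.mul_rpow_of_nonneg _ _ hb1.le, ← ENNReal.rpow_mul]
        congr 2
        unfold ee
        have : b ≠ 0 := by linarith
        field_simp

/-- One piece. -/
lemma piece {b : ℝ} (hb : 2 < b) {f : E → ℝ} (hf : AEStronglyMeasurable f volume) (s : Set E)
    (y : E) (r B : ℝ)
    (hr : 0 ≤ r) (hB : 0 ≤ B) (hs : s ⊆ Metric.closedBall y r)
    (h : eLpNorm f (q0 (sig b)) (volume.restrict s) ≤ ENNReal.ofReal B) :
    ∫⁻ x in s, ‖f x‖ₑ ^ (b + 1) ≤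
      ENNReal.ofReal (B ^ (b + 1) * (r ^ 5 * (volume (Metric.ball (0 : E) 1)).toReal) ^ (ee b)) := by
  have hb1 : 0 < b + 1 := by linarith
  set W := (volume (Metric.ball (0 : E) 1)).toReal with hW
  have hW0 : 0 ≤ W := ENNReal.toReal_nonneg
  have hvol : volume s ≤ ENNReal.ofReal (r ^ 5 * W) := by
    refine (measure_mono hs).trans ?_
    rw [Measure.addHaar_closedBall _ _ hr, finrank_euclideanSpace_fin,
      ENNReal.ofReal_mul (pow_nonneg hr 5), hW, ENNReal.ofReal_toReal measure_ball_lt_top.ne]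
  calc ∫⁻ x in s, ‖f x‖ₑ ^ (b + 1)
      ≤ eLpNorm f (q0 (sig b)) (volume.restrict s) ^ (b + 1) * (volume s) ^ (ee b) :=
        holderq hb hf s
    _ ≤ ENNReal.ofReal B ^ (b + 1) * ENNReal.ofReal (r ^ 5 * W) ^ (ee b) :=
        mul_le_mul' (ENNReal.rpow_le_rpow h hb1.le) (ENNReal.rpow_le_rpow hvol (ee_pos hb).le)
    _ = ENNReal.ofReal (B ^ (b + 1) * (r ^ 5 * W) ^ (ee b)) := by
        rw [ENNReal.ofReal_rpow_of_nonneg (mul_nonneg (pow_nonneg hr 5) hW0) (ee_pos hb).le,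
          ENNReal.ofReal_rpow_of_nonneg hB hb1.le, ← ENNReal.ofReal_mul (Real.rpow_nonneg hB _)]

lemma dy_pow {b : ℝ} (hb : 2 < b) (j : ℕ) (W : ℝ) (hW : 0 ≤ W) :
    (((2 : ℝ) ^ (j + 1)) ^ 5 * W) ^ (ee b) =
      (32 * W) ^ (ee b) * (2 : ℝ) ^ ((5 / 2 + sig b) * j) := by
  have h1 : ((2 : ℝ) ^ (j + 1)) ^ 5 * W = 32 * W * (2 : ℝ) ^ (5 * j) := by ring
  rw [h1, Real.mul_rpow (by positivity) (by positivity)]
  congr 1
  rw [← Real.rpow_natCast, ← Real.rpow_mul (by norm_num), ← five_ee hb]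
  congr 1
  push_cast
  ring

end L5Bx

open L5Bx

theorem thm_L5B (hF : St_FldP) (hX : St_ExFP) : St_L5B := by
  intro b hb
  have hb1 : 0 < b + 1 := by linarith
  obtain ⟨C1, hC1, hF, -⟩ := hF (sig b) (sig_lt hb)
  obtain ⟨C2, hC2, hX⟩ := hX (sig b) (sig_lt hb)
  set W := (volume (Metric.ball (0 : E) 1)).toReal with hW
  have hW0 : 0 ≤ W := ENNReal.toReal_nonneg
  set C := C1 ^ (b + 1) * W ^ (ee b) + C2 ^ (b + 1) * (32 * W) ^ (ee b) + 1 with hC
  have hCa : C1 ^ (b + 1) * W ^ (ee b) ≤ C := by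
    have : 0 ≤ C2 ^ (b + 1) * (32 * W) ^ (ee b) := by positivity
    linarith
  have hCb : C2 ^ (b + 1) * (32 * W) ^ (ee b) ≤ C := by
    have : 0 ≤ C1 ^ (b + 1) * W ^ (ee b) := by positivity
    linarith
  refine ⟨C, by positivity, ?_⟩
  intro k y m A hA hm n
  have hA0 : 0 ≤ A := (norm_nonneg k).trans hA
  have hm0 : ∀ ρ, 0 ≤ m ρ := fun ρ => (norm_nonneg _).trans (hm ρ)
  have hmeas : AEStronglyMeasurable (U (sig b) k) volume := (hF k).1.1.1
  have hsum : ∀ n : ℕ, 0 ≤ ∑ j ∈ Finset.range n,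
      (2 : ℝ) ^ ((5 / 2 + sig b) * j) * m (2 ^ j) ^ (b + 1) := fun n =>
    Finset.sum_nonneg fun j _ => mul_nonneg (Real.rpow_nonneg (by norm_num) _)
      (Real.rpow_nonneg (hm0 _) _)
  -- induction
  have key : ∀ n : ℕ, ∫⁻ x in Metric.closedBall y (2 ^ n), ‖U (sig b) k x‖ₑ ^ (b + 1) ≤
      ENNReal.ofReal (C * (A ^ (b + 1) +
        ∑ j ∈ Finset.range n, (2 : ℝ) ^ ((5 / 2 + sig b) * j) * m (2 ^ j) ^ (b + 1))) := by
    intro n
    induction n with
    | zero =>
      have h1 : eLpNorm (U (sig b) k) (q0 (sig b))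
          (volume.restrict (Metric.closedBall y (2 ^ 0))) ≤ ENNReal.ofReal (C1 * A) := by
        refine (eLpNorm_mono_measure _ Measure.restrict_le_self).trans ((hF k).2.1.trans ?_)
        rw [ENNReal.ofReal_mul hC1.le, ← ofReal_norm]
        gcongr
      refine (piece hb hmeas _ y (2 ^ 0) (C1 * A) (by norm_num) (by positivity)
        Subset.rfl h1).trans (ENNReal.ofReal_le_ofReal ?_)
      rw [Finset.range_zero, Finset.sum_empty, add_zero, pow_zero, one_pow, one_mul]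
      calc (C1 * A) ^ (b + 1) * W ^ (ee b)
          = C1 ^ (b + 1) * W ^ (ee b) * A ^ (b + 1) := by
            rw [Real.mul_rpow hC1.le hA0]
            ring
        _ ≤ C * A ^ (b + 1) := mul_le_mul_of_nonneg_right hCa (Real.rpow_nonneg hA0 _)
    | succ n ih =>
      set s : Set E := {x | 2 ^ n < dist x y ∧ dist x y ≤ 2 ^ (n + 1)} with hs
      have hsub : Metric.closedBall y (2 ^ (n + 1)) ⊆ Metric.closedBall y (2 ^ n) ∪ s := by
        intro x hx
        by_cases h : dist x y ≤ 2 ^ n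
        · exact Or.inl h
        · exact Or.inr ⟨not_le.1 h, hx⟩
      have h1 : eLpNorm (U (sig b) k) (q0 (sig b)) (volume.restrict s) ≤
          ENNReal.ofReal (C2 * m (2 ^ n)) := by
        have hopen : IsOpen (xt y (2 ^ n)) := isOpen_lt continuous_const (by fun_prop)
        have h2 : s ⊆ xt y (2 ^ n) := fun x hx => hx.1
        refine (eLpNorm_mono_measure _ (Measure.restrict_mono h2 le_rfl)).trans ?_
        rw [← eLpNorm_indicator_eq_eLpNorm_restrict hopen.measurableSet]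
        refine ((hX k (xt y (2 ^ n)) hopen).1).trans (ENNReal.ofReal_le_ofReal ?_)
        exact mul_le_mul_of_nonneg_left (hm _) hC2.le
      have h3 := piece hb hmeas s y (2 ^ (n + 1)) (C2 * m (2 ^ n)) (by positivity)
        (mul_nonneg hC2.le (hm0 _)) (fun x hx => hx.2) h1
      rw [← hW, dy_pow hb n W hW0] at h3
      calc ∫⁻ x in Metric.closedBall y (2 ^ (n + 1)), ‖U (sig b) k x‖ₑ ^ (b + 1)
          ≤ ∫⁻ x in Metric.closedBall y (2 ^ n) ∪ s, ‖U (sig b) k x‖ₑ ^ (b + 1) :=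
            lintegral_mono_set hsub
        _ ≤ (∫⁻ x in Metric.closedBall y (2 ^ n), ‖U (sig b) k x‖ₑ ^ (b + 1)) +
              ∫⁻ x in s, ‖U (sig b) k x‖ₑ ^ (b + 1) :=
            lintegral_union_le _ _ _
        _ ≤ ENNReal.ofReal (C * (A ^ (b + 1) +
              ∑ j ∈ Finset.range n, (2 : ℝ) ^ ((5 / 2 + sig b) * j) * m (2 ^ j) ^ (b + 1))) +
            ENNReal.ofReal (C * ((2 : ℝ) ^ ((5 / 2 + sig b) * n) * m (2 ^ n) ^ (b + 1))) := by
            refine add_le_add ih (h3.trans (ENNReal.ofReal_le_ofReal ?_))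
            calc (C2 * m (2 ^ n)) ^ (b + 1) * ((32 * W) ^ (ee b) * (2 : ℝ) ^ ((5 / 2 + sig b) * n))
                = C2 ^ (b + 1) * (32 * W) ^ (ee b) *
                    ((2 : ℝ) ^ ((5 / 2 + sig b) * n) * m (2 ^ n) ^ (b + 1)) := by
                  rw [Real.mul_rpow hC2.le (hm0 _)]
                  ring
              _ ≤ C * ((2 : ℝ) ^ ((5 / 2 + sig b) * n) * m (2 ^ n) ^ (b + 1)) :=
                  mul_le_mul_of_nonneg_right hCb (mul_nonneg (Real.rpow_nonneg (by norm_num) _)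
                    (Real.rpow_nonneg (hm0 _) _))
        _ = ENNReal.ofReal (C * (A ^ (b + 1) +
              ∑ j ∈ Finset.range (n + 1),
                (2 : ℝ) ^ ((5 / 2 + sig b) * j) * m (2 ^ j) ^ (b + 1))) := by
            rw [← ENNReal.ofReal_add, Finset.sum_range_succ]
            · congr 1
              ring
            · have h4 := hsum n
              have h5 : 0 ≤ A ^ (b + 1) := Real.rpow_nonneg hA0 _
              positivity
            · have h5 : 0 ≤ m (2 ^ n) ^ (b + 1) := Real.rpow_nonneg (hm0 _) _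
              positivity
  have h1 := key (n + 1)
  have h2 : ∫⁻ x in Metric.ball y (2 ^ (n + 1)), ENNReal.ofReal (|U (sig b) k x| ^ (b + 1)) ≤
      ENNReal.ofReal (C * (A ^ (b + 1) +
        ∑ j ∈ Finset.range (n + 1), (2 : ℝ) ^ ((5 / 2 + sig b) * j) * m (2 ^ j) ^ (b + 1))) := by
    refine le_trans ?_ h1
    refine (lintegral_mono_set Metric.ball_subset_closedBall).trans (lintegral_mono fun x => ?_)
    rw [← ENNReal.ofReal_rpow_of_nonneg (abs_nonneg _) hb1.le, ← Real.enorm_eq_ofReal_abs]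
  have hm5 : AEStronglyMeasurable (fun x => |U (sig b) k x| ^ (b + 1))
      (volume.restrict (Metric.ball y (2 ^ (n + 1)))) :=
    (hmeas.norm.aemeasurable.pow_const (b + 1)).aestronglyMeasurable.restrict
  rw [integral_eq_lintegral_of_nonneg_ae
    (Eventually.of_forall fun x => Real.rpow_nonneg (abs_nonneg _) _) hm5]
  refine ENNReal.toReal_le_of_le_ofReal ?_ h2
  have h4 := hsum (n + 1)
  have h5 : 0 ≤ A ^ (b + 1) := Real.rpow_nonneg hA0 _
  positivity

end Pool.Agent.QWP
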