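import Pool.Agent.QWP.StG
import Pool.Agent.QWP.StE
import Pool.Agent.QWP.StF

set_option autoImplicit false

/-!
# QWP: the main internal theorem `St_LA` from G13, G16 and rigidity
-/

open MeasureTheory Filter Topology Set
open scoped ENNReal NNReal RealInnerProductSpace

namespace Pool.Agent.QWP

open Pool.Agent.QWE (K)

theorem thm_LA (h13 : St_G13) (h16 : St_G16) (hR : St_R) (hG : Pool.Agent.QWE.St_GrA) : St_LA := by
  intro b hb
  have key : ∀ A : ℝ, LA b A ≠ ⊤ := by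
    intro A hA
    obtain ⟨Ac, I, a, hc⟩ := h13 b hb ⟨A, hA⟩
    obtain ⟨Q, I', k, x, l, hQ, h0, hm, hk⟩ := h16 b hb Ac I a hc
    obtain ⟨t, ht⟩ := hm.2.2.1
    obtain ⟨κ, hκ, hkt⟩ := hk t ht
    have hz := hR b hb I' k Q x l hm hQ hk t ht
    have hn : ‖κ‖ = 0 := by
      have h1 := (hG.2.2.2.1 (x t) (l t) κ).1
      rw [← h1, ← hkt, hz, norm_zero]
    exact h0 (norm_eq_zero.1 hn ▸ hκ)
  intro A
  refine ⟨(LA b A).toReal, fun I k hs hA => ?_⟩
  rw [ENNReal.ofReal_toReal (key A)]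
  exact le_iSup_of_le I (le_iSup_of_le k (le_iSup_of_le ⟨hs, hA⟩ le_rfl))

end Pool.Agent.QWP
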