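import Pool.Agent.QWP.StG

set_option autoImplicit false

/-!
# QWP, LocI: interpolation on a ball for functions
-/

open MeasureTheory Filter Topology Set
open scoped ENNReal NNReal RealInnerProductSpace

namespace Pool.Agent.QWP

open Pool.Agent.QWE (E S sg mu K toK tau sh dl rev gr ig IsTest pd lap Rad dRad Rk dRk c0 WD Sm SmE IsSch half shr WTo resc)

namespace LocIx

/-- Lyapunov between `L²` and `L^q` -/
theorem lyap {r q : ℝ} (hr : 2 < r) (hrq : r < q) {f : E → ℝ}
    (hf : AEStronglyMeasurable f volume) :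
    eLpNorm f (ENNReal.ofReal r) volume ≤
      eLpNorm f 2 volume ^ (2 * ((q - r) / (q - 2)) / r) *
        eLpNorm f (ENNReal.ofReal q) volume ^ (1 - 2 * ((q - r) / (q - 2)) / r) := by
  have hr0 : 0 < r := by linarith
  have hq0 : 0 < q := by linarith
  have hq2 : 0 < q - 2 := by linarith
  obtain ⟨l, hl⟩ : ∃ l, l = (q - r) / (q - 2) := ⟨_, rfl⟩
  have hl0 : 0 < l := by rw [hl]; exact div_pos (by linarith) hq2
  have hl1 : l < 1 := by rw [hl, div_lt_one hq2]; linarith
  have hlq : l * (q - 2) = q - r := by rw [hl]; exact div_mul_cancel₀ _ hq2.ne'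
  rw [← hl]
  have hH : ∫⁻ x, ‖f x‖ₑ ^ r ≤ (∫⁻ x, ‖f x‖ₑ ^ (2 : ℝ)) ^ l * (∫⁻ x, ‖f x‖ₑ ^ q) ^ (1 - l) := by
    refine le_trans (le_of_eq ?_) (ENNReal.lintegral_mul_norm_pow_le
      (f := fun x => ‖f x‖ₑ ^ (2 : ℝ)) (g := fun x => ‖f x‖ₑ ^ q)
      (hf.enorm.pow_const _) (hf.enorm.pow_const _) (p := l) (q := 1 - l)
      hl0.le (by linarith) (by ring))
    refine lintegral_congr fun x => ?_
    have h1 : 0 ≤ q * (1 - l) := mul_nonneg hq0.le (by linarith)
    rw [← ENNReal.rpow_mul, ← ENNReal.rpow_mul, ← ENNReal.rpow_add_of_nonneg _ _ (by positivity) h1]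
    congr 1
    linarith
  have n1 : ENNReal.ofReal r ≠ 0 := by
    rw [Ne, ENNReal.ofReal_eq_zero, not_le]; exact hr0
  have n2 : ENNReal.ofReal q ≠ 0 := by
    rw [Ne, ENNReal.ofReal_eq_zero, not_le]; exact hq0
  rw [eLpNorm_eq_lintegral_rpow_enorm_toReal n1 ENNReal.ofReal_ne_top,
    eLpNorm_eq_lintegral_rpow_enorm_toReal n2 ENNReal.ofReal_ne_top,
    eLpNorm_eq_lintegral_rpow_enorm_toReal (by norm_num) (by norm_num),
    ENNReal.toReal_ofReal hr0.le, ENNReal.toReal_ofReal hq0.le, ENNReal.toReal_ofNat]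
  refine (ENNReal.rpow_le_rpow hH (by positivity)).trans (le_of_eq ?_)
  rw [ENNReal.mul_rpow_of_nonneg _ _ (by positivity), ← ENNReal.rpow_mul, ← ENNReal.rpow_mul,
    ← ENNReal.rpow_mul, ← ENNReal.rpow_mul]
  congr 2
  · field_simp
  · field_simp
    linarith

end LocIx

theorem thm_LocI : St_LocI := by
  intro m r q _ hr1 hrq hq2
  have hBm : MeasurableSet (Metric.ball (0 : E) m) := Metric.isOpen_ball.measurableSet
  have hr0 : 0 < r := by linarith
  by_cases hr2 : r ≤ 2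
  · have hexp : 0 ≤ 1 / r - 1 / 2 := by
      rw [sub_nonneg]
      exact one_div_le_one_div_of_le hr0 hr2
    have hfin : volume (Metric.ball (0 : E) m) ^ (1 / r - 1 / 2) ≠ ⊤ :=
      ENNReal.rpow_ne_top_of_nonneg hexp measure_ball_lt_top.ne
    refine ⟨(volume (Metric.ball (0 : E) m) ^ (1 / r - 1 / 2)).toReal + 1, 1, by positivity,
      one_pos, le_rfl, ?_⟩
    intro w hw
    rw [sub_self, ENNReal.rpow_zero, mul_one, ENNReal.rpow_one,
      eLpNorm_indicator_eq_eLpNorm_restrict hBm, eLpNorm_indicator_eq_eLpNorm_restrict hBm]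
    have hle : ENNReal.ofReal r ≤ 2 := by
      have h1 := ENNReal.ofReal_le_ofReal hr2
      rwa [ENNReal.ofReal_ofNat] at h1
    refine (eLpNorm_le_eLpNorm_mul_rpow_measure_univ hle hw.restrict).trans ?_
    rw [Measure.restrict_apply_univ, ENNReal.toReal_ofNat, ENNReal.toReal_ofReal hr0.le, mul_comm]
    refine mul_le_mul' ?_ le_rfl
    rw [ENNReal.ofReal_add ENNReal.toReal_nonneg zero_le_one, ENNReal.ofReal_toReal hfin]
    exact le_self_add
  · have hr2' : 2 < r := not_le.1 hr2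
    have hq2' : 0 < q - 2 := by linarith
    have hl0 : 0 < (q - r) / (q - 2) := div_pos (by linarith) hq2'
    have hl1 : (q - r) / (q - 2) < 1 := by rw [div_lt_one hq2']; linarith
    have hθ0 : 0 < 2 * ((q - r) / (q - 2)) / r := by positivity
    have hθ1 : 2 * ((q - r) / (q - 2)) / r ≤ 1 := by
      rw [div_le_one hr0]
      linarith
    refine ⟨1, 2 * ((q - r) / (q - 2)) / r, one_pos, hθ0, hθ1, ?_⟩
    intro w hw
    rw [ENNReal.ofReal_one, one_mul]
    refine (LocIx.lyap hr2' hrq (hw.indicator hBm)).trans (mul_le_mul' le_rfl ?_)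
    exact ENNReal.rpow_le_rpow (eLpNorm_indicator_le _) (by linarith)

end Pool.Agent.QWP
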