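import Pool.Agent.QWP.StB
import Pool.Agent.QWE.Meas

set_option autoImplicit false

/-!
# QWP, Meas: measurability
-/

open MeasureTheory Filter Topology Set
open scoped ENNReal NNReal RealInnerProductSpace

namespace Pool.Agent.QWP

open Pool.Agent.QWE (E S sg mu K toK tau sh dl rev gr ig IsTest pd lap Rad dRad Rk dRk c0 WD Sm SmE IsSch half shr WTo)

namespace Measx

theorem sig_lt {b : ℝ} (hb : 2 < b) : |sig b| < 1 / 2 := by
  have hb0 : 0 < b := by linarith
  have h1 : 0 < 2 / b := by positivity
  have h2 : 2 / b < 1 := by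
    rw [div_lt_one hb0]
    exact hb
  rw [sig, abs_lt]
  constructor
  · linarith
  · linarith

theorem comp_meas {G : K → ℝ≥0∞} (hG : LowerSemicontinuous G) {k : ℝ → K}
    (hk : StronglyMeasurable k) : Measurable fun r => G (k r) := by
  let _ : MeasurableSpace K := borel K
  have : BorelSpace K := ⟨rfl⟩
  exact hG.measurable.comp hk.measurable

/-- the span of the test states -/
noncomputable def sp (s : ℝ) : Submodule ℝ K :=
  Submodule.span ℝ {w | ∃ φ, IsTest φ ∧ tsupport φ ⊆ univ ∧ (w = Rs s φ ∨ w = dRs s φ)}

theorem dense_sp (hD : St_DnsP) {s : ℝ} (hs : |s| < 1 / 2) : Dense ((sp s : Submodule ℝ K) : Set K) := by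
  rw [Submodule.dense_iff_topologicalClosure_eq_top]
  exact (hD s hs).1

theorem meas_sp {s : ℝ} {g : ℝ → K}
    (h : ∀ φ, IsTest φ → (Measurable fun r => inner ℝ (g r) (Rs s φ)) ∧
      Measurable fun r => inner ℝ (g r) (dRs s φ)) (w : K) (hw : w ∈ sp s) :
    Measurable fun r => inner ℝ (g r) w := by
  unfold sp at hw
  induction hw using Submodule.span_induction with
  | mem x hx =>
    obtain ⟨φ, hφ, -, rfl | rfl⟩ := hx
    · exact (h φ hφ).1
    · exact (h φ hφ).2
  | zero =>
    simp only [inner_zero_right]
    exact measurable_const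
  | add x y _ _ hx hy =>
    simp only [inner_add_right]
    exact hx.add hy
  | smul c x _ hx =>
    simp only [real_inner_smul_right]
    exact hx.const_mul c

end Measx

open Measx in
/-- **Meas**. -/
theorem thm_Meas (hD : St_DnsP) (hLsc : St_LscP) (hSn : St_SnP) (hN : St_NLw) : St_Meas := by
  intro b hb k J hJ hk
  have hs := sig_lt hb
  have hk' := hk.stronglyMeasurable_mk
  have hkk := hk.ae_eq_mk
  have hsm : Measurable fun r => sn b (hk.mk k r) := comp_meas (hSn b hb).2.2.2.2.2 hk'
  refine ⟨?_, ?_, ?_⟩
  · refine ⟨fun r => sn b (hk.mk k r), hsm, ?_⟩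
    filter_upwards [hkk] with r hr
    rw [hr]
  · intro p B hp hB
    refine ⟨fun r => eLpNorm (B.indicator (U (sig b) (hk.mk k r))) p volume,
      comp_meas (hLsc (sig b) p B hs hp hB).1 hk', ?_⟩
    filter_upwards [hkk] with r hr
    rw [hr]
  · intro hfin
    have hS : MeasurableSet {r | sn b (hk.mk k r) < ⊤} := measurableSet_lt hsm measurable_const
    have : Fact ((2 : ℝ≥0∞) ≠ ⊤) := ⟨by norm_num⟩
    have : IsSeparable mu := isSeparable_of_sigmaFinite _
    have : SecondCountableTopology K := Lp.SecondCountableTopology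
    have hg : StronglyMeasurable
        ({r | sn b (hk.mk k r) < ⊤}.indicator fun r => NL b (hk.mk k r)) := by
      refine Pool.Agent.QWE.Measx.pettis (dense_sp hD hs) (meas_sp ?_)
      intro φ hφ
      obtain ⟨h1, -, h3, -⟩ := hN b hb φ hφ
      constructor
      · have h2 : (fun r => inner ℝ (({r | sn b (hk.mk k r) < ⊤}.indicator
            fun r => NL b (hk.mk k r)) r) (Rs (sig b) φ)) = fun _ => 0 := by
          funext r
          by_cases hr : r ∈ {r | sn b (hk.mk k r) < ⊤}
          · rw [indicator_of_mem hr]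
            exact (h1 _ hr).1
          · rw [indicator_of_notMem hr, inner_zero_left]
        rw [h2]
        exact measurable_const
      · have h4 : Measurable fun r => ∫ x, Fn b (U (sig b) (hk.mk k r) x) * φ x :=
          (h3.comp_stronglyMeasurable hk').measurable
        have h2 : (fun r => inner ℝ (({r | sn b (hk.mk k r) < ⊤}.indicator
            fun r => NL b (hk.mk k r)) r) (dRs (sig b) φ)) =
            {r | sn b (hk.mk k r) < ⊤}.indicator
              fun r => ∫ x, Fn b (U (sig b) (hk.mk k r) x) * φ x := by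
          funext r
          by_cases hr : r ∈ {r | sn b (hk.mk k r) < ⊤}
          · rw [indicator_of_mem hr, indicator_of_mem hr]
            exact (h1 _ hr).2
          · rw [indicator_of_notMem hr, indicator_of_notMem hr, inner_zero_left]
        rw [h2]
        exact h4.indicator hS
    refine ⟨_, hg, ?_⟩
    filter_upwards [hkk, hfin] with r hr hr2
    rw [hr] at hr2
    rw [indicator_of_mem (by exact hr2 : r ∈ {r | sn b (hk.mk k r) < ⊤}), hr]

end Pool.Agent.QWP
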