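import Pool.Agent.QWP.StG
import Pool.Agent.QWP.MolP

set_option autoImplicit false

/-!
# QWP / MolD: mollification error for second derivatives
-/

open MeasureTheory Filter Topology Set
open scoped ENNReal NNReal RealInnerProductSpace ContDiff

namespace Pool.Agent.QWP

open Pool.Agent.QWE (E S sg mu K toK tau sh dl rev gr ig IsTest pd lap Rad dRad Rk dRk c0 WD Sm SmE IsSch half shr WTo resc)

namespace MolDx

open MolPx

/-- The error for test functions, general exponent. -/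
theorem test_err (hFt : St_Ft) (hHs : St_Hs) (hIso : St_IsoP) {a : ℝ} (ha0 : 0 ≤ a)
    {ρ : E → ℝ} (hρ : IsTest ρ) {C : ℝ} (hC : 0 < C)
    (hb : ∀ η : E, ‖(1 : ℂ) - ft ρ η‖ ≤ C * (2 * Real.pi * ‖η‖) ^ a) {f : E → ℝ}
    (hf : IsTest f) {ε : ℝ} (hε : 0 < ε) :
    eLpNorm (fun x => f x - ∫ y, ρ y * f (x - ε • y)) 2 volume ≤
      ENNReal.ofReal (C * ε ^ a * √(hs a f)) := by
  have hg : IsTest fun x => f x - ∫ y, ρ y * f (x - ε • y) := test_sub hf (test_mo hρ hf hε)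
  have hfS : IsSch f := hFt.1 f hf
  have hgS : IsSch fun x => f x - ∫ y, ρ y * f (x - ε • y) := hFt.1 _ hg
  have hm := test_mo hρ hf hε
  have hex : ∀ t : ℝ, ‖Complex.exp (-2 * Real.pi * Complex.I * (t : ℂ))‖ = 1 := by
    intro t
    rw [show (-2 * Real.pi * Complex.I * (t : ℂ) : ℂ) = ((-2 * Real.pi * t : ℝ) : ℂ) * Complex.I by
      push_cast; ring, Complex.norm_exp_ofReal_mul_I]
  have hei : ∀ (u : E → ℝ), IsTest u → ∀ η : E, Integrable (fun x => (u x : ℂ) *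
      Complex.exp (-2 * Real.pi * Complex.I * ((inner ℝ x η : ℝ) : ℂ))) volume := by
    intro u hu η
    have hui : Integrable u volume := hu.1.continuous.integrable_of_hasCompactSupport hu.2
    refine hui.ofReal.mul_bdd (c := 1) (by fun_prop) (Eventually.of_forall fun x => ?_)
    rw [hex]
  have hft : ∀ ξ, ft (fun x => f x - ∫ y, ρ y * f (x - ε • y)) ξ = (1 - ft ρ (ε • ξ)) * ft f ξ := by
    intro ξ
    rw [sub_mul, one_mul, ← ft_mo hρ hf hε ξ]
    unfold ft
    rw [← integral_sub (hei f hf ξ) (hei _ hm ξ)]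
    congr 1
    funext x
    push_cast
    ring
  have hint : Integrable (fun ξ => (2 * Real.pi * ‖ξ‖) ^ (2 * a) * ‖ft f ξ‖ ^ 2) volume :=
    (hIso 0 f f (by norm_num) hfS hfS).2.2.2.2.2.2.2 a (by linarith)
  have h0 : ∫ x, (f x - ∫ y, ρ y * f (x - ε • y)) ^ 2 ≤ (C * ε ^ a) ^ 2 * hs a f := by
    rw [← hHs.1 _ hgS, hs, hs, ← integral_const_mul]
    refine integral_mono_of_nonneg (Eventually.of_forall fun ξ => by positivity)
      (hint.const_mul _) (Eventually.of_forall fun ξ => ?_)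
    simp only []
    rw [hft, mul_zero, Real.rpow_zero, one_mul, norm_mul, mul_pow]
    have h2 := hb (ε • ξ)
    rw [norm_smul, Real.norm_eq_abs, abs_of_pos hε] at h2
    have h3 : (2 * Real.pi * (ε * ‖ξ‖)) ^ a = ε ^ a * (2 * Real.pi * ‖ξ‖) ^ a := by
      rw [← Real.mul_rpow hε.le (by positivity)]
      congr 1
      ring
    rw [h3] at h2
    have h4 : (2 * Real.pi * ‖ξ‖) ^ (2 * a) = ((2 * Real.pi * ‖ξ‖) ^ a) ^ 2 := by
      rw [mul_comm 2 a, Real.rpow_mul (by positivity), Real.rpow_two]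
    rw [h4]
    calc ‖1 - ft ρ (ε • ξ)‖ ^ 2 * ‖ft f ξ‖ ^ 2
        ≤ (C * (ε ^ a * (2 * Real.pi * ‖ξ‖) ^ a)) ^ 2 * ‖ft f ξ‖ ^ 2 := by gcongr
      _ = (C * ε ^ a) ^ 2 * (((2 * Real.pi * ‖ξ‖) ^ a) ^ 2 * ‖ft f ξ‖ ^ 2) := by ring
  have hmem : MemLp (fun x => f x - ∫ y, ρ y * f (x - ε • y)) 2 volume :=
    hg.1.continuous.memLp_of_hasCompactSupport hg.2
  rw [hmem.eLpNorm_eq_integral_rpow_norm two_ne_zero ENNReal.ofNat_ne_top]
  refine ENNReal.ofReal_le_ofReal ?_
  have e2 : (2 : ℝ≥0∞).toReal = 2 := by simp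
  rw [e2]
  have e3 : ∀ x, ‖f x - ∫ y, ρ y * f (x - ε • y)‖ ^ (2 : ℝ) = (f x - ∫ y, ρ y * f (x - ε • y)) ^ 2 := by
    intro x
    rw [Real.rpow_two, Real.norm_eq_abs, sq_abs]
  simp only [e3]
  have hnn : 0 ≤ hs a f := integral_nonneg fun ξ => by positivity
  calc (∫ x, (f x - ∫ y, ρ y * f (x - ε • y)) ^ 2) ^ (2 : ℝ)⁻¹
      ≤ ((C * ε ^ a) ^ 2 * hs a f) ^ (2 : ℝ)⁻¹ := by
        refine Real.rpow_le_rpow (integral_nonneg fun x => by positivity) h0 (by norm_num)
    _ = C * ε ^ a * √(hs a f) := by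
        rw [Real.sqrt_eq_rpow, Real.mul_rpow (by positivity) hnn, ← Real.rpow_natCast (C * ε ^ a) 2,
          ← Real.rpow_mul (by positivity)]
        norm_num

end MolDx

open MolPx in
theorem thm_MolD (hFt : St_Ft) (hHs : St_Hs) (hIso : St_IsoP) (hDns : St_DnsP) (hFld : St_FldP)
    (hFldD : St_FldD) : St_MolD := by
  intro s ρ hs0 hs2 hρ h1 he
  have hsab : |s| < 1 / 2 := by rw [abs_of_pos hs0]; exact hs2
  obtain ⟨C, hC, hb⟩ := mult_bd hρ h1 he (a := s) hs0.le (by linarith)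
  obtain ⟨CF, hCF, hfl, hlin, htest⟩ := hFldD s hs0.le hs2
  obtain ⟨CF', -, hfl', -, -⟩ := hFld s hsab
  have hc0 : 0 < c0 := by
    rw [Pool.Agent.QWE.c0]; positivity
  refine ⟨C / √c0, by positivity, fun k ε i j hε => ?_⟩
  have hq : q2 s ≠ 0 := by
    rw [q2, Ne, ENNReal.ofReal_eq_zero, not_le]
    exact div_pos (by norm_num) (by linarith)
  -- approximation
  have happ : ∀ n : ℕ, ∃ f g : E → ℝ, IsTest f ∧ IsTest g ∧
      ‖k - Theta s f g‖ < 1 / ((n : ℝ) + 1) := fun n =>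
    (hDns s hsab).2.1 k (1 / ((n : ℝ) + 1)) (by positivity)
  choose f g hf hg hfg using happ
  have hk : Tendsto (fun n => Theta s (f n) (g n)) atTop (𝓝 k) := by
    rw [tendsto_iff_norm_sub_tendsto_zero]
    refine squeeze_zero (fun n => norm_nonneg _) (fun n => ?_)
      tendsto_one_div_add_atTop_nhds_zero_nat
    rw [norm_sub_rev]
    exact (hfg n).le
  have hkn : Tendsto (fun n => ‖Theta s (f n) (g n)‖) atTop (𝓝 ‖k‖) := hk.norm
  have hkd : Tendsto (fun n => ENNReal.ofReal CF * ‖Theta s (f n) (g n) + (-1 : ℝ) • k‖ₑ) atTop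
      (𝓝 0) := by
    have h5 : Tendsto (fun n => ‖Theta s (f n) (g n) + (-1 : ℝ) • k‖ₑ) atTop (𝓝 0) := by
      have h6 : Tendsto (fun n => Theta s (f n) (g n) + (-1 : ℝ) • k) atTop (𝓝 0) := by
        have h61 : Tendsto (fun n => Theta s (f n) (g n) + (-1 : ℝ) • k) atTop
            (𝓝 (k + (-1 : ℝ) • k)) := hk.add_const ((-1 : ℝ) • k)
        have h62 : k + (-1 : ℝ) • k = 0 := by rw [neg_one_smul, add_neg_cancel]
        rwa [h62] at h61
      have h7 := h6.enorm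
      rwa [enorm_zero] at h7
    have := ENNReal.Tendsto.const_mul h5 (Or.inr (ENNReal.ofReal_ne_top (r := CF)))
    rwa [mul_zero] at this
  have hBt : Tendsto (fun n => C * ε ^ s * (‖Theta s (f n) (g n)‖ / √c0)) atTop
      (𝓝 (C * ε ^ s * (‖k‖ / √c0))) :=
    (hkn.div_const _).const_mul _
  have hfin : ENNReal.ofReal (C * ε ^ s * (‖k‖ / √c0)) =
      ENNReal.ofReal (C / √c0 * ε ^ s) * ‖k‖ₑ := by
    rw [← ofReal_norm, ← ENNReal.ofReal_mul (by positivity)]
    congr 1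
    ring
  have hnn : ∀ (a : ℝ) (u : E → ℝ), 0 ≤ hs a u := fun a u => integral_nonneg fun ξ => by positivity
  have hnorm : ∀ n, ‖Theta s (f n) (g n)‖ ^ 2 = c0 * (hs (2 + s) (f n) + hs (1 + s) (g n)) := fun n =>
    (hIso s (f n) (g n) hsab (hFt.1 _ (hf n)) (hFt.1 _ (hg n))).2.2.2.2.2.2.1
  have hsq : ∀ (n : ℕ) (X : ℝ), X ≤ hs (2 + s) (f n) + hs (1 + s) (g n) →
      √X ≤ ‖Theta s (f n) (g n)‖ / √c0 := by
    intro n X hX
    rw [le_div_iff₀ (Real.sqrt_pos.2 hc0)]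
    rcases le_or_gt X 0 with hX0 | hX0
    · rw [Real.sqrt_eq_zero_of_nonpos hX0, zero_mul]; exact norm_nonneg _
    rw [← Real.sqrt_mul hX0.le]
    refine Real.sqrt_le_iff.2 ⟨norm_nonneg _, ?_⟩
    rw [hnorm n, mul_comm]
    gcongr
  rw [← hfin]
  refine lim_err (Fn := fun n => pd j (pd i (f n))) (q := q2 s) hε hq hρ
    (hfl k i j).1.aestronglyMeasurable (fun n => test_pd (test_pd (hf n) i) j) ?_ ?_ (fun n => ?_) hBt
  · refine tendsto_of_tendsto_of_tendsto_of_le_of_le tendsto_const_nhds hkd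
      (fun n => zero_le) (fun n => ?_)
    have h8 : (pd j (pd i (f n)) - DDU s k i j) =ᵐ[volume]
        DDU s (Theta s (f n) (g n) + (-1 : ℝ) • k) i j := by
      filter_upwards [hlin (-1) (Theta s (f n) (g n)) k i j, htest _ _ i j (hf n) (hg n)]
        with x hx hx'
      rw [hx, hx', Pi.sub_apply]; ring
    rw [eLpNorm_congr_ae h8]
    exact (hfl _ i j).2.2
  · intro φ hφ
    have hw : ∀ κ : K, ∫ x, DDU s κ i j x * φ x = inner ℝ κ (Rs s (pd i (pd j φ))) := by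
      intro κ
      have h9 := (hfl κ i j).2.1 φ hφ
      have h10 := ((hfl' κ).2.2.2.2.1 i).2.1 (pd j φ) (test_pd hφ j)
      have h11 := (hfl' κ).1.2 (pd i (pd j φ)) (test_pd (test_pd hφ j) i)
      rw [← h11, h10, h9, neg_neg]
    have h11 : ∀ n, ∫ x, pd j (pd i (f n)) x * φ x =
        ∫ x, DDU s (Theta s (f n) (g n)) i j x * φ x := by
      intro n
      refine integral_congr_ae ?_
      filter_upwards [htest _ _ i j (hf n) (hg n)] with x hx
      rw [hx]
    simp only [h11, hw]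
    exact hk.inner tendsto_const_nhds
  · refine (MolDx.test_err hFt hHs hIso hs0.le hρ hC hb (test_pd (test_pd (hf n) i) j) hε).trans ?_
    refine ENNReal.ofReal_le_ofReal ?_
    have h12 : hs (1 + s) (pd i (f n)) ≤ hs (2 + s) (f n) := by
      have h13 := hHs.2.2.2.2.2.1 (1 + s) (f n) (by linarith) (hFt.1 _ (hf n))
      have h14 : (1 + s) + 1 = 2 + s := by ring
      rw [h14] at h13
      rw [← h13]
      exact Finset.single_le_sum (f := fun i => hs (1 + s) (pd i (f n)))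
        (fun j _ => hnn (1 + s) (pd j (f n))) (Finset.mem_univ i)
    have h22 : hs s (pd j (pd i (f n))) ≤ hs (1 + s) (pd i (f n)) := by
      have h13 := hHs.2.2.2.2.2.1 s (pd i (f n)) (by linarith) (hFt.1 _ (test_pd (hf n) i))
      have h14 : s + 1 = 1 + s := by ring
      rw [h14] at h13
      rw [← h13]
      exact Finset.single_le_sum (f := fun j => hs s (pd j (pd i (f n))))
        (fun l _ => hnn s (pd l (pd i (f n)))) (Finset.mem_univ j)
    have h15 := hsq n (hs s (pd j (pd i (f n))))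
      ((h22.trans h12).trans (le_add_of_nonneg_right (hnn _ _)))
    gcongr

end Pool.Agent.QWP
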