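import Pool.Agent.QWP.StG
import Pool.Agent.QWP.DenX
import Pool.Agent.QWP.G2

set_option autoImplicit false

/-!
# QWP, module MolK: regularisation by convolution
-/

open MeasureTheory Filter Topology Set
open scoped ENNReal NNReal RealInnerProductSpace ContDiff

namespace Pool.Agent.QWP

open Pool.Agent.QWE (E S sg mu K toK tau sh dl rev gr ig IsTest pd lap Rad dRad Rk dRk c0 WD Sm SmE IsSch half shr WTo)

namespace MolKx

open Pool.Agent.QWE.Moll DenXx

/-- the probability measure with density `φ` -/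
theorem nu_prob {φ : E → ℝ} (hφ : IsTest φ) (h0 : ∀ x, 0 ≤ φ x) (hi : ∫ x, φ x = 1) :
    IsProbabilityMeasure ((volume : Measure E).withDensity fun y => ENNReal.ofReal (φ y)) := by
  have hφi : Integrable φ volume := hφ.1.continuous.integrable_of_hasCompactSupport hφ.2
  refine ⟨?_⟩
  rw [withDensity_apply _ MeasurableSet.univ, Measure.restrict_univ,
    ← ofReal_integral_eq_lintegral_ofReal hφi (Eventually.of_forall h0), hi, ENNReal.ofReal_one]

/-- Jensen -/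
theorem mc_pt {p : ℝ≥0∞} (h1 : 1 ≤ p) {φ w : E → ℝ} (hφ : IsTest φ) (h0 : ∀ x, 0 ≤ φ x)
    (hi : ∫ x, φ x = 1) (hw : StronglyMeasurable w) (x : E) :
    ‖mc φ w x‖ₑ ≤ eLpNorm (fun y => w (x - y)) p
      ((volume : Measure E).withDensity fun y => ENNReal.ofReal (φ y)) := by
  have := nu_prob hφ h0 hi
  have hφm : Measurable φ := hφ.1.continuous.measurable
  have hmx : Measurable (fun y => w (x - y)) := hw.measurable.comp (measurable_const.sub measurable_id)
  have e2 : ‖mc φ w x‖ₑ ≤ eLpNorm (fun y => w (x - y)) 1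
      ((volume : Measure E).withDensity fun y => ENNReal.ofReal (φ y)) := by
    rw [mc_apply, eLpNorm_one_eq_lintegral_enorm,
      lintegral_withDensity_eq_lintegral_mul _ (by fun_prop) hmx.enorm]
    refine (enorm_integral_le_lintegral_enorm _).trans (lintegral_mono fun y => ?_)
    rw [enorm_mul, Real.enorm_eq_ofReal (h0 y)]
    rfl
  exact e2.trans (eLpNorm_le_eLpNorm_of_exponent_le h1 hmx.aestronglyMeasurable)

/-- Young with a probability density -/
theorem mc_le {p : ℝ≥0∞} (h1 : 1 ≤ p) (hp : p ≠ ⊤) {φ w : E → ℝ} (hφ : IsTest φ)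
    (h0 : ∀ x, 0 ≤ φ x) (hi : ∫ x, φ x = 1) (hw : StronglyMeasurable w) :
    eLpNorm (mc φ w) p volume ≤ eLpNorm w p volume := by
  have hp0 : p ≠ 0 := (lt_of_lt_of_le zero_lt_one h1).ne'
  have hpr : 0 < p.toReal := ENNReal.toReal_pos hp0 hp
  have hφm : Measurable φ := hφ.1.continuous.measurable
  have hνp := nu_prob hφ h0 hi
  obtain ⟨ν, hν⟩ : ∃ ν : Measure E, ν = volume.withDensity (fun y => ENNReal.ofReal (φ y)) := ⟨_, rfl⟩
  rw [← hν] at hνp
  have hmeas : Measurable (fun q : E × E => w (q.1 - q.2)) :=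
    hw.measurable.comp (measurable_fst.sub measurable_snd)
  have hpt : ∀ x, ‖mc φ w x‖ₑ ^ p.toReal ≤ ∫⁻ y, ‖w (x - y)‖ₑ ^ p.toReal ∂ν := by
    intro x
    have e3 := mc_pt h1 hφ h0 hi hw x
    rw [← hν, eLpNorm_eq_lintegral_rpow_enorm_toReal hp0 hp] at e3
    calc ‖mc φ w x‖ₑ ^ p.toReal ≤
          ((∫⁻ y, ‖w (x - y)‖ₑ ^ p.toReal ∂ν) ^ (1 / p.toReal)) ^ p.toReal := by gcongr
      _ = ∫⁻ y, ‖w (x - y)‖ₑ ^ p.toReal ∂ν := by
          rw [← ENNReal.rpow_mul, one_div_mul_cancel hpr.ne', ENNReal.rpow_one]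
  rw [eLpNorm_eq_lintegral_rpow_enorm_toReal hp0 hp, eLpNorm_eq_lintegral_rpow_enorm_toReal hp0 hp]
  refine ENNReal.rpow_le_rpow ?_ (by positivity)
  refine (lintegral_mono hpt).trans ?_
  rw [lintegral_lintegral_swap (by fun_prop)]
  have h3 : ∀ y : E, ∫⁻ x, ‖w (x - y)‖ₑ ^ p.toReal = ∫⁻ x, ‖w x‖ₑ ^ p.toReal := fun y =>
    lintegral_sub_right_eq_self (fun x => ‖w x‖ₑ ^ p.toReal) y
  simp only [h3]
  rw [lintegral_const, measure_univ, mul_one]

/-- pointwise bound -/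
theorem mc_sup {p : ℝ≥0∞} (h1 : 1 ≤ p) (hp : p ≠ ⊤) {φ w : E → ℝ} (hφ : IsTest φ)
    (h0 : ∀ x, 0 ≤ φ x) (hi : ∫ x, φ x = 1) {M : ℝ} (hM : ∀ x, φ x ≤ M) (hw : StronglyMeasurable w)
    (x : E) : ‖mc φ w x‖ₑ ≤ ENNReal.ofReal M ^ (1 / p.toReal) * eLpNorm w p volume := by
  refine (mc_pt h1 hφ h0 hi hw x).trans ?_
  have hle : (volume : Measure E).withDensity (fun y => ENNReal.ofReal (φ y)) ≤
      ENNReal.ofReal M • volume := by
    rw [← withDensity_const]
    exact withDensity_mono (Eventually.of_forall fun y => ENNReal.ofReal_le_ofReal (hM y))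
  refine (eLpNorm_mono_measure _ hle).trans ?_
  rw [eLpNorm_smul_measure_of_ne_top hp, smul_eq_mul]
  have hmp : MeasurePreserving (fun y : E => x - y) volume volume := Measure.measurePreserving_sub_left volume x
  have h2 : eLpNorm (fun y => w (x - y)) p volume = eLpNorm w p volume :=
    eLpNorm_comp_measurePreserving hw.aestronglyMeasurable hmp
  rw [h2]
  simp

/-- interpolation with `L^∞` -/
theorem interp {q : ℝ} (hq : 0 < q) {v : E → ℝ} {M : ℝ≥0∞} (hM : M ≠ ⊤)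
    (h : ∀ᵐ x, ‖v x‖ₑ ≤ M) :
    eLpNorm v (ENNReal.ofReal (2 * q)) volume ≤
      M ^ (1 / 2 : ℝ) * eLpNorm v (ENNReal.ofReal q) volume ^ (1 / 2 : ℝ) := by
  have hq0 : ENNReal.ofReal q ≠ 0 := by
    rw [Ne, ENNReal.ofReal_eq_zero, not_le]
    exact hq
  have hq2 : ENNReal.ofReal (2 * q) ≠ 0 := by
    rw [Ne, ENNReal.ofReal_eq_zero, not_le]
    linarith
  rw [eLpNorm_eq_lintegral_rpow_enorm_toReal hq0 ENNReal.ofReal_ne_top,
    eLpNorm_eq_lintegral_rpow_enorm_toReal hq2 ENNReal.ofReal_ne_top,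
    ENNReal.toReal_ofReal hq.le, ENNReal.toReal_ofReal (by linarith)]
  have h1 : ∫⁻ x, ‖v x‖ₑ ^ (2 * q) ≤ ∫⁻ x, M ^ q * ‖v x‖ₑ ^ q := by
    refine lintegral_mono_ae ?_
    filter_upwards [h] with x hx
    rw [two_mul, ENNReal.rpow_add_of_nonneg _ _ hq.le hq.le]
    gcongr
  rw [lintegral_const_mul' _ _ (ENNReal.rpow_ne_top_of_nonneg hq.le hM)] at h1
  calc (∫⁻ x, ‖v x‖ₑ ^ (2 * q)) ^ (1 / (2 * q)) ≤ (M ^ q * ∫⁻ x, ‖v x‖ₑ ^ q) ^ (1 / (2 * q)) := by
        gcongr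
    _ = M ^ (1 / 2 : ℝ) * ((∫⁻ x, ‖v x‖ₑ ^ q) ^ (1 / q)) ^ (1 / 2 : ℝ) := by
        rw [ENNReal.mul_rpow_of_nonneg _ _ (by positivity), ← ENNReal.rpow_mul, ← ENNReal.rpow_mul]
        congr 2
        · field_simp
        · field_simp

theorem sh_int (hG1 : Pool.Agent.QWE.St_Grp1) (n : ℕ) (k : K) :
    Integrable (fun z => ph n z • sh z k) volume :=
  ((ph_test n).1.continuous.smul (hG1.2.2.2.2.2.2.2.2 k)).integrable_of_hasCompactSupport
    (ph_test n).2.smul_right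

theorem ms_norm (n : ℕ) (k : K) : ‖ms (ph n) k‖ ≤ ‖k‖ := by
  unfold ms
  refine (norm_integral_le_integral_norm _).trans (le_of_eq ?_)
  have h1 : ∀ z : E, ‖ph n z • sh z k‖ = ph n z * ‖k‖ := fun z => by
    rw [norm_smul, (sh z).norm_map, Real.norm_of_nonneg (ph_nonneg n z)]
  simp only [h1]
  rw [integral_mul_const, ph_int, one_mul]

theorem exP (hG1 : Pool.Agent.QWE.St_Grp1) :
    ∃ P : ℕ → K →L[ℝ] K, ∀ n k, P n k = ms (ph n) k := by
  refine ⟨fun n => LinearMap.mkContinuous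
    { toFun := fun k => ms (ph n) k
      map_add' := fun k k' => ?_
      map_smul' := fun c k => ?_ } 1 fun k => ?_, fun n k => rfl⟩
  · unfold ms
    rw [← integral_add (sh_int hG1 n k) (sh_int hG1 n k')]
    congr 1; ext1 z
    rw [map_add, smul_add]
  · unfold ms
    rw [RingHom.id_apply, ← integral_smul]
    congr 1; ext1 z
    rw [map_smul, smul_comm]
  · rw [one_mul]
    exact ms_norm n k

end MolKx

open MolKx DenXx Pool.Agent.QWE.Moll in
theorem thm_MolK (hG1 : Pool.Agent.QWE.St_Grp1) (hG2 : Pool.Agent.QWE.St_Grp2) (hF : St_FldP)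
    (hA : St_ActP) : St_MolK := by
  intro b hb
  have hs := G2x.abs_sg hb
  obtain ⟨C, hC, hF', hlin, -⟩ := hF (sig b) hs
  obtain ⟨P, hP⟩ := exP hG1
  have hp : (1 : ℝ≥0∞) ≤ ENNReal.ofReal (5 * b) := by
    rw [← ENNReal.ofReal_one]
    exact ENNReal.ofReal_le_ofReal (by linarith)
  have hpt : ENNReal.ofReal (5 * b) ≠ ⊤ := ENNReal.ofReal_ne_top
  have hq : (1 : ℝ≥0∞) ≤ ENNReal.ofReal (5 * b / 2) := by
    rw [← ENNReal.ofReal_one]
    exact ENNReal.ofReal_le_ofReal (by linarith)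
  have hfld : ∀ n k, U (sig b) (P n k) =ᵐ[volume] mc (ph n) (U (sig b) k) := fun n k => by
    rw [hP]
    exact (ms_fields hG1 hG2 hs hF hA (ph_test n) k).1
  have hmeas : ∀ k, AEStronglyMeasurable (U (sig b) k) volume := fun k => (hF' k).1.1.1
  refine ⟨P, ?_, ?_, ?_, ?_, ?_⟩
  · intro k
    simp only [hP]
    exact ms_tendsto hG1 k
  · intro n k
    rw [hP]
    exact ms_norm n k
  · intro n k
    obtain ⟨w, hw, huw⟩ := hmeas k
    unfold sn
    rw [eLpNorm_congr_ae (hfld n k), mc_congr huw, eLpNorm_congr_ae huw]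
    exact mc_le hp hpt (ph_test n) (ph_nonneg n) (ph_int n) hw
  · intro n
    obtain ⟨M, hM⟩ := (ph_test n).2.exists_bound_of_continuous (ph_test n).1.continuous
    have hM' : ∀ x, ph n x ≤ M := fun x => (le_abs_self _).trans (hM x)
    obtain ⟨A, hA'⟩ : ∃ A : ℝ≥0∞, A = ENNReal.ofReal M ^ (1 / (ENNReal.ofReal (5 * b / 2)).toReal) :=
      ⟨_, rfl⟩
    have hAt : A ≠ ⊤ := by
      rw [hA']
      exact ENNReal.rpow_ne_top_of_nonneg (by positivity) ENNReal.ofReal_ne_top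
    refine ⟨A.toReal ^ (1 / 2 : ℝ) * C + 1, by positivity, fun k => ?_⟩
    obtain ⟨w, hw, huw⟩ := hmeas k
    have h1 : ∀ᵐ x, ‖U (sig b) (P n k) x‖ₑ ≤ A * (ENNReal.ofReal C * ‖k‖ₑ) := by
      filter_upwards [hfld n k] with x hx
      rw [hx, mc_congr huw]
      refine (mc_sup hq ENNReal.ofReal_ne_top (ph_test n) (ph_nonneg n) (ph_int n) hM' hw x).trans ?_
      rw [← hA']
      gcongr
      rw [← eLpNorm_congr_ae huw]
      have := (hF' k).2.1
      rwa [G2x.q0_sig hb] at this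
    have hkt : A * (ENNReal.ofReal C * ‖k‖ₑ) ≠ ⊤ :=
      ENNReal.mul_ne_top hAt (ENNReal.mul_ne_top ENNReal.ofReal_ne_top enorm_ne_top)
    have h2 := interp (q := 5 * b / 2) (by linarith) hkt h1
    have h3 : eLpNorm (U (sig b) (P n k)) (ENNReal.ofReal (5 * b / 2)) volume ≤
        ENNReal.ofReal C * ‖k‖ₑ := by
      have h4 := (hF' (P n k)).2.1
      rw [G2x.q0_sig hb] at h4
      refine h4.trans ?_
      gcongr
      rw [enorm_le_iff_norm_le, hP]
      exact ms_norm n k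
    have e0 : 2 * (5 * b / 2) = 5 * b := by ring
    rw [e0] at h2
    unfold sn
    calc eLpNorm (U (sig b) (P n k)) (ENNReal.ofReal (5 * b)) volume ≤ _ := h2
      _ ≤ (A * (ENNReal.ofReal C * ‖k‖ₑ)) ^ (1 / 2 : ℝ) * (ENNReal.ofReal C * ‖k‖ₑ) ^ (1 / 2 : ℝ) := by
          gcongr
      _ = A ^ (1 / 2 : ℝ) * (ENNReal.ofReal C * ‖k‖ₑ) := by
          rw [ENNReal.mul_rpow_of_nonneg _ _ (by norm_num), mul_assoc, ← ENNReal.rpow_add_of_nonneg
            _ _ (by norm_num) (by norm_num)]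
          norm_num
      _ = ENNReal.ofReal (A.toReal ^ (1 / 2 : ℝ) * C) * ‖k‖ₑ := by
          rw [ENNReal.ofReal_mul (by positivity), ← ENNReal.ofReal_rpow_of_nonneg (by positivity)
            (by norm_num), ENNReal.ofReal_toReal hAt, mul_assoc]
      _ ≤ ENNReal.ofReal (A.toReal ^ (1 / 2 : ℝ) * C + 1) * ‖k‖ₑ := by
          gcongr
          linarith
  · intro k hk
    have hw : MemLp (U (sig b) k) (ENNReal.ofReal (5 * b)) volume := ⟨hmeas k, hk⟩
    refine (mc_tendsto hp hpt hw).congr fun n => ?_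
    unfold sn
    have h1 := (hlin (-1) k (P n k)).1
    rw [neg_one_smul, ← sub_eq_add_neg] at h1
    have h2 : U (sig b) (k - P n k) =ᵐ[volume]
        -fun x => mc (ph n) (U (sig b) k) x - U (sig b) k x := by
      filter_upwards [h1, hfld n k] with x h3 h4
      rw [h3, h4, Pi.neg_apply]
      ring
    rw [eLpNorm_congr_ae h2, eLpNorm_neg]

end Pool.Agent.QWP
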