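import Pool.Agent.QWP.StB

set_option autoImplicit false

/-!
# QWP, Mor: Morawetz inequality (helper81)
-/

open MeasureTheory Filter Topology Set
open scoped ENNReal NNReal RealInnerProductSpace

namespace Pool.Agent.QWP

open Pool.Agent.QWE (E S sg mu K toK tau sh dl rev gr ig IsTest pd lap Rad dRad Rk dRk c0 WD Sm SmE IsSch half shr WTo)

namespace Morx

private lemma int_pot {b : ℝ} (hb : 2 < b) {u : E → ℝ} (hu : MemLp u (ENNReal.ofReal (b + 2)) volume) :
    Integrable (fun z : E => |u z| ^ (b + 2) / √(1 + ‖z‖ ^ 2)) volume := by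
  have h1 : Integrable (fun z : E => |u z| ^ (b + 2)) volume := by
    have h := hu.integrable_norm_rpow (by simp; linarith) ENNReal.ofReal_ne_top
    rwa [ENNReal.toReal_ofReal (by linarith)] at h
  have h2 := h1.mul_bdd (c := 1) (g := fun z : E => (√(1 + ‖z‖ ^ 2))⁻¹) (by fun_prop)
    (Eventually.of_forall fun z => by
      rw [norm_inv, Real.norm_of_nonneg (Real.sqrt_nonneg _)]
      refine inv_le_one_of_one_le₀ (Real.one_le_sqrt.2 ?_)
      have : 0 ≤ ‖z‖ ^ 2 := by positivity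
      linarith)
  exact h2.congr (Eventually.of_forall fun z => (div_eq_mul_inv _ _).symm)

private lemma arith {b I J : ℝ} (hb : 2 < b) (h : 2 * b / (b + 2) * I ≤ J) :
    I ≤ (b + 2) / b * (J / 2) := by
  have h1 : I = (b + 2) / (2 * b) * (2 * b / (b + 2) * I) := by field_simp
  rw [h1]
  refine (mul_le_mul_of_nonneg_left h (by positivity)).trans_eq ?_
  field_simp

private lemma c0_pos : 0 < c0 := by
  unfold c0
  positivity

private lemma en_bound {b : ℝ} (hb : 2 < b) (hR : St_EnR) (hS : St_EnS) {k e : K} {B : ℝ}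
    (hB : EB (sig b) B k) (he : IsE e (U (sig b) k) (V (sig b) k)) :
    ‖e‖ ^ 2 ≤ 2 * c0 * En b k := by
  obtain ⟨fp, -, -⟩ := (hS b hb).1 k B hB
  have h1 := hR.2.2.1 e e _ _ _ _ _ _ fp fp he he
  rw [real_inner_self_eq_norm_sq] at h1
  rw [h1, En]
  have h2 : (∑ i, ∫ x, DU (sig b) k i x * DU (sig b) k i x) = ∑ i, ∫ x, DU (sig b) k i x ^ 2 := by
    refine Finset.sum_congr rfl fun i _ => integral_congr_ae (Eventually.of_forall fun x => ?_)
    simp only
    ring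
  have h3 : ∫ x, V (sig b) k x * V (sig b) k x = ∫ x, V (sig b) k x ^ 2 := by
    refine integral_congr_ae (Eventually.of_forall fun x => ?_)
    simp only
    ring
  rw [h2, h3]
  have h4 : 0 ≤ (∫ x, |U (sig b) k x| ^ (b + 2)) / (b + 2) :=
    div_nonneg (integral_nonneg fun x => by positivity) (by linarith)
  have h5 := c0_pos
  have h6 : 0 ≤ c0 * ((∫ x, |U (sig b) k x| ^ (b + 2)) / (b + 2)) := mul_nonneg h5.le h4
  nlinarith

end Morx

open Morx in
theorem thm_Mor (hR : St_EnR) (hS : St_EnS) (hG : St_EnG) (hD : St_EnD) (hA : St_ACq) (hE : St_En)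
    (hM : St_MorS) (hF : St_MorF) : St_Mor := by
  intro b hb
  obtain ⟨Bf, hsym, hmono, hBf⟩ := hF
  obtain ⟨CM, hCM, hM⟩ := hM
  have hc0 := c0_pos
  refine ⟨(b + 2) / (2 * b) * (‖Bf‖ * (4 * c0)) + 1, by positivity, ?_⟩
  intro x y B k hxy hk hB
  have fp : ∀ t ∈ Icc x y, FP (U (sig b) (k t)) (V (sig b) (k t)) (DU (sig b) (k t)) :=
    fun t ht => ((hS b hb).1 (k t) B (hB t ht)).1
  have hex : ∀ t, ∃ e : K, t ∈ Icc x y → IsE e (U (sig b) (k t)) (V (sig b) (k t)) := by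
    intro t
    by_cases ht : t ∈ Icc x y
    · obtain ⟨e, he⟩ := hR.1 _ _ _ (fp t ht)
      exact ⟨e, fun _ => he⟩
    · exact ⟨0, fun h => absurd h ht⟩
  choose e he using hex
  obtain ⟨g, gi, ga⟩ := hG b hb x y B k hxy hk hB
  obtain ⟨ec, ed⟩ := hD b hb x y B k g e hxy hk hB gi (ga.mono fun r h => ⟨h.1, h.2.2⟩) he
  have ac := hA Bf x y e g hxy hsym hmono ec gi ed
  -- the integrand
  have key : ∀ᵐ r ∂(volume.restrict (Icc x y)),
      (∫⁻ z, ENNReal.ofReal (|U (sig b) (k r) z| ^ (b + 2) / √(1 + ‖z‖ ^ 2))) ≤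
        ENNReal.ofReal ((b + 2) / b * Bf (e r) (g r)) ∧ 0 ≤ (b + 2) / b * Bf (e r) (g r) := by
    filter_upwards [ga, ae_restrict_mem measurableSet_Icc] with r h1 hr
    obtain ⟨-, h2, h3⟩ := h1
    have hmem := ((hS b hb).1 (k r) B (hB r hr)).2.1
    have hi := int_pot hb hmem
    have fp0 : FP (0 : E → ℝ) (fun z => Fn b (U (sig b) (k r) z)) (fun _ => 0) := by
      refine ⟨MemLp.zero, h2, fun i => ⟨MemLp.zero, fun φ _ => ?_⟩⟩
      simp
    have h4 := hBf (e r) (g r) _ _ _ _ _ _ (fp r hr) fp0 (he r hr) h3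
    have h5 := (hM _ _ _ (fp r hr)).2.2 b hb h2 hmem
    have h6 : ∫ z, V (sig b) (k r) z * ((∑ i, z i * (fun _ : Fin 5 => (0 : E → ℝ)) i z) /
        √(1 + ‖z‖ ^ 2) + (1 / (√(1 + ‖z‖ ^ 2)) ^ 3 + 4 / √(1 + ‖z‖ ^ 2)) / 2 * (0 : E → ℝ) z) = 0 := by
      simp
    rw [h6, zero_add] at h4
    have h7 : ∫ z, |U (sig b) (k r) z| ^ (b + 2) / √(1 + ‖z‖ ^ 2) ≤
        (b + 2) / b * Bf (e r) (g r) := by
      rw [h4]
      exact arith hb h5
    have h9 : 0 ≤ ∫ z, |U (sig b) (k r) z| ^ (b + 2) / √(1 + ‖z‖ ^ 2) :=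
      integral_nonneg fun z => by positivity
    refine ⟨?_, h9.trans h7⟩
    rw [← ofReal_integral_eq_lintegral_ofReal hi (Eventually.of_forall fun z => by positivity)]
    exact ENNReal.ofReal_le_ofReal h7
  have hint : IntegrableOn (fun r => Bf (e r) (g r)) (Icc x y) volume := by
    obtain ⟨M, hMb⟩ := isCompact_Icc.exists_bound_of_continuousOn ec
    have hem : AEStronglyMeasurable e (volume.restrict (Icc x y)) :=
      ec.aestronglyMeasurable measurableSet_Icc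
    refine Integrable.mono' (gi.norm.const_mul (‖Bf‖ * M)) ?_ ?_
    · have hcont : Continuous fun p : K × K => Bf p.1 p.2 := by fun_prop
      exact hcont.comp_aestronglyMeasurable (hem.prodMk gi.1)
    · filter_upwards [ae_restrict_mem measurableSet_Icc] with r hr
      refine (Bf.le_opNorm₂ _ _).trans ?_
      have := hMb r hr
      gcongr
  have step : ∫⁻ t in Icc x y, ∫⁻ z, ENNReal.ofReal (|U (sig b) (k t) z| ^ (b + 2) /
      √(1 + ‖z‖ ^ 2)) ≤ ENNReal.ofReal (∫ t in Icc x y, (b + 2) / b * Bf (e t) (g t)) := by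
    rw [ofReal_integral_eq_lintegral_ofReal (hint.const_mul _) (key.mono fun r h => h.2)]
    exact lintegral_mono_ae (key.mono fun r h => h.1)
  refine step.trans (ENNReal.ofReal_le_ofReal ?_)
  rw [integral_const_mul, integral_Icc_eq_integral_Ioc, ← intervalIntegral.integral_of_le hxy]
  have hyy : y ∈ Icc x y := ⟨hxy, le_rfl⟩
  have hxx : x ∈ Icc x y := ⟨le_rfl, hxy⟩
  have b1 := en_bound hb hR hS (hB y hyy) (he y hyy)
  have b2 := en_bound hb hR hS (hB x hxx) (he x hxx)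
  rw [hE b hb x y B k hxy hk hB] at b1
  have b3 : Bf (e x) (e x) ≤ ‖Bf‖ * ‖e x‖ ^ 2 := by
    refine (le_abs_self _).trans ((Bf.le_opNorm₂ _ _).trans_eq ?_)
    ring
  have b4 : -(Bf (e y) (e y)) ≤ ‖Bf‖ * ‖e y‖ ^ 2 := by
    refine (neg_le_abs _).trans ((Bf.le_opNorm₂ _ _).trans_eq ?_)
    ring
  have hBn : 0 ≤ ‖Bf‖ := Bf.opNorm_nonneg
  have b5 : 2 * ∫ r in x..y, Bf (e r) (g r) ≤ ‖Bf‖ * (4 * c0 * En b (k x)) := by
    have c1 := mul_le_mul_of_nonneg_left b1 hBn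
    have c2 := mul_le_mul_of_nonneg_left b2 hBn
    linarith
  have hEn : 0 ≤ En b (k x) := by
    have : 0 ≤ 2 * c0 * En b (k x) := (sq_nonneg _).trans b2
    exact nonneg_of_mul_nonneg_right this (by positivity)
  have hbb : 0 ≤ (b + 2) / (2 * b) := by positivity
  calc (b + 2) / b * ∫ r in x..y, Bf (e r) (g r) =
      (b + 2) / (2 * b) * (2 * ∫ r in x..y, Bf (e r) (g r)) := by field_simp
    _ ≤ (b + 2) / (2 * b) * (‖Bf‖ * (4 * c0 * En b (k x))) := mul_le_mul_of_nonneg_left b5 hbb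
    _ ≤ ((b + 2) / (2 * b) * (‖Bf‖ * (4 * c0)) + 1) * En b (k x) := by linarith

end Pool.Agent.QWP
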