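import Pool.Agent.QWP.StB
import Pool.Agent.QWE.Mor
import Pool.Agent.QWE.MorI
import Pool.Agent.QWE.WEq

/-!
# QWP: the Morawetz form on the energy space (`MorF`)
-/

set_option autoImplicit false

open MeasureTheory Filter Topology Set
open scoped ENNReal NNReal RealInnerProductSpace ContDiff

namespace Pool.Agent.QWP

open Pool.Agent.QWE (E S sg mu K toK tau sh dl rev gr ig IsTest pd lap Rad dRad Rk dRk c0 WD Sm SmE IsSch half shr WTo)

namespace MorFx

open Pool.Agent.QWE.Morx (Hs toH toH_coe toH_eq inner_toH toH_sub norm_toH sq_toH)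

/-- the multiplier -/
noncomputable def mult (u : E → ℝ) (G : Fin 5 → E → ℝ) (x : E) : ℝ :=
  (∑ i, x i * G i x) / √(1 + ‖x‖ ^ 2) + (1 / (√(1 + ‖x‖ ^ 2)) ^ 3 + 4 / √(1 + ‖x‖ ^ 2)) / 2 * u x

lemma mult_lin (u u' : E → ℝ) (G G' : Fin 5 → E → ℝ) (c : ℝ) (x : E) :
    mult (fun x => u x + c * u' x) (fun i x => G i x + c * G' i x) x =
      mult u G x + c * mult u' G' x := by
  unfold mult
  have h : ∑ i, x i * (G i x + c * G' i x) = (∑ i, x i * G i x) + c * ∑ i, x i * G' i x := by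
    rw [Finset.mul_sum, ← Finset.sum_add_distrib]
    refine Finset.sum_congr rfl fun i _ => ?_
    ring
  rw [h]
  ring

lemma mult_congr {u u' : E → ℝ} {G G' : Fin 5 → E → ℝ} (hu : u =ᵐ[volume] u')
    (hG : ∀ i, G i =ᵐ[volume] G' i) : mult u G =ᵐ[volume] mult u' G' := by
  have h : ∀ᵐ x, ∀ i, G i x = G' i x := ae_all_iff.2 hG
  filter_upwards [hu, h] with x h1 h2
  unfold mult
  rw [h1]
  simp only [h2]

lemma toH_congr {f g : E → ℝ} (hf : MemLp f 2 volume) (hg : MemLp g 2 volume)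
    (h : f =ᵐ[volume] g) : toH f = toH g := by
  rw [toH_eq hf, toH_eq hg]
  exact MemLp.toLp_congr hf hg h

lemma toH_lin {f g : E → ℝ} (hf : MemLp f 2 volume) (hg : MemLp g 2 volume) (c : ℝ) :
    toH (fun x => f x + c * g x) = toH f + c • toH g := by
  have h : MemLp (fun x => f x + c * g x) 2 volume := hf.add (hg.const_mul c)
  rw [toH_eq hf, toH_eq hg, toH_eq h, ← MemLp.toLp_const_smul, ← MemLp.toLp_add]
  rfl

/-! ### test functions -/

lemma test_pd (i : Fin 5) {φ : E → ℝ} (h : IsTest φ) : IsTest (pd i φ) := by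
  refine ⟨?_, h.2.fderiv_apply ℝ _⟩
  exact (h.1.fderiv_right (m := ∞) (by simp)).clm_apply contDiff_const

lemma tsupport_pd (i : Fin 5) (φ : E → ℝ) : tsupport (pd i φ) ⊆ tsupport φ :=
  tsupport_fderiv_apply_subset ℝ _

lemma lap_zero {φ : E → ℝ} {x : E} (h : x ∉ tsupport φ) : lap φ x = 0 := by
  refine Finset.sum_eq_zero fun i _ => ?_
  exact image_eq_zero_of_notMem_tsupport fun h2 => h (tsupport_pd i φ (tsupport_pd i _ h2))

lemma test_lap {φ : E → ℝ} (h : IsTest φ) : IsTest (lap φ) := by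
  refine ⟨?_, HasCompactSupport.intro h.2 fun x hx => lap_zero hx⟩
  exact ContDiff.sum fun i _ => (test_pd i (test_pd i h)).1

lemma sch {f : E → ℝ} (hf : IsTest f) : IsSch f :=
  ⟨hf.2.toSchwartzMap hf.1, fun _ => rfl⟩

lemma int_mul {f g : E → ℝ} (hf : IsTest f) (hg : IsTest g) :
    Integrable (fun x => f x * g x) (volume : Measure E) :=
  (hf.1.continuous.mul hg.1.continuous).integrable_of_hasCompactSupport hf.2.mul_right

lemma ibp (i : Fin 5) {f g : E → ℝ} (hf : IsTest f) (hg : IsTest g) :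
    ∫ x, f x * pd i g x = - ∫ x, pd i f x * g x := by
  have h := integral_mul_fderiv_eq_neg_fderiv_mul_of_integrable (μ := (volume : Measure E))
    (f := f) (g := g) (v := EuclideanSpace.single i (1 : ℝ))
    (int_mul (test_pd i hf) hg) (int_mul hf (test_pd i hg)) (int_mul hf hg)
    (fun x _ => (hf.1.differentiable (by simp)) x) (fun x _ => (hg.1.differentiable (by simp)) x)
  exact h

lemma ibp_lap {f g : E → ℝ} (hf : IsTest f) (hg : IsTest g) :
    ∫ x, f x * lap g x = ∫ x, lap f x * g x := by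
  have h1 : ∫ x, f x * lap g x = ∑ i, ∫ x, f x * pd i (pd i g) x := by
    rw [← integral_finsetSum _ fun i _ => int_mul hf (test_pd i (test_pd i hg))]
    refine integral_congr_ae (Eventually.of_forall fun x => ?_)
    simp only [lap, Finset.mul_sum]
  have h2 : ∫ x, lap f x * g x = ∑ i, ∫ x, pd i (pd i f) x * g x := by
    rw [← integral_finsetSum _ fun i _ => int_mul (test_pd i (test_pd i hf)) hg]
    refine integral_congr_ae (Eventually.of_forall fun x => ?_)
    simp only [lap, Finset.sum_mul]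
  rw [h1, h2]
  refine Finset.sum_congr rfl fun i _ => ?_
  rw [ibp i hf (test_pd i hg), ibp i (test_pd i hf) hg, neg_neg]

lemma memLp_test {f : E → ℝ} (hf : IsTest f) (p : ℝ≥0∞) : MemLp f p volume :=
  hf.1.continuous.memLp_of_hasCompactSupport hf.2

lemma FP_test {f g : E → ℝ} (hf : IsTest f) (hg : IsTest g) : FP f g (fun i => pd i f) :=
  ⟨memLp_test hf _, memLp_test hg _, fun i => ⟨memLp_test (test_pd i hf) _, fun _ hφ =>
    ibp i hf hφ⟩⟩

lemma test_sub {f g : E → ℝ} (hf : IsTest f) (hg : IsTest g) : IsTest fun x => f x - g x :=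
  ⟨hf.1.sub hg.1, hf.2.sub hg.2⟩

/-! ### uniqueness of the fields -/

lemma int_loc {f φ : E → ℝ} (hf : LocallyIntegrable f volume) (hφ : IsTest φ) :
    Integrable (fun x => f x * φ x) volume := by
  have h := hf.integrable_smul_left_of_hasCompactSupport hφ.1.continuous hφ.2
  refine h.congr (Eventually.of_forall fun x => ?_)
  simp only [smul_eq_mul]
  ring

lemma ae_of_test {f g : E → ℝ} (hf : LocallyIntegrable f volume) (hg : LocallyIntegrable g volume)
    (h : ∀ φ, IsTest φ → ∫ x, f x * φ x = ∫ x, g x * φ x) : f =ᵐ[volume] g := by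
  refine ae_eq_of_integral_contDiff_smul_eq hf hg fun φ h1 h2 => ?_
  have h3 := h φ ⟨h1, h2⟩
  simp only [smul_eq_mul]
  simp_rw [mul_comm (φ _)]
  exact h3

lemma loc103 {f : E → ℝ} (hf : MemLp f (10 / 3) volume) : LocallyIntegrable f volume := by
  refine hf.locallyIntegrable ?_
  rw [ENNReal.le_div_iff_mul_le (by norm_num) (by norm_num)]
  norm_num

lemma loc2 {f : E → ℝ} (hf : MemLp f 2 volume) : LocallyIntegrable f volume :=
  hf.locallyIntegrable (by norm_num)

lemma uniq {e : K} {u v u' v' : E → ℝ} {G G' : Fin 5 → E → ℝ} (h : FP u v G) (h' : FP u' v' G')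
    (he : IsE e u v) (he' : IsE e u' v') :
    u =ᵐ[volume] u' ∧ v =ᵐ[volume] v' ∧ ∀ i, G i =ᵐ[volume] G' i := by
  have hu : u =ᵐ[volume] u' := ae_of_test (loc103 h.1) (loc103 h'.1) fun φ hφ => by
    have h1 := (he φ hφ).1
    have h2 := (he' φ hφ).1
    linarith
  refine ⟨hu, ?_, ?_⟩
  · refine ae_of_test (loc2 h.2.1) (loc2 h'.2.1) fun φ hφ => ?_
    have h1 := (he φ hφ).2
    have h2 := (he' φ hφ).2
    linarith
  · intro i
    refine ae_of_test (loc2 (h.2.2 i).1) (loc2 (h'.2.2 i).1) fun φ hφ => ?_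
    have h1 := (h.2.2 i).2 φ hφ
    have h2 := (h'.2.2 i).2 φ hφ
    have h3 : ∫ x, u x * pd i φ x = ∫ x, u' x * pd i φ x := by
      refine integral_congr_ae ?_
      filter_upwards [hu] with x hx
      rw [hx]
    linarith

lemma lin {e e' : K} {u v u' v' : E → ℝ} {G G' : Fin 5 → E → ℝ} (c : ℝ) (h : FP u v G)
    (h' : FP u' v' G') (he : IsE e u v) (he' : IsE e' u' v') :
    FP (fun x => u x + c * u' x) (fun x => v x + c * v' x) (fun i x => G i x + c * G' i x) ∧
      IsE (e + c • e') (fun x => u x + c * u' x) (fun x => v x + c * v' x) := by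
  have addint : ∀ {a b φ : E → ℝ}, LocallyIntegrable a volume → LocallyIntegrable b volume →
      IsTest φ → ∫ x, (a x + c * b x) * φ x = (∫ x, a x * φ x) + c * ∫ x, b x * φ x := by
    intro a b φ ha hb hφ
    rw [← integral_const_mul, ← integral_add (int_loc ha hφ) ((int_loc hb hφ).const_mul c)]
    refine integral_congr_ae (Eventually.of_forall fun x => ?_)
    ring
  refine ⟨⟨h.1.add (h'.1.const_mul c), h.2.1.add (h'.2.1.const_mul c), fun i =>
    ⟨(h.2.2 i).1.add ((h'.2.2 i).1.const_mul c), fun φ hφ => ?_⟩⟩, fun φ hφ => ⟨?_, ?_⟩⟩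
  · rw [addint (loc103 h.1) (loc103 h'.1) (test_pd i hφ),
      addint (loc2 (h.2.2 i).1) (loc2 (h'.2.2 i).1) hφ, (h.2.2 i).2 φ hφ, (h'.2.2 i).2 φ hφ]
    ring
  · rw [inner_add_left, real_inner_smul_left, (he φ hφ).1, (he' φ hφ).1,
      addint (loc103 h.1) (loc103 h'.1) hφ]
    ring
  · rw [inner_add_left, real_inner_smul_left, (he φ hφ).2, (he' φ hφ).2,
      addint (loc2 h.2.1) (loc2 h'.2.1) hφ]
    ring

/-! ### the form -/

/-- the data of the construction: fields of all elements -/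
structure Dat where
  u : K → E → ℝ
  v : K → E → ℝ
  G : K → Fin 5 → E → ℝ
  fp : ∀ e, FP (u e) (v e) (G e)
  ie : ∀ e, IsE e (u e) (v e)

lemma exDat (hR : St_EnR) : Nonempty Dat := by
  choose u v G h using hR.2.1
  exact ⟨⟨u, v, G, fun e => (h e).1, fun e => (h e).2⟩⟩

/-- the velocity as an element of `L²` -/
noncomputable def W (D : Dat) (e : K) : Hs := toH (D.v e)

/-- the multiplier as an element of `L²` -/
noncomputable def M (D : Dat) (e : K) : Hs := toH (mult (D.u e) (D.G e))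

lemma W_eq (D : Dat) {e : K} {u v : E → ℝ} {G : Fin 5 → E → ℝ} (h : FP u v G) (he : IsE e u v) :
    W D e = toH v :=
  toH_congr (D.fp e).2.1 h.2.1 (uniq (D.fp e) h (D.ie e) he).2.1

lemma M_eq (hM : ∀ (u v : E → ℝ) (G : Fin 5 → E → ℝ), FP u v G → MemLp (mult u G) 2 volume)
    (D : Dat) {e : K} {u v : E → ℝ} {G : Fin 5 → E → ℝ} (h : FP u v G) (he : IsE e u v) :
    M D e = toH (mult u G) := by
  have h1 := uniq (D.fp e) h (D.ie e) he
  exact toH_congr (hM _ _ _ (D.fp e)) (hM _ _ _ h) (mult_congr h1.1 h1.2.2)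

lemma W_lin (D : Dat) (e e' : K) (c : ℝ) : W D (e + c • e') = W D e + c • W D e' := by
  have h := lin c (D.fp e) (D.fp e') (D.ie e) (D.ie e')
  rw [W_eq D h.1 h.2, toH_lin (D.fp e).2.1 (D.fp e').2.1]
  rfl

lemma M_lin (hM : ∀ (u v : E → ℝ) (G : Fin 5 → E → ℝ), FP u v G → MemLp (mult u G) 2 volume)
    (D : Dat) (e e' : K) (c : ℝ) : M D (e + c • e') = M D e + c • M D e' := by
  have h := lin c (D.fp e) (D.fp e') (D.ie e) (D.ie e')
  have h2 : mult (fun x => D.u e x + c * D.u e' x) (fun i x => D.G e i x + c * D.G e' i x) =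
      fun x => mult (D.u e) (D.G e) x + c * mult (D.u e') (D.G e') x :=
    funext fun x => mult_lin _ _ _ _ _ _
  rw [M_eq hM D h.1 h.2, h2, toH_lin (hM _ _ _ (D.fp e)) (hM _ _ _ (D.fp e'))]
  rfl

lemma c0_pos : 0 < c0 := by
  rw [c0]; positivity

lemma norm_fields (hR : St_EnR) {e : K} {u v : E → ℝ} {G : Fin 5 → E → ℝ} (h : FP u v G)
    (he : IsE e u v) : ‖toH v‖ ≤ ‖e‖ / √c0 ∧ ∀ i, ‖toH (G i)‖ ≤ ‖e‖ / √c0 := by
  have h1 := hR.2.2.1 e e u v u v G G h h he he
  have h2 : ∀ i, ∫ x, G i x * G i x = ‖toH (G i)‖ ^ 2 := by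
    intro i
    rw [sq_toH (h.2.2 i).1]
    refine integral_congr_ae (Eventually.of_forall fun x => ?_)
    ring
  have h3 : ∫ x, v x * v x = ‖toH v‖ ^ 2 := by
    rw [sq_toH h.2.1]
    refine integral_congr_ae (Eventually.of_forall fun x => ?_)
    ring
  rw [real_inner_self_eq_norm_sq, h3] at h1
  simp_rw [h2] at h1
  have hc := c0_pos
  have h4 : 0 ≤ ∑ i, ‖toH (G i)‖ ^ 2 := Finset.sum_nonneg fun i _ => sq_nonneg _
  have key : ∀ a : ℝ, 0 ≤ a → c0 * a ^ 2 ≤ ‖e‖ ^ 2 → a ≤ ‖e‖ / √c0 := by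
    intro a ha hle
    rw [le_div_iff₀ (Real.sqrt_pos.2 hc)]
    have h5 : (a * √c0) ^ 2 ≤ ‖e‖ ^ 2 := by
      rw [mul_pow, Real.sq_sqrt hc.le]
      linarith
    exact le_of_sq_le_sq h5 (norm_nonneg _)
  refine ⟨key _ (norm_nonneg _) ?_, fun i => key _ (norm_nonneg _) ?_⟩
  · rw [h1]
    nlinarith
  · have h5 : ‖toH (G i)‖ ^ 2 ≤ ∑ i, ‖toH (G i)‖ ^ 2 :=
      Finset.single_le_sum (f := fun i => ‖toH (G i)‖ ^ 2) (fun j _ => sq_nonneg _)
        (Finset.mem_univ i)
    rw [h1]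
    have h6 : 0 ≤ ‖toH v‖ ^ 2 := sq_nonneg _
    nlinarith

lemma M_norm (hR : St_EnR) {C : ℝ} (hC : 0 < C)
    (hM : ∀ (u v : E → ℝ) (G : Fin 5 → E → ℝ), FP u v G → MemLp (mult u G) 2 volume ∧
      eLpNorm (mult u G) 2 volume ≤ ENNReal.ofReal C * ∑ i, eLpNorm (G i) 2 volume)
    {e : K} {u v : E → ℝ} {G : Fin 5 → E → ℝ} (h : FP u v G)
    (he : IsE e u v) : ‖toH (mult u G)‖ ≤ 5 * C / √c0 * ‖e‖ := by
  obtain ⟨h1, h2⟩ := hM u v G h
  have h3 := (norm_fields hR h he).2
  have h4 : ‖toH (mult u G)‖ ≤ C * ∑ i, ‖toH (G i)‖ := by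
    rw [norm_toH h1]
    have h5 : ∀ i, ‖toH (G i)‖ = (eLpNorm (G i) 2 volume).toReal := fun i => norm_toH (h.2.2 i).1
    simp_rw [h5]
    have h6 : ∀ i ∈ (Finset.univ : Finset (Fin 5)), eLpNorm (G i) 2 volume ≠ ⊤ :=
      fun i _ => (h.2.2 i).1.eLpNorm_ne_top
    rw [← ENNReal.toReal_sum h6]
    have h7 : ENNReal.ofReal C * ∑ i, eLpNorm (G i) 2 volume ≠ ⊤ :=
      ENNReal.mul_ne_top ENNReal.ofReal_ne_top (ENNReal.sum_ne_top.2 h6)
    have h8 := ENNReal.toReal_mono h7 h2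
    rwa [ENNReal.toReal_mul, ENNReal.toReal_ofReal hC.le] at h8
  refine h4.trans ?_
  have h9 : ∑ i, ‖toH (G i)‖ ≤ ∑ _i : Fin 5, ‖e‖ / √c0 := Finset.sum_le_sum fun i _ => h3 i
  simp only [Finset.sum_const, Finset.card_univ, Fintype.card_fin, nsmul_eq_mul, Nat.cast_ofNat] at h9
  calc C * ∑ i, ‖toH (G i)‖ ≤ C * (5 * (‖e‖ / √c0)) := mul_le_mul_of_nonneg_left h9 hC.le
    _ = 5 * C / √c0 * ‖e‖ := by ring

lemma exForm (hR : St_EnR) (hS : St_MorS) : ∃ Bf : K →L[ℝ] K →L[ℝ] ℝ, (∀ w w', Bf w w' = Bf w' w) ∧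
    ∀ (e e' : K) (u v u' v' : E → ℝ) (G G' : Fin 5 → E → ℝ), FP u v G → FP u' v' G' →
      IsE e u v → IsE e' u' v' →
      Bf e e' = ((∫ x, v x * mult u' G' x) + ∫ x, v' x * mult u G x) / 2 := by
  obtain ⟨C, hC, hS⟩ := hS
  have hM : ∀ (u v : E → ℝ) (G : Fin 5 → E → ℝ), FP u v G → MemLp (mult u G) 2 volume ∧
      eLpNorm (mult u G) 2 volume ≤ ENNReal.ofReal C * ∑ i, eLpNorm (G i) 2 volume :=
    fun u v G h => ⟨(hS u v G h).1, (hS u v G h).2.1⟩
  have hM1 : ∀ (u v : E → ℝ) (G : Fin 5 → E → ℝ), FP u v G → MemLp (mult u G) 2 volume :=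
    fun u v G h => (hM u v G h).1
  obtain ⟨D⟩ := exDat hR
  have hW0 : W D 0 = 0 := by
    have h := W_lin D 0 0 1
    rw [one_smul, add_zero, one_smul] at h
    exact left_eq_add.1 h
  have hM0 : M D 0 = 0 := by
    have h := M_lin hM1 D 0 0 1
    rw [one_smul, add_zero, one_smul] at h
    exact left_eq_add.1 h
  have hWa : ∀ e e', W D (e + e') = W D e + W D e' := fun e e' => by
    have h := W_lin D e e' 1
    rwa [one_smul, one_smul] at h
  have hMa : ∀ e e', M D (e + e') = M D e + M D e' := fun e e' => by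
    have h := M_lin hM1 D e e' 1
    rwa [one_smul, one_smul] at h
  have hWs : ∀ (c : ℝ) e, W D (c • e) = c • W D e := fun c e => by
    have h := W_lin D 0 e c
    rwa [zero_add, hW0, zero_add] at h
  have hMs : ∀ (c : ℝ) e, M D (c • e) = c • M D e := fun c e => by
    have h := M_lin hM1 D 0 e c
    rwa [zero_add, hM0, zero_add] at h
  have hWn : ∀ e, ‖W D e‖ ≤ 1 / √c0 * ‖e‖ := fun e => by
    have h := (norm_fields hR (D.fp e) (D.ie e)).1
    rw [div_eq_mul_one_div, mul_comm] at h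
    exact h
  have hMn : ∀ e, ‖M D e‖ ≤ 5 * C / √c0 * ‖e‖ := fun e => M_norm hR hC hM (D.fp e) (D.ie e)
  have hc : 0 < √c0 := Real.sqrt_pos.2 c0_pos
  let B0 : K →ₗ[ℝ] K →ₗ[ℝ] ℝ := LinearMap.mk₂ ℝ
    (fun e e' => ((inner ℝ (W D e) (M D e') : ℝ) + inner ℝ (W D e') (M D e)) / 2)
    (fun e1 e2 e' => by
      rw [hWa, hMa, inner_add_left, inner_add_right]; ring)
    (fun c e e' => by
      rw [hWs, hMs, real_inner_smul_left, real_inner_smul_right, smul_eq_mul]; ring)
    (fun e e1 e2 => by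
      rw [hWa, hMa, inner_add_left, inner_add_right]; ring)
    (fun c e e' => by
      rw [hWs, hMs, real_inner_smul_left, real_inner_smul_right, smul_eq_mul]; ring)
  have hB0 : ∀ e e', B0 e e' =
      ((inner ℝ (W D e) (M D e') : ℝ) + inner ℝ (W D e') (M D e)) / 2 := fun _ _ => rfl
  have hbd : ∀ e e', ‖B0 e e'‖ ≤ (1 / √c0 * (5 * C / √c0)) * ‖e‖ * ‖e'‖ := by
    intro e e'
    rw [hB0, Real.norm_eq_abs]
    have h1 : |(inner ℝ (W D e) (M D e') : ℝ)| ≤ (1 / √c0 * ‖e‖) * (5 * C / √c0 * ‖e'‖) :=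
      (abs_real_inner_le_norm _ _).trans (mul_le_mul (hWn e) (hMn e') (norm_nonneg _)
        (by positivity))
    have h2 : |(inner ℝ (W D e') (M D e) : ℝ)| ≤ (1 / √c0 * ‖e'‖) * (5 * C / √c0 * ‖e‖) :=
      (abs_real_inner_le_norm _ _).trans (mul_le_mul (hWn e') (hMn e) (norm_nonneg _)
        (by positivity))
    have h3 := abs_add_le (inner ℝ (W D e) (M D e') : ℝ) (inner ℝ (W D e') (M D e))
    rw [abs_div, abs_of_pos (by norm_num : (0 : ℝ) < 2)]
    have h4 : (1 / √c0 * ‖e‖) * (5 * C / √c0 * ‖e'‖) = (1 / √c0 * (5 * C / √c0)) * ‖e‖ * ‖e'‖ := by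
      ring
    have h5 : (1 / √c0 * ‖e'‖) * (5 * C / √c0 * ‖e‖) = (1 / √c0 * (5 * C / √c0)) * ‖e‖ * ‖e'‖ := by
      ring
    rw [h4] at h1
    rw [h5] at h2
    linarith
  refine ⟨LinearMap.mkContinuous₂ B0 _ hbd, fun w w' => ?_, ?_⟩
  · rw [LinearMap.mkContinuous₂_apply, LinearMap.mkContinuous₂_apply, hB0, hB0, add_comm]
  · intro e e' u v u' v' G G' h h' he he'
    rw [LinearMap.mkContinuous₂_apply, hB0, W_eq D h he, W_eq D h' he', M_eq hM1 D h he,
      M_eq hM1 D h' he', inner_toH h.2.1 (hM1 _ _ _ h'), inner_toH h'.2.1 (hM1 _ _ _ h)]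

/-! ### test states -/

/-- the state of a test pair -/
noncomputable def ef (f g : E → ℝ) : K := c0 • (dRk (lap f) - Rk (lap g))

lemma test_unique (hI : Pool.Agent.QWE.St_Iso) {p1 p2 q1 q2 : E → ℝ} (h1 : IsTest p1)
    (h2 : IsTest p2) (h3 : IsTest q1) (h4 : IsTest q2)
    (h : Rk p1 + dRk p2 = Rk q1 + dRk q2) : p1 = q1 ∧ p2 = q2 := by
  have key : ∀ {a b : E → ℝ}, IsTest a → IsTest b →
      (∀ φ, IsTest φ → ∫ x, a x * φ x = ∫ x, b x * φ x) → a = b := by
    intro a b ha hb hab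
    have h5 := ae_of_test ha.1.continuous.locallyIntegrable hb.1.continuous.locallyIntegrable hab
    exact (Continuous.ae_eq_iff_eq volume ha.1.continuous hb.1.continuous).1 h5
  constructor
  · refine key h1 h3 fun φ hφ => ?_
    have e1 := (hI φ p1 (sch hφ) (sch h1)).1
    have e2 := (hI φ q1 (sch hφ) (sch h3)).1
    have e3 := (hI (lap (lap φ)) p2 (sch (test_lap (test_lap hφ))) (sch h2)).2.2
    have e4 := (hI (lap (lap φ)) q2 (sch (test_lap (test_lap hφ))) (sch h4)).2.2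
    have e5 : inner ℝ (Rk (lap (lap φ))) (Rk p1 + dRk p2) =
        (inner ℝ (Rk (lap (lap φ))) (Rk q1 + dRk q2) : ℝ) := by rw [h]
    rw [inner_add_right, inner_add_right, e3, e4, add_zero, add_zero] at e5
    rw [e5] at e1
    have e6 : ∫ x, φ x * p1 x = ∫ x, φ x * q1 x := e1.symm.trans e2
    simp_rw [mul_comm (p1 _), mul_comm (q1 _)]
    exact e6
  · refine key h2 h4 fun φ hφ => ?_
    have e1 := (hI φ p2 (sch hφ) (sch h2)).2.1
    have e2 := (hI φ q2 (sch hφ) (sch h4)).2.1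
    have e3 := (hI p1 (lap φ) (sch h1) (sch (test_lap hφ))).2.2
    have e4 := (hI q1 (lap φ) (sch h3) (sch (test_lap hφ))).2.2
    have e5 : inner ℝ (dRk (lap φ)) (Rk p1 + dRk p2) =
        (inner ℝ (dRk (lap φ)) (Rk q1 + dRk q2) : ℝ) := by rw [h]
    rw [inner_add_right, inner_add_right, real_inner_comm, e3, real_inner_comm (Rk q1), e4,
      zero_add, zero_add] at e5
    rw [e5] at e1
    have e6 : ∫ x, φ x * p2 x = ∫ x, φ x * q2 x := by
      have := e1.symm.trans e2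
      linarith
    simp_rw [mul_comm (p2 _), mul_comm (q2 _)]
    exact e6

lemma inv (hI : Pool.Agent.QWE.St_Iso) (hX : St_FreX) (hEU : St_EnU) (hR : St_EnR) {f g : E → ℝ}
    (hf : IsTest f) (hg : IsTest g) (t : ℝ) :
    ∃ f' g' : E → ℝ, IsTest f' ∧ IsTest g' ∧ tau t (ef f g) = ef f' g' := by
  obtain ⟨a1, a2, ha1, ha2, _, _, hA3, _⟩ := hX f t hf
  obtain ⟨p1, p2, hp1, hp2, hP1, hP2, _, _⟩ := hX (lap f) t (test_lap hf)
  obtain ⟨b1, b2, hb1, hb2, _, _, hB3, _⟩ := hX g t hg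
  obtain ⟨e1, e2⟩ := test_unique hI hp1 hp2 (test_lap ha1) (test_lap ha2) (hP1.symm.trans hA3)
  rw [e1, e2] at hP2
  have hla2 := test_lap ha2
  refine ⟨fun x => a1 x - b2 x, fun x => b1 x - lap a2 x, test_sub ha1 hb2, test_sub hb1 hla2, ?_⟩
  have hT : tau t (ef f g) =
      c0 • ((Rk (lap (lap a2)) + dRk (lap a1)) - (Rk (lap b1) + dRk (lap b2))) := by
    rw [ef, map_smul, map_sub, hP2, hB3]
  have hie := hR.2.2.2.1 (fun x => a1 x - b2 x) (fun x => b1 x - lap a2 x) (test_sub ha1 hb2)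
    (test_sub hb1 hla2)
  rw [← sub_eq_zero]
  refine hEU _ fun φ hφ => ?_
  have hlφ := test_lap hφ
  constructor
  · have i1 := (hI (lap (lap a2)) φ (sch (test_lap hla2)) (sch hφ)).2.2
    have i2 := (hI a1 φ (sch ha1) (sch hφ)).2.1
    have i3 := (hI (lap b1) φ (sch (test_lap hb1)) (sch hφ)).2.2
    have i4 := (hI b2 φ (sch hb2) (sch hφ)).2.1
    have i5 : inner ℝ (ef (fun x => a1 x - b2 x) (fun x => b1 x - lap a2 x)) (dRk φ) =
        - ∫ x, (a1 x - b2 x) * φ x := (hie φ hφ).1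
    have i6 : ∫ x, (a1 x - b2 x) * φ x = (∫ x, a1 x * φ x) - ∫ x, b2 x * φ x := by
      rw [← integral_sub (int_mul ha1 hφ) (int_mul hb2 hφ)]
      refine integral_congr_ae (Eventually.of_forall fun x => ?_)
      ring
    rw [inner_sub_left, i5, hT, real_inner_smul_left, inner_sub_left, inner_add_left,
      inner_add_left, i1, i3, i6]
    linear_combination i2 - i4
  · have i1 := (hI a2 (lap φ) (sch ha2) (sch hlφ)).1
    have i2 := (hI (lap φ) (lap a1) (sch hlφ) (sch (test_lap ha1))).2.2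
    have i3 := (hR.2.2.2.1 b1 b1 hb1 hb1 φ hφ).2
    have i4 := (hI (lap φ) (lap b2) (sch hlφ) (sch (test_lap hb2))).2.2
    have i7 := (hI (lap φ) (lap b1) (sch hlφ) (sch (test_lap hb1))).2.2
    have i5 : inner ℝ (ef (fun x => a1 x - b2 x) (fun x => b1 x - lap a2 x)) (Rk (lap φ)) =
        - ∫ x, (b1 x - lap a2 x) * φ x := (hie φ hφ).2
    have i6 : ∫ x, (b1 x - lap a2 x) * φ x = (∫ x, b1 x * φ x) - ∫ x, lap a2 x * φ x := by
      rw [← integral_sub (int_mul hb1 hφ) (int_mul hla2 hφ)]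
      refine integral_congr_ae (Eventually.of_forall fun x => ?_)
      ring
    have i8 := ibp_lap ha2 hφ
    rw [real_inner_comm] at i2 i4 i7
    rw [real_inner_smul_left, inner_sub_left, i7] at i3
    rw [inner_sub_left, i5, hT, real_inner_smul_left, inner_sub_left, inner_add_left,
      inner_add_left, i2, i4, i6]
    rw [i8] at i1
    linear_combination i1 + i3

lemma deriv0 (hGrp : Pool.Agent.QWE.St_Grp1) (hRadT : Pool.Agent.QWE.St_RadT) {φ : E → ℝ}
    (hφ : IsTest φ) : HasDerivAt (fun t => tau t (Rk φ)) (- dRk φ) 0 ∧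
      HasDerivAt (fun t => tau t (dRk φ)) (- Rk (lap φ)) 0 := by
  have hl := test_lap hφ
  obtain ⟨_, c2, hsup1, hder1, _, e1, e2⟩ := hRadT φ hφ
  obtain ⟨c3, _, hsup2, _, _, e3, _⟩ := hRadT (lap φ) hl
  obtain ⟨M1, hM1⟩ := hφ.2.isCompact.isBounded.subset_closedBall (0 : E)
  obtain ⟨M2, hM2⟩ := hl.2.isCompact.isBounded.subset_closedBall (0 : E)
  have hz : ∀ z : S × ℝ, z.2 - inner ℝ (0 : E) (z.1 : E) = z.2 := fun z => by
    rw [inner_zero_left, sub_zero]
  have hA : ∀ z : S × ℝ, max M1 M2 ≤ |z.2| → Rad φ z = 0 ∧ dRad φ z = 0 := fun z hzz =>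
    hsup1 0 M1 hM1 z (by rw [hz]; exact (le_max_left _ _).trans hzz)
  have hB : ∀ z : S × ℝ, max M1 M2 ≤ |z.2| → Rad (lap φ) z = 0 := fun z hzz =>
    (hsup2 0 M2 hM2 z (by rw [hz]; exact (le_max_right _ _).trans hzz)).1
  have hw1 : HasDerivAt (fun r => tau (-r) (Rk φ)) (tau (-0) (dRk φ)) 0 :=
    Pool.Agent.QWE.WEqx.hasDeriv_tau hGrp e1 e2 c2 (fun z hz => (hA z hz).1)
      (fun z hz => (hA z hz).2) (fun w p => (hder1 w p).1) 0
  have hw2 : HasDerivAt (fun r => tau (-r) (dRk φ)) (tau (-0) (Rk (lap φ))) 0 :=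
    Pool.Agent.QWE.WEqx.hasDeriv_tau hGrp e2 e3 c3 (fun z hz => (hA z hz).2)
      (fun z hz => hB z hz) (fun w p => (hder1 w p).2) 0
  have flip : ∀ {a b : K}, HasDerivAt (fun r => tau (-r) a) (tau (-0) b) 0 →
      HasDerivAt (fun t => tau t a) (- b) 0 := by
    intro a b h
    rw [neg_zero, hGrp.2.1] at h
    have h2 : HasDerivAt (fun r => tau (-r) a) b (-0) := by rw [neg_zero]; exact h
    have h3 := h2.scomp (0 : ℝ) (hasDerivAt_neg (0 : ℝ))
    have h4 : ((fun r => tau (-r) a) ∘ Neg.neg) = fun t => tau t a := by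
      funext t
      simp
    rw [h4] at h3
    simpa using h3
  exact ⟨flip hw1, flip hw2⟩

lemma deriv_ef (hGrp : Pool.Agent.QWE.St_Grp1) (hRadT : Pool.Agent.QWE.St_RadT) {f g : E → ℝ}
    (hf : IsTest f) (hg : IsTest g) : HasDerivAt (fun t => tau t (ef f g)) (ef g (lap f)) 0 := by
  have h1 := (deriv0 hGrp hRadT (test_lap hf)).2
  have h2 := (deriv0 hGrp hRadT (test_lap hg)).1
  have h3 := (h1.sub h2).const_smul c0
  have h4 : (c0 • ((fun t => tau t (dRk (lap f))) - fun t => tau t (Rk (lap g)))) =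
      fun t => tau t (ef f g) := by
    funext t
    simp only [Pi.smul_apply, Pi.sub_apply]
    rw [ef, map_smul, map_sub]
  rw [h4] at h3
  refine h3.congr_deriv ?_
  rw [ef]
  congr 1
  abel

/-! ### the static inequalities -/

open Pool.Agent.QWE.MorIx (rr rr_sq rr_smooth eb hd_of_diff pd_eq_of_hd hd_coord hd_rr int_pd mm S1 test_ineq supp_of cont_coord norm_sq)

lemma mult_eq (f : E → ℝ) : mult f (fun i => pd i f) = mm f := by
  funext x
  unfold mult mm S1 rr
  have h : √(1 + ‖x‖ ^ 2) ≠ 0 := by positivity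
  field_simp

lemma pd_smul {f : E → ℝ} (hf : Differentiable ℝ f) (c : ℝ) (i : Fin 5) :
    pd i (fun x => c * f x) = fun x => c * pd i f x := by
  funext x
  unfold pd
  rw [fderiv_const_mul (hf x)]
  rfl

lemma static1 {f : E → ℝ} (hf : IsTest f) : ∫ x, lap f x * mm f x ≤ 0 := by
  have hd : Differentiable ℝ f := hf.1.differentiable (by simp)
  have hdi : ∀ i, Differentiable ℝ (pd i f) := fun i => (test_pd i hf).1.differentiable (by simp)
  have hmc := Pool.Agent.QWE.MorIx.mm_cont hf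
  have hms := Pool.Agent.QWE.MorIx.mm_supp hf
  have hlc := Pool.Agent.QWE.MorIx.lap_cont hf
  have hrc := rr_smooth.continuous
  have hfc := hf.1.continuous
  have iA : Integrable (fun x => lap f x * mm f x) volume :=
    (hlc.mul hmc).integrable_of_hasCompactSupport hms.mul_left
  have iB : Integrable (fun x => 4 / 3 * (f x ^ 5 * (rr x * f x)) - f x ^ 5 * mm f x) volume := by
    refine Continuous.integrable_of_hasCompactSupport (by fun_prop) ?_
    refine supp_of hf fun x h0 h1 => ?_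
    unfold mm S1
    simp [h0, h1]
  obtain ⟨A, hA⟩ : ∃ A : ℝ, A = ∫ x, lap f x * mm f x := ⟨_, rfl⟩
  obtain ⟨B, hB⟩ : ∃ B : ℝ, B = ∫ x, (4 / 3 * (f x ^ 5 * (rr x * f x)) - f x ^ 5 * mm f x) :=
    ⟨_, rfl⟩
  have key : ∀ ε : ℝ, 0 < ε → A + ε ^ 4 * B ≤ 0 := by
    intro ε hε
    have ht : IsTest fun x => ε * f x := ⟨contDiff_const.mul hf.1, hf.2.mul_left⟩
    have h1 := test_ineq ht
    have e1 : ∀ x, lap (fun x => ε * f x) x = ε * lap f x := by
      intro x
      unfold lap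
      rw [Finset.mul_sum]
      refine Finset.sum_congr rfl fun i _ => ?_
      rw [pd_smul hd, pd_smul (hdi i)]
    have e2 : ∀ x, mm (fun x => ε * f x) x = ε * mm f x := by
      intro x
      unfold mm S1
      have e3 : ∑ i, x i * pd i (fun x => ε * f x) x = ε * ∑ i, x i * pd i f x := by
        rw [Finset.mul_sum]
        refine Finset.sum_congr rfl fun i _ => ?_
        rw [pd_smul hd]
        ring
      rw [e3]
      ring
    have e4 : ∫ x, ((lap (fun x => ε * f x) x - (ε * f x) ^ 5) * mm (fun x => ε * f x) x +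
        4 / 3 * ((ε * f x) ^ 5 * (rr x * (ε * f x)))) = ε ^ 2 * (A + ε ^ 4 * B) := by
      rw [hA, hB, ← integral_const_mul, ← integral_add iA (iB.const_mul _), ← integral_const_mul]
      refine integral_congr_ae (Eventually.of_forall fun x => ?_)
      simp only
      rw [e1, e2]
      ring
    rw [e4] at h1
    have h2 : 0 < ε ^ 2 := by positivity
    by_contra hcon
    push Not at hcon
    have := mul_pos h2 hcon
    linarith
  rw [← hA]
  have h1 : Tendsto (fun n : ℕ => A + (1 / ((n : ℝ) + 1)) ^ 4 * B) atTop (𝓝 (A + 0 ^ 4 * B)) := by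
    refine tendsto_const_nhds.add (Tendsto.mul_const B ?_)
    exact (tendsto_one_div_add_atTop_nhds_zero_nat (𝕜 := ℝ)).pow 4
  have h2 := le_of_tendsto' h1 fun n => key (1 / ((n : ℝ) + 1)) (by positivity)
  simpa using h2

lemma static2 {g : E → ℝ} (hg : IsTest g) : ∫ x, g x * mm g x = 0 := by
  have hd : Differentiable ℝ g := hg.1.differentiable (by simp)
  have hsm : ∀ j : Fin 5, ContDiff ℝ ((⊤ : ℕ∞) : WithTop ℕ∞) (fun x : E => x j * rr x * g x ^ 2 / 2) :=
    fun j => (((cont_coord j).mul rr_smooth).mul (hg.1.pow 2)).div_const 2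
  have hsu : ∀ j : Fin 5, HasCompactSupport (fun x : E => x j * rr x * g x ^ 2 / 2) :=
    fun j => supp_of hg fun x h0 _ => by simp [h0]
  have hpd : ∀ (j : Fin 5) (x : E), pd j (fun x : E => x j * rr x * g x ^ 2 / 2) x =
      (rr x + x j * (-x j * rr x ^ 3)) * g x ^ 2 / 2 + x j * rr x * (2 * g x * pd j g x) / 2 := by
    intro j x
    have hx0 : x + (0 : ℝ) • eb j = x := by rw [zero_smul, add_zero]
    refine pd_eq_of_hd ((hsm j).differentiable (by simp)) j x _ ?_
    have hfd := hd_of_diff hd j x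
    have hr := hd_rr j x
    have hxj : HasDerivAt (fun t : ℝ => (x + t • eb j) j) 1 0 := by
      have := hd_coord j j x
      simpa using this
    have t := ((hxj.fun_mul hr).fun_mul (hfd.fun_pow 2)).div_const 2
    refine t.congr_deriv ?_
    rw [hx0]
    norm_num
    ring
  have hint : ∀ j : Fin 5, Integrable (fun x => pd j (fun x : E => x j * rr x * g x ^ 2 / 2) x) volume := by
    intro j
    have hc : Continuous (fun x => pd j (fun x : E => x j * rr x * g x ^ 2 / 2) x) := by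
      unfold pd
      exact ((hsm j).continuous_fderiv (by simp)).clm_apply continuous_const
    exact hc.integrable_of_hasCompactSupport ((hsu j).fderiv_apply ℝ _)
  have e1 : ∫ x, g x * mm g x = ∫ x, ∑ j, pd j (fun x : E => x j * rr x * g x ^ 2 / 2) x := by
    refine integral_congr_ae (Eventually.of_forall fun x => ?_)
    simp only
    rw [Finset.sum_congr rfl fun j _ => hpd j x]
    have h1 := rr_sq x
    rw [norm_sq] at h1
    unfold mm S1
    simp only [Fin.sum_univ_five] at h1 ⊢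
    linear_combination (g x ^ 2 * rr x / 2) * h1
  rw [e1, integral_finsetSum _ fun j _ => hint j]
  refine Finset.sum_eq_zero fun j _ => ?_
  exact int_pd ((hsm j).of_le (by simp)) (hsu j) j

end MorFx

open MorFx in
/-- **MorF** (the Morawetz form on the energy space decreases along the free flow). -/
theorem thm_MorF (hGrp : Pool.Agent.QWE.St_Grp1) (hRadT : Pool.Agent.QWE.St_RadT)
    (hI : Pool.Agent.QWE.St_Iso) (hX : St_FreX) (hEU : St_EnU) (hR : St_EnR) (hS : St_MorS) :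
    St_MorF := by
  obtain ⟨Bf, hsym, hform⟩ := exForm hR hS
  refine ⟨Bf, hsym, ?_, hform⟩
  have hie : ∀ {f g : E → ℝ}, IsTest f → IsTest g → IsE (ef f g) f g := fun hf hg =>
    hR.2.2.2.1 _ _ hf hg
  -- derivative at test states
  have hder : ∀ (f g : E → ℝ), IsTest f → IsTest g → ∀ t : ℝ, ∃ d : ℝ, d ≤ 0 ∧
      HasDerivAt (fun t => Bf (tau t (ef f g)) (tau t (ef f g))) d t := by
    intro f g hf hg t
    obtain ⟨f', g', hf', hg', hT⟩ := inv hI hX hEU hR hf hg t
    have h1 : HasDerivAt (fun h => tau h (ef f' g')) (ef g' (lap f')) (t - t) := by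
      rw [sub_self]
      exact deriv_ef hGrp hRadT hf' hg'
    have h2 := h1.comp_sub_const t t
    have h3 : (fun s => tau (s - t) (ef f' g')) = fun s => tau s (ef f g) := by
      funext s
      rw [← hT, hGrp.1, sub_add_cancel]
    rw [h3] at h2
    have h4 := (Bf.hasFDerivAt.comp_hasDerivAt t h2).clm_apply h2
    refine ⟨_, ?_, h4⟩
    have hlf := test_lap hf'
    have e1 := hform (ef f' g') (ef g' (lap f')) f' g' g' (lap f') (fun i => pd i f')
      (fun i => pd i g') (FP_test hf' hg') (FP_test hg' hlf) (hie hf' hg') (hie hg' hlf)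
    have e2 := static1 hf'
    have e3 := static2 hg'
    rw [mult_eq, mult_eq, e3, zero_add] at e1
    simp only [Function.comp_apply]
    rw [hT, hsym (ef g' (lap f')) (ef f' g'), e1]
    linarith
  have htest : ∀ (f g : E → ℝ), IsTest f → IsTest g → ∀ t : ℝ, 0 ≤ t →
      Bf (tau t (ef f g)) (tau t (ef f g)) ≤ Bf (ef f g) (ef f g) := by
    intro f g hf hg t ht
    choose d hd0 hd using hder f g hf hg
    have hanti := antitone_of_hasDerivAt_nonpos (f' := d) hd hd0
    have h1 := hanti ht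
    simp only at h1
    rwa [hGrp.2.1] at h1
  intro w t ht
  have hcl : IsClosed {w : K | Bf (tau t w) (tau t w) ≤ Bf w w} := by
    refine isClosed_le ?_ ?_
    · exact (Bf.continuous.comp (tau t).continuous).clm_apply (tau t).continuous
    · exact Bf.continuous.clm_apply continuous_id
  have hmem : w ∈ closure {w : K | Bf (tau t w) (tau t w) ≤ Bf w w} := by
    rw [Metric.mem_closure_iff]
    intro ε hε
    obtain ⟨f, g, hf, hg, hfg⟩ := hR.2.2.2.2 w ε hε
    refine ⟨ef f g, htest f g hf hg t ht, ?_⟩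
    rw [dist_eq_norm]
    exact hfg
  rw [hcl.closure_eq] at hmem
  exact hmem

end Pool.Agent.QWP
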