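import Pool.Agent.QWP.StA

set_option autoImplicit false

/-!
# QWP, MulP: the multiplication operators
-/

open MeasureTheory Filter Topology Set
open scoped ENNReal NNReal RealInnerProductSpace

namespace Pool.Agent.QWP

open Pool.Agent.QWE (E S sg mu K toK tau sh dl rev gr ig IsTest pd lap Rad dRad Rk dRk c0 WD Sm SmE IsSch half shr WTo)

namespace MulPx

/-! ### Nice functions -/

theorem nice_zero : Nice univ (fun _ : S × ℝ => (0 : ℝ)) :=
  ⟨fun _ => 0, contDiff_const, ⟨0, fun _ _ _ => rfl⟩, fun _ => rfl, subset_univ _⟩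

theorem nice_add {h h' : S × ℝ → ℝ} (H : Nice univ h) (H' : Nice univ h') :
    Nice univ (fun z => h z + h' z) := by
  obtain ⟨g, hg, ⟨M, hM⟩, hh, -⟩ := H
  obtain ⟨g', hg', ⟨M', hM'⟩, hh', -⟩ := H'
  refine ⟨fun x => g x + g' x, hg.add hg', ⟨max M M', fun x p hp => ?_⟩, fun z => ?_, subset_univ _⟩
  · change g (x, p) + g' (x, p) = 0
    rw [hM x p ((le_max_left _ _).trans hp), hM' x p ((le_max_right _ _).trans hp), add_zero]
  · change h z + h' z = g ((z.1 : E), z.2) + g' ((z.1 : E), z.2)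
    rw [hh, hh']

theorem nice_smul {h : S × ℝ → ℝ} (c : ℝ) (H : Nice univ h) :
    Nice univ (fun z => c * h z) := by
  obtain ⟨g, hg, ⟨M, hM⟩, hh, -⟩ := H
  refine ⟨fun x => c * g x, contDiff_const.mul hg, ⟨M, fun x p hp => ?_⟩, fun z => ?_,
    subset_univ _⟩
  · change c * g (x, p) = 0
    rw [hM x p hp, mul_zero]
  · change c * h z = c * g ((z.1 : E), z.2)
    rw [hh]

theorem nice_mul {h : S × ℝ → ℝ} {η : ℝ → ℝ} {A : Set (S × ℝ)} (hη : Sm η) (H : Nice univ h)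
    (hA : closure {z : S × ℝ | η z.2 ≠ 0} ⊆ A) : Nice A (fun z => η z.2 * h z) := by
  obtain ⟨g, hg, ⟨M, hM⟩, hh, -⟩ := H
  refine ⟨fun x => η x.2 * g x, ?_, ⟨M, fun x p hp => ?_⟩, fun z => ?_, ?_⟩
  · exact (ContDiff.comp (g := η) hη contDiff_snd).mul hg
  · change η p * g (x, p) = 0
    rw [hM x p hp, mul_zero]
  · change η z.2 * h z = η z.2 * g ((z.1 : E), z.2)
    rw [hh]
  · refine (closure_mono ?_).trans hA
    intro z hz
    have hz' : η z.2 * h z ≠ 0 := hz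
    exact left_ne_zero_of_mul hz'

theorem nice_mul_univ {h : S × ℝ → ℝ} {η : ℝ → ℝ} (hη : Sm η) (H : Nice univ h) :
    Nice univ (fun z => η z.2 * h z) := nice_mul hη H (subset_univ _)

theorem nice_shift {h : S × ℝ → ℝ} (t : ℝ) (H : Nice univ h) :
    Nice univ (fun z => h (z.1, z.2 + t)) := by
  obtain ⟨g, hg, ⟨M, hM⟩, hh, -⟩ := H
  refine ⟨fun x => g (x.1, x.2 + t), ?_, ⟨M + |t|, fun x p hp => ?_⟩, fun z => ?_, subset_univ _⟩
  · refine hg.comp ?_
    exact contDiff_fst.prodMk (contDiff_snd.add contDiff_const)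
  · change g (x, p + t) = 0
    refine hM x (p + t) ?_
    have h1 : |p| ≤ |p + t| + |t| := by
      have := abs_sub (p + t) t
      rwa [add_sub_cancel_right] at this
    linarith
  · change h (z.1, z.2 + t) = g ((z.1 : E), z.2 + t)
    rw [hh]

/-- the space of nice functions -/
def NM : Submodule ℝ (S × ℝ → ℝ) where
  carrier := {h | Nice univ h}
  zero_mem' := nice_zero
  add_mem' := fun H H' => nice_add H H'
  smul_mem' := fun c _ H => nice_smul c H

/-- the map `h ↦ JK s (η h)` -/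
noncomputable def Jl (hPJ : St_PJ) (s : ℝ) (hs : |s| < 1 / 2) (η : ℝ → ℝ) (hη : Sm η) :
    NM →ₗ[ℝ] K where
  toFun h := JK s (fun z => η z.2 * h.1 z)
  map_add' h h' := by
    have h1 := ((((hPJ s hs).1 _ (nice_mul_univ hη h.2)).2.2.2.2.2.2.2.1) _
      (nice_mul_univ hη h'.2)).1
    rw [← h1]
    congr 1
    funext z
    change η z.2 * (h.1 z + h'.1 z) = _
    ring
  map_smul' c h := by
    have h1 := ((hPJ s hs).1 _ (nice_mul_univ hη h.2)).2.2.2.2.2.2.1 c
    rw [RingHom.id_apply, ← h1]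
    congr 1
    funext z
    change η z.2 * (c * h.1 z) = _
    ring

theorem Jl_apply (hPJ : St_PJ) (s : ℝ) (hs : |s| < 1 / 2) (η : ℝ → ℝ) (hη : Sm η)
    (h : S × ℝ → ℝ) (H : Nice univ h) : Jl hPJ s hs η hη ⟨h, H⟩ = JK s (fun z => η z.2 * h z) :=
  rfl

theorem sm_one : Sm (fun _ : ℝ => (1 : ℝ)) := contDiff_const

theorem dense_JK (hPJ : St_PJ) (hD : St_DnsP) (s : ℝ) (hs : |s| < 1 / 2) :
    DenseRange (Jl hPJ s hs (fun _ => 1) sm_one) := by
  have h1 := (hD s hs).2.2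
  have h2 : Submodule.span ℝ {w | ∃ h, Nice univ h ∧ w = JK s h} ≤
      LinearMap.range (Jl hPJ s hs (fun _ => 1) sm_one) := by
    rw [Submodule.span_le]
    rintro w ⟨h, H, rfl⟩
    refine ⟨⟨h, H⟩, ?_⟩
    rw [Jl_apply]
    congr 1
    funext z
    rw [one_mul]
  have h3 : Dense ((Submodule.span ℝ {w : K | ∃ h, Nice univ h ∧ w = JK s h} : Submodule ℝ K) :
      Set K) := by
    rw [Submodule.dense_iff_topologicalClosure_eq_top]
    exact h1
  exact h3.mono h2

/-- uniqueness -/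
theorem ext_JK (hD : St_DnsP) (s : ℝ) (hs : |s| < 1 / 2) {a b : K}
    (h : ∀ h, Nice univ h → inner ℝ a (JK s h) = inner ℝ b (JK s h)) : a = b := by
  have h1 := (hD s hs).2.2
  have h2 : Submodule.span ℝ {w : K | ∃ h, Nice univ h ∧ w = JK s h} ≤ (ℝ ∙ (a - b))ᗮ := by
    rw [Submodule.span_le]
    rintro w ⟨f, H, rfl⟩
    rw [SetLike.mem_coe, Submodule.mem_orthogonal_singleton_iff_inner_right, inner_sub_left,
      h f H, sub_self]
  have h3 : (⊤ : Submodule ℝ K) ≤ (ℝ ∙ (a - b))ᗮ := by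
    rw [← h1]
    exact Submodule.topologicalClosure_minimal _ h2 (Submodule.isClosed_orthogonal _)
  have h4 : a - b ∈ (ℝ ∙ (a - b))ᗮ := h3 trivial
  rw [Submodule.mem_orthogonal_singleton_iff_inner_right] at h4
  exact sub_eq_zero.1 (inner_self_eq_zero.1 h4)

theorem mul_unique (hD : St_DnsP) (s : ℝ) (hs : |s| < 1 / 2) {η : ℝ → ℝ} {M M' : K →L[ℝ] K}
    (h : IsMul s η M) (h' : IsMul s η M') : M = M' := by
  ext1 k
  exact ext_JK hD s hs fun f hf => by rw [h k f hf, h' k f hf]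

theorem mul_spec {s : ℝ} {η : ℝ → ℝ} (h : ∃ M, IsMul s η M) : IsMul s η (Mul s η) := by
  rw [Mul, dif_pos h]
  exact h.choose_spec

theorem mul_eq (hD : St_DnsP) (s : ℝ) (hs : |s| < 1 / 2) {η : ℝ → ℝ} {M : K →L[ℝ] K}
    (h : IsMul s η M) : Mul s η = M := mul_unique hD s hs (mul_spec ⟨M, h⟩) h

/-- existence, with the bound -/
theorem exists_mul (hPJ : St_PJ) (hD : St_DnsP) (s : ℝ) (hs : |s| < 1 / 2) (η : ℝ → ℝ)
    (hη : Sm η) (C : ℝ) (hC : 0 < C)
    (hb : ∀ h, Nice univ h → ‖JK s (fun z => η z.2 * h z)‖ ≤ C * ‖JK s h‖) :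
    ∃ M : K →L[ℝ] K, IsMul s η M ∧ ∀ k, ‖M k‖ ≤ C * ‖k‖ := by
  have hone : ∀ h : S × ℝ → ℝ, ∀ H : Nice univ h,
      Jl hPJ s hs (fun _ => 1) sm_one ⟨h, H⟩ = JK s h := by
    intro h H
    rw [Jl_apply]
    congr 1
    funext z
    rw [one_mul]
  have hnorm : ∀ x : NM, ‖Jl hPJ s hs η hη x‖ ≤ C * ‖Jl hPJ s hs (fun _ => 1) sm_one x‖ := by
    rintro ⟨h, H⟩
    have e1 := hone h H
    have e2 := hb h H
    rw [← e1] at e2
    exact e2
  have hdense := dense_JK hPJ hD s hs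
  have hT1 : ∀ h : S × ℝ → ℝ, Nice univ h →
      (Jl hPJ s hs η hη).extendOfNorm (Jl hPJ s hs (fun _ => 1) sm_one) (JK s h) =
        JK s (fun z => η z.2 * h z) := by
    intro h H
    have := LinearMap.extendOfNorm_eq (f := Jl hPJ s hs η hη) hdense ⟨C, hnorm⟩ ⟨h, H⟩
    rwa [hone, Jl_apply] at this
  have hT2 := LinearMap.opNorm_extendOfNorm_le (f := Jl hPJ s hs η hη) hdense hC.le hnorm
  generalize (Jl hPJ s hs η hη).extendOfNorm (Jl hPJ s hs (fun _ => 1) sm_one) = T at hT1 hT2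
  refine ⟨ContinuousLinearMap.adjoint T, ?_, ?_⟩
  · intro k h H
    rw [ContinuousLinearMap.adjoint_inner_left, hT1 h H]
  · intro k
    refine (ContinuousLinearMap.le_opNorm _ _).trans ?_
    rw [LinearIsometryEquiv.norm_map]
    gcongr

theorem sm_sc {ζ : ℝ → ℝ} (hζ : Sm ζ) (R c : ℝ) : Sm (fun p => ζ ((p - c) / R)) :=
  ContDiff.comp (g := ζ) hζ ((contDiff_id.sub contDiff_const).div_const R)

/-- the inner product of a translate with a nice state -/
theorem tau_inner (hPJ : St_PJ) (s : ℝ) (hs : |s| < 1 / 2) (t : ℝ) (a : K) {h : S × ℝ → ℝ}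
    (H : Nice univ h) :
    inner ℝ (tau t a) (JK s h) = inner ℝ a (JK s (fun z => h (z.1, z.2 + t))) := by
  have h1 := ((hPJ s hs).1 _ (nice_shift t H)).2.2.2.1 t
  have h2 : (fun z : S × ℝ => h (z.1, z.2 - t + t)) = h := by
    funext z
    rw [sub_add_cancel]
  have h3 : tau t (JK s (fun z => h (z.1, z.2 + t))) = JK s h := by
    rw [h1]
    change JK s (fun z : S × ℝ => h (z.1, z.2 - t + t)) = JK s h
    rw [h2]
  rw [← h3, LinearIsometry.inner_map_map]

end MulPx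

open MulPx in
theorem thm_MulP (hPJ : St_PJ) (hD : St_DnsP) (hB : St_MulB) : St_MulP := by
  intro s ζ hs hζ hζc
  -- existence for all smooth `ζ`
  have key : ∀ ζ : ℝ → ℝ, Sm ζ → HasCompactSupport (deriv ζ) → ∃ C : ℝ, 0 < C ∧ ∀ (R c : ℝ),
      0 < R → IsMul s (fun p => ζ ((p - c) / R)) (Mul s (fun p => ζ ((p - c) / R))) ∧
      ∀ k : K, ‖Mul s (fun p => ζ ((p - c) / R)) k‖ ≤ C * ‖k‖ := by
    intro ζ hζ hζc
    obtain ⟨C, hC, hb⟩ := hB s ζ hs hζ hζc
    refine ⟨C, hC, fun R c hR => ?_⟩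
    obtain ⟨M, hM1, hM2⟩ := exists_mul hPJ hD s hs (fun p => ζ ((p - c) / R)) (sm_sc hζ R c) C hC
      (fun h H => hb R c h hR H)
    have h1 : Mul s (fun p => ζ ((p - c) / R)) = M := mul_eq hD s hs hM1
    rw [h1]
    exact ⟨hM1, hM2⟩
  have key1 : ∀ ζ : ℝ → ℝ, Sm ζ → HasCompactSupport (deriv ζ) → IsMul s ζ (Mul s ζ) := by
    intro ζ hζ hζc
    obtain ⟨C, hC, h⟩ := key ζ hζ hζc
    have h1 := (h 1 0 one_pos).1
    have h2 : (fun p : ℝ => ζ ((p - 0) / 1)) = ζ := by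
      funext p
      rw [sub_zero, div_one]
    rwa [h2] at h1
  have keyt : ∀ t : ℝ, IsMul s (fun p => ζ (p + t)) (Mul s (fun p => ζ (p + t))) := by
    intro t
    obtain ⟨C, hC, h⟩ := key ζ hζ hζc
    have h1 := (h 1 (-t) one_pos).1
    have h2 : (fun p : ℝ => ζ ((p - -t) / 1)) = fun p => ζ (p + t) := by
      funext p
      rw [sub_neg_eq_add, div_one]
    rwa [h2] at h1
  refine ⟨?_, key1 ζ hζ hζc, ?_, ?_, ?_, ?_⟩
  · obtain ⟨C, hC, h⟩ := key ζ hζ hζc
    refine ⟨C, hC, fun R c hR => ⟨(h R c hR).1, fun k => ⟨(h R c hR).2 k, fun A hA => ?_⟩⟩⟩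
    have h1 : Mul s (fun p => ζ ((p - c) / R)) (k - (PS s A).starProjection k) = 0 := by
      refine ext_JK hD s hs fun f hf => ?_
      rw [(h R c hR).1 _ f hf, inner_zero_left]
      have h2 : JK s (fun z => ζ ((z.2 - c) / R) * f z) ∈ PS s A :=
        Submodule.le_topologicalClosure _ (Submodule.subset_span
          ⟨_, nice_mul (η := fun p => ζ ((p - c) / R)) (sm_sc hζ R c) hf hA, rfl⟩)
      have h3 := Submodule.sub_starProjection_mem_orthogonal (K := PS s A) k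
      rw [Submodule.mem_orthogonal'] at h3
      exact h3 _ h2
    rw [map_sub, sub_eq_zero] at h1
    rw [h1]
    exact (h R c hR).2 _
  · intro t k
    refine ext_JK hD s hs fun f hf => ?_
    rw [key1 ζ hζ hζc _ f hf, tau_inner hPJ s hs t k (nice_mul_univ hζ hf),
      tau_inner hPJ s hs t _ hf, keyt t k _ (nice_shift t hf)]
  · intro k
    have h1 : IsMul s (fun p => 1 - ζ p) (ContinuousLinearMap.id ℝ K - Mul s ζ) := by
      intro k h H
      have h2 := key1 ζ hζ hζc k h H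
      have h3 : JK s h = JK s (fun z => (1 - ζ z.2) * h z) + JK s (fun z => ζ z.2 * h z) := by
        have h4 : Nice univ (fun z : S × ℝ => (1 - ζ z.2) * h z) :=
          nice_mul_univ (η := fun p => 1 - ζ p) (contDiff_const.sub hζ) H
        have h5 := (((hPJ s hs).1 _ h4).2.2.2.2.2.2.2.1 _ (nice_mul_univ hζ H)).1
        rw [← h5]
        congr 1
        funext z
        ring
      rw [_root_.sub_apply, ContinuousLinearMap.id_apply, inner_sub_left, h2]
      nth_rewrite 1 [h3]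
      rw [inner_add_right, add_sub_cancel_right]
    rw [mul_eq hD s hs h1]
    rfl
  · intro k
    have h1 : IsMul s (fun _ => 1) (ContinuousLinearMap.id ℝ K) := by
      intro k h H
      have h2 : (fun z : S × ℝ => 1 * h z) = h := by
        funext z
        rw [one_mul]
      rw [h2]
      rfl
    rw [mul_eq hD s hs h1]
    rfl
  · intro ζ' hζ' hζc' k
    have h1 : IsMul s (fun p => ζ p + ζ' p) (Mul s ζ + Mul s ζ') := by
      intro k h H
      have h5 := (((hPJ s hs).1 _ (nice_mul_univ hζ H)).2.2.2.2.2.2.2.1 _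
        (nice_mul_univ hζ' H)).1
      have h6 : (fun z : S × ℝ => (ζ z.2 + ζ' z.2) * h z) =
          fun z => ζ z.2 * h z + ζ' z.2 * h z := by
        funext z
        ring
      rw [h6, h5, _root_.add_apply, inner_add_left, inner_add_right,
        key1 ζ hζ hζc k h H, key1 ζ' hζ' hζc' k h H]
    rw [mul_eq hD s hs h1]
    rfl

end Pool.Agent.QWP
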