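import Pool.Agent.QWP.StA2
import Pool.Agent.QWE.NF1

/-!
# QWP NF1P (MP_9ce95b_an): near field, unit scale, smooth sources (helper66)
-/

set_option autoImplicit false

open MeasureTheory Filter Topology Set
open scoped ENNReal NNReal RealInnerProductSpace

namespace Pool.Agent.QWP

open Pool.Agent.QWE (E S sg mu K toK tau sh dl rev gr ig IsTest pd lap Rad dRad Rk dRk c0 WD Sm SmE IsSch half shr WTo Kc Sph kap IsMol)

namespace NF1Px

/-- the span which defines `TS s Ω` -/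
noncomputable def sp (s : ℝ) (Ω : Set E) : Submodule ℝ K :=
  Submodule.span ℝ {w | ∃ φ, IsTest φ ∧ tsupport φ ⊆ Ω ∧ (w = Rs s φ ∨ w = dRs s φ)}

lemma ex_le {s : ℝ} {Ω : Set E} {k : K} {c : ℝ} (hc : 0 ≤ c)
    (h : ∀ w ∈ sp s Ω, |inner ℝ k w| ≤ c * ‖w‖) : ex s Ω k ≤ c := by
  have h1 : ∀ w ∈ TS s Ω, |inner ℝ k w| ≤ c * ‖w‖ := by
    intro w hw
    have hcl : IsClosed {w : K | |inner ℝ k w| ≤ c * ‖w‖} :=
      isClosed_le (by fun_prop) (by fun_prop)
    have hsub : ((sp s Ω : Submodule ℝ K) : Set K) ⊆ {w : K | |inner ℝ k w| ≤ c * ‖w‖} :=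
      fun w hw => h w hw
    exact hcl.closure_subset_iff.2 hsub hw
  have hmem : pr s Ω k ∈ TS s Ω := Submodule.starProjection_apply_mem _ _
  have h2 := h1 _ hmem
  have h3 : inner ℝ (k - pr s Ω k) (pr s Ω k) = 0 :=
    Submodule.starProjection_inner_eq_zero _ _ hmem
  rw [inner_sub_left, real_inner_self_eq_norm_sq] at h3
  have h4 : ‖pr s Ω k‖ ^ 2 ≤ c * ‖pr s Ω k‖ := by
    have := le_abs_self (inner ℝ k (pr s Ω k))
    linarith
  unfold ex
  rcases (norm_nonneg (pr s Ω k)).eq_or_lt with h5 | h5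
  · rw [← h5]
    exact hc
  · rw [sq] at h4
    exact le_of_mul_le_mul_right h4 h5

end NF1Px

open NF1Px in
theorem thm_NF1P (hA : Pool.Agent.QWE.St_NFa) (hT : St_NFt) (hC : St_NFc) (hD : St_DyS) :
    St_NF1P := by
  intro s θ hs hθ hθ1 hθ0
  obtain ⟨C, hC0, hC1⟩ := hC θ hθ hθ1 hθ0
  obtain ⟨D, hD0, hD1⟩ := hD s hs
  refine ⟨D * C, mul_pos hD0 hC0, fun F σ hF hF0 hσ0 hσ1 => ?_⟩
  choose φ hφ using fun n : ℕ => Pool.Agent.QWE.NF1x.exists_mol (r := 1 / (n + 100 : ℝ)) (by positivity)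
  have hφ' : ∀ n, IsMol (1 / 100) (φ n) := fun n => Pool.Agent.QWE.NF1x.mol_mono (by
    apply one_div_le_one_div_of_le (by norm_num)
    have : (0 : ℝ) ≤ n := Nat.cast_nonneg n
    linarith) (hφ n)
  have hI : 0 ≤ ∫ x, |F x| := integral_nonneg fun _ => abs_nonneg _
  choose f g hf hg hfg hb using fun n => hC1 F σ (φ n) hF hF0 hσ0 hσ1 (hφ' n)
  choose W hW hWi using fun n => hD1 (f n) (g n) (C * ∫ x, |F x|) (hf n) (hg n)
    (mul_nonneg hC0.le hI) (hb n)
  obtain ⟨-, hlim⟩ := hA θ F σ hθ hθ1 hθ0 hF hF0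
  have hlim' : ∀ w ∈ sp s (Pool.Agent.QWE.ext 0 1),
      Tendsto (fun n => inner ℝ (W n) w) atTop
        (𝓝 (inner ℝ (Mul s θ (tau (-σ) (Gam s F))) w)) := by
    intro w hw
    unfold sp at hw
    induction hw using Submodule.span_induction with
    | mem w h =>
      obtain ⟨ψ, hψ, hψs, h1 | h1⟩ := h
      · rw [h1, (hT s σ θ F ψ hs hθ hθ1 hθ0 hF hψ).1]
        refine (hlim φ hφ ψ hψ).1.congr fun n => ?_
        rw [(hWi n ψ hψ hψs).1, ((hfg n) ψ hψ).1]
      · rw [h1, (hT s σ θ F ψ hs hθ hθ1 hθ0 hF hψ).2]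
        refine (hlim φ hφ ψ hψ).2.congr fun n => ?_
        rw [(hWi n ψ hψ hψs).2, ((hfg n) ψ hψ).2]
    | zero =>
      simp only [inner_zero_right]
      exact tendsto_const_nhds
    | add x y _ _ hx hy =>
      simp only [inner_add_right]
      exact hx.add hy
    | smul a x _ hx =>
      simp only [inner_smul_right]
      exact hx.const_mul a
  refine ex_le (by positivity) fun w hw => ?_
  refine le_of_tendsto (hlim' w hw).abs (Eventually.of_forall fun n => ?_)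
  refine (abs_real_inner_le_norm _ _).trans ?_
  apply mul_le_mul_of_nonneg_right _ (norm_nonneg w)
  refine (hW n).trans (le_of_eq ?_)
  ring

end Pool.Agent.QWP
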