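import Pool.Agent.QWP.StA2
import Pool.Agent.QWE.NFb

set_option autoImplicit false

/-!
# QWP NFc (MP_9ce95b_an): pointwise bounds of the regularised near field
-/

open MeasureTheory Filter Topology Set
open scoped ENNReal NNReal RealInnerProductSpace

namespace Pool.Agent.QWP.NFcx

open Pool.Agent.QWE (E S sg mu K toK IsTest pd Rad dRad Rk dRk c0 Sm SmE kap IsMol)
open Pool.Agent.QWE.NFbx

/-- multiples of the coordinate functionals -/
noncomputable def LL (i : Fin 5) : ℝ →L[ℝ] (E →L[ℝ] ℝ) :=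
  ContinuousLinearMap.toSpanSingleton ℝ (EuclideanSpace.proj i : E →L[ℝ] ℝ)

lemma fderiv_eq_sum (f : E → ℝ) (y : E) :
    fderiv ℝ f y = ∑ i : Fin 5, (LL i ∘ pd i f) y := by
  ext v
  have hv : v = ∑ i : Fin 5, v i • EuclideanSpace.single i (1 : ℝ) := by
    ext j
    simp [Fin.sum_univ_five]
    fin_cases j <;> simp
  rw [_root_.sum_apply]
  conv_lhs => rw [hv, map_sum]
  apply Finset.sum_congr rfl
  intro i _
  rw [map_smul]
  simp only [LL, Function.comp, ContinuousLinearMap.toSpanSingleton_apply, smul_eq_mul, pd,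
    _root_.smul_apply]
  exact mul_comm _ _

lemma norm_proj_le (i : Fin 5) : ‖(EuclideanSpace.proj i : E →L[ℝ] ℝ)‖ ≤ 1 := by
  refine ContinuousLinearMap.opNorm_le_bound _ zero_le_one fun x => ?_
  rw [one_mul]
  exact PiLp.norm_apply_le x i

lemma norm_LL_le (i : Fin 5) : ‖LL i‖ ≤ 1 := by
  unfold LL
  rw [ContinuousLinearMap.norm_toSpanSingleton]
  exact norm_proj_le i

lemma iter_succ_le {f : E → ℝ} (hf : SmE f) (n : ℕ) (x : E) :
    ‖iteratedFDeriv ℝ (n + 1) f x‖ ≤ ∑ i : Fin 5, ‖iteratedFDeriv ℝ n (pd i f) x‖ := by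
  rw [← norm_iteratedFDeriv_fderiv]
  have h1 : fderiv ℝ f = fun y => ∑ i : Fin 5, (LL i ∘ pd i f) y := funext (fderiv_eq_sum f)
  rw [h1, iteratedFDeriv_fun_sum_apply]
  · refine (norm_sum_le _ _).trans (Finset.sum_le_sum fun i _ => ?_)
    have h2 : ContDiffAt ℝ ((⊤ : ℕ∞) : WithTop ℕ∞) (pd i f) x := (smE_pd hf i).contDiffAt
    refine ((LL i).norm_iteratedFDeriv_comp_left h2 (n := n) (by exact_mod_cast le_top)).trans ?_
    calc ‖LL i‖ * ‖iteratedFDeriv ℝ n (pd i f) x‖ ≤ 1 * ‖iteratedFDeriv ℝ n (pd i f) x‖ :=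
          mul_le_mul_of_nonneg_right (norm_LL_le i) (norm_nonneg _)
      _ = _ := one_mul _
  · intro i _
    have h2 : ContDiff ℝ (n : WithTop ℕ∞) (pd i f) :=
      ContDiff.of_le (smE_pd hf i) (by exact_mod_cast le_top)
    exact ((LL i).contDiff.comp h2).contDiffAt

lemma ua_iter (hN : Pool.Agent.QWE.St_NFK) {θ : ℝ → ℝ} (hθ : Sm θ) (hθc : HasCompactSupport θ)
    (n : ℕ) : ∀ (a : E → ℝ) (m : ℕ), SmE a →
    ∃ C : ℝ, 0 ≤ C ∧ ∀ (F : E → ℝ) (σ : ℝ) (φ : ℝ → ℝ), IsTest F →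
      (∀ x, 1 / 3 ≤ ‖x‖ → F x = 0) → 0 ≤ σ → σ ≤ 1 / 8 → IsMol (1 / 100) φ →
      ∀ x : E, 3 / 4 ≤ ‖x‖ →
        ‖iteratedFDeriv ℝ n (ua θ F σ φ a m) x‖ ≤ C * (∫ x, |F x|) / (1 + ‖x‖) ^ (m + n + 1) := by
  induction n with
  | zero =>
    intro a m ha
    obtain ⟨C, hC0, hC⟩ := ua_bound hN ha hθ hθc m
    refine ⟨C, hC0, fun F σ φ hF hF3 h0 h1 hφ x hx => ?_⟩
    rw [norm_iteratedFDeriv_zero, Real.norm_eq_abs]
    exact hC F σ φ hF hF3 h0 h1 hφ x hx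
  | succ n ih =>
    intro a m ha
    have hai : ∀ i : Fin 5, SmE (fun ξ : E => a ξ * ξ i) := fun i => ContDiff.mul ha (coord_SmE i)
    choose C hC0 hC using fun i : Fin 5 => ih (fun ξ => a ξ * ξ i) (m + 1) (hai i)
    refine ⟨∑ i, C i, Finset.sum_nonneg fun i _ => hC0 i, fun F σ φ hF hF3 h0 h1 hφ x hx => ?_⟩
    have hφc : HasCompactSupport φ := cs_of_zero _ hφ.2.2.1
    have hFc : Continuous F := hF.1.continuous
    refine (iter_succ_le (ua_SmE σ m (ContDiff.continuous ha) hθ hFc hF.2 hφ.1 hφc) n x).trans ?_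
    rw [Finset.sum_mul, Finset.sum_div]
    apply Finset.sum_le_sum
    intro i _
    rw [ua_pd σ m (ContDiff.continuous ha) hθ hFc hF.2 hφ.1 hφc i]
    have h2 := hC i F σ φ hF hF3 h0 h1 hφ x hx
    have h3 : m + 1 + n + 1 = m + (n + 1) + 1 := by ring
    rwa [h3] at h2

end Pool.Agent.QWP.NFcx

namespace Pool.Agent.QWP

open Pool.Agent.QWE (E S sg mu K toK IsTest pd Rad dRad Rk dRk c0 Sm SmE kap IsMol)
open Pool.Agent.QWE.NFbx NFcx

theorem thm_NFc (hR : Pool.Agent.QWE.St_RadT) (hN : Pool.Agent.QWE.St_NFK)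
    (hNa : Pool.Agent.QWE.St_NFa) : St_NFc := by
  intro θ hθ hθ1 hθ0
  have hθc : HasCompactSupport θ := cs_of_zero _ hθ0
  choose A hA0 hA using fun n => ua_iter hN hθ hθc n (fun _ => 1) 0 contDiff_const
  choose B hB0 hB using fun n => ua_iter hN hθ hθc n (fun _ => 1) 1 contDiff_const
  have hAs : ∀ n ≤ 3, A n ≤ ∑ k ∈ Finset.range 4, A k := fun n hn =>
    Finset.single_le_sum (f := A) (fun k _ => hA0 k) (Finset.mem_range.2 (by omega))
  have hBs : ∀ n ≤ 3, B n ≤ ∑ k ∈ Finset.range 4, B k := fun n hn =>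
    Finset.single_le_sum (f := B) (fun k _ => hB0 k) (Finset.mem_range.2 (by omega))
  have hA' : 0 ≤ ∑ k ∈ Finset.range 4, A k := Finset.sum_nonneg fun k _ => hA0 k
  have hB' : 0 ≤ ∑ k ∈ Finset.range 4, B k := Finset.sum_nonneg fun k _ => hB0 k
  refine ⟨∑ k ∈ Finset.range 4, A k + ∑ k ∈ Finset.range 4, B k + 1, by positivity,
    fun F σ φ hF hF3 hσ0 hσ1 hφ => ?_⟩
  have hF0 : 0 ≤ ∫ x, |F x| := integral_nonneg fun _ => abs_nonneg _
  have hφc : HasCompactSupport φ := cs_of_zero _ hφ.2.2.1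
  have hFc : Continuous F := hF.1.continuous
  have hm : MemLp (kap θ F σ φ) 2 mu := (hNa θ F σ hθ hθ1 hθ0 hF hF3).1 φ _ hφ
  refine ⟨ua θ F σ φ (fun _ => 1) 0, -ua θ F σ φ (fun _ => 1) 1,
    ua_SmE σ 0 continuous_const hθ hFc hF.2 hφ.1 hφc, ?_, fun ψ hψ => ⟨?_, ?_⟩,
    fun x hx n hn => ⟨?_, ?_⟩⟩
  · exact ContDiff.neg (ua_SmE σ 1 continuous_const hθ hFc hF.2 hφ.1 hφc)
  · rw [pair_Rk hR σ hθ hFc hF.2 hφ.1 hm hψ]
    apply integral_congr_ae
    refine Eventually.of_forall fun x => ?_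
    simp only
    rw [uu_ua0 σ hθ hFc hF.2 hφ.1 x]
  · rw [pair_dRk hR σ hθ hθc hFc hF.2 hφ.1 hφc hm hψ]
    apply integral_congr_ae
    refine Eventually.of_forall fun x => ?_
    simp only [Pi.neg_apply]
    rw [uu_ua1 σ hθ hFc hF.2 hφ.1 x]
  · have hx0 : 0 < ‖x‖ := by linarith
    refine (hA n F σ φ hF hF3 hσ0 hσ1 hφ x hx).trans ?_
    have h2 : A n * (∫ x, |F x|) ≤
        (∑ k ∈ Finset.range 4, A k + ∑ k ∈ Finset.range 4, B k + 1) * ∫ x, |F x| :=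
      mul_le_mul_of_nonneg_right (by linarith [hAs n hn]) hF0
    rw [zero_add]
    refine div_le_div₀ (by positivity) h2 (by positivity) ?_
    exact pow_le_pow_left₀ hx0.le (by linarith) _
  · have hx0 : 0 < ‖x‖ := by linarith
    rw [iteratedFDeriv_neg_apply, norm_neg]
    refine (hB n F σ φ hF hF3 hσ0 hσ1 hφ x hx).trans ?_
    have h2 : B n * (∫ x, |F x|) ≤
        (∑ k ∈ Finset.range 4, A k + ∑ k ∈ Finset.range 4, B k + 1) * ∫ x, |F x| :=
      mul_le_mul_of_nonneg_right (by linarith [hBs n hn]) hF0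
    have h3 : 1 + n + 1 = n + 2 := by ring
    rw [h3]
    refine div_le_div₀ (by positivity) h2 (by positivity) ?_
    exact pow_le_pow_left₀ hx0.le (by linarith) _

end Pool.Agent.QWP
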