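import Pool.Agent.QWP.StA2
import Pool.Agent.QWE.DensA

set_option autoImplicit false

/-!
# QWP / NFt: near field, transfer from `s = 0`
-/

open MeasureTheory Filter Topology Set
open scoped ENNReal NNReal RealInnerProductSpace

namespace Pool.Agent.QWP

open Pool.Agent.QWE (E S sg mu K toK tau sh dl rev gr ig IsTest pd lap Rad dRad Rk dRk c0 WD Sm SmE IsSch half shr WTo)

namespace NFtx

open Pool.Agent.QWE.Isox Pool.Agent.QWE.Densx

theorem nice_univ {A : Set (S × ℝ)} {h : S × ℝ → ℝ} (hh : Nice A h) : Nice univ h := by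
  obtain ⟨g, h1, h2, h3, h4⟩ := hh
  exact ⟨g, h1, h2, h3, subset_univ _⟩

theorem nice_mul {θ : ℝ → ℝ} (hθ : Sm θ) {h : S × ℝ → ℝ} (hh : Nice univ h) :
    Nice univ (fun z => θ z.2 * h z) := by
  obtain ⟨g, h1, ⟨M, h2⟩, h3, h4⟩ := hh
  refine ⟨fun q => θ q.2 * g q, ?_, ⟨M, fun x p hp => ?_⟩, fun z => ?_, subset_univ _⟩
  · exact (ContDiff.comp hθ contDiff_snd).mul h1
  · show θ p * g (x, p) = 0
    rw [h2 x p hp, mul_zero]
  · show θ z.2 * h z = θ z.2 * g ((z.1 : E), z.2)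
    rw [h3]

theorem nice_shift (σ : ℝ) {h : S × ℝ → ℝ} (hh : Nice univ h) :
    Nice univ (fun z => h (z.1, z.2 - σ)) := by
  obtain ⟨g, h1, ⟨M, h2⟩, h3, h4⟩ := hh
  refine ⟨fun q => g (q.1, q.2 - σ), ?_, ⟨M + |σ|, fun x p hp => ?_⟩, fun z => ?_, subset_univ _⟩
  · exact h1.comp (contDiff_fst.prodMk (contDiff_snd.sub contDiff_const))
  · refine h2 x (p - σ) ?_
    have := abs_sub_abs_le_abs_sub p σ
    linarith
  · exact h3 _

theorem nice_rad (hNc : St_NcR) {ψ : E → ℝ} (hψ : IsTest ψ) :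
    Nice univ (Rad ψ) ∧ Nice univ (dRad ψ) := by
  obtain ⟨ρ, -, hρ⟩ := hψ.2.isCompact.isBounded.subset_ball_lt 0 (0 : E)
  obtain ⟨h1, h2⟩ := hNc ψ 0 ρ hψ hρ
  exact ⟨nice_univ h1, nice_univ h2⟩

/-- the explicit source element -/
theorem gam_ex (hI : St_IsoP) {s : ℝ} (hs : |s| < 1 / 2) {F : E → ℝ} (hF : IsTest F) :
    IsGam s F (-(c0 • dRs (-s) (lap F))) := by
  intro φ hφ
  have hφs := test_sch hφ
  have hFs := test_sch hF
  constructor
  · have h1 := (hI s φ (lap F) hs hφs (sch_lap hFs)).2.2.1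
    rw [inner_neg_left, inner_smul_left, real_inner_comm, h1]
    simp
  · have h1 := (hI s F φ hs hFs hφs).2.1
    rw [inner_neg_left, inner_smul_left]
    simp only [conj_trivial]
    rw [h1, neg_neg]

theorem gam_uniq (hD : St_DnsP) {s : ℝ} (hs : |s| < 1 / 2) {F : E → ℝ} {w w' : K}
    (hw : IsGam s F w) (hw' : IsGam s F w') : w = w' := by
  have h0 : w - w' ∈ (TS s univ)ᗮ := by
    unfold TS
    rw [Submodule.orthogonal_closure, Submodule.mem_orthogonal']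
    intro u hu
    induction hu using Submodule.span_induction with
    | mem u hu =>
      obtain ⟨φ, hφ, -, rfl | rfl⟩ := hu
      · rw [inner_sub_left, (hw φ hφ).1, (hw' φ hφ).1, sub_zero]
      · rw [inner_sub_left, (hw φ hφ).2, (hw' φ hφ).2, sub_self]
    | zero => exact inner_zero_right _
    | add a b _ _ ha hb => rw [inner_add_right, ha, hb, add_zero]
    | smul c a _ ha => rw [inner_smul_right, ha, mul_zero]
  rw [(hD s hs).1, Submodule.top_orthogonal_eq_bot, Submodule.mem_bot] at h0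
  exact sub_eq_zero.1 h0

theorem gam_eq (hI : St_IsoP) (hD : St_DnsP) {s : ℝ} (hs : |s| < 1 / 2) {F : E → ℝ}
    (hF : IsTest F) : Gam s F = -(c0 • dRs (-s) (lap F)) := by
  have hex : ∃ w, IsGam s F w := ⟨_, gam_ex hI hs hF⟩
  refine gam_uniq hD hs ?_ (gam_ex hI hs hF)
  unfold Gam
  rw [dif_pos hex]
  exact hex.choose_spec

theorem gam_eq0 (hId : St_Idn) (hI : St_IsoP) (hD : St_DnsP) {F : E → ℝ} (hF : IsTest F) :
    Pool.Agent.QWE.Gam F = -(c0 • dRs (-0) (lap F)) := by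
  have h00 : |(0 : ℝ)| < 1 / 2 := by norm_num
  have hiff : ∀ w : K, Pool.Agent.QWE.IsGam F w ↔ IsGam 0 F w := by
    intro w
    constructor
    · intro h φ hφ
      obtain ⟨e1, e2, -⟩ := hId φ φ (test_sch hφ) (test_sch hφ)
      rw [e1, e2]
      exact h φ hφ
    · intro h φ hφ
      obtain ⟨e1, e2, -⟩ := hId φ φ (test_sch hφ) (test_sch hφ)
      have := h φ hφ
      rw [e1, e2] at this
      exact this
  have hex : ∃ w, Pool.Agent.QWE.IsGam F w := ⟨_, (hiff _).2 (gam_ex hI h00 hF)⟩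
  refine gam_uniq hD h00 ((hiff _).1 ?_) (gam_ex hI h00 hF)
  unfold Pool.Agent.QWE.Gam
  rw [dif_pos hex]
  exact hex.choose_spec

/-- the pairing with `JK s h` does not depend on `s` -/
theorem pair (hG : Pool.Agent.QWE.St_Grp1) (hPJ : St_PJ) {s : ℝ} (hs : |s| < 1 / 2) {F : E → ℝ}
    (hF : IsTest F) (σ : ℝ) {h : S × ℝ → ℝ} (hh : Nice univ h) :
    (inner ℝ (tau (-σ) (-(c0 • dRs (-s) (lap F)))) (JK s h) : ℝ) =
      -(c0 * ∫ z : S × ℝ, h (z.1, z.2 - σ) * dRad (lap F) z ∂mu) := by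
  have hadj := hG.2.2.2.2.2.1 (-σ) (-(c0 • dRs (-s) (lap F))) (JK s h)
  rw [hadj, neg_neg, ((hPJ s hs).1 h hh).2.2.2.1 σ, inner_neg_left, inner_smul_left,
    real_inner_comm]
  have h1 := (((hPJ s hs).1 _ (nice_shift σ hh)).2.2.2.2.2.2.2.2 (lap F)
    (sch_lap (test_sch hF))).2
  rw [h1]
  simp only [conj_trivial]

/-- multiplication by `θ` is symmetric -/
theorem mul_sym {θ : ℝ → ℝ} (hθ : Sm θ) (hθ1 : ∀ p, |θ p| ≤ 1) (k : K) {h : S × ℝ → ℝ}
    (hm : MemLp h 2 mu) (hm' : MemLp (fun z => θ z.2 * h z) 2 mu) :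
    (inner ℝ (Pool.Agent.QWE.mulK (fun z => θ z.2) k) (toK h) : ℝ) =
      inner ℝ k (toK (fun z => θ z.2 * h z)) := by
  have hmeas : Measurable fun z : S × ℝ => θ z.2 := (ContDiff.continuous hθ).measurable.comp measurable_snd
  rw [inner_K (Pool.Agent.QWE.mulK_coe hmeas (fun z => hθ1 z.2) k) (Pool.Agent.QWE.toK_coe hm),
    inner_K (Filter.EventuallyEq.refl _ _) (Pool.Agent.QWE.toK_coe hm')]
  refine integral_congr_ae (Eventually.of_forall fun z => ?_)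
  simp only
  ring

/-- both sides for a nice function -/
theorem both (hG : Pool.Agent.QWE.St_Grp1) (hPJ : St_PJ) (hId : St_Idn) (hI : St_IsoP)
    (hD : St_DnsP) (hM : St_MulP) {s : ℝ} (hs : |s| < 1 / 2) (σ : ℝ) {θ : ℝ → ℝ} (hθ : Sm θ)
    (hθ1 : ∀ p, |θ p| ≤ 1) (hθ0 : ∀ p, 1 / 12 ≤ |p| → θ p = 0) {F : E → ℝ} (hF : IsTest F)
    {h : S × ℝ → ℝ} (hh : Nice univ h) :
    (inner ℝ (Mul s θ (tau (-σ) (Gam s F))) (JK s h) : ℝ) =
      inner ℝ (Pool.Agent.QWE.mulK (fun z => θ z.2) (tau (-σ) (Pool.Agent.QWE.Gam F))) (toK h) := by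
  have h00 : |(0 : ℝ)| < 1 / 2 := by norm_num
  have hc : HasCompactSupport θ := by
    refine HasCompactSupport.intro (isCompact_Icc (a := -(1 / 12 : ℝ)) (b := 1 / 12)) fun p hp => ?_
    refine hθ0 p ?_
    by_contra hcon
    rw [not_le, abs_lt] at hcon
    exact hp ⟨hcon.1.le, hcon.2.le⟩
  have hmul : IsMul s θ (Mul s θ) := (hM s θ hs hθ hc.deriv).2.1
  have hn := nice_mul hθ hh
  have hm := ((hPJ 0 h00).1 h hh).1
  have hm' := ((hPJ 0 h00).1 _ hn).1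
  rw [hmul _ h hh, gam_eq hI hD hs hF, pair hG hPJ hs hF σ hn, mul_sym hθ hθ1 _ hm hm',
    ← ((hPJ 0 h00).1 _ hn).2.2.1, gam_eq0 hId hI hD hF, pair hG hPJ h00 hF σ hn]

end NFtx

open NFtx in
theorem thm_NFt (hG : Pool.Agent.QWE.St_Grp1) (hPJ : St_PJ) (hNc : St_NcR) (hId : St_Idn)
    (hI : St_IsoP) (hD : St_DnsP) (hM : St_MulP) : St_NFt := by
  intro s σ θ F ψ hs hθ hθ1 hθ0 hF hψ
  obtain ⟨n1, n2⟩ := nice_rad hNc hψ
  obtain ⟨j1, j2⟩ := (hPJ s hs).2 ψ hψ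
  rw [← j1, ← j2]
  exact ⟨both hG hPJ hId hI hD hM hs σ hθ hθ1 hθ0 hF n1,
    both hG hPJ hId hI hD hM hs σ hθ hθ1 hθ0 hF n2⟩

end Pool.Agent.QWP
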