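import Pool.Agent.QWP.StG
import Pool.Agent.QWP.NLw
import Pool.Agent.QWP.D1P
import Pool.Agent.QWE.NLc

set_option autoImplicit false

/-!
# QWP / NLc: weak continuity of the nonlinearity (helper45; port of QWE/NLc.lean)
-/

open MeasureTheory Filter Topology Set
open scoped ENNReal NNReal RealInnerProductSpace ContDiff Pointwise

namespace Pool.Agent.QWP

open Pool.Agent.QWE (E S sg mu K toK tau sh dl rev gr ig IsTest pd lap Rad dRad Rk dRk c0 WD Sm SmE IsSch half shr WTo)

namespace NLcx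

open NLwx
open Pool.Agent.QWE.NLcx (wto_sub lap_zero memLp_test)

theorem sig_lt {b : ℝ} (hb : 2 < b) : |sig b| < 1 / 2 := by
  have h1 : 0 < 2 / b := by positivity
  have h2 : 2 / b < 1 := by rw [div_lt_one (by linarith)]; exact hb
  rw [abs_lt, sig]
  constructor <;> linarith

theorem U_sub (hF : St_FldP) {s : ℝ} (hs : |s| < 1 / 2) (a b : K) :
    U s (a - b) =ᵐ[volume] fun x => U s a x - U s b x := by
  obtain ⟨C, -, -, hL, -⟩ := hF s hs
  have h := (hL (-1) a b).1
  have e : a + (-1 : ℝ) • b = a - b := by rw [neg_smul, one_smul, sub_eq_add_neg]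
  rw [e] at h
  filter_upwards [h] with x hx
  rw [hx]; ring

theorem U_meas (hF : St_FldP) {s : ℝ} (hs : |s| < 1 / 2) (a : K) :
    AEStronglyMeasurable (U s a) volume := by
  obtain ⟨C, -, hC, -⟩ := hF s hs
  exact (hC a).1.1.1

theorem conv_ball (hW : St_WkP) (hF : St_FldP) {s : ℝ} (hs : |s| < 1 / 2) {k : ℕ → K} {k' : K}
    (h : WTo k k') (M : ℝ) :
    Tendsto (fun n => eLpNorm ((Metric.ball (0 : E) M).indicator
      (fun x => U s (k n) x - U s k' x)) 2 volume) atTop (𝓝 0) := by
  have h1 := (hW s _ M hs (wto_sub h)).1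
  refine h1.congr fun n => eLpNorm_congr_ae ?_
  filter_upwards [U_sub hF hs (k n) k'] with x hx
  simp only [Set.indicator]
  split_ifs
  · exact hx
  · rfl

theorem part1_ball (hW : St_WkP) (hF : St_FldP) {b : ℝ} (hb : 2 < b) {k : ℕ → K} {k' : K}
    (h : WTo k k') {c : ℝ≥0∞} (hc : ∀ n, sn b (k n) ≤ c) (M : ℝ) :
    eLpNorm ((Metric.ball (0 : E) M).indicator (U (sig b) k')) (ENNReal.ofReal (5 * b)) volume ≤
      c := by
  have hs := sig_lt hb
  have hm : ∀ w : K, AEStronglyMeasurable (U (sig b) w)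
      (volume.restrict (Metric.ball (0 : E) M)) := fun w => (U_meas hF hs w).restrict
  have h1 := conv_ball hW hF hs h M
  simp only [eLpNorm_indicator_eq_eLpNorm_restrict measurableSet_ball] at h1 ⊢
  have h2 : TendstoInMeasure (volume.restrict (Metric.ball (0 : E) M))
      (fun n => U (sig b) (k n)) atTop (U (sig b) k') :=
    tendstoInMeasure_of_tendsto_eLpNorm (p := 2) (by norm_num) (fun n => hm (k n)) (hm k') h1
  obtain ⟨ns, -, hns⟩ := h2.exists_seq_tendsto_ae
  refine Lp.eLpNorm_le_of_ae_tendsto (u := atTop) (f := fun i => U (sig b) (k (ns i)))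
    (Eventually.of_forall fun i => ?_) (fun i => hm _) hns
  exact (eLpNorm_mono_measure _ Measure.restrict_le_self).trans (hc (ns i))

theorem part1 (hW : St_WkP) (hF : St_FldP) (hS : Pool.Agent.QWE.St_WkS) {b : ℝ} (hb : 2 < b)
    (k : ℕ → K) (k' : K) (h : WTo k k') : sn b k' ≤ liminf (fun n => sn b (k n)) atTop := by
  by_contra hcon
  rw [not_le] at hcon
  obtain ⟨c, hc1, hc2⟩ := exists_between hcon
  have hfr : ∃ᶠ n in atTop, sn b (k n) < c := frequently_lt_of_liminf_lt (by isBoundedDefault) hc1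
  obtain ⟨φ, hφ, hφc⟩ := extraction_of_frequently_atTop hfr
  have h1 : WTo (k ∘ φ) k' := hS.2.2.2.1 k k' φ h hφ
  have hm : AEStronglyMeasurable (U (sig b) k') volume := U_meas hF (sig_lt hb) k'
  have h2 : sn b k' ≤ c := by
    refine Lp.eLpNorm_le_of_ae_tendsto (u := atTop)
      (f := fun n : ℕ => (Metric.ball (0 : E) n).indicator (U (sig b) k'))
      (Eventually.of_forall fun n => part1_ball hW hF hb h1 (fun i => (hφc i).le) n)
      (fun n => hm.indicator measurableSet_ball) (Eventually.of_forall fun x => ?_)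
    refine tendsto_const_nhds.congr' ?_
    obtain ⟨N, hN⟩ := exists_nat_gt (dist x 0)
    filter_upwards [eventually_ge_atTop N] with n hn
    have : x ∈ Metric.ball (0 : E) n := by
      rw [Metric.mem_ball]
      exact hN.trans_le (by exact_mod_cast hn)
    rw [Set.indicator_of_mem this]
  exact absurd h2 (not_le.2 hc2)

/-- the basic estimate of the difference -/
theorem diff_bd {b : ℝ} (hb : 2 < b) {u v φ : E → ℝ} {M : ℝ} (hu : AEStronglyMeasurable u volume)
    (hv : AEStronglyMeasurable v volume) (hφ : AEStronglyMeasurable φ volume)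
    (hs : ∀ x, x ∉ Metric.ball (0 : E) M → φ x = 0) :
    eLpNorm (fun x => (Fn b (u x) - Fn b (v x)) * φ x) 1 volume ≤
      ENNReal.ofReal (b + 1) *
        (eLpNorm ((Metric.ball (0 : E) M).indicator (fun x => u x - v x)) 2 volume *
        ((eLpNorm u (ENNReal.ofReal (5 * b / 2)) volume +
          eLpNorm v (ENNReal.ofReal (5 * b / 2)) volume) ^ b * eLpNorm φ 10 volume)) := by
  have hb0 : 0 < b := by linarith
  have m1 : AEStronglyMeasurable (fun x => |u x| + |v x|) (volume : Measure E) := by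
    have a := hu.norm
    have b := hv.norm
    exact a.add b
  have m1b : AEStronglyMeasurable (fun x => (|u x| + |v x|) ^ b) (volume : Measure E) :=
    (Real.continuous_rpow_const hb0.le).comp_aestronglyMeasurable m1
  have m2 : AEStronglyMeasurable ((Metric.ball (0 : E) M).indicator (fun x => u x - v x))
      (volume : Measure E) := (hu.sub hv).indicator measurableSet_ball
  have m3 : AEStronglyMeasurable (fun x => (|u x| + |v x|) ^ b * φ x)
      (volume : Measure E) := m1b.mul hφ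
  have i1 : ENNReal.HolderTriple (ENNReal.ofReal (5 / 2)) (ENNReal.ofReal 10)
      (ENNReal.ofReal 2) := holder (by norm_num) (by norm_num) (by norm_num) (by norm_num)
  have i2 : ENNReal.HolderTriple (ENNReal.ofReal 2) (ENNReal.ofReal 2)
      (ENNReal.ofReal 1) := holder (by norm_num) (by norm_num) (by norm_num) (by norm_num)
  have e2 : ENNReal.ofReal 2 = 2 := by norm_num
  have e10 : ENNReal.ofReal 10 = 10 := by norm_num
  have h1 : eLpNorm (fun x => (Fn b (u x) - Fn b (v x)) * φ x) 1 volume ≤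
      ENNReal.ofReal (b + 1) * eLpNorm (fun x =>
        (Metric.ball (0 : E) M).indicator (fun x => u x - v x) x *
          ((|u x| + |v x|) ^ b * φ x)) 1 volume := by
    refine eLpNorm_le_mul_eLpNorm_of_ae_le_mul (Eventually.of_forall fun x => ?_) 1
    by_cases hx : x ∈ Metric.ball (0 : E) M
    · rw [Set.indicator_of_mem hx]
      simp only [norm_mul, Real.norm_eq_abs]
      rw [abs_of_nonneg (Real.rpow_nonneg (add_nonneg (abs_nonneg (u x)) (abs_nonneg (v x))) b)]
      have h2 := NLwx.diff hb (u x) (v x)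
      calc |Fn b (u x) - Fn b (v x)| * |φ x| ≤
          ((b + 1) * ((|u x| + |v x|) ^ b * |u x - v x|)) * |φ x| :=
            mul_le_mul_of_nonneg_right h2 (abs_nonneg _)
        _ = (b + 1) * (|u x - v x| * ((|u x| + |v x|) ^ b * |φ x|)) := by ring
    · rw [hs x hx]; simp
  have h3 : eLpNorm (fun x => (Metric.ball (0 : E) M).indicator (fun x => u x - v x) x *
      ((|u x| + |v x|) ^ b * φ x)) (ENNReal.ofReal 1) volume ≤
      eLpNorm ((Metric.ball (0 : E) M).indicator (fun x => u x - v x)) (ENNReal.ofReal 2) volume *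
        eLpNorm (fun x => (|u x| + |v x|) ^ b * φ x) (ENNReal.ofReal 2) volume :=
    eLpNorm_smul_le_mul_eLpNorm
      (φ := (Metric.ball (0 : E) M).indicator (fun x => u x - v x))
      (f := fun x => (|u x| + |v x|) ^ b * φ x) m3 m2
  have h4 : eLpNorm (fun x => (|u x| + |v x|) ^ b * φ x) (ENNReal.ofReal 2) volume ≤
      eLpNorm (fun x => (|u x| + |v x|) ^ b) (ENNReal.ofReal (5 / 2)) volume *
        eLpNorm φ (ENNReal.ofReal 10) volume :=
    eLpNorm_smul_le_mul_eLpNorm (φ := fun x => (|u x| + |v x|) ^ b) (f := φ) hφ m1b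
  rw [ENNReal.ofReal_one] at h3
  have h5 : eLpNorm (fun x => (|u x| + |v x|) ^ b) (ENNReal.ofReal (5 / 2)) volume =
      eLpNorm (fun x => |u x| + |v x|) (ENNReal.ofReal (5 * b / 2)) volume ^ b := by
    have h6 := eLpNorm_norm_rpow (μ := (volume : Measure E)) (p := ENNReal.ofReal (5 / 2)) (q := b)
      (fun x => |u x| + |v x|) hb0
    have h7 : ENNReal.ofReal (5 / 2) * ENNReal.ofReal b = ENNReal.ofReal (5 * b / 2) := by
      rw [← ENNReal.ofReal_mul (by norm_num)]
      congr 1
      ring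
    rw [h7] at h6
    rw [← h6]
    congr 1
    funext x
    rw [Real.norm_of_nonneg (add_nonneg (abs_nonneg (u x)) (abs_nonneg (v x)))]
  have hq1 : 1 ≤ ENNReal.ofReal (5 * b / 2) := by
    rw [ENNReal.one_le_ofReal]
    linarith
  have h8 : eLpNorm (fun x => |u x| + |v x|) (ENNReal.ofReal (5 * b / 2)) volume ≤
      eLpNorm u (ENNReal.ofReal (5 * b / 2)) volume +
        eLpNorm v (ENNReal.ofReal (5 * b / 2)) volume := by
    have h9 := eLpNorm_add_le (μ := (volume : Measure E)) (f := fun x => |u x|)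
      (g := fun x => |v x|) hu.norm hv.norm hq1
    have h10 : eLpNorm (fun x => |u x|) (ENNReal.ofReal (5 * b / 2)) (volume : Measure E) =
        eLpNorm u (ENNReal.ofReal (5 * b / 2)) volume := eLpNorm_norm u
    have h11 : eLpNorm (fun x => |v x|) (ENNReal.ofReal (5 * b / 2)) (volume : Measure E) =
        eLpNorm v (ENNReal.ofReal (5 * b / 2)) volume := eLpNorm_norm v
    rw [h10, h11] at h9
    exact h9
  rw [e2] at h3 h4
  rw [e10, h5] at h4
  refine h1.trans (mul_le_mul_right (h3.trans (mul_le_mul_right (h4.trans ?_) _)) _)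
  exact mul_le_mul_left (ENNReal.rpow_le_rpow h8 hb0.le) _

/-- the pairing with a test state -/
theorem pair (hNw : St_NLw) {b : ℝ} (hb : 2 < b) (f g : E → ℝ) (hf : IsTest f) (hg : IsTest g)
    (w : K) (hw : sn b w < ⊤) : inner ℝ (NL b w) (Theta (-sig b) f g) =
      -c0 * ∫ x, Fn b (U (sig b) w x) * lap g x := by
  have hl : ∀ {φ : E → ℝ}, IsTest φ → IsTest (lap φ) := fun h => Pool.Agent.QWE.Linx.test_lap h
  have h1 := ((hNw b hb _ (hl (hl hf))).1 w hw).1
  have h2 := ((hNw b hb _ (hl hg)).1 w hw).2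
  rw [Theta, neg_neg, inner_smul_right, inner_sub_right, h1, h2]
  ring

theorem part2 (hW : St_WkP) (hF : St_FldP) (hS : Pool.Agent.QWE.St_WkS) (hNw : St_NLw)
    {b : ℝ} (hb : 2 < b) (k : ℕ → K) (k' : K) (f g : E → ℝ) (hf : IsTest f) (hg : IsTest g)
    (h : WTo k k') (hk : ∀ n, sn b (k n) < ⊤) (hk' : sn b k' < ⊤) :
    Tendsto (fun n => inner ℝ (NL b (k n)) (Theta (-sig b) f g)) atTop
      (𝓝 (inner ℝ (NL b k') (Theta (-sig b) f g))) := by
  have hs := sig_lt hb
  obtain ⟨CF, hCF, hF1, -, -⟩ := hF (sig b) hs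
  have hφ : IsTest (lap g) := Pool.Agent.QWE.Linx.test_lap hg
  rw [pair hNw hb f g hf hg k' hk']
  simp only [fun n => pair hNw hb f g hf hg (k n) (hk n)]
  refine Tendsto.const_mul (-c0) ?_
  obtain ⟨M, hM⟩ : ∃ M : ℝ, ∀ x, x ∉ Metric.ball (0 : E) M → lap g x = 0 := by
    obtain ⟨M, hM⟩ := hg.2.isCompact.isBounded.subset_ball 0
    exact ⟨M, fun x hx => lap_zero fun h => hx (hM h)⟩
  obtain ⟨A, hA⟩ := hS.2.1 k k' h
  have hint : ∀ w : K, Integrable (fun x => Fn b (U (sig b) w x) * lap g x) volume :=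
    (hNw b hb _ hφ).2.1
  set D : ℝ≥0∞ := (ENNReal.ofReal CF * ENNReal.ofReal A + ENNReal.ofReal CF * ‖k'‖ₑ) ^ b *
    eLpNorm (lap g) 10 volume with hD
  have hDfin : D ≠ ⊤ := by
    have h1 := (memLp_test hφ 10).2.ne
    rw [hD]
    refine ENNReal.mul_ne_top (ENNReal.rpow_ne_top_of_nonneg (by linarith) (by finiteness)) h1
  have hconv := conv_ball hW hF hs h M
  have hlim : Tendsto (fun n => ENNReal.ofReal (b + 1) *
      (eLpNorm ((Metric.ball (0 : E) M).indicator
      (fun x => U (sig b) (k n) x - U (sig b) k' x)) 2 volume * D)) atTop (𝓝 0) := by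
    have h1 := ENNReal.Tendsto.mul_const (b := D) hconv (Or.inr hDfin)
    rw [zero_mul] at h1
    have h2 := ENNReal.Tendsto.const_mul (a := ENNReal.ofReal (b + 1)) h1
      (Or.inr ENNReal.ofReal_ne_top)
    rwa [mul_zero] at h2
  rw [tendsto_iff_edist_tendsto_0]
  refine tendsto_of_tendsto_of_tendsto_of_le_of_le tendsto_const_nhds hlim (fun n => zero_le)
    (fun n => ?_)
  rw [edist_eq_enorm_sub, ← integral_sub (hint _) (hint _)]
  have e2 : (fun x => Fn b (U (sig b) (k n) x) * lap g x - Fn b (U (sig b) k' x) * lap g x) =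
      fun x => (Fn b (U (sig b) (k n) x) - Fn b (U (sig b) k' x)) * lap g x := by
    funext x; ring
  rw [e2]
  refine (enorm_integral_le_lintegral_enorm _).trans ?_
  rw [← eLpNorm_one_eq_lintegral_enorm]
  refine (diff_bd hb (hF1 (k n)).1.1.1 (hF1 k').1.1.1 hφ.1.continuous.aestronglyMeasurable hM).trans
    ?_
  rw [hD]
  have h1 := (hF1 (k n)).2.1
  have h2 := (hF1 k').2.1
  rw [q0_eq hb] at h1 h2
  have h3 : ‖k n‖ₑ ≤ ENNReal.ofReal A := by
    rw [← ofReal_norm]
    exact ENNReal.ofReal_le_ofReal (hA n)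
  refine mul_le_mul_right (mul_le_mul_right (mul_le_mul_left ?_ _) _) _
  refine ENNReal.rpow_le_rpow (add_le_add (h1.trans (mul_le_mul_right h3 _)) h2) (by linarith)

theorem part3 (hF : St_FldP) (hNw : St_NLw) (hDec : St_DecayP) {b : ℝ} (hb : 2 < b)
    (f g : E → ℝ) (M : ℝ) (hf : IsTest f) (hg : IsTest g) : ∃ C : ℝ, 0 < C ∧
    ∀ (r : ℝ) (k : K), |r| ≤ M → sn b k < ⊤ →
    |inner ℝ (NL b k) (tau r (Theta (-sig b) f g))| ≤ C * ‖k‖ ^ (b + 1) := by
  have hs := sig_lt hb
  have hs' : |-sig b| < 1 / 2 := by rw [abs_neg]; exact hs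
  obtain ⟨CF, hCF, hF1, -, -⟩ := hF (sig b) hs
  obtain ⟨Cd, M0, hCd, hM0, hdec⟩ := hDec f g hf hg
  have hb3 : 0 < 3 * b - 2 := by linarith
  set B : Set E := Metric.closedBall (0 : E) (M + M0) with hB
  set p : ℝ≥0∞ := ENNReal.ofReal (5 * b / (3 * b - 2)) with hp
  -- bound of the norm of the test function
  set G : ℝ≥0∞ := ENNReal.ofReal (5 * Cd) * volume B ^ (1 / p.toReal) with hG
  have hGfin : G ≠ ⊤ := by
    have h1 : volume B ≠ ⊤ := measure_closedBall_lt_top.ne
    rw [hG]
    refine ENNReal.mul_ne_top ENNReal.ofReal_ne_top (ENNReal.rpow_ne_top_of_nonneg ?_ h1)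
    positivity
  set X : ℝ≥0∞ := ENNReal.ofReal (b + 1) *
    (ENNReal.ofReal CF ^ b * (ENNReal.ofReal CF * G)) with hX
  have hXfin : X ≠ ⊤ := by
    rw [hX]
    refine ENNReal.mul_ne_top ENNReal.ofReal_ne_top (ENNReal.mul_ne_top
      (ENNReal.rpow_ne_top_of_nonneg (by linarith) ENNReal.ofReal_ne_top)
      (ENNReal.mul_ne_top ENNReal.ofReal_ne_top hGfin))
  have hc0 : 0 ≤ c0 := by unfold c0; positivity
  refine ⟨c0 * X.toReal + 1, by positivity, fun r k hr hk => ?_⟩
  obtain ⟨f', g', hf', hg', htau, hsupp, hbd⟩ := hdec r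
  rw [htau _ hs', pair hNw hb f' g' hf' hg' k hk]
  have hG' : eLpNorm (lap g') p volume ≤ G := by
    have hz : ∀ x, x ∉ B → lap g' x = 0 := by
      intro x hx
      refine lap_zero fun h1 => hx ?_
      have h2 : tsupport g' ⊆ B := by
        refine closure_minimal (fun y hy => ?_) Metric.isClosed_closedBall
        by_contra hy2
        apply hy
        refine (hsupp y ?_).2
        rw [hB, Metric.mem_closedBall, not_le, dist_zero_right] at hy2
        rw [abs_of_nonneg (by linarith)]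
        linarith
      exact h2 h1
    have hle : ∀ x, |lap g' x| ≤ 5 * Cd := by
      intro x
      have h1 : ∀ i : Fin 5, |pd i (pd i g') x| ≤ Cd := by
        intro i
        have h2 : |pd i (pd i g') x| = ‖iteratedFDeriv ℝ 0 (pd i (pd i g')) x‖ := by
          rw [norm_iteratedFDeriv_zero, Real.norm_eq_abs]
        rw [h2]
        refine (D1Px.pd_iter_le (Pool.Agent.QWE.D1x.pd_contDiff hg'.1 i) i 0 x).trans ?_
        refine (D1Px.pd_iter_le hg'.1 i 1 x).trans ?_
        refine (hbd x 2 (by norm_num)).2.trans ?_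
        rw [div_le_iff₀ (by positivity)]
        nlinarith [sq_nonneg r]
      rw [lap]
      refine (Finset.abs_sum_le_sum_abs _ _).trans ((Finset.sum_le_sum fun i _ => h1 i).trans ?_)
      rw [Finset.sum_const, Finset.card_univ, Fintype.card_fin]
      simp
    have h1 : lap g' = B.indicator (lap g') := by
      symm
      rw [Set.indicator_eq_self]
      intro x hx
      by_contra hcon
      exact hx (hz x hcon)
    have h2 : ∀ x, ‖B.indicator (lap g') x‖ ≤ ‖B.indicator (fun _ => 5 * Cd) x‖ := by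
      intro x
      by_cases hx : x ∈ B
      · rw [Set.indicator_of_mem hx, Set.indicator_of_mem hx, Real.norm_eq_abs, Real.norm_eq_abs,
          abs_of_pos (by positivity : 0 < 5 * Cd)]
        exact hle x
      · rw [Set.indicator_of_notMem hx, Set.indicator_of_notMem hx]
    rw [h1]
    refine (eLpNorm_mono h2).trans ?_
    refine (eLpNorm_indicator_const_le _ _).trans (le_of_eq ?_)
    rw [hG, Real.enorm_eq_ofReal (by positivity)]
  have hu := (hF1 k).2.1
  rw [q0_eq hb] at hu
  have hall : ‖∫ x, Fn b (U (sig b) k x) * lap g' x‖ₑ ≤ X * ‖k‖ₑ ^ (b + 1) := by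
    refine (enorm_integral_le_lintegral_enorm _).trans ?_
    rw [← eLpNorm_one_eq_lintegral_enorm]
    have h1 := est hb (U (sig b) k) (fun _ => (0 : ℝ)) (lap g') (hF1 k).1.1.1
      aestronglyMeasurable_const
      (Pool.Agent.QWE.Linx.test_lap hg').1.continuous.aestronglyMeasurable
    have hFn0 : Fn b 0 = 0 := by
      unfold Fn
      rw [mul_zero]
    have h0 : eLpNorm (fun _ : E => (0 : ℝ)) (ENNReal.ofReal (5 * b / 2)) volume = 0 :=
      eLpNorm_zero
    simp only [hFn0, sub_zero, h0, add_zero] at h1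
    refine h1.trans ?_
    have h2 : ‖k‖ₑ ^ (b + 1) = ‖k‖ₑ ^ b * ‖k‖ₑ := by
      rw [ENNReal.rpow_add_of_nonneg _ _ (by linarith) (by norm_num), ENNReal.rpow_one]
    have h3 : X * ‖k‖ₑ ^ (b + 1) = ENNReal.ofReal (b + 1) *
        ((ENNReal.ofReal CF * ‖k‖ₑ) ^ b * ((ENNReal.ofReal CF * ‖k‖ₑ) * G)) := by
      rw [hX, h2, ENNReal.mul_rpow_of_nonneg _ _ (by linarith)]
      ring
    rw [h3]
    refine mul_le_mul_right (mul_le_mul' (ENNReal.rpow_le_rpow hu (by linarith))
      (mul_le_mul' hu hG')) _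
  have hreal : |∫ x, Fn b (U (sig b) k x) * lap g' x| ≤ X.toReal * ‖k‖ ^ (b + 1) := by
    have h7 := ENNReal.toReal_mono (ENNReal.mul_ne_top hXfin
      (ENNReal.rpow_ne_top_of_nonneg (by linarith) enorm_ne_top)) hall
    rw [toReal_enorm, Real.norm_eq_abs, ENNReal.toReal_mul, ← ENNReal.toReal_rpow,
      toReal_enorm] at h7
    exact h7
  rw [abs_mul, abs_neg, abs_of_nonneg hc0]
  have hk5 : 0 ≤ ‖k‖ ^ (b + 1) := by positivity
  calc c0 * |∫ x, Fn b (U (sig b) k x) * lap g' x|
      ≤ c0 * (X.toReal * ‖k‖ ^ (b + 1)) := by gcongr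
    _ ≤ (c0 * X.toReal + 1) * ‖k‖ ^ (b + 1) := by nlinarith

end NLcx

open NLcx in
/-- **NLc** (weak continuity of the nonlinearity) -/
theorem thm_NLc (hW : St_WkP) (hS : Pool.Agent.QWE.St_WkS) (hF : St_FldP) (hNw : St_NLw)
    (hDec : St_DecayP) : St_NLc := fun _ hb =>
  ⟨fun k k' h => part1 hW hF hS hb k k' h,
    fun k k' f g hf hg h hk hk' => part2 hW hF hS hNw hb k k' f g hf hg h hk hk',
    fun f g M hf hg => part3 hF hNw hDec hb f g M hf hg⟩

end Pool.Agent.QWP
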