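import Pool.Agent.QWP.StM
import Pool.Agent.QWE.GamE

set_option autoImplicit false

/-!
# QWP / NLd: refined bounds for the nonlinearity
-/

open MeasureTheory Filter Topology Set
open scoped ENNReal NNReal RealInnerProductSpace

namespace Pool.Agent.QWP

open Pool.Agent.QWE (E S sg mu K toK tau sh dl rev gr ig IsTest pd lap Rad dRad Rk dRk c0 WD Sm SmE IsSch half shr WTo)

namespace NLdx

open Pool.Agent.QWE (GamEx.ae_zero GamEx.int_mul GamEx.ae_eq GamEx.test_pd)

/-! ### norms with real exponents -/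

/-- the norm with real exponent -/
noncomputable def N (p : ℝ) (f : E → ℝ) : ℝ≥0∞ := eLpNorm f (ENNReal.ofReal p) volume

lemma hol {p q r : ℝ} (hp : 0 < p) (hq : 0 < q) (hr : 0 < r) (h : 1 / r = 1 / p + 1 / q)
    {f g : E → ℝ} (hf : AEStronglyMeasurable f volume) (hg : AEStronglyMeasurable g volume) :
    N r (fun x => f x * g x) ≤ N p f * N q g := by
  have : ENNReal.HolderTriple (ENNReal.ofReal p) (ENNReal.ofReal q) (ENNReal.ofReal r) := ⟨by
    rw [← ENNReal.ofReal_inv_of_pos hp, ← ENNReal.ofReal_inv_of_pos hq,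
      ← ENNReal.ofReal_inv_of_pos hr, ← ENNReal.ofReal_add (by positivity) (by positivity)]
    congr 1
    simpa [one_div] using h.symm⟩
  exact eLpNorm_smul_le_mul_eLpNorm (f := g) (φ := f) hg hf

lemma N_congr {p : ℝ} {f g : E → ℝ} (h : f =ᵐ[volume] g) : N p f = N p g := eLpNorm_congr_ae h

lemma N_add {p : ℝ} (hp : 1 ≤ p) {f g : E → ℝ} (hf : AEStronglyMeasurable f volume)
    (hg : AEStronglyMeasurable g volume) : N p (fun x => f x + g x) ≤ N p f + N p g :=
  eLpNorm_add_le hf hg (by rw [← ENNReal.ofReal_one]; exact ENNReal.ofReal_le_ofReal hp)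

lemma N_le {p : ℝ} {f g : E → ℝ} {c : ℝ} (h : ∀ᵐ x, |f x| ≤ c * |g x|) :
    N p f ≤ ENNReal.ofReal c * N p g :=
  eLpNorm_le_mul_eLpNorm_of_ae_le_mul h _

lemma N_const {p : ℝ} {f : E → ℝ} {c : ℝ} (hc : 0 ≤ c) :
    N p (fun x => c * f x) ≤ ENNReal.ofReal c * N p f :=
  N_le (Eventually.of_forall fun x => by rw [abs_mul, abs_of_nonneg hc])

lemma N_abs (p : ℝ) (f : E → ℝ) : N p (fun x => |f x|) = N p f := eLpNorm_norm f

lemma pw {p a : ℝ} (hp : 0 ≤ p) (ha : 0 < a) (f : E → ℝ) :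
    N p (fun x => |f x| ^ a) = N (p * a) f ^ a := by
  unfold N
  rw [ENNReal.ofReal_mul hp]
  exact eLpNorm_norm_rpow f ha

/-- the bound for a difference -/
lemma dif {p r a C : ℝ} (ha : 0 < a) (hp : 1 ≤ p) (hr : 0 < r) (h : 1 / r = a / p + 1 / p)
    {f u w z : E → ℝ} (hu : AEStronglyMeasurable u volume) (hw : AEStronglyMeasurable w volume)
    (hz : AEStronglyMeasurable z volume) (hle : ∀ᵐ x, |f x| ≤ C * (|u x| + |w x|) ^ a * |z x|) :
    N r f ≤ ENNReal.ofReal C * ((N p u + N p w) ^ a * N p z) := by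
  have hp0 : 0 < p := by linarith
  have hs : AEStronglyMeasurable (fun x => |u x| + |w x|) volume := hu.norm.add hw.norm
  have hsa : AEStronglyMeasurable (fun x => (|u x| + |w x|) ^ a) volume :=
    (Real.continuous_rpow_const ha.le).comp_aestronglyMeasurable hs
  have h1 : N r f ≤ ENNReal.ofReal C * N r (fun x => (|u x| + |w x|) ^ a * z x) := by
    refine N_le ?_
    filter_upwards [hle] with x hx
    rw [abs_mul, abs_of_nonneg (Real.rpow_nonneg (by positivity) a), ← mul_assoc]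
    exact hx
  have h2 : N r (fun x => (|u x| + |w x|) ^ a * z x) ≤ N (p / a) (fun x => (|u x| + |w x|) ^ a) * N p z :=
    hol (by positivity) hp0 hr (by rw [h]; field_simp) hsa hz
  have h3 : N (p / a) (fun x => (|u x| + |w x|) ^ a) = N p (fun x => |u x| + |w x|) ^ a := by
    have e := pw (p := p / a) (a := a) (by positivity) ha (fun x => |u x| + |w x|)
    have e1 : (fun x => abs (|u x| + |w x|) ^ a) = fun x => (|u x| + |w x|) ^ a := by
      funext x
      rw [abs_of_nonneg (by positivity)]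
    rw [e1] at e
    rw [e, div_mul_cancel₀ _ ha.ne']
  have h4 : N p (fun x => |u x| + |w x|) ≤ N p u + N p w := by
    have e := N_add hp hu.norm hw.norm
    rw [← N_abs p u, ← N_abs p w]
    exact e
  refine h1.trans ?_
  gcongr
  refine h2.trans ?_
  rw [h3]
  gcongr

/-- first product estimate -/
lemma estA {b r q C : ℝ} (hb : 2 < b) (hr : 1 ≤ r) (hq : 0 < q) (h : 1 / r = 1 / 5 + 1 / q)
    (hC : 0 ≤ C) (hd : ∀ u w : ℝ, abs (|u| ^ b - |w| ^ b) ≤ C * (|u| + |w|) ^ (b - 1) * |u - w|)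
    (hc : Continuous fun u : ℝ => |u| ^ b) {u u' w d d' e : E → ℝ}
    (hu : AEStronglyMeasurable u volume) (hu' : AEStronglyMeasurable u' volume)
    (hwm : AEStronglyMeasurable w volume)
    (hdm : AEStronglyMeasurable d volume) (hem : AEStronglyMeasurable e volume)
    (hw : w =ᵐ[volume] fun x => u x - u' x) (he : e =ᵐ[volume] fun x => d x - d' x) :
    N r (fun x => (b + 1) * |u x| ^ b * d x - (b + 1) * |u' x| ^ b * d' x) ≤
      ENNReal.ofReal ((b + 1) * (1 + C)) * (N (5 * b) u' ^ b * N q e +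
        (N (5 * b) u + N (5 * b) u') ^ (b - 1) * N (5 * b) w * N q d) := by
  have hb0 : 0 < b := by linarith
  have hr0 : 0 < r := by linarith
  have hb1 : 0 ≤ b + 1 := by linarith
  have mub : AEStronglyMeasurable (fun x => |u x| ^ b) volume := hc.comp_aestronglyMeasurable hu
  have mub' : AEStronglyMeasurable (fun x => |u' x| ^ b) volume := hc.comp_aestronglyMeasurable hu'
  have m1 : AEStronglyMeasurable (fun x => |u' x| ^ b * e x) volume := mub'.mul hem
  have m2 : AEStronglyMeasurable (fun x => (|u x| ^ b - |u' x| ^ b) * d x) volume :=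
    (mub.sub mub').mul hdm
  have e1 : (fun x => (b + 1) * |u x| ^ b * d x - (b + 1) * |u' x| ^ b * d' x) =ᵐ[volume]
      fun x => (b + 1) * (|u' x| ^ b * e x) + (b + 1) * ((|u x| ^ b - |u' x| ^ b) * d x) := by
    filter_upwards [he] with x hx
    rw [hx]
    ring
  rw [N_congr e1]
  have h1 : N r (fun x => |u' x| ^ b * e x) ≤ N (5 * b) u' ^ b * N q e := by
    rw [← pw (p := 5) (by norm_num) hb0 u']
    exact hol (by norm_num) hq hr0 h mub' hem
  have h2 : N r (fun x => (|u x| ^ b - |u' x| ^ b) * d x) ≤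
      ENNReal.ofReal C * ((N (5 * b) u + N (5 * b) u') ^ (b - 1) * N (5 * b) w) * N q d := by
    refine (hol (p := 5) (by norm_num) hq hr0 h (mub.sub mub') hdm).trans ?_
    gcongr
    refine dif (by linarith) (by linarith) (by norm_num) (by field_simp; ring) hu hu' hwm ?_
    filter_upwards [hw] with x hx
    rw [hx]
    exact hd _ _
  calc N r (fun x => (b + 1) * (|u' x| ^ b * e x) + (b + 1) * ((|u x| ^ b - |u' x| ^ b) * d x))
      ≤ N r (fun x => (b + 1) * (|u' x| ^ b * e x)) +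
        N r (fun x => (b + 1) * ((|u x| ^ b - |u' x| ^ b) * d x)) :=
        N_add hr (m1.const_mul _) (m2.const_mul _)
    _ ≤ ENNReal.ofReal (b + 1) * (N (5 * b) u' ^ b * N q e) + ENNReal.ofReal (b + 1) *
        (ENNReal.ofReal C * ((N (5 * b) u + N (5 * b) u') ^ (b - 1) * N (5 * b) w) * N q d) := by
        refine add_le_add ((N_const hb1).trans ?_) ((N_const hb1).trans ?_)
        · gcongr
        · gcongr
    _ ≤ ENNReal.ofReal ((b + 1) * (1 + C)) * (N (5 * b) u' ^ b * N q e) +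
        ENNReal.ofReal ((b + 1) * (1 + C)) *
        ((N (5 * b) u + N (5 * b) u') ^ (b - 1) * N (5 * b) w * N q d) := by
        refine add_le_add ?_ ?_
        · gcongr
          nlinarith
        · rw [← mul_assoc (ENNReal.ofReal (b + 1)), ← mul_assoc (ENNReal.ofReal (b + 1)),
            ← ENNReal.ofReal_mul hb1, mul_assoc (ENNReal.ofReal ((b + 1) * C))]
          gcongr
          linarith
    _ = _ := by rw [← mul_add]

lemma phi_abs {b : ℝ} (hb : 2 < b) (u : ℝ) : abs (|u| ^ (b - 2) * u) = |u| ^ (b - 1) := by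
  rw [abs_mul, abs_of_nonneg (Real.rpow_nonneg (abs_nonneg _) _)]
  rcases eq_or_ne u 0 with rfl | h
  · rw [abs_zero, mul_zero, Real.zero_rpow (by linarith)]
  · have h0 : 0 < |u| := abs_pos.2 h
    have e : b - 1 = (b - 2) + 1 := by ring
    rw [e, Real.rpow_add h0, Real.rpow_one]

/-- second product estimate -/
lemma estB {b r y c C : ℝ} (hb : 2 < b) (hr : 1 ≤ r) (hy : 0 < y)
    (h : 1 / r = (b - 1) / (5 * b) + 2 / y) (hc0 : 0 ≤ c)
    (hC : 0 ≤ C) (hd : ∀ u w : ℝ, |(|u| ^ (b - 2) * u) - |w| ^ (b - 2) * w| ≤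
      C * (|u| + |w|) ^ (b - 2) * |u - w|)
    (hc : Continuous fun u : ℝ => |u| ^ (b - 2) * u) {u u' w d d' e e' a a' : E → ℝ}
    (hu : AEStronglyMeasurable u volume) (hu' : AEStronglyMeasurable u' volume)
    (hwm : AEStronglyMeasurable w volume)
    (hdm : AEStronglyMeasurable d volume) (hdm' : AEStronglyMeasurable d' volume)
    (hem : AEStronglyMeasurable e volume)
    (ham : AEStronglyMeasurable a volume) (ham' : AEStronglyMeasurable a' volume)
    (hw : w =ᵐ[volume] fun x => u x - u' x) (ha : a =ᵐ[volume] fun x => d x - d' x)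
    (ha' : a' =ᵐ[volume] fun x => e x - e' x) :
    N r (fun x => c * (|u x| ^ (b - 2) * u x) * d x * e x - c * (|u' x| ^ (b - 2) * u' x) * d' x * e' x) ≤
      ENNReal.ofReal (c * (1 + C)) * ((N (5 * b) u + N (5 * b) u') ^ (b - 2) * N (5 * b) w *
        (N y d * N y e) + N (5 * b) u' ^ (b - 1) * (N y a * N y e + N y d' * N y a')) := by
  have hb0 : 0 < b := by linarith
  have hr0 : 0 < r := by linarith
  have hb1 : 0 < b - 1 := by linarith
  have mub : AEStronglyMeasurable (fun x => |u x| ^ (b - 2) * u x) volume :=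
    hc.comp_aestronglyMeasurable hu
  have mub' : AEStronglyMeasurable (fun x => |u' x| ^ (b - 2) * u' x) volume :=
    hc.comp_aestronglyMeasurable hu'
  have m1 : AEStronglyMeasurable (fun x => ((|u x| ^ (b - 2) * u x) - |u' x| ^ (b - 2) * u' x) *
      (d x * e x)) volume := (mub.sub mub').mul (hdm.mul hem)
  have m2 : AEStronglyMeasurable (fun x => (|u' x| ^ (b - 2) * u' x) * (a x * e x)) volume :=
    mub'.mul (ham.mul hem)
  have m3 : AEStronglyMeasurable (fun x => (|u' x| ^ (b - 2) * u' x) * (d' x * a' x)) volume :=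
    mub'.mul (hdm'.mul ham')
  have e1 : (fun x => c * (|u x| ^ (b - 2) * u x) * d x * e x -
      c * (|u' x| ^ (b - 2) * u' x) * d' x * e' x) =ᵐ[volume]
      fun x => c * (((|u x| ^ (b - 2) * u x) - |u' x| ^ (b - 2) * u' x) * (d x * e x)) +
        (c * ((|u' x| ^ (b - 2) * u' x) * (a x * e x)) +
          c * ((|u' x| ^ (b - 2) * u' x) * (d' x * a' x))) := by
    filter_upwards [ha, ha'] with x hx hx'
    rw [hx, hx']
    ring
  rw [N_congr e1]
  have hq : (0 : ℝ) < 5 * b / (b - 1) := by positivity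
  have hy2 : (0 : ℝ) < y / 2 := by positivity
  have hrel : 1 / r = 1 / (5 * b / (b - 1)) + 1 / (y / 2) := by
    rw [h]
    field_simp
  have hyy : 1 / (y / 2) = 1 / y + 1 / y := by
    field_simp
    norm_num
  have hpr : ∀ {f g : E → ℝ}, AEStronglyMeasurable f volume → AEStronglyMeasurable g volume →
      N (y / 2) (fun x => f x * g x) ≤ N y f * N y g := fun hf hg => hol hy hy hy2 hyy hf hg
  have hph : N (5 * b / (b - 1)) (fun x => |u' x| ^ (b - 2) * u' x) = N (5 * b) u' ^ (b - 1) := by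
    have e2 : N (5 * b / (b - 1)) (fun x => |u' x| ^ (b - 2) * u' x) =
        N (5 * b / (b - 1)) (fun x => |u' x| ^ (b - 1)) := by
      rw [← N_abs]
      congr 1
      funext x
      exact phi_abs hb _
    rw [e2, pw hq.le hb1, div_mul_cancel₀ _ hb1.ne']
  have h1 : N r (fun x => ((|u x| ^ (b - 2) * u x) - |u' x| ^ (b - 2) * u' x) * (d x * e x)) ≤
      ENNReal.ofReal C * ((N (5 * b) u + N (5 * b) u') ^ (b - 2) * N (5 * b) w) * (N y d * N y e) := by
    refine (hol hq hy2 hr0 hrel (mub.sub mub') (hdm.mul hem)).trans ?_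
    refine mul_le_mul' ?_ (hpr hdm hem)
    refine dif (by linarith) (by linarith) hq (by field_simp; ring) hu hu' hwm ?_
    filter_upwards [hw] with x hx
    rw [hx]
    exact hd _ _
  have h2 : N r (fun x => (|u' x| ^ (b - 2) * u' x) * (a x * e x)) ≤
      N (5 * b) u' ^ (b - 1) * (N y a * N y e) := by
    refine (hol hq hy2 hr0 hrel mub' (ham.mul hem)).trans ?_
    rw [hph]
    exact mul_le_mul' le_rfl (hpr ham hem)
  have h3 : N r (fun x => (|u' x| ^ (b - 2) * u' x) * (d' x * a' x)) ≤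
      N (5 * b) u' ^ (b - 1) * (N y d' * N y a') := by
    refine (hol hq hy2 hr0 hrel mub' (hdm'.mul ham')).trans ?_
    rw [hph]
    exact mul_le_mul' le_rfl (hpr hdm' ham')
  have hcC : c ≤ c * (1 + C) := by nlinarith
  have hcC' : c * C ≤ c * (1 + C) := by nlinarith
  calc _ ≤ N r (fun x => c * (((|u x| ^ (b - 2) * u x) - |u' x| ^ (b - 2) * u' x) * (d x * e x))) +
        (N r (fun x => c * ((|u' x| ^ (b - 2) * u' x) * (a x * e x))) +
          N r (fun x => c * ((|u' x| ^ (b - 2) * u' x) * (d' x * a' x)))) :=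
        (N_add hr (m1.const_mul _) ((m2.const_mul _).add (m3.const_mul _))).trans
          (add_le_add le_rfl (N_add hr (m2.const_mul _) (m3.const_mul _)))
    _ ≤ ENNReal.ofReal c * (ENNReal.ofReal C * ((N (5 * b) u + N (5 * b) u') ^ (b - 2) *
          N (5 * b) w) * (N y d * N y e)) + (ENNReal.ofReal c * (N (5 * b) u' ^ (b - 1) *
          (N y a * N y e)) + ENNReal.ofReal c * (N (5 * b) u' ^ (b - 1) * (N y d' * N y a'))) := by
        refine add_le_add ((N_const hc0).trans ?_) (add_le_add ((N_const hc0).trans ?_)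
          ((N_const hc0).trans ?_))
        · gcongr
        · gcongr
        · gcongr
    _ ≤ ENNReal.ofReal (c * (1 + C)) * ((N (5 * b) u + N (5 * b) u') ^ (b - 2) *
          N (5 * b) w * (N y d * N y e)) + (ENNReal.ofReal (c * (1 + C)) * (N (5 * b) u' ^ (b - 1) *
          (N y a * N y e)) + ENNReal.ofReal (c * (1 + C)) * (N (5 * b) u' ^ (b - 1) *
          (N y d' * N y a'))) := by
        refine add_le_add ?_ (add_le_add ?_ ?_)
        · rw [← mul_assoc (ENNReal.ofReal c), ← mul_assoc (ENNReal.ofReal c),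
            ← ENNReal.ofReal_mul hc0, mul_assoc (ENNReal.ofReal (c * C))]
          gcongr
        · gcongr
        · gcongr
    _ = _ := by ring

/-! ### numbers -/

/-- geometric mean -/
lemma gm {X Y c s t s' t' : ℝ≥0∞} (h1 : X ^ 2 ≤ c * s * t) (h2 : Y ^ 2 ≤ c * s' * t') :
    X * Y ≤ c * (s * t' + t * s') := by
  rw [← ENNReal.pow_le_pow_left_iff two_ne_zero]
  have h3 : s * t' ≤ s * t' + t * s' := le_self_add
  have h4 : t * s' ≤ s * t' + t * s' := le_add_self
  calc (X * Y) ^ 2 = X ^ 2 * Y ^ 2 := by ring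
    _ ≤ (c * s * t) * (c * s' * t') := mul_le_mul' h1 h2
    _ = c ^ 2 * ((s * t') * (t * s')) := by ring
    _ ≤ c ^ 2 * ((s * t' + t * s') * (s * t' + t * s')) := by
        gcongr
    _ = (c * (s * t' + t * s')) ^ 2 := by ring

lemma pow1 {b : ℝ} (hb : 2 < b) (S : ℝ≥0∞) : S ^ (b - 1) = S ^ (b - 2) * S := by
  have h := ENNReal.rpow_add_of_nonneg (x := S) (b - 2) 1 (by linarith) (by norm_num)
  rw [ENNReal.rpow_one] at h
  rw [← h]
  congr 1
  ring

lemma pow2 {b : ℝ} (hb : 2 < b) (S : ℝ≥0∞) : S ^ b = S ^ (b - 1) * S := by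
  have h := ENNReal.rpow_add_of_nonneg (x := S) (b - 1) 1 (by linarith) (by norm_num)
  rw [ENNReal.rpow_one] at h
  rw [← h]
  congr 1
  ring

/-- the quantity on the right side -/
noncomputable def RR (b : ℝ) (A A' a tk tk' tw : ℝ≥0∞) : ℝ≥0∞ :=
  (A + A') ^ (b - 1) * a * (tk + tk') + (A + A') ^ b * tw

lemma algA {b : ℝ} (hb : 2 < b) {A A' a tk tk' tw n n' c : ℝ≥0∞} (h1 : n ≤ tw) (h2 : n' ≤ tk) :
    c * (A' ^ b * n + (A + A') ^ (b - 1) * a * n') ≤ c * RR b A A' a tk tk' tw := by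
  have hb0 : 0 ≤ b := by linarith
  unfold RR
  gcongr c * ?_
  rw [add_comm]
  refine add_le_add ?_ ?_
  · gcongr
    exact h2.trans le_self_add
  · gcongr
    exact le_add_self

lemma algB {b : ℝ} (hb : 2 < b) {A A' a tk tk' tw P1 P2 P3 c g : ℝ≥0∞}
    (h3 : P1 ≤ g * (A * tk + tk * A)) (h4 : P2 ≤ g * (a * tk + tw * A))
    (h5 : P3 ≤ g * (A' * tw + tk' * a)) :
    c * ((A + A') ^ (b - 2) * a * P1 + A' ^ (b - 1) * (P2 + P3)) ≤
      (4 * c * g) * RR b A A' a tk tk' tw := by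
  have hb0 : 0 ≤ b := by linarith
  have hb1 : 0 ≤ b - 1 := by linarith
  have hA : A ≤ A + A' := le_self_add
  have hA' : A' ≤ A + A' := le_add_self
  have e1 := pow1 hb (A + A')
  have e2 := pow2 hb (A + A')
  unfold RR
  set S := A + A'
  have t1 : S ^ (b - 2) * a * P1 ≤ 2 * g * (S ^ (b - 1) * a * (tk + tk')) := by
    calc S ^ (b - 2) * a * P1 ≤ S ^ (b - 2) * a * (g * (S * (tk + tk') + (tk + tk') * S)) := by
          gcongr
          refine h3.trans ?_
          gcongr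
          · exact le_self_add
          · exact le_self_add
      _ = 2 * g * (S ^ (b - 2) * S * a * (tk + tk')) := by ring
      _ = _ := by rw [← e1]
  have t2 : A' ^ (b - 1) * (P2 + P3) ≤ 2 * g * (S ^ (b - 1) * a * (tk + tk') + S ^ b * tw) := by
    calc A' ^ (b - 1) * (P2 + P3) ≤ S ^ (b - 1) * (g * (a * tk + tw * S) + g * (S * tw + tk' * a)) := by
          gcongr
          · exact h4.trans (by gcongr)
          · exact h5.trans (by gcongr)
      _ = g * (S ^ (b - 1) * a * (tk + tk') + 2 * (S ^ (b - 1) * S * tw)) := by ring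
      _ = g * (S ^ (b - 1) * a * (tk + tk') + 2 * (S ^ b * tw)) := by rw [← e2]
      _ ≤ g * (2 * (S ^ (b - 1) * a * (tk + tk')) + 2 * (S ^ b * tw)) := by
          refine mul_le_mul' le_rfl (add_le_add ?_ le_rfl)
          rw [two_mul]
          exact le_self_add
      _ = _ := by ring
  calc c * (S ^ (b - 2) * a * P1 + A' ^ (b - 1) * (P2 + P3))
      ≤ c * (2 * g * (S ^ (b - 1) * a * (tk + tk')) +
        2 * g * (S ^ (b - 1) * a * (tk + tk') + S ^ b * tw)) := by gcongr
    _ ≤ c * (2 * g * (S ^ (b - 1) * a * (tk + tk') + S ^ b * tw) +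
        2 * g * (S ^ (b - 1) * a * (tk + tk') + S ^ b * tw)) := by
        gcongr
        exact le_self_add
    _ = _ := by ring

/-! ### exponents -/

lemma sig_bd {b : ℝ} (hb : 2 < b) : |sig b| < 1 / 2 := by
  have h1 : 0 < 2 / b := by positivity
  have h2 : 2 / b < 1 := by rw [div_lt_one (by linarith)]; exact hb
  unfold sig
  rw [abs_lt]
  constructor <;> linarith

lemma sig_le {b : ℝ} (hb : 2 < b) (h : b ≤ 4) : sig b ≤ 0 := by
  have h1 : 1 / 2 ≤ 2 / b := by
    rw [div_le_div_iff₀ (by norm_num) (by linarith)]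
    linarith
  unfold sig
  linarith

lemma sig_pos {b : ℝ} (h : 4 < b) : 0 < sig b := by
  have h1 : 2 / b < 1 / 2 := by
    rw [div_lt_div_iff₀ (by linarith) (by norm_num)]
    linarith
  unfold sig
  linarith

lemma one_le {x : ℝ} (h1 : 0 < x) (h2 : x ≤ 10) : (1 : ℝ) ≤ 10 / x := by
  rw [le_div_iff₀ h1]
  linarith

lemma one_le' {x : ℝ} (h1 : 0 < x) (h2 : x ≤ 10) : (1 : ℝ≥0∞) ≤ ENNReal.ofReal (10 / x) := by
  rw [← ENNReal.ofReal_one]
  exact ENNReal.ofReal_le_ofReal (one_le h1 h2)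

/-! ### uniqueness of sources -/

lemma uniq (dns : St_DnsP) {s : ℝ} (hs : |s| < 1 / 2) {w w' : K} (h : ∀ φ, IsTest φ →
    inner ℝ w (Rs s φ) = inner ℝ w' (Rs s φ) ∧ inner ℝ w (dRs s φ) = inner ℝ w' (dRs s φ)) :
    w = w' := by
  have h1 : w - w' ∈ (Submodule.span ℝ {v : K | ∃ φ, IsTest φ ∧ tsupport φ ⊆ (univ : Set E) ∧
      (v = Rs s φ ∨ v = dRs s φ)})ᗮ := by
    rw [Submodule.mem_orthogonal]
    intro u hu
    induction hu using Submodule.span_induction with
    | mem v hv =>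
      obtain ⟨φ, hφ, -, rfl | rfl⟩ := hv
      · rw [real_inner_comm, inner_sub_left, (h φ hφ).1, sub_self]
      · rw [real_inner_comm, inner_sub_left, (h φ hφ).2, sub_self]
    | zero => exact inner_zero_left _
    | add x y _ _ hx hy => rw [inner_add_left, hx, hy, add_zero]
    | smul a x _ hx => rw [inner_smul_left, hx, mul_zero]
  rw [← Submodule.orthogonal_closure] at h1
  have h2 : (Submodule.span ℝ {v : K | ∃ φ, IsTest φ ∧ tsupport φ ⊆ (univ : Set E) ∧
      (v = Rs s φ ∨ v = dRs s φ)}).topologicalClosure = ⊤ := (dns s hs).1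
  rw [h2, Submodule.top_orthogonal_eq_bot, Submodule.mem_bot] at h1
  exact sub_eq_zero.1 h1

lemma int_sub {f g φ : E → ℝ} (hf : LocallyIntegrable f volume) (hg : LocallyIntegrable g volume)
    (hφ : IsTest φ) : ∫ x, (f x - g x) * φ x = (∫ x, f x * φ x) - ∫ x, g x * φ x := by
  have e : (fun x => (f x - g x) * φ x) = fun x => f x * φ x - g x * φ x := by
    funext x
    ring
  rw [e, integral_sub (QWE.GamEx.int_mul hf hφ) (QWE.GamEx.int_mul hg hφ)]

lemma WD_sub {i : Fin 5} {f g f' g' : E → ℝ} (hf : LocallyIntegrable f volume)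
    (hg : LocallyIntegrable g volume) (hf' : LocallyIntegrable f' volume)
    (hg' : LocallyIntegrable g' volume) (h : WD i f g) (h' : WD i f' g') :
    WD i (fun x => f x - f' x) (fun x => g x - g' x) := by
  intro φ hφ
  rw [int_sub hf hf' (QWE.GamEx.test_pd hφ i), int_sub hg hg' hφ, h φ hφ, h' φ hφ]
  ring

/-! ### sources of states -/

/-- the gradient of the source -/
noncomputable def GG (b : ℝ) (k : K) (i : Fin 5) (x : E) : ℝ :=
  (b + 1) * |U (sig b) k x| ^ b * DU (sig b) k i x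

/-- the second derivatives of the source -/
noncomputable def HH (b : ℝ) (k : K) (i j : Fin 5) (x : E) : ℝ :=
  (b + 1) * |U (sig b) k x| ^ b * DDU (sig b) k i j x +
    (b + 1) * b * (|U (sig b) k x| ^ (b - 2) * U (sig b) k x) * DU (sig b) k i x * DU (sig b) k j x

lemma bds {b : ℝ} (hb : 2 < b) : 0 < 3 - 2 * sig b ∧ 3 - 2 * sig b ≤ 10 ∧ 0 < 5 - 2 * sig b ∧
    5 - 2 * sig b ≤ 10 ∧ 0 < 7 - 2 * sig b ∧ 7 - 2 * sig b ≤ 10 := by
  have h := abs_lt.1 (sig_bd hb)
  refine ⟨?_, ?_, ?_, ?_, ?_, ?_⟩ <;> linarith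

/-- the source belongs to `NL` -/
lemma isGam (gamQ : St_GamQ) (nlg : St_NLg) (nlh : St_NLh) {b : ℝ} (hb : 2 < b) {k : K}
    (hk : sn b k < ⊤) : IsGam (sig b) (fun x => Fn b (U (sig b) k x)) (NL b k) := by
  obtain ⟨C, hC, hg⟩ := gamQ (sig b) (sig_bd hb)
  obtain ⟨h1, h2⟩ := nlg b k hb hk
  have h3 := hg _ (GG b k) h1 h2
  rcases le_or_gt b 4 with h4 | h4
  · exact (h3.1 (sig_le hb h4)).1
  · exact (h3.2 (HH b k) fun i j => nlh b k i j h4 hk).1

/-- the difference of two sources -/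
lemma gam_sub (dns : St_DnsP) (nlg : St_NLg) {b : ℝ} (hb : 2 < b) {k k' : K} (hk : sn b k < ⊤)
    (hk' : sn b k' < ⊤) (g1 : IsGam (sig b) (fun x => Fn b (U (sig b) k x)) (NL b k))
    (g2 : IsGam (sig b) (fun x => Fn b (U (sig b) k' x)) (NL b k'))
    (g3 : IsGam (sig b) (fun x => Fn b (U (sig b) k x) - Fn b (U (sig b) k' x))
      (Gam (sig b) fun x => Fn b (U (sig b) k x) - Fn b (U (sig b) k' x))) :
    NL b k - NL b k' = Gam (sig b) fun x => Fn b (U (sig b) k x) - Fn b (U (sig b) k' x) := by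
  obtain ⟨b1, b2, -⟩ := bds hb
  have l1 := (nlg b k hb hk).1.locallyIntegrable (one_le' b1 b2)
  have l2 := (nlg b k' hb hk').1.locallyIntegrable (one_le' b1 b2)
  refine uniq dns (sig_bd hb) fun φ hφ => ?_
  rw [inner_sub_left, inner_sub_left, (g1 φ hφ).1, (g2 φ hφ).1, (g3 φ hφ).1, (g1 φ hφ).2,
    (g2 φ hφ).2, (g3 φ hφ).2, int_sub l1 l2 hφ]
  simp

/-! ### linearity of the fields -/

lemma sub_eq (k k' : K) : k - k' = k + (-1 : ℝ) • k' := by
  rw [neg_one_smul, sub_eq_add_neg]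

lemma U_sub (fldP : St_FldP) {s : ℝ} (hs : |s| < 1 / 2) (k k' : K) :
    U s (k - k') =ᵐ[volume] fun x => U s k x - U s k' x := by
  obtain ⟨C, hC, -, h, -⟩ := fldP s hs
  rw [sub_eq]
  filter_upwards [(h (-1) k k').1] with x hx
  rw [hx]
  ring

lemma DU_sub (fldP : St_FldP) {s : ℝ} (hs : |s| < 1 / 2) (k k' : K) (i : Fin 5) :
    DU s (k - k') i =ᵐ[volume] fun x => DU s k i x - DU s k' i x := by
  obtain ⟨C, hC, -, h, -⟩ := fldP s hs
  rw [sub_eq]
  filter_upwards [(h (-1) k k').2.2 i] with x hx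
  rw [hx]
  ring

lemma DDU_sub (fldD : St_FldD) {s : ℝ} (hs : 0 ≤ s) (hs' : s < 1 / 2) (k k' : K) (i j : Fin 5) :
    DDU s (k - k') i j =ᵐ[volume] fun x => DDU s k i j x - DDU s k' i j x := by
  obtain ⟨C, hC, -, h, -⟩ := fldD s hs hs'
  rw [sub_eq]
  filter_upwards [h (-1) k k' i j] with x hx
  rw [hx]
  ring

lemma U_meas (fldP : St_FldP) {s : ℝ} (hs : |s| < 1 / 2) (k : K) :
    AEStronglyMeasurable (U s k) volume := by
  obtain ⟨C, hC, h, -, -⟩ := fldP s hs
  exact (h k).1.1.1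

lemma DU_meas (fldP : St_FldP) {s : ℝ} (hs : |s| < 1 / 2) (k : K) (i : Fin 5) :
    AEStronglyMeasurable (DU s k i) volume := by
  obtain ⟨C, hC, h, -, -⟩ := fldP s hs
  exact ((h k).2.2.2.2.1 i).1.1

lemma DDU_meas (fldD : St_FldD) {s : ℝ} (hs : 0 ≤ s) (hs' : s < 1 / 2) (k : K) (i j : Fin 5) :
    AEStronglyMeasurable (DDU s k i j) volume := by
  obtain ⟨C, hC, h, -, -⟩ := fldD s hs hs'
  exact (h k i j).1.1

lemma sn_fin (fldP : St_FldP) {b : ℝ} (hb : 2 < b) {k k' : K} (hk : sn b k < ⊤) (hk' : sn b k' < ⊤) :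
    sn b (k - k') < ⊤ := by
  unfold sn at hk hk' ⊢
  rw [eLpNorm_congr_ae (U_sub fldP (sig_bd hb) k k')]
  exact (MemLp.sub ⟨U_meas fldP (sig_bd hb) k, hk⟩ ⟨U_meas fldP (sig_bd hb) k', hk'⟩).2

/-! ### the difference estimate -/

/-- the right side for two states -/
noncomputable def RS (b : ℝ) (k k' : K) : ℝ≥0∞ :=
  RR b (sn b k) (sn b k') (sn b (k - k')) (tn b k) (tn b k') (tn b (k - k'))

lemma caseA (fldP : St_FldP) (npq : St_Npq) (gamQ : St_GamQ) (nlg : St_NLg) {b : ℝ} (hb : 2 < b)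
    (h4 : b ≤ 4) : ∃ D : ℝ≥0∞, D ≠ ⊤ ∧ ∀ k k' : K, sn b k < ⊤ → sn b k' < ⊤ →
      IsGam (sig b) (fun x => Fn b (U (sig b) k x) - Fn b (U (sig b) k' x))
        (Gam (sig b) fun x => Fn b (U (sig b) k x) - Fn b (U (sig b) k' x)) ∧
      ‖Gam (sig b) fun x => Fn b (U (sig b) k x) - Fn b (U (sig b) k' x)‖ₑ ≤ D * RS b k k' := by
  obtain ⟨C, hC, -, -, hc, -, -, hd, -⟩ := npq b hb
  obtain ⟨C1, hC1, hg⟩ := gamQ (sig b) (sig_bd hb)
  obtain ⟨b1, b2, b3, b4, b5, b6⟩ := bds hb
  have hs := sig_bd hb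
  refine ⟨ENNReal.ofReal C1 * (5 * ENNReal.ofReal ((b + 1) * (1 + C))), by
    refine ENNReal.mul_ne_top ENNReal.ofReal_ne_top
      (ENNReal.mul_ne_top (by norm_num) ENNReal.ofReal_ne_top), fun k k' hk hk' => ?_⟩
  obtain ⟨f1, f2⟩ := nlg b k hb hk
  obtain ⟨f1', f2'⟩ := nlg b k' hb hk'
  have h3 := (hg (fun x => Fn b (U (sig b) k x) - Fn b (U (sig b) k' x))
    (fun i x => GG b k i x - GG b k' i x) (f1.sub f1') fun i => ⟨(f2 i).1.sub (f2' i).1,
      WD_sub (f1.locallyIntegrable (one_le' b1 b2)) ((f2 i).1.locallyIntegrable (one_le' b3 b4))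
        (f1'.locallyIntegrable (one_le' b1 b2)) ((f2' i).1.locallyIntegrable (one_le' b3 b4))
        (f2 i).2 (f2' i).2⟩).1 (sig_le hb h4)
  refine ⟨h3.1, h3.2.trans ?_⟩
  rw [mul_assoc]
  gcongr
  have ht : ∀ k : K, tn b k = ∑ i, eLpNorm (DU (sig b) k i) (q1 (sig b)) volume := fun k => by
    unfold tn
    rw [if_pos h4]
  have hi : ∀ i, eLpNorm (fun x => GG b k i x - GG b k' i x) (q2 (sig b)) volume ≤
      ENNReal.ofReal ((b + 1) * (1 + C)) * RS b k k' := by
    intro i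
    have e1 := estA (r := 10 / (5 - 2 * sig b)) (q := 10 / (3 - 2 * sig b)) hb (one_le b3 b4)
      (by positivity) (by rw [one_div_div, one_div_div]; ring) hC.le hd hc (U_meas fldP hs k)
      (U_meas fldP hs k') (U_meas fldP hs (k - k')) (DU_meas fldP hs k i)
      (DU_meas fldP hs (k - k') i) (U_sub fldP hs k k') (DU_sub fldP hs k k' i)
    refine e1.trans (algA hb ?_ ?_)
    · rw [ht]
      exact Finset.single_le_sum (f := fun i => eLpNorm (DU (sig b) (k - k') i) (q1 (sig b)) volume)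
        (fun _ _ => bot_le) (Finset.mem_univ i)
    · rw [ht]
      exact Finset.single_le_sum (f := fun i => eLpNorm (DU (sig b) k i) (q1 (sig b)) volume)
        (fun _ _ => bot_le) (Finset.mem_univ i)
  calc ∑ i, eLpNorm (fun x => GG b k i x - GG b k' i x) (q2 (sig b)) volume
      ≤ ∑ _i : Fin 5, ENNReal.ofReal ((b + 1) * (1 + C)) * RS b k k' :=
        Finset.sum_le_sum fun i _ => hi i
    _ = _ := by
        rw [Finset.sum_const, Finset.card_univ, Fintype.card_fin, nsmul_eq_mul]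
        push_cast
        ring

lemma caseB (fldP : St_FldP) (npq : St_Npq) (gamQ : St_GamQ) (fldD : St_FldD) (gnk : St_GNk)
    (nlg : St_NLg) (nlh : St_NLh) {b : ℝ} (hb : 2 < b)
    (h4 : 4 < b) : ∃ D : ℝ≥0∞, D ≠ ⊤ ∧ ∀ k k' : K, sn b k < ⊤ → sn b k' < ⊤ →
      IsGam (sig b) (fun x => Fn b (U (sig b) k x) - Fn b (U (sig b) k' x))
        (Gam (sig b) fun x => Fn b (U (sig b) k x) - Fn b (U (sig b) k' x)) ∧
      ‖Gam (sig b) fun x => Fn b (U (sig b) k x) - Fn b (U (sig b) k' x)‖ₑ ≤ D * RS b k k' := by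
  obtain ⟨C, hC, -, -, hc, hc2, -, hd, hd2, -⟩ := npq b hb
  obtain ⟨C1, hC1, hg⟩ := gamQ (sig b) (sig_bd hb)
  obtain ⟨C2, hC2, hgn⟩ := gnk b h4
  obtain ⟨b1, b2, b3, b4, b5, b6⟩ := bds hb
  have hs := sig_bd hb
  have hs0 := (sig_pos h4).le
  have hs1 : sig b < 1 / 2 := (abs_lt.1 hs).2
  have hb0 : 0 < b := by linarith
  set M : ℝ≥0∞ := ENNReal.ofReal ((b + 1) * (1 + C)) +
    4 * ENNReal.ofReal ((b + 1) * b * (1 + C)) * ENNReal.ofReal C2 with hM
  have hMt : M ≠ ⊤ := ENNReal.add_ne_top.2 ⟨ENNReal.ofReal_ne_top,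
    ENNReal.mul_ne_top (ENNReal.mul_ne_top (by norm_num) ENNReal.ofReal_ne_top)
      ENNReal.ofReal_ne_top⟩
  refine ⟨ENNReal.ofReal C1 * (25 * M), by
    refine ENNReal.mul_ne_top ENNReal.ofReal_ne_top
      (ENNReal.mul_ne_top (by norm_num) hMt), fun k k' hk hk' => ?_⟩
  have hw := sn_fin fldP hb hk hk'
  obtain ⟨f1, f2⟩ := nlg b k hb hk
  obtain ⟨f1', f2'⟩ := nlg b k' hb hk'
  have f3 := fun i j => nlh b k i j h4 hk
  have f3' := fun i j => nlh b k' i j h4 hk'
  have h3 := (hg (fun x => Fn b (U (sig b) k x) - Fn b (U (sig b) k' x))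
    (fun i x => GG b k i x - GG b k' i x) (f1.sub f1') fun i => ⟨(f2 i).1.sub (f2' i).1,
      WD_sub (f1.locallyIntegrable (one_le' b1 b2)) ((f2 i).1.locallyIntegrable (one_le' b3 b4))
        (f1'.locallyIntegrable (one_le' b1 b2)) ((f2' i).1.locallyIntegrable (one_le' b3 b4))
        (f2 i).2 (f2' i).2⟩).2 (fun i j x => HH b k i j x - HH b k' i j x) fun i j =>
      ⟨(f3 i j).1.sub (f3' i j).1,
      WD_sub ((f2 i).1.locallyIntegrable (one_le' b3 b4))
        ((f3 i j).1.locallyIntegrable (one_le' b5 b6))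
        ((f2' i).1.locallyIntegrable (one_le' b3 b4))
        ((f3' i j).1.locallyIntegrable (one_le' b5 b6)) (f3 i j).2 (f3' i j).2⟩
  refine ⟨h3.1, h3.2.trans ?_⟩
  rw [mul_assoc]
  gcongr
  have ht : ∀ k : K, tn b k = ∑ i, ∑ j, eLpNorm (DDU (sig b) k i j) (q2 (sig b)) volume := fun k => by
    unfold tn
    rw [if_neg (by linarith)]
  have htt : ∀ (k : K) (i j : Fin 5), N (10 / (5 - 2 * sig b)) (DDU (sig b) k i j) ≤ tn b k := by
    intro k i j
    rw [ht]
    refine le_trans (Finset.single_le_sum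
      (f := fun j => eLpNorm (DDU (sig b) k i j) (q2 (sig b)) volume)
      (fun _ _ => bot_le) (Finset.mem_univ j)) ?_
    exact Finset.single_le_sum
      (f := fun i => ∑ j, eLpNorm (DDU (sig b) k i j) (q2 (sig b)) volume)
      (fun _ _ => bot_le) (Finset.mem_univ i)
  have mb : ∀ k : K, AEStronglyMeasurable (fun x => |U (sig b) k x| ^ b) volume := fun k =>
    hc.comp_aestronglyMeasurable (U_meas fldP hs k)
  have mph : ∀ k : K, AEStronglyMeasurable (fun x => |U (sig b) k x| ^ (b - 2) * U (sig b) k x)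
      volume := fun k => hc2.comp_aestronglyMeasurable (U_meas fldP hs k)
  have hij : ∀ i j, eLpNorm (fun x => HH b k i j x - HH b k' i j x) (p2 (sig b)) volume ≤
      M * RS b k k' := by
    intro i j
    have e1 := estA (r := 10 / (7 - 2 * sig b)) (q := 10 / (5 - 2 * sig b))
      (d := DDU (sig b) k i j) (d' := DDU (sig b) k' i j) (e := DDU (sig b) (k - k') i j)
      hb (one_le b5 b6)
      (by positivity) (by rw [one_div_div, one_div_div]; ring) hC.le hd hc (U_meas fldP hs k)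
      (U_meas fldP hs k') (U_meas fldP hs (k - k')) (DDU_meas fldD hs0 hs1 k i j)
      (DDU_meas fldD hs0 hs1 (k - k') i j) (U_sub fldP hs k k') (DDU_sub fldD hs0 hs1 k k' i j)
    have e2 := estB (r := 10 / (7 - 2 * sig b)) (y := 10 * b / (2 * b + 3)) (c := (b + 1) * b)
      hb (one_le b5 b6) (by positivity) (by
        rw [one_div_div]
        unfold sig
        field_simp
        ring) (by positivity) hC.le hd2 hc2 (U_meas fldP hs k)
      (U_meas fldP hs k') (U_meas fldP hs (k - k')) (DU_meas fldP hs k i) (DU_meas fldP hs k' i)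
      (DU_meas fldP hs k j) (DU_meas fldP hs (k - k') i) (DU_meas fldP hs (k - k') j)
      (U_sub fldP hs k k') (DU_sub fldP hs k k' i) (DU_sub fldP hs k k' j)
    have e3 : (fun x => HH b k i j x - HH b k' i j x) = fun x =>
        ((b + 1) * |U (sig b) k x| ^ b * DDU (sig b) k i j x -
          (b + 1) * |U (sig b) k' x| ^ b * DDU (sig b) k' i j x) +
        ((b + 1) * b * (|U (sig b) k x| ^ (b - 2) * U (sig b) k x) * DU (sig b) k i x *
            DU (sig b) k j x -
          (b + 1) * b * (|U (sig b) k' x| ^ (b - 2) * U (sig b) k' x) * DU (sig b) k' i x *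
            DU (sig b) k' j x) := by
      funext x
      unfold HH
      ring
    have m1 : ∀ k : K, AEStronglyMeasurable
        (fun x => (b + 1) * |U (sig b) k x| ^ b * DDU (sig b) k i j x) volume := fun k =>
      ((mb k).const_mul _).mul (DDU_meas fldD hs0 hs1 k i j)
    have m2 : ∀ k : K, AEStronglyMeasurable (fun x => (b + 1) * b *
        (|U (sig b) k x| ^ (b - 2) * U (sig b) k x) * DU (sig b) k i x * DU (sig b) k j x)
        volume := fun k =>
      (((mph k).const_mul _).mul (DU_meas fldP hs k i)).mul (DU_meas fldP hs k j)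
    rw [e3]
    refine (N_add (one_le b5 b6) ((m1 k).sub (m1 k')) ((m2 k).sub (m2 k'))).trans ?_
    rw [hM]
    refine le_trans ?_ (le_of_eq (add_mul _ _ _).symm)
    refine add_le_add (e1.trans (algA hb (htt _ _ _) (htt _ _ _))) (e2.trans (algB hb ?_ ?_ ?_))
    · exact gm (hgn k i hk) (hgn k j hk)
    · exact gm (hgn (k - k') i hw) (hgn k j hk)
    · exact gm (hgn k' i hk') (hgn (k - k') j hw)
  calc ∑ i, ∑ j, eLpNorm (fun x => HH b k i j x - HH b k' i j x) (p2 (sig b)) volume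
      ≤ ∑ _i : Fin 5, ∑ _j : Fin 5, M * RS b k k' :=
        Finset.sum_le_sum fun i _ => Finset.sum_le_sum fun j _ => hij i j
    _ = _ := by
        simp only [Finset.sum_const, Finset.card_univ, Fintype.card_fin, nsmul_eq_mul]
        push_cast
        ring

lemma main_bd (fldP : St_FldP) (dns : St_DnsP) (npq : St_Npq) (gamQ : St_GamQ) (fldD : St_FldD)
    (gnk : St_GNk) (nlg : St_NLg) (nlh : St_NLh) {b : ℝ} (hb : 2 < b) :
    ∃ D : ℝ≥0∞, D ≠ ⊤ ∧ ∀ k k' : K, sn b k < ⊤ → sn b k' < ⊤ →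
      ‖NL b k - NL b k'‖ₑ ≤ D * RS b k k' := by
  have h : ∃ D : ℝ≥0∞, D ≠ ⊤ ∧ ∀ k k' : K, sn b k < ⊤ → sn b k' < ⊤ →
      IsGam (sig b) (fun x => Fn b (U (sig b) k x) - Fn b (U (sig b) k' x))
        (Gam (sig b) fun x => Fn b (U (sig b) k x) - Fn b (U (sig b) k' x)) ∧
      ‖Gam (sig b) fun x => Fn b (U (sig b) k x) - Fn b (U (sig b) k' x)‖ₑ ≤ D * RS b k k' := by
    rcases le_or_gt b 4 with h4 | h4
    · exact caseA fldP npq gamQ nlg hb h4
    · exact caseB fldP npq gamQ fldD gnk nlg nlh hb h4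
  obtain ⟨D, hD, h⟩ := h
  refine ⟨D, hD, fun k k' hk hk' => ?_⟩
  obtain ⟨h1, h2⟩ := h k k' hk hk'
  rw [gam_sub dns nlg hb hk hk' (isGam gamQ nlg nlh hb hk) (isGam gamQ nlg nlh hb hk') h1]
  exact h2

/-- `tn` is bounded by the norm -/
lemma tn_bd (fldP : St_FldP) (fldD : St_FldD) {b : ℝ} (hb : 2 < b) :
    ∃ D : ℝ≥0∞, D ≠ ⊤ ∧ ∀ k : K, tn b k ≤ D * ‖k‖ₑ := by
  rcases le_or_gt b 4 with h4 | h4
  · obtain ⟨C, hC, h, -, -⟩ := fldP (sig b) (sig_bd hb)
    refine ⟨5 * ENNReal.ofReal C, ENNReal.mul_ne_top (by norm_num) ENNReal.ofReal_ne_top,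
      fun k => ?_⟩
    unfold tn
    rw [if_pos h4]
    calc ∑ i, eLpNorm (DU (sig b) k i) (q1 (sig b)) volume ≤
          ∑ _i : Fin 5, ENNReal.ofReal C * ‖k‖ₑ :=
          Finset.sum_le_sum fun i _ => ((h k).2.2.2.2.1 i).2.2
      _ = _ := by
          simp only [Finset.sum_const, Finset.card_univ, Fintype.card_fin, nsmul_eq_mul]
          push_cast
          ring
  · obtain ⟨C, hC, h, -, -⟩ := fldD (sig b) (sig_pos h4).le (abs_lt.1 (sig_bd hb)).2
    refine ⟨25 * ENNReal.ofReal C, ENNReal.mul_ne_top (by norm_num) ENNReal.ofReal_ne_top,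
      fun k => ?_⟩
    unfold tn
    rw [if_neg (by linarith)]
    calc ∑ i, ∑ j, eLpNorm (DDU (sig b) k i j) (q2 (sig b)) volume ≤
          ∑ _i : Fin 5, ∑ _j : Fin 5, ENNReal.ofReal C * ‖k‖ₑ :=
          Finset.sum_le_sum fun i _ => Finset.sum_le_sum fun j _ => (h k i j).2.2
      _ = _ := by
          simp only [Finset.sum_const, Finset.card_univ, Fintype.card_fin, nsmul_eq_mul]
          push_cast
          ring

lemma U_zero (fldP : St_FldP) {s : ℝ} (hs : |s| < 1 / 2) : U s 0 =ᵐ[volume] 0 := by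
  have h := U_sub fldP hs 0 0
  rw [sub_zero] at h
  filter_upwards [h] with x hx
  simpa using hx

lemma sn_zero (fldP : St_FldP) {b : ℝ} (hb : 2 < b) : sn b 0 = 0 := by
  unfold sn
  rw [eLpNorm_congr_ae (U_zero fldP (sig_bd hb)), eLpNorm_zero]

lemma NL_zero (fldP : St_FldP) (dns : St_DnsP) (gamQ : St_GamQ) (nlg : St_NLg) (nlh : St_NLh)
    {b : ℝ} (hb : 2 < b) : NL b 0 = 0 := by
  have h := isGam gamQ nlg nlh hb (k := 0) (by rw [sn_zero fldP hb]; exact ENNReal.zero_lt_top)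
  refine uniq dns (sig_bd hb) fun φ hφ => ?_
  rw [(h φ hφ).1, (h φ hφ).2, inner_zero_left, inner_zero_left]
  refine ⟨rfl, ?_⟩
  refine integral_eq_zero_of_ae ?_
  filter_upwards [U_zero fldP (sig_bd hb)] with x hx
  simp [hx, Fn]

end NLdx

open NLdx

theorem thm_NLd (fldP : St_FldP) (dns : St_DnsP) (npq : St_Npq) (gamQ : St_GamQ) (fldD : St_FldD)
    (gnk : St_GNk) (nlg : St_NLg) (nlh : St_NLh) : St_NLd := by
  intro b hb
  have hs := sig_bd hb
  have hb0 : 0 < b := by linarith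
  obtain ⟨D, hD, h1⟩ := main_bd fldP dns npq gamQ fldD gnk nlg nlh hb
  obtain ⟨D', hD', h2⟩ := tn_bd fldP fldD hb
  -- the constant
  set M : ℝ≥0∞ := D' + D * (1 + D') * 2 with hM
  have hMt : M ≠ ⊤ := ENNReal.add_ne_top.2 ⟨hD', ENNReal.mul_ne_top (ENNReal.mul_ne_top hD
    (ENNReal.add_ne_top.2 ⟨ENNReal.one_ne_top, hD'⟩)) (by norm_num)⟩
  have hMC : M ≤ ENNReal.ofReal (M.toReal + 1) := by
    calc M = ENNReal.ofReal M.toReal := (ENNReal.ofReal_toReal hMt).symm
      _ ≤ _ := ENNReal.ofReal_le_ofReal (by linarith)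
  have hz := sn_zero fldP hb
  have hzf : sn b 0 < ⊤ := by rw [hz]; exact ENNReal.zero_lt_top
  have hD1 : D * (1 + D') ≤ M := by
    rw [hM]
    calc D * (1 + D') ≤ D * (1 + D') * 2 := by
          rw [mul_two]
          exact le_self_add
      _ ≤ _ := le_add_self
  refine ⟨M.toReal + 1, by positivity, fun k => ?_, fun k => ?_, fun k k' hk hk' => ?_,
    fun k hk => ?_⟩
  · refine (h2 k).trans ?_
    gcongr
    exact le_trans le_self_add hMC
  · rcases eq_or_ne (sn b k) ⊤ with hk | hk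
    · have hk0 : k ≠ 0 := by
        rintro rfl
        rw [hz] at hk
        exact ENNReal.zero_ne_top hk
      have e : ENNReal.ofReal (M.toReal + 1) * sn b k ^ b * ‖k‖ₑ = ⊤ := by
        rw [hk, ENNReal.top_rpow_of_pos hb0, ENNReal.mul_top (by
          rw [ne_eq, ENNReal.ofReal_eq_zero, not_le]
          positivity), ENNReal.top_mul (by simpa using hk0)]
      rw [e]
      exact le_top
    · have h3 := h1 k 0 hk.lt_top hzf
      rw [NL_zero fldP dns gamQ nlg nlh hb, sub_zero] at h3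
      refine h3.trans ?_
      unfold RS RR
      rw [sub_zero, hz, add_zero]
      have t0 : tn b 0 = 0 := by
        have := h2 0
        simpa using this
      rw [t0, add_zero]
      calc D * (sn b k ^ (b - 1) * sn b k * tn b k + sn b k ^ b * tn b k)
          = D * (sn b k ^ b * tn b k) * 2 := by
            rw [← pow2 hb]
            ring
        _ ≤ D * (sn b k ^ b * (D' * ‖k‖ₑ)) * 2 := by
            gcongr
            exact h2 k
        _ = (D * D' * 2) * sn b k ^ b * ‖k‖ₑ := by ring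
        _ ≤ ENNReal.ofReal (M.toReal + 1) * sn b k ^ b * ‖k‖ₑ := by
            gcongr
            refine le_trans ?_ hMC
            rw [hM]
            refine le_trans ?_ le_add_self
            gcongr
            exact le_add_self
  · refine (h1 k k' hk hk').trans ?_
    unfold RS RR
    have e1 : tn b k + tn b k' ≤ (1 + D') * (‖k‖ₑ + ‖k'‖ₑ) := by
      calc tn b k + tn b k' ≤ D' * ‖k‖ₑ + D' * ‖k'‖ₑ := add_le_add (h2 k) (h2 k')
        _ = D' * (‖k‖ₑ + ‖k'‖ₑ) := by ring
        _ ≤ _ := by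
            gcongr
            exact le_add_self
    calc D * ((sn b k + sn b k') ^ (b - 1) * sn b (k - k') * (tn b k + tn b k') +
          (sn b k + sn b k') ^ b * tn b (k - k'))
        ≤ D * ((sn b k + sn b k') ^ (b - 1) * sn b (k - k') * ((1 + D') * (‖k‖ₑ + ‖k'‖ₑ)) +
          (sn b k + sn b k') ^ b * ((1 + D') * tn b (k - k'))) := by
          gcongr
          refine le_trans (le_of_eq (one_mul _).symm) ?_
          gcongr
          exact le_self_add
      _ = (D * (1 + D')) * ((sn b k + sn b k') ^ (b - 1) * sn b (k - k') * (‖k‖ₑ + ‖k'‖ₑ) +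
          (sn b k + sn b k') ^ b * tn b (k - k')) := by ring
      _ ≤ _ := by
          gcongr
          exact hD1.trans hMC
  · have hG := isGam gamQ nlg nlh hb hk
    obtain ⟨b1, b2, -⟩ := bds hb
    obtain ⟨C, hC, hf, -, -⟩ := fldP (sig b) hs
    have hf1 := hf (NL b k)
    have hl := abs_lt.1 hs
    refine ⟨hG, ?_, ?_⟩
    · have l1 : LocallyIntegrable (U (sig b) (NL b k)) volume :=
        hf1.1.1.locallyIntegrable (one_le' (by linarith) (by linarith))
      exact QWE.GamEx.ae_zero l1 fun φ hφ => by rw [hf1.1.2 φ hφ, (hG φ hφ).1]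
    · have l1 : LocallyIntegrable (V (sig b) (NL b k)) volume :=
        hf1.2.2.1.1.locallyIntegrable (one_le' b1 b2)
      have l2 := (nlg b k hb hk).1.locallyIntegrable (one_le' b1 b2)
      exact QWE.GamEx.ae_eq l1 l2 fun φ hφ => by rw [hf1.2.2.1.2 φ hφ, (hG φ hφ).2]

end Pool.Agent.QWP
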