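import Pool.Agent.QWP.StM
import Pool.Agent.QWP.EnS
import Pool.Agent.QWP.NLw

set_option autoImplicit false

/-!
# QWP, NLg: the weak gradient of the nonlinearity

The identity for test functions is passed to the limit with `f_n → U k` in `L^{5b/2}` and
`∂_i f_n → DU k i` in `L^{q1}` (Hoelder: `2/5 + 1/q1 < 1`).
-/

open MeasureTheory Filter Topology Set
open scoped ENNReal NNReal RealInnerProductSpace ContDiff

namespace Pool.Agent.QWP

open Pool.Agent.QWE (E S sg mu K toK tau sh dl rev gr ig IsTest pd lap Rad dRad Rk dRk c0 WD Sm SmE IsSch half shr WTo)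

namespace NLgx

lemma q1_sig {b : ℝ} (hb : 2 < b) : q1 (sig b) = ENNReal.ofReal (5 * b / (b + 2)) := by
  unfold q1 sig
  congr 1
  have h1 : b ≠ 0 := by linarith
  have h2 : b + 2 ≠ 0 := by linarith
  have h3 : (3 - 2 * (1 / 2 - 2 / b)) = 2 * (b + 2) / b := by
    field_simp
    ring
  rw [h3]
  field_simp
  ring

lemma q2_sig {b : ℝ} (hb : 2 < b) : q2 (sig b) = ENNReal.ofReal (5 * b / (2 * (b + 1))) := by
  unfold q2 sig
  congr 1
  have h1 : b ≠ 0 := by linarith
  have h2 : b + 1 ≠ 0 := by linarith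
  have h3 : (5 - 2 * (1 / 2 - 2 / b)) = 4 * (b + 1) / b := by
    field_simp
    ring
  rw [h3]
  field_simp
  ring

lemma mpow {u : E → ℝ} {b : ℝ} (hb : 0 < b) (hu : AEStronglyMeasurable u volume) :
    AEStronglyMeasurable (fun x => |u x| ^ b) volume :=
  (Real.continuous_rpow_const hb.le).comp_aestronglyMeasurable hu.norm

lemma npow {b c : ℝ} (hb : 0 < b) (hc : 0 ≤ c) (u : E → ℝ) :
    eLpNorm (fun x => |u x| ^ b) (ENNReal.ofReal c) volume =
      eLpNorm u (ENNReal.ofReal (c * b)) volume ^ b := by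
  have h := eLpNorm_norm_rpow (μ := (volume : Measure E)) (p := ENNReal.ofReal c) (q := b) u hb
  rw [← ENNReal.ofReal_mul hc] at h
  exact h

/-- `|f|^b` is continuous from `L^{5b/2}` to `L^{5/2}`: estimate. -/
lemma diffpow {b C : ℝ} (hb : 2 < b)
    (hC : ∀ u w : ℝ, abs (|u| ^ b - |w| ^ b) ≤ C * (|u| + |w|) ^ (b - 1) * |u - w|)
    {f u : E → ℝ} (hf : AEStronglyMeasurable f volume) (hu : AEStronglyMeasurable u volume) :
    eLpNorm (fun x => |f x| ^ b - |u x| ^ b) (ENNReal.ofReal (5 / 2)) volume ≤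
      ENNReal.ofReal C * ((eLpNorm (fun x => f x - u x) (ENNReal.ofReal (5 * b / 2)) volume +
        2 * eLpNorm u (ENNReal.ofReal (5 * b / 2)) volume) ^ (b - 1) *
        eLpNorm (fun x => f x - u x) (ENNReal.ofReal (5 * b / 2)) volume) := by
  have hb1 : 0 < b - 1 := by linarith
  have hq : 1 ≤ ENNReal.ofReal (5 * b / 2) := by
    rw [ENNReal.one_le_ofReal]
    linarith
  have h1 : eLpNorm (fun x => |f x| ^ b - |u x| ^ b) (ENNReal.ofReal (5 / 2)) volume ≤
      ENNReal.ofReal C * eLpNorm (fun x => (|f x| + |u x|) ^ (b - 1) * (f x - u x))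
        (ENNReal.ofReal (5 / 2)) volume := by
    refine eLpNorm_le_mul_eLpNorm_of_ae_le_mul (Eventually.of_forall fun x => ?_) _
    simp only [norm_mul, Real.norm_eq_abs]
    rw [abs_of_nonneg (Real.rpow_nonneg (add_nonneg (abs_nonneg (f x)) (abs_nonneg (u x))) _)]
    have h2 := hC (f x) (u x)
    rw [mul_assoc] at h2
    exact h2
  have i1 : ENNReal.HolderTriple (ENNReal.ofReal (5 * b / (2 * (b - 1))))
      (ENNReal.ofReal (5 * b / 2)) (ENNReal.ofReal (5 / 2)) := by
    refine NLwx.holder (by positivity) (by positivity) (by norm_num) ?_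
    field_simp
    ring
  have hm : AEStronglyMeasurable (fun x => |f x| + |u x|) (volume : Measure E) :=
    hf.norm.add hu.norm
  have hm' : AEStronglyMeasurable (fun x => (|f x| + |u x|) ^ (b - 1)) (volume : Measure E) :=
    (Real.continuous_rpow_const hb1.le).comp_aestronglyMeasurable hm
  have h3 : eLpNorm (fun x => (|f x| + |u x|) ^ (b - 1) * (f x - u x)) (ENNReal.ofReal (5 / 2))
      volume ≤ eLpNorm (fun x => (|f x| + |u x|) ^ (b - 1))
        (ENNReal.ofReal (5 * b / (2 * (b - 1)))) volume *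
        eLpNorm (fun x => f x - u x) (ENNReal.ofReal (5 * b / 2)) volume :=
    eLpNorm_smul_le_mul_eLpNorm (φ := fun x => (|f x| + |u x|) ^ (b - 1))
      (f := fun x => f x - u x) (hf.sub hu) hm'
  have h4 : eLpNorm (fun x => (|f x| + |u x|) ^ (b - 1)) (ENNReal.ofReal (5 * b / (2 * (b - 1))))
      volume = eLpNorm (fun x => |f x| + |u x|) (ENNReal.ofReal (5 * b / 2)) volume ^ (b - 1) := by
    have h5 := npow (c := 5 * b / (2 * (b - 1))) hb1 (by positivity) (fun x => |f x| + |u x|)
    have e : 5 * b / (2 * (b - 1)) * (b - 1) = 5 * b / 2 := by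
      field_simp
    rw [e] at h5
    rw [← h5]
    congr 1
    funext x
    rw [abs_of_nonneg (add_nonneg (abs_nonneg (f x)) (abs_nonneg (u x)))]
  have h5 : eLpNorm (fun x => |f x| + |u x|) (ENNReal.ofReal (5 * b / 2)) volume ≤
      eLpNorm (fun x => f x - u x) (ENNReal.ofReal (5 * b / 2)) volume +
        2 * eLpNorm u (ENNReal.ofReal (5 * b / 2)) volume := by
    have h6 := eLpNorm_add_le (μ := (volume : Measure E)) (f := fun x => |f x|)
      (g := fun x => |u x|) hf.norm hu.norm hq
    have h7 : eLpNorm (fun x => |f x|) (ENNReal.ofReal (5 * b / 2)) (volume : Measure E) =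
        eLpNorm f (ENNReal.ofReal (5 * b / 2)) volume := eLpNorm_norm f
    have h8 : eLpNorm (fun x => |u x|) (ENNReal.ofReal (5 * b / 2)) (volume : Measure E) =
        eLpNorm u (ENNReal.ofReal (5 * b / 2)) volume := eLpNorm_norm u
    have h9 := eLpNorm_add_le (μ := (volume : Measure E)) (f := fun x => f x - u x)
      (g := u) (hf.sub hu) hu hq
    have h10 : ((fun x => f x - u x) + u) = f := by
      funext x
      simp
    rw [h10] at h9
    rw [h7, h8] at h6
    refine h6.trans ((add_le_add_left h9 _).trans (le_of_eq ?_))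
    ring
  refine h1.trans (mul_le_mul_right ?_ _)
  refine h3.trans (mul_le_mul_left ?_ _)
  rw [h4]
  exact ENNReal.rpow_le_rpow h5 hb1.le

/-- limit of `∫ |f_n|^b g_n φ` -/
lemma lim_int {b C q t : ℝ} (hb : 2 < b) (hq : 0 < q) (ht : 0 < t)
    (hqt : q⁻¹ + t⁻¹ = 3 / 5)
    (hC : ∀ u w : ℝ, abs (|u| ^ b - |w| ^ b) ≤ C * (|u| + |w|) ^ (b - 1) * |u - w|)
    {f g : ℕ → E → ℝ} {u v φ : E → ℝ} (hf : ∀ n, MemLp (f n) (ENNReal.ofReal (5 * b / 2)) volume)
    (hu : MemLp u (ENNReal.ofReal (5 * b / 2)) volume)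
    (hg : ∀ n, MemLp (g n) (ENNReal.ofReal q) volume) (hv : MemLp v (ENNReal.ofReal q) volume)
    (hφ : MemLp φ (ENNReal.ofReal t) volume)
    (hfu : Tendsto (fun n => eLpNorm (fun x => f n x - u x) (ENNReal.ofReal (5 * b / 2)) volume)
      atTop (𝓝 0))
    (hgv : Tendsto (fun n => eLpNorm (fun x => g n x - v x) (ENNReal.ofReal q) volume)
      atTop (𝓝 0)) :
    Tendsto (fun n => ∫ x, |f n x| ^ b * g n x * φ x) atTop (𝓝 (∫ x, |u x| ^ b * v x * φ x)) := by
  have hb0 : 0 < b := by linarith
  have i1 : ENNReal.HolderTriple (ENNReal.ofReal (5 / 2)) (ENNReal.ofReal (5 / 3)) 1 := by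
    rw [← ENNReal.ofReal_one]
    exact NLwx.holder (by norm_num) (by norm_num) one_pos (by norm_num)
  have i2 : ENNReal.HolderTriple (ENNReal.ofReal q) (ENNReal.ofReal t) (ENNReal.ofReal (5 / 3)) := by
    refine NLwx.holder hq ht (by norm_num) ?_
    rw [hqt]
    norm_num
  have e52 : (5 / 2 : ℝ) * b = 5 * b / 2 := by ring
  have mp : ∀ {w : E → ℝ}, MemLp w (ENNReal.ofReal (5 * b / 2)) volume →
      MemLp (fun x => |w x| ^ b) (ENNReal.ofReal (5 / 2)) volume := by
    intro w hw
    refine ⟨mpow hb0 hw.1, ?_⟩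
    rw [npow hb0 (by norm_num), e52]
    exact ENNReal.rpow_lt_top_of_nonneg hb0.le hw.2.ne
  have mg : ∀ {w : E → ℝ}, MemLp w (ENNReal.ofReal q) volume →
      MemLp (fun x => w x * φ x) (ENNReal.ofReal (5 / 3)) volume := fun hw =>
    MemLp.mul' (p := ENNReal.ofReal q) (q := ENNReal.ofReal t) hφ hw
  have int : ∀ {w z : E → ℝ}, MemLp w (ENNReal.ofReal (5 * b / 2)) volume →
      MemLp z (ENNReal.ofReal q) volume →
      Integrable (fun x => |w x| ^ b * z x * φ x) volume := by
    intro w z hw hz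
    have h := MemLp.mul' (p := ENNReal.ofReal (5 / 2)) (q := ENNReal.ofReal (5 / 3)) (r := 1)
      (mg hz) (mp hw)
    rw [memLp_one_iff_integrable] at h
    refine h.congr (Eventually.of_forall fun x => ?_)
    simp only
    ring
  refine tendsto_integral_of_L1' _ (int hu hv).aestronglyMeasurable (Eventually.of_forall fun n => int (hf n) (hg n)) ?_
  set A := eLpNorm u (ENNReal.ofReal (5 * b / 2)) volume with hA
  set V' := eLpNorm v (ENNReal.ofReal q) volume with hV'
  set Φ := eLpNorm φ (ENNReal.ofReal t) volume with hΦ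
  have hAt : A ≠ ⊤ := hu.2.ne
  have hVt : V' ≠ ⊤ := hv.2.ne
  have hΦt : Φ ≠ ⊤ := hφ.2.ne
  have bd : ∀ n, eLpNorm ((fun x => |f n x| ^ b * g n x * φ x) - fun x => |u x| ^ b * v x * φ x) 1
      volume ≤ (eLpNorm (fun x => f n x - u x) (ENNReal.ofReal (5 * b / 2)) volume + A) ^ b *
        (eLpNorm (fun x => g n x - v x) (ENNReal.ofReal q) volume * Φ) +
        ENNReal.ofReal C * ((eLpNorm (fun x => f n x - u x) (ENNReal.ofReal (5 * b / 2)) volume +
          2 * A) ^ (b - 1) *
          eLpNorm (fun x => f n x - u x) (ENNReal.ofReal (5 * b / 2)) volume) * (V' * Φ) := by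
    intro n
    have e1 : ((fun x => |f n x| ^ b * g n x * φ x) - fun x => |u x| ^ b * v x * φ x) =
        (fun x => |f n x| ^ b * ((g n x - v x) * φ x)) +
          fun x => (|f n x| ^ b - |u x| ^ b) * (v x * φ x) := by
      funext x
      simp only [Pi.sub_apply, Pi.add_apply]
      ring
    rw [e1]
    have m1 := mp (hf n)
    have m2 := mp hu
    have m3 : MemLp (fun x => (g n x - v x) * φ x) (ENNReal.ofReal (5 / 3)) volume :=
      mg ((hg n).sub hv)
    have m4 := mg hv
    have m5 : AEStronglyMeasurable (fun x => |f n x| ^ b - |u x| ^ b) (volume : Measure E) :=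
      m1.1.sub m2.1
    refine (eLpNorm_add_le (m1.1.mul m3.1) (m5.mul m4.1) le_rfl).trans (add_le_add ?_ ?_)
    · have h1 : eLpNorm (fun x => |f n x| ^ b * ((g n x - v x) * φ x)) 1 volume ≤
          eLpNorm (fun x => |f n x| ^ b) (ENNReal.ofReal (5 / 2)) volume *
            eLpNorm (fun x => (g n x - v x) * φ x) (ENNReal.ofReal (5 / 3)) volume :=
        eLpNorm_smul_le_mul_eLpNorm (φ := fun x => |f n x| ^ b)
          (f := fun x => (g n x - v x) * φ x) m3.1 m1.1
      have h2 : eLpNorm (fun x => (g n x - v x) * φ x) (ENNReal.ofReal (5 / 3)) volume ≤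
          eLpNorm (fun x => g n x - v x) (ENNReal.ofReal q) volume * Φ :=
        eLpNorm_smul_le_mul_eLpNorm (φ := fun x => g n x - v x) (f := φ) hφ.1
          ((hg n).1.sub hv.1)
      have h3 : eLpNorm (f n) (ENNReal.ofReal (5 * b / 2)) volume ≤
          eLpNorm (fun x => f n x - u x) (ENNReal.ofReal (5 * b / 2)) volume + A := by
        have hq1 : 1 ≤ ENNReal.ofReal (5 * b / 2) := by
          rw [ENNReal.one_le_ofReal]
          linarith
        have h9 := eLpNorm_add_le (μ := (volume : Measure E)) (f := fun x => f n x - u x)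
          (g := u) ((hf n).1.sub hu.1) hu.1 hq1
        have h10 : ((fun x => f n x - u x) + u) = f n := by
          funext x
          simp
        rwa [h10] at h9
      refine h1.trans (mul_le_mul' ?_ h2)
      rw [npow hb0 (by norm_num), e52]
      exact ENNReal.rpow_le_rpow h3 hb0.le
    · have h1 : eLpNorm (fun x => (|f n x| ^ b - |u x| ^ b) * (v x * φ x)) 1 volume ≤
          eLpNorm (fun x => |f n x| ^ b - |u x| ^ b) (ENNReal.ofReal (5 / 2)) volume *
            eLpNorm (fun x => v x * φ x) (ENNReal.ofReal (5 / 3)) volume :=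
        eLpNorm_smul_le_mul_eLpNorm (φ := fun x => |f n x| ^ b - |u x| ^ b)
          (f := fun x => v x * φ x) m4.1 m5
      have h2 : eLpNorm (fun x => v x * φ x) (ENNReal.ofReal (5 / 3)) volume ≤ V' * Φ :=
        eLpNorm_smul_le_mul_eLpNorm (φ := v) (f := φ) hφ.1 hv.1
      exact h1.trans (mul_le_mul' (diffpow hb hC (hf n).1 hu.1) h2)
  refine tendsto_of_tendsto_of_tendsto_of_le_of_le tendsto_const_nhds ?_ (fun _ => zero_le) bd
  have t1 : Tendsto (fun n => (eLpNorm (fun x => f n x - u x) (ENNReal.ofReal (5 * b / 2)) volume +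
      A) ^ b) atTop (𝓝 ((0 + A) ^ b)) :=
    ((ENNReal.continuous_rpow_const (y := b)).tendsto _).comp (hfu.add tendsto_const_nhds)
  have t2 : Tendsto (fun n => (eLpNorm (fun x => f n x - u x) (ENNReal.ofReal (5 * b / 2)) volume +
      2 * A) ^ (b - 1)) atTop (𝓝 ((0 + 2 * A) ^ (b - 1))) :=
    ((ENNReal.continuous_rpow_const (y := b - 1)).tendsto _).comp (hfu.add tendsto_const_nhds)
  have n1 : (0 + A) ^ b ≠ ⊤ := ENNReal.rpow_ne_top_of_nonneg hb0.le (by simpa using hAt)
  have n2 : (0 + 2 * A) ^ (b - 1) ≠ ⊤ :=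
    ENNReal.rpow_ne_top_of_nonneg (by linarith) (by
      rw [zero_add]
      exact ENNReal.mul_ne_top (by norm_num) hAt)
  have t3 : Tendsto (fun n => eLpNorm (fun x => g n x - v x) (ENNReal.ofReal q) volume * Φ) atTop
      (𝓝 (0 * Φ)) := ENNReal.Tendsto.mul_const hgv (Or.inr hΦt)
  have t4 := ENNReal.Tendsto.mul t1 (Or.inr (by simp)) t3 (Or.inr n1)
  have t5 := ENNReal.Tendsto.mul t2 (Or.inr (by simp)) hfu (Or.inr n2)
  have t6 := ENNReal.Tendsto.const_mul (a := ENNReal.ofReal C) t5 (Or.inr ENNReal.ofReal_ne_top)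
  have t7 := ENNReal.Tendsto.mul_const (b := V' * Φ) t6 (Or.inr (ENNReal.mul_ne_top hVt hΦt))
  have t8 := t4.add t7
  simpa using t8

/-- chain rule and integration by parts for test functions -/
lemma ibp {b : ℝ} (hb : 2 < b) {f φ : E → ℝ} (hf : IsTest f) (hφ : IsTest φ) (i : Fin 5) :
    ∫ x, |f x| ^ b * f x * pd i φ x = -((b + 1) * ∫ x, |f x| ^ b * pd i f x * φ x) := by
  have hb0 : 0 < b := by linarith
  have hd : ∀ x, HasFDerivAt (fun x => Fn b (f x)) (((b + 1) * |f x| ^ b) • fderiv ℝ f x) x :=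
    fun x => (NLwx.hasDeriv hb (f x)).comp_hasFDerivAt x
      ((hf.1.differentiable (by simp)) x).hasFDerivAt
  have hF : Differentiable ℝ (fun x => Fn b (f x)) := fun x => (hd x).differentiableAt
  have hφd : Differentiable ℝ φ := hφ.1.differentiable (by simp)
  have e1 : ∀ x, fderiv ℝ (fun x => Fn b (f x)) x (EuclideanSpace.single i (1 : ℝ)) =
      (b + 1) * (|f x| ^ b * pd i f x) := by
    intro x
    rw [(hd x).fderiv, pd, ContinuousLinearMap.smul_apply, smul_eq_mul]
    ring
  have cf : Continuous fun x => |f x| ^ b :=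
    (Real.continuous_rpow_const hb0.le).comp hf.1.continuous.norm
  have cF : Continuous fun x => Fn b (f x) := (NLwx.cont_Fn hb).comp hf.1.continuous
  have cp : Continuous (pd i f) := (EnSx.test_pd hf i).1.continuous
  have cq : Continuous (pd i φ) := (EnSx.test_pd hφ i).1.continuous
  have h := integral_mul_fderiv_eq_neg_fderiv_mul_of_integrable
    (f := fun x => Fn b (f x)) (g := φ) (v := EuclideanSpace.single i (1 : ℝ))
    (μ := (volume : Measure E)) (by
      simp only [e1]
      refine ((continuous_const.mul (cf.mul cp)).mul hφ.1.continuous).integrable_of_hasCompactSupport ?_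
      exact hφ.2.mul_left) (by
      refine (cF.mul cq).integrable_of_hasCompactSupport ?_
      exact (EnSx.test_pd hφ i).2.mul_left) (by
      refine (cF.mul hφ.1.continuous).integrable_of_hasCompactSupport ?_
      exact hφ.2.mul_left) (fun x _ => hF x) (fun x _ => hφd x)
  simp only [e1] at h
  have e2 : ∫ x, |f x| ^ b * f x * pd i φ x =
      ∫ x, Fn b (f x) * fderiv ℝ φ x (EuclideanSpace.single i (1 : ℝ)) := rfl
  rw [e2, h, ← integral_const_mul]
  congr 1
  refine integral_congr_ae (Eventually.of_forall fun x => ?_)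
  simp only
  ring

end NLgx

open NLgx in
theorem thm_NLg (hNpq : St_Npq) (hFld : St_FldP) (hDns : St_DnsP) : St_NLg := by
  intro b k hb hsn
  have hb0 : 0 < b := by linarith
  have hs := EnSx.sig_lt hb
  obtain ⟨C, hC, hk, hlin, hth⟩ := hFld (sig b) hs
  obtain ⟨hIU, -, -, -, hDU, -⟩ := hk k
  have mU : MemLp (U (sig b) k) (ENNReal.ofReal (5 * b / 2)) volume := by
    have := hIU.1
    rwa [EnSx.q0_sig hb] at this
  have mS : MemLp (U (sig b) k) (ENNReal.ofReal (5 * b)) volume := ⟨mU.1, hsn⟩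
  refine ⟨?_, fun i => ⟨?_, ?_⟩⟩
  · have hm : AEStronglyMeasurable (fun x => Fn b (U (sig b) k x)) volume :=
      (NLwx.cont_Fn hb).comp_aestronglyMeasurable mU.1
    refine ⟨hm, ?_⟩
    have e1 : eLpNorm (fun x => Fn b (U (sig b) k x)) (q1 (sig b)) volume =
        eLpNorm (fun x => |U (sig b) k x| ^ (b + 1)) (q1 (sig b)) volume := by
      refine eLpNorm_congr_norm_ae (Eventually.of_forall fun x => ?_)
      rw [Fn, norm_mul, Real.norm_eq_abs, Real.norm_eq_abs, Real.norm_eq_abs,
        abs_of_nonneg (Real.rpow_nonneg (abs_nonneg _) b),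
        abs_of_nonneg (Real.rpow_nonneg (abs_nonneg _) (b + 1)),
        Real.rpow_add_one' (abs_nonneg _) (by linarith)]
    have hr : MemLp (U (sig b) k) (ENNReal.ofReal (5 * b / (b + 2) * (b + 1))) volume := by
      refine EnSx.between (p := 5 * b / 2) (q := 5 * b) (by positivity) ?_ ?_ mU mS
      · rw [div_mul_eq_mul_div, div_le_div_iff₀ (by norm_num) (by linarith)]
        nlinarith
      · rw [div_mul_eq_mul_div, div_le_iff₀ (by linarith)]
        nlinarith
    rw [e1, q1_sig hb, npow (by linarith) (by positivity)]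
    exact ENNReal.rpow_lt_top_of_nonneg (by linarith) hr.2.ne
  · have m1 : MemLp (fun x => |U (sig b) k x| ^ b) (ENNReal.ofReal 5) volume := by
      refine ⟨mpow hb0 mU.1, ?_⟩
      rw [npow hb0 (by norm_num)]
      exact ENNReal.rpow_lt_top_of_nonneg hb0.le mS.2.ne
    have i1 : ENNReal.HolderTriple (ENNReal.ofReal 5) (q1 (sig b)) (q2 (sig b)) := by
      rw [q1_sig hb, q2_sig hb]
      refine NLwx.holder (by norm_num) (by positivity) (by positivity) ?_
      field_simp
      ring
    have m2 := (MemLp.mul' (p := ENNReal.ofReal 5) (q := q1 (sig b)) (r := q2 (sig b))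
      (hDU i).1 m1).const_mul (b + 1)
    refine m2.congr_norm (((mpow hb0 mU.1).const_mul (b + 1)).mul (hDU i).1.1)
      (Eventually.of_forall fun x => ?_)
    rw [mul_assoc]
  · intro φ hφ
    have hex : ∀ n : ℕ, ∃ f g : E → ℝ, IsTest f ∧ IsTest g ∧
        ‖k - Theta (sig b) f g‖ < 1 / ((n : ℝ) + 1) := fun n =>
      (hDns (sig b) hs).2.1 k _ (by positivity)
    choose f g hf hg hfg using hex
    have hlim : Tendsto (fun n => ENNReal.ofReal C * ‖k - Theta (sig b) (f n) (g n)‖ₑ) atTop
        (𝓝 0) := by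
      have h1 : Tendsto (fun n => ‖k - Theta (sig b) (f n) (g n)‖) atTop (𝓝 0) :=
        squeeze_zero (fun n => norm_nonneg _) (fun n => (hfg n).le)
          tendsto_one_div_add_atTop_nhds_zero_nat
      have h2 := (ENNReal.tendsto_ofReal h1)
      simp only [ofReal_norm, ENNReal.ofReal_zero] at h2
      have h3 := ENNReal.Tendsto.const_mul (a := ENNReal.ofReal C) h2
        (Or.inr ENNReal.ofReal_ne_top)
      simpa using h3
    have hU : ∀ n, eLpNorm (fun x => f n x - U (sig b) k x) (ENNReal.ofReal (5 * b / 2)) volume ≤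
        ENNReal.ofReal C * ‖k - Theta (sig b) (f n) (g n)‖ₑ := by
      intro n
      have h1 := (hk (k - Theta (sig b) (f n) (g n))).2.1
      rw [EnSx.q0_sig hb] at h1
      refine le_trans (le_of_eq ?_) h1
      have h2 := (hlin (-1) k (Theta (sig b) (f n) (g n))).1
      have h3 := (hth (f n) (g n) (hf n) (hg n)).1
      refine eLpNorm_congr_norm_ae ?_
      have e : k + (-1 : ℝ) • Theta (sig b) (f n) (g n) = k - Theta (sig b) (f n) (g n) := by
        rw [neg_one_smul, sub_eq_add_neg]
      rw [e] at h2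
      filter_upwards [h2, h3] with x hx hx'
      rw [hx, hx', ← norm_neg]
      congr 1
      ring
    have hD : ∀ n, eLpNorm (fun x => pd i (f n) x - DU (sig b) k i x) (q1 (sig b)) volume ≤
        ENNReal.ofReal C * ‖k - Theta (sig b) (f n) (g n)‖ₑ := by
      intro n
      have h1 := ((hk (k - Theta (sig b) (f n) (g n))).2.2.2.2.1 i).2.2
      refine le_trans (le_of_eq ?_) h1
      have h2 := (hlin (-1) k (Theta (sig b) (f n) (g n))).2.2 i
      have h3 := (hth (f n) (g n) (hf n) (hg n)).2.2 i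
      refine eLpNorm_congr_norm_ae ?_
      have e : k + (-1 : ℝ) • Theta (sig b) (f n) (g n) = k - Theta (sig b) (f n) (g n) := by
        rw [neg_one_smul, sub_eq_add_neg]
      rw [e] at h2
      filter_upwards [h2, h3] with x hx hx'
      rw [hx, hx', ← norm_neg]
      congr 1
      ring
    have lU : Tendsto (fun n => eLpNorm (fun x => f n x - U (sig b) k x)
        (ENNReal.ofReal (5 * b / 2)) volume) atTop (𝓝 0) :=
      tendsto_of_tendsto_of_tendsto_of_le_of_le tendsto_const_nhds hlim (fun _ => zero_le) hU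
    have lD : Tendsto (fun n => eLpNorm (fun x => pd i (f n) x - DU (sig b) k i x)
        (q1 (sig b)) volume) atTop (𝓝 0) :=
      tendsto_of_tendsto_of_tendsto_of_le_of_le tendsto_const_nhds hlim (fun _ => zero_le) hD
    obtain ⟨C', -, -, -, -, -, -, hC', -⟩ := hNpq b hb
    have mt : ∀ {ψ : E → ℝ} (p : ℝ≥0∞), IsTest ψ → MemLp ψ p volume := fun p hψ =>
      hψ.1.continuous.memLp_of_hasCompactSupport hψ.2
    have L1 := lim_int (b := b) (C := C') (q := 5 * b / 2) (t := 5 * b / (3 * b - 2)) hb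
      (by positivity) (div_pos (by positivity) (by linarith)) (by
        have : 3 * b - 2 ≠ 0 := by linarith
        field_simp
        ring) hC' (fun n => mt _ (hf n)) mU (fun n => mt _ (hf n)) mU
        (mt _ (EnSx.test_pd hφ i)) lU lU
    rw [q1_sig hb] at lD
    have mD := (hDU i).1
    rw [q1_sig hb] at mD
    have L2 := lim_int (b := b) (C := C') (q := 5 * b / (b + 2)) (t := 5 * b / (2 * (b - 1))) hb
      (by positivity) (div_pos (by positivity) (by linarith)) (by
        have : b - 1 ≠ 0 := by linarith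
        field_simp
        ring) hC' (fun n => mt _ (hf n)) mU (fun n => mt _ (EnSx.test_pd (hf n) i)) mD
        (mt _ hφ) lU lD
    have L3 := (L2.const_mul (b + 1)).neg
    have L4 : Tendsto (fun n => ∫ x, |f n x| ^ b * f n x * pd i φ x) atTop
        (𝓝 (-((b + 1) * ∫ x, |U (sig b) k x| ^ b * DU (sig b) k i x * φ x))) := by
      refine L3.congr fun n => ?_
      rw [ibp hb (hf n) hφ i]
    have h := tendsto_nhds_unique L1 L4
    have e1 : ∫ x, Fn b (U (sig b) k x) * pd i φ x =
        ∫ x, |U (sig b) k x| ^ b * U (sig b) k x * pd i φ x := rfl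
    rw [e1, h, ← integral_const_mul]
    congr 1
    refine integral_congr_ae (Eventually.of_forall fun x => ?_)
    simp only
    ring

end Pool.Agent.QWP
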