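import Pool.Agent.QWP.StM

set_option autoImplicit false

/-!
# QWP, module NLh: second weak derivatives of the nonlinearity (helper27)
-/

open MeasureTheory Filter Topology Set
open scoped ENNReal NNReal RealInnerProductSpace

namespace Pool.Agent.QWP

open Pool.Agent.QWE (E S sg mu K toK tau sh dl rev gr ig IsTest pd lap Rad dRad Rk dRk c0 WD Sm SmE IsSch half shr WTo)

namespace NLhx

/-- Hoelder triples of real exponents -/
lemma triple {p q r : ℝ} (hp : 0 < p) (hq : 0 < q) (hr : 0 < r) (h : 1 / p + 1 / q = 1 / r) :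
    ENNReal.HolderTriple (ENNReal.ofReal p) (ENNReal.ofReal q) (ENNReal.ofReal r) := by
  constructor
  rw [← ENNReal.ofReal_inv_of_pos hp, ← ENNReal.ofReal_inv_of_pos hq, ← ENNReal.ofReal_inv_of_pos hr,
    ← ENNReal.ofReal_add (by positivity) (by positivity)]
  congr 1
  simpa [one_div] using h

/-- Hoelder for products of real functions -/
lemma holder {p q r : ℝ} (hp : 0 < p) (hq : 0 < q) (hr : 0 < r) (h : 1 / p + 1 / q = 1 / r)
    {f g : E → ℝ} (hf : AEStronglyMeasurable f volume) (hg : AEStronglyMeasurable g volume) :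
    eLpNorm (fun x => f x * g x) (ENNReal.ofReal r) volume ≤
      eLpNorm f (ENNReal.ofReal p) volume * eLpNorm g (ENNReal.ofReal q) volume := by
  have := triple hp hq hr h
  exact eLpNorm_smul_le_mul_eLpNorm (φ := f) (f := g) hg hf

/-- convergence in `L^r` -/
structure Cv (r : ℝ) (f : ℕ → E → ℝ) (g : E → ℝ) : Prop where
  mn : ∀ n, MemLp (f n) (ENNReal.ofReal r) volume
  mg : MemLp g (ENNReal.ofReal r) volume
  tn : Tendsto (fun n => eLpNorm (fun x => f n x - g x) (ENNReal.ofReal r) volume) atTop (𝓝 0)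

lemma Cv.mul {p q r : ℝ} (hp : 0 < p) (hq : 0 < q) (hr : 1 ≤ r) (h : 1 / p + 1 / q = 1 / r)
    {f f' : ℕ → E → ℝ} {g g' : E → ℝ} (h1 : Cv p f g) (h2 : Cv q f' g') :
    Cv r (fun n x => f n x * f' n x) (fun x => g x * g' x) := by
  have hr0 : 0 < r := by linarith
  have := triple hp hq hr0 h
  refine ⟨fun n => (h2.mn n).mul' (h1.mn n), h2.mg.mul' h1.mg, ?_⟩
  have hb : ∀ n, eLpNorm (fun x => f n x * f' n x - g x * g' x) (ENNReal.ofReal r) volume ≤
      eLpNorm (fun x => f n x - g x) (ENNReal.ofReal p) volume *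
        eLpNorm (fun x => f' n x - g' x) (ENNReal.ofReal q) volume +
      eLpNorm (fun x => f n x - g x) (ENNReal.ofReal p) volume * eLpNorm g' (ENNReal.ofReal q) volume +
      eLpNorm g (ENNReal.ofReal p) volume * eLpNorm (fun x => f' n x - g' x) (ENNReal.ofReal q) volume := by
    intro n
    have m1 : AEStronglyMeasurable (fun x => f n x - g x) (volume : Measure E) := (h1.mn n).1.sub h1.mg.1
    have m2 : AEStronglyMeasurable (fun x => f' n x - g' x) (volume : Measure E) :=
      (h2.mn n).1.sub h2.mg.1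
    have he : (fun x => f n x * f' n x - g x * g' x) =
        ((fun x => (f n x - g x) * (f' n x - g' x)) + (fun x => (f n x - g x) * g' x)) +
          (fun x => g x * (f' n x - g' x)) := by
      funext x
      simp only [Pi.add_apply]
      ring
    have hr1 : 1 ≤ ENNReal.ofReal r := by
      rw [← ENNReal.ofReal_one]
      exact ENNReal.ofReal_le_ofReal hr
    rw [he]
    refine (eLpNorm_add_le ((m1.mul m2).add (m1.mul h2.mg.1)) (h1.mg.1.mul m2) hr1).trans ?_
    refine add_le_add ((eLpNorm_add_le (m1.mul m2) (m1.mul h2.mg.1) hr1).trans ?_) ?_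
    · exact add_le_add (holder hp hq hr0 h m1 m2) (holder hp hq hr0 h m1 h2.mg.1)
    · exact holder hp hq hr0 h h1.mg.1 m2
  refine tendsto_of_tendsto_of_tendsto_of_le_of_le tendsto_const_nhds ?_ (fun n => zero_le) hb
  have t1 := ENNReal.Tendsto.mul h1.tn (Or.inr ENNReal.zero_ne_top) h2.tn (Or.inr ENNReal.zero_ne_top)
  have t2 := ENNReal.Tendsto.mul_const (b := eLpNorm g' (ENNReal.ofReal q) volume) h1.tn
    (Or.inr h2.mg.2.ne)
  have t3 := ENNReal.Tendsto.const_mul (a := eLpNorm g (ENNReal.ofReal p) volume) h2.tn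
    (Or.inr h1.mg.2.ne)
  have t4 := (t1.add t2).add t3
  simpa using t4

lemma Cv.add {r : ℝ} (hr : 1 ≤ r) {f f' : ℕ → E → ℝ} {g g' : E → ℝ} (h1 : Cv r f g) (h2 : Cv r f' g') :
    Cv r (fun n x => f n x + f' n x) (fun x => g x + g' x) := by
  refine ⟨fun n => (h1.mn n).add (h2.mn n), h1.mg.add h2.mg, ?_⟩
  have hr1 : 1 ≤ ENNReal.ofReal r := by
    rw [← ENNReal.ofReal_one]
    exact ENNReal.ofReal_le_ofReal hr
  have hb : ∀ n, eLpNorm (fun x => f n x + f' n x - (g x + g' x)) (ENNReal.ofReal r) volume ≤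
      eLpNorm (fun x => f n x - g x) (ENNReal.ofReal r) volume +
      eLpNorm (fun x => f' n x - g' x) (ENNReal.ofReal r) volume := by
    intro n
    have he : (fun x => f n x + f' n x - (g x + g' x)) =
        (fun x => f n x - g x) + (fun x => f' n x - g' x) := by
      funext x
      simp only [Pi.add_apply]
      ring
    rw [he]
    exact eLpNorm_add_le ((h1.mn n).1.sub h1.mg.1) ((h2.mn n).1.sub h2.mg.1) hr1
  refine tendsto_of_tendsto_of_tendsto_of_le_of_le tendsto_const_nhds ?_ (fun n => zero_le) hb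
  simpa using h1.tn.add h2.tn

lemma Cv.cmul {r : ℝ} (c : ℝ) {f : ℕ → E → ℝ} {g : E → ℝ} (h1 : Cv r f g) :
    Cv r (fun n x => c * f n x) (fun x => c * g x) := by
  refine ⟨fun n => (h1.mn n).const_mul c, h1.mg.const_mul c, ?_⟩
  have hb : ∀ n, eLpNorm (fun x => c * f n x - c * g x) (ENNReal.ofReal r) volume =
      ‖c‖ₑ * eLpNorm (fun x => f n x - g x) (ENNReal.ofReal r) volume := by
    intro n
    have he : (fun x => c * f n x - c * g x) = c • (fun x => f n x - g x) := by
      funext x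
      simp only [Pi.smul_apply, smul_eq_mul]
      ring
    rw [he, eLpNorm_const_smul]
  simp only [hb]
  simpa using ENNReal.Tendsto.const_mul (a := ‖c‖ₑ) h1.tn (Or.inr enorm_ne_top)

lemma Cv.congr {r : ℝ} {f : ℕ → E → ℝ} {g g' : E → ℝ} (h1 : Cv r f g) (h : g =ᵐ[volume] g') : Cv r f g' := by
  refine ⟨h1.mn, (memLp_congr_ae h).1 h1.mg, ?_⟩
  have hb : ∀ n, eLpNorm (fun x => f n x - g' x) (ENNReal.ofReal r) volume =
      eLpNorm (fun x => f n x - g x) (ENNReal.ofReal r) volume := by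
    intro n
    refine eLpNorm_congr_ae ?_
    filter_upwards [h] with x hx
    rw [hx]
  simp only [hb]
  exact h1.tn

/-- pairing with test functions -/
lemma Cv.pair {r : ℝ} (hr : 1 < r) {f : ℕ → E → ℝ} {g : E → ℝ} (h1 : Cv r f g) {φ : E → ℝ} (hφ : IsTest φ) :
    Tendsto (fun n => ∫ x, f n x * φ x) atTop (𝓝 (∫ x, g x * φ x)) := by
  have hr0 : 0 < r := by linarith
  have hc := Real.HolderConjugate.conjExponent hr
  set r' := Real.conjExponent r with hr'
  have hr'0 : 0 < r' := hc.symm.pos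
  have h2 : 1 / r + 1 / r' = 1 / 1 := by
    have := hc.inv_add_inv_eq_one
    simpa [one_div] using this
  have hm : MemLp φ (ENNReal.ofReal r') volume := hφ.1.continuous.memLp_of_hasCompactSupport hφ.2
  have := triple hr0 hr'0 one_pos h2
  have hi : ∀ {u : E → ℝ}, MemLp u (ENNReal.ofReal r) volume → Integrable (fun x => u x * φ x) volume := by
    intro u hu
    have h3 : MemLp (fun x => u x * φ x) (ENNReal.ofReal 1) volume := hm.mul' hu
    rw [ENNReal.ofReal_one] at h3
    exact memLp_one_iff_integrable.1 h3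
  rw [tendsto_iff_edist_tendsto_0]
  have hb : ∀ n, edist (∫ x, f n x * φ x) (∫ x, g x * φ x) ≤
      eLpNorm (fun x => f n x - g x) (ENNReal.ofReal r) volume * eLpNorm φ (ENNReal.ofReal r') volume := by
    intro n
    rw [edist_eq_enorm_sub, ← integral_sub (hi (h1.mn n)) (hi h1.mg)]
    refine (enorm_integral_le_lintegral_enorm _).trans ?_
    have he : ∀ x, f n x * φ x - g x * φ x = (f n x - g x) * φ x := fun x => by ring
    simp only [he]
    rw [← eLpNorm_one_eq_lintegral_enorm (f := fun x => (f n x - g x) * φ x), ← ENNReal.ofReal_one]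
    exact holder hr0 hr'0 one_pos h2 ((h1.mn n).1.sub h1.mg.1) hm.1
  refine tendsto_of_tendsto_of_tendsto_of_le_of_le tendsto_const_nhds ?_ (fun n => zero_le) hb
  simpa using ENNReal.Tendsto.mul_const (b := eLpNorm φ (ENNReal.ofReal r') volume) h1.tn
    (Or.inr hm.2.ne)

/-- powers -/
lemma pow_norm (u : E → ℝ) {p c : ℝ} (hp : 0 < p) (hc : 0 < c) :
    eLpNorm (fun x => |u x| ^ c) (ENNReal.ofReal (p / c)) volume =
      eLpNorm u (ENNReal.ofReal p) volume ^ c := by
  have h2 := eLpNorm_norm_rpow (μ := (volume : Measure E)) (p := ENNReal.ofReal (p / c)) (q := c) u hc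
  rw [← ENNReal.ofReal_mul (by positivity), div_mul_cancel₀ _ hc.ne'] at h2
  exact h2

/-- composition with a function of power growth -/
lemma Cv.comp {p c C : ℝ} (hc : 1 < c) (hp : c ≤ p) (hC : 0 ≤ C) {Φ : ℝ → ℝ} (hΦ : Continuous Φ)
    (h0 : Φ 0 = 0) (hL : ∀ u w : ℝ, |Φ u - Φ w| ≤ C * (|u| + |w|) ^ (c - 1) * |u - w|)
    {f : ℕ → E → ℝ} {g : E → ℝ} (h1 : Cv p f g) :
    Cv (p / c) (fun n x => Φ (f n x)) (fun x => Φ (g x)) := by
  have hp0 : 0 < p := by linarith
  have hc0 : 0 < c := by linarith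
  have hc1 : 0 < c - 1 := by linarith
  have hm : ∀ {u : E → ℝ}, MemLp u (ENNReal.ofReal p) volume →
      MemLp (fun x => Φ (u x)) (ENNReal.ofReal (p / c)) volume := by
    intro u hu
    have hms : AEStronglyMeasurable (fun x => Φ (u x)) (volume : Measure E) :=
      hΦ.comp_aestronglyMeasurable hu.1
    refine ⟨hms, ?_⟩
    have hb : ∀ x, ‖Φ (u x)‖ ≤ C * ‖|u x| ^ c‖ := by
      intro x
      have h2 := hL (u x) 0
      rw [h0, sub_zero, sub_zero, abs_zero, add_zero] at h2
      rw [Real.norm_eq_abs, Real.norm_eq_abs, abs_of_nonneg (by positivity : 0 ≤ |u x| ^ c)]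
      refine h2.trans (le_of_eq ?_)
      rcases eq_or_ne (u x) 0 with h3 | h3
      · rw [h3, abs_zero, Real.zero_rpow hc0.ne', mul_zero, mul_zero]
      · have h4 : 0 < |u x| := abs_pos.2 h3
        have h5 : |u x| ^ c = |u x| ^ (c - 1) * |u x| := by
          rw [← Real.rpow_add_one h4.ne', sub_add_cancel]
        rw [h5]
        ring
    have h6 := eLpNorm_le_mul_eLpNorm_of_ae_le_mul (μ := (volume : Measure E))
      (Eventually.of_forall hb) (ENNReal.ofReal (p / c))
    refine h6.trans_lt ?_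
    rw [pow_norm u hp0 hc0]
    exact ENNReal.mul_lt_top ENNReal.ofReal_lt_top (ENNReal.rpow_lt_top_of_nonneg hc0.le hu.2.ne)
  refine ⟨fun n => hm (h1.mn n), hm h1.mg, ?_⟩
  have hp1 : 1 ≤ ENNReal.ofReal p := by
    rw [← ENNReal.ofReal_one]
    exact ENNReal.ofReal_le_ofReal (by linarith)
  have hb : ∀ n, eLpNorm (fun x => Φ (f n x) - Φ (g x)) (ENNReal.ofReal (p / c)) volume ≤
      ENNReal.ofReal C * ((eLpNorm (fun x => f n x - g x) (ENNReal.ofReal p) volume +
        eLpNorm g (ENNReal.ofReal p) volume + eLpNorm g (ENNReal.ofReal p) volume) ^ (c - 1) *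
        eLpNorm (fun x => f n x - g x) (ENNReal.ofReal p) volume) := by
    intro n
    have m1 : AEStronglyMeasurable (fun x => f n x - g x) (volume : Measure E) := (h1.mn n).1.sub h1.mg.1
    have m2 : AEStronglyMeasurable (fun x => |f n x| + |g x|) (volume : Measure E) :=
      (h1.mn n).1.norm.add h1.mg.1.norm
    have m3 : AEStronglyMeasurable (fun x => |(|f n x| + |g x|)| ^ (c - 1)) (volume : Measure E) :=
      (Real.continuous_rpow_const hc1.le).comp_aestronglyMeasurable m2.norm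
    have h2 : ∀ x, ‖Φ (f n x) - Φ (g x)‖ ≤ C * ‖|(|f n x| + |g x|)| ^ (c - 1) * (f n x - g x)‖ := by
      intro x
      rw [norm_mul, Real.norm_eq_abs, Real.norm_eq_abs, Real.norm_eq_abs,
        abs_of_nonneg (by positivity : 0 ≤ |(|f n x| + |g x|)| ^ (c - 1)),
        abs_of_nonneg (by positivity : 0 ≤ |f n x| + |g x|), ← mul_assoc]
      exact hL _ _
    refine (eLpNorm_le_mul_eLpNorm_of_ae_le_mul (Eventually.of_forall h2) _).trans ?_
    refine mul_le_mul_right ?_ _
    refine (holder (p := p / (c - 1)) (q := p) (r := p / c) (by positivity) hp0 (by positivity)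
      (by field_simp; ring) m3 m1).trans ?_
    refine mul_le_mul_left ?_ _
    rw [pow_norm _ hp0 hc1]
    refine ENNReal.rpow_le_rpow ?_ hc1.le
    have e1 : (fun x => |f n x| + |g x|) = (fun x => ‖f n x‖) + (fun x => ‖g x‖) := rfl
    rw [e1]
    refine (eLpNorm_add_le (h1.mn n).1.norm h1.mg.1.norm hp1).trans ?_
    rw [eLpNorm_norm, eLpNorm_norm]
    refine add_le_add ?_ le_rfl
    have e2 : f n = (fun x => f n x - g x) + g := by
      funext x
      simp
    calc eLpNorm (f n) (ENNReal.ofReal p) volume =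
        eLpNorm ((fun x => f n x - g x) + g) (ENNReal.ofReal p) volume := by rw [← e2]
      _ ≤ _ := eLpNorm_add_le m1 h1.mg.1 hp1
  refine tendsto_of_tendsto_of_tendsto_of_le_of_le tendsto_const_nhds ?_ (fun n => zero_le) hb
  have t1 : Tendsto (fun n => eLpNorm (fun x => f n x - g x) (ENNReal.ofReal p) volume +
        eLpNorm g (ENNReal.ofReal p) volume + eLpNorm g (ENNReal.ofReal p) volume) atTop
        (𝓝 (0 + eLpNorm g (ENNReal.ofReal p) volume + eLpNorm g (ENNReal.ofReal p) volume)) :=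
    (h1.tn.add tendsto_const_nhds).add tendsto_const_nhds
  have t2 := t1.ennrpow_const (c - 1)
  have hne : (0 + eLpNorm g (ENNReal.ofReal p) volume + eLpNorm g (ENNReal.ofReal p) volume) ^ (c - 1) ≠ ⊤ := by
    rw [zero_add]
    exact ENNReal.rpow_ne_top_of_nonneg hc1.le (ENNReal.add_ne_top.2 ⟨h1.mg.2.ne, h1.mg.2.ne⟩)
  have t3 := ENNReal.Tendsto.mul t2 (Or.inr ENNReal.zero_ne_top) h1.tn (Or.inr hne)
  have t4 := ENNReal.Tendsto.const_mul (a := ENNReal.ofReal C) t3 (Or.inr ENNReal.ofReal_ne_top)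
  simpa using t4

/-! ### test functions -/

lemma test_pd (i : Fin 5) {φ : E → ℝ} (h : IsTest φ) : IsTest (pd i φ) := by
  refine ⟨?_, h.2.fderiv_apply ℝ _⟩
  exact (h.1.fderiv_right (m := ((⊤ : ℕ∞) : WithTop ℕ∞)) (by simp)).clm_apply contDiff_const

lemma test_mem {φ : E → ℝ} (h : IsTest φ) (p : ℝ≥0∞) : MemLp φ p volume :=
  h.1.continuous.memLp_of_hasCompactSupport h.2

/-- integration by parts -/
lemma ibp {A : E → ℝ} (j : Fin 5) (hd : ∀ x, DifferentiableAt ℝ A x) (hc : Continuous A)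
    (hc' : Continuous (pd j A)) {φ : E → ℝ} (hφ : IsTest φ) :
    ∫ x, A x * pd j φ x = - ∫ x, pd j A x * φ x := by
  have hi : ∀ {u v : E → ℝ}, Continuous u → IsTest v → Integrable (fun x => u x * v x) volume := by
    intro u v hu hv
    exact (hu.mul hv.1.continuous).integrable_of_hasCompactSupport hv.2.mul_left
  exact integral_mul_fderiv_eq_neg_fderiv_mul_of_integrable (hi hc' hφ) (hi hc (test_pd j hφ)) (hi hc hφ)
    (fun x _ => hd x) (fun x _ => (hφ.1.differentiable (by simp)) x)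

lemma test_wd {b : ℝ} (N2 : ∀ u : ℝ, HasDerivAt (fun u : ℝ => |u| ^ b) (b * (|u| ^ (b - 2) * u)) u)
    (N3 : Continuous (fun u : ℝ => |u| ^ b)) (N4 : Continuous (fun u : ℝ => |u| ^ (b - 2) * u))
    {f : E → ℝ} (hf : IsTest f) (i j : Fin 5) {φ : E → ℝ} (hφ : IsTest φ) :
    ∫ x, ((b + 1) * |f x| ^ b * pd i f x) * pd j φ x =
      - ∫ x, ((b + 1) * |f x| ^ b * pd j (pd i f) x +
        (b + 1) * b * (|f x| ^ (b - 2) * f x) * pd i f x * pd j f x) * φ x := by
  have hfd : ∀ x, HasFDerivAt f (fderiv ℝ f x) x := fun x =>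
    ((hf.1.differentiable (by simp)) x).hasFDerivAt
  have hpd : ∀ x, HasFDerivAt (pd i f) (fderiv ℝ (pd i f) x) x := fun x =>
    (((test_pd i hf).1.differentiable (by simp)) x).hasFDerivAt
  have h1 : ∀ x, HasFDerivAt (fun y => |f y| ^ b) ((b * (|f x| ^ (b - 2) * f x)) • fderiv ℝ f x) x :=
    fun x => (N2 (f x)).comp_hasFDerivAt x (hfd x)
  have h2 : ∀ x, HasFDerivAt (fun y => (b + 1) * |f y| ^ b * pd i f y)
      (((b + 1) * |f x| ^ b) • fderiv ℝ (pd i f) x +
        pd i f x • ((b + 1) • ((b * (|f x| ^ (b - 2) * f x)) • fderiv ℝ f x))) x := fun x =>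
    ((h1 x).const_mul (b + 1)).mul (hpd x)
  have h3 : ∀ x, pd j (fun y => (b + 1) * |f y| ^ b * pd i f y) x =
      (b + 1) * |f x| ^ b * pd j (pd i f) x +
        (b + 1) * b * (|f x| ^ (b - 2) * f x) * pd i f x * pd j f x := by
    intro x
    show fderiv ℝ (fun y => (b + 1) * |f y| ^ b * pd i f y) x _ = _
    rw [(h2 x).fderiv]
    show ((b + 1) * |f x| ^ b) * pd j (pd i f) x +
        pd i f x * ((b + 1) * ((b * (|f x| ^ (b - 2) * f x)) * pd j f x)) = _
    ring
  have c1 : Continuous (fun x => (b + 1) * |f x| ^ b * pd i f x) :=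
    (continuous_const.mul (N3.comp hf.1.continuous)).mul (test_pd i hf).1.continuous
  have c2 : Continuous (pd j (fun y => (b + 1) * |f y| ^ b * pd i f y)) := by
    have : (pd j (fun y => (b + 1) * |f y| ^ b * pd i f y)) = fun x =>
        (b + 1) * |f x| ^ b * pd j (pd i f) x +
        (b + 1) * b * (|f x| ^ (b - 2) * f x) * pd i f x * pd j f x := funext h3
    rw [this]
    have c3 : Continuous (fun x => |f x| ^ (b - 2) * f x) := N4.comp hf.1.continuous
    exact ((continuous_const.mul (N3.comp hf.1.continuous)).mul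
      (test_pd j (test_pd i hf)).1.continuous).add
      (((continuous_const.mul c3).mul (test_pd i hf).1.continuous).mul (test_pd j hf).1.continuous)
  rw [ibp j (fun x => (h2 x).differentiableAt) c1 c2 hφ]
  simp only [h3]

/-! ### fields -/

lemma fdiff {T : K → E → ℝ}
    (hlin : ∀ (c : ℝ) (k k' : K), T (k + c • k') =ᵐ[volume] fun x => T k x + c * T k' x)
    {k θ : K} {h : E → ℝ} (hθ : T θ =ᵐ[volume] h) (p : ℝ≥0∞) :
    eLpNorm (fun x => h x - T k x) p volume = eLpNorm (T (k - θ)) p volume := by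
  have h1 : k - θ = k + (-1 : ℝ) • θ := by
    rw [neg_one_smul, sub_eq_add_neg]
  have h2 : T (k - θ) =ᵐ[volume] -(fun x => h x - T k x) := by
    rw [h1]
    filter_upwards [hlin (-1) k θ, hθ] with x hx hx'
    rw [hx, hx']
    simp only [Pi.neg_apply]
    ring
  rw [eLpNorm_congr_ae h2, eLpNorm_neg]

lemma mkCv {T : K → E → ℝ}
    (hlin : ∀ (c : ℝ) (k k' : K), T (k + c • k') =ᵐ[volume] fun x => T k x + c * T k' x)
    {k : K} {r : ℝ} {θ : ℕ → K} {h : ℕ → E → ℝ} (hθ : ∀ n, T (θ n) =ᵐ[volume] h n)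
    (hm : ∀ n, MemLp (h n) (ENNReal.ofReal r) volume) (hk : MemLp (T k) (ENNReal.ofReal r) volume)
    (ht : Tendsto (fun n => eLpNorm (T (k - θ n)) (ENNReal.ofReal r) volume) atTop (𝓝 0)) :
    Cv r h (T k) := by
  refine ⟨hm, hk, ?_⟩
  have h1 : ∀ n, eLpNorm (fun x => h n x - T k x) (ENNReal.ofReal r) volume =
      eLpNorm (T (k - θ n)) (ENNReal.ofReal r) volume := fun n => fdiff hlin (hθ n) _
  simp only [h1]
  exact ht

lemma sq_tends {x : ℕ → ℝ≥0∞} (h : Tendsto (fun n => x n ^ 2) atTop (𝓝 0)) : Tendsto x atTop (𝓝 0) := by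
  have h1 := h.ennrpow_const (1 / 2)
  have h2 : ∀ n, (x n ^ 2) ^ (1 / 2 : ℝ) = x n := by
    intro n
    rw [← ENNReal.rpow_natCast, ← ENNReal.rpow_mul]
    norm_num
  simp only [h2] at h1
  rw [ENNReal.zero_rpow_of_pos (by norm_num)] at h1
  exact h1

lemma inv_tends : Tendsto (fun n : ℕ => ENNReal.ofReal (1 / ((n : ℝ) + 1))) atTop (𝓝 0) := by
  have h1 := ENNReal.tendsto_ofReal (tendsto_one_div_add_atTop_nhds_zero_nat (𝕜 := ℝ))
  rw [ENNReal.ofReal_zero] at h1
  exact h1

end NLhx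

open NLhx in
theorem thm_NLh (hFldP : St_FldP) (hNpq : St_Npq) (hFldD : St_FldD) (hDenX : St_DenX)
    (hGNk : St_GNk) : St_NLh := by
  intro b k i j hb hk
  obtain ⟨C0, hC0, N1, N2, N3, N4, N5, N6, N7, -, -⟩ := hNpq b (by linarith)
  have hb0 : 0 < b := by linarith
  have hs0 : 0 ≤ sig b := by
    unfold sig
    rw [sub_nonneg, div_le_div_iff₀ hb0 (by norm_num)]
    linarith
  have hs1 : sig b < 1 / 2 := by
    unfold sig
    have : 0 < 2 / b := by positivity
    linarith
  have hsa : |sig b| < 1 / 2 := by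
    rw [abs_of_nonneg hs0]
    exact hs1
  obtain ⟨C1, hC1, F1, F2, F3⟩ := hFldP (sig b) hsa
  obtain ⟨C2, hC2, D1, D2, D3⟩ := hFldD (sig b) hs0 hs1
  obtain ⟨C3, hC3, G1⟩ := hGNk b hb
  have hex : ∀ n : ℕ, ∃ f g : E → ℝ, IsTest f ∧ IsTest g ∧
      ‖k - Theta (sig b) f g‖ < 1 / ((n : ℝ) + 1) ∧
      sn b (k - Theta (sig b) f g) < ENNReal.ofReal (1 / ((n : ℝ) + 1)) := fun n =>
    hDenX b k (1 / ((n : ℝ) + 1)) (by linarith) hk (by positivity)
  choose f g hf hg hn hsn using hex
  -- sizes of the errors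
  have t1 : Tendsto (fun n => ‖k - Theta (sig b) (f n) (g n)‖ₑ) atTop (𝓝 0) := by
    refine tendsto_of_tendsto_of_tendsto_of_le_of_le tendsto_const_nhds inv_tends (fun n => zero_le)
      fun n => ?_
    rw [← ofReal_norm]
    exact ENNReal.ofReal_le_ofReal (hn n).le
  have t2 : Tendsto (fun n => sn b (k - Theta (sig b) (f n) (g n))) atTop (𝓝 0) :=
    tendsto_of_tendsto_of_tendsto_of_le_of_le tendsto_const_nhds inv_tends (fun n => zero_le)
      fun n => (hsn n).le
  have htn : ∀ κ : K, tn b κ ≤ ENNReal.ofReal (25 * C2) * ‖κ‖ₑ := by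
    intro κ
    unfold tn
    rw [if_neg (by linarith)]
    have h1 : ∀ i j : Fin 5, eLpNorm (DDU (sig b) κ i j) (q2 (sig b)) volume ≤ ENNReal.ofReal C2 * ‖κ‖ₑ :=
      fun i j => (D1 κ i j).2.2
    calc ∑ i, ∑ j, eLpNorm (DDU (sig b) κ i j) (q2 (sig b)) volume ≤
        ∑ i : Fin 5, ∑ j : Fin 5, ENNReal.ofReal C2 * ‖κ‖ₑ :=
          Finset.sum_le_sum fun i _ => Finset.sum_le_sum fun j _ => h1 i j
      _ = ENNReal.ofReal (25 * C2) * ‖κ‖ₑ := by
          simp only [Finset.sum_const, Finset.card_univ, Fintype.card_fin, nsmul_eq_mul]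
          rw [ENNReal.ofReal_mul (by norm_num), ← mul_assoc, ← mul_assoc]
          congr 2
          norm_num
  have htnt : tn b k < ⊤ := (htn k).trans_lt (ENNReal.mul_lt_top ENNReal.ofReal_lt_top enorm_lt_top)
  have t3 : Tendsto (fun n => tn b (k - Theta (sig b) (f n) (g n))) atTop (𝓝 0) := by
    refine tendsto_of_tendsto_of_tendsto_of_le_of_le tendsto_const_nhds ?_ (fun n => zero_le)
      fun n => htn _
    simpa using ENNReal.Tendsto.const_mul (a := ENNReal.ofReal (25 * C2)) t1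
      (Or.inr ENNReal.ofReal_ne_top)
  -- position field
  have V0 : Cv (5 * b) f (U (sig b) k) := by
    refine mkCv (T := U (sig b)) (fun c k k' => (F2 c k k').1) (θ := fun n => Theta (sig b) (f n) (g n))
      (fun n => (F3 (f n) (g n) (hf n) (hg n)).1) (fun n => test_mem (hf n) _)
      ⟨(F1 k).1.1.1, hk⟩ ?_
    exact t2
  -- first derivatives
  have V1 : ∀ i, Cv (10 * b / (2 * b + 3)) (fun n => pd i (f n)) (DU (sig b) k i) := by
    intro i
    refine mkCv (T := fun k => DU (sig b) k i) (fun c k k' => (F2 c k k').2.2 i)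
      (θ := fun n => Theta (sig b) (f n) (g n))
      (fun n => (F3 (f n) (g n) (hf n) (hg n)).2.2 i) (fun n => test_mem (test_pd i (hf n)) _)
      ⟨((F1 k).2.2.2.2.1 i).1.1, ?_⟩ ?_
    · have h1 := G1 k i hk
      have h2 : eLpNorm (DU (sig b) k i) (ENNReal.ofReal (10 * b / (2 * b + 3))) volume ^ 2 < ⊤ :=
        h1.trans_lt (ENNReal.mul_lt_top (ENNReal.mul_lt_top ENNReal.ofReal_lt_top hk) htnt)
      exact (ENNReal.pow_lt_top_iff.1 h2).resolve_right (by norm_num)
    · apply sq_tends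
      refine tendsto_of_tendsto_of_tendsto_of_le_of_le tendsto_const_nhds ?_ (fun n => zero_le)
        fun n => G1 _ i ((hsn n).trans ENNReal.ofReal_lt_top)
      have t4 := ENNReal.Tendsto.const_mul (a := ENNReal.ofReal C3) t2 (Or.inr ENNReal.ofReal_ne_top)
      rw [mul_zero] at t4
      have t5 := ENNReal.Tendsto.mul t4 (Or.inr ENNReal.zero_ne_top) t3 (Or.inr ENNReal.zero_ne_top)
      simpa using t5
  -- second derivatives
  have V2 : Cv (10 / (5 - 2 * sig b)) (fun n => pd j (pd i (f n))) (DDU (sig b) k i j) := by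
    refine mkCv (T := fun k => DDU (sig b) k i j) (fun c k k' => D2 c k k' i j)
      (θ := fun n => Theta (sig b) (f n) (g n))
      (fun n => D3 (f n) (g n) i j (hf n) (hg n)) (fun n => test_mem (test_pd j (test_pd i (hf n))) _)
      (D1 k i j).1 ?_
    refine tendsto_of_tendsto_of_tendsto_of_le_of_le tendsto_const_nhds ?_ (fun n => zero_le)
      fun n => (D1 _ i j).2.2
    simpa using ENNReal.Tendsto.const_mul (a := ENNReal.ofReal C2) t1 (Or.inr ENNReal.ofReal_ne_top)
  -- powers of the position field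
  have P1 : Cv 5 (fun n x => |f n x| ^ b) (fun x => |U (sig b) k x| ^ b) := by
    have h1 := Cv.comp (c := b) (by linarith) (by linarith) hC0.le N3
      (by rw [abs_zero, Real.zero_rpow hb0.ne']) N6 V0
    have h2 : 5 * b / b = 5 := by field_simp
    rw [h2] at h1
    exact h1
  have P2 : Cv (5 * b / (b - 1)) (fun n x => |f n x| ^ (b - 2) * f n x)
      (fun x => |U (sig b) k x| ^ (b - 2) * U (sig b) k x) := by
    refine Cv.comp (c := b - 1) (Φ := fun u => |u| ^ (b - 2) * u) (by linarith) (by linarith) hC0.le N4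
      (by rw [mul_zero]) ?_ V0
    intro u w
    have h1 : b - 1 - 1 = b - 2 := by ring
    rw [h1]
    exact N7 u w
  have hsb : sig b = 1 / 2 - 2 / b := rfl
  have h72 : 0 < 7 - 2 * sig b := by linarith
  have h52 : 0 < 5 - 2 * sig b := by linarith
  have hb1 : 0 < b - 1 := by linarith
  have hp2 : 1 < 10 / (7 - 2 * sig b) := by
    rw [lt_div_iff₀ h72]
    linarith
  have Q1 : Cv (10 * b / (4 * b + 3)) (fun n x => (b + 1) * |f n x| ^ b * pd i (f n) x)
      (fun x => (b + 1) * |U (sig b) k x| ^ b * DU (sig b) k i x) := by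
    refine Cv.mul (p := 5) (q := 10 * b / (2 * b + 3)) (by norm_num) (by positivity) ?_ ?_
      (P1.cmul (b + 1)) (V1 i)
    · rw [le_div_iff₀ (by positivity)]
      linarith
    · field_simp
      ring
  have Q2 : Cv (10 / (7 - 2 * sig b)) (fun n x => (b + 1) * |f n x| ^ b * pd j (pd i (f n)) x)
      (fun x => (b + 1) * |U (sig b) k x| ^ b * DDU (sig b) k i j x) := by
    refine Cv.mul (p := 5) (q := 10 / (5 - 2 * sig b)) (by norm_num) (by positivity) hp2.le ?_
      (P1.cmul (b + 1)) V2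
    field_simp
    ring
  have Q3 : Cv (10 * b / (4 * b + 1)) (fun n x => (b + 1) * b * (|f n x| ^ (b - 2) * f n x) * pd i (f n) x)
      (fun x => (b + 1) * b * (|U (sig b) k x| ^ (b - 2) * U (sig b) k x) * DU (sig b) k i x) := by
    refine Cv.mul (p := 5 * b / (b - 1)) (q := 10 * b / (2 * b + 3)) (by positivity) (by positivity) ?_ ?_
      (P2.cmul ((b + 1) * b)) (V1 i)
    · rw [le_div_iff₀ (by positivity)]
      linarith
    · field_simp
      ring
  have Q4 : Cv (10 / (7 - 2 * sig b))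
      (fun n x => (b + 1) * b * (|f n x| ^ (b - 2) * f n x) * pd i (f n) x * pd j (f n) x)
      (fun x => (b + 1) * b * (|U (sig b) k x| ^ (b - 2) * U (sig b) k x) * DU (sig b) k i x *
        DU (sig b) k j x) := by
    refine Cv.mul (p := 10 * b / (4 * b + 1)) (q := 10 * b / (2 * b + 3)) (by positivity) (by positivity)
      hp2.le ?_ Q3 (V1 j)
    rw [hsb]
    field_simp
    ring
  have Q5 := Cv.add hp2.le Q2 Q4
  refine ⟨Q5.mg, fun φ hφ => ?_⟩
  have l1 := Q1.pair (by rw [lt_div_iff₀ (by positivity)]; linarith) (test_pd j hφ)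
  have l2 := (Q5.pair hp2 hφ).neg
  have l3 : ∀ n, ∫ x, ((b + 1) * |f n x| ^ b * pd i (f n) x) * pd j φ x =
      - ∫ x, ((b + 1) * |f n x| ^ b * pd j (pd i (f n)) x +
        (b + 1) * b * (|f n x| ^ (b - 2) * f n x) * pd i (f n) x * pd j (f n) x) * φ x := fun n =>
    test_wd N2 N3 N4 (hf n) i j hφ
  simp only [l3] at l1
  exact tendsto_nhds_unique l1 l2

end Pool.Agent.QWP
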