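import Pool.Agent.QWP.StB

set_option autoImplicit false

/-!
# QWP, module NLoP: locality of the nonlinearity
-/

open MeasureTheory Filter Topology Set
open scoped ENNReal NNReal RealInnerProductSpace

namespace Pool.Agent.QWP

open Pool.Agent.QWE (E S sg mu K toK tau sh dl rev gr ig IsTest pd lap Rad dRad Rk dRk c0 WD Sm SmE IsSch half shr WTo)

namespace NLoPx

theorem sig_lt {b : ℝ} (hb : 2 < b) : |sig b| < 1 / 2 := by
  have hb0 : 0 < b := by linarith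
  have h1 : 0 < 2 / b := by positivity
  have h2 : 2 / b < 1 := by
    rw [div_lt_one hb0]
    exact hb
  rw [sig, abs_lt]
  constructor
  · linarith
  · linarith

theorem isOpen_xt (y : E) (ρ : ℝ) : IsOpen (xt y ρ) :=
  isOpen_lt continuous_const (continuous_id.dist continuous_const)

theorem van (hFld : St_FldP) (hExB : St_ExBP) (hExF : St_ExFP) (hNLb : St_NLb) {b : ℝ} (hb : 2 < b)
    (Ω : Set E) (k k' : K) (hΩ : IsOpen Ω) (hk : sn b k < ⊤) (hk' : sn b k' < ⊤)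
    (hV : Van (sig b) Ω (k - k')) : Van (sig b) Ω (NL b k - NL b k') := by
  have hs := sig_lt hb
  obtain ⟨-, -, -, -, -, -, hvan, -⟩ := hExB (sig b) hs
  obtain ⟨C, -, hF⟩ := hExF (sig b) hs
  obtain ⟨-, -, hU, hVel⟩ := (hNLb b hb).2 k hk
  obtain ⟨-, -, hU', hVel'⟩ := (hNLb b hb).2 k' hk'
  obtain ⟨C', -, -, hLin, -⟩ := hFld (sig b) hs
  obtain ⟨hLU, hLV, -⟩ := hLin (-1) (NL b k) (NL b k')
  have e : NL b k + (-1 : ℝ) • NL b k' = NL b k - NL b k' := by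
    rw [neg_one_smul, ← sub_eq_add_neg]
  rw [e] at hLU hLV
  rw [hvan Ω _ hΩ]
  constructor
  · filter_upwards [hLU, hU, hU'] with x h1 h2 h3 _
    rw [h1, h2, h3]
    simp
  · filter_upwards [hLV, hVel, hVel', (hF k Ω hΩ).2.2.2 k' hV] with x h1 h2 h3 h4 hx
    rw [h1, h2, h3, (h4 hx).1]
    ring

end NLoPx

/-- **NLoP**. -/
theorem thm_NLoP (hFld : St_FldP) (hExB : St_ExBP) (hL8 : St_L8P) (hExF : St_ExFP)
    (hNLb : St_NLb) : St_NLoP := by
  intro b hb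
  refine ⟨fun Ω k k' hΩ hk hk' hV => NLoPx.van hFld hExB hExF hNLb hb Ω k k' hΩ hk hk' hV, ?_⟩
  intro y ρ k k' hρ hk hk' hV
  exact (hL8 (sig b) y ρ (NL b k - NL b k') (NLoPx.sig_lt hb) hρ).2
    (NLoPx.van hFld hExB hExF hNLb hb _ k k' (NLoPx.isOpen_xt y ρ) hk hk' hV)

end Pool.Agent.QWP
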