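import Pool.Agent.QWP.StE
import Pool.Agent.QWE.StC

set_option autoImplicit false

/-!
# QWP: a normalised compact solution with a subluminal centre is a path
-/

open MeasureTheory Filter Topology Set
open scoped ENNReal NNReal RealInnerProductSpace

namespace Pool.Agent.QWP

open Pool.Agent.QWE (E S sg mu K toK tau sh dl rev gr ig IsTest pd lap Rad dRad Rk dRk c0 WD Sm SmE IsSch half shr WTo)

namespace NPthx

lemma sig_lt {b : ℝ} (hb : 2 < b) : |sig b| < 1 / 2 := by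
  unfold sig
  have h1 : 0 < 2 / b := by positivity
  have h2 : 2 / b < 1 := by
    rw [div_lt_one (by linarith)]
    exact hb
  rw [abs_lt]
  constructor <;> linarith

lemma bound (hGrA : Pool.Agent.QWE.St_GrA) {b : ℝ} {Q : Set K} {k : ℝ → K} {x : ℝ → E} {a : ℝ → ℝ}
    (h : NSol b Q k x a) : ∃ A : ℝ, ∀ t, ‖k t‖ ≤ A := by
  obtain ⟨A, hA⟩ := h.1.1.isBounded.exists_norm_le
  refine ⟨A, fun t => ?_⟩
  obtain ⟨κ, hκ, hk⟩ := h.1.2.2.2 t (mem_univ t)
  rw [hk, (hGrA.2.2.2.1 (x t) (a t) κ).1]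
  exact hA κ hκ

end NPthx

open NPthx

theorem thm_NPth (hExB : St_ExBP) (hGrA : Pool.Agent.QWE.St_GrA) (hTgt : St_Tgt) : St_NPth := by
  intro b hb Q k x a hN y κ C hκ0 hκ1 hy hxy
  obtain ⟨-, hX2, hX3, -⟩ := hExB (sig b) (sig_lt hb)
  obtain ⟨A, hA⟩ := bound hGrA hN
  have hbd : ∀ ρ : ℝ, BddAbove (range fun t => ex (sig b) (xt (y t) ρ) (k t)) := by
    intro ρ
    refine ⟨A, ?_⟩
    rintro _ ⟨t, rfl⟩
    exact (hX2 _ _).trans (hA t)
  have hle : ∀ t ρ : ℝ, ex (sig b) (xt (y t) ρ) (k t) ≤ epsb b k y ρ := fun t ρ =>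
    le_ciSup (hbd ρ) t
  refine ⟨⟨A, hN.1.2.2.1.1, hA, hy, hle⟩, ?_⟩
  rw [Metric.tendsto_atTop]
  intro ε hε
  obtain ⟨R0, -, hR⟩ := hTgt b hb Q k x a hN (ε / 2) (half_pos hε)
  refine ⟨R0 + C, fun ρ hρ => ?_⟩
  have h1 : epsb b k y ρ ≤ ε / 2 := by
    refine ciSup_le fun t => ?_
    have hsub : xt (y t) ρ ⊆ xt (x t) (ρ - C) := by
      intro z hz
      have hz' : ρ < dist z (y t) := hz
      have h2 := dist_triangle z (x t) (y t)
      have h3 := hxy t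
      change ρ - C < dist z (x t)
      linarith
    exact (hX3 _ _ (k t) hsub).trans (hR (ρ - C) (by linarith) t)
  have h0 : 0 ≤ epsb b k y ρ := (norm_nonneg _).trans (hle 0 ρ)
  rw [Real.dist_eq, sub_zero, abs_of_nonneg h0]
  linarith

end Pool.Agent.QWP
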