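import Pool.Agent.QWP.StE

set_option autoImplicit false

/-!
# QWP, P1a: the pointwise bound, outgoing side
-/

open MeasureTheory Filter Topology Set
open scoped ENNReal NNReal RealInnerProductSpace

namespace Pool.Agent.QWP

open Pool.Agent.QWE (E S sg mu K toK tau sh dl rev gr ig IsTest pd lap Rad dRad Rk dRk c0 WD Sm SmE IsSch half shr WTo)

namespace P1ax

lemma sig_lt {b : ℝ} (hb : 2 < b) : |sig b| < 1 / 2 := by
  have h1 : 2 / b < 1 := (div_lt_one (by linarith)).2 hb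
  have h2 : 0 < 2 / b := by positivity
  unfold sig
  rw [abs_lt]
  constructor <;> linarith

lemma isOpen_ext (y : E) (ρ : ℝ) : IsOpen (xt y ρ) :=
  isOpen_lt continuous_const (continuous_id.dist continuous_const)

lemma ext_sub_shr (y : E) (ρ s : ℝ) : xt y (ρ + s) ⊆ shr (xt y ρ) s := by
  intro x hx
  have hx' : ρ + s < dist x y := hx
  obtain ⟨b, hb1, hb2⟩ := exists_between (show s < dist x y - ρ by linarith)
  refine ⟨b, hb1, fun z hz => ?_⟩
  have hz' : dist z x < b := hz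
  have h1 : dist x y ≤ dist z x + dist z y := by
    have := dist_triangle x z y
    rwa [dist_comm x z] at this
  change ρ < dist z y
  linarith

lemma ex_nonneg (s : ℝ) (Ω : Set E) (k : K) : 0 ≤ ex s Ω k := norm_nonneg _

lemma van_mono (hExB : St_ExBP) {s : ℝ} (hs : |s| < 1 / 2) {Ω Ω' : Set E} (h : Ω ⊆ Ω') {k : K}
    (hk : Van s Ω' k) : Van s Ω k := by
  obtain ⟨-, -, h3, h4, -⟩ := hExB s hs
  rw [h4] at hk ⊢
  have h1 := h3 Ω Ω' k h
  exact le_antisymm (h1.trans hk.le) (ex_nonneg s Ω k)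

lemma set_shift (y0 : E) (ρ σ : ℝ) :
    {z : S × ℝ | (z.1, z.2 + -σ) ∈ {z : S × ℝ | ρ < z.2 - inner ℝ y0 (z.1 : E)}} =
      {z : S × ℝ | ρ + σ < z.2 - inner ℝ y0 (z.1 : E)} := by
  ext z
  simp only [Set.mem_ofPred_eq]
  constructor
  · intro h; linarith
  · intro h; linarith

/-- Replacement of the source by that of the exterior solution. -/
lemma src_le {b : ℝ} (hb : 2 < b) (hNaB : St_NaB) (hNLo : St_NLoP) (hExB : St_ExBP) (y0 : E)
    (ρ σ : ℝ) (hρ : 0 ≤ ρ) (hσ : 0 ≤ σ) (k k' : K) (h1 : sn b k < ⊤) (h2 : sn b k' < ⊤)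
    (hV : Van (sig b) (shr (xt y0 ρ) σ) (k - k')) :
    na (sig b) {z | ρ < z.2 - inner ℝ y0 (z.1 : E)} (tau (-σ) (NL b k)) ≤ ‖NL b k'‖ := by
  obtain ⟨n1, n2, n3, -, n5, -⟩ := hNaB (sig b) (sig_lt hb)
  rw [n5, set_shift]
  have hV2 : Van (sig b) (xt y0 (ρ + σ)) (k - k') :=
    van_mono hExB (sig_lt hb) (ext_sub_shr y0 ρ σ) hV
  have h4 := (hNLo b hb).2 y0 (ρ + σ) k k' (by linarith) h1 h2 hV2
  have h5 : na (sig b) {z | ρ + σ < z.2 - inner ℝ y0 (z.1 : E)} (NL b k - NL b k') ≤ 0 := by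
    refine (n3 _ {z | ρ + σ < |z.2 - inner ℝ y0 (z.1 : E)|} _ ?_).trans h4.le
    intro z hz
    have hz' : ρ + σ < z.2 - inner ℝ y0 (z.1 : E) := hz
    exact lt_of_lt_of_le hz' (le_abs_self _)
  have h6 := (n1 {z | ρ + σ < z.2 - inner ℝ y0 (z.1 : E)} (NL b k - NL b k') (NL b k')).2
  rw [sub_add_cancel] at h6
  have h7 := (n2 {z | ρ + σ < z.2 - inner ℝ y0 (z.1 : E)} (NL b k')).1
  linarith

lemma key {b : ℝ} (hb : 2 < b) (hNaB : St_NaB) (hNLo : St_NLoP) (hNLi : St_NLi)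
    (hExB : St_ExBP) {k k' : ℝ → K} (hk : IsSol b univ k) (hk' : IsSol b univ k') (t0 ρ : ℝ)
    (hρ : 0 ≤ ρ) (y0 : E) (hV : ∀ t, Van (sig b) (shr (xt y0 ρ) |t - t0|) (k t - k' t))
    (hint : Integrable (fun t => NL b (k' t)) volume) (s : ℝ) (hs : 0 ≤ s) :
    na (sig b) {z | ρ < z.2 - inner ℝ y0 (z.1 : E)} (k t0) ≤
      na (sig b) {z | ρ + s < z.2 - inner ℝ y0 (z.1 : E)} (k (t0 + s)) +
        ∫ r, ‖NL b (k' r)‖ := by
  obtain ⟨n1, n2, n3, -, n5, -⟩ := hNaB (sig b) (sig_lt hb)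
  have hN := (hNLi b hb univ k hk).2 t0 (mem_univ _) (t0 + s) (mem_univ _)
  have e1 : t0 - (t0 + s) = -s := by ring
  rw [e1] at hN
  have e2 : k t0 = tau (-s) (k (t0 + s)) + ∫ r in t0..(t0 + s), tau (t0 - r) (NL b (k r)) := by
    rw [hN]; abel
  have h3 := n5 {z | ρ < z.2 - inner ℝ y0 (z.1 : E)} (-s) (k (t0 + s))
  rw [set_shift] at h3
  have hnn : 0 ≤ ∫ r, ‖NL b (k' r)‖ := integral_nonneg fun r => norm_nonneg _
  have h5 : na (sig b) {z | ρ < z.2 - inner ℝ y0 (z.1 : E)}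
      (∫ r in t0..(t0 + s), tau (t0 - r) (NL b (k r))) ≤ ∫ r, ‖NL b (k' r)‖ := by
    unfold na
    by_cases hI : IntervalIntegrable (fun r => tau (t0 - r) (NL b (k r))) volume t0 (t0 + s)
    · rw [← ContinuousLinearMap.intervalIntegral_comp_comm _ hI]
      have ha := ((hNLi b hb univ k hk).1 t0 (mem_univ _) (t0 + s) (mem_univ _)).2
      have hb' := ((hNLi b hb univ k' hk').1 t0 (mem_univ _) (t0 + s) (mem_univ _)).2
      rw [ae_restrict_iff' measurableSet_Icc] at ha hb'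
      have hle : ∀ᵐ r ∂(volume : Measure ℝ), r ∈ Ioc t0 (t0 + s) →
          ‖(PS (sig b) {z | ρ < z.2 - inner ℝ y0 (z.1 : E)}).starProjection
            (tau (t0 - r) (NL b (k r)))‖ ≤ ‖NL b (k' r)‖ := by
        filter_upwards [ha, hb'] with r h6 h7 hr
        have hr' : r ∈ Icc t0 (t0 + s) := Ioc_subset_Icc_self hr
        have h8 : 0 ≤ r - t0 := by linarith [hr.1]
        have h9 := hV r
        rw [abs_of_nonneg h8] at h9
        have h10 := src_le hb hNaB hNLo hExB y0 ρ (r - t0) hρ h8 (k r) (k' r) (h6 hr') (h7 hr') h9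
        rwa [neg_sub] at h10
      have hI2 : IntervalIntegrable (fun r => ‖NL b (k' r)‖) volume t0 (t0 + s) :=
        hint.norm.intervalIntegrable
      refine (intervalIntegral.norm_integral_le_of_norm_le (by linarith) hle hI2).trans ?_
      rw [intervalIntegral.integral_of_le (by linarith)]
      exact setIntegral_le_integral hint.norm (Eventually.of_forall fun r => norm_nonneg _)
    · rw [intervalIntegral.integral_undef hI, map_zero, norm_zero]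
      exact hnn
  have h6 := (n1 {z | ρ < z.2 - inner ℝ y0 (z.1 : E)} (tau (-s) (k (t0 + s)))
    (∫ r in t0..(t0 + s), tau (t0 - r) (NL b (k r)))).2
  rw [← e2, h3] at h6
  exact h6.trans (add_le_add le_rfl h5)

lemma first_le {b : ℝ} (hb : 2 < b) (hNaB : St_NaB) (hL8 : St_L8P) {κ A : ℝ} {m : ℝ → ℝ}
    {k : ℝ → K} {y : ℝ → E} (hκ : 0 < κ) (hP : Pth b κ A m k y) (t0 ρ : ℝ) (hρ : 0 ≤ ρ) (s : ℝ)
    (hs : 0 ≤ s) :
    na (sig b) {z | ρ + s < z.2 - inner ℝ (y t0) (z.1 : E)} (k (t0 + s)) ≤ m (ρ + κ * s) := by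
  obtain ⟨h1, h2, h3, h4⟩ := hP
  obtain ⟨-, -, n3, -⟩ := hNaB (sig b) (sig_lt hb)
  have h5 := h4 (t0 + s) (ρ + κ * s)
  have h6 := (hL8 (sig b) (y (t0 + s)) (ρ + κ * s) (k (t0 + s)) (sig_lt hb) (by positivity)).1
  refine (n3 _ {z | ρ + κ * s < |z.2 - inner ℝ (y (t0 + s)) (z.1 : E)|} _ ?_).trans
    (h6.trans h5)
  intro z hz
  have hz' : ρ + s < z.2 - inner ℝ (y t0) (z.1 : E) := hz
  have h7 := h3 t0 (t0 + s)
  have e1 : t0 + s - t0 = s := by ring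
  rw [e1, abs_of_nonneg hs] at h7
  have h8 : inner ℝ (y (t0 + s) - y t0) (z.1 : E) ≤ ‖y (t0 + s) - y t0‖ * ‖(z.1 : E)‖ :=
    real_inner_le_norm _ _
  have h9 : ‖(z.1 : E)‖ = 1 := by
    simp
  rw [h9, mul_one, ← dist_eq_norm, inner_sub_left] at h8
  have h10 : ρ + κ * s < z.2 - inner ℝ (y (t0 + s)) (z.1 : E) := by linarith
  exact lt_of_lt_of_le h10 (le_abs_self _)

end P1ax

open P1ax in
theorem thm_P1a (hNaB : St_NaB) (hNLo : St_NLoP) (hNLi : St_NLi) (hExB : St_ExBP) (hL8 : St_L8P)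
    (hExt : St_Ext) : St_P1a := by
  intro b hb
  obtain ⟨d, C, hd, hC, hE⟩ := hExt b hb
  refine ⟨d, C, hd, hC, ?_⟩
  intro κ A m k y hκ hκ1 hP hm t ρ hρ hex
  obtain ⟨k', hk', -, -, hint, hbd, -, -, hV⟩ :=
    hE univ k t (xt (y t) ρ) hP.1 (mem_univ _) (isOpen_ext _ _) hex
  have hV' : ∀ r, Van (sig b) (shr (xt (y t) ρ) |r - t|) (k r - k' r) :=
    fun r => (hV r (mem_univ _)).1
  have h1 : ∀ s : ℝ, 0 ≤ s → na (sig b) {z | ρ < z.2 - inner ℝ (y t) (z.1 : E)} (k t) ≤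
      m (ρ + κ * s) + C * ex (sig b) (xt (y t) ρ) (k t) ^ (b + 1) := by
    intro s hs
    refine (key hb hNaB hNLo hNLi hExB hP.1 hk' t ρ hρ (y t) hV' hint s hs).trans ?_
    exact add_le_add (first_le hb hNaB hL8 hκ hP t ρ hρ s hs) hbd
  have h2 : Tendsto (fun s : ℝ => ρ + κ * s) atTop atTop :=
    tendsto_atTop_add_const_left _ _ (tendsto_id.const_mul_atTop hκ)
  have h3 : Tendsto (fun s : ℝ => m (ρ + κ * s) + C * ex (sig b) (xt (y t) ρ) (k t) ^ (b + 1))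
      atTop (𝓝 (0 + C * ex (sig b) (xt (y t) ρ) (k t) ^ (b + 1))) :=
    (hm.comp h2).add tendsto_const_nhds
  rw [zero_add] at h3
  exact ge_of_tendsto h3 ((eventually_ge_atTop 0).mono fun s hs => h1 s hs)

end Pool.Agent.QWP
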