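import Pool.Agent.QWP.StE
import Pool.Agent.QWP.StD
import Pool.Agent.QWE.P3a

/-!
# QWP, module P3a: decomposition at time zero
-/

set_option autoImplicit false

open MeasureTheory Filter Topology Set
open scoped ENNReal NNReal RealInnerProductSpace

namespace Pool.Agent.QWP

open Pool.Agent.QWE (E S sg mu K toK tau sh dl rev gr ig IsTest pd lap Rad dRad Rk dRk c0 WD Sm SmE IsSch half shr WTo)

theorem thm_P3a (hG : Pool.Agent.QWE.St_Grp1) (hN : St_NLi) (hM : St_MulP) : St_P3a := by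
  intro b hb k hk ζ hζ hζ1 T hT
  obtain ⟨h1, h2⟩ := hN b hb univ k hk
  have hint := (h1 0 (mem_univ _) T (mem_univ _)).1
  have hG0 : IntegrableOn (fun r => tau (-r) (NL b (k r))) (Icc 0 T) volume :=
    Pool.Agent.QWE.P3ax.int_tau0 hG hint
  have hii : IntervalIntegrable (fun r => tau (-r) (NL b (k r))) volume 0 T := by
    rw [intervalIntegrable_iff_integrableOn_Icc_of_le hT]
    exact hG0
  have hii2 : IntervalIntegrable (fun r => Mul (sig b) ζ (tau (-r) (NL b (k r)))) volume 0 T := by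
    constructor
    · exact (Mul (sig b) ζ).integrable_comp hii.1
    · exact (Mul (sig b) ζ).integrable_comp hii.2
  refine ⟨hii2, ?_⟩
  have h3 := h2 0 (mem_univ _) T (mem_univ _)
  rw [zero_sub] at h3
  have h4 : (∫ r in (0 : ℝ)..T, tau (0 - r) (NL b (k r))) =
      ∫ r in (0 : ℝ)..T, tau (-r) (NL b (k r)) := by
    refine intervalIntegral.integral_congr fun r _ => ?_

    rw [zero_sub]
  rw [h4] at h3
  have h5 : Mul (sig b) ζ (k 0) = Mul (sig b) ζ (tau (-T) (k T)) +
      ∫ r in (0 : ℝ)..T, Mul (sig b) ζ (tau (-r) (NL b (k r))) := by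
    rw [h3, map_sub, ← ContinuousLinearMap.intervalIntegral_comp_comm _ hii, sub_add_cancel]
  have h6 : k 0 = Mul (sig b) (fun p => 1 - ζ p) (k 0) + Mul (sig b) ζ (k 0) := by
    rw [(hM (sig b) ζ (abs_sig_lt hb) hζ hζ1).2.2.2.1 (k 0), sub_add_cancel]
  rw [add_assoc, ← h5]
  exact h6

end Pool.Agent.QWP
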