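import Pool.Agent.QWP.Par
import Pool.Agent.QWP.Idn

set_option autoImplicit false

/-!
# QWP, PJ: Parseval for nice functions on `S × ℝ`
-/

open MeasureTheory Filter Topology Set FourierTransform
open scoped ENNReal NNReal RealInnerProductSpace

namespace Pool.Agent.QWP

open Pool.Agent.QWE (E S sg mu K toK tau sh dl rev gr ig IsTest pd lap Rad dRad Rk dRk c0 WD Sm SmE IsSch half shr WTo)

namespace PJx

open Parx

/-- Amplitude of `JK s h`. -/
noncomputable def jm (s : ℝ) (h : S × ℝ → ℝ) (z : S × ℝ) : ℂ :=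
  ((|2 * Real.pi * z.2| ^ (-s) : ℝ) : ℂ) * ftp h z.1 z.2

lemma JF_eq (s : ℝ) (h : S × ℝ → ℝ) : JF s h = RF (jm s h) := rfl

/-! ### Rules for `ftp` -/

lemma ftp_eq (h : S × ℝ → ℝ) (w : S) (r : ℝ) :
    ftp h w r = (𝓕 (fun p : ℝ => (h (w, p) : ℂ)) : ℝ → ℂ) r := by
  rw [Real.fourier_real_eq_integral_exp_smul, ftp]
  refine integral_congr_ae (Eventually.of_forall fun p => ?_)
  simp only [smul_eq_mul]
  rw [mul_comm]
  congr 2
  push_cast
  ring

lemma ftp_neg (h : S × ℝ → ℝ) (w : S) (r : ℝ) : ftp h w (-r) = (starRingEnd ℂ) (ftp h w r) := by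
  unfold ftp
  rw [← integral_conj]
  refine integral_congr_ae (Eventually.of_forall fun p => ?_)
  simp only [map_mul, ← Complex.exp_conj, Complex.conj_ofReal, Complex.conj_I, map_ofNat, map_neg]
  congr 2
  push_cast
  ring

lemma ftp_shift (h : S × ℝ → ℝ) (c : S → ℝ) (w : S) (r : ℝ) :
    ftp (fun z => h (z.1, z.2 - c z.1)) w r =
      Complex.exp (-2 * Real.pi * Complex.I * ((r * c w : ℝ) : ℂ)) * ftp h w r := by
  unfold ftp
  rw [← integral_const_mul, ← integral_sub_right_eq_self (fun p : ℝ =>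
    Complex.exp (-2 * Real.pi * Complex.I * ((r * c w : ℝ) : ℂ)) *
      ((h (w, p) : ℂ) * Complex.exp (-2 * Real.pi * Complex.I * ((r * p : ℝ) : ℂ)))) (c w)]
  refine integral_congr_ae (Eventually.of_forall fun p => ?_)
  simp only
  have e : Complex.exp (-2 * Real.pi * Complex.I * ((r * p : ℝ) : ℂ)) =
      Complex.exp (-2 * Real.pi * Complex.I * ((r * c w : ℝ) : ℂ)) *
        Complex.exp (-2 * Real.pi * Complex.I * ((r * (p - c w) : ℝ) : ℂ)) := by
    rw [← Complex.exp_add]
    congr 1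
    push_cast
    ring
  rw [e]
  ring

lemma JF_shift (s : ℝ) (h : S × ℝ → ℝ) (c : S → ℝ) (z : S × ℝ) :
    JF s (fun z => h (z.1, z.2 - c z.1)) z = JF s h (z.1, z.2 - c z.1) := by
  unfold JF
  congr 1
  refine integral_congr_ae (Eventually.of_forall fun r => ?_)
  simp only [ftp_shift]
  have e : Complex.exp (2 * Real.pi * Complex.I * ((r * (z.2 - c z.1) : ℝ) : ℂ)) =
      Complex.exp (-2 * Real.pi * Complex.I * ((r * c z.1 : ℝ) : ℂ)) *
        Complex.exp (2 * Real.pi * Complex.I * ((r * z.2 : ℝ) : ℂ)) := by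
    rw [← Complex.exp_add]
    congr 1
    push_cast
    ring
  rw [e]
  ring

lemma ftp_rev (h : S × ℝ → ℝ) (w : S) (r : ℝ) :
    ftp (fun z => h (-z.1, -z.2)) w r = ftp h (-w) (-r) := by
  unfold ftp
  rw [← integral_neg_eq_self (fun p : ℝ => (h (-w, p) : ℂ) *
    Complex.exp (-2 * Real.pi * Complex.I * ((-r * p : ℝ) : ℂ))) volume]
  refine integral_congr_ae (Eventually.of_forall fun p => ?_)
  simp only [neg_mul_neg]

lemma JF_rev (s : ℝ) (h : S × ℝ → ℝ) (z : S × ℝ) :
    JF s (fun z => h (-z.1, -z.2)) z = JF s h (-z.1, -z.2) := by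
  unfold JF
  congr 1
  rw [← integral_neg_eq_self (fun r : ℝ => ((|2 * Real.pi * r| ^ (-s) : ℝ) : ℂ) *
    ftp h (-z.1, -z.2).1 r * Complex.exp (2 * Real.pi * Complex.I * ((r * (-z.1, -z.2).2 : ℝ) : ℂ))) volume]
  refine integral_congr_ae (Eventually.of_forall fun r => ?_)
  simp only [ftp_rev, mul_neg, abs_neg]
  rw [neg_mul, neg_neg]

lemma ftp_smul (h : S × ℝ → ℝ) (c : ℝ) (w : S) (r : ℝ) :
    ftp (fun z => c * h z) w r = (c : ℂ) * ftp h w r := by
  unfold ftp
  rw [← integral_const_mul]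
  refine integral_congr_ae (Eventually.of_forall fun p => ?_)
  simp only
  push_cast
  ring

lemma JF_smul (s : ℝ) (h : S × ℝ → ℝ) (c : ℝ) (z : S × ℝ) :
    JF s (fun z => c * h z) z = c * JF s h z := by
  unfold JF
  rw [← Complex.re_ofReal_mul, ← integral_const_mul]
  congr 1
  refine integral_congr_ae (Eventually.of_forall fun r => ?_)
  simp only [ftp_smul]
  ring

/-! ### Smooth functions on `E × ℝ` with compact support in the second variable -/

/-- Smooth, compactly supported in the second variable. -/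
def Cp (g : E × ℝ → ℝ) : Prop :=
  ContDiff ℝ ((⊤ : ℕ∞) : WithTop ℕ∞) g ∧ ∃ M : ℝ, ∀ x p, M ≤ |p| → g (x, p) = 0

/-- Restriction to `S × ℝ`. -/
def rs (g : E × ℝ → ℝ) (z : S × ℝ) : ℝ := g ((z.1 : E), z.2)

/-- Derivative in the second variable. -/
noncomputable def Dg (g : E × ℝ → ℝ) (q : E × ℝ) : ℝ := fderiv ℝ g q (0, 1)

variable {g : E × ℝ → ℝ}

lemma Cp.D (h : Cp g) : Cp (Dg g) := by
  obtain ⟨hg, M, hM⟩ := h
  refine ⟨(hg.fderiv_right (m := ((⊤ : ℕ∞) : WithTop ℕ∞)) (by norm_cast)).clm_apply contDiff_const,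
    M + 1, fun x p hp => ?_⟩
  have h1 : g =ᶠ[𝓝 (x, p)] fun _ => 0 := by
    have h2 : {q : E × ℝ | M < |q.2|} ∈ 𝓝 (x, p) := by
      refine (isOpen_lt continuous_const (continuous_abs.comp continuous_snd)).mem_nhds ?_
      show M < |p|
      linarith
    filter_upwards [h2] with q hq
    exact hM q.1 q.2 (le_of_lt hq)
  show fderiv ℝ g (x, p) (0, 1) = 0
  rw [h1.fderiv_eq]
  simp

lemma Cp.der (h : Cp g) (x : E) (p : ℝ) : HasDerivAt (fun p => g (x, p)) (Dg g (x, p)) p := by
  have h2 : HasFDerivAt g (fderiv ℝ g (x, p)) (x, p) :=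
    ((h.1.differentiable (by simp)) _).hasFDerivAt
  have h3 : HasDerivAt (fun p : ℝ => (x, p)) ((0 : E), (1 : ℝ)) p :=
    (hasDerivAt_const p x).prodMk (hasDerivAt_id p)
  exact h2.comp_hasDerivAt p h3

lemma Cp.cont (h : Cp g) : Continuous (rs g) :=
  h.1.continuous.comp ((continuous_subtype_val.comp continuous_fst).prodMk continuous_snd)

lemma Cp.bd (h : Cp g) : ∃ C M : ℝ, ∀ (w : S) (p : ℝ),
    |rs g (w, p)| ≤ (Icc (-M) M).indicator (fun _ => C) p := by
  have hc := h.cont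
  obtain ⟨hg, M, hM⟩ := h
  have hk : IsCompact ((univ : Set S) ×ˢ Icc (-M) M) := isCompact_univ.prod isCompact_Icc
  obtain ⟨C, hC⟩ := hk.exists_bound_of_continuousOn hc.continuousOn
  refine ⟨C, M, fun w p => ?_⟩
  by_cases hp : p ∈ Icc (-M) M
  · rw [indicator_of_mem hp]
    exact hC (w, p) ⟨mem_univ _, hp⟩
  · rw [indicator_of_notMem hp]
    have h1 : M ≤ |p| := by
      by_contra h2
      push Not at h2
      exact hp ⟨(abs_lt.1 h2).1.le, (abs_lt.1 h2).2.le⟩
    have h2 : rs g (w, p) = 0 := hM _ _ h1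
    rw [h2, abs_zero]

lemma ind_int (C M : ℝ) : Integrable ((Icc (-M) M).indicator (fun _ : ℝ => C)) volume :=
  (integrable_indicator_iff measurableSet_Icc).2 (integrableOn_const (by simp))

lemma Cp.int (h : Cp g) (w : S) : Integrable (fun p : ℝ => (rs g (w, p) : ℂ)) volume := by
  obtain ⟨C, M, hb⟩ := h.bd
  refine (ind_int C M).mono' ?_ (Eventually.of_forall fun p => ?_)
  · exact (Complex.continuous_ofReal.comp (h.cont.comp (by fun_prop))).aestronglyMeasurable
  · rw [Complex.norm_real, Real.norm_eq_abs]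
    exact hb w p

lemma Cp.fcont (h : Cp g) : Continuous fun z : S × ℝ => ftp (rs g) z.1 z.2 := by
  obtain ⟨C, M, hb⟩ := h.bd
  unfold ftp
  refine continuous_of_dominated (bound := (Icc (-M) M).indicator (fun _ => C)) ?_ ?_ (ind_int C M) ?_
  · intro z
    exact ((Complex.continuous_ofReal.comp (h.cont.comp (by fun_prop))).mul
      (by fun_prop)).aestronglyMeasurable
  · intro z
    refine Eventually.of_forall fun p => ?_
    rw [norm_mul, norm_char', mul_one, Complex.norm_real, Real.norm_eq_abs]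
    exact hb z.1 p
  · refine Eventually.of_forall fun p => ?_
    exact (Complex.continuous_ofReal.comp (h.cont.comp (by fun_prop))).mul (by fun_prop)

lemma Cp.fD (h : Cp g) (w : S) (r : ℝ) :
    ftp (rs (Dg g)) w r = (2 * Real.pi * Complex.I * (r : ℂ)) * ftp (rs g) w r := by
  have hd : ∀ p : ℝ, HasDerivAt (fun p : ℝ => (rs g (w, p) : ℂ)) (rs (Dg g) (w, p) : ℂ) p :=
    fun p => (h.der (w : E) p).ofReal_comp
  have hder : deriv (fun p : ℝ => (rs g (w, p) : ℂ)) = fun p : ℝ => (rs (Dg g) (w, p) : ℂ) :=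
    funext fun p => (hd p).deriv
  rw [ftp_eq, ftp_eq, ← hder, Real.fourier_deriv (h.int w) (fun p => (hd p).differentiableAt)
    (by rw [hder]; exact h.D.int w)]
  simp only [smul_eq_mul]

lemma Cp.pow (n : ℕ) : ∀ {g : E × ℝ → ℝ}, Cp g → ∃ C : ℝ, ∀ (w : S) (r : ℝ),
    |r| ^ n * ‖ftp (rs g) w r‖ ≤ C := by
  induction n with
  | zero =>
    intro g h
    obtain ⟨C, M, hb⟩ := h.bd
    refine ⟨∫ p, (Icc (-M) M).indicator (fun _ => C) p, fun w r => ?_⟩
    rw [pow_zero, one_mul]
    refine norm_integral_le_of_norm_le (ind_int C M) (Eventually.of_forall fun p => ?_)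
    rw [norm_mul, norm_char', mul_one, Complex.norm_real, Real.norm_eq_abs]
    exact hb w p
  | succ n ih =>
    intro g h
    obtain ⟨C, hC⟩ := ih h.D
    refine ⟨C / (2 * Real.pi), fun w r => ?_⟩
    have h1 := hC w r
    rw [h.fD, norm_mul] at h1
    have h5 : ‖2 * (Real.pi : ℂ) * Complex.I * (r : ℂ)‖ = 2 * Real.pi * |r| := by
      simp [abs_of_pos Real.pi_pos]
    rw [h5] at h1
    rw [le_div_iff₀ (by positivity)]
    calc |r| ^ (n + 1) * ‖ftp (rs g) w r‖ * (2 * Real.pi) =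
          |r| ^ n * (2 * Real.pi * |r| * ‖ftp (rs g) w r‖) := by ring
      _ ≤ C := h1

lemma Cp.dec (h : Cp g) : ∃ C : ℝ, ∀ (w : S) (r : ℝ), ‖ftp (rs g) w r‖ ≤ C / (1 + |r|) ^ 4 := by
  obtain ⟨C0, h0⟩ := Cp.pow 0 h
  obtain ⟨C4, h4⟩ := Cp.pow 4 h
  refine ⟨8 * (C0 + C4), fun w r => ?_⟩
  have a0 := h0 w r
  have a4 := h4 w r
  rw [pow_zero, one_mul] at a0
  rw [le_div_iff₀ (by positivity)]
  have hr := abs_nonneg r
  have e : (1 + |r|) ^ 4 ≤ 8 * (1 + |r| ^ 4) := by
    nlinarith [sq_nonneg (|r| - 1), sq_nonneg (|r| ^ 2 - 1), sq_nonneg (|r| ^ 2 - |r|), sq_nonneg (|r| + 1),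
      mul_nonneg hr (sq_nonneg (|r| - 1)), mul_nonneg (sq_nonneg |r|) (sq_nonneg (|r| - 1))]
  calc ‖ftp (rs g) w r‖ * (1 + |r|) ^ 4 ≤ ‖ftp (rs g) w r‖ * (8 * (1 + |r| ^ 4)) := by gcongr
    _ = 8 * (‖ftp (rs g) w r‖ + |r| ^ 4 * ‖ftp (rs g) w r‖) := by ring
    _ ≤ 8 * (C0 + C4) := by gcongr

lemma Cp.good (h : Cp g) {s : ℝ} (hs : |s| < 1 / 2) : ∃ a, Good (jm s (rs g)) a := by
  obtain ⟨C, hC⟩ := h.dec
  have hc := h.fcont
  refine ⟨dom s C, ?_, ?_, dom_int hs C, dom_sq hs C, ?_, ?_⟩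
  · unfold jm
    exact Measurable.mul (by fun_prop) hc.measurable
  · intro w r
    have h1 := hC w r
    have h2 : 0 ≤ |2 * Real.pi * r| ^ (-s) := Real.rpow_nonneg (abs_nonneg _) _
    simp only [jm, dom]
    rw [norm_mul, Complex.norm_real, Real.norm_eq_abs, abs_of_nonneg h2]
    have h3 : (1 + |r|) ^ (-(4 : ℝ)) = ((1 + |r|) ^ 4)⁻¹ := by
      rw [Real.rpow_neg (by positivity)]
      norm_cast
    rw [h3]
    calc |2 * Real.pi * r| ^ (-s) * ‖ftp (rs g) w r‖ ≤ |2 * Real.pi * r| ^ (-s) * (C / (1 + |r|) ^ 4) := by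
          gcongr
      _ = C * (|2 * Real.pi * r| ^ (-s) * ((1 + |r|) ^ 4)⁻¹) := by
          rw [div_eq_mul_inv]; ring
  · intro r
    simp only [jm]
    exact continuous_const.mul (hc.comp (by fun_prop : Continuous fun w : S => (w, r)))
  · intro w r
    simp only [jm]
    rw [mul_neg, abs_neg, ftp_neg, map_mul, Complex.conj_ofReal]

/-- Fourier inversion. -/
lemma Cp.inv (h : Cp g) : JF 0 (rs g) = rs g := by
  funext z
  obtain ⟨w, p⟩ := z
  obtain ⟨a, ha⟩ := h.good (s := 0) (by norm_num)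
  have c1 : Continuous (fun p : ℝ => (rs g (w, p) : ℂ)) :=
    Complex.continuous_ofReal.comp (h.cont.comp (by fun_prop))
  have hF : 𝓕 (fun p : ℝ => (rs g (w, p) : ℂ)) = fun r : ℝ => ftp (rs g) w r :=
    funext fun r => (ftp_eq (rs g) w r).symm
  have hFi : Integrable (𝓕 (fun p : ℝ => (rs g (w, p) : ℂ))) volume := by
    rw [hF]
    have := ha.int1 w
    refine this.congr (Eventually.of_forall fun r => ?_)
    simp [jm]
  have h1 := Idnx.inv_eq c1 (h.int w) hFi p
  rw [hF] at h1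
  unfold JF
  simp only [neg_zero, Real.rpow_zero, Complex.ofReal_one, one_mul]
  rw [h1, Complex.ofReal_re]

lemma JF_add (s : ℝ) (hs : |s| < 1 / 2) {g g' : E × ℝ → ℝ} (h : Cp g) (h' : Cp g') (z : S × ℝ) :
    JF s (fun z => rs g z + rs g' z) z = JF s (rs g) z + JF s (rs g') z := by
  obtain ⟨a, ha⟩ := h.good hs
  obtain ⟨a', ha'⟩ := h'.good hs
  have i1 : Integrable (fun r : ℝ => jm s (rs g) (z.1, r) *
      Complex.exp (2 * Real.pi * Complex.I * ((r * z.2 : ℝ) : ℂ))) volume := by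
    refine (ha.int1 z.1).mono ?_ (Eventually.of_forall fun r => ?_)
    · exact (ha.meas1 z.1).aestronglyMeasurable.mul (Continuous.aestronglyMeasurable (by fun_prop))
    · rw [norm_mul, norm_char, mul_one]
  have i2 : Integrable (fun r : ℝ => jm s (rs g') (z.1, r) *
      Complex.exp (2 * Real.pi * Complex.I * ((r * z.2 : ℝ) : ℂ))) volume := by
    refine (ha'.int1 z.1).mono ?_ (Eventually.of_forall fun r => ?_)
    · exact (ha'.meas1 z.1).aestronglyMeasurable.mul (Continuous.aestronglyMeasurable (by fun_prop))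
    · rw [norm_mul, norm_char, mul_one]
  have e : ∀ r, ftp (fun z => rs g z + rs g' z) z.1 r = ftp (rs g) z.1 r + ftp (rs g') z.1 r := by
    intro r
    unfold ftp
    rw [← integral_add]
    · refine integral_congr_ae (Eventually.of_forall fun p => ?_)
      simp only
      push_cast
      ring
    · refine (h.int z.1).mono ?_ (Eventually.of_forall fun p => ?_)
      · exact (h.int z.1).1.mul (Continuous.aestronglyMeasurable (by fun_prop))
      · rw [norm_mul, norm_char', mul_one]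
    · refine (h'.int z.1).mono ?_ (Eventually.of_forall fun p => ?_)
      · exact (h'.int z.1).1.mul (Continuous.aestronglyMeasurable (by fun_prop))
      · rw [norm_mul, norm_char', mul_one]
  unfold JF
  rw [← Complex.add_re]
  congr 1
  refine Eq.trans ?_ (integral_add i1 i2)
  refine integral_congr_ae (Eventually.of_forall fun r => ?_)
  simp only
  rw [e]
  ring

/-! ### States -/

lemma toK_add {f f' : S × ℝ → ℝ} (h : MemLp f 2 mu) (h' : MemLp f' 2 mu) :
    toK (fun z => f z + f' z) = toK f + toK f' := by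
  apply Lp.ext
  filter_upwards [Pool.Agent.QWE.toK_coe (h.add h'), Pool.Agent.QWE.toK_coe h, Pool.Agent.QWE.toK_coe h',
    Lp.coeFn_add (toK f) (toK f')] with z h1 h2 h3 h4
  rw [h4, Pi.add_apply, h2, h3]
  exact h1

lemma toK_smul {f : S × ℝ → ℝ} (h : MemLp f 2 mu) (c : ℝ) :
    toK (fun z => c * f z) = c • toK f := by
  apply Lp.ext
  filter_upwards [Pool.Agent.QWE.toK_coe (h.const_mul c), Pool.Agent.QWE.toK_coe h,
    Lp.coeFn_smul c (toK f)] with z h1 h2 h3
  rw [h3, Pi.smul_apply, h2, smul_eq_mul]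
  exact h1

lemma toK_comp {f : S × ℝ → ℝ} (h : MemLp f 2 mu) {T : S × ℝ → S × ℝ} (hT : MeasurePreserving T mu mu)
    {k : K} (hk : (k : S × ℝ → ℝ) =ᵐ[mu] fun z => (toK f : S × ℝ → ℝ) (T z)) :
    k = toK (fun z => f (T z)) := by
  apply Lp.ext
  have h1 := hT.quasiMeasurePreserving.ae (Pool.Agent.QWE.toK_coe h)
  filter_upwards [hk, h1, Pool.Agent.QWE.toK_coe (h.comp_measurePreserving hT)] with z h2 h3 h4
  rw [h2, h3]
  exact h4.symm

lemma tau_zero (k : K) : tau 0 k = k := by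
  apply Lp.ext
  filter_upwards [Pool.Agent.QWE.tau_coe 0 k] with z h1
  rw [h1]
  simp

lemma pair0 {A B : S × ℝ → ℂ} {a b : ℝ → ℝ} (h : Good A a) (h' : Good B b) :
    inner ℝ (toK (RF A)) (toK (RF B)) = (∫ z : S × ℝ, A z * (starRingEnd ℂ) (B z) ∂mu).re := by
  have h1 := pair h h' 0
  rw [tau_zero] at h1
  rw [h1]
  congr 1
  refine integral_congr_ae (Eventually.of_forall fun z => ?_)
  simp

lemma inner_toK {f f' : S × ℝ → ℝ} (h : MemLp f 2 mu) (h' : MemLp f' 2 mu) :
    inner ℝ (toK f) (toK f') = ∫ z, f z * f' z ∂mu :=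
  inner_K (Pool.Agent.QWE.toK_coe h) (Pool.Agent.QWE.toK_coe h')

end PJx

open PJx Parx in
theorem thm_PJ (hFt : St_Ft) (hRadS : Pool.Agent.QWE.St_RadS) (hFSl : Pool.Agent.QWE.St_FSl) : St_PJ := by
  intro s hs
  have hs' : |-s| < 1 / 2 := by rwa [abs_neg]
  have h0 : |(0 : ℝ)| < 1 / 2 := by norm_num
  refine ⟨?_, ?_⟩
  · intro h hn
    obtain ⟨g, hg, hM, hh, -⟩ := hn
    have hg1 : Cp g := ⟨hg, hM⟩
    obtain rfl : h = rs g := funext hh
    obtain ⟨a, ha⟩ := hg1.good hs
    obtain ⟨b, hb⟩ := hg1.good h0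
    have m0 : MemLp (rs g) 2 mu := by
      have := hb.memLp_RF
      rwa [← JF_eq, hg1.inv] at this
    have m1 : MemLp (JF s (rs g)) 2 mu := ha.memLp_RF
    refine ⟨m0, m1, ?_, ?_, ?_, ?_, ?_, ?_, ?_⟩
    · unfold JK
      rw [hg1.inv]
    · intro t
      have e := toK_comp m1 (Pool.Agent.QWE.mp_shift (g := fun _ => t) measurable_const)
        (Pool.Agent.QWE.tau_coe t (toK (JF s (rs g))))
      unfold JK
      rw [e]
      congr 1
      funext z
      exact (JF_shift s (rs g) (fun _ => t) z).symm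
    · intro y
      have e := toK_comp m1 (Pool.Agent.QWE.mp_shift (g := fun w : S => inner ℝ y (w : E)) (by fun_prop))
        (Pool.Agent.QWE.sh_coe y (toK (JF s (rs g))))
      unfold JK
      rw [e]
      congr 1
      funext z
      exact (JF_shift s (rs g) (fun w : S => inner ℝ y (w : E)) z).symm
    · have e := toK_comp m1 Pool.Agent.QWE.mp_rev (Pool.Agent.QWE.rev_coe (toK (JF s (rs g))))
      unfold JK
      rw [e]
      congr 1
      funext z
      exact (JF_rev s (rs g) z).symm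
    · intro c
      unfold JK
      rw [← toK_smul m1]
      congr 1
      funext z
      exact JF_smul s (rs g) c z
    · intro h' hn'
      obtain ⟨g', hg', hM', hh', -⟩ := hn'
      have hg1' : Cp g' := ⟨hg', hM'⟩
      obtain rfl : h' = rs g' := funext hh'
      obtain ⟨a1, ha1⟩ := hg1'.good hs
      obtain ⟨a2, ha2⟩ := hg1'.good hs'
      obtain ⟨b1, hb1⟩ := hg1'.good h0
      have m0' : MemLp (rs g') 2 mu := by
        have := hb1.memLp_RF
        rwa [← JF_eq, hg1'.inv] at this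
      have m1' : MemLp (JF s (rs g')) 2 mu := ha1.memLp_RF
      refine ⟨?_, ?_, ?_⟩
      · unfold JK
        rw [← toK_add m1 m1']
        congr 1
        funext z
        exact JF_add s hs hg1 hg1' z
      · have r1 : toK (rs g) = toK (RF (jm 0 (rs g))) := by rw [← JF_eq, hg1.inv]
        have r2 : toK (rs g') = toK (RF (jm 0 (rs g'))) := by rw [← JF_eq, hg1'.inv]
        rw [← inner_toK m0 m0', r1, r2]
        unfold JK
        rw [JF_eq, JF_eq, pair0 ha ha2, pair0 hb hb1]
        congr 1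
        refine integral_congr_ae ?_
        filter_upwards [ae_ne] with z hz
        have hx : 2 * Real.pi * z.2 ≠ 0 := mul_ne_zero Real.two_pi_pos.ne' hz
        simp only [jm, map_mul, Complex.conj_ofReal, neg_zero, Real.rpow_zero, Complex.ofReal_one, one_mul,
          neg_neg]
        have e : |2 * Real.pi * z.2| ^ (-s) * |2 * Real.pi * z.2| ^ s = 1 := by
          rw [rpow_mul_rpow hx, neg_add_cancel, Real.rpow_zero]
        have e' : ((|2 * Real.pi * z.2| ^ (-s) : ℝ) : ℂ) * ((|2 * Real.pi * z.2| ^ s : ℝ) : ℂ) = 1 := by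
          rw [← Complex.ofReal_mul, e, Complex.ofReal_one]
        linear_combination (ftp (rs g) z.1 z.2 * (starRingEnd ℂ) (ftp (rs g') z.1 z.2)) * e'
      · unfold JK
        rw [JF_eq, JF_eq, pair0 ha ha1]
        congr 1
        refine integral_congr_ae ?_
        filter_upwards [ae_ne] with z hz
        have hx : 2 * Real.pi * z.2 ≠ 0 := mul_ne_zero Real.two_pi_pos.ne' hz
        simp only [jm, map_mul, Complex.conj_ofReal]
        have e : -2 * s = -s + -s := by ring
        rw [e, ← rpow_mul_rpow hx]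
        push_cast
        ring
    · intro φ hφ
      obtain ⟨a1, ha1⟩ := am_good hFt hs' hφ
      obtain ⟨b1, hb1⟩ := am_good hFt h0 hφ
      obtain ⟨a2, ha2⟩ := dam_good hFt hs' hφ
      obtain ⟨b2, hb2⟩ := dam_good hFt h0 hφ
      have n1 : MemLp (Rad φ) 2 mu := by
        have := hb1.memLp_RF
        rwa [← RsF_eq, Idnx.RsF_zero hFt hRadS hFSl hφ] at this
      have n2 : MemLp (dRad φ) 2 mu := by
        have := hb2.memLp_RF
        rwa [← dRsF_eq, Idnx.dRsF_zero hFt hRadS hFSl hφ] at this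
      have ex : ∀ z : S × ℝ, z.2 ≠ 0 →
          ((|2 * Real.pi * z.2| ^ (-s) : ℝ) : ℂ) * ((|2 * Real.pi * z.2| ^ s : ℝ) : ℂ) = 1 := by
        intro z hz
        have hx : 2 * Real.pi * z.2 ≠ 0 := mul_ne_zero Real.two_pi_pos.ne' hz
        have e : |2 * Real.pi * z.2| ^ (-s) * |2 * Real.pi * z.2| ^ s = 1 := by
          rw [rpow_mul_rpow hx, neg_add_cancel, Real.rpow_zero]
        rw [← Complex.ofReal_mul, e, Complex.ofReal_one]
      refine ⟨?_, ?_⟩
      · have r1 : toK (rs g) = toK (RF (jm 0 (rs g))) := by rw [← JF_eq, hg1.inv]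
        have r2 : toK (Rad φ) = toK (RF (am 0 φ)) := by
          rw [← RsF_eq, Idnx.RsF_zero hFt hRadS hFSl hφ]
        rw [← inner_toK m0 n1, r1, r2]
        unfold JK Rs
        rw [JF_eq, RsF_eq, pair0 ha ha1, pair0 hb hb1]
        congr 1
        refine integral_congr_ae ?_
        filter_upwards [ae_ne] with z hz
        simp only [jm, am, map_mul, Complex.conj_ofReal, neg_zero, Real.rpow_zero, Complex.ofReal_one,
          one_mul, neg_neg]
        linear_combination (ftp (rs g) z.1 z.2 * (starRingEnd ℂ) (ft φ (z.2 • (z.1 : E)))) * ex z hz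
      · have r1 : toK (rs g) = toK (RF (jm 0 (rs g))) := by rw [← JF_eq, hg1.inv]
        have r2 : toK (dRad φ) = toK (RF (dam 0 φ)) := by
          rw [← dRsF_eq, Idnx.dRsF_zero hFt hRadS hFSl hφ]
        rw [← inner_toK m0 n2, r1, r2]
        unfold JK dRs
        rw [JF_eq, dRsF_eq, pair0 ha ha2, pair0 hb hb2]
        congr 1
        refine integral_congr_ae ?_
        filter_upwards [ae_ne] with z hz
        simp only [jm, dam, map_mul, Complex.conj_ofReal, neg_zero, Real.rpow_zero, Complex.ofReal_one,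
          one_mul, neg_neg]
        linear_combination (ftp (rs g) z.1 z.2 * (((starRingEnd ℂ) 2 * Real.pi * (starRingEnd ℂ) Complex.I *
          z.2) * (starRingEnd ℂ) (ft φ (z.2 • (z.1 : E))))) * ex z hz
  · intro φ hφ
    have hφ' : IsSch φ := hFt.1 φ hφ
    have e1 : ∀ (w : S) (r : ℝ), ftp (Rad φ) w r = ft φ (r • (w : E)) := fun w r => by
      rw [ftp_eq, Idnx.ft_slice hFSl hφ' w r]
    have e2 : ∀ (w : S) (r : ℝ), ftp (dRad φ) w r =
        (2 * Real.pi * Complex.I * (r : ℂ)) * ft φ (r • (w : E)) := fun w r => by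
      obtain ⟨c1, i1, c2, i2, hd⟩ := Idnx.rad_props hRadS hφ' w
      have hder : deriv (fun p : ℝ => (Rad φ (w, p) : ℂ)) = fun p : ℝ => (dRad φ (w, p) : ℂ) :=
        funext fun p => (hd p).deriv
      rw [ftp_eq, ← hder, Real.fourier_deriv i1 (fun p => (hd p).differentiableAt) (by rw [hder]; exact i2)]
      simp only [smul_eq_mul]
      rw [Idnx.ft_slice hFSl hφ' w r]
    refine ⟨?_, ?_⟩
    · unfold JK Rs
      congr 1
      funext z
      unfold JF RsF
      simp only [e1]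
    · unfold JK dRs
      congr 1
      funext z
      unfold JF dRsF
      simp only [e2, mul_assoc]

end Pool.Agent.QWP
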