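import Pool.Agent.QWP.StB
import Pool.Agent.QWE.Pert

set_option autoImplicit false

/-!
# QWP, Pert: the perturbation lemma for all powers (helper96, after QWE/Pert)
-/

open MeasureTheory Filter Topology Set
open scoped ENNReal NNReal RealInnerProductSpace Pointwise

namespace Pool.Agent.QWP

open Pool.Agent.QWE (E S sg mu K toK tau sh dl rev gr ig IsTest pd lap Rad dRad Rk dRk c0 WD Sm SmE IsSch half shr WTo)

namespace Pertx

open Pool.Agent.QWE.Pertx (tau_cont tau_int ii two_point enorm_le_ofReal lint_add real_le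
  diff_formula)

/-! ### the Strichartz norm -/

/-- the norm -/
noncomputable def sS (b : ℝ) (J : Set ℝ) (k : ℝ → K) : ℝ≥0∞ := SN b J k ^ (1 / b)

lemma rp1 {b : ℝ} (hb : 2 < b) (x : ℝ≥0∞) : (x ^ b) ^ (1 / b) = x := by
  rw [← ENNReal.rpow_mul, mul_one_div_cancel (by linarith : b ≠ 0), ENNReal.rpow_one]

lemma rp2 {b : ℝ} (hb : 2 < b) (x : ℝ≥0∞) : (x ^ (1 / b)) ^ b = x := by
  rw [← ENNReal.rpow_mul, one_div_mul_cancel (by linarith : b ≠ 0), ENNReal.rpow_one]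

lemma sS_pow {b : ℝ} (hb : 2 < b) (J : Set ℝ) (k : ℝ → K) : sS b J k ^ b = SN b J k :=
  rp2 hb _

lemma sS_le {b : ℝ} (hb : 2 < b) {J : Set ℝ} {k : ℝ → K} {x : ℝ≥0∞} (h : SN b J k ≤ x ^ b) :
    sS b J k ≤ x := by
  have hb0 : 0 < b := by linarith
  rw [sS, ← rp1 hb x]
  exact ENNReal.rpow_le_rpow h (by positivity)

lemma SN_le {b : ℝ} (hb : 2 < b) {J : Set ℝ} {k : ℝ → K} {x : ℝ≥0∞} (h : sS b J k ≤ x) :
    SN b J k ≤ x ^ b := by
  rw [← sS_pow hb]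
  exact ENNReal.rpow_le_rpow h (by linarith)

lemma SN_congr {b : ℝ} {J : Set ℝ} (hJ : MeasurableSet J) {k k' : ℝ → K}
    (h : ∀ t ∈ J, k t = k' t) : SN b J k = SN b J k' := by
  unfold SN
  exact setLIntegral_congr_fun hJ fun t ht => by simp only [h t ht]

lemma sn_meas {b : ℝ} (hb : 2 < b) (hM : St_Meas) {J : Set ℝ} (hJ : MeasurableSet J) {k : ℝ → K}
    (hk : AEStronglyMeasurable k (volume.restrict J)) :
    AEMeasurable (fun r => sn b (k r)) (volume.restrict J) :=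
  (hM b hb k J hJ hk).1

lemma sn_fin {b : ℝ} (hb : 2 < b) (hM : St_Meas) {J : Set ℝ} (hJ : MeasurableSet J) {k : ℝ → K}
    (hk : AEStronglyMeasurable k (volume.restrict J)) (hS : SN b J k < ⊤) :
    ∀ᵐ r ∂(volume.restrict J), sn b (k r) < ⊤ := by
  have h1 : ∀ᵐ r ∂(volume.restrict J), sn b (k r) ^ b < ⊤ :=
    ae_lt_top' ((sn_meas hb hM hJ hk).pow_const b) hS.ne
  filter_upwards [h1] with r hr
  by_contra h2
  rw [not_lt, top_le_iff] at h2
  rw [h2, ENNReal.top_rpow_of_pos (by linarith)] at hr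
  exact lt_irrefl _ hr

lemma NL_int {b : ℝ} (hb : 2 < b) (hM : St_Meas) {CN : ℝ}
    (hN1 : ∀ k : K, ‖NL b k‖ₑ ≤ ENNReal.ofReal CN * sn b k ^ b * ‖k‖ₑ)
    {J : Set ℝ} (hJ : MeasurableSet J) {k : ℝ → K}
    (hk : AEStronglyMeasurable k (volume.restrict J)) (hS : SN b J k < ⊤) {B : ℝ}
    (hB : ∀ t ∈ J, ‖k t‖ ≤ B) :
    IntegrableOn (fun r => NL b (k r)) J volume ∧
      ∫⁻ r in J, ‖NL b (k r)‖ₑ ≤ ENNReal.ofReal CN * ENNReal.ofReal B * SN b J k := by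
  have h1 := (hM b hb k J hJ hk).2.2 (sn_fin hb hM hJ hk hS)
  have h2 : ∫⁻ r in J, ‖NL b (k r)‖ₑ ≤ ENNReal.ofReal CN * ENNReal.ofReal B * SN b J k := by
    have h3 : ∫⁻ r in J, ‖NL b (k r)‖ₑ ≤
        ∫⁻ r in J, ENNReal.ofReal CN * ENNReal.ofReal B * sn b (k r) ^ b := by
      refine setLIntegral_mono' hJ fun t ht => (hN1 (k t)).trans ?_
      calc ENNReal.ofReal CN * sn b (k t) ^ b * ‖k t‖ₑ
          ≤ ENNReal.ofReal CN * sn b (k t) ^ b * ENNReal.ofReal B :=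
            mul_le_mul_right (enorm_le_ofReal (hB t ht)) _
        _ = ENNReal.ofReal CN * ENNReal.ofReal B * sn b (k t) ^ b := by ring
    rw [lintegral_const_mul' _ _ (ENNReal.mul_ne_top ENNReal.ofReal_ne_top
      ENNReal.ofReal_ne_top)] at h3
    exact h3
  exact ⟨⟨h1, h2.trans_lt (ENNReal.mul_lt_top (ENNReal.mul_lt_top ENNReal.ofReal_lt_top
    ENNReal.ofReal_lt_top) hS)⟩, h2⟩

lemma holder {b : ℝ} (hb : 2 < b) {μ : Measure ℝ} {f g : ℝ → ℝ≥0∞} (hf : AEMeasurable f μ)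
    (hg : AEMeasurable g μ) :
    ∫⁻ r, f r ^ (b - 1) * g r ∂μ ≤
      ((∫⁻ r, f r ^ b ∂μ) ^ (1 / b)) ^ (b - 1) * (∫⁻ r, g r ^ b ∂μ) ^ (1 / b) := by
  have hb0 : b ≠ 0 := by linarith
  have hb1 : b - 1 ≠ 0 := by linarith
  have hb1' : 0 < b - 1 := by linarith
  have hpq : (b / (b - 1)).HolderConjugate b := by
    rw [Real.holderConjugate_iff]
    refine ⟨?_, ?_⟩
    · rw [lt_div_iff₀ hb1']
      linarith
    · rw [inv_div]
      field_simp
      ring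
  have h := ENNReal.lintegral_mul_le_Lp_mul_Lq μ hpq (hf.pow_const (b - 1)) hg
  have e1 : ∀ r, (f r ^ (b - 1)) ^ (b / (b - 1)) = f r ^ b := by
    intro r
    rw [← ENNReal.rpow_mul]
    congr 1
    field_simp
  have e3 : ∀ x : ℝ≥0∞, x ^ (1 / (b / (b - 1))) = (x ^ (1 / b)) ^ (b - 1) := by
    intro x
    rw [← ENNReal.rpow_mul]
    congr 1
    field_simp
  simp only [Pi.mul_apply, e1, e3] at h
  exact h

lemma NL_diff {b : ℝ} (hb : 2 < b) (hM : St_Meas) {CN : ℝ}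
    (hN2 : ∀ k k' : K, sn b k < ⊤ → sn b k' < ⊤ → ‖NL b k - NL b k'‖ₑ ≤ ENNReal.ofReal CN *
      ((sn b k + sn b k') ^ (b - 1) * sn b (k - k') * (‖k‖ₑ + ‖k'‖ₑ) +
        (sn b k + sn b k') ^ b * ‖k - k'‖ₑ))
    {J : Set ℝ} (hJ : MeasurableSet J) {k k' : ℝ → K}
    (hk : AEStronglyMeasurable k (volume.restrict J))
    (hk' : AEStronglyMeasurable k' (volume.restrict J)) (hS : SN b J k < ⊤) (hS' : SN b J k' < ⊤)
    {B : ℝ} {D : ℝ≥0∞} (hB : ∀ t ∈ J, ‖k t‖ₑ + ‖k' t‖ₑ ≤ ENNReal.ofReal B)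
    (hD : ∀ t ∈ J, ‖k t - k' t‖ₑ ≤ D) (hDt : D ≠ ⊤) :
    ∫⁻ r in J, ‖NL b (k r) - NL b (k' r)‖ₑ ≤ ENNReal.ofReal CN *
      (ENNReal.ofReal B * ((sS b J k + sS b J k') ^ (b - 1) * sS b J (fun t => k t - k' t)) +
        D * (sS b J k + sS b J k') ^ b) := by
  have hb0 : 0 < b := by linarith
  have hb1 : 0 < b - 1 := by linarith
  have mx := sn_meas hb hM hJ hk
  have my := sn_meas hb hM hJ hk'
  have mz := sn_meas hb hM hJ (hk.sub hk')
  have mw : AEMeasurable (fun r => sn b (k r) + sn b (k' r)) (volume.restrict J) := mx.add my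
  have h1 : ∀ᵐ r ∂(volume.restrict J), ‖NL b (k r) - NL b (k' r)‖ₑ ≤ ENNReal.ofReal CN *
      (ENNReal.ofReal B * ((sn b (k r) + sn b (k' r)) ^ (b - 1) * sn b (k r - k' r)) +
        D * (sn b (k r) + sn b (k' r)) ^ b) := by
    filter_upwards [sn_fin hb hM hJ hk hS, sn_fin hb hM hJ hk' hS', ae_restrict_mem hJ]
      with r h2 h3 h4
    refine (hN2 _ _ h2 h3).trans (mul_le_mul_right (add_le_add ?_ ?_) _)
    · rw [mul_comm (ENNReal.ofReal B)]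
      exact mul_le_mul_right (hB r h4) _
    · rw [mul_comm D]
      exact mul_le_mul_right (hD r h4) _
  refine (lintegral_mono_ae h1).trans ?_
  have m1 : AEMeasurable (fun r => (sn b (k r) + sn b (k' r)) ^ (b - 1) * sn b (k r - k' r))
      (volume.restrict J) := (mw.pow_const (b - 1)).mul mz
  have m3 : AEMeasurable (fun r => ENNReal.ofReal B *
      ((sn b (k r) + sn b (k' r)) ^ (b - 1) * sn b (k r - k' r))) (volume.restrict J) :=
    m1.const_mul _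
  have hmink : (∫⁻ r in J, (sn b (k r) + sn b (k' r)) ^ b) ^ (1 / b) ≤
      sS b J k + sS b J k' :=
    ENNReal.lintegral_Lp_add_le mx my (by linarith)
  rw [lintegral_const_mul' _ _ ENNReal.ofReal_ne_top, lintegral_add_left' m3,
    lintegral_const_mul' _ _ ENNReal.ofReal_ne_top, lintegral_const_mul' _ _ hDt]
  refine mul_le_mul_right (add_le_add (mul_le_mul_right ?_ _) (mul_le_mul_right ?_ _)) _
  · refine (holder hb mw mz).trans (mul_le_mul_left ?_ _)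
    exact ENNReal.rpow_le_rpow hmink hb1.le
  · calc ∫⁻ r in J, (sn b (k r) + sn b (k' r)) ^ b
        = ((∫⁻ r in J, (sn b (k r) + sn b (k' r)) ^ b) ^ (1 / b)) ^ b := (rp2 hb _).symm
      _ ≤ (sS b J k + sS b J k') ^ b := ENNReal.rpow_le_rpow hmink hb0.le

/-- free evolution -/
lemma free {b : ℝ} (hb : 2 < b) {CS : ℝ} (hS : ∀ k : K, ∫⁻ t, sn b (tau t k) ^ b ≤
    (ENNReal.ofReal CS * ‖k‖ₑ) ^ b) (J : Set ℝ) (p : ℝ) (k : K) :
    sS b J (fun t => tau (t - p) k) ≤ ENNReal.ofReal CS * ‖k‖ₑ := by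
  refine sS_le hb ((lintegral_mono' Measure.restrict_le_self le_rfl).trans ?_)
  have h1 := lintegral_sub_right_eq_self (μ := (volume : Measure ℝ))
    (fun t => sn b (tau t k) ^ b) p
  rw [h1]
  exact hS k

/-- Duhamel integrals -/
lemma duh {b : ℝ} (hb : 2 < b) {CD : ℝ} (hCD : 0 < CD)
    (hD : ∀ (x y t0 : ℝ) (G : ℝ → K), x ≤ t0 → t0 ≤ y →
      IntegrableOn G (Icc x y) volume →
      ContinuousOn (fun t => ∫ r in t0..t, tau (t - r) (G r)) (Icc x y) ∧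
      (∀ t ∈ Icc x y, ‖∫ r in t0..t, tau (t - r) (G r)‖ ≤ ∫ r in Icc x y, ‖G r‖) ∧
      SN b (Icc x y) (fun t => ∫ r in t0..t, tau (t - r) (G r)) ≤
        ENNReal.ofReal (CD * ∫ r in Icc x y, ‖G r‖) ^ b ∧
      ∫⁻ t in Icc x y, eLpNorm (U (sig b) (∫ r in t0..t, tau (t - r) (G r)))
          (ENNReal.ofReal (5 * b * (b + 2) / 4)) volume ^ ((b + 2) / 2) ≤
        ENNReal.ofReal (CD * ∫ r in Icc x y, ‖G r‖) ^ ((b + 2) / 2))
    {p q : ℝ} (hpq : p ≤ q) {G : ℝ → K} (hG : IntegrableOn G (Icc p q) volume) :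
    ContinuousOn (fun t => ∫ r in p..t, tau (t - r) (G r)) (Icc p q) ∧
    (∀ t ∈ Icc p q, ‖∫ r in p..t, tau (t - r) (G r)‖ₑ ≤ ∫⁻ r in Icc p q, ‖G r‖ₑ) ∧
    sS b (Icc p q) (fun t => ∫ r in p..t, tau (t - r) (G r)) ≤
      ENNReal.ofReal CD * ∫⁻ r in Icc p q, ‖G r‖ₑ := by
  obtain ⟨h1, h2, h3, -⟩ := hD p q p G le_rfl hpq hG
  have h4 := ofReal_integral_norm_eq_lintegral_enorm hG
  refine ⟨h1, fun t ht => ?_, sS_le hb ?_⟩
  · rw [← h4]
    exact enorm_le_ofReal (h2 t ht)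
  · rw [← h4, ← ENNReal.ofReal_mul hCD.le]
    exact h3

/-- the constants -/
lemma consts {b : ℝ} (hb : 2 < b) (A CN CD CS η0 : ℝ) (hA : 0 < A) (hCN : 0 < CN) (hCD : 0 < CD)
    (hCS : 0 < CS) (hη0 : 0 < η0) : ∃ η κ : ℝ, 0 < η ∧ η ≤ 1 ∧ 1 ≤ κ ∧ κ * η ≤ η0 ∧
      (∀ ε : ℝ, ε ≤ η → CS * ε + (η + CD * (CN * A * η ^ b + ε)) ≤ κ * η) ∧
      (1 + CD) * (CN * ((2 * (A + 1) + A) * (2 * (κ * η) + η) ^ (b - 1) +
        (2 * (κ * η) + η) ^ b)) ≤ 1 / 2 := by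
  obtain ⟨κ, hκ⟩ : ∃ κ, κ = 1 + CD * CN * A + CD + CS := ⟨_, rfl⟩
  have hκ1 : 1 ≤ κ := by
    rw [hκ]
    have : 0 < CD * CN * A := by positivity
    linarith
  have hκ0 : 0 < κ := by linarith
  obtain ⟨κ2, hκ2⟩ : ∃ κ2, κ2 = (1 + CD) * (CN * ((2 * (A + 1) + A) + 1)) * (2 * κ + 1) :=
    ⟨_, rfl⟩
  have hκ20 : 0 < κ2 := by
    rw [hκ2]
    positivity
  obtain ⟨η, hη⟩ : ∃ η, η = min 1 (min (η0 / κ) (min (1 / (2 * κ + 1)) (1 / (2 * κ2)))) :=
    ⟨_, rfl⟩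
  have hη1 : η ≤ 1 := by
    rw [hη]
    exact min_le_left _ _
  have hηp : 0 < η := by
    rw [hη]
    positivity
  have hηa : η ≤ η0 / κ := by
    rw [hη]
    exact (min_le_right _ _).trans (min_le_left _ _)
  have hηb : η ≤ 1 / (2 * κ + 1) := by
    rw [hη]
    exact (min_le_right _ _).trans ((min_le_right _ _).trans (min_le_left _ _))
  have hηc : η ≤ 1 / (2 * κ2) := by
    rw [hη]
    exact (min_le_right _ _).trans ((min_le_right _ _).trans (min_le_right _ _))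
  refine ⟨η, κ, hηp, hη1, hκ1, ?_, ?_, ?_⟩
  · calc κ * η ≤ κ * (η0 / κ) := mul_le_mul_of_nonneg_left hηa hκ0.le
      _ = η0 := by field_simp
  · intro ε hε
    have h4 : η ^ b ≤ η := by
      have h := Real.rpow_le_rpow_of_exponent_ge hηp hη1 (by linarith : (1 : ℝ) ≤ b)
      rwa [Real.rpow_one] at h
    have h5 : CD * (CN * A * η ^ b + ε) ≤ CD * (CN * A * η + η) :=
      mul_le_mul_of_nonneg_left (add_le_add (mul_le_mul_of_nonneg_left h4 (by positivity)) hε)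
        hCD.le
    have h6 : CS * ε ≤ CS * η := mul_le_mul_of_nonneg_left hε hCS.le
    rw [hκ]
    linarith
  · have hθ : 2 * (κ * η) + η = (2 * κ + 1) * η := by ring
    rw [hθ]
    have hθ0 : 0 < (2 * κ + 1) * η := by positivity
    have hθ1 : (2 * κ + 1) * η ≤ 1 := by
      rw [le_div_iff₀ (by positivity)] at hηb
      linarith
    have h3 : ((2 * κ + 1) * η) ^ (b - 1) ≤ (2 * κ + 1) * η := by
      have h := Real.rpow_le_rpow_of_exponent_ge hθ0 hθ1 (by linarith : (1 : ℝ) ≤ b - 1)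
      rwa [Real.rpow_one] at h
    have h4 : ((2 * κ + 1) * η) ^ b ≤ (2 * κ + 1) * η := by
      have h := Real.rpow_le_rpow_of_exponent_ge hθ0 hθ1 (by linarith : (1 : ℝ) ≤ b)
      rwa [Real.rpow_one] at h
    have h5 : (2 * (A + 1) + A) * ((2 * κ + 1) * η) ^ (b - 1) + ((2 * κ + 1) * η) ^ b ≤
        ((2 * (A + 1) + A) + 1) * ((2 * κ + 1) * η) := by
      rw [add_mul (2 * (A + 1) + A) 1, one_mul]
      exact add_le_add (mul_le_mul_of_nonneg_left h3 (by positivity)) h4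
    calc (1 + CD) * (CN * ((2 * (A + 1) + A) * ((2 * κ + 1) * η) ^ (b - 1) +
          ((2 * κ + 1) * η) ^ b))
        ≤ (1 + CD) * (CN * (((2 * (A + 1) + A) + 1) * ((2 * κ + 1) * η))) :=
          mul_le_mul_of_nonneg_left (mul_le_mul_of_nonneg_left h5 hCN.le) (by positivity)
      _ = κ2 * η := by
          rw [hκ2]
          ring
      _ ≤ κ2 * (1 / (2 * κ2)) := mul_le_mul_of_nonneg_left hηc hκ20.le
      _ = 1 / 2 := by field_simp

/-- the final inequality -/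
lemma absorb {δ σ n g ε CN CD CS c B P Q : ℝ} (hδ : 0 ≤ δ) (hσ : 0 ≤ σ)
    (hCN : 0 < CN) (hCD : 0 < CD) (hB : 0 ≤ B) (hP : 0 ≤ P) (hQ : 0 ≤ Q)
    (hc : c = B * P + Q) (h0 : (1 + CD) * (CN * c) ≤ 1 / 2)
    (h1 : n ≤ CN * (B * (P * σ) + δ * Q))
    (h2 : δ ≤ ε + g) (h3 : σ ≤ CS * ε + CD * g) (h4 : g ≤ n + ε) :
    δ + σ ≤ 2 * (2 + CS + CD) * ε := by
  have h5 : B * (P * σ) + δ * Q ≤ c * (δ + σ) := by
    have h6 : 0 ≤ B * P * δ := by positivity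
    have h7 : 0 ≤ Q * σ := by positivity
    rw [hc]
    linarith
  have h6 : n ≤ CN * (c * (δ + σ)) := h1.trans (mul_le_mul_of_nonneg_left h5 hCN.le)
  have h7 : δ + σ ≤ (1 + CS) * ε + (1 + CD) * g := by linarith
  have h8 : (1 + CD) * g ≤ (1 + CD) * (CN * (c * (δ + σ)) + ε) :=
    mul_le_mul_of_nonneg_left (by linarith) (by positivity)
  have h9 : (1 + CD) * (CN * c) * (δ + σ) ≤ 1 / 2 * (δ + σ) :=
    mul_le_mul_of_nonneg_right h0 (by positivity)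
  have h10 : (1 + CD) * (CN * (c * (δ + σ)) + ε) =
      (1 + CD) * (CN * c) * (δ + σ) + (1 + CD) * ε := by ring
  linarith

lemma rpow_lt {b x : ℝ} (hb : 2 < b) : ENNReal.ofReal x ^ b < ⊤ :=
  ENNReal.rpow_lt_top_of_nonneg (by linarith) ENNReal.ofReal_ne_top

lemma of_rpow {b x : ℝ} (hb : 2 < b) (hx : 0 ≤ x) :
    ENNReal.ofReal (x ^ b) = ENNReal.ofReal x ^ b :=
  (ENNReal.ofReal_rpow_of_nonneg hx (by linarith)).symm

/-- existence on a short interval -/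
lemma exist {b : ℝ} (hb : 2 < b) (hG : QWE.St_Grp1) {CS CN CD : ℝ} (hCS : 0 < CS) (hCN : 0 < CN)
    (hCD : 0 < CD)
    (hStr : ∀ k : K, ∫⁻ t, sn b (tau t k) ^ b ≤ (ENNReal.ofReal CS * ‖k‖ₑ) ^ b)
    (hT : St_SNt) {η0 A : ℝ} (hA : 0 < A)
    (hL : ∀ (k0 : K) (x y t0 η : ℝ), ‖k0‖ ≤ A + 1 →
      x ≤ t0 → t0 ≤ y → 0 < η → η ≤ η0 →
      SN b (Icc x y) (fun t => tau (t - t0) k0) ≤ ENNReal.ofReal η ^ b →
      ∃ k : ℝ → K, IsSol b (Icc x y) k ∧ k t0 = k0 ∧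
        SN b (Icc x y) k ≤ ENNReal.ofReal (2 * η) ^ b ∧
        (∀ t ∈ Icc x y, ‖k t‖ ≤ 2 * (A + 1)) ∧
        ∀ t ∈ Icc x y, Tendsto (fun n => PicN b k0 t0 n t) atTop (𝓝 (k t)))
    {p q ε η κ : ℝ} {kt G : ℝ → K} {k0 : K} (hpq : p ≤ q) (hε : 0 ≤ ε) (hεη : ε ≤ η) (hη : 0 < η)
    (hη1 : η ≤ 1) (hκ : 1 ≤ κ) (hκη : κ * η ≤ η0)
    (hc : CS * ε + (η + CD * (CN * A * η ^ b + ε)) ≤ κ * η)
    (hkt : ContinuousOn kt (Icc p q)) (hktA : ∀ t ∈ Icc p q, ‖kt t‖ ≤ A)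
    (hS : SN b (Icc p q) kt ≤ ENNReal.ofReal η ^ b)
    (hD0 : ContinuousOn (fun t => ∫ r in p..t, tau (t - r) (G r)) (Icc p q))
    (hD1 : sS b (Icc p q) (fun t => ∫ r in p..t, tau (t - r) (G r)) ≤
      ENNReal.ofReal CD * ∫⁻ r in Icc p q, ‖G r‖ₑ)
    (hG1 : ∫⁻ r in Icc p q, ‖G r‖ₑ ≤ ENNReal.ofReal CN * ENNReal.ofReal A * ENNReal.ofReal η ^ b +
      ENNReal.ofReal ε)
    (hdu : ∀ t ∈ Icc p q, kt t = tau (t - p) (kt p) - ∫ r in p..t, tau (t - r) (G r))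
    (h0 : ‖k0 - kt p‖ ≤ ε) :
    ∃ k : ℝ → K, IsSol b (Icc p q) k ∧ k p = k0 ∧
      SN b (Icc p q) k ≤ ENNReal.ofReal (2 * (κ * η)) ^ b ∧
        (∀ t ∈ Icc p q, ‖k t‖ ≤ 2 * (A + 1)) := by
  have hJ : MeasurableSet (Icc p q) := measurableSet_Icc
  have hmem : p ∈ Icc p q := ⟨le_rfl, hpq⟩
  have hk0 : ‖k0‖ ≤ A + 1 := by
    have h1 : k0 = (k0 - kt p) + kt p := by abel
    rw [h1]
    refine (norm_add_le _ _).trans ?_
    have h2 := hktA p hmem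
    linarith
  have m1 : AEStronglyMeasurable (fun t => tau (t - p) (k0 - kt p))
      (volume.restrict (Icc p q)) := by
    obtain ⟨-, -, -, -, -, -, -, hcc, -⟩ := hG
    have h1 : Continuous fun t : ℝ => tau (t - p) (k0 - kt p) :=
      (hcc (k0 - kt p)).comp (continuous_id.sub continuous_const)
    exact h1.aestronglyMeasurable
  have m2 : AEStronglyMeasurable kt (volume.restrict (Icc p q)) := hkt.aestronglyMeasurable hJ
  have m3 : AEStronglyMeasurable (fun t => ∫ r in p..t, tau (t - r) (G r))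
      (volume.restrict (Icc p q)) := hD0.aestronglyMeasurable hJ
  have t1 := (hT b hb _ _ (Icc p q) hJ m1 (m2.add m3)).1
  have t2 := (hT b hb _ _ (Icc p q) hJ m2 m3).1
  have e1 : SN b (Icc p q) (fun t => tau (t - p) k0) = SN b (Icc p q) (fun t =>
      tau (t - p) (k0 - kt p) + (kt + fun t => ∫ r in p..t, tau (t - r) (G r)) t) := by
    refine SN_congr hJ fun t ht => ?_
    show tau (t - p) k0 = tau (t - p) (k0 - kt p) + (kt t + ∫ r in p..t, tau (t - r) (G r))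
    rw [hdu t ht, map_sub]
    abel
  have b1 : sS b (Icc p q) (fun t => tau (t - p) k0) ≤ ENNReal.ofReal (κ * η) := by
    have s1 : sS b (Icc p q) (fun t => tau (t - p) (k0 - kt p)) ≤
        ENNReal.ofReal CS * ENNReal.ofReal ε :=
      (free hb hStr (Icc p q) p _).trans (mul_le_mul_right (enorm_le_ofReal h0) _)
    have s2 : sS b (Icc p q) kt ≤ ENNReal.ofReal η := sS_le hb hS
    have s3 : sS b (Icc p q) (fun t => ∫ r in p..t, tau (t - r) (G r)) ≤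
        ENNReal.ofReal CD * (ENNReal.ofReal CN * ENNReal.ofReal A * ENNReal.ofReal η ^ b +
          ENNReal.ofReal ε) := hD1.trans (mul_le_mul_right hG1 _)
    have s4 : sS b (Icc p q) (fun t => tau (t - p) k0) ≤
        sS b (Icc p q) (fun t => tau (t - p) (k0 - kt p)) + (sS b (Icc p q) kt +
          sS b (Icc p q) (fun t => ∫ r in p..t, tau (t - r) (G r))) := by
      have s5 : sS b (Icc p q) (fun t => tau (t - p) k0) = SN b (Icc p q) (fun t =>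
          tau (t - p) (k0 - kt p) + (kt + fun t => ∫ r in p..t, tau (t - r) (G r)) t) ^
            (1 / b) := by rw [sS, e1]
      rw [s5]
      exact t1.trans (add_le_add le_rfl t2)
    refine (s4.trans (add_le_add s1 (add_le_add s2 s3))).trans ?_
    have s6 : ENNReal.ofReal CS * ENNReal.ofReal ε + (ENNReal.ofReal η +
        ENNReal.ofReal CD * (ENNReal.ofReal CN * ENNReal.ofReal A * ENNReal.ofReal η ^ b +
          ENNReal.ofReal ε)) =
        ENNReal.ofReal (CS * ε + (η + CD * (CN * A * η ^ b + ε))) := by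
      rw [ENNReal.ofReal_add (by positivity) (by positivity),
        ENNReal.ofReal_add (by positivity) (by positivity), ENNReal.ofReal_mul hCS.le,
        ENNReal.ofReal_mul hCD.le, ENNReal.ofReal_add (by positivity) hε,
        ENNReal.ofReal_mul (by positivity), ENNReal.ofReal_mul hCN.le, of_rpow hb hη.le]
    rw [s6]
    exact ENNReal.ofReal_le_ofReal hc
  obtain ⟨k, k1, k2, k3, k4, -⟩ := hL k0 p q p (κ * η) hk0 le_rfl hpq (by positivity) hκη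
    (SN_le hb b1)
  exact ⟨k, k1, k2, k3, k4⟩

lemma conv_eq {b : ℝ} (hb : 2 < b) {c B x σ δ : ℝ} (hc : 0 ≤ c) (hB : 0 ≤ B) (hx : 0 ≤ x)
    (hσ : 0 ≤ σ) (hδ : 0 ≤ δ) : ENNReal.ofReal c * (ENNReal.ofReal B *
      (ENNReal.ofReal x ^ (b - 1) * ENNReal.ofReal σ) + ENNReal.ofReal δ * ENNReal.ofReal x ^ b) =
      ENNReal.ofReal (c * (B * (x ^ (b - 1) * σ) + δ * x ^ b)) := by
  have h1 : 0 ≤ x ^ (b - 1) := Real.rpow_nonneg hx _
  have h2 : 0 ≤ x ^ b := Real.rpow_nonneg hx _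
  rw [ENNReal.ofReal_mul hc, ENNReal.ofReal_add (p := B * (x ^ (b - 1) * σ))
    (by positivity) (by positivity), ENNReal.ofReal_mul (p := B) hB,
    ENNReal.ofReal_mul (p := x ^ (b - 1)) h1, ENNReal.ofReal_mul (p := δ) hδ,
    ENNReal.ofReal_rpow_of_nonneg hx (by linarith), ENNReal.ofReal_rpow_of_nonneg hx (by linarith)]

/-- the difference -/
lemma differ {b : ℝ} (hb : 2 < b) (hG : QWE.St_Grp1) {CS CN CD : ℝ} (hCS : 0 < CS) (hCN : 0 < CN)
    (hCD : 0 < CD)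
    (hStr : ∀ k : K, ∫⁻ t, sn b (tau t k) ^ b ≤ (ENNReal.ofReal CS * ‖k‖ₑ) ^ b)
    (hT : St_SNt) (hM : St_Meas)
    (hN2 : ∀ k k' : K, sn b k < ⊤ → sn b k' < ⊤ → ‖NL b k - NL b k'‖ₑ ≤ ENNReal.ofReal CN *
      ((sn b k + sn b k') ^ (b - 1) * sn b (k - k') * (‖k‖ₑ + ‖k'‖ₑ) +
        (sn b k + sn b k') ^ b * ‖k - k'‖ₑ))
    {A : ℝ} (hA : 0 < A) {p q ε η κ : ℝ} {kt k F Ft : ℝ → K} (hε : 0 ≤ ε)
    (hη : 0 < η) (hκ : 1 ≤ κ)
    (hc : (1 + CD) * (CN * ((2 * (A + 1) + A) * (2 * (κ * η) + η) ^ (b - 1) +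
        (2 * (κ * η) + η) ^ b)) ≤ 1 / 2)
    (hkt : ContinuousOn kt (Icc p q)) (hktA : ∀ t ∈ Icc p q, ‖kt t‖ ≤ A)
    (hS : SN b (Icc p q) kt ≤ ENNReal.ofReal η ^ b)
    (hk : ContinuousOn k (Icc p q)) (hkA : ∀ t ∈ Icc p q, ‖k t‖ ≤ 2 * (A + 1))
    (hSk : SN b (Icc p q) k ≤ ENNReal.ofReal (2 * (κ * η)) ^ b)
    (hG1 : ContinuousOn (fun t => ∫ r in p..t, tau (t - r) (F r - Ft r)) (Icc p q))
    (hG2 : ∀ t ∈ Icc p q, ‖∫ r in p..t, tau (t - r) (F r - Ft r)‖ₑ ≤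
      ∫⁻ r in Icc p q, ‖F r - Ft r‖ₑ)
    (hG3 : sS b (Icc p q) (fun t => ∫ r in p..t, tau (t - r) (F r - Ft r)) ≤
      ENNReal.ofReal CD * ∫⁻ r in Icc p q, ‖F r - Ft r‖ₑ)
    (hG4 : ∫⁻ r in Icc p q, ‖F r - Ft r‖ₑ ≤
      (∫⁻ r in Icc p q, ‖NL b (k r) - NL b (kt r)‖ₑ) + ENNReal.ofReal ε)
    (hN : ∫⁻ r in Icc p q, ‖NL b (k r) - NL b (kt r)‖ₑ ≠ ⊤)
    (hd : ∀ t ∈ Icc p q, k t - kt t = tau (t - p) (k p - kt p) +
      -(∫ r in p..t, tau (t - r) (F r - Ft r)))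
    (h0 : ‖k p - kt p‖ ≤ ε) :
    (∀ t ∈ Icc p q, ‖k t - kt t‖ ≤ 2 * (2 + CS + CD) * ε) ∧
      SN b (Icc p q) (fun t => k t - kt t) ≤ ENNReal.ofReal (2 * (2 + CS + CD) * ε) ^ b := by
  have hJ : MeasurableSet (Icc p q) := measurableSet_Icc
  have mk : AEStronglyMeasurable k (volume.restrict (Icc p q)) := hk.aestronglyMeasurable hJ
  have mkt : AEStronglyMeasurable kt (volume.restrict (Icc p q)) := hkt.aestronglyMeasurable hJ
  have hSt : SN b (Icc p q) kt < ⊤ := hS.trans_lt (rpow_lt hb)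
  have hSkt : SN b (Icc p q) k < ⊤ := hSk.trans_lt (rpow_lt hb)
  obtain ⟨Δ, hΔ⟩ : ∃ Δ : ℝ≥0∞, Δ = ⨆ t ∈ Icc p q, ‖k t - kt t‖ₑ := ⟨_, rfl⟩
  have hΔ1 : ∀ t ∈ Icc p q, ‖k t - kt t‖ₑ ≤ Δ := by
    intro t ht
    rw [hΔ]
    exact le_iSup₂ (f := fun t (_ : t ∈ Icc p q) => ‖k t - kt t‖ₑ) t ht
  have hΔt : Δ ≠ ⊤ := by
    have h1 : Δ ≤ ENNReal.ofReal (2 * (A + 1) + A) := by
      rw [hΔ]
      refine iSup₂_le fun t ht => enorm_le_ofReal ((norm_sub_le _ _).trans ?_)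
      exact add_le_add (hkA t ht) (hktA t ht)
    exact ne_top_of_le_ne_top ENNReal.ofReal_ne_top h1
  obtain ⟨X, hX⟩ : ∃ X : ℝ≥0∞, X = sS b (Icc p q) (fun t => k t - kt t) := ⟨_, rfl⟩
  obtain ⟨IG, hIG⟩ : ∃ IG : ℝ≥0∞, IG = ∫⁻ r in Icc p q, ‖F r - Ft r‖ₑ := ⟨_, rfl⟩
  obtain ⟨IN, hIN⟩ : ∃ IN : ℝ≥0∞, IN = ∫⁻ r in Icc p q, ‖NL b (k r) - NL b (kt r)‖ₑ :=
    ⟨_, rfl⟩
  have hINt : IN ≠ ⊤ := by
    rw [hIN]
    exact hN
  have q4 : IG ≤ IN + ENNReal.ofReal ε := by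
    rw [hIG, hIN]
    exact hG4
  have hIGt : IG ≠ ⊤ :=
    ne_top_of_le_ne_top (ENNReal.add_ne_top.2 ⟨hINt, ENNReal.ofReal_ne_top⟩) q4
  -- the Strichartz norm
  have q3 : X ≤ ENNReal.ofReal CS * ENNReal.ofReal ε + ENNReal.ofReal CD * IG := by
    have m1 : AEStronglyMeasurable (fun t => tau (t - p) (k p - kt p))
        (volume.restrict (Icc p q)) := by
      obtain ⟨-, -, -, -, -, -, -, hcc, -⟩ := hG
      have h1 : Continuous fun t : ℝ => tau (t - p) (k p - kt p) :=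
        (hcc (k p - kt p)).comp (continuous_id.sub continuous_const)
      exact h1.aestronglyMeasurable
    have m3 : AEStronglyMeasurable (fun t => ∫ r in p..t, tau (t - r) (F r - Ft r))
        (volume.restrict (Icc p q)) := hG1.aestronglyMeasurable hJ
    have t1 := (hT b hb _ _ (Icc p q) hJ m1 m3.neg).1
    have t2 := (hT b hb _ _ (Icc p q) hJ m3 m3).2
    have t3 : SN b (Icc p q) (-fun t => ∫ r in p..t, tau (t - r) (F r - Ft r)) =
        SN b (Icc p q) (fun t => ∫ r in p..t, tau (t - r) (F r - Ft r)) := t2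
    rw [t3] at t1
    have e1 : SN b (Icc p q) (fun t => k t - kt t) = SN b (Icc p q) (fun t =>
        tau (t - p) (k p - kt p) + (-fun t => ∫ r in p..t, tau (t - r) (F r - Ft r)) t) :=
      SN_congr hJ fun t ht => hd t ht
    rw [hX, sS, e1]
    refine t1.trans (add_le_add ?_ ?_)
    · exact (free hb hStr (Icc p q) p _).trans (mul_le_mul_right (enorm_le_ofReal h0) _)
    · rw [hIG]
      exact hG3
  have hXt : X ≠ ⊤ := ne_top_of_le_ne_top (ENNReal.add_ne_top.2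
    ⟨ENNReal.mul_ne_top ENNReal.ofReal_ne_top ENNReal.ofReal_ne_top,
      ENNReal.mul_ne_top ENNReal.ofReal_ne_top hIGt⟩) q3
  -- the sup norm
  have q2 : Δ ≤ ENNReal.ofReal ε + IG := by
    rw [hΔ]
    refine iSup₂_le fun t ht => ?_
    rw [hd t ht]
    refine (enorm_add_le _ _).trans (add_le_add ?_ ?_)
    · refine enorm_le_ofReal ?_
      rw [(tau _).norm_map]
      exact h0
    · rw [enorm_neg, hIG]
      exact hG2 t ht
  -- the nonlinearity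
  have hx0 : 0 ≤ 2 * (κ * η) := by positivity
  have hx : 0 ≤ 2 * (κ * η) + η := by positivity
  have hBsum : ∀ t ∈ Icc p q, ‖k t‖ₑ + ‖kt t‖ₑ ≤ ENNReal.ofReal (2 * (A + 1) + A) := by
    intro t ht
    rw [ENNReal.ofReal_add (by positivity) hA.le]
    exact add_le_add (enorm_le_ofReal (hkA t ht)) (enorm_le_ofReal (hktA t ht))
  have q1 : IN ≤ ENNReal.ofReal CN * (ENNReal.ofReal (2 * (A + 1) + A) *
      (ENNReal.ofReal (2 * (κ * η) + η) ^ (b - 1) * X) +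
        Δ * ENNReal.ofReal (2 * (κ * η) + η) ^ b) := by
    have hsum : sS b (Icc p q) k + sS b (Icc p q) kt ≤ ENNReal.ofReal (2 * (κ * η) + η) := by
      rw [ENNReal.ofReal_add hx0 hη.le]
      exact add_le_add (sS_le hb hSk) (sS_le hb hS)
    rw [hIN]
    refine (NL_diff hb hM hN2 hJ mk mkt hSkt hSt hBsum hΔ1 hΔt).trans ?_
    rw [← hX]
    refine mul_le_mul_right (add_le_add (mul_le_mul_right (mul_le_mul_left ?_ _) _)
      (mul_le_mul_right ?_ _)) _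
    · exact ENNReal.rpow_le_rpow hsum (by linarith)
    · exact ENNReal.rpow_le_rpow hsum (by linarith)
  -- real numbers
  have hδ0 : 0 ≤ Δ.toReal := ENNReal.toReal_nonneg
  have hσ0 : 0 ≤ X.toReal := ENNReal.toReal_nonneg
  have hg0 : 0 ≤ IG.toReal := ENNReal.toReal_nonneg
  have hn0 : 0 ≤ IN.toReal := ENNReal.toReal_nonneg
  have hP : 0 ≤ (2 * (κ * η) + η) ^ (b - 1) := Real.rpow_nonneg hx _
  have hQ : 0 ≤ (2 * (κ * η) + η) ^ b := Real.rpow_nonneg hx _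
  have r1 : IN.toReal ≤ CN * ((2 * (A + 1) + A) * ((2 * (κ * η) + η) ^ (b - 1) * X.toReal) +
      Δ.toReal * (2 * (κ * η) + η) ^ b) := by
    refine real_le hINt (by positivity) (q1.trans (le_of_eq ?_))
    have h1 := conv_eq hb (c := CN) (B := 2 * (A + 1) + A) hCN.le (by positivity) hx hσ0 hδ0
    rw [ENNReal.ofReal_toReal hXt, ENNReal.ofReal_toReal hΔt] at h1
    exact h1
  have r2 : Δ.toReal ≤ ε + IG.toReal := by
    refine real_le hΔt (by positivity) (q2.trans (le_of_eq ?_))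
    rw [ENNReal.ofReal_add hε hg0, ENNReal.ofReal_toReal hIGt]
  have r3 : X.toReal ≤ CS * ε + CD * IG.toReal := by
    refine real_le hXt (by positivity) (q3.trans (le_of_eq ?_))
    rw [ENNReal.ofReal_add (by positivity) (by positivity), ENNReal.ofReal_mul hCS.le,
      ENNReal.ofReal_mul hCD.le, ENNReal.ofReal_toReal hIGt]
  have r4 : IG.toReal ≤ IN.toReal + ε := by
    refine real_le hIGt (by positivity) (q4.trans (le_of_eq ?_))
    rw [ENNReal.ofReal_add hn0 hε, ENNReal.ofReal_toReal hINt]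
  have r5 := absorb hδ0 hσ0 hCN hCD (by positivity) hP hQ rfl hc r1 r2 r3 r4
  refine ⟨fun t ht => ?_, SN_le hb ?_⟩
  · have h1 : ‖k t - kt t‖ ≤ Δ.toReal := by
      have h2 := ENNReal.toReal_mono hΔt (hΔ1 t ht)
      rwa [toReal_enorm] at h2
    linarith
  · rw [← hX, ← ENNReal.ofReal_toReal hXt]
    exact ENNReal.ofReal_le_ofReal (by linarith)

/-- the conclusion on an interval -/
def Goal (b p q ε C : ℝ) (kt : ℝ → K) (k0 : K) : Prop :=
  ∃ k : ℝ → K, IsSol b (Icc p q) k ∧ k p = k0 ∧ (∀ t ∈ Icc p q, ‖k t - kt t‖ ≤ C * ε) ∧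
    SN b (Icc p q) (fun t => k t - kt t) ≤ ENNReal.ofReal (C * ε) ^ b

/-- the hypotheses on an interval -/
structure Hyp (b A p q ε : ℝ) (kt e : ℝ → K) : Prop where
  hpq : p ≤ q
  cont : ContinuousOn kt (Icc p q)
  bd : ∀ t ∈ Icc p q, ‖kt t‖ ≤ A
  ie : IntegrableOn e (Icc p q) volume
  he : ∫ r in Icc p q, ‖e r‖ ≤ ε
  du : ∀ s ∈ Icc p q, ∀ t ∈ Icc p q, s ≤ t →
    kt t = tau (t - s) (kt s) - ∫ r in s..t, tau (t - r) (NL b (kt r) - e r)

lemma Hyp.mono {b A p q ε p' q' ε' : ℝ} {kt e : ℝ → K} (h : Hyp b A p q ε kt e) (h1 : p ≤ p')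
    (h2 : p' ≤ q') (h3 : q' ≤ q) (h4 : ε ≤ ε') : Hyp b A p' q' ε' kt e where
  hpq := h2
  cont := h.cont.mono (Icc_subset_Icc h1 h3)
  bd t ht := h.bd t (Icc_subset_Icc h1 h3 ht)
  ie := h.ie.mono_set (Icc_subset_Icc h1 h3)
  he := by
    refine (setIntegral_mono_set h.ie.norm ?_ ?_).trans (h.he.trans h4)
    · exact Eventually.of_forall fun r => norm_nonneg _
    · exact (Icc_subset_Icc h1 h3).eventuallyLE
  du s hs t ht hst := h.du s (Icc_subset_Icc h1 h3 hs) t (Icc_subset_Icc h1 h3 ht) hst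

/-- one step -/
lemma one_step {b : ℝ} (hb : 2 < b) (hG : QWE.St_Grp1) (hStr : St_StrS) (hNLb : St_NLb)
    (hM : St_Meas) (hDu : St_DuhI) (hT : St_SNt) (hL : St_Loc) (A : ℝ) (hA : 0 < A) :
    ∃ η C : ℝ, 0 < η ∧ 1 ≤ C ∧ ∀ (p q ε : ℝ) (kt e : ℝ → K) (k0 : K), 0 ≤ ε → ε ≤ η →
    Hyp b A p q ε kt e → SN b (Icc p q) kt ≤ ENNReal.ofReal η ^ b → ‖k0 - kt p‖ ≤ ε →
    Goal b p q ε C kt k0 := by
  obtain ⟨⟨CN, hCN, hN1, hN2⟩, -⟩ := hNLb b hb
  obtain ⟨CD, hCD, hDu⟩ := hDu b hb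
  obtain ⟨CS, hCS, hStr⟩ := hStr b hb
  have hStr' : ∀ k : K, ∫⁻ t, sn b (tau t k) ^ b ≤
      (ENNReal.ofReal CS * ‖k‖ₑ) ^ b := fun k => (hStr k).1
  obtain ⟨η0, hη0, hL⟩ := hL b hb (A + 1) (by linarith)
  obtain ⟨η, κ, hη, hη1, hκ, hκη, hc1, hc2⟩ := consts hb A CN CD CS η0 hA hCN hCD hCS hη0
  refine ⟨η, 2 * (2 + CS + CD), hη, by linarith, ?_⟩
  intro p q ε kt e k0 hε hεη hH hS h0
  have hJ : MeasurableSet (Icc p q) := measurableSet_Icc
  have ha : p ∈ Icc p q := ⟨le_rfl, hH.hpq⟩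
  have mkt : AEStronglyMeasurable kt (volume.restrict (Icc p q)) :=
    hH.cont.aestronglyMeasurable hJ
  have hSt : SN b (Icc p q) kt < ⊤ := hS.trans_lt (rpow_lt hb)
  obtain ⟨iNt, bNt⟩ := NL_int hb hM hN1 hJ mkt hSt hH.bd
  have iG0 : IntegrableOn (fun r => NL b (kt r) - e r) (Icc p q) volume := iNt.sub hH.ie
  have hG1 : ∫⁻ r in Icc p q, ‖NL b (kt r) - e r‖ₑ ≤
      ENNReal.ofReal CN * ENNReal.ofReal A * ENNReal.ofReal η ^ b + ENNReal.ofReal ε :=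
    (lint_add iNt hH.ie hH.he).trans (add_le_add (bNt.trans (mul_le_mul_right hS _)) le_rfl)
  obtain ⟨c0, -, s0⟩ := duh hb hCD hDu hH.hpq iG0
  have hdu0 : ∀ t ∈ Icc p q, kt t = tau (t - p) (kt p) -
      ∫ r in p..t, tau (t - r) (NL b (kt r) - e r) := fun t ht => hH.du p ha t ht ht.1
  obtain ⟨k, k1, k2, k3, k4⟩ := exist hb hG hCS hCN hCD hStr' hT hA hL hH.hpq hε hεη hη hη1 hκ hκη
    (hc1 ε hεη) hH.cont hH.bd hS c0 s0 hG1 hdu0 h0
  have mk : AEStronglyMeasurable k (volume.restrict (Icc p q)) :=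
    k1.2.1.aestronglyMeasurable hJ
  have hSk : SN b (Icc p q) k < ⊤ := k3.trans_lt (rpow_lt hb)
  obtain ⟨iN, -⟩ := NL_int hb hM hN1 hJ mk hSk k4
  have iD : IntegrableOn (fun r => NL b (k r) - (NL b (kt r) - e r)) (Icc p q) volume :=
    iN.sub iG0
  obtain ⟨c1, b1, s1⟩ := duh hb hCD hDu hH.hpq iD
  have iNN : IntegrableOn (fun r => NL b (k r) - NL b (kt r)) (Icc p q) volume := iN.sub iNt
  have hG4 : ∫⁻ r in Icc p q, ‖NL b (k r) - (NL b (kt r) - e r)‖ₑ ≤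
      (∫⁻ r in Icc p q, ‖NL b (k r) - NL b (kt r)‖ₑ) + ENNReal.ofReal ε := by
    have h1 : ∫ r in Icc p q, ‖-e r‖ ≤ ε := by
      simp only [norm_neg]
      exact hH.he
    have h2 := lint_add iNN hH.ie.neg h1
    refine le_trans (le_of_eq ?_) h2
    refine lintegral_congr fun r => ?_
    congr 1
    show NL b (k r) - (NL b (kt r) - e r) = NL b (k r) - NL b (kt r) - -e r
    abel
  have hd := diff_formula hG iN iG0 (fun t ht => k1.2.2.2 p ha t ht) hdu0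
  have h0' : ‖k p - kt p‖ ≤ ε := by
    rw [k2]
    exact h0
  obtain ⟨g1, g2⟩ := differ hb hG hCS hCN hCD hStr' hT hM hN2 hA hε hη hκ hc2 hH.cont hH.bd hS
    k1.2.1 k4 k3 c1 b1 s1 hG4 iNN.2.ne hd h0'
  exact ⟨k, k1, k2, g1, g2⟩

/-- the dividing point -/
lemma split {b : ℝ} (hb : 2 < b) (hM : St_Meas) {p q : ℝ} (hpq : p ≤ q) {kt : ℝ → K}
    (hkt : ContinuousOn kt (Icc p q))
    {n : ℕ} {θ : ℝ} (hθ : 0 ≤ θ) (h1 : SN b (Icc p q) kt ≤ ENNReal.ofReal ((n + 1 : ℕ) * θ))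
    (h2 : ENNReal.ofReal (n * θ) < SN b (Icc p q) kt) :
    ∃ c ∈ Icc p q, SN b (Icc p c) kt ≤ ENNReal.ofReal (n * θ) ∧
      SN b (Icc c q) kt ≤ ENNReal.ofReal θ := by
  have hJ : MeasurableSet (Icc p q) := measurableSet_Icc
  have mkt : AEStronglyMeasurable kt (volume.restrict (Icc p q)) := hkt.aestronglyMeasurable hJ
  have hfin : SN b (Icc p q) kt < ⊤ := h1.trans_lt ENNReal.ofReal_lt_top
  have hm : AEMeasurable (fun r => sn b (kt r) ^ b) (volume.restrict (Icc p q)) :=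
    (sn_meas hb hM hJ mkt).pow_const b
  have hint : IntegrableOn (fun r => (sn b (kt r) ^ b).toReal) (Icc p q) volume :=
    integrable_toReal_of_lintegral_ne_top hm hfin.ne
  have hval : ∀ c ∈ Icc p q,
      ∫ r in Ioc p c, (sn b (kt r) ^ b).toReal = (SN b (Icc p c) kt).toReal := by
    intro c hc
    have hs : Ioc p c ⊆ Icc p q := Ioc_subset_Icc_self.trans (Icc_subset_Icc le_rfl hc.2)
    have h3 : AEMeasurable (fun r => sn b (kt r) ^ b) (volume.restrict (Ioc p c)) :=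
      hm.mono_measure (Measure.restrict_mono hs le_rfl)
    have h4 : ∀ᵐ r ∂(volume.restrict (Ioc p c)), sn b (kt r) ^ b < ⊤ := by
      refine ae_restrict_of_ae_restrict_of_subset hs ?_
      exact ae_lt_top' hm hfin.ne
    rw [integral_toReal h3 h4]
    unfold SN
    rw [restrict_Ioc_eq_restrict_Icc]
  have hcont := intervalIntegral.continuousOn_primitive (a := p) (b := q) hint
  have hSNle : ∀ c ∈ Icc p q, SN b (Icc p c) kt ≤ SN b (Icc p q) kt := fun c hc =>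
    lintegral_mono_set (Icc_subset_Icc le_rfl hc.2)
  have hnθ : 0 ≤ (n : ℝ) * θ := by positivity
  have hmemI : (n : ℝ) * θ ∈ Icc (∫ r in Ioc p p, (sn b (kt r) ^ b).toReal)
      (∫ r in Ioc p q, (sn b (kt r) ^ b).toReal) := by
    constructor
    · rw [Ioc_self, setIntegral_empty]
      exact hnθ
    · rw [hval q ⟨hpq, le_rfl⟩]
      rw [ENNReal.ofReal_lt_iff_lt_toReal hnθ hfin.ne] at h2
      exact h2.le
  obtain ⟨c, hc, hc2⟩ := intermediate_value_Icc hpq hcont hmemI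
  have hc3 : ∫ r in Ioc p c, (sn b (kt r) ^ b).toReal = n * θ := hc2
  have hcfin : SN b (Icc p c) kt ≠ ⊤ := ((hSNle c hc).trans_lt hfin).ne
  have e1 : SN b (Icc p c) kt = ENNReal.ofReal (n * θ) := by
    rw [← hc3, hval c hc, ENNReal.ofReal_toReal hcfin]
  refine ⟨c, hc, e1.le, ?_⟩
  have e2 : SN b (Icc p q) kt = SN b (Icc p c) kt + SN b (Icc c q) kt := by
    unfold SN
    have h5 : Icc p q = Icc p c ∪ Ioc c q := (Icc_union_Ioc_eq_Icc hc.1 hc.2).symm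
    rw [h5, lintegral_union measurableSet_Ioc ?_, restrict_Ioc_eq_restrict_Icc]
    rw [Set.disjoint_left]
    intro x hx hx'
    exact absurd hx.2 (not_le.2 hx'.1)
  rw [e2, e1] at h1
  have e3 : ENNReal.ofReal ((n + 1 : ℕ) * θ) = ENNReal.ofReal (n * θ) + ENNReal.ofReal θ := by
    rw [← ENNReal.ofReal_add hnθ hθ]
    congr 1
    push_cast
    ring
  rw [e3] at h1
  exact (ENNReal.add_le_add_iff_left ENNReal.ofReal_ne_top).1 h1

/-- finitely many steps -/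
lemma steps {b : ℝ} (hb : 2 < b) (hM : St_Meas) (hGl : St_Glue) {A η C1 : ℝ} (hη : 0 < η)
    (hC1 : 1 ≤ C1)
    (h1 : ∀ (p q ε : ℝ) (kt e : ℝ → K) (k0 : K), 0 ≤ ε → ε ≤ η →
      Hyp b A p q ε kt e → SN b (Icc p q) kt ≤ ENNReal.ofReal η ^ b → ‖k0 - kt p‖ ≤ ε →
      Goal b p q ε C1 kt k0) (n : ℕ) :
    ∃ e1 C : ℝ, 0 < e1 ∧ 1 ≤ C ∧ ∀ (p q ε : ℝ) (kt e : ℝ → K) (k0 : K), 0 ≤ ε → ε ≤ e1 →
      Hyp b A p q ε kt e → SN b (Icc p q) kt ≤ ENNReal.ofReal (n * η ^ b) → ‖k0 - kt p‖ ≤ ε →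
      Goal b p q ε C kt k0 := by
  have hηb : 0 < η ^ b := Real.rpow_pos_of_pos hη b
  have hb0 : 0 ≤ b := by linarith
  induction n with
  | zero =>
    refine ⟨η, C1, hη, hC1, fun p q ε kt e k0 h2 h3 h4 h5 h6 => h1 p q ε kt e k0 h2 h3 h4 ?_ h6⟩
    refine h5.trans ?_
    rw [Nat.cast_zero, zero_mul, ENNReal.ofReal_zero]
    exact zero_le
  | succ n ih =>
    obtain ⟨e1, C, he1, hC, ih⟩ := ih
    have hCp : 0 < C := by linarith
    refine ⟨min e1 (η / C), (1 + C1) * C, by positivity, by nlinarith, ?_⟩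
    intro p q ε kt e k0 hε hεe hH hS h0
    have hε1 : ε ≤ e1 := hεe.trans (min_le_left _ _)
    have hε2 : C * ε ≤ η := by
      have h2 : ε ≤ η / C := hεe.trans (min_le_right _ _)
      rw [le_div_iff₀ hCp] at h2
      linarith
    have hCε : 0 ≤ C * ε := by positivity
    have hle : C * ε ≤ (1 + C1) * C * ε := by nlinarith
    by_cases hcase : SN b (Icc p q) kt ≤ ENNReal.ofReal (n * η ^ b)
    · obtain ⟨k, k1, k2, k3, k4⟩ := ih p q ε kt e k0 hε hε1 hH hcase h0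
      refine ⟨k, k1, k2, fun t ht => (k3 t ht).trans hle, k4.trans ?_⟩
      exact ENNReal.rpow_le_rpow (ENNReal.ofReal_le_ofReal hle) hb0
    · obtain ⟨c, hc, s1, s2⟩ := split hb hM hH.hpq hH.cont hηb.le hS (not_le.1 hcase)
      have hc1 : c ∈ Icc p c := ⟨hc.1, le_rfl⟩
      obtain ⟨k, k1, k2, k3, k4⟩ := ih p c ε kt e k0 hε hε1 (hH.mono le_rfl hc.1 hc.2 le_rfl) s1 h0
      have h2 : ε ≤ C * ε := by nlinarith
      have h3 : SN b (Icc c q) kt ≤ ENNReal.ofReal η ^ b := by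
        rw [← of_rpow hb hη.le]
        exact s2
      obtain ⟨k', l1, l2, l3, l4⟩ := h1 c q (C * ε) kt e (k c) hCε hε2
        (hH.mono hc.1 hc.2 le_rfl h2) h3 (k3 c hc1)
      obtain ⟨k'', m1, m2, m3⟩ := hGl b hb (Icc p c) (Icc c q) k k' c k1 l1 hc1 ⟨le_rfl, hc.2⟩
        l2.symm
      rw [Icc_union_Icc_eq_Icc hc.1 hc.2] at m1
      have hle2 : C1 * (C * ε) ≤ (1 + C1) * C * ε := by nlinarith
      refine ⟨k'', m1, ?_, ?_, ?_⟩
      · rw [m2 p ⟨le_rfl, hc.1⟩, k2]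
      · intro t ht
        rcases le_total t c with h4 | h4
        · rw [m2 t ⟨ht.1, h4⟩]
          exact (k3 t ⟨ht.1, h4⟩).trans hle
        · rw [m3 t ⟨h4, ht.2⟩]
          exact (l3 t ⟨h4, ht.2⟩).trans hle2
      · have h4 : SN b (Icc p q) (fun t => k'' t - kt t) ≤
            SN b (Icc p c) (fun t => k'' t - kt t) + SN b (Icc c q) (fun t => k'' t - kt t) := by
          unfold SN
          rw [← Icc_union_Icc_eq_Icc hc.1 hc.2]
          exact lintegral_union_le _ _ _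
        have h5 : SN b (Icc p c) (fun t => k'' t - kt t) = SN b (Icc p c) (fun t => k t - kt t) :=
          SN_congr measurableSet_Icc fun t ht => by rw [m2 t ht]
        have h6 : SN b (Icc c q) (fun t => k'' t - kt t) =
            SN b (Icc c q) (fun t => k' t - kt t) :=
          SN_congr measurableSet_Icc fun t ht => by rw [m3 t ht]
        rw [h5, h6] at h4
        refine (h4.trans (add_le_add k4 l4)).trans ?_
        have hC1ε : 0 ≤ C1 * (C * ε) := by positivity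
        refine (ENNReal.add_rpow_le_rpow_add _ _ (by linarith : (1 : ℝ) ≤ b)).trans ?_
        refine ENNReal.rpow_le_rpow ?_ hb0
        rw [← ENNReal.ofReal_add hCε hC1ε]
        refine ENNReal.ofReal_le_ofReal ?_
        have h7 : (1 + C1) * C * ε = C * ε + C1 * (C * ε) := by ring
        rw [h7]

end Pertx

theorem thm_Pert (hG : Pool.Agent.QWE.St_Grp1) (hStr : St_StrS) (hNLb : St_NLb) (hM : St_Meas)
    (hDu : St_DuhI) (hT : St_SNt) (hL : St_Loc) (hGl : St_Glue) : St_Pert := by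
  intro b hb A M hA hMp
  obtain ⟨η, C1, hη, hC1, hstep⟩ := Pertx.one_step hb hG hStr hNLb hM hDu hT hL A hA
  have hηb : 0 < η ^ b := Real.rpow_pos_of_pos hη b
  obtain ⟨n, hn⟩ := exists_nat_ge (M / η ^ b)
  obtain ⟨e1, C, he1, hC, hmain⟩ := Pertx.steps hb hM hGl hη hC1 hstep n
  refine ⟨e1, C, he1, by linarith, ?_⟩
  intro T ε kt e k0 hT0 hε hεe hkt hktA hS he heε hdu h0
  obtain ⟨⟨CN, hCN, hN1, -⟩, -⟩ := hNLb b hb
  have mkt : AEStronglyMeasurable kt (volume.restrict (Icc 0 T)) :=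
    hkt.aestronglyMeasurable measurableSet_Icc
  obtain ⟨iNt, -⟩ := Pertx.NL_int hb hM hN1 measurableSet_Icc mkt
    (hS.trans_lt ENNReal.ofReal_lt_top) hktA
  have iG : IntegrableOn (fun r => NL b (kt r) - e r) (Icc 0 T) volume := iNt.sub he
  have hdu' : ∀ t ∈ Icc 0 T, kt t = tau (t - 0) (kt 0) -
      ∫ r in (0 : ℝ)..t, tau (t - r) (NL b (kt r) - e r) := by
    intro t ht
    rw [sub_zero]
    exact hdu t ht
  have hH : Pertx.Hyp b A 0 T ε kt e :=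
    ⟨hT0, hkt, hktA, he, heε, Pool.Agent.QWE.Pertx.two_point hG iG hdu'⟩
  refine hmain 0 T ε kt e k0 hε hεe hH (hS.trans (ENNReal.ofReal_le_ofReal ?_)) h0
  rwa [div_le_iff₀ hηb] at hn

end Pool.Agent.QWP
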