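import Pool.Agent.QWP.StG
import Pool.Agent.QWE.PsiNZ

set_option autoImplicit false

/-!
# QWP, PsiNZP: the bubble functionals separate points (all `s`)

The analytic part is `Pool.Agent.QWE.PsiNZx.main`.
-/

open MeasureTheory Filter Topology Set
open scoped ENNReal NNReal RealInnerProductSpace

namespace Pool.Agent.QWP

open Pool.Agent.QWE (E S sg mu K toK tau sh dl rev gr ig IsTest pd lap Rad dRad Rk dRk c0 WD Sm SmE IsSch half shr WTo)

namespace PsiNZPx

lemma ht {a b : ℝ} (ha : 0 < a) (hb : 0 < b) (h : 1 / a + 1 / b = 1) :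
    ENNReal.HolderTriple (ENNReal.ofReal a) (ENNReal.ofReal b) 1 := by
  constructor
  rw [← ENNReal.ofReal_inv_of_pos ha, ← ENNReal.ofReal_inv_of_pos hb,
    ← ENNReal.ofReal_add (by positivity) (by positivity), ← one_div, ← one_div, h]
  simp

lemma ig_arg (y x : E) (a : ℝ) :
    Real.exp (-a) • (x - -(Real.exp a • y)) = y + Real.exp (-a) • x := by
  rw [sub_neg_eq_add, smul_add, smul_smul, ← Real.exp_add, neg_add_cancel, Real.exp_zero, one_smul,
    add_comm]

end PsiNZPx

open PsiNZPx in
theorem thm_PsiNZP (act : St_ActP) (fld : St_FldP) (dens : St_DnsP) (exb : St_ExBP) :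
    St_PsiNZP := by
  intro s ψ hs hψ k hk
  obtain ⟨C, hC, hfld, -, -⟩ := fld s hs
  have hs' := abs_lt.1 hs
  have hψi : Integrable ψ volume := by
    obtain ⟨f, hf⟩ := hψ.1
    have h1 : (f : E → ℝ) = ψ := funext hf
    rw [← h1]
    exact f.integrable
  have hψ1 : ∫ z, ψ z = 1 := by
    have h1 := hψ.2.2.1 0 (by simp)
    have h2 : ft ψ 0 = ((∫ z, ψ z : ℝ) : ℂ) := by
      rw [ft, ← integral_complex_ofReal]
      refine integral_congr_ae (Eventually.of_forall fun x => ?_)
      simp
    rw [h2] at h1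
    exact_mod_cast h1
  have hU : U s k =ᵐ[volume] 0 := by
    refine Pool.Agent.QWE.PsiNZx.main hψi hψ1 (q0 s) (ENNReal.ofReal (10 / (9 + 2 * s)))
      (ht (div_pos (by norm_num) (by linarith)) (div_pos (by norm_num) (by linarith)) (by
        rw [one_div_div, one_div_div]; ring)) ?_ (hfld k).1.1 ?_
    · unfold q0
      rw [ENNReal.one_le_ofReal, le_div_iff₀ (by linarith)]
      linarith
    intro y δ hδ
    have h1 := (hk y (-Real.log δ)).1
    rw [← ((hfld _).2.2.2.2.2 ψ hψ.1).1] at h1
    have h2 : ∫ x, U s (ig y (-Real.log δ) k) x * ψ x =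
        Real.exp ((1 / 2 - s) * -(-Real.log δ)) * ∫ z, U s k (y + δ • z) * ψ z := by
      rw [← integral_const_mul]
      refine integral_congr_ae ?_
      filter_upwards [((act s hs).1 (-(Real.exp (-Real.log δ) • y)) (-(-Real.log δ)) k).1]
        with x hx
      change U s (gr (-(Real.exp (-Real.log δ) • y)) (-(-Real.log δ)) k) x * ψ x = _
      rw [hx, ig_arg, neg_neg, Real.exp_log hδ]
      ring
    rw [h2] at h1
    exact (mul_eq_zero.1 h1).resolve_left (Real.exp_pos _).ne'
  have hV : V s k =ᵐ[volume] 0 := by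
    refine Pool.Agent.QWE.PsiNZx.main hψi hψ1 (q1 s) (ENNReal.ofReal (10 / (7 + 2 * s)))
      (ht (div_pos (by norm_num) (by linarith)) (div_pos (by norm_num) (by linarith)) (by
        rw [one_div_div, one_div_div]; ring)) ?_ (hfld k).2.2.1.1 ?_
    · unfold q1
      rw [ENNReal.one_le_ofReal, le_div_iff₀ (by linarith)]
      linarith
    intro y δ hδ
    have h1 := (hk y (-Real.log δ)).2
    rw [← ((hfld _).2.2.2.2.2 ψ hψ.1).2] at h1
    have h2 : ∫ x, V s (ig y (-Real.log δ) k) x * ψ x =
        Real.exp ((3 / 2 - s) * -(-Real.log δ)) * ∫ z, V s k (y + δ • z) * ψ z := by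
      rw [← integral_const_mul]
      refine integral_congr_ae ?_
      filter_upwards [((act s hs).1 (-(Real.exp (-Real.log δ) • y)) (-(-Real.log δ)) k).2.1]
        with x hx
      change V s (gr (-(Real.exp (-Real.log δ) • y)) (-(-Real.log δ)) k) x * ψ x = _
      rw [hx, ig_arg, neg_neg, Real.exp_log hδ]
      ring
    rw [h2] at h1
    exact (mul_eq_zero.1 h1).resolve_left (Real.exp_pos _).ne'
  have h1 : Van s univ k := by
    rw [(exb s hs).2.2.2.2.2.2.1 univ k isOpen_univ]
    constructor
    · filter_upwards [hU] with x hx _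
      exact hx
    · filter_upwards [hV] with x hx _
      exact hx
  unfold Van at h1
  rw [(dens s hs).1, Submodule.top_orthogonal_eq_bot, Submodule.mem_bot] at h1
  exact h1

end Pool.Agent.QWP
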