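import Pool.Agent.QWP.StG
import Pool.Agent.QWP.NLd

set_option autoImplicit false

/-!
# QWP, module QstA: interaction with a fixed test state, `b ≤ 4`
-/

open MeasureTheory Filter Topology Set
open scoped ENNReal NNReal RealInnerProductSpace

namespace Pool.Agent.QWP

open Pool.Agent.QWE (E S sg mu K toK tau sh dl rev gr ig IsTest pd lap Rad dRad Rk dRk c0 WD Sm SmE IsSch half shr WTo)

namespace QstAx

open NLdx

/-- powers -/
lemma powL {C c L V A : ℝ≥0∞} {θ θ0 e b : ℝ} (hL : L ≤ c * A) (hV : V ≤ c * A) (hA : 1 ≤ A)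
    (hc : 1 ≤ c) (hθ1 : θ ≤ 1) (h0 : 0 < θ0) (h01 : θ0 ≤ θ * e)
    (he : 0 ≤ e) (heb : e ≤ b) :
    (C * L ^ θ * V ^ (1 - θ)) ^ e ≤ C ^ e * c ^ b * (L ^ θ0 * A ^ b) := by
  have hb : 0 ≤ b := he.trans heb
  have h1 : (C * L ^ θ * V ^ (1 - θ)) ^ e = C ^ e * L ^ (θ * e) * V ^ ((1 - θ) * e) := by
    rw [ENNReal.mul_rpow_of_nonneg _ _ he, ENNReal.mul_rpow_of_nonneg _ _ he, ENNReal.rpow_mul,
      ENNReal.rpow_mul]
  have h2 : L ^ (θ * e) = L ^ θ0 * L ^ (θ * e - θ0) := by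
    rw [← ENNReal.rpow_add_of_nonneg _ _ h0.le (by linarith)]
    congr 1
    ring
  have h3 : 0 ≤ (1 - θ) * e := mul_nonneg (by linarith) he
  have hcA : 1 ≤ c * A := by
    calc (1 : ℝ≥0∞) = 1 * 1 := (one_mul 1).symm
      _ ≤ c * A := mul_le_mul' hc hA
  have h4 : (c * A) ^ (θ * e - θ0) * (c * A) ^ ((1 - θ) * e) ≤ c ^ b * A ^ b := by
    rw [← ENNReal.rpow_add_of_nonneg _ _ (by linarith) h3, ← ENNReal.mul_rpow_of_nonneg _ _ hb]
    refine ENNReal.rpow_le_rpow_of_exponent_le hcA ?_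
    nlinarith
  rw [h1, h2]
  calc C ^ e * (L ^ θ0 * L ^ (θ * e - θ0)) * V ^ ((1 - θ) * e)
      ≤ C ^ e * (L ^ θ0 * (c * A) ^ (θ * e - θ0)) * (c * A) ^ ((1 - θ) * e) := by
        refine mul_le_mul' (mul_le_mul' le_rfl (mul_le_mul' le_rfl ?_)) ?_
        · exact ENNReal.rpow_le_rpow hL (by linarith)
        · exact ENNReal.rpow_le_rpow hV h3
    _ = C ^ e * L ^ θ0 * ((c * A) ^ (θ * e - θ0) * (c * A) ^ ((1 - θ) * e)) := by ring
    _ ≤ C ^ e * L ^ θ0 * (c ^ b * A ^ b) := mul_le_mul' le_rfl h4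
    _ = _ := by ring

/-- the pointwise bound -/
lemma ptw {b C M : ℝ} (hb : 2 < b) (hC : 0 < C) (hM : 1 ≤ M)
    (h8 : ∀ u w : ℝ, abs (|u + w| ^ b - |u| ^ b) ≤ C * (|u| ^ (b - 1) + |w| ^ (b - 1)) * |w|)
    {f p w d : ℝ} (hf : |f| ≤ M) (hp : |p| ≤ M) :
    |(b + 1) * |f + w| ^ b * (p + d) - (b + 1) * |f| ^ b * p - (b + 1) * |w| ^ b * d| ≤
      (b + 1) * C * M ^ b * (|w| + |w| ^ b + |w| ^ (b - 1) * |d| + |d|) := by
  have hM0 : 0 < M := by linarith
  have hb1 : 0 < b - 1 := by linarith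
  have e1 : (b + 1) * |f + w| ^ b * (p + d) - (b + 1) * |f| ^ b * p - (b + 1) * |w| ^ b * d =
      (b + 1) * ((|f + w| ^ b - |f| ^ b) * p + (|w + f| ^ b - |w| ^ b) * d) := by
    rw [add_comm w f]
    ring
  have hMb : M ^ b = M ^ (b - 1) * M := by
    have := Real.rpow_add_one hM0.ne' (b - 1)
    rw [← this]
    congr 1
    ring
  have hM1 : 1 ≤ M ^ (b - 1) := Real.one_le_rpow hM hb1.le
  have hf1 : |f| ^ (b - 1) ≤ M ^ (b - 1) := Real.rpow_le_rpow (abs_nonneg f) hf hb1.le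
  have hw1 : |w| ^ (b - 1) * |w| = |w| ^ b := by
    rcases eq_or_ne w 0 with h | h
    · rw [h, abs_zero, mul_zero, Real.zero_rpow (by linarith)]
    · have := Real.rpow_add_one (abs_pos.2 h).ne' (b - 1)
      rw [← this]
      congr 1
      ring
  have hwn : 0 ≤ |w| ^ (b - 1) := Real.rpow_nonneg (abs_nonneg w) _
  have hwn' : 0 ≤ |w| ^ b := Real.rpow_nonneg (abs_nonneg w) _
  have hdn : 0 ≤ |d| := abs_nonneg d
  have hwn2 : 0 ≤ |w| := abs_nonneg w
  have i1 : |(|f + w| ^ b - |f| ^ b) * p| ≤ C * M ^ b * (|w| + |w| ^ b) := by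
    rw [abs_mul]
    calc |(|f + w| ^ b - |f| ^ b)| * |p| ≤ (C * (|f| ^ (b - 1) + |w| ^ (b - 1)) * |w|) * M :=
          mul_le_mul (h8 f w) hp (abs_nonneg p) (by positivity)
      _ ≤ (C * (M ^ (b - 1) + |w| ^ (b - 1)) * |w|) * M := by gcongr
      _ = C * M * (M ^ (b - 1) * |w| + |w| ^ (b - 1) * |w|) := by ring
      _ = C * M * (M ^ (b - 1) * |w| + 1 * |w| ^ b) := by rw [hw1, one_mul]
      _ ≤ C * M * (M ^ (b - 1) * |w| + M ^ (b - 1) * |w| ^ b) := by gcongr
      _ = C * (M ^ (b - 1) * M) * (|w| + |w| ^ b) := by ring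
      _ = _ := by rw [← hMb]
  have i2 : |(|w + f| ^ b - |w| ^ b) * d| ≤ C * M ^ b * (|w| ^ (b - 1) * |d| + |d|) := by
    rw [abs_mul]
    calc |(|w + f| ^ b - |w| ^ b)| * |d| ≤ (C * (|w| ^ (b - 1) + |f| ^ (b - 1)) * |f|) * |d| :=
          mul_le_mul_of_nonneg_right (h8 w f) hdn
      _ ≤ (C * (|w| ^ (b - 1) + M ^ (b - 1)) * M) * |d| := by gcongr
      _ = C * M * (1 * (|w| ^ (b - 1) * |d|) + M ^ (b - 1) * |d|) := by ring
      _ ≤ C * M * (M ^ (b - 1) * (|w| ^ (b - 1) * |d|) + M ^ (b - 1) * |d|) := by gcongr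
      _ = C * (M ^ (b - 1) * M) * (|w| ^ (b - 1) * |d| + |d|) := by ring
      _ = _ := by rw [← hMb]
  rw [e1, abs_mul, abs_of_pos (by linarith : 0 < b + 1)]
  calc (b + 1) * |(|f + w| ^ b - |f| ^ b) * p + (|w + f| ^ b - |w| ^ b) * d|
      ≤ (b + 1) * (C * M ^ b * (|w| + |w| ^ b) + C * M ^ b * (|w| ^ (b - 1) * |d| + |d|)) := by
        refine mul_le_mul_of_nonneg_left ?_ (by linarith)
        exact (abs_add_le _ _).trans (add_le_add i1 i2)
    _ = _ := by ring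

/-- bounds for test functions -/
lemma test_bd {f : E → ℝ} (hf : IsTest f) : ∃ M : ℝ, 1 ≤ M ∧ (∀ x, |f x| ≤ M) ∧
    (∀ i x, |pd i f x| ≤ M) ∧ ∀ x, M ≤ ‖x‖ → f x = 0 ∧ ∀ i, pd i f x = 0 := by
  obtain ⟨M0, h0⟩ := hf.2.exists_bound_of_continuous hf.1.continuous
  have h1 : ∀ i : Fin 5, ∃ M1 : ℝ, ∀ x, ‖pd i f x‖ ≤ M1 := fun i => by
    have ht := QWE.GamEx.test_pd hf i
    exact ht.2.exists_bound_of_continuous ht.1.continuous
  choose M1 h1 using h1
  obtain ⟨R, hR⟩ := hf.2.isCompact.isBounded.subset_ball (0 : E)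
  refine ⟨1 + |M0| + (∑ i, |M1 i|) + |R|, ?_, ?_, ?_, ?_⟩
  · have : 0 ≤ ∑ i, |M1 i| := Finset.sum_nonneg fun i _ => abs_nonneg _
    have := abs_nonneg M0
    have := abs_nonneg R
    linarith
  · intro x
    have : 0 ≤ ∑ i, |M1 i| := Finset.sum_nonneg fun i _ => abs_nonneg _
    have := abs_nonneg R
    have h2 := h0 x
    rw [Real.norm_eq_abs] at h2
    have := le_abs_self M0
    linarith
  · intro i x
    have : |M1 i| ≤ ∑ i, |M1 i| := Finset.single_le_sum (f := fun i => |M1 i|)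
      (fun i _ => abs_nonneg _) (Finset.mem_univ i)
    have := abs_nonneg M0
    have := abs_nonneg R
    have h2 := h1 i x
    rw [Real.norm_eq_abs] at h2
    have := le_abs_self (M1 i)
    linarith
  · intro x hx
    have : 0 ≤ ∑ i, |M1 i| := Finset.sum_nonneg fun i _ => abs_nonneg _
    have := abs_nonneg M0
    have := le_abs_self R
    have h2 : x ∉ tsupport f := fun h => by
      have h3 := hR h
      rw [mem_ball_zero_iff] at h3
      linarith
    refine ⟨image_eq_zero_of_notMem_tsupport h2, fun i => ?_⟩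
    unfold pd
    rw [fderiv_of_notMem_tsupport (𝕜 := ℝ) h2]
    rfl

/-- the norm estimate -/
lemma estG {b r y c M : ℝ} (hb : 2 < b) (hr : 1 ≤ r) (hy : 0 < y)
    (h : 1 / r = (b - 1) / (5 * b) + 1 / y) (hc : 0 ≤ c) {G w d : E → ℝ}
    (hw : AEStronglyMeasurable w volume) (hd : AEStronglyMeasurable d volume)
    (hG : ∀ᵐ x, x ∈ Metric.ball (0 : E) M →
      |G x| ≤ c * (|w x| + |w x| ^ b + |w x| ^ (b - 1) * |d x| + |d x|))
    (hG0 : ∀ᵐ x, x ∉ Metric.ball (0 : E) M → G x = 0) :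
    N r G ≤ ENNReal.ofReal c * (N r ((Metric.ball (0 : E) M).indicator w) +
      N (r * b) ((Metric.ball (0 : E) M).indicator w) ^ b +
      N (5 * b) w ^ (b - 1) * N y ((Metric.ball (0 : E) M).indicator d) +
      N r ((Metric.ball (0 : E) M).indicator d)) := by
  have hb0 : 0 < b := by linarith
  have hb1 : 0 < b - 1 := by linarith
  set w' := (Metric.ball (0 : E) M).indicator w with hw'
  set d' := (Metric.ball (0 : E) M).indicator d with hd'
  have mw : AEStronglyMeasurable w' volume := hw.indicator measurableSet_ball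
  have md : AEStronglyMeasurable d' volume := hd.indicator measurableSet_ball
  have mwb : AEStronglyMeasurable (fun x => |w' x| ^ b) volume :=
    (Real.continuous_rpow_const hb0.le).comp_aestronglyMeasurable mw.norm
  have mwb1 : AEStronglyMeasurable (fun x => |w x| ^ (b - 1)) volume :=
    (Real.continuous_rpow_const hb1.le).comp_aestronglyMeasurable hw.norm
  have h1 : ∀ᵐ x, |G x| ≤ c * |(|w' x| + |w' x| ^ b) + (|w x| ^ (b - 1) * |d' x| + |d' x|)| := by
    filter_upwards [hG, hG0] with x hx hx0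
    rw [abs_of_nonneg (by positivity : 0 ≤ (|w' x| + |w' x| ^ b) + (|w x| ^ (b - 1) * |d' x| + |d' x|))]
    by_cases hxB : x ∈ Metric.ball (0 : E) M
    · have e1 : w' x = w x := Set.indicator_of_mem hxB w
      have e2 : d' x = d x := Set.indicator_of_mem hxB d
      rw [e1, e2]
      refine (hx hxB).trans (le_of_eq ?_)
      ring
    · rw [hx0 hxB, abs_zero]
      positivity
  refine (N_le h1).trans (mul_le_mul' le_rfl ?_)
  refine (N_add hr (mw.norm.add mwb) ((mwb1.mul md.norm).add md.norm)).trans ?_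
  rw [add_assoc]
  refine add_le_add ?_ ?_
  · refine (N_add hr mw.norm mwb).trans ?_
    have e : N r (fun x => ‖w' x‖) = N r w' := N_abs r w'
    rw [e, pw (by linarith) hb0]
  · refine (N_add hr (mwb1.mul md.norm) md.norm).trans ?_
    have e : N r (fun x => ‖d' x‖) = N r d' := N_abs r d'
    rw [e]
    refine add_le_add ?_ le_rfl
    refine (hol (p := 5 * b / (b - 1)) (q := y) (by positivity) hy (by linarith)
      (by rw [h]; field_simp) mwb1 md.norm).trans ?_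
    have e3 : N y (fun x => ‖d' x‖) = N y d' := N_abs y d'
    rw [e3, pw (by positivity) hb1, div_mul_cancel₀ _ hb1.ne']

end QstAx

open NLdx QstAx

/-- **QstA**. -/
theorem thm_QstA (fldP : St_FldP) (dns : St_DnsP) (npq : St_Npq) (gamQ : St_GamQ)
    (nlg : St_NLg) (nld : St_NLd) (locI : St_LocI) (locC : St_LocC) : St_QstA := by
  intro b hb hb4 f g hf hg
  have hb0 : 0 < b := by linarith
  have hs := sig_bd hb
  obtain ⟨b1, b2, b3, b4, b5, b6⟩ := bds hb
  obtain ⟨C, hC, -, -, hc, -, -, -, -, h8, -⟩ := npq b hb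
  obtain ⟨CF, hCF, fld, lin, tst⟩ := fldP (sig b) hs
  obtain ⟨CQ, hCQ, gam⟩ := gamQ (sig b) hs
  obtain ⟨CD, hCD, -, -, -, isG⟩ := nld b hb
  obtain ⟨M, hM1, hM2, hM3, hM4⟩ := test_bd hf
  obtain ⟨⟨CL, hCL, hloc⟩, -, -⟩ := locC b M hb
  -- exponents
  set r : ℝ := 10 / (5 - 2 * sig b) with hr
  have hr1 : 1 ≤ r := one_le b3 b4
  have er : r = 5 * b / (2 * b + 2) := by
    rw [hr, div_eq_div_iff b3.ne' (by positivity)]
    unfold sig
    field_simp
    ring
  have e1 : 10 / (3 - 2 * sig b) = 5 * b / (b + 2) := by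
    rw [div_eq_div_iff b1.ne' (by positivity)]
    unfold sig
    field_simp
    ring
  obtain ⟨C1, θ1, hC1, t1, t1', l1⟩ := locI M r (5 * b / 2) (by linarith) hr1
    (by rw [er]; gcongr; linarith) (by linarith)
  obtain ⟨C2, θ2, hC2, t2, t2', l2⟩ := locI M (r * b) (5 * b / 2) (by linarith)
    (by nlinarith) (by
      rw [er, div_mul_eq_mul_div, div_lt_div_iff₀ (by positivity) (by norm_num)]
      nlinarith) (by linarith)
  obtain ⟨C3, θ3, hC3, t3, t3', l3⟩ := locI M r (5 * b / (b + 2)) (by linarith) hr1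
    (by rw [er]; gcongr; linarith) (by rw [le_div_iff₀ (by positivity)]; linarith)
  obtain ⟨C4, θ4, hC4, t4, t4', l4⟩ := locI M (5 * b / (b + 3)) (5 * b / (b + 2)) (by linarith)
    (by rw [le_div_iff₀ (by positivity)]; linarith)
    (by gcongr; linarith) (by rw [le_div_iff₀ (by positivity)]; linarith)
  have hq0 : q0 (sig b) = ENNReal.ofReal (5 * b / 2) := by
    unfold q0
    congr 1
    rw [div_eq_div_iff (by linarith [(abs_lt.1 hs).2]) (by norm_num)]
    unfold sig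
    field_simp
    ring
  have hq1 : q1 (sig b) = ENNReal.ofReal (5 * b / (b + 2)) := by
    unfold q1
    rw [e1]
  -- the exponent
  set θ0 : ℝ := min (min θ1 θ2) (min θ3 θ4) with hθ0
  have t0 : 0 < θ0 := lt_min (lt_min t1 t2) (lt_min t3 t4)
  have t01 : θ0 ≤ θ1 := (min_le_left _ _).trans (min_le_left _ _)
  have t02 : θ0 ≤ θ2 := (min_le_left _ _).trans (min_le_right _ _)
  have t03 : θ0 ≤ θ3 := (min_le_right _ _).trans (min_le_left _ _)
  have t04 : θ0 ≤ θ4 := (min_le_right _ _).trans (min_le_right _ _)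
  -- the constants
  set c : ℝ≥0∞ := 1 + ENNReal.ofReal CL + ENNReal.ofReal CF with hcdef
  have hc1 : 1 ≤ c := by
    rw [hcdef, add_assoc]
    exact le_self_add
  have hcL : ENNReal.ofReal CL ≤ c := by
    rw [hcdef, add_comm 1, add_assoc]
    exact le_self_add
  have hcF : ENNReal.ofReal CF ≤ c := le_add_self
  have hct : c ≠ ⊤ := ENNReal.add_ne_top.2 ⟨ENNReal.add_ne_top.2 ⟨ENNReal.one_ne_top,
    ENNReal.ofReal_ne_top⟩, ENNReal.ofReal_ne_top⟩
  set D : ℝ≥0∞ := ENNReal.ofReal C1 ^ (1 : ℝ) * c ^ b + ENNReal.ofReal C2 ^ b * c ^ b +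
    ENNReal.ofReal C4 ^ (1 : ℝ) * c ^ b + ENNReal.ofReal C3 ^ (1 : ℝ) * c ^ b with hD
  have hDt : D ≠ ⊤ := by
    have hcb : c ^ b ≠ ⊤ := ENNReal.rpow_ne_top_of_nonneg hb0.le hct
    have h1 : ∀ (x a : ℝ), 0 ≤ a → ENNReal.ofReal x ^ a * c ^ b ≠ ⊤ := fun x a ha =>
      ENNReal.mul_ne_top (ENNReal.rpow_ne_top_of_nonneg ha ENNReal.ofReal_ne_top) hcb
    exact ENNReal.add_ne_top.2 ⟨ENNReal.add_ne_top.2 ⟨ENNReal.add_ne_top.2
      ⟨h1 _ _ zero_le_one, h1 _ _ hb0.le⟩, h1 _ _ zero_le_one⟩, h1 _ _ zero_le_one⟩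
  set Z : ℝ≥0∞ := ENNReal.ofReal CQ * (5 * (ENNReal.ofReal ((b + 1) * C * M ^ b) * D)) with hZ
  have hZt : Z ≠ ⊤ := ENNReal.mul_ne_top ENNReal.ofReal_ne_top (ENNReal.mul_ne_top (by norm_num)
    (ENNReal.mul_ne_top ENNReal.ofReal_ne_top hDt))
  refine ⟨Z.toReal + 1, θ0, M, b, by positivity, t0, by linarith, hb0.le, fun k' hk' => ?_⟩
  have hZle : Z ≤ ENNReal.ofReal (Z.toReal + 1) := by
    calc Z = ENNReal.ofReal Z.toReal := (ENNReal.ofReal_toReal hZt).symm
      _ ≤ _ := ENNReal.ofReal_le_ofReal (by linarith)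
  -- the fields
  set Θ := Theta (sig b) f g with hΘ
  obtain ⟨u1, -, u2⟩ := tst f g hf hg
  have hadd : Θ + k' = Θ + (1 : ℝ) • k' := by rw [one_smul]
  obtain ⟨v1, -, v2⟩ := lin 1 Θ k'
  rw [← hadd] at v1 v2
  have w1 : U (sig b) (Θ + k') =ᵐ[volume] fun x => f x + U (sig b) k' x := by
    filter_upwards [u1, v1] with x hx hx'
    rw [hx', hx, one_mul]
  have w2 : ∀ i, DU (sig b) (Θ + k') i =ᵐ[volume] fun x => pd i f x + DU (sig b) k' i x := by
    intro i
    filter_upwards [u2 i, v2 i] with x hx hx'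
    rw [hx', hx, one_mul]
  have hsΘ : sn b Θ < ⊤ := by
    unfold sn
    rw [eLpNorm_congr_ae u1]
    exact (hf.1.continuous.memLp_of_hasCompactSupport hf.2).2
  have hsa : sn b (Θ + k') < ⊤ := by
    unfold sn
    rw [eLpNorm_congr_ae w1]
    exact ((hf.1.continuous.memLp_of_hasCompactSupport hf.2).add
      ⟨U_meas fldP hs k', hk'⟩).2
  obtain ⟨f1, f2⟩ := nlg b (Θ + k') hb hsa
  obtain ⟨f1', f2'⟩ := nlg b Θ hb hsΘ
  obtain ⟨f1'', f2''⟩ := nlg b k' hb hk'
  have L1 := f1.locallyIntegrable (one_le' b1 b2)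
  have L1' := f1'.locallyIntegrable (one_le' b1 b2)
  have L1'' := f1''.locallyIntegrable (one_le' b1 b2)
  have L2 := fun i => (f2 i).1.locallyIntegrable (one_le' b3 b4)
  have L2' := fun i => (f2' i).1.locallyIntegrable (one_le' b3 b4)
  have L2'' := fun i => (f2'' i).1.locallyIntegrable (one_le' b3 b4)
  set F : E → ℝ := fun x => Fn b (U (sig b) (Θ + k') x) - Fn b (U (sig b) Θ x) -
    Fn b (U (sig b) k' x) with hF
  set G : Fin 5 → E → ℝ := fun i x => GG b (Θ + k') i x - GG b Θ i x - GG b k' i x with hG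
  have h3 := (gam F G ((f1.sub f1').sub f1'') fun i => ⟨((f2 i).1.sub (f2' i).1).sub (f2'' i).1,
      WD_sub (L1.sub L1') ((L2 i).sub (L2' i)) L1'' (L2'' i)
        (WD_sub L1 (L2 i) L1' (L2' i) (f2 i).2 (f2' i).2) (f2'' i).2⟩).1 (sig_le hb hb4)
  have hNL : NL b (Θ + k') - NL b Θ - NL b k' = Gam (sig b) F := by
    refine uniq dns hs fun φ hφ => ?_
    have g1 := (isG _ hsa).1 φ hφ
    have g2 := (isG _ hsΘ).1 φ hφ
    have g3 := (isG _ hk').1 φ hφ
    have g4 := h3.1 φ hφ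
    have g5 : ∫ x, F x * φ x = (∫ x, Fn b (U (sig b) (Θ + k') x) * φ x) -
        (∫ x, Fn b (U (sig b) Θ x) * φ x) - ∫ x, Fn b (U (sig b) k' x) * φ x := by
      rw [← int_sub L1 L1' hφ]
      exact int_sub (f := fun x => Fn b (U (sig b) (Θ + k') x) - Fn b (U (sig b) Θ x))
        (L1.sub L1') L1'' hφ
    rw [inner_sub_left, inner_sub_left, inner_sub_left, inner_sub_left, g1.1, g2.1, g3.1, g1.2,
      g2.2, g3.2, g4.1, g4.2, g5]
    exact ⟨by simp, rfl⟩
  rw [hNL]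
  -- the four norms
  set w : E → ℝ := U (sig b) k' with hw
  have mw : AEStronglyMeasurable w volume := U_meas fldP hs k'
  set L : ℝ≥0∞ := loc b M k' with hL
  set A : ℝ≥0∞ := 1 + ‖k'‖ₑ with hA
  set T : ℝ≥0∞ := (1 + sn b k') ^ (b - 1) with hT
  have hA1 : 1 ≤ A := le_self_add
  have hkA : ‖k'‖ₑ ≤ A := le_add_self
  have hLA : L ≤ c * A := (hloc k' k').1.trans (mul_le_mul' hcL hkA)
  have hwL : eLpNorm ((Metric.ball (0 : E) M).indicator w) 2 volume ≤ L := by
    rw [hL]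
    unfold loc
    rw [add_assoc]
    exact le_self_add
  have hdL : ∀ i, eLpNorm ((Metric.ball (0 : E) M).indicator (DU (sig b) k' i)) 2 volume ≤ L := by
    intro i
    rw [hL]
    unfold loc
    refine le_trans ?_ le_self_add
    refine le_trans ?_ le_add_self
    exact Finset.single_le_sum
      (f := fun i => eLpNorm ((Metric.ball (0 : E) M).indicator (DU (sig b) k' i)) 2 volume)
      (fun _ _ => bot_le) (Finset.mem_univ i)
  have hwA : eLpNorm w (ENNReal.ofReal (5 * b / 2)) volume ≤ c * A := by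
    rw [← hq0]
    exact (fld k').2.1.trans (mul_le_mul' hcF hkA)
  have hdA : ∀ i, eLpNorm (DU (sig b) k' i) (ENNReal.ofReal (5 * b / (b + 2))) volume ≤ c * A := by
    intro i
    rw [← hq1]
    exact ((fld k').2.2.2.2.1 i).2.2.trans (mul_le_mul' hcF hkA)
  have n1 : N r ((Metric.ball (0 : E) M).indicator w) ≤
      ENNReal.ofReal C1 ^ (1 : ℝ) * c ^ b * (L ^ θ0 * A ^ b) := by
    refine ((l1 w mw).trans ?_).trans ((ENNReal.rpow_one _).symm.le.trans
      (powL hLA hwA hA1 hc1 t1' t0 (by linarith) zero_le_one (by linarith)))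
    gcongr
  have n2 : N (r * b) ((Metric.ball (0 : E) M).indicator w) ^ b ≤
      ENNReal.ofReal C2 ^ b * c ^ b * (L ^ θ0 * A ^ b) := by
    refine (ENNReal.rpow_le_rpow ((l2 w mw).trans ?_) hb0.le).trans
      (powL hLA hwA hA1 hc1 t2' t0 (by nlinarith) hb0.le le_rfl)
    gcongr
  have n3 : ∀ i, N r ((Metric.ball (0 : E) M).indicator (DU (sig b) k' i)) ≤
      ENNReal.ofReal C3 ^ (1 : ℝ) * c ^ b * (L ^ θ0 * A ^ b) := by
    intro i
    refine ((l3 _ (DU_meas fldP hs k' i)).trans ?_).trans ((ENNReal.rpow_one _).symm.le.trans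
      (powL hLA (hdA i) hA1 hc1 t3' t0 (by linarith) zero_le_one (by linarith)))
    gcongr
    exact hdL i
  have n4 : ∀ i, N (5 * b / (b + 3)) ((Metric.ball (0 : E) M).indicator (DU (sig b) k' i)) ≤
      ENNReal.ofReal C4 ^ (1 : ℝ) * c ^ b * (L ^ θ0 * A ^ b) := by
    intro i
    refine ((l4 _ (DU_meas fldP hs k' i)).trans ?_).trans ((ENNReal.rpow_one _).symm.le.trans
      (powL hLA (hdA i) hA1 hc1 t4' t0 (by linarith) zero_le_one (by linarith)))
    gcongr
    exact hdL i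
  have hT1 : 1 ≤ T := by
    rw [hT]
    exact ENNReal.one_le_rpow le_self_add (by linarith)
  have hsT : N (5 * b) w ^ (b - 1) ≤ T := by
    rw [hT]
    exact ENNReal.rpow_le_rpow le_add_self (by linarith)
  have hGi : ∀ i, eLpNorm (G i) (q2 (sig b)) volume ≤
      ENNReal.ofReal ((b + 1) * C * M ^ b) * D * (T * (L ^ θ0 * A ^ b)) := by
    intro i
    have p1 : ∀ᵐ x, G i x = (b + 1) * |f x + w x| ^ b * (pd i f x + DU (sig b) k' i x) -
        (b + 1) * |f x| ^ b * pd i f x - (b + 1) * |w x| ^ b * DU (sig b) k' i x := by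
      filter_upwards [w1, w2 i, u1, u2 i] with x x1 x2 x3 x4
      simp only [hG, GG]
      rw [x1, x2, x3, x4]
    have p2 := estG (b := b) (r := r) (y := 5 * b / (b + 3)) (c := (b + 1) * C * M ^ b) (M := M)
      (G := G i) hb hr1 (by positivity) (by
        rw [er]
        field_simp
        ring) (by positivity) mw (DU_meas fldP hs k' i) (by
        filter_upwards [p1] with x hx _
        rw [hx]
        exact ptw hb hC hM1 h8 (hM2 x) (hM3 i x)) (by
        filter_upwards [p1] with x hx hxB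
        rw [mem_ball_zero_iff, not_lt] at hxB
        obtain ⟨z1, z2⟩ := hM4 x hxB
        rw [hx, z1, z2 i, abs_zero, Real.zero_rpow hb0.ne', zero_add, zero_add]
        ring)
    refine p2.trans ?_
    rw [mul_assoc (ENNReal.ofReal ((b + 1) * C * M ^ b)) D]
    refine mul_le_mul' le_rfl ?_
    rw [hD, add_mul, add_mul, add_mul]
    refine add_le_add (add_le_add (add_le_add ?_ ?_) ?_) ?_
    · refine n1.trans ?_
      refine mul_le_mul' le_rfl ?_
      calc L ^ θ0 * A ^ b = 1 * (L ^ θ0 * A ^ b) := (one_mul _).symm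
        _ ≤ T * (L ^ θ0 * A ^ b) := mul_le_mul' hT1 le_rfl
    · refine n2.trans ?_
      refine mul_le_mul' le_rfl ?_
      calc L ^ θ0 * A ^ b = 1 * (L ^ θ0 * A ^ b) := (one_mul _).symm
        _ ≤ T * (L ^ θ0 * A ^ b) := mul_le_mul' hT1 le_rfl
    · refine (mul_le_mul' hsT (n4 i)).trans (le_of_eq ?_)
      ring
    · refine (n3 i).trans ?_
      refine mul_le_mul' le_rfl ?_
      calc L ^ θ0 * A ^ b = 1 * (L ^ θ0 * A ^ b) := (one_mul _).symm
        _ ≤ T * (L ^ θ0 * A ^ b) := mul_le_mul' hT1 le_rfl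
  refine h3.2.trans ?_
  calc ENNReal.ofReal CQ * ∑ i, eLpNorm (G i) (q2 (sig b)) volume
      ≤ ENNReal.ofReal CQ * ∑ _i : Fin 5,
        ENNReal.ofReal ((b + 1) * C * M ^ b) * D * (T * (L ^ θ0 * A ^ b)) :=
        mul_le_mul' le_rfl (Finset.sum_le_sum fun i _ => hGi i)
    _ = Z * (L ^ θ0 * T * A ^ b) := by
        rw [Finset.sum_const, Finset.card_univ, Fintype.card_fin, nsmul_eq_mul, hZ]
        push_cast
        ring
    _ ≤ ENNReal.ofReal (Z.toReal + 1) * (L ^ θ0 * T * A ^ b) := mul_le_mul' hZle le_rfl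
    _ = _ := by ring

end Pool.Agent.QWP
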