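import Pool.Agent.QWP.StG
import Pool.Agent.QWP.NLd

set_option autoImplicit false

/-!
# QWP / QstB: interaction with a fixed test state, `b > 4` (helper95)
-/

open MeasureTheory Filter Topology Set
open scoped ENNReal NNReal RealInnerProductSpace

namespace Pool.Agent.QWP

open Pool.Agent.QWE (E S sg mu K toK tau sh dl rev gr ig IsTest pd lap Rad dRad Rk dRk c0 WD Sm SmE IsSch half shr WTo resc)

namespace QstBx

open NLdx

/-! ### the pointwise bound -/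

lemma pt {b C M : ℝ} (hb : 4 < b) (hC : 0 < C) (hM : 1 ≤ M)
    (h1 : ∀ u w : ℝ, abs (|u + w| ^ b - |u| ^ b) ≤ C * (|u| ^ (b - 1) + |w| ^ (b - 1)) * |w|)
    (h2 : ∀ u w : ℝ, |(|u + w| ^ (b - 2) * (u + w)) - |u| ^ (b - 2) * u| ≤
      C * (|u| ^ (b - 2) + |w| ^ (b - 2)) * |w|) :
    ∃ D : ℝ, 0 ≤ D ∧ ∀ f p q g w y z v : ℝ, |f| ≤ M → |p| ≤ M → |q| ≤ M → |g| ≤ M →
      |((b + 1) * |f + w| ^ b * (g + v) + (b + 1) * b * (|f + w| ^ (b - 2) * (f + w)) * (p + y) * (q + z)) -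
        ((b + 1) * |f| ^ b * g + (b + 1) * b * (|f| ^ (b - 2) * f) * p * q) -
        ((b + 1) * |w| ^ b * v + (b + 1) * b * (|w| ^ (b - 2) * w) * y * z)| ≤
      D * (|w| + |w| ^ b + |v| + |w| ^ (b - 1) * |v| + |y| + |z| + |w| ^ (b - 1) * |y| +
        |w| ^ (b - 1) * |z| + |y| * |z| + |w| ^ (b - 2) * (|y| * |z|)) := by
  have hM0 : 0 < M := by linarith
  have hMb : 1 ≤ M ^ b := Real.one_le_rpow hM (by linarith)
  set K0 : ℝ := 2 * (1 + C) * M ^ b with hK0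
  have hK : 0 < K0 := by positivity
  refine ⟨3 * ((b + 1) * b * K0 * M ^ 2), by positivity, ?_⟩
  intro f p q g w y z v hf hp hq hg
  have hw := abs_nonneg w
  -- powers
  have e0 : |w| ^ (b - 1) * |w| = |w| ^ b := by
    rw [← Real.rpow_add_one' hw (by linarith)]
    congr 1
    ring
  have e1 : |w| ^ (b - 2) * |w| = |w| ^ (b - 1) := by
    rw [← Real.rpow_add_one' hw (by linarith)]
    congr 1
    ring
  have n0 : 0 ≤ |w| ^ b := Real.rpow_nonneg hw _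
  have n1 : 0 ≤ |w| ^ (b - 1) := Real.rpow_nonneg hw _
  have n2 : 0 ≤ |w| ^ (b - 2) := Real.rpow_nonneg hw _
  have c1 : |w| ^ (b - 1) ≤ |w| + |w| ^ b := by
    rcases le_total |w| 1 with h | h
    · have := Real.rpow_le_rpow_of_exponent_ge' hw h (z := 1) (y := b - 1) (by norm_num) (by linarith)
      rw [Real.rpow_one] at this
      linarith
    · have := Real.rpow_le_rpow_of_exponent_le h (y := b - 1) (z := b) (by linarith)
      linarith
  have c2 : |w| ≤ 1 + |w| ^ (b - 1) := by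
    rcases le_total |w| 1 with h | h
    · linarith
    · have := Real.rpow_le_rpow_of_exponent_le h (y := 1) (z := b - 1) (by linarith)
      rw [Real.rpow_one] at this
      linarith
  -- powers of f
  have f0 := abs_nonneg f
  have g1 : |f| ^ (b - 1) ≤ M ^ b := (Real.rpow_le_rpow f0 hf (by linarith)).trans
    (Real.rpow_le_rpow_of_exponent_le hM (by linarith))
  have g2 : |f| ^ (b - 2) ≤ M ^ b := (Real.rpow_le_rpow f0 hf (by linarith)).trans
    (Real.rpow_le_rpow_of_exponent_le hM (by linarith))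
  have g3 : |f| ^ (b - 1) * |f| ≤ M ^ b := by
    rw [← Real.rpow_add_one' f0 (by linarith)]
    refine (Real.rpow_le_rpow f0 hf (by linarith)).trans
      (Real.rpow_le_rpow_of_exponent_le hM (by linarith))
  have g4 : |f| ^ (b - 2) * |f| ≤ M ^ b := by
    rw [← Real.rpow_add_one' f0 (by linarith)]
    refine (Real.rpow_le_rpow f0 hf (by linarith)).trans
      (Real.rpow_le_rpow_of_exponent_le hM (by linarith))
  have g5 : |f| ≤ M ^ b := by
    refine hf.trans ?_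
    have := Real.rpow_le_rpow_of_exponent_le hM (y := 1) (z := b) (by linarith)
    rwa [Real.rpow_one] at this
  have hCK : C * M ^ b ≤ K0 := by
    rw [hK0]
    nlinarith
  have hCK2 : M ^ b + 2 * (C * M ^ b) ≤ K0 := by
    rw [hK0]
    nlinarith
  -- the differences
  have a1 : abs (|f + w| ^ b - |f| ^ b) ≤ K0 * (|w| + |w| ^ b) := by
    refine (h1 f w).trans ?_
    calc C * (|f| ^ (b - 1) + |w| ^ (b - 1)) * |w| = C * |f| ^ (b - 1) * |w| + C * (|w| ^ (b - 1) * |w|) := by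
          ring
      _ ≤ C * M ^ b * |w| + C * M ^ b * |w| ^ b := by
          rw [e0]
          refine add_le_add (by gcongr) ?_
          refine mul_le_mul_of_nonneg_right ?_ n0
          nlinarith
      _ = C * M ^ b * (|w| + |w| ^ b) := by ring
      _ ≤ _ := by gcongr
  have a2 : abs (|f + w| ^ b - |w| ^ b) ≤ K0 * (1 + |w| ^ (b - 1)) := by
    have := h1 w f
    rw [add_comm w f] at this
    refine this.trans ?_
    calc C * (|w| ^ (b - 1) + |f| ^ (b - 1)) * |f| = C * |w| ^ (b - 1) * |f| + C * (|f| ^ (b - 1) * |f|) := by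
          ring
      _ ≤ C * |w| ^ (b - 1) * M ^ b + C * M ^ b := by gcongr
      _ = C * M ^ b * (1 + |w| ^ (b - 1)) := by ring
      _ ≤ _ := by gcongr
  have a3' : |(|f + w| ^ (b - 2) * (f + w)) - |f| ^ (b - 2) * f| ≤ C * M ^ b * (|w| + |w| ^ (b - 1)) := by
    refine (h2 f w).trans ?_
    calc C * (|f| ^ (b - 2) + |w| ^ (b - 2)) * |w| = C * |f| ^ (b - 2) * |w| + C * (|w| ^ (b - 2) * |w|) := by
          ring
      _ ≤ C * M ^ b * |w| + C * M ^ b * |w| ^ (b - 1) := by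
          rw [e1]
          refine add_le_add (by gcongr) ?_
          refine mul_le_mul_of_nonneg_right ?_ n1
          nlinarith
      _ = _ := by ring
  have a3 : |(|f + w| ^ (b - 2) * (f + w)) - |f| ^ (b - 2) * f| ≤ K0 * (2 * (|w| + |w| ^ b)) := by
    refine a3'.trans ?_
    refine mul_le_mul hCK (by linarith) (by positivity) hK.le
  have a4 : |(|f + w| ^ (b - 2) * (f + w)) - |w| ^ (b - 2) * w| ≤ K0 * (1 + |w| ^ (b - 2)) := by
    have := h2 w f
    rw [add_comm w f] at this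
    refine this.trans ?_
    calc C * (|w| ^ (b - 2) + |f| ^ (b - 2)) * |f| = C * |w| ^ (b - 2) * |f| + C * (|f| ^ (b - 2) * |f|) := by
          ring
      _ ≤ C * |w| ^ (b - 2) * M ^ b + C * M ^ b := by gcongr
      _ = C * M ^ b * (1 + |w| ^ (b - 2)) := by ring
      _ ≤ _ := by gcongr
  have a5 : |(|f + w| ^ (b - 2) * (f + w))| ≤ K0 * (1 + |w| ^ (b - 1)) := by
    have h3 : abs (|f| ^ (b - 2) * f) ≤ M ^ b := by
      rw [abs_mul, abs_of_nonneg (Real.rpow_nonneg f0 _)]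
      exact g4
    have h4 : |(|f + w| ^ (b - 2) * (f + w))| ≤
        |(|f + w| ^ (b - 2) * (f + w)) - |f| ^ (b - 2) * f| + abs (|f| ^ (b - 2) * f) := by
      have := abs_add_le ((|f + w| ^ (b - 2) * (f + w)) - |f| ^ (b - 2) * f) (|f| ^ (b - 2) * f)
      rwa [sub_add_cancel] at this
    have h6 : 0 < C * M ^ b := by positivity
    have h5 : C * M ^ b * (|w| + |w| ^ (b - 1)) ≤ C * M ^ b * (1 + 2 * |w| ^ (b - 1)) :=
      mul_le_mul_of_nonneg_left (by linarith) h6.le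
    calc _ ≤ C * M ^ b * (1 + 2 * |w| ^ (b - 1)) + M ^ b := by linarith
      _ ≤ (M ^ b + 2 * (C * M ^ b)) * (1 + |w| ^ (b - 1)) := by nlinarith
      _ ≤ _ := by gcongr
  -- the decomposition
  have dec : ((b + 1) * |f + w| ^ b * (g + v) + (b + 1) * b * (|f + w| ^ (b - 2) * (f + w)) * (p + y) * (q + z)) -
        ((b + 1) * |f| ^ b * g + (b + 1) * b * (|f| ^ (b - 2) * f) * p * q) -
        ((b + 1) * |w| ^ b * v + (b + 1) * b * (|w| ^ (b - 2) * w) * y * z) =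
      (b + 1) * ((|f + w| ^ b - |f| ^ b) * g) + (b + 1) * ((|f + w| ^ b - |w| ^ b) * v) +
      (b + 1) * b * (((|f + w| ^ (b - 2) * (f + w)) - |f| ^ (b - 2) * f) * (p * q)) +
      (b + 1) * b * ((|f + w| ^ (b - 2) * (f + w)) * (p * z + q * y)) +
      (b + 1) * b * (((|f + w| ^ (b - 2) * (f + w)) - |w| ^ (b - 2) * w) * (y * z)) := by ring
  rw [dec]
  have hb1 : 0 ≤ b + 1 := by linarith
  have hb2 : 0 ≤ (b + 1) * b := by positivity
  have hb3 : b + 1 ≤ (b + 1) * b := by nlinarith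
  have hM2 : 1 ≤ M ^ 2 := by nlinarith
  have hM3 : M ≤ M ^ 2 := by nlinarith
  set A := |f + w| ^ b - |f| ^ b
  set A' := |f + w| ^ b - |w| ^ b
  set B := (|f + w| ^ (b - 2) * (f + w)) - |f| ^ (b - 2) * f
  set B' := (|f + w| ^ (b - 2) * (f + w)) - |w| ^ (b - 2) * w
  set G := (|f + w| ^ (b - 2) * (f + w))
  set W0 := |w| ^ b
  set W1 := |w| ^ (b - 1)
  set W2 := |w| ^ (b - 2)
  set E0 := (b + 1) * b * K0 * M ^ 2 with hE0
  have hE1 : (b + 1) * K0 * M ≤ E0 := by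
    rw [hE0]
    gcongr
  have hE2 : (b + 1) * K0 ≤ E0 := by
    rw [hE0]
    calc (b + 1) * K0 = (b + 1) * K0 * 1 := by ring
      _ ≤ _ := by gcongr
  have hE3 : (b + 1) * b * K0 * M ≤ E0 := by
    rw [hE0]
    gcongr
  have hE4 : (b + 1) * b * K0 ≤ E0 := by
    rw [hE0]
    calc (b + 1) * b * K0 = (b + 1) * b * K0 * 1 := by ring
      _ ≤ _ := by gcongr
  have hE : 0 ≤ E0 := by positivity
  have r1 : |(b + 1) * (A * g)| ≤ E0 * (|w| + W0) := by
    rw [abs_mul, abs_mul, abs_of_nonneg hb1]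
    calc (b + 1) * (|A| * |g|) ≤ (b + 1) * ((K0 * (|w| + W0)) * M) := by gcongr
      _ = (b + 1) * K0 * M * (|w| + W0) := by ring
      _ ≤ _ := by gcongr
  have r2 : |(b + 1) * (A' * v)| ≤ E0 * ((1 + W1) * |v|) := by
    rw [abs_mul, abs_mul, abs_of_nonneg hb1]
    calc (b + 1) * (|A'| * |v|) ≤ (b + 1) * ((K0 * (1 + W1)) * |v|) := by gcongr
      _ = (b + 1) * K0 * ((1 + W1) * |v|) := by ring
      _ ≤ _ := by gcongr
  have r3 : |(b + 1) * b * (B * (p * q))| ≤ E0 * (2 * (|w| + W0)) := by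
    rw [abs_mul ((b + 1) * b), abs_mul B, abs_mul p q, abs_of_nonneg hb2]
    calc (b + 1) * b * (|B| * (|p| * |q|)) ≤ (b + 1) * b * ((K0 * (2 * (|w| + W0))) * (M * M)) := by gcongr
      _ = _ := by rw [hE0]; ring
  have r4 : |(b + 1) * b * (G * (p * z + q * y))| ≤ E0 * ((1 + W1) * (|y| + |z|)) := by
    have h5 : |p * z + q * y| ≤ M * (|y| + |z|) := by
      refine (abs_add_le _ _).trans ?_
      rw [abs_mul, abs_mul]
      nlinarith [mul_le_mul_of_nonneg_right hp (abs_nonneg z), mul_le_mul_of_nonneg_right hq (abs_nonneg y)]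
    rw [abs_mul ((b + 1) * b), abs_mul G, abs_of_nonneg hb2]
    calc (b + 1) * b * (|G| * |p * z + q * y|) ≤
        (b + 1) * b * ((K0 * (1 + W1)) * (M * (|y| + |z|))) := by gcongr
      _ = (b + 1) * b * K0 * M * ((1 + W1) * (|y| + |z|)) := by ring
      _ ≤ _ := by gcongr
  have r5 : |(b + 1) * b * (B' * (y * z))| ≤ E0 * ((1 + W2) * (|y| * |z|)) := by
    rw [abs_mul ((b + 1) * b), abs_mul B', abs_mul y z, abs_of_nonneg hb2]
    calc (b + 1) * b * (|B'| * (|y| * |z|)) ≤ (b + 1) * b * ((K0 * (1 + W2)) * (|y| * |z|)) := by gcongr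
      _ = (b + 1) * b * K0 * ((1 + W2) * (|y| * |z|)) := by ring
      _ ≤ _ := by gcongr
  refine (abs_add_le _ _).trans ?_
  refine (add_le_add (abs_add_le _ _) le_rfl).trans ?_
  refine (add_le_add (add_le_add (abs_add_le _ _) le_rfl) le_rfl).trans ?_
  refine (add_le_add (add_le_add (add_le_add (abs_add_le _ _) le_rfl) le_rfl) le_rfl).trans ?_
  have hy := abs_nonneg y
  have hz := abs_nonneg z
  have hv := abs_nonneg v
  have s1 : 0 ≤ E0 * ((1 + W1) * |v|) := by positivity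
  have s2 : 0 ≤ E0 * ((1 + W1) * (|y| + |z|)) := by positivity
  have s3 : 0 ≤ E0 * ((1 + W2) * (|y| * |z|)) := by positivity
  calc _ ≤ E0 * (|w| + W0) + E0 * ((1 + W1) * |v|) + E0 * (2 * (|w| + W0)) +
        E0 * ((1 + W1) * (|y| + |z|)) + E0 * ((1 + W2) * (|y| * |z|)) := by linarith
    _ ≤ E0 * (|w| + W0) + 3 * (E0 * ((1 + W1) * |v|)) + E0 * (2 * (|w| + W0)) +
        3 * (E0 * ((1 + W1) * (|y| + |z|))) + 3 * (E0 * ((1 + W2) * (|y| * |z|))) := by linarith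
    _ = _ := by ring

/-! ### bounds by powers of the local size -/

/-- `X` is at most a constant times `loc ^ θ (1 + sn) ^ p (1 + ‖k‖) ^ n` -/
def Bd (b m p θ : ℝ) (X : K → ℝ≥0∞) : Prop := ∃ (C : ℝ≥0∞) (n : ℝ), C ≠ ⊤ ∧ 0 ≤ n ∧
  ∀ k, sn b k < ⊤ → X k ≤ C * loc b m k ^ θ * (1 + sn b k) ^ p * (1 + ‖k‖ₑ) ^ n

lemma Bd.le {b m p θ : ℝ} {X Y : K → ℝ≥0∞} (hX : Bd b m p θ X)
    (h : ∃ D : ℝ≥0∞, D ≠ ⊤ ∧ ∀ k, sn b k < ⊤ → Y k ≤ D * X k) : Bd b m p θ Y := by
  obtain ⟨C, n, hC, hn, h1⟩ := hX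
  obtain ⟨D, hD, h2⟩ := h
  refine ⟨D * C, n, ENNReal.mul_ne_top hD hC, hn, fun k hk => (h2 k hk).trans ?_⟩
  calc D * X k ≤ D * (C * loc b m k ^ θ * (1 + sn b k) ^ p * (1 + ‖k‖ₑ) ^ n) := by
        gcongr
        exact h1 k hk
    _ = _ := by ring

lemma Bd.mul {b m p θ p' θ' : ℝ} {X Y : K → ℝ≥0∞} (hp : 0 ≤ p) (hθ : 0 ≤ θ) (hp' : 0 ≤ p')
    (hθ' : 0 ≤ θ') (hX : Bd b m p θ X) (hY : Bd b m p' θ' Y) :
    Bd b m (p + p') (θ + θ') (fun k => X k * Y k) := by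
  obtain ⟨C, n, hC, hn, h⟩ := hX
  obtain ⟨C', n', hC', hn', h'⟩ := hY
  refine ⟨C * C', n + n', ENNReal.mul_ne_top hC hC', by positivity, fun k hk => ?_⟩
  calc X k * Y k ≤ (C * loc b m k ^ θ * (1 + sn b k) ^ p * (1 + ‖k‖ₑ) ^ n) *
        (C' * loc b m k ^ θ' * (1 + sn b k) ^ p' * (1 + ‖k‖ₑ) ^ n') := mul_le_mul' (h k hk) (h' k hk)
    _ = C * C' * (loc b m k ^ θ * loc b m k ^ θ') * ((1 + sn b k) ^ p * (1 + sn b k) ^ p') *
        ((1 + ‖k‖ₑ) ^ n * (1 + ‖k‖ₑ) ^ n') := by ring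
    _ = _ := by
        rw [← ENNReal.rpow_add_of_nonneg _ _ hθ hθ', ← ENNReal.rpow_add_of_nonneg _ _ hp hp',
          ← ENNReal.rpow_add_of_nonneg _ _ hn hn']

lemma Bd.pow {b m p θ : ℝ} {X : K → ℝ≥0∞} (hX : Bd b m p θ X) {a : ℝ} (ha : 0 ≤ a) :
    Bd b m (p * a) (θ * a) (fun k => X k ^ a) := by
  obtain ⟨C, n, hC, hn, h⟩ := hX
  refine ⟨C ^ a, n * a, ENNReal.rpow_ne_top_of_nonneg ha hC, by positivity, fun k hk => ?_⟩
  calc X k ^ a ≤ (C * loc b m k ^ θ * (1 + sn b k) ^ p * (1 + ‖k‖ₑ) ^ n) ^ a :=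
        ENNReal.rpow_le_rpow (h k hk) ha
    _ = _ := by
        rw [ENNReal.mul_rpow_of_nonneg _ _ ha, ENNReal.mul_rpow_of_nonneg _ _ ha,
          ENNReal.mul_rpow_of_nonneg _ _ ha, ← ENNReal.rpow_mul, ← ENNReal.rpow_mul, ← ENNReal.rpow_mul]

lemma one_add_pow_le {x : ℝ≥0∞} {p p' : ℝ} (h : p ≤ p') : (1 + x) ^ p ≤ (1 + x) ^ p' :=
  ENNReal.rpow_le_rpow_of_exponent_le le_self_add h

lemma Bd.up {b m p p' θ : ℝ} {X : K → ℝ≥0∞} (hX : Bd b m p θ X) (h : p ≤ p') : Bd b m p' θ X := by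
  obtain ⟨C, n, hC, hn, h1⟩ := hX
  refine ⟨C, n, hC, hn, fun k hk => (h1 k hk).trans ?_⟩
  gcongr C * loc b m k ^ θ * ?_ * (1 + ‖k‖ₑ) ^ n
  exact one_add_pow_le h

lemma Bd.low {b m p θ θ' : ℝ} {X : K → ℝ≥0∞} (hl : ∃ D : ℝ≥0∞, D ≠ ⊤ ∧ ∀ k, loc b m k ≤ D * ‖k‖ₑ)
    (hX : Bd b m p θ X) (h0 : 0 ≤ θ') (h : θ' ≤ θ) : Bd b m p θ' X := by
  obtain ⟨C, n, hC, hn, h1⟩ := hX
  obtain ⟨D, hD, h2⟩ := hl
  have h3 : 0 ≤ θ - θ' := by linarith
  refine ⟨C * D ^ (θ - θ'), n + (θ - θ'), ENNReal.mul_ne_top hC (ENNReal.rpow_ne_top_of_nonneg h3 hD),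
    by positivity, fun k hk => (h1 k hk).trans ?_⟩
  have e : loc b m k ^ θ = loc b m k ^ θ' * loc b m k ^ (θ - θ') := by
    rw [← ENNReal.rpow_add_of_nonneg _ _ h0 h3]
    congr 1
    ring
  have e2 : loc b m k ^ (θ - θ') ≤ D ^ (θ - θ') * (1 + ‖k‖ₑ) ^ (θ - θ') := by
    rw [← ENNReal.mul_rpow_of_nonneg _ _ h3]
    refine ENNReal.rpow_le_rpow ((h2 k).trans ?_) h3
    gcongr
    exact le_add_self
  rw [e]
  calc C * (loc b m k ^ θ' * loc b m k ^ (θ - θ')) * (1 + sn b k) ^ p * (1 + ‖k‖ₑ) ^ n ≤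
      C * (loc b m k ^ θ' * (D ^ (θ - θ') * (1 + ‖k‖ₑ) ^ (θ - θ'))) * (1 + sn b k) ^ p *
        (1 + ‖k‖ₑ) ^ n := by gcongr
    _ = C * D ^ (θ - θ') * loc b m k ^ θ' * (1 + sn b k) ^ p *
        ((1 + ‖k‖ₑ) ^ n * (1 + ‖k‖ₑ) ^ (θ - θ')) := by ring
    _ = _ := by rw [← ENNReal.rpow_add_of_nonneg _ _ hn h3]

lemma Bd.add {b m p θ : ℝ} {X Y : K → ℝ≥0∞} (hX : Bd b m p θ X) (hY : Bd b m p θ Y) :
    Bd b m p θ (fun k => X k + Y k) := by
  obtain ⟨C, n, hC, hn, h⟩ := hX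
  obtain ⟨C', n', hC', hn', h'⟩ := hY
  refine ⟨C + C', n + n', ENNReal.add_ne_top.2 ⟨hC, hC'⟩, by positivity, fun k hk => ?_⟩
  calc X k + Y k ≤ C * loc b m k ^ θ * (1 + sn b k) ^ p * (1 + ‖k‖ₑ) ^ (n + n') +
        C' * loc b m k ^ θ * (1 + sn b k) ^ p * (1 + ‖k‖ₑ) ^ (n + n') := by
        refine add_le_add ((h k hk).trans ?_) ((h' k hk).trans ?_)
        · gcongr C * loc b m k ^ θ * (1 + sn b k) ^ p * ?_
          exact one_add_pow_le (by linarith)
        · gcongr C' * loc b m k ^ θ * (1 + sn b k) ^ p * ?_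
          exact one_add_pow_le (by linarith)
    _ = _ := by ring

/-- good bounds -/
def Good (b m : ℝ) (X : K → ℝ≥0∞) : Prop := ∃ θ : ℝ, 0 < θ ∧ Bd b m (b - 1) θ X

lemma Good.add {b m : ℝ} (hl : ∃ D : ℝ≥0∞, D ≠ ⊤ ∧ ∀ k, loc b m k ≤ D * ‖k‖ₑ) {X Y : K → ℝ≥0∞}
    (hX : Good b m X) (hY : Good b m Y) : Good b m (fun k => X k + Y k) := by
  obtain ⟨θ, h1, h2⟩ := hX
  obtain ⟨θ', h1', h2'⟩ := hY
  have h3 : 0 < min θ θ' := lt_min h1 h1'
  exact ⟨min θ θ', h3, (h2.low hl h3.le (min_le_left _ _)).add (h2'.low hl h3.le (min_le_right _ _))⟩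

lemma Good.sum {b m : ℝ} (hl : ∃ D : ℝ≥0∞, D ≠ ⊤ ∧ ∀ k, loc b m k ≤ D * ‖k‖ₑ) {ι : Type} (s : Finset ι)
    {X : ι → K → ℝ≥0∞} (h : ∀ i, Good b m (X i)) : Good b m (fun k => ∑ i ∈ s, X i k) := by
  classical
  induction s using Finset.induction_on with
  | empty => exact ⟨1, one_pos, 0, 0, ENNReal.zero_ne_top, le_rfl, fun k _ => by simp⟩
  | insert a s ha ih =>
    simp only [Finset.sum_insert ha]
    exact (h a).add hl ih

lemma Good.le {b m : ℝ} {X Y : K → ℝ≥0∞} (hX : Good b m X)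
    (h : ∃ D : ℝ≥0∞, D ≠ ⊤ ∧ ∀ k, sn b k < ⊤ → Y k ≤ D * X k) : Good b m Y := by
  obtain ⟨θ, h1, h2⟩ := hX
  exact ⟨θ, h1, h2.le h⟩

/-- interpolation on the ball -/
lemma li (locI : St_LocI) {b m p r q : ℝ} (hm : 0 ≤ m) (hr : 1 ≤ r) (hrq : r < q) (hq : 2 ≤ q)
    (hp : 0 ≤ p) {v : K → E → ℝ} (hv : ∀ k, AEStronglyMeasurable (v k) volume)
    (h2 : ∀ k, eLpNorm ((Metric.ball (0 : E) m).indicator (v k)) 2 volume ≤ loc b m k)
    (hN : Bd b m p 0 (fun k => N q (v k))) :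
    ∃ θ : ℝ, 0 < θ ∧ Bd b m p θ (fun k => N r ((Metric.ball (0 : E) m).indicator (v k))) := by
  obtain ⟨C, θ, hC, hθ, hθ1, h⟩ := locI m r q hm hr hrq hq
  have hθ2 : 0 ≤ 1 - θ := by linarith
  have b1 : Bd b m 0 θ (fun k => loc b m k ^ θ) := ⟨1, 0, ENNReal.one_ne_top, le_rfl, fun k _ => by simp⟩
  have b2 : Bd b m (p * (1 - θ)) (0 * (1 - θ)) (fun k => N q (v k) ^ (1 - θ)) := hN.pow hθ2
  rw [zero_mul] at b2
  have b3 := (b1.mul le_rfl hθ.le (by positivity) le_rfl b2).up (p' := p) (by nlinarith)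
  rw [add_zero] at b3
  refine ⟨θ, hθ, b3.le ⟨ENNReal.ofReal C, ENNReal.ofReal_ne_top, fun k _ => (h (v k) (hv k)).trans ?_⟩⟩
  rw [mul_assoc]
  gcongr ENNReal.ofReal C * (?_ * ?_)
  · exact ENNReal.rpow_le_rpow (h2 k) hθ.le
  · exact le_rfl

/-! ### good families of functions -/

/-- families of functions with good norms in `L^{p2}` -/
structure GF (b m : ℝ) (F : K → E → ℝ) : Prop where
  ms : ∀ k, AEStronglyMeasurable (F k) volume
  bd : Good b m (fun k => N (10 / (7 - 2 * sig b)) (F k))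

lemma GF.add {b m : ℝ} (hb : 2 < b) (hl : ∃ D : ℝ≥0∞, D ≠ ⊤ ∧ ∀ k, loc b m k ≤ D * ‖k‖ₑ) {F G : K → E → ℝ}
    (hF : GF b m F) (hG : GF b m G) : GF b m (fun k x => F k x + G k x) := by
  obtain ⟨b1, b2, b3, b4, b5, b6⟩ := bds hb
  refine ⟨fun k => (hF.ms k).add (hG.ms k), ((hF.bd).add hl hG.bd).le ⟨1, ENNReal.one_ne_top,
    fun k _ => ?_⟩⟩
  rw [one_mul]
  exact N_add (one_le b5 b6) (hF.ms k) (hG.ms k)

/-! ### elementary bounds -/

lemma Bd.of_norm {b m : ℝ} {X : K → ℝ≥0∞} {C : ℝ} (h : ∀ k, X k ≤ ENNReal.ofReal C * ‖k‖ₑ) :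
    Bd b m 0 0 X := by
  refine ⟨ENNReal.ofReal C, 1, ENNReal.ofReal_ne_top, zero_le_one, fun k _ => (h k).trans ?_⟩
  rw [ENNReal.rpow_zero, ENNReal.rpow_zero, ENNReal.rpow_one, mul_one, mul_one]
  gcongr
  exact le_add_self

lemma Bd.sn (b m : ℝ) : Bd b m 1 0 (fun k => Pool.Agent.QWP.sn b k) := by
  refine ⟨1, 0, ENNReal.one_ne_top, le_rfl, fun k _ => ?_⟩
  rw [ENNReal.rpow_zero, ENNReal.rpow_zero, ENNReal.rpow_one, mul_one, mul_one, one_mul]
  exact le_add_self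

lemma loc_U (b m : ℝ) (k : K) :
    eLpNorm ((Metric.ball (0 : E) m).indicator (U (sig b) k)) 2 volume ≤ loc b m k := by
  unfold loc
  rw [add_assoc]
  exact le_self_add

lemma loc_DU (b m : ℝ) (k : K) (i : Fin 5) :
    eLpNorm ((Metric.ball (0 : E) m).indicator (DU (sig b) k i)) 2 volume ≤ loc b m k := by
  unfold loc
  refine le_trans ?_ (le_self_add (a := _ + _))
  refine le_trans ?_ le_add_self
  exact Finset.single_le_sum (f := fun i => eLpNorm ((Metric.ball (0 : E) m).indicator (DU (sig b) k i)) 2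
    volume) (fun _ _ => bot_le) (Finset.mem_univ i)

lemma loc_DDU {b : ℝ} (hb : 4 < b) (m : ℝ) (k : K) (i j : Fin 5) :
    eLpNorm ((Metric.ball (0 : E) m).indicator (DDU (sig b) k i j)) 2 volume ≤ loc b m k := by
  unfold loc
  rw [if_neg (by linarith)]
  refine le_trans ?_ le_add_self
  refine le_trans (Finset.single_le_sum (f := fun j => eLpNorm ((Metric.ball (0 : E) m).indicator
    (DDU (sig b) k i j)) 2 volume) (fun _ _ => bot_le) (Finset.mem_univ j)) ?_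
  exact Finset.single_le_sum (f := fun i => ∑ j, eLpNorm ((Metric.ball (0 : E) m).indicator
    (DDU (sig b) k i j)) 2 volume) (fun _ _ => bot_le) (Finset.mem_univ i)

lemma ind_meas {m : ℝ} {f : E → ℝ} (hf : AEStronglyMeasurable f volume) :
    AEStronglyMeasurable ((Metric.ball (0 : E) m).indicator f) volume :=
  hf.indicator measurableSet_ball

/-! ### the families -/

lemma g1 {b m θ : ℝ} (hb : 2 < b) (hθ : 0 < θ) {v : K → E → ℝ} (hv : ∀ k, AEStronglyMeasurable (v k) volume)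
    (h : Bd b m 0 θ (fun k => N (10 / (7 - 2 * sig b)) ((Metric.ball (0 : E) m).indicator (v k)))) :
    GF b m (fun k x => |(Metric.ball (0 : E) m).indicator (v k) x|) := by
  refine ⟨fun k => (ind_meas (hv k)).norm, θ, hθ, (h.up (p' := b - 1) (by linarith)).le
    ⟨1, ENNReal.one_ne_top, fun k _ => ?_⟩⟩
  rw [one_mul, N_abs]

lemma g2 {b m θ : ℝ} (hb : 2 < b) (hθ : 0 < θ) {v : K → E → ℝ} (hv : ∀ k, AEStronglyMeasurable (v k) volume)
    (h : Bd b m 0 θ (fun k => N (10 / (7 - 2 * sig b) * b) ((Metric.ball (0 : E) m).indicator (v k)))) :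
    GF b m (fun k x => |(Metric.ball (0 : E) m).indicator (v k) x| ^ b) := by
  obtain ⟨b1, b2, b3, b4, b5, b6⟩ := bds hb
  have hb0 : 0 < b := by linarith
  have h2 := h.pow hb0.le
  rw [zero_mul] at h2
  refine ⟨fun k => (Real.continuous_rpow_const hb0.le).comp_aestronglyMeasurable (ind_meas (hv k)).norm,
    θ * b, by positivity, (h2.up (p' := b - 1) (by linarith)).le ⟨1, ENNReal.one_ne_top, fun k _ => ?_⟩⟩
  rw [one_mul, pw (by positivity) hb0]

lemma pow_meas (fldP : St_FldP) {b a : ℝ} (hb : 2 < b) (ha : 0 ≤ a) (k : K) :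
    AEStronglyMeasurable (fun x => |U (sig b) k x| ^ a) volume :=
  (Real.continuous_rpow_const ha).comp_aestronglyMeasurable (U_meas fldP (sig_bd hb) k).norm

lemma sn_pow {b a : ℝ} (hb : 2 < b) (ha : 0 < a) (k : K) :
    N (5 * b / a) (fun x => |U (sig b) k x| ^ a) = sn b k ^ a := by
  rw [pw (by positivity) ha, div_mul_cancel₀ _ ha.ne']
  rfl

lemma g4 (fldP : St_FldP) {b m θ : ℝ} (hb : 2 < b) (hθ : 0 < θ) {v : K → E → ℝ}
    (hv : ∀ k, AEStronglyMeasurable (v k) volume)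
    (h : Bd b m 0 θ (fun k => N (5 * b / (2 * b + 3)) ((Metric.ball (0 : E) m).indicator (v k)))) :
    GF b m (fun k x => |U (sig b) k x| ^ (b - 1) * |(Metric.ball (0 : E) m).indicator (v k) x|) := by
  obtain ⟨b1, b2, b3, b4, b5, b6⟩ := bds hb
  have hb0 : 0 < b := by linarith
  have hb1 : 0 < b - 1 := by linarith
  have h2 := ((Bd.sn b m).pow hb1.le).mul (by positivity) (by simp) le_rfl hθ.le h
  rw [zero_mul, zero_add, one_mul, add_zero] at h2
  refine ⟨fun k => (pow_meas fldP hb hb1.le k).mul (ind_meas (hv k)).norm,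
    θ, hθ, h2.le ⟨1, ENNReal.one_ne_top, fun k _ => ?_⟩⟩
  rw [one_mul]
  refine (hol (p := 5 * b / (b - 1)) (q := 5 * b / (2 * b + 3)) (by positivity) (by positivity)
    (by positivity) ?_ (pow_meas fldP hb hb1.le k) (ind_meas (hv k)).norm).trans ?_
  · unfold sig
    field_simp
    ring
  · rw [sn_pow hb hb1]
    have := N_abs (5 * b / (2 * b + 3)) ((Metric.ball (0 : E) m).indicator (v k))
    refine le_of_eq ?_
    rw [← this]
    rfl

lemma g7 {b m θ θ' : ℝ} (hb : 2 < b) (hθ : 0 < θ) (hθ' : 0 < θ') {v w : K → E → ℝ}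
    (hv : ∀ k, AEStronglyMeasurable (v k) volume) (hw : ∀ k, AEStronglyMeasurable (w k) volume)
    (h : Bd b m 0 θ (fun k => N (2 * (10 / (7 - 2 * sig b))) ((Metric.ball (0 : E) m).indicator (v k))))
    (h' : Bd b m 0 θ' (fun k => N (2 * (10 / (7 - 2 * sig b))) ((Metric.ball (0 : E) m).indicator (w k)))) :
    GF b m (fun k x => |(Metric.ball (0 : E) m).indicator (v k) x| *
      |(Metric.ball (0 : E) m).indicator (w k) x|) := by
  obtain ⟨b1, b2, b3, b4, b5, b6⟩ := bds hb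
  have h2 := (h.mul le_rfl hθ.le le_rfl hθ'.le h').up (p' := b - 1) (by linarith)
  refine ⟨fun k => (ind_meas (hv k)).norm.mul (ind_meas (hw k)).norm, θ + θ', by positivity,
    h2.le ⟨1, ENNReal.one_ne_top, fun k _ => ?_⟩⟩
  rw [one_mul, ← N_abs _ ((Metric.ball (0 : E) m).indicator (v k)),
    ← N_abs _ ((Metric.ball (0 : E) m).indicator (w k))]
  refine hol (by positivity) (by positivity) (by positivity) ?_ (ind_meas (hv k)).norm
    (ind_meas (hw k)).norm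
  field_simp
  norm_num

lemma g8 (fldP : St_FldP) {b m θ θ' : ℝ} (hb : 2 < b) (hθ : 0 < θ) (hθ' : 0 < θ') {v w : K → E → ℝ}
    (hv : ∀ k, AEStronglyMeasurable (v k) volume) (hw : ∀ k, AEStronglyMeasurable (w k) volume)
    (h : Bd b m (1 / 2) θ (fun k => N (10 / (3 - 2 * sig b)) ((Metric.ball (0 : E) m).indicator (v k))))
    (h' : Bd b m (1 / 2) θ' (fun k => N (10 / (3 - 2 * sig b)) ((Metric.ball (0 : E) m).indicator (w k)))) :
    GF b m (fun k x => |U (sig b) k x| ^ (b - 2) * (|(Metric.ball (0 : E) m).indicator (v k) x| *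
      |(Metric.ball (0 : E) m).indicator (w k) x|)) := by
  obtain ⟨b1, b2, b3, b4, b5, b6⟩ := bds hb
  have hb0 : 0 < b := by linarith
  have hb1 : 0 < b - 2 := by linarith
  have h2 := ((Bd.sn b m).pow hb1.le).mul (by positivity) (by simp) (by positivity) (by positivity)
    (h.mul (by positivity) hθ.le (by positivity) hθ'.le h')
  rw [zero_mul, zero_add, one_mul] at h2
  have h3 := h2.up (p' := b - 1) (by linarith)
  refine ⟨fun k => (pow_meas fldP hb hb1.le k).mul ((ind_meas (hv k)).norm.mul (ind_meas (hw k)).norm),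
    θ + θ', by positivity, h3.le ⟨1, ENNReal.one_ne_top, fun k _ => ?_⟩⟩
  rw [one_mul]
  refine (hol (p := 5 * b / (b - 2)) (q := 10 / (3 - 2 * sig b) / 2) (by positivity) (by positivity)
    (by positivity) ?_ (pow_meas fldP hb hb1.le k)
    ((ind_meas (hv k)).norm.mul (ind_meas (hw k)).norm)).trans ?_
  · rw [one_div_div, one_div_div, one_div_div, div_div_eq_mul_div]
    unfold sig
    field_simp
    ring
  · rw [sn_pow hb hb1]
    gcongr sn b k ^ (b - 2) * ?_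
    rw [← N_abs _ ((Metric.ball (0 : E) m).indicator (v k)),
      ← N_abs _ ((Metric.ball (0 : E) m).indicator (w k))]
    refine hol (by positivity) (by positivity) (by positivity) ?_ (ind_meas (hv k)).norm
      (ind_meas (hw k)).norm
    field_simp
    norm_num

/-! ### the family of all terms -/

lemma gnB (nld : St_NLd) (gnk : St_GNk) {b : ℝ} (hb : 4 < b) (m : ℝ) (i : Fin 5) :
    Bd b m (1 / 2) 0 (fun k => N (10 * b / (2 * b + 3)) (DU (sig b) k i)) := by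
  obtain ⟨C, hC, ht, -⟩ := nld b (by linarith)
  obtain ⟨C', hC', hg⟩ := gnk b hb
  have h1 := (Bd.sn b m).mul zero_le_one le_rfl le_rfl le_rfl (Bd.of_norm (m := m) ht)
  have h2 : Bd b m (1 + 0) (0 + 0) (fun k => N (10 * b / (2 * b + 3)) (DU (sig b) k i) ^ (2 : ℕ)) := by
    refine h1.le ⟨ENNReal.ofReal C', ENNReal.ofReal_ne_top, fun k hk => ?_⟩
    rw [← mul_assoc]
    exact hg k i hk
  have h3 := h2.pow (a := 1 / 2) (by norm_num)
  rw [add_zero, add_zero, one_mul, zero_mul] at h3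
  refine h3.le ⟨1, ENNReal.one_ne_top, fun k _ => ?_⟩
  rw [one_mul, ← ENNReal.rpow_natCast, ← ENNReal.rpow_mul]
  norm_num

/-- all terms -/
noncomputable def TT (b m : ℝ) (i j : Fin 5) (k : K) (x : E) : ℝ :=
  |(Metric.ball (0 : E) m).indicator (U (sig b) k) x| +
  |(Metric.ball (0 : E) m).indicator (U (sig b) k) x| ^ b +
  |(Metric.ball (0 : E) m).indicator (DDU (sig b) k i j) x| +
  |U (sig b) k x| ^ (b - 1) * |(Metric.ball (0 : E) m).indicator (DDU (sig b) k i j) x| +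
  |(Metric.ball (0 : E) m).indicator (DU (sig b) k i) x| +
  |(Metric.ball (0 : E) m).indicator (DU (sig b) k j) x| +
  |U (sig b) k x| ^ (b - 1) * |(Metric.ball (0 : E) m).indicator (DU (sig b) k i) x| +
  |U (sig b) k x| ^ (b - 1) * |(Metric.ball (0 : E) m).indicator (DU (sig b) k j) x| +
  |(Metric.ball (0 : E) m).indicator (DU (sig b) k i) x| *
    |(Metric.ball (0 : E) m).indicator (DU (sig b) k j) x| +
  |U (sig b) k x| ^ (b - 2) * (|(Metric.ball (0 : E) m).indicator (DU (sig b) k i) x| *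
    |(Metric.ball (0 : E) m).indicator (DU (sig b) k j) x|)

lemma fam (fldP : St_FldP) (fldD : St_FldD) (nld : St_NLd) (gnk : St_GNk) (locI : St_LocI)
    {b m : ℝ} (hb : 4 < b) (hm : 0 ≤ m) (hl : ∃ D : ℝ≥0∞, D ≠ ⊤ ∧ ∀ k, loc b m k ≤ D * ‖k‖ₑ)
    (i j : Fin 5) : GF b m (TT b m i j) := by
  have hb2 : 2 < b := by linarith
  have hb0 : 0 < b := by linarith
  have hs := sig_bd hb2
  have hsp := sig_pos hb
  have hs1 := (abs_lt.1 hs).2
  obtain ⟨b1, b2, b3, b4, b5, b6⟩ := bds hb2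
  have b7 : 0 < 1 - 2 * sig b := by linarith
  have hsig : sig b * b = b / 2 - 2 := by
    unfold sig
    field_simp
  have hR := one_le b5 b6
  obtain ⟨C, hC, hf, -⟩ := fldP (sig b) hs
  obtain ⟨C', hC', hd, -⟩ := fldD (sig b) hsp.le hs1
  have mU := U_meas fldP hs
  have mD := fun i k => DU_meas fldP hs k i
  have mDD := fun k => DDU_meas fldD hsp.le hs1 k i j
  -- exponents
  have e1 : 10 / (7 - 2 * sig b) < 10 / (1 - 2 * sig b) :=
    div_lt_div_of_pos_left (by norm_num) b7 (by linarith)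
  have e2 : (2 : ℝ) ≤ 10 / (1 - 2 * sig b) := by
    rw [le_div_iff₀ b7]
    linarith
  have e3 : (2 : ℝ) ≤ 10 / (3 - 2 * sig b) := by
    rw [le_div_iff₀ b1]
    linarith
  have e4 : (2 : ℝ) ≤ 10 / (5 - 2 * sig b) := by
    rw [le_div_iff₀ b3]
    linarith
  have e5 : 10 / (7 - 2 * sig b) < 10 / (5 - 2 * sig b) :=
    div_lt_div_of_pos_left (by norm_num) b3 (by linarith)
  have e6 : 10 / (7 - 2 * sig b) < 10 / (3 - 2 * sig b) :=
    div_lt_div_of_pos_left (by norm_num) b1 (by linarith)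
  have e7 : 10 / (7 - 2 * sig b) * b < 10 / (1 - 2 * sig b) := by
    rw [div_mul_eq_mul_div, div_lt_div_iff₀ b5 b7]
    nlinarith
  have e8 : 1 ≤ 10 / (7 - 2 * sig b) * b := by nlinarith
  have e9 : (1 : ℝ) ≤ 5 * b / (2 * b + 3) := by
    rw [le_div_iff₀ (by positivity)]
    linarith
  have e10 : 5 * b / (2 * b + 3) < 10 / (5 - 2 * sig b) := by
    rw [div_lt_div_iff₀ (by positivity) b3]
    nlinarith
  have e11 : 5 * b / (2 * b + 3) < 10 / (3 - 2 * sig b) := by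
    rw [div_lt_div_iff₀ (by positivity) b1]
    nlinarith
  have e12 : 2 * (10 / (7 - 2 * sig b)) < 10 / (3 - 2 * sig b) := by
    rw [← mul_div_assoc, div_lt_div_iff₀ b5 b1]
    nlinarith
  have e13 : (1 : ℝ) ≤ 2 * (10 / (7 - 2 * sig b)) := by linarith
  have e14 : 10 / (3 - 2 * sig b) < 10 * b / (2 * b + 3) := by
    rw [div_lt_div_iff₀ b1 (by positivity)]
    nlinarith
  have e15 : (2 : ℝ) ≤ 10 * b / (2 * b + 3) := by
    rw [le_div_iff₀ (by positivity)]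
    linarith
  have e16 : (1 : ℝ) ≤ 10 / (3 - 2 * sig b) := by linarith
  -- norms on the whole space
  have nU : Bd b m 0 0 (fun k => N (10 / (1 - 2 * sig b)) (U (sig b) k)) :=
    Bd.of_norm (C := C) fun k => (hf k).2.1
  have nD : ∀ i, Bd b m 0 0 (fun k => N (10 / (3 - 2 * sig b)) (DU (sig b) k i)) := fun i =>
    Bd.of_norm (C := C) fun k => ((hf k).2.2.2.2.1 i).2.2
  have nDD : Bd b m 0 0 (fun k => N (10 / (5 - 2 * sig b)) (DDU (sig b) k i j)) :=
    Bd.of_norm (C := C') fun k => (hd k i j).2.2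
  -- norms on the ball
  obtain ⟨t1, ht1, u1⟩ := li locI hm hR e1 e2 le_rfl mU (loc_U b m) nU
  obtain ⟨t2, ht2, u2⟩ := li locI hm e8 e7 e2 le_rfl mU (loc_U b m) nU
  obtain ⟨t3, ht3, u3⟩ := li locI hm hR e5 e4 le_rfl mDD (fun k => loc_DDU hb m k i j) nDD
  obtain ⟨t4, ht4, u4⟩ := li locI hm e9 e10 e4 le_rfl mDD (fun k => loc_DDU hb m k i j) nDD
  have v1 := fun i => li locI hm hR e6 e3 le_rfl (mD i) (fun k => loc_DU b m k i) (nD i)
  have v2 := fun i => li locI hm e9 e11 e3 le_rfl (mD i) (fun k => loc_DU b m k i) (nD i)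
  have v3 := fun i => li locI hm e13 e12 e3 le_rfl (mD i) (fun k => loc_DU b m k i) (nD i)
  have v4 := fun i => li locI hm e16 e14 e15 (by norm_num) (mD i) (fun k => loc_DU b m k i)
    (gnB nld gnk hb m i)
  -- families
  have f1 := g1 hb2 ht1 mU u1
  have f2 := g2 hb2 ht2 mU u2
  have f3 := g1 hb2 ht3 mDD u3
  have f4 := g4 fldP hb2 ht4 mDD u4
  have f5 : ∀ i, GF b m (fun k x => |(Metric.ball (0 : E) m).indicator (DU (sig b) k i) x|) := fun i => by
    obtain ⟨t, ht, u⟩ := v1 i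
    exact g1 hb2 ht (mD i) u
  have f6 : ∀ i, GF b m (fun k x => |U (sig b) k x| ^ (b - 1) *
      |(Metric.ball (0 : E) m).indicator (DU (sig b) k i) x|) := fun i => by
    obtain ⟨t, ht, u⟩ := v2 i
    exact g4 fldP hb2 ht (mD i) u
  obtain ⟨t7, ht7, u7⟩ := v3 i
  obtain ⟨t8, ht8, u8⟩ := v3 j
  have f7 := g7 hb2 ht7 ht8 (mD i) (mD j) u7 u8
  obtain ⟨t9, ht9, u9⟩ := v4 i
  obtain ⟨t10, ht10, u10⟩ := v4 j
  have f8 := g8 fldP hb2 ht9 ht10 (mD i) (mD j) u9 u10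
  exact ((((((((f1.add hb2 hl f2).add hb2 hl f3).add hb2 hl f4).add hb2 hl (f5 i)).add hb2 hl (f5 j)).add
    hb2 hl (f6 i)).add hb2 hl (f6 j)).add hb2 hl f7).add hb2 hl f8

/-! ### sums of states -/

lemma U_add (fldP : St_FldP) {s : ℝ} (hs : |s| < 1 / 2) (k k' : K) :
    U s (k + k') =ᵐ[volume] fun x => U s k x + U s k' x := by
  obtain ⟨C, hC, -, h, -⟩ := fldP s hs
  have := (h 1 k k').1
  rw [one_smul] at this
  simpa using this

lemma DU_add (fldP : St_FldP) {s : ℝ} (hs : |s| < 1 / 2) (k k' : K) (i : Fin 5) :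
    DU s (k + k') i =ᵐ[volume] fun x => DU s k i x + DU s k' i x := by
  obtain ⟨C, hC, -, h, -⟩ := fldP s hs
  have := (h 1 k k').2.2 i
  rw [one_smul] at this
  simpa using this

lemma DDU_add (fldD : St_FldD) {s : ℝ} (hs : 0 ≤ s) (hs' : s < 1 / 2) (k k' : K) (i j : Fin 5) :
    DDU s (k + k') i j =ᵐ[volume] fun x => DDU s k i j x + DDU s k' i j x := by
  obtain ⟨C, hC, -, h, -⟩ := fldD s hs hs'
  have := h 1 k k' i j
  rw [one_smul] at this
  simpa using this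

lemma sn_add_fin (fldP : St_FldP) {b : ℝ} (hb : 2 < b) {k k' : K} (hk : sn b k < ⊤) (hk' : sn b k' < ⊤) :
    sn b (k + k') < ⊤ := by
  unfold sn at hk hk' ⊢
  rw [eLpNorm_congr_ae (U_add fldP (sig_bd hb) k k')]
  exact (MemLp.add ⟨U_meas fldP (sig_bd hb) k, hk⟩ ⟨U_meas fldP (sig_bd hb) k', hk'⟩).2

lemma sn_Theta (fldP : St_FldP) {b : ℝ} (hb : 2 < b) {f g : E → ℝ} (hf : IsTest f) (hg : IsTest g) :
    sn b (Theta (sig b) f g) < ⊤ := by
  obtain ⟨C, hC, -, -, h⟩ := fldP (sig b) (sig_bd hb)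
  unfold sn
  rw [eLpNorm_congr_ae (h f g hf hg).1]
  exact (hf.1.continuous.memLp_of_hasCompactSupport hf.2).2

/-- the bound by the second derivatives -/
lemma bdH (dns : St_DnsP) (fldP : St_FldP) (gamQ : St_GamQ) (nlg : St_NLg) (nlh : St_NLh)
    {b : ℝ} (hb : 4 < b) :
    ∃ D : ℝ≥0∞, D ≠ ⊤ ∧ ∀ k k' : K, sn b k < ⊤ → sn b k' < ⊤ →
      ‖NL b (k + k') - NL b k - NL b k'‖ₑ ≤ D * ∑ i, ∑ j, N (10 / (7 - 2 * sig b))
        (fun x => HH b (k + k') i j x - HH b k i j x - HH b k' i j x) := by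
  have hb2 : 2 < b := by linarith
  have hs := sig_bd hb2
  obtain ⟨C1, hC1, hg⟩ := gamQ (sig b) hs
  obtain ⟨b1, b2, b3, b4, b5, b6⟩ := bds hb2
  refine ⟨ENNReal.ofReal C1, ENNReal.ofReal_ne_top, fun k k' hk hk' => ?_⟩
  have hkk := sn_add_fin fldP hb2 hk hk'
  obtain ⟨f0, f2⟩ := nlg b (k + k') hb2 hkk
  obtain ⟨f0', f2'⟩ := nlg b k hb2 hk
  obtain ⟨f0'', f2''⟩ := nlg b k' hb2 hk'
  have f3 := fun i j => nlh b (k + k') i j hb hkk
  have f3' := fun i j => nlh b k i j hb hk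
  have f3'' := fun i j => nlh b k' i j hb hk'
  have l0 := f0.locallyIntegrable (one_le' b1 b2)
  have l0' := f0'.locallyIntegrable (one_le' b1 b2)
  have l0'' := f0''.locallyIntegrable (one_le' b1 b2)
  have l2 := fun i => (f2 i).1.locallyIntegrable (one_le' b3 b4)
  have l2' := fun i => (f2' i).1.locallyIntegrable (one_le' b3 b4)
  have l2'' := fun i => (f2'' i).1.locallyIntegrable (one_le' b3 b4)
  have l3 := fun i j => (f3 i j).1.locallyIntegrable (one_le' b5 b6)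
  have l3' := fun i j => (f3' i j).1.locallyIntegrable (one_le' b5 b6)
  have l3'' := fun i j => (f3'' i j).1.locallyIntegrable (one_le' b5 b6)
  have h3 := (hg (fun x => Fn b (U (sig b) (k + k') x) - Fn b (U (sig b) k x) - Fn b (U (sig b) k' x))
    (fun i x => GG b (k + k') i x - GG b k i x - GG b k' i x) ((f0.sub f0').sub f0'') fun i =>
      ⟨((f2 i).1.sub (f2' i).1).sub (f2'' i).1,
      WD_sub (l0.sub l0') ((l2 i).sub (l2' i)) l0'' (l2'' i)
        (WD_sub l0 (l2 i) l0' (l2' i) (f2 i).2 (f2' i).2) (f2'' i).2⟩).2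
    (fun i j x => HH b (k + k') i j x - HH b k i j x - HH b k' i j x) fun i j =>
      ⟨((f3 i j).1.sub (f3' i j).1).sub (f3'' i j).1,
      WD_sub ((l2 i).sub (l2' i)) ((l3 i j).sub (l3' i j)) (l2'' i) (l3'' i j)
        (WD_sub (l2 i) (l3 i j) (l2' i) (l3' i j) (f3 i j).2 (f3' i j).2) (f3'' i j).2⟩
  have e : NL b (k + k') - NL b k - NL b k' =
      Gam (sig b) fun x => Fn b (U (sig b) (k + k') x) - Fn b (U (sig b) k x) - Fn b (U (sig b) k' x) := by
    have g1 := isGam gamQ nlg nlh hb2 hkk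
    have g2 := isGam gamQ nlg nlh hb2 hk
    have g3 := isGam gamQ nlg nlh hb2 hk'
    refine uniq dns hs fun φ hφ => ?_
    have e1 := int_sub l0 l0' hφ
    have e2 := int_sub (l0.sub l0') l0'' hφ
    rw [inner_sub_left, inner_sub_left, inner_sub_left, inner_sub_left, (g1 φ hφ).1, (g2 φ hφ).1,
      (g3 φ hφ).1, (g1 φ hφ).2, (g2 φ hφ).2, (g3 φ hφ).2, (h3.1 φ hφ).1, (h3.1 φ hφ).2, ← e1]
    exact ⟨by simp, e2.symm⟩
  rw [e]
  exact h3.2

lemma bdd (f : E → ℝ) (hf : IsTest f) : ∃ M : ℝ, ∀ x, |f x| ≤ M := by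
  obtain ⟨C, hC⟩ := hf.1.continuous.bounded_above_of_compact_support hf.2
  exact ⟨C, hC⟩

/-- the pointwise bound almost everywhere -/
lemma bdP (npq : St_Npq) (fldP : St_FldP) (fldD : St_FldD) {b m : ℝ} (hb : 4 < b) {f g : E → ℝ}
    (hf : IsTest f) (hg : IsTest g) (hm : tsupport f ⊆ Metric.ball (0 : E) m) (i j : Fin 5) :
    ∃ D : ℝ, 0 ≤ D ∧ ∀ k : K, ∀ᵐ x, |HH b (Theta (sig b) f g + k) i j x - HH b (Theta (sig b) f g) i j x -
      HH b k i j x| ≤ D * |TT b m i j k x| := by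
  have hb2 : 2 < b := by linarith
  have hs := sig_bd hb2
  have hsp := sig_pos hb
  have hs1 := (abs_lt.1 hs).2
  obtain ⟨C, hC, -, -, -, -, -, -, -, h1, h2⟩ := npq b hb2
  have tp := fun i => QWE.GamEx.test_pd hf i
  obtain ⟨M1, hM1⟩ := bdd f hf
  obtain ⟨M2, hM2⟩ := bdd _ (tp i)
  obtain ⟨M3, hM3⟩ := bdd _ (tp j)
  obtain ⟨M4, hM4⟩ := bdd _ (QWE.GamEx.test_pd (tp i) j)
  set M : ℝ := 1 + |M1| + |M2| + |M3| + |M4| with hM
  have a1 := abs_nonneg M1
  have a2 := abs_nonneg M2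
  have a3 := abs_nonneg M3
  have a4 := abs_nonneg M4
  obtain ⟨D, hD, hpt⟩ := pt hb hC (M := M) (by linarith) h1 h2
  obtain ⟨C2, hC2, -, hlin, hth⟩ := fldP (sig b) hs
  obtain ⟨C3, hC3, -, hlinD, hthD⟩ := fldD (sig b) hsp.le hs1
  refine ⟨D, hD, fun k => ?_⟩
  filter_upwards [U_add fldP hs (Theta (sig b) f g) k, DU_add fldP hs (Theta (sig b) f g) k i,
    DU_add fldP hs (Theta (sig b) f g) k j, DDU_add fldD hsp.le hs1 (Theta (sig b) f g) k i j,
    (hth f g hf hg).1, (hth f g hf hg).2.2 i, (hth f g hf hg).2.2 j, hthD f g i j hf hg]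
    with x x1 x2 x3 x4 x5 x6 x7 x8
  unfold HH
  rw [x1, x2, x3, x4, x5, x6, x7, x8]
  by_cases hx : x ∈ Metric.ball (0 : E) m
  · have p1 := hpt (f x) (pd i f x) (pd j f x) (pd j (pd i f) x) (U (sig b) k x) (DU (sig b) k i x)
      (DU (sig b) k j x) (DDU (sig b) k i j x) ((hM1 x).trans (by linarith [le_abs_self M1]))
      ((hM2 x).trans (by linarith [le_abs_self M2])) ((hM3 x).trans (by linarith [le_abs_self M3]))
      ((hM4 x).trans (by linarith [le_abs_self M4]))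
    refine p1.trans (mul_le_mul_of_nonneg_left ?_ hD)
    refine le_trans (le_of_eq ?_) (le_abs_self _)
    unfold TT
    simp only [Set.indicator_of_mem hx]
  · have hx' : x ∉ tsupport f := fun h => hx (hm h)
    have z1 : f x = 0 := image_eq_zero_of_notMem_tsupport hx'
    have z2 : ∀ i, pd i f x = 0 := fun i =>
      image_eq_zero_of_notMem_tsupport fun h => hx' (tsupport_fderiv_apply_subset ℝ _ h)
    have z3 : pd j (pd i f) x = 0 :=
      image_eq_zero_of_notMem_tsupport fun h =>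
        hx' (tsupport_fderiv_apply_subset ℝ _ (tsupport_fderiv_apply_subset ℝ _ h))
    rw [z1, z2, z2, z3, zero_add, zero_add, zero_add, zero_add]
    refine le_trans (le_of_eq ?_) (mul_nonneg hD (abs_nonneg _))
    simp

end QstBx

open QstBx NLdx

theorem thm_QstB (npq : St_Npq) (gamQ : St_GamQ) (nlg : St_NLg) (nlh : St_NLh) (nld : St_NLd)
    (gnk : St_GNk) (fldP : St_FldP) (fldD : St_FldD) (locI : St_LocI) (locC : St_LocC)
    (dns : St_DnsP) : St_QstB := by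
  intro b hb f g hf hg
  have hb2 : 2 < b := by linarith
  obtain ⟨m0, hm0⟩ := (hf.2.isCompact.isBounded).subset_ball (0 : E)
  set m : ℝ := max m0 0 with hm
  have hmm : tsupport f ⊆ Metric.ball (0 : E) m := hm0.trans (Metric.ball_subset_ball (le_max_left _ _))
  have hm1 : 0 ≤ m := le_max_right _ _
  obtain ⟨⟨C0, hC0, hl0⟩, -⟩ := locC b m hb2
  have hl : ∃ D : ℝ≥0∞, D ≠ ⊤ ∧ ∀ k, loc b m k ≤ D * ‖k‖ₑ :=
    ⟨ENNReal.ofReal C0, ENNReal.ofReal_ne_top, fun k => (hl0 k k).1⟩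
  obtain ⟨D, hD, hbd⟩ := bdH dns fldP gamQ nlg nlh hb
  have hij : ∀ i j : Fin 5, Good b m (fun k => N (10 / (7 - 2 * sig b)) (fun x =>
      HH b (Theta (sig b) f g + k) i j x - HH b (Theta (sig b) f g) i j x - HH b k i j x)) := by
    intro i j
    obtain ⟨D', hD', hp⟩ := bdP npq fldP fldD hb hf hg hmm i j
    exact (fam fldP fldD nld gnk locI hb hm1 hl i j).bd.le ⟨ENNReal.ofReal D', ENNReal.ofReal_ne_top,
      fun k _ => N_le (hp k)⟩
  have hG : Good b m (fun k => ‖NL b (Theta (sig b) f g + k) - NL b (Theta (sig b) f g) - NL b k‖ₑ) :=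
    (Good.sum hl Finset.univ fun i => Good.sum hl Finset.univ fun j => hij i j).le ⟨D, hD, fun k hk =>
      hbd _ k (sn_Theta fldP hb2 hf hg) hk⟩
  obtain ⟨θ, hθ, C, n, hC, hn, h⟩ := hG
  refine ⟨C.toReal + 1, θ, m, n, by positivity, hθ, hm1, hn, fun k hk => (h k hk).trans ?_⟩
  gcongr ?_ * loc b m k ^ θ * (1 + sn b k) ^ (b - 1) * (1 + ‖k‖ₑ) ^ n
  calc C = ENNReal.ofReal C.toReal := (ENNReal.ofReal_toReal hC).symm
    _ ≤ _ := ENNReal.ofReal_le_ofReal (by linarith)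

end Pool.Agent.QWP
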