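import Pool.Agent.QWP.StG
import Pool.Agent.QWE.RSob

set_option autoImplicit false

/-!
# QWP, RSobK: refined Sobolev inequality on `K`
-/

open MeasureTheory Filter Topology Set
open scoped ENNReal NNReal RealInnerProductSpace

namespace Pool.Agent.QWP

open Pool.Agent.QWE (E S sg mu K toK tau sh dl rev gr ig IsTest pd lap Rad dRad Rk dRk c0 WD Sm SmE IsSch half shr WTo resc)
open Pool.Agent.QWE.RSobx (qmp ig_sub ig_norm)

namespace RSobKx

lemma ig_U (hAct : St_ActP) {s : ℝ} (hs : |s| < 1 / 2) (y : E) (a : ℝ) (k : K) :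
    U s (ig y a k) =ᵐ[volume] fun x =>
      Real.exp (-((1 / 2 - s) * a)) * U s k (y + Real.exp (-a) • x) := by
  have h := ((hAct s hs).1 (-(Real.exp a • y)) (-a) k).1
  filter_upwards [h] with x hx
  have e : U s (ig y a k) x = U s (gr (-(Real.exp a • y)) (-a) k) x := rfl
  rw [e, hx, sub_neg_eq_add, smul_add, smul_smul, ← Real.exp_add, neg_add_cancel,
    Real.exp_zero, one_smul, add_comm (Real.exp (-a) • x), mul_neg]

lemma inn (hAct : St_ActP) (hFld : St_FldP) {s : ℝ} (hs : |s| < 1 / 2) {ψ : E → ℝ}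
    (hψ : IsSch ψ) {f g : E → ℝ} (hf : IsTest f) (hg : IsTest g) (y : E) (a : ℝ) :
    inner ℝ (ig y a (Theta s f g)) (Rs s ψ) =
      Real.exp (-((1 / 2 - s) * a)) * ∫ z, f (y + Real.exp (-a) • z) * ψ z := by
  obtain ⟨C, -, h2, -, h3⟩ := hFld s hs
  rw [← ((h2 (ig y a (Theta s f g))).2.2.2.2.2 ψ hψ).1, ← integral_const_mul]
  refine integral_congr_ae ?_
  have h1 := (qmp y (Real.exp_pos (-a)).ne').ae (h3 f g hf hg).1
  filter_upwards [ig_U hAct hs y a (Theta s f g), h1] with x hx hx'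
  rw [hx, hx', mul_assoc]

lemma hyp (hAct : St_ActP) (hFld : St_FldP) {s : ℝ} (hs : |s| < 1 / 2) {ψ : E → ℝ}
    (hψ : IsSch ψ) {f g : E → ℝ} (hf : IsTest f) (hg : IsTest g) {k : K} {B ε : ℝ}
    (hB : ∀ (y : E) (a : ℝ), |inner ℝ (ig y a k) (Rs s ψ)| ≤ B) (hε : ‖k - Theta s f g‖ ≤ ε)
    (x : E) (l : ℝ) (hl : 0 < l) :
    |∫ z, f (x + l⁻¹ • z) * ψ z| ≤ (B + ε * ‖Rs s ψ‖) * l ^ ((5 - 2 * (2 + s)) / 2) := by
  have h1 := inn hAct hFld hs hψ hf hg x (Real.log l)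
  have e1 : Real.exp (-Real.log l) = l⁻¹ := by rw [Real.exp_neg, Real.exp_log hl]
  have e2 : Real.exp (-((1 / 2 - s) * Real.log l)) = (l ^ ((5 - 2 * (2 + s)) / 2))⁻¹ := by
    rw [Real.exp_neg, Real.rpow_def_of_pos hl]
    congr 2
    ring
  rw [e1, e2] at h1
  have hp : 0 < l ^ ((5 - 2 * (2 + s)) / 2) := Real.rpow_pos_of_pos hl _
  have h2 : ∫ z, f (x + l⁻¹ • z) * ψ z = l ^ ((5 - 2 * (2 + s)) / 2) *
      inner ℝ (ig x (Real.log l) (Theta s f g)) (Rs s ψ) := by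
    rw [h1, ← mul_assoc, mul_inv_cancel₀ hp.ne', one_mul]
  have h3 : inner ℝ (ig x (Real.log l) (Theta s f g)) (Rs s ψ) =
      inner ℝ (ig x (Real.log l) k) (Rs s ψ) -
        inner ℝ (ig x (Real.log l) (k - Theta s f g)) (Rs s ψ) := by
    rw [ig_sub, inner_sub_left, sub_sub_cancel]
  have h4 : |inner ℝ (ig x (Real.log l) (k - Theta s f g)) (Rs s ψ)| ≤ ε * ‖Rs s ψ‖ := by
    refine (abs_real_inner_le_norm _ _).trans ?_
    rw [ig_norm]
    exact mul_le_mul_of_nonneg_right hε (norm_nonneg _)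
  rw [h2, abs_mul, abs_of_pos hp, mul_comm]
  refine mul_le_mul_of_nonneg_right ?_ hp.le
  rw [h3]
  exact (abs_sub _ _).trans (add_le_add (hB _ _) h4)

lemma hs_nonneg (a : ℝ) (f : E → ℝ) : 0 ≤ hs a f :=
  integral_nonneg fun ξ => mul_nonneg (Real.rpow_nonneg (by positivity) _) (by positivity)

lemma test_sch {φ : E → ℝ} (h : IsTest φ) : IsSch φ :=
  ⟨h.2.toSchwartzMap h.1, fun _ => rfl⟩

lemma lapL (hIso : St_IsoP) {s : ℝ} (hs' : |s| < 1 / 2) {f g : E → ℝ} (hf : IsTest f)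
    (hg : IsTest g) :
    c0 * hs (2 + s) f ≤ ‖Theta s f g‖ ^ 2 := by
  have hc : 0 < c0 := by
    unfold Pool.Agent.QWE.c0
    positivity
  have h := (hIso s f g hs' (test_sch hf) (test_sch hg)).2.2.2.2.2.2.1
  rw [h]
  refine mul_le_mul_of_nonneg_left ?_ hc.le
  have := hs_nonneg (1 + s) g
  linarith

lemma pw {s : ℝ} (hs : |s| < 1 / 2) {a b c : ℝ} (ha : 0 ≤ a) (hb : 0 ≤ b) (hc : 0 ≤ c) :
    (a * b ^ (4 * (2 + s) / (5 - 2 * (2 + s))) * c ^ (2 : ℕ)) ^ ((1 - 2 * s) / 10) =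
      a ^ ((1 - 2 * s) / 10) * b ^ (1 - (1 - 2 * s) / 5) * c ^ ((1 - 2 * s) / 5) := by
  obtain ⟨h1, h2⟩ := abs_lt.1 hs
  have h3 : (5 - 2 * (2 + s)) ≠ 0 := by linarith
  have h4 : 4 * (2 + s) / (5 - 2 * (2 + s)) * ((1 - 2 * s) / 10) = 1 - (1 - 2 * s) / 5 := by
    field_simp
    ring
  rw [Real.mul_rpow (by positivity) (by positivity), Real.mul_rpow ha (by positivity),
    ← Real.rpow_mul hb, ← Real.rpow_natCast_mul hc, h4]
  congr 2
  push_cast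
  ring

lemma q0_one {s : ℝ} (hs : |s| < 1 / 2) : 1 ≤ q0 s := by
  obtain ⟨h1, h2⟩ := abs_lt.1 hs
  unfold q0
  rw [ENNReal.one_le_ofReal, le_div_iff₀ (by linarith)]
  linarith

theorem main (hAct : St_ActP) (hFld : St_FldP) (hIso : St_IsoP) {s : ℝ} (hs' : |s| < 1 / 2)
    {ψ : E → ℝ} (hψ : IsSch ψ) {C0 : ℝ} (hC0 : 0 < C0)
    (hT : ∀ (f : E → ℝ), IsSch f → ∀ (B : ℝ), 0 ≤ B →
      (∀ (x : E) (l : ℝ), 0 < l →
        |∫ z, f (x + l⁻¹ • z) * ψ z| ≤ B * l ^ ((5 - 2 * (2 + s)) / 2)) →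
      ∫ x, |f x| ^ (10 / (5 - 2 * (2 + s))) ≤
        C0 * B ^ (4 * (2 + s) / (5 - 2 * (2 + s))) * hs (2 + s) f)
    {f g : E → ℝ} (hf : IsTest f) (hg : IsTest g) {k : K} {B ε : ℝ} (hB0 : 0 ≤ B) (hε0 : 0 ≤ ε)
    (hB : ∀ (y : E) (a : ℝ), |inner ℝ (ig y a k) (Rs s ψ)| ≤ B) (hε : ‖k - Theta s f g‖ ≤ ε) :
    eLpNorm (U s (Theta s f g)) (q0 s) volume ≤ ENNReal.ofReal
      ((C0 / c0) ^ ((1 - 2 * s) / 10) * (B + ε * ‖Rs s ψ‖) ^ (1 - (1 - 2 * s) / 5) *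
        (‖k‖ + ε) ^ ((1 - 2 * s) / 5)) := by
  have hc : 0 < c0 := by
    unfold Pool.Agent.QWE.c0
    positivity
  obtain ⟨s1, s2⟩ := abs_lt.1 hs'
  have hs3 : 0 < 1 - 2 * s := by linarith
  obtain ⟨C, -, h, -, h0⟩ := hFld s hs'
  have hae : U s (Theta s f g) =ᵐ[volume] f := (h0 f g hf hg).1
  have hm : MemLp (U s (Theta s f g)) (q0 s) volume := (h (Theta s f g)).1.1
  have hm' : MemLp f (q0 s) volume := (memLp_congr_ae hae).1 hm
  have hBn : 0 ≤ B + ε * ‖Rs s ψ‖ := by positivity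
  have h1 := hT f (test_sch hf) (B + ε * ‖Rs s ψ‖) hBn (hyp hAct hFld hs' hψ hf hg hB hε)
  have h2 := lapL hIso hs' hf hg
  have h3 : ‖Theta s f g‖ ≤ ‖k‖ + ε := by
    have := norm_sub_norm_le (Theta s f g) k
    rw [norm_sub_rev] at this
    linarith
  have hq : 10 / (5 - 2 * (2 + s)) = 10 / (1 - 2 * s) := by
    congr 1
    ring
  have h4 : ∫ x, |f x| ^ (10 / (1 - 2 * s)) ≤
      C0 / c0 * (B + ε * ‖Rs s ψ‖) ^ (4 * (2 + s) / (5 - 2 * (2 + s))) * (‖k‖ + ε) ^ (2 : ℕ) := by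
    rw [← hq]
    refine h1.trans ?_
    have h5 : hs (2 + s) f ≤ (‖k‖ + ε) ^ 2 / c0 := by
      rw [le_div_iff₀ hc, mul_comm]
      exact h2.trans (pow_le_pow_left₀ (norm_nonneg _) h3 2)
    calc C0 * (B + ε * ‖Rs s ψ‖) ^ (4 * (2 + s) / (5 - 2 * (2 + s))) * hs (2 + s) f
        ≤ C0 * (B + ε * ‖Rs s ψ‖) ^ (4 * (2 + s) / (5 - 2 * (2 + s))) * ((‖k‖ + ε) ^ 2 / c0) := by
          gcongr
      _ = C0 / c0 * (B + ε * ‖Rs s ψ‖) ^ (4 * (2 + s) / (5 - 2 * (2 + s))) * (‖k‖ + ε) ^ (2 : ℕ) := by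
          ring
  have hq0 : (q0 s).toReal = 10 / (1 - 2 * s) := by
    unfold q0
    exact ENNReal.toReal_ofReal (by positivity)
  have hq1 : q0 s ≠ 0 := (zero_lt_one.trans_le (q0_one hs')).ne'
  rw [eLpNorm_congr_ae hae, hm'.eLpNorm_eq_integral_rpow_norm hq1 ENNReal.ofReal_ne_top]
  refine ENNReal.ofReal_le_ofReal ?_
  rw [← pw hs' (by positivity) hBn (by positivity), hq0, inv_div]
  refine Real.rpow_le_rpow (integral_nonneg fun x => by positivity) ?_ (by positivity)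
  simp only [Real.norm_eq_abs]
  exact h4

end RSobKx

open RSobKx in
theorem thm_RSobK (hRSob : St_RSob) (hDns : St_DnsP) (hFld : St_FldP) (hAct : St_ActP)
    (hIso : St_IsoP) : St_RSobK := by
  intro s ψ hs' hψ
  obtain ⟨s1, s2⟩ := abs_lt.1 hs'
  have hs3 : 0 < 1 - 2 * s := by linarith
  obtain ⟨C0, hC0, hT⟩ := hRSob (2 + s) ψ (by linarith) (by linarith) hψ.1 hψ.2.1 hψ.2.2.1
    hψ.2.2.2.1
  obtain ⟨Cf, hCf, hF, hL, -⟩ := hFld s hs'
  have hc : 0 < c0 := by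
    unfold Pool.Agent.QWE.c0
    positivity
  refine ⟨(C0 / c0) ^ ((1 - 2 * s) / 10), by positivity, ?_⟩
  intro k B hB0 hB
  have key : ∀ ε : ℝ, 0 < ε → eLpNorm (U s k) (q0 s) volume ≤ ENNReal.ofReal (Cf * ε +
      (C0 / c0) ^ ((1 - 2 * s) / 10) * (B + ε * ‖Rs s ψ‖) ^ (1 - (1 - 2 * s) / 5) *
        (‖k‖ + ε) ^ ((1 - 2 * s) / 5)) := by
    intro ε hε
    obtain ⟨f, g, hf, hg, hfg⟩ := (hDns s hs').2.1 k ε hε
    have h1 := main hAct hFld hIso hs' hψ.1 hC0 (fun f hf => (hT f hf).1) hf hg hB0 hε.le hB hfg.le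
    have h2 : U s k =ᵐ[volume] fun x => U s (Theta s f g) x + 1 * U s (k - Theta s f g) x := by
      have := (hL 1 (Theta s f g) (k - Theta s f g)).1
      rwa [one_smul, add_sub_cancel] at this
    have h3 : eLpNorm (U s k) (q0 s) volume ≤
        eLpNorm (U s (Theta s f g)) (q0 s) volume +
          eLpNorm (U s (k - Theta s f g)) (q0 s) volume := by
      rw [eLpNorm_congr_ae h2]
      have h4 : (fun x => U s (Theta s f g) x + 1 * U s (k - Theta s f g) x) =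
          U s (Theta s f g) + U s (k - Theta s f g) := by
        funext x
        rw [one_mul]
        rfl
      rw [h4]
      exact eLpNorm_add_le (hF _).1.1.1 (hF _).1.1.1 (q0_one hs')
    have h4 : eLpNorm (U s (k - Theta s f g)) (q0 s) volume ≤ ENNReal.ofReal (Cf * ε) := by
      refine (hF _).2.1.trans ?_
      rw [ENNReal.ofReal_mul hCf.le, ← ofReal_norm]
      gcongr
    refine h3.trans ((add_le_add h1 h4).trans ?_)
    rw [add_comm, ENNReal.ofReal_add (by positivity) (by positivity)]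
  have p1 : 0 ≤ 1 - (1 - 2 * s) / 5 := by linarith
  have p2 : 0 ≤ (1 - 2 * s) / 5 := by linarith
  have hcont : ContinuousAt (fun ε : ℝ => ENNReal.ofReal (Cf * ε +
      (C0 / c0) ^ ((1 - 2 * s) / 10) * (B + ε * ‖Rs s ψ‖) ^ (1 - (1 - 2 * s) / 5) *
        (‖k‖ + ε) ^ ((1 - 2 * s) / 5))) 0 := by
    refine ENNReal.continuous_ofReal.continuousAt.comp ?_
    refine ContinuousAt.add (by fun_prop)
      (ContinuousAt.mul (ContinuousAt.mul continuousAt_const ?_) ?_)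
    · exact ContinuousAt.rpow_const (by fun_prop) (Or.inr p1)
    · exact ContinuousAt.rpow_const (by fun_prop) (Or.inr p2)
  have hlim := hcont.tendsto.mono_left (nhdsWithin_le_nhds (s := Ioi (0 : ℝ)))
  simp only [mul_zero, zero_mul, add_zero, zero_add] at hlim
  exact ge_of_tendsto hlim (by
    filter_upwards [self_mem_nhdsWithin] with ε hε
    exact key ε hε)

end Pool.Agent.QWP
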