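import Pool.Agent.QWP.StG
import Pool.Agent.QWE.SNc

set_option autoImplicit false

/-!
# QWP, SNc: elementary facts on solutions and `SN b`
-/

open MeasureTheory Filter Topology Set
open scoped ENNReal NNReal RealInnerProductSpace

namespace Pool.Agent.QWP

open Pool.Agent.QWE (E S sg mu K toK tau sh dl rev gr ig IsTest pd lap Rad dRad Rk dRk c0 WD Sm SmE IsSch half shr WTo resc)
open Pool.Agent.QWE.SNcx (exhaust nhds_Icc)

namespace SNcx

lemma tend {b : ℝ} {I : Set ℝ} {k : ℝ → K} (h : IsSol b I k) {t : ℝ} (ht : t ∈ I) :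
    Tendsto (fun s => SN b (uIcc t s) k) (𝓝[I] t) (𝓝 0) := by
  obtain ⟨c, hc, d, hd, hct, htd, hn⟩ := nhds_Icc ht
  have h1 : SN b (Icc c d) k ≠ ⊤ := (h.2.2.1 c hc d hd).ne
  have h2 : Tendsto ((volume.restrict (Icc c d)) ∘ fun s => uIcc t s) (𝓝[I] t) (𝓝 0) := by
    have h3 : Tendsto (fun s : ℝ => ENNReal.ofReal |s - t|) (𝓝[I] t) (𝓝 0) := by
      have h4 : Continuous fun s : ℝ => ENNReal.ofReal |s - t| :=
        ENNReal.continuous_ofReal.comp (by fun_prop)
      have h5 := (h4.tendsto t).mono_left (nhdsWithin_le_nhds (s := I))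
      simpa using h5
    refine tendsto_of_tendsto_of_tendsto_of_le_of_le tendsto_const_nhds h3
      (fun s => bot_le) fun s => ?_
    refine (Measure.restrict_apply_le _ _).trans ?_
    rw [Real.volume_interval]
  have h3 := tendsto_setLIntegral_zero h1 h2
  refine h3.congr' ?_
  filter_upwards [hn] with s hs
  have h4 : uIcc t s ⊆ Icc c d := uIcc_subset_Icc ⟨hct, htd⟩ hs
  rw [Measure.restrict_restrict_of_subset h4]
  rfl

lemma SN_add (b : ℝ) (k : ℝ → K) (x y z : ℝ) (hab : x ≤ y) (hbc : y ≤ z) :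
    SN b (Icc x z) k = SN b (Icc x y) k + SN b (Icc y z) k := by
  unfold SN
  rw [← Icc_union_Ioc_eq_Icc hab hbc,
    lintegral_union measurableSet_Ioc (by
      rw [Set.disjoint_left]
      intro w hx hx'
      exact absurd hx.2 (not_le.2 hx'.1)), Measure.restrict_congr_set (Ioc_ae_eq_Icc (a := y) (b := z))]

lemma zero_sol (hS : St_SnP) (hN : St_NLb) {b : ℝ} (hb : 2 < b) {I : Set ℝ}
    (hI : I.OrdConnected) : IsSol b I (fun _ => 0) := by
  obtain ⟨-, -, -, -, hsn, -⟩ := hS b hb
  have hNL : NL b 0 = 0 := by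
    obtain ⟨C, -, h1, -⟩ := (hN b hb).1
    have h2 := h1 0
    rw [enorm_zero, mul_zero] at h2
    exact enorm_eq_zero.1 (le_antisymm h2 bot_le)
  have hb0 : (0 : ℝ) < b := by linarith
  refine ⟨hI, continuousOn_const, ?_, ?_⟩
  · intro x _ y _
    simp [SN, hsn, ENNReal.zero_rpow_of_pos hb0]
  · intro x _ t _
    simp [hNL]

end SNcx

open SNcx in
theorem thm_SNc (hS : St_SnP) (hN : St_NLb) (hU : St_Uniq) : St_SNc := by
  intro b hb
  have hres : ∀ (I I' : Set ℝ) (k : ℝ → K), IsSol b I k → I' ⊆ I → I'.OrdConnected →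
      IsSol b I' k := fun I I' k h hs hc =>
    ⟨hc, h.2.1.mono hs, fun x hx y hy => h.2.2.1 x (hs hx) y (hs hy),
      fun s h1 t ht => h.2.2.2 s (hs h1) t (hs ht)⟩
  have hex : ∀ (I : Set ℝ) (k : ℝ → K) (r : ℝ≥0∞), IsSol b I k → r < SN b I k →
      ∃ s ∈ I, ∃ t ∈ I, s ≤ t ∧ r < SN b (Icc s t) k := fun I k r h hr => exhaust h.1 _ r hr
  refine ⟨hres, hex, ?_, ?_, SN_add b, ?_⟩
  · intro I k s r h hs hr
    obtain ⟨s', hs', t, ht, hst, h1⟩ := hex (I ∩ Ici s) k r
      (hres I _ k h inter_subset_left (h.1.inter ordConnected_Ici)) hr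
    exact ⟨t, ht.1, ht.2, h1.trans_le (lintegral_mono_set (Icc_subset_Icc_left hs'.2))⟩
  · intro I k s h hs
    have hfin : ∀ x ∈ I, ∀ y ∈ I, SN b (Icc x y) k ≠ ⊤ := fun x hx y hy => (h.2.2.1 x hx y hy).ne
    constructor
    · intro t ht
      unfold ContinuousWithinAt
      rw [tendsto_iff_dist_tendsto_zero]
      have h1 := (tend h ht.1).mono_left (nhdsWithin_mono t (inter_subset_left (s := I) (t := Ici s)))
      have h2 := (ENNReal.tendsto_toReal ENNReal.zero_ne_top).comp h1
      rw [ENNReal.toReal_zero] at h2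
      refine h2.congr' ?_
      filter_upwards [self_mem_nhdsWithin] with t' ht'
      rw [Function.comp_apply, Real.dist_eq]
      rcases le_total t t' with h3 | h3
      · rw [uIcc_of_le h3, SN_add b k s t t' ht.2 h3, ENNReal.toReal_add (hfin s hs t ht.1)
          (hfin t ht.1 t' ht'.1), add_sub_cancel_left, abs_of_nonneg ENNReal.toReal_nonneg]
      · rw [uIcc_of_ge h3, SN_add b k s t' t ht'.2 h3, ENNReal.toReal_add (hfin s hs t' ht'.1)
          (hfin t' ht'.1 t ht.1), abs_sub_comm, add_sub_cancel_left,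
          abs_of_nonneg ENNReal.toReal_nonneg]
    · intro t ht
      unfold ContinuousWithinAt
      rw [tendsto_iff_dist_tendsto_zero]
      have h1 := (tend h ht.1).mono_left (nhdsWithin_mono t (inter_subset_left (s := I) (t := Iic s)))
      have h2 := (ENNReal.tendsto_toReal ENNReal.zero_ne_top).comp h1
      rw [ENNReal.toReal_zero] at h2
      refine h2.congr' ?_
      filter_upwards [self_mem_nhdsWithin] with t' ht'
      rw [Function.comp_apply, Real.dist_eq]
      rcases le_total t t' with h3 | h3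
      · rw [uIcc_of_le h3, SN_add b k t t' s h3 ht'.2, ENNReal.toReal_add (hfin t ht.1 t' ht'.1)
          (hfin t' ht'.1 s hs), abs_sub_comm, add_sub_cancel_right,
          abs_of_nonneg ENNReal.toReal_nonneg]
      · rw [uIcc_of_ge h3, SN_add b k t' t s h3 ht.2, ENNReal.toReal_add (hfin t' ht'.1 t ht.1)
          (hfin t ht.1 s hs), add_sub_cancel_right, abs_of_nonneg ENNReal.toReal_nonneg]
  · intro I k s h hs h0 t ht
    exact hU b hb I I k (fun _ => 0) s h (zero_sol hS hN hb h.1) hs hs h0 t ht ht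

end Pool.Agent.QWP
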