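import Pool.Agent.QWP.StB

/-!
# QWP / SNt: triangle inequality and sign invariance of the Strichartz norm (helper18)
-/

set_option autoImplicit false

open MeasureTheory Filter Topology Set
open scoped ENNReal NNReal

namespace Pool.Agent.QWP

open Pool.Agent.QWE (E S sg mu K toK tau sh dl rev gr ig IsTest pd lap Rad dRad Rk dRk c0 WD Sm SmE IsSch half shr WTo)

namespace SNtx

theorem abs_sig {b : ℝ} (hb : 2 < b) : |sig b| < 1 / 2 := by
  have h0 : 0 < b := by linarith
  have h1 : 0 < 2 / b := by positivity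
  have h2 : 2 / b < 1 := by rwa [div_lt_one h0]
  unfold sig
  rw [abs_lt]
  constructor <;> linarith

section

variable {s : ℝ} (hadd : ∀ (c : ℝ) (k k' : K), U s (k + c • k') =ᵐ[volume] fun x => U s k x + c * U s k' x)

include hadd

theorem U_add (k k' : K) : U s (k + k') =ᵐ[volume] U s k + U s k' := by
  have h := hadd 1 k k'
  rw [one_smul] at h
  filter_upwards [h] with x hx
  rw [hx, Pi.add_apply, one_mul]

theorem U_zero : U s 0 =ᵐ[volume] (0 : E → ℝ) := by
  have h := U_add hadd 0 0
  rw [add_zero] at h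
  filter_upwards [h] with x hx
  rw [Pi.add_apply] at hx
  rw [Pi.zero_apply]
  linarith

theorem U_neg (k : K) : U s (-k) =ᵐ[volume] -U s k := by
  have h := hadd (-1) 0 k
  rw [neg_one_smul, zero_add] at h
  filter_upwards [h, U_zero hadd] with x hx h0
  rw [hx, h0, Pi.neg_apply, Pi.zero_apply]
  ring

end

end SNtx

open SNtx in
theorem thm_SNt (hF : St_FldP) (hM : St_Meas) : St_SNt := by
  intro b hb k k' J hJ hk hk'
  obtain ⟨C, -, hC, hL, -⟩ := hF (sig b) (abs_sig hb)
  have hFm : ∀ k : K, AEStronglyMeasurable (U (sig b) k) volume := fun k => (hC k).1.1.1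
  have hadd : ∀ (c : ℝ) (k k' : K),
      U (sig b) (k + c • k') =ᵐ[volume] fun x => U (sig b) k x + c * U (sig b) k' x :=
    fun c k k' => (hL c k k').1
  have sn_neg : ∀ k : K, sn b (-k) = sn b k := by
    intro k
    unfold sn
    rw [eLpNorm_congr_ae (U_neg hadd k), eLpNorm_neg]
  have h5 : (1 : ℝ≥0∞) ≤ ENNReal.ofReal (5 * b) := by
    rw [← ENNReal.ofReal_one]
    exact ENNReal.ofReal_le_ofReal (by linarith)
  have sn_add : ∀ k k' : K, sn b (k + k') ≤ sn b k + sn b k' := by
    intro k k'
    unfold sn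
    rw [eLpNorm_congr_ae (U_add hadd k k')]
    exact eLpNorm_add_le (hFm k) (hFm k') h5
  have hm := (hM b hb k J hJ hk).1
  have hm' := (hM b hb k' J hJ hk').1
  constructor
  · have h1 : SN b J (fun t => k t + k' t) ≤ ∫⁻ t in J, (sn b (k t) + sn b (k' t)) ^ b := by
      unfold SN
      refine lintegral_mono fun t => ?_
      exact ENNReal.rpow_le_rpow (sn_add (k t) (k' t)) (by linarith)
    have h2 := ENNReal.lintegral_Lp_add_le (μ := volume.restrict J) (p := b) hm hm' (by linarith)
    simp only [Pi.add_apply] at h2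
    refine le_trans (ENNReal.rpow_le_rpow h1 (by positivity)) ?_
    exact h2
  · unfold SN
    simp only [sn_neg]

end Pool.Agent.QWP
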