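import Pool.Agent.QWP.StA2

set_option autoImplicit false

/-!
# QWP: properties of the size `sn b`
-/

open MeasureTheory Filter Topology Set
open scoped ENNReal NNReal RealInnerProductSpace

namespace Pool.Agent.QWP

open Pool.Agent.QWE (E S sg mu K toK tau sh dl rev gr ig IsTest pd lap Rad dRad Rk dRk c0 WD Sm SmE IsSch half shr WTo)

namespace SnPx

private lemma sig_lt {b : ℝ} (hb : 2 < b) : |sig b| < 1 / 2 := by
  have h1 : 0 < 2 / b := by positivity
  have h2 : 2 / b < 1 := by rw [div_lt_one (by linarith)]; exact hb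
  rw [sig, abs_lt]
  constructor <;> linarith

/-- scaling of the norm -/
private lemma scale (f : E → ℝ) (hf : AEStronglyMeasurable f volume) (y : E) (a c p : ℝ)
    (hc : 0 ≤ c) (hp : 1 ≤ p) :
    eLpNorm (fun x => c * f (Real.exp a • (x - y))) (ENNReal.ofReal p) volume =
      ENNReal.ofReal (c * Real.exp (-(5 * a / p))) * eLpNorm f (ENNReal.ofReal p) volume := by
  have hp0 : ENNReal.ofReal p ≠ 0 := by
    rw [Ne, ENNReal.ofReal_eq_zero]; linarith
  have e1 : (fun x => c * f (Real.exp a • (x - y))) = c • fun x => f (Real.exp a • (x - y)) := rfl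
  rw [e1, eLpNorm_const_smul, Real.enorm_eq_ofReal hc, ENNReal.ofReal_mul hc, mul_assoc]
  congr 1
  have hmp : MeasurePreserving (fun x : E => x - y) volume volume :=
    measurePreserving_sub_right volume y
  have hmap : Measure.map (fun x : E => Real.exp a • x) volume =
      ENNReal.ofReal (Real.exp (-(5 * a))) • (volume : Measure E) := by
    have h1 := Measure.map_addHaar_smul (volume : Measure E) (Real.exp_pos a).ne'
    have h2 : (fun x : E => Real.exp a • x) = (Real.exp a • · : E → E) := rfl
    rw [h2, h1]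
    congr 2
    have h3 : Module.finrank ℝ E = 5 := by simp [Pool.Agent.QWE.E]
    rw [h3, abs_of_pos (by positivity), ← Real.exp_nat_mul, ← Real.exp_neg]
    norm_num
  have hqm : Measure.map (fun x : E => Real.exp a • x) volume ≪ (volume : Measure E) := by
    rw [hmap]; exact Measure.smul_absolutelyContinuous
  have hg : AEStronglyMeasurable (fun x : E => f (Real.exp a • x)) volume :=
    hf.comp_quasiMeasurePreserving ⟨by fun_prop, hqm⟩
  have h4 : eLpNorm (fun x : E => f (Real.exp a • (x - y))) (ENNReal.ofReal p) volume =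
      eLpNorm (fun x : E => f (Real.exp a • x)) (ENNReal.ofReal p) volume :=
    eLpNorm_comp_measurePreserving hg hmp
  rw [h4]
  have h5 : eLpNorm (f ∘ fun x : E => Real.exp a • x) (ENNReal.ofReal p) volume =
      eLpNorm f (ENNReal.ofReal p) (Measure.map (fun x : E => Real.exp a • x) volume) := by
    rw [eLpNorm_map_measure (hf.mono_ac hqm) (by fun_prop)]
  have h6 : (fun x : E => f (Real.exp a • x)) = f ∘ fun x : E => Real.exp a • x := rfl
  rw [h6, h5, hmap, eLpNorm_smul_measure_of_ne_top ENNReal.ofReal_ne_top, smul_eq_mul]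
  congr 1
  rw [ENNReal.toReal_div, ENNReal.toReal_one, ENNReal.toReal_ofReal (by linarith),
    ENNReal.ofReal_rpow_of_pos (Real.exp_pos _), ← Real.exp_mul]
  congr 2
  ring

end SnPx

open SnPx in
theorem thm_SnP (hFldP : St_FldP) (hActP : St_ActP) (hLscP : St_LscP) : St_SnP := by
  intro b hb
  have hs := sig_lt hb
  have hr : 1 ≤ 5 * b := by linarith
  obtain ⟨C, hC, hF, hLin, -⟩ := hFldP (sig b) hs
  obtain ⟨hA, hrev, -⟩ := hActP (sig b) hs
  have hr1 : 1 ≤ ENNReal.ofReal (5 * b) := by
    rw [← ENNReal.ofReal_one]; exact ENNReal.ofReal_le_ofReal hr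
  have hm : ∀ k : K, AEStronglyMeasurable (U (sig b) k) volume := fun k => (hF k).1.1.1
  have h0 : U (sig b) 0 =ᵐ[volume] 0 := by
    have h1 := (hLin (-1) 0 0).1
    rw [smul_zero, add_zero] at h1
    filter_upwards [h1] with x hx
    rw [Pi.zero_apply]
    linarith
  have hsm : ∀ (c : ℝ) (k : K), U (sig b) (c • k) =ᵐ[volume] c • U (sig b) k := by
    intro c k
    have h1 := (hLin c 0 k).1
    rw [zero_add] at h1
    filter_upwards [h1, h0] with x hx hx0
    rw [hx, hx0, Pi.zero_apply, zero_add, Pi.smul_apply, smul_eq_mul]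
  refine ⟨?_, ?_, ?_, ?_, ?_, ?_⟩
  · intro k k'
    have h1 : U (sig b) (k + k') =ᵐ[volume] U (sig b) k + U (sig b) k' := by
      have h2 := (hLin 1 k k').1
      rw [one_smul] at h2
      filter_upwards [h2] with x hx
      rw [hx, Pi.add_apply, one_mul]
    unfold sn
    rw [eLpNorm_congr_ae h1]
    exact eLpNorm_add_le (hm k) (hm k') hr1
  · intro c k
    unfold sn
    rw [eLpNorm_congr_ae (hsm c k), eLpNorm_const_smul]
  · intro y a k
    unfold sn
    rw [eLpNorm_congr_ae (hA y a k).1, scale _ (hm k) y a _ _ (Real.exp_pos _).le hr,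
      ← Real.exp_add]
    congr 3
    have h2 : 1 / 2 - sig b = 2 / b := by rw [sig]; ring
    have h0 : b ≠ 0 := by positivity
    rw [h2]
    field_simp
    ring
  · intro k
    unfold sn
    exact eLpNorm_congr_ae (hrev k).1
  · unfold sn
    rw [eLpNorm_congr_ae h0, eLpNorm_zero]
  · have h1 := (hLscP (sig b) (ENNReal.ofReal (5 * b)) univ hs hr1 MeasurableSet.univ).1
    simp only [indicator_univ] at h1
    exact h1

end Pool.Agent.QWP
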