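import Pool.Agent.QWP.StM

set_option autoImplicit false

/-!
# QWP SoD: dual Sobolev bound for test sources
-/

open MeasureTheory Filter Topology Set
open scoped ENNReal NNReal RealInnerProductSpace

namespace Pool.Agent.QWP

open Pool.Agent.QWE (E S sg mu K toK tau sh dl rev gr ig IsTest pd lap Rad dRad Rk dRk c0 WD Sm SmE IsSch half shr WTo)

namespace SoDx

theorem hs_nonneg (a : ℝ) (f : E → ℝ) : 0 ≤ hs a f :=
  integral_nonneg fun ξ => by positivity

/-- the square root is subadditive -/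
theorem sqrt_sum {ι : Type} (s : Finset ι) (a : ι → ℝ) (ha : ∀ i, 0 ≤ a i) :
    ENNReal.ofReal ((∑ i ∈ s, a i) ^ (1 / 2 : ℝ)) ≤ ∑ i ∈ s, ENNReal.ofReal (a i ^ (1 / 2 : ℝ)) := by
  classical
  induction s using Finset.induction_on with
  | empty => simp
  | insert i s hi ih =>
    rw [Finset.sum_insert hi, Finset.sum_insert hi]
    have h0 : 0 ≤ ∑ j ∈ s, a j := Finset.sum_nonneg fun j _ => ha j
    refine le_trans ?_ (add_le_add le_rfl ih)
    rw [← ENNReal.ofReal_rpow_of_nonneg (add_nonneg (ha i) h0) (by norm_num),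
      ← ENNReal.ofReal_rpow_of_nonneg (ha i) (by norm_num),
      ← ENNReal.ofReal_rpow_of_nonneg h0 (by norm_num), ENNReal.ofReal_add (ha i) h0]
    exact ENNReal.rpow_add_le_add_rpow _ _ (by norm_num) (by norm_num)

/-- the case `s = 0` -/
theorem zero (hH : St_Hs) {f : E → ℝ} (hf : IsSch f) :
    ENNReal.ofReal ((hs 0 f) ^ (1 / 2 : ℝ)) ≤ 1 * eLpNorm f (ENNReal.ofReal 2) volume := by
  have hm : MemLp f (ENNReal.ofReal 2) volume := by
    obtain ⟨g, hg⟩ := hf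
    have he : f = g := by
      funext x
      exact (hg x).symm
    rw [he]
    exact g.memLp _ volume
  rw [hH.1 f hf, one_mul, hm.eLpNorm_eq_integral_rpow_norm (by simp) ENNReal.ofReal_ne_top]
  refine ENNReal.ofReal_le_ofReal (le_of_eq ?_)
  rw [ENNReal.toReal_ofReal (by norm_num)]
  norm_num

/-- the bound for one function, `s ≤ 0` -/
theorem one (hH : St_Hs) (hS : St_SobP) {s : ℝ} (hs1 : -(1 / 2) < s) (hs0 : s ≤ 0) :
    ∃ C : ℝ, 0 < C ∧ ∀ f : E → ℝ, IsSch f →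
      ENNReal.ofReal ((hs s f) ^ (1 / 2 : ℝ)) ≤ ENNReal.ofReal C * eLpNorm f (q2 s) volume := by
  rcases hs0.lt_or_eq with h | h
  · obtain ⟨C, hC, h1⟩ := hS (-s) (by linarith) (by linarith)
    refine ⟨C, hC, fun f hf => ?_⟩
    have h2 := (h1 f hf).2
    rw [neg_neg, show 5 + 2 * -s = 5 - 2 * s by ring] at h2
    exact h2
  · subst h
    refine ⟨1, one_pos, fun f hf => ?_⟩
    have h2 := zero hH hf
    rw [ENNReal.ofReal_one]
    unfold q2
    rw [show (10 : ℝ) / (5 - 2 * 0) = 2 by norm_num]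
    exact h2

/-- the bound for one function, second derivatives -/
theorem two (hS : St_SobP) {s : ℝ} (hs1 : -(1 / 2) < s) (hs0 : s < 1 / 2) :
    ∃ C : ℝ, 0 < C ∧ ∀ f : E → ℝ, IsSch f →
      ENNReal.ofReal ((hs (s - 1) f) ^ (1 / 2 : ℝ)) ≤ ENNReal.ofReal C * eLpNorm f (p2 s) volume := by
  obtain ⟨C, hC, h1⟩ := hS (1 - s) (by linarith) (by linarith)
  refine ⟨C, hC, fun f hf => ?_⟩
  have h2 := (h1 f hf).2
  rw [neg_sub, show 5 + 2 * (1 - s) = 7 - 2 * s by ring] at h2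
  exact h2

end SoDx

open SoDx

/-- **SoD** -/
theorem thm_SoD (hF : St_Ft) (hH : St_Hs) (hS : St_SobP) : St_SoD := by
  intro s hsb
  obtain ⟨hs1, hs2⟩ := abs_lt.1 hsb
  obtain ⟨C2, hC2, h2⟩ := two hS hs1 hs2
  -- a constant for the first part
  obtain ⟨C1, hC1, h1⟩ : ∃ C : ℝ, 0 < C ∧ (s ≤ 0 → ∀ f : E → ℝ, IsSch f →
      ENNReal.ofReal ((hs s f) ^ (1 / 2 : ℝ)) ≤ ENNReal.ofReal C * eLpNorm f (q2 s) volume) := by
    by_cases h0 : s ≤ 0
    · obtain ⟨C, hC, h⟩ := one hH hS hs1 h0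
      exact ⟨C, hC, fun _ => h⟩
    · exact ⟨1, one_pos, fun h => absurd h h0⟩
  refine ⟨max C1 C2, lt_max_of_lt_left hC1, fun F hFt => ?_⟩
  have hF0 : IsSch F := hF.1 F hFt
  have hF1 : ∀ i, IsSch (pd i F) := (hF.2 F hF0).2.2.2.2.2.2.2.1
  have hF2 : ∀ i j, IsSch (pd j (pd i F)) := fun i => (hF.2 _ (hF1 i)).2.2.2.2.2.2.2.1
  have e1 : hs (1 + s) F = ∑ i, hs s (pd i F) := by
    rw [add_comm]
    exact (hH.2.2.2.2.2.1 s F (by linarith) hF0).symm
  have e2 : ∀ i, hs s (pd i F) = ∑ j, hs (s - 1) (pd j (pd i F)) := by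
    intro i
    rw [hH.2.2.2.2.2.1 (s - 1) (pd i F) (by linarith) (hF1 i), sub_add_cancel]
  constructor
  · intro h0
    rw [e1]
    refine (sqrt_sum _ _ fun i => hs_nonneg _ _).trans ?_
    rw [Finset.mul_sum]
    refine Finset.sum_le_sum fun i _ => (h1 h0 _ (hF1 i)).trans ?_
    exact mul_le_mul_left (ENNReal.ofReal_le_ofReal (le_max_left _ _)) _
  · rw [e1]
    refine (sqrt_sum _ _ fun i => hs_nonneg _ _).trans ?_
    rw [Finset.mul_sum]
    refine Finset.sum_le_sum fun i _ => ?_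
    rw [e2 i]
    refine (sqrt_sum _ _ fun j => hs_nonneg _ _).trans ?_
    rw [Finset.mul_sum]
    refine Finset.sum_le_sum fun j _ => (h2 _ (hF2 i j)).trans ?_
    exact mul_le_mul_left (ENNReal.ofReal_le_ofReal (le_max_right _ _)) _

end Pool.Agent.QWP
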