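import Pool.Agent.QWP.StA

set_option autoImplicit false

/-!
# QWP / SobP: Sobolev inequality and its dual
-/

open MeasureTheory Filter Topology Set
open scoped ENNReal NNReal RealInnerProductSpace FourierTransform SchwartzMap ContDiff

namespace Pool.Agent.QWP

open Pool.Agent.QWE (E S sg mu K toK tau sh dl rev gr ig IsTest pd lap Rad dRad Rk dRk c0 WD Sm SmE IsSch half shr WTo)

namespace SobPx

theorem hs_nonneg (a : ℝ) (f : E → ℝ) : 0 ≤ hs a f :=
  integral_nonneg fun ξ => by positivity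

/-- the Fourier transform of a Schwartz function is smooth -/
theorem ft_sch {φ : E → ℝ} (h : IsSch φ) : ∃ Φ : 𝓢(E, ℂ), ∀ ξ, ft φ ξ = Φ ξ := by
  obtain ⟨f, hf⟩ := h
  have hg : ∀ x, (f.postcompCLM Complex.ofRealCLM) x = (φ x : ℂ) := by
    intro x
    rw [SchwartzMap.postcompCLM_apply, hf x]
    rfl
  refine ⟨𝓕 (f.postcompCLM Complex.ofRealCLM), fun ξ => ?_⟩
  rw [SchwartzMap.fourier_coe, Real.fourier_eq', ft]
  refine integral_congr_ae (Eventually.of_forall fun x => ?_)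
  simp only [smul_eq_mul]
  rw [hg x, mul_comm]
  congr 2
  push_cast
  ring

theorem sch_memLp {φ : E → ℝ} (h : IsSch φ) (p : ℝ≥0∞) : MemLp φ p volume := by
  obtain ⟨f, hf⟩ := h
  have he : φ = f := by
    funext x
    exact (hf x).symm
  rw [he]
  exact f.memLp p volume

/-- the Sobolev inequality with real norms -/
theorem sob (hRS : St_RSob) (hPsi : St_Psi) {a : ℝ} (ha : 0 < a) (ha' : a < 5 / 2) :
    ∃ C : ℝ, 0 < C ∧ ∀ f : E → ℝ, IsSch f →
      (∫ x, |f x| ^ (10 / (5 - 2 * a))) ^ (1 / (10 / (5 - 2 * a))) ≤ C * hs a f ^ (1 / 2 : ℝ) := by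
  obtain ⟨ψ, h1, h2, h3, h4, -⟩ := hPsi
  obtain ⟨c, hc, h⟩ := hRS a ψ ha ha' h1 h2 h3 h4
  have hd : 0 < 5 - 2 * a := by linarith
  set e : ℝ := 4 * a / (5 - 2 * a) with he
  have he0 : 0 < e := by positivity
  refine ⟨(c ^ (1 + e)) ^ (1 / (10 / (5 - 2 * a))), by positivity, fun f hf => ?_⟩
  obtain ⟨h5, h6⟩ := h f hf
  set T := hs a f with hT
  have hT0 : 0 ≤ T := hs_nonneg a f
  have h7 := h5 (c * T ^ (1 / 2 : ℝ)) (by positivity) h6
  have h8 : c * (c * T ^ (1 / 2 : ℝ)) ^ e * T = c ^ (1 + e) * T ^ (5 / (5 - 2 * a)) := by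
    rw [Real.mul_rpow hc.le (by positivity), ← Real.rpow_mul hT0, Real.rpow_add hc, Real.rpow_one]
    have h9 : (5 : ℝ) / (5 - 2 * a) = 1 / 2 * e + 1 := by
      rw [he]
      field_simp
      ring
    rw [h9, Real.rpow_add_one' hT0 (by positivity)]
    ring
  rw [h8] at h7
  have h10 : (0 : ℝ) ≤ ∫ x, |f x| ^ (10 / (5 - 2 * a)) := integral_nonneg fun x => by positivity
  have h11 := Real.rpow_le_rpow h10 h7 (z := 1 / (10 / (5 - 2 * a))) (by positivity)
  refine h11.trans (le_of_eq ?_)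
  rw [Real.mul_rpow (by positivity) (by positivity), ← Real.rpow_mul hT0]
  congr 2
  field_simp
  norm_num

theorem eLp {f : E → ℝ} (hf : IsSch f) {q : ℝ} (hq : 0 < q) :
    eLpNorm f (ENNReal.ofReal q) volume = ENNReal.ofReal ((∫ x, |f x| ^ q) ^ (1 / q)) := by
  have h0 : ENNReal.ofReal q ≠ 0 := by
    rw [ne_eq, ENNReal.ofReal_eq_zero, not_le]
    exact hq
  rw [(sch_memLp hf _).eLpNorm_eq_integral_rpow_norm h0 ENNReal.ofReal_ne_top,
    ENNReal.toReal_ofReal hq.le, one_div]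
  rfl

/-! ### Cut-off on the Fourier side -/

/-- bump function -/
noncomputable def bm : ContDiffBump (0 : E) := ⟨1, 2, one_pos, one_lt_two⟩

/-- cut-off away from `0` and infinity -/
noncomputable def kp (n : ℕ) (ξ : E) : ℝ :=
  bm (((n : ℝ) + 1)⁻¹ • ξ) * (1 - bm (((n : ℝ) + 1) • ξ))

theorem kp_nonneg (n : ℕ) (ξ : E) : 0 ≤ kp n ξ :=
  mul_nonneg bm.nonneg (sub_nonneg.2 bm.le_one)

theorem kp_le (n : ℕ) (ξ : E) : kp n ξ ≤ 1 := by
  unfold kp
  have h1 := bm.le_one (x := ((n : ℝ) + 1)⁻¹ • ξ)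
  have h2 := bm.nonneg (x := ((n : ℝ) + 1) • ξ)
  have h3 := bm.le_one (x := ((n : ℝ) + 1) • ξ)
  calc bm (((n : ℝ) + 1)⁻¹ • ξ) * (1 - bm (((n : ℝ) + 1) • ξ)) ≤ 1 * 1 :=
      mul_le_mul h1 (by linarith) (by linarith) zero_le_one
    _ = 1 := one_mul 1

theorem kp_neg (n : ℕ) (ξ : E) : kp n (-ξ) = kp n ξ := by
  unfold kp
  rw [smul_neg, smul_neg, bm.neg, bm.neg]

theorem kp_smooth (n : ℕ) : ContDiff ℝ ∞ (kp n) :=
  (bm.contDiff.comp (contDiff_const_smul _)).mul
    (contDiff_const.sub (bm.contDiff.comp (contDiff_const_smul _)))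

theorem bm_zero {x : E} (hx : 2 ≤ ‖x‖) : bm x = 0 := by
  have h1 : x ∉ Function.support (bm : E → ℝ) := by
    rw [bm.support_eq, mem_ball_zero_iff, not_lt]
    exact hx
  exact Function.notMem_support.1 h1

theorem bm_one {x : E} (hx : ‖x‖ ≤ 1) : bm x = 1 := by
  apply bm.one_of_mem_closedBall
  rw [mem_closedBall_zero_iff]
  exact hx

theorem kp_small {n : ℕ} {ξ : E} (h : ‖ξ‖ ≤ ((n : ℝ) + 1)⁻¹) : kp n ξ = 0 := by
  have h0 : (0 : ℝ) < (n : ℝ) + 1 := by positivity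
  have h1 : ‖((n : ℝ) + 1) • ξ‖ ≤ 1 := by
    rw [norm_smul, Real.norm_of_nonneg h0.le]
    calc ((n : ℝ) + 1) * ‖ξ‖ ≤ ((n : ℝ) + 1) * ((n : ℝ) + 1)⁻¹ :=
        mul_le_mul_of_nonneg_left h h0.le
      _ = 1 := mul_inv_cancel₀ h0.ne'
  unfold kp
  rw [bm_one h1, sub_self, mul_zero]

theorem kp_large {n : ℕ} {ξ : E} (h : 2 * ((n : ℝ) + 1) ≤ ‖ξ‖) : kp n ξ = 0 := by
  have h0 : (0 : ℝ) < (n : ℝ) + 1 := by positivity
  have h1 : 2 ≤ ‖((n : ℝ) + 1)⁻¹ • ξ‖ := by
    rw [norm_smul, norm_inv, Real.norm_of_nonneg h0.le, le_inv_mul_iff₀ h0]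
    linarith
  unfold kp
  rw [bm_zero h1, zero_mul]

theorem kp_ev {ξ : E} (hξ : ξ ≠ 0) : ∀ᶠ n in atTop, kp n ξ = 1 := by
  have hn : 0 < ‖ξ‖ := norm_pos_iff.2 hξ
  obtain ⟨N, hN⟩ := exists_nat_gt (max ‖ξ‖ (2 / ‖ξ‖))
  filter_upwards [eventually_ge_atTop N] with n hn2
  have h0 : (0 : ℝ) < (n : ℝ) + 1 := by positivity
  have h1 : (N : ℝ) ≤ n := by exact_mod_cast hn2
  have h2 : ‖ξ‖ < N := lt_of_le_of_lt (le_max_left _ _) hN
  have h3 : 2 / ‖ξ‖ < N := lt_of_le_of_lt (le_max_right _ _) hN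
  have h4 : ‖((n : ℝ) + 1)⁻¹ • ξ‖ ≤ 1 := by
    rw [norm_smul, norm_inv, Real.norm_of_nonneg h0.le, inv_mul_le_iff₀ h0]
    linarith
  have h5 : 2 ≤ ‖((n : ℝ) + 1) • ξ‖ := by
    rw [norm_smul, Real.norm_of_nonneg h0.le]
    rw [div_lt_iff₀ hn] at h3
    nlinarith
  unfold kp
  rw [bm_one h4, bm_zero h5]
  norm_num

/-- Schwartz functions with prescribed cut-off Fourier transform -/
theorem exists_fn (hFt : St_Ft) (hFtI : St_FtI) {φ : E → ℝ} (hφ : IsSch φ) (a : ℝ) (n : ℕ) :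
    ∃ f : E → ℝ, IsSch f ∧
      ∀ ξ, ft f ξ = ((kp n ξ * (2 * Real.pi * ‖ξ‖) ^ (-2 * a) : ℝ) : ℂ) * ft φ ξ := by
  obtain ⟨Φ, hΦ⟩ := ft_sch hφ
  have hsym := (hFt.2 φ hφ).2.2.2.2.2.1
  refine hFtI _ ?_ ?_ ?_
  · rw [contDiff_iff_contDiffAt]
    intro ξ
    have h0 : (0 : ℝ) < ((n : ℝ) + 1)⁻¹ := by positivity
    by_cases hξ : ‖ξ‖ < ((n : ℝ) + 1)⁻¹
    · have h3 : (fun ξ : E => ((kp n ξ * (2 * Real.pi * ‖ξ‖) ^ (-2 * a) : ℝ) : ℂ) * ft φ ξ)
          =ᶠ[𝓝 ξ] fun _ => 0 := by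
        have h4 : ∀ᶠ y : E in 𝓝 ξ, ‖y‖ < ((n : ℝ) + 1)⁻¹ :=
          continuous_norm.continuousAt.eventually_lt_const hξ
        filter_upwards [h4] with y hy
        rw [kp_small hy.le, zero_mul, Complex.ofReal_zero, zero_mul]
      exact contDiffAt_const.congr_of_eventuallyEq h3
    · have hξ0 : ξ ≠ 0 := by
        intro h1
        rw [h1, norm_zero] at hξ
        exact hξ h0
      have hn : ContDiffAt ℝ ∞ (fun ξ : E => ‖ξ‖) ξ := contDiffAt_norm ℝ hξ0
      have h1 : ContDiffAt ℝ ∞ (fun ξ : E => (2 * Real.pi * ‖ξ‖) ^ (-2 * a)) ξ := by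
        refine (contDiffAt_const.mul hn).rpow_const_of_ne ?_
        have : 0 < ‖ξ‖ := norm_pos_iff.2 hξ0
        positivity
      have h2 : ContDiffAt ℝ ∞
          (fun ξ : E => ((kp n ξ * (2 * Real.pi * ‖ξ‖) ^ (-2 * a) : ℝ) : ℂ)) ξ :=
        Complex.ofRealCLM.contDiff.contDiffAt.comp ξ ((kp_smooth n).contDiffAt.mul h1)
      have h3 : ContDiffAt ℝ ∞ (fun ξ : E => ft φ ξ) ξ := by
        have h4 : (fun ξ : E => ft φ ξ) = Φ := by
          funext y
          exact hΦ y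
        rw [h4]
        exact (Φ.smooth ⊤).contDiffAt
      exact h2.mul h3
  · refine HasCompactSupport.intro (isCompact_closedBall (0 : E) (2 * ((n : ℝ) + 1))) fun x hx => ?_
    rw [mem_closedBall_zero_iff, not_le] at hx
    rw [kp_large hx.le, zero_mul, Complex.ofReal_zero, zero_mul]
  · intro ξ
    rw [kp_neg, norm_neg, hsym ξ, map_mul, Complex.conj_ofReal]

end SobPx

open SobPx in
theorem thm_SobP (hFt : St_Ft) (hFtI : St_FtI) (hI : St_IsoP) (hRS : St_RSob) (hPsi : St_Psi) :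
    St_SobP := by
  intro a ha ha'
  obtain ⟨C, hC, hsob⟩ := sob hRS hPsi ha ha'
  have hd : 0 < 5 - 2 * a := by linarith
  refine ⟨C, hC, fun φ hφ => ⟨?_, ?_⟩⟩
  · rw [eLp hφ (by positivity)]
    exact ENNReal.ofReal_le_ofReal (hsob φ hφ)
  · rw [eLp hφ (by positivity), ← ENNReal.ofReal_mul hC.le]
    apply ENNReal.ofReal_le_ofReal
    set Bq : ℝ := (∫ x, |φ x| ^ (10 / (5 + 2 * a))) ^ (1 / (10 / (5 + 2 * a))) with hBq
    have hBq0 : 0 ≤ Bq := by
      rw [hBq]
      have : (0 : ℝ) ≤ ∫ x, |φ x| ^ (10 / (5 + 2 * a)) := integral_nonneg fun x => by positivity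
      positivity
    have hint : Integrable (fun ξ : E => (2 * Real.pi * ‖ξ‖) ^ (2 * (-a)) * ‖ft φ ξ‖ ^ 2) volume :=
      (hI 0 φ φ (by norm_num) hφ hφ).2.2.2.2.2.2.2 (-a) (by linarith)
    -- the approximating integrals
    set I : ℕ → ℝ := fun n => ∫ ξ : E, kp n ξ * ((2 * Real.pi * ‖ξ‖) ^ (2 * (-a)) * ‖ft φ ξ‖ ^ 2)
      with hIdef
    have hlim : Tendsto I atTop (𝓝 (hs (-a) φ)) := by
      unfold hs
      refine tendsto_integral_of_dominated_convergence
        (fun ξ : E => (2 * Real.pi * ‖ξ‖) ^ (2 * (-a)) * ‖ft φ ξ‖ ^ 2) ?_ hint ?_ ?_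
      · intro n
        exact ((kp_smooth n).continuous.aestronglyMeasurable).mul hint.aestronglyMeasurable
      · intro n
        refine Eventually.of_forall fun ξ => ?_
        have h1 : (0 : ℝ) ≤ (2 * Real.pi * ‖ξ‖) ^ (2 * (-a)) * ‖ft φ ξ‖ ^ 2 := by positivity
        rw [Real.norm_of_nonneg (mul_nonneg (kp_nonneg n ξ) h1)]
        exact mul_le_of_le_one_left h1 (kp_le n ξ)
      · have hne : ∀ᵐ ξ : E, ξ ≠ 0 := by
          rw [ae_iff]
          simp
        filter_upwards [hne] with ξ hξ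
        refine tendsto_nhds_of_eventually_eq ?_
        filter_upwards [kp_ev hξ] with n hn
        rw [hn, one_mul]
    have hbound : ∀ n, I n ^ (1 / 2 : ℝ) ≤ C * Bq := by
      intro n
      obtain ⟨f, hf, hff⟩ := exists_fn hFt hFtI hφ a n
      have hI0 : 0 ≤ I n := integral_nonneg fun ξ => by
        have := kp_nonneg n ξ
        positivity
      -- the pairing
      have h1 : ∫ x, f x * φ x = I n := by
        rw [(hFt.2 f hf).2.2.1 φ hφ, hIdef]
        have h2 : ∫ ξ, ft f ξ * (starRingEnd ℂ) (ft φ ξ) =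
            ((∫ ξ : E, kp n ξ * ((2 * Real.pi * ‖ξ‖) ^ (2 * (-a)) * ‖ft φ ξ‖ ^ 2) : ℝ) : ℂ) := by
          rw [← integral_complex_ofReal]
          refine integral_congr_ae (Eventually.of_forall fun ξ => ?_)
          simp only
          rw [hff ξ, mul_assoc, Complex.mul_conj, Complex.normSq_eq_norm_sq]
          have e1 : -2 * a = 2 * (-a) := by ring
          rw [e1]
          push_cast
          ring
        rw [h2, Complex.ofReal_re]
      -- the Sobolev norm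
      have h3 : hs a f ≤ I n := by
        have h4 : hs a f = ∫ ξ : E, kp n ξ * (kp n ξ * ((2 * Real.pi * ‖ξ‖) ^ (2 * (-a)) *
            ‖ft φ ξ‖ ^ 2)) := by
          unfold hs
          refine integral_congr_ae ?_
          have hne : ∀ᵐ ξ : E, ξ ≠ 0 := by
            rw [ae_iff]
            simp
          filter_upwards [hne] with ξ hξ
          have hpos : 0 < 2 * Real.pi * ‖ξ‖ := by
            have := norm_pos_iff.2 hξ
            positivity
          rw [hff ξ, norm_mul, Complex.norm_real, Real.norm_of_nonneg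
            (mul_nonneg (kp_nonneg n ξ) (by positivity))]
          have e1 : (2 * Real.pi * ‖ξ‖) ^ (2 * a) * (2 * Real.pi * ‖ξ‖) ^ (-2 * a) = 1 := by
            rw [← Real.rpow_add hpos]
            have : 2 * a + -2 * a = 0 := by ring
            rw [this, Real.rpow_zero]
          have e2 : 2 * (-a) = -2 * a := by ring
          rw [e2]
          calc (2 * Real.pi * ‖ξ‖) ^ (2 * a) *
                (kp n ξ * (2 * Real.pi * ‖ξ‖) ^ (-2 * a) * ‖ft φ ξ‖) ^ 2
              = ((2 * Real.pi * ‖ξ‖) ^ (2 * a) * (2 * Real.pi * ‖ξ‖) ^ (-2 * a)) *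
                (kp n ξ * (kp n ξ * ((2 * Real.pi * ‖ξ‖) ^ (-2 * a) * ‖ft φ ξ‖ ^ 2))) := by ring
            _ = _ := by rw [e1, one_mul]
        have hkI : Integrable (fun ξ : E => kp n ξ * ((2 * Real.pi * ‖ξ‖) ^ (2 * (-a)) *
            ‖ft φ ξ‖ ^ 2)) volume := by
          refine hint.bdd_mul (c := 1) (kp_smooth n).continuous.aestronglyMeasurable
            (Eventually.of_forall fun ξ => ?_)
          rw [Real.norm_of_nonneg (kp_nonneg n ξ)]
          exact kp_le n ξ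
        rw [h4]
        refine integral_mono ?_ hkI fun ξ => ?_
        · refine hkI.bdd_mul (c := 1) (kp_smooth n).continuous.aestronglyMeasurable
            (Eventually.of_forall fun ξ => ?_)
          rw [Real.norm_of_nonneg (kp_nonneg n ξ)]
          exact kp_le n ξ
        · have := kp_nonneg n ξ
          exact mul_le_of_le_one_left (by positivity) (kp_le n ξ)
      -- Hoelder
      have hq : (10 / (5 - 2 * a)).HolderConjugate (10 / (5 + 2 * a)) := by
        rw [Real.holderConjugate_iff]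
        constructor
        · rw [lt_div_iff₀ hd]
          linarith
        · rw [inv_div, inv_div]
          ring
      have h5 : I n ≤ (∫ x, |f x| ^ (10 / (5 - 2 * a))) ^ (1 / (10 / (5 - 2 * a))) * Bq := by
        rw [← h1]
        have h6 := integral_mul_norm_le_Lp_mul_Lq (μ := (volume : Measure E)) hq
          (sch_memLp hf (ENNReal.ofReal (10 / (5 - 2 * a))))
          (sch_memLp hφ (ENNReal.ofReal (10 / (5 + 2 * a))))
        refine le_trans ?_ h6
        refine (le_abs_self _).trans ?_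
        rw [← Real.norm_eq_abs]
        refine (norm_integral_le_integral_norm _).trans (le_of_eq ?_)
        refine integral_congr_ae (Eventually.of_forall fun x => ?_)
        exact norm_mul _ _
      have h7 : I n ≤ C * I n ^ (1 / 2 : ℝ) * Bq := by
        refine h5.trans (mul_le_mul_of_nonneg_right ?_ hBq0)
        refine (hsob f hf).trans (mul_le_mul_of_nonneg_left ?_ hC.le)
        exact Real.rpow_le_rpow (hs_nonneg a f) h3 (by norm_num)
      have h8 : I n = I n ^ (1 / 2 : ℝ) * I n ^ (1 / 2 : ℝ) := by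
        rw [← Real.sqrt_eq_rpow, Real.mul_self_sqrt hI0]
      rcases eq_or_lt_of_le (Real.rpow_nonneg hI0 (1 / 2 : ℝ)) with h9 | h9
      · rw [← h9]
        positivity
      · have h10 : I n ^ (1 / 2 : ℝ) * I n ^ (1 / 2 : ℝ) ≤ (C * Bq) * I n ^ (1 / 2 : ℝ) := by
          rw [← h8]
          linarith [h7, mul_right_comm C (I n ^ (1 / 2 : ℝ)) Bq]
        exact le_of_mul_le_mul_right h10 h9
    exact le_of_tendsto (hlim.rpow_const (Or.inr (by norm_num))) (Eventually.of_forall hbound)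

end Pool.Agent.QWP
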