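import Pool.Agent.QWP.StA2

set_option autoImplicit false

/-!
# QWP, module StrS: the Strichartz estimate in the norm of the local theory, and a second pair
-/

open MeasureTheory Filter Topology Set
open scoped ENNReal NNReal RealInnerProductSpace

namespace Pool.Agent.QWP

open Pool.Agent.QWE (E S sg mu K toK tau sh dl rev gr ig IsTest pd lap Rad dRad Rk dRk c0 WD Sm SmE IsSch half shr WTo)

namespace StrSx

theorem sig_abs {b : ℝ} (hb : 2 < b) : |sig b| < 1 / 2 := by
  have h0 : 0 < b := by linarith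
  have h1 : 0 < 2 / b := by positivity
  have h2 : 2 / b < 1 := by rw [div_lt_one h0]; exact hb
  unfold sig
  rw [abs_lt]
  constructor <;> linarith

theorem mono_C {C C' q : ℝ} (h : C ≤ C') (hq : 0 ≤ q) (k : K) :
    (ENNReal.ofReal C * ‖k‖ₑ) ^ q ≤ (ENNReal.ofReal C' * ‖k‖ₑ) ^ q := by
  refine ENNReal.rpow_le_rpow ?_ hq
  gcongr

end StrSx

open StrSx

theorem thm_StrS (hStr : St_StrP) : St_StrS := by
  intro b hb
  have h0 : 0 < b := by linarith
  have hs : 1 / 2 - sig b = 2 / b := by
    unfold sig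
    ring
  obtain ⟨C1, hC1, h1⟩ := hStr (sig b) b (5 * b) (sig_abs hb) hb (by linarith) (by
    rw [hs]
    field_simp
    norm_num)
  obtain ⟨C2, hC2, h2⟩ := hStr (sig b) ((b + 2) / 2) (5 * b * (b + 2) / 4) (sig_abs hb)
    (by linarith) (by positivity) (by
      rw [hs]
      have h2 : b + 2 ≠ 0 := by positivity
      field_simp
      ring)
  refine ⟨C1 + C2, by positivity, fun k => ⟨?_, ?_⟩⟩
  · exact (h1 k).trans (mono_C (by linarith) (by linarith) k)
  · exact (h2 k).trans (mono_C (by linarith) (by linarith) k)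

end Pool.Agent.QWP
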