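import Pool.Agent.QWP.StA

set_option autoImplicit false

/-!
# QWP, Tr: transfer of the free evolution from `s = 0`

By Par the pairings of `tau t (Rs s φ)`, `tau t (dRs s φ)` with `Rs (-s) ψ`, `dRs (-s) ψ` do not depend on `s`;
the test elements `Rs (-s) ψ`, `dRs (-s) ψ` are total by Dns0.
-/

open MeasureTheory Filter Topology Set
open scoped ENNReal NNReal RealInnerProductSpace

namespace Pool.Agent.QWP

open Pool.Agent.QWE (E S sg mu K toK tau sh dl rev gr ig IsTest pd lap Rad dRad Rk dRk c0 WD Sm SmE IsSch half shr WTo)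

namespace Trx

lemma tau_zero (k : K) : tau 0 k = k := by
  apply Lp.ext
  filter_upwards [Pool.Agent.QWE.tau_coe 0 k] with z hz
  rw [hz, sub_zero]

lemma tau_tau (t : ℝ) (k : K) : tau t (tau (-t) k) = k := by
  apply Lp.ext
  have h1 := (Pool.Agent.QWE.mp_shift (g := fun _ => t) measurable_const).quasiMeasurePreserving.ae
    (Pool.Agent.QWE.tau_coe (-t) k)
  filter_upwards [Pool.Agent.QWE.tau_coe t (tau (-t) k), h1] with z hz hz1
  rw [hz, hz1]
  simp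

lemma inner_tau (t : ℝ) (a b : K) : inner ℝ (tau t a) b = inner ℝ (tau (-t) b) a := by
  have h : inner ℝ (tau t a) (tau t (tau (-t) b)) = inner ℝ a (tau (-t) b) :=
    LinearIsometry.inner_map_map _ _ _
  rw [tau_tau] at h
  rw [h, real_inner_comm]

/-- The pairings do not depend on `s`. -/
lemma pair (hPar : St_Par) {s : ℝ} (hs : |s| < 1 / 2) (t : ℝ) {φ ψ : E → ℝ} (hφ : IsSch φ) (hψ : IsSch ψ) :
    inner ℝ (tau t (Rs s φ)) (Rs (-s) ψ) = inner ℝ (tau t (Rs 0 φ)) (Rs 0 ψ) ∧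
    inner ℝ (tau t (dRs s φ)) (dRs (-s) ψ) = inner ℝ (tau t (dRs 0 φ)) (dRs 0 ψ) ∧
    inner ℝ (tau t (Rs s φ)) (dRs (-s) ψ) = inner ℝ (tau t (Rs 0 φ)) (dRs 0 ψ) := by
  have hs' : |(-s)| < 1 / 2 := by rwa [abs_neg]
  have h0 : |(0 : ℝ)| < 1 / 2 := by norm_num
  obtain ⟨-, -, -, -, p1, p2, p3⟩ := hPar s (-s) t φ ψ hs hs' hφ hψ
  obtain ⟨-, -, -, -, q1, q2, q3⟩ := hPar 0 0 t φ ψ h0 h0 hφ hψ
  have e1 : -s - -s = -(0 : ℝ) - 0 := by ring
  have e2 : 2 - s - -s = 2 - (0 : ℝ) - 0 := by ring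
  refine ⟨?_, ?_, ?_⟩
  · rw [p1, q1, e1]
  · rw [p2, q2, e2]
  · rw [p3, q3, e1]

lemma pair' (hPar : St_Par) {s : ℝ} (hs : |s| < 1 / 2) (t : ℝ) {φ ψ : E → ℝ} (hφ : IsSch φ) (hψ : IsSch ψ) :
    inner ℝ (tau t (dRs s φ)) (Rs (-s) ψ) = inner ℝ (tau t (dRs 0 φ)) (Rs 0 ψ) := by
  have hs' : |(-s)| < 1 / 2 := by rwa [abs_neg]
  have h := (pair hPar hs' (-t) hψ hφ).2.2
  rw [neg_neg] at h
  rw [inner_tau, h, ← inner_tau]

lemma key (hPar : St_Par) (hD : St_Dns0) {s : ℝ} (hs : |s| < 1 / 2) (t : ℝ) {A B A' B' : E → ℝ}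
    (hA : IsSch A) (hB : IsSch B) (hA' : IsSch A') (hB' : IsSch B') (α β α' β' : ℝ)
    (h : tau t (α • Rs 0 A + β • dRs 0 B) = α' • Rs 0 A' + β' • dRs 0 B') :
    tau t (α • Rs s A + β • dRs s B) = α' • Rs s A' + β' • dRs s B' := by
  have hs' : |(-s)| < 1 / 2 := by rwa [abs_neg]
  set x : K := tau t (α • Rs s A + β • dRs s B) - (α' • Rs s A' + β' • dRs s B') with hx
  have e0 : ∀ k : K, inner ℝ (α' • Rs s A' + β' • dRs s B') k =
      inner ℝ (tau 0 (α' • Rs s A' + β' • dRs s B')) k := by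
    intro k; rw [tau_zero]
  have e1 : ∀ k : K, inner ℝ (α' • Rs 0 A' + β' • dRs 0 B') k =
      inner ℝ (tau 0 (α' • Rs 0 A' + β' • dRs 0 B')) k := by
    intro k; rw [tau_zero]
  have hR : ∀ ψ : E → ℝ, IsSch ψ → inner ℝ x (Rs (-s) ψ) = 0 := by
    intro ψ hψ
    have h1 : inner ℝ (tau t (α • Rs s A + β • dRs s B)) (Rs (-s) ψ) =
        inner ℝ (tau t (α • Rs 0 A + β • dRs 0 B)) (Rs 0 ψ) := by
      simp only [map_add, map_smul, inner_add_left, inner_smul_left]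
      rw [(pair hPar hs t hA hψ).1, pair' hPar hs t hB hψ]
    have h2 : inner ℝ (tau 0 (α' • Rs s A' + β' • dRs s B')) (Rs (-s) ψ) =
        inner ℝ (tau 0 (α' • Rs 0 A' + β' • dRs 0 B')) (Rs 0 ψ) := by
      simp only [map_add, map_smul, inner_add_left, inner_smul_left]
      rw [(pair hPar hs 0 hA' hψ).1, pair' hPar hs 0 hB' hψ]
    rw [hx, inner_sub_left, h1, e0, h2, ← e1, h, sub_self]
  have hdR : ∀ ψ : E → ℝ, IsSch ψ → inner ℝ x (dRs (-s) ψ) = 0 := by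
    intro ψ hψ
    have h1 : inner ℝ (tau t (α • Rs s A + β • dRs s B)) (dRs (-s) ψ) =
        inner ℝ (tau t (α • Rs 0 A + β • dRs 0 B)) (dRs 0 ψ) := by
      simp only [map_add, map_smul, inner_add_left, inner_smul_left]
      rw [(pair hPar hs t hA hψ).2.2, (pair hPar hs t hB hψ).2.1]
    have h2 : inner ℝ (tau 0 (α' • Rs s A' + β' • dRs s B')) (dRs (-s) ψ) =
        inner ℝ (tau 0 (α' • Rs 0 A' + β' • dRs 0 B')) (dRs 0 ψ) := by
      simp only [map_add, map_smul, inner_add_left, inner_smul_left]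
      rw [(pair hPar hs 0 hA' hψ).2.2, (pair hPar hs 0 hB' hψ).2.1]
    rw [hx, inner_sub_left, h1, e0, h2, ← e1, h, sub_self]
  have hx0 : x = 0 := by
    have hmem : x ∈ (Submodule.span ℝ {w : K | ∃ ψ : E → ℝ, IsSch ψ ∧ HasCompactSupport (ft ψ) ∧
        (∀ᶠ ξ in 𝓝 (0 : E), ft ψ ξ = 0) ∧ (w = Rs (-s) ψ ∨ w = dRs (-s) ψ)})ᗮ := by
      rw [Submodule.mem_orthogonal']
      intro u hu
      induction hu using Submodule.span_induction with
      | mem u hu =>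
        obtain ⟨ψ, hψ, -, -, rfl | rfl⟩ := hu
        · exact hR ψ hψ
        · exact hdR ψ hψ
      | zero => exact inner_zero_right _
      | add u v _ _ h1 h2 => rw [inner_add_right, h1, h2, add_zero]
      | smul c u _ h1 => rw [inner_smul_right, h1, mul_zero]
    rw [← Submodule.orthogonal_closure, hD (-s) hs', Submodule.top_orthogonal_eq_bot] at hmem
    exact (Submodule.mem_bot ℝ).1 hmem
  rw [hx] at hx0
  exact sub_eq_zero.1 hx0

end Trx

open Trx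

theorem thm_Tr (hFt : St_Ft) (hPar : St_Par) (hIdn : St_Idn) (hD : St_Dns0) : St_Tr := by
  intro s t φ f1 f2 f g f' g' hs hφ hf1 hf2 hf hg hf' hg'
  have hsch : ∀ {u : E → ℝ}, IsTest u → IsSch u := fun hu => hFt.1 _ hu
  have hlap : ∀ {u : E → ℝ}, IsSch u → IsSch (lap u) := fun hu => by
    obtain ⟨-, -, -, -, -, -, -, -, h, -⟩ := hFt.2 _ hu
    exact h
  have hRk : ∀ {u : E → ℝ}, IsSch u → Rk u = Rs 0 u := fun hu => (hIdn _ _ hu hu).1.symm
  have hdRk : ∀ {u : E → ℝ}, IsSch u → dRk u = dRs 0 u := fun hu => (hIdn _ _ hu hu).2.1.symm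
  refine ⟨fun h => ?_, fun h => ?_, fun h => ?_⟩
  · rw [hRk (hsch hφ), hRk (hsch hf1), hdRk (hsch hf2)] at h
    have h1 := key hPar hD hs t (hsch hφ) (hsch hφ) (hsch hf1) (hsch hf2) 1 0 1 1
      (by simpa using h)
    simpa using h1
  · rw [hdRk (hsch hφ), hRk (hsch hf1), hdRk (hsch hf2)] at h
    have h1 := key hPar hD hs t (hsch hφ) (hsch hφ) (hsch hf1) (hsch hf2) 0 1 1 1
      (by simpa using h)
    simpa using h1
  · have hs' : |(-s)| < 1 / 2 := by rwa [abs_neg]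
    rw [← (hIdn _ _ (hsch hf) (hsch hg)).2.2, ← (hIdn _ _ (hsch hf') (hsch hg')).2.2] at h
    simp only [Theta, neg_zero] at h ⊢
    have e : ∀ a b : K, c0 • (a - b) = c0 • a + (-c0) • b := fun a b => by
      rw [smul_sub, neg_smul, sub_eq_add_neg]
    rw [e, e] at h ⊢
    exact key hPar hD hs' t (hlap (hlap (hsch hf))) (hlap (hsch hg)) (hlap (hlap (hsch hf')))
      (hlap (hsch hg')) c0 (-c0) c0 (-c0) h

end Pool.Agent.QWP
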