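import Pool.Agent.QWP.StB
import Pool.Agent.QWE.WEq

/-!
# QWP WEq: the equation in the sense of distributions
-/

set_option autoImplicit false

open MeasureTheory Filter Topology Set
open scoped ENNReal NNReal RealInnerProductSpace ContDiff

namespace Pool.Agent.QWP

open Pool.Agent.QWE (E S sg mu K toK tau sh dl rev gr ig IsTest pd lap Rad dRad Rk dRk c0 WD Sm SmE IsSch half shr WTo)

namespace WEqx

lemma sig_lt {b : ℝ} (hb : 2 < b) : |sig b| < 1 / 2 := by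
  have h1 : 0 < 2 / b := by positivity
  have h2 : 2 / b < 1 := by rw [div_lt_one (by linarith)]; exact hb
  unfold sig
  rw [abs_lt]
  constructor <;> linarith

lemma one_le_q0 {s : ℝ} (hs : |s| < 1 / 2) : 1 ≤ q0 s := by
  have h1 := abs_lt.1 hs
  unfold q0
  rw [← ENNReal.ofReal_one]
  apply ENNReal.ofReal_le_ofReal
  rw [le_div_iff₀ (by linarith)]
  linarith

lemma one_le_q1 {s : ℝ} (hs : |s| < 1 / 2) : 1 ≤ q1 s := by
  have h1 := abs_lt.1 hs
  unfold q1
  rw [← ENNReal.ofReal_one]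
  apply ENNReal.ofReal_le_ofReal
  rw [le_div_iff₀ (by linarith)]
  linarith

/-- From weak to strong derivatives. -/
lemma strong {s : ℝ} (hGrp : Pool.Agent.QWE.St_Grp1)
    (hDns : ∀ (k : K) (ε : ℝ), 0 < ε → ∃ f g : E → ℝ, IsTest f ∧ IsTest g ∧ ‖k - Theta s f g‖ < ε)
    (w w' : K) (h : ∀ f g : E → ℝ, IsTest f → IsTest g → ∀ r : ℝ,
      HasDerivAt (fun r => (inner ℝ (Theta s f g) (tau (-r) w) : ℝ))
        (inner ℝ (Theta s f g) (tau (-r) w')) r) (r : ℝ) :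
    HasDerivAt (fun r => tau (-r) w) (tau (-r) w') r := by
  have hcont := hGrp.2.2.2.2.2.2.2.1
  have hc : Continuous fun r => tau (-r) w' := (hcont w').comp continuous_neg
  have key : ∀ t, tau (-t) w = w + ∫ r in (0 : ℝ)..t, tau (-r) w' := by
    intro t
    obtain ⟨D, hD⟩ : ∃ D : K, D = tau (-t) w - (w + ∫ r in (0 : ℝ)..t, tau (-r) w') := ⟨_, rfl⟩
    have hZ : ∀ f g : E → ℝ, IsTest f → IsTest g → inner ℝ (Theta s f g) D = 0 := by
      intro f g hf hg
      have e1 : ∫ r in (0 : ℝ)..t, (inner ℝ (Theta s f g) (tau (-r) w') : ℝ) =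
          inner ℝ (Theta s f g) (tau (-t) w) - inner ℝ (Theta s f g) (tau (-0) w) :=
        intervalIntegral.integral_eq_sub_of_hasDerivAt (fun r _ => h f g hf hg r)
          ((continuous_const.inner hc).intervalIntegrable _ _)
      have e2 : ∫ r in (0 : ℝ)..t, (inner ℝ (Theta s f g) (tau (-r) w') : ℝ) =
          inner ℝ (Theta s f g) (∫ r in (0 : ℝ)..t, tau (-r) w') := by
        have := (innerSL ℝ (Theta s f g)).intervalIntegral_comp_comm
          (hc.intervalIntegrable (μ := volume) 0 t)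
        simpa using this
      rw [hD, inner_sub_right, inner_add_right, ← e2, e1, neg_zero, hGrp.2.1]
      ring
    have hD0 : D = 0 := by
      by_contra hne
      have hpos : 0 < ‖D‖ := norm_pos_iff.2 hne
      obtain ⟨f, g, hf, hg, hfg⟩ := hDns D (‖D‖ / 2) (by positivity)
      have e1 : (inner ℝ (D - Theta s f g) D : ℝ) = ‖D‖ ^ 2 := by
        rw [inner_sub_left, hZ f g hf hg, sub_zero, real_inner_self_eq_norm_sq]
      have e2 := real_inner_le_norm (D - Theta s f g) D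
      rw [e1] at e2
      have e3 : ‖D - Theta s f g‖ * ‖D‖ < ‖D‖ / 2 * ‖D‖ := mul_lt_mul_of_pos_right hfg hpos
      nlinarith
    rw [hD, sub_eq_zero] at hD0
    exact hD0
  have e : (fun r => tau (-r) w) = fun t => w + ∫ r in (0 : ℝ)..t, tau (-r) w' := funext key
  rw [e]
  have h1 := intervalIntegral.integral_hasDerivAt_right (hc.intervalIntegrable (μ := volume) 0 r)
    hc.stronglyMeasurable.stronglyMeasurableAtFilter hc.continuousAt
  exact h1.const_add w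

/-- The pairings with test states do not depend on `s`. -/
lemma pairing (hFld : St_FldP) (hDec : St_DecayP) (hIdn : St_Idn) {s : ℝ} (hs : |s| < 1 / 2)
    {f g : E → ℝ} (hf : IsTest f) (hg : IsTest g) {φ : E → ℝ} (hφ : IsTest φ) (t : ℝ) :
    (inner ℝ (tau t (Theta s f g)) (Rs s φ) : ℝ) =
      inner ℝ (tau t (Pool.Agent.QWE.Theta f g)) (Rk φ) ∧
    (inner ℝ (tau t (Theta s f g)) (dRs s φ) : ℝ) =
      inner ℝ (tau t (Pool.Agent.QWE.Theta f g)) (dRk φ) := by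
  obtain ⟨C, M0, -, -, hdec⟩ := hDec f g hf hg
  obtain ⟨f', g', hf', hg', hfg, -, -⟩ := hdec t
  have hid1 := hIdn φ g (Pool.Agent.QWE.WEqx.sch hφ) (Pool.Agent.QWE.WEqx.sch hg)
  have hid2 := hIdn f g (Pool.Agent.QWE.WEqx.sch hf) (Pool.Agent.QWE.WEqx.sch hg)
  have key : ∀ s : ℝ, |s| < 1 / 2 →
      (inner ℝ (tau t (Theta s f g)) (Rs s φ) : ℝ) = ∫ x, f' x * φ x ∧
      (inner ℝ (tau t (Theta s f g)) (dRs s φ) : ℝ) = ∫ x, g' x * φ x := by
    intro s hs
    obtain ⟨C', -, h1, -, h3⟩ := hFld s hs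
    rw [hfg s hs]
    obtain ⟨hU, -, hV, -⟩ := h1 (Theta s f' g')
    obtain ⟨h4, h5, -⟩ := h3 f' g' hf' hg'
    constructor
    · rw [← hU.2 φ hφ]
      apply integral_congr_ae
      filter_upwards [h4] with x hx
      rw [hx]
    · rw [← hV.2 φ hφ]
      apply integral_congr_ae
      filter_upwards [h5] with x hx
      rw [hx]
  obtain ⟨a1, a2⟩ := key s hs
  obtain ⟨b1, b2⟩ := key 0 (by norm_num)
  rw [hid2.2.2, hid1.1] at b1
  rw [hid2.2.2, hid1.2.1] at b2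
  exact ⟨a1.trans b1.symm, a2.trans b2.symm⟩

/-- Derivatives of the translates of test states. -/
lemma deriv_test (hGrp : Pool.Agent.QWE.St_Grp1) (hRadT : Pool.Agent.QWE.St_RadT) (hFld : St_FldP)
    (hDec : St_DecayP) (hIdn : St_Idn) (hDns : St_DnsP) {s : ℝ} (hs : |s| < 1 / 2) {φ : E → ℝ}
    (h : IsTest φ) :
    (∀ r, HasDerivAt (fun r => tau (-r) (Rs s φ)) (tau (-r) (dRs s φ)) r) ∧
    (∀ r, HasDerivAt (fun r => tau (-r) (dRs s φ)) (tau (-r) (Rs s (lap φ))) r) := by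
  have hl := Pool.Agent.QWE.WEqx.test_lap h
  obtain ⟨_, c2, hsup1, hder1, _, e1, e2⟩ := hRadT φ h
  obtain ⟨c3, _, hsup2, _, _, e3, _⟩ := hRadT (lap φ) hl
  obtain ⟨M1, hM1⟩ := h.2.isCompact.isBounded.subset_closedBall (0 : E)
  obtain ⟨M2, hM2⟩ := hl.2.isCompact.isBounded.subset_closedBall (0 : E)
  have hz : ∀ z : S × ℝ, z.2 - inner ℝ (0 : E) (z.1 : E) = z.2 := fun z => by
    rw [inner_zero_left, sub_zero]
  have hA : ∀ z : S × ℝ, max M1 M2 ≤ |z.2| → Rad φ z = 0 ∧ dRad φ z = 0 := fun z hzz =>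
    hsup1 0 M1 hM1 z (by rw [hz]; exact (le_max_left _ _).trans hzz)
  have hB : ∀ z : S × ℝ, max M1 M2 ≤ |z.2| → Rad (lap φ) z = 0 := fun z hzz =>
    (hsup2 0 M2 hM2 z (by rw [hz]; exact (le_max_right _ _).trans hzz)).1
  have hw1 : ∀ r, HasDerivAt (fun r => tau (-r) (Rk φ)) (tau (-r) (dRk φ)) r := fun r =>
    Pool.Agent.QWE.WEqx.hasDeriv_tau hGrp e1 e2 c2 (fun z hz => (hA z hz).1)
      (fun z hz => (hA z hz).2) (fun w p => (hder1 w p).1) r
  have hw2 : ∀ r, HasDerivAt (fun r => tau (-r) (dRk φ)) (tau (-r) (Rk (lap φ))) r := fun r =>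
    Pool.Agent.QWE.WEqx.hasDeriv_tau hGrp e2 e3 c3 (fun z hz => (hA z hz).2) (fun z hz => hB z hz)
      (fun w p => (hder1 w p).2) r
  have hadj := hGrp.2.2.2.2.2.1
  constructor
  · refine strong hGrp (hDns s hs).2.1 _ _ fun f g hf hg r => ?_
    have g1 : (fun r => (inner ℝ (Theta s f g) (tau (-r) (Rs s φ)) : ℝ)) =
        fun r => inner ℝ (Pool.Agent.QWE.Theta f g) (tau (-r) (Rk φ)) := by
      funext r
      rw [← hadj, ← hadj]
      exact (pairing hFld hDec hIdn hs hf hg h r).1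
    have g2 : (inner ℝ (Theta s f g) (tau (-r) (dRs s φ)) : ℝ) =
        inner ℝ (Pool.Agent.QWE.Theta f g) (tau (-r) (dRk φ)) := by
      rw [← hadj, ← hadj]
      exact (pairing hFld hDec hIdn hs hf hg h r).2
    rw [g1, g2]
    exact (innerSL ℝ (Pool.Agent.QWE.Theta f g)).hasFDerivAt.comp_hasDerivAt r (hw1 r)
  · refine strong hGrp (hDns s hs).2.1 _ _ fun f g hf hg r => ?_
    have g1 : (fun r => (inner ℝ (Theta s f g) (tau (-r) (dRs s φ)) : ℝ)) =
        fun r => inner ℝ (Pool.Agent.QWE.Theta f g) (tau (-r) (dRk φ)) := by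
      funext r
      rw [← hadj, ← hadj]
      exact (pairing hFld hDec hIdn hs hf hg h r).2
    have g2 : (inner ℝ (Theta s f g) (tau (-r) (Rs s (lap φ))) : ℝ) =
        inner ℝ (Pool.Agent.QWE.Theta f g) (tau (-r) (Rk (lap φ))) := by
      rw [← hadj, ← hadj]
      exact (pairing hFld hDec hIdn hs hf hg hl r).1
    rw [g1, g2]
    exact (innerSL ℝ (Pool.Agent.QWE.Theta f g)).hasFDerivAt.comp_hasDerivAt r (hw2 r)

lemma NL_int (hNLb : St_NLb) (hMeas : St_Meas) {b : ℝ} (hb : 2 < b) {I : Set ℝ} {k : ℝ → K}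
    (hk : IsSol b I k) {x t : ℝ} (hs : x ∈ I) (ht : t ∈ I) :
    (∀ᵐ r ∂(volume.restrict (Icc x t)), sn b (k r) < ⊤) ∧
      IntegrableOn (fun r => NL b (k r)) (Icc x t) volume := by
  obtain ⟨hoc, hcont, hSN, _⟩ := hk
  have hb0 : 0 < b := by linarith
  have hsub : Icc x t ⊆ I := hoc.out hs ht
  have hc : ContinuousOn k (Icc x t) := hcont.mono hsub
  have hkm : AEStronglyMeasurable k (volume.restrict (Icc x t)) :=
    hc.aestronglyMeasurable measurableSet_Icc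
  obtain ⟨hsm, -, h2⟩ := hMeas b hb k (Icc x t) measurableSet_Icc hkm
  have hfin := hSN x hs t ht
  have h3 : ∀ᵐ r ∂(volume.restrict (Icc x t)), sn b (k r) ^ b < ⊤ :=
    ae_lt_top' (hsm.pow_const b) hfin.ne
  have h4 : ∀ᵐ r ∂(volume.restrict (Icc x t)), sn b (k r) < ⊤ := by
    filter_upwards [h3] with r hr
    by_contra hcon
    rw [not_lt, top_le_iff] at hcon
    rw [hcon, ENNReal.top_rpow_of_pos hb0] at hr
    exact lt_irrefl _ hr
  refine ⟨h4, h2 h4, ?_⟩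
  obtain ⟨⟨C, _, hbd, _⟩, _⟩ := hNLb b hb
  obtain ⟨B, hB⟩ := isCompact_Icc.exists_bound_of_continuousOn hc
  have h5 : ∫⁻ r in Icc x t, ‖NL b (k r)‖ₑ ≤
      ∫⁻ r in Icc x t, ENNReal.ofReal C * ENNReal.ofReal B * sn b (k r) ^ b := by
    refine setLIntegral_mono' measurableSet_Icc fun r hr => ?_
    refine (hbd (k r)).trans ?_
    have h6 : ‖k r‖ₑ ≤ ENNReal.ofReal B := by
      rw [← ofReal_norm]
      exact ENNReal.ofReal_le_ofReal (hB r hr)
    calc ENNReal.ofReal C * sn b (k r) ^ b * ‖k r‖ₑ ≤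
        ENNReal.ofReal C * sn b (k r) ^ b * ENNReal.ofReal B := by gcongr
      _ = ENNReal.ofReal C * ENNReal.ofReal B * sn b (k r) ^ b := by ring
  refine lt_of_le_of_lt h5 ?_
  rw [lintegral_const_mul' _ _ (ENNReal.mul_ne_top ENNReal.ofReal_ne_top ENNReal.ofReal_ne_top)]
  exact ENNReal.mul_lt_top (ENNReal.mul_lt_top ENNReal.ofReal_lt_top ENNReal.ofReal_lt_top) hfin

lemma main_le (hGrp : Pool.Agent.QWE.St_Grp1) (hRadT : Pool.Agent.QWE.St_RadT) (hFld : St_FldP)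
    (hDec : St_DecayP) (hIdn : St_Idn) (hDns : St_DnsP) (hNLb : St_NLb) (hMeas : St_Meas)
    {b : ℝ} (hb : 2 < b) {I : Set ℝ} {k : ℝ → K} (hk : IsSol b I k)
    {x t : ℝ} (hs : x ∈ I) (ht : t ∈ I) (hst : x ≤ t) {φ : E → ℝ} (h : IsTest φ) :
    (∫ z, U (sig b) (k t) z * φ z) - (∫ z, U (sig b) (k x) z * φ z) =
      ∫ r in x..t, ∫ z, V (sig b) (k r) z * φ z ∧
    (∫ z, V (sig b) (k t) z * φ z) - (∫ z, V (sig b) (k x) z * φ z) =
      ∫ r in x..t, ∫ z, (U (sig b) (k r) z * lap φ z - Fn b (U (sig b) (k r) z) * φ z) := by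
  obtain ⟨haefin, hNint⟩ := NL_int hNLb hMeas hb hk hs ht
  obtain ⟨hoc, hcont, _, hD⟩ := hk
  have hsig := sig_lt hb
  have hsub : Icc x t ⊆ I := hoc.out hs ht
  have hc : ContinuousOn k (Icc x t) := hcont.mono hsub
  have hkd : ∀ r ∈ Icc x t, k r = tau (r - x) (k x) - ∫ q in x..r, tau (r - q) (NL b (k q)) :=
    fun r hr => hD x hs r (hsub hr)
  have hl := Pool.Agent.QWE.WEqx.test_lap h
  obtain ⟨hw1, hw2⟩ := deriv_test hGrp hRadT hFld hDec hIdn hDns hsig h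
  have hd1 := Pool.Agent.QWE.WEqx.duh hGrp hst hNint hkd hc hw1
  have hd2 := Pool.Agent.QWE.WEqx.duh hGrp hst hNint hkd hc hw2
  obtain ⟨C, _, hfld, _, _⟩ := hFld (sig b) hsig
  have hU : ∀ r (ψ : E → ℝ), IsTest ψ → ∫ z, U (sig b) (k r) z * ψ z = inner ℝ (k r) (Rs (sig b) ψ) :=
    fun r ψ hψ => (hfld (k r)).1.2 ψ hψ
  have hV : ∀ r, ∫ z, V (sig b) (k r) z * φ z = inner ℝ (k r) (dRs (sig b) φ) := fun r =>
    (hfld (k r)).2.2.1.2 φ h
  have hae : ∀ᵐ r ∂(volume.restrict (Ioc x t)), sn b (k r) < ⊤ :=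
    ae_restrict_of_ae_restrict_of_subset Ioc_subset_Icc_self haefin
  obtain ⟨-, hN2⟩ := hNLb b hb
  refine ⟨?_, ?_⟩
  · rw [hU _ _ h, hU _ _ h, hd1, intervalIntegral.integral_of_le hst,
      intervalIntegral.integral_of_le hst]
    refine integral_congr_ae ?_
    filter_upwards [hae] with r hr
    have h1 := ((hN2 (k r) hr).2.1 φ h).1
    show (inner ℝ (k r) (dRs (sig b) φ) : ℝ) - inner ℝ (NL b (k r)) (Rs (sig b) φ) =
      ∫ z, V (sig b) (k r) z * φ z
    rw [h1, sub_zero, hV]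
  · rw [hV, hV, hd2, intervalIntegral.integral_of_le hst, intervalIntegral.integral_of_le hst]
    refine integral_congr_ae ?_
    filter_upwards [hae] with r hr
    have h2 := hN2 (k r) hr
    have h1 := (h2.2.1 φ h).2
    show (inner ℝ (k r) (Rs (sig b) (lap φ)) : ℝ) - inner ℝ (NL b (k r)) (dRs (sig b) φ) =
      ∫ z, (U (sig b) (k r) z * lap φ z - Fn b (U (sig b) (k r) z) * φ z)
    rw [h1, ← hU r _ hl, ← integral_sub
      (Pool.Agent.QWE.WEqx.int_test (one_le_q0 hsig) (hfld (k r)).1.1 hl)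
      (Pool.Agent.QWE.WEqx.int_test (one_le_q1 hsig) h2.1 h)]

end WEqx

theorem thm_WEq (hGrp : Pool.Agent.QWE.St_Grp1) (hRadT : Pool.Agent.QWE.St_RadT)
    (hFld : St_FldP) (hDec : St_DecayP) (hIdn : St_Idn) (hDns : St_DnsP) (hNLb : St_NLb)
    (hMeas : St_Meas) : St_WEq := by
  intro b hb I k hk x hx t ht φ h
  rcases le_total x t with hst | hst
  · exact WEqx.main_le hGrp hRadT hFld hDec hIdn hDns hNLb hMeas hb hk hx ht hst h
  · have h1 := WEqx.main_le hGrp hRadT hFld hDec hIdn hDns hNLb hMeas hb hk ht hx hst h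
    rw [intervalIntegral.integral_symm t x, intervalIntegral.integral_symm t x, ← h1.1, ← h1.2]
    exact ⟨by ring, by ring⟩

end Pool.Agent.QWP
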