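import Pool.Agent.QWE.Act
import Pool.Agent.QWE.C5
import Pool.Agent.QWE.Dens
import Pool.Agent.QWE.FSl
import Pool.Agent.QWE.Fld
import Pool.Agent.QWE.Free
import Pool.Agent.QWE.G0
import Pool.Agent.QWE.G0a
import Pool.Agent.QWE.GBd
import Pool.Agent.QWE.GLim
import Pool.Agent.QWE.GrA
import Pool.Agent.QWE.Grp1
import Pool.Agent.QWE.Grp2
import Pool.Agent.QWE.Intp
import Pool.Agent.QWE.Iso
import Pool.Agent.QWE.NFK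
import Pool.Agent.QWE.NFa
import Pool.Agent.QWE.RadS
import Pool.Agent.QWE.RadT
import Pool.Agent.QWE.SL
import Pool.Agent.QWE.SL1
import Pool.Agent.QWE.Sob
import Pool.Agent.QWE.Sph
import Pool.Agent.QWE.UTest
import Pool.Agent.QWE.WkC
import Pool.Agent.QWE.WkS
import Pool.Agent.QWP.ABd
import Pool.Agent.QWP.ACq
import Pool.Agent.QWP.ActP
import Pool.Agent.QWP.ApW
import Pool.Agent.QWP.ApxP
import Pool.Agent.QWP.Blow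
import Pool.Agent.QWP.Br1
import Pool.Agent.QWP.Br2
import Pool.Agent.QWP.Br3
import Pool.Agent.QWP.C0
import Pool.Agent.QWP.C1
import Pool.Agent.QWP.C1a
import Pool.Agent.QWP.C2
import Pool.Agent.QWP.C2a
import Pool.Agent.QWP.C2b
import Pool.Agent.QWP.C3
import Pool.Agent.QWP.C4
import Pool.Agent.QWP.C6
import Pool.Agent.QWP.CSy
import Pool.Agent.QWP.Core
import Pool.Agent.QWP.CutM
import Pool.Agent.QWP.CutP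
import Pool.Agent.QWP.D1P
import Pool.Agent.QWP.D2
import Pool.Agent.QWP.D3
import Pool.Agent.QWP.D4
import Pool.Agent.QWP.D5
import Pool.Agent.QWP.Dcy2
import Pool.Agent.QWP.Dec
import Pool.Agent.QWP.DecX
import Pool.Agent.QWP.DecayP
import Pool.Agent.QWP.DenX
import Pool.Agent.QWP.Dns0
import Pool.Agent.QWP.Dns2
import Pool.Agent.QWP.DnsP
import Pool.Agent.QWP.Duh
import Pool.Agent.QWP.DuhI
import Pool.Agent.QWP.DyS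
import Pool.Agent.QWP.E1
import Pool.Agent.QWP.E3
import Pool.Agent.QWP.E3a
import Pool.Agent.QWP.E4
import Pool.Agent.QWP.E4a
import Pool.Agent.QWP.En
import Pool.Agent.QWP.EnD
import Pool.Agent.QWP.EnG
import Pool.Agent.QWP.EnR
import Pool.Agent.QWP.EnS
import Pool.Agent.QWP.EnU
import Pool.Agent.QWP.ExBP
import Pool.Agent.QWP.ExFP
import Pool.Agent.QWP.Ext
import Pool.Agent.QWP.FSPP
import Pool.Agent.QWP.FbPP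
import Pool.Agent.QWP.FinalOf
import Pool.Agent.QWP.FldD
import Pool.Agent.QWP.FldP
import Pool.Agent.QWP.FreX
import Pool.Agent.QWP.FreeP
import Pool.Agent.QWP.Ft
import Pool.Agent.QWP.FtI
import Pool.Agent.QWP.G10
import Pool.Agent.QWP.G11
import Pool.Agent.QWP.G12
import Pool.Agent.QWP.G13
import Pool.Agent.QWP.G13a
import Pool.Agent.QWP.G14
import Pool.Agent.QWP.G15
import Pool.Agent.QWP.G16
import Pool.Agent.QWP.G2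
import Pool.Agent.QWP.G4d
import Pool.Agent.QWP.G5
import Pool.Agent.QWP.G6
import Pool.Agent.QWP.G7
import Pool.Agent.QWP.G7a
import Pool.Agent.QWP.G8
import Pool.Agent.QWP.G9
import Pool.Agent.QWP.GNk
import Pool.Agent.QWP.GNt
import Pool.Agent.QWP.GStab
import Pool.Agent.QWP.Gag1
import Pool.Agent.QWP.GamP
import Pool.Agent.QWP.GamQ
import Pool.Agent.QWP.Glue
import Pool.Agent.QWP.GrP
import Pool.Agent.QWP.Gron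
import Pool.Agent.QWP.HBP
import Pool.Agent.QWP.HDl
import Pool.Agent.QWP.HLSP
import Pool.Agent.QWP.HcpP
import Pool.Agent.QWP.Hrd
import Pool.Agent.QWP.Hs
import Pool.Agent.QWP.HscP
import Pool.Agent.QWP.Idn
import Pool.Agent.QWP.IsoP
import Pool.Agent.QWP.KerB
import Pool.Agent.QWP.KerL
import Pool.Agent.QWP.KerP
import Pool.Agent.QWP.L5B
import Pool.Agent.QWP.L8P
import Pool.Agent.QWP.LAf
import Pool.Agent.QWP.Loc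
import Pool.Agent.QWP.LocC
import Pool.Agent.QWP.LocI
import Pool.Agent.QWP.LscP
import Pool.Agent.QWP.MaxE
import Pool.Agent.QWP.Meas
import Pool.Agent.QWP.MolD
import Pool.Agent.QWP.MolK
import Pool.Agent.QWP.MolP
import Pool.Agent.QWP.Mor
import Pool.Agent.QWP.MorF
import Pool.Agent.QWP.MorS
import Pool.Agent.QWP.MulB
import Pool.Agent.QWP.MulP
import Pool.Agent.QWP.NF1P
import Pool.Agent.QWP.NFP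
import Pool.Agent.QWP.NFSP
import Pool.Agent.QWP.NFc
import Pool.Agent.QWP.NFt
import Pool.Agent.QWP.NLb
import Pool.Agent.QWP.NLc
import Pool.Agent.QWP.NLd
import Pool.Agent.QWP.NLg
import Pool.Agent.QWP.NLh
import Pool.Agent.QWP.NLi
import Pool.Agent.QWP.NLoP
import Pool.Agent.QWP.NLw
import Pool.Agent.QWP.NPth
import Pool.Agent.QWP.NaB
import Pool.Agent.QWP.NcR
import Pool.Agent.QWP.Npq
import Pool.Agent.QWP.P1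
import Pool.Agent.QWP.P1a
import Pool.Agent.QWP.P3
import Pool.Agent.QWP.P3a
import Pool.Agent.QWP.P3b
import Pool.Agent.QWP.P3c
import Pool.Agent.QWP.P3d
import Pool.Agent.QWP.P3e
import Pool.Agent.QWP.P4
import Pool.Agent.QWP.P4r
import Pool.Agent.QWP.PJ
import Pool.Agent.QWP.PSy
import Pool.Agent.QWP.Par
import Pool.Agent.QWP.Pert
import Pool.Agent.QWP.Pol
import Pool.Agent.QWP.PotE
import Pool.Agent.QWP.Psi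
import Pool.Agent.QWP.PsiNZP
import Pool.Agent.QWP.QstA
import Pool.Agent.QWP.QstB
import Pool.Agent.QWP.R
import Pool.Agent.QWP.RSob
import Pool.Agent.QWP.RSobK
import Pool.Agent.QWP.Rsz
import Pool.Agent.QWP.SNc
import Pool.Agent.QWP.SNt
import Pool.Agent.QWP.ScM
import Pool.Agent.QWP.Small
import Pool.Agent.QWP.SnP
import Pool.Agent.QWP.SoD
import Pool.Agent.QWP.SobP
import Pool.Agent.QWP.Stab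
import Pool.Agent.QWP.StrP
import Pool.Agent.QWP.StrS
import Pool.Agent.QWP.StrT
import Pool.Agent.QWP.Sym
import Pool.Agent.QWP.Tga
import Pool.Agent.QWP.Tgt
import Pool.Agent.QWP.Tr
import Pool.Agent.QWP.UV0
import Pool.Agent.QWP.Uniq
import Pool.Agent.QWP.WEq
import Pool.Agent.QWP.WkP
import Pool.Agent.QWP.Z1

set_option autoImplicit false

/-!
# QWP: assembly. Every module theorem applied to the earlier ones; `final5` is the critical norm conjecture on `ℝ⁵`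
for every `p > 3`, with the literal definitions of `QWL`.
-/

namespace Pool.Agent.QWP.Asm

theorem qwp_FtI : Pool.Agent.QWP.St_FtI :=
  Pool.Agent.QWP.thm_FtI
theorem qwp_Psi : Pool.Agent.QWP.St_Psi :=
  Pool.Agent.QWP.thm_Psi qwp_FtI
theorem qwp_RSob : Pool.Agent.QWP.St_RSob :=
  Pool.Agent.QWP.thm_RSob
theorem qwp_Ft : Pool.Agent.QWP.St_Ft :=
  Pool.Agent.QWP.thm_Ft
theorem qwe_RadS : Pool.Agent.QWE.St_RadS :=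
  Pool.Agent.QWE.thm_RadS
theorem qwe_FSl : Pool.Agent.QWE.St_FSl :=
  Pool.Agent.QWE.thm_FSl qwe_RadS
theorem qwp_PJ : Pool.Agent.QWP.St_PJ :=
  Pool.Agent.QWP.thm_PJ qwp_Ft qwe_RadS qwe_FSl
theorem qwe_RadT : Pool.Agent.QWE.St_RadT :=
  Pool.Agent.QWE.thm_RadT
theorem qwp_NcR : Pool.Agent.QWP.St_NcR :=
  Pool.Agent.QWP.thm_NcR qwe_RadT
theorem qwe_Grp1 : Pool.Agent.QWE.St_Grp1 :=
  Pool.Agent.QWE.thm_Grp1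
theorem qwp_Pol : Pool.Agent.QWP.St_Pol :=
  Pool.Agent.QWP.thm_Pol
theorem qwp_Par : Pool.Agent.QWP.St_Par :=
  Pool.Agent.QWP.thm_Par qwp_Ft
theorem qwp_IsoP : Pool.Agent.QWP.St_IsoP :=
  Pool.Agent.QWP.thm_IsoP qwe_Grp1 qwp_Ft qwp_Pol qwp_Par
theorem qwp_Hs : Pool.Agent.QWP.St_Hs :=
  Pool.Agent.QWP.thm_Hs qwp_Ft qwp_IsoP
theorem qwp_SobP : Pool.Agent.QWP.St_SobP :=
  Pool.Agent.QWP.thm_SobP qwp_Ft qwp_FtI qwp_IsoP qwp_RSob qwp_Psi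
theorem qwe_Iso : Pool.Agent.QWE.St_Iso :=
  Pool.Agent.QWE.thm_Iso qwe_RadS qwe_FSl
theorem qwe_Dens : Pool.Agent.QWE.St_Dens :=
  Pool.Agent.QWE.thm_Dens qwe_RadS qwe_FSl qwe_Iso
theorem qwp_Idn : Pool.Agent.QWP.St_Idn :=
  Pool.Agent.QWP.thm_Idn qwp_Ft qwe_RadS qwe_FSl
theorem qwp_Dns0 : Pool.Agent.QWP.St_Dns0 :=
  Pool.Agent.QWP.thm_Dns0 qwe_Grp1 qwe_Dens qwp_Ft qwp_FtI qwp_Par qwp_Idn
theorem qwp_DnsP : Pool.Agent.QWP.St_DnsP :=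
  Pool.Agent.QWP.thm_DnsP qwp_Ft qwp_FtI qwp_PJ qwp_NcR qwp_IsoP qwp_Hs qwp_SobP qwp_Dns0
theorem qwp_FldP : Pool.Agent.QWP.St_FldP :=
  Pool.Agent.QWP.thm_FldP qwp_IsoP qwp_Hs qwp_SobP qwp_DnsP
theorem qwe_Grp2 : Pool.Agent.QWE.St_Grp2 :=
  Pool.Agent.QWE.thm_Grp2
theorem qwp_ActP : Pool.Agent.QWP.St_ActP :=
  Pool.Agent.QWP.thm_ActP qwe_Grp1 qwe_Grp2 qwp_Ft qwp_Par qwp_FldP
theorem qwp_RSobK : Pool.Agent.QWP.St_RSobK :=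
  Pool.Agent.QWP.thm_RSobK qwp_RSob qwp_DnsP qwp_FldP qwp_ActP qwp_IsoP
theorem qwe_SL : Pool.Agent.QWE.St_SL :=
  Pool.Agent.QWE.thm_SL
theorem qwe_SL1 : Pool.Agent.QWE.St_SL1 :=
  Pool.Agent.QWE.thm_SL1 qwe_SL
theorem qwe_Sph : Pool.Agent.QWE.St_Sph :=
  Pool.Agent.QWE.thm_Sph qwe_RadT qwe_SL1 qwe_Iso
theorem qwp_Tr : Pool.Agent.QWP.St_Tr :=
  Pool.Agent.QWP.thm_Tr qwp_Ft qwp_Par qwp_Idn qwp_Dns0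
theorem qwp_DecayP : Pool.Agent.QWP.St_DecayP :=
  Pool.Agent.QWP.thm_DecayP qwe_RadT qwe_Iso qwe_Dens qwe_SL1 qwe_Sph qwp_Tr
theorem qwp_KerB : Pool.Agent.QWP.St_KerB :=
  Pool.Agent.QWP.thm_KerB
theorem qwp_Rsz : Pool.Agent.QWP.St_Rsz :=
  Pool.Agent.QWP.thm_Rsz
theorem qwp_KerP : Pool.Agent.QWP.St_KerP :=
  Pool.Agent.QWP.thm_KerP qwp_Ft qwp_Par qwp_Idn qwp_KerB qwp_Rsz qwe_RadT qwe_Sph
theorem qwp_HLSP : Pool.Agent.QWP.St_HLSP :=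
  Pool.Agent.QWP.thm_HLSP
theorem qwp_KerL : Pool.Agent.QWP.St_KerL :=
  Pool.Agent.QWP.thm_KerL qwp_HLSP
theorem qwp_StrT : Pool.Agent.QWP.St_StrT :=
  Pool.Agent.QWP.thm_StrT qwe_Grp1 qwp_FldP qwp_DecayP qwp_KerP qwp_KerL
theorem qwp_LscP : Pool.Agent.QWP.St_LscP :=
  Pool.Agent.QWP.thm_LscP qwp_FldP
theorem qwp_StrP : Pool.Agent.QWP.St_StrP :=
  Pool.Agent.QWP.thm_StrP qwp_StrT qwp_DnsP qwp_LscP qwe_Grp1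
theorem qwp_StrS : Pool.Agent.QWP.St_StrS :=
  Pool.Agent.QWP.thm_StrS qwp_StrP
theorem qwp_DuhI : Pool.Agent.QWP.St_DuhI :=
  Pool.Agent.QWP.thm_DuhI qwe_Grp1 qwp_FldP qwp_LscP qwp_StrS
theorem qwp_Npq : Pool.Agent.QWP.St_Npq :=
  Pool.Agent.QWP.thm_Npq
theorem qwp_GamP : Pool.Agent.QWP.St_GamP :=
  Pool.Agent.QWP.thm_GamP qwp_IsoP qwp_DnsP qwp_FldP
theorem qwp_SoD : Pool.Agent.QWP.St_SoD :=
  Pool.Agent.QWP.thm_SoD qwp_Ft qwp_Hs qwp_SobP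
theorem qwp_ApW : Pool.Agent.QWP.St_ApW :=
  Pool.Agent.QWP.thm_ApW
theorem qwp_GamQ : Pool.Agent.QWP.St_GamQ :=
  Pool.Agent.QWP.thm_GamQ qwp_Ft qwp_IsoP qwp_GamP qwp_SoD qwp_ApW
theorem qwp_FldD : Pool.Agent.QWP.St_FldD :=
  Pool.Agent.QWP.thm_FldD qwp_IsoP qwp_Hs qwp_SobP qwp_DnsP qwp_FldP
theorem qwp_CutM : Pool.Agent.QWP.St_CutM :=
  Pool.Agent.QWP.thm_CutM qwp_Ft qwp_IsoP qwp_Hs qwp_Psi
theorem qwp_CutP : Pool.Agent.QWP.St_CutP :=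
  Pool.Agent.QWP.thm_CutP qwp_IsoP qwp_DnsP qwp_FldP qwp_CutM
theorem qwp_DenX : Pool.Agent.QWP.St_DenX :=
  Pool.Agent.QWP.thm_DenX qwe_Grp1 qwe_Grp2 qwp_DnsP qwp_FldP qwp_ActP qwp_CutP
theorem qwp_GNt : Pool.Agent.QWP.St_GNt :=
  Pool.Agent.QWP.thm_GNt
theorem qwp_GNk : Pool.Agent.QWP.St_GNk :=
  Pool.Agent.QWP.thm_GNk qwp_DenX qwp_GNt qwp_FldP qwp_FldD
theorem qwp_NLg : Pool.Agent.QWP.St_NLg :=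
  Pool.Agent.QWP.thm_NLg qwp_Npq qwp_FldP qwp_DnsP
theorem qwp_NLh : Pool.Agent.QWP.St_NLh :=
  Pool.Agent.QWP.thm_NLh qwp_FldP qwp_Npq qwp_FldD qwp_DenX qwp_GNk
theorem qwp_NLd : Pool.Agent.QWP.St_NLd :=
  Pool.Agent.QWP.thm_NLd qwp_FldP qwp_DnsP qwp_Npq qwp_GamQ qwp_FldD qwp_GNk qwp_NLg qwp_NLh
theorem qwp_NLb : Pool.Agent.QWP.St_NLb :=
  Pool.Agent.QWP.thm_NLb qwp_NLd qwp_NLg
theorem qwp_SnP : Pool.Agent.QWP.St_SnP :=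
  Pool.Agent.QWP.thm_SnP qwp_FldP qwp_ActP qwp_LscP
theorem qwp_NLw : Pool.Agent.QWP.St_NLw :=
  Pool.Agent.QWP.thm_NLw qwp_NLb qwp_FldP
theorem qwp_Meas : Pool.Agent.QWP.St_Meas :=
  Pool.Agent.QWP.thm_Meas qwp_DnsP qwp_LscP qwp_SnP qwp_NLw
theorem qwp_G2 : Pool.Agent.QWP.St_G2 :=
  Pool.Agent.QWP.thm_G2 qwp_RSobK qwp_StrS qwp_DuhI qwp_NLb qwp_Meas qwp_FldP qwe_Grp1
theorem qwe_WkS : Pool.Agent.QWE.St_WkS :=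
  Pool.Agent.QWE.thm_WkS
theorem qwp_SNt : Pool.Agent.QWP.St_SNt :=
  Pool.Agent.QWP.thm_SNt qwp_FldP qwp_Meas
theorem qwp_Loc : Pool.Agent.QWP.St_Loc :=
  Pool.Agent.QWP.thm_Loc qwe_Grp1 qwp_SnP qwp_NLb qwp_Meas qwp_DuhI qwp_SNt
theorem qwp_Uniq : Pool.Agent.QWP.St_Uniq :=
  Pool.Agent.QWP.thm_Uniq qwp_NLb qwp_Meas qwp_DuhI
theorem qwp_Glue : Pool.Agent.QWP.St_Glue :=
  Pool.Agent.QWP.thm_Glue qwe_Grp1 qwp_NLb qwp_Meas qwp_Uniq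
theorem qwp_MaxE : Pool.Agent.QWP.St_MaxE :=
  Pool.Agent.QWP.thm_MaxE qwp_StrS qwp_Loc qwp_Uniq qwp_Glue
theorem qwp_Gron : Pool.Agent.QWP.St_Gron :=
  Pool.Agent.QWP.thm_Gron qwp_Meas qwp_NLb
theorem qwp_Blow : Pool.Agent.QWP.St_Blow :=
  Pool.Agent.QWP.thm_Blow qwe_Grp1 qwp_StrS qwp_NLb qwp_Meas qwp_Loc qwp_Glue qwp_Gron
theorem qwp_G10 : Pool.Agent.QWP.St_G10 :=
  Pool.Agent.QWP.thm_G10 qwp_DecayP qwp_DnsP qwp_FldP qwp_FldD qwp_NLd qwe_Grp1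
theorem qwp_MolK : Pool.Agent.QWP.St_MolK :=
  Pool.Agent.QWP.thm_MolK qwe_Grp1 qwe_Grp2 qwp_FldP qwp_ActP
theorem qwp_ApxP : Pool.Agent.QWP.St_ApxP :=
  Pool.Agent.QWP.thm_ApxP qwp_IsoP qwp_SnP qwp_DenX qwp_NLd qwp_Meas qwp_MaxE qwp_Blow qwp_G10 qwp_MolK
theorem qwp_LocI : Pool.Agent.QWP.St_LocI :=
  Pool.Agent.QWP.thm_LocI
theorem qwp_MolP : Pool.Agent.QWP.St_MolP :=
  Pool.Agent.QWP.thm_MolP qwp_Ft qwp_Hs qwp_IsoP qwp_DnsP qwp_FldP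
theorem qwp_WkP : Pool.Agent.QWP.St_WkP :=
  Pool.Agent.QWP.thm_WkP qwp_DnsP qwp_FldP qwp_MolP
theorem qwp_MolD : Pool.Agent.QWP.St_MolD :=
  Pool.Agent.QWP.thm_MolD qwp_Ft qwp_Hs qwp_IsoP qwp_DnsP qwp_FldP qwp_FldD
theorem qwp_G4d : Pool.Agent.QWP.St_G4d :=
  Pool.Agent.QWP.thm_G4d qwp_DnsP qwp_FldP qwp_FldD qwp_MolD
theorem qwp_LocC : Pool.Agent.QWP.St_LocC :=
  Pool.Agent.QWP.thm_LocC qwp_FldP qwp_FldD qwp_WkP qwp_G4d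
theorem qwp_QstA : Pool.Agent.QWP.St_QstA :=
  Pool.Agent.QWP.thm_QstA qwp_FldP qwp_DnsP qwp_Npq qwp_GamQ qwp_NLg qwp_NLd qwp_LocI qwp_LocC
theorem qwp_QstB : Pool.Agent.QWP.St_QstB :=
  Pool.Agent.QWP.thm_QstB qwp_Npq qwp_GamQ qwp_NLg qwp_NLh qwp_NLd qwp_GNk qwp_FldP qwp_FldD qwp_LocI qwp_LocC qwp_DnsP
theorem qwe_WkC : Pool.Agent.QWE.St_WkC :=
  Pool.Agent.QWE.thm_WkC qwe_WkS
theorem qwp_NLc : Pool.Agent.QWP.St_NLc :=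
  Pool.Agent.QWP.thm_NLc qwp_WkP qwe_WkS qwp_FldP qwp_NLw qwp_DecayP
theorem qwe_Free : Pool.Agent.QWE.St_Free :=
  Pool.Agent.QWE.thm_Free qwe_RadT qwe_Iso qwe_Dens qwe_Sph
theorem qwp_FreeP : Pool.Agent.QWP.St_FreeP :=
  Pool.Agent.QWP.thm_FreeP qwe_Free qwp_Tr
theorem qwp_G5 : Pool.Agent.QWP.St_G5 :=
  Pool.Agent.QWP.thm_G5 qwe_WkS qwe_WkC qwp_NLc qwp_NLb qwp_Meas qwp_Uniq qwp_DuhI qwp_FreeP qwp_DnsP qwe_Grp1 qwp_SnP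
theorem qwp_G9 : Pool.Agent.QWP.St_G9 :=
  Pool.Agent.QWP.thm_G9 qwp_G5 qwp_LocC
theorem qwp_G11 : Pool.Agent.QWP.St_G11 :=
  Pool.Agent.QWP.thm_G11 qwp_ApxP qwp_QstA qwp_QstB qwp_NLd qwp_G9 qwp_LocC qwp_Gron qwp_SnP qwp_Meas
theorem qwp_FreX : Pool.Agent.QWP.St_FreX :=
  Pool.Agent.QWP.thm_FreX qwe_RadT qwe_Iso qwe_Dens qwe_Sph qwp_Tr
theorem qwp_Dcy2 : Pool.Agent.QWP.St_Dcy2 :=
  Pool.Agent.QWP.thm_Dcy2 qwp_FldP qwp_DnsP qwp_FreX qwp_Tr qwp_DecayP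
theorem qwp_G6 : Pool.Agent.QWP.St_G6 :=
  Pool.Agent.QWP.thm_G6 qwp_DnsP qwp_FldP
theorem qwp_G7a : Pool.Agent.QWP.St_G7a :=
  Pool.Agent.QWP.thm_G7a qwp_G6 qwp_FldP qwp_FldD qwp_Npq
theorem qwp_G7 : Pool.Agent.QWP.St_G7 :=
  Pool.Agent.QWP.thm_G7 qwp_FldP qwp_DnsP qwp_NLw qwp_Dcy2 qwp_G7a
theorem qwp_Dns2 : Pool.Agent.QWP.St_Dns2 :=
  Pool.Agent.QWP.thm_Dns2 qwp_Ft qwp_FtI qwp_IsoP qwp_Hs qwp_Dns0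
theorem qwp_G8 : Pool.Agent.QWP.St_G8 :=
  Pool.Agent.QWP.thm_G8 qwp_G5 qwp_G7 qwp_NLc qwp_NLb qwp_Meas qwp_SnP qwp_FreeP qwp_Dns2 qwe_Grp1
theorem qwp_Pert : Pool.Agent.QWP.St_Pert :=
  Pool.Agent.QWP.thm_Pert qwe_Grp1 qwp_StrS qwp_NLb qwp_Meas qwp_DuhI qwp_SNt qwp_Loc qwp_Glue
theorem qwp_Dec : Pool.Agent.QWP.St_Dec :=
  Pool.Agent.QWP.thm_Dec qwp_G11 qwp_G8 qwp_Pert qwp_Uniq qwp_Gron qwp_SNt qwp_Meas qwp_NLb qwp_Blow qwp_MaxE qwe_Grp1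
theorem qwp_SNc : Pool.Agent.QWP.St_SNc :=
  Pool.Agent.QWP.thm_SNc qwp_SnP qwp_NLb qwp_Uniq
theorem qwp_Small : Pool.Agent.QWP.St_Small :=
  Pool.Agent.QWP.thm_Small qwp_StrS qwp_NLb qwp_Meas qwp_Loc qwp_Gron qwp_MaxE qwp_Blow
theorem qwp_G12 : Pool.Agent.QWP.St_G12 :=
  Pool.Agent.QWP.thm_G12 qwp_Dec qwp_SNc qwp_MaxE qwp_Blow qwp_Uniq qwp_Small qwp_Gron qwe_WkS
theorem qwp_Sym : Pool.Agent.QWP.St_Sym :=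
  Pool.Agent.QWP.thm_Sym qwe_Grp1 qwe_Grp2 qwp_DnsP qwp_FldP qwp_ActP qwp_SnP
theorem qwp_Stab : Pool.Agent.QWP.St_Stab :=
  Pool.Agent.QWP.thm_Stab qwe_Grp2 qwp_Glue qwp_Pert qwp_Sym
theorem qwp_GStab : Pool.Agent.QWP.St_GStab :=
  Pool.Agent.QWP.thm_GStab qwp_SNt qwp_Uniq qwp_Gron qwp_Pert
theorem qwp_G13a : Pool.Agent.QWP.St_G13a :=
  Pool.Agent.QWP.thm_G13a qwp_Stab qwp_GStab qwp_Blow qwp_MaxE qwp_Uniq qwp_SNt qwp_SNc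
theorem qwe_UTest : Pool.Agent.QWE.St_UTest :=
  Pool.Agent.QWE.thm_UTest qwe_RadS
theorem qwe_Sob : Pool.Agent.QWE.St_Sob :=
  Pool.Agent.QWE.thm_Sob
theorem qwe_Fld : Pool.Agent.QWE.St_Fld :=
  Pool.Agent.QWE.thm_Fld qwe_Sob qwe_Iso qwe_Dens qwe_UTest
theorem qwe_Act : Pool.Agent.QWE.St_Act :=
  Pool.Agent.QWE.thm_Act qwe_Grp1 qwe_Grp2 qwe_RadT qwe_UTest qwe_Fld
theorem qwe_GrA : Pool.Agent.QWE.St_GrA :=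
  Pool.Agent.QWE.thm_GrA qwe_Grp1 qwe_Grp2 qwe_Act
theorem qwp_ScM : Pool.Agent.QWP.St_ScM :=
  Pool.Agent.QWP.thm_ScM qwp_Sym qwe_GrA
theorem qwp_G13 : Pool.Agent.QWP.St_G13 :=
  Pool.Agent.QWP.thm_G13 qwp_Psi qwp_G2 qwe_WkS qwp_G12 qwp_G13a qwp_ScM qwp_SNc
theorem qwp_G14 : Pool.Agent.QWP.St_G14 :=
  Pool.Agent.QWP.thm_G14 qwp_Psi qwp_G2 qwe_WkS qwp_G12 qwp_G13a qwp_ScM qwp_SNc qwp_SNt
theorem qwp_ExBP : Pool.Agent.QWP.St_ExBP :=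
  Pool.Agent.QWP.thm_ExBP qwp_DnsP qwp_FldP
theorem qwp_PsiNZP : Pool.Agent.QWP.St_PsiNZP :=
  Pool.Agent.QWP.thm_PsiNZP qwp_ActP qwp_FldP qwp_DnsP qwp_ExBP
theorem qwp_FbPP : Pool.Agent.QWP.St_FbPP :=
  Pool.Agent.QWP.thm_FbPP qwp_PsiNZP qwe_GrA
theorem qwe_G0a : Pool.Agent.QWE.St_G0a :=
  Pool.Agent.QWE.thm_G0a qwe_Grp1 qwe_Grp2 qwe_SL1
theorem qwe_G0 : Pool.Agent.QWE.St_G0 :=
  Pool.Agent.QWE.thm_G0 qwe_G0a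
theorem qwe_GBd : Pool.Agent.QWE.St_GBd :=
  Pool.Agent.QWE.thm_GBd qwe_G0
theorem qwp_G15 : Pool.Agent.QWP.St_G15 :=
  Pool.Agent.QWP.thm_G15 qwp_G14 qwp_FbPP qwp_Psi qwe_GBd qwe_GrA qwp_SNc qwe_WkS qwp_SnP
theorem qwe_GLim : Pool.Agent.QWE.St_GLim :=
  Pool.Agent.QWE.thm_GLim qwe_GBd qwe_GrA
theorem qwp_C1a : Pool.Agent.QWP.St_C1a :=
  Pool.Agent.QWP.thm_C1a qwe_Grp1 qwp_StrS qwp_SNt qwp_Loc
theorem qwp_G16 : Pool.Agent.QWP.St_G16 :=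
  Pool.Agent.QWP.thm_G16 qwp_G15 qwe_GLim qwe_GBd qwp_C1a qwp_Stab qwp_MaxE qwp_ScM qwp_SNc qwe_WkS qwe_GrA
theorem qwp_C0 : Pool.Agent.QWP.St_C0 :=
  Pool.Agent.QWP.thm_C0 qwp_Uniq qwp_Small
theorem qwp_FSPP : Pool.Agent.QWP.St_FSPP :=
  Pool.Agent.QWP.thm_FSPP qwe_Grp1 qwp_ExBP qwp_FreeP
theorem qwp_DecX : Pool.Agent.QWP.St_DecX :=
  Pool.Agent.QWP.thm_DecX qwe_RadT qwe_SL1
theorem qwp_L8P : Pool.Agent.QWP.St_L8P :=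
  Pool.Agent.QWP.thm_L8P qwp_PJ qwp_DnsP qwp_FldP qwp_ExBP qwp_DecX
theorem qwp_ExFP : Pool.Agent.QWP.St_ExFP :=
  Pool.Agent.QWP.thm_ExFP qwp_FldP qwp_ExBP
theorem qwp_NLoP : Pool.Agent.QWP.St_NLoP :=
  Pool.Agent.QWP.thm_NLoP qwp_FldP qwp_ExBP qwp_L8P qwp_ExFP qwp_NLb
theorem qwp_NFSP : Pool.Agent.QWP.St_NFSP :=
  Pool.Agent.QWP.thm_NFSP qwp_ExBP qwp_ActP qwe_Grp1 qwp_FSPP qwp_StrS qwp_NLoP qwp_NLb qwp_Meas qwp_DuhI qwp_SNt qwp_Loc qwp_Uniq qwp_Sym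
theorem qwp_Ext : Pool.Agent.QWP.St_Ext :=
  Pool.Agent.QWP.thm_Ext qwp_ExBP qwp_Small qwp_NFSP
theorem qwp_GrP : Pool.Agent.QWP.St_GrP :=
  Pool.Agent.QWP.thm_GrP qwp_ActP
theorem qwp_Tga : Pool.Agent.QWP.St_Tga :=
  Pool.Agent.QWP.thm_Tga qwp_ExBP
theorem qwp_CSy : Pool.Agent.QWP.St_CSy :=
  Pool.Agent.QWP.thm_CSy qwe_Grp2 qwe_GrA qwp_Sym
theorem qwp_C1 : Pool.Agent.QWP.St_C1 :=
  Pool.Agent.QWP.thm_C1 qwp_C1a qwp_CSy qwp_MaxE qwe_GrA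
theorem qwp_C2a : Pool.Agent.QWP.St_C2a :=
  Pool.Agent.QWP.thm_C2a qwp_ExBP qwp_Ext qwe_GrA qwp_GrP qwp_Tga qwp_C1
theorem qwp_C2b : Pool.Agent.QWP.St_C2b :=
  Pool.Agent.QWP.thm_C2b qwp_FldP qwp_ExFP
theorem qwp_EnR : Pool.Agent.QWP.St_EnR :=
  Pool.Agent.QWP.thm_EnR qwe_Grp1 qwe_Iso qwe_Dens qwe_Sob qwp_Ft qwp_Par qwp_Idn
theorem qwp_EnS : Pool.Agent.QWP.St_EnS :=
  Pool.Agent.QWP.thm_EnS qwp_FldP qwp_FreX qwe_Grp1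
theorem qwp_EnU : Pool.Agent.QWP.St_EnU :=
  Pool.Agent.QWP.thm_EnU qwe_Grp1 qwe_RadT qwe_Dens qwp_FreX
theorem qwp_EnG : Pool.Agent.QWP.St_EnG :=
  Pool.Agent.QWP.thm_EnG qwp_NLw qwp_Meas qwp_EnS qwp_EnR qwp_EnU
theorem qwp_EnD : Pool.Agent.QWP.St_EnD :=
  Pool.Agent.QWP.thm_EnD qwe_Grp1 qwp_FldP qwp_NLb qwp_Meas qwp_DuhI qwp_FreX qwp_EnU
theorem qwp_ACq : Pool.Agent.QWP.St_ACq :=
  Pool.Agent.QWP.thm_ACq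
theorem qwp_WEq : Pool.Agent.QWP.St_WEq :=
  Pool.Agent.QWP.thm_WEq qwe_Grp1 qwe_RadT qwp_FldP qwp_DecayP qwp_Idn qwp_DnsP qwp_NLb qwp_Meas
theorem qwp_PotE : Pool.Agent.QWP.St_PotE :=
  Pool.Agent.QWP.thm_PotE qwp_FldP qwp_WEq qwp_EnS qwp_SnP
theorem qwp_En : Pool.Agent.QWP.St_En :=
  Pool.Agent.QWP.thm_En qwp_EnR qwp_EnS qwp_EnG qwp_EnD qwp_ACq qwp_PotE
theorem qwp_Z1 : Pool.Agent.QWP.St_Z1 :=
  Pool.Agent.QWP.thm_Z1 qwp_DnsP qwp_FldP qwp_EnS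
theorem qwp_C2 : Pool.Agent.QWP.St_C2 :=
  Pool.Agent.QWP.thm_C2 qwp_C2a qwp_C2b qwp_En qwp_Z1 qwp_CSy qwe_GrA
theorem qwp_C3 : Pool.Agent.QWP.St_C3 :=
  Pool.Agent.QWP.thm_C3 qwe_GrA qwe_GLim qwp_CSy qwp_C2 qwp_MaxE qwp_Stab qwp_Uniq qwp_Small
theorem qwp_C4 : Pool.Agent.QWP.St_C4 :=
  Pool.Agent.QWP.thm_C4 qwe_GrA qwe_G0 qwp_C3
theorem qwe_C5 : Pool.Agent.QWE.St_C5 :=
  Pool.Agent.QWE.thm_C5
theorem qwp_C6 : Pool.Agent.QWP.St_C6 :=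
  Pool.Agent.QWP.thm_C6 qwp_C4 qwp_C3 qwe_C5
theorem qwp_D1P : Pool.Agent.QWP.St_D1P :=
  Pool.Agent.QWP.thm_D1P qwp_Ft qwp_Hs qwp_IsoP qwp_DnsP qwp_FldP qwp_ExBP qwp_DecayP
theorem qwp_HBP : Pool.Agent.QWP.St_HBP :=
  Pool.Agent.QWP.thm_HBP qwp_ActP qwp_ExBP qwe_Grp2
theorem qwp_D2 : Pool.Agent.QWP.St_D2 :=
  Pool.Agent.QWP.thm_D2 qwp_Ext qwp_D1P qwp_ExBP qwp_HBP qwe_Grp1
theorem qwp_HcpP : Pool.Agent.QWP.St_HcpP :=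
  Pool.Agent.QWP.thm_HcpP qwp_ExBP qwp_HBP
theorem qwp_HscP : Pool.Agent.QWP.St_HscP :=
  Pool.Agent.QWP.thm_HscP qwp_ExBP qwp_CutP qwp_HBP
theorem qwp_D3 : Pool.Agent.QWP.St_D3 :=
  Pool.Agent.QWP.thm_D3 qwp_D2 qwp_HBP qwp_HcpP qwp_HscP qwp_C3 qwe_GrA qwp_CSy qwe_Grp1
theorem qwp_ABd : Pool.Agent.QWP.St_ABd :=
  Pool.Agent.QWP.thm_ABd qwe_GBd
theorem qwp_D4 : Pool.Agent.QWP.St_D4 :=
  Pool.Agent.QWP.thm_D4 qwp_D2 qwp_D3 qwp_HBP qwp_HcpP qwp_ABd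
theorem qwe_Intp : Pool.Agent.QWE.St_Intp :=
  Pool.Agent.QWE.thm_Intp
theorem qwp_D5 : Pool.Agent.QWP.St_D5 :=
  Pool.Agent.QWP.thm_D5 qwp_D4 qwe_Intp
theorem qwp_Tgt : Pool.Agent.QWP.St_Tgt :=
  Pool.Agent.QWP.thm_Tgt qwp_Tga qwp_GrP
theorem qwp_NPth : Pool.Agent.QWP.St_NPth :=
  Pool.Agent.QWP.thm_NPth qwp_ExBP qwe_GrA qwp_Tgt
theorem qwp_PSy : Pool.Agent.QWP.St_PSy :=
  Pool.Agent.QWP.thm_PSy qwe_Grp2 qwp_ActP qwp_Sym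
theorem qwp_NLi : Pool.Agent.QWP.St_NLi :=
  Pool.Agent.QWP.thm_NLi qwe_Grp1 qwp_NLb qwp_Meas
theorem qwp_Gag1 : Pool.Agent.QWP.St_Gag1 :=
  Pool.Agent.QWP.thm_Gag1 qwp_PJ
theorem qwp_Hrd : Pool.Agent.QWP.St_Hrd :=
  Pool.Agent.QWP.thm_Hrd qwp_Gag1
theorem qwp_MulB : Pool.Agent.QWP.St_MulB :=
  Pool.Agent.QWP.thm_MulB qwp_PJ qwp_DnsP qwp_Gag1 qwp_Hrd
theorem qwp_MulP : Pool.Agent.QWP.St_MulP :=
  Pool.Agent.QWP.thm_MulP qwp_PJ qwp_DnsP qwp_MulB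
theorem qwp_P3a : Pool.Agent.QWP.St_P3a :=
  Pool.Agent.QWP.thm_P3a qwe_Grp1 qwp_NLi qwp_MulP
theorem qwp_NaB : Pool.Agent.QWP.St_NaB :=
  Pool.Agent.QWP.thm_NaB qwp_PJ qwe_Grp1 qwe_Grp2
theorem qwp_P1a : Pool.Agent.QWP.St_P1a :=
  Pool.Agent.QWP.thm_P1a qwp_NaB qwp_NLoP qwp_NLi qwp_ExBP qwp_L8P qwp_Ext
theorem qwp_P1 : Pool.Agent.QWP.St_P1 :=
  Pool.Agent.QWP.thm_P1 qwp_NaB qwp_PSy qwp_P1a
theorem qwp_P3b : Pool.Agent.QWP.St_P3b :=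
  Pool.Agent.QWP.thm_P3b qwp_MulP qwp_P1
theorem qwe_NFa : Pool.Agent.QWE.St_NFa :=
  Pool.Agent.QWE.thm_NFa qwe_RadT qwe_Iso qwe_Dens
theorem qwp_NFt : Pool.Agent.QWP.St_NFt :=
  Pool.Agent.QWP.thm_NFt qwe_Grp1 qwp_PJ qwp_NcR qwp_Idn qwp_IsoP qwp_DnsP qwp_MulP
theorem qwe_NFK : Pool.Agent.QWE.St_NFK :=
  Pool.Agent.QWE.thm_NFK qwe_SL
theorem qwp_NFc : Pool.Agent.QWP.St_NFc :=
  Pool.Agent.QWP.thm_NFc qwe_RadT qwe_NFK qwe_NFa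
theorem qwp_DyS : Pool.Agent.QWP.St_DyS :=
  Pool.Agent.QWP.thm_DyS qwp_Hs qwp_IsoP
theorem qwp_NF1P : Pool.Agent.QWP.St_NF1P :=
  Pool.Agent.QWP.thm_NF1P qwe_NFa qwp_NFt qwp_NFc qwp_DyS
theorem qwp_NFP : Pool.Agent.QWP.St_NFP :=
  Pool.Agent.QWP.thm_NFP qwe_Grp1 qwe_Grp2 qwp_PJ qwp_DnsP qwp_FldP qwp_ActP qwp_MulP qwp_GamP qwp_NF1P
theorem qwp_Core : Pool.Agent.QWP.St_Core :=
  Pool.Agent.QWP.thm_Core qwp_IsoP qwp_FldP qwp_ExFP qwp_GamP qwp_NLb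
theorem qwp_P3c : Pool.Agent.QWP.St_P3c :=
  Pool.Agent.QWP.thm_P3c qwp_FldP qwp_NFP qwp_MulP qwp_NLoP qwp_Core
theorem qwp_P3d : Pool.Agent.QWP.St_P3d :=
  Pool.Agent.QWP.thm_P3d qwp_Ext
theorem qwp_P3e : Pool.Agent.QWP.St_P3e :=
  Pool.Agent.QWP.thm_P3e qwp_ExBP qwp_MulP qwp_NLi qwp_P3a qwp_P3c qwp_P3d
theorem qwp_L5B : Pool.Agent.QWP.St_L5B :=
  Pool.Agent.QWP.thm_L5B qwp_FldP qwp_ExFP
theorem qwp_P3 : Pool.Agent.QWP.St_P3 :=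
  Pool.Agent.QWP.thm_P3 qwp_ExBP qwp_P3a qwp_P3b qwp_P3e qwp_L5B
theorem qwp_P4r : Pool.Agent.QWP.St_P4r :=
  Pool.Agent.QWP.thm_P4r
theorem qwp_P4 : Pool.Agent.QWP.St_P4 :=
  Pool.Agent.QWP.thm_P4 qwp_ExBP qwp_PSy qwp_P3 qwp_P4r
theorem qwp_E1 : Pool.Agent.QWP.St_E1 :=
  Pool.Agent.QWP.thm_E1 qwp_FldP qwp_ExFP
theorem qwp_MorS : Pool.Agent.QWP.St_MorS :=
  Pool.Agent.QWP.thm_MorS
theorem qwp_MorF : Pool.Agent.QWP.St_MorF :=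
  Pool.Agent.QWP.thm_MorF qwe_Grp1 qwe_RadT qwe_Iso qwp_FreX qwp_EnU qwp_EnR qwp_MorS
theorem qwp_Mor : Pool.Agent.QWP.St_Mor :=
  Pool.Agent.QWP.thm_Mor qwp_EnR qwp_EnS qwp_EnG qwp_EnD qwp_ACq qwp_En qwp_MorS qwp_MorF
theorem qwp_UV0 : Pool.Agent.QWP.St_UV0 :=
  Pool.Agent.QWP.thm_UV0 qwp_WEq qwp_FldP qwp_DnsP
theorem qwp_E3a : Pool.Agent.QWP.St_E3a :=
  Pool.Agent.QWP.thm_E3a qwp_FldP qwp_C3 qwp_LscP qwp_UV0 qwp_ActP qwe_GrA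
theorem qwp_E3 : Pool.Agent.QWP.St_E3 :=
  Pool.Agent.QWP.thm_E3 qwp_E3a
theorem qwp_E4a : Pool.Agent.QWP.St_E4a :=
  Pool.Agent.QWP.thm_E4a qwp_FldP qwp_ExFP qwp_EnS
theorem qwp_E4 : Pool.Agent.QWP.St_E4 :=
  Pool.Agent.QWP.thm_E4 qwe_GrA qwp_GrP qwp_Tga qwp_En qwp_Z1 qwp_E1 qwp_E4a
theorem qwp_R : Pool.Agent.QWP.St_R :=
  Pool.Agent.QWP.thm_R qwp_C0 qwp_C2 qwp_C6 qwp_D5 qwp_NPth qwp_P4 qwp_E1 qwp_Mor qwp_E3 qwp_E4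
theorem qwp_LA : Pool.Agent.QWP.St_LA :=
  Pool.Agent.QWP.thm_LA qwp_G13 qwp_G16 qwp_R qwe_GrA
theorem qwp_HDl : Pool.Agent.QWP.St_HDl :=
  Pool.Agent.QWP.thm_HDl
theorem qwp_Br1 : Pool.Agent.QWP.St_Br1 :=
  Pool.Agent.QWP.thm_Br1 qwp_IsoP qwp_DnsP qwp_FldP qwp_HDl
theorem qwp_Br2 : Pool.Agent.QWP.St_Br2 :=
  Pool.Agent.QWP.thm_Br2 qwe_Grp1 qwp_Ft qwp_DnsP qwp_FldP qwp_FreeP qwp_NLb qwp_Meas qwp_Br1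
theorem qwp_Br3 : Pool.Agent.QWP.St_Br3 :=
  Pool.Agent.QWP.thm_Br3 qwe_Grp1 qwp_Ft qwp_FldP qwp_WEq qwp_Br1
theorem qwp_FinalOf : Pool.Agent.QWP.St_FinalOf :=
  Pool.Agent.QWP.thm_FinalOf qwe_Grp1 qwp_FldP qwp_MaxE qwp_Blow qwp_Br1 qwp_Br2 qwp_Br3

/-- The critical norm conjecture on `ℝ^5` for every `p > 3` (`b = p - 1 > 2`). -/
theorem finalD : ∀ b : ℝ, 2 < b → Pool.Agent.QWP.FinalD b :=
  Pool.Agent.QWP.thm_FinalD qwe_Grp1 qwp_Ft qwp_FreX qwp_FldP qwp_Meas qwp_NLb qwp_DnsP qwp_MaxE qwp_Blow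
    qwp_Br1 qwp_Br2 qwp_Br3 qwp_LA

/-- The same for the literal definitions of `QWL`. -/
theorem final5 : ∀ p : ℝ, 3 < p → Pool.Agent.QWL.Final 5 p :=
  Pool.Agent.QWP.thm_Final5 finalD

end Pool.Agent.QWP.Asm
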