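import Pool.Agent.QWP.StB
import Pool.Agent.QWE.Blow

set_option autoImplicit false

/-!
# QWP, Blow: blow-up criterion and scattering (port of QWE/Blow.lean)
-/

open MeasureTheory Filter Topology Set
open scoped ENNReal NNReal RealInnerProductSpace Pointwise

namespace Pool.Agent.QWP

open Pool.Agent.QWE (E S sg mu K toK tau sh dl rev gr ig IsTest pd lap Rad dRad Rk dRk c0 WD Sm SmE IsSch half shr WTo)
open Pool.Agent.QWE.Blowx (joint intg pull duh kh_cont kh_duh ord_diff)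

namespace Blowx

theorem sol_mono {b : ℝ} {I J : Set ℝ} {k : ℝ → K} (h : IsSol b I k) (hJ : J ⊆ I) (ho : J.OrdConnected) :
    IsSol b J k :=
  ⟨ho, h.2.1.mono hJ, fun a ha b hb => h.2.2.1 a (hJ ha) b (hJ hb),
    fun s hs t ht => h.2.2.2 s (hJ hs) t (hJ ht)⟩

theorem intNL {b : ℝ} (hb : 2 < b) (hNLb : St_NLb) (hMeas : St_Meas) {k : ℝ → K} {J : Set ℝ}
    (hJ : MeasurableSet J) (hk : ContinuousOn k J) (hS : SN b J k < ⊤) {B : ℝ}
    (hB : ∀ t ∈ J, ‖k t‖ ≤ B) : IntegrableOn (fun r => NL b (k r)) J volume := by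
  obtain ⟨⟨C, hC, h1, -⟩, -⟩ := hNLb b hb
  have hb0 : 0 < b := by linarith
  have hm : AEStronglyMeasurable k (volume.restrict J) := hk.aestronglyMeasurable hJ
  obtain ⟨h4, -, h3⟩ := hMeas b hb k J hJ hm
  have h5 : ∀ᵐ r ∂(volume.restrict J), sn b (k r) < ⊤ := by
    have h6 := ae_lt_top' (h4.pow_const b) hS.ne
    filter_upwards [h6] with r hr
    by_contra h7
    rw [not_lt, top_le_iff] at h7
    rw [h7, ENNReal.top_rpow_of_pos hb0] at hr
    exact absurd hr (by simp)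
  refine ⟨h3 h5, ?_⟩
  have h6 : ∫⁻ r in J, ‖NL b (k r)‖ₑ ≤ ENNReal.ofReal C * ENNReal.ofReal B * SN b J k := by
    rw [SN, ← lintegral_const_mul' _ _ (by finiteness)]
    refine setLIntegral_mono' hJ fun r hr => ?_
    refine (h1 (k r)).trans ?_
    have h7 : ‖k r‖ₑ ≤ ENNReal.ofReal B := by
      rw [← ofReal_norm]
      exact ENNReal.ofReal_le_ofReal (hB r hr)
    calc ENNReal.ofReal C * sn b (k r) ^ b * ‖k r‖ₑ
        ≤ ENNReal.ofReal C * sn b (k r) ^ b * ENNReal.ofReal B := by gcongr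
      _ = ENNReal.ofReal C * ENNReal.ofReal B * sn b (k r) ^ b := by ring
  refine lt_of_le_of_lt h6 ?_
  exact ENNReal.mul_lt_top (by finiteness) hS

theorem small_SN {b : ℝ} (hb : 2 < b) (hStr : St_StrS) (k0 : K) (T1 : ℝ) {η : ℝ} (hη : 0 < η) :
    ∃ δ : ℝ, 0 < δ ∧
      SN b (Icc (T1 - δ) (T1 + δ)) (fun t => tau (t - T1) k0) ≤ ENNReal.ofReal η ^ b := by
  obtain ⟨C, hC, h⟩ := hStr b hb
  have h1 : ∫⁻ t, sn b (tau (t - T1) k0) ^ b ≠ ⊤ := by
    rw [lintegral_sub_right_eq_self (fun t => sn b (tau t k0) ^ b) T1]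
    refine ne_top_of_le_ne_top ?_ (h k0).1
    exact ENNReal.rpow_ne_top_of_nonneg (by linarith)
      (ENNReal.mul_ne_top ENNReal.ofReal_ne_top enorm_ne_top)
  have h2 : ENNReal.ofReal η ^ b ≠ 0 :=
    (ENNReal.rpow_pos (ENNReal.ofReal_pos.2 hη) ENNReal.ofReal_ne_top).ne'
  obtain ⟨d, hd, h3⟩ := exists_pos_setLIntegral_lt_of_measure_lt h1 h2
  obtain ⟨x, hx0, hxd⟩ := ENNReal.lt_iff_exists_nnreal_btwn.1 hd
  have hx : (0 : ℝ) < x := by exact_mod_cast hx0
  refine ⟨x / 2, by positivity, (h3 _ ?_).le⟩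
  rw [Real.volume_Icc]
  have h4 : T1 + (x : ℝ) / 2 - (T1 - x / 2) = x := by ring
  rw [h4, ENNReal.ofReal_coe_nnreal]
  exact hxd

theorem gext {b : ℝ} (hb : 2 < b) (hGrp : Pool.Agent.QWE.St_Grp1) (hStr : St_StrS) (hNLb : St_NLb) (hMeas : St_Meas) (hLoc : St_Loc)
    (hGlue : St_Glue) (hGron : St_Gron) {I : Set ℝ} {k : ℝ → K} {t0 T1 : ℝ} (hI : IsMax b I k)
    (ht0 : t0 ∈ I) (hT1 : T1 ∉ I) (hsub : uIcc t0 T1 \ {T1} ⊆ I)
    (hS : SN b (uIcc t0 T1 \ {T1}) k < ⊤) : False := by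
  obtain ⟨hsol, hopen, -, hmax⟩ := hI
  obtain ⟨hadd, h0, -, -, -, -, -, hc, -⟩ := hGrp
  have hne : t0 ≠ T1 := by
    rintro rfl
    exact hT1 ht0
  have hmeas : MeasurableSet (uIcc t0 T1 \ {T1}) := measurableSet_uIcc.diff (measurableSet_singleton _)
  have hsol' : IsSol b (uIcc t0 T1 \ {T1}) k := sol_mono hsol hsub (ord_diff t0 T1)
  have ht0' : t0 ∈ uIcc t0 T1 \ {T1} := ⟨left_mem_uIcc, hne⟩
  obtain ⟨C, hC, hg⟩ := hGron b hb
  have hN : IntegrableOn (fun r => NL b (k r)) (uIcc t0 T1 \ {T1}) volume :=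
    intNL hb hNLb hMeas hmeas hsol'.2.1 hS (fun t ht => hg _ k hsol' hS t0 ht0' t ht)
  have hae : (uIcc t0 T1 \ {T1} : Set ℝ) =ᵐ[volume] uIcc t0 T1 :=
    sdiff_null_ae_eq_self (measure_singleton T1)
  have hN' : IntegrableOn (fun r => NL b (k r)) (uIcc t0 T1) volume :=
    (integrableOn_congr_set_ae hae).1 hN
  set w0 : K := tau (-t0) (k t0) with hw0
  set kh : ℝ → K := fun t => tau t (w0 - ∫ r in t0..t, tau (-r) (NL b (k r))) with hkh
  have heq : ∀ t ∈ uIcc t0 T1 \ {T1}, kh t = k t := by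
    intro t ht
    have h1 : IntegrableOn (fun r => NL b (k r)) (uIcc t0 t) volume :=
      hN'.mono_set (uIcc_subset_uIcc left_mem_uIcc ht.1)
    have h2 := duh (T := tau) hadd h0 hc h1 (hsol'.2.2.2 t0 ht0' t ht)
    change tau t (w0 - ∫ r in t0..t, tau (-r) (NL b (k r))) = k t
    rw [hw0, ← h2, hadd, add_neg_cancel, h0]
  have hkc : ContinuousOn kh (uIcc t0 T1) := kh_cont (T := tau) hc hN' w0
  have hSN : SN b (uIcc t0 T1) kh < ⊤ := by
    have h1 : SN b (uIcc t0 T1) kh = SN b (uIcc t0 T1 \ {T1}) k := by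
      unfold SN
      rw [← setLIntegral_congr hae]
      exact setLIntegral_congr_fun hmeas fun t ht => by rw [heq t ht]
    rw [h1]
    exact hS
  have hkhs : IsSol b (uIcc t0 T1) kh := by
    refine ⟨ordConnected_uIcc, hkc, ?_, ?_⟩
    · intro x hx y hy
      refine lt_of_le_of_lt ?_ hSN
      exact lintegral_mono_set (ordConnected_uIcc.out hx hy)
    · intro s hs t ht
      have h1 := kh_duh (T := tau) hadd hc hN' w0 hs ht
      change tau t (w0 - ∫ r in t0..t, tau (-r) (NL b (k r))) =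
        tau (t - s) (tau s (w0 - ∫ r in t0..s, tau (-r) (NL b (k r)))) - _
      rw [h1]
      congr 1
      refine intervalIntegral.integral_congr_ae ?_
      have h2 : ∀ᵐ r : ℝ, r ≠ T1 := by
        rw [ae_iff]
        simp
      filter_upwards [h2] with r hr hr'
      rw [heq r ⟨uIcc_subset_uIcc hs ht (uIoc_subset_uIcc hr'), hr⟩]
  obtain ⟨η, hη, hl⟩ := hLoc b hb (‖kh T1‖ + 1) (by positivity)
  obtain ⟨δ, hδ, hsm⟩ := small_SN hb hStr (kh T1) T1 hη
  obtain ⟨k1, hk1, hk1T, -⟩ := hl (kh T1) (T1 - δ) (T1 + δ) T1 η (by linarith) (by linarith)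
    (by linarith) hη le_rfl hsm
  have hT1' : T1 ∈ Icc (T1 - δ) (T1 + δ) := ⟨by linarith, by linarith⟩
  obtain ⟨k2, hk2, hk2a, -⟩ := hGlue b hb _ _ kh k1 T1 hkhs hk1 right_mem_uIcc hT1' hk1T.symm
  have ht0u : t0 ∈ uIcc t0 T1 ∪ Icc (T1 - δ) (T1 + δ) := Or.inl left_mem_uIcc
  obtain ⟨k3, hk3, hk3a, -⟩ := hGlue b hb _ _ k k2 t0 hsol hk2 ht0 ht0u
    (by rw [hk2a t0 left_mem_uIcc, heq t0 ht0'])
  exact hT1 (hmax _ k3 hk3 subset_union_left hk3a (Or.inr (Or.inl right_mem_uIcc)))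

end Blowx

open Blowx in
theorem thm_Blow (hGrp : Pool.Agent.QWE.St_Grp1) (hStr : St_StrS) (hNLb : St_NLb) (hMeas : St_Meas)
    (hLoc : St_Loc) (hGlue : St_Glue) (hGron : St_Gron) : St_Blow := by
  intro b hb I k t0 hI ht0
  have hopen : IsOpen I := hI.2.1
  have hsol : IsSol b I k := hI.1
  have hg1 := hGrp
  obtain ⟨hadd, h0, -, -, -, -, -, hc, -⟩ := hg1
  obtain ⟨C, hC, hg⟩ := hGron b hb
  have hw : ∀ (J : Set ℝ), IntegrableOn (fun r => NL b (k r)) J volume → J ⊆ I →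
      ∀ t, uIcc t0 t ⊆ J →
      tau (-t) (k t) = tau (-t0) (k t0) - ∫ r in t0..t, tau (-r) (NL b (k r)) := by
    intro J hJ hJI t ht
    exact duh (T := tau) hadd h0 hc (hJ.mono_set ht)
      (hsol.2.2.2 t0 ht0 t (hJI (ht right_mem_uIcc)))
  constructor
  · intro hS
    have hI' : Ici t0 ⊆ I := by
      by_contra hcon
      have hne : (Ici t0 ∩ Iᶜ).Nonempty := by
        rw [not_subset] at hcon
        obtain ⟨x, hx, hx'⟩ := hcon
        exact ⟨x, hx, hx'⟩
      have hcl : IsClosed (Ici t0 ∩ Iᶜ) := isClosed_Ici.inter hopen.isClosed_compl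
      have hbd : BddBelow (Ici t0 ∩ Iᶜ) := ⟨t0, fun x hx => hx.1⟩
      have hmem := hcl.csInf_mem hne hbd
      set T1 := sInf (Ici t0 ∩ Iᶜ) with hT1
      have hle : t0 ≤ T1 := hmem.1
      have hsub : uIcc t0 T1 \ {T1} ⊆ I ∩ Ici t0 := by
        rintro x ⟨hx, hx'⟩
        rw [uIcc_of_le hle] at hx
        have hlt : x < T1 := lt_of_le_of_ne hx.2 hx'
        refine ⟨?_, hx.1⟩
        by_contra hxI
        exact notMem_of_lt_csInf hlt hbd ⟨hx.1, hxI⟩
      exact gext hb hGrp hStr hNLb hMeas hLoc hGlue hGron hI ht0 hmem.2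
        (hsub.trans inter_subset_left) (lt_of_le_of_lt (lintegral_mono_set hsub) hS)
    have hJ : I ∩ Ici t0 = Ici t0 := inter_eq_right.2 hI'
    rw [hJ] at hS
    have hs' := sol_mono hsol hI' ordConnected_Ici
    have hB := fun t ht => hg _ k hs' hS t0 self_mem_Ici t ht
    refine ⟨hI', ⟨_, hB⟩, ?_⟩
    have hN := intNL hb hNLb hMeas measurableSet_Ici hs'.2.1 hS hB
    have hG : IntegrableOn (fun r => tau (-r) (NL b (k r))) (Ioi t0) volume :=
      intg (T := tau) hc (hN.mono_set Ioi_subset_Ici_self) continuous_neg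
    have hlim := intervalIntegral_tendsto_integral_Ioi t0 hG tendsto_id
    refine ⟨_, (hlim.const_sub (tau (-t0) (k t0))).congr' ?_⟩
    filter_upwards [eventually_ge_atTop t0] with t ht
    rw [hw _ hN hI' t]
    · rfl
    · rw [uIcc_of_le ht]
      exact Icc_subset_Ici_self
  · intro hS
    have hI' : Iic t0 ⊆ I := by
      by_contra hcon
      have hne : (Iic t0 ∩ Iᶜ).Nonempty := by
        rw [not_subset] at hcon
        obtain ⟨x, hx, hx'⟩ := hcon
        exact ⟨x, hx, hx'⟩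
      have hcl : IsClosed (Iic t0 ∩ Iᶜ) := isClosed_Iic.inter hopen.isClosed_compl
      have hbd : BddAbove (Iic t0 ∩ Iᶜ) := ⟨t0, fun x hx => hx.1⟩
      have hmem := hcl.csSup_mem hne hbd
      set T1 := sSup (Iic t0 ∩ Iᶜ) with hT1
      have hle : T1 ≤ t0 := hmem.1
      have hsub : uIcc t0 T1 \ {T1} ⊆ I ∩ Iic t0 := by
        rintro x ⟨hx, hx'⟩
        rw [uIcc_of_ge hle] at hx
        have hlt : T1 < x := lt_of_le_of_ne hx.1 (fun h => hx' h.symm)
        refine ⟨?_, hx.2⟩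
        by_contra hxI
        exact notMem_of_csSup_lt hlt hbd ⟨hx.2, hxI⟩
      exact gext hb hGrp hStr hNLb hMeas hLoc hGlue hGron hI ht0 hmem.2
        (hsub.trans inter_subset_left) (lt_of_le_of_lt (lintegral_mono_set hsub) hS)
    have hJ : I ∩ Iic t0 = Iic t0 := inter_eq_right.2 hI'
    rw [hJ] at hS
    have hs' := sol_mono hsol hI' ordConnected_Iic
    have hB := fun t ht => hg _ k hs' hS t0 self_mem_Iic t ht
    refine ⟨hI', ⟨_, hB⟩, ?_⟩
    have hN := intNL hb hNLb hMeas measurableSet_Iic hs'.2.1 hS hB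
    have hG : IntegrableOn (fun r => tau (-r) (NL b (k r))) (Iic t0) volume :=
      intg (T := tau) hc hN continuous_neg
    have hlim := intervalIntegral_tendsto_integral_Iic t0 hG tendsto_id
    refine ⟨_, (hlim.const_add (tau (-t0) (k t0))).congr' ?_⟩
    filter_upwards [eventually_le_atBot t0] with t ht
    have e := hw _ hN hI' t (by
      rw [uIcc_of_ge ht]
      exact Icc_subset_Iic_self)
    have e1 : (∫ x in (id t)..t0, tau (-x) (NL b (k x))) = -∫ x in t0..t, tau (-x) (NL b (k x)) :=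
      intervalIntegral.integral_symm _ _
    rw [e, e1, ← sub_eq_add_neg]

end Pool.Agent.QWP
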