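import Pool.Agent.QWP.StA

set_option autoImplicit false

/-!
# QWP CutP (MP_9ce95b_an): cut-off operators
-/

open MeasureTheory Filter Topology Set
open scoped ENNReal NNReal RealInnerProductSpace ContDiff

namespace Pool.Agent.QWP

open Pool.Agent.QWE (E S sg mu K toK tau sh dl rev gr ig IsTest pd lap Rad dRad Rk dRk c0 WD Sm SmE IsSch half shr WTo)

namespace CutPx

/-! ### test functions -/

private lemma test_sub {f g : E → ℝ} (hf : IsTest f) (hg : IsTest g) : IsTest fun x => f x - g x :=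
  ⟨hf.1.sub hg.1, hf.2.sub hg.2⟩

private lemma test_mul {χ f : E → ℝ} (hχ : ContDiff ℝ ∞ χ) (hf : IsTest f) :
    IsTest fun x => χ x * f x :=
  ⟨hχ.mul hf.1, hf.2.mul_left⟩

private lemma sch {f : E → ℝ} (hf : IsTest f) : IsSch f :=
  ⟨hf.2.toSchwartzMap hf.1, fun _ => rfl⟩

private lemma test_int2 {f g : E → ℝ} (hf : IsTest f) (hg : IsTest g) :
    Integrable (fun x => f x * g x) volume :=
  (hf.1.continuous.mul hg.1.continuous).integrable_of_hasCompactSupport hg.2.mul_left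

/-! ### testing -/

private lemma orth_span (s : Set K) (k : K) :
    k ∈ (Submodule.span ℝ s)ᗮ ↔ ∀ u ∈ s, inner ℝ k u = 0 := by
  constructor
  · intro h u hu
    exact (Submodule.mem_orthogonal' _ _).1 h u (Submodule.subset_span hu)
  · intro h
    rw [Submodule.mem_orthogonal']
    intro u hu
    induction hu using Submodule.span_induction with
    | mem x hx => exact h x hx
    | zero => exact inner_zero_right _
    | add x y _ _ hx hy => rw [inner_add_right, hx, hy, add_zero]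
    | smul a x _ hx => rw [inner_smul_right, hx, mul_zero]

variable {s : ℝ}

private lemma van_iff (Ω : Set E) (k : K) : Van s Ω k ↔ ∀ φ, IsTest φ → tsupport φ ⊆ Ω →
    inner ℝ k (Rs s φ) = 0 ∧ inner ℝ k (dRs s φ) = 0 := by
  unfold Van TS
  rw [Submodule.orthogonal_closure, orth_span]
  constructor
  · intro h φ h1 h2
    exact ⟨h _ ⟨φ, h1, h2, Or.inl rfl⟩, h _ ⟨φ, h1, h2, Or.inr rfl⟩⟩
  · rintro h u ⟨φ, h1, h2, rfl | rfl⟩
    · exact (h φ h1 h2).1
    · exact (h φ h1 h2).2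

private lemma eq_of_test (hD : TS s univ = ⊤) (k k' : K)
    (h : ∀ φ, IsTest φ → inner ℝ k (Rs s φ) = inner ℝ k' (Rs s φ) ∧
      inner ℝ k (dRs s φ) = inner ℝ k' (dRs s φ)) : k = k' := by
  have h1 : Van s univ (k - k') := by
    rw [van_iff]
    intro φ hφ _
    rw [inner_sub_left, inner_sub_left, (h φ hφ).1, (h φ hφ).2, sub_self, sub_self]
    exact ⟨rfl, rfl⟩
  unfold Van at h1
  rw [hD, Submodule.top_orthogonal_eq_bot, Submodule.mem_bot] at h1
  exact sub_eq_zero.1 h1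

/-- the fields tested with Schwartz functions -/
private def Tst (s : ℝ) : Prop := ∀ (k : K) (φ : E → ℝ), IsSch φ →
  ∫ x, U s k x * φ x = inner ℝ k (Rs s φ) ∧ ∫ x, V s k x * φ x = inner ℝ k (dRs s φ)

/-- the fields of test states -/
private def FTh (s : ℝ) : Prop := ∀ f g : E → ℝ, IsTest f → IsTest g →
  (U s (Theta s f g) =ᵐ[volume] f) ∧ (V s (Theta s f g) =ᵐ[volume] g)

private lemma inner_Theta (hT : Tst s) (hF : FTh s) {f g φ : E → ℝ} (hf : IsTest f)
    (hg : IsTest g) (hφ : IsTest φ) :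
    inner ℝ (Theta s f g) (Rs s φ) = ∫ x, f x * φ x ∧
      inner ℝ (Theta s f g) (dRs s φ) = ∫ x, g x * φ x := by
  obtain ⟨a1, a2⟩ := hF f g hf hg
  obtain ⟨b1, b2⟩ := hT (Theta s f g) φ (sch hφ)
  constructor
  · rw [← b1]
    refine integral_congr_ae ?_
    filter_upwards [a1] with x hx
    rw [hx]
  · rw [← b2]
    refine integral_congr_ae ?_
    filter_upwards [a2] with x hx
    rw [hx]

private lemma Theta_sub (hD : TS s univ = ⊤) (hT : Tst s) (hF : FTh s) {f g f' g' : E → ℝ}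
    (hf : IsTest f) (hg : IsTest g) (hf' : IsTest f') (hg' : IsTest g') :
    Theta s f g - Theta s f' g' = Theta s (fun x => f x - f' x) (fun x => g x - g' x) := by
  refine eq_of_test hD _ _ fun φ hφ => ?_
  obtain ⟨a1, a2⟩ := inner_Theta hT hF hf hg hφ
  obtain ⟨b1, b2⟩ := inner_Theta hT hF hf' hg' hφ
  obtain ⟨c1, c2⟩ := inner_Theta hT hF (test_sub hf hf') (test_sub hg hg') hφ
  rw [inner_sub_left, inner_sub_left, a1, a2, b1, b2, c1, c2,
    ← integral_sub (test_int2 hf hφ) (test_int2 hf' hφ),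
    ← integral_sub (test_int2 hg hφ) (test_int2 hg' hφ)]
  constructor
  · refine integral_congr_ae (Eventually.of_forall fun x => ?_)
    ring
  · refine integral_congr_ae (Eventually.of_forall fun x => ?_)
    ring

/-! ### the cut-off functions -/

/-- the fixed bump function -/
private noncomputable def bet : ContDiffBump (0 : E) := ⟨1, 2, one_pos, one_lt_two⟩

private lemma bet_sm : ContDiff ℝ ∞ bet := bet.contDiff

private lemma bet_test : IsTest bet := ⟨bet_sm, bet.hasCompactSupport⟩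

/-- the cut-off functions -/
private noncomputable def chi (M : ℕ) (x : E) : ℝ := bet (((M : ℝ) + 1)⁻¹ • x)

private lemma chi_sm (M : ℕ) : ContDiff ℝ ∞ (chi M) :=
  bet_sm.comp (contDiff_const_smul _)

private lemma chi_nonneg (M : ℕ) (x : E) : 0 ≤ chi M x := bet.nonneg

private lemma chi_le (M : ℕ) (x : E) : chi M x ≤ 1 := bet.le_one

private lemma M_pos (M : ℕ) : (0 : ℝ) < (M : ℝ) + 1 := by positivity

private lemma norm_sc (M : ℕ) (x : E) : ‖((M : ℝ) + 1)⁻¹ • x‖ = ((M : ℝ) + 1)⁻¹ * ‖x‖ := by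
  rw [norm_smul, Real.norm_of_nonneg (inv_nonneg.2 (M_pos M).le)]

private lemma chi_one (M : ℕ) (x : E) (h : ‖x‖ ≤ M + 1) : chi M x = 1 := by
  refine bet.one_of_mem_closedBall ?_
  rw [Metric.mem_closedBall, dist_zero_right, norm_sc]
  change ((M : ℝ) + 1)⁻¹ * ‖x‖ ≤ 1
  rw [inv_mul_le_iff₀ (M_pos M), mul_one]
  exact h

private lemma chi_zero (M : ℕ) (x : E) (h : 2 * ((M : ℝ) + 1) ≤ ‖x‖) : chi M x = 0 := by
  refine bet.zero_of_le_dist ?_
  rw [dist_zero_right, norm_sc]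
  change (2 : ℝ) ≤ ((M : ℝ) + 1)⁻¹ * ‖x‖
  rw [le_inv_mul_iff₀ (M_pos M)]
  linarith

private lemma chi_test (M : ℕ) : IsTest (chi M) := by
  refine ⟨chi_sm M, HasCompactSupport.intro (isCompact_closedBall (0 : E) (2 * ((M : ℝ) + 1)))
    fun x hx => ?_⟩
  rw [Metric.mem_closedBall, dist_zero_right] at hx
  exact chi_zero M x (not_le.1 hx).le

/-! ### the bound -/

private lemma hs_nonneg (a : ℝ) (φ : E → ℝ) : 0 ≤ hs a φ := by
  unfold hs
  exact integral_nonneg fun ξ => by positivity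

private lemma key (hI : St_IsoP) (hM : St_CutM) (hs2 : |s| < 1 / 2) : ∃ C : ℝ, 0 ≤ C ∧
    ∀ (M : ℕ) (f g : E → ℝ), IsTest f → IsTest g →
      ‖Theta s (fun x => chi M x * f x) (fun x => chi M x * g x)‖ ≤ C * ‖Theta s f g‖ := by
  have hlt := abs_lt.1 hs2
  obtain ⟨C1, hC1, h1⟩ := hM (2 + s) bet (by linarith [hlt.1]) (by linarith [hlt.2]) bet_test
  obtain ⟨C2, hC2, h2⟩ := hM (1 + s) bet (by linarith [hlt.1]) (by linarith [hlt.2]) bet_test
  have hc0 : 0 ≤ c0 := by unfold c0; positivity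
  refine ⟨√(C1 + C2), Real.sqrt_nonneg _, fun M f g hf hg => ?_⟩
  have e1 := (hI s f g hs2 (sch hf) (sch hg)).2.2.2.2.2.2.1
  have e2 := (hI s _ _ hs2 (sch (test_mul (chi_sm M) hf))
    (sch (test_mul (chi_sm M) hg))).2.2.2.2.2.2.1
  have h3 : hs (2 + s) (fun x => chi M x * f x) ≤ C1 * hs (2 + s) f :=
    h1 ((M : ℝ) + 1) f (M_pos M) (sch hf)
  have h4 : hs (1 + s) (fun x => chi M x * g x) ≤ C2 * hs (1 + s) g :=
    h2 ((M : ℝ) + 1) g (M_pos M) (sch hg)
  have p1 := hs_nonneg (2 + s) f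
  have p2 := hs_nonneg (1 + s) g
  refine le_of_sq_le_sq ?_ (by positivity)
  rw [e2, mul_pow, Real.sq_sqrt (by positivity), e1]
  have h5 : hs (2 + s) (fun x => chi M x * f x) + hs (1 + s) (fun x => chi M x * g x) ≤
      (C1 + C2) * (hs (2 + s) f + hs (1 + s) g) := by
    have q1 := mul_nonneg hC1.le p2
    have q2 := mul_nonneg hC2.le p1
    linarith
  calc c0 * (hs (2 + s) (fun x => chi M x * f x) + hs (1 + s) (fun x => chi M x * g x)) ≤
      c0 * ((C1 + C2) * (hs (2 + s) f + hs (1 + s) g)) := mul_le_mul_of_nonneg_left h5 hc0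
    _ = _ := by ring

/-! ### the operators -/

/-- `h` is the cut-off of `k` -/
private def Rel (s : ℝ) (χ : E → ℝ) (k h : K) : Prop := ∀ φ, IsTest φ →
  inner ℝ h (Rs s φ) = inner ℝ k (Rs s fun x => χ x * φ x) ∧
  inner ℝ h (dRs s φ) = inner ℝ k (dRs s fun x => χ x * φ x)

private lemma rel_test (hT : Tst s) (hF : FTh s) {χ f g : E → ℝ} (hχ : ContDiff ℝ ∞ χ)
    (hf : IsTest f) (hg : IsTest g) :
    Rel s χ (Theta s f g) (Theta s (fun x => χ x * f x) (fun x => χ x * g x)) := by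
  intro φ hφ
  obtain ⟨a1, a2⟩ := inner_Theta hT hF (test_mul hχ hf) (test_mul hχ hg) hφ
  obtain ⟨b1, b2⟩ := inner_Theta hT hF hf hg (test_mul hχ hφ)
  rw [a1, a2, b1, b2]
  constructor
  · refine integral_congr_ae (Eventually.of_forall fun x => ?_)
    ring
  · refine integral_congr_ae (Eventually.of_forall fun x => ?_)
    ring

private lemma rel_unique (hD : TS s univ = ⊤) {χ : E → ℝ} {k h h' : K} (h1 : Rel s χ k h)
    (h2 : Rel s χ k h') : h = h' := by
  refine eq_of_test hD _ _ fun φ hφ => ?_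
  rw [(h1 φ hφ).1, (h1 φ hφ).2, (h2 φ hφ).1, (h2 φ hφ).2]
  exact ⟨rfl, rfl⟩

private lemma rel_add {χ : E → ℝ} {k k' h h' : K} (h1 : Rel s χ k h) (h2 : Rel s χ k' h') :
    Rel s χ (k + k') (h + h') := by
  intro φ hφ
  rw [inner_add_left, inner_add_left, inner_add_left, inner_add_left, (h1 φ hφ).1, (h1 φ hφ).2,
    (h2 φ hφ).1, (h2 φ hφ).2]
  exact ⟨rfl, rfl⟩

private lemma rel_smul {χ : E → ℝ} {k h : K} (c : ℝ) (h1 : Rel s χ k h) :
    Rel s χ (c • k) (c • h) := by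
  intro φ hφ
  rw [real_inner_smul_left, real_inner_smul_left, real_inner_smul_left, real_inner_smul_left,
    (h1 φ hφ).1, (h1 φ hφ).2]
  exact ⟨rfl, rfl⟩

private lemma rel_exists (hD : TS s univ = ⊤)
    (hDens : ∀ (k : K) (ε : ℝ), 0 < ε → ∃ f g : E → ℝ, IsTest f ∧ IsTest g ∧
      ‖k - Theta s f g‖ < ε) (hT : Tst s) (hF : FTh s) (C : ℝ) (hC : 0 ≤ C)
    (M : ℕ) (hkey : ∀ f g : E → ℝ, IsTest f → IsTest g →
      ‖Theta s (fun x => chi M x * f x) (fun x => chi M x * g x)‖ ≤ C * ‖Theta s f g‖) (k : K) :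
    ∃ h : K, Rel s (chi M) k h ∧ ‖h‖ ≤ C * ‖k‖ := by
  have h1 : ∀ n : ℕ, ∃ p : (E → ℝ) × (E → ℝ), IsTest p.1 ∧ IsTest p.2 ∧
      ‖k - Theta s p.1 p.2‖ < 1 / ((n : ℝ) + 1) := by
    intro n
    obtain ⟨f, g, hf, hg, hfg⟩ := hDens k (1 / ((n : ℝ) + 1)) (by positivity)
    exact ⟨(f, g), hf, hg, hfg⟩
  choose p hp1 hp2 hp3 using h1
  obtain ⟨T, hTd⟩ : ∃ T : ℕ → K, T = fun n => Theta s (p n).1 (p n).2 := ⟨_, rfl⟩
  obtain ⟨H, hHd⟩ : ∃ H : ℕ → K, H = fun n => Theta s (fun x => chi M x * (p n).1 x)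
    (fun x => chi M x * (p n).2 x) := ⟨_, rfl⟩
  have hTk : Tendsto T atTop (𝓝 k) := by
    rw [tendsto_iff_norm_sub_tendsto_zero]
    refine squeeze_zero (fun n => norm_nonneg _) (fun n => ?_) tendsto_one_div_add_atTop_nhds_zero_nat
    rw [norm_sub_rev, hTd]
    exact (hp3 n).le
  have hHn : ∀ n, ‖H n‖ ≤ C * ‖T n‖ := fun n => by
    rw [hHd, hTd]
    exact hkey _ _ (hp1 n) (hp2 n)
  have hdiff : ∀ m n, ‖H m - H n‖ ≤ C * ‖T m - T n‖ := by
    intro m n
    have e1 : T m - T n = Theta s (fun x => (p m).1 x - (p n).1 x)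
        (fun x => (p m).2 x - (p n).2 x) := by
      rw [hTd]
      exact Theta_sub hD hT hF (hp1 m) (hp2 m) (hp1 n) (hp2 n)
    have e2 : H m - H n = Theta s (fun x => chi M x * ((p m).1 x - (p n).1 x))
        (fun x => chi M x * ((p m).2 x - (p n).2 x)) := by
      rw [hHd]
      change Theta s (fun x => chi M x * (p m).1 x) (fun x => chi M x * (p m).2 x) -
        Theta s (fun x => chi M x * (p n).1 x) (fun x => chi M x * (p n).2 x) = _
      rw [Theta_sub hD hT hF (test_mul (chi_sm M) (hp1 m)) (test_mul (chi_sm M) (hp2 m))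
        (test_mul (chi_sm M) (hp1 n)) (test_mul (chi_sm M) (hp2 n))]
      congr 1
      · funext x
        ring
      · funext x
        ring
    rw [e1, e2]
    exact hkey _ _ (test_sub (hp1 m) (hp1 n)) (test_sub (hp2 m) (hp2 n))
  have hCau : CauchySeq H := by
    rw [Metric.cauchySeq_iff]
    intro ε hε
    have hC1 : 0 < C + 1 := by linarith
    obtain ⟨N, hN⟩ := (Metric.cauchySeq_iff.1 hTk.cauchySeq) (ε / (C + 1)) (by positivity)
    refine ⟨N, fun m hm n hn => ?_⟩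
    have h2 := hN m hm n hn
    rw [dist_eq_norm] at h2 ⊢
    calc ‖H m - H n‖ ≤ C * ‖T m - T n‖ := hdiff m n
      _ ≤ C * (ε / (C + 1)) := mul_le_mul_of_nonneg_left h2.le hC
      _ < (C + 1) * (ε / (C + 1)) := mul_lt_mul_of_pos_right (by linarith) (by positivity)
      _ = ε := mul_div_cancel₀ ε hC1.ne'
  obtain ⟨h, hh⟩ := cauchySeq_tendsto_of_complete hCau
  refine ⟨h, ?_, le_of_tendsto_of_tendsto' hh.norm (hTk.norm.const_mul C) hHn⟩
  intro φ hφ
  have hr : ∀ n, Rel s (chi M) (T n) (H n) := fun n => by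
    rw [hTd, hHd]
    exact rel_test hT hF (chi_sm M) (hp1 n) (hp2 n)
  constructor
  · refine tendsto_nhds_unique (hh.inner (𝕜 := ℝ) tendsto_const_nhds) ?_
    refine (hTk.inner (𝕜 := ℝ) tendsto_const_nhds).congr fun n => ?_
    exact ((hr n φ hφ).1).symm
  · refine tendsto_nhds_unique (hh.inner (𝕜 := ℝ) tendsto_const_nhds) ?_
    refine (hTk.inner (𝕜 := ℝ) tendsto_const_nhds).congr fun n => ?_
    exact ((hr n φ hφ).2).symm

private lemma zero_Rs (hT : Tst s) (k : K) :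
    inner ℝ k (Rs s fun _ => 0) = 0 ∧ inner ℝ k (dRs s fun _ => 0) = 0 := by
  have h0 : IsTest fun _ : E => (0 : ℝ) := ⟨contDiff_const, HasCompactSupport.zero⟩
  obtain ⟨a1, a2⟩ := hT k _ (sch h0)
  constructor
  · rw [← a1]
    simp
  · rw [← a2]
    simp

private lemma rel_van (M : ℕ) {k h : K} (hT : Tst s) (hr : Rel s (chi M) k h) :
    Van s (xt 0 (2 * (M : ℝ) + 2)) h := by
  rw [van_iff]
  intro φ hφ hsu
  have e : (fun x => chi M x * φ x) = fun _ => 0 := by
    funext x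
    by_cases hx : x ∈ tsupport φ
    · have h1 := hsu hx
      simp only [Pool.Agent.QWE.ext, Set.mem_ofPred_eq, dist_zero_right] at h1
      rw [chi_zero M x (by linarith), zero_mul]
    · rw [image_eq_zero_of_notMem_tsupport hx, mul_zero]
  rw [(hr φ hφ).1, (hr φ hφ).2, e]
  exact zero_Rs hT k

private lemma rel_loc (M : ℕ) {k h : K} (hr : Rel s (chi M) k h) (Ω : Set E) (hk : Van s Ω k) :
    Van s Ω h := by
  rw [van_iff] at hk ⊢
  intro φ hφ hsu
  rw [(hr φ hφ).1, (hr φ hφ).2]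
  exact hk _ (test_mul (chi_sm M) hφ) ((tsupport_mul_subset_right).trans hsu)

private lemma rel_U (M : ℕ) {k h : K} {p : ℝ≥0∞} (hp : 1 ≤ p) (hT : Tst s)
    (h1 : MemLp (U s k) p volume) (h1' : MemLp (U s h) p volume)
    (hr : Rel s (chi M) k h) : U s h =ᵐ[volume] fun x => chi M x * U s k x := by
  have h2 : MemLp (fun x => chi M x * U s k x) p volume := by
    refine h1.mono ((chi_sm M).continuous.aestronglyMeasurable.mul h1.1) ?_
    refine Eventually.of_forall fun x => ?_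
    rw [norm_mul, Real.norm_of_nonneg (chi_nonneg M x)]
    exact mul_le_of_le_one_left (norm_nonneg _) (chi_le M x)
  refine ae_eq_of_integral_contDiff_smul_eq (h1'.locallyIntegrable hp) (h2.locallyIntegrable hp) ?_
  intro φ h3 h4
  have hφ : IsTest φ := ⟨h3, h4⟩
  have e1 : ∫ x, φ x • U s h x = inner ℝ h (Rs s φ) := by
    rw [← (hT h φ (sch hφ)).1]
    exact integral_congr_ae (Eventually.of_forall fun x => by simp [mul_comm])
  have e2 : ∫ x, φ x • (chi M x * U s k x) = inner ℝ k (Rs s fun x => chi M x * φ x) := by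
    rw [← (hT k _ (sch (test_mul (chi_sm M) hφ))).1]
    refine integral_congr_ae (Eventually.of_forall fun x => ?_)
    simp only [smul_eq_mul]
    ring
  rw [e1, e2, (hr φ hφ).1]

private lemma rel_V (M : ℕ) {k h : K} {p : ℝ≥0∞} (hp : 1 ≤ p) (hT : Tst s)
    (h1 : MemLp (V s k) p volume) (h1' : MemLp (V s h) p volume)
    (hr : Rel s (chi M) k h) : V s h =ᵐ[volume] fun x => chi M x * V s k x := by
  have h2 : MemLp (fun x => chi M x * V s k x) p volume := by
    refine h1.mono ((chi_sm M).continuous.aestronglyMeasurable.mul h1.1) ?_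
    refine Eventually.of_forall fun x => ?_
    rw [norm_mul, Real.norm_of_nonneg (chi_nonneg M x)]
    exact mul_le_of_le_one_left (norm_nonneg _) (chi_le M x)
  refine ae_eq_of_integral_contDiff_smul_eq (h1'.locallyIntegrable hp) (h2.locallyIntegrable hp) ?_
  intro φ h3 h4
  have hφ : IsTest φ := ⟨h3, h4⟩
  have e1 : ∫ x, φ x • V s h x = inner ℝ h (dRs s φ) := by
    rw [← (hT h φ (sch hφ)).2]
    exact integral_congr_ae (Eventually.of_forall fun x => by simp [mul_comm])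
  have e2 : ∫ x, φ x • (chi M x * V s k x) = inner ℝ k (dRs s fun x => chi M x * φ x) := by
    rw [← (hT k _ (sch (test_mul (chi_sm M) hφ))).2]
    refine integral_congr_ae (Eventually.of_forall fun x => ?_)
    simp only [smul_eq_mul]
    ring
  rw [e1, e2, (hr φ hφ).2]

/-- test states are fixed by the cut-offs with large parameter -/
private lemma rel_fix (hD : TS s univ = ⊤) (hT : Tst s) (hF : FTh s) {f g : E → ℝ}
    (hf : IsTest f) (hg : IsTest g) : ∃ M₀ : ℕ, ∀ M, M₀ ≤ M → ∀ h, Rel s (chi M) (Theta s f g) h →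
      h = Theta s f g := by
  obtain ⟨R₁, hR₁⟩ := hf.2.isBounded.subset_closedBall (0 : E)
  obtain ⟨R₂, hR₂⟩ := hg.2.isBounded.subset_closedBall (0 : E)
  obtain ⟨M₀, hM₀⟩ := exists_nat_ge (max R₁ R₂)
  refine ⟨M₀, fun M hM h hr => ?_⟩
  have hM' : (M₀ : ℝ) ≤ M := by exact_mod_cast hM
  have e : ∀ {u : E → ℝ} {R : ℝ}, tsupport u ⊆ Metric.closedBall 0 R → R ≤ M₀ →
      (fun x => chi M x * u x) = u := by
    intro u R h1 h2
    funext x
    by_cases hx : x ∈ tsupport u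
    · have h3 := h1 hx
      rw [Metric.mem_closedBall, dist_zero_right] at h3
      rw [chi_one M x (by linarith), one_mul]
    · rw [image_eq_zero_of_notMem_tsupport hx, mul_zero]
  have h4 := rel_test hT hF (chi_sm M) hf hg
  rw [e hR₁ ((le_max_left _ _).trans hM₀), e hR₂ ((le_max_right _ _).trans hM₀)] at h4
  exact rel_unique hD hr h4

end CutPx

open CutPx in
/-- **CutP** -/
theorem thm_CutP (hI : St_IsoP) (hDns : St_DnsP) (hFld : St_FldP) (hCM : St_CutM) :
    St_CutP := by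
  intro s hs2
  obtain ⟨hD, hDens, -⟩ := hDns s hs2
  obtain ⟨C0, -, hFl, -, hFT⟩ := hFld s hs2
  have hT : Tst s := fun k φ hφ => (hFl k).2.2.2.2.2 φ hφ
  have hF : FTh s := fun f g hf hg => ⟨(hFT f g hf hg).1, (hFT f g hf hg).2.1⟩
  have hlt := abs_lt.1 hs2
  have hq0 : 1 ≤ q0 s := by
    unfold q0
    rw [ENNReal.one_le_ofReal, le_div_iff₀ (by linarith [hlt.2])]
    linarith [hlt.1]
  have hq1 : 1 ≤ q1 s := by
    unfold q1
    rw [ENNReal.one_le_ofReal, le_div_iff₀ (by linarith [hlt.2])]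
    linarith [hlt.1]
  obtain ⟨C, hC, hkey⟩ := key hI hCM hs2
  have hex : ∀ (M : ℕ) (k : K), ∃ h : K, Rel s (chi M) k h ∧ ‖h‖ ≤ C * ‖k‖ := fun M k =>
    rel_exists hD hDens hT hF C hC M (hkey M) k
  choose Y hY1 hY2 using hex
  let X : ℕ → K →L[ℝ] K := fun M => LinearMap.mkContinuous
    { toFun := Y M
      map_add' := fun k k' =>
        rel_unique hD (hY1 M (k + k')) (rel_add (hY1 M k) (hY1 M k'))
      map_smul' := fun c k =>
        rel_unique hD (hY1 M (c • k)) (rel_smul c (hY1 M k)) } C (hY2 M)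
  have hX : ∀ M k, Rel s (chi M) k (X M k) := hY1
  refine ⟨C, X, hY2, fun M k => rel_van M hT (hX M k), fun M k Ω _ hk =>
    rel_loc M (hX M k) Ω hk, ?_, fun M => ⟨chi M, chi_test M, fun x => ⟨chi_nonneg M x, chi_le M x⟩,
      chi_one M, fun k => ⟨rel_U M hq0 hT (hFl k).1.1 (hFl (X M k)).1.1 (hX M k),
        rel_V M hq1 hT (hFl k).2.2.1.1 (hFl (X M k)).2.2.1.1 (hX M k)⟩⟩⟩
  intro k
  rw [Metric.tendsto_atTop]
  intro ε hε
  have hC1 : 0 < C + 1 := by linarith
  obtain ⟨f, g, hf, hg, hfg⟩ := hDens k (ε / (C + 1)) (by positivity)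
  obtain ⟨M₀, hM₀⟩ := rel_fix hD hT hF hf hg
  refine ⟨M₀, fun M hM => ?_⟩
  have h1 : X M (Theta s f g) = Theta s f g := hM₀ M hM _ (hX M _)
  have h2 : X M k - k = X M (k - Theta s f g) - (k - Theta s f g) := by
    rw [map_sub, h1]
    abel
  rw [dist_eq_norm, h2]
  calc ‖X M (k - Theta s f g) - (k - Theta s f g)‖ ≤ ‖X M (k - Theta s f g)‖ + ‖k - Theta s f g‖ :=
        norm_sub_le _ _
    _ ≤ C * ‖k - Theta s f g‖ + ‖k - Theta s f g‖ := by
        gcongr
        exact hY2 M _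
    _ = (C + 1) * ‖k - Theta s f g‖ := by ring
    _ < (C + 1) * (ε / (C + 1)) := mul_lt_mul_of_pos_left hfg hC1
    _ = ε := mul_div_cancel₀ ε hC1.ne'

end Pool.Agent.QWP
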