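import Pool.Agent.QWE.DefsR

set_option autoImplicit false

/-!
# QWP: the wave equation `u_tt - Δu + |u|^b u = 0` in `ℝ⁵`, `b = p - 1 > 2` (problem MP_9ce95b_an, `d = 5`, all `p > 3`)

Definitions. Design: `/team-store/R5p_plan.md`; paper for `p = 5`: `/team-store/R5_paper.md`. Critical space
`Ḣ^{2+s} × Ḣ^{1+s}`, `s = sig b = 1/2 - 2/b ∈ (-1/2, 1/2)`.

From `Pool.Agent.QWE` we keep: `E`, `S`, `sg`, `mu`, `K = L²(S × ℝ)`, `toK`, the unitary groups `tau`, `sh`, `dl`, `rev`,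
`gr y a = sh y ∘ dl a`, `ig`, `IsTest`, `pd`, `lap`, `Rad`, `dRad`, `Rk`, `dRk`, `c0`, `Theta`, `WD`, `Sm`, `SmE`, `IsSch`,
`ext`, `half`, `shr`, `WTo`. New: the test states `Rs s φ`, `dRs s φ` carry the factor `|∂_p|^{-s}`.
-/

open MeasureTheory Filter Topology Set
open scoped ENNReal NNReal RealInnerProductSpace

namespace Pool.Agent.QWP

open Pool.Agent.QWE (E S sg mu K toK tau sh dl rev gr ig IsTest pd lap Rad dRad Rk dRk c0 WD Sm SmE IsSch half shr WTo)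

/-! ### Fourier side -/

/-- Fourier transform of a real function on `ℝ⁵`. -/
noncomputable def ft (φ : E → ℝ) (ξ : E) : ℂ :=
  ∫ x, (φ x : ℂ) * Complex.exp (-2 * Real.pi * Complex.I * ((inner ℝ x ξ : ℝ) : ℂ))

/-- Fourier transform in `p` of a function on `S × ℝ`. -/
noncomputable def ftp (h : S × ℝ → ℝ) (w : S) (r : ℝ) : ℂ :=
  ∫ p, (h (w, p) : ℂ) * Complex.exp (-2 * Real.pi * Complex.I * ((r * p : ℝ) : ℂ))

/-- Square of the homogeneous Sobolev norm `|φ|²` in `Ḣ^a` (for Schwartz `φ`, `a > -5/2`). -/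
noncomputable def hs (a : ℝ) (φ : E → ℝ) : ℝ :=
  ∫ ξ, (2 * Real.pi * ‖ξ‖) ^ (2 * a) * ‖ft φ ξ‖ ^ 2

/-- `|∂_p|^{-s}` of the Radon transform of `φ`: inverse Fourier transform of `|2πr|^{-s} φ^(r w)`. -/
noncomputable def RsF (s : ℝ) (φ : E → ℝ) (z : S × ℝ) : ℝ :=
  (∫ r : ℝ, ((|2 * Real.pi * r| ^ (-s) : ℝ) : ℂ) * ft φ (r • (z.1 : E)) *
    Complex.exp (2 * Real.pi * Complex.I * ((r * z.2 : ℝ) : ℂ))).re

/-- `∂_p |∂_p|^{-s}` of the Radon transform of `φ`. -/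
noncomputable def dRsF (s : ℝ) (φ : E → ℝ) (z : S × ℝ) : ℝ :=
  (∫ r : ℝ, ((|2 * Real.pi * r| ^ (-s) : ℝ) : ℂ) * (2 * Real.pi * Complex.I * (r : ℂ)) *
    ft φ (r • (z.1 : E)) * Complex.exp (2 * Real.pi * Complex.I * ((r * z.2 : ℝ) : ℂ))).re

/-- Test state `|∂_p|^{-s} R φ`. -/
noncomputable def Rs (s : ℝ) (φ : E → ℝ) : K := toK (RsF s φ)

/-- Test state `∂_p |∂_p|^{-s} R φ`. -/
noncomputable def dRs (s : ℝ) (φ : E → ℝ) : K := toK (dRsF s φ)

/-- The element of `K` with position field `f` and velocity field `g`. -/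
noncomputable def Theta (s : ℝ) (f g : E → ℝ) : K := c0 • (Rs (-s) (lap (lap f)) - dRs (-s) (lap g))

/-- `|∂_p|^{-s} h` for a nice function `h` on `S × ℝ`, as a function. -/
noncomputable def JF (s : ℝ) (h : S × ℝ → ℝ) (z : S × ℝ) : ℝ :=
  (∫ r : ℝ, ((|2 * Real.pi * r| ^ (-s) : ℝ) : ℂ) * ftp h z.1 r *
    Complex.exp (2 * Real.pi * Complex.I * ((r * z.2 : ℝ) : ℂ))).re

/-- `|∂_p|^{-s} h` as an element of `K`. -/
noncomputable def JK (s : ℝ) (h : S × ℝ → ℝ) : K := toK (JF s h)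

/-- `h` is the restriction of a smooth function on `ℝ⁵ × ℝ`, compactly supported in `p`, and its support is contained
in `A`. -/
def Nice (A : Set (S × ℝ)) (h : S × ℝ → ℝ) : Prop :=
  ∃ g : E × ℝ → ℝ, ContDiff ℝ ((⊤ : ℕ∞) : WithTop ℕ∞) g ∧ (∃ M : ℝ, ∀ x p, M ≤ |p| → g (x, p) = 0) ∧
    (∀ z : S × ℝ, h z = g ((z.1 : E), z.2)) ∧ closure {z | h z ≠ 0} ⊆ A

/-! ### Fields -/

/-- Exponent of the position field: `1/q0 = 1/2 - (2+s)/5`. -/
noncomputable def q0 (s : ℝ) : ℝ≥0∞ := ENNReal.ofReal (10 / (1 - 2 * s))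

/-- Exponent of the velocity field: `1/q1 = 1/2 - (1+s)/5`. -/
noncomputable def q1 (s : ℝ) : ℝ≥0∞ := ENNReal.ofReal (10 / (3 - 2 * s))

/-- `g` is the position field of `k`. -/
def IsU (s : ℝ) (k : K) (g : E → ℝ) : Prop :=
  MemLp g (q0 s) volume ∧ ∀ φ, IsTest φ → ∫ x, g x * φ x = inner ℝ k (Rs s φ)

/-- `g` is the velocity field of `k`. -/
def IsV (s : ℝ) (k : K) (g : E → ℝ) : Prop :=
  MemLp g (q1 s) volume ∧ ∀ φ, IsTest φ → ∫ x, g x * φ x = inner ℝ k (dRs s φ)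

/-- Position field. -/
noncomputable def U (s : ℝ) (k : K) : E → ℝ := by
  classical exact if h : ∃ g, IsU s k g then h.choose else 0

/-- Velocity field. -/
noncomputable def V (s : ℝ) (k : K) : E → ℝ := by
  classical exact if h : ∃ g, IsV s k g then h.choose else 0

/-- `i`-th weak derivative of the position field (in `L^{q1}`). -/
noncomputable def DU (s : ℝ) (k : K) (i : Fin 5) : E → ℝ := by
  classical exact if h : ∃ g : E → ℝ, MemLp g (q1 s) volume ∧ WD i (U s k) g then h.choose else 0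

/-! ### Exterior seminorms -/

/-- Closed span of the test states of test functions supported in `Ω`. -/
noncomputable def TS (s : ℝ) (Ω : Set E) : Submodule ℝ K :=
  (Submodule.span ℝ {w | ∃ φ, IsTest φ ∧ tsupport φ ⊆ Ω ∧ (w = Rs s φ ∨ w = dRs s φ)}).topologicalClosure

instance instProjTS (s : ℝ) (Ω : Set E) : (TS s Ω).HasOrthogonalProjection := by
  have : CompleteSpace (TS s Ω) :=
    (Submodule.isClosed_topologicalClosure _).completeSpace_coe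
  infer_instance

/-- The fields of `k` vanish on `Ω`. -/
def Van (s : ℝ) (Ω : Set E) (k : K) : Prop := k ∈ (TS s Ω)ᗮ

/-- Minimal element with the same fields as `k` on `Ω`. -/
noncomputable def pr (s : ℝ) (Ω : Set E) : K →L[ℝ] K := (TS s Ω).starProjection

/-- Norm of `k` on `Ω` (quotient norm). -/
noncomputable def ex (s : ℝ) (Ω : Set E) (k : K) : ℝ := ‖pr s Ω k‖

/-- Closed span of `|∂_p|^{-s} h`, `h` nice with support in `A ⊆ S × ℝ`. -/
noncomputable def PS (s : ℝ) (A : Set (S × ℝ)) : Submodule ℝ K :=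
  (Submodule.span ℝ {w | ∃ h, Nice A h ∧ w = JK s h}).topologicalClosure

instance instProjPS (s : ℝ) (A : Set (S × ℝ)) : (PS s A).HasOrthogonalProjection := by
  have : CompleteSpace (PS s A) :=
    (Submodule.isClosed_topologicalClosure _).completeSpace_coe
  infer_instance

/-- Norm of `k` on `A ⊆ S × ℝ` (quotient norm; replaces the norm of the restriction of `k` to `A`). -/
noncomputable def na (s : ℝ) (A : Set (S × ℝ)) (k : K) : ℝ := ‖(PS s A).starProjection k‖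

/-- `M` is the operator of multiplication by the function `ζ(p)` on the level of `|∂_p|^{-s} K`. -/
def IsMul (s : ℝ) (ζ : ℝ → ℝ) (M : K →L[ℝ] K) : Prop :=
  ∀ (k : K) (h : S × ℝ → ℝ), Nice univ h →
    inner ℝ (M k) (JK s h) = inner ℝ k (JK s (fun z => ζ z.2 * h z))

/-- Multiplication operator by `ζ(p)` (zero if there is none). -/
noncomputable def Mul (s : ℝ) (ζ : ℝ → ℝ) : K →L[ℝ] K := by
  classical exact if h : ∃ M, IsMul s ζ M then h.choose else 0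

/-! ### Sources, differences -/

/-- `w` is the source element with velocity `F`. -/
def IsGam (s : ℝ) (F : E → ℝ) (w : K) : Prop :=
  ∀ φ, IsTest φ → inner ℝ w (Rs s φ) = 0 ∧ inner ℝ w (dRs s φ) = ∫ x, F x * φ x

/-- The source element (position `0`, velocity `F`). -/
noncomputable def Gam (s : ℝ) (F : E → ℝ) : K := by
  classical exact if h : ∃ w, IsGam s F w then h.choose else 0

/-- Difference `f(x+h) - f(x)`. -/
def Dh (h : E) (f : E → ℝ) (x : E) : ℝ := f (x + h) - f x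

/-- Fractional seminorm `(∫ |h|^{-5-2a} ‖δ_h f‖_r² dh)^{1/2}`. -/
noncomputable def gag (a : ℝ) (r : ℝ≥0∞) (f : E → ℝ) : ℝ≥0∞ :=
  (∫⁻ h : E, ENNReal.ofReal (‖h‖ ^ (-5 - 2 * a)) * eLpNorm (Dh h f) r volume ^ 2) ^ (1 / 2 : ℝ)

/-! ### The nonlinear equation -/

/-- `s = 1/2 - 2/b`. -/
noncomputable def sig (b : ℝ) : ℝ := 1 / 2 - 2 / b

/-- The nonlinearity `|u|^b u`. -/
noncomputable def Fn (b : ℝ) (u : ℝ) : ℝ := |u| ^ b * u

/-- `N(k) = Γ(|u|^b u)`, `u = U k`. -/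
noncomputable def NL (b : ℝ) (k : K) : K := Gam (sig b) fun x => Fn b (U (sig b) k x)

/-- Strichartz size of a state: `‖u‖_{L^{5b}}`. -/
noncomputable def sn (b : ℝ) (k : K) : ℝ≥0∞ := eLpNorm (U (sig b) k) (ENNReal.ofReal (5 * b)) volume

/-- `b`-th power of the Strichartz norm `‖u‖_{L^b(J; L^{5b})}`. -/
noncomputable def SN (b : ℝ) (J : Set ℝ) (k : ℝ → K) : ℝ≥0∞ := ∫⁻ t in J, sn b (k t) ^ b

/-- `k` is a solution on the interval `I`. -/
def IsSol (b : ℝ) (I : Set ℝ) (k : ℝ → K) : Prop :=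
  I.OrdConnected ∧ ContinuousOn k I ∧ (∀ x ∈ I, ∀ y ∈ I, SN b (Icc x y) k < ⊤) ∧
    ∀ x ∈ I, ∀ t ∈ I, k t = tau (t - x) (k x) - ∫ r in x..t, tau (t - r) (NL b (k r))

/-- Maximal solution. -/
def IsMax (b : ℝ) (I : Set ℝ) (k : ℝ → K) : Prop :=
  IsSol b I k ∧ IsOpen I ∧ I.Nonempty ∧
    ∀ J k', IsSol b J k' → I ⊆ J → (∀ t ∈ I, k' t = k t) → J ⊆ I

/-- Finite energy. -/
def FE (s : ℝ) (k : K) : Prop := (∀ i, MemLp (DU s k i) 2 volume) ∧ MemLp (V s k) 2 volume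

/-- Energy. -/
noncomputable def En (b : ℝ) (k : K) : ℝ :=
  (∑ i, ∫ x, DU (sig b) k i x ^ 2) / 2 + (∫ x, V (sig b) k x ^ 2) / 2 +
    (∫ x, |U (sig b) k x| ^ (b + 2)) / (b + 2)

/-- Compact solution. -/
def CSol (b : ℝ) (Q : Set K) (I : Set ℝ) (k : ℝ → K) (x : ℝ → E) (a : ℝ → ℝ) : Prop :=
  IsCompact Q ∧ (0 : K) ∉ Q ∧ IsMax b I k ∧ ∀ t ∈ I, ∃ κ ∈ Q, k t = gr (x t) (a t) κ

/-- Normalised compact solution. -/
def NSol (b : ℝ) (Q : Set K) (k : ℝ → K) (x : ℝ → E) (a : ℝ → ℝ) : Prop :=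
  CSol b Q univ k x a ∧ ∀ t, -Real.log 2 ≤ a t

/-- Path data (Sections 5, 6). -/
def Pth (b κ A : ℝ) (m : ℝ → ℝ) (k : ℝ → K) (y : ℝ → E) : Prop :=
  IsSol b univ k ∧ (∀ t, ‖k t‖ ≤ A) ∧ (∀ s t, dist (y t) (y s) ≤ (1 - κ) * |t - s|) ∧
    ∀ t ρ, ex (sig b) (Pool.Agent.QWE.ext (y t) ρ) (k t) ≤ m ρ

/-- `sup_t ‖k(t)‖_{|x - y(t)| > ρ}`. -/
noncomputable def epsb (b : ℝ) (k : ℝ → K) (y : ℝ → E) (ρ : ℝ) : ℝ :=
  ⨆ t, ex (sig b) (Pool.Agent.QWE.ext (y t) ρ) (k t)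

end Pool.Agent.QWP
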