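import Pool.Agent.QWP.DefsM
import Pool.Agent.QWE.DefsG

set_option autoImplicit false

/-!
# QWP: definitions for Part II (compactness)

Port of `Pool.Agent.QWE.DefsG`. `SN b` is the `b`-th power of the Strichartz norm. `resc` of QWE is used as it is.
-/

open MeasureTheory Filter Topology Set
open scoped ENNReal NNReal RealInnerProductSpace

namespace Pool.Agent.QWP

open Pool.Agent.QWE (E S sg mu K toK tau sh dl rev gr ig IsTest pd lap Rad dRad Rk dRk c0 WD Sm SmE IsSch half shr WTo resc)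

/-- Frequency cut-off kernel: Schwartz, even, Fourier transform with values in `[0,1]`, equal to `1` on the unit
ball and to `0` off the ball of radius `2` (`St_Psi` of StA.lean is `∃ ψ, IsPsi ψ`). -/
def IsPsi (ψ : E → ℝ) : Prop :=
  IsSch ψ ∧ (∀ ξ, 0 ≤ (ft ψ ξ).re ∧ (ft ψ ξ).re ≤ 1 ∧ (ft ψ ξ).im = 0) ∧ (∀ ξ, ‖ξ‖ ≤ 1 → ft ψ ξ = 1) ∧
    (∀ ξ, 2 ≤ ‖ξ‖ → ft ψ ξ = 0) ∧ ∀ x, ψ (-x) = ψ x

/-- Sequence of solutions `β n` on `[0, T n]`, bounded by `A`, with `SN` bounded by `M`, and with initial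
data converging weakly to `0`. -/
def BetaSeq (b A M : ℝ) (T : ℕ → ℝ) (β : ℕ → ℝ → K) : Prop :=
  (∀ n, 0 ≤ T n ∧ IsSol b (Icc 0 (T n)) (β n) ∧ (∀ t ∈ Icc 0 (T n), ‖β n t‖ ≤ A) ∧
    SN b (Icc 0 (T n)) (β n) ≤ ENNReal.ofReal M) ∧ WTo (fun n => β n 0) 0

/-- A solution with finite Strichartz norm on `[0, Ts]` or on `[0, ∞)`. -/
def ASol (b : ℝ) (J : Set ℝ) (a : ℝ → K) : Prop :=
  (J = Ici 0 ∨ ∃ Ts : ℝ, 0 ≤ Ts ∧ J = Icc 0 Ts) ∧ IsSol b J a ∧ SN b J a < ⊤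

/-- Size of the fields near the origin: `L²` norms on the ball of radius `m` of `U k`, `∇ U k`, and (for `b > 4`) of `D² U k`. -/
noncomputable def loc (b m : ℝ) (k : K) : ℝ≥0∞ :=
  eLpNorm ((Metric.ball (0 : E) m).indicator (U (sig b) k)) 2 volume +
    (∑ i, eLpNorm ((Metric.ball (0 : E) m).indicator (DU (sig b) k i)) 2 volume) +
    if b ≤ 4 then 0
    else ∑ i, ∑ j, eLpNorm ((Metric.ball (0 : E) m).indicator (DDU (sig b) k i j)) 2 volume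

/-- Supremum of (the `b`-th power of) the Strichartz norms of all solutions bounded by `A`. -/
noncomputable def LA (b A : ℝ) : ℝ≥0∞ :=
  ⨆ (I : Set ℝ) (k : ℝ → K) (_ : IsSol b I k ∧ ∀ t ∈ I, ‖k t‖ ≤ A), SN b I k

/-- Critical element: a maximal solution bounded by the critical size `Ac` for nonnegative times, with infinite
Strichartz norm forward in time. -/
def Crit (b Ac : ℝ) (I : Set ℝ) (a : ℝ → K) : Prop :=
  (∀ A' < Ac, LA b A' < ⊤) ∧ IsMax b I a ∧ (0 : ℝ) ∈ I ∧ (∀ t ∈ I, 0 ≤ t → ‖a t‖ ≤ Ac) ∧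
    SN b (I ∩ Ici 0) a = ⊤

/-- The bubble functional `F(k) = sup_g max (|⟨ρ_g⁻¹ k, Rs ψ⟩|, |⟨ρ_g⁻¹ k, dRs ψ⟩|)`. -/
noncomputable def Fb (s : ℝ) (ψ : E → ℝ) (k : K) : ℝ :=
  ⨆ g : E × ℝ, max |inner ℝ (ig g.1 g.2 k) (Rs s ψ)| |inner ℝ (ig g.1 g.2 k) (dRs s ψ)|

end Pool.Agent.QWP
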