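import Pool.Agent.QWP.StA2

set_option autoImplicit false

/-!
# QWP: second derivatives of the position field, exponents of the product block

`s = sig b = 1/2 - 2/b`. `1/q2 = 1/2 - s/5 = 2/5 + 2/(5b)`, `1/p2 = 7/10 - s/5 = 3/5 + 2/(5b)`.
-/

open MeasureTheory Filter Topology Set
open scoped ENNReal NNReal RealInnerProductSpace

namespace Pool.Agent.QWP

open Pool.Agent.QWE (E S sg mu K toK tau sh dl rev gr ig IsTest pd lap Rad dRad Rk dRk c0 WD Sm SmE IsSch half shr WTo)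

/-- `1/q2 = (5 - 2s)/10`. For `s ≥ 0`: `Ḣ^s ⊆ L^{q2}`; for `s ≤ 0`: `L^{q2} ⊆ Ḣ^s`. -/
noncomputable def q2 (s : ℝ) : ℝ≥0∞ := ENNReal.ofReal (10 / (5 - 2 * s))

/-- `1/p2 = (7 - 2s)/10`: `L^{p2} ⊆ Ḣ^{s-1}`. -/
noncomputable def p2 (s : ℝ) : ℝ≥0∞ := ENNReal.ofReal (10 / (7 - 2 * s))

/-- Second weak derivatives of the position field (in `L^{q2}`, for `s ≥ 0`). -/
noncomputable def DDU (s : ℝ) (k : K) (i j : Fin 5) : E → ℝ := by
  classical exact if h : ∃ g : E → ℝ, MemLp g (q2 s) volume ∧ WD j (DU s k i) g then h.choose else 0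

/-- Norm of the top derivatives used in the product estimates: `∇ U k` in `L^{q1}` for `b ≤ 4`, `D² U k` in `L^{q2}` for
`b > 4`. -/
noncomputable def tn (b : ℝ) (k : K) : ℝ≥0∞ :=
  if b ≤ 4 then ∑ i, eLpNorm (DU (sig b) k i) (q1 (sig b)) volume
  else ∑ i, ∑ j, eLpNorm (DDU (sig b) k i j) (q2 (sig b)) volume

end Pool.Agent.QWP
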