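import Pool.Agent.QWP.StA2

set_option autoImplicit false

/-!
# QWP / DyS: states from decaying functions (dyadic decomposition)
-/

open MeasureTheory Filter Topology Set
open scoped ENNReal NNReal RealInnerProductSpace ContDiff

namespace Pool.Agent.QWP

open Pool.Agent.QWE (E S sg mu K toK tau sh dl rev gr ig IsTest pd lap Rad dRad Rk dRk c0 WD Sm SmE IsSch half shr WTo Kc Sph kap IsMol)

namespace DySx

/-! ### Basic facts -/

theorem test_sch {φ : E → ℝ} (h : IsTest φ) : IsSch φ :=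
  ⟨h.2.toSchwartzMap h.1, fun _ => rfl⟩

theorem smE_pd {φ : E → ℝ} (h : SmE φ) (i : Fin 5) : SmE (pd i φ) := by
  have hs : ContDiff ℝ ((⊤ : ℕ∞) : WithTop ℕ∞) (fderiv ℝ φ) :=
    ContDiff.fderiv_right h (by exact_mod_cast le_top)
  exact hs.clm_apply contDiff_const

theorem test_pd {φ : E → ℝ} (h : IsTest φ) (i : Fin 5) : IsTest (pd i φ) :=
  ⟨smE_pd h.1 i, h.2.fderiv_apply ℝ _⟩

theorem test_lap {φ : E → ℝ} (h : IsTest φ) : IsTest (lap φ) := by
  have h1 : ∀ i, IsTest (pd i (pd i φ)) := fun i => test_pd (test_pd h i) i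
  refine ⟨ContDiff.sum fun i _ => (h1 i).1, ?_⟩
  have h2 : ∀ s : Finset (Fin 5), HasCompactSupport fun x => ∑ i ∈ s, pd i (pd i φ) x := by
    intro s
    induction s using Finset.induction_on with
    | empty =>
      simp only [Finset.sum_empty]
      exact HasCompactSupport.zero
    | insert a s ha ih =>
      simp only [Finset.sum_insert ha]
      exact (h1 a).2.add ih
  exact h2 Finset.univ

theorem ifd_pd {φ : E → ℝ} (h : SmE φ) (i : Fin 5) (m : ℕ) (x : E) :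
    ‖iteratedFDeriv ℝ m (pd i φ) x‖ ≤ ‖iteratedFDeriv ℝ (m + 1) φ x‖ := by
  have hs : ContDiff ℝ ((⊤ : ℕ∞) : WithTop ℕ∞) (fderiv ℝ φ) :=
    ContDiff.fderiv_right h (by exact_mod_cast le_top)
  have h1 := norm_iteratedFDeriv_clm_apply_const (N := ((⊤ : ℕ∞) : WithTop ℕ∞)) (n := m)
    (f := fderiv ℝ φ) (x := x) (c := (EuclideanSpace.single i (1 : ℝ) : E))
    hs.contDiffAt (by exact_mod_cast le_top)
  rw [norm_iteratedFDeriv_fderiv] at h1
  have h2 : ‖(EuclideanSpace.single i (1 : ℝ) : E)‖ = 1 := by simp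
  rw [h2, one_mul] at h1
  exact h1

theorem pd3_le {φ : E → ℝ} (h : SmE φ) (i j l : Fin 5) (x : E) :
    |pd l (pd j (pd i φ)) x| ≤ ‖iteratedFDeriv ℝ 3 φ x‖ := by
  have h0 : |pd l (pd j (pd i φ)) x| = ‖iteratedFDeriv ℝ 0 (pd l (pd j (pd i φ))) x‖ := by
    rw [norm_iteratedFDeriv_zero, Real.norm_eq_abs]
  rw [h0]
  exact ((ifd_pd (smE_pd (smE_pd h i) j) l 0 x).trans
    (ifd_pd (smE_pd h i) j 1 x)).trans (ifd_pd h i 2 x)

/-! ### The partition of unity -/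

/-- bump function -/
noncomputable def bmp : ContDiffBump (0 : E) := ⟨3 / 4, 1, by norm_num, by norm_num⟩

/-- the dyadic piece -/
noncomputable def eta (x : E) : ℝ := bmp ((1 / 2 : ℝ) • x) - bmp x

theorem bmp_one {x : E} (h : ‖x‖ ≤ 3 / 4) : bmp x = 1 := by
  apply bmp.one_of_mem_closedBall
  rw [mem_closedBall_zero_iff]
  exact h

theorem bmp_zero {x : E} (h : 1 ≤ ‖x‖) : bmp x = 0 := by
  apply bmp.zero_of_le_dist
  rw [dist_zero_right]
  exact h

theorem eta_small {x : E} (h : ‖x‖ ≤ 3 / 4) : eta x = 0 := by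
  have h1 : bmp ((1 / 2 : ℝ) • x) = 1 := by
    apply bmp_one
    rw [norm_smul, Real.norm_of_nonneg (by norm_num)]
    linarith [norm_nonneg x]
  rw [eta, h1, bmp_one h, sub_self]

theorem eta_large {x : E} (h : 2 ≤ ‖x‖) : eta x = 0 := by
  have h1 : bmp ((1 / 2 : ℝ) • x) = 0 := by
    apply bmp_zero
    rw [norm_smul, Real.norm_of_nonneg (by norm_num)]
    linarith
  rw [eta, h1, bmp_zero (by linarith), sub_self]

theorem eta_sm : SmE eta := by
  have h1 : ContDiff ℝ ((⊤ : ℕ∞) : WithTop ℕ∞) (bmp : E → ℝ) := bmp.contDiff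
  exact (h1.comp (contDiff_const_smul _)).sub h1

theorem eta_cs : HasCompactSupport eta := by
  apply HasCompactSupport.of_support_subset_isCompact (isCompact_closedBall (0 : E) 2)
  intro x hx
  rw [mem_closedBall_zero_iff]
  by_contra hc
  exact hx (eta_large (le_of_lt (not_le.1 hc)))

theorem eta_tele (x : E) (N : ℕ) :
    ∑ j ∈ Finset.range N, eta (((1 / 2 : ℝ) ^ j) • x) = bmp (((1 / 2 : ℝ) ^ N) • x) - bmp x := by
  induction N with
  | zero => simp
  | succ n ih =>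
    rw [Finset.sum_range_succ, ih, eta, smul_smul, pow_succ, mul_comm (1 / 2 : ℝ) _]
    ring

/-- bound of the derivatives of the dyadic piece -/
theorem eta_bd : ∃ H : ℝ, 0 < H ∧ ∀ m ≤ 3, ∀ x, ‖iteratedFDeriv ℝ m eta x‖ ≤ H := by
  have h1 : ∀ m : ℕ, ∃ C : ℝ, ∀ x, ‖iteratedFDeriv ℝ m eta x‖ ≤ C := by
    intro m
    have hcont : Continuous (iteratedFDeriv ℝ m eta) :=
      ContDiff.continuous_iteratedFDeriv (m := m) (n := ((⊤ : ℕ∞) : WithTop ℕ∞))
        (by exact_mod_cast le_top) eta_sm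
    exact hcont.bounded_above_of_compact_support (eta_cs.iteratedFDeriv m)
  choose C hC using h1
  refine ⟨1 + ∑ m ∈ Finset.range 4, C m, ?_, fun m hm x => ?_⟩
  · have : ∀ m, 0 ≤ C m := fun m => (norm_nonneg _).trans (hC m 0)
    have h2 : 0 ≤ ∑ m ∈ Finset.range 4, C m := Finset.sum_nonneg fun m _ => this m
    linarith
  · have h3 : ∀ m, 0 ≤ C m := fun m => (norm_nonneg _).trans (hC m 0)
    have h4 : C m ≤ ∑ m ∈ Finset.range 4, C m :=
      Finset.single_le_sum (fun m _ => h3 m) (Finset.mem_range.2 (by omega))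
    linarith [hC m x]

/-! ### The pieces -/

/-- the piece of `f` -/
noncomputable def pc (f : E → ℝ) (j : ℕ) (x : E) : ℝ := eta (((1 / 2 : ℝ) ^ j) • x) * f x

/-- the rescaled piece of `f` -/
noncomputable def rp (f : E → ℝ) (j : ℕ) (x : E) : ℝ := eta x * f (((2 : ℝ) ^ j) • x)

theorem pc_rp (f : E → ℝ) (j : ℕ) : pc f j = fun x => rp f j (((1 / 2 : ℝ) ^ j) • x) := by
  funext x
  simp only [pc, rp]
  rw [smul_smul, ← mul_pow]
  norm_num

theorem rp_sm {f : E → ℝ} (hf : SmE f) (j : ℕ) : SmE (rp f j) :=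
  eta_sm.mul (hf.comp (contDiff_const_smul _))

theorem rp_test {f : E → ℝ} (hf : SmE f) (j : ℕ) : IsTest (rp f j) :=
  ⟨rp_sm hf j, eta_cs.mul_right⟩

theorem pc_test {f : E → ℝ} (hf : SmE f) (j : ℕ) : IsTest (pc f j) := by
  refine ⟨(eta_sm.comp (contDiff_const_smul _)).mul hf, ?_⟩
  apply HasCompactSupport.mul_right
  have h2 : ((1 / 2 : ℝ) ^ j) ≠ 0 := by positivity
  exact eta_cs.comp_smul h2

theorem rp_bd {H : ℝ} (hH : 0 < H) (hb : ∀ m ≤ 3, ∀ x, ‖iteratedFDeriv ℝ m eta x‖ ≤ H)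
    {f : E → ℝ} (hf : SmE f) {B : ℝ} (hB : 0 ≤ B) (e : ℕ) (he : e ≤ 2)
    (hd : ∀ x, 3 / 4 ≤ ‖x‖ → ∀ n ≤ 3, ‖iteratedFDeriv ℝ n f x‖ ≤ B / ‖x‖ ^ (n + e))
    (j : ℕ) (n : ℕ) (hn : n ≤ 3) (x : E) :
    ‖iteratedFDeriv ℝ n (rp f j) x‖ ≤ 8 * H * (4 / 3) ^ 5 * B * ((1 / 2 : ℝ) ^ j) ^ e := by
  have hP : 0 ≤ 8 * H * (4 / 3) ^ 5 * B * ((1 / 2 : ℝ) ^ j) ^ e := by positivity
  by_cases hx : ‖x‖ < 3 / 4
  · have h1 : rp f j =ᶠ[𝓝 x] fun _ => (0 : ℝ) := by
      have h2 : ∀ᶠ y : E in 𝓝 x, ‖y‖ < 3 / 4 :=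
        (continuous_norm.tendsto x).eventually (gt_mem_nhds hx)
      filter_upwards [h2] with y hy
      simp only [rp]
      rw [eta_small hy.le, zero_mul]
    have h3 : iteratedFDeriv ℝ n (rp f j) x = iteratedFDeriv ℝ n (fun _ : E => (0 : ℝ)) x :=
      (Filter.EventuallyEq.iteratedFDeriv ℝ h1 n).eq_of_nhds
    rw [h3]
    have h4 : iteratedFDeriv ℝ n (fun _ : E => (0 : ℝ)) x = 0 := by
      simp
    rw [h4, norm_zero]
    exact hP
  · have hx' : 3 / 4 ≤ ‖x‖ := not_lt.1 hx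
    have h2j : (1 : ℝ) ≤ 2 ^ j := one_le_pow₀ (by norm_num)
    -- the rescaled function
    have hg : ∀ m ≤ 3, ‖iteratedFDeriv ℝ m (fun y : E => f (((2 : ℝ) ^ j) • y)) x‖ ≤
        (4 / 3) ^ 5 * B * ((1 / 2 : ℝ) ^ j) ^ e := by
      intro m hm
      have h1 : iteratedFDeriv ℝ m (fun y : E => f (((2 : ℝ) ^ j) • y)) x =
          ((2 : ℝ) ^ j) ^ m • iteratedFDeriv ℝ m f (((2 : ℝ) ^ j) • x) := by
        have h2 := iteratedFDeriv_comp_const_smul (𝕜 := ℝ) (f := f) (i := m)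
          ((2 : ℝ) ^ j) (hf.of_le (by exact_mod_cast le_top))
        exact congrFun h2 x
      have hnx : ‖((2 : ℝ) ^ j) • x‖ = 2 ^ j * ‖x‖ := by
        rw [norm_smul, Real.norm_of_nonneg (by positivity)]
      have h3 : 3 / 4 ≤ ‖((2 : ℝ) ^ j) • x‖ := by
        rw [hnx]
        nlinarith
      have h4 := hd _ h3 m hm
      rw [h1, norm_smul, Real.norm_of_nonneg (by positivity)]
      rw [hnx] at h4
      have hxp : 0 < ‖x‖ := by linarith
      calc ((2 : ℝ) ^ j) ^ m * ‖iteratedFDeriv ℝ m f (((2 : ℝ) ^ j) • x)‖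
          ≤ ((2 : ℝ) ^ j) ^ m * (B / (2 ^ j * ‖x‖) ^ (m + e)) := by gcongr
        _ = B * ((1 / 2 : ℝ) ^ j) ^ e * (1 / ‖x‖) ^ (m + e) := by
          have h5 : ((1 / 2 : ℝ) ^ j) ^ e = 1 / ((2 : ℝ) ^ j) ^ e := by
            rw [one_div, inv_pow, inv_pow, one_div]
          rw [h5, mul_pow, pow_add ((2 : ℝ) ^ j) m e, one_div_pow]
          field_simp
        _ ≤ B * ((1 / 2 : ℝ) ^ j) ^ e * (4 / 3) ^ 5 := by
          have h6 : 1 / ‖x‖ ≤ 4 / 3 := by
            rw [div_le_div_iff₀ hxp (by norm_num)]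
            linarith
          have h7 : (1 / ‖x‖) ^ (m + e) ≤ (4 / 3 : ℝ) ^ 5 :=
            (pow_le_pow_left₀ (by positivity) h6 _).trans
              (pow_le_pow_right₀ (by norm_num) (by omega))
          gcongr
        _ = (4 / 3) ^ 5 * B * ((1 / 2 : ℝ) ^ j) ^ e := by ring
    have hsm : SmE (fun y : E => f (((2 : ℝ) ^ j) • y)) := hf.comp (contDiff_const_smul _)
    have h5 := norm_iteratedFDeriv_mul_le (𝕜 := ℝ) (A := ℝ) (N := ((⊤ : ℕ∞) : WithTop ℕ∞))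
      eta_sm hsm x (n := n) (by exact_mod_cast le_top)
    have h6 : (fun y => eta y * f (((2 : ℝ) ^ j) • y)) = rp f j := rfl
    rw [h6] at h5
    refine h5.trans ?_
    have h7 : ∀ i ∈ Finset.range (n + 1), (n.choose i : ℝ) * ‖iteratedFDeriv ℝ i eta x‖ *
        ‖iteratedFDeriv ℝ (n - i) (fun y : E => f (((2 : ℝ) ^ j) • y)) x‖ ≤
        (n.choose i : ℝ) * (H * ((4 / 3) ^ 5 * B * ((1 / 2 : ℝ) ^ j) ^ e)) := by
      intro i hi
      have hi' : i ≤ n := by
        have := Finset.mem_range.1 hi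
        omega
      rw [mul_assoc]
      have h8 := hb i (hi'.trans hn) x
      have h9 := hg (n - i) (by omega)
      gcongr
    refine (Finset.sum_le_sum h7).trans ?_
    rw [← Finset.sum_mul]
    have h10 : ∑ i ∈ Finset.range (n + 1), (n.choose i : ℝ) = 2 ^ n := by
      have := Nat.sum_range_choose n
      exact_mod_cast this
    rw [h10]
    have h11 : (2 : ℝ) ^ n ≤ 8 := by
      calc (2 : ℝ) ^ n ≤ 2 ^ 3 := pow_le_pow_right₀ (by norm_num) hn
        _ = 8 := by norm_num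
    have h12 : 0 ≤ H * ((4 / 3) ^ 5 * B * ((1 / 2 : ℝ) ^ j) ^ e) := by positivity
    calc (2 : ℝ) ^ n * (H * ((4 / 3) ^ 5 * B * ((1 / 2 : ℝ) ^ j) ^ e))
        ≤ 8 * (H * ((4 / 3) ^ 5 * B * ((1 / 2 : ℝ) ^ j) ^ e)) := by gcongr
      _ = 8 * H * (4 / 3) ^ 5 * B * ((1 / 2 : ℝ) ^ j) ^ e := by ring

/-- volume of the ball of radius 2 -/
noncomputable def vb : ℝ := (volume : Measure E).real (Metric.closedBall 0 2)

theorem int_sq_le {F : E → ℝ} (hz : ∀ x, 2 < ‖x‖ → F x = 0) {M : ℝ}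
    (hM : ∀ x, |F x| ≤ M) : ∫ x, F x ^ 2 ≤ M ^ 2 * vb := by
  have h1 : ∫ x, F x ^ 2 ≤ ∫ x, (Metric.closedBall (0 : E) 2).indicator (fun _ => M ^ 2) x := by
    apply integral_mono_of_nonneg
    · exact Eventually.of_forall fun x => sq_nonneg _
    · exact (integrableOn_const (measure_closedBall_lt_top.ne)).integrable_indicator
        measurableSet_closedBall
    · refine Eventually.of_forall fun x => ?_
      by_cases hx : x ∈ Metric.closedBall (0 : E) 2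
      · simp only [indicator_of_mem hx]
        rw [← sq_abs]
        exact pow_le_pow_left₀ (abs_nonneg _) (hM x) 2
      · simp only [indicator_of_notMem hx]
        rw [mem_closedBall_zero_iff, not_le] at hx
        rw [hz x hx]
        norm_num
  rw [integral_indicator measurableSet_closedBall, setIntegral_const] at h1
  rw [vb, mul_comm]
  exact h1

theorem rp_far (f : E → ℝ) (j : ℕ) (x : E) (hx : 2 < ‖x‖) : rp f j x = 0 := by
  simp only [rp]
  rw [eta_large hx.le, zero_mul]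

theorem pd_far {F : E → ℝ} (h : ∀ x, 2 < ‖x‖ → F x = 0) (i : Fin 5) :
    ∀ x, 2 < ‖x‖ → pd i F x = 0 := by
  intro x hx
  have h1 : F =ᶠ[𝓝 x] fun _ => (0 : ℝ) := by
    have h2 : ∀ᶠ y : E in 𝓝 x, 2 < ‖y‖ :=
      (continuous_norm.tendsto x).eventually (lt_mem_nhds hx)
    filter_upwards [h2] with y hy
    exact h y hy
  have h3 : fderiv ℝ F x = 0 := by
    rw [h1.fderiv_eq]
    simp
  change fderiv ℝ F x _ = 0
  rw [h3]
  rfl

theorem hs_rp (hHs : St_Hs) {F : E → ℝ} (hF : IsTest F) (hz : ∀ x, 2 < ‖x‖ → F x = 0) {M : ℝ}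
    (hM : ∀ n ≤ 3, ∀ x, ‖iteratedFDeriv ℝ n F x‖ ≤ M) (a : ℝ) (ha : 0 ≤ a) (ha3 : a ≤ 3) :
    hs a F ≤ 125 * (M ^ 2 * vb) := by
  obtain ⟨h0, -, -, h3, hint, -⟩ := hHs
  have hS := test_sch hF
  have hvb : 0 ≤ vb := measureReal_nonneg
  have hMv : 0 ≤ M ^ 2 * vb := by positivity
  have b0 : hs 0 F ≤ M ^ 2 * vb := by
    rw [h0 F hS]
    refine int_sq_le hz fun x => ?_
    have := hM 0 (by norm_num) x
    rwa [norm_iteratedFDeriv_zero, Real.norm_eq_abs] at this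
  have n0 : 0 ≤ hs 0 F := by
    rw [h0 F hS]
    exact integral_nonneg fun x => sq_nonneg _
  have b3 : hs 3 F ≤ 125 * (M ^ 2 * vb) := by
    rw [h3 F hS]
    have : ∀ i ∈ (Finset.univ : Finset (Fin 5)), ∑ j, ∑ l, ∫ x, pd l (pd j (pd i F)) x ^ 2 ≤
        25 * (M ^ 2 * vb) := by
      intro i _
      have h4 : ∀ j ∈ (Finset.univ : Finset (Fin 5)), ∑ l, ∫ x, pd l (pd j (pd i F)) x ^ 2 ≤
          5 * (M ^ 2 * vb) := by
        intro j _
        have h5 : ∀ l ∈ (Finset.univ : Finset (Fin 5)), ∫ x, pd l (pd j (pd i F)) x ^ 2 ≤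
            M ^ 2 * vb := by
          intro l _
          refine int_sq_le
            (pd_far (pd_far (pd_far hz i) j) l) fun x => ?_
          exact (pd3_le hF.1 i j l x).trans (hM 3 le_rfl x)
        have h6 := Finset.sum_le_card_nsmul _ _ _ h5
        rw [Finset.card_univ, Fintype.card_fin, nsmul_eq_mul] at h6
        exact_mod_cast h6
      have h6 := Finset.sum_le_card_nsmul _ _ _ h4
      rw [Finset.card_univ, Fintype.card_fin, nsmul_eq_mul] at h6
      refine h6.trans (le_of_eq ?_)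
      push_cast
      ring
    have h6 := Finset.sum_le_card_nsmul _ _ _ this
    rw [Finset.card_univ, Fintype.card_fin, nsmul_eq_mul] at h6
    refine h6.trans (le_of_eq ?_)
    push_cast
    ring
  have n3 : 0 ≤ hs 3 F := by
    rw [h3 F hS]
    exact Finset.sum_nonneg fun i _ => Finset.sum_nonneg fun j _ => Finset.sum_nonneg fun l _ =>
      integral_nonneg fun x => sq_nonneg _
  have h7 := hint 3 a F (by norm_num) ha (by exact_mod_cast ha3) hS
  have e3 : ((3 : ℕ) : ℝ) = 3 := by norm_num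
  rw [e3] at h7
  refine h7.trans ?_
  set X : ℝ := 125 * (M ^ 2 * vb) with hX
  have hX0 : 0 ≤ X := by positivity
  have b0' : hs 0 F ≤ X := by
    rw [hX]
    linarith
  have p1 : 0 ≤ 1 - a / 3 := by linarith
  have p2 : 0 ≤ a / 3 := by linarith
  calc hs 0 F ^ (1 - a / 3) * hs 3 F ^ (a / 3)
      ≤ X ^ (1 - a / 3) * X ^ (a / 3) := by
        have q1 := Real.rpow_le_rpow n0 b0' p1
        have q2 := Real.rpow_le_rpow n3 b3 p2
        have q3 : 0 ≤ hs 3 F ^ (a / 3) := Real.rpow_nonneg n3 _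
        have q4 : 0 ≤ X ^ (1 - a / 3) := Real.rpow_nonneg hX0 _
        exact mul_le_mul q1 q2 q3 q4
    _ = X := by
        have p3 : 1 - a / 3 + a / 3 = 1 := by ring
        rw [← Real.rpow_add' hX0 (by rw [p3]; exact one_ne_zero), p3, Real.rpow_one]

theorem pow_aux (p : ℝ) (e : ℕ) : p ^ (2 * (e : ℝ)) = (p ^ e) ^ 2 := by
  rw [← pow_mul, ← Real.rpow_natCast]
  congr 1
  push_cast
  ring

theorem hs_pc (hHs : St_Hs) {H : ℝ} (hH : 0 < H)
    (hb : ∀ m ≤ 3, ∀ x, ‖iteratedFDeriv ℝ m eta x‖ ≤ H)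
    {f : E → ℝ} (hf : SmE f) {B : ℝ} (hB : 0 ≤ B) (e : ℕ) (he : e ≤ 2)
    (hd : ∀ x, 3 / 4 ≤ ‖x‖ → ∀ n ≤ 3, ‖iteratedFDeriv ℝ n f x‖ ≤ B / ‖x‖ ^ (n + e))
    (j : ℕ) (a : ℝ) (ha : 0 ≤ a) (ha3 : a ≤ 3) :
    hs a (pc f j) ≤ 125 * ((8 * H * (4 / 3) ^ 5) ^ 2 * vb) * B ^ 2 *
      ((1 / 2 : ℝ) ^ j) ^ (2 * a - 5 + 2 * (e : ℝ)) := by
  have hsc := hHs.2.2.2.2.2.2.1 a ((1 / 2 : ℝ) ^ j) (rp f j) (by linarith) (by positivity)
    (test_sch (rp_test hf j))
  rw [pc_rp f j, hsc]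
  have h1 := hs_rp hHs (rp_test hf j) (rp_far f j)
    (fun n hn x => rp_bd hH hb hf hB e he hd j n hn x) a ha ha3
  have hp : (0 : ℝ) < (1 / 2 : ℝ) ^ j := by positivity
  have h2 : ((1 / 2 : ℝ) ^ j) ^ (2 * a - 5 + 2 * (e : ℝ)) =
      ((1 / 2 : ℝ) ^ j) ^ (2 * a - 5) * (((1 / 2 : ℝ) ^ j) ^ e) ^ 2 := by
    rw [Real.rpow_add hp, pow_aux]
  rw [h2]
  have h3 : 0 ≤ ((1 / 2 : ℝ) ^ j) ^ (2 * a - 5) := Real.rpow_nonneg hp.le _
  calc ((1 / 2 : ℝ) ^ j) ^ (2 * a - 5) * hs a (rp f j)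
      ≤ ((1 / 2 : ℝ) ^ j) ^ (2 * a - 5) *
        (125 * ((8 * H * (4 / 3) ^ 5 * B * ((1 / 2 : ℝ) ^ j) ^ e) ^ 2 * vb)) := by gcongr
    _ = _ := by ring

/-! ### Inner products -/

theorem inner_Theta (hIso : St_IsoP) {s : ℝ} (hs : |s| < 1 / 2) {f g ψ : E → ℝ}
    (hf : IsTest f) (hg : IsTest g) (hψ : IsTest ψ) :
    inner ℝ (Theta s f g) (Rs s ψ) = ∫ x, f x * ψ x ∧
      inner ℝ (Theta s f g) (dRs s ψ) = ∫ x, g x * ψ x := by
  have hs' : |(-s)| < 1 / 2 := by rwa [abs_neg]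
  have sf := test_sch hf
  have sg' := test_sch hg
  have sψ := test_sch hψ
  have slf := test_sch (test_lap (test_lap hf))
  have slg := test_sch (test_lap hg)
  obtain ⟨a1, -⟩ := hIso s f ψ hs sf sψ
  obtain ⟨-, b2, -⟩ := hIso s g ψ hs sg' sψ
  obtain ⟨-, -, c3, -⟩ := hIso s ψ (lap g) hs sψ slg
  obtain ⟨-, -, d3, -⟩ := hIso (-s) (lap (lap f)) ψ hs' slf sψ
  rw [neg_neg] at d3
  constructor
  · rw [Theta, real_inner_smul_left, inner_sub_left, real_inner_comm (Rs s ψ) (dRs (-s) (lap g)), c3,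
      sub_zero, a1]
  · rw [Theta, real_inner_smul_left, inner_sub_left, d3, zero_sub, mul_neg, b2, neg_neg]

theorem pc_zero {f : E → ℝ} {j : ℕ} {x : E} (h : (1 / 2 : ℝ) ^ j * ‖x‖ ≤ 3 / 4) : pc f j x = 0 := by
  simp only [pc]
  rw [eta_small, zero_mul]
  rw [norm_smul, Real.norm_of_nonneg (by positivity)]
  exact h

/-- the pieces sum up to the function on the support of `ψ` -/
theorem sum_pc {f ψ : E → ℝ} (hf : SmE f) (hψ : IsTest ψ) (ht : tsupport ψ ⊆ xt 0 1) :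
    ∃ N : ℕ, (∀ j, N ≤ j → ∫ x, pc f j x * ψ x = 0) ∧
      ∑ j ∈ Finset.range N, ∫ x, pc f j x * ψ x = ∫ x, f x * ψ x := by
  obtain ⟨R, hR⟩ := hψ.2.isCompact.isBounded.subset_closedBall (0 : E)
  have hR' : ∀ x, ψ x ≠ 0 → ‖x‖ ≤ max R 1 := by
    intro x hx
    have h1 := hR (subset_tsupport ψ hx)
    rw [mem_closedBall_zero_iff] at h1
    exact h1.trans (le_max_left _ _)
  have hRp : 0 < max R 1 := lt_of_lt_of_le one_pos (le_max_right _ _)
  have h1x : ∀ x, ψ x ≠ 0 → 1 ≤ ‖x‖ := by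
    intro x hx
    have h1 := ht (subset_tsupport ψ hx)
    have h2 : (1 : ℝ) < dist x 0 := h1
    rw [dist_zero_right] at h2
    exact h2.le
  obtain ⟨N, hN⟩ := exists_pow_lt_of_lt_one (show (0 : ℝ) < 3 / 4 / max R 1 by positivity)
    (show (1 / 2 : ℝ) < 1 by norm_num)
  have hN' : ∀ j, N ≤ j → ∀ x, ψ x ≠ 0 → (1 / 2 : ℝ) ^ j * ‖x‖ ≤ 3 / 4 := by
    intro j hj x hx
    have h2 : (1 / 2 : ℝ) ^ j ≤ (1 / 2) ^ N := pow_le_pow_of_le_one (by norm_num) (by norm_num) hj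
    have h3 : (1 / 2 : ℝ) ^ N * max R 1 ≤ 3 / 4 := by
      rw [lt_div_iff₀ hRp] at hN
      exact hN.le
    calc (1 / 2 : ℝ) ^ j * ‖x‖ ≤ (1 / 2) ^ N * max R 1 := by
          have := hR' x hx
          gcongr
      _ ≤ 3 / 4 := h3
  refine ⟨N, fun j hj => ?_, ?_⟩
  · have h4 : ∀ x, pc f j x * ψ x = 0 := by
      intro x
      by_cases hx : ψ x = 0
      · rw [hx, mul_zero]
      · rw [pc_zero (hN' j hj x hx), zero_mul]
    simp_rw [h4]
    simp
  · rw [← integral_finsetSum]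
    · refine integral_congr_ae (Eventually.of_forall fun x => ?_)
      beta_reduce
      rw [← Finset.sum_mul]
      by_cases hx : ψ x = 0
      · rw [hx, mul_zero, mul_zero]
      · congr 1
        have h5 : ∑ j ∈ Finset.range N, pc f j x =
            (∑ j ∈ Finset.range N, eta (((1 / 2 : ℝ) ^ j) • x)) * f x := by
          rw [Finset.sum_mul]
          rfl
        rw [h5, eta_tele, bmp_zero (h1x x hx), bmp_one, sub_zero, one_mul]
        rw [norm_smul, Real.norm_of_nonneg (by positivity)]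
        exact hN' N le_rfl x hx
    · intro j _
      have h6 : Continuous fun x => pc f j x * ψ x :=
        (pc_test hf j).1.continuous.mul hψ.1.continuous
      exact h6.integrable_of_hasCompactSupport ((pc_test hf j).2.mul_right)

end DySx

open DySx in
/-- **DyS**. -/
theorem thm_DyS (hHs : St_Hs) (hIso : St_IsoP) : St_DyS := by
  intro s hs
  obtain ⟨hs1, hs2⟩ := abs_lt.1 hs
  obtain ⟨H, hH, hHb⟩ := eta_bd
  set D : ℝ := 125 * ((8 * H * (4 / 3) ^ 5) ^ 2 * vb) with hD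
  have hvb : 0 ≤ vb := measureReal_nonneg
  have hD0 : 0 ≤ D := by positivity
  have hc0 : 0 ≤ |c0| := abs_nonneg _
  set q : ℝ := (1 / 2 : ℝ) ^ ((1 + 2 * s) / 2) with hq
  have hq0 : 0 < q := Real.rpow_pos_of_pos (by norm_num) _
  have hq1 : q < 1 := Real.rpow_lt_one (by norm_num) (by norm_num) (by linarith)
  set C1 : ℝ := Real.sqrt (|c0| * (2 * D)) with hC1
  have hC10 : 0 ≤ C1 := Real.sqrt_nonneg _
  have h1q : 0 < 1 - q := by linarith
  refine ⟨C1 / (1 - q) + 1, by positivity, ?_⟩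
  intro f g B hf hg hB hd
  have hdf : ∀ x, 3 / 4 ≤ ‖x‖ → ∀ n ≤ 3, ‖iteratedFDeriv ℝ n f x‖ ≤ B / ‖x‖ ^ (n + 1) :=
    fun x hx n hn => (hd x hx n hn).1
  have hdg : ∀ x, 3 / 4 ≤ ‖x‖ → ∀ n ≤ 3, ‖iteratedFDeriv ℝ n g x‖ ≤ B / ‖x‖ ^ (n + 2) :=
    fun x hx n hn => (hd x hx n hn).2
  -- norms of the pieces
  have hpw : ∀ j : ℕ, ((1 / 2 : ℝ) ^ j) ^ (1 + 2 * s) = (q ^ j) ^ 2 := by
    intro j
    rw [hq, ← Real.rpow_natCast (1 / 2 : ℝ) j, ← Real.rpow_mul (by norm_num),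
      ← Real.rpow_natCast ((1 / 2 : ℝ) ^ ((1 + 2 * s) / 2)) j, ← Real.rpow_mul (by norm_num),
      ← Real.rpow_natCast _ 2, ← Real.rpow_mul (by norm_num)]
    congr 1
    push_cast
    ring
  have hTh : ∀ j, ‖Theta s (pc f j) (pc g j)‖ ≤ C1 * B * q ^ j := by
    intro j
    have e1 := (hIso s (pc f j) (pc g j) hs (test_sch (pc_test hf j))
      (test_sch (pc_test hg j))).2.2.2.2.2.2.1
    have e2 := hs_pc hHs hH hHb hf hB 1 (by norm_num) hdf j (2 + s) (by linarith) (by linarith)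
    have e3 := hs_pc hHs hH hHb hg hB 2 le_rfl hdg j (1 + s) (by linarith) (by linarith)
    have x1 : 2 * (2 + s) - 5 + 2 * ((1 : ℕ) : ℝ) = 1 + 2 * s := by
      push_cast
      ring
    have x2 : 2 * (1 + s) - 5 + 2 * ((2 : ℕ) : ℝ) = 1 + 2 * s := by
      push_cast
      ring
    rw [x1, hpw, ← hD] at e2
    rw [x2, hpw, ← hD] at e3
    have n2 : 0 ≤ Pool.Agent.QWP.hs (2 + s) (pc f j) := by
      apply integral_nonneg
      intro ξ
      positivity
    have n3 : 0 ≤ Pool.Agent.QWP.hs (1 + s) (pc g j) := by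
      apply integral_nonneg
      intro ξ
      positivity
    have e4 : ‖Theta s (pc f j) (pc g j)‖ ^ 2 ≤ (C1 * B * q ^ j) ^ 2 := by
      rw [e1]
      have hsq : C1 ^ 2 = |c0| * (2 * D) := Real.sq_sqrt (by positivity)
      calc c0 * (Pool.Agent.QWP.hs (2 + s) (pc f j) + Pool.Agent.QWP.hs (1 + s) (pc g j))
          ≤ |c0| * (Pool.Agent.QWP.hs (2 + s) (pc f j) + Pool.Agent.QWP.hs (1 + s) (pc g j)) := by
            have := le_abs_self c0
            gcongr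
        _ ≤ |c0| * (D * B ^ 2 * (q ^ j) ^ 2 + D * B ^ 2 * (q ^ j) ^ 2) := by gcongr
        _ = (C1 * B * q ^ j) ^ 2 := by
            rw [mul_pow, mul_pow, hsq]
            ring
    exact (sq_le_sq₀ (norm_nonneg _) (by positivity)).1 e4
  have hsum : HasSum (fun j => C1 * B * q ^ j) (C1 * B * (1 - q)⁻¹) :=
    (hasSum_geometric_of_lt_one hq0.le hq1).mul_left _
  have hSm : Summable fun j => Theta s (pc f j) (pc g j) :=
    Summable.of_norm_bounded hsum.summable hTh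
  refine ⟨∑' j, Theta s (pc f j) (pc g j), ?_, ?_⟩
  · calc ‖∑' j, Theta s (pc f j) (pc g j)‖ ≤ C1 * B * (1 - q)⁻¹ :=
          tsum_of_norm_bounded hsum hTh
      _ = C1 / (1 - q) * B := by
          rw [div_eq_mul_inv]
          ring
      _ ≤ (C1 / (1 - q) + 1) * B := by
          have : C1 / (1 - q) ≤ C1 / (1 - q) + 1 := by linarith
          gcongr
  · intro ψ hψ ht
    have key : ∀ (v : K) (F : E → ℝ) (hF : SmE F),
        (∀ j, inner ℝ (Theta s (pc f j) (pc g j)) v = ∫ x, pc F j x * ψ x) →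
        inner ℝ (∑' j, Theta s (pc f j) (pc g j)) v = ∫ x, F x * ψ x := by
      intro v F hF hj
      obtain ⟨N, hN1, hN2⟩ := sum_pc hF hψ ht
      have h1 : HasSum (fun j => inner ℝ (Theta s (pc f j) (pc g j)) v)
          (inner ℝ (∑' j, Theta s (pc f j) (pc g j)) v) := by
        have h2 := (innerSL ℝ v).hasSum hSm.hasSum
        simp only [innerSL_apply_apply] at h2
        have h3 : (fun j => inner ℝ (Theta s (pc f j) (pc g j)) v) =
            fun j => inner ℝ v (Theta s (pc f j) (pc g j)) := by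
          funext j
          exact real_inner_comm _ _
        rw [h3, real_inner_comm]
        exact h2
      have h4 : HasSum (fun j => inner ℝ (Theta s (pc f j) (pc g j)) v)
          (∑ j ∈ Finset.range N, inner ℝ (Theta s (pc f j) (pc g j)) v) := by
        apply hasSum_sum_of_ne_finset_zero
        intro j hjN
        rw [hj j]
        exact hN1 j (by simpa using hjN)
      rw [h1.unique h4, ← hN2]
      exact Finset.sum_congr rfl fun j _ => hj j
    exact ⟨key _ f hf fun j => (inner_Theta hIso hs (pc_test hf j) (pc_test hg j) hψ).1,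
      key _ g hg fun j => (inner_Theta hIso hs (pc_test hf j) (pc_test hg j) hψ).2⟩

end Pool.Agent.QWP
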