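import Pool.Agent.QWP.StA

set_option autoImplicit false

/-!
# QWP, GagB: basic facts on Schwartz functions, convolution and scaling (for GagD, GagE, ApxF)
-/

open MeasureTheory Filter Topology Set
open scoped ENNReal NNReal RealInnerProductSpace FourierTransform SchwartzMap

namespace Pool.Agent.QWP

open Pool.Agent.QWE (E S sg mu K toK tau sh dl rev gr ig IsTest pd lap Rad dRad Rk dRk c0 WD Sm SmE IsSch half shr WTo)

namespace GagDx

/-! ### Schwartz functions -/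

theorem sch_add {f g : E → ℝ} (hf : IsSch f) (hg : IsSch g) : IsSch (fun x => f x + g x) := by
  obtain ⟨F, hF⟩ := hf
  obtain ⟨G, hG⟩ := hg
  exact ⟨F + G, fun x => by simp [hF, hG]⟩

theorem sch_sub {f g : E → ℝ} (hf : IsSch f) (hg : IsSch g) : IsSch (fun x => f x - g x) := by
  obtain ⟨F, hF⟩ := hf
  obtain ⟨G, hG⟩ := hg
  exact ⟨F - G, fun x => by simp [hF, hG]⟩

theorem sch_eq {f : E → ℝ} (hf : IsSch f) : ∃ F : 𝓢(E, ℝ), (F : E → ℝ) = f := by
  obtain ⟨F, hF⟩ := hf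
  exact ⟨F, funext hF⟩

theorem sch_cont {f : E → ℝ} (hf : IsSch f) : Continuous f := by
  obtain ⟨F, rfl⟩ := sch_eq hf
  exact F.continuous

theorem sch_int {f : E → ℝ} (hf : IsSch f) : Integrable f volume := by
  obtain ⟨F, rfl⟩ := sch_eq hf
  exact F.integrable

theorem sch_memLp {f : E → ℝ} (hf : IsSch f) (p : ℝ≥0∞) : MemLp f p volume := by
  obtain ⟨F, rfl⟩ := sch_eq hf
  exact F.memLp p

theorem sch_cx {φ : E → ℝ} (h : IsSch φ) : ∃ f : 𝓢(E, ℂ), ∀ x, f x = (φ x : ℂ) := by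
  obtain ⟨f, hf⟩ := h
  refine ⟨f.postcompCLM Complex.ofRealCLM, fun x => ?_⟩
  rw [SchwartzMap.postcompCLM_apply, hf x]
  rfl

theorem ft_eq (φ : E → ℝ) (ξ : E) : ft φ ξ = 𝓕 (fun x => (φ x : ℂ)) ξ := by
  rw [Real.fourier_eq', ft]
  refine integral_congr_ae (Eventually.of_forall fun x => ?_)
  simp only [smul_eq_mul]
  rw [mul_comm]
  congr 2
  push_cast
  ring

theorem ft_cx {φ : E → ℝ} {f : 𝓢(E, ℂ)} (hf : ∀ x, f x = (φ x : ℂ)) (ξ : E) :
    ft φ ξ = (𝓕 f : 𝓢(E, ℂ)) ξ := by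
  have e : (f : E → ℂ) = fun x => (φ x : ℂ) := funext hf
  rw [ft_eq, SchwartzMap.fourier_coe, e]

theorem ft_smooth {φ : E → ℝ} (h : IsSch φ) : ContDiff ℝ ((⊤ : ℕ∞) : WithTop ℕ∞) (ft φ) := by
  obtain ⟨f, hf⟩ := sch_cx h
  have e : ft φ = (𝓕 f : 𝓢(E, ℂ)) := funext (ft_cx hf)
  rw [e]
  exact (𝓕 f).smooth ⊤

theorem ft_int {f : E → ℝ} (hf : Integrable f volume) (ξ : E) : Integrable (fun x => (f x : ℂ) *
    Complex.exp (-2 * Real.pi * Complex.I * ((inner ℝ x ξ : ℝ) : ℂ))) volume := by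
  have h1 : Integrable (fun x => (f x : ℂ)) (volume : Measure E) := hf.ofReal
  refine h1.mul_bdd (c := 1) ?_ ?_
  · exact (by fun_prop : Continuous fun x : E =>
      Complex.exp (-2 * Real.pi * Complex.I * ((inner ℝ x ξ : ℝ) : ℂ))).aestronglyMeasurable
  · refine Eventually.of_forall fun x => ?_
    have e : (-2 * Real.pi * Complex.I * ((inner ℝ x ξ : ℝ) : ℂ)) =
        ((-2 * Real.pi * inner ℝ x ξ : ℝ) : ℂ) * Complex.I := by push_cast; ring
    rw [e, Complex.norm_exp_ofReal_mul_I]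

theorem ft_add {f g : E → ℝ} (hf : Integrable f volume) (hg : Integrable g volume) (ξ : E) :
    ft (fun x => f x + g x) ξ = ft f ξ + ft g ξ := by
  rw [ft, ft, ft, ← integral_add (ft_int hf ξ) (ft_int hg ξ)]
  refine integral_congr_ae (Eventually.of_forall fun x => ?_)
  push_cast
  ring

theorem ft_sub {f g : E → ℝ} (hf : Integrable f volume) (hg : Integrable g volume) (ξ : E) :
    ft (fun x => f x - g x) ξ = ft f ξ - ft g ξ := by
  rw [ft, ft, ft, ← integral_sub (ft_int hf ξ) (ft_int hg ξ)]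
  refine integral_congr_ae (Eventually.of_forall fun x => ?_)
  push_cast
  ring

/-- convolution -/
noncomputable def cv (f g : E → ℝ) (x : E) : ℝ := ∫ y, f y * g (x - y)

theorem cv_sch {f g : E → ℝ} (hf : IsSch f) (hg : IsSch g) :
    IsSch (cv f g) ∧ ∀ ξ, ft (cv f g) ξ = ft f ξ * ft g ξ := by
  obtain ⟨F, hF⟩ := sch_cx hf
  obtain ⟨G, hG⟩ := sch_cx hg
  have e : ∀ x, SchwartzMap.convolution (ContinuousLinearMap.mul ℂ ℂ) F G x = (cv f g x : ℂ) := by
    intro x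
    rw [SchwartzMap.convolution_apply, cv, ← integral_complex_ofReal]
    refine integral_congr_ae (Eventually.of_forall fun y => ?_)
    simp only [ContinuousLinearMap.mul_apply', hF, hG]
    push_cast
    rfl
  refine ⟨⟨(SchwartzMap.convolution (ContinuousLinearMap.mul ℂ ℂ) F G).postcompCLM (𝕜 := ℝ)
    Complex.reCLM, fun x => ?_⟩, fun ξ => ?_⟩
  · rw [SchwartzMap.postcompCLM_apply, e x]
    rfl
  · rw [ft_cx e, ft_cx hF, ft_cx hG, SchwartzMap.fourier_convolution]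
    rfl

/-- scaled kernels -/
noncomputable def sc (l : ℝ) (k : E → ℝ) (x : E) : ℝ := l ^ 5 * k (l • x)

theorem sc_sch {l : ℝ} (hl : 0 < l) {k : E → ℝ} (hk : IsSch k) :
    IsSch (sc l k) ∧ ∀ ξ, ft (sc l k) ξ = ft k (l⁻¹ • ξ) := by
  obtain ⟨F, hF⟩ := hk
  refine ⟨⟨(l ^ 5) • SchwartzMap.compCLMOfContinuousLinearEquiv ℝ
    (ContinuousLinearEquiv.smulLeft (Units.mk0 l hl.ne')) F, fun x => ?_⟩, fun ξ => ?_⟩
  · rw [_root_.smul_apply, smul_eq_mul, sc, ← hF]
    rfl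
  · rw [ft, ft]
    have h := Measure.integral_comp_smul (volume : Measure E) (fun x =>
      (k x : ℂ) * Complex.exp (-2 * Real.pi * Complex.I * ((inner ℝ x (l⁻¹ • ξ) : ℝ) : ℂ))) l
    have e1 : Module.finrank ℝ E = 5 := by simp
    rw [e1, abs_of_pos (by positivity)] at h
    have h2 : (l ^ 5 : ℝ) • ∫ x, (k (l • x) : ℂ) * Complex.exp (-2 * Real.pi * Complex.I *
        ((inner ℝ (l • x) (l⁻¹ • ξ) : ℝ) : ℂ)) = ∫ x, (k x : ℂ) *
          Complex.exp (-2 * Real.pi * Complex.I * ((inner ℝ x (l⁻¹ • ξ) : ℝ) : ℂ)) := by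
      rw [h, smul_smul, mul_inv_cancel₀ (pow_ne_zero 5 hl.ne'), one_smul]
    rw [← h2, ← integral_smul]
    refine integral_congr_ae (Eventually.of_forall fun x => ?_)
    simp only [sc, inner_smul_left, inner_smul_right, Complex.real_smul, conj_trivial]
    have e2 : l⁻¹ * (l * inner ℝ x ξ) = inner ℝ x ξ := by
      rw [← mul_assoc, inv_mul_cancel₀ hl.ne', one_mul]
    rw [e2]
    push_cast
    ring

/-! ### The majorant -/

/-- the majorant -/
noncomputable def e6 (x : E) : ℝ := (1 + ‖x‖) ^ (-6 : ℝ)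

theorem e6_pos (x : E) : 0 < e6 x := by unfold e6; positivity

theorem e6_cont : Continuous e6 := by
  unfold e6
  exact (by fun_prop : Continuous fun x : E => 1 + ‖x‖).rpow_const fun x => Or.inl (by positivity)

theorem e6_memLp {q : ℝ≥0∞} (hq : 1 ≤ q) : MemLp e6 q volume := by
  by_cases hqt : q = ⊤
  · rw [hqt]
    refine memLp_top_of_bound e6_cont.aestronglyMeasurable 1 (Eventually.of_forall fun x => ?_)
    rw [Real.norm_eq_abs, abs_of_pos (e6_pos x)]
    exact Real.rpow_le_one_of_one_le_of_nonpos (by linarith [norm_nonneg x]) (by norm_num)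
  · have hq0 : q ≠ 0 := (zero_lt_one.trans_le hq).ne'
    rw [← integrable_norm_rpow_iff e6_cont.aestronglyMeasurable hq0 hqt]
    have h1 : 1 ≤ q.toReal := by
      rw [← ENNReal.toReal_one]
      exact ENNReal.toReal_mono hqt hq
    have h2 : Integrable (fun x : E => (1 + ‖x‖) ^ (-(6 * q.toReal))) volume :=
      integrable_one_add_norm (by simp; nlinarith)
    refine h2.congr (Eventually.of_forall fun x => ?_)
    simp only
    rw [Real.norm_eq_abs, abs_of_pos (e6_pos x), e6, ← Real.rpow_mul (by positivity)]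
    congr 1
    ring

theorem e6_trans {x z : E} (h : ‖z - x‖ ≤ 2) : e6 z ≤ 3 ^ (6 : ℝ) * e6 x := by
  have h1 : 1 + ‖x‖ ≤ 3 * (1 + ‖z‖) := by
    have := norm_sub_norm_le x z
    rw [norm_sub_rev] at this
    linarith [norm_nonneg z]
  have hx : 0 < 1 + ‖x‖ := by positivity
  have hz : 0 < 1 + ‖z‖ := by positivity
  unfold e6
  rw [Real.rpow_neg hx.le, Real.rpow_neg hz.le, ← div_eq_mul_inv, inv_eq_one_div,
    div_le_div_iff₀ (by positivity) (by positivity), one_mul, ← Real.mul_rpow (by norm_num) hz.le]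
  exact Real.rpow_le_rpow hx.le h1 (by norm_num)

theorem sch_dec {V : Type} [NormedAddCommGroup V] [NormedSpace ℝ V] (G : 𝓢(E, V)) :
    ∃ C : ℝ, 0 ≤ C ∧ ∀ x, ‖G x‖ ≤ C * e6 x := by
  refine ⟨2 ^ 6 * (Finset.Iic (6, 0)).sup (fun m => SchwartzMap.seminorm ℝ m.1 m.2) G,
    by positivity, fun x => ?_⟩
  have h := SchwartzMap.one_add_le_sup_seminorm_apply (𝕜 := ℝ) (m := (6, 0)) (k := 6) (n := 0)
    le_rfl le_rfl G x
  rw [norm_iteratedFDeriv_zero] at h
  have hx : 0 < 1 + ‖x‖ := by positivity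
  have e : e6 x = ((1 + ‖x‖) ^ 6)⁻¹ := by
    rw [e6, Real.rpow_neg hx.le]
    congr 1
    exact_mod_cast Real.rpow_natCast (1 + ‖x‖) 6
  rw [e, ← div_eq_mul_inv, le_div_iff₀ (by positivity), mul_comm]
  exact h

end GagDx

end Pool.Agent.QWP
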