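import Pool.Agent.QWP.StA2
import Pool.Agent.QWE.Free

set_option autoImplicit false
set_option linter.unusedVariables false

/-!
# QWP, KerP part 1: scaling, Fubini for the kernel of `T T*` (helper7)

Plan of part 2 (`KerP.lean`, `thm_KerP`).
1. Profile in absolute value: KerB at `t = 0` gives integrability of `(1 - P u)|u|^(-1-α)` and `P u |u|^(-α)`; `|(P t - P t')| |t-t'|^(-1-α) ≤ 2 h(t-t')` with
   `h(u) = (P 0 - P u)|u|^(-1-α) + P u |u|^(-α)` up to a constant (`|P t - P t'| ≤ min(1, 2|t-t'|)`), so `∫ |F 1 (-1) (-1-α) t ·| ≤ C0`; case `s > 0`: `F 0 1 (α-1) ≥ 0`.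
2. `N t z = c * ∫ t', H ε δ e t t' z`, `e = -1+2s` (`s < 0`: `α = -2s`, `(ε,δ) = (1,-1)`; `s > 0`: `α = 2s`, `(0,1)`), `N = Kc` for `s = 0`; measurable: `StronglyMeasurable.integral_prod_right` and `H_meas`; bound: `H_eq` and KerB.
3. `A φ ψ t = inner (tau t (Rk φ)) (Rk ψ)`: `Pool.Agent.QWE.Freex.inA`, `St_Sph` (2nd clause), `Kc_int`; compact support in `t`.
4. Fourier side: `G0(r) = ∫_S ft φ (r w) conj(ft ψ (r w))`, Par and Idn, `A t = ∫ e^(-2πirt) G0 dr`; then Rsz.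
5. `fub`, then `integral_prod` (the bound `|N| ≤ C ‖z‖^e` and `maj`).
-/

open MeasureTheory Filter Topology Set
open scoped ENNReal NNReal RealInnerProductSpace

namespace Pool.Agent.QWP

open Pool.Agent.QWE (E S sg mu K toK tau sh dl rev gr ig IsTest pd lap Rad dRad Rk dRk c0 WD Sm SmE IsSch half shr WTo Kc Sph kap IsMol)

namespace KerPx

/-! ### the profile -/

noncomputable def P (t : ℝ) : ℝ := max 0 (1 - t ^ 2)

lemma P_meas : Measurable P := by
  unfold P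
  exact measurable_const.max (by fun_prop)

lemma P_nonneg (t : ℝ) : 0 ≤ P t := le_max_left _ _

lemma P_le (t : ℝ) : P t ≤ 1 := by
  unfold P
  exact max_le (by norm_num) (by nlinarith [sq_nonneg t])

lemma Kc_eq (t : ℝ) (z : E) : Kc t z = 2 * Real.pi ^ 2 / ‖z‖ * P (t / ‖z‖) := by
  unfold Pool.Agent.QWE.Kc P
  rw [div_pow]

lemma Kc_zero (t : ℝ) : Kc t 0 = 0 := by
  rw [Kc_eq, norm_zero, div_zero, zero_mul]

lemma Kc_meas : Measurable (fun q : ℝ × E => Kc q.1 q.2) := by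
  have h : (fun q : ℝ × E => Kc q.1 q.2) = fun q : ℝ × E =>
      2 * Real.pi ^ 2 / ‖q.2‖ * P (q.1 / ‖q.2‖) := by
    funext q
    exact Kc_eq _ _
  rw [h]
  have h1 : Measurable fun q : ℝ × E => ‖q.2‖ := by fun_prop
  exact (measurable_const.div h1).mul (P_meas.comp (measurable_fst.div h1))

lemma Kc_meas' (t : ℝ) : Measurable fun q : E × E => Kc t (q.1 - q.2) := by
  have h : (fun q : E × E => Kc t (q.1 - q.2)) = fun q : E × E =>
      2 * Real.pi ^ 2 / ‖q.1 - q.2‖ * P (t / ‖q.1 - q.2‖) := by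
    funext q
    exact Kc_eq _ _
  rw [h]
  have h1 : Measurable fun q : E × E => ‖q.1 - q.2‖ := by fun_prop
  exact (measurable_const.div h1).mul (P_meas.comp (measurable_const.div h1))

lemma Kc_abs (t : ℝ) (z : E) : |Kc t z| ≤ 2 * Real.pi ^ 2 * ‖z‖ ^ (-1 : ℝ) := by
  rw [Kc_eq, abs_mul, abs_of_nonneg (P_nonneg _), abs_of_nonneg (by positivity), Real.rpow_neg_one,
    div_eq_mul_inv]
  have h1 := P_le (t / ‖z‖)
  have h2 : 0 ≤ 2 * Real.pi ^ 2 * ‖z‖⁻¹ := by positivity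
  nlinarith

/-- the integrand of the profile -/
noncomputable def F (ε δ e t t' : ℝ) : ℝ := (ε * P t + δ * P t') * |t - t'| ^ e

/-- the integrand of the kernel -/
noncomputable def H (ε δ e t t' : ℝ) (z : E) : ℝ :=
  (ε * Kc t z + δ * Kc t' z) * |t - t'| ^ e

lemma H_zero (ε δ e t t' : ℝ) : H ε δ e t t' 0 = 0 := by
  unfold H
  rw [Kc_zero, Kc_zero]
  ring

lemma H_meas (ε δ e : ℝ) :
    Measurable (fun q : (ℝ × E) × ℝ => H ε δ e q.1.1 q.2 q.1.2) := by
  unfold H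
  have h1 : Measurable fun q : (ℝ × E) × ℝ => Kc q.1.1 q.1.2 := Kc_meas.comp measurable_fst
  have h2 : Measurable fun q : (ℝ × E) × ℝ => Kc q.2 q.1.2 :=
    Kc_meas.comp (measurable_snd.prodMk (measurable_snd.comp measurable_fst))
  have h3 : Measurable fun q : (ℝ × E) × ℝ => |q.1.1 - q.2| ^ e := by
    refine Measurable.pow_const ?_ e
    have : Measurable fun q : (ℝ × E) × ℝ => q.1.1 - q.2 := by fun_prop
    exact this.abs
  exact ((h1.const_mul ε).add (h2.const_mul δ)).mul h3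

lemma H_scale (ε δ e t τ : ℝ) {z : E} (hz : z ≠ 0) :
    H ε δ e t (‖z‖ * τ) z = 2 * Real.pi ^ 2 * ‖z‖ ^ (e - 1) * F ε δ e (t / ‖z‖) τ := by
  have hn : 0 < ‖z‖ := norm_pos_iff.2 hz
  unfold H F
  rw [Kc_eq, Kc_eq, mul_div_cancel_left₀ _ hn.ne']
  have h1 : |t - ‖z‖ * τ| = ‖z‖ * |t / ‖z‖ - τ| := by
    rw [← abs_of_pos hn, ← abs_mul, abs_of_pos hn]
    congr 1
    field_simp
  rw [h1, Real.mul_rpow hn.le (abs_nonneg _), Real.rpow_sub_one hn.ne']
  ring

variable {ε δ e : ℝ}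

lemma H_int (hI : ∀ t, Integrable (F ε δ e t)) (t : ℝ) (z : E) :
    Integrable fun t' => H ε δ e t t' z := by
  by_cases hz : z = 0
  · subst hz
    simp only [H_zero]
    exact integrable_zero _ _ _
  · have hn : ‖z‖ ≠ 0 := norm_ne_zero_iff.2 hz
    rw [← integrable_comp_mul_left_iff _ hn]
    simp only [H_scale ε δ e t _ hz]
    exact (hI _).const_mul _

lemma scale_int {g : ℝ → ℝ} {a : ℝ} (ha : 0 < a) : ∫ x, g x = a * ∫ x, g (a * x) := by
  rw [Measure.integral_comp_mul_left, abs_of_pos (inv_pos.2 ha), smul_eq_mul, ← mul_assoc,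
    mul_inv_cancel₀ ha.ne', one_mul]

lemma H_eq (t : ℝ) {z : E} (hz : z ≠ 0) :
    ∫ t', H ε δ e t t' z = 2 * Real.pi ^ 2 * ‖z‖ ^ e * ∫ τ, F ε δ e (t / ‖z‖) τ := by
  have hn : 0 < ‖z‖ := norm_pos_iff.2 hz
  rw [scale_int hn]
  simp only [H_scale ε δ e t _ hz]
  rw [integral_const_mul, Real.rpow_sub_one hn.ne']
  field_simp

lemma H_abs {C0 : ℝ} (hA : ∀ t, ∫ τ, |F ε δ e t τ| ≤ C0) (t : ℝ) (z : E) :
    ∫ t', |H ε δ e t t' z| ≤ 2 * Real.pi ^ 2 * C0 * ‖z‖ ^ e := by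
  have hC0 : 0 ≤ C0 := (integral_nonneg fun _ => abs_nonneg _).trans (hA 0)
  by_cases hz : z = 0
  · subst hz
    simp only [H_zero, abs_zero, integral_zero]
    positivity
  have hn : 0 < ‖z‖ := norm_pos_iff.2 hz
  rw [scale_int hn]
  simp only [H_scale ε δ e t _ hz, abs_mul]
  rw [integral_const_mul, Real.rpow_sub_one hn.ne', abs_of_nonneg (by positivity : 0 ≤ ‖z‖ ^ e / ‖z‖),
    abs_of_nonneg (by positivity : (0 : ℝ) ≤ 2), abs_of_nonneg (by positivity : 0 ≤ Real.pi ^ 2)]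
  have h1 := hA (t / ‖z‖)
  have h2 : ‖z‖ * (2 * Real.pi ^ 2 * (‖z‖ ^ e / ‖z‖) * ∫ τ, |F ε δ e (t / ‖z‖) τ|) =
      2 * Real.pi ^ 2 * ‖z‖ ^ e * ∫ τ, |F ε δ e (t / ‖z‖) τ| := by
    field_simp
  rw [h2]
  have h3 : 0 ≤ 2 * Real.pi ^ 2 * ‖z‖ ^ e := by positivity
  calc 2 * Real.pi ^ 2 * ‖z‖ ^ e * ∫ τ, |F ε δ e (t / ‖z‖) τ|
      ≤ 2 * Real.pi ^ 2 * ‖z‖ ^ e * C0 := by gcongr
    _ = _ := by ring

/-! ### convolution estimates -/

lemma loc_rpow {e : ℝ} (he : -5 < e) : LocallyIntegrable (fun z : E => ‖z‖ ^ e) volume := by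
  have hd : Module.finrank ℝ E = 5 := by simp
  refine locallyIntegrable_of_norm_le_rpow (C := 1) (α := -e) (by rw [hd]; norm_num)
    (by rw [hd]; push_cast; linarith) (Eventually.of_forall fun z => ?_) ?_
  · rw [neg_neg, one_mul, Real.norm_eq_abs, abs_of_nonneg (by positivity)]
  · exact (measurable_norm.pow_const e).aestronglyMeasurable

/-- the majorant -/
lemma maj {φ ψ : E → ℝ} (hφ : IsTest φ) (hψ : IsTest ψ) {e : ℝ} (he : -5 < e) :
    Integrable (fun q : E × E => φ q.1 * ψ q.2 * ‖q.1 - q.2‖ ^ e) (volume.prod volume) := by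
  have hm : AEStronglyMeasurable (fun q : E × E => φ q.1 * ψ q.2 * ‖q.1 - q.2‖ ^ e)
      (volume.prod volume) := by
    refine Measurable.aestronglyMeasurable ?_
    have h1 : Measurable fun q : E × E => φ q.1 := hφ.1.continuous.measurable.comp measurable_fst
    have h2 : Measurable fun q : E × E => ψ q.2 := hψ.1.continuous.measurable.comp measurable_snd
    have h3 : Measurable fun q : E × E => ‖q.1 - q.2‖ := by fun_prop
    exact (h1.mul h2).mul (h3.pow_const e)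
  have hψa : HasCompactSupport fun y => |ψ y| := hψ.2.norm
  have hψc : Continuous fun y => |ψ y| := hψ.1.continuous.abs
  have hloc := loc_rpow he
  rw [integrable_prod_iff hm]
  constructor
  · refine Eventually.of_forall fun x => ?_
    have h1 := hψ.2.convolutionExists_left (ContinuousLinearMap.mul ℝ ℝ) hψ.1.continuous hloc x
    have h2 : Integrable (fun y => ψ y * ‖x - y‖ ^ e) volume := h1
    have h3 := h2.const_mul (φ x)
    refine h3.congr (Eventually.of_forall fun y => ?_)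
    show φ x * (ψ y * ‖x - y‖ ^ e) = φ x * ψ y * ‖x - y‖ ^ e
    ring
  · have h1 : Continuous (MeasureTheory.convolution (fun y => |ψ y|) (fun z : E => ‖z‖ ^ e)
        (ContinuousLinearMap.mul ℝ ℝ) volume) :=
      hψa.continuous_convolution_left (ContinuousLinearMap.mul ℝ ℝ) hψc hloc
    have h2 : (fun x => ∫ y, ‖φ x * ψ y * ‖x - y‖ ^ e‖) = fun x => |φ x| *
        MeasureTheory.convolution (fun y => |ψ y|) (fun z : E => ‖z‖ ^ e)
        (ContinuousLinearMap.mul ℝ ℝ) volume x := by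
      funext x
      have h3 : MeasureTheory.convolution (fun y => |ψ y|) (fun z : E => ‖z‖ ^ e)
        (ContinuousLinearMap.mul ℝ ℝ) volume x = ∫ y, |ψ y| * ‖x - y‖ ^ e := rfl
      rw [h3, ← integral_const_mul]
      refine integral_congr_ae (Eventually.of_forall fun y => ?_)
      show ‖φ x * ψ y * ‖x - y‖ ^ e‖ = |φ x| * (|ψ y| * ‖x - y‖ ^ e)
      rw [norm_mul, norm_mul, Real.norm_eq_abs, Real.norm_eq_abs, Real.norm_eq_abs,
        abs_of_nonneg (by positivity : 0 ≤ ‖x - y‖ ^ e)]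
      ring
    show Integrable (fun x => ∫ y, ‖φ x * ψ y * ‖x - y‖ ^ e‖) volume
    rw [h2]
    exact (hφ.1.continuous.abs.mul h1).integrable_of_hasCompactSupport hφ.2.norm.mul_right

lemma Kc_int {φ ψ : E → ℝ} (hφ : IsTest φ) (hψ : IsTest ψ) (t : ℝ) :
    Integrable (fun q : E × E => φ q.1 * ψ q.2 * Kc t (q.1 - q.2)) (volume.prod volume) := by
  have h1 := ((maj hφ hψ (e := -1) (by norm_num)).norm).const_mul (2 * Real.pi ^ 2)
  refine h1.mono' ?_ (Eventually.of_forall fun q => ?_)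
  · refine Measurable.aestronglyMeasurable ?_
    have h1 : Measurable fun q : E × E => φ q.1 := hφ.1.continuous.measurable.comp measurable_fst
    have h2 : Measurable fun q : E × E => ψ q.2 := hψ.1.continuous.measurable.comp measurable_snd
    have h3 : Measurable fun q : E × E => Kc t (q.1 - q.2) := Kc_meas' t
    exact (h1.mul h2).mul h3
  · rw [norm_mul, norm_mul, norm_mul, norm_mul, Real.norm_eq_abs (Kc _ _),
      Real.norm_eq_abs (‖q.1 - q.2‖ ^ _), abs_of_nonneg (by positivity : 0 ≤ ‖q.1 - q.2‖ ^ (-1 : ℝ))]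
    have h2 := Kc_abs t (q.1 - q.2)
    have h3 : 0 ≤ ‖φ q.1‖ * ‖ψ q.2‖ := by positivity
    calc ‖φ q.1‖ * ‖ψ q.2‖ * |Kc t (q.1 - q.2)| ≤
        ‖φ q.1‖ * ‖ψ q.2‖ * (2 * Real.pi ^ 2 * ‖q.1 - q.2‖ ^ (-1 : ℝ)) := by gcongr
      _ = _ := by ring

lemma H_meas' (ε δ e t : ℝ) :
    Measurable (fun r : (E × E) × ℝ => H ε δ e t r.2 (r.1.1 - r.1.2)) := by
  unfold H
  have h0 : Measurable fun r : (E × E) × ℝ => ‖r.1.1 - r.1.2‖ := by fun_prop
  have h1 : Measurable fun r : (E × E) × ℝ => Kc t (r.1.1 - r.1.2) := by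
    have h : (fun r : (E × E) × ℝ => Kc t (r.1.1 - r.1.2)) = fun r : (E × E) × ℝ =>
        2 * Real.pi ^ 2 / ‖r.1.1 - r.1.2‖ * P (t / ‖r.1.1 - r.1.2‖) := by
      funext r
      exact Kc_eq _ _
    rw [h]
    exact (measurable_const.div h0).mul (P_meas.comp (measurable_const.div h0))
  have h2 : Measurable fun r : (E × E) × ℝ => Kc r.2 (r.1.1 - r.1.2) := by
    have h : (fun r : (E × E) × ℝ => Kc r.2 (r.1.1 - r.1.2)) = fun r : (E × E) × ℝ =>
        2 * Real.pi ^ 2 / ‖r.1.1 - r.1.2‖ * P (r.2 / ‖r.1.1 - r.1.2‖) := by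
      funext r
      exact Kc_eq _ _
    rw [h]
    exact (measurable_const.div h0).mul (P_meas.comp (measurable_snd.div h0))
  have h3 : Measurable fun r : (E × E) × ℝ => |t - r.2| ^ e := by
    refine Measurable.pow_const ?_ e
    have : Measurable fun r : (E × E) × ℝ => t - r.2 := by fun_prop
    exact this.abs
  exact ((h1.const_mul ε).add (h2.const_mul δ)).mul h3

/-- the bilinear form -/
noncomputable def A (φ ψ : E → ℝ) (t : ℝ) : ℝ :=
  ∫ q : E × E, φ q.1 * ψ q.2 * Kc t (q.1 - q.2) ∂(volume.prod volume)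

/-- Fubini for the kernel -/
lemma fub {φ ψ : E → ℝ} (hφ : IsTest φ) (hψ : IsTest ψ) (he : -5 < e)
    (hI : ∀ t, Integrable (F ε δ e t)) {C0 : ℝ} (hA : ∀ t, ∫ τ, |F ε δ e t τ| ≤ C0) (t : ℝ) :
    ∫ t', (ε * A φ ψ t + δ * A φ ψ t') * |t - t'| ^ e =
      ∫ q : E × E, φ q.1 * ψ q.2 * (∫ t', H ε δ e t t' (q.1 - q.2)) ∂(volume.prod volume) := by
  have hφm : Measurable φ := hφ.1.continuous.measurable
  have hψm : Measurable ψ := hψ.1.continuous.measurable
  have hm : Measurable (fun r : (E × E) × ℝ => φ r.1.1 * ψ r.1.2 *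
      H ε δ e t r.2 (r.1.1 - r.1.2)) := by
    have h1 : Measurable fun r : (E × E) × ℝ => φ r.1.1 :=
      hφm.comp (measurable_fst.comp measurable_fst)
    have h2 : Measurable fun r : (E × E) × ℝ => ψ r.1.2 :=
      hψm.comp (measurable_snd.comp measurable_fst)
    exact (h1.mul h2).mul (H_meas' ε δ e t)
  have hint : Integrable (Function.uncurry fun (q : E × E) (t' : ℝ) => φ q.1 * ψ q.2 *
      H ε δ e t t' (q.1 - q.2)) ((volume.prod volume).prod volume) := by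
    have hm' : AEStronglyMeasurable (Function.uncurry fun (q : E × E) (t' : ℝ) => φ q.1 * ψ q.2 *
      H ε δ e t t' (q.1 - q.2)) ((volume.prod volume).prod volume) := hm.aestronglyMeasurable
    rw [integrable_prod_iff hm']
    constructor
    · exact Eventually.of_forall fun q => (H_int hI t (q.1 - q.2)).const_mul (φ q.1 * ψ q.2)
    · have h1 := ((maj hφ hψ he).norm).const_mul (2 * Real.pi ^ 2 * C0)
      refine h1.mono' hm'.norm.integral_prod_right' (Eventually.of_forall fun q => ?_)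
      have hC0 : 0 ≤ C0 := (integral_nonneg fun _ => abs_nonneg _).trans (hA 0)
      have h2 : ∫ t', ‖Function.uncurry (fun (q : E × E) (t' : ℝ) => φ q.1 * ψ q.2 *
          H ε δ e t t' (q.1 - q.2)) (q, t')‖ =
          ‖φ q.1 * ψ q.2‖ * ∫ t', |H ε δ e t t' (q.1 - q.2)| := by
        rw [← integral_const_mul]
        refine integral_congr_ae (Eventually.of_forall fun t' => ?_)
        show ‖φ q.1 * ψ q.2 * H ε δ e t t' (q.1 - q.2)‖ = _
        rw [norm_mul, Real.norm_eq_abs (H _ _ _ _ _ _)]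
      rw [h2, Real.norm_eq_abs, abs_of_nonneg (mul_nonneg (norm_nonneg _)
        (integral_nonneg fun _ => abs_nonneg _))]
      have h3 := H_abs hA t (q.1 - q.2)
      calc ‖φ q.1 * ψ q.2‖ * ∫ t', |H ε δ e t t' (q.1 - q.2)| ≤
          ‖φ q.1 * ψ q.2‖ * (2 * Real.pi ^ 2 * C0 * ‖q.1 - q.2‖ ^ e) := by gcongr
        _ = 2 * Real.pi ^ 2 * C0 * ‖φ q.1 * ψ q.2 * ‖q.1 - q.2‖ ^ e‖ := by
          rw [norm_mul (φ q.1 * ψ q.2), Real.norm_eq_abs (‖q.1 - q.2‖ ^ e),
            abs_of_nonneg (by positivity : 0 ≤ ‖q.1 - q.2‖ ^ e)]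
          ring
  have h1 := integral_integral_swap hint
  have h2 : ∀ q : E × E, ∫ t', φ q.1 * ψ q.2 * H ε δ e t t' (q.1 - q.2) =
      φ q.1 * ψ q.2 * ∫ t', H ε δ e t t' (q.1 - q.2) := fun q => integral_const_mul _ _
  simp only [h2] at h1
  rw [h1]
  refine integral_congr_ae (Eventually.of_forall fun t' => ?_)
  show (ε * A φ ψ t + δ * A φ ψ t') * |t - t'| ^ e =
    ∫ q : E × E, φ q.1 * ψ q.2 * H ε δ e t t' (q.1 - q.2) ∂(volume.prod volume)
  unfold A H
  rw [← integral_const_mul, ← integral_const_mul, ← integral_add ((Kc_int hφ hψ t).const_mul ε)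
    ((Kc_int hφ hψ t').const_mul δ), ← integral_mul_const]
  refine integral_congr_ae (Eventually.of_forall fun q => ?_)
  show (ε * (φ q.1 * ψ q.2 * Kc t (q.1 - q.2)) + δ * (φ q.1 * ψ q.2 * Kc t' (q.1 - q.2))) *
    |t - t'| ^ e = φ q.1 * ψ q.2 * ((ε * Kc t (q.1 - q.2) + δ * Kc t' (q.1 - q.2)) * |t - t'| ^ e)
  ring

end KerPx

end Pool.Agent.QWP
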