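import Pool.Agent.QWP.KerPa
import Pool.Agent.QWP.Par

set_option autoImplicit false
set_option linter.unusedVariables false

/-!
# QWP, KerP part 2: the Fourier side
-/

open MeasureTheory Filter Topology Set
open scoped ENNReal NNReal RealInnerProductSpace

namespace Pool.Agent.QWP

open Pool.Agent.QWE (E S sg mu K toK tau sh dl rev gr ig IsTest pd lap Rad dRad Rk dRk c0 WD Sm SmE IsSch half shr WTo Kc Sph kap IsMol)

namespace KerPx

/-- the integrand -/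
noncomputable def gF (φ ψ : E → ℝ) (r : ℝ) (w : S) : ℂ :=
  ft φ (r • (w : E)) * (starRingEnd ℂ) (ft ψ (r • (w : E)))

/-- the multiplier -/
noncomputable def mF (c t r : ℝ) : ℂ :=
  ((|2 * Real.pi * r| ^ c : ℝ) : ℂ) * Complex.exp (-2 * Real.pi * Complex.I * ((r * t : ℝ) : ℂ))

/-- the spherical mean of the product of the Fourier transforms -/
noncomputable def G0 (φ ψ : E → ℝ) (r : ℝ) : ℂ := ∫ w : S, gF φ ψ r w ∂sg

section Fourier

variable {φ ψ : E → ℝ}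

lemma g_cont (hFt : St_Ft) (hφ : IsSch φ) (hψ : IsSch ψ) :
    Continuous fun z : ℝ × S => gF φ ψ z.1 z.2 := by
  have h0 : Continuous fun z : ℝ × S => z.1 • (z.2 : E) :=
    continuous_fst.smul (continuous_subtype_val.comp continuous_snd)
  exact ((hFt.2 φ hφ).1.comp h0).mul (Complex.continuous_conj.comp ((hFt.2 ψ hψ).1.comp h0))

lemma g_bound (hFt : St_Ft) (hφ : IsSch φ) (hψ : IsSch ψ) (N : ℕ) :
    ∃ B : ℝ, 0 ≤ B ∧ ∀ (w : S) (r : ℝ), ‖gF φ ψ r w‖ ≤ B / (1 + |r|) ^ N := by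
  obtain ⟨C, hC⟩ := (hFt.2 φ hφ).2.1 N
  obtain ⟨C', hC'⟩ := (hFt.2 ψ hψ).2.1 0
  have h0 : 0 ≤ C := by
    have h := (norm_nonneg _).trans (hC 0)
    simpa using h
  have h0' : 0 ≤ C' := by
    have h := (norm_nonneg _).trans (hC' 0)
    simpa using h
  refine ⟨C * C', by positivity, fun w r => ?_⟩
  have h1 := hC (r • (w : E))
  have h2 := hC' (r • (w : E))
  rw [Parx.norm_pt] at h1 h2
  rw [pow_zero, div_one] at h2
  unfold gF
  rw [norm_mul, RCLike.norm_conj]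
  calc ‖ft φ (r • (w : E))‖ * ‖ft ψ (r • (w : E))‖ ≤ (C / (1 + |r|) ^ N) * C' := by
        gcongr
    _ = C * C' / (1 + |r|) ^ N := by ring

lemma G0_cont (hFt : St_Ft) (hφ : IsSch φ) (hψ : IsSch ψ) : Continuous (G0 φ ψ) := by
  have h := continuous_parametric_integral_of_continuous (μ := sg)
    (f := fun (r : ℝ) (w : S) => gF φ ψ r w)
    (g_cont hFt hφ hψ) isCompact_univ
  have e : G0 φ ψ = fun r => ∫ w : S, gF φ ψ r w ∂(sg.restrict univ) := by
    funext r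
    rw [Measure.restrict_univ]
    rfl
  rw [e]
  exact h

lemma G0_bound (hFt : St_Ft) (hφ : IsSch φ) (hψ : IsSch ψ) (N : ℕ) :
    ∃ B : ℝ, ∀ r, ‖G0 φ ψ r‖ ≤ B / (1 + |r|) ^ N := by
  obtain ⟨B, hB0, hB⟩ := g_bound hFt hφ hψ N
  refine ⟨B * sg.real univ, fun r => ?_⟩
  have h := norm_integral_le_of_norm_le_const (μ := sg) (C := B / (1 + |r|) ^ N)
    (f := fun w : S => gF φ ψ r w)
    (Eventually.of_forall fun w => hB w r)
  refine h.trans (le_of_eq ?_)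
  ring

lemma gF_neg (hFt : St_Ft) (hφ : IsSch φ) (hψ : IsSch ψ) (r : ℝ) (w : S) :
    gF φ ψ (-r) w = (starRingEnd ℂ) (gF φ ψ r w) := by
  unfold gF
  rw [neg_smul, map_mul, (hFt.2 φ hφ).2.2.2.2.2.1, (hFt.2 ψ hψ).2.2.2.2.2.1]

lemma G0_neg (hFt : St_Ft) (hφ : IsSch φ) (hψ : IsSch ψ) (r : ℝ) :
    G0 φ ψ (-r) = (starRingEnd ℂ) (G0 φ ψ r) := by
  unfold G0
  rw [← integral_conj]
  exact integral_congr_ae (Eventually.of_forall fun w => gF_neg hFt hφ hψ r w)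

lemma mF_neg (c t r : ℝ) : mF c t (-r) = (starRingEnd ℂ) (mF c t r) := by
  unfold mF
  rw [map_mul, Complex.conj_ofReal, ← Complex.exp_conj]
  have h1 : |2 * Real.pi * -r| = |2 * Real.pi * r| := by rw [mul_neg, abs_neg]
  rw [h1]
  congr 2
  simp only [map_mul, map_neg, Complex.conj_ofReal, Complex.conj_I, map_ofNat]
  push_cast
  ring

lemma J_real (hFt : St_Ft) (hφ : IsSch φ) (hψ : IsSch ψ) (c t : ℝ) :
    (((∫ r : ℝ, mF c t r * G0 φ ψ r).re : ℝ) : ℂ) = ∫ r : ℝ, mF c t r * G0 φ ψ r := by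
  rw [← Complex.conj_eq_iff_re, ← integral_conj]
  rw [← integral_neg_eq_self]
  refine integral_congr_ae (Eventually.of_forall fun r => ?_)
  show (starRingEnd ℂ) (mF c t (-r) * G0 φ ψ (-r)) = mF c t r * G0 φ ψ r
  rw [map_mul, mF_neg, G0_neg hFt hφ hψ, Complex.conj_conj, Complex.conj_conj]

lemma mF_norm (c t r : ℝ) : ‖mF c t r‖ = (2 * Real.pi) ^ c * |r| ^ c := by
  unfold mF
  rw [norm_mul, Complex.norm_real, Real.norm_eq_abs,
    abs_of_nonneg (Real.rpow_nonneg (abs_nonneg _) _), Parx.norm_char', mul_one, abs_mul,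
    abs_of_pos Real.two_pi_pos, Real.mul_rpow Real.two_pi_pos.le (abs_nonneg _)]

lemma mF_meas (c t : ℝ) : Measurable (mF c t) := by
  unfold mF
  have h1 : Measurable fun r : ℝ => ((|2 * Real.pi * r| ^ c : ℝ) : ℂ) := by
    refine Complex.measurable_ofReal.comp ?_
    exact (measurable_const.mul measurable_id).abs.pow_const c
  have h2 : Measurable fun r : ℝ => Complex.exp (-2 * Real.pi * Complex.I * ((r * t : ℝ) : ℂ)) := by
    refine Complex.measurable_exp.comp ?_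
    refine measurable_const.mul (Complex.measurable_ofReal.comp ?_)
    exact measurable_id.mul measurable_const
  exact h1.mul h2

lemma int_mg (hFt : St_Ft) (hφ : IsSch φ) (hψ : IsSch ψ) {c : ℝ} (h1 : -1 < c) (h2 : c < 3) (t : ℝ) :
    Integrable (fun z : S × ℝ => mF c t z.2 * gF φ ψ z.2 z.1) (sg.prod volume) := by
  obtain ⟨B, hB0, hB⟩ := g_bound hFt hφ hψ 4
  have h3 : Integrable (fun r : ℝ => (B * (2 * Real.pi) ^ c) * (|r| ^ c * (1 + |r|) ^ (-(4 : ℝ)))) :=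
    (Parx.int_aux h1 h2).const_mul _
  have h4 : Integrable (fun z : S × ℝ => (B * (2 * Real.pi) ^ c) *
      (|z.2| ^ c * (1 + |z.2|) ^ (-(4 : ℝ)))) (sg.prod volume) := h3.comp_snd sg
  have h5 : Measurable fun z : S × ℝ => gF φ ψ z.2 z.1 :=
    ((g_cont hFt hφ hψ).comp continuous_swap).measurable
  have h6 : Measurable fun z : S × ℝ => mF c t z.2 := (mF_meas c t).comp measurable_snd
  refine h4.mono' (h6.mul h5).aestronglyMeasurable (Eventually.of_forall fun z => ?_)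
  have h7 := hB z.1 z.2
  have h8 : (1 + |z.2|) ^ (-(4 : ℝ)) = ((1 + |z.2|) ^ 4)⁻¹ := by
    rw [Real.rpow_neg (by positivity)]
    norm_cast
  rw [norm_mul, mF_norm, h8]
  calc (2 * Real.pi) ^ c * |z.2| ^ c * ‖gF φ ψ z.2 z.1‖ ≤
        (2 * Real.pi) ^ c * |z.2| ^ c * (B / (1 + |z.2|) ^ 4) := by gcongr
    _ = _ := by rw [div_eq_mul_inv]; ring

lemma fubF (hFt : St_Ft) (hφ : IsSch φ) (hψ : IsSch ψ) {c : ℝ} (h1 : -1 < c) (h2 : c < 3) (t : ℝ) :
    ∫ z : S × ℝ, mF c t z.2 * gF φ ψ z.2 z.1 ∂(sg.prod volume) =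
    ∫ r : ℝ, mF c t r * G0 φ ψ r := by
  rw [integral_prod_symm _ (int_mg hFt hφ hψ h1 h2 t)]
  refine integral_congr_ae (Eventually.of_forall fun r => ?_)
  show ∫ w : S, mF c t r * gF φ ψ r w ∂sg = mF c t r * ∫ w : S, gF φ ψ r w ∂sg
  exact integral_const_mul _ _

/-- the pairing of the states on the Fourier side -/
lemma inner_Rs (hFt : St_Ft) (hPar : St_Par) (hφ : IsSch φ) (hψ : IsSch ψ) {s : ℝ}
    (hs : |s| < 1 / 2) (t : ℝ) :
    ((inner ℝ (tau t (Rs s φ)) (Rs s ψ) : ℝ) : ℂ) = ∫ r : ℝ, mF (-(2 * s)) t r * G0 φ ψ r := by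
  have h1 := (hPar s s t φ ψ hs hs hφ hψ).2.2.2.2.1
  have h2 := abs_lt.1 hs
  have h3 : -s - s = -(2 * s) := by ring
  have h4 : (∫ z : S × ℝ, ((|2 * Real.pi * z.2| ^ (-(2 * s)) : ℝ) : ℂ) *
      Complex.exp (-2 * Real.pi * Complex.I * ((z.2 * t : ℝ) : ℂ)) * ft φ (z.2 • (z.1 : E)) *
        (starRingEnd ℂ) (ft ψ (z.2 • (z.1 : E))) ∂mu) =
      ∫ z : S × ℝ, mF (-(2 * s)) t z.2 * gF φ ψ z.2 z.1 ∂(sg.prod volume) := by
    refine integral_congr_ae (Eventually.of_forall fun z => ?_)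
    simp only [mF, gF]
    ring
  rw [h3, h4, fubF hFt hφ hψ (by linarith) (by linarith)] at h1
  rw [h1]
  exact J_real hFt hφ hψ _ t

/-- the bilinear form on the Fourier side -/
lemma inner_Rk (hFt : St_Ft) (hPar : St_Par) (hI : St_Idn) (hφ : IsSch φ) (hψ : IsSch ψ) (t : ℝ) :
    ((inner ℝ (tau t (Rk φ)) (Rk ψ) : ℝ) : ℂ) = ∫ r : ℝ,
      Complex.exp (-2 * Real.pi * Complex.I * ((r * t : ℝ) : ℂ)) * G0 φ ψ r := by
  have h1 := inner_Rs hFt hPar hφ hψ (s := 0) (by norm_num) t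
  rw [(hI φ ψ hφ hψ).1, (hI ψ φ hψ hφ).1] at h1
  rw [h1]
  refine integral_congr_ae (Eventually.of_forall fun r => ?_)
  show mF (-(2 * 0)) t r * G0 φ ψ r = _
  unfold mF
  have h5 : |2 * Real.pi * r| ^ (-(2 * (0 : ℝ))) = 1 := by
    rw [mul_zero, neg_zero, Real.rpow_zero]
  rw [h5, Complex.ofReal_one, one_mul]

end Fourier

end KerPx

end Pool.Agent.QWP
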