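import Pool.Agent.QWP.KerPb

set_option autoImplicit false
set_option linter.unusedVariables false

/-!
# QWP, KerP part 3: the bilinear form, bounds for the profile
-/

open MeasureTheory Filter Topology Set
open scoped ENNReal NNReal RealInnerProductSpace

namespace Pool.Agent.QWP

open Pool.Agent.QWE (E S sg mu K toK tau sh dl rev gr ig IsTest pd lap Rad dRad Rk dRk c0 WD Sm SmE IsSch half shr WTo Kc Sph kap IsMol)

namespace KerPx

/-! ### the bilinear form -/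

lemma Kc_neg (t : ℝ) (x y : E) : Kc t (x - y) = Kc t (y - x) := by
  rw [Kc_eq, Kc_eq, norm_sub_rev]

lemma A_eq (hR : Pool.Agent.QWE.St_RadT) (hS : Pool.Agent.QWE.St_Sph) {φ ψ : E → ℝ}
    (hφ : IsTest φ) (hψ : IsTest ψ) (t : ℝ) :
    inner ℝ (tau t (Rk φ)) (Rk ψ) = A φ ψ t := by
  rw [Pool.Agent.QWE.Freex.inA hR hφ hψ t]
  unfold A
  rw [integral_prod_symm _ (Kc_int hφ hψ t)]
  refine integral_congr_ae (Eventually.of_forall fun x => ?_)
  show ψ x * Sph φ t x = ∫ y, φ y * ψ x * Kc t (y - x)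
  rw [(hS φ hφ).2.1 t x, ← integral_const_mul]
  refine integral_congr_ae (Eventually.of_forall fun y => ?_)
  show ψ x * (φ y * Kc t (x - y)) = φ y * ψ x * Kc t (y - x)
  rw [Kc_neg t x y]
  ring

lemma Kc_van {t : ℝ} {z : E} (h : ‖z‖ ≤ |t|) : Kc t z = 0 := by
  by_cases hz : z = 0
  · rw [hz, Kc_zero]
  · have hn : 0 < ‖z‖ := norm_pos_iff.2 hz
    rw [Kc_eq]
    have h1 : P (t / ‖z‖) = 0 := by
      unfold P
      refine max_eq_left ?_
      rw [div_pow, sub_nonpos, one_le_div (by positivity), ← sq_abs t]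
      gcongr
    rw [h1, mul_zero]

lemma test_bdd {φ : E → ℝ} (hφ : IsTest φ) : ∃ M : ℝ, ∀ x, φ x ≠ 0 → ‖x‖ ≤ M := by
  obtain ⟨M, hM⟩ := hφ.2.isCompact.isBounded.exists_norm_le
  exact ⟨M, fun x hx => hM x (subset_tsupport φ hx)⟩

lemma A_supp {φ ψ : E → ℝ} (hφ : IsTest φ) (hψ : IsTest ψ) :
    HasCompactSupport fun t => ((A φ ψ t : ℝ) : ℂ) := by
  obtain ⟨M, hM⟩ := test_bdd hφ
  obtain ⟨M', hM'⟩ := test_bdd hψ
  refine HasCompactSupport.intro (isCompact_closedBall (0 : ℝ) (M + M')) fun t ht => ?_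
  rw [Metric.mem_closedBall, dist_zero_right, Real.norm_eq_abs, not_le] at ht
  have h1 : A φ ψ t = 0 := by
    unfold A
    rw [← integral_zero (E × E) ℝ (μ := (volume : Measure E).prod volume)]
    refine integral_congr_ae (Eventually.of_forall fun q => ?_)
    show φ q.1 * ψ q.2 * Kc t (q.1 - q.2) = 0
    by_cases h2 : φ q.1 = 0
    · rw [h2, zero_mul, zero_mul]
    by_cases h3 : ψ q.2 = 0
    · rw [h3, mul_zero, zero_mul]
    have h4 : ‖q.1 - q.2‖ ≤ |t| := by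
      have h5 := norm_sub_le q.1 q.2
      have h6 := hM _ h2
      have h7 := hM' _ h3
      linarith
    rw [Kc_van h4, mul_zero]
  rw [h1, Complex.ofReal_zero]

/-! ### the profile in absolute value -/

lemma P_of_le {t : ℝ} (h : |t| ≤ 1) : P t = 1 - t ^ 2 := by
  unfold P
  refine max_eq_right ?_
  rw [sub_nonneg, ← sq_abs]
  have h0 := abs_nonneg t
  nlinarith

lemma P_of_ge {t : ℝ} (h : 1 ≤ |t|) : P t = 0 := by
  unfold P
  refine max_eq_left ?_
  rw [sub_nonpos, ← sq_abs]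
  nlinarith

lemma P_lip (t t' : ℝ) : |P t - P t'| ≤ 2 * |t - t'| := by
  have ht := abs_nonneg t
  have ht' := abs_nonneg t'
  have h0 := abs_sub_abs_le_abs_sub t t'
  have h0' := abs_sub_abs_le_abs_sub t' t
  rw [abs_sub_comm t' t] at h0'
  have h00 := abs_nonneg (t - t')
  rcases le_total |t| 1 with h | h <;> rcases le_total |t'| 1 with h' | h'
  · rw [P_of_le h, P_of_le h']
    have h1 : 1 - t ^ 2 - (1 - t' ^ 2) = -((t - t') * (t + t')) := by ring
    have h2 : |t + t'| ≤ 2 := (abs_add_le t t').trans (by linarith)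
    rw [h1, abs_neg, abs_mul, mul_comm]
    gcongr
  · rw [P_of_le h, P_of_ge h', sub_zero, ← sq_abs t, abs_of_nonneg (by nlinarith)]
    nlinarith
  · rw [P_of_ge h, P_of_le h', zero_sub, abs_neg, ← sq_abs t', abs_of_nonneg (by nlinarith)]
    nlinarith
  · rw [P_of_ge h, P_of_ge h', sub_self, abs_zero]
    positivity

lemma P_one (t t' : ℝ) : |P t - P t'| ≤ 1 := by
  have h1 := P_nonneg t
  have h2 := P_nonneg t'
  have h3 := P_le t
  have h4 := P_le t'
  rw [abs_le]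
  constructor <;> linarith

lemma F_neg_le {α : ℝ} (h0 : 0 < α) (t t' : ℝ) : |F 1 (-1) (-1 - α) t t'| ≤
    2 * ((P 0 - P (t' - t)) * |0 - (t' - t)| ^ (-1 - α) + P (t' - t) * |0 - (t' - t)| ^ (-α)) := by
  unfold F
  have h1 : |0 - (t' - t)| = |t - t'| := by rw [zero_sub, neg_sub]
  have h2 : |t' - t| = |t - t'| := abs_sub_comm _ _
  have h3 : P 0 = 1 := by
    rw [P_of_le (by simp)]
    norm_num
  rw [h1, abs_mul, abs_of_nonneg (Real.rpow_nonneg (abs_nonneg _) _), one_mul, neg_one_mul,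
    ← sub_eq_add_neg, h3]
  have h4 := P_lip t t'
  have h5 := P_one t t'
  rcases eq_or_lt_of_le (abs_nonneg (t - t')) with h6 | h6
  · have h7 : t = t' := by
      rw [← sub_eq_zero, ← abs_eq_zero, ← h6]
    subst h7
    rw [sub_self, abs_zero, zero_mul, sub_self, h3, sub_self, zero_mul, zero_add, one_mul, abs_zero]
    positivity
  set u := |t - t'| with hu
  have h8 : u ^ (-1 - α) = u⁻¹ * u ^ (-α) := by
    rw [show -1 - α = -1 + -α by ring, Real.rpow_add h6, Real.rpow_neg_one]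
  have h9 : 0 < u ^ (-α) := by positivity
  have h10 : 0 < u ^ (-1 - α) := by positivity
  rcases le_total u 1 with h | h
  · have hP : P (t' - t) = 1 - u ^ 2 := by
      rw [P_of_le (t := t' - t) (by rw [h2]; exact h), ← sq_abs (t' - t), h2]
    rw [hP, h8]
    have h11 : |P t - P t'| * (u⁻¹ * u ^ (-α)) ≤ 2 * u * (u⁻¹ * u ^ (-α)) := by gcongr
    have h12 : 2 * u * (u⁻¹ * u ^ (-α)) = 2 * u ^ (-α) := by
      field_simp
    have h13 : (1 - (1 - u ^ 2)) * (u⁻¹ * u ^ (-α)) = u * u ^ (-α) := by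
      field_simp
      ring
    rw [h12] at h11
    rw [h13]
    have h14 : u ^ (-α) ≤ u * u ^ (-α) + (1 - u ^ 2) * u ^ (-α) := by
      rw [← add_mul]
      have h15 : (1 : ℝ) ≤ u + (1 - u ^ 2) := by nlinarith
      nlinarith
    linarith
  · have hP : P (t' - t) = 0 := P_of_ge (by rw [h2]; exact h)
    rw [hP]
    have h11 : |P t - P t'| * u ^ (-1 - α) ≤ 1 * u ^ (-1 - α) := by gcongr
    linarith

/-- the bounds for `s < 0` -/
lemma prof_neg (hB : St_KerB) {α : ℝ} (h0 : 0 < α) (h1 : α < 1) : ∃ C0 CB : ℝ, 0 < CB ∧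
    (∀ t, Integrable (F 1 (-1) (-1 - α) t)) ∧ (∀ t, ∫ τ, |F 1 (-1) (-1 - α) t τ| ≤ C0) ∧
    ∀ t, |∫ τ, F 1 (-1) (-1 - α) t τ| ≤ CB * (1 + |t|) ^ (-1 - α) := by
  obtain ⟨C, hC, hK⟩ := hB α h0 h1
  obtain ⟨C', hC', hK'⟩ := hB (1 - α) (by linarith) (by linarith)
  have e1 : ∀ t, F 1 (-1) (-1 - α) t = fun t' =>
      (max 0 (1 - t ^ 2) - max 0 (1 - t' ^ 2)) * |t - t'| ^ (-1 - α) := by
    intro t
    funext t'
    unfold F P
    ring
  have hI : ∀ t, Integrable (F 1 (-1) (-1 - α) t) := by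
    intro t
    rw [e1 t]
    exact (hK t).1.1
  have hh : Integrable (fun u : ℝ => (P 0 - P u) * |0 - u| ^ (-1 - α)) := (hK 0).1.1
  have hk : Integrable (fun u : ℝ => P u * |0 - u| ^ (-α)) := by
    have h2 := (hK' 0).2.1
    have h3 : 1 - α - 1 = -α := by ring
    rw [h3] at h2
    exact h2
  have hs := (hh.add hk).const_mul 2
  refine ⟨∫ u, 2 * ((P 0 - P u) * |0 - u| ^ (-1 - α) + P u * |0 - u| ^ (-α)), C, hC, hI,
    fun t => ?_, fun t => ?_⟩
  · have h4 : ∫ τ, |F 1 (-1) (-1 - α) t τ| ≤ ∫ τ, 2 * ((P 0 - P (τ - t)) *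
        |0 - (τ - t)| ^ (-1 - α) + P (τ - t) * |0 - (τ - t)| ^ (-α)) := by
      refine integral_mono (hI t).norm (hs.comp_sub_right t) fun τ => ?_
      exact F_neg_le h0 t τ
    refine h4.trans (le_of_eq ?_)
    exact integral_sub_right_eq_self (fun u : ℝ => 2 * ((P 0 - P u) * |0 - u| ^ (-1 - α) +
      P u * |0 - u| ^ (-α))) t
  · rw [e1 t]
    exact (hK t).1.2

/-- the bounds for `s > 0` -/
lemma prof_pos (hB : St_KerB) {α : ℝ} (h0 : 0 < α) (h1 : α < 1) : ∃ C0 CB : ℝ, 0 < CB ∧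
    (∀ t, Integrable (F 0 1 (α - 1) t)) ∧ (∀ t, ∫ τ, |F 0 1 (α - 1) t τ| ≤ C0) ∧
    ∀ t, |∫ τ, F 0 1 (α - 1) t τ| ≤ CB * (1 + |t|) ^ (α - 1) := by
  obtain ⟨C, hC, hK⟩ := hB α h0 h1
  have e1 : ∀ t, F 0 1 (α - 1) t = fun t' => max 0 (1 - t' ^ 2) * |t - t'| ^ (α - 1) := by
    intro t
    funext t'
    unfold F P
    ring
  refine ⟨C, C, hC, fun t => ?_, fun t => ?_, fun t => ?_⟩
  · rw [e1 t]
    exact (hK t).2.1
  · have h2 : ∀ τ, |F 0 1 (α - 1) t τ| = F 0 1 (α - 1) t τ := by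
      intro τ
      refine abs_of_nonneg ?_
      rw [e1 t]
      have := le_max_left (0 : ℝ) (1 - τ ^ 2)
      positivity
    simp only [h2]
    rw [e1 t]
    refine (le_abs_self _).trans ((hK t).2.2.trans ?_)
    have h3 : (1 + |t|) ^ (α - 1) ≤ 1 := by
      refine Real.rpow_le_one_of_one_le_of_nonpos ?_ (by linarith)
      have := abs_nonneg t
      linarith
    nlinarith
  · rw [e1 t]
    exact (hK t).2.2

end KerPx

end Pool.Agent.QWP
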