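import Pool.Agent.QWP.StA

set_option autoImplicit false

/-!
# QWP, L7P: locality inside (helper81)
-/

open MeasureTheory Filter Topology Set
open scoped ENNReal NNReal RealInnerProductSpace

namespace Pool.Agent.QWP

open Pool.Agent.QWE (E S sg mu K toK tau sh dl rev gr ig IsTest pd lap Rad dRad Rk dRk c0 WD Sm SmE IsSch half shr WTo)

theorem thm_L7P (hP : St_PJ) (hN : St_NcR) (hA : St_NaB) : St_L7P := by
  intro s y ρ k hs h0
  have h1 := ((hA s hs).2.2.2.1 _ k).1 h0
  have h2 : TS s (Metric.ball y ρ) ≤ (ℝ ∙ k)ᗮ := by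
    refine Submodule.topologicalClosure_minimal _ ?_ (Submodule.isClosed_orthogonal _)
    rw [Submodule.span_le]
    rintro w ⟨φ, hφ, hsup, rfl | rfl⟩
    · refine Submodule.mem_orthogonal_singleton_iff_inner_right.2 ?_
      rw [← ((hP s hs).2 φ hφ).1]
      exact h1 _ (hN φ y ρ hφ hsup).1
    · refine Submodule.mem_orthogonal_singleton_iff_inner_right.2 ?_
      rw [← ((hP s hs).2 φ hφ).2]
      exact h1 _ (hN φ y ρ hφ hsup).2
  refine (Submodule.mem_orthogonal _ _).2 fun u hu => ?_
  exact Submodule.mem_orthogonal_singleton_iff_inner_left.1 (h2 hu)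

end Pool.Agent.QWP
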