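import Pool.Agent.QWP.StA2
import Pool.Agent.QWP.MulP

set_option autoImplicit false

/-!
# QWP, NFP: near field estimate for general sources, by mollification and scaling from NF1P
-/

open MeasureTheory Filter Topology Set
open scoped ENNReal NNReal RealInnerProductSpace Pointwise ContDiff Convolution

namespace Pool.Agent.QWP

open Pool.Agent.QWE (E S sg mu K toK toK_coe tau sh dl dl_coe qmp_scale rev gr ig IsTest pd lap Rad dRad Rk dRk c0 WD Sm SmE IsSch half shr WTo Kc Sph kap IsMol)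

namespace NFPx

theorem eq_zero_of_orth {s : ℝ} (hD : TS s univ = ⊤) (d : K)
    (h : ∀ φ, IsTest φ → inner ℝ d (Rs s φ) = 0 ∧ inner ℝ d (dRs s φ) = 0) : d = 0 := by
  have h1 : TS s univ ≤ (Submodule.span ℝ {d})ᗮ := by
    unfold TS
    apply Submodule.topologicalClosure_minimal
    · rw [Submodule.span_le]
      rintro w ⟨φ, hφ, -, rfl | rfl⟩
      · exact Submodule.mem_orthogonal_singleton_iff_inner_right.2 (h φ hφ).1
      · exact Submodule.mem_orthogonal_singleton_iff_inner_right.2 (h φ hφ).2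
    · exact Submodule.isClosed_orthogonal _
  have h2 : d ∈ (Submodule.span ℝ {d})ᗮ := h1 (by rw [hD]; trivial)
  exact inner_self_eq_zero.1 (Submodule.mem_orthogonal_singleton_iff_inner_right.1 h2)

theorem gam_eq {s : ℝ} (hD : TS s univ = ⊤) {F : E → ℝ} {w : K} (hw : IsGam s F w) :
    Gam s F = w := by
  have h : ∃ w, IsGam s F w := ⟨w, hw⟩
  have h1 : IsGam s F (Gam s F) := by
    rw [Gam, dif_pos h]; exact h.choose_spec
  have h2 : Gam s F - w = 0 := by
    apply eq_zero_of_orth hD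
    intro φ hφ
    rw [inner_sub_left, inner_sub_left, (h1 φ hφ).1, (h1 φ hφ).2, (hw φ hφ).1, (hw φ hφ).2]
    simp
  exact sub_eq_zero.1 h2

/-- The exterior norm of the near field is a continuous function of the state. -/
theorem cont_ex (s : ℝ) (Ω : Set E) (θ : ℝ → ℝ) (σ : ℝ) :
    Continuous fun κ : K => ex s Ω (Mul s θ (tau (-σ) κ)) := by
  unfold ex
  exact ((pr s Ω).continuous.comp ((Mul s θ).continuous.comp (tau (-σ)).continuous)).norm

section Mollify

/-- `L¹` norm of a convolution with a mollifier. -/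
theorem integral_abs_conv_le {f g : E → ℝ} (hf : Integrable f volume)
    (hf0 : ∀ x, 0 ≤ f x) (hf1 : ∫ x, f x = 1) (hg : Integrable g volume) :
    ∫ x, |(f ⋆[ContinuousLinearMap.lsmul ℝ ℝ, volume] g) x| ≤ ∫ x, |g x| := by
  have h1 : ∫ x, (f ⋆[ContinuousLinearMap.lsmul ℝ ℝ, volume] fun y => |g y|) x =
      (ContinuousLinearMap.lsmul ℝ ℝ) (∫ x, f x) (∫ x, |g x|) :=
    integral_convolution _ hf hg.abs
  have h2 : ∫ x, |(f ⋆[ContinuousLinearMap.lsmul ℝ ℝ, volume] g) x| ≤
      ∫ x, (f ⋆[ContinuousLinearMap.lsmul ℝ ℝ, volume] fun y => |g y|) x := by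
    apply integral_mono
    · exact (hf.integrable_convolution (ContinuousLinearMap.lsmul ℝ ℝ) hg).abs
    · exact hf.integrable_convolution (ContinuousLinearMap.lsmul ℝ ℝ) hg.abs
    · intro x
      simp only [convolution_def]
      refine (abs_integral_le_integral_abs).trans (le_of_eq ?_)
      congr 1
      ext y
      simp [abs_mul, abs_of_nonneg (hf0 y)]
  rw [h1, hf1] at h2
  simpa using h2

/-- Support of a convolution. -/
theorem conv_eq_zero {f g : E → ℝ} {r s : ℝ} (hf : ∀ x, s ≤ ‖x‖ → f x = 0)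
    (hg : ∀ᵐ x, r < ‖x‖ → g x = 0) (x : E) (hx : r + s ≤ ‖x‖) :
    (f ⋆[ContinuousLinearMap.lsmul ℝ ℝ, volume] g) x = 0 := by
  rw [convolution_def]
  have h1 : ∀ᵐ t : E, r < ‖x - t‖ → g (x - t) = 0 :=
    (quasiMeasurePreserving_sub_left volume x).ae hg
  rw [← integral_zero E ℝ (μ := (volume : Measure E))]
  apply integral_congr_ae
  filter_upwards [h1] with t ht
  by_cases hs : s ≤ ‖t‖
  · simp [hf t hs]
  · push Not at hs
    have h2 : r < ‖x - t‖ := by
      have := norm_sub_norm_le x t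
      linarith
    simp [ht h2]

end Mollify

/-- The mollification of a state without position field is the source element of the mollified
velocity field. -/
theorem isGam_conv (h1 : Pool.Agent.QWE.St_Grp1) (h2 : Pool.Agent.QWE.St_Grp2) {s : ℝ}
    (hs : |s| < 1 / 2) (hF : St_FldP) (hA : St_ActP)
    {k : K} (hk : U s k =ᵐ[volume] 0) (hV : Integrable (V s k) volume) {f : E → ℝ}
    (hf : Continuous f) (hfc : HasCompactSupport f) :
    IsGam s (f ⋆[ContinuousLinearMap.lsmul ℝ ℝ, volume] (V s k)) (∫ t, f t • sh t k) := by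
  intro φ hφ
  obtain ⟨C', -, hF', -⟩ := hF s hs
  have hsh : Continuous fun y => sh y k := h1.2.2.2.2.2.2.2.2 k
  have hint : Integrable (fun t => f t • sh t k) volume :=
    (hf.smul hsh).integrable_of_hasCompactSupport hfc.smul_right
  have hinner : ∀ w : K, inner ℝ (∫ t, f t • sh t k) w = ∫ t, f t * inner ℝ (sh t k) w := by
    intro w
    rw [real_inner_comm, ← integral_inner hint]
    congr 1; ext t
    rw [inner_smul_right, real_inner_comm]
  have hgr : ∀ t, gr t 0 k = sh t k := by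
    intro t
    rw [gr, h2.2.1]
  have hAU : ∀ t, U s (sh t k) =ᵐ[volume] fun x => U s k (x - t) := by
    intro t
    have h3 := ((hA s hs).1 t 0 k).1
    rw [hgr] at h3
    simpa using h3
  have hAV : ∀ t, V s (sh t k) =ᵐ[volume] fun x => V s k (x - t) := by
    intro t
    have h3 := ((hA s hs).1 t 0 k).2.1
    rw [hgr] at h3
    simpa using h3
  constructor
  · rw [hinner]
    have h0 : ∀ t, inner ℝ (sh t k) (Rs s φ) = 0 := by
      intro t
      rw [← (hF' (sh t k)).1.2 φ hφ]
      have h2 : (fun x => U s (sh t k) x * φ x) =ᵐ[volume] fun _ => 0 := by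
        filter_upwards [hAU t, (measurePreserving_sub_right volume t).quasiMeasurePreserving.ae hk]
          with x h3 h4
        rw [h3, h4]; simp
      rw [integral_congr_ae h2]; simp
    simp [h0]
  · rw [hinner]
    have h0 : ∀ t, inner ℝ (sh t k) (dRs s φ) = ∫ x, V s k (x - t) * φ x := by
      intro t
      rw [← (hF' (sh t k)).2.2.1.2 φ hφ]
      apply integral_congr_ae
      filter_upwards [hAV t] with x h3
      rw [h3]
    have hfi : Integrable f volume := hf.integrable_of_hasCompactSupport hfc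
    have hprod : Integrable (fun p : E × E => (f p.2 * V s k (p.1 - p.2)) * φ p.1)
        ((volume : Measure E).prod (volume : Measure E)) := by
      have h2 : Integrable (fun p : E × E => f p.2 * V s k (p.1 - p.2))
          ((volume : Measure E).prod (volume : Measure E)) := by
        have := hfi.convolution_integrand (ContinuousLinearMap.lsmul ℝ ℝ) hV
        simpa using this
      obtain ⟨B, hB⟩ := hφ.2.exists_bound_of_continuous hφ.1.continuous
      refine h2.mul_bdd (c := B) ?_ ?_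
      · exact (hφ.1.continuous.comp continuous_fst).aestronglyMeasurable
      · exact Eventually.of_forall fun p => hB p.1
    calc ∫ t, f t * inner ℝ (sh t k) (dRs s φ)
        = ∫ t, ∫ x, (f t * V s k (x - t)) * φ x := by
          congr 1; ext t
          rw [h0, ← integral_const_mul]
          congr 1; ext x; ring
      _ = ∫ x, ∫ t, (f t * V s k (x - t)) * φ x := by
          rw [integral_integral_swap]
          exact hprod.swap
      _ = ∫ x, (f ⋆[ContinuousLinearMap.lsmul ℝ ℝ, volume] (V s k)) x * φ x := by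
          congr 1; ext x
          rw [integral_mul_const, convolution_def]
          rfl

/-- Unit scale estimate for states with velocity field supported in a ball. -/
theorem unit_est (h1 : Pool.Agent.QWE.St_Grp1) (h2 : Pool.Agent.QWE.St_Grp2) {s : ℝ}
    (hs : |s| < 1 / 2) (hD : TS s univ = ⊤) (hF : St_FldP) (hA : St_ActP)
    {θ : ℝ → ℝ} {C : ℝ} (hC0 : 0 < C) {σ : ℝ}
    (hC : ∀ F : E → ℝ, IsTest F → (∀ x, 1 / 3 ≤ ‖x‖ → F x = 0) →
      ex s (xt 0 1) (Mul s θ (tau (-σ) (Gam s F))) ≤ C * ∫ x, |F x|)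
    {k : K} (hk : U s k =ᵐ[volume] 0) (hVi : Integrable (V s k) volume)
    (hV : ∀ᵐ x, 1 / 4 < ‖x‖ → V s k x = 0) :
    ex s (xt 0 1) (Mul s θ (tau (-σ) k)) ≤ C * ∫ x, |V s k x| := by
  -- mollifiers
  let φ : ℕ → ContDiffBump (0 : E) := fun n =>
    { rIn := 1 / (2 * (n + 12 : ℝ)), rOut := 1 / (n + 12 : ℝ)
      rIn_pos := by positivity
      rIn_lt_rOut := by
        apply one_div_lt_one_div_of_lt
        · positivity
        · have : (0 : ℝ) < (n : ℝ) + 12 := by positivity
          linarith }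
  have hφ0 : Tendsto (fun n => (φ n).rOut) atTop (𝓝 0) := by
    change Tendsto (fun n : ℕ => 1 / ((n : ℝ) + 12)) atTop (𝓝 0)
    simp only [one_div]
    exact tendsto_inv_atTop_zero.comp
      (tendsto_atTop_add_const_right _ _ tendsto_natCast_atTop_atTop)
  have hsh : Continuous fun y => sh y k := h1.2.2.2.2.2.2.2.2 k
  have hlim : Tendsto (fun n => ∫ t, (φ n).normed volume t • sh t k) atTop (𝓝 k) := by
    have h2 := ContDiffBump.convolution_tendsto_right_of_continuous
      (μ := (volume : Measure E)) hφ0 (g := fun y : E => sh (-y) k) (hsh.comp continuous_neg) 0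
    have h3 : sh (-(0 : E)) k = k := by rw [neg_zero]; exact h1.2.2.2.1 k
    simp only [h3] at h2
    refine h2.congr fun n => ?_
    rw [convolution_def]
    congr 1; ext1 t
    simp
  have hcont := (cont_ex s (xt 0 1) θ σ).tendsto k
  refine le_of_tendsto (hcont.comp hlim) (Eventually.of_forall fun n => ?_)
  simp only [Function.comp_apply]
  set f : E → ℝ := (φ n).normed volume with hf
  have hfc : HasCompactSupport f := (φ n).hasCompactSupport_normed
  have hfd : ContDiff ℝ ∞ f := (φ n).contDiff_normed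
  have hG := isGam_conv h1 h2 hs hF hA hk hVi hfd.continuous hfc
  rw [← gam_eq hD hG]
  have hfr : ∀ x : E, 1 / 12 ≤ ‖x‖ → f x = 0 := by
    intro x hx
    have h2 : x ∉ Function.support f := by
      rw [hf, (φ n).support_normed_eq, Metric.mem_ball, dist_zero_right, not_lt]
      refine le_trans ?_ hx
      change 1 / ((n : ℝ) + 12) ≤ 1 / 12
      apply one_div_le_one_div_of_le (by norm_num)
      have : (0 : ℝ) ≤ n := by positivity
      linarith
    simpa using h2
  have hz : ∀ x : E, 1 / 3 ≤ ‖x‖ → (f ⋆[ContinuousLinearMap.lsmul ℝ ℝ, volume] (V s k)) x = 0 := by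
    intro x hx
    exact conv_eq_zero hfr hV x (by linarith)
  have hT : IsTest (f ⋆[ContinuousLinearMap.lsmul ℝ ℝ, volume] (V s k)) := by
    refine ⟨hfc.contDiff_convolution_left _ hfd hVi.locallyIntegrable, ?_⟩
    apply HasCompactSupport.of_support_subset_isCompact (isCompact_closedBall (0 : E) (1 / 3))
    intro x hx
    rw [mem_closedBall_zero_iff]
    by_contra h
    exact hx (hz x (le_of_lt (not_le.1 h)))
  have h3 := hC _ hT hz
  have h4 := integral_abs_conv_le ((φ n).integrable_normed) ((φ n).nonneg_normed)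
    ((φ n).integral_normed) hVi
  exact h3.trans (mul_le_mul_of_nonneg_left h4 hC0.le)

/-! ### Dilations of nice functions -/

theorem nice_dil {h : S × ℝ → ℝ} {c : ℝ} (hc : 0 < c) (H : Nice univ h) :
    Nice univ (fun z : S × ℝ => h (z.1, c * z.2)) := by
  obtain ⟨g, hg, ⟨M, hM⟩, hh, -⟩ := H
  refine ⟨fun x => g (x.1, c * x.2), ?_, ⟨M / c, fun x p hp => ?_⟩, fun z => ?_, subset_univ _⟩
  · exact hg.comp (contDiff_fst.prodMk (contDiff_const.mul contDiff_snd))
  · change g (x, c * p) = 0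
    apply hM
    rw [div_le_iff₀ hc] at hp
    rw [abs_mul, abs_of_pos hc, mul_comm]
    exact hp
  · change h (z.1, c * z.2) = g ((z.1 : E), c * z.2)
    rw [hh]

theorem ftp_dil (h : S × ℝ → ℝ) (w : S) (r : ℝ) {c : ℝ} (hc : 0 < c) :
    ftp (fun z : S × ℝ => h (z.1, c * z.2)) w r = ((c⁻¹ : ℝ) : ℂ) * ftp h w (c⁻¹ * r) := by
  have h1 := Measure.integral_comp_mul_left (fun q : ℝ => (h (w, q) : ℂ) *
    Complex.exp (-2 * Real.pi * Complex.I * ((c⁻¹ * r * q : ℝ) : ℂ))) c
  rw [abs_of_pos (inv_pos.2 hc)] at h1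
  simp only [ftp]
  rw [← Complex.real_smul, ← h1]
  congr 1
  ext p
  have h2 : c⁻¹ * r * (c * p) = r * p := by
    field_simp
  rw [h2]

theorem JF_dil (s : ℝ) (h : S × ℝ → ℝ) (z : S × ℝ) {c : ℝ} (hc : 0 < c) :
    JF s (fun z : S × ℝ => h (z.1, c * z.2)) z = c ^ (-s) * JF s h (z.1, c * z.2) := by
  have h1 := Measure.integral_comp_mul_left (fun r : ℝ => ((|2 * Real.pi * (c * r)| ^ (-s) : ℝ) : ℂ) *
    ftp h z.1 r * Complex.exp (2 * Real.pi * Complex.I * ((r * (c * z.2) : ℝ) : ℂ))) c⁻¹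
  rw [inv_inv, abs_of_pos hc] at h1
  have h2 : ∀ r : ℝ, ((|2 * Real.pi * (c * r)| ^ (-s) : ℝ) : ℂ) =
      ((c ^ (-s) : ℝ) : ℂ) * ((|2 * Real.pi * r| ^ (-s) : ℝ) : ℂ) := by
    intro r
    have h3 : 2 * Real.pi * (c * r) = c * (2 * Real.pi * r) := by ring
    rw [h3, abs_mul, abs_of_pos hc, Real.mul_rpow hc.le (abs_nonneg _)]
    push_cast
    ring
  have h4 : ∫ r : ℝ, ((|2 * Real.pi * r| ^ (-s) : ℝ) : ℂ) *
      ftp (fun z : S × ℝ => h (z.1, c * z.2)) z.1 r *
      Complex.exp (2 * Real.pi * Complex.I * ((r * z.2 : ℝ) : ℂ)) =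
      ((c ^ (-s) : ℝ) : ℂ) * ∫ r : ℝ, ((|2 * Real.pi * r| ^ (-s) : ℝ) : ℂ) * ftp h z.1 r *
      Complex.exp (2 * Real.pi * Complex.I * ((r * (c * z.2) : ℝ) : ℂ)) := by
    have h5 : ∀ r : ℝ, ((|2 * Real.pi * r| ^ (-s) : ℝ) : ℂ) *
        ftp (fun z : S × ℝ => h (z.1, c * z.2)) z.1 r *
        Complex.exp (2 * Real.pi * Complex.I * ((r * z.2 : ℝ) : ℂ)) =
        ((c⁻¹ : ℝ) : ℂ) * (((|2 * Real.pi * (c * (c⁻¹ * r))| ^ (-s) : ℝ) : ℂ) *
          ftp h z.1 (c⁻¹ * r) *
          Complex.exp (2 * Real.pi * Complex.I * ((c⁻¹ * r * (c * z.2) : ℝ) : ℂ))) := by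
      intro r
      rw [ftp_dil h z.1 r hc]
      have e1 : c * (c⁻¹ * r) = r := by field_simp
      have e2 : c⁻¹ * r * (c * z.2) = r * z.2 := by field_simp
      rw [e1, e2]
      ring
    rw [integral_congr_ae (Eventually.of_forall h5), integral_const_mul, h1, Complex.real_smul,
      ← mul_assoc]
    have e3 : ((c⁻¹ : ℝ) : ℂ) * (c : ℂ) = 1 := by
      rw [← Complex.ofReal_mul, inv_mul_cancel₀ hc.ne', Complex.ofReal_one]
    rw [e3, one_mul, ← integral_const_mul]
    congr 1
    ext r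
    rw [h2]
    ring
  simp only [JF]
  rw [h4, Complex.re_ofReal_mul]

theorem dl_JK (hPJ : St_PJ) {s : ℝ} (hs : |s| < 1 / 2) {h : S × ℝ → ℝ} (H : Nice univ h) (a : ℝ) :
    dl a (JK s h) = Real.exp ((1 / 2 + s) * a) • JK s (fun z : S × ℝ => h (z.1, Real.exp a * z.2)) := by
  have hc := Real.exp_pos a
  have m1 : MemLp (JF s h) 2 mu := ((hPJ s hs).1 h H).2.1
  have m2 : MemLp (JF s (fun z : S × ℝ => h (z.1, Real.exp a * z.2))) 2 mu :=
    ((hPJ s hs).1 _ (nice_dil hc H)).2.1
  apply Lp.ext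
  have h1 : ∀ᵐ z ∂mu, (JK s h : S × ℝ → ℝ) (z.1, Real.exp a * z.2) =
      JF s h (z.1, Real.exp a * z.2) := (qmp_scale hc).ae (toK_coe m1)
  filter_upwards [dl_coe a (JK s h), h1, toK_coe m2, Lp.coeFn_smul (Real.exp ((1 / 2 + s) * a))
    (JK s (fun z : S × ℝ => h (z.1, Real.exp a * z.2)))] with z e1 e2 e3 e4
  rw [e1, e2, e4, Pi.smul_apply, smul_eq_mul]
  change _ = _ * (toK (JF s (fun z : S × ℝ => h (z.1, Real.exp a * z.2))) : S × ℝ → ℝ) z
  rw [e3, JF_dil s h z hc, ← mul_assoc]
  congr 1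
  rw [← Real.exp_mul, ← Real.exp_add]
  congr 1
  ring

/-- Multiplication operators and dilations. -/
theorem Mul_dl (hPJ : St_PJ) (hDns : St_DnsP) {s : ℝ} (hs : |s| < 1 / 2) {θ : ℝ → ℝ} (hθ : Sm θ)
    {R : ℝ} (hR : 0 < R) (hM1 : IsMul s θ (Mul s θ))
    (hM2 : IsMul s (fun p => θ (p / R)) (Mul s (fun p => θ (p / R)))) (w : K) :
    Mul s (fun p => θ (p / R)) (dl (-Real.log R) w) = dl (-Real.log R) (Mul s θ w) := by
  apply MulPx.ext_JK hDns s hs
  intro h H
  have he : Real.exp (-Real.log R) = R⁻¹ := by rw [Real.exp_neg, Real.exp_log hR]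
  set a : ℝ := -Real.log R with ha
  set h' : S × ℝ → ℝ := fun z => h (z.1, R * z.2) with hh'
  have H' : Nice univ h' := nice_dil hR H
  have Hθ : Nice univ (fun z : S × ℝ => θ z.2 * h' z) := MulPx.nice_mul_univ hθ H'
  have e1 := dl_JK hPJ hs H' a
  have e2 := dl_JK hPJ hs Hθ a
  have c1 : (fun z : S × ℝ => h' (z.1, Real.exp a * z.2)) = h := by
    funext z
    simp only [hh', he]
    congr 1
    ext
    · rfl
    · simp only
      field_simp
  have c2 : (fun z : S × ℝ => θ (Real.exp a * z.2) * h' (z.1, Real.exp a * z.2)) =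
      fun z => θ (z.2 / R) * h z := by
    funext z
    have c3 : h' (z.1, Real.exp a * z.2) = h z := congrFun c1 z
    rw [c3, he, div_eq_inv_mul]
  rw [c1] at e1
  beta_reduce at e2
  rw [c2] at e2
  have hx : Real.exp ((1 / 2 + s) * a) ≠ 0 := (Real.exp_pos _).ne'
  have e3 : Real.exp ((1 / 2 + s) * a) *
      inner ℝ (Mul s (fun p => θ (p / R)) (dl a w)) (JK s h) =
      Real.exp ((1 / 2 + s) * a) * inner ℝ (dl a (Mul s θ w)) (JK s h) := by
    rw [hM2 (dl a w) h H, ← real_inner_smul_right, ← real_inner_smul_right, ← e1, ← e2,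
      LinearIsometry.inner_map_map, LinearIsometry.inner_map_map, hM1 w h' H']
  exact mul_left_cancel₀ hx e3

end NFPx

open NFPx in
/-- **NFP**: the near field estimate for general sources. -/
theorem thm_NFP (h1 : Pool.Agent.QWE.St_Grp1) (h2 : Pool.Agent.QWE.St_Grp2) (hPJ : St_PJ)
    (hDns : St_DnsP) (hF : St_FldP) (hA : St_ActP) (hMul : St_MulP) (hG : St_GamP)
    (hN : St_NF1P) : St_NFP := by
  intro s θ hs hθ hθ1 hθ2
  obtain ⟨C, hC0, hC⟩ := hN s θ hs hθ hθ1 hθ2
  refine ⟨C, hC0, ?_⟩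
  intro R B F σ hR hB hFi hFB hFz hσ0 hσ
  obtain ⟨-, -, hGU, hGV, -⟩ := hG s F B hs hB hFi.locallyIntegrable hFB
  have hea : Real.exp (Real.log R) = R := Real.exp_log hR
  have hea' : Real.exp (-Real.log R) = R⁻¹ := by rw [Real.exp_neg, hea]
  have hqmp : Measure.QuasiMeasurePreserving (fun x : E => R • x) volume volume :=
    Measure.quasiMeasurePreserving_smul volume hR.ne'
  have hgr : ∀ (a : ℝ) (κ : K), gr 0 a κ = dl a κ := by
    intro a κ
    rw [gr, h1.2.2.2.1]
  set w := Gam s F with hw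
  set k := dl (Real.log R) w with hk
  have hUk : U s k =ᵐ[volume] 0 := by
    have h3 := ((hA s hs).1 0 (Real.log R) w).1
    rw [hgr] at h3
    filter_upwards [h3, hqmp.ae hGU] with x h3 h4
    rw [h3, hea, sub_zero, h4]; simp
  have hVk : V s k =ᵐ[volume] fun x => Real.exp ((3 / 2 - s) * Real.log R) * F (R • x) := by
    have h3 := ((hA s hs).1 0 (Real.log R) w).2.1
    rw [hgr] at h3
    filter_upwards [h3, hqmp.ae hGV] with x h3 h4
    rw [h3, hea, sub_zero, h4]
  have hVi : Integrable (V s k) volume := by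
    rw [integrable_congr hVk]
    exact (hFi.comp_smul hR.ne').const_mul _
  have hVz : ∀ᵐ x, 1 / 4 < ‖x‖ → V s k x = 0 := by
    filter_upwards [hVk, hqmp.ae hFz] with x h3 h4 h5
    rw [h3, h4 ?_, mul_zero]
    rw [norm_smul, Real.norm_eq_abs, abs_of_pos hR]
    nlinarith
  have hσ1 : 0 ≤ σ / R := by positivity
  have hσ2 : σ / R ≤ 1 / 8 := by
    rw [div_le_iff₀ hR]; linarith
  have key := unit_est h1 h2 hs (hDns s hs).1 hF hA (θ := θ) hC0 (σ := σ / R)
    (fun F' hF' hz => hC F' (σ / R) hF' hz hσ1 hσ2) hUk hVi hVz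
  have hint : ∫ x, |V s k x| = R ^ (-(7 / 2 : ℝ) - s) * ∫ x, |F x| := by
    have h3 : ∫ x, |V s k x| = ∫ x, Real.exp ((3 / 2 - s) * Real.log R) * |F (R • x)| := by
      apply integral_congr_ae
      filter_upwards [hVk] with x hx
      rw [hx, abs_mul, abs_of_pos (Real.exp_pos _)]
    rw [h3, integral_const_mul, Measure.integral_comp_smul volume (fun x => |F x|) R]
    have h4 : Module.finrank ℝ E = 5 := by simp [E]
    rw [h4, smul_eq_mul, ← mul_assoc]
    congr 1
    rw [abs_of_pos (by positivity), Real.rpow_def_of_pos hR, ← hea, ← Real.exp_nat_mul,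
      ← Real.exp_neg, ← Real.exp_add, hea]
    congr 1
    push_cast
    ring
  -- the cut-off function
  have hθc : HasCompactSupport (deriv θ) := by
    apply HasCompactSupport.deriv
    apply HasCompactSupport.of_support_subset_isCompact (isCompact_Icc (a := -(1 / 12 : ℝ))
      (b := 1 / 12))
    intro p hp
    by_contra hc
    apply hp
    apply hθ2
    by_contra h3
    rw [not_le, abs_lt] at h3
    exact hc ⟨h3.1.le, h3.2.le⟩
  have hM1 : IsMul s θ (Mul s θ) := (hMul s θ hs hθ hθc).2.1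
  have hM2 : IsMul s (fun p => θ (p / R)) (Mul s (fun p => θ (p / R))) := by
    obtain ⟨C', -, h3⟩ := (hMul s θ hs hθ hθc).1
    have h4 := (h3 R 0 hR).1
    simpa using h4
  have hstate : Mul s (fun p => θ (p / R)) (tau (-σ) w) =
      dl (-Real.log R) (Mul s θ (tau (-(σ / R)) k)) := by
    have h3 : w = dl (-Real.log R) k := by
      rw [hk, h2.1, neg_add_cancel, h2.2.1]
    have h4 : Real.exp (-Real.log R) * (-σ) = -(σ / R) := by rw [hea']; ring
    conv_lhs => rw [h3]
    rw [h2.2.2.2.1, h4, Mul_dl hPJ hDns hs hθ hR hM1 hM2]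
  have hext : ∀ κ : K, ex s (xt 0 R) (dl (-Real.log R) κ) = ex s (xt 0 1) κ := by
    intro κ
    have h3 := (hA s hs).2.2.1 (xt 0 R) 0 (-Real.log R) κ
    rw [hgr] at h3
    rw [h3]
    congr 1
    ext z
    simp only [xt, Pool.Agent.QWE.ext, mem_ofPred_eq, neg_neg, hea, zero_add, dist_zero_right,
      norm_smul, Real.norm_eq_abs, abs_of_pos hR]
    constructor
    · intro h; by_contra h'; push Not at h'; nlinarith
    · intro h; nlinarith
  rw [hstate, hext]
  refine key.trans (le_of_eq ?_)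
  rw [hint]
  ring

end Pool.Agent.QWP
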