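import Pool.Agent.QWP.StA

set_option autoImplicit false

/-!
# QWP, Psi: the cut-off function
-/

open MeasureTheory Filter Topology Set
open scoped ENNReal NNReal RealInnerProductSpace

namespace Pool.Agent.QWP

open Pool.Agent.QWE (E S sg mu K toK tau sh dl rev gr ig IsTest pd lap Rad dRad Rk dRk c0 WD Sm SmE IsSch half shr WTo)

namespace Psix

theorem integrable_ker (f : SchwartzMap E ℝ) (ξ : E) :
    Integrable (fun x : E => ((f x : ℝ) : ℂ) *
      Complex.exp (-2 * Real.pi * Complex.I * ((inner ℝ x ξ : ℝ) : ℂ))) volume := by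
  have h1 : Integrable (fun x : E => ((f x : ℝ) : ℂ)) volume := f.integrable.ofReal
  refine h1.mono ?_ (Eventually.of_forall fun x => ?_)
  · refine Continuous.aestronglyMeasurable ?_
    have h2 : Continuous fun x : E => ((f x : ℝ) : ℂ) := Complex.continuous_ofReal.comp f.continuous
    have h3 : Continuous fun x : E => ((inner ℝ x ξ : ℝ) : ℂ) :=
      Complex.continuous_ofReal.comp (continuous_id.inner continuous_const)
    exact h2.mul (Complex.continuous_exp.comp (continuous_const.mul h3))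
  · rw [norm_mul]
    have h4 : ‖Complex.exp (-2 * Real.pi * Complex.I * ((inner ℝ x ξ : ℝ) : ℂ))‖ = 1 := by
      have h5 : (-2 * Real.pi * Complex.I * ((inner ℝ x ξ : ℝ) : ℂ)) =
          ((-2 * Real.pi * inner ℝ x ξ : ℝ) : ℂ) * Complex.I := by
        push_cast
        ring
      rw [h5, Complex.norm_exp_ofReal_mul_I]
    rw [h4, mul_one]

theorem ft_neg (φ : E → ℝ) (ξ : E) : ft (fun x => φ (-x)) ξ = ft φ (-ξ) := by
  unfold ft
  rw [← integral_neg_eq_self (fun x : E => (φ x : ℂ) *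
    Complex.exp (-2 * Real.pi * Complex.I * ((inner ℝ x (-ξ) : ℝ) : ℂ))) volume]
  refine integral_congr_ae (Eventually.of_forall fun x => ?_)
  simp only [inner_neg_neg]

end Psix

open Psix in
theorem thm_Psi (hI : St_FtI) : St_Psi := by
  let b : ContDiffBump (0 : E) := ⟨1, 2, one_pos, one_lt_two⟩
  have hbev : ∀ ξ : E, b (-ξ) = b ξ := fun ξ => b.neg ξ
  obtain ⟨φ, ⟨f, hf⟩, hφ⟩ := hI (fun ξ => ((b ξ : ℝ) : ℂ))
    (Complex.ofRealCLM.contDiff.comp b.contDiff)
    (b.hasCompactSupport.comp_left (g := fun x : ℝ => (x : ℂ)) Complex.ofReal_zero)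
    (fun ξ => by rw [hbev, Complex.conj_ofReal])
  have hφf : φ = f := funext fun x => (hf x).symm
  let f' : SchwartzMap E ℝ := SchwartzMap.compCLMOfContinuousLinearEquiv ℝ
    (ContinuousLinearEquiv.neg ℝ (M := E)) f
  have hf' : ∀ x, f' x = f (-x) := fun x => rfl
  let ψ : SchwartzMap E ℝ := (1 / 2 : ℝ) • (f + f')
  have hψ : ∀ x, ψ x = 1 / 2 * (f x + f (-x)) := fun x => rfl
  have hft : ∀ ξ, ft (fun x => ψ x) ξ = ((b ξ : ℝ) : ℂ) := by
    intro ξ
    have h1 : ft (fun x => ψ x) ξ = 1 / 2 * (ft f ξ + ft (fun x => f (-x)) ξ) := by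
      have h2 : ft (fun x => f (-x)) ξ = ft f' ξ := rfl
      rw [h2]
      unfold ft
      rw [← integral_add (integrable_ker f ξ) (integrable_ker f' ξ), ← integral_const_mul]
      refine integral_congr_ae (Eventually.of_forall fun x => ?_)
      simp only [hψ, hf']
      push_cast
      ring
    have h3 : ft f ξ = ((b ξ : ℝ) : ℂ) := by
      have h4 := hφ ξ
      rw [hφf] at h4
      exact h4
    have h5 : ft f (-ξ) = ((b ξ : ℝ) : ℂ) := by
      have h4 := hφ (-ξ)
      rw [hφf] at h4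
      rw [h4]
      simp only [hbev]
    rw [h1, ft_neg, h3, h5]
    ring
  refine ⟨fun x => ψ x, ⟨ψ, fun _ => rfl⟩, ?_, ?_, ?_, ?_⟩
  · intro ξ
    rw [hft, Complex.ofReal_re, Complex.ofReal_im]
    exact ⟨b.nonneg, b.le_one, rfl⟩
  · intro ξ hξ
    rw [hft, b.one_of_mem_closedBall, Complex.ofReal_one]
    rw [Metric.mem_closedBall, dist_zero_right]
    exact hξ
  · intro ξ hξ
    rw [hft, b.zero_of_le_dist, Complex.ofReal_zero]
    rw [dist_zero_right]
    exact hξ
  · intro x
    simp only [hψ, neg_neg]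
    ring

end Pool.Agent.QWP
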