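import Pool.Agent.QWP.Defs
import Pool.Agent.QWE.StA

set_option autoImplicit false

/-!
# QWP, block A: linear theory with the factor `|∂_p|^{-s}`, `-1/2 < s < 1/2`

Every `St_X` is to be proved as `theorem thm_X : St_X` (possibly with other statements as hypotheses, also those of
`Pool.Agent.QWE`) in `Pool/Agent/QWP/X.lean`. Design: `/team-store/R5p_plan.md`. `hs a φ` is the square of the norm of
`φ` in `Ḣ^a`, finite for Schwartz `φ` and `a > -5/2`. For `s = 0` everything reduces to block A of `Pool.Agent.QWE`.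
-/

open MeasureTheory Filter Topology Set
open scoped ENNReal NNReal RealInnerProductSpace

namespace Pool.Agent.QWP

open Pool.Agent.QWE (E S sg mu K toK tau sh dl rev gr ig IsTest pd lap Rad dRad Rk dRk c0 WD Sm SmE IsSch half shr WTo)

/-- Exterior of a ball (abbreviation). -/
abbrev xt (y : E) (ρ : ℝ) : Set E := Pool.Agent.QWE.ext y ρ

/-! ### Fourier transform and test states -/

/-- **Ft** (Fourier transform of Schwartz functions). Proof: `ft φ` is the Fourier transform of the Schwartz function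
`x ↦ (φ x : ℂ)` in Mathlib (`SchwartzMap.fourierTransformCLM`, Plancherel, derivative rules); `φ` real gives the
symmetry; translation by substitution. A smooth compactly supported function is Schwartz
(`HasCompactSupport.toSchwartzMap`). -/
def St_Ft : Prop :=
  (∀ φ : E → ℝ, IsTest φ → IsSch φ) ∧
  ∀ φ : E → ℝ, IsSch φ →
    Continuous (ft φ) ∧ (∀ N : ℕ, ∃ C : ℝ, ∀ ξ, ‖ft φ ξ‖ ≤ C / (1 + ‖ξ‖) ^ N) ∧
    (∀ ψ : E → ℝ, IsSch ψ → ∫ x, φ x * ψ x = (∫ ξ, ft φ ξ * (starRingEnd ℂ) (ft ψ ξ)).re) ∧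
    (∀ (i : Fin 5) (ξ : E), ft (pd i φ) ξ = 2 * Real.pi * Complex.I * ((ξ i : ℝ) : ℂ) * ft φ ξ) ∧
    (∀ ξ : E, ft (lap φ) ξ = -(((2 * Real.pi * ‖ξ‖) ^ 2 : ℝ) : ℂ) * ft φ ξ) ∧
    (∀ ξ : E, ft φ (-ξ) = (starRingEnd ℂ) (ft φ ξ)) ∧
    (∀ y ξ : E, ft (fun x => φ (x - y)) ξ =
      Complex.exp (-2 * Real.pi * Complex.I * ((inner ℝ y ξ : ℝ) : ℂ)) * ft φ ξ) ∧
    (∀ i, IsSch (pd i φ)) ∧ IsSch (lap φ) ∧ ∀ y, IsSch fun x => φ (x - y)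

/-- **FtI** (inversion). Proof: the inverse Fourier transform of the Schwartz function `g`; it is real because of the
symmetry of `g`. -/
def St_FtI : Prop := ∀ g : E → ℂ, ContDiff ℝ ((⊤ : ℕ∞) : WithTop ℕ∞) g → HasCompactSupport g →
  (∀ ξ, g (-ξ) = (starRingEnd ℂ) (g ξ)) → ∃ φ : E → ℝ, IsSch φ ∧ ∀ ξ, ft φ ξ = g ξ

/-- **Pol** (polar coordinates). Proof: `∫_S ∫_0^∞ H(r w) dr dw = ∫_E |ξ|^{-4} H(ξ) dξ` (polar coordinates in `E`), and the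
part `r < 0` gives the same after `w → -w` (`mp_neg_sphere`). -/
def St_Pol : Prop := ∀ H : E → ℂ, AEStronglyMeasurable H volume →
  (Integrable (fun ξ => ((‖ξ‖ ^ (-4 : ℝ) : ℝ) : ℂ) * H ξ) volume ↔
    Integrable (fun z : S × ℝ => H (z.2 • (z.1 : E))) mu) ∧
  ∫ z : S × ℝ, H (z.2 • (z.1 : E)) ∂mu = 2 * ∫ ξ, ((‖ξ‖ ^ (-4 : ℝ) : ℝ) : ℂ) * H ξ

/-- **Par** (Parseval for the states). Proof: for fixed `w` the functions `RsF s φ (w,·)`, `dRsF s φ (w,·)` are the inverse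
Fourier transforms of `|2πr|^{-s} ft φ (r w)` and `|2πr|^{-s} 2πi r ft φ (r w)`, which are in `L¹ ∩ L²(dr)` (`|s| < 1/2`, rapid decay, Ft) and
hermitian, so the inverse transforms are real: one dimensional Plancherel and Parseval, uniformly in `w`; measurability in
`(w,p)` by continuity (dominated convergence). Translation by `t` multiplies the transform by `e^{-2πi r t}`. The last identity:
`conj (2πi r) = -2πi r`. -/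
def St_Par : Prop := ∀ (s s' t : ℝ) (φ ψ : E → ℝ), |s| < 1 / 2 → |s'| < 1 / 2 → IsSch φ → IsSch ψ →
  Continuous (RsF s φ) ∧ Continuous (dRsF s φ) ∧ MemLp (RsF s φ) 2 mu ∧ MemLp (dRsF s φ) 2 mu ∧
  inner ℝ (tau t (Rs s φ)) (Rs s' ψ) = (∫ z : S × ℝ, ((|2 * Real.pi * z.2| ^ (-s - s') : ℝ) : ℂ) *
    Complex.exp (-2 * Real.pi * Complex.I * ((z.2 * t : ℝ) : ℂ)) * ft φ (z.2 • (z.1 : E)) *
      (starRingEnd ℂ) (ft ψ (z.2 • (z.1 : E))) ∂mu).re ∧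
  inner ℝ (tau t (dRs s φ)) (dRs s' ψ) = (∫ z : S × ℝ, ((|2 * Real.pi * z.2| ^ (2 - s - s') : ℝ) : ℂ) *
    Complex.exp (-2 * Real.pi * Complex.I * ((z.2 * t : ℝ) : ℂ)) * ft φ (z.2 • (z.1 : E)) *
      (starRingEnd ℂ) (ft ψ (z.2 • (z.1 : E))) ∂mu).re ∧
  inner ℝ (tau t (Rs s φ)) (dRs s' ψ) = (∫ z : S × ℝ, ((|2 * Real.pi * z.2| ^ (-s - s') : ℝ) : ℂ) *
    (-2 * Real.pi * Complex.I * (z.2 : ℂ)) *
    Complex.exp (-2 * Real.pi * Complex.I * ((z.2 * t : ℝ) : ℂ)) * ft φ (z.2 • (z.1 : E)) *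
      (starRingEnd ℂ) (ft ψ (z.2 • (z.1 : E))) ∂mu).re

/-- **PJ** (the same for nice functions on `S × ℝ`). For nice `h`, `h'` (smooth, compactly supported in `p`):
`⟨|∂_p|^{-s} h, |∂_p|^{-s'} h'⟩` depends only on `s + s'`; for `s' = -s` it is `∫ h h'`. Proof: one dimensional Parseval as in Par
(`ftp h w r` is rapidly decreasing in `r`, uniformly in `w`). Translation: `JK s` commutes with `tau`, `sh`, `rev`. Relation with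
the test states: `ftp (Rad φ) w r = ft φ (r w)` (QWE.FSl), so `JK s (Rad φ) = Rs s φ`; `ftp (dRad φ) w r = 2πi r ft φ (r w)`. -/
def St_PJ : Prop := ∀ s : ℝ, |s| < 1 / 2 →
  (∀ h : S × ℝ → ℝ, Nice univ h → MemLp h 2 mu ∧ MemLp (JF s h) 2 mu ∧ JK 0 h = toK h ∧
    (∀ (t : ℝ), tau t (JK s h) = JK s (fun z => h (z.1, z.2 - t))) ∧
    (∀ (y : E), sh y (JK s h) = JK s (fun z => h (z.1, z.2 - inner ℝ y (z.1 : E)))) ∧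
    rev (JK s h) = JK s (fun z => h (-z.1, -z.2)) ∧
    (∀ c : ℝ, JK s (fun z => c * h z) = c • JK s h) ∧
    (∀ h' : S × ℝ → ℝ, Nice univ h' → JK s (fun z => h z + h' z) = JK s h + JK s h' ∧
      inner ℝ (JK s h) (JK (-s) h') = ∫ z, h z * h' z ∂mu ∧
      inner ℝ (JK s h) (JK s h') = ((∫ z : S × ℝ, ((|2 * Real.pi * z.2| ^ (-2 * s) : ℝ) : ℂ) * ftp h z.1 z.2 *
        (starRingEnd ℂ) (ftp h' z.1 z.2) ∂mu)).re) ∧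
    (∀ φ, IsSch φ → inner ℝ (JK s h) (Rs (-s) φ) = ∫ z, h z * Rad φ z ∂mu ∧
      inner ℝ (JK s h) (dRs (-s) φ) = ∫ z, h z * dRad φ z ∂mu)) ∧
  ∀ φ : E → ℝ, IsTest φ → JK s (Rad φ) = Rs s φ ∧ JK s (dRad φ) = dRs s φ

/-- **NcR** (Radon transforms of test functions are nice). Proof: by Fourier inversion `Rad φ (w,p) = ∫ ft φ (r w) e^{2πi r p} dr`; the
function `g(v,p) = χ(v) Re ∫ ft φ (r v) e^{2πi r p} dr`, `χ` smooth, `= 1` for `|v| = 1`, supported in `1/2 < |v| < 2`, is smooth on `E × ℝ`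
(differentiate under the integral, `ft φ` is Schwartz), and vanishes for `|p| ≥ 2M` if `φ` vanishes for `|x| ≥ M`, since
`∫ ft φ (r v) e^{2πi r p} dr = |v|⁻¹ Rad φ (v/|v|, p/|v|)`. Support of `Rad φ`, `dRad φ`: QWE.RadT. -/
def St_NcR : Prop := ∀ (φ : E → ℝ) (y : E) (ρ : ℝ), IsTest φ → tsupport φ ⊆ Metric.ball y ρ →
  Nice {z | |z.2 - inner ℝ y (z.1 : E)| < ρ} (Rad φ) ∧ Nice {z | |z.2 - inner ℝ y (z.1 : E)| < ρ} (dRad φ)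

/-- **Idn** (`s = 0`). Proof: Fourier inversion in `p` (QWE.FSl): `RsF 0 φ = Rad φ`, `dRsF 0 φ = dRad φ` for Schwartz `φ`. -/
def St_Idn : Prop := ∀ φ g : E → ℝ, IsSch φ → IsSch g → Rs 0 φ = Rk φ ∧ dRs 0 φ = dRk φ ∧
  Theta 0 φ g = Pool.Agent.QWE.Theta φ g

/-- **IsoP** (the isometry). Proof from Par (`t = 0`), Pol, Ft. `1/c0 = 2 (2π)⁴`. The cross term is odd under `(w,r) → (-w,-r)`. In `Theta`:
`‖Rs (-s) (ΔΔf)‖² = (1/c0) ∫ (2π|ξ|)^{-4+2s} (2π|ξ|)^8 |f^|² = hs (2+s) f / c0`, etc. -/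
def St_IsoP : Prop := ∀ (s : ℝ) (f φ : E → ℝ), |s| < 1 / 2 → IsSch f → IsSch φ →
  c0 * inner ℝ (Rs (-s) (lap (lap f))) (Rs s φ) = ∫ x, f x * φ x ∧
  c0 * inner ℝ (dRs (-s) (lap f)) (dRs s φ) = - ∫ x, f x * φ x ∧
  inner ℝ (Rs s f) (dRs (-s) φ) = 0 ∧ inner ℝ (Rs s f) (dRs s φ) = 0 ∧
  c0 * ‖Rs s φ‖ ^ 2 = hs (-2 - s) φ ∧ c0 * ‖dRs s φ‖ ^ 2 = hs (-1 - s) φ ∧
  ‖Theta s f φ‖ ^ 2 = c0 * (hs (2 + s) f + hs (1 + s) φ) ∧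
  (∀ a : ℝ, -5 / 2 < a → Integrable (fun ξ => (2 * Real.pi * ‖ξ‖) ^ (2 * a) * ‖ft φ ξ‖ ^ 2) volume)

/-- **Hs** (calculus of `hs`). Proof: Plancherel (Ft), Hoelder on the Fourier side for the interpolation inequality
(`(2π|ξ|)^{2a} = 1^{1-a/n} ((2π|ξ|)^{2n})^{a/n}` with the measure `|f^|² dξ`), `ft (pd i f) = 2πi ξ_i ft f`,
`(Σ ξ_i²)³ = Σ_{ijk} ξ_i² ξ_j² ξ_k²`; substitution for the scaling. -/
def St_Hs : Prop :=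
  (∀ f, IsSch f → hs 0 f = ∫ x, f x ^ 2) ∧
  (∀ f, IsSch f → hs 1 f = ∑ i, ∫ x, pd i f x ^ 2) ∧
  (∀ f, IsSch f → hs 2 f = ∫ x, lap f x ^ 2) ∧
  (∀ f, IsSch f → hs 3 f = ∑ i, ∑ j, ∑ l, ∫ x, pd l (pd j (pd i f)) x ^ 2) ∧
  (∀ (n : ℕ) (a : ℝ) (f : E → ℝ), 0 < n → 0 ≤ a → a ≤ n → IsSch f →
    hs a f ≤ hs 0 f ^ (1 - a / n) * hs n f ^ (a / n)) ∧
  (∀ (a : ℝ) (f : E → ℝ), -3 / 2 < a → IsSch f → ∑ i, hs a (pd i f) = hs (a + 1) f) ∧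
  (∀ (a l : ℝ) (f : E → ℝ), -5 / 2 < a → 0 < l → IsSch f →
    hs a (fun x => f (l • x)) = l ^ (2 * a - 5) * hs a f) ∧
  (∀ (a : ℝ) (f g : E → ℝ), -5 / 2 < a → IsSch f → IsSch g →
    hs a (fun x => f x + g x) ^ (1 / 2 : ℝ) ≤ hs a f ^ (1 / 2 : ℝ) + hs a g ^ (1 / 2 : ℝ))

/-- **RSob** (refined Sobolev inequality; paper G1). `q = 10/(5-2a)`. `ψ` Schwartz with `0 ≤ ψ^ ≤ 1`, `ψ^ = 1` for `|ξ| ≤ 1`. Proof.
`f_l := l⁵ ψ(l·) * f`, `|f_l| ≤ l^{5/q} B` (reflect: `ψ` is even because `ψ^` is real). For `λ > 0` take `l` with `l^{5/q} B = λ/2`: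
`|{|f|>λ}| ≤ |{|f - f_l| > λ/2}| ≤ 4 λ^{-2} ∫_{|ξ| ≥ l} |f^|²` (Chebyshev, Plancherel). `∫ |f|^q = q ∫ λ^{q-1} |{|f|>λ}| dλ ≤
4q ∫ |f^|² ∫_0^{2B|ξ|^{5/q}} λ^{q-3} dλ dξ ≤ C B^{q-2} ∫ |ξ|^{(5/q)(q-2)} |f^|²` and `(5/q)(q-2) = 2a`. Second part: `|f_l(x)| ≤ ∫_{|ξ| ≤ 2l} |f^| ≤ (∫_{|ξ| ≤ 2l} (2π|ξ|)^{-2a})^{1/2} (hs a f)^{1/2}
= C l^{5/2-a} (hs a f)^{1/2}` if `ψ^ = 0` for `|ξ| ≥ 2`. -/
def St_RSob : Prop := ∀ (a : ℝ) (ψ : E → ℝ), 0 < a → a < 5 / 2 → IsSch ψ →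
  (∀ ξ, 0 ≤ (ft ψ ξ).re ∧ (ft ψ ξ).re ≤ 1 ∧ (ft ψ ξ).im = 0) → (∀ ξ, ‖ξ‖ ≤ 1 → ft ψ ξ = 1) →
  (∀ ξ, 2 ≤ ‖ξ‖ → ft ψ ξ = 0) → ∃ C : ℝ, 0 < C ∧ ∀ f : E → ℝ, IsSch f →
  (∀ B : ℝ, 0 ≤ B → (∀ (x : E) (l : ℝ), 0 < l → |∫ z, f (x + l⁻¹ • z) * ψ z| ≤ B * l ^ ((5 - 2 * a) / 2)) →
    ∫ x, |f x| ^ (10 / (5 - 2 * a)) ≤ C * B ^ (4 * a / (5 - 2 * a)) * hs a f) ∧
  ∀ (x : E) (l : ℝ), 0 < l →
    |∫ z, f (x + l⁻¹ • z) * ψ z| ≤ C * (hs a f) ^ (1 / 2 : ℝ) * l ^ ((5 - 2 * a) / 2)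

/-- **Psi** (the cut-off function of RSob exists). Proof: FtI with `g` a smooth radial bump. -/
def St_Psi : Prop := ∃ ψ : E → ℝ, IsSch ψ ∧
  (∀ ξ, 0 ≤ (ft ψ ξ).re ∧ (ft ψ ξ).re ≤ 1 ∧ (ft ψ ξ).im = 0) ∧ (∀ ξ, ‖ξ‖ ≤ 1 → ft ψ ξ = 1) ∧
  (∀ ξ, 2 ≤ ‖ξ‖ → ft ψ ξ = 0) ∧ ∀ x, ψ (-x) = ψ x

/-- **SobP** (Sobolev inequality and its dual). Proof: RSob with `B = C (hs a f)^{1/2}` (and Psi). Dual: for Schwartz `φ` and `n ∈ ℕ` let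
`f_n` be Schwartz with `ft f_n = κ_n(ξ) (2π|ξ|)^{-2a} ft φ`, `κ_n ↑ 1` smooth cut-offs vanishing near `0` and `∞` (FtI):
`∫ f_n φ = ∫ κ_n (2π|ξ|)^{-2a} |φ^|² =: I_n → hs (-a) φ`, `hs a f_n ≤ I_n`, and `∫ f_n φ ≤ ‖f_n‖_q ‖φ‖_{q'} ≤ C I_n^{1/2} ‖φ‖_{q'}`. -/
def St_SobP : Prop := ∀ a : ℝ, 0 < a → a < 5 / 2 → ∃ C : ℝ, 0 < C ∧ ∀ f : E → ℝ, IsSch f →
  eLpNorm f (ENNReal.ofReal (10 / (5 - 2 * a))) volume ≤ ENNReal.ofReal (C * (hs a f) ^ (1 / 2 : ℝ)) ∧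
  ENNReal.ofReal ((hs (-a) f) ^ (1 / 2 : ℝ)) ≤
    ENNReal.ofReal C * eLpNorm f (ENNReal.ofReal (10 / (5 + 2 * a))) volume

/-- **Dns0** (states with Fourier support away from `0` and `∞`). Proof: for Schwartz `ψ` with `ft ψ ∈ C_c^∞(E ∖ 0)` let `ψ1` be Schwartz with
`ft ψ1 = (2π|ξ|)^{-s} ft ψ` (FtI): `Rs s ψ = Rs 0 ψ1`, `dRs s ψ = dRs 0 ψ1` (equality of the integrands, `|2πr|^{-s} = (2π|r w|)^{-s}`); so the span does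
not depend on `s`. `s = 0`: for a test function `φ` take `ft ψ_n = κ_n ft φ`: `c0 ‖Rk φ - Rs 0 ψ_n‖² = ∫ (2π|ξ|)^{-4} (1-κ_n)² |φ^|² → 0`, the same for `dRk φ`; and
`QWE.TS univ = ⊤` (QWE.Dens). -/
def St_Dns0 : Prop := ∀ s : ℝ, |s| < 1 / 2 →
  (Submodule.span ℝ {w : K | ∃ ψ : E → ℝ, IsSch ψ ∧ HasCompactSupport (ft ψ) ∧ (∀ᶠ ξ in 𝓝 (0 : E), ft ψ ξ = 0) ∧
    (w = Rs s ψ ∨ w = dRs s ψ)}).topologicalClosure = ⊤

/-- **DnsP** (density of test states). Proof. (a) For Schwartz `ψ` and `χ_n = χ(·/n)`: `‖Rs s (ψ - χ_n ψ)‖ ≤ C ‖ψ - χ_n ψ‖_{L^{10/(9+2s)}} → 0` (IsoP, SobP with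
`a = 2 + s`), `‖dRs s (..)‖ ≤ C ‖..‖_{L^{10/(7+2s)}}`; so `TS s univ` contains all `Rs s ψ`, `dRs s ψ`, `ψ` Schwartz, and is everything by Dns0. (b) The closure of
the `Theta s f g`, `f, g` test, contains those with `f, g` Schwartz (`hs (2+s) (f - χ_n f) → 0` by the interpolation inequality of Hs with `n = 3`), hence all `Rs (-s) ψ`,
`dRs (-s) ψ` with `ft ψ ∈ C_c^∞(E∖0)` (`ψ = ΔΔf`, resp. `Δg`), which are total by Dns0 with `-s`. (c) The `JK s h`, `h` nice, contain the `Rs s φ`, `dRs s φ`, `φ` test (PJ, NcR). -/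
def St_DnsP : Prop := ∀ s : ℝ, |s| < 1 / 2 → TS s univ = ⊤ ∧
  (∀ (k : K) (ε : ℝ), 0 < ε → ∃ f g : E → ℝ, IsTest f ∧ IsTest g ∧ ‖k - Theta s f g‖ < ε) ∧ PS s univ = ⊤

/-- **Tr** (transfer of the free evolution from `s = 0`). Proof: for `ψ` with `ft ψ ∈ C_c^∞(E∖0)` and `ft ψ1 = (2π|ξ|)^{-s-s'} ft ψ` one has
`⟨tau t (Rs s φ), Rs s' ψ⟩ = ⟨tau t (Rk φ), Rs 0 ψ1⟩` and the same for `dRs` (Par: the same integrals). So an identity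
between `tau t (Rk φ)`, `Rk f1`, `dRk f2` implies the same identity for `Rs s`, `dRs s`, tested with the total set of Dns0. Same with
`Theta s f g = c0 (Rs (-s) .. - dRs (-s) ..)`. -/
def St_Tr : Prop := ∀ (s t : ℝ) (φ f1 f2 f g f' g' : E → ℝ), |s| < 1 / 2 → IsTest φ → IsTest f1 → IsTest f2 →
  IsTest f → IsTest g → IsTest f' → IsTest g' →
  (tau t (Rk φ) = Rk f1 + dRk f2 → tau t (Rs s φ) = Rs s f1 + dRs s f2) ∧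
  (tau t (dRk φ) = Rk f1 + dRk f2 → tau t (dRs s φ) = Rs s f1 + dRs s f2) ∧
  (tau t (Pool.Agent.QWE.Theta f g) = Pool.Agent.QWE.Theta f' g' → tau t (Theta s f g) = Theta s f' g')

/-- **FldP** (fields). Proof as QWE.Fld, Lin. For test `f, g`, `k = Theta s f g`: `f` is the position field and `g` the velocity field (IsoP); SobP with `a = 2+s`
(for `f`), `a = 1+s` (for `∂_i f`, `g`, Hs: `Σ hs (1+s) (∂_i f) = hs (2+s) f`) and IsoP bound the norms by `C ‖k‖`. General `k`: approximate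
(DnsP); `f_n`, `g_n`, `∂_i f_n` are Cauchy in `L^{q0}, L^{q1}, L^{q1}`. Uniqueness a.e. by test functions. The identities for Schwartz `φ`: `φ ∈ L^{q0'} ∩ L^{q1'}`, `χ_n φ → φ`
there, and `Rs s (χ_n φ) → Rs s φ` (proof of DnsP). -/
def St_FldP : Prop := ∀ s : ℝ, |s| < 1 / 2 → ∃ C : ℝ, 0 < C ∧
  (∀ k : K, IsU s k (U s k) ∧ eLpNorm (U s k) (q0 s) volume ≤ ENNReal.ofReal C * ‖k‖ₑ ∧
    IsV s k (V s k) ∧ eLpNorm (V s k) (q1 s) volume ≤ ENNReal.ofReal C * ‖k‖ₑ ∧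
    (∀ i, MemLp (DU s k i) (q1 s) volume ∧ WD i (U s k) (DU s k i) ∧
      eLpNorm (DU s k i) (q1 s) volume ≤ ENNReal.ofReal C * ‖k‖ₑ) ∧
    ∀ φ, IsSch φ → ∫ x, U s k x * φ x = inner ℝ k (Rs s φ) ∧ ∫ x, V s k x * φ x = inner ℝ k (dRs s φ)) ∧
  (∀ (c : ℝ) (k k' : K), (U s (k + c • k') =ᵐ[volume] fun x => U s k x + c * U s k' x) ∧
    (V s (k + c • k') =ᵐ[volume] fun x => V s k x + c * V s k' x) ∧
    ∀ i, DU s (k + c • k') i =ᵐ[volume] fun x => DU s k i x + c * DU s k' i x) ∧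
  ∀ f g : E → ℝ, IsTest f → IsTest g → (U s (Theta s f g) =ᵐ[volume] f) ∧ (V s (Theta s f g) =ᵐ[volume] g) ∧
    ∀ i, DU s (Theta s f g) i =ᵐ[volume] pd i f

/-- **ActP** (symmetries). Proof as QWE.Act: `sh y (Rs s φ) = Rs s (φ(· - y))`, `dl a (Rs s φ) = e^{(9/2+s)a} Rs s (φ(e^a ·))`,
`dl a (dRs s φ) = e^{(7/2+s)a} dRs s (φ(e^a ·))`, `rev (Rs s φ) = Rs s φ`, `rev (dRs s φ) = - dRs s φ` (substitution in the Fourier integrals). -/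
def St_ActP : Prop := ∀ s : ℝ, |s| < 1 / 2 →
  (∀ (y : E) (a : ℝ) (k : K),
    (U s (gr y a k) =ᵐ[volume] fun x => Real.exp ((1 / 2 - s) * a) * U s k (Real.exp a • (x - y))) ∧
    (V s (gr y a k) =ᵐ[volume] fun x => Real.exp ((3 / 2 - s) * a) * V s k (Real.exp a • (x - y))) ∧
    ∀ i, DU s (gr y a k) i =ᵐ[volume] fun x => Real.exp ((3 / 2 - s) * a) * DU s k i (Real.exp a • (x - y))) ∧
  (∀ k : K, (U s (rev k) =ᵐ[volume] U s k) ∧ (V s (rev k) =ᵐ[volume] fun x => - V s k x)) ∧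
  (∀ (Ω : Set E) (y : E) (a : ℝ) (k : K),
    ex s Ω (gr y a k) = ex s {z | y + Real.exp (-a) • z ∈ Ω} k) ∧
  (∀ (Ω : Set E) (k : K), ex s Ω (rev k) = ex s Ω k) ∧
  ∀ (y : E) (a : ℝ) (f g : E → ℝ), IsTest f → IsTest g → gr y a (Theta s f g) =
    Theta s (fun x => Real.exp ((1 / 2 - s) * a) * f (Real.exp a • (x - y)))
      (fun x => Real.exp ((3 / 2 - s) * a) * g (Real.exp a • (x - y)))

/-- **ExBP** (exterior seminorms). Proof as QWE.ExB (Hilbert space arguments, FldP for `Van` in terms of the fields, DnsP). -/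
def St_ExBP : Prop := ∀ s : ℝ, |s| < 1 / 2 →
  (∀ Ω (k k' : K), |ex s Ω k - ex s Ω k'| ≤ ‖k - k'‖) ∧ (∀ Ω (k : K), ex s Ω k ≤ ‖k‖) ∧
  (∀ Ω Ω' (k : K), Ω ⊆ Ω' → ex s Ω k ≤ ex s Ω' k) ∧
  (∀ Ω (k : K), Van s Ω k ↔ ex s Ω k = 0) ∧ (∀ Ω (k : K), Van s Ω (k - pr s Ω k)) ∧
  (∀ Ω (k k' : K), Van s Ω (k - k') → ex s Ω k ≤ ‖k'‖ ∧ ex s Ω k = ex s Ω k') ∧
  (∀ Ω (k : K), IsOpen Ω → (Van s Ω k ↔ (∀ᵐ x, x ∈ Ω → U s k x = 0) ∧ ∀ᵐ x, x ∈ Ω → V s k x = 0)) ∧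
  (∀ Ω (k : ℕ → K) (k' : K) (r : ℝ), WTo k k' → (∀ n, ex s Ω (k n) ≤ r) → ex s Ω k' ≤ r) ∧
  (∀ (Ω : ℕ → Set E) (k : K), Monotone Ω → (∀ n, IsOpen (Ω n)) →
    Tendsto (fun n => ex s (Ω n) k) atTop (𝓝 (ex s (⋃ n, Ω n) k))) ∧
  (∀ k : K, Tendsto (fun R : ℝ => ex s (xt 0 R) k) atTop (𝓝 0)) ∧
  (∀ k : K, Tendsto (fun R : ℝ => ex s (Metric.ball 0 R) k) atTop (𝓝 ‖k‖))

/-- **ExFP** (fields on an open set). Proof as QWE.ExF from ExBP, FldP. -/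
def St_ExFP : Prop := ∀ s : ℝ, |s| < 1 / 2 → ∃ C : ℝ, 0 < C ∧ ∀ (k : K) (Ω : Set E), IsOpen Ω →
  eLpNorm (Ω.indicator (U s k)) (q0 s) volume ≤ ENNReal.ofReal (C * ex s Ω k) ∧
  (∀ i, eLpNorm (Ω.indicator (DU s k i)) (q1 s) volume ≤ ENNReal.ofReal (C * ex s Ω k)) ∧
  eLpNorm (Ω.indicator (V s k)) (q1 s) volume ≤ ENNReal.ofReal (C * ex s Ω k) ∧
  (∀ k' : K, Van s Ω (k - k') → ∀ᵐ x, x ∈ Ω → U s k x = U s k' x ∧ V s k x = V s k' x ∧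
    ∀ i, DU s k i x = DU s k' i x)

/-! ### Locality in `p`, multiplication operators -/

/-- **NaB** (calculus of `na`). Proof: orthogonal projections; `PS s A ≤ PS s A'` for `A ⊆ A'`; by PJ `tau t`, `sh y`, `rev` map `JK s h` to `JK s` of the transported
function, whose support is the transported set, so they map `PS s A` onto `PS s` of the transported set and intertwine the projections. -/
def St_NaB : Prop := ∀ s : ℝ, |s| < 1 / 2 →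
  (∀ A (k k' : K), |na s A k - na s A k'| ≤ ‖k - k'‖ ∧ na s A (k + k') ≤ na s A k + na s A k') ∧
  (∀ A (k : K), na s A k ≤ ‖k‖ ∧ 0 ≤ na s A k) ∧ (∀ A A' (k : K), A ⊆ A' → na s A k ≤ na s A' k) ∧
  (∀ A (k : K), na s A k = 0 ↔ ∀ h, Nice A h → inner ℝ k (JK s h) = 0) ∧
  (∀ A (t : ℝ) (k : K), na s A (tau t k) = na s {z | (z.1, z.2 + t) ∈ A} k) ∧
  (∀ A (y : E) (k : K), na s A (sh y k) = na s {z | (z.1, z.2 + inner ℝ y (z.1 : E)) ∈ A} k) ∧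
  ∀ A (k : K), na s A (rev k) = na s {z | (-z.1, -z.2) ∈ A} k

/-- **L7P**. Proof: NcR and PJ: test functions supported in the open ball `B(y,ρ)` have `Rad φ`, `dRad φ` nice with support in `{|q| < ρ}` (a compact subset of the ball lies in a smaller
closed ball), so `TS s (ball y ρ) ≤ PS s {|q| < ρ}`. -/
def St_L7P : Prop := ∀ (s : ℝ) (y : E) (ρ : ℝ) (k : K), |s| < 1 / 2 →
  na s {z | |z.2 - inner ℝ y (z.1 : E)| < ρ} k = 0 → Van s (Metric.ball y ρ) k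

/-- **DecX** (fields of a nice function decay). `f(x) = ∫_S h(w, x·w) dw`, `g(x) = - ∫_S ∂_p h(w, x·w) dw`. Proof. Smoothness: differentiate under the integral,
`∂_{x_i}` gives a factor `w_i` and `∂_p`. Decay: with `h(w,p) = G(w,p)` and `b(v,p) = v^α ∂_p^n G(v,p)`, slices (QWE.SL) along `e = x/|x|`, `p = |x| τ`:
`∫_S (∂_p^n b)(w, x·w) dw = |x|^{-1} ∫_{|p| ≤ |x|} (1 - p²/|x|²) ∫_{S³} (∂_p^n b)((p/|x|) e + √(1-p²/|x|²) O v, p) dv dp`; for `|x| ≥ 2M` the integrand is supported in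
`|p| ≤ M ≤ |x|/2`; `∂_p^n b` is the `p`-derivative of `(∂_p^{n-1} b)(.., p)` minus terms where the derivative falls on the first slots, each with a factor `1/|x|`, and the weight
`1 - p²/|x|²` is as good; integrate by parts `n` times: `O(|x|^{-1-n})`. Duality: Fubini and the formula for `Rad` (QWE.RadT): `∫ f φ = ∫ h Rad φ`, `∫ g φ = - ∫ ∂_p h Rad φ = ∫ h dRad φ`. Support: if
`h = 0` where `|p - y·w| < ρ` then `f = g = 0` on `B(y,ρ)`, as `|x·w - y·w| ≤ |x-y|`. -/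
def St_DecX : Prop := ∀ h : S × ℝ → ℝ, Nice univ h → ∃ f g : E → ℝ, SmE f ∧ SmE g ∧
  (∃ C : ℝ, ∀ n ≤ 4, ∀ x, ‖iteratedFDeriv ℝ n f x‖ ≤ C / (1 + ‖x‖) ^ (n + 1) ∧
    ‖iteratedFDeriv ℝ n g x‖ ≤ C / (1 + ‖x‖) ^ (n + 2)) ∧
  (∀ φ, IsTest φ → ∫ x, f x * φ x = ∫ z, h z * Rad φ z ∂mu ∧ ∫ x, g x * φ x = ∫ z, h z * dRad φ z ∂mu) ∧
  (∀ (y : E) (ρ : ℝ), (∀ z : S × ℝ, |z.2 - inner ℝ y (z.1 : E)| < ρ → h z = 0) →
    ∀ x, dist x y < ρ → f x = 0 ∧ g x = 0) ∧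
  ∀ x, f x = ∫ w : S, h (w, inner ℝ x (w : E)) ∂sg

/-- **L8P** (exterior locality). Proof. `h` nice with support in the closed set `closure {h ≠ 0} ⊆ {ρ < |q|}`; it is compact, so `h = 0` for `|q| < ρ'`, some `ρ' > ρ`. `f, g` of DecX vanish on `B(y,ρ')`.
`φ1 = ΔΔf = O(|x|^{-5})`, `φ2 = Δg = O(|x|^{-4})` are in `L^{10/(9+2s)}`, `L^{10/(7+2s)}` (`50/(9+2s) > 5`, `40/(7+2s) > 5`). `φ_{i,n} = χ_n φ_i` are test functions supported in `xt y ρ`, and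
`c0 (Rs s φ_{1,n} - dRs s φ_{2,n})` is Cauchy (IsoP, SobP dual) with a limit `w ∈ TS s (xt y ρ)`. For test `a, b`: `⟨w, Theta s a b⟩ = c0 (∫ φ1 a - ∫ φ2 b)` (IsoP) `= c0 (∫ f ΔΔa - ∫ g Δb)
= c0 (∫ h Rad(ΔΔa) - ∫ h dRad(Δb)) = ⟨JK s h, Theta s a b⟩` (DecX, PJ). Density of the `Theta s a b`: `JK s h = w`. So `PS s {ρ<|q|} ≤ TS s (xt y ρ)`. -/
def St_L8P : Prop := ∀ (s : ℝ) (y : E) (ρ : ℝ) (k : K), |s| < 1 / 2 → 0 ≤ ρ →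
  na s {z | ρ < |z.2 - inner ℝ y (z.1 : E)|} k ≤ ex s (xt y ρ) k ∧
  (Van s (xt y ρ) k → na s {z | ρ < |z.2 - inner ℝ y (z.1 : E)|} k = 0)

/-- **Gag1** (one dimensional Gagliardo formula), `0 < τ < 1/2`. Proof: Plancherel in `p` for `h(·+u) - h`, and `∫ |u|^{-1-2τ} |e^{2πi r u} - 1|² du = C |2πr|^{2τ}` (scaling, the integral
converges, `0 < 2τ < 2`). -/
def St_Gag1 : Prop := ∀ τ : ℝ, 0 < τ → τ < 1 / 2 → ∃ C : ℝ, 0 < C ∧ ∀ h : S × ℝ → ℝ, Nice univ h →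
  ∫⁻ u : ℝ, ∫⁻ z : S × ℝ, ENNReal.ofReal (|u| ^ (-1 - 2 * τ) * (h (z.1, z.2 + u) - h z) ^ 2) ∂mu =
    ENNReal.ofReal (C * ‖JK (-τ) h‖ ^ 2)

/-- **Hrd** (one dimensional fractional Hardy inequality), `0 < τ < 1/2`. Proof. `‖h‖_W² := ∫∫ |h|² |p|^{-2τ}`, finite (`2τ < 1`). For `λ ∈ [1,2]` let `h_λ(w,p) = h(w,λp)`:
`‖h_λ‖_W = λ^{-(1-2τ)/2} ‖h‖_W`, so `(1 - λ^{-(1-2τ)/2}) ‖h‖_W ≤ ‖h - h_λ‖_W`. Square and integrate over `λ ∈ [1,2]`: `c ‖h‖_W² ≤ ∫_1^2 ∫∫ |h(w,p) - h(w,λp)|² |p|^{-2τ}`; substitute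
`u = (λ-1) p`, `du = |p| dλ`, `|u| ≤ |p|`: `≤ ∫∫∫ |h(w,p) - h(w,p+u)|² |p|^{-1-2τ} 1_{|u| ≤ |p|} ≤ ∫∫∫ .. |u|^{-1-2τ}`; Gag1. -/
def St_Hrd : Prop := ∀ τ : ℝ, 0 < τ → τ < 1 / 2 → ∃ C : ℝ, 0 < C ∧ ∀ h : S × ℝ → ℝ, Nice univ h →
  ∫⁻ z : S × ℝ, ENNReal.ofReal (|z.2| ^ (-2 * τ) * h z ^ 2) ∂mu ≤ ENNReal.ofReal (C * ‖JK (-τ) h‖ ^ 2)

/-- **MulB** (bounded multiplication), `ζ` smooth, `ζ'` with compact support. Proof. Translation and dilation (PJ for `tau`; `JK s` and `dl` commute up to a factor) reduce to `R = 1`, `c = 0`. `s < 0`,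
`τ = -s`: by Gag1 for `ζh`, `|ζ(x)h(x) - ζ(y)h(y)|² ≤ 2 ‖ζ‖_∞² |h(x)-h(y)|² + 2 |h(y)|² |ζ(x)-ζ(y)|²` and `∫ |ζ(x)-ζ(y)|² |x-y|^{-1-2τ} dx ≤ C |y|^{-2τ}` (`ζ' = 0` off `[-L,L]`: for `|y| ≥ 2L` the integrand vanishes unless
`|x-y| ≥ |y|/2`; for `|y| < 2L` bound by `min(C|x-y|², C)`), then Hrd. `s = 0`: trivial. `s > 0`: duality, `⟨JK s (ζh), JK (-s) h'⟩ = ∫ ζ h h' = ⟨JK s h, JK (-s) (ζh')⟩` (PJ), and the `JK (-s) h'` are dense (DnsP). -/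
def St_MulB : Prop := ∀ (s : ℝ) (ζ : ℝ → ℝ), |s| < 1 / 2 → Sm ζ → HasCompactSupport (deriv ζ) →
  ∃ C : ℝ, 0 < C ∧ ∀ (R c : ℝ) (h : S × ℝ → ℝ), 0 < R → Nice univ h →
    ‖JK s (fun z => ζ ((z.2 - c) / R) * h z)‖ ≤ C * ‖JK s h‖

/-- **MulP** (the multiplication operators). Proof: by MulB `JK s h ↦ JK s (ζh)` is well defined and bounded on a dense subspace (DnsP: `PS s univ = ⊤`; linear by PJ), extend it to a bounded operator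
`T` and let `M = T*` (adjoint); uniqueness of `M` by density, so `Mul s ζ` has `IsMul`. Bound by `na`: `k' = proj_{PS s A} k`, `⟨Mul s ζ (k - k'), JK s h⟩ = ⟨k - k', JK s (ζh)⟩ = 0` since `ζh` is nice with support in
`A`; so `Mul s ζ k = Mul s ζ k'`. `tau`: PJ. Linear in `ζ`: uniqueness. -/
def St_MulP : Prop := ∀ (s : ℝ) (ζ : ℝ → ℝ), |s| < 1 / 2 → Sm ζ → HasCompactSupport (deriv ζ) →
  (∃ C : ℝ, 0 < C ∧ ∀ (R c : ℝ), 0 < R → IsMul s (fun p => ζ ((p - c) / R)) (Mul s (fun p => ζ ((p - c) / R))) ∧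
    ∀ (k : K), ‖Mul s (fun p => ζ ((p - c) / R)) k‖ ≤ C * ‖k‖ ∧
      ∀ A : Set (S × ℝ), closure {z : S × ℝ | ζ ((z.2 - c) / R) ≠ 0} ⊆ A →
        ‖Mul s (fun p => ζ ((p - c) / R)) k‖ ≤ C * na s A k) ∧
  IsMul s ζ (Mul s ζ) ∧
  (∀ (t : ℝ) (k : K), Mul s ζ (tau t k) = tau t (Mul s (fun p => ζ (p + t)) k)) ∧
  (∀ k : K, Mul s (fun p => 1 - ζ p) k = k - Mul s ζ k) ∧
  (∀ k : K, Mul s (fun _ => 1) k = k) ∧
  ∀ ζ' : ℝ → ℝ, Sm ζ' → HasCompactSupport (deriv ζ') → ∀ k : K,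
    Mul s (fun p => ζ p + ζ' p) k = Mul s ζ k + Mul s ζ' k

/-- **CutM** (multiplication by a test function in `Ḣ^a`, `0 ≤ a < 5/2`). Proof: `ft (χf) = ft χ * ft f` (convolution), `|ξ|^a ≤ C (|ξ-η|^a + |η|^a)`. With `G = |η|^a |f^| ∈ L²`, `‖G‖² ≤ hs a f`:
`(|·|^a |χ^|) * |f^|`: `|f^| = |η|^{-a} G`, on `|η| ≤ 1` in `L¹` with norm `≤ C ‖G‖_2` (`2a < 5`), on `|η| > 1` in `L²`; `|·|^a |χ^| ∈ L¹ ∩ L²`; Young. `|χ^| * G`: Young. Scaling (Hs) makes the constant for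
`χ(·/M)` independent of `M`. -/
def St_CutM : Prop := ∀ (a : ℝ) (χ : E → ℝ), 0 ≤ a → a < 5 / 2 → IsTest χ → ∃ C : ℝ, 0 < C ∧
  ∀ (M : ℝ) (f : E → ℝ), 0 < M → IsSch f → hs a (fun x => χ (M⁻¹ • x) * f x) ≤ C * hs a f

/-- **CutP** (cut-off operators). Proof: `χ` smooth, `= 1` on `B(0,1)`, `= 0` off `B(0,2)`. `Theta s f g ↦ Theta s (χ_M f) (χ_M g)`, `χ_M = χ(·/(M+1))`, is bounded uniformly in `M` (CutM with `a = 2+s`, `1+s`; IsoP) on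
the dense space of test states (well defined: `Theta s` is injective, FldP), and equals the identity on a given test state for large `M`. `Van`: fields (ExBP). -/
def St_CutP : Prop := ∀ s : ℝ, |s| < 1 / 2 → ∃ (C : ℝ) (X : ℕ → K →L[ℝ] K),
  (∀ (M : ℕ) (k : K), ‖X M k‖ ≤ C * ‖k‖) ∧
  (∀ (M : ℕ) (k : K), Van s (xt 0 (2 * (M : ℝ) + 2)) (X M k)) ∧
  (∀ (M : ℕ) (k : K) (Ω : Set E), IsOpen Ω → Van s Ω k → Van s Ω (X M k)) ∧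
  (∀ k : K, Tendsto (fun M => X M k) atTop (𝓝 k)) ∧
  (∀ M : ℕ, ∃ χ : E → ℝ, IsTest χ ∧ (∀ x, 0 ≤ χ x ∧ χ x ≤ 1) ∧ (∀ x, ‖x‖ ≤ M + 1 → χ x = 1) ∧
    ∀ k : K, (U s (X M k) =ᵐ[volume] fun x => χ x * U s k x) ∧ (V s (X M k) =ᵐ[volume] fun x => χ x * V s k x))

/-! ### Free evolution -/

/-- **FreeP**. Proof: QWE.Free and Tr. -/
def St_FreeP : Prop := ∀ (s : ℝ) (f g : E → ℝ) (t : ℝ), |s| < 1 / 2 → IsTest f → IsTest g →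
  (∃ f' g' : E → ℝ, IsTest f' ∧ IsTest g' ∧ tau t (Theta s f g) = Theta s f' g' ∧
    ∀ x, (∀ y, dist y x ≤ |t| → f y = 0 ∧ g y = 0) → f' x = 0 ∧ g' x = 0) ∧
  (∃ f1 f2 : E → ℝ, IsTest f1 ∧ IsTest f2 ∧ tau t (Rs s f) = Rs s f1 + dRs s f2 ∧
    ∀ x, (∀ y, dist y x ≤ |t| → f y = 0) → f1 x = 0 ∧ f2 x = 0) ∧
  (∃ f1 f2 : E → ℝ, IsTest f1 ∧ IsTest f2 ∧ tau t (dRs s f) = Rs s f1 + dRs s f2 ∧
    ∀ x, (∀ y, dist y x ≤ |t| → f y = 0) → f1 x = 0 ∧ f2 x = 0)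

/-- **FSPP** (finite speed of propagation). Proof as QWE.FSP with FreeP. -/
def St_FSPP : Prop := ∀ (s : ℝ) (Ω : Set E) (t : ℝ) (k : K), |s| < 1 / 2 → IsOpen Ω →
  (Van s Ω k → Van s (shr Ω |t|) (tau t k)) ∧ ex s (shr Ω |t|) (tau t k) ≤ ex s Ω k

/-- **DecayP** (decay of test states, derivatives up to order 3). Proof as QWE.Decay: the functions `f', g'` are `∫_S k(w, x·w - t) dw`, `- ∫_S ∂_p k(w, x·w - t) dw` with `k = c0 (Rad(ΔΔf) - dRad(Δg))` smooth in `p`; every derivative in `x`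
gives a factor `w_i` and one more `∂_p`. Then Tr. (`f', g'` do not depend on `s`.) -/
def St_DecayP : Prop := ∀ f g : E → ℝ, IsTest f → IsTest g → ∃ C M0 : ℝ, 0 < C ∧ 1 ≤ M0 ∧
  ∀ t : ℝ, ∃ f' g' : E → ℝ, IsTest f' ∧ IsTest g' ∧ (∀ s : ℝ, |s| < 1 / 2 → tau t (Theta s f g) = Theta s f' g') ∧
    (∀ x, M0 ≤ abs (‖x‖ - |t|) → f' x = 0 ∧ g' x = 0) ∧
    ∀ x, ∀ n ≤ 3, ‖iteratedFDeriv ℝ n f' x‖ ≤ C / (1 + t ^ 2) ∧ ‖iteratedFDeriv ℝ n g' x‖ ≤ C / (1 + t ^ 2)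

/-- **D1P** (a free wave leaves every half space that moves with speed one). Proof as QWE.D1: `k = Theta s f g`, `W = Theta s (χ1 f') (χ1 g')`, `‖W‖² = c0 (hs (2+s) .. + hs (1+s) ..)`, and by Hs (interpolation with `n = 3`)
both are bounded by products of `L²` norms of derivatives of order `0` and `3`, all `≤ C t^{-2} vol^{1/2} ≤ C t^{-2} t`. -/
def St_D1P : Prop := ∀ (s : ℝ) (k : K) (e : E) (c : ℝ), |s| < 1 / 2 → ‖e‖ = 1 →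
  Tendsto (fun t : ℝ => ex s (half e (c + t)) (tau t k)) atTop (𝓝 0)

/-! ### Fractional differences and sources -/

/-- **GagP** (Gagliardo formula on `ℝ⁵`), `0 < a < 1`. Proof: Plancherel for `Dh h f`, Tonelli, `∫ |h|^{-5-2a} |e^{2πi h·ξ} - 1|² dh = C (2π|ξ|)^{2a}` (rotation and scaling). -/
def St_GagP : Prop := ∀ a : ℝ, 0 < a → a < 1 → ∃ C : ℝ, 0 < C ∧ ∀ f : E → ℝ, IsSch f →
  gag a 2 f ^ 2 = ENNReal.ofReal (C * hs a f)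

/-- **GagD** (duality, order `a ∈ (0,1)`). Proof. (1) `ft φ ∈ C_c^∞(E∖0)`: let `ψ` be Schwartz with `ft ψ = (2π|ξ|)^{-2a} ft φ`; then `φ(x) = C ∫ |h|^{-5-2a} (2ψ(x) - ψ(x+h) - ψ(x-h)) dh` (Fourier transform, `∫ |h|^{-5-2a} (2 - 2 cos 2πh·ξ) dh = C' (2π|ξ|)^{2a}`). The second difference
is `O(min(1,|h|²))` in `L^{m'}`, so Fubini applies and `∫ F φ = C ∫ |h|^{-5-2a} ∫ Dh h F · Dh h ψ dx dh` (substitution in `x`) `≤ C gag a 2 F · gag a 2 ψ`, `gag a 2 ψ ^ 2 = C hs a ψ = C hs (-a) φ` (GagP). (2) General Schwartz `φ`: `ft φ_n = κ_n ft φ`,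
`κ_n = χ(ξ/n)(1 - χ(nξ))`; `φ_n → φ` in `L^{m'}` (`m' > 1`; the low frequency part is the convolution with `n^{-5} χˇ(·/n)`, whose `L^{m'}` norm tends to `0`), `hs (-a) φ_n → hs (-a) φ`. -/
def St_GagD : Prop := ∀ a : ℝ, 0 < a → a < 1 → ∃ C : ℝ, 0 < C ∧ ∀ (F : E → ℝ) (m : ℝ) (φ : E → ℝ), 1 ≤ m →
  MemLp F (ENNReal.ofReal m) volume → gag a 2 F < ⊤ → IsSch φ →
  ENNReal.ofReal |∫ x, F x * φ x| ≤ ENNReal.ofReal C * gag a 2 F * ENNReal.ofReal ((hs (-a) φ) ^ (1 / 2 : ℝ))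

/-- **GagE** (duality, order `1 + a ∈ [1, 2)`). Proof. For `ft φ ∈ C_c^∞(E∖0)` put `ft φ_i = 2πi ξ_i (2π|ξ|)^{-2} ft φ`: `φ = - Σ ∂_i φ_i`, `∫ F φ = Σ ∫ G_i φ_i` (the weak derivative tested with Schwartz functions: cut off), `hs (-a) φ_i ≤ hs (-1-a) φ`. `a > 0`: GagD for `G_i`;
`a = 0`: Cauchy-Schwarz with `hs 0 φ_i = ‖φ_i‖_2²`. General `φ`: approximation as in GagD. -/
def St_GagE : Prop := ∀ a : ℝ, 0 ≤ a → a < 1 → ∃ C : ℝ, 0 < C ∧ ∀ (F : E → ℝ) (G : Fin 5 → E → ℝ) (m m1 : ℝ) (φ : E → ℝ),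
  1 ≤ m → 1 ≤ m1 → MemLp F (ENNReal.ofReal m) volume → (∀ i, MemLp (G i) (ENNReal.ofReal m1) volume ∧ WD i F (G i)) →
  IsSch φ →
  ENNReal.ofReal |∫ x, F x * φ x| ≤ ENNReal.ofReal C *
    (if a = 0 then ∑ i, eLpNorm (G i) 2 volume else ∑ i, gag a 2 (G i)) * ENNReal.ofReal ((hs (-1 - a) φ) ^ (1 / 2 : ℝ))

/-- **GamP** (sources). Proof: the functional `dRs s φ ↦ ∫ F φ` on the span of the `dRs s φ`, `φ` test, is well defined and bounded by `B √c0` (IsoP: `hs (-1-s) φ = c0 ‖dRs s φ‖²`); the Riesz representative `w` in the closure is orthogonal to all `Rs s φ` (IsoP), `‖w‖ ≤ B √c0`. Uniqueness by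
DnsP. Fields: test functions (`U s w = 0`, `V s w = F` a.e. for locally integrable `F`). -/
def St_GamP : Prop := ∀ (s : ℝ) (F : E → ℝ) (B : ℝ), |s| < 1 / 2 → 0 ≤ B → LocallyIntegrable F volume →
  (∀ φ, IsTest φ → |∫ x, F x * φ x| ≤ B * (hs (-1 - s) φ) ^ (1 / 2 : ℝ)) →
  IsGam s F (Gam s F) ∧ ‖Gam s F‖ ≤ √c0 * B ∧ (U s (Gam s F) =ᵐ[volume] 0) ∧ (V s (Gam s F) =ᵐ[volume] F) ∧
  ∀ w, IsGam s F w → w = Gam s F

/-- **XP** (fractional differences of the fields). Proof: test states: Gagliardo-Nirenberg-Sobolev `‖Dh h f‖_{10/3} ≤ C Σ ‖Dh h (∂_i f)‖_2`, GagP, Hs: for `s < 0`, `Σ hs (1+s) (∂_i f) = hs (2+s) f ≤ ‖k‖²/c0`; for `s > 0` the same for `∂_i f`, and `‖Dh h f‖` with one more derivative. General `k`: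
approximation by test states, a subsequence of `f_n` (`∂_i f_n`) converges a.e., so do the differences; Fatou in `x` and `h`. -/
def St_XP : Prop := ∀ s : ℝ, |s| < 1 / 2 → ∃ C : ℝ, 0 < C ∧ ∀ k : K,
  (s < 0 → gag (1 + s) (10 / 3) (U s k) ≤ ENNReal.ofReal C * ‖k‖ₑ ∧
    (∀ i, gag (1 + s) 2 (DU s k i) ≤ ENNReal.ofReal C * ‖k‖ₑ) ∧ gag (1 + s) 2 (V s k) ≤ ENNReal.ofReal C * ‖k‖ₑ) ∧
  (0 < s → ∀ i, gag s (10 / 3) (DU s k i) ≤ ENNReal.ofReal C * ‖k‖ₑ)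

/-! ### Strichartz estimates -/

/-- **HLSP** (Hardy-Littlewood-Sobolev on the line), `0 < γ < 1`, `p = 2/(2-γ)`. Proof as QWE.HLS (Lieb-Loss 4.3). -/
def St_HLSP : Prop := ∀ γ : ℝ, 0 < γ → γ < 1 → ∃ C : ℝ, 0 < C ∧ ∀ f g : ℝ → ℝ≥0∞, Measurable f → Measurable g →
  ∫⁻ x, ∫⁻ t, f x * g t * ENNReal.ofReal (|x - t| ^ (-γ)) ≤
    ENNReal.ofReal C * (∫⁻ x, f x ^ (2 / (2 - γ))) ^ ((2 - γ) / 2) * (∫⁻ x, g x ^ (2 / (2 - γ))) ^ ((2 - γ) / 2)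

/-- **Rsz** (one dimensional formulas), `0 < α < 1`. `G : ℝ → ℂ` continuous, rapidly decreasing, `A(t) = ∫ e^{-2πi r t} G(r) dr` with compact support. Proof. `A` is bounded and Lipschitz. (i)
`∫ (1 - e^{-2πi r u}) |u|^{-1-α} du = c |2πr|^α` (absolutely convergent; real part `1 - cos`, scaling, `c > 0`; the imaginary part is odd) and Fubini with `t' = t + u`. (ii) `|2πr|^{-α} = c1 ∫_0^∞ λ^{α/2-1} e^{-λ(2πr)²} dλ`,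
`|u|^{α-1} = c2 ∫_0^∞ λ^{α/2-1} (4πλ)^{-1/2} e^{-u²/4λ} dλ`, the Fourier transform of Gaussians and Fubini (`|r|^{-α} G` is integrable, `A` is bounded with compact support). -/
def St_Rsz : Prop := ∀ α : ℝ, 0 < α → α < 1 → ∃ C1 C2 : ℝ, 0 < C1 ∧ 0 < C2 ∧ ∀ (G A : ℝ → ℂ), Continuous G →
  (∀ N : ℕ, ∃ B : ℝ, ∀ r, ‖G r‖ ≤ B / (1 + |r|) ^ N) →
  (∀ t, A t = ∫ r : ℝ, Complex.exp (-2 * Real.pi * Complex.I * ((r * t : ℝ) : ℂ)) * G r) → HasCompactSupport A →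
  ∀ t, (∫ r : ℝ, ((|2 * Real.pi * r| ^ α : ℝ) : ℂ) * Complex.exp (-2 * Real.pi * Complex.I * ((r * t : ℝ) : ℂ)) * G r =
      C1 * ∫ t', (A t - A t') * ((|t - t'| ^ (-1 - α) : ℝ) : ℂ)) ∧
    (∫ r : ℝ, ((|2 * Real.pi * r| ^ (-α) : ℝ) : ℂ) * Complex.exp (-2 * Real.pi * Complex.I * ((r * t : ℝ) : ℂ)) * G r =
      C2 * ∫ t', A t' * ((|t - t'| ^ (α - 1) : ℝ) : ℂ))

end Pool.Agent.QWP
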