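import Pool.Agent.QWP.DefsG
import Pool.Agent.QWP.StM
import Pool.Agent.QWP.StB
import Pool.Agent.QWE.StG

set_option autoImplicit false

/-!
# QWP, block G: Part II, compactness, all `b > 2`

Port of `Pool.Agent.QWE` block G (`QWE/StG.lean`; all modules are proved there). Every `St_X` is to be proved as `theorem thm_X : St_X`
(with other statements as hypotheses) in `Pool/Agent/QWP/X.lean`. `s = sig b = 1/2 - 2/b`, `|s| < 1/2`; `u = U s k ∈ L^{q0}`, `q0 = 5b/2`;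
`∇u ∈ L^{q1}`, `1/q1 = (b+2)/(5b)`; `D²u ∈ L^{q2}`, `1/q2 = (2b+2)/(5b)` (`b > 4`); `1/p2 = (3b+2)/(5b)`. `SN b` is the `b`-TH power of the norm of `L^b L^{5b}`.
`Theta (-s) f g = c0 (Rs s (ΔΔf) - dRs s (Δg))`, so `⟨NL b k, Theta (-s) f g⟩ = - c0 ∫ F(u) Δg` (NLw): the states `Theta (-s) f g` are used as test states for
the nonlinearity, `tau` acts on `f, g` as on `Theta s f g`. The statements `WkS`, `WkC` of `QWE/StG.lean` and `GrA`, `G0`, `GBd`, `GLim`, `Grp1`, `Grp2`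
of QWE are about `K`, `gr`, `tau` only and are used as they are. Parameters of scale are called `l` (in QWE also `b`).
-/

open MeasureTheory Filter Topology Set
open scoped ENNReal NNReal RealInnerProductSpace

namespace Pool.Agent.QWP

open Pool.Agent.QWE (E S sg mu K toK tau sh dl rev gr ig IsTest pd lap Rad dRad Rk dRk c0 WD Sm SmE IsSch half shr WTo resc)

/-! ### Bubbles -/

/-- **RSobK** (refined Sobolev inequality on `K`). Proof as QWE.RSob, from RSob with `a = 2 + s` (`10/(5-2a) = 10/(1-2s) = q0`), ActP, FldP, DnsP, IsoP. With `l = e^a'`: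
`U s (ig y a' k) z = l^{-(1/2-s)} U s k (y + z/l)` a.e., so `⟨ig y a' k, Rs s ψ⟩ = l^{-(1/2-s)} ∫ U s k (y + z/l) ψ(z) dz` (FldP for the Schwartz function `ψ`), and `(5-2a)/2 = 1/2 - s`. Test states `Theta s f_n g_n → k`:
`B_n = B + ‖k - Theta s f_n g_n‖ ‖Rs s ψ‖`, `c0 hs (2+s) f_n ≤ ‖Theta s f_n g_n‖²` (IsoP). `4a/((5-2a) q0) = 2(2+s)/5 = 1 - (1-2s)/5`, `2/q0 = (1-2s)/5`. -/
def St_RSobK : Prop := ∀ (s : ℝ) (ψ : E → ℝ), |s| < 1 / 2 → IsPsi ψ → ∃ C : ℝ, 0 < C ∧ ∀ (k : K) (B : ℝ), 0 ≤ B →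
  (∀ (y : E) (l : ℝ), |inner ℝ (ig y l k) (Rs s ψ)| ≤ B) →
  eLpNorm (U s k) (q0 s) volume ≤
    ENNReal.ofReal (C * B ^ (1 - (1 - 2 * s) / 5) * ‖k‖ ^ ((1 - 2 * s) / 5))

/-- **PsiNZP** (the bubble functionals separate points). Proof as QWE.PsiNZ, with `l^{-(1/2-s)}`, `l^{-(3/2-s)}` and `φ * ψ_l → φ` in the dual exponents of `q0`, `q1`;
FldP, ActP, DnsP. -/
def St_PsiNZP : Prop := ∀ (s : ℝ) (ψ : E → ℝ), |s| < 1 / 2 → IsPsi ψ → ∀ k : K,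
  (∀ (y : E) (l : ℝ), inner ℝ (ig y l k) (Rs s ψ) = 0 ∧ inner ℝ (ig y l k) (dRs s ψ) = 0) → k = 0

/-- **G2** (concentration). Hypotheses RSobK, StrS, DuhI, NLb, Meas, FldP. Proof as QWE.G2 with the second pair `(b+2)/2`, `r' = 5b(b+2)/4`: `1/(5b) = θ/q0 + (1-θ)/r'`, `θ = (b-2)/(2b)`, so
`‖u‖_{5b}^b ≤ ‖u‖_{q0}^{(b-2)/2} ‖u‖_{r'}^{(b+2)/2}` (Lyapunov), `∫_{t0}^{t1} ‖U (k t)‖_{r'}^{(b+2)/2} ≤ C_A` (StrS, DuhI, Minkowski), so `1 = SN ≤ sup_t ‖U (k t)‖_{q0}^{(b-2)/2} C_A`, `b > 2`; RSobK. -/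
def St_G2 : Prop := ∀ b : ℝ, 2 < b → ∀ ψ : E → ℝ, IsPsi ψ → ∀ A : ℝ, ∃ c : ℝ, 0 < c ∧
  ∀ (t0 t1 : ℝ) (k : ℝ → K), IsSol b (Icc t0 t1) k → (∀ t ∈ Icc t0 t1, ‖k t‖ ≤ A) → SN b (Icc t0 t1) k = 1 →
  ∃ t ∈ Icc t0 t1, ∃ (y : E) (l : ℝ), c ≤ |inner ℝ (ig y l (k t)) (Rs (sig b) ψ)|

/-! ### Test states of second order -/

/-- **Dns2** (density). Proof. Let `k ⊥` all `Theta s (Δf) (Δg)`, `u = U (-s) k`, `v = V (-s) k` (`Theta s f g = c0 (Rs (-s) (ΔΔf) - dRs (-s) (Δg))`, FldP with `-s`): `∫ u Δ³f = 0`, `∫ v Δ²g = 0` for all test functions `f, g`, hence for all Schwartz functions: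
`Δ³((1 - χ_m) f) → 0` in `L^p`, `p > 1` (`χ_m = χ(·/m)`; the derivatives of `(1-χ_m) f` are `≤ C_N 1_{|x| ≥ m} (1+|x|)^{-N}`, norm_iteratedFDeriv_mul_le). If `ft φ ∈ C_c^∞(E∖0)` then `φ = Δ³f = Δ²g` with Schwartz `f, g` (FtI, Ft), so
`⟨k, Rs (-s) φ⟩ = ∫ u φ = 0`, `⟨k, dRs (-s) φ⟩ = 0` (FldP for Schwartz functions); Dns0 (with `-s`): `k = 0`. (`IsSch` functions with the same `ft` are equal: Ft, Parseval.) -/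
def St_Dns2 : Prop := ∀ s : ℝ, |s| < 1 / 2 → ∀ (k : K) (ε : ℝ), 0 < ε → ∃ f g : E → ℝ, IsTest f ∧ IsTest g ∧
  ‖k - Theta s (lap f) (lap g)‖ < ε

/-- **Dcy2** (decay). Proof. `f', g'` from DecayP for `f, g`. Claim: `tau t (Theta s (Δf) (Δg)) = Theta s (Δf') (Δg')`. Compare the fields: for a test function `φ` let `f1, f2` be from FreX for `φ` and `-t` (`tau (-t) (Rs s φ) = Rs s f1 + dRs s f2`, and
`tau (-t) (Rs s (Δφ)) = Rs s (Δf1) + dRs s (Δf2)` by the third identity of FreX and Tr). `⟨tau t (Theta s (Δf) (Δg)), Rs s φ⟩ = ∫ Δf f1 + ∫ Δg f2 = ∫ f Δf1 + ∫ g Δf2 = ⟨tau t (Theta s f g), Rs s (Δφ)⟩ = ∫ f' Δφ = ∫ Δf' φ` (FldP); the same with `dRs s φ` (second identity of FreX, and the fourth for `Δφ`).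
The span of the `Rs s φ`, `dRs s φ` is dense (DnsP). -/
def St_Dcy2 : Prop := ∀ f g : E → ℝ, IsTest f → IsTest g → ∃ C M0 : ℝ, 0 < C ∧ 1 ≤ M0 ∧
  ∀ t : ℝ, ∃ f' g' : E → ℝ, IsTest f' ∧ IsTest g' ∧
    (∀ s : ℝ, |s| < 1 / 2 → tau t (Theta s (lap f) (lap g)) = Theta s (lap f') (lap g')) ∧
    (∀ x, M0 ≤ abs (‖x‖ - |t|) → f' x = 0 ∧ g' x = 0) ∧
    ∀ x, ∀ n ≤ 3, ‖iteratedFDeriv ℝ n f' x‖ ≤ C / (1 + t ^ 2) ∧ ‖iteratedFDeriv ℝ n g' x‖ ≤ C / (1 + t ^ 2)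

/-! ### Local compactness, weak continuity -/

/-- **MolD** (mollification error for second derivatives, `0 < s`). Proof as MolP: `D² u` is in `Ḣ^s`, `|1 - ρ^(η)| ≤ C |η|^s`; FldD. -/
def St_MolD : Prop := ∀ (s : ℝ) (ρ : E → ℝ), 0 < s → s < 1 / 2 → IsTest ρ → ∫ x, ρ x = 1 → (∀ x, ρ (-x) = ρ x) →
  ∃ C : ℝ, 0 < C ∧ ∀ (k : K) (ε : ℝ) (i j : Fin 5), 0 < ε →
  eLpNorm (fun x => DDU s k i j x - ∫ y, ρ y * DDU s k i j (x - ε • y)) 2 volume ≤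
    ENNReal.ofReal (C * ε ^ s) * ‖k‖ₑ

/-- **G4d** (local compactness of second derivatives, `0 < s`). Proof as WkP, with MolD, FldD: `(ρ_ε * DDU s (k n) i j)(x) = ⟨k n, Rs s (∂_j ∂_i [ρ_ε(x - ·)])⟩ → 0` for every `x`, bounded on the ball. -/
def St_G4d : Prop := ∀ (s : ℝ) (k : ℕ → K) (M : ℝ), 0 < s → s < 1 / 2 → WTo k 0 → ∀ i j,
  Tendsto (fun n => eLpNorm ((Metric.ball (0 : E) M).indicator (DDU s (k n) i j)) 2 volume) atTop (𝓝 0)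

/-- **NLc** (weak continuity of the nonlinearity). Hypotheses WkP, NLw, FldP, LscP, DecayP, QWE.WkS. Proof as QWE.NLc. First: `U (k n) → U k'` in `L²(B)` (WkP for `k n - k'`), a.e. along a subsequence; Fatou. Second: NLw, `⟨NL b k, Theta (-s) f g⟩ = - c0 ∫ F(u) Δg`;
`|F(u_n) - F(u)| ≤ C |u_n - u| (|u_n| + |u|)^b`, `(|u_n| + |u|)^b` is bounded in `L^{5/2}` and `u_n → u` in `L^{5/3}(B)`. Third: `tau r (Theta (-s) f g) = Theta (-s) f' g'`, `|Δg'| ≤ C`, supported in a fixed ball for `|r| ≤ M` (DecayP), `∫_B |u|^{b+1} ≤ C ‖u‖_{q0}^{b+1}` (`b + 1 ≤ 5b/2`). -/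
def St_NLc : Prop := ∀ b : ℝ, 2 < b →
  (∀ (k : ℕ → K) (k' : K), WTo k k' → sn b k' ≤ liminf (fun n => sn b (k n)) atTop) ∧
  (∀ (k : ℕ → K) (k' : K) (f g : E → ℝ), IsTest f → IsTest g → WTo k k' → (∀ n, sn b (k n) < ⊤) → sn b k' < ⊤ →
    Tendsto (fun n => inner ℝ (NL b (k n)) (Theta (-sig b) f g)) atTop
      (𝓝 (inner ℝ (NL b k') (Theta (-sig b) f g)))) ∧
  (∀ (f g : E → ℝ) (M : ℝ), IsTest f → IsTest g → ∃ C : ℝ, 0 < C ∧ ∀ (r : ℝ) (k : K), |r| ≤ M → sn b k < ⊤ →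
    |inner ℝ (NL b k) (tau r (Theta (-sig b) f g))| ≤ C * ‖k‖ ^ (b + 1))

/-- **G5** (weak nullity for bounded times). Hypotheses QWE.WkS, QWE.WkC, NLc, NLb, Meas, Uniq, DuhI, FreeP, DnsP (with `-s`), QWE.Grp1. Proof as QWE.G5 with the dense class `Theta (-s) f g`. -/
def St_G5 : Prop := ∀ b : ℝ, 2 < b → ∀ (A M : ℝ) (T : ℕ → ℝ) (β : ℕ → ℝ → K), BetaSeq b A M T β →
  ∀ t : ℝ, 0 ≤ t → WTo (fun n => if t ≤ T n then β n t else 0) 0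

/-- **G6** (shell estimate). Hypotheses DnsP, FldP. Proof as QWE.G6 (power `8 = 2·4` becomes `2b`): `f` test: `|f(ρ ω)|^{2b} ≤ 2b ∫_ρ^∞ |f|^{2b-1} |∂_r f| dr`,
`ρ⁴ ∫_S |f(ρ ω)|^{2b} dω ≤ 2b ∫ |f|^{2b-1} |∇f| ≤ 2b ‖f‖_{q0}^{2b-1} ‖∇f‖_{q1}` (`(2b-1) 2/(5b) + (b+2)/(5b) = 1`); integrate over the shell; density, Fatou. -/
def St_G6 : Prop := ∀ b : ℝ, 2 < b → ∃ C : ℝ, 0 < C ∧ ∀ (k : K) (r M : ℝ), 0 ≤ M →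
  ∫⁻ x in {x : E | |‖x‖ - r| ≤ M}, ‖U (sig b) k x‖ₑ ^ (2 * b) ≤ ENNReal.ofReal (C * M) * ‖k‖ₑ ^ (2 * b)

/-- **G7a** (pairing with a function supported in a shell, test functions). Hypotheses G6, FldP, FldD, Npq. Proof. `u = f`, `k = Theta s f g`, `Sh` = shell, `|Sh| ≤ C r⁴`. `b ≤ 4`: `∫ F(u) ΔΔφ = - (b+1) Σ ∫ |u|^b ∂_i u ∂_i Δφ` (`F ∈ C¹`), Hoelder with
`b/(2b) + 1/q1 + 1/z = 1`, `1/z = (3b-4)/(10b)`: `≤ C ‖u‖_{L^{2b}(Sh)}^b ‖k‖ H |Sh|^{1/z}`, `4/z = 6/5 - 8/(5b) ≤ 4/5`. `b > 4`: `∫ F(u) ΔΔφ = ∫ Δ(F(u)) Δφ` (`F ∈ C²`), `Δ(F(u)) = (b+1) |u|^b Δu + (b+1) b |u|^{b-2} u |∇u|²`; Hoelder with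
`b/(2b) + 1/q2 + 1/z = 1`, `1/z = (b-4)/(10b)`, and `(b-1)/(2b) + 2/q1 + 1/z' = 1`, `1/z' = (b-3)/(10b)`; `4/z, 4/z' ≤ 2/5`; `‖u‖_{L^{2b}(Sh)} ≤ C ‖k‖` (G6), `‖D²u‖_{q2} ≤ C ‖k‖` (FldD). `r ≥ 1`. -/
def St_G7a : Prop := ∀ b : ℝ, 2 < b → ∀ M0 : ℝ, 1 ≤ M0 → ∃ C : ℝ, 0 < C ∧ ∀ (f g φ : E → ℝ) (r H : ℝ), IsTest f → IsTest g →
  IsTest φ → 1 ≤ r → 0 ≤ H → (∀ x, M0 ≤ abs (‖x‖ - r) → φ x = 0) →
  (∀ x, ∀ n ≤ 3, ‖iteratedFDeriv ℝ n φ x‖ ≤ H) →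
  |∫ x, Fn b (f x) * lap (lap φ) x| ≤ C * H * r ^ (4 / 5 : ℝ) * ‖Theta (sig b) f g‖ ^ (b + 1)

/-- **G7** (decay of the pairing, pointwise in time). Hypotheses G7a, Dcy2, NLw, DnsP. Proof: `tau r (Theta (-s) (Δf) (Δg)) = Theta (-s) (Δf') (Δg')` (Dcy2), so by NLw the pairing is `- c0 ∫ F(u) ΔΔg'`. Both sides of `|∫ F(U k) ΔΔg'| ≤ C r^{-6/5} ‖k‖^{b+1}` are continuous in `k ∈ K`
(NLw), so it is enough to prove it for `k = Theta s f1 g1` (DnsP), where `U k = f1` a.e.: G7a with `φ = g'`, `H = C/(1+r²)`. -/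
def St_G7 : Prop := ∀ b : ℝ, 2 < b → ∀ f g : E → ℝ, IsTest f → IsTest g → ∃ C : ℝ, 0 < C ∧ ∀ (k : K) (r : ℝ), 1 ≤ r →
  sn b k < ⊤ →
  |inner ℝ (NL b k) (tau r (Theta (-sig b) (lap f) (lap g)))| ≤ C * r ^ (-(6 / 5 : ℝ)) * ‖k‖ ^ (b + 1)

/-- **G8** (weak nullity for all times, interaction picture). Hypotheses G5, G7, NLc, NLb, Meas, Dns2, FreeP, QWE.Grp1. Proof as QWE.G8 with the dense class `Theta (-s) (Δf) (Δg)` (Dns2). -/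
def St_G8 : Prop := ∀ b : ℝ, 2 < b → ∀ (A M : ℝ) (T t : ℕ → ℝ) (β : ℕ → ℝ → K) (C1 : Set K) (c : ℕ → K),
  BetaSeq b A M T β → (∀ n, t n ∈ Icc 0 (T n)) → IsCompact C1 → (∀ n, c n ∈ C1) →
  Tendsto (fun n => inner ℝ (tau (-(t n)) (β n (t n))) (c n)) atTop (𝓝 0)

/-! ### Interaction -/

/-- **LocC** (the local size). Proof. Hoelder on the ball: `L^{q0}, L^{q1}, L^{q2} ⊆ L²(ball 0 m)` (`q0, q1 ≥ 2`; `q2 > 2` for `b > 4`), FldP, FldD. Weak limits: WkP, G4d. -/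
def St_LocC : Prop := ∀ b m : ℝ, 2 < b → (∃ C : ℝ, 0 < C ∧ ∀ k k' : K, loc b m k ≤ ENNReal.ofReal C * ‖k‖ₑ ∧
    loc b m (k + k') ≤ loc b m k + loc b m k') ∧ (Continuous fun k : K => loc b m k) ∧
  ∀ k : ℕ → K, WTo k 0 → Tendsto (fun n => loc b m (k n)) atTop (𝓝 0)

/-- **G9** (local smallness). Hypotheses G5, LocC. Proof: for fixed `t`, `loc b m (if t ≤ T n then β n t else 0) → 0` (G5, LocC), bounded by `C A`; continuous in `t` on `Icc 0 (T n)`; dominated convergence on `[0,R]`. -/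
def St_G9 : Prop := ∀ b : ℝ, 2 < b → ∀ (A M m R p : ℝ) (T : ℕ → ℝ) (β : ℕ → ℝ → K), BetaSeq b A M T β → 0 < p →
  Tendsto (fun n => ∫⁻ t in Icc 0 (min R (T n)), loc b m (β n t) ^ p) atTop (𝓝 0)

/-- **G10** (dispersion). Hypotheses DecayP, DnsP, FldP, FldD, NLd. Proof: `tn` is subadditive and `≤ C ‖·‖` (NLd), so we may replace `k t` by `tau t kp` and `kp` by `Theta s f g`; `tau t (Theta s f g) = Theta s f' g'`, derivatives of `f'` bounded by `C/(1+t²)` and supported in a shell of volume `≤ C (1+t)⁴`: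
`‖∂_i f'‖_{q1} ≤ C t^{-2+4/q1}`, `4/q1 = 4/5 + 8/(5b) < 2`; `b > 4`: `‖∂_j∂_i f'‖_{q2} ≤ C t^{-2+4/q2}`, `4/q2 = 8/5 + 8/(5b) < 2`. -/
def St_G10 : Prop := ∀ b : ℝ, 2 < b → (∀ k k' : K, tn b (k + k') ≤ tn b k + tn b k') ∧
  ∀ (k : ℝ → K) (kp : K), Tendsto (fun t => tau (-t) (k t)) atTop (𝓝 kp) → Tendsto (fun t => tn b (k t)) atTop (𝓝 0)

/-- **MolK** (regularisation). Proof. `ρ` a mollifier (smooth, support in the unit ball, `≥ 0`, integral 1), `ρ_n = n⁵ρ(n·)`, `P n k = ∫ ρ_n(z) sh z k dz` (Bochner integral, strong continuity and isometry of `sh`: QWE.Grp1). `P n k → k`; `U s (P n k) = ρ_n * U s k` a.e. (test functions, ActP);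
Young: `‖ρ_n * u‖_{5b} ≤ ‖u‖_{5b}`, `‖ρ_n * u‖_{5b} ≤ ‖ρ_n‖_z ‖u‖_{q0}`, `1/z = 1 - 1/(5b)`. For `u ∈ L^{5b}`: `ρ_n * u → u` in `L^{5b}`. -/
def St_MolK : Prop := ∀ b : ℝ, 2 < b → ∃ P : ℕ → K →L[ℝ] K, (∀ k, Tendsto (fun n => P n k) atTop (𝓝 k)) ∧
  (∀ n k, ‖P n k‖ ≤ ‖k‖) ∧ (∀ n k, sn b (P n k) ≤ sn b k) ∧
  (∀ n, ∃ C : ℝ, 0 < C ∧ ∀ k, sn b (P n k) ≤ ENNReal.ofReal C * ‖k‖ₑ) ∧
  ∀ k, sn b k < ⊤ → Tendsto (fun n => sn b (k - P n k)) atTop (𝓝 0)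

/-- **ApxP** (approximation along a solution by finitely many test states). Hypotheses MolK, DenX, G10, Blow, MaxE, SnP, NLd (`tn ≤ C ‖·‖`), Meas, Uniq. Proof. If `J = Ici 0`: `tau (-t) (a t)` converges (MaxE, Blow), so by G10 `tn b (a t) ≤ ε` for `t > m`, and `∫_{t>m} sn^b ≤ ε/2` for `m` large; if `J = Icc 0 Ts` take `m = Ts`. `J ∩ Iic m = [0,m']` is compact.
`n` with `‖a t - P n (a t)‖ ≤ ε'` on `[0,m']` (compactness, `‖P n‖ ≤ 1`) and `∫_0^{m'} sn (a t - P n (a t))^b ≤ ε'` (dominated convergence, `≤ (2 sn (a t))^b`). `t ↦ P n (a t)` is continuous in `K` and `sn (P n (a t) - P n (a t')) ≤ C_n ‖a t - a t'‖`: partition `0 = t_0 < ... < t_N = m'` so fine that both differences are small for `t` in the `j`-th interval and `t' = t_j`; `P n (a t_j)` has finite `sn`: DenX gives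
`Theta s f_j g_j` close in `K` and in `sn`. `j t` = index of the interval (step function); `f_0 = g_0 = 0` for `t > m` and `t < 0`; `‖Θ‖ ≤ ‖a t‖ + ε` is trivial for `Θ = Theta s 0 0 = 0`. -/
def St_ApxP : Prop := ∀ b : ℝ, 2 < b → ∀ (J : Set ℝ) (a : ℝ → K), ASol b J a → ∀ ε : ℝ, 0 < ε →
  ∃ (m : ℝ) (N : ℕ) (j : ℝ → ℕ) (f g : ℕ → E → ℝ), 0 ≤ m ∧ Measurable j ∧ (∀ t, j t ≤ N) ∧ (∀ t, m < t → j t = 0) ∧
    (∀ i, IsTest (f i) ∧ IsTest (g i)) ∧ (∀ x, f 0 x = 0 ∧ g 0 x = 0) ∧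
    (∀ t ∈ J, ‖Theta (sig b) (f (j t)) (g (j t))‖ ≤ ‖a t‖ + ε) ∧
    (∀ t ∈ J, tn b (a t - Theta (sig b) (f (j t)) (g (j t))) ≤ ENNReal.ofReal ε) ∧
    ∫⁻ t in J, sn b (a t - Theta (sig b) (f (j t)) (g (j t))) ^ b ≤ ENNReal.ofReal ε

/-- **LocI** (interpolation on a ball, for functions). Proof: `r ≤ 2`: Hoelder on the ball (`θ = 1`); `2 < r < q`: Lyapunov between `L²` and `L^q`. -/
def St_LocI : Prop := ∀ (m r q : ℝ), 0 ≤ m → 1 ≤ r → r < q → 2 ≤ q → ∃ C θ : ℝ, 0 < C ∧ 0 < θ ∧ θ ≤ 1 ∧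
  ∀ w : E → ℝ, AEStronglyMeasurable w volume →
    eLpNorm ((Metric.ball (0 : E) m).indicator w) (ENNReal.ofReal r) volume ≤ ENNReal.ofReal C *
      eLpNorm ((Metric.ball (0 : E) m).indicator w) 2 volume ^ θ *
      eLpNorm w (ENNReal.ofReal q) volume ^ (1 - θ)

/-- **QstA** (interaction with a fixed test state, `b ≤ 4`). Hypotheses Npq, GamQ, GamP, NLg, NLd, FldP, LocI, LocC. Proof. `w = U k'`, `B = ball 0 m ⊇ supp f`, `|f|, |∇f| ≤ m`. `NL (Theta + k') - NL Theta - NL k' = Gam s (F(f+w) - F(f) - F(w))` (GamP), weak gradient (NLg)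
`(b+1) [(|f+w|^b - |f|^b) ∂_i f + (|f+w|^b - |w|^b) DU_i k']`, at most `C 1_B (|w| + |w|^b) + C 1_B (1 + |w|^{b-1}) |DU_i k'|` (Npq). In `L^{q2}` (`q2 ≤ 2`): `‖1_B w‖, ‖1_B DU_i‖ ≤ C loc`; `‖1_B |w|^b‖_{q2} = ‖1_B w‖_{b q2}^b`, `b q2 < q0`: LocI;
`‖1_B |w|^{b-1} DU_i‖_{q2} ≤ sn^{b-1} ‖1_B DU_i‖_y`, `1/y = 1/q2 - (b-1)/(5b) = 1/5 + 3/(5b) > 1/q1`: LocI. Use `loc ≤ C ‖k'‖` to make the exponents of `loc` equal. -/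
def St_QstA : Prop := ∀ b : ℝ, 2 < b → b ≤ 4 → ∀ f g : E → ℝ, IsTest f → IsTest g → ∃ C θ m N : ℝ, 0 < C ∧ 0 < θ ∧ 0 ≤ m ∧
  0 ≤ N ∧ ∀ k' : K, sn b k' < ⊤ →
  ‖NL b (Theta (sig b) f g + k') - NL b (Theta (sig b) f g) - NL b k'‖ₑ ≤
    ENNReal.ofReal C * loc b m k' ^ θ * (1 + sn b k') ^ (b - 1) * (1 + ‖k'‖ₑ) ^ N

/-- **QstB** (interaction with a fixed test state, `b > 4`). Hypotheses Npq, GamQ, GamP, NLg, NLh, NLd, GNk, FldP, FldD, LocI, LocC. Proof. As QstA; with `F'(u) = (b+1) |u|^b`, `F''(u) = (b+1) b |u|^{b-2} u` the second derivatives of `F(f+w) - F(f) - F(w)` are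
`(F'(f+w) - F'(f)) D²f + (F'(f+w) - F'(w)) D²w + (F''(f+w) - F''(f)) ∂f ∂f + F''(f+w) (∂_i f ∂_j w + ∂_j f ∂_i w) + (F''(f+w) - F''(w)) ∂_i w ∂_j w`, at most (Npq)
`C 1_B (|w| + |w|^b) + C 1_B (1 + |w|^{b-1}) |D²w| + C 1_B (1 + |w|^{b-1}) |∇w| + C 1_B (1 + |w|^{b-2}) |∇w|²`. In `L^{p2}` (`p2 < 2`): `b p2 < q0`; `‖1_B |w|^{b-1} D²w‖ ≤ sn^{b-1} ‖1_B D²w‖_y`, `1/y = 2/5 + 3/(5b) > 1/q2`: LocI; `‖1_B |w|^{b-1} ∇w‖ ≤ sn^{b-1} ‖1_B ∇w‖_y`, `1/y > 1/q1`;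
`‖1_B |∇w|²‖ = ‖1_B ∇w‖²_{2 p2}`, `2 p2 < q1`; `‖1_B |w|^{b-2} |∇w|²‖ ≤ sn^{b-2} ‖1_B ∇w‖_{q1}²`, and by LocI between `L²` and `L^{y0}`, `y0 = 10b/(2b+3) > q1`, and GNk: `‖1_B ∇w‖_{q1}² ≤ C loc^{2θ} (sn ‖k'‖)^{1-θ}`; `b - 2 + 1 - θ ≤ b - 1`. -/
def St_QstB : Prop := ∀ b : ℝ, 4 < b → ∀ f g : E → ℝ, IsTest f → IsTest g → ∃ C θ m N : ℝ, 0 < C ∧ 0 < θ ∧ 0 ≤ m ∧
  0 ≤ N ∧ ∀ k' : K, sn b k' < ⊤ →
  ‖NL b (Theta (sig b) f g + k') - NL b (Theta (sig b) f g) - NL b k'‖ₑ ≤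
    ENNReal.ofReal C * loc b m k' ^ θ * (1 + sn b k') ^ (b - 1) * (1 + ‖k'‖ₑ) ^ N

/-- **G11** (interaction vanishes). Hypotheses ApxP, QstA, QstB, NLd, G9, Gron, SnP, Meas, FldP. Proof. `‖a t‖ ≤ A'` on `J` (Gron). `ε > 0`; `m, N, j, f, g` of ApxP, `Θ = Theta s (f (j t)) (g (j t))`, `r = a t - Θ`, `‖Θ‖ ≤ A' + 1`. For a.e. `t ∈ [0, T n] ⊆ J` all `sn` are finite.
`NL (a + β) - NL a - NL β = [NL (a + β) - NL (Θ + β)] + [NL (Θ + β) - NL Θ - NL β] + [NL Θ - NL a]`. With `S = 2 (sn a + sn β + sn Θ)` the first and the third bracket are at most `C (S^{b-1} sn r + S^b tn r)` (NLd for the pairs `(a+β, Θ+β)` and `(Θ, a)`; `C` depends on `A, A'`). Hoelder in time (exponents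
`b/(b-1)`, `b`): `∫ S^{b-1} sn r ≤ (∫ S^b)^{(b-1)/b} (∫ sn r^b)^{1/b} ≤ C ε^{1/b}`, `∫ S^b tn r ≤ C ε` (`sn Θ ≤ sn a + sn r`; Minkowski or `(x+y+z)^b ≤ 3^b (x^b+y^b+z^b)`). The middle bracket is `NL β - NL 0 - NL β = 0` for `t > m` (`Θ = 0`: FldP or linearity of `Theta`; `NL b 0 = 0` by NLd); for `t ≤ m` it is at most
`Σ_{i ≤ N} C_i loc b m_i (β)^{θ_i} (1 + sn β)^{b-1} (1 + A)^{N_i}` (QstA / QstB for the finitely many test states), and its integral over `[0, min m (T n)]` tends to `0` for fixed `ε`: Hoelder, G9 with `p = b θ_i`. So the limsup is `≤ C (ε + ε^{1/b})`. -/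
def St_G11 : Prop := ∀ b : ℝ, 2 < b → ∀ (A M : ℝ) (J : Set ℝ) (a : ℝ → K) (T : ℕ → ℝ) (β : ℕ → ℝ → K), ASol b J a →
  BetaSeq b A M T β → (∀ n, T n ∈ J) →
  Tendsto (fun n => ∫⁻ t in Icc 0 (T n), ‖NL b (a t + β n t) - NL b (a t) - NL b (β n t)‖ₑ) atTop (𝓝 0)

/-- **Dec** (decoupling). Hypotheses G11, G8, Pert, Uniq, Gron, SNt, Meas, NLb, Blow, MaxE, QWE.Grp1. Proof as QWE.Dec (`1/4` becomes `1/b`). -/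
def St_Dec : Prop := ∀ b : ℝ, 2 < b → ∀ (A M : ℝ) (J : Set ℝ) (a : ℝ → K) (T t : ℕ → ℝ) (β k : ℕ → ℝ → K), ASol b J a →
  BetaSeq b A M T β → (∀ n, T n ∈ J) → (∀ n, t n ∈ Icc 0 (T n)) → (∀ n, IsSol b (Icc 0 (T n)) (k n)) →
  (∀ n, k n 0 = a 0 + β n 0) →
  Tendsto (fun n => k n (t n) - a (t n) - β n (t n)) atTop (𝓝 0) ∧
  Tendsto (fun n => (inner ℝ (a (t n)) (β n (t n)) : ℝ)) atTop (𝓝 0) ∧
  ∃ B : ℝ, ∀ᶠ n in atTop, SN b (Icc 0 (T n)) (k n) ≤ ENNReal.ofReal B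

/-! ### The compactness theorem -/

/-- **SNc** (elementary facts on solutions and `SN`). Proof as QWE.SNc. -/
def St_SNc : Prop := ∀ b : ℝ, 2 < b →
  (∀ (I I' : Set ℝ) (k : ℝ → K), IsSol b I k → I' ⊆ I → I'.OrdConnected → IsSol b I' k) ∧
  (∀ (I : Set ℝ) (k : ℝ → K) (r : ℝ≥0∞), IsSol b I k → r < SN b I k →
    ∃ s ∈ I, ∃ t ∈ I, s ≤ t ∧ r < SN b (Icc s t) k) ∧
  (∀ (I : Set ℝ) (k : ℝ → K) (s : ℝ) (r : ℝ≥0∞), IsSol b I k → s ∈ I → r < SN b (I ∩ Ici s) k →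
    ∃ t ∈ I, s ≤ t ∧ r < SN b (Icc s t) k) ∧
  (∀ (I : Set ℝ) (k : ℝ → K) (s : ℝ), IsSol b I k → s ∈ I →
    ContinuousOn (fun t => (SN b (Icc s t) k).toReal) (I ∩ Ici s) ∧
    ContinuousOn (fun t => (SN b (Icc t s) k).toReal) (I ∩ Iic s)) ∧
  (∀ (k : ℝ → K) (x y z : ℝ), x ≤ y → y ≤ z → SN b (Icc x z) k = SN b (Icc x y) k + SN b (Icc y z) k) ∧
  (∀ (I : Set ℝ) (k : ℝ → K) (s : ℝ), IsSol b I k → s ∈ I → k s = 0 → ∀ t ∈ I, k t = 0)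

/-- **ScM** (rescaled solutions). Proof as QWE.ScM. -/
def St_ScM : Prop := ∀ b : ℝ, 2 < b → ∀ (I : Set ℝ) (k : ℝ → K) (t0 : ℝ) (y : E) (l : ℝ),
  (IsSol b I k → IsSol b {t | t0 + t * Real.exp (-l) ∈ I} (resc k t0 y l)) ∧
  (IsMax b I k → IsMax b {t | t0 + t * Real.exp (-l) ∈ I} (resc k t0 y l)) ∧
  (MeasurableSet I → SN b {t | t0 + t * Real.exp (-l) ∈ I} (resc k t0 y l) = SN b I k) ∧
  ∀ t, ‖resc k t0 y l t‖ = ‖k (t0 + t * Real.exp (-l))‖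

/-- **G12** (one bubble takes everything). Proof as QWE.G12. -/
def St_G12 : Prop := ∀ b : ℝ, 2 < b → ∀ Ac : ℝ, (∀ A' < Ac, LA b A' < ⊤) →
  ∀ (τ δ : ℕ → ℝ) (k : ℕ → ℝ → K) (φ : K), (∀ n, 0 ≤ τ n) → (∀ n, IsSol b (Icc 0 (τ n)) (k n)) →
  Tendsto δ atTop (𝓝 0) → (∀ n, ∀ t ∈ Icc 0 (τ n), ‖k n t‖ ≤ Ac + δ n) →
  Tendsto (fun n => SN b (Icc 0 (τ n)) (k n)) atTop (𝓝 ⊤) → WTo (fun n => k n 0) φ → φ ≠ 0 →
  Tendsto (fun n => k n 0) atTop (𝓝 φ)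

/-- **G13a** (passing to the limit in a sequence of blowing up solutions). Proof as QWE.G13a. -/
def St_G13a : Prop := ∀ b : ℝ, 2 < b → ∀ (Ac : ℝ) (τ δ : ℕ → ℝ) (k : ℕ → ℝ → K) (φ : K), (∀ n, 0 ≤ τ n) →
  (∀ n, IsSol b (Icc 0 (τ n)) (k n)) → Tendsto δ atTop (𝓝 0) →
  (∀ n, ∀ t ∈ Icc 0 (τ n), ‖k n t‖ ≤ Ac + δ n) →
  Tendsto (fun n => SN b (Icc 0 (τ n)) (k n)) atTop (𝓝 ⊤) → Tendsto (fun n => k n 0) atTop (𝓝 φ) →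
  ∃ (I : Set ℝ) (a : ℝ → K), IsMax b I a ∧ (0 : ℝ) ∈ I ∧ a 0 = φ ∧ (∀ t ∈ I, 0 ≤ t → ‖a t‖ ≤ Ac) ∧
    SN b (I ∩ Ici 0) a = ⊤ ∧
    ∀ T ∈ I, 0 ≤ T → (∀ᶠ n in atTop, T ≤ τ n) ∧ ∀ ε : ℝ, 0 < ε →
      ∀ᶠ n in atTop, (∀ t ∈ Icc 0 T, ‖k n t - a t‖ < ε) ∧
        SN b (Icc 0 T) (fun t => k n t - a t) < ENNReal.ofReal ε

/-- **G13** (critical element). Proof as QWE.G13. -/
def St_G13 : Prop := ∀ b : ℝ, 2 < b → (∃ A : ℝ, LA b A = ⊤) → ∃ (Ac : ℝ) (I : Set ℝ) (a : ℝ → K), Crit b Ac I a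

/-- **G14** (forward precompactness modulo symmetries). Proof as QWE.G14; there `16 = 2⁴` becomes `2^b`. -/
def St_G14 : Prop := ∀ b : ℝ, 2 < b → ∀ (Ac : ℝ) (I : Set ℝ) (a : ℝ → K), Crit b Ac I a → ∀ t : ℕ → ℝ,
  (∀ n, t n ∈ I ∧ 0 ≤ t n) → (∀ T ∈ I, ∀ᶠ n in atTop, T ≤ t n) →
  ∃ (φ : ℕ → ℕ) (y : ℕ → E) (l : ℕ → ℝ) (κ : K), StrictMono φ ∧ κ ≠ 0 ∧
    Tendsto (fun n => ig (y n) (l n) (a (t (φ n)))) atTop (𝓝 κ)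

/-- **FbPP** (the bubble functional). Proof as QWE.FbP, with PsiNZP. -/
def St_FbPP : Prop := ∀ (s : ℝ) (ψ : E → ℝ), |s| < 1 / 2 → IsPsi ψ →
  (∃ C : ℝ, ∀ k k' : K, |Fb s ψ k - Fb s ψ k'| ≤ C * ‖k - k'‖) ∧
  (∀ (k : K) (y : E) (l : ℝ), Fb s ψ (gr y l k) = Fb s ψ k) ∧
  (∀ k : K, k ≠ 0 → 0 < Fb s ψ k ∧ ∃ (y : E) (l : ℝ),
    Fb s ψ k / 2 ≤ max |inner ℝ (ig y l k) (Rs s ψ)| |inner ℝ (ig y l k) (dRs s ψ)|)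

/-- **G15** (choice of the parameters). Proof as QWE.G15. -/
def St_G15 : Prop := ∀ b : ℝ, 2 < b → ∀ (Ac : ℝ) (I : Set ℝ) (a : ℝ → K), Crit b Ac I a →
  ∃ (Q : Set K) (x : ℝ → E) (l : ℝ → ℝ), IsCompact Q ∧ (0 : K) ∉ Q ∧
    ∀ t ∈ I, 0 ≤ t → ∃ κ ∈ Q, a t = gr (x t) (l t) κ

/-- **G16** (a two sided compact solution). Proof as QWE.G16. -/
def St_G16 : Prop := ∀ b : ℝ, 2 < b → ∀ (Ac : ℝ) (I : Set ℝ) (a : ℝ → K), Crit b Ac I a →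
  ∃ (Q : Set K) (I' : Set ℝ) (k : ℝ → K) (x : ℝ → E) (l : ℝ → ℝ), CSol b Q I' k x l

end Pool.Agent.QWP
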