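import Pool.Agent.QWL.Unif
import Pool.Agent.QWP.Duh

set_option autoImplicit false

/-!
# QWP, Unif: the uniform space-time bound in the terms of `QWL`, `d = 5`
-/

open MeasureTheory Filter Topology Set
open scoped ENNReal NNReal

namespace Pool.Agent.QWP

open Pool.Agent.QWE (E S sg mu K toK tau sh dl rev gr ig IsTest pd lap Rad dRad Rk dRk c0 WD Sm SmE IsSch half shr WTo)

private lemma uHN_eq (p : ℝ) (f g : E → ℝ) : Pool.Agent.QWL.HN p f g = HN (p - 1) f g := by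
  have h1 : Pool.Agent.QWL.sc 5 p = 5 / 2 - 2 / (p - 1) := by
    unfold Pool.Agent.QWL.sc
    norm_num
  have h2 : Pool.Agent.QWL.sc 5 p - 1 = 3 / 2 - 2 / (p - 1) := by
    rw [h1]
    ring
  unfold Pool.Agent.QWL.HN HN
  rw [h2, h1]
  rfl

private lemma usoln_eq (p : ℝ) (I : Set ℝ) (u v : ℝ → E → ℝ) :
    Pool.Agent.QWL.IsSoln p I u v ↔ IsSolnD (p - 1) I u v := by
  unfold Pool.Agent.QWL.IsSoln IsSolnD
  simp only [uHN_eq, Nat.cast_ofNat]
  exact Iff.rfl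

/-- **The uniform bound** from `St_Final`. -/
theorem thm_Unif5 (hG : Pool.Agent.QWE.St_Grp1) (hFt : St_Ft) (hFreX : St_FreX) (hFldP : St_FldP)
    (hMeas : St_Meas) (hNLb : St_NLb) (hDnsP : St_DnsP) (hBr1 : St_Br1) (hBr2 : St_Br2)
    (hBr3 : St_Br3) (hF : St_Final) : ∀ p : ℝ, 3 < p → Pool.Agent.QWL.UnifBound 5 p := by
  intro p hp A
  have hb : 2 < p - 1 := by linarith
  obtain ⟨L, hL⟩ := (hF (p - 1) hb).2 A
  refine ⟨L, fun I u v h hA => ?_⟩
  have h1 : IsSoln (p - 1) I u v :=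
    (IsSolnD_iff hG hFt hFreX hFldP hMeas hNLb hDnsP hBr1 hBr2 hBr3 hb).1 ((usoln_eq p I u v).1 h)
  have h2 := hL I u v h1 fun t ht => by
    rw [← uHN_eq]
    exact hA t ht
  simpa only [Nat.cast_ofNat] using h2

end Pool.Agent.QWP
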