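import Pool.Agent.QWP.StA

set_option autoImplicit false

/-!
# QWP: module XP (fractional differences of the fields)

The bounds hold for test states by the Gagliardo formula and the Sobolev inequality; the general case follows by
approximation, Fatou in `x` and in `h`.
-/

open MeasureTheory Filter Topology Set
open scoped ENNReal NNReal RealInnerProductSpace ContDiff

namespace Pool.Agent.QWP

open Pool.Agent.QWE (E S sg mu K toK tau sh dl rev gr ig IsTest pd lap Rad dRad Rk dRk c0 WD Sm SmE IsSch half shr WTo)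

namespace XPx

theorem sch {f : E → ℝ} (hf : IsTest f) : IsSch f :=
  ⟨hf.2.toSchwartzMap hf.1, fun _ => rfl⟩

theorem test_pd {φ : E → ℝ} (hφ : IsTest φ) (i : Fin 5) : IsTest (pd i φ) := by
  refine ⟨?_, ?_⟩
  · have h1 : ContDiff ℝ ∞ (fderiv ℝ φ) := hφ.1.fderiv_right (by norm_num)
    exact h1.clm_apply contDiff_const
  · exact (hφ.2.fderiv ℝ).comp_left (g := fun L : E →L[ℝ] ℝ => L (EuclideanSpace.single i (1 : ℝ)))
      (by simp)

theorem test_dh {f : E → ℝ} (hf : IsTest f) (h : E) : IsTest (Dh h f) := by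
  refine ⟨(hf.1.comp (contDiff_id.add contDiff_const)).sub hf.1, ?_⟩
  have h1 : HasCompactSupport (fun x => f (x + h)) := hf.2.comp_homeomorph (Homeomorph.addRight h)
  have h2 : HasCompactSupport ((fun x => f (x + h)) + -f) := h1.add hf.2.neg
  have h3 : Dh h f = (fun x => f (x + h)) + -f := by
    funext x; simp [Dh, sub_eq_add_neg]
  rwa [h3]

theorem pd_dh {f : E → ℝ} (hf : IsTest f) (h : E) (i : Fin 5) : pd i (Dh h f) = Dh h (pd i f) := by
  funext x
  have hd : Differentiable ℝ f := hf.1.differentiable (by norm_num)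
  have e1 : fderiv ℝ (Dh h f) x = fderiv ℝ f (x + h) - fderiv ℝ f x := by
    have h1 : HasFDerivAt (fun y : E => f (y + h)) (fderiv ℝ f (x + h)) x := by
      have h2 := (hd (x + h)).hasFDerivAt.comp x ((hasFDerivAt_id x).add_const h)
      rw [ContinuousLinearMap.comp_id] at h2
      exact h2
    exact (h1.sub (hd x).hasFDerivAt).fderiv
  simp only [pd, Dh, e1]
  rfl

/-- The integrand of `gag`. -/
noncomputable def W (a : ℝ) (r : ℝ≥0∞) (f : E → ℝ) (h : E) : ℝ≥0∞ :=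
  ENNReal.ofReal (‖h‖ ^ (-5 - 2 * a)) * eLpNorm (Dh h f) r volume ^ 2

theorem gag_sq (a : ℝ) (r : ℝ≥0∞) (f : E → ℝ) : gag a r f ^ 2 = ∫⁻ h, W a r f h := by
  rw [gag, ← ENNReal.rpow_natCast, ← ENNReal.rpow_mul]
  norm_num
  rfl

theorem meas_norm {r : ℝ≥0∞} (h0 : r ≠ 0) (h1 : r ≠ ⊤) {f : E → ℝ} (hf : Continuous f) :
    Measurable fun h : E => eLpNorm (Dh h f) r volume := by
  simp only [eLpNorm_eq_lintegral_rpow_enorm_toReal h0 h1]
  refine Measurable.pow_const ?_ _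
  have h2 : Measurable (Function.uncurry fun (h x : E) => ‖Dh h f x‖ₑ ^ r.toReal) := by
    refine Measurable.pow_const ?_ _
    have h3 : Continuous fun z : E × E => f (z.2 + z.1) - f z.2 := by fun_prop
    exact h3.measurable.enorm
  exact h2.lintegral_prod_right'

theorem meas_W (a : ℝ) {r : ℝ≥0∞} (h0 : r ≠ 0) (h1 : r ≠ ⊤) {f : E → ℝ} (hf : Continuous f) :
    Measurable (W a r f) :=
  ((measurable_norm.pow_const _).ennreal_ofReal).mul ((meas_norm h0 h1 hf).pow_const 2)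

theorem sum_sq (x : Fin 5 → ℝ≥0∞) : (∑ i, x i) ^ 2 ≤ 25 * ∑ i, x i ^ 2 := by
  set m := (∑ i, x i ^ 2) ^ (1 / 2 : ℝ) with hm
  have h1 : ∀ i, x i ≤ m := by
    intro i
    have h2 : x i ^ 2 ≤ ∑ i, x i ^ 2 :=
      Finset.single_le_sum (f := fun i => x i ^ 2) (fun _ _ => bot_le) (Finset.mem_univ i)
    have h3 := ENNReal.rpow_le_rpow h2 (show (0 : ℝ) ≤ 1 / 2 by norm_num)
    rw [← ENNReal.rpow_natCast, ← ENNReal.rpow_mul] at h3
    norm_num at h3
    rw [hm]
    norm_num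
    exact h3
  have h2 : ∑ i, x i ≤ 5 * m := by
    calc ∑ i, x i ≤ ∑ _i : Fin 5, m := Finset.sum_le_sum fun i _ => h1 i
      _ = 5 * m := by simp
  have h3 : m ^ 2 = ∑ i, x i ^ 2 := by
    rw [hm, ← ENNReal.rpow_natCast, ← ENNReal.rpow_mul]
    norm_num
  calc (∑ i, x i) ^ 2 ≤ (5 * m) ^ 2 := pow_le_pow_left' h2 2
    _ = 25 * ∑ i, x i ^ 2 := by rw [mul_pow, h3]; norm_num

/-- Sobolev inequality for `gag`. -/
theorem gag_sob {C : ℝ} (hC : ∀ f : E → ℝ, IsTest f →
      eLpNorm f (10 / 3) volume ≤ ENNReal.ofReal C * ∑ i, eLpNorm (pd i f) 2 volume)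
    (a : ℝ) {f : E → ℝ} (hf : IsTest f) :
    gag a (10 / 3) f ^ 2 ≤ ENNReal.ofReal C ^ 2 * 25 * ∑ i, gag a 2 (pd i f) ^ 2 := by
  simp only [gag_sq]
  rw [← lintegral_finsetSum _ fun i _ => meas_W a (by norm_num) (by norm_num) (test_pd hf i).1.continuous,
    ← lintegral_const_mul _ (Finset.measurable_fun_sum _ fun i _ =>
      meas_W a (by norm_num) (by norm_num) (test_pd hf i).1.continuous)]
  refine lintegral_mono fun h => ?_
  simp only [W]
  have h1 : eLpNorm (Dh h f) (10 / 3) volume ^ 2 ≤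
      (ENNReal.ofReal C * ∑ i, eLpNorm (Dh h (pd i f)) 2 volume) ^ 2 := by
    refine pow_le_pow_left' ?_ 2
    have := hC _ (test_dh hf h)
    simpa only [pd_dh hf h] using this
  have h2 := sum_sq fun i => eLpNorm (Dh h (pd i f)) 2 volume
  calc ENNReal.ofReal (‖h‖ ^ (-5 - 2 * a)) * eLpNorm (Dh h f) (10 / 3) volume ^ 2
      ≤ ENNReal.ofReal (‖h‖ ^ (-5 - 2 * a)) * (ENNReal.ofReal C ^ 2 *
        (25 * ∑ i, eLpNorm (Dh h (pd i f)) 2 volume ^ 2)) := by
        gcongr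
        refine h1.trans ?_
        rw [mul_pow]
        gcongr
    _ = _ := by
        rw [← Finset.mul_sum]
        ring

theorem sq_cancel {x y : ℝ≥0∞} (h : x ^ 2 ≤ y ^ 2) : x ≤ y := by
  by_contra h0
  exact absurd h (not_le.2 (ENNReal.pow_lt_pow_left two_ne_zero (not_le.1 h0)))

/-- Fatou. -/
theorem gag_fatou (a : ℝ) {r : ℝ≥0∞} (h0 : r ≠ 0) (h1 : r ≠ ⊤) {f : ℕ → E → ℝ} {F : E → ℝ}
    (hf : ∀ n, Continuous (f n)) (hF : ∀ᵐ x, Tendsto (fun n => f n x) atTop (𝓝 (F x)))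
    {B : ℕ → ℝ≥0∞} {B' : ℝ≥0∞} (hB : ∀ n, gag a r (f n) ≤ B n) (hB' : Tendsto B atTop (𝓝 B')) :
    gag a r F ≤ B' := by
  have key : gag a r F ^ 2 ≤ B' ^ 2 := by
    rw [gag_sq]
    have h2 : ∀ h, W a r F h ≤ liminf (fun n => W a r (f n) h) atTop := by
      intro h
      have h3 : eLpNorm (Dh h F) r volume ≤ liminf (fun n => eLpNorm (Dh h (f n)) r volume) atTop := by
        refine Lp.eLpNorm_lim_le_liminf_eLpNorm (fun n => ?_) _ ?_
        · exact ((hf n).comp (continuous_id.add continuous_const)).sub (hf n) |>.aestronglyMeasurable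
        · have h4 : ∀ᵐ x, Tendsto (fun n => f n (x + h)) atTop (𝓝 (F (x + h))) :=
            (measurePreserving_add_right volume h).quasiMeasurePreserving.ae hF
          filter_upwards [hF, h4] with x h5 h6
          exact h6.sub h5
      let g : ℝ≥0∞ → ℝ≥0∞ := fun x => ENNReal.ofReal (‖h‖ ^ (-5 - 2 * a)) * x ^ 2
      have hg : Monotone g := fun x y hxy => by
        simp only [g]
        gcongr
      have hgc : Continuous g :=
        (ENNReal.continuous_const_mul ENNReal.ofReal_ne_top).comp (ENNReal.continuous_pow 2)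
      calc W a r F h = g (eLpNorm (Dh h F) r volume) := rfl
        _ ≤ g (liminf (fun n => eLpNorm (Dh h (f n)) r volume) atTop) := hg h3
        _ = liminf (g ∘ fun n => eLpNorm (Dh h (f n)) r volume) atTop :=
            hg.map_liminf_of_continuousAt _ hgc.continuousAt
        _ = _ := rfl
    calc ∫⁻ h, W a r F h ≤ ∫⁻ h, liminf (fun n => W a r (f n) h) atTop := lintegral_mono h2
      _ ≤ liminf (fun n => ∫⁻ h, W a r (f n) h) atTop :=
          lintegral_liminf_le fun n => meas_W a h0 h1 (hf n)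
      _ ≤ liminf (fun n => B n ^ 2) atTop := by
          refine liminf_le_liminf (Eventually.of_forall fun n => ?_)
          rw [← gag_sq]
          exact pow_le_pow_left' (hB n) 2
      _ = B' ^ 2 := (((ENNReal.continuous_pow 2).tendsto B').comp hB').liminf_eq
  exact sq_cancel key

/-- Norm convergence, passage to the limit in `gag`. -/
theorem gag_lim (a : ℝ) {r : ℝ≥0∞} (h0 : r ≠ 0) (h1 : r ≠ ⊤) {p : ℝ≥0∞} (hp : p ≠ 0)
    {u : ℕ → E → ℝ} {G : E → ℝ} (hu : ∀ n, Continuous (u n)) (hG : AEStronglyMeasurable G volume)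
    {b : ℕ → ℝ≥0∞} (hb : Tendsto b atTop (𝓝 0)) (h : ∀ n, eLpNorm (u n - G) p volume ≤ b n)
    {B : ℕ → ℝ≥0∞} {B' : ℝ≥0∞} (hB : ∀ n, gag a r (u n) ≤ B n) (hB' : Tendsto B atTop (𝓝 B')) :
    gag a r G ≤ B' := by
  have hm : TendstoInMeasure volume u atTop G :=
    tendstoInMeasure_of_tendsto_eLpNorm hp (fun n => (hu n).aestronglyMeasurable) hG
      (tendsto_of_tendsto_of_tendsto_of_le_of_le tendsto_const_nhds hb (fun _ => bot_le) h)
  obtain ⟨ns, hns, hae⟩ := hm.exists_seq_tendsto_ae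
  exact gag_fatou a h0 h1 (fun n => hu (ns n)) hae (fun n => hB (ns n))
    (hB'.comp hns.tendsto_atTop)

theorem hs_nonneg (a : ℝ) (f : E → ℝ) : 0 ≤ hs a f := by
  unfold hs
  exact integral_nonneg fun ξ => by positivity

/-- Bounds for test states. -/
theorem test_bound (hSob : Pool.Agent.QWE.St_Sob) (hHs : St_Hs) (hGag : St_GagP) {a : ℝ} (ha0 : 0 < a)
    (ha1 : a < 1) : ∃ D : ℝ, 0 < D ∧ ∀ (f : E → ℝ) (M : ℝ), IsTest f → 0 ≤ M →
      (hs a f ≤ M ^ 2 → gag a 2 f ≤ ENNReal.ofReal (D * M)) ∧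
      (hs (a + 1) f ≤ M ^ 2 → gag a (10 / 3) f ≤ ENNReal.ofReal (D * M)) := by
  obtain ⟨C, hC0, hC⟩ := hSob
  obtain ⟨C', hC'0, hC'⟩ := hGag a ha0 ha1
  have hs1 : 0 < Real.sqrt C' := Real.sqrt_pos.2 hC'0
  have hs2 : Real.sqrt C' ^ 2 = C' := Real.sq_sqrt hC'0.le
  refine ⟨Real.sqrt C' * (1 + 5 * C), by positivity, fun f M hf hM => ⟨fun h => ?_, fun h => ?_⟩⟩
  · refine sq_cancel ?_
    rw [hC' f (sch hf), ← ENNReal.ofReal_pow (by positivity)]
    refine ENNReal.ofReal_le_ofReal ?_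
    have h1 : C' * hs a f ≤ C' * M ^ 2 := by gcongr
    refine h1.trans ?_
    have h2 : (1 : ℝ) ≤ (1 + 5 * C) ^ 2 := by nlinarith
    calc C' * M ^ 2 = C' * M ^ 2 * 1 := by ring
      _ ≤ C' * M ^ 2 * (1 + 5 * C) ^ 2 := by gcongr
      _ = (Real.sqrt C' * (1 + 5 * C) * M) ^ 2 := by rw [mul_pow, mul_pow, hs2]; ring
  · refine sq_cancel ?_
    refine (gag_sob (fun f hf => (hC f hf).2.2.2) a hf).trans ?_
    have h1 : ∑ i, gag a 2 (pd i f) ^ 2 = ENNReal.ofReal (C' * hs (a + 1) f) := by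
      rw [← hHs.2.2.2.2.2.1 a f (by linarith) (sch hf), Finset.mul_sum,
        ENNReal.ofReal_sum_of_nonneg fun i _ => mul_nonneg hC'0.le (hs_nonneg _ _)]
      refine Finset.sum_congr rfl fun i _ => ?_
      rw [hC' _ (sch (test_pd hf i))]
    rw [h1, ← ENNReal.ofReal_pow hC0.le, ← ENNReal.ofReal_pow (by positivity),
      show (25 : ℝ≥0∞) = ENNReal.ofReal 25 by norm_num, ← ENNReal.ofReal_mul (by positivity),
      ← ENNReal.ofReal_mul (by positivity)]
    refine ENNReal.ofReal_le_ofReal ?_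
    calc C ^ 2 * 25 * (C' * hs (a + 1) f) ≤ C ^ 2 * 25 * (C' * M ^ 2) := by gcongr
      _ ≤ C' * M ^ 2 * (1 + 5 * C) ^ 2 := by
          have : 0 ≤ C' * M ^ 2 * (1 + 10 * C) := by positivity
          nlinarith
      _ = (Real.sqrt C' * (1 + 5 * C) * M) ^ 2 := by rw [mul_pow, mul_pow, hs2]; ring

end XPx

open XPx

theorem thm_XP (hSob : Pool.Agent.QWE.St_Sob) (hIso : St_IsoP) (hHs : St_Hs) (hDns : St_DnsP)
    (hFld : St_FldP) (hGag : St_GagP) : St_XP := by
  intro s hs0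
  obtain ⟨C1, hC1, hf1, hf2, hf3⟩ := hFld s hs0
  have hs' := abs_lt.1 hs0
  have hc0 : 0 < c0 := by unfold Pool.Agent.QWE.c0; positivity
  -- approximation
  have happ : ∀ k : K, ∃ (f g : ℕ → E → ℝ), (∀ n, IsTest (f n)) ∧ (∀ n, IsTest (g n)) ∧
      (∀ n, hs (2 + s) (f n) ≤ (Real.sqrt (1 / c0) * (‖k‖ + 1 / ((n : ℝ) + 1))) ^ 2) ∧
      (∀ n, hs (1 + s) (g n) ≤ (Real.sqrt (1 / c0) * (‖k‖ + 1 / ((n : ℝ) + 1))) ^ 2) ∧
      (∀ n, eLpNorm (f n - U s k) (q0 s) volume ≤ ENNReal.ofReal (C1 * (1 / ((n : ℝ) + 1)))) ∧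
      (∀ n, eLpNorm (g n - V s k) (q1 s) volume ≤ ENNReal.ofReal (C1 * (1 / ((n : ℝ) + 1)))) ∧
      (∀ n i, eLpNorm (pd i (f n) - DU s k i) (q1 s) volume ≤
        ENNReal.ofReal (C1 * (1 / ((n : ℝ) + 1)))) := by
    intro k
    have h := fun n : ℕ => (hDns s hs0).2.1 k (1 / ((n : ℝ) + 1)) (by positivity)
    choose f g hf hg hfg using h
    have hn : ∀ n, ‖Theta s (f n) (g n)‖ ≤ ‖k‖ + 1 / ((n : ℝ) + 1) := by
      intro n
      have e : Theta s (f n) (g n) = k - (k - Theta s (f n) (g n)) := by abel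
      rw [e]
      exact (norm_sub_le _ _).trans (by gcongr; exact (hfg n).le)
    have hi : ∀ n, hs (2 + s) (f n) + hs (1 + s) (g n) ≤
        (Real.sqrt (1 / c0) * (‖k‖ + 1 / ((n : ℝ) + 1))) ^ 2 := by
      intro n
      have h1 := (hIso s (f n) (g n) hs0 (sch (hf n)) (sch (hg n))).2.2.2.2.2.2.1
      have h2 : ‖Theta s (f n) (g n)‖ ^ 2 ≤ (‖k‖ + 1 / ((n : ℝ) + 1)) ^ 2 :=
        pow_le_pow_left₀ (norm_nonneg _) (hn n) 2
      rw [mul_pow, Real.sq_sqrt (by positivity)]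
      rw [h1] at h2
      rw [one_div, ← div_eq_inv_mul, le_div_iff₀ hc0]
      linarith
    have hb : ∀ n, ‖Theta s (f n) (g n) + (-1 : ℝ) • k‖ₑ ≤ ENNReal.ofReal (1 / ((n : ℝ) + 1)) := by
      intro n
      rw [← ofReal_norm]
      refine ENNReal.ofReal_le_ofReal ?_
      have e : Theta s (f n) (g n) + (-1 : ℝ) • k = -(k - Theta s (f n) (g n)) := by
        rw [neg_one_smul]; abel
      rw [e, norm_neg]
      exact (hfg n).le
    have hb' : ∀ n, ENNReal.ofReal C1 * ‖Theta s (f n) (g n) + (-1 : ℝ) • k‖ₑ ≤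
        ENNReal.ofReal (C1 * (1 / ((n : ℝ) + 1))) := by
      intro n
      rw [ENNReal.ofReal_mul hC1.le]
      gcongr
      exact hb n
    refine ⟨f, g, hf, hg, fun n => ?_, fun n => ?_, fun n => ?_, fun n => ?_, fun n i => ?_⟩
    · have := hi n
      have := hs_nonneg (1 + s) (g n)
      linarith
    · have := hi n
      have := hs_nonneg (2 + s) (f n)
      linarith
    · have e : f n - U s k =ᵐ[volume] U s (Theta s (f n) (g n) + (-1 : ℝ) • k) := by
        filter_upwards [(hf3 _ _ (hf n) (hg n)).1, (hf2 (-1) (Theta s (f n) (g n)) k).1] with x h1 h2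
        rw [h2, h1, Pi.sub_apply]; ring
      rw [eLpNorm_congr_ae e]
      exact (hf1 _).2.1.trans (hb' n)
    · have e : g n - V s k =ᵐ[volume] V s (Theta s (f n) (g n) + (-1 : ℝ) • k) := by
        filter_upwards [(hf3 _ _ (hf n) (hg n)).2.1, (hf2 (-1) (Theta s (f n) (g n)) k).2.1]
          with x h1 h2
        rw [h2, h1, Pi.sub_apply]; ring
      rw [eLpNorm_congr_ae e]
      exact (hf1 _).2.2.2.1.trans (hb' n)
    · have e : pd i (f n) - DU s k i =ᵐ[volume] DU s (Theta s (f n) (g n) + (-1 : ℝ) • k) i := by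
        filter_upwards [(hf3 _ _ (hf n) (hg n)).2.2 i, (hf2 (-1) (Theta s (f n) (g n)) k).2.2 i]
          with x h1 h2
        rw [h2, h1, Pi.sub_apply]; ring
      rw [eLpNorm_congr_ae e]
      exact ((hf1 _).2.2.2.2.1 i).2.2.trans (hb' n)
  have hzero : Tendsto (fun n : ℕ => ENNReal.ofReal (C1 * (1 / ((n : ℝ) + 1)))) atTop (𝓝 0) := by
    have h1 : Tendsto (fun n : ℕ => C1 * (1 / ((n : ℝ) + 1))) atTop (𝓝 0) := by
      simpa using tendsto_one_div_add_atTop_nhds_zero_nat.const_mul C1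
    simpa using ENNReal.tendsto_ofReal h1
  have hlim : ∀ (D : ℝ) (k : K), 0 < D → Tendsto (fun n : ℕ =>
      ENNReal.ofReal (D * (Real.sqrt (1 / c0) * (‖k‖ + 1 / ((n : ℝ) + 1))))) atTop
      (𝓝 (ENNReal.ofReal (D * Real.sqrt (1 / c0)) * ‖k‖ₑ)) := by
    intro D k hD
    have h1 : Tendsto (fun n : ℕ => D * (Real.sqrt (1 / c0) * (‖k‖ + 1 / ((n : ℝ) + 1)))) atTop
        (𝓝 (D * (Real.sqrt (1 / c0) * (‖k‖ + 0)))) :=
      (((tendsto_const_nhds.add tendsto_one_div_add_atTop_nhds_zero_nat)).const_mul _).const_mul _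
    have h2 := ENNReal.tendsto_ofReal h1
    have e : ENNReal.ofReal (D * (Real.sqrt (1 / c0) * (‖k‖ + 0))) =
        ENNReal.ofReal (D * Real.sqrt (1 / c0)) * ‖k‖ₑ := by
      rw [← ofReal_norm, ← ENNReal.ofReal_mul (by positivity)]
      congr 1
      ring
    rwa [e] at h2
  have hq0 : q0 s ≠ 0 := by
    unfold q0
    rw [Ne, ENNReal.ofReal_eq_zero, not_le]
    have : 0 < 1 - 2 * s := by linarith
    positivity
  have hq1 : q1 s ≠ 0 := by
    unfold q1
    rw [Ne, ENNReal.ofReal_eq_zero, not_le]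
    have : 0 < 3 - 2 * s := by linarith
    positivity
  have hr : (10 / 3 : ℝ≥0∞) ≠ 0 := by norm_num
  have hr' : (10 / 3 : ℝ≥0∞) ≠ ⊤ := ENNReal.div_ne_top (by norm_num) (by norm_num)
  rcases lt_trichotomy s 0 with hneg | hz | hpos
  · obtain ⟨D, hD, hb⟩ := test_bound hSob hHs hGag (a := 1 + s) (by linarith) (by linarith)
    refine ⟨D * Real.sqrt (1 / c0), by positivity, fun k => ⟨fun _ => ⟨?_, fun i => ?_, ?_⟩,
      fun h => absurd h (not_lt.2 hneg.le)⟩⟩
    · obtain ⟨f, g, hf, hg, e1, e2, e3, e4, e5⟩ := happ k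
      refine gag_lim (1 + s) hr hr' hq0 (fun n => (hf n).1.continuous) (hf1 k).1.1.1 hzero e3
        (fun n => (hb (f n) _ (hf n) (by positivity)).2 ?_) (hlim D k hD)
      rw [show 1 + s + 1 = 2 + s by ring]
      exact e1 n
    · obtain ⟨f, g, hf, hg, e1, e2, e3, e4, e5⟩ := happ k
      refine gag_lim (1 + s) (by norm_num) (by norm_num) hq1
        (fun n => (test_pd (hf n) i).1.continuous) ((hf1 k).2.2.2.2.1 i).1.1 hzero
        (fun n => e5 n i)
        (fun n => (hb (pd i (f n)) _ (test_pd (hf n) i) (by positivity)).1 ?_) (hlim D k hD)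
      refine le_trans ?_ (e1 n)
      have h1 := hHs.2.2.2.2.2.1 (1 + s) (f n) (by linarith) (sch (hf n))
      rw [show 1 + s + 1 = 2 + s by ring] at h1
      rw [← h1]
      exact Finset.single_le_sum (f := fun i => hs (1 + s) (pd i (f n)))
        (fun i _ => hs_nonneg _ _) (Finset.mem_univ i)
    · obtain ⟨f, g, hf, hg, e1, e2, e3, e4, e5⟩ := happ k
      exact gag_lim (1 + s) (by norm_num) (by norm_num) hq1 (fun n => (hg n).1.continuous)
        (hf1 k).2.2.1.1.1 hzero e4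
        (fun n => (hb (g n) _ (hg n) (by positivity)).1 (e2 n)) (hlim D k hD)
  · exact ⟨1, one_pos, fun k => ⟨fun h => absurd h (by rw [hz]; exact lt_irrefl _),
      fun h => absurd h (by rw [hz]; exact lt_irrefl _)⟩⟩
  · obtain ⟨D, hD, hb⟩ := test_bound hSob hHs hGag (a := s) hpos (by linarith)
    refine ⟨D * Real.sqrt (1 / c0), by positivity, fun k => ⟨fun h => absurd h (not_lt.2 hpos.le),
      fun _ i => ?_⟩⟩
    obtain ⟨f, g, hf, hg, e1, e2, e3, e4, e5⟩ := happ k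
    refine gag_lim s hr hr' hq1 (fun n => (test_pd (hf n) i).1.continuous)
      ((hf1 k).2.2.2.2.1 i).1.1 hzero (fun n => e5 n i)
      (fun n => (hb (pd i (f n)) _ (test_pd (hf n) i) (by positivity)).2 ?_) (hlim D k hD)
    refine le_trans ?_ (e1 n)
    have h1 := hHs.2.2.2.2.2.1 (s + 1) (f n) (by linarith) (sch (hf n))
    rw [show s + 1 + 1 = 2 + s by ring] at h1
    rw [← h1]
    exact Finset.single_le_sum (f := fun i => hs (s + 1) (pd i (f n)))
      (fun i _ => hs_nonneg _ _) (Finset.mem_univ i)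

end Pool.Agent.QWP
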